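import Mathlib

/-!
# M8: the rank of a matrix does not change under a field extension
-/

set_option autoImplicit false

namespace Pool.Agent.AbsIrr

open Module

variable {K : Type*} [Field K]

private theorem exists_factor {m n : Type*} [Fintype m] [Fintype n] [DecidableEq n]
    (A : Matrix m n K) :
    ∃ (B : Matrix m (Fin A.rank) K) (C : Matrix (Fin A.rank) n K), A = B * C := by
  classical
  let b : Basis (Fin A.rank) K (LinearMap.range A.mulVecLin) :=
    Module.finBasisOfFinrankEq K _ rfl
  have hmem : ∀ j : n, A.mulVec (Pi.single j 1) ∈ LinearMap.range A.mulVecLin := fun j =>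
    ⟨Pi.single j 1, rfl⟩
  refine ⟨Matrix.of fun a i => (b i : m → K) a,
    Matrix.of fun i j => b.repr ⟨A.mulVec (Pi.single j 1), hmem j⟩ i, ?_⟩
  ext a j
  have h1 := congrArg (fun x : LinearMap.range A.mulVecLin => (x : m → K) a)
    (b.sum_repr ⟨A.mulVec (Pi.single j 1), hmem j⟩)
  simp only [Submodule.coe_sum, Submodule.coe_smul, Finset.sum_apply, Pi.smul_apply,
    smul_eq_mul, Matrix.mulVec_single_one, Matrix.col_apply] at h1
  rw [Matrix.mul_apply, ← h1]
  refine Finset.sum_congr rfl fun i _ => ?_
  simp only [Matrix.of_apply, Matrix.mulVec_single_one]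
  rw [mul_comm]

private theorem exists_left_right {m n : Type*} [Fintype m] [Fintype n] [DecidableEq m]
    [DecidableEq n] (A : Matrix m n K) :
    ∃ (P : Matrix (Fin A.rank) m K) (Q : Matrix n (Fin A.rank) K), P * A * Q = 1 := by
  classical
  let b : Basis (Fin A.rank) K (LinearMap.range A.mulVecLin) :=
    Module.finBasisOfFinrankEq K _ rfl
  have hx : ∀ i, ∃ x, A.mulVecLin x = b i := fun i => (b i).2
  choose x hx using hx
  have hli : LinearIndependent K (fun i => (b i : m → K)) :=
    b.linearIndependent.map' (Submodule.subtype _) (Submodule.ker_subtype _)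
  obtain ⟨π, hπ⟩ : ∃ π : (m → K) →ₗ[K] (Fin A.rank → K),
      ∀ i, π (b i : m → K) = Pi.single i 1 := by
    obtain ⟨π, hπ⟩ := LinearMap.exists_extend
      (p := Submodule.span K (Set.range (fun i => (b i : m → K))))
      ((Finsupp.linearEquivFunOnFinite K K (Fin A.rank)).toLinearMap ∘ₗ hli.repr)
    refine ⟨π, fun i => ?_⟩
    have h1 := congrArg (fun g => g ⟨(b i : m → K), Submodule.subset_span ⟨i, rfl⟩⟩) hπ
    simp only [LinearMap.comp_apply, Submodule.subtype_apply] at h1
    rw [h1]
    have h2 : hli.repr ⟨(b i : m → K), Submodule.subset_span ⟨i, rfl⟩⟩ = Finsupp.single i 1 :=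
      hli.repr_eq_single i _ rfl
    rw [h2]
    simp
  refine ⟨LinearMap.toMatrix' π, Matrix.of (fun a i => x i a), ?_⟩
  ext i j
  have h1 : ((LinearMap.toMatrix' π * A * Matrix.of (fun a i => x i a)) i j) =
      ((LinearMap.toMatrix' π).mulVec (A.mulVec (x j))) i := by
    rw [Matrix.mulVec_mulVec]
    rfl
  rw [h1, LinearMap.toMatrix'_mulVec]
  have h2 : A.mulVec (x j) = b j := hx j
  rw [h2, hπ j, Matrix.one_apply, Pi.single_apply]

theorem rank_map_field {k : Type*} [Field k] (σ : K →+* k) {m n : Type*} [Fintype m] [Fintype n]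
    [DecidableEq n] (A : Matrix m n K) : (A.map σ).rank = A.rank := by
  classical
  refine le_antisymm ?_ ?_
  · obtain ⟨B, C, h⟩ := exists_factor A
    have h1 : A.map σ = B.map σ * C.map σ := by
      conv_lhs => rw [h]
      exact Matrix.map_mul
    rw [h1]
    refine (Matrix.rank_mul_le_right _ _).trans ?_
    refine (Matrix.rank_le_card_height _).trans ?_
    simp
  · obtain ⟨P, Q, h⟩ := exists_left_right A
    have h1 : P.map σ * A.map σ * Q.map σ = 1 := by
      rw [← Matrix.map_mul, ← Matrix.map_mul, h]
      ext i j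
      by_cases hij : i = j
      · subst hij; simp
      · simp [hij]
    have hr : (P.map σ * A.map σ * Q.map σ).rank = A.rank := by
      rw [h1, Matrix.rank_one, Fintype.card_fin]
    have h2 := Matrix.rank_mul_le_left (P.map σ * A.map σ) (Q.map σ)
    have h3 := Matrix.rank_mul_le_right (P.map σ) (A.map σ)
    omega

end Pool.Agent.AbsIrr
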