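import Mathlib

/-!
# MP_2adc98_lc: the programming language and the statement

A small first-order language (deep embedding) for algebraic algorithms.  A program `A : Prog a b` is
one finite syntax tree; it can be run over every field `K`.  Types: natural numbers, field elements,
arrays of field elements, pairs.  `eval` is the value, `steps` the number of elementary steps.

An array is represented by the function of its entries (zero beyond its length); a program can only
read single entries and build new arrays entry by entry (`tab`).  Operations in the field and zero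
tests count one step; operations with natural numbers (also the loop counters and the addresses of
array entries) are charged with the number of bit operations.
-/

set_option autoImplicit false

namespace Pool.Agent.AbsIrr

/-- types of values -/
inductive Ty : Type
  | nat : Ty
  | fld : Ty
  | arr : Ty
  | prod : Ty → Ty → Ty

/-- values of a type, over the field (carrier) `K` -/
@[reducible] def Ty.val (K : Type) : Ty → Type
  | .nat => ℕ
  | .fld => K
  | .arr => ℕ → K
  | .prod a b => Ty.val K a × Ty.val K b

/-- programs with input type `a` and output type `b` -/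
inductive Prog : Ty → Ty → Type
  /-- the input -/
  | id (a : Ty) : Prog a a
  /-- composition: first `f`, then `g` -/
  | comp {a b c : Ty} (g : Prog b c) (f : Prog a b) : Prog a c
  | pair {a b c : Ty} (f : Prog a b) (g : Prog a c) : Prog a (.prod b c)
  | fst (a b : Ty) : Prog (.prod a b) a
  | snd (a b : Ty) : Prog (.prod a b) b
  /-- a natural number constant -/
  | lit (a : Ty) (n : ℕ) : Prog a .nat
  | add : Prog (.prod .nat .nat) .nat
  /-- truncated subtraction -/
  | sub : Prog (.prod .nat .nat) .nat
  | mul : Prog (.prod .nat .nat) .nat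
  | div : Prog (.prod .nat .nat) .nat
  | mod : Prog (.prod .nat .nat) .nat
  /-- comparison of natural numbers (1 = less than, 0 = not) -/
  | lt : Prog (.prod .nat .nat) .nat
  | zero (a : Ty) : Prog a .fld
  | one (a : Ty) : Prog a .fld
  | fadd : Prog (.prod .fld .fld) .fld
  | fsub : Prog (.prod .fld .fld) .fld
  | fmul : Prog (.prod .fld .fld) .fld
  /-- inverse, with `0⁻¹ = 0` -/
  | finv : Prog .fld .fld
  /-- zero test in the field (1 = is zero, 0 = is not) -/
  | isZero : Prog .fld .nat
  /-- reading an entry of an array -/
  | get : Prog (.prod .arr .nat) .fld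
  /-- if the value of `t` is nonzero then `f` else `g` -/
  | ite {a b : Ty} (t : Prog a .nat) (f g : Prog a b) : Prog a b
  /-- the array with the entries `f (x, i)`, `i < n` -/
  | tab {a : Ty} (n : Prog a .nat) (f : Prog (.prod a .nat) .fld) : Prog a .arr
  /-- loop: state `s`, then `n` rounds `s := f ((x, s), i)`, `i = 0, …, n-1` -/
  | iter {a b : Ty} (n : Prog a .nat) (s : Prog a b) (f : Prog (.prod (.prod a b) .nat) b) : Prog a b

/-- the charge for an operation with the natural numbers `m`, `n`: the product of the numbers of
binary digits (plus one), as for schoolbook multiplication and division -/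
def bitc (m n : ℕ) : ℕ := (Nat.size m + 1) * (Nat.size n + 1)

open Classical in
/-- the value computed by a program on an input, over the field `K` -/
noncomputable def Prog.eval (K : Type) [Field K] {a b : Ty} (t : Prog a b) :
    a.val K → b.val K :=
  Prog.rec (motive := fun a b _ => a.val K → b.val K)
    (id := fun _ x => x)
    (comp := fun _ _ g f x => g (f x))
    (pair := fun _ _ f g x => (f x, g x))
    (fst := fun _ _ x => x.1)
    (snd := fun _ _ x => x.2)
    (lit := fun _ n _ => n)
    (add := fun (x : ℕ × ℕ) => (x.1 + x.2 : ℕ))
    (sub := fun (x : ℕ × ℕ) => (x.1 - x.2 : ℕ))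
    (mul := fun (x : ℕ × ℕ) => (x.1 * x.2 : ℕ))
    (div := fun (x : ℕ × ℕ) => (x.1 / x.2 : ℕ))
    (mod := fun (x : ℕ × ℕ) => (x.1 % x.2 : ℕ))
    (lt := fun (x : ℕ × ℕ) => (if x.1 < x.2 then 1 else 0 : ℕ))
    (zero := fun _ _ => (0 : K))
    (one := fun _ _ => (1 : K))
    (fadd := fun (x : K × K) => (x.1 + x.2 : K))
    (fsub := fun (x : K × K) => (x.1 - x.2 : K))
    (fmul := fun (x : K × K) => (x.1 * x.2 : K))
    (finv := fun (x : K) => (x⁻¹ : K))
    (isZero := fun (x : K) => (if x = 0 then 1 else 0 : ℕ))
    (get := fun (x : (ℕ → K) × ℕ) => (x.1 x.2 : K))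
    (ite := fun _ _ _ (t : _ → ℕ) f g x => if t x ≠ 0 then f x else g x)
    (tab := fun _ _ (n : _ → ℕ) (f : _ → K) x => fun (i : ℕ) => if i < n x then f (x, i) else 0)
    (iter := fun _ _ _ (n : _ → ℕ) s f x =>
      Nat.rec (s x) (fun (i : ℕ) y => f ((x, y), i)) (n x))
    t

/-- the number of elementary steps of a program on an input, over the field `K`: field operations
and zero tests count `1`; operations with natural numbers, including the loop counters and the
addresses of array entries, are charged with the number of bit operations `bitc` -/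
noncomputable def Prog.steps (K : Type) [Field K] {a b : Ty} (t : Prog a b) : a.val K → ℕ :=
  Prog.rec (motive := fun a _ _ => a.val K → ℕ)
    (id := fun _ _ => 1)
    (comp := fun _ f cg cf x => cf x + cg (f.eval K x) + 1)
    (pair := fun _ _ cf cg x => cf x + cg x + 1)
    (fst := fun _ _ _ => 1)
    (snd := fun _ _ _ => 1)
    (lit := fun _ n _ => bitc n 0)
    (add := fun (x : ℕ × ℕ) => bitc x.1 x.2)
    (sub := fun (x : ℕ × ℕ) => bitc x.1 x.2)
    (mul := fun (x : ℕ × ℕ) => bitc x.1 x.2)
    (div := fun (x : ℕ × ℕ) => bitc x.1 x.2)
    (mod := fun (x : ℕ × ℕ) => bitc x.1 x.2)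
    (lt := fun (x : ℕ × ℕ) => bitc x.1 x.2)
    (zero := fun _ _ => 1)
    (one := fun _ _ => 1)
    (fadd := fun _ => 1)
    (fsub := fun _ => 1)
    (fmul := fun _ => 1)
    (finv := fun _ => 1)
    (isZero := fun _ => 1)
    (get := fun (x : (ℕ → K) × ℕ) => bitc x.2 0)
    (ite := fun t _ _ ct cf cg x =>
      ct x + (if (t.eval K x : ℕ) ≠ 0 then cf x else cg x) + 1)
    (tab := fun n _ cn cf x =>
      cn x + (∑ i ∈ Finset.range (n.eval K x), (cf (x, i) + bitc i 0)) + 1)
    (iter := fun n s f cn cs cf x => cn x + cs x + (∑ i ∈ Finset.range (n.eval K x),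
      (cf ((x, Nat.rec (s.eval K x) (fun j y => f.eval K ((x, y), j)) i), i) + bitc i 0)) + 1)
    t

/-! ### the statement -/

/-- `f` is irreducible over the algebraic closure -/
def AbsIrred {K : Type} [Field K] (f : MvPolynomial (Fin 2) K) : Prop :=
  Irreducible (MvPolynomial.map (algebraMap K (AlgebraicClosure K)) f)

/-- the type of the input of the program: `(d, (p, (coefficients of f, random elements)))` -/
abbrev Inp : Ty := .prod .nat (.prod .nat (.prod .arr .arr))

/-- the coefficients of `f` as an array over the field `L`: entry `i + (d + 1) j`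
(`i, j ≤ d`) is the coefficient of `x^i y^j` -/
noncomputable def coeffArray {K : Type} [Field K] (L : Type) [Field L] [Algebra K L] (d : ℕ)
    (f : MvPolynomial (Fin 2) K) : ℕ → L := fun n =>
  if n < (d + 1) * (d + 1) then
    algebraMap K L (f.coeff (Finsupp.single 0 (n % (d + 1)) + Finsupp.single 1 (n / (d + 1))))
  else 0

/-- a finite list of elements as an array -/
def tape {L : Type} [Zero L] {m : ℕ} (ω : Fin m → L) : ℕ → L :=
  fun i => if h : i < m then ω ⟨i, h⟩ else 0

/-- the program `A`, run over the field `L` with `m` random elements of the finite set `S`, tests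
whether `f` is absolutely irreducible, within `T` steps: it never answers `1` (yes) unless `f` is
absolutely irreducible, and if `f` is absolutely irreducible then at most one third of the
choices of the random elements give another answer. -/
noncomputable def Tests (A : Prog Inp .nat) {K : Type} [Field K] (p d : ℕ)
    (f : MvPolynomial (Fin 2) K) (L : Type) [Field L] [Algebra K L] (S : Finset L)
    (m T : ℕ) : Prop := by
  classical exact
  (∀ ω : Fin m → L, (∀ i, ω i ∈ S) →
    A.steps L (d, (p, (coeffArray L d f, tape ω))) ≤ T ∧
    (A.eval L (d, (p, (coeffArray L d f, tape ω))) = 1 → AbsIrred f)) ∧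
  (AbsIrred f → 3 * ((Fintype.piFinset fun _ : Fin m => S).filter fun ω =>
    A.eval L (d, (p, (coeffArray L d f, tape ω))) ≠ 1).card ≤ S.card ^ m)

end Pool.Agent.AbsIrr
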