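import Mathlib
import Pool.Agent.Lib.MP_2adc98_lc.Model

/-!
# MP_2adc98_lc: the programming language

A small first-order language (deep embedding) for algebraic algorithms.  A program `A : Prog a b` is
one finite syntax tree; it can be run over every field `K`.  Types: natural numbers, field elements,
arrays of field elements, pairs.  `run` is the value, `bcost` the number of elementary steps: field
operations, zero tests and structural steps cost one step, operations with natural numbers (also
the counters of the loops and the addresses of array entries) are charged with the number of bit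
operations; loops cost the sum over all rounds.  The auxiliary `cost` counts the operations without
regard to the size of the natural numbers, `mx` is the largest natural number that occurs.

An array is represented by the function of its entries (zero beyond its length); a program can only
read single entries (one step each) and build new arrays entry by entry (`tab`).
-/

namespace Pool.Agent.AbsIrr

open Classical in
/-- the value computed by a program on an input, over the field `K` -/
noncomputable def Prog.run (K : Type) [Field K] : {a b : Ty} → Prog a b → a.val K → b.val K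
  | _, _, .id _, x => x
  | _, _, .comp g f, x => g.run K (f.run K x)
  | _, _, .pair f g, x => (f.run K x, g.run K x)
  | _, _, .fst _ _, x => x.1
  | _, _, .snd _ _, x => x.2
  | _, _, .lit _ n, _ => n
  | _, _, .add, x => x.1 + x.2
  | _, _, .sub, x => x.1 - x.2
  | _, _, .mul, x => x.1 * x.2
  | _, _, .div, x => x.1 / x.2
  | _, _, .mod, x => x.1 % x.2
  | _, _, .lt, x => if x.1 < x.2 then 1 else 0
  | _, _, .zero _, _ => (0 : K)
  | _, _, .one _, _ => (1 : K)
  | _, _, .fadd, x => x.1 + x.2
  | _, _, .fsub, x => x.1 - x.2
  | _, _, .fmul, x => x.1 * x.2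
  | _, _, .finv, x => x⁻¹
  | _, _, .isZero, x => if x = 0 then 1 else 0
  | _, _, .get, x => x.1 x.2
  | _, _, .ite t f g, x => if t.run K x ≠ 0 then f.run K x else g.run K x
  | _, _, .tab n f, x => fun i => if i < n.run K x then f.run K (x, i) else 0
  | _, _, .iter n s f, x => Nat.rec (s.run K x) (fun i y => f.run K ((x, y), i)) (n.run K x)

/-- the number of rounds and operations of a program on an input, over the field `K` (every
constructor counts `1`, whatever the size of the natural numbers) -/
noncomputable def Prog.cost (K : Type) [Field K] : {a b : Ty} → Prog a b → a.val K → ℕ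
  | _, _, .comp g f, x => f.cost K x + g.cost K (f.run K x) + 1
  | _, _, .pair f g, x => f.cost K x + g.cost K x + 1
  | _, _, .ite t f g, x =>
      t.cost K x + (if t.run K x ≠ 0 then f.cost K x else g.cost K x) + 1
  | _, _, .tab n f, x =>
      n.cost K x + (∑ i ∈ Finset.range (n.run K x), (f.cost K (x, i) + 1)) + 1
  | _, _, .iter n s f, x =>
      n.cost K x + s.cost K x + (∑ i ∈ Finset.range (n.run K x),
        (f.cost K ((x, Nat.rec (s.run K x) (fun j y => f.run K ((x, y), j)) i), i) + 1)) + 1
  | _, _, .id _, _ => 1
  | _, _, .fst _ _, _ => 1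
  | _, _, .snd _ _, _ => 1
  | _, _, .lit _ _, _ => 1
  | _, _, .add, _ => 1
  | _, _, .sub, _ => 1
  | _, _, .mul, _ => 1
  | _, _, .div, _ => 1
  | _, _, .mod, _ => 1
  | _, _, .lt, _ => 1
  | _, _, .zero _, _ => 1
  | _, _, .one _, _ => 1
  | _, _, .fadd, _ => 1
  | _, _, .fsub, _ => 1
  | _, _, .fmul, _ => 1
  | _, _, .finv, _ => 1
  | _, _, .isZero, _ => 1
  | _, _, .get, _ => 1

/-- the number of elementary steps of a program on an input, over the field `K`: field operations
and zero tests count `1`; operations with natural numbers, including the loop counters and the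
addresses of array entries, are charged with the number of bit operations -/
noncomputable def Prog.bcost (K : Type) [Field K] : {a b : Ty} → Prog a b → a.val K → ℕ
  | _, _, .comp g f, x => f.bcost K x + g.bcost K (f.run K x) + 1
  | _, _, .pair f g, x => f.bcost K x + g.bcost K x + 1
  | _, _, .ite t f g, x =>
      t.bcost K x + (if t.run K x ≠ 0 then f.bcost K x else g.bcost K x) + 1
  | _, _, .tab n f, x =>
      n.bcost K x + (∑ i ∈ Finset.range (n.run K x), (f.bcost K (x, i) + bitc i 0)) + 1
  | _, _, .iter n s f, x =>
      n.bcost K x + s.bcost K x + (∑ i ∈ Finset.range (n.run K x),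
        (f.bcost K ((x, Nat.rec (s.run K x) (fun j y => f.run K ((x, y), j)) i), i) +
          bitc i 0)) + 1
  | _, _, .id _, _ => 1
  | _, _, .fst _ _, _ => 1
  | _, _, .snd _ _, _ => 1
  | _, _, .lit _ n, _ => bitc n 0
  | _, _, .add, x => bitc x.1 x.2
  | _, _, .sub, x => bitc x.1 x.2
  | _, _, .mul, x => bitc x.1 x.2
  | _, _, .div, x => bitc x.1 x.2
  | _, _, .mod, x => bitc x.1 x.2
  | _, _, .lt, x => bitc x.1 x.2
  | _, _, .zero _, _ => 1
  | _, _, .one _, _ => 1
  | _, _, .fadd, _ => 1
  | _, _, .fsub, _ => 1
  | _, _, .fmul, _ => 1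
  | _, _, .finv, _ => 1
  | _, _, .isZero, _ => 1
  | _, _, .get, x => bitc x.2 0

/-- the largest natural number in a value -/
def Ty.nmx (K : Type) : (a : Ty) → a.val K → ℕ
  | .nat, x => x
  | .fld, _ => 0
  | .arr, _ => 0
  | .prod a b, x => max (a.nmx K x.1) (b.nmx K x.2)

/-- the largest natural number occurring during the run of a program -/
noncomputable def Prog.mx (K : Type) [Field K] : {a b : Ty} → Prog a b → a.val K → ℕ
  | _, _, .comp g f, x => max (f.mx K x) (g.mx K (f.run K x))
  | _, _, .pair f g, x => max (f.mx K x) (g.mx K x)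
  | _, _, .ite t f g, x =>
      max (t.mx K x) (if t.run K x ≠ 0 then f.mx K x else g.mx K x)
  | _, _, .tab n f, x =>
      max (n.mx K x) ((Finset.range (n.run K x)).sup fun i => f.mx K (x, i))
  | _, _, .iter n s f, x =>
      max (max (n.mx K x) (s.mx K x)) ((Finset.range (n.run K x)).sup fun i =>
        f.mx K ((x, Nat.rec (s.run K x) (fun j y => f.run K ((x, y), j)) i), i))
  | _, _, .id a, x => a.nmx K x
  | _, _, .fst a b, x => (Ty.prod a b).nmx K x
  | _, _, .snd a b, x => (Ty.prod a b).nmx K x
  | _, _, .lit a n, x => max (a.nmx K x) n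
  | _, _, .add, x => max (max x.1 x.2) (x.1 + x.2)
  | _, _, .sub, x => max x.1 x.2
  | _, _, .mul, x => max (max x.1 x.2) (x.1 * x.2)
  | _, _, .div, x => max x.1 x.2
  | _, _, .mod, x => max x.1 x.2
  | _, _, .lt, x => max (max x.1 x.2) 1
  | _, _, .zero a, x => a.nmx K x
  | _, _, .one a, x => a.nmx K x
  | _, _, .fadd, _ => 0
  | _, _, .fsub, _ => 0
  | _, _, .fmul, _ => 0
  | _, _, .finv, _ => 0
  | _, _, .isZero, _ => 1
  | _, _, .get, x => x.2

/-- all natural numbers of the input and of the output are bounded by `mx` -/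
theorem Prog.nmx_le_mx (K : Type) [Field K] : ∀ {a b : Ty} (t : Prog a b) (x : a.val K),
    a.nmx K x ≤ t.mx K x ∧ b.nmx K (t.run K x) ≤ t.mx K x := by
  intro a b t
  induction t with
  | id a => intro x; exact ⟨le_rfl, le_rfl⟩
  | comp g f hg hf =>
    intro x
    exact ⟨(hf x).1.trans (le_max_left _ _), (hg _).2.trans (le_max_right _ _)⟩
  | pair f g hf hg =>
    intro x
    exact ⟨(hf x).1.trans (le_max_left _ _), max_le_max (hf x).2 (hg x).2⟩
  | fst a b => intro x; exact ⟨le_rfl, le_max_left _ _⟩
  | snd a b => intro x; exact ⟨le_rfl, le_max_right _ _⟩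
  | lit a n => intro x; exact ⟨le_max_left _ _, le_max_right _ _⟩
  | add => intro x; exact ⟨le_max_left _ _, le_max_right _ _⟩
  | sub =>
    intro x
    exact ⟨le_rfl, le_trans (Nat.sub_le _ _) (le_max_left _ _)⟩
  | mul => intro x; exact ⟨le_max_left _ _, le_max_right _ _⟩
  | div =>
    intro x
    exact ⟨le_rfl, le_trans (Nat.div_le_self _ _) (le_max_left _ _)⟩
  | mod =>
    intro x
    exact ⟨le_rfl, le_trans (Nat.mod_le _ _) (le_max_left _ _)⟩
  | lt =>
    intro x
    refine ⟨le_max_left _ _, le_trans ?_ (le_max_right _ _)⟩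
    simp only [Ty.nmx, Prog.run]
    split_ifs <;> simp
  | zero a => intro x; exact ⟨le_rfl, Nat.zero_le _⟩
  | one a => intro x; exact ⟨le_rfl, Nat.zero_le _⟩
  | fadd => intro x; exact ⟨by simp [Ty.nmx, Prog.mx], Nat.zero_le _⟩
  | fsub => intro x; exact ⟨by simp [Ty.nmx, Prog.mx], Nat.zero_le _⟩
  | fmul => intro x; exact ⟨by simp [Ty.nmx, Prog.mx], Nat.zero_le _⟩
  | finv => intro x; exact ⟨by simp [Ty.nmx, Prog.mx], Nat.zero_le _⟩
  | isZero =>
    intro x
    refine ⟨by simp [Ty.nmx, Prog.mx], ?_⟩
    simp only [Ty.nmx, Prog.run, Prog.mx]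
    split_ifs <;> simp
  | get => intro x; exact ⟨by simp [Ty.nmx, Prog.mx], Nat.zero_le _⟩
  | ite t f g ht hf hg =>
    intro x
    refine ⟨(ht x).1.trans (le_max_left _ _), ?_⟩
    simp only [Prog.run, Prog.mx]
    split_ifs
    · exact (hf x).2.trans (le_max_right _ _)
    · exact (hg x).2.trans (le_max_right _ _)
  | tab n f hn hf =>
    intro x
    exact ⟨(hn x).1.trans (le_max_left _ _), Nat.zero_le _⟩
  | iter n s f hn hs hf =>
    intro x
    refine ⟨(hn x).1.trans ((le_max_left _ _).trans (le_max_left _ _)), ?_⟩
    simp only [Prog.run, Prog.mx]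
    rcases Nat.eq_zero_or_pos (n.run K x) with h0 | h0
    · rw [h0]
      exact (hs x).2.trans ((le_max_right _ _).trans (le_max_left _ _))
    · obtain ⟨m, hm⟩ := Nat.exists_eq_succ_of_ne_zero (Nat.pos_iff_ne_zero.1 h0)
      rw [hm]
      refine le_trans ?_ (le_max_right _ _)
      refine le_trans (hf _).2 (Finset.le_sup (f := fun i => f.mx K ((x, Nat.rec (s.run K x)
        (fun j y => f.run K ((x, y), j)) i), i)) (Finset.mem_range.2 (Nat.lt_succ_self m)))

theorem bitc_le {m n B : ℕ} (hm : m ≤ B) (hn : n ≤ B) : bitc m n ≤ (Nat.size B + 1) ^ 2 := by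
  unfold bitc
  rw [sq]
  exact Nat.mul_le_mul (Nat.succ_le_succ (Nat.size_le_size hm))
    (Nat.succ_le_succ (Nat.size_le_size hn))

/-- the number of elementary steps in terms of the number of operations and the size of the
numbers -/
theorem Prog.bcost_le (K : Type) [Field K] {B : ℕ} : ∀ {a b : Ty} (t : Prog a b) (x : a.val K),
    t.mx K x ≤ B → t.bcost K x ≤ t.cost K x * (Nat.size B + 1) ^ 2 := by
  have h1 : 1 ≤ (Nat.size B + 1) ^ 2 := Nat.one_le_iff_ne_zero.2 (by positivity)
  have e1 : ∀ {m n : ℕ}, m ≤ B → n ≤ B → bitc m n ≤ 1 * (Nat.size B + 1) ^ 2 := fun hm hn => by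
    rw [one_mul]; exact bitc_le hm hn
  intro a b t
  induction t with
  | id a => intro x _; simpa [Prog.bcost, Prog.cost] using h1
  | comp g f hg hf =>
    intro x hx
    have h2 := hf x ((le_max_left _ _).trans hx)
    have h3 := hg (f.run K x) ((le_max_right _ _).trans hx)
    simp only [Prog.bcost, Prog.cost]
    nlinarith
  | pair f g hf hg =>
    intro x hx
    have h2 := hf x ((le_max_left _ _).trans hx)
    have h3 := hg x ((le_max_right _ _).trans hx)
    simp only [Prog.bcost, Prog.cost]
    nlinarith
  | fst a b => intro x _; simpa [Prog.bcost, Prog.cost] using h1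
  | snd a b => intro x _; simpa [Prog.bcost, Prog.cost] using h1
  | lit a n =>
    intro x hx
    exact e1 ((le_max_right _ _).trans hx) (Nat.zero_le _)
  | add =>
    intro x hx
    exact e1 ((le_max_left _ _).trans ((le_max_left _ _).trans hx))
      ((le_max_right _ _).trans ((le_max_left _ _).trans hx))
  | sub => intro x hx; exact e1 ((le_max_left _ _).trans hx) ((le_max_right _ _).trans hx)
  | mul =>
    intro x hx
    exact e1 ((le_max_left _ _).trans ((le_max_left _ _).trans hx))
      ((le_max_right _ _).trans ((le_max_left _ _).trans hx))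
  | div => intro x hx; exact e1 ((le_max_left _ _).trans hx) ((le_max_right _ _).trans hx)
  | mod => intro x hx; exact e1 ((le_max_left _ _).trans hx) ((le_max_right _ _).trans hx)
  | lt =>
    intro x hx
    exact e1 ((le_max_left _ _).trans ((le_max_left _ _).trans hx))
      ((le_max_right _ _).trans ((le_max_left _ _).trans hx))
  | zero a => intro x _; simpa [Prog.bcost, Prog.cost] using h1
  | one a => intro x _; simpa [Prog.bcost, Prog.cost] using h1
  | fadd => intro x _; simpa [Prog.bcost, Prog.cost] using h1
  | fsub => intro x _; simpa [Prog.bcost, Prog.cost] using h1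
  | fmul => intro x _; simpa [Prog.bcost, Prog.cost] using h1
  | finv => intro x _; simpa [Prog.bcost, Prog.cost] using h1
  | isZero => intro x _; simpa [Prog.bcost, Prog.cost] using h1
  | get => intro x hx; exact e1 hx (Nat.zero_le _)
  | ite t f g ht hf hg =>
    intro x hx
    have h2 := ht x ((le_max_left _ _).trans hx)
    have h3 := (le_max_right _ _).trans hx
    simp only [Prog.bcost, Prog.cost]
    split_ifs at h3 ⊢
    · have h4 := hf x h3
      nlinarith
    · have h4 := hg x h3
      nlinarith
  | tab n f hn hf =>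
    intro x hx
    have h2 := hn x ((le_max_left _ _).trans hx)
    have h3 := (le_max_right _ _).trans hx
    rw [Finset.sup_le_iff] at h3
    have h4 : ∑ i ∈ Finset.range (n.run K x), (f.bcost K (x, i) + bitc i 0) ≤
        (∑ i ∈ Finset.range (n.run K x), (f.cost K (x, i) + 1)) * (Nat.size B + 1) ^ 2 := by
      rw [Finset.sum_mul]
      refine Finset.sum_le_sum fun i hi => ?_
      have h5 := hf (x, i) (h3 i hi)
      have h6 : i ≤ B := by
        have := (Prog.nmx_le_mx K f (x, i)).1
        exact ((le_max_right _ _).trans this).trans (h3 i hi)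
      have h7 := e1 h6 (Nat.zero_le B)
      rw [add_mul]
      exact Nat.add_le_add h5 h7
    simp only [Prog.bcost, Prog.cost]
    nlinarith
  | iter n s f hn hs hf =>
    intro x hx
    have h2 := hn x ((le_max_left _ _).trans ((le_max_left _ _).trans hx))
    have h2' := hs x ((le_max_right _ _).trans ((le_max_left _ _).trans hx))
    have h3 := (le_max_right _ _).trans hx
    rw [Finset.sup_le_iff] at h3
    have h4 : ∑ i ∈ Finset.range (n.run K x), (f.bcost K ((x, Nat.rec (s.run K x)
        (fun j y => f.run K ((x, y), j)) i), i) + bitc i 0) ≤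
        (∑ i ∈ Finset.range (n.run K x), (f.cost K ((x, Nat.rec (s.run K x)
        (fun j y => f.run K ((x, y), j)) i), i) + 1)) * (Nat.size B + 1) ^ 2 := by
      rw [Finset.sum_mul]
      refine Finset.sum_le_sum fun i hi => ?_
      have h5 := hf _ (h3 i hi)
      have h6 : i ≤ B := by
        have := (Prog.nmx_le_mx K f ((x, Nat.rec (s.run K x)
          (fun j y => f.run K ((x, y), j)) i), i)).1
        exact ((le_max_right _ _).trans this).trans (h3 i hi)
      have h7 := e1 h6 (Nat.zero_le B)
      rw [add_mul]
      exact Nat.add_le_add h5 h7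
    simp only [Prog.bcost, Prog.cost]
    nlinarith

end Pool.Agent.AbsIrr
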