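import Mathlib
import Pool.Agent.Lib.MP_2adc98_lc.Lang

/-!
# MP_2adc98_lc: the realizability calculus

`Rlz F c`: the family of functions `F` (one for every field) is computed by one program with cost
`O(c + 1)`.  The closure lemmas are stated so that `refine`/`apply_rules` can build the program from
the Lean expression of `F`.
-/

namespace Pool.Agent.AbsIrr

open Finset

/-- families of functions, one for every field -/
abbrev Fam (a b : Ty) : Type 1 := ∀ (K : Type) [Field K], a.val K → b.val K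

/-- families of cost functions -/
abbrev CFam (a : Ty) : Type 1 := ∀ (K : Type) [Field K], a.val K → ℕ

/-- `F` is computed by one program, with cost `O(c + 1)`; all natural numbers occurring are
bounded by a polynomial in `c` and the natural numbers of the input -/
def Rlz {a b : Ty} (F : Fam a b) (c : CFam a) : Prop :=
  ∃ (t : Prog a b) (C : ℕ), ∀ (K : Type) [Field K] (x : a.val K),
    t.run K x = F K x ∧ t.cost K x ≤ C * (c K x + 1) ∧
      t.mx K x ≤ (c K x + a.nmx K x + 2) ^ C

/-- types of values without natural numbers -/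
class NoNat (a : Ty) : Prop where
  nmx_eq : ∀ (K : Type) (x : a.val K), a.nmx K x = 0

instance : NoNat .fld := ⟨fun _ _ => rfl⟩
instance : NoNat .arr := ⟨fun _ _ => rfl⟩
instance {a b : Ty} [ha : NoNat a] [hb : NoNat b] : NoNat (.prod a b) :=
  ⟨fun K x => by simp [Ty.nmx, ha.nmx_eq K x.1, hb.nmx_eq K x.2]⟩

theorem pw_mono {B B' C C' : ℕ} (hB : B ≤ B') (hC : C ≤ C') : (B + 2) ^ C ≤ (B' + 2) ^ C' :=
  (Nat.pow_le_pow_left (by omega) C).trans (Nat.pow_le_pow_right (by omega) hC)

theorem le_pw (n B : ℕ) : n ≤ (B + 2) ^ n :=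
  (Nat.lt_two_pow_self).le.trans (Nat.pow_le_pow_left (by omega) n)

theorem le_pw_one {m B C : ℕ} (h : m ≤ B) (hC : 1 ≤ C) : m ≤ (B + 2) ^ C :=
  (by rw [pow_one]; omega : m ≤ (B + 2) ^ 1).trans (Nat.pow_le_pow_right (by omega) hC)

theorem mul_pw_le {A B C : ℕ} : A * (B + 2) ^ C ≤ (B + 2) ^ (A + C) := by
  rw [pow_add]
  exact Nat.mul_le_mul_right _ (le_pw A B)

/-- nested powers -/
theorem pw_nest {m B D C : ℕ} (h : m ≤ B + (B + 2) ^ D) : (m + 2) ^ C ≤ (B + 2) ^ ((D + 2) * C) := by
  rw [pow_mul]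
  refine Nat.pow_le_pow_left ?_ C
  have h1 : B + 2 ≤ (B + 2) ^ (D + 1) := by
    calc B + 2 = (B + 2) ^ 1 := (pow_one _).symm
      _ ≤ (B + 2) ^ (D + 1) := Nat.pow_le_pow_right (by omega) (by omega)
  have h2 : (B + 2) ^ D ≤ (B + 2) ^ (D + 1) := Nat.pow_le_pow_right (by omega) (by omega)
  have h3 : 2 * (B + 2) ^ (D + 1) ≤ (B + 2) ^ (D + 2) := by
    rw [pow_succ (B + 2) (D + 1), mul_comm]
    exact Nat.mul_le_mul_left _ (by omega)
  omega

variable {a b b' d : Ty}

theorem Rlz.mono {F : Fam a b} {c c' : CFam a} (h : Rlz F c) (A : ℕ)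
    (hc : ∀ (K : Type) [Field K] (x : a.val K), c K x ≤ A * (c' K x + 1)) : Rlz F c' := by
  obtain ⟨t, C, ht⟩ := h
  refine ⟨t, (A + 3) * C, fun K _ x => ⟨(ht K x).1, (ht K x).2.1.trans ?_, (ht K x).2.2.trans ?_⟩⟩
  · have := hc K x
    calc C * (c K x + 1) ≤ C * (A * (c' K x + 1) + 1) := by gcongr
      _ ≤ C * (A * (c' K x + 1) + 3 * (c' K x + 1)) := by gcongr; omega
      _ = (A + 3) * C * (c' K x + 1) := by ring
  · have h1 := hc K x
    set B := c' K x + a.nmx K x with hB
    rw [pow_mul]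
    refine Nat.pow_le_pow_left ?_ C
    have h2 : c K x + a.nmx K x + 2 ≤ (A + 1) * (B + 2) ^ 1 := by
      rw [pow_one]
      nlinarith
    refine h2.trans (mul_pw_le.trans (Nat.pow_le_pow_right (by omega) (by omega)))

/-- change the function (extensionally) -/
theorem Rlz.congr {F G : Fam a b} {c : CFam a} (h : Rlz F c)
    (hc : ∀ (K : Type) [Field K] (x : a.val K), F K x = G K x) : Rlz G c := by
  obtain ⟨t, C, ht⟩ := h
  exact ⟨t, C, fun K _ x => ⟨(ht K x).1.trans (hc K x), (ht K x).2⟩⟩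

theorem Rlz.input : Rlz (a := a) (fun K _ (x : a.val K) => x) (fun _ _ _ => 0) :=
  ⟨.id a, 1, fun K _ x => ⟨rfl, by simp [Prog.cost], by simp [Prog.mx]⟩⟩

theorem Rlz.comp {G : Fam b d} {F : Fam a b} {cg : CFam b} {cf : CFam a}
    (hG : Rlz G cg) (hF : Rlz F cf) :
    Rlz (fun K _ x => G K (F K x)) (fun K _ x => cf K x + cg K (F K x)) := by
  obtain ⟨t, C, ht⟩ := hG
  obtain ⟨s, D, hs⟩ := hF
  refine ⟨.comp t s, C + D + 1 + (D + 2) * C,
    fun K _ x => ⟨by simp [Prog.run, (hs K x).1, (ht K _).1], ?_, ?_⟩⟩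
  · have h1 := (hs K x).2.1
    have h2 := (ht K (s.run K x)).2.1
    rw [(hs K x).1] at h2
    simp only [Prog.cost, (hs K x).1]
    nlinarith [Nat.zero_le (cf K x), Nat.zero_le (cg K (F K x)),
      Nat.zero_le ((D + 2) * C * (cf K x + cg K (F K x) + 1))]
  · have h1 := (hs K x).2.2
    have h2 := (ht K (s.run K x)).2.2
    have h3 := (Prog.nmx_le_mx K s x).2
    rw [(hs K x).1] at h2 h3
    simp only [Prog.mx, (hs K x).1]
    refine max_le (h1.trans (pw_mono (by omega) (by omega))) (h2.trans ?_)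
    have h4 : (cf K x + a.nmx K x + 2) ^ D ≤ (cf K x + cg K (F K x) + a.nmx K x + 2) ^ D :=
      pw_mono (by omega) le_rfl
    refine (pw_nest (B := cf K x + cg K (F K x) + a.nmx K x) (D := D) (C := C) ?_).trans
      (Nat.pow_le_pow_right (by omega) (by omega))
    omega

/-- post-composition with a unit cost operation -/
theorem Rlz.op {F : Fam a b} {cf : CFam a} (t : Prog b d) (G : Fam b d)
    (ht : ∀ (K : Type) [Field K] (x : b.val K), t.run K x = G K x)
    (hc : ∀ (K : Type) [Field K] (x : b.val K), t.cost K x ≤ 1)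
    (hm : ∀ (K : Type) [Field K] (x : b.val K), t.mx K x ≤ (b.nmx K x + 2) ^ 2)
    (hF : Rlz F cf) :
    Rlz (fun K _ x => G K (F K x)) cf := by
  have h : Rlz G (fun _ _ _ => 0) := ⟨t, 2, fun K _ x => ⟨ht K x, by have := hc K x; omega,
    by simpa using hm K x⟩⟩
  exact (Rlz.comp h hF).mono 1 (fun K _ x => by simp)

theorem op_mx1 {m : ℕ} : m ≤ (m + 2) ^ 2 := by nlinarith

theorem Rlz.pair {F : Fam a b} {G : Fam a b'} {cf cg : CFam a} (hF : Rlz F cf) (hG : Rlz G cg) :
    Rlz (b := .prod b b') (fun K _ x => (F K x, G K x)) (fun K _ x => cf K x + cg K x) := by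
  obtain ⟨t, C, ht⟩ := hF
  obtain ⟨s, D, hs⟩ := hG
  refine ⟨.pair t s, C + D + 1,
    fun K _ x => ⟨by simp [Prog.run, (hs K x).1, (ht K _).1], ?_, ?_⟩⟩
  · have h1 := (hs K x).2.1
    have h2 := (ht K x).2.1
    simp only [Prog.cost]
    nlinarith [Nat.zero_le (cf K x), Nat.zero_le (cg K x)]
  · simp only [Prog.mx]
    exact max_le ((ht K x).2.2.trans (pw_mono (by omega) (by omega)))
      ((hs K x).2.2.trans (pw_mono (by omega) (by omega)))

theorem Rlz.fst {F : Fam a (.prod b b')} {cf : CFam a} (hF : Rlz F cf) :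
    Rlz (fun K _ x => (F K x).1) cf :=
  Rlz.op (.fst b b') (fun K _ x => x.1) (fun _ _ _ => rfl) (fun K _ x => by simp [Prog.cost])
    (fun K _ x => op_mx1) hF

theorem Rlz.snd {F : Fam a (.prod b b')} {cf : CFam a} (hF : Rlz F cf) :
    Rlz (fun K _ x => (F K x).2) cf :=
  Rlz.op (.snd b b') (fun K _ x => x.2) (fun _ _ _ => rfl) (fun K _ x => by simp [Prog.cost])
    (fun K _ x => op_mx1) hF

theorem Rlz.lit (n : ℕ) : Rlz (a := a) (b := .nat) (fun _ _ _ => n) (fun _ _ _ => 0) :=
  ⟨.lit a n, n + 1, fun K _ x => ⟨rfl, by simp [Prog.cost], by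
    simp only [Prog.mx]
    exact max_le (le_pw_one (by omega) (by omega)) ((le_pw n _).trans
      (Nat.pow_le_pow_right (by omega) (by omega)))⟩⟩

theorem Rlz.zero : Rlz (a := a) (b := .fld) (fun K _ _ => (0 : K)) (fun _ _ _ => 0) :=
  ⟨.zero a, 1, fun K _ x => ⟨rfl, by simp [Prog.cost], by simp [Prog.mx]⟩⟩

theorem Rlz.one : Rlz (a := a) (b := .fld) (fun K _ _ => (1 : K)) (fun _ _ _ => 0) :=
  ⟨.one a, 1, fun K _ x => ⟨rfl, by simp [Prog.cost], by simp [Prog.mx]⟩⟩

/-- the polynomial bound for the unit cost operations -/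
theorem op_mx {m n r : ℕ} (h : r ≤ (max m n + 2) ^ 2) :
    max (max m n) r ≤ (max m n + 2) ^ 2 :=
  max_le op_mx1 h

theorem op_mx_add (m n : ℕ) : m + n ≤ (max m n + 2) ^ 2 := by
  have h1 := le_max_left m n
  have h2 := le_max_right m n
  nlinarith

theorem op_mx_mul (m n : ℕ) : m * n ≤ (max m n + 2) ^ 2 := by
  have h1 := le_max_left m n
  have h2 := le_max_right m n
  have h3 : m * n ≤ max m n * max m n := Nat.mul_le_mul h1 h2
  nlinarith

section ops

variable {F G : Fam a .nat} {U V : Fam a .fld} {cf cg : CFam a}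

theorem Rlz.add (hF : Rlz F cf) (hG : Rlz G cg) :
    Rlz (b := .nat) (fun K _ x => (F K x : ℕ) + (G K x : ℕ)) (fun K _ x => cf K x + cg K x) :=
  Rlz.op .add (fun K _ x => (x.1 : ℕ) + x.2) (fun _ _ _ => rfl) (fun K _ x => by simp [Prog.cost])
    (fun K _ x => op_mx (op_mx_add _ _)) (Rlz.pair hF hG)

theorem Rlz.sub (hF : Rlz F cf) (hG : Rlz G cg) :
    Rlz (b := .nat) (fun K _ x => (F K x : ℕ) - (G K x : ℕ)) (fun K _ x => cf K x + cg K x) :=
  Rlz.op .sub (fun K _ x => (x.1 : ℕ) - x.2) (fun _ _ _ => rfl) (fun K _ x => by simp [Prog.cost])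
    (fun K _ x => op_mx1) (Rlz.pair hF hG)

theorem Rlz.mul (hF : Rlz F cf) (hG : Rlz G cg) :
    Rlz (b := .nat) (fun K _ x => (F K x : ℕ) * (G K x : ℕ)) (fun K _ x => cf K x + cg K x) :=
  Rlz.op .mul (fun K _ x => (x.1 : ℕ) * x.2) (fun _ _ _ => rfl) (fun K _ x => by simp [Prog.cost])
    (fun K _ x => op_mx (op_mx_mul _ _)) (Rlz.pair hF hG)

theorem Rlz.div (hF : Rlz F cf) (hG : Rlz G cg) :
    Rlz (b := .nat) (fun K _ x => (F K x : ℕ) / (G K x : ℕ)) (fun K _ x => cf K x + cg K x) :=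
  Rlz.op .div (fun K _ x => (x.1 : ℕ) / x.2) (fun _ _ _ => rfl) (fun K _ x => by simp [Prog.cost])
    (fun K _ x => op_mx1) (Rlz.pair hF hG)

theorem Rlz.mod (hF : Rlz F cf) (hG : Rlz G cg) :
    Rlz (b := .nat) (fun K _ x => (F K x : ℕ) % (G K x : ℕ)) (fun K _ x => cf K x + cg K x) :=
  Rlz.op .mod (fun K _ x => (x.1 : ℕ) % x.2) (fun _ _ _ => rfl) (fun K _ x => by simp [Prog.cost])
    (fun K _ x => op_mx1) (Rlz.pair hF hG)

theorem Rlz.fadd (hF : Rlz U cf) (hG : Rlz V cg) :
    Rlz (b := .fld) (fun K _ x => (U K x : K) + (V K x : K)) (fun K _ x => cf K x + cg K x) :=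
  Rlz.op .fadd (fun K _ x => (x.1 : K) + x.2) (fun _ _ _ => rfl) (fun K _ x => by simp [Prog.cost])
    (fun K _ x => Nat.zero_le _) (Rlz.pair hF hG)

theorem Rlz.fsub (hF : Rlz U cf) (hG : Rlz V cg) :
    Rlz (b := .fld) (fun K _ x => (U K x : K) - (V K x : K)) (fun K _ x => cf K x + cg K x) :=
  Rlz.op .fsub (fun K _ x => (x.1 : K) - x.2) (fun _ _ _ => rfl) (fun K _ x => by simp [Prog.cost])
    (fun K _ x => Nat.zero_le _) (Rlz.pair hF hG)

theorem Rlz.fmul (hF : Rlz U cf) (hG : Rlz V cg) :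
    Rlz (b := .fld) (fun K _ x => (U K x : K) * (V K x : K)) (fun K _ x => cf K x + cg K x) :=
  Rlz.op .fmul (fun K _ x => (x.1 : K) * x.2) (fun _ _ _ => rfl) (fun K _ x => by simp [Prog.cost])
    (fun K _ x => Nat.zero_le _) (Rlz.pair hF hG)

theorem Rlz.finv (hF : Rlz U cf) :
    Rlz (b := .fld) (fun K _ x => (U K x : K)⁻¹) cf :=
  Rlz.op .finv (fun K _ x => (x : K)⁻¹) (fun _ _ _ => rfl) (fun K _ x => by simp [Prog.cost])
    (fun K _ x => Nat.zero_le _) hF

theorem Rlz.fneg (hF : Rlz U cf) :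
    Rlz (b := .fld) (fun K _ x => -(U K x : K)) cf :=
  ((Rlz.fsub Rlz.zero hF).mono 1 (fun K _ x => by simp)).congr (fun K _ x => by simp)

theorem Rlz.fdiv (hF : Rlz U cf) (hG : Rlz V cg) :
    Rlz (b := .fld) (fun K _ x => (U K x : K) / (V K x : K)) (fun K _ x => cf K x + cg K x) :=
  (Rlz.fmul hF (Rlz.finv hG)).congr (fun K _ x => by simp [div_eq_mul_inv])

end ops

theorem Rlz.get {A : Fam a .arr} {I : Fam a .nat} {cf cg : CFam a} (hA : Rlz A cf)
    (hI : Rlz I cg) : Rlz (b := .fld) (fun K _ x => (A K x : ℕ → K) (I K x))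
      (fun K _ x => cf K x + cg K x) :=
  Rlz.op .get (fun K _ x => (x.1 : ℕ → K) x.2) (fun _ _ _ => rfl)
    (fun K _ x => by simp [Prog.cost]) (fun K _ x => by
      simp only [Prog.mx, Ty.nmx, Nat.zero_max]; exact op_mx1) (Rlz.pair hA hI)

/-- case distinction, test for a nonzero natural number -/
theorem Rlz.iteNat {T : Fam a .nat} {F G : Fam a b} {ct cf cg : CFam a} (hT : Rlz T ct)
    (hF : Rlz F cf) (hG : Rlz G cg) :
    Rlz (fun K _ x => if (T K x : ℕ) ≠ 0 then F K x else G K x)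
      (fun K _ x => ct K x + if (T K x : ℕ) ≠ 0 then cf K x else cg K x) := by
  obtain ⟨r, B, hr⟩ := hT
  obtain ⟨t, C, ht⟩ := hF
  obtain ⟨s, D, hs⟩ := hG
  refine ⟨.ite r t s, B + C + D + 1, fun K _ x => ⟨by simp [Prog.run, (hr K x).1, (hs K x).1,
    (ht K _).1], ?_, ?_⟩⟩
  · have h1 := (hs K x).2.1
    have h2 := (ht K x).2.1
    have h3 := (hr K x).2.1
    simp only [Prog.cost, (hr K x).1]
    split_ifs
    · nlinarith [Nat.zero_le (cf K x), Nat.zero_le (cg K x), Nat.zero_le (ct K x)]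
    · nlinarith [Nat.zero_le (cf K x), Nat.zero_le (cg K x), Nat.zero_le (ct K x)]
  · simp only [Prog.mx, (hr K x).1]
    refine max_le ((hr K x).2.2.trans (pw_mono (by omega) (by omega))) ?_
    split_ifs
    · exact (ht K x).2.2.trans (pw_mono (by omega) (by omega))
    · exact (hs K x).2.2.trans (pw_mono (by omega) (by omega))

theorem Rlz.lt {F G : Fam a .nat} {cf cg : CFam a} (hF : Rlz F cf) (hG : Rlz G cg) :
    Rlz (b := .nat) (fun K _ x => if (F K x : ℕ) < (G K x : ℕ) then 1 else 0)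
      (fun K _ x => cf K x + cg K x) :=
  Rlz.op .lt (fun K _ x => if (x.1 : ℕ) < x.2 then 1 else 0) (fun _ _ _ => rfl)
    (fun K _ x => by simp [Prog.cost])
    (fun K _ x => op_mx (Nat.one_le_iff_ne_zero.2 (by positivity))) (Rlz.pair hF hG)

/-- case distinction, test for less than -/
theorem Rlz.iteLt {T U : Fam a .nat} {F G : Fam a b} {ct cu cf cg : CFam a} (hT : Rlz T ct)
    (hU : Rlz U cu) (hF : Rlz F cf) (hG : Rlz G cg) :
    Rlz (fun K _ x => if (T K x : ℕ) < (U K x : ℕ) then F K x else G K x)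
      (fun K _ x => ct K x + cu K x + if (T K x : ℕ) < (U K x : ℕ) then cf K x else cg K x) := by
  refine ((Rlz.iteNat (Rlz.lt hT hU) hF hG).congr (fun K _ x => ?_)).mono 1 (fun K _ x => ?_)
  · by_cases h : (T K x : ℕ) < (U K x : ℕ) <;> simp [h]
  · by_cases h : (T K x : ℕ) < (U K x : ℕ) <;> simp [h]

/-- case distinction, test for at most -/
theorem Rlz.iteLe {T U : Fam a .nat} {F G : Fam a b} {ct cu cf cg : CFam a} (hT : Rlz T ct)
    (hU : Rlz U cu) (hF : Rlz F cf) (hG : Rlz G cg) :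
    Rlz (fun K _ x => if (T K x : ℕ) ≤ (U K x : ℕ) then F K x else G K x)
      (fun K _ x => ct K x + cu K x + if (T K x : ℕ) ≤ (U K x : ℕ) then cf K x else cg K x) := by
  refine ((Rlz.iteLt hU hT hG hF).congr (fun K _ x => ?_)).mono 1 (fun K _ x => ?_)
  · by_cases h : (T K x : ℕ) ≤ (U K x : ℕ)
    · simp [h, not_lt.mpr h]
    · simp [h, not_le.mp h]
  · by_cases h : (T K x : ℕ) ≤ (U K x : ℕ)
    · simp [h, not_lt.mpr h]; omega
    · simp [h, not_le.mp h]; omega

/-- case distinction, test equality of natural numbers -/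
theorem Rlz.iteEq {T U : Fam a .nat} {F G : Fam a b} {ct cu cf cg : CFam a} (hT : Rlz T ct)
    (hU : Rlz U cu) (hF : Rlz F cf) (hG : Rlz G cg) :
    Rlz (fun K _ x => if (T K x : ℕ) = (U K x : ℕ) then F K x else G K x)
      (fun K _ x => ct K x + cu K x + if (T K x : ℕ) = (U K x : ℕ) then cf K x else cg K x) := by
  have key : ∀ m n : ℕ, m ≠ n → ¬ (m - n + (n - m) = 0) := by intros; omega
  refine ((Rlz.iteNat (Rlz.add (Rlz.sub hT hU) (Rlz.sub hU hT)) hG hF).congr
    (fun K _ x => ?_)).mono 2 (fun K _ x => ?_)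
  · by_cases h : (T K x : ℕ) = (U K x : ℕ)
    · simp [h]
    · simp only [ne_eq, key _ _ h, not_false_eq_true, if_true, h, if_false]
  · by_cases h : (T K x : ℕ) = (U K x : ℕ)
    · simp [h]; omega
    · simp only [ne_eq, key _ _ h, not_false_eq_true, if_true, h, if_false]
      omega

open Classical in
/-- case distinction, zero test in the field -/
theorem Rlz.iteZero {T : Fam a .fld} {F G : Fam a b} {ct cf cg : CFam a} (hT : Rlz T ct)
    (hF : Rlz F cf) (hG : Rlz G cg) :
    Rlz (fun K _ x => if (T K x : K) = 0 then F K x else G K x)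
      (fun K _ x => ct K x + if (T K x : K) = 0 then cf K x else cg K x) := by
  have h : Rlz (b := .nat) (fun K _ x => if (T K x : K) = 0 then 1 else 0) ct :=
    Rlz.op .isZero (fun K _ x => if (x : K) = 0 then 1 else 0) (fun _ _ _ => rfl)
      (fun K _ x => by simp [Prog.cost])
      (fun K _ x => Nat.one_le_iff_ne_zero.2 (by positivity)) hT
  refine ((Rlz.iteNat h hF hG).congr (fun K _ x => ?_)).mono 1 (fun K _ x => ?_)
  · by_cases h : (T K x : K) = 0 <;> simp [h]
  · by_cases h : (T K x : K) = 0 <;> simp [h]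

/-- the array with entries `f i`, `i < n` -/
def tabF {K : Type} [Zero K] (n : ℕ) (f : ℕ → K) : ℕ → K := fun i => if i < n then f i else 0

/-- building an array.  In goals the entry function must be written `f K x i`. -/
theorem Rlz.tab {N : Fam a .nat} {cn : CFam a} {f : ∀ (K : Type) [Field K], a.val K → ℕ → K}
    {c : CFam (.prod a .nat)} (hN : Rlz N cn)
    (hf : Rlz (a := .prod a .nat) (b := .fld) (fun K _ x => f K x.1 x.2) c) :
    Rlz (b := .arr) (fun K _ x => tabF (N K x) (fun i => f K x i))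
      (fun K _ x => cn K x + N K x + ∑ i ∈ range (N K x), c K (x, i)) := by
  obtain ⟨t, C, ht⟩ := hf
  obtain ⟨s, D, hs⟩ := hN
  refine ⟨.tab s t, C + D + 2, fun K _ x => ⟨?_, ?_, ?_⟩⟩
  · funext i
    simp only [Prog.run, (hs K x).1, tabF, (ht K (x, i)).1]
  · simp only [Prog.cost, (hs K x).1]
    have h1 := (hs K x).2.1
    have h2 : ∑ i ∈ range (N K x), (t.cost K (x, i) + 1) ≤
        C * (∑ i ∈ range (N K x), c K (x, i) + N K x) + N K x := by
      calc ∑ i ∈ range (N K x), (t.cost K (x, i) + 1)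
          ≤ ∑ i ∈ range (N K x), (C * (c K (x, i) + 1) + 1) :=
            Finset.sum_le_sum (fun i _ => Nat.add_le_add_right (ht K (x, i)).2.1 1)
        _ = C * (∑ i ∈ range (N K x), c K (x, i) + N K x) + N K x := by
            rw [Finset.sum_add_distrib, ← Finset.mul_sum, Finset.sum_add_distrib]; simp
    have h3 : (0:ℕ) ≤ ∑ i ∈ range (N K x), c K (x, i) := Nat.zero_le _
    nlinarith [Nat.zero_le (cn K x), Nat.zero_le (N K x)]
  · simp only [Prog.mx, (hs K x).1]
    refine max_le ((hs K x).2.2.trans (pw_mono (by omega) (by omega))) ?_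
    refine Finset.sup_le fun i hi => ((ht K (x, i)).2.2).trans (pw_mono ?_ (by omega))
    have h1 : c K (x, i) ≤ ∑ i ∈ range (N K x), c K (x, i) :=
      Finset.single_le_sum (f := fun i => c K (x, i)) (fun j _ => Nat.zero_le _) hi
    have h2 := Finset.mem_range.1 hi
    simp only [Ty.nmx]
    generalize ∑ i ∈ range (N K x), c K (x, i) = T at h1 ⊢
    generalize hn : a.nmx K x = m
    generalize N K x = n' at h2 ⊢
    have h3 : max m i ≤ m + i := max_le (by omega) (by omega)
    omega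

/-- a loop: `iterF n s f` is the state after `n` rounds `s := f s i` -/
def iterF {S : Type} (n : ℕ) (s : S) (f : S → ℕ → S) : S := Nat.rec s (fun i y => f y i) n

@[simp] theorem iterF_zero {S : Type} (s : S) (f : S → ℕ → S) : iterF 0 s f = s := rfl

theorem iterF_succ {S : Type} (n : ℕ) (s : S) (f : S → ℕ → S) :
    iterF (n + 1) s f = f (iterF n s f) n := rfl

/-- loops.  In goals the body must be written `f K x s i`.  Version for loop states containing
natural numbers, with an explicit bound for them. -/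
theorem Rlz.iterB {N : Fam a .nat} {S : Fam a b} {cn cs : CFam a}
    {f : ∀ (K : Type) [Field K], a.val K → b.val K → ℕ → b.val K}
    {c : CFam (.prod (.prod a b) .nat)} (hN : Rlz N cn) (hS : Rlz S cs)
    (hf : Rlz (a := .prod (.prod a b) .nat) (b := b) (fun K _ x => f K x.1.1 x.1.2 x.2) c)
    (A : ℕ) (hA : ∀ (K : Type) [Field K] (x : a.val K), ∀ i ≤ N K x,
      b.nmx K (iterF i (S K x) (fun s i => f K x s i)) ≤ (cn K x + cs K x + N K x +
        ∑ i ∈ range (N K x), c K ((x, iterF i (S K x) (fun s i => f K x s i)), i) +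
          a.nmx K x + 2) ^ A) :
    Rlz (b := b) (fun K _ x => iterF (N K x) (S K x) (fun s i => f K x s i))
      (fun K _ x => cn K x + cs K x + N K x +
        ∑ i ∈ range (N K x), c K ((x, iterF i (S K x) (fun s i => f K x s i)), i)) := by
  obtain ⟨t, C, ht⟩ := hf
  obtain ⟨s, D, hs⟩ := hN
  obtain ⟨r, E, hr⟩ := hS
  have hst : ∀ (K : Type) [Field K] (x : a.val K) (n : ℕ),
      (Nat.rec (r.run K x) (fun i y => t.run K ((x, y), i)) n : b.val K) =
        iterF n (S K x) (fun s i => f K x s i) := by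
    intro K _ x n
    induction n with
    | zero => exact (hr K x).1
    | succ n ih =>
      rw [iterF_succ, ← ih]
      exact (ht K ((x, _), n)).1
  refine ⟨.iter s r t, C + D + E + 2 + (A + 2) * C, fun K _ x => ⟨?_, ?_, ?_⟩⟩
  · simp only [Prog.run, (hs K x).1]
    exact hst K x _
  · simp only [Prog.cost, (hs K x).1]
    have h1 := (hs K x).2.1
    have h0 := (hr K x).2.1
    have h2 : ∑ i ∈ range (N K x), (t.cost K ((x, (Nat.rec (r.run K x)
        (fun j y => t.run K ((x, y), j)) i : b.val K)), i) + 1) ≤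
        C * (∑ i ∈ range (N K x), c K ((x, iterF i (S K x) (fun s i => f K x s i)), i)
          + N K x) + N K x := by
      calc ∑ i ∈ range (N K x), (t.cost K ((x, (Nat.rec (r.run K x)
            (fun j y => t.run K ((x, y), j)) i : b.val K)), i) + 1)
          ≤ ∑ i ∈ range (N K x),
            (C * (c K ((x, iterF i (S K x) (fun s i => f K x s i)), i) + 1) + 1) := by
            refine Finset.sum_le_sum (fun i _ => ?_)
            rw [hst K x i]
            exact Nat.add_le_add_right (ht K ((x, _), i)).2.1 1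
        _ = C * (∑ i ∈ range (N K x), c K ((x, iterF i (S K x) (fun s i => f K x s i)), i)
            + N K x) + N K x := by
            rw [Finset.sum_add_distrib, ← Finset.mul_sum, Finset.sum_add_distrib]; simp
    generalize hT : ∑ i ∈ range (N K x), c K ((x, iterF i (S K x) (fun s i => f K x s i)), i) = T
      at h2 ⊢
    nlinarith [Nat.zero_le (cn K x), Nat.zero_le (N K x), Nat.zero_le (cs K x), Nat.zero_le T,
      Nat.zero_le ((A + 2) * C * (cn K x + cs K x + N K x + T + 1))]
  · simp only [Prog.mx, (hs K x).1]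
    have hA' := hA K x
    have hc : ∀ i ∈ range (N K x), c K ((x, iterF i (S K x) (fun s i => f K x s i)), i) ≤
        ∑ i ∈ range (N K x), c K ((x, iterF i (S K x) (fun s i => f K x s i)), i) := fun i hi =>
      Finset.single_le_sum (f := fun i => c K ((x, iterF i (S K x) (fun s i => f K x s i)), i))
        (fun j _ => Nat.zero_le _) hi
    generalize hT : ∑ i ∈ range (N K x), c K ((x, iterF i (S K x) (fun s i => f K x s i)), i) = T
      at hA' hc ⊢
    refine max_le (max_le ((hs K x).2.2.trans (pw_mono (by omega) (by omega)))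
      ((hr K x).2.2.trans (pw_mono (by omega) (by omega)))) ?_
    refine Finset.sup_le fun i hi => ?_
    rw [hst K x i]
    refine ((ht K ((x, _), i)).2.2).trans ?_
    have h2 := Finset.mem_range.1 hi
    have h3 := hA' i h2.le
    have h4 := hc i hi
    refine (pw_nest (B := cn K x + cs K x + N K x + T + a.nmx K x) (D := A) (C := C) ?_).trans
      (Nat.pow_le_pow_right (by omega) (by omega))
    simp only [Ty.nmx]
    generalize b.nmx K (iterF i (S K x) (fun s i => f K x s i)) = m at h3 ⊢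
    generalize hP : (cn K x + cs K x + N K x + T + a.nmx K x + 2) ^ A = P at h3 ⊢
    have h5 : max (max (a.nmx K x) m) i ≤ a.nmx K x + m + i :=
      max_le (max_le (by omega) (by omega)) (by omega)
    have h6 := Nat.add_le_add h4 h5
    refine h6.trans ?_
    omega

/-- loops whose state contains no natural numbers.  In goals the body must be written
`f K x s i`. -/
theorem Rlz.iter [NoNat b] {N : Fam a .nat} {S : Fam a b} {cn cs : CFam a}
    {f : ∀ (K : Type) [Field K], a.val K → b.val K → ℕ → b.val K}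
    {c : CFam (.prod (.prod a b) .nat)} (hN : Rlz N cn) (hS : Rlz S cs)
    (hf : Rlz (a := .prod (.prod a b) .nat) (b := b) (fun K _ x => f K x.1.1 x.1.2 x.2) c) :
    Rlz (b := b) (fun K _ x => iterF (N K x) (S K x) (fun s i => f K x s i))
      (fun K _ x => cn K x + cs K x + N K x +
        ∑ i ∈ range (N K x), c K ((x, iterF i (S K x) (fun s i => f K x s i)), i)) :=
  Rlz.iterB hN hS hf 0 (fun K _ x i _ => by rw [NoNat.nmx_eq]; exact Nat.zero_le _)

theorem iterF_sum {K : Type} [AddCommMonoid K] (n : ℕ) (f : ℕ → K) :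
    iterF n (0 : K) (fun s i => s + f i) = ∑ i ∈ range n, f i := by
  induction n with
  | zero => simp
  | succ n ih => rw [iterF_succ, ih, Finset.sum_range_succ]

/-- sums of field elements.  In goals the summand must be written `f K x i`. -/
theorem Rlz.sum {N : Fam a .nat} {cn : CFam a} {f : ∀ (K : Type) [Field K], a.val K → ℕ → K}
    {c : CFam (.prod a .nat)} (hN : Rlz N cn)
    (hf : Rlz (a := .prod a .nat) (b := .fld) (fun K _ x => f K x.1 x.2) c) :
    Rlz (b := .fld) (fun K _ x => ∑ i ∈ range (N K x), f K x i)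
      (fun K _ x => cn K x + N K x + ∑ i ∈ range (N K x), c K (x, i)) := by
  have hf' : Rlz (a := .prod (.prod a .fld) .nat) (b := .fld)
      (fun K _ x => (x.1.2 : K) + f K x.1.1 x.2) (fun K _ x => c K (x.1.1, x.2)) := by
    have h0 : Rlz (a := .prod (.prod a .fld) .nat) (b := .prod a .nat)
        (fun K _ x => (x.1.1, x.2)) (fun _ _ _ => 0) :=
      (Rlz.pair (Rlz.fst (Rlz.fst Rlz.input)) (Rlz.snd Rlz.input)).mono 1 (fun K _ x => by simp)
    have h1 := Rlz.comp hf h0
    have h2 : Rlz (a := .prod (.prod a .fld) .nat) (b := .fld) (fun K _ x => x.1.2)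
      (fun _ _ _ => 0) := Rlz.snd (Rlz.fst Rlz.input)
    exact (Rlz.fadd h2 h1).mono 1 (fun K _ x => by simp)
  have := Rlz.iter (b := .fld) hN (Rlz.zero (a := a))
    (f := fun K _ x s i => (s : K) + f K x i) hf'
  refine (this.congr (fun K _ x => iterF_sum _ _)).mono 1 (fun K _ x => by simp)

end Pool.Agent.AbsIrr
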