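import Mathlib
import Pool.Agent.Lib.MP_2adc98_lc.Rlz

/-!
# MP_2adc98_lc: the realizability calculus up to logarithmic factors

`RlzQ F g`: the family of functions `F` is computed by one program with cost
`≤ C (g+1) (log₂ (g+1) + 1)^c` for some constants `C`, `c`, i.e. with cost `Õ(g)`.
-/

namespace Pool.Agent.AbsIrr

open Finset

/-- `(g+1) (log₂ (g+1) + 1)^c` -/
def Phi (c g : ℕ) : ℕ := (g + 1) * (Nat.log 2 (g + 1) + 1) ^ c

theorem Phi_mono {c c' g g' : ℕ} (hc : c ≤ c') (hg : g ≤ g') : Phi c g ≤ Phi c' g' := by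
  unfold Phi
  have h1 : Nat.log 2 (g + 1) ≤ Nat.log 2 (g' + 1) := Nat.log_mono_right (by omega)
  calc (g + 1) * (Nat.log 2 (g + 1) + 1) ^ c ≤ (g' + 1) * (Nat.log 2 (g' + 1) + 1) ^ c := by gcongr
    _ ≤ (g' + 1) * (Nat.log 2 (g' + 1) + 1) ^ c' := by
      gcongr
      omega

theorem Phi_pos (c g : ℕ) : 1 ≤ Phi c g := by
  unfold Phi
  exact Nat.one_le_iff_ne_zero.mpr (by positivity)

theorem le_Phi (c g : ℕ) : g + 1 ≤ Phi c g := by
  unfold Phi
  have : 1 ≤ (Nat.log 2 (g + 1) + 1) ^ c := Nat.one_le_iff_ne_zero.mpr (by positivity)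
  nlinarith

theorem log_mul_le (m n : ℕ) : Nat.log 2 (m * n) ≤ Nat.log 2 m + Nat.log 2 n + 1 := by
  rcases Nat.eq_zero_or_pos m with rfl | hm
  · simp
  rcases Nat.eq_zero_or_pos n with rfl | hn
  · simp
  have h1 : m < 2 ^ (Nat.log 2 m + 1) := Nat.lt_pow_succ_log_self (by norm_num) m
  have h2 : n < 2 ^ (Nat.log 2 n + 1) := Nat.lt_pow_succ_log_self (by norm_num) n
  have h3 : m * n < 2 ^ (Nat.log 2 m + Nat.log 2 n + 1 + 1) := by
    calc m * n < 2 ^ (Nat.log 2 m + 1) * 2 ^ (Nat.log 2 n + 1) :=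
          Nat.mul_lt_mul_of_lt_of_lt h1 h2
      _ = 2 ^ (Nat.log 2 m + Nat.log 2 n + 1 + 1) := by rw [← pow_add]; congr 1; ring
  exact Nat.lt_succ_iff.mp (Nat.log_lt_of_lt_pow (by positivity) h3)

theorem log_pow_le (m n : ℕ) : Nat.log 2 (m ^ n) ≤ n * (Nat.log 2 m + 1) := by
  induction n with
  | zero => simp
  | succ n ih =>
    rw [pow_succ]
    have := log_mul_le (m ^ n) m
    nlinarith

theorem log_self_le (n : ℕ) : Nat.log 2 n ≤ n := Nat.log_le_self 2 n

/-- absorbing constants and logarithmic factors -/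
theorem Phi_absorb (c A : ℕ) : ∃ D e : ℕ, ∀ g g' : ℕ, g ≤ A * Phi A g' → Phi c g ≤ D * Phi e g' := by
  -- `log (g+1) + 1 ≤ B (log (g'+1) + 1)`
  have hlog : ∀ g g' : ℕ, g ≤ A * Phi A g' →
      Nat.log 2 (g + 1) + 1 ≤ (2 * A + 6) * (Nat.log 2 (g' + 1) + 1) := by
    intro g g' h
    set l := Nat.log 2 (g' + 1) with hl
    have h1 : g + 1 ≤ (A + 1) * ((g' + 1) * (l + 1) ^ A) := by
      have : 1 ≤ Phi A g' := Phi_pos _ _
      unfold Phi at h this
      nlinarith
    have h2 := Nat.log_mono_right (b := 2) h1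
    have h3 := log_mul_le (A + 1) ((g' + 1) * (l + 1) ^ A)
    have h4 := log_mul_le (g' + 1) ((l + 1) ^ A)
    have h5 := log_pow_le (l + 1) A
    have h6 : Nat.log 2 (A + 1) ≤ A := by
      have := Nat.log_lt_self 2 (x := A + 1) (by omega)
      omega
    have h7 : Nat.log 2 (l + 1) ≤ l := by
      have := Nat.log_lt_self 2 (x := l + 1) (by omega)
      omega
    have h8 : A * (Nat.log 2 (l + 1) + 1) ≤ A * (l + 1) := by gcongr
    nlinarith
  refine ⟨(A + 1) * (2 * A + 6) ^ c, A + c, fun g g' h => ?_⟩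
  have h1 := hlog g g' h
  have hp : 1 ≤ Phi A g' := Phi_pos _ _
  calc Phi c g = (g + 1) * (Nat.log 2 (g + 1) + 1) ^ c := rfl
    _ ≤ ((A + 1) * Phi A g') * ((2 * A + 6) * (Nat.log 2 (g' + 1) + 1)) ^ c := by
        gcongr
        nlinarith
    _ = (A + 1) * (2 * A + 6) ^ c * Phi (A + c) g' := by
        unfold Phi
        rw [mul_pow, pow_add]
        ring

/-- `F` is computed by one program, with cost `Õ(g)` -/
def RlzQ {a b : Ty} (F : Fam a b) (g : CFam a) : Prop :=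
  ∃ c : ℕ, Rlz F (fun K _ x => Phi c (g K x))

variable {a b b' d : Ty}

theorem RlzQ.of {F : Fam a b} {g : CFam a} (h : Rlz F g) : RlzQ F g :=
  ⟨0, h.mono 1 (fun K _ x => by have := le_Phi 0 (g K x); omega)⟩

/-- weaken the cost, absorbing constants and logarithmic factors -/
theorem RlzQ.mono' {F : Fam a b} {g g' : CFam a} (h : RlzQ F g) (A : ℕ)
    (hc : ∀ (K : Type) [Field K] (x : a.val K), g K x ≤ A * Phi A (g' K x)) : RlzQ F g' := by
  obtain ⟨c, hc'⟩ := h
  obtain ⟨D, e, hD⟩ := Phi_absorb c A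
  refine ⟨e, hc'.mono D (fun K _ x => ?_)⟩
  have := hD _ _ (hc K x)
  nlinarith

/-- weaken the cost, absorbing constants -/
theorem RlzQ.mono {F : Fam a b} {g g' : CFam a} (h : RlzQ F g) (A : ℕ)
    (hc : ∀ (K : Type) [Field K] (x : a.val K), g K x ≤ A * (g' K x + 1)) : RlzQ F g' :=
  h.mono' A (fun K _ x => (hc K x).trans (Nat.mul_le_mul_left A (le_Phi _ _)))

theorem RlzQ.congr {F G : Fam a b} {g : CFam a} (h : RlzQ F g)
    (hc : ∀ (K : Type) [Field K] (x : a.val K), F K x = G K x) : RlzQ G g := by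
  obtain ⟨c, h⟩ := h
  exact ⟨c, h.congr hc⟩

theorem Phi_add_le {c c' g g' : ℕ} :
    Phi c g + Phi c' g' ≤ 2 * Phi (max c c') (g + g') := by
  have h1 : Phi c g ≤ Phi (max c c') (g + g') := Phi_mono (le_max_left _ _) (by omega)
  have h2 : Phi c' g' ≤ Phi (max c c') (g + g') := Phi_mono (le_max_right _ _) (by omega)
  omega

theorem RlzQ.input : RlzQ (a := a) (fun K _ (x : a.val K) => x) (fun _ _ _ => 0) :=
  RlzQ.of Rlz.input

theorem RlzQ.comp {G : Fam b d} {F : Fam a b} {cg : CFam b} {cf : CFam a}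
    (hG : RlzQ G cg) (hF : RlzQ F cf) :
    RlzQ (fun K _ x => G K (F K x)) (fun K _ x => cf K x + cg K (F K x)) := by
  obtain ⟨e, hG⟩ := hG
  obtain ⟨e', hF⟩ := hF
  refine ⟨max e' e, (Rlz.comp hG hF).mono 2 (fun K _ x => ?_)⟩
  have := Phi_add_le (c := e') (c' := e) (g := cf K x) (g' := cg K (F K x))
  beta_reduce
  omega

theorem RlzQ.pair {F : Fam a b} {G : Fam a b'} {cf cg : CFam a} (hF : RlzQ F cf)
    (hG : RlzQ G cg) :
    RlzQ (b := .prod b b') (fun K _ x => (F K x, G K x)) (fun K _ x => cf K x + cg K x) := by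
  obtain ⟨e, hG⟩ := hG
  obtain ⟨e', hF⟩ := hF
  refine ⟨max e' e, (Rlz.pair hF hG).mono 2 (fun K _ x => ?_)⟩
  have := Phi_add_le (c := e') (c' := e) (g := cf K x) (g' := cg K x)
  beta_reduce
  omega

theorem RlzQ.fst {F : Fam a (.prod b b')} {cf : CFam a} (hF : RlzQ F cf) :
    RlzQ (fun K _ x => (F K x).1) cf := by
  obtain ⟨e, hF⟩ := hF
  exact ⟨e, Rlz.fst hF⟩

theorem RlzQ.snd {F : Fam a (.prod b b')} {cf : CFam a} (hF : RlzQ F cf) :
    RlzQ (fun K _ x => (F K x).2) cf := by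
  obtain ⟨e, hF⟩ := hF
  exact ⟨e, Rlz.snd hF⟩

theorem RlzQ.lit (n : ℕ) : RlzQ (a := a) (b := .nat) (fun _ _ _ => n) (fun _ _ _ => 0) :=
  RlzQ.of (Rlz.lit n)

theorem RlzQ.zero : RlzQ (a := a) (b := .fld) (fun K _ _ => (0 : K)) (fun _ _ _ => 0) :=
  RlzQ.of Rlz.zero

theorem RlzQ.one : RlzQ (a := a) (b := .fld) (fun K _ _ => (1 : K)) (fun _ _ _ => 0) :=
  RlzQ.of Rlz.one

section ops

variable {F G : Fam a .nat} {U V : Fam a .fld} {cf cg : CFam a}

theorem RlzQ.add (hF : RlzQ F cf) (hG : RlzQ G cg) :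
    RlzQ (b := .nat) (fun K _ x => (F K x : ℕ) + (G K x : ℕ)) (fun K _ x => cf K x + cg K x) :=
  ((RlzQ.comp (RlzQ.of (Rlz.add (a := .prod .nat .nat) (Rlz.fst Rlz.input) (Rlz.snd Rlz.input)))
    (RlzQ.pair hF hG)).mono 1 (fun K _ x => by simp))

theorem RlzQ.sub (hF : RlzQ F cf) (hG : RlzQ G cg) :
    RlzQ (b := .nat) (fun K _ x => (F K x : ℕ) - (G K x : ℕ)) (fun K _ x => cf K x + cg K x) :=
  ((RlzQ.comp (RlzQ.of (Rlz.sub (a := .prod .nat .nat) (Rlz.fst Rlz.input) (Rlz.snd Rlz.input)))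
    (RlzQ.pair hF hG)).mono 1 (fun K _ x => by simp))

theorem RlzQ.mul (hF : RlzQ F cf) (hG : RlzQ G cg) :
    RlzQ (b := .nat) (fun K _ x => (F K x : ℕ) * (G K x : ℕ)) (fun K _ x => cf K x + cg K x) :=
  ((RlzQ.comp (RlzQ.of (Rlz.mul (a := .prod .nat .nat) (Rlz.fst Rlz.input) (Rlz.snd Rlz.input)))
    (RlzQ.pair hF hG)).mono 1 (fun K _ x => by simp))

theorem RlzQ.div (hF : RlzQ F cf) (hG : RlzQ G cg) :
    RlzQ (b := .nat) (fun K _ x => (F K x : ℕ) / (G K x : ℕ)) (fun K _ x => cf K x + cg K x) :=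
  ((RlzQ.comp (RlzQ.of (Rlz.div (a := .prod .nat .nat) (Rlz.fst Rlz.input) (Rlz.snd Rlz.input)))
    (RlzQ.pair hF hG)).mono 1 (fun K _ x => by simp))

theorem RlzQ.mod (hF : RlzQ F cf) (hG : RlzQ G cg) :
    RlzQ (b := .nat) (fun K _ x => (F K x : ℕ) % (G K x : ℕ)) (fun K _ x => cf K x + cg K x) :=
  ((RlzQ.comp (RlzQ.of (Rlz.mod (a := .prod .nat .nat) (Rlz.fst Rlz.input) (Rlz.snd Rlz.input)))
    (RlzQ.pair hF hG)).mono 1 (fun K _ x => by simp))

theorem RlzQ.lt (hF : RlzQ F cf) (hG : RlzQ G cg) :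
    RlzQ (b := .nat) (fun K _ x => if (F K x : ℕ) < (G K x : ℕ) then 1 else 0)
      (fun K _ x => cf K x + cg K x) :=
  ((RlzQ.comp (RlzQ.of (Rlz.lt (a := .prod .nat .nat) (Rlz.fst Rlz.input) (Rlz.snd Rlz.input)))
    (RlzQ.pair hF hG)).mono 1 (fun K _ x => by simp))

theorem RlzQ.fadd (hF : RlzQ U cf) (hG : RlzQ V cg) :
    RlzQ (b := .fld) (fun K _ x => (U K x : K) + (V K x : K)) (fun K _ x => cf K x + cg K x) :=
  ((RlzQ.comp (RlzQ.of (Rlz.fadd (a := .prod .fld .fld) (Rlz.fst Rlz.input) (Rlz.snd Rlz.input)))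
    (RlzQ.pair hF hG)).mono 1 (fun K _ x => by simp))

theorem RlzQ.fsub (hF : RlzQ U cf) (hG : RlzQ V cg) :
    RlzQ (b := .fld) (fun K _ x => (U K x : K) - (V K x : K)) (fun K _ x => cf K x + cg K x) :=
  ((RlzQ.comp (RlzQ.of (Rlz.fsub (a := .prod .fld .fld) (Rlz.fst Rlz.input) (Rlz.snd Rlz.input)))
    (RlzQ.pair hF hG)).mono 1 (fun K _ x => by simp))

theorem RlzQ.fmul (hF : RlzQ U cf) (hG : RlzQ V cg) :
    RlzQ (b := .fld) (fun K _ x => (U K x : K) * (V K x : K)) (fun K _ x => cf K x + cg K x) :=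
  ((RlzQ.comp (RlzQ.of (Rlz.fmul (a := .prod .fld .fld) (Rlz.fst Rlz.input) (Rlz.snd Rlz.input)))
    (RlzQ.pair hF hG)).mono 1 (fun K _ x => by simp))

theorem RlzQ.fdiv (hF : RlzQ U cf) (hG : RlzQ V cg) :
    RlzQ (b := .fld) (fun K _ x => (U K x : K) / (V K x : K)) (fun K _ x => cf K x + cg K x) :=
  ((RlzQ.comp (RlzQ.of (Rlz.fdiv (a := .prod .fld .fld) (Rlz.fst Rlz.input) (Rlz.snd Rlz.input)))
    (RlzQ.pair hF hG)).mono 1 (fun K _ x => by simp))

theorem RlzQ.finv (hF : RlzQ U cf) : RlzQ (b := .fld) (fun K _ x => (U K x : K)⁻¹) cf := by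
  obtain ⟨e, hF⟩ := hF
  exact ⟨e, Rlz.finv hF⟩

theorem RlzQ.fneg (hF : RlzQ U cf) : RlzQ (b := .fld) (fun K _ x => -(U K x : K)) cf := by
  obtain ⟨e, hF⟩ := hF
  exact ⟨e, Rlz.fneg hF⟩

end ops

theorem RlzQ.get {A : Fam a .arr} {I : Fam a .nat} {cf cg : CFam a} (hA : RlzQ A cf)
    (hI : RlzQ I cg) : RlzQ (b := .fld) (fun K _ x => (A K x : ℕ → K) (I K x))
      (fun K _ x => cf K x + cg K x) :=
  ((RlzQ.comp (RlzQ.of (Rlz.get (a := .prod .arr .nat) (Rlz.fst Rlz.input) (Rlz.snd Rlz.input)))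
    (RlzQ.pair hA hI)).mono 1 (fun K _ x => by simp))

theorem Phi_ite {P : Prop} [Decidable P] (c c' g g' : ℕ) :
    (if P then Phi c g else Phi c' g') ≤ Phi (max c c') (if P then g else g') := by
  split_ifs
  · exact Phi_mono (le_max_left _ _) le_rfl
  · exact Phi_mono (le_max_right _ _) le_rfl

theorem RlzQ.iteNat {T : Fam a .nat} {F G : Fam a b} {ct cf cg : CFam a} (hT : RlzQ T ct)
    (hF : RlzQ F cf) (hG : RlzQ G cg) :
    RlzQ (fun K _ x => if (T K x : ℕ) ≠ 0 then F K x else G K x)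
      (fun K _ x => ct K x + if (T K x : ℕ) ≠ 0 then cf K x else cg K x) := by
  obtain ⟨e, hT⟩ := hT
  obtain ⟨e', hF⟩ := hF
  obtain ⟨e'', hG⟩ := hG
  refine ⟨max e (max e' e''), (Rlz.iteNat hT hF hG).mono 2 (fun K _ x => ?_)⟩
  have h1 := Phi_ite (P := (T K x : ℕ) ≠ 0) e' e'' (cf K x) (cg K x)
  have h2 := Phi_add_le (c := e) (c' := max e' e'') (g := ct K x)
    (g' := if (T K x : ℕ) ≠ 0 then cf K x else cg K x)
  beta_reduce
  omega

theorem RlzQ.iteLt {T U : Fam a .nat} {F G : Fam a b} {ct cu cf cg : CFam a} (hT : RlzQ T ct)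
    (hU : RlzQ U cu) (hF : RlzQ F cf) (hG : RlzQ G cg) :
    RlzQ (fun K _ x => if (T K x : ℕ) < (U K x : ℕ) then F K x else G K x)
      (fun K _ x => ct K x + cu K x + if (T K x : ℕ) < (U K x : ℕ) then cf K x else cg K x) := by
  refine ((RlzQ.iteNat (RlzQ.lt hT hU) hF hG).congr (fun K _ x => ?_)).mono 1 (fun K _ x => ?_)
  · by_cases h : (T K x : ℕ) < (U K x : ℕ) <;> simp [h]
  · by_cases h : (T K x : ℕ) < (U K x : ℕ) <;> simp [h]

theorem RlzQ.iteLe {T U : Fam a .nat} {F G : Fam a b} {ct cu cf cg : CFam a} (hT : RlzQ T ct)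
    (hU : RlzQ U cu) (hF : RlzQ F cf) (hG : RlzQ G cg) :
    RlzQ (fun K _ x => if (T K x : ℕ) ≤ (U K x : ℕ) then F K x else G K x)
      (fun K _ x => ct K x + cu K x + if (T K x : ℕ) ≤ (U K x : ℕ) then cf K x else cg K x) := by
  refine ((RlzQ.iteLt hU hT hG hF).congr (fun K _ x => ?_)).mono 1 (fun K _ x => ?_)
  · by_cases h : (T K x : ℕ) ≤ (U K x : ℕ)
    · simp [h, not_lt.mpr h]
    · simp [h, not_le.mp h]
  · by_cases h : (T K x : ℕ) ≤ (U K x : ℕ)
    · simp [h, not_lt.mpr h]; omega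
    · simp [h, not_le.mp h]; omega

theorem RlzQ.iteEq {T U : Fam a .nat} {F G : Fam a b} {ct cu cf cg : CFam a} (hT : RlzQ T ct)
    (hU : RlzQ U cu) (hF : RlzQ F cf) (hG : RlzQ G cg) :
    RlzQ (fun K _ x => if (T K x : ℕ) = (U K x : ℕ) then F K x else G K x)
      (fun K _ x => ct K x + cu K x + if (T K x : ℕ) = (U K x : ℕ) then cf K x else cg K x) := by
  have key : ∀ m n : ℕ, m ≠ n → ¬ (m - n + (n - m) = 0) := by intros; omega
  refine ((RlzQ.iteNat (RlzQ.add (RlzQ.sub hT hU) (RlzQ.sub hU hT)) hG hF).congr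
    (fun K _ x => ?_)).mono 2 (fun K _ x => ?_)
  · by_cases h : (T K x : ℕ) = (U K x : ℕ)
    · simp [h]
    · simp only [ne_eq, key _ _ h, not_false_eq_true, if_true, h, if_false]
  · by_cases h : (T K x : ℕ) = (U K x : ℕ)
    · simp [h]; omega
    · simp only [ne_eq, key _ _ h, not_false_eq_true, if_true, h, if_false]
      omega

open Classical in
theorem RlzQ.iteZero {T : Fam a .fld} {F G : Fam a b} {ct cf cg : CFam a} (hT : RlzQ T ct)
    (hF : RlzQ F cf) (hG : RlzQ G cg) :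
    RlzQ (fun K _ x => if (T K x : K) = 0 then F K x else G K x)
      (fun K _ x => ct K x + if (T K x : K) = 0 then cf K x else cg K x) := by
  have h : RlzQ (b := .nat) (fun K _ x => if (T K x : K) = 0 then 1 else 0) ct := by
    obtain ⟨e, hT⟩ := hT
    exact ⟨e, Rlz.op .isZero (fun K _ x => if (x : K) = 0 then 1 else 0) (fun _ _ _ => rfl)
      (fun K _ x => by simp [Prog.cost])
      (fun K _ x => Nat.one_le_iff_ne_zero.2 (by positivity)) hT⟩
  refine ((RlzQ.iteNat h hF hG).congr (fun K _ x => ?_)).mono 1 (fun K _ x => ?_)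
  · by_cases h : (T K x : K) = 0 <;> simp [h]
  · by_cases h : (T K x : K) = 0 <;> simp [h]

theorem sum_Phi_le (c n : ℕ) (f : ℕ → ℕ) :
    ∑ i ∈ range n, Phi c (f i) ≤ Phi c (n + ∑ i ∈ range n, f i) := by
  set T := n + ∑ i ∈ range n, f i with hT
  have h1 : ∀ i ∈ range n, Phi c (f i) ≤ (f i + 1) * (Nat.log 2 (T + 1) + 1) ^ c := by
    intro i hi
    unfold Phi
    have h2 : f i ≤ T := by
      have := Finset.single_le_sum (f := f) (fun j _ => Nat.zero_le _) hi
      omega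
    have h3 : Nat.log 2 (f i + 1) ≤ Nat.log 2 (T + 1) := Nat.log_mono_right (by omega)
    gcongr
  calc ∑ i ∈ range n, Phi c (f i)
      ≤ ∑ i ∈ range n, (f i + 1) * (Nat.log 2 (T + 1) + 1) ^ c := Finset.sum_le_sum h1
    _ = T * (Nat.log 2 (T + 1) + 1) ^ c := by
        rw [← Finset.sum_mul, Finset.sum_add_distrib]
        simp [hT, add_comm]
    _ ≤ Phi c T := by unfold Phi; gcongr; omega

/-- building an array.  In goals the entry function must be written `f K x i`. -/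
theorem RlzQ.tab {N : Fam a .nat} {cn : CFam a} {f : ∀ (K : Type) [Field K], a.val K → ℕ → K}
    {c : CFam (.prod a .nat)} (hN : RlzQ N cn)
    (hf : RlzQ (a := .prod a .nat) (b := .fld) (fun K _ x => f K x.1 x.2) c) :
    RlzQ (b := .arr) (fun K _ x => tabF (N K x) (fun i => f K x i))
      (fun K _ x => cn K x + N K x + ∑ i ∈ range (N K x), c K (x, i)) := by
  obtain ⟨e, hN⟩ := hN
  obtain ⟨e', hf⟩ := hf
  refine ⟨max e e', (Rlz.tab hN hf).mono 3 (fun K _ x => ?_)⟩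
  have h1 := sum_Phi_le e' (N K x) (fun i => c K (x, i))
  have h2 : Phi e (cn K x) ≤
      Phi (max e e') (cn K x + N K x + ∑ i ∈ range (N K x), c K (x, i)) :=
    Phi_mono (le_max_left _ _) (by omega)
  have h3 : Phi e' (N K x + ∑ i ∈ range (N K x), c K (x, i)) ≤
      Phi (max e e') (cn K x + N K x + ∑ i ∈ range (N K x), c K (x, i)) :=
    Phi_mono (le_max_right _ _) (by omega)
  have h4 := le_Phi (max e e') (cn K x + N K x + ∑ i ∈ range (N K x), c K (x, i))
  beta_reduce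
  omega

/-- loops.  In goals the body must be written `f K x s i`.  Version for loop states containing
natural numbers, with an explicit bound for them. -/
theorem RlzQ.iterB {N : Fam a .nat} {S : Fam a b} {cn cs : CFam a}
    {f : ∀ (K : Type) [Field K], a.val K → b.val K → ℕ → b.val K}
    {c : CFam (.prod (.prod a b) .nat)} (hN : RlzQ N cn) (hS : RlzQ S cs)
    (hf : RlzQ (a := .prod (.prod a b) .nat) (b := b) (fun K _ x => f K x.1.1 x.1.2 x.2) c)
    (A : ℕ) (hA : ∀ (K : Type) [Field K] (x : a.val K), ∀ i ≤ N K x,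
      b.nmx K (iterF i (S K x) (fun s i => f K x s i)) ≤ (cn K x + cs K x + N K x +
        ∑ i ∈ range (N K x), c K ((x, iterF i (S K x) (fun s i => f K x s i)), i) +
          a.nmx K x + 2) ^ A) :
    RlzQ (b := b) (fun K _ x => iterF (N K x) (S K x) (fun s i => f K x s i))
      (fun K _ x => cn K x + cs K x + N K x +
        ∑ i ∈ range (N K x), c K ((x, iterF i (S K x) (fun s i => f K x s i)), i)) := by
  obtain ⟨e, hN⟩ := hN
  obtain ⟨e', hf⟩ := hf
  obtain ⟨e'', hS⟩ := hS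
  refine ⟨max (max e e'') e', (Rlz.iterB hN hS hf A (fun K _ x i hi => ?_)).mono 4
    (fun K _ x => ?_)⟩
  · refine (hA K x i hi).trans (pw_mono ?_ le_rfl)
    have h1 : ∑ i ∈ range (N K x), c K ((x, iterF i (S K x) (fun s i => f K x s i)), i) ≤
        ∑ i ∈ range (N K x), Phi e' (c K ((x, iterF i (S K x) (fun s i => f K x s i)), i)) :=
      Finset.sum_le_sum fun j _ => by
        have := le_Phi e' (c K ((x, iterF j (S K x) (fun s i => f K x s i)), j))
        omega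
    have h2 := le_Phi e (cn K x)
    have h3 := le_Phi e'' (cs K x)
    omega
  have h1 := sum_Phi_le e' (N K x)
    (fun i => c K ((x, iterF i (S K x) (fun s i => f K x s i)), i))
  beta_reduce at h1 ⊢
  generalize hT : ∑ i ∈ range (N K x), c K ((x, iterF i (S K x) (fun s i => f K x s i)), i) = T
    at h1 ⊢
  have h2 : Phi e (cn K x) ≤ Phi (max (max e e'') e') (cn K x + cs K x + N K x + T) :=
    Phi_mono ((le_max_left _ _).trans (le_max_left _ _)) (by omega)
  have h2' : Phi e'' (cs K x) ≤ Phi (max (max e e'') e') (cn K x + cs K x + N K x + T) :=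
    Phi_mono ((le_max_right _ _).trans (le_max_left _ _)) (by omega)
  have h3 : Phi e' (N K x + T) ≤ Phi (max (max e e'') e') (cn K x + cs K x + N K x + T) :=
    Phi_mono (le_max_right _ _) (by omega)
  have h4 := le_Phi (max (max e e'') e') (cn K x + cs K x + N K x + T)
  omega

/-- loops whose state contains no natural numbers.  In goals the body must be written
`f K x s i`. -/
theorem RlzQ.iter [NoNat b] {N : Fam a .nat} {S : Fam a b} {cn cs : CFam a}
    {f : ∀ (K : Type) [Field K], a.val K → b.val K → ℕ → b.val K}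
    {c : CFam (.prod (.prod a b) .nat)} (hN : RlzQ N cn) (hS : RlzQ S cs)
    (hf : RlzQ (a := .prod (.prod a b) .nat) (b := b) (fun K _ x => f K x.1.1 x.1.2 x.2) c) :
    RlzQ (b := b) (fun K _ x => iterF (N K x) (S K x) (fun s i => f K x s i))
      (fun K _ x => cn K x + cs K x + N K x +
        ∑ i ∈ range (N K x), c K ((x, iterF i (S K x) (fun s i => f K x s i)), i)) :=
  RlzQ.iterB hN hS hf 0 (fun K _ x i _ => by rw [NoNat.nmx_eq]; exact Nat.zero_le _)

/-- sums of field elements.  In goals the summand must be written `f K x i`. -/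
theorem RlzQ.sum {N : Fam a .nat} {cn : CFam a} {f : ∀ (K : Type) [Field K], a.val K → ℕ → K}
    {c : CFam (.prod a .nat)} (hN : RlzQ N cn)
    (hf : RlzQ (a := .prod a .nat) (b := .fld) (fun K _ x => f K x.1 x.2) c) :
    RlzQ (b := .fld) (fun K _ x => ∑ i ∈ range (N K x), f K x i)
      (fun K _ x => cn K x + N K x + ∑ i ∈ range (N K x), c K (x, i)) := by
  obtain ⟨e, hN⟩ := hN
  obtain ⟨e', hf⟩ := hf
  refine ⟨max e e', (Rlz.sum hN hf).mono 3 (fun K _ x => ?_)⟩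
  have h1 := sum_Phi_le e' (N K x) (fun i => c K (x, i))
  have h2 : Phi e (cn K x) ≤
      Phi (max e e') (cn K x + N K x + ∑ i ∈ range (N K x), c K (x, i)) :=
    Phi_mono (le_max_left _ _) (by omega)
  have h3 : Phi e' (N K x + ∑ i ∈ range (N K x), c K (x, i)) ≤
      Phi (max e e') (cn K x + N K x + ∑ i ∈ range (N K x), c K (x, i)) :=
    Phi_mono (le_max_right _ _) (by omega)
  have h4 := le_Phi (max e e') (cn K x + N K x + ∑ i ∈ range (N K x), c K (x, i))
  beta_reduce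
  omega

/-- bounding sums over ranges -/
theorem sum_range_le {n B : ℕ} {f : ℕ → ℕ} (h : ∀ i < n, f i ≤ B) :
    ∑ i ∈ range n, f i ≤ n * B := by
  calc ∑ i ∈ range n, f i ≤ ∑ _i ∈ range n, B :=
        Finset.sum_le_sum (fun i hi => h i (Finset.mem_range.mp hi))
    _ = n * B := by simp

/-- from the calculus to the true number of elementary steps `bcost` -/
theorem RlzQ.exists_prog {F : Fam a b} {g : CFam a} (h : RlzQ F g) :
    ∃ (t : Prog a b) (C : ℕ), ∀ (K : Type) [Field K] (x : a.val K), t.run K x = F K x ∧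
      t.bcost K x ≤ C * (g K x + 1) * (Nat.log 2 (g K x + a.nmx K x + 2) + 1) ^ C := by
  obtain ⟨c, t, C, ht⟩ := h
  set D := C * (c + 4) + 2 with hD
  refine ⟨t, 2 * C * D ^ 2 + (c + 2), fun K _ x => ⟨(ht K x).1, ?_⟩⟩
  have h1 := (ht K x).2.1
  have h2 := (ht K x).2.2
  set G := g K x + a.nmx K x with hG
  set L := Nat.log 2 (G + 2) with hL
  have hlog : Nat.log 2 (g K x + 1) ≤ L := Nat.log_mono_right (by omega)
  have hPhi : Phi c (g K x) ≤ (g K x + 1) * (L + 1) ^ c := by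
    unfold Phi
    gcongr
  -- the size of the numbers
  have h3 : Phi c (g K x) + a.nmx K x + 2 ≤ (G + 2) ^ (c + 3) := by
    have h4 : Phi c (g K x) ≤ (G + 2) ^ (c + 1) := by
      unfold Phi
      rw [pow_succ, mul_comm]
      refine Nat.mul_le_mul ?_ (by omega)
      refine Nat.pow_le_pow_left ?_ c
      have := Nat.log_lt_self 2 (x := g K x + 1) (by omega)
      omega
    have h5 : G + 2 ≤ (G + 2) ^ (c + 1) := by
      calc G + 2 = (G + 2) ^ 1 := (pow_one _).symm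
        _ ≤ (G + 2) ^ (c + 1) := Nat.pow_le_pow_right (by omega) (by omega)
    have h6 : 2 * (G + 2) ^ (c + 1) ≤ (G + 2) ^ (c + 3) := by
      rw [show c + 3 = (c + 1) + 1 + 1 by ring, pow_succ (G + 2) (c + 1 + 1),
        pow_succ (G + 2) (c + 1)]
      have : 1 ≤ (G + 2) ^ (c + 1) := Nat.one_le_iff_ne_zero.2 (by positivity)
      nlinarith [Nat.zero_le ((G + 2) ^ (c + 1) * G), Nat.zero_le ((G + 2) ^ (c + 1) * G * G)]
    omega
  have h4 : t.mx K x ≤ ((G + 2) ^ (c + 3)) ^ C := h2.trans (Nat.pow_le_pow_left h3 C)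
  have h5 : Nat.size (((G + 2) ^ (c + 3)) ^ C) + 1 ≤ D * (L + 1) := by
    have h6 : Nat.size (((G + 2) ^ (c + 3)) ^ C) ≤ Nat.log 2 (((G + 2) ^ (c + 3)) ^ C) + 1 :=
      Nat.size_le.2 (Nat.lt_pow_succ_log_self (by norm_num) _)
    have h7 := log_pow_le ((G + 2) ^ (c + 3)) C
    have h8 := log_pow_le (G + 2) (c + 3)
    rw [← hL] at h8
    have h9 : C * (Nat.log 2 ((G + 2) ^ (c + 3)) + 1) ≤ C * ((c + 3) * (L + 1) + 1) := by gcongr
    have h10 : C * ((c + 3) * (L + 1) + 1) ≤ C * ((c + 4) * (L + 1)) := by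
      gcongr
      nlinarith
    have h11 : D * (L + 1) = C * ((c + 4) * (L + 1)) + 2 * (L + 1) := by rw [hD]; ring
    omega
  have h6 := Prog.bcost_le K t x h4
  calc t.bcost K x ≤ t.cost K x * (Nat.size (((G + 2) ^ (c + 3)) ^ C) + 1) ^ 2 := h6
    _ ≤ (C * (Phi c (g K x) + 1)) * (D * (L + 1)) ^ 2 := by gcongr
    _ ≤ (C * (2 * ((g K x + 1) * (L + 1) ^ c))) * (D * (L + 1)) ^ 2 := by
        gcongr
        have : 1 ≤ (g K x + 1) * (L + 1) ^ c := Nat.one_le_iff_ne_zero.2 (by positivity)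
        omega
    _ = 2 * C * D ^ 2 * (g K x + 1) * (L + 1) ^ (c + 2) := by
        rw [pow_add]; ring
    _ ≤ (2 * C * D ^ 2 + (c + 2)) * (g K x + 1) * (L + 1) ^ (2 * C * D ^ 2 + (c + 2)) := by
        refine Nat.mul_le_mul (Nat.mul_le_mul_right _ (Nat.le_add_right _ _))
          (Nat.pow_le_pow_right (by omega) (Nat.le_add_left _ _))

end Pool.Agent.AbsIrr
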