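import Mathlib

/-!
# Generic rank (blueprint section 2 (C)) and the counting form
-/

namespace Pool.Agent.AbsIrr

open Module

section C

variable {k O W U : Type*} [Field k] [AddCommGroup O] [Module k O]
  [AddCommGroup W] [Module k W] [AddCommGroup U] [Module k U]

/-- Small perturbations of a linearly independent family `v0` in directions `v1` stay linearly
independent for some non-zero parameter (infinite field). -/
theorem exists_linearIndependent_perturb [Infinite k] {m : ℕ} (v0 v1 : Fin m → U)
    (h : LinearIndependent k v0) :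
    ∃ s : k, s ≠ 0 ∧ LinearIndependent k (fun i => v0 i + s • v1 i) := by
  classical
  -- a projection with `π (v0 i) = e i`
  obtain ⟨π, hπ⟩ : ∃ π : U →ₗ[k] (Fin m → k), ∀ i, π (v0 i) = Pi.single i 1 := by
    obtain ⟨π, hπ⟩ := LinearMap.exists_extend (p := Submodule.span k (Set.range v0))
      ((Finsupp.linearEquivFunOnFinite k k (Fin m)).toLinearMap ∘ₗ h.repr)
    refine ⟨π, fun i => ?_⟩
    have h1 := congrArg (fun f => f ⟨v0 i, Submodule.subset_span ⟨i, rfl⟩⟩) hπ
    simp only [LinearMap.comp_apply, Submodule.subtype_apply] at h1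
    rw [h1]
    have h2 : h.repr ⟨v0 i, Submodule.subset_span ⟨i, rfl⟩⟩ = Finsupp.single i 1 :=
      h.repr_eq_single i _ rfl
    rw [h2]
    simp
  set M : Matrix (Fin m) (Fin m) k := Matrix.of (fun i j => π (v1 i) j) with hM
  -- avoid the roots of the characteristic polynomial
  obtain ⟨r, hr⟩ : ∃ r : k, r ∉ ((M.charpoly * Polynomial.X).roots.toFinset : Set k) :=
    Set.Infinite.exists_notMem_finset Set.infinite_univ _ |>.imp fun r hr => hr.2
  have hne : (M.charpoly * Polynomial.X) ≠ 0 :=
    mul_ne_zero (Matrix.charpoly_monic M).ne_zero Polynomial.X_ne_zero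
  have hr' : (M.charpoly * Polynomial.X).eval r ≠ 0 := by
    intro h0
    exact hr (by simpa using (Polynomial.mem_roots hne).2 h0)
  rw [Polynomial.eval_mul, Polynomial.eval_X] at hr'
  have hr0 : r ≠ 0 := right_ne_zero_of_mul hr'
  have hdet : (Matrix.scalar (Fin m) r - M).det ≠ 0 := by
    rw [← Matrix.eval_charpoly]; exact left_ne_zero_of_mul hr'
  refine ⟨-r⁻¹, by simpa using hr0, ?_⟩
  have hli : LinearIndependent k (fun i => (Matrix.scalar (Fin m) r - M) i) :=
    Matrix.linearIndependent_rows_of_det_ne_zero hdet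
  have hli2 : LinearIndependent k (fun i => π (v0 i + (-r⁻¹) • v1 i)) := by
    have h3 := hli.units_smul (fun _ : Fin m => (Units.mk0 r hr0)⁻¹)
    convert h3 using 1
    funext i
    ext j
    have e1 : (Matrix.scalar (Fin m) r - M) i j = (if i = j then r else 0) - π (v1 i) j := by
      simp [hM, Matrix.diagonal_apply]
    have e2 : (((fun _ : Fin m => (Units.mk0 r hr0)⁻¹) • fun i => (Matrix.scalar (Fin m) r - M) i)
        i) j = r⁻¹ * ((if i = j then r else 0) - π (v1 i) j) := by
      rw [← e1]
      simp [Units.smul_def]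
    rw [e2]
    simp only [map_add, map_smul, hπ, Pi.add_apply, Pi.smul_apply, smul_eq_mul, Pi.single_apply]
    by_cases hij : i = j
    · subst hij; simp; field_simp; ring
    · have : ¬ j = i := fun h => hij h.symm
      simp [hij, this]
  exact LinearIndependent.of_comp π hli2

/-- (C) of the blueprint. -/
theorem exists_injective_of_pointwise_surj [Infinite k]
    [FiniteDimensional k W] [FiniteDimensional k U]
    (B : O →ₗ[k] W →ₗ[k] U) (hdim : finrank k W ≤ finrank k U)
    (hB : ∀ w : W, w ≠ 0 → Function.Surjective (fun ω => B ω w)) :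
    ∃ ω, Function.Injective (B ω) := by
  classical
  -- maximal rank
  obtain ⟨ω, hω⟩ : ∃ ω, ∀ ω', finrank k (LinearMap.range (B ω')) ≤
      finrank k (LinearMap.range (B ω)) := by
    have hbd : ∀ n ∈ Set.range (fun ω => finrank k (LinearMap.range (B ω))), n ≤ finrank k U := by
      rintro _ ⟨ω, rfl⟩
      exact Submodule.finrank_le _
    have hne : (Set.range (fun ω => finrank k (LinearMap.range (B ω)))).Nonempty :=
      ⟨_, ⟨0, rfl⟩⟩
    have hmem := Nat.sSup_mem hne ⟨_, hbd⟩
    obtain ⟨ω, hω⟩ := hmem
    refine ⟨ω, fun ω' => ?_⟩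
    change _ ≤ (fun ω => finrank k (LinearMap.range (B ω))) ω
    rw [hω]
    exact le_csSup ⟨_, hbd⟩ ⟨ω', rfl⟩
  refine ⟨ω, ?_⟩
  by_contra hinj
  obtain ⟨w, hw, hw0⟩ : ∃ w, B ω w = 0 ∧ w ≠ 0 := by
    by_contra hcon
    push Not at hcon
    exact hinj ((injective_iff_map_eq_zero _).2 hcon)
  -- the image of `w` under any other map stays in the range
  have key : ∀ ω', B ω' w ∈ LinearMap.range (B ω) := by
    intro ω'
    by_contra hnot
    set ρ := finrank k (LinearMap.range (B ω)) with hρ
    let b := Module.finBasis k (LinearMap.range (B ω))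
    have hb : ∀ i, ∃ x, B ω x = b i := fun i => (b i).2
    choose x hx using hb
    have hli0 : LinearIndependent k (fun i => (b i : U)) :=
      b.linearIndependent.map' (Submodule.subtype _) (Submodule.ker_subtype _)
    have hli1 : LinearIndependent k (Fin.cons (B ω' w) (fun i => (b i : U)) : Fin (ρ + 1) → U) := by
      refine hli0.finCons' _ _ ?_
      intro c y hymem hcy
      by_contra hc
      apply hnot
      have hy : (y : U) ∈ LinearMap.range (B ω) := by
        refine (Submodule.span_le.2 ?_) hymem
        rintro _ ⟨i, rfl⟩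
        exact (b i).2
      have h4 : B ω' w = -(c⁻¹ • (y : U)) := by
        have : c • B ω' w = -(y : U) := eq_neg_of_add_eq_zero_left hcy
        rw [← smul_neg, ← this, smul_smul, inv_mul_cancel₀ hc, one_smul]
      rw [h4]
      exact Submodule.neg_mem _ (Submodule.smul_mem _ _ hy)
    obtain ⟨s, hs0, hs⟩ := exists_linearIndependent_perturb _
      (Fin.cons 0 (fun i => B ω' (x i)) : Fin (ρ + 1) → U) hli1
    -- all members lie in the range of `B (ω + s ω')`
    have hle : (ρ + 1) ≤ finrank k (LinearMap.range (B (ω + s • ω'))) := by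
      have hmem : ∀ i : Fin (ρ + 1), (Fin.cons (B ω' w) (fun i => (b i : U)) : Fin (ρ + 1) → U) i +
          s • (Fin.cons 0 (fun i => B ω' (x i)) : Fin (ρ + 1) → U) i ∈
          LinearMap.range (B (ω + s • ω')) := by
        intro i
        refine Fin.cases ?_ (fun j => ?_) i
        · refine ⟨s⁻¹ • w, ?_⟩
          simp only [map_add, map_smul, LinearMap.add_apply, LinearMap.smul_apply, hw,
            Fin.cons_zero, smul_zero, add_zero, zero_add]
          rw [smul_smul, inv_mul_cancel₀ hs0, one_smul]
        · refine ⟨x j, ?_⟩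
          simp [map_add, map_smul, hx]
      have hli2 : LinearIndependent k (fun i : Fin (ρ + 1) =>
          (⟨_, hmem i⟩ : LinearMap.range (B (ω + s • ω')))) :=
        LinearIndependent.of_comp (Submodule.subtype _) hs
      simpa using hli2.fintype_card_le_finrank
    have := hω (ω + s • ω')
    omega
  have htop : LinearMap.range (B ω) = ⊤ := by
    rw [eq_top_iff]
    intro u _
    obtain ⟨ω', hω'⟩ := hB w hw0 u
    have := key ω'
    simpa [hω'] using this
  have h5 := LinearMap.finrank_range_add_finrank_ker (B ω)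
  rw [htop, finrank_top] at h5
  have h6 : 0 < finrank k (LinearMap.ker (B ω)) := by
    rw [Module.finrank_pos_iff_exists_ne_zero]
    exact ⟨⟨w, hw⟩, fun h => hw0 (by simpa using congrArg Subtype.val h)⟩
  omega

end C

section SZ

open Finset

/-- Schwartz–Zippel over an arbitrary finite index type, for random values in a finite subset of a
subfield, multiplicative form. -/
theorem card_zeros_mul_le {K k ι : Type*} [Field K] [Field k] [Algebra K k] [Fintype ι]
    [DecidableEq ι] (p : MvPolynomial ι k) (hp : p ≠ 0) (S : Finset K) {D : ℕ}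
    (hD : p.totalDegree ≤ D) (P : (ι → K) → Prop) [DecidablePred P]
    (hP : ∀ ω, P ω → MvPolynomial.eval (fun i => algebraMap K k (ω i)) p = 0) :
    #{ω ∈ Fintype.piFinset (fun _ : ι => S) | P ω} * #S ≤ D * #S ^ Fintype.card ι := by
  classical
  rcases S.eq_empty_or_nonempty with rfl | hS
  · simp
  let e := Fintype.equivFin ι
  set q : MvPolynomial (Fin (Fintype.card ι)) k := MvPolynomial.rename e p with hq
  have hq0 : q ≠ 0 := by
    intro h
    exact hp ((MvPolynomial.rename_injective e e.injective) (by rw [← hq, h, map_zero]))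
  have hqd : q.totalDegree ≤ D := (MvPolynomial.totalDegree_rename_le _ _).trans hD
  let φ : K ↪ k := ⟨algebraMap K k, (algebraMap K k).injective⟩
  have h1 := MvPolynomial.schwartz_zippel_totalDegree hq0 (S.map φ)
  rw [card_map] at h1
  have hSpos : 0 < (#S : ℚ≥0) := by exact_mod_cast hS.card_pos
  have h2 : (#{f ∈ Fintype.piFinset (fun _ : Fin (Fintype.card ι) => S.map φ) |
      MvPolynomial.eval f q = 0} : ℚ≥0) * #S ≤ D * #S ^ Fintype.card ι := by
    rw [div_le_div_iff₀ (by positivity) hSpos] at h1
    refine h1.trans ?_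
    gcongr
  have h3 : #{ω ∈ Fintype.piFinset (fun _ : ι => S) | P ω} ≤
      #{f ∈ Fintype.piFinset (fun _ : Fin (Fintype.card ι) => S.map φ) |
      MvPolynomial.eval f q = 0} := by
    refine Finset.card_le_card_of_injOn (fun ω j => algebraMap K k (ω (e.symm j))) ?_ ?_
    · intro ω hω
      simp only [coe_filter, Fintype.mem_piFinset, Set.mem_ofPred_eq] at hω ⊢
      refine ⟨fun j => mem_map.2 ⟨_, hω.1 _, rfl⟩, ?_⟩
      rw [hq, MvPolynomial.eval_rename]
      have he : (fun j => algebraMap K k (ω (e.symm j))) ∘ e = fun i => algebraMap K k (ω i) := by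
        funext i
        simp
      rw [he]
      exact hP ω hω.2
    · intro ω _ ω' _ h
      funext i
      have := congrFun h (e i)
      simp only [Equiv.symm_apply_apply] at this
      exact (algebraMap K k).injective this
  have h4 : ((#{ω ∈ Fintype.piFinset (fun _ : ι => S) | P ω} * #S : ℕ) : ℚ≥0) ≤
      ((D * #S ^ Fintype.card ι : ℕ) : ℚ≥0) := by
    push_cast
    refine le_trans ?_ h2
    gcongr
  exact_mod_cast h4

/-- The determinant of a matrix whose entries have total degree at most `1`. -/
theorem totalDegree_det_le {ι k : Type*} [Field k] {ρ : ℕ}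
    (M : Matrix (Fin ρ) (Fin ρ) (MvPolynomial ι k)) (h : ∀ i j, (M i j).totalDegree ≤ 1) :
    M.det.totalDegree ≤ ρ := by
  classical
  rw [Matrix.det_apply]
  refine (MvPolynomial.totalDegree_finsetSum _ _).trans ?_
  refine Finset.sup_le fun σ _ => ?_
  refine (MvPolynomial.totalDegree_smul_le _ _).trans ?_
  refine (MvPolynomial.totalDegree_finsetProd _ _).trans ?_
  refine (Finset.sum_le_sum (fun i _ => h (σ i) i)).trans ?_
  simp

/-- Counting form: if a matrix depending linearly on `ω` has rank `≥ ρ` for some `ω` over the big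
field, then for all but a fraction `ρ / |S|` of the `ω` with coordinates in `S`. -/
theorem card_rank_lt_mul_le {K k ι : Type*} [Field K] [Field k] [Algebra K k] [Fintype ι]
    [DecidableEq ι] {m n : Type*} [Fintype m] [Fintype n] [DecidableEq m] [DecidableEq n]
    (Z : (ι → k) →ₗ[k] Matrix m n k) (ρ : ℕ) (hρ : ∃ ω, ρ ≤ (Z ω).rank) (S : Finset K) :
    #{ω ∈ Fintype.piFinset (fun _ : ι => S) |
        (Z (fun i => algebraMap K k (ω i))).rank < ρ} * #S ≤ ρ * #S ^ Fintype.card ι := by
  classical
  obtain ⟨ω0, hω0⟩ := hρ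
  -- matrices `P`, `Q` with `P Z(ω0) Q = 1`
  obtain ⟨P, Q, hPQ⟩ : ∃ (P : Matrix (Fin ρ) m k) (Q : Matrix n (Fin ρ) k),
      P * Z ω0 * Q = 1 := by
    set z := (Z ω0).mulVecLin with hz
    have hr : ρ ≤ finrank k (LinearMap.range z) := hω0
    obtain ⟨f, hf⟩ := exists_linearIndependent_of_le_finrank hr
    have hx : ∀ i, ∃ x, z x = f i := fun i => (f i).2
    choose x hx using hx
    have hli : LinearIndependent k (fun i => (f i : m → k)) :=
      hf.map' (Submodule.subtype _) (Submodule.ker_subtype _)
    obtain ⟨π, hπ⟩ : ∃ π : (m → k) →ₗ[k] (Fin ρ → k), ∀ i, π (f i : m → k) = Pi.single i 1 := by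
      obtain ⟨π, hπ⟩ := LinearMap.exists_extend
        (p := Submodule.span k (Set.range (fun i => (f i : m → k))))
        ((Finsupp.linearEquivFunOnFinite k k (Fin ρ)).toLinearMap ∘ₗ hli.repr)
      refine ⟨π, fun i => ?_⟩
      have h1 := congrArg (fun g => g ⟨(f i : m → k), Submodule.subset_span ⟨i, rfl⟩⟩) hπ
      simp only [LinearMap.comp_apply, Submodule.subtype_apply] at h1
      rw [h1]
      have h2 : hli.repr ⟨(f i : m → k), Submodule.subset_span ⟨i, rfl⟩⟩ = Finsupp.single i 1 :=
        hli.repr_eq_single i _ rfl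
      rw [h2]
      simp
    refine ⟨LinearMap.toMatrix' π, Matrix.of (fun a i => x i a), ?_⟩
    ext i j
    have h1 : ((LinearMap.toMatrix' π * Z ω0 * Matrix.of (fun a i => x i a)) i j) =
        ((LinearMap.toMatrix' π).mulVec ((Z ω0).mulVec (x j))) i := by
      rw [Matrix.mulVec_mulVec]
      rfl
    rw [h1, LinearMap.toMatrix'_mulVec]
    have h2 : (Z ω0).mulVec (x j) = f j := hx j
    rw [h2, hπ j, Matrix.one_apply, Pi.single_apply]
  -- the polynomial
  let ZZ : Matrix m n (MvPolynomial ι k) :=
    Matrix.of fun a b => ∑ i, MvPolynomial.C (Z (Pi.single i 1) a b) * MvPolynomial.X i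
  have hZZ : ∀ (v : ι → k) a b, MvPolynomial.eval v (ZZ a b) = Z v a b := by
    intro v a b
    have hv : v = ∑ i, v i • (Pi.single i 1 : ι → k) := by
      funext j
      simp [Finset.sum_apply, Pi.single_apply]
    conv_rhs => rw [hv, map_sum]
    simp [ZZ, Matrix.sum_apply, mul_comm]
  let P' : Matrix (Fin ρ) m (MvPolynomial ι k) := P.map MvPolynomial.C
  let Q' : Matrix n (Fin ρ) (MvPolynomial ι k) := Q.map MvPolynomial.C
  let D : MvPolynomial ι k := Matrix.det (P' * ZZ * Q' : Matrix (Fin ρ) (Fin ρ) _)
  have hD : ∀ v : ι → k, MvPolynomial.eval v D = (P * Z v * Q).det := by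
    intro v
    change MvPolynomial.eval v (Matrix.det _) = _
    rw [RingHom.map_det]
    congr 1
    ext i j
    simp [Matrix.mul_apply, hZZ, P', Q']
  refine card_zeros_mul_le D ?_ S ?_ _ ?_
  · intro h0
    have := hD ω0
    rw [h0, hPQ] at this
    simp at this
  · refine totalDegree_det_le _ fun i j => ?_
    simp only [Matrix.mul_apply, Matrix.map_apply, P', Q']
    refine MvPolynomial.totalDegree_finsetSum_le fun a _ => ?_
    refine (MvPolynomial.totalDegree_mul _ _).trans ?_
    rw [MvPolynomial.totalDegree_C, add_zero]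
    refine MvPolynomial.totalDegree_finsetSum_le fun b _ => ?_
    refine (MvPolynomial.totalDegree_mul _ _).trans ?_
    rw [MvPolynomial.totalDegree_C, zero_add]
    refine MvPolynomial.totalDegree_finsetSum_le fun c _ => ?_
    refine (MvPolynomial.totalDegree_mul _ _).trans ?_
    rw [MvPolynomial.totalDegree_C, zero_add, MvPolynomial.totalDegree_X]
  · intro ω hω
    rw [hD]
    by_contra hdet
    have hunit : IsUnit (P * Z (fun i => algebraMap K k (ω i)) * Q) :=
      (Matrix.isUnit_iff_isUnit_det _).2 (isUnit_iff_ne_zero.2 hdet)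
    have hr := Matrix.rank_of_isUnit _ hunit
    rw [Fintype.card_fin] at hr
    have h1 := Matrix.rank_mul_le_left (P * Z (fun i => algebraMap K k (ω i))) Q
    have h2 := Matrix.rank_mul_le_right P (Z (fun i => algebraMap K k (ω i)))
    omega

end SZ

end Pool.Agent.AbsIrr
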