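import Mathlib
import Pool.Agent.Lib.MP_2adc98_lc.GenRank

/-!
# MP_2adc98: the mathematical side of the algorithm (definitions)

Polynomials in two variables `x`, `y` over `K` are elements of `K[X][X]`: the outer variable is
`y`, the coefficients are polynomials in `x`.
-/

set_option autoImplicit false

namespace Pool.Agent.AbsIrr

open Polynomial

section Defs

variable {K : Type*} [Field K]

/-- the total degree of `P` is at most `D` -/
def TD (D : ℕ) (P : K[X][X]) : Prop := ∀ j, P.coeff j ≠ 0 → (P.coeff j).natDegree + j ≤ D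

/-- the value `P(x, φ(x))` -/
noncomputable def ev (P : K[X][X]) (φ : PowerSeries K) : PowerSeries K :=
  P.eval₂ Polynomial.coeToPowerSeries.ringHom φ

/-- the `φ i` are the roots of `f` in `K⟦x⟧`, with pairwise distinct constant terms -/
structure IsRoots {ι : Type*} [Fintype ι] (f : K[X][X]) (φ : ι → PowerSeries K) : Prop where
  prod : f.map Polynomial.coeToPowerSeries.ringHom = ∏ i, (X - C (φ i))
  inj : Function.Injective fun i => PowerSeries.constantCoeff (φ i)

/-- the polynomial `P(0, y)` -/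
noncomputable def at0 (P : K[X][X]) : K[X] := P.map (evalRingHom 0)

/-- the polynomial with coefficients `ω` -/
noncomputable def Om (d m : ℕ) (ω : Fin d × Fin m → K) : K[X][X] :=
  ∑ q : Fin d × Fin m, monomial (q.1 : ℕ) (monomial (q.2 : ℕ) (ω q))

/-- the matrix `z_{a,i} = [x^(N-1)] φ_i^a Ω(x, φ_i)` -/
noncomputable def Zmat (N : ℕ) {d : ℕ} (φ : Fin d → PowerSeries K) (Ω : K[X][X]) :
    Matrix (Fin d) (Fin d) K :=
  Matrix.of fun a i => PowerSeries.coeff (N - 1) (φ i ^ (a : ℕ) * ev Ω (φ i))

/-- the polynomial `f(x + a y + b, y)` -/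
noncomputable def shf (a b : K) (f : K[X][X]) : K[X][X] :=
  f.eval₂ (eval₂RingHom (C.comp C) (C X + C (C a) * X + C (C b))) X

/-- `t^m P(x, 1/t)` as a power series in `t` over `K[x]` -/
noncomputable def rv (m : ℕ) (P : K[X][X]) : PowerSeries K[X] := (P.reflect m : K[X][X])

/-- `E/F` as a power series in `t` over `K[x]`, where `F = t^d f(x,1/t)` and
`E = t^(2d-2) (Ω f_y)(x,1/t)` -/
noncomputable def EF (d : ℕ) (f Ω : K[X][X]) : PowerSeries K[X] :=
  rv (2 * d - 2) (Ω * derivative f) * PowerSeries.invOfUnit (rv d f) 1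

/-- the coefficient of `x^(N-1) t^n` in `E/F` -/
noncomputable def W (N d : ℕ) (f Ω : K[X][X]) (n : ℕ) : K :=
  (PowerSeries.coeff n (EF d f Ω)).coeff (N - 1)

/-- the sections `s^{(a)}_l = kap_{q l + a}`, `kap_n = W_{n+d-1}` -/
noncomputable def sec (N d q : ℕ) (f Ω : K[X][X]) (a l : ℕ) : K := W N d f Ω (q * l + a + (d - 1))

/-- `A` is the numerator of a proper fraction with denominator `g^e` (`deg g = d`), whose
expansion at infinity `A/g^e = ∑ s_n T^(n+1)` (`T = 1/Y`) begins with `s 0, ..., s (e d - 1)` -/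
def IsBlock (d e : ℕ) (g : K[X]) (s : ℕ → K) (A : K[X]) : Prop :=
  A.degree < (e * d : ℕ) ∧ ∀ n < e * d,
    PowerSeries.coeff n (PowerSeries.mk s * ((reflect d g : K[X]) : PowerSeries K) ^ e) =
      (reflect (e * d - 1) A).coeff n

/-- `t 1, ..., t M` are the digits of the proper fraction with denominator `g^M` given by `s` -/
def Digits (d M : ℕ) (g : K[X]) (s : ℕ → K) (t : ℕ → K[X]) : Prop :=
  (∀ l ∈ Finset.Icc 1 M, (t l).degree < d) ∧
    IsBlock d M g s (∑ l ∈ Finset.Icc 1 M, t l * g ^ (M - l))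

/-- the digits computed by divide and conquer -/
noncomputable def split (d : ℕ) (g : K[X]) : ℕ → (ℕ → K) → ℕ → K[X]
  | 0, s => fun _ => reflect (d - 1) (PowerSeries.trunc d
      (PowerSeries.mk s * ((reflect d g : K[X]) : PowerSeries K)))
  | j + 1, s => fun l => if l ≤ 2 ^ j then split d g j s l else
      split d g j (fun n => PowerSeries.coeff (n + 2 ^ j * d)
        (PowerSeries.mk s * ((reflect d g : K[X]) : PowerSeries K) ^ 2 ^ j)) (l - 2 ^ j)

/-- one step of the Hermite reduction -/
noncomputable def hstep (g v : K[X]) (l : ℕ) (t T : K[X]) : K[X] :=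
  t + (T - (T * v %ₘ g) * derivative g) /ₘ g + C ((l : K)⁻¹) * derivative (T * v %ₘ g)

/-- Hermite reduction of the digits `t M, t (M-1), ..., t (M-j)` -/
noncomputable def herm (g v : K[X]) (t : ℕ → K[X]) (M : ℕ) : ℕ → K[X]
  | 0 => t M
  | j + 1 => hstep g v (M - (j + 1)) (t (M - (j + 1))) (herm g v t M j)

/-- the even part in `x` of `F(x) F(-x)` -/
noncomputable def gF {R : Type*} [CommRing R] (F : PowerSeries R) : PowerSeries R :=
  PowerSeries.mk fun n => PowerSeries.coeff (2 * n) (F * PowerSeries.evalNegHom F)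

/-- the odd part in `x` of `H(x) F(-x)` -/
noncomputable def gH {R : Type*} [CommRing R] (F H : PowerSeries R) : PowerSeries R :=
  PowerSeries.mk fun n => PowerSeries.coeff (2 * n + 1) (H * PowerSeries.evalNegHom F)

/-- `F_h` -/
noncomputable def gFi {R : Type*} [CommRing R] (F : PowerSeries R) (h : ℕ) : PowerSeries R :=
  gF^[h] F

/-- `H_h` -/
noncomputable def gHi {R : Type*} [CommRing R] (F H : PowerSeries R) : ℕ → PowerSeries R
  | 0 => H
  | h + 1 => gH (gFi F h) (gHi F H h)

/-- exchange of the variables: from power series in `t` over `K[x]` to power series in `x` over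
`K⟦t⟧` -/
noncomputable def swp (P : PowerSeries K[X]) : PowerSeries (PowerSeries K) :=
  PowerSeries.mk fun i => PowerSeries.mk fun n => (PowerSeries.coeff n P).coeff i

end Defs

end Pool.Agent.AbsIrr
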