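import Mathlib
import Pool.Agent.Lib.MP_2adc98_lc.RlzQ
import Pool.Agent.Lib.MP_2adc98_lc.Spec

/-!
# MP_2adc98_lc: the array-level functions computed by the routines of the algorithm

Arrays are functions `ℕ → K`.  An array `a` also stands for the power series `PowerSeries.mk a`.
-/

set_option autoImplicit false

namespace Pool.Agent.AbsIrr

open Finset Polynomial

section
variable {K : Type} [Field K]

/-- the first `n` coefficients of the product -/
def conv (n : ℕ) (a b : ℕ → K) : ℕ → K :=
  tabF n (fun i => ∑ j ∈ range (i + 1), a j * b (i - j))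

/-- `B` products at once: `A` consists of `B` blocks of length `w`; every block is multiplied with
`G` and the product is truncated to length `w` -/
def convB (B w : ℕ) (G A : ℕ → K) : ℕ → K :=
  tabF (B * w) (fun n => ∑ j ∈ range (n % w + 1), G j * A (n / w * w + (n % w - j)))

/-- the first `n` coefficients of the power `a^e` -/
noncomputable def pws (n e : ℕ) (a : ℕ → K) : ℕ → K :=
  tabF n (fun i => PowerSeries.coeff i (PowerSeries.mk a ^ e))

/-- the first `n` coefficients of the inverse (used for `a 0 = 1`) -/
noncomputable def pinv (n : ℕ) (a : ℕ → K) : ℕ → K :=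
  tabF n (fun i => PowerSeries.coeff i (PowerSeries.invOfUnit (PowerSeries.mk a) 1))

/-- all entries to the power `e` -/
def powT (n e : ℕ) (a : ℕ → K) : ℕ → K := tabF n (fun i => a i ^ e)

/-- the numbers `0, 1, ..., n-1` in `K` -/
def castT (K : Type) [Field K] (n : ℕ) : ℕ → K := tabF n (fun i => (i : K))

/-- Pascal's triangle: entry `(d+1) i + j` is `i choose j` in `K` (`i, j ≤ d`) -/
def binT (K : Type) [Field K] (d : ℕ) : ℕ → K :=
  tabF ((d + 1) * (d + 1)) (fun n => ((n / (d + 1)).choose (n % (d + 1)) : K))

/-- the polynomial `∑_{i<n} a_i X^i` -/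
noncomputable def apol (n : ℕ) (a : ℕ → K) : K[X] := ∑ i ∈ range n, monomial i (a i)

/-- block number `c` of width `w` as a polynomial -/
noncomputable def blk (w : ℕ) (A : ℕ → K) (c : ℕ) : K[X] :=
  ∑ i ∈ range w, monomial i (A (c * w + i))

/-- the monic polynomial `X^d + ∑_{i<d} g_i X^i` -/
noncomputable def gmon (d : ℕ) (g : ℕ → K) : K[X] := X ^ d + ∑ i ∈ range d, monomial i (g i)

/-- all blocks of width `w` divided by `gmon d g`: quotients -/
noncomputable def divB (B w d : ℕ) (g A : ℕ → K) : ℕ → K :=
  tabF (B * w) (fun n => (blk w A (n / w) /ₘ gmon d g).coeff (n % w))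

/-- all blocks of width `w` divided by `gmon d g`: remainders -/
noncomputable def modB (B w d : ℕ) (g A : ℕ → K) : ℕ → K :=
  tabF (B * w) (fun n => (blk w A (n / w) %ₘ gmon d g).coeff (n % w))

/-- the matrix whose rows are given by the array -/
def matOf (n m : ℕ) (A : ℕ → K) : Matrix (Fin n) (Fin m) K := Matrix.of fun i j => A (i * m + j)

/-- the coefficients of a polynomial in two variables (outer variable `y`): entry `w j + i` is the
coefficient of `x^i y^j` -/
noncomputable def coeffs2 (w : ℕ) (P : K[X][X]) : ℕ → K := fun n => (P.coeff (n / w)).coeff (n % w)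

/-- the coefficients of a power series in `x` over `K⟦t⟧`: entry `w i + n` is the coefficient of
`x^i t^n` -/
noncomputable def flat (w : ℕ) (P : PowerSeries (PowerSeries K)) : ℕ → K :=
  fun n => PowerSeries.coeff (n % w) (PowerSeries.coeff (n / w) P)

/-! fast multiplication -/

/-- cyclic convolution of length `L` -/
def cyc (L : ℕ) (a b : ℕ → K) : ℕ → K :=
  tabF L (fun e => ∑ i ∈ range L, a i * b ((e + (L - i)) % L))

/-- `B` cyclic convolutions of length `L` -/
def cycB (B L : ℕ) (A A' : ℕ → K) : ℕ → K :=
  tabF (B * L) (fun N => ∑ i ∈ range L,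
    A (N / L * L + i) * A' (N / L * L + (N % L + (L - i)) % L))

/-- `B` discrete Fourier transforms of length `n` over `K[w]/(w^L-1)` with root `w^τ`: the array
consists of `B n` blocks of length `L`, and `X_u = ∑_{i<n} a_i w^(τ i u)` -/
def dftB (B n L τ : ℕ) (A : ℕ → K) : ℕ → K :=
  tabF (B * n * L) (fun N => ∑ i ∈ range n,
    A ((N / (n * L) * n + i) * L + (N % L + (L - τ * i * (N / L % n) % L)) % L))

/-- `M` blocks of length `m` padded by zeros to length `L` -/
def padB (M m L : ℕ) (A : ℕ → K) : ℕ → K :=
  tabF (M * L) (fun N => if N % L < m then A (N / L * m + N % L) else 0)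

/-- reduction of every block (length `s² m`) modulo `Φ_s(w^(s m))`, division by `n`, and
recombination of the coefficients of `z^(m j)`, `j < n` -/
def upB (s B n m : ℕ) (V : ℕ → K) : ℕ → K :=
  tabF (B * n * m) (fun N => (n : K)⁻¹ * (
    (V (N / m * (s * s * m) + N % m) -
      V (N / m * (s * s * m) + ((s - 1) * (s * m) + N % m))) +
    (V ((N / m / n * n + (N / m % n + (n - 1)) % n) * (s * s * m) + (m + N % m)) -
      V ((N / m / n * n + (N / m % n + (n - 1)) % n) * (s * s * m) +
        ((s - 1) * (s * m) + (m + N % m))))))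

open Classical in
/-- the prime used for the fast multiplication: `2`, or `3` in characteristic two -/
noncomputable def sK (K : Type) [Field K] : ℕ := if (2 : K) = 0 then 3 else 2

end

end Pool.Agent.AbsIrr
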