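import Mathlib
import Pool.Agent.Lib.MP_2adc98_lc.ADefs

/-!
# MP_2adc98_lc, piece BL: basic routines (helper87)
-/

set_option autoImplicit false
set_option linter.unusedVariables false

namespace Pool.Agent.AbsIrr

open Finset Polynomial

private theorem bl_pow_le (m e i : ℕ) (hi : i ≤ e) : m ^ i ≤ m ^ e + 1 := by
  rcases Nat.eq_zero_or_pos m with h0 | h0
  · subst h0
    rcases Nat.eq_zero_or_pos i with h1 | h1
    · simp [h1]
    · simp [Nat.zero_pow h1]
  · have h1 := Nat.pow_le_pow_right h0 hi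
    omega

private theorem bl_iter_pow (m i : ℕ) : iterF i 1 (fun s _ => s * m) = m ^ i := by
  induction i with
  | zero => simp
  | succ i ih => rw [iterF_succ, ih, pow_succ]

private theorem bl_npow0 : RlzQ (a := .prod .nat .nat) (b := .nat)
    (fun K _ x => (x.1 : ℕ) ^ (x.2 : ℕ)) (fun K _ x => x.2 + x.1 ^ x.2) := by
  have hN : RlzQ (a := .prod .nat .nat) (b := .nat) (fun K _ x => x.2)
      (fun K _ x => x.1 ^ x.2) := (RlzQ.snd RlzQ.input).mono 1 (fun K _ x => Nat.zero_le _)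
  have hf : RlzQ (a := .prod (.prod (.prod .nat .nat) .nat) .nat) (b := .nat)
      (fun K _ x => (x.1.2 : ℕ) * (x.1.1.1 : ℕ)) (fun _ _ _ => 0) :=
    (RlzQ.mul (RlzQ.snd (RlzQ.fst RlzQ.input)) (RlzQ.fst (RlzQ.fst (RlzQ.fst RlzQ.input)))).mono 1
      (fun K _ x => Nat.zero_le _)
  have h := RlzQ.iterB (a := .prod .nat .nat) (b := .nat)
    (f := fun K _ x s i => (s : ℕ) * (x.1 : ℕ)) hN (RlzQ.lit 1) hf 1 (by
    intro K _ x i hi
    rw [pow_one]
    have key : ∀ A B C D E : ℕ, A + 1 ≤ A + B + C + D + E + 2 := by intros; omega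
    exact (le_of_eq (bl_iter_pow x.1 i)).trans
      ((bl_pow_le x.1 x.2 i hi).trans (key _ _ _ _ _)))
  refine (h.congr (fun K _ x => bl_iter_pow _ _)).mono 1 (fun K _ x => ?_)
  simp only [Finset.sum_const_zero]
  have key : ∀ A B : ℕ, A + 0 + B + 0 ≤ 1 * (B + A + 1) := by intros; omega
  exact key _ _

private def lstep (b : ℕ) (s : ℕ × ℕ) : ℕ × ℕ :=
  if 1 < b then (if b ≤ s.2 then (s.1 + 1, s.2 / b) else s) else s

private theorem bl_log (b n i : ℕ) (hb : 1 < b) :
    (iterF i (0, n) (fun s _ => lstep b s)).1 + Nat.log b (iterF i (0, n) (fun s _ => lstep b s)).2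
      = Nat.log b n ∧ (iterF i (0, n) (fun s _ => lstep b s)).2 ≤ n ∧
      ((iterF i (0, n) (fun s _ => lstep b s)).2 < b ∨
        (iterF i (0, n) (fun s _ => lstep b s)).2 + i ≤ n) := by
  induction i with
  | zero => simp
  | succ i ih =>
    rw [iterF_succ]
    generalize iterF i (0, n) (fun s _ => lstep b s) = t at ih
    obtain ⟨h1, h2, h3⟩ := ih
    unfold lstep
    rw [if_pos hb]
    by_cases h : b ≤ t.2
    · rw [if_pos h]
      have h4 := Nat.log_of_one_lt_of_le hb h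
      have h5 : t.2 / b < t.2 := Nat.div_lt_self (by omega) hb
      refine ⟨?_, ?_, ?_⟩
      · change t.1 + 1 + Nat.log b (t.2 / b) = _
        omega
      · change t.2 / b ≤ n
        omega
      · change t.2 / b < b ∨ t.2 / b + (i + 1) ≤ n
        omega
    · rw [if_neg h]
      exact ⟨h1, h2, Or.inl (by omega)⟩

private theorem bl_log_triv (b n i : ℕ) (hb : ¬ 1 < b) :
    iterF i (0, n) (fun s _ => lstep b s) = (0, n) := by
  induction i with
  | zero => rfl
  | succ i ih =>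
    rw [iterF_succ, ih]
    unfold lstep
    rw [if_neg hb]

private theorem bl_log_le (b n i : ℕ) :
    max (iterF i (0, n) (fun s _ => lstep b s)).1 (iterF i (0, n) (fun s _ => lstep b s)).2
      ≤ n := by
  by_cases hb : 1 < b
  · obtain ⟨h1, h2, -⟩ := bl_log b n i hb
    have h3 := Nat.log_le_self b n
    exact max_le (by omega) h2
  · rw [bl_log_triv b n i hb]
    exact max_le (Nat.zero_le _) le_rfl

private theorem bl_log_eq (b n : ℕ) :
    (iterF n (0, n) (fun s _ => lstep b s)).1 = Nat.log b n := by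
  by_cases hb : 1 < b
  · obtain ⟨h1, -, h3⟩ := bl_log b n n hb
    have h4 : Nat.log b (iterF n (0, n) (fun s _ => lstep b s)).2 = 0 :=
      Nat.log_of_lt (by omega)
    rw [h4, add_zero] at h1
    exact h1
  · rw [bl_log_triv b n n hb]
    exact (Nat.log_of_left_le_one (by omega) _).symm

private theorem bl_nlog0 : RlzQ (a := .prod .nat .nat) (b := .nat)
    (fun K _ x => Nat.log (x.1 : ℕ) (x.2 : ℕ)) (fun K _ x => x.2) := by
  have hf : RlzQ (a := .prod (.prod (.prod .nat .nat) (.prod .nat .nat)) .nat)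
      (b := .prod .nat .nat) (fun K _ x => lstep x.1.1.1 x.1.2) (fun _ _ _ => 0) := by
    have e0 : RlzQ (a := .prod (.prod (.prod .nat .nat) (.prod .nat .nat)) .nat)
        (fun K _ x => x.1) (fun _ _ _ => 0) := RlzQ.fst RlzQ.input
    have eb : RlzQ (a := .prod (.prod (.prod .nat .nat) (.prod .nat .nat)) .nat) (b := .nat)
        (fun K _ x => x.1.1.1) (fun _ _ _ => 0) := RlzQ.fst (RlzQ.fst e0)
    have es : RlzQ (a := .prod (.prod (.prod .nat .nat) (.prod .nat .nat)) .nat)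
        (b := .prod .nat .nat) (fun K _ x => x.1.2) (fun _ _ _ => 0) := RlzQ.snd e0
    exact ((RlzQ.iteLt (RlzQ.lit 1) eb (RlzQ.iteLe eb (RlzQ.snd es)
      (RlzQ.pair (RlzQ.add (RlzQ.fst es) (RlzQ.lit 1)) (RlzQ.div (RlzQ.snd es) eb)) es) es).mono 1
      (fun K _ x => by simp)).congr (fun K _ x => rfl)
  have h := RlzQ.iterB (a := .prod .nat .nat) (b := .prod .nat .nat)
    (f := fun K _ x s i => lstep x.1 s) (RlzQ.snd RlzQ.input)
    (RlzQ.pair (RlzQ.lit 0) (RlzQ.snd RlzQ.input)) hf 1 (by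
    intro K _ x i hi
    rw [pow_one]
    have hmx : (x.2 : ℕ) ≤ Ty.nmx K (.prod .nat .nat) x := le_max_right _ _
    have key : ∀ A B C D E : ℕ, E ≤ A + B + C + D + E + 2 := by intros; omega
    exact (bl_log_le x.1 x.2 i).trans (hmx.trans (key _ _ _ _ _)))
  refine ((RlzQ.fst h).congr (fun K _ x => bl_log_eq x.1 x.2)).mono 1 (fun K _ x => ?_)
  simp only [Finset.sum_const_zero]
  have key : ∀ A : ℕ, 0 + (0 + 0) + A + 0 ≤ 1 * (A + 1) := by intros; omega
  exact key _

private theorem bl_castT0 : RlzQ (a := .nat) (b := .arr) (fun K _ x => castT K (x : ℕ))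
    (fun K _ x => (x : ℕ) ^ 2) := by
  have h1 : RlzQ (a := .nat) (b := .arr)
      (fun K _ x => tabF (x : ℕ) (fun i => ∑ j ∈ range i, (1 : K)))
      (fun K _ x => (x : ℕ) ^ 2) := by
    apply RlzQ.mono
    case h =>
      apply_rules [RlzQ.tab, RlzQ.sum, RlzQ.fst, RlzQ.snd, RlzQ.input, RlzQ.one]
    case A => exact 4
    case hc =>
      intro K _ x
      simp only [Finset.sum_const_zero, add_zero, zero_add]
      have key : ∀ n : ℕ, n + ∑ i ∈ range n, i ≤ 4 * (n ^ 2 + 1) := by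
        intro n
        have h2 : ∑ i ∈ range n, i ≤ n * n := sum_range_le (B := n) (fun i hi => by omega)
        nlinarith
      exact key _
  refine h1.congr (fun K _ x => ?_)
  unfold castT
  congr 1
  funext i
  simp

/-- one round of Pascal's triangle -/
private def pstep {K : Type} [Field K] (d : ℕ) (A : ℕ → K) : ℕ → K :=
  tabF ((d + 1) * (d + 1)) (fun n =>
    if n / (d + 1) = 0 then (if n % (d + 1) = 0 then 1 else 0) else
      (if n % (d + 1) = 0 then A ((n / (d + 1) - 1) * (d + 1)) else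
        A ((n / (d + 1) - 1) * (d + 1) + (n % (d + 1) - 1)) +
          A ((n / (d + 1) - 1) * (d + 1) + n % (d + 1))))

private theorem bl_pascal {K : Type} [Field K] (d : ℕ) (r : ℕ) (A : ℕ → K) :
    ∀ n, n / (d + 1) < r → n < (d + 1) * (d + 1) →
      iterF r A (fun s _ => pstep d s) n = ((n / (d + 1)).choose (n % (d + 1)) : K) := by
  induction r with
  | zero => intro n hn; exact absurd hn (Nat.not_lt_zero _)
  | succ r ih =>
    intro n hn hn2
    rw [iterF_succ]
    generalize iterF r A (fun s _ => pstep d s) = B at ih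
    unfold pstep tabF
    rw [if_pos hn2]
    beta_reduce
    have hd : 0 < d + 1 := Nat.succ_pos d
    have hmod : n % (d + 1) < d + 1 := Nat.mod_lt _ hd
    generalize hi : n / (d + 1) = i at hn ⊢
    generalize hj : n % (d + 1) = j at hmod ⊢
    have hdiv : i < d + 1 := by
      rw [← hi]
      exact Nat.div_lt_of_lt_mul hn2
    rcases Nat.eq_zero_or_pos i with h0 | h0
    · subst h0
      rw [if_pos rfl]
      rcases Nat.eq_zero_or_pos j with h1 | h1
      · subst h1
        simp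
      · rw [if_neg (Nat.pos_iff_ne_zero.1 h1), Nat.choose_eq_zero_of_lt h1, Nat.cast_zero]
    · rw [if_neg (Nat.pos_iff_ne_zero.1 h0)]
      obtain ⟨i', rfl⟩ : ∃ i', i = i' + 1 := ⟨i - 1, by omega⟩
      rw [Nat.add_sub_cancel]
      have hB : ∀ l, l < d + 1 → B (i' * (d + 1) + l) = (i'.choose l : K) := by
        intro l hl
        have e1 : (i' * (d + 1) + l) / (d + 1) = i' := by
          rw [mul_comm, Nat.mul_add_div hd, Nat.div_eq_of_lt hl, add_zero]
        have e2 : (i' * (d + 1) + l) % (d + 1) = l := by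
          rw [mul_comm, Nat.mul_add_mod, Nat.mod_eq_of_lt hl]
        have e3 : i' * (d + 1) + l < (d + 1) * (d + 1) := by nlinarith
        have := ih (i' * (d + 1) + l) (by rw [e1]; omega) e3
        rw [e1, e2] at this
        exact this
      rcases Nat.eq_zero_or_pos j with h1 | h1
      · subst h1
        rw [if_pos rfl]
        have := hB 0 hd
        rw [add_zero] at this
        rw [this]
        simp
      · rw [if_neg (Nat.pos_iff_ne_zero.1 h1)]
        obtain ⟨j', rfl⟩ : ∃ j', j = j' + 1 := ⟨j - 1, by omega⟩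
        rw [Nat.add_sub_cancel, hB j' (by omega), hB (j' + 1) hmod, Nat.choose_succ_succ]
        push_cast
        rfl

private theorem bl_binT0 : RlzQ (a := .nat) (b := .arr) (fun K _ x => binT K (x : ℕ))
    (fun K _ x => (x : ℕ) ^ 3) := by
  have hf : RlzQ (a := .prod (.prod .nat .arr) .nat) (b := .arr)
      (fun K _ x => pstep x.1.1 x.1.2)
      (fun K _ x => 2 * ((x.1.1 + 1) * (x.1.1 + 1))) := by
    have ex : RlzQ (a := .prod (.prod (.prod .nat .arr) .nat) .nat) (b := .nat)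
        (fun K _ x => x.1.1.1) (fun _ _ _ => 0) := RlzQ.fst (RlzQ.fst (RlzQ.fst RlzQ.input))
    have eA : RlzQ (a := .prod (.prod (.prod .nat .arr) .nat) .nat) (b := .arr)
        (fun K _ x => x.1.1.2) (fun _ _ _ => 0) := RlzQ.snd (RlzQ.fst (RlzQ.fst RlzQ.input))
    have en : RlzQ (a := .prod (.prod (.prod .nat .arr) .nat) .nat) (b := .nat)
        (fun K _ x => x.2) (fun _ _ _ => 0) := RlzQ.snd RlzQ.input
    have ed : RlzQ (a := .prod (.prod (.prod .nat .arr) .nat) .nat) (b := .nat)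
        (fun K _ x => x.1.1.1 + 1) (fun _ _ _ => 0) := RlzQ.add ex (RlzQ.lit 1)
    have ed0 : RlzQ (a := .prod (.prod .nat .arr) .nat) (b := .nat)
        (fun K _ x => x.1.1 + 1) (fun _ _ _ => 0) :=
      RlzQ.add (RlzQ.fst (RlzQ.fst RlzQ.input)) (RlzQ.lit 1)
    have eq := RlzQ.div en ed
    have er := RlzQ.mod en ed
    have e1 := RlzQ.mul (RlzQ.sub eq (RlzQ.lit 1)) ed
    have hent := RlzQ.iteEq eq (RlzQ.lit 0)
      (RlzQ.iteEq er (RlzQ.lit 0) RlzQ.one RlzQ.zero)
      (RlzQ.iteEq er (RlzQ.lit 0) (RlzQ.get eA e1)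
        (RlzQ.fadd (RlzQ.get eA (RlzQ.add e1 (RlzQ.sub er (RlzQ.lit 1))))
          (RlzQ.get eA (RlzQ.add e1 er))))
    have := RlzQ.tab (a := .prod (.prod .nat .arr) .nat) (f := fun K _ x n =>
      if n / (x.1.1 + 1) = 0 then (if n % (x.1.1 + 1) = 0 then (1 : K) else 0) else
      (if n % (x.1.1 + 1) = 0 then (x.1.2 : ℕ → K) ((n / (x.1.1 + 1) - 1) * (x.1.1 + 1)) else
        (x.1.2 : ℕ → K) ((n / (x.1.1 + 1) - 1) * (x.1.1 + 1) + (n % (x.1.1 + 1) - 1)) +
          (x.1.2 : ℕ → K) ((n / (x.1.1 + 1) - 1) * (x.1.1 + 1) + n % (x.1.1 + 1))))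
      (RlzQ.mul ed0 ed0) hent
    refine (this.congr (fun K _ x => rfl)).mono 1 (fun K _ x => ?_)
    simp only [add_zero, ite_self, Finset.sum_const_zero]
    have key : ∀ A : ℕ, 0 + A ≤ 1 * (2 * A + 1) := by intros; omega
    exact key _
  have h := RlzQ.iter (a := .nat) (b := .arr) (f := fun K _ x s i => pstep x s)
    (RlzQ.add RlzQ.input (RlzQ.lit 1)) (RlzQ.tab (f := fun K _ _ _ => (0 : K)) (RlzQ.lit 0) RlzQ.zero)
    hf
  refine (h.congr (fun K _ x => ?_)).mono 20 (fun K _ x => ?_)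
  · funext n
    by_cases hn : n < ((x : ℕ) + 1) * ((x : ℕ) + 1)
    · have h1 := bl_pascal (K := K) (x : ℕ) ((x : ℕ) + 1) (tabF 0 (fun _ => (0 : K))) n
        (Nat.div_lt_of_lt_mul hn) hn
      refine Eq.trans h1 ?_
      unfold binT tabF
      rw [if_pos hn]
    · have h1 : ∀ B : ℕ → K, pstep (x : ℕ) B n = 0 := by
        intro B
        unfold pstep tabF
        rw [if_neg hn]
      refine Eq.trans (h1 _) ?_
      unfold binT tabF
      rw [if_neg hn]
  · simp only [Finset.sum_const_zero, Finset.sum_const, Finset.card_range, smul_eq_mul]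
    have key : ∀ d : ℕ, 0 + 0 + (0 + 0 + 0) + (d + 1) + (d + 1) * (2 * ((d + 1) * (d + 1)))
        ≤ 20 * (d ^ 3 + 1) := by
      intro d
      nlinarith [sq_nonneg ((d : ℤ) - 1), Nat.zero_le (d * (d - 1)), Nat.zero_le (d ^ 3)]
    exact key _

private theorem bl_nlog {a : Ty} {A B : Fam a .nat} {ca cb : CFam a} (hA : RlzQ A ca)
    (hB : RlzQ B cb) : RlzQ (b := .nat) (fun K _ x => Nat.log (A K x) (B K x))
      (fun K _ x => ca K x + cb K x + B K x) :=
  RlzQ.comp bl_nlog0 (RlzQ.pair hA hB)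

/-- one round of repeated squaring -/
private def qstep {K : Type} [Field K] (N : ℕ) (s : ℕ × ((ℕ → K) × (ℕ → K))) :
    ℕ × ((ℕ → K) × (ℕ → K)) :=
  (s.1 / 2, (tabF N (fun i => if s.1 % 2 = 1 then s.2.1 i * s.2.2 i else s.2.1 i),
    tabF N (fun i => s.2.2 i * s.2.2 i)))

private theorem bl_qstep {K : Type} [Field K] (N E : ℕ) (A : ℕ → K) (r : ℕ) :
    iterF r (E, (tabF N (fun _ => (1 : K)), tabF N (fun i => A i))) (fun s _ => qstep N s) =
      (E / 2 ^ r, (tabF N (fun i => A i ^ (E % 2 ^ r)), tabF N (fun i => A i ^ (2 ^ r)))) := by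
  induction r with
  | zero => simp [Nat.mod_one]
  | succ r ih =>
    rw [iterF_succ, ih]
    have h1 : E / 2 ^ r / 2 = E / 2 ^ (r + 1) := by rw [Nat.div_div_eq_div_mul, pow_succ]
    have e1 : tabF N (fun i => if (E / 2 ^ r) % 2 = 1 then
        (tabF N (fun i => A i ^ (E % 2 ^ r)) : ℕ → K) i *
          (tabF N (fun i => A i ^ (2 ^ r)) : ℕ → K) i else
        (tabF N (fun i => A i ^ (E % 2 ^ r)) : ℕ → K) i) =
        tabF N (fun i => A i ^ (E % 2 ^ (r + 1))) := by
      funext i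
      unfold tabF
      by_cases hi : i < N
      · simp only [if_pos hi]
        rw [Nat.mod_pow_succ]
        rcases Nat.mod_two_eq_zero_or_one (E / 2 ^ r) with h | h
        · rw [if_neg (by omega), h, mul_zero, add_zero]
        · rw [if_pos h, h, mul_one, pow_add]
      · simp only [if_neg hi]
    have e2 : tabF N (fun i => (tabF N (fun i => A i ^ (2 ^ r)) : ℕ → K) i *
          (tabF N (fun i => A i ^ (2 ^ r)) : ℕ → K) i) =
        tabF N (fun i => A i ^ (2 ^ (r + 1))) := by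
      funext i
      unfold tabF
      by_cases hi : i < N
      · simp only [if_pos hi]
        rw [pow_succ, pow_mul, sq]
      · simp only [if_neg hi]
    exact Prod.ext h1 (Prod.ext e1 e2)

private theorem bl_powT0 : RlzQ (a := .prod .nat (.prod .nat .arr)) (b := .arr)
    (fun K _ x => powT (x.1 : ℕ) (x.2.1 : ℕ) x.2.2) (fun K _ x => x.1 + x.2.1) := by
  have hf : RlzQ (a := .prod (.prod (.prod .nat (.prod .nat .arr))
      (.prod .nat (.prod .arr .arr))) .nat) (b := .prod .nat (.prod .arr .arr))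
      (fun K _ x => qstep x.1.1.1 x.1.2) (fun K _ x => 4 * x.1.1.1) := by
    have eN0 : RlzQ (a := .prod (.prod (.prod .nat (.prod .nat .arr))
        (.prod .nat (.prod .arr .arr))) .nat) (b := .nat)
        (fun K _ x => x.1.1.1) (fun _ _ _ => 0) := RlzQ.fst (RlzQ.fst (RlzQ.fst RlzQ.input))
    have es0 : RlzQ (a := .prod (.prod (.prod .nat (.prod .nat .arr))
        (.prod .nat (.prod .arr .arr))) .nat) (b := .nat)
        (fun K _ x => x.1.2.1) (fun _ _ _ => 0) := RlzQ.fst (RlzQ.snd (RlzQ.fst RlzQ.input))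
    have e0 : RlzQ (a := .prod (.prod (.prod (.prod .nat (.prod .nat .arr))
        (.prod .nat (.prod .arr .arr))) .nat) .nat) (b := .prod .nat (.prod .arr .arr))
        (fun K _ x => x.1.1.2) (fun _ _ _ => 0) := RlzQ.snd (RlzQ.fst (RlzQ.fst RlzQ.input))
    have ei : RlzQ (a := .prod (.prod (.prod (.prod .nat (.prod .nat .arr))
        (.prod .nat (.prod .arr .arr))) .nat) .nat) (b := .nat)
        (fun K _ x => x.2) (fun _ _ _ => 0) := RlzQ.snd RlzQ.input
    have ep := RlzQ.get (RlzQ.snd (RlzQ.snd e0)) ei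
    have ea := RlzQ.get (RlzQ.fst (RlzQ.snd e0)) ei
    have h1 := RlzQ.iteEq (RlzQ.mod (RlzQ.fst e0) (RlzQ.lit 2)) (RlzQ.lit 1) (RlzQ.fmul ea ep) ea
    have h2 := RlzQ.fmul ep ep
    have t1 := RlzQ.tab (a := .prod (.prod (.prod .nat (.prod .nat .arr))
        (.prod .nat (.prod .arr .arr))) .nat)
        (f := fun K _ x i => if (x.1.2.1 : ℕ) % 2 = 1 then
          ((x.1.2.2.1 : ℕ → K) i * (x.1.2.2.2 : ℕ → K) i : K) else (x.1.2.2.1 : ℕ → K) i) eN0 h1
    have t2 := RlzQ.tab (a := .prod (.prod (.prod .nat (.prod .nat .arr))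
        (.prod .nat (.prod .arr .arr))) .nat)
        (f := fun K _ x i => ((x.1.2.2.2 : ℕ → K) i * (x.1.2.2.2 : ℕ → K) i : K)) eN0 h2
    refine ((RlzQ.pair (RlzQ.div es0 (RlzQ.lit 2)) (RlzQ.pair t1 t2)).congr
      (fun K _ x => rfl)).mono 1 (fun K _ x => ?_)
    simp only [add_zero, ite_self, Finset.sum_const_zero]
    have key : ∀ A : ℕ, 0 + (0 + A + (0 + A)) ≤ 1 * (4 * A + 1) := by intros; omega
    exact key _
  have eN : RlzQ (a := .prod .nat (.prod .nat .arr)) (b := .nat) (fun K _ x => x.1)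
    (fun _ _ _ => 0) := RlzQ.fst RlzQ.input
  have eE : RlzQ (a := .prod .nat (.prod .nat .arr)) (b := .nat) (fun K _ x => x.2.1)
    (fun _ _ _ => 0) := RlzQ.fst (RlzQ.snd RlzQ.input)
  have eA : RlzQ (a := .prod (.prod .nat (.prod .nat .arr)) .nat) (b := .fld)
    (fun K _ x => (x.1.2.2 : ℕ → K) x.2) (fun _ _ _ => 0) :=
    RlzQ.get (RlzQ.snd (RlzQ.snd (RlzQ.fst RlzQ.input))) (RlzQ.snd RlzQ.input)
  have i1 := RlzQ.tab (a := .prod .nat (.prod .nat .arr)) (f := fun K _ _ _ => (1 : K)) eN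
    RlzQ.one
  have i2 := RlzQ.tab (a := .prod .nat (.prod .nat .arr))
    (f := fun K _ x i => (x.2.2 : ℕ → K) i) eN eA
  have h := RlzQ.iterB (a := .prod .nat (.prod .nat .arr)) (b := .prod .nat (.prod .arr .arr))
    (f := fun K _ x s i => qstep x.1 s) (RlzQ.add (bl_nlog (RlzQ.lit 2) eE) (RlzQ.lit 1))
    (RlzQ.pair eE (RlzQ.pair i1 i2)) hf 1 (by
    intro K _ x i hi
    rw [pow_one]
    have hmx : (x.2.1 : ℕ) ≤ Ty.nmx K (.prod .nat (.prod .nat .arr)) x :=
      (le_max_left _ _).trans (le_max_right _ _)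
    have h1 := bl_qstep (K := K) x.1 x.2.1 x.2.2 i
    have h2 : Ty.nmx K (.prod .nat (.prod .arr .arr)) (((x.2.1 : ℕ) / 2 ^ i,
        (tabF (x.1 : ℕ) (fun j => (x.2.2 : ℕ → K) j ^ ((x.2.1 : ℕ) % 2 ^ i)),
          tabF (x.1 : ℕ) (fun j => (x.2.2 : ℕ → K) j ^ (2 ^ i)))) :
            ℕ × ((ℕ → K) × (ℕ → K))) ≤ (x.2.1 : ℕ) :=
      max_le (Nat.div_le_self _ _) (max_le (Nat.zero_le _) (Nat.zero_le _))
    have key : ∀ A B C D E : ℕ, E ≤ A + B + C + D + E + 2 := by intros; omega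
    refine le_trans (le_of_eq (congrArg _ h1)) (h2.trans (hmx.trans (key _ _ _ _ _))))
  refine ((RlzQ.fst (RlzQ.snd h)).congr (fun K _ x => ?_)).mono' 20 (fun K _ x => ?_)
  · have h1 := bl_qstep (K := K) x.1 x.2.1 x.2.2 (Nat.log 2 (x.2.1 : ℕ) + 1)
    refine (congrArg (fun s : ℕ × ((ℕ → K) × (ℕ → K)) => s.2.1) h1).trans ?_
    have h2 : (x.2.1 : ℕ) % 2 ^ (Nat.log 2 (x.2.1 : ℕ) + 1) = (x.2.1 : ℕ) :=
      Nat.mod_eq_of_lt (Nat.lt_pow_succ_log_self (by norm_num) _)
    change tabF (x.1 : ℕ) (fun j => (x.2.2 : ℕ → K) j ^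
      ((x.2.1 : ℕ) % 2 ^ (Nat.log 2 (x.2.1 : ℕ) + 1))) = _
    rw [h2]
    rfl
  · simp only [Finset.sum_const_zero, Finset.sum_const, Finset.card_range, smul_eq_mul, add_zero]
    have key : ∀ N E : ℕ, 0 + 0 + E + (0 + (0 + N + (0 + N))) + (Nat.log 2 E + 1) +
        (Nat.log 2 E + 1) * (4 * N) ≤ 20 * Phi 20 (N + E) := by
      intro N E
      have h1 : Phi 1 (N + E) ≤ Phi 20 (N + E) := Phi_mono (by norm_num) le_rfl
      have h2 : Nat.log 2 E ≤ Nat.log 2 (N + E + 1) := Nat.log_mono_right (by omega)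
      have h3 : Phi 1 (N + E) = (N + E + 1) * (Nat.log 2 (N + E + 1) + 1) := by
        unfold Phi; rw [pow_one]
      rw [h3] at h1
      have h4 : Nat.log 2 E ≤ E := Nat.log_le_self 2 E
      generalize Nat.log 2 (N + E + 1) = L at h1 h2
      generalize Nat.log 2 E = l at h2 h4 ⊢
      nlinarith [Nat.mul_le_mul_right N h2, Nat.zero_le (N * L), Nat.zero_le (E * L)]
    exact key _ _

section BL
variable {a : Ty}

theorem RlzQ.npow {A B : Fam a .nat} {ca cb : CFam a} (hA : RlzQ A ca) (hB : RlzQ B cb) :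
    RlzQ (b := .nat) (fun K _ x => (A K x : ℕ) ^ (B K x : ℕ))
      (fun K _ x => ca K x + cb K x + B K x + A K x ^ B K x) :=
  (RlzQ.comp bl_npow0 (RlzQ.pair hA hB)).mono 1 (fun K _ x => by
    simp only []
    omega)

theorem RlzQ.nlog {A B : Fam a .nat} {ca cb : CFam a} (hA : RlzQ A ca) (hB : RlzQ B cb) :
    RlzQ (b := .nat) (fun K _ x => Nat.log (A K x) (B K x))
      (fun K _ x => ca K x + cb K x + B K x) :=
  RlzQ.comp bl_nlog0 (RlzQ.pair hA hB)

/-- all entries to the power `e`, by repeated squaring -/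
theorem RlzQ.powT {N E : Fam a .nat} {A : Fam a .arr} {cn ce ca : CFam a} (hN : RlzQ N cn)
    (hE : RlzQ E ce) (hA : RlzQ A ca) :
    RlzQ (b := .arr) (fun K _ x => powT (N K x) (E K x) (A K x))
      (fun K _ x => cn K x + ce K x + ca K x + N K x + E K x) :=
  (RlzQ.comp bl_powT0 (RlzQ.pair hN (RlzQ.pair hE hA))).mono 1 (fun K _ x => by
    simp only []
    omega)

theorem RlzQ.castT {N : Fam a .nat} {cn : CFam a} (hN : RlzQ N cn) :
    RlzQ (b := .arr) (fun K _ x => castT K (N K x)) (fun K _ x => cn K x + N K x ^ 2) :=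
  RlzQ.comp bl_castT0 hN

theorem RlzQ.binT {N : Fam a .nat} {cn : CFam a} (hN : RlzQ N cn) :
    RlzQ (b := .arr) (fun K _ x => binT K (N K x)) (fun K _ x => cn K x + N K x ^ 3) :=
  RlzQ.comp bl_binT0 hN
end BL

end Pool.Agent.AbsIrr
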