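import Mathlib
import Pool.Agent.Lib.MP_2adc98_lc.Model

/-!
# MP_2adc98_lc: the main statement
-/

set_option autoImplicit false

namespace Pool.Agent.AbsIrr

/-- the main statement -/
def MainStatement : Prop :=
  ∃ (A : Prog Inp .nat) (C C' : ℕ), ∀ (K : Type) [Field K] (p d : ℕ) [CharP K p],
    0 < p → p < d ^ 2 →
    (∀ (L : Type) [Field L] [Algebra K L] [FiniteDimensional K L] (S : Finset L),
      C * d ^ 2 ≤ S.card → ∀ f : MvPolynomial (Fin 2) K, f.totalDegree = d →
        Tests A p d f L S (C * d ^ 3) (C * d ^ 3 * (Nat.log 2 d + 1) ^ C)) ∧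
    ∃ (L : Type) (_ : Field L) (_ : Algebra K L) (_ : FiniteDimensional K L) (S : Finset L),
      C * d ^ 2 ≤ S.card ∧ Module.finrank K L ≤ C' * (Nat.log 2 d + 1)

end Pool.Agent.AbsIrr
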