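import Mathlib
import Pool.Agent.Lib.MP_2adc98_lc.ADefs
import Pool.Agent.Lib.MP_2adc98_lc.Defs

/-!
# MP_2adc98_lc, BR: bivariate polynomials as polynomials over `K[X]`; algebraic closures
-/

set_option autoImplicit false

namespace Pool.Agent.AbsIrr

open Finset Polynomial

namespace BR

section
variable (K : Type) [Field K]

/-- `X 0 ↦ C X`, `X 1 ↦ X` -/
noncomputable def fwd : MvPolynomial (Fin 2) K →+* K[X][X] :=
  MvPolynomial.eval₂Hom (C.comp C) ![C X, X]

/-- the inverse -/
noncomputable def bwd : K[X][X] →+* MvPolynomial (Fin 2) K :=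
  eval₂RingHom (eval₂RingHom MvPolynomial.C (MvPolynomial.X 0)) (MvPolynomial.X 1)

theorem fwd_C (a : K) : fwd K (MvPolynomial.C a) = C (C a) := by simp [fwd]

theorem fwd_X0 : fwd K (MvPolynomial.X 0) = C X := by simp [fwd]

theorem fwd_X1 : fwd K (MvPolynomial.X 1) = X := by simp [fwd]

theorem bwd_CC (a : K) : bwd K (C (C a)) = MvPolynomial.C a := by simp [bwd]

theorem bwd_CX : bwd K (C X) = MvPolynomial.X 0 := by simp [bwd]

theorem bwd_X : bwd K X = MvPolynomial.X 1 := by simp [bwd]

theorem bwd_fwd (f : MvPolynomial (Fin 2) K) : bwd K (fwd K f) = f := by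
  have h : (bwd K).comp (fwd K) = RingHom.id _ := by
    refine MvPolynomial.ringHom_ext (fun a => ?_) (fun i => ?_)
    · simp only [RingHom.comp_apply, fwd_C, bwd_CC, RingHom.id_apply]
    · fin_cases i
      · simp only [RingHom.comp_apply, Fin.zero_eta, fwd_X0, bwd_CX, RingHom.id_apply]
      · simp only [RingHom.comp_apply, Fin.mk_one, fwd_X1, bwd_X, RingHom.id_apply]
  exact congrArg (fun φ : MvPolynomial (Fin 2) K →+* MvPolynomial (Fin 2) K => φ f) h

theorem fwd_bwd (f : K[X][X]) : fwd K (bwd K f) = f := by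
  have h : (fwd K).comp (bwd K) = RingHom.id _ := by
    refine ringHom_ext' (ringHom_ext' ?_ ?_) ?_
    · ext a
      simp only [RingHom.comp_apply, fwd_C, bwd_CC, RingHom.id_apply]
    · simp only [RingHom.comp_apply, fwd_X0, bwd_CX, RingHom.id_apply]
    · simp only [RingHom.comp_apply, fwd_X1, bwd_X, RingHom.id_apply]
  exact congrArg (fun φ : K[X][X] →+* K[X][X] => φ f) h

/-- the isomorphism -/
noncomputable def iso : MvPolynomial (Fin 2) K ≃+* K[X][X] :=
  RingEquiv.ofRingHom (fwd K) (bwd K) (RingHom.ext (fwd_bwd K)) (RingHom.ext (bwd_fwd K))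

theorem iso_apply (f : MvPolynomial (Fin 2) K) : iso K f = fwd K f := rfl

theorem fin2 (s : Fin 2 →₀ ℕ) : s = Finsupp.single 0 (s 0) + Finsupp.single 1 (s 1) := by
  ext i
  fin_cases i <;> simp

theorem single_eq_iff (s : Fin 2 →₀ ℕ) (i j : ℕ) :
    s = Finsupp.single 0 i + Finsupp.single 1 j ↔ s 0 = i ∧ s 1 = j := by
  constructor
  · intro h
    rw [h]
    simp
  · rintro ⟨h1, h2⟩
    rw [fin2 s, h1, h2]

theorem fwd_monomial (s : Fin 2 →₀ ℕ) (a : K) :
    fwd K (MvPolynomial.monomial s a) = monomial (s 1) (monomial (s 0) a) := by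
  rw [MvPolynomial.monomial_eq, Finsupp.prod_fintype _ _ (fun _ => pow_zero _), Fin.prod_univ_two,
    map_mul, map_mul, map_pow, map_pow, fwd_C, fwd_X0, fwd_X1, ← mul_assoc, ← map_pow C, ← map_mul C,
    C_mul_X_pow_eq_monomial, C_mul_X_pow_eq_monomial]

theorem coeff_fwd (f : MvPolynomial (Fin 2) K) (i j : ℕ) : ((fwd K f).coeff j).coeff i =
    f.coeff (Finsupp.single 0 i + Finsupp.single 1 j) := by
  induction f using MvPolynomial.induction_on' with
  | monomial s a =>
    rw [fwd_monomial, MvPolynomial.coeff_monomial, coeff_monomial]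
    by_cases h1 : s 1 = j
    · rw [if_pos h1, coeff_monomial]
      by_cases h0 : s 0 = i
      · rw [if_pos h0, if_pos ((single_eq_iff s i j).2 ⟨h0, h1⟩)]
      · rw [if_neg h0, if_neg (fun h => h0 ((single_eq_iff s i j).1 h).1)]
    · rw [if_neg h1, coeff_zero, if_neg (fun h => h1 ((single_eq_iff s i j).1 h).2)]
  | add p q hp hq =>
    rw [map_add, coeff_add, coeff_add, hp, hq, MvPolynomial.coeff_add]

theorem degree_single (i j : ℕ) : (Finsupp.single (0 : Fin 2) i + Finsupp.single 1 j).sum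
    (fun _ e => e) = i + j := by
  rw [Finsupp.sum_fintype _ _ (fun _ => rfl), Fin.sum_univ_two]
  simp

end

end BR

theorem bridge_XX : ∃ Φ : ∀ (K : Type) [Field K], MvPolynomial (Fin 2) K ≃+* K[X][X],
    (∀ (K : Type) [Field K] (f : MvPolynomial (Fin 2) K) (i j : ℕ), ((Φ K f).coeff j).coeff i =
      f.coeff (Finsupp.single 0 i + Finsupp.single 1 j)) ∧
    (∀ (K : Type) [Field K] (f : MvPolynomial (Fin 2) K), TD f.totalDegree (Φ K f)) ∧
    (∀ (K : Type) [Field K] (f : MvPolynomial (Fin 2) K), f ≠ 0 →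
      ∃ j ≤ f.totalDegree, ((Φ K f).coeff j).coeff (f.totalDegree - j) ≠ 0) ∧
    (∀ (K L : Type) [Field K] [Field L] (σ : K →+* L) (f : MvPolynomial (Fin 2) K),
      Φ L (MvPolynomial.map σ f) = (Φ K f).map (mapRingHom σ)) := by
  have hco : ∀ (K : Type) [Field K] (f : MvPolynomial (Fin 2) K) (i j : ℕ),
      ((BR.iso K f).coeff j).coeff i = f.coeff (Finsupp.single 0 i + Finsupp.single 1 j) :=
    fun K _ f i j => BR.coeff_fwd K f i j
  refine ⟨fun K _ => BR.iso K, hco, ?_, ?_, ?_⟩
  · intro K _ f j hj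
    have h1 : ((BR.iso K f).coeff j).coeff ((BR.iso K f).coeff j).natDegree ≠ 0 :=
      leadingCoeff_ne_zero.2 hj
    rw [hco] at h1
    have h2 := MvPolynomial.le_totalDegree (MvPolynomial.mem_support_iff.2 h1)
    rwa [BR.degree_single] at h2
  · intro K _ f hf
    have hne : f.support.Nonempty := by
      rw [Finset.nonempty_iff_ne_empty]
      intro h
      exact hf (MvPolynomial.support_eq_empty.1 h)
    obtain ⟨s, hs, hd⟩ := Finset.exists_mem_eq_sup f.support hne (fun s => s.sum fun _ e => e)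
    have htd : f.totalDegree = s.sum (fun _ e => e) := hd
    have h3 : s 0 + s 1 = f.totalDegree := by
      rw [htd]
      conv_rhs => rw [BR.fin2 s]
      rw [BR.degree_single]
    refine ⟨s 1, by omega, ?_⟩
    rw [hco, ← h3, Nat.add_sub_cancel, ← BR.fin2 s]
    exact MvPolynomial.mem_support_iff.1 hs
  · intro K L _ _ σ f
    ext j i
    rw [hco, MvPolynomial.coeff_map, coeff_map, coe_mapRingHom, coeff_map, hco]

theorem absIrred_iff {K L : Type} [Field K] [Field L] [Algebra K L] [FiniteDimensional K L]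
    (f : MvPolynomial (Fin 2) K) : AbsIrred f ↔ AbsIrred (MvPolynomial.map (algebraMap K L) f) := by
  unfold AbsIrred
  have e : AlgebraicClosure K ≃ₐ[K] AlgebraicClosure L :=
    IsAlgClosure.equiv K (AlgebraicClosure K) (AlgebraicClosure L)
  rw [MvPolynomial.map_map, ← IsScalarTower.algebraMap_eq K L (AlgebraicClosure L)]
  have h : MvPolynomial.map (algebraMap K (AlgebraicClosure L)) f =
      MvPolynomial.mapEquiv (Fin 2) e.toRingEquiv
        (MvPolynomial.map (algebraMap K (AlgebraicClosure K)) f) := by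
    have h0 : algebraMap K (AlgebraicClosure L) =
        (e.toRingEquiv : AlgebraicClosure K →+* AlgebraicClosure L).comp
          (algebraMap K (AlgebraicClosure K)) := RingHom.ext fun x => (e.commutes x).symm
    rw [MvPolynomial.mapEquiv_apply, MvPolynomial.map_map, ← h0]
  rw [h]
  exact (MulEquiv.irreducible_iff _).symm

end Pool.Agent.AbsIrr
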