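import Mathlib
import Pool.Agent.Lib.MP_2adc98_lc.Spec

/-!
# MP_2adc98, M5: preprocessing (shift of the variable `x`, normalisation)
-/

set_option autoImplicit false

namespace Pool.Agent.AbsIrr

open Polynomial

section
variable {K : Type*} [Field K]

private theorem sh_TD {D : ℕ} {P : K[X][X]} :
    TD D P ↔ ∀ i j, D < i + j → (P.coeff j).coeff i = 0 := by
  constructor
  · intro h i j hij
    by_cases h0 : P.coeff j = 0
    · simp [h0]
    · exact coeff_eq_zero_of_natDegree_lt (by have := h j h0; omega)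
  · intro h j hj
    by_contra hlt
    push Not at hlt
    have := h (P.coeff j).natDegree j hlt
    exact hj (leadingCoeff_eq_zero.1 this)

private theorem sh_mono {D D' : ℕ} (h : D ≤ D') {P : K[X][X]} (hP : TD D P) : TD D' P :=
  fun j hj => (hP j hj).trans h

private theorem sh_sum {ι : Type*} {D : ℕ} (s : Finset ι) {P : ι → K[X][X]}
    (hP : ∀ i ∈ s, TD D (P i)) : TD D (∑ i ∈ s, P i) := by
  rw [sh_TD]
  intro i j hij
  rw [finsetSum_coeff, finsetSum_coeff]
  exact Finset.sum_eq_zero fun l hl => sh_TD.1 (hP l hl) i j hij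

private theorem sh_mul {D D' : ℕ} {P Q : K[X][X]} (hP : TD D P) (hQ : TD D' Q) :
    TD (D + D') (P * Q) := by
  rw [sh_TD] at *
  intro i j hij
  rw [coeff_mul, finsetSum_coeff]
  refine Finset.sum_eq_zero fun x hx => ?_
  rw [coeff_mul]
  refine Finset.sum_eq_zero fun y hy => ?_
  rw [Finset.HasAntidiagonal.mem_antidiagonal] at hx hy
  by_cases h1 : D < y.1 + x.1
  · rw [hP _ _ h1, zero_mul]
  · rw [hQ _ _ (by omega), mul_zero]

private theorem sh_C {D : ℕ} {P : K[X]} (hP : P.natDegree ≤ D) :
    TD D (C P : K[X][X]) := by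
  intro j hj
  rcases Nat.eq_zero_or_pos j with rfl | hj0
  · simpa using hP
  · exact absurd (coeff_C_of_ne_zero hj0.ne') hj

private theorem sh_X : TD 1 (X : K[X][X]) := by
  intro j hj
  rw [coeff_X] at hj ⊢
  by_cases h : 1 = j
  · subst h
    simp
  · simp [h] at hj

private theorem sh_add {D : ℕ} {P Q : K[X][X]} (hP : TD D P) (hQ : TD D Q) : TD D (P + Q) := by
  rw [sh_TD] at *
  intro i j hij
  rw [coeff_add, coeff_add, hP i j hij, hQ i j hij, add_zero]

private theorem sh_pow {D : ℕ} {P : K[X][X]} (hP : TD D P) (n : ℕ) : TD (n * D) (P ^ n) := by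
  induction n with
  | zero => simpa using sh_C (K := K) (D := 0) (P := 1) (by simp)
  | succ n ih =>
    rw [pow_succ]
    exact sh_mono (by ring_nf; rfl) (sh_mul ih hP)

/-- the linear form `x + a y + b` -/
private noncomputable def shL (a b : K) : K[X][X] := C X + C (C a) * X + C (C b)

private theorem sh_L (a b : K) : TD 1 (shL a b) := by
  refine sh_add (sh_add (sh_C (by simp)) ?_) (sh_C (by simp))
  exact sh_mono (by norm_num) (sh_mul (sh_C (D := 0) (by simp)) sh_X)

private theorem sh_eq (a b : K) (f : K[X][X]) :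
    shf a b f = f.eval₂ (eval₂RingHom ((C : K[X] →+* K[X][X]).comp C) (shL a b)) X := rfl

private theorem sh_inner (a b : K) (c : K[X]) :
    TD c.natDegree (c.eval₂ ((C : K[X] →+* K[X][X]).comp C) (shL a b)) := by
  rw [eval₂_eq_sum_range]
  refine sh_sum _ fun i hi => ?_
  rw [Finset.mem_range] at hi
  refine sh_mono ?_ (sh_mul (sh_C (D := 0) (P := C (c.coeff i)) (by simp)) (sh_pow (sh_L a b) i))
  omega

theorem TD_shf {D : ℕ} (a b : K) {f : K[X][X]} (hf : TD D f) : TD D (shf a b f) := by
  rw [sh_eq, eval₂_eq_sum]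
  refine sh_sum _ fun j hj => ?_
  have h1 := hf j (mem_support_iff.1 hj)
  refine sh_mono ?_ (sh_mul (sh_inner a b (f.coeff j)) (sh_pow sh_X j))
  omega

theorem shf_coeff_top {d : ℕ} (a b : K) {f : K[X][X]} (hf : TD d f) :
    (shf a b f).coeff d = C (∑ j ∈ Finset.range (d + 1), (f.coeff j).coeff (d - j) * a ^ (d - j)) := by
  have hnd : f.natDegree < d + 1 := by
    by_contra hlt
    push Not at hlt
    have h0 : f.coeff f.natDegree ≠ 0 := by
      intro h0
      have : f = 0 := leadingCoeff_eq_zero.1 h0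
      rw [this] at hlt
      simp at hlt
    have := hf _ h0
    omega
  have hL1 : (shL a b).natDegree ≤ 1 := by
    rw [natDegree_le_iff_coeff_eq_zero]
    intro n hn
    have h1 : n ≠ 1 := by omega
    have h0 : n ≠ 0 := by omega
    simp [shL, coeff_C, h0, coeff_X, h1.symm]
  have hL : (shL a b).coeff 1 = C a := by
    simp [shL, coeff_C]
  rw [sh_eq, eval₂_eq_sum_range' _ hnd, finsetSum_coeff, map_sum]
  refine Finset.sum_congr rfl fun j hj => ?_
  rw [Finset.mem_range] at hj
  rw [coeff_mul_X_pow', if_pos (by omega)]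
  have hc : (f.coeff j).natDegree < d - j + 1 := by
    by_cases h0 : f.coeff j = 0
    · rw [h0]; simp
    · have := hf j h0
      omega
  rw [coe_eval₂RingHom, eval₂_eq_sum_range' _ hc, finsetSum_coeff, Finset.sum_range_succ,
    Finset.sum_eq_zero, zero_add]
  · rw [RingHom.comp_apply, coeff_C_mul]
    have h1 := coeff_pow_of_natDegree_le (n := 1) (m := d - j) hL1
    rw [mul_one] at h1
    rw [h1, hL, C_mul, C_pow]
  · intro i hi
    rw [Finset.mem_range] at hi
    have h1 : (shL a b ^ i).coeff (d - j) = 0 := by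
      refine coeff_eq_zero_of_natDegree_lt ?_
      refine lt_of_le_of_lt (natDegree_pow_le_of_le i hL1) ?_
      omega
    rw [RingHom.comp_apply, coeff_C_mul, h1, mul_zero]

/-- the shift as a ring homomorphism -/
private noncomputable def shH (a b : K) : K[X][X] →+* K[X][X] :=
  eval₂RingHom (eval₂RingHom ((C : K[X] →+* K[X][X]).comp C) (shL a b)) X

private theorem shH_apply (a b : K) (f : K[X][X]) : shH a b f = shf a b f := rfl

private theorem shH_comp (a b a' b' : K) (h : a + a' = 0) (h' : b + b' = 0) :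
    (shH a b).comp (shH a' b') = RingHom.id _ := by
  have ha : a' = -a := by linear_combination h
  have hb : b' = -b := by linear_combination h'
  subst ha hb
  refine Polynomial.ringHom_ext' (Polynomial.ringHom_ext' ?_ ?_) ?_
  · ext x
    simp [shH, RingHom.comp_apply]
  · simp [shH, shL, RingHom.comp_apply]
    ring
  · simp [shH, shL, RingHom.comp_apply]

theorem irreducible_shf_iff (a b : K) (f : K[X][X]) :
    Irreducible (shf a b f) ↔ Irreducible f := by
  have h1 := shH_comp a b (-a) (-b) (by ring) (by ring)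
  have h2 := shH_comp (-a) (-b) a b (by ring) (by ring)
  let e : K[X][X] ≃+* K[X][X] := RingEquiv.ofRingHom (shH a b) (shH (-a) (-b)) h1 h2
  exact MulEquiv.irreducible_iff e

theorem shf_map {k : Type*} [Field k] (σ : K →+* k) (a b : K) (f : K[X][X]) :
    (shf a b f).map (mapRingHom σ) = shf (σ a) (σ b) (f.map (mapRingHom σ)) := by
  have h : (mapRingHom (mapRingHom σ)).comp (shH a b) =
      (shH (σ a) (σ b)).comp (mapRingHom (mapRingHom σ)) := by
    refine Polynomial.ringHom_ext' (Polynomial.ringHom_ext' ?_ ?_) ?_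
    · ext x
      simp [shH, RingHom.comp_apply]
    · simp [shH, shL, RingHom.comp_apply]
    · simp [shH, shL, RingHom.comp_apply]
  exact congrArg (fun g => g f) h

/-- normalisation of the shifted polynomial -/
theorem normalise {d : ℕ} {F : K[X][X]} (hF : TD d F) (a b lc : K)
    (hlc : (shf a b F).coeff d = C lc) (h0 : lc ≠ 0) :
    (C (C lc⁻¹) * shf a b F).Monic ∧ (C (C lc⁻¹) * shf a b F).natDegree = d ∧
      TD d (C (C lc⁻¹) * shf a b F) ∧
      ((at0 (C (C lc⁻¹) * shf a b F)).Separable ↔ (at0 (shf a b F)).Separable) ∧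
      ∀ {k : Type*} [Field k] (σ : K →+* k),
        (Irreducible ((C (C lc⁻¹) * shf a b F).map (mapRingHom σ)) ↔
          Irreducible (F.map (mapRingHom σ))) := by
  have hTD : TD d (C (C lc⁻¹) * shf a b F) := by
    have := sh_mul (sh_C (D := 0) (P := C lc⁻¹) (by simp)) (TD_shf a b hF)
    rwa [zero_add] at this
  have hnd : (C (C lc⁻¹) * shf a b F).natDegree ≤ d := by
    rw [natDegree_le_iff_coeff_eq_zero]
    intro n hn
    ext i
    rw [sh_TD.1 hTD i n (by omega), coeff_zero]
  have htop : (C (C lc⁻¹) * shf a b F).coeff d = 1 := by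
    rw [coeff_C_mul, hlc, ← C_mul, inv_mul_cancel₀ h0, C_1]
  have hmon : (C (C lc⁻¹) * shf a b F).Monic := monic_of_natDegree_le_of_coeff_eq_one d hnd htop
  have hinv : lc⁻¹ ≠ 0 := inv_ne_zero h0
  refine ⟨hmon, ?_, hTD, ?_, ?_⟩
  · refine le_antisymm hnd (le_natDegree_of_ne_zero ?_)
    rw [htop]
    exact one_ne_zero
  · have h1 : at0 (C (C lc⁻¹) * shf a b F) = C lc⁻¹ * at0 (shf a b F) := by
      simp [at0, Polynomial.map_mul]
    rw [h1]
    constructor
    · intro h
      exact h.of_mul_right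
    · intro h
      exact Separable.unit_mul (isUnit_C.2 (isUnit_iff_ne_zero.2 hinv)) h
  · intro k _ σ
    rw [Polynomial.map_mul, shf_map, map_C, coe_mapRingHom, map_C]
    have hu : IsUnit (C (C (σ lc⁻¹)) : k[X][X]) := by
      rw [isUnit_C, isUnit_C, isUnit_iff_ne_zero]
      exact (map_ne_zero σ).2 hinv
    obtain ⟨u, hu⟩ := hu
    rw [← hu, irreducible_units_mul, irreducible_shf_iff]

theorem frob_bezout {p : ℕ} [CharP K p] [Fact p.Prime] (e : ℕ) {f₀ v₀ u₀ : K[X]}
    (h : v₀ * derivative f₀ + u₀ * f₀ = 1) :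
    v₀.map (iterateFrobenius K p e) * derivative (f₀.map (iterateFrobenius K p e)) +
      u₀.map (iterateFrobenius K p e) * f₀.map (iterateFrobenius K p e) = 1 := by
  rw [derivative_map, ← Polynomial.map_mul, ← Polynomial.map_mul, ← Polynomial.map_add, h,
    Polynomial.map_one]

end

end Pool.Agent.AbsIrr
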