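import Mathlib
import Pool.Agent.Lib.MP_2adc98_lc.Spec
import Pool.Agent.Lib.MP_2adc98_lc.Shift

/-!
The number of bad pairs `(a, b)` for the preprocessing `f(x + a y + b, y)`.
-/

set_option autoImplicit false

namespace Pool.Agent.AbsIrr

open Polynomial

namespace BadCount

section
variable {K : Type*} [Field K]

/-- derivative with respect to the inner variable -/
noncomputable def dx (f : K[X][X]) : K[X][X] :=
  ∑ j ∈ f.support, monomial j (derivative (f.coeff j))

theorem coeff_dx (f : K[X][X]) (j : ℕ) : (dx f).coeff j = derivative (f.coeff j) := by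
  unfold dx
  rw [finsetSum_coeff]
  simp only [coeff_monomial]
  rw [Finset.sum_ite_eq' f.support j (fun i => derivative (f.coeff i))]
  split_ifs with h
  · rfl
  · rw [notMem_support_iff.1 h, derivative_zero]

theorem dx_add (f g : K[X][X]) : dx (f + g) = dx f + dx g := by
  ext1 j
  simp [coeff_dx]

theorem dx_monomial (n : ℕ) (c : K[X]) : dx (monomial n c) = monomial n (derivative c) := by
  ext1 j
  rw [coeff_dx, coeff_monomial, coeff_monomial]
  split_ifs <;> simp

/-- the substitution as a ring homomorphism -/
noncomputable def shfHom (a b : K) : K[X][X] →+* K[X][X] :=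
  eval₂RingHom (eval₂RingHom (C.comp C) (C X + C (C a) * X + C (C b))) X

theorem shf_eq (a b : K) (f : K[X][X]) : shf a b f = shfHom a b f := rfl

theorem shfHom_X (a b : K) : shfHom a b X = X := by
  simp [shfHom]

theorem shfHom_CX (a b : K) : shfHom a b (C X) = C X + C (C a) * X + C (C b) := by
  simp [shfHom]

theorem shfHom_CC (a b r : K) : shfHom a b (C (C r)) = C (C r) := by
  simp [shfHom]

theorem shfHom_monomial (a b : K) (n m : ℕ) (r : K) : shfHom a b (monomial n (monomial m r)) =
    C (C r) * (C X + C (C a) * X + C (C b)) ^ m * X ^ n := by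
  rw [← C_mul_X_pow_eq_monomial, ← C_mul_X_pow_eq_monomial, map_mul C, map_pow C, map_mul, map_mul,
    map_pow, map_pow, shfHom_X, shfHom_CX, shfHom_CC]

theorem shf_inv (a b : K) (f : K[X][X]) : shfHom (-a) (-b) (shfHom a b f) = f := by
  have h : (shfHom (-a) (-b)).comp (shfHom a b) = RingHom.id _ := by
    refine ringHom_ext' (ringHom_ext' ?_ ?_) ?_
    · ext r
      simp only [RingHom.comp_apply, shfHom_CC, RingHom.id_apply]
    · simp only [RingHom.comp_apply, shfHom_CX, RingHom.id_apply, map_add, map_mul, shfHom_CC,
        shfHom_X, map_neg]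
      ring
    · simp only [RingHom.comp_apply, shfHom_X, RingHom.id_apply]
  exact congrArg (fun φ : K[X][X] →+* K[X][X] => φ f) h

theorem shf_injective (a b : K) : Function.Injective (shfHom a b : K[X][X] → K[X][X]) :=
  fun f g h => by rw [← shf_inv a b f, h, shf_inv]

/-- chain rule -/
theorem derivative_shf (a b : K) (f : K[X][X]) : derivative (shfHom a b f) =
    shfHom a b (derivative f + C (C a) * dx f) := by
  induction f using Polynomial.induction_on' with
  | add p q hp hq => 
    rw [map_add, derivative_add, hp, hq, dx_add, derivative_add, ← map_add]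
    congr 1
    ring
  | monomial n c =>
    induction c using Polynomial.induction_on' with
    | add p q hp hq =>
      rw [map_add (monomial n), map_add, derivative_add, hp, hq, dx_add, derivative_add, ← map_add]
      congr 1
      ring
    | monomial m r =>
      have h1 : (monomial m r : K[X]) * (n : K[X]) = monomial m (r * n) := by
        rw [← C_mul_X_pow_eq_monomial, ← C_mul_X_pow_eq_monomial, map_mul, map_natCast]
        ring
      rw [dx_monomial, derivative_monomial, derivative_monomial, h1, (shfHom a b).map_add,
        (shfHom a b).map_mul, shfHom_CC, shfHom_monomial, shfHom_monomial, shfHom_monomial]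
      simp only [derivative_mul, derivative_pow, derivative_add, derivative_C, derivative_X,
        map_mul, zero_mul, mul_one, zero_add, add_zero, map_natCast]
      ring

theorem der_unique {f : K[X][X]} {a a' : K} (h : derivative (shf a 0 f) = 0)
    (h' : derivative (shf a' 0 f) = 0) (hne : a ≠ a') : derivative f = 0 ∧ dx f = 0 := by
  rw [shf_eq, derivative_shf] at h h'
  have h1 := shf_injective a 0 (h.trans (map_zero (shfHom a 0)).symm)
  have h2 := shf_injective a' 0 (h'.trans (map_zero (shfHom a' 0)).symm)
  have h3 : C (C (a - a')) * dx f = 0 := by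
    have : C (C (a - a')) * dx f = (derivative f + C (C a) * dx f) -
        (derivative f + C (C a') * dx f) := by
      simp only [map_sub]
      ring
    rw [this, h1, h2, sub_zero]
  have h4 : dx f = 0 := by
    rcases mul_eq_zero.1 h3 with h5 | h5
    · exact absurd (C_eq_zero.1 (C_eq_zero.1 h5)) (sub_ne_zero.2 hne)
    · exact h5
  refine ⟨?_, h4⟩
  rw [h4, mul_zero, add_zero] at h1
  exact h1

/-- a polynomial over an algebraically closed field both of whose partial derivatives vanish is
not irreducible -/
theorem not_irreducible_of_der {k : Type*} [Field k] [IsAlgClosed k] {g : k[X][X]}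
    (h1 : derivative g = 0) (h2 : dx g = 0) : ¬ Irreducible g := by
  have h3 : ∀ j, derivative (g.coeff j) = 0 := fun j => by rw [← coeff_dx, h2, coeff_zero]
  obtain ⟨p, hp⟩ := CharP.exists k
  rcases CharP.char_is_prime_or_zero k p with hpp | hp0
  · have := Fact.mk hpp
    have key : ∀ c : k[X], derivative c = 0 → ∃ c', frobenius k[X] p c' = c := by
      intro c hc
      refine ⟨(contract p c).map (frobeniusEquiv k p).symm.toRingHom, ?_⟩
      rw [frobenius_def, ← map_frobenius_expand, map_expand, map_map]
      have : (frobenius k p).comp (frobeniusEquiv k p).symm.toRingHom = RingHom.id k := by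
        ext x
        simp
      rw [this, map_id, expand_contract p hc hpp.ne_zero]
    have h4 : contract p g ∈ lifts (frobenius k[X] p) := by
      rw [lifts_iff_coeff_lifts]
      intro n
      rw [coeff_contract hpp.ne_zero]
      obtain ⟨c', hc'⟩ := key _ (h3 (n * p))
      exact ⟨c', hc'⟩
    obtain ⟨G, hG⟩ := (mem_lifts _).1 h4
    have h5 : g = G ^ p := by
      rw [← map_frobenius_expand, map_expand, hG, expand_contract p h1 hpp.ne_zero]
    rw [h5]
    exact not_irreducible_pow hpp.ne_one
  · subst hp0
    have : CharZero k := CharP.charP_to_charZero k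
    have h4 : g.natDegree = 0 := derivative_eq_zero.1 h1
    have h5 : (g.coeff 0).natDegree = 0 := derivative_eq_zero.1 (h3 0)
    rw [eq_C_of_natDegree_eq_zero h4, eq_C_of_natDegree_eq_zero h5]
    intro hirr
    by_cases h0 : (g.coeff 0).coeff 0 = 0
    · rw [h0] at hirr
      simp at hirr
    · exact hirr.not_isUnit ((isUnit_C.2 (isUnit_C.2 (isUnit_iff_ne_zero.2 h0))))

theorem irreducible_of_map {k : Type*} [Field k] [Algebra K k] {f : K[X][X]}
    (h : Irreducible (f.map (mapRingHom (algebraMap K k)))) : Irreducible f := by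
  have hloc : ∀ g : K[X][X], IsUnit (g.map (mapRingHom (algebraMap K k))) → IsUnit g := by
    intro g hg
    have h1 := natDegree_eq_zero_of_isUnit hg
    have hinj : Function.Injective (mapRingHom (algebraMap K k)) :=
      map_injective _ (algebraMap K k).injective
    rw [natDegree_map_eq_of_injective hinj] at h1
    rw [eq_C_of_natDegree_eq_zero h1] at hg ⊢
    rw [map_C, isUnit_C, coe_mapRingHom] at hg
    have h2 := natDegree_eq_zero_of_isUnit hg
    rw [natDegree_map] at h2
    rw [eq_C_of_natDegree_eq_zero h2] at hg ⊢
    rw [map_C, isUnit_C, isUnit_iff_ne_zero] at hg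
    rw [isUnit_C, isUnit_C, isUnit_iff_ne_zero]
    intro h3
    rw [h3, map_zero] at hg
    exact hg rfl
  refine ⟨fun hu => h.not_isUnit ?_, fun {p q} hpq => ?_⟩
  · exact hu.map (mapRingHom (mapRingHom (algebraMap K k)))
  · rw [hpq, Polynomial.map_mul] at h
    exact (h.isUnit_or_isUnit rfl).imp (hloc _) (hloc _)

theorem natDegree_det_le {m D : ℕ} (M : Matrix (Fin m) (Fin m) K[X])
    (h : ∀ i j, (M i j).natDegree ≤ D) : M.det.natDegree ≤ m * D := by
  rw [Matrix.det_apply]
  refine natDegree_sum_le_of_forall_le _ _ fun σ _ => ?_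
  refine (natDegree_smul_le _ _).trans ((natDegree_prod_le _ _).trans ?_)
  refine (Finset.sum_le_card_nsmul _ _ D fun i _ => h _ _).trans ?_
  simp

theorem natDegree_resultant_le {m n D : ℕ} {F G : K[X][X]} (hF : ∀ j, (F.coeff j).natDegree ≤ D)
    (hG : ∀ j, (G.coeff j).natDegree ≤ D) : (resultant F G m n).natDegree ≤ (m + n) * D := by
  refine natDegree_det_le _ fun i j => ?_
  refine j.addCases (fun j₁ => ?_) (fun j₁ => ?_)
  · simp only [sylvester, Matrix.of_apply, Fin.addCases_left]
    split_ifs
    · exact hG _
    · simp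
  · simp only [sylvester, Matrix.of_apply, Fin.addCases_right]
    split_ifs
    · exact hF _
    · simp

theorem at0_shf (a b : K) (f : K[X][X]) : at0 (shf a b f) =
    (shf a 0 f).map (evalRingHom b) := by
  have h : (mapRingHom (evalRingHom (0 : K))).comp (shfHom a b) =
      (mapRingHom (evalRingHom b)).comp (shfHom a 0) := by
    refine ringHom_ext' (ringHom_ext' ?_ ?_) ?_
    · ext r
      simp only [RingHom.comp_apply, shfHom_CC, coe_mapRingHom, map_C, coe_evalRingHom, eval_C]
    · simp only [RingHom.comp_apply, shfHom_CX, coe_mapRingHom, Polynomial.map_add,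
        Polynomial.map_mul, map_C, map_X, coe_evalRingHom, eval_C, eval_X]
      simp [add_comm]
    · simp only [RingHom.comp_apply, shfHom_X, coe_mapRingHom, map_X]
  exact congrArg (fun φ : K[X][X] →+* K[X] => φ f) h

theorem resultant_ne_zero' {F : K[X][X]} (hirr : Irreducible F) (hd : F.natDegree ≠ 0)
    (hF : derivative F ≠ 0) : resultant F (derivative F) ≠ 0 := by
  intro h0
  let L := FractionRing K[X]
  have hinj : Function.Injective (algebraMap K[X] L) := IsFractionRing.injective _ _
  have h1 : resultant (F.map (algebraMap K[X] L)) ((derivative F).map (algebraMap K[X] L)) = 0 := by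
    rw [natDegree_map_eq_of_injective hinj, natDegree_map_eq_of_injective hinj,
      resultant_map_map, h0, map_zero]
  rw [resultant_eq_zero_iff] at h1
  have h2 : Irreducible (F.map (algebraMap K[X] L)) :=
    ((hirr.isPrimitive hd).irreducible_iff_irreducible_map_fraction_map).1 hirr
  have h3 : F.map (algebraMap K[X] L) ∣ (derivative F).map (algebraMap K[X] L) := by
    by_contra hnd
    exact h1.2 ((h2.coprime_iff_not_dvd).2 hnd)
  have h4 : (derivative F).map (algebraMap K[X] L) ≠ 0 := by
    rwa [Ne, Polynomial.map_eq_zero_iff hinj]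
  have h5 := natDegree_le_of_dvd h3 h4
  rw [natDegree_map_eq_of_injective hinj, natDegree_map_eq_of_injective hinj] at h5
  exact absurd (natDegree_derivative_lt hd) (not_lt.2 h5)

theorem exists_disc {d : ℕ} {f : K[X][X]} (hf : TD d f) (hd1 : 1 ≤ d) (hirr : Irreducible f)
    (a : K) (hL : (shf a 0 f).coeff d ≠ 0) (hder : derivative (shf a 0 f) ≠ 0) :
    ∃ D : K[X], D ≠ 0 ∧ D.natDegree ≤ d * (2 * d - 1) ∧
      ∀ b, D.eval b ≠ 0 → (at0 (shf a b f)).Separable := by
  set F := shf a 0 f with hFdef
  have hTD : TD d F := TD_shf a 0 hf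
  have hirrF : Irreducible F := (irreducible_shf_iff a 0 f).2 hirr
  have hnd : F.natDegree = d := by
    refine le_antisymm ?_ (le_natDegree_of_ne_zero hL)
    rw [natDegree_le_iff_coeff_eq_zero]
    intro j hj
    by_contra h0
    have := hTD j h0
    omega
  have hd0 : F.natDegree ≠ 0 := by omega
  have hc : ∀ j, (F.coeff j).natDegree ≤ d := by
    intro j
    by_cases h0 : F.coeff j = 0
    · rw [h0]; simp
    · have := hTD j h0
      omega
  have hc' : ∀ j, ((derivative F).coeff j).natDegree ≤ d := by
    intro j
    rw [coeff_derivative]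
    refine (natDegree_mul_le).trans ?_
    have h1 : ((j : K[X]) + 1).natDegree = 0 := by
      have : ((j : K[X]) + 1) = C ((j : K) + 1) := by simp
      rw [this, natDegree_C]
    rw [h1, add_zero]
    exact hc _
  have hdlt := natDegree_derivative_lt hd0
  refine ⟨resultant F (derivative F), resultant_ne_zero' hirrF hd0 hder, ?_, fun b hb => ?_⟩
  · refine (natDegree_resultant_le hc hc').trans ?_
    rw [mul_comm]
    refine Nat.mul_le_mul_left _ ?_
    omega
  · rw [at0_shf, ← hFdef]
    have h1 : resultant (F.map (evalRingHom b)) ((derivative F).map (evalRingHom b)) F.natDegree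
        (derivative F).natDegree = (resultant F (derivative F)).eval b := by
      rw [resultant_map_map, coe_evalRingHom]
    obtain ⟨p, q, -, -, hpq⟩ := exists_mul_add_mul_eq_C_resultant (F.map (evalRingHom b))
      ((derivative F).map (evalRingHom b)) (m := F.natDegree) (n := (derivative F).natDegree)
      natDegree_map_le natDegree_map_le (Or.inl hd0)
    rw [h1] at hpq
    unfold Polynomial.Separable
    rw [derivative_map]
    refine ⟨C ((resultant F (derivative F)).eval b)⁻¹ * p,
      C ((resultant F (derivative F)).eval b)⁻¹ * q, ?_⟩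
    calc C ((resultant F (derivative F)).eval b)⁻¹ * p * F.map (evalRingHom b) +
          C ((resultant F (derivative F)).eval b)⁻¹ * q * (derivative F).map (evalRingHom b)
        = C ((resultant F (derivative F)).eval b)⁻¹ *
          (F.map (evalRingHom b) * p + (derivative F).map (evalRingHom b) * q) := by ring
      _ = 1 := by
        rw [hpq, ← C_mul, inv_mul_cancel₀ hb, C_1]

end

end BadCount

section
variable {K : Type*} [Field K]

open BadCount in
/-- the number of bad pairs; `k` is an algebraically closed extension of `K` -/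
theorem bad_count {k : Type*} [Field k] [IsAlgClosed k] [Algebra K k] {d : ℕ} {f : K[X][X]}
    (hf : TD d f) (hd1 : 1 ≤ d) (hdeg : ∃ j ≤ d, (f.coeff j).coeff (d - j) ≠ 0)
    (hirr : Irreducible (f.map (mapRingHom (algebraMap K k)))) (S : Finset K) :
    open Classical in
    ((S ×ˢ S).filter (fun ab => ¬ ((shf ab.1 ab.2 f).coeff d ≠ 0 ∧
      (at0 (shf ab.1 ab.2 f)).Separable))).card ≤ (2 * d ^ 2 + 1) * S.card := by
  classical
  -- the top coefficient as a polynomial in `a`
  set Lp : K[X] := ∑ j ∈ Finset.range (d + 1), monomial (d - j) ((f.coeff j).coeff (d - j))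
    with hLp
  have hLeval : ∀ a b : K, (shf a b f).coeff d = C (Lp.eval a) := by
    intro a b
    rw [shf_coeff_top a b hf, hLp, eval_finsetSum]
    simp only [eval_monomial]
  have hLne : Lp ≠ 0 := by
    obtain ⟨j, hj, hne⟩ := hdeg
    intro h0
    apply hne
    have h1 : Lp.coeff (d - j) = (f.coeff j).coeff (d - j) := by
      rw [hLp, finsetSum_coeff]
      simp only [coeff_monomial]
      rw [Finset.sum_eq_single j]
      · simp
      · intro i hi hij
        have : i ≤ d := by simpa [Nat.lt_succ_iff] using hi
        rw [if_neg (by omega)]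
      · intro h; simp at h; omega
    rw [← h1, h0, coeff_zero]
  have hLdeg : Lp.natDegree ≤ d := by
    refine natDegree_sum_le_of_forall_le _ _ fun j _ => ?_
    exact (natDegree_monomial_le _).trans (Nat.sub_le _ _)
  have hirrK := irreducible_of_map hirr
  -- at most one exceptional value of `a`
  have hone : (S.filter fun a => derivative (shf a 0 f) = 0).card ≤ 1 := by
    rw [Finset.card_le_one]
    intro a ha a' ha'
    by_contra hne
    obtain ⟨h1, h2⟩ := der_unique (Finset.mem_filter.1 ha).2 (Finset.mem_filter.1 ha').2 hne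
    refine not_irreducible_of_der ?_ ?_ hirr
    · rw [derivative_map, h1, Polynomial.map_zero]
    · ext1 j
      rw [coeff_dx, coeff_map, coe_mapRingHom, derivative_map, ← coeff_dx, h2]
      simp
  have htop : (S.filter fun a => Lp.eval a = 0).card ≤ d := by
    refine le_trans ?_ hLdeg
    refine le_trans (Finset.card_le_card (t := Lp.roots.toFinset) ?_)
      ((Multiset.toFinset_card_le _).trans (card_roots' _))
    intro a ha
    rw [Multiset.mem_toFinset, mem_roots hLne]
    exact (Finset.mem_filter.1 ha).2
  -- the number of bad `b` for a good `a`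
  have hgood : ∀ a ∈ S, ¬ (Lp.eval a = 0 ∨ derivative (shf a 0 f) = 0) →
      (S.filter fun b => ¬ ((shf a b f).coeff d ≠ 0 ∧ (at0 (shf a b f)).Separable)).card ≤
        d * (2 * d - 1) := by
    intro a _ ha
    push Not at ha
    obtain ⟨D, hD0, hDdeg, hD⟩ := exists_disc hf hd1 hirrK a
      (by rw [hLeval]; simpa using ha.1) ha.2
    refine le_trans ?_ hDdeg
    refine le_trans (Finset.card_le_card (t := D.roots.toFinset) ?_)
      ((Multiset.toFinset_card_le _).trans (card_roots' _))
    intro b hb
    rw [Multiset.mem_toFinset, mem_roots hD0]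
    by_contra hb0
    refine (Finset.mem_filter.1 hb).2 ⟨?_, hD b hb0⟩
    rw [hLeval]; simpa using ha.1
  have hsum : ((S ×ˢ S).filter (fun ab => ¬ ((shf ab.1 ab.2 f).coeff d ≠ 0 ∧
      (at0 (shf ab.1 ab.2 f)).Separable))).card = ∑ a ∈ S,
      (S.filter fun b => ¬ ((shf a b f).coeff d ≠ 0 ∧ (at0 (shf a b f)).Separable)).card := by
    rw [Finset.card_filter, Finset.sum_product]
    refine Finset.sum_congr rfl fun a _ => ?_
    rw [Finset.card_filter]
  rw [hsum]
  have hbound : ∀ a ∈ S, (S.filter fun b => ¬ ((shf a b f).coeff d ≠ 0 ∧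
      (at0 (shf a b f)).Separable)).card ≤
        (if Lp.eval a = 0 then S.card else 0) + (if derivative (shf a 0 f) = 0 then S.card else 0) +
          d * (2 * d - 1) := by
    intro a ha
    by_cases h1 : Lp.eval a = 0
    · rw [if_pos h1]
      exact (Finset.card_filter_le _ _).trans (by omega)
    · by_cases h2 : derivative (shf a 0 f) = 0
      · rw [if_neg h1, if_pos h2]
        exact (Finset.card_filter_le _ _).trans (by omega)
      · rw [if_neg h1, if_neg h2]
        have := hgood a ha (by push Not; exact ⟨h1, h2⟩)
        omega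
  refine (Finset.sum_le_sum hbound).trans ?_
  rw [Finset.sum_add_distrib, Finset.sum_add_distrib, ← Finset.sum_filter, ← Finset.sum_filter,
    Finset.sum_const, Finset.sum_const, Finset.sum_const, smul_eq_mul, smul_eq_mul, smul_eq_mul]
  have h1 : (S.filter fun a => Lp.eval a = 0).card * S.card ≤ d * S.card :=
    Nat.mul_le_mul_right _ htop
  have h2 : (S.filter fun a => derivative (shf a 0 f) = 0).card * S.card ≤ 1 * S.card :=
    Nat.mul_le_mul_right _ hone
  have h3 : d + 1 + d * (2 * d - 1) = 2 * d ^ 2 + 1 := by
    obtain ⟨c, rfl⟩ := Nat.exists_eq_add_of_le' hd1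
    have : 2 * (c + 1) - 1 = 2 * c + 1 := by omega
    rw [this]
    ring
  calc _ ≤ d * S.card + 1 * S.card + S.card * (d * (2 * d - 1)) := by
        gcongr
    _ = (d + 1 + d * (2 * d - 1)) * S.card := by ring
    _ = _ := by rw [h3]

end

end Pool.Agent.AbsIrr
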