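import Mathlib
import Pool.Agent.Lib.MP_2adc98_lc.Spec

/-!
# M0: total degree, evaluation at power series, roots
-/

set_option autoImplicit false

namespace Pool.Agent.AbsIrr

open Polynomial

section
variable {K : Type*} [Field K]

theorem TD.mono {D D' : ℕ} (h : D ≤ D') {P : K[X][X]} (hP : TD D P) : TD D' P :=
  fun j hj => (hP j hj).trans h

theorem TD.add {D : ℕ} {P Q : K[X][X]} (hP : TD D P) (hQ : TD D Q) : TD D (P + Q) := by
  intro j hj
  rw [coeff_add] at hj ⊢
  by_cases h1 : P.coeff j = 0
  · rw [h1, zero_add] at hj ⊢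
    exact hQ j hj
  by_cases h2 : Q.coeff j = 0
  · rw [h2, add_zero] at hj ⊢
    exact hP j hj
  have h3 := hP j h1
  have h4 := hQ j h2
  have h5 := natDegree_add_le (P.coeff j) (Q.coeff j)
  have h6 : max (P.coeff j).natDegree (Q.coeff j).natDegree ≤ D - j := by
    rw [max_le_iff]; omega
  omega

theorem TD.neg {D : ℕ} {P : K[X][X]} (hP : TD D P) : TD D (-P) := by
  intro j hj
  rw [coeff_neg, neg_ne_zero] at hj
  rw [coeff_neg, natDegree_neg]
  exact hP j hj

theorem TD.sub {D : ℕ} {P Q : K[X][X]} (hP : TD D P) (hQ : TD D Q) : TD D (P - Q) := by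
  rw [sub_eq_add_neg]
  exact hP.add hQ.neg

theorem TD.zero {D : ℕ} : TD D (0 : K[X][X]) := fun j hj => absurd (coeff_zero j) hj

theorem TD.sum {ι : Type*} {D : ℕ} (s : Finset ι) {P : ι → K[X][X]} (hP : ∀ i ∈ s, TD D (P i)) :
    TD D (∑ i ∈ s, P i) := by
  classical
  induction s using Finset.induction_on with
  | empty => simpa using TD.zero
  | insert a s ha ih =>
    rw [Finset.sum_insert ha]
    exact (hP a (Finset.mem_insert_self _ _)).add
      (ih fun i hi => hP i (Finset.mem_insert_of_mem hi))

/-- coefficientwise criterion -/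
theorem TD_iff {D : ℕ} {P : K[X][X]} :
    TD D P ↔ ∀ i j, (P.coeff j).coeff i ≠ 0 → i + j ≤ D := by
  constructor
  · intro h i j hij
    have h1 : P.coeff j ≠ 0 := by
      intro h0; rw [h0] at hij; simp at hij
    have h2 := h j h1
    have h3 := le_natDegree_of_ne_zero hij
    omega
  · intro h j hj
    exact h _ j (by rw [coeff_natDegree]; exact leadingCoeff_ne_zero.2 hj)

theorem TD.C {D : ℕ} {P : K[X]} (hP : P.natDegree ≤ D) : TD D (Polynomial.C P) := by
  intro j hj
  by_cases h : j = 0
  · subst h; simpa using hP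
  · rw [coeff_C_of_ne_zero h] at hj; exact absurd rfl hj

theorem TD.C_mul_X_pow {D j : ℕ} {P : K[X]} (hP : P.natDegree + j ≤ D) :
    TD D (Polynomial.C P * X ^ j) := by
  intro i hi
  rw [coeff_C_mul_X_pow] at hi ⊢
  by_cases h : i = j
  · subst h; simpa using hP
  · simp [h] at hi

theorem TD.mul {D D' : ℕ} {P Q : K[X][X]} (hP : TD D P) (hQ : TD D' Q) : TD (D + D') (P * Q) := by
  rw [TD_iff] at hP hQ ⊢
  intro i j hij
  rw [coeff_mul, finsetSum_coeff] at hij
  obtain ⟨⟨a, b⟩, hab, h1⟩ := Finset.exists_ne_zero_of_sum_ne_zero hij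
  rw [coeff_mul] at h1
  obtain ⟨⟨c, e⟩, hce, h2⟩ := Finset.exists_ne_zero_of_sum_ne_zero h1
  have h3 := hP c a (left_ne_zero_of_mul h2)
  have h4 := hQ e b (right_ne_zero_of_mul h2)
  rw [Finset.HasAntidiagonal.mem_antidiagonal] at hab hce
  simp only at hab hce
  omega

theorem TD.pow {D : ℕ} {P : K[X][X]} (hP : TD D P) (n : ℕ) : TD (n * D) (P ^ n) := by
  induction n with
  | zero =>
    rw [pow_zero]
    exact (TD.C (D := 0) (P := 1) (by simp)).mono (by omega)
  | succ n ih =>
    rw [pow_succ]
    exact (ih.mul hP).mono (by ring_nf; exact le_rfl)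

theorem TD.prod {ι : Type*} (s : Finset ι) {D : ι → ℕ} {P : ι → K[X][X]}
    (hP : ∀ i ∈ s, TD (D i) (P i)) : TD (∑ i ∈ s, D i) (∏ i ∈ s, P i) := by
  classical
  induction s using Finset.induction_on with
  | empty =>
    simp only [Finset.sum_empty, Finset.prod_empty]
    exact TD.C (P := 1) (by simp)
  | insert a s ha ih =>
    rw [Finset.sum_insert ha, Finset.prod_insert ha]
    exact (hP a (Finset.mem_insert_self _ _)).mul
      (ih fun i hi => hP i (Finset.mem_insert_of_mem hi))

theorem TD.derivative {D : ℕ} {P : K[X][X]} (hP : TD D P) :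
    TD (D - 1) (Polynomial.derivative P) := by
  intro j hj
  rw [coeff_derivative] at hj ⊢
  have h1 := hP (j + 1) (left_ne_zero_of_mul hj)
  have h2 : (P.coeff (j + 1) * ((j : K[X]) + 1)).natDegree ≤ (P.coeff (j + 1)).natDegree := by
    have h3 : ((j : K[X]) + 1) = Polynomial.C ((j : K) + 1) := by simp
    rw [h3]
    exact natDegree_mul_C_le _ _
  omega

/-- reduction modulo a monic polynomial of total degree equal to its `y`-degree -/
theorem TD.modByMonic {D d : ℕ} {f P : K[X][X]} (hf : f.Monic) (hd : f.natDegree = d)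
    (hTD : TD d f) (hP : TD D P) : TD D (P %ₘ f) := by
  induction hn : P.natDegree using Nat.strong_induction_on generalizing P with
  | _ n ih =>
    by_cases hlt : P.degree < f.degree
    · rwa [(modByMonic_eq_self_iff hf).2 hlt]
    push Not at hlt
    have hP0 : P ≠ 0 := by
      rintro rfl
      rw [degree_zero, le_bot_iff, degree_eq_bot] at hlt
      exact hf.ne_zero hlt
    have hdn : d ≤ n := by
      rw [← hd, ← hn]
      exact natDegree_le_natDegree hlt
    -- one step of the division
    set Q : K[X][X] := P - Polynomial.C P.leadingCoeff * X ^ (n - d) * f with hQ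
    have hQTD : TD D Q := by
      refine hP.sub ?_
      have h1 : P.leadingCoeff.natDegree + n ≤ D := by
        have := hP n (by rw [← hn]; exact leadingCoeff_ne_zero.2 hP0)
        rwa [← hn] at this ⊢
      have h2 : TD (P.leadingCoeff.natDegree + (n - d)) (Polynomial.C P.leadingCoeff * X ^ (n - d)) :=
        TD.C_mul_X_pow le_rfl
      exact (h2.mul hTD).mono (by omega)
    have hmod : P %ₘ f = Q %ₘ f := by
      rw [hQ, sub_modByMonic, mul_self_modByMonic hf, sub_zero]
    rw [hmod]
    by_cases hQ0 : Q = 0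
    · rw [hQ0, zero_modByMonic]; exact TD.zero
    have hQd : Q.degree < P.degree := by
      have h3 := div_wf_lemma ⟨hlt, hP0⟩ hf
      rw [hn, hd] at h3
      rwa [hQ, mul_comm (Polynomial.C P.leadingCoeff * X ^ (n - d)) f]
    have hQn : Q.natDegree < n := by
      rw [← hn]
      exact natDegree_lt_natDegree hQ0 hQd
    exact ih _ hQn hQTD rfl

/-! ### the total degree is additive -/

/-- `x ↦ x s`, `y ↦ y s` -/
private noncomputable def theta : K[X][X] →+* K[X][X][X] :=
  eval₂RingHom (R := K[X]) (S := K[X][X][X]) (eval₂RingHom (R := K) (S := K[X][X][X])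
    (((Polynomial.C : K[X][X] →+* K[X][X][X]).comp
    (Polynomial.C : K[X] →+* K[X][X])).comp (Polynomial.C : K →+* K[X]))
      (Polynomial.C (Polynomial.C X) * X)) (Polynomial.C X * X)

private theorem theta_monomial (i j : ℕ) (a : K) :
    theta (monomial j (monomial i a)) = monomial (i + j) (monomial j (monomial i a)) := by
  simp only [theta, coe_eval₂RingHom, eval₂_monomial, RingHom.comp_apply]
  simp only [← C_mul_X_pow_eq_monomial, map_mul, map_pow]
  ring

private theorem theta_coeff (P : K[X][X]) (n j i : ℕ) :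
    (((theta P).coeff n).coeff j).coeff i = if n = i + j then (P.coeff j).coeff i else 0 := by
  induction P using Polynomial.induction_on' with
  | add P Q hP hQ =>
    rw [map_add, coeff_add, coeff_add, coeff_add, hP, hQ, coeff_add, coeff_add]
    split_ifs <;> simp
  | monomial j0 c =>
    induction c using Polynomial.induction_on' with
    | add c c' hc hc' =>
      rw [map_add (monomial j0), map_add, coeff_add, coeff_add, coeff_add, hc, hc', coeff_add, coeff_add]
      split_ifs <;> simp
    | monomial i0 a =>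
      rw [theta_monomial]
      by_cases h1 : j0 = j
      · subst h1
        by_cases h2 : i0 = i
        · subst h2
          by_cases h3 : n = i0 + j0
          · subst h3; simp
          · rw [if_neg h3, coeff_monomial, if_neg (Ne.symm h3)]; simp
        · simp only [coeff_monomial]
          split_ifs <;> simp_all [coeff_monomial]
      · simp only [coeff_monomial]
        split_ifs <;> simp_all [coeff_monomial]

private theorem theta_natDegree (D : ℕ) (P : K[X][X]) : (theta P).natDegree ≤ D ↔ TD D P := by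
  rw [natDegree_le_iff_coeff_eq_zero, TD_iff]
  constructor
  · intro h i j hij
    by_contra hlt
    push Not at hlt
    have h1 := theta_coeff P (i + j) j i
    rw [h _ hlt, if_pos rfl] at h1
    exact hij (by simpa using h1.symm)
  · intro h n hn
    ext j i
    rw [theta_coeff]
    split_ifs with hnij
    · by_contra h0
      have := h i j (by simpa using h0)
      omega
    · simp

/-- factors of a monic polynomial `f` with `TD d f`, `d = deg_y f` -/
theorem TD.of_mul {d : ℕ} {f f₁ f₂ : K[X][X]} (h₁ : f₁.Monic) (h₂ : f₂.Monic)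
    (hf : f = f₁ * f₂) (hd : f.natDegree = d) (hTD : TD d f) : TD f₁.natDegree f₁ := by
  have key : ∀ {g : K[X][X]}, g.Monic → g.natDegree ≤ (theta g).natDegree := by
    intro g hg
    have h1 := (theta_natDegree _ g).1 le_rfl
    have h2 := h1 g.natDegree (by rw [hg.coeff_natDegree]; exact one_ne_zero)
    omega
  have h3 : (theta f).natDegree = (theta f₁).natDegree + (theta f₂).natDegree := by
    have hne : ∀ {g : K[X][X]}, g.Monic → theta g ≠ 0 := by
      intro g hg h0
      have h4 := theta_coeff g (0 + g.natDegree) g.natDegree 0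
      rw [h0, if_pos rfl, hg.coeff_natDegree] at h4
      simp at h4
    rw [hf, map_mul, natDegree_mul (hne h₁) (hne h₂)]
  have h4 := (theta_natDegree _ f).2 hTD
  have h5 := key h₂
  have h6 : f.natDegree = f₁.natDegree + f₂.natDegree := by rw [hf, h₁.natDegree_mul h₂]
  rw [← theta_natDegree]
  omega

/-! ### the polynomials `Ω` -/

theorem TD_Om {d m : ℕ} (ω : Fin d × Fin m → K) : TD (m - 1 + (d - 1)) (Om d m ω) := by
  refine TD.sum _ fun q _ => ?_
  rw [← C_mul_X_pow_eq_monomial]
  refine TD.C_mul_X_pow ?_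
  have h1 := natDegree_monomial_le (ω q) (m := (q.2 : ℕ))
  have h2 := q.1.2
  have h3 := q.2.2
  omega

theorem Om_natDegree_lt {d m : ℕ} (hd : 0 < d) (ω : Fin d × Fin m → K) :
    (Om d m ω).natDegree < d := by
  have : (Om d m ω).natDegree ≤ d - 1 := by
    refine natDegree_sum_le_of_forall_le _ _ fun q _ => ?_
    refine (natDegree_monomial_le _).trans ?_
    have := q.1.2
    omega
  omega

theorem Om_coeff_coeff {d m : ℕ} (ω : Fin d × Fin m → K) (j : Fin d) (i : Fin m) :
    ((Om d m ω).coeff j).coeff i = ω (j, i) := by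
  classical
  unfold Om
  rw [finsetSum_coeff, finsetSum_coeff]
  rw [Finset.sum_eq_single (j, i)]
  · simp
  · rintro ⟨j', i'⟩ _ hne
    simp only [coeff_monomial]
    by_cases h1 : (j' : ℕ) = j
    · have h1' : j' = j := Fin.ext h1
      subst h1'
      have h2 : (i' : ℕ) ≠ i := by
        intro h2
        exact hne (by rw [Fin.ext h2])
      simp [coeff_monomial, h2]
    · simp [h1]
  · intro h
    exact absurd (Finset.mem_univ _) h

/-! ### evaluation -/

theorem ev_add (P Q : K[X][X]) (φ : PowerSeries K) : ev (P + Q) φ = ev P φ + ev Q φ :=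
  eval₂_add _ _
theorem ev_mul (P Q : K[X][X]) (φ : PowerSeries K) : ev (P * Q) φ = ev P φ * ev Q φ :=
  eval₂_mul _ _
theorem ev_sub (P Q : K[X][X]) (φ : PowerSeries K) : ev (P - Q) φ = ev P φ - ev Q φ :=
  eval₂_sub _
theorem ev_C (P : K[X]) (φ : PowerSeries K) : ev (Polynomial.C P) φ = (P : PowerSeries K) := by
  rw [ev, eval₂_C]; rfl
theorem ev_X (φ : PowerSeries K) : ev (X : K[X][X]) φ = φ := eval₂_X _ _
theorem ev_pow (P : K[X][X]) (n : ℕ) (φ : PowerSeries K) : ev (P ^ n) φ = ev P φ ^ n :=
  eval₂_pow _ _ _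
theorem ev_zero (φ : PowerSeries K) : ev (0 : K[X][X]) φ = 0 := eval₂_zero _ _
theorem ev_one (φ : PowerSeries K) : ev (1 : K[X][X]) φ = 1 := eval₂_one _ _
theorem ev_sum {ι : Type*} (s : Finset ι) (P : ι → K[X][X]) (φ : PowerSeries K) :
    ev (∑ i ∈ s, P i) φ = ∑ i ∈ s, ev (P i) φ := eval₂_finsetSum _ _ _ _
theorem ev_prod {ι : Type*} (s : Finset ι) (P : ι → K[X][X]) (φ : PowerSeries K) :
    ev (∏ i ∈ s, P i) φ = ∏ i ∈ s, ev (P i) φ := eval₂_finsetProd _ _ _ _
theorem ev_eq_eval_map (P : K[X][X]) (φ : PowerSeries K) :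
    ev P φ = (P.map Polynomial.coeToPowerSeries.ringHom).eval φ := (eval_map _ _).symm

theorem constantCoeff_comp_coe :
    (PowerSeries.constantCoeff (R := K)).comp Polynomial.coeToPowerSeries.ringHom =
      evalRingHom 0 := by
  refine RingHom.ext fun p => ?_
  simp only [RingHom.comp_apply, coe_evalRingHom]
  change PowerSeries.constantCoeff (p : PowerSeries K) = _
  rw [← PowerSeries.coeff_zero_eq_constantCoeff_apply, Polynomial.coeff_coe,
    coeff_zero_eq_eval_zero]

theorem constantCoeff_ev (P : K[X][X]) (φ : PowerSeries K) :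
    PowerSeries.constantCoeff (ev P φ) = (at0 P).eval (PowerSeries.constantCoeff φ) := by
  rw [ev, hom_eval₂, constantCoeff_comp_coe, at0, eval_map]

section
variable {ι : Type*} [Fintype ι] {f : K[X][X]} {φ : ι → PowerSeries K} (hφ : IsRoots f φ)
include hφ

theorem IsRoots.ev_eq_zero (i : ι) : ev f (φ i) = 0 := by
  rw [ev_eq_eval_map, hφ.prod, eval_prod]
  exact Finset.prod_eq_zero (Finset.mem_univ i) (by simp)

theorem IsRoots.monic : f.Monic := by
  refine monic_of_injective (f := Polynomial.coeToPowerSeries.ringHom (R := K))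
    (Polynomial.coe_injective K) ?_
  rw [hφ.prod]
  exact monic_prod_X_sub_C _ _

theorem IsRoots.natDegree_eq : f.natDegree = Fintype.card ι := by
  rw [← natDegree_map_eq_of_injective (f := Polynomial.coeToPowerSeries.ringHom (R := K))
    (Polynomial.coe_injective K), hφ.prod, natDegree_finsetProd_X_sub_C_eq_card]
  rfl

/-- `f_y(x, φ_i)` is the product of the differences -/
theorem IsRoots.ev_derivative [DecidableEq ι] (i : ι) :
    ev (derivative f) (φ i) = ∏ j ∈ Finset.univ.erase i, (φ i - φ j) := by
  rw [ev_eq_eval_map, ← derivative_map, hφ.prod]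
  have := Lagrange.eval_nodal_derivative_eval_node_eq (v := φ) (Finset.mem_univ i)
  rw [Lagrange.nodal, Lagrange.nodal, eval_prod] at this
  rw [this]
  simp

theorem IsRoots.isUnit_sub {i j : ι} (hij : i ≠ j) : IsUnit (φ i - φ j) := by
  rw [PowerSeries.isUnit_iff_constantCoeff, map_sub, isUnit_iff_ne_zero, sub_ne_zero]
  exact fun h => hij (hφ.inj h)

theorem IsRoots.isUnit_ev_derivative (i : ι) : IsUnit (ev (derivative f) (φ i)) := by
  classical
  rw [hφ.ev_derivative i, IsUnit.prod_iff]
  intro j hj
  exact hφ.isUnit_sub (Finset.ne_of_mem_erase hj).symm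

theorem IsRoots.at0_eq :
    at0 f = ∏ i, (X - Polynomial.C (PowerSeries.constantCoeff (φ i))) := by
  have h1 : at0 f = (f.map Polynomial.coeToPowerSeries.ringHom).map
      (PowerSeries.constantCoeff (R := K)) := by
    rw [Polynomial.map_map, constantCoeff_comp_coe]; rfl
  rw [h1, hφ.prod, Polynomial.map_prod]
  simp

end

end

end Pool.Agent.AbsIrr
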