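import Mathlib
import Pool.Agent.Lib.MP_2adc98_lc.Spec

/-!
# MP_2adc98, piece M7: Hermite reduction (helper16)
-/

set_option autoImplicit false

namespace Pool.Agent.AbsIrr

open Polynomial

section
variable {K : Type*} [Field K]

theorem herm_map {k : Type*} [Field k] (σ : K →+* k) (g v : K[X]) (hg : g.Monic) (t : ℕ → K[X])
    (M j : ℕ) : (herm g v t M j).map σ = herm (g.map σ) (v.map σ) (fun l => (t l).map σ) M j := by
  induction j with
  | zero => rfl
  | succ j ih =>
    simp only [herm, hstep]
    rw [← ih]
    simp only [Polynomial.map_add, Polynomial.map_mul, Polynomial.map_C, map_inv₀, map_natCast,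
      Polynomial.map_divByMonic σ hg, Polynomial.map_sub, Polynomial.derivative_map,
      Polynomial.map_modByMonic σ hg]
    rw [← Polynomial.map_mul, ← Polynomial.map_modByMonic σ hg, Polynomial.derivative_map]

private theorem degree_lt_of_natDegree_lt {P : K[X]} {n : ℕ} (h : P.natDegree < n) :
    P.degree < n := lt_of_le_of_lt Polynomial.degree_le_natDegree (by exact_mod_cast h)

private theorem natDegree_lt_of_degree_lt {P : K[X]} {n : ℕ} (h0 : 0 < n) (h : P.degree < n) :
    P.natDegree < n := by
  by_cases hP : P = 0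
  · rw [hP]; simpa using h0
  · exact (Polynomial.natDegree_lt_iff_degree_lt hP).2 h

theorem herm_degree {g v : K[X]} (hg : g.Monic) {t : ℕ → K[X]} {M : ℕ}
    (ht : ∀ l ∈ Finset.Icc 1 M, (t l).degree < g.natDegree) (hM : 1 ≤ M) (j : ℕ) (hj : j ≤ M - 1) :
    (herm g v t M j).degree < g.natDegree := by
  induction j with
  | zero => exact ht M (Finset.mem_Icc.2 ⟨hM, le_rfl⟩)
  | succ j ih =>
    have ihj := ih (by omega)
    simp only [herm, hstep]
    set T := herm g v t M j with hT
    have hw : (T * v %ₘ g).degree < g.natDegree := by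
      have := Polynomial.degree_modByMonic_lt (T * v) hg
      rwa [Polynomial.degree_eq_natDegree hg.ne_zero] at this
    have hw' : (derivative (T * v %ₘ g)).degree < g.natDegree :=
      lt_of_le_of_lt (Polynomial.degree_derivative_le) hw
    refine lt_of_le_of_lt (Polynomial.degree_add_le _ _) (max_lt ?_ ?_)
    · refine lt_of_le_of_lt (Polynomial.degree_add_le _ _) (max_lt (ht _ ?_) ?_)
      · exact Finset.mem_Icc.2 ⟨by omega, by omega⟩
      · rcases Nat.eq_zero_or_pos g.natDegree with h0 | h0
        · rw [h0] at ihj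
          have hT0 : T = 0 := by
            by_contra hne
            exact absurd ihj (not_lt.2 (by simpa using Polynomial.zero_le_degree_iff.2 hne))
          rw [hT0, h0]
          simp
        · apply degree_lt_of_natDegree_lt
          rw [Polynomial.natDegree_divByMonic _ hg]
          have h1 : T.natDegree < g.natDegree := natDegree_lt_of_degree_lt h0 ihj
          have h2 : (T * v %ₘ g).natDegree < g.natDegree := natDegree_lt_of_degree_lt h0 hw
          have h3 : (derivative g).natDegree ≤ g.natDegree - 1 := Polynomial.natDegree_derivative_le g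
          have h4 := Polynomial.natDegree_sub_le T ((T * v %ₘ g) * derivative g)
          have h5 := Polynomial.natDegree_mul_le (p := T * v %ₘ g) (q := derivative g)
          omega
    · refine lt_of_le_of_lt (Polynomial.degree_mul_le _ _) ?_
      refine lt_of_le_of_lt (add_le_add_left Polynomial.degree_C_le _) ?_
      rwa [zero_add]

/-! ### The generating functions -/

private theorem refl_lin (b : K) : reflect 1 (X - C b) = 1 - C b * X := by
  rw [reflect_sub, reflect_one_X, reflect_C, pow_one]

private theorem natDegree_lin_pow (b : K) (n : ℕ) : ((X - C b) ^ n).natDegree = n := by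
  rw [natDegree_pow, natDegree_X_sub_C, mul_one]

private theorem refl_lin_pow (b : K) (n : ℕ) :
    reflect n ((X - C b) ^ n) = (1 - C b * X) ^ n := by
  induction n with
  | zero => simp [reflect_one]
  | succ n ih =>
    rw [pow_succ, reflect_mul _ _ (natDegree_lin_pow b n).le (natDegree_X_sub_C b).le, ih,
      refl_lin, pow_succ]

private theorem refl_prod {ι : Type*} (s : Finset ι) (β : ι → K) :
    reflect s.card (∏ i ∈ s, (X - C (β i))) = ∏ i ∈ s, (1 - C (β i) * X) := by
  classical
  induction s using Finset.induction_on with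
  | empty => simp [reflect_one]
  | insert a s ha ih =>
    rw [Finset.prod_insert ha, Finset.prod_insert ha, Finset.card_insert_of_notMem ha, add_comm,
      reflect_mul _ _ (natDegree_X_sub_C _).le (natDegree_finsetProd_X_sub_C_eq_card _ _).le, ih, refl_lin]

private theorem refl_pow {P : K[X]} {n : ℕ} (hP : P.natDegree ≤ n) (M : ℕ) :
    reflect (M * n) (P ^ M) = reflect n P ^ M := by
  induction M with
  | zero => simp [reflect_one]
  | succ M ih =>
    rw [pow_succ, Nat.succ_mul, reflect_mul _ _ ((natDegree_pow_le).trans (Nat.mul_le_mul_left _ hP)) hP,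
      ih, pow_succ]

private theorem refl_shift {P : K[X]} {n : ℕ} (hP : P.natDegree ≤ n) (j : ℕ) :
    reflect (j + n) P = X ^ j * reflect n P := by
  have := reflect_mul (1 : K[X]) P (F := j) (G := n) (by simp) hP
  rwa [one_mul, reflect_one] at this

/-- the generating function of `choose l j * b^(l-j)` -/
private theorem gen_choose (b : K) (j : ℕ) :
    PowerSeries.mk (fun l => (l.choose j : K) * b ^ (l - j)) *
      (1 - PowerSeries.C b * PowerSeries.X) ^ (j + 1) = PowerSeries.X ^ j := by
  have h := congrArg (PowerSeries.rescale b)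
    (PowerSeries.mk_add_choose_mul_one_sub_pow_eq_one K j)
  rw [map_mul, map_pow, map_sub, map_one, PowerSeries.rescale_X] at h
  have h2 : PowerSeries.mk (fun l => (l.choose j : K) * b ^ (l - j)) =
      PowerSeries.X ^ j * PowerSeries.rescale b
        (PowerSeries.mk fun n => ((j + n).choose j : K)) := by
    ext n
    rw [PowerSeries.coeff_mk, PowerSeries.coeff_X_pow_mul']
    split_ifs with hjn
    · rw [PowerSeries.coeff_rescale, PowerSeries.coeff_mk, mul_comm]
      congr 3
      omega
    · rw [Nat.choose_eq_zero_of_lt (by omega)]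
      simp
  rw [h2, mul_assoc, h, mul_one]

/-! ### The common numerator of `1/(Y-β_i)^(j+1)` over `g^M` -/

section
variable {d : ℕ} (β : Fin d → K)

private noncomputable def oth (i : Fin d) : K[X] := ∏ i' ∈ Finset.univ.erase i, (X - C (β i'))

private noncomputable def pol (M : ℕ) (i : Fin d) (j : ℕ) : K[X] :=
  (X - C (β i)) ^ (M - 1 - j) * oth β i ^ M

private theorem prod_eq (i : Fin d) : ∏ i, (X - C (β i)) = (X - C (β i)) * oth β i := by
  rw [oth, Finset.mul_prod_erase _ (fun i => X - C (β i)) (Finset.mem_univ i)]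

private theorem natDegree_oth (i : Fin d) : (oth β i).natDegree = d - 1 := by
  rw [oth, natDegree_finsetProd_X_sub_C_eq_card, Finset.card_erase_of_mem (Finset.mem_univ i),
    Finset.card_univ, Fintype.card_fin]

private theorem natDegree_pol_le {M : ℕ} (i : Fin d) (j : ℕ) :
    (pol β M i j).natDegree ≤ (M - 1 - j) + M * (d - 1) := by
  refine natDegree_mul_le.trans (Nat.add_le_add (natDegree_lin_pow _ _).le ?_)
  exact natDegree_pow_le.trans (Nat.mul_le_mul_left _ (natDegree_oth β i).le)

private theorem reflect_oth (i : Fin d) :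
    reflect (d - 1) (oth β i) = ∏ i' ∈ Finset.univ.erase i, (1 - C (β i') * X) := by
  have := refl_prod (Finset.univ.erase i) β
  rwa [Finset.card_erase_of_mem (Finset.mem_univ i), Finset.card_univ, Fintype.card_fin] at this

private theorem reflect_prod (i : Fin d) :
    reflect d (∏ i, (X - C (β i))) = (1 - C (β i) * X) * reflect (d - 1) (oth β i) := by
  have h := refl_prod Finset.univ β
  rw [Finset.card_univ, Fintype.card_fin] at h
  rw [h, reflect_oth, Finset.mul_prod_erase _ (fun i => (1 - C (β i) * X)) (Finset.mem_univ i)]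

private theorem reflect_pol {M : ℕ} (i : Fin d) {j : ℕ} (hj : j < M) :
    reflect (M * d - 1) (pol β M i j) =
      X ^ j * ((1 - C (β i) * X) ^ (M - 1 - j) * reflect (d - 1) (oth β i) ^ M) := by
  have hd : 1 ≤ d := Nat.succ_le_of_lt (lt_of_le_of_lt (Nat.zero_le _) i.2)
  have e : M * d - 1 = j + ((M - 1 - j) + M * (d - 1)) := by
    obtain ⟨d', rfl⟩ : ∃ d', d = d' + 1 := ⟨d - 1, by omega⟩
    rw [Nat.mul_succ, Nat.add_sub_cancel]
    omega
  rw [e, refl_shift (natDegree_pol_le β i j), pol,
    reflect_mul _ _ (natDegree_lin_pow _ _).le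
      (natDegree_pow_le.trans (Nat.mul_le_mul_left _ (natDegree_oth β i).le)),
    refl_lin_pow, refl_pow (natDegree_oth β i).le]

private theorem gen_pol {M : ℕ} (i : Fin d) {j : ℕ} (hj : j < M) :
    PowerSeries.mk (fun l => (l.choose j : K) * β i ^ (l - j)) *
      ((reflect d (∏ i, (X - C (β i))) : K[X]) : PowerSeries K) ^ M =
      ((reflect (M * d - 1) (pol β M i j) : K[X]) : PowerSeries K) := by
  rw [reflect_pol β i hj, reflect_prod β i]
  have e : M = (M - 1 - j) + (j + 1) := by omega
  have h := gen_choose (β i) j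
  push_cast
  rw [mul_pow, ← mul_assoc]
  conv_lhs => rw [e]
  rw [← h, pow_add]
  have e' : M - 1 - j + (j + 1) = M := by omega
  rw [e']
  ring

private theorem isBlock_unique {d e : ℕ} {g A A' : K[X]} {s : ℕ → K} (h : IsBlock d e g s A)
    (h' : IsBlock d e g s A') : A = A' := by
  ext n
  by_cases hn : n < e * d
  · have h1 := h.2 (e * d - 1 - n) (by omega)
    have h2 := h'.2 (e * d - 1 - n) (by omega)
    rw [h1, coeff_reflect, coeff_reflect, revAt_le (by omega)] at h2
    have e1 : e * d - 1 - (e * d - 1 - n) = n := by omega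
    rwa [e1] at h2
  · rw [coeff_eq_zero_of_degree_lt (lt_of_lt_of_le h.1 (by exact_mod_cast not_lt.1 hn)),
      coeff_eq_zero_of_degree_lt (lt_of_lt_of_le h'.1 (by exact_mod_cast not_lt.1 hn))]

private theorem isBlock_sum {M M₁ : ℕ} (hM : M₁ ≤ M) (c : Fin d → ℕ → K) (s : ℕ → K)
    (hs : ∀ l, s l = ∑ i, ∑ j ∈ Finset.range M₁, c i j * (l.choose j : K) * β i ^ (l - j)) :
    IsBlock d M (∏ i, (X - C (β i))) s
      (∑ i, ∑ j ∈ Finset.range M₁, C (c i j) * pol β M i j) := by
  constructor
  · refine lt_of_le_of_lt (degree_sum_le _ _) ?_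
    rw [Finset.sup_lt_iff (WithBot.bot_lt_coe _)]
    intro i _
    refine lt_of_le_of_lt (degree_sum_le _ _) ?_
    rw [Finset.sup_lt_iff (WithBot.bot_lt_coe _)]
    intro j hj
    have hjM : j < M := lt_of_lt_of_le (Finset.mem_range.1 hj) hM
    have hd : 1 ≤ d := Nat.succ_le_of_lt (lt_of_le_of_lt (Nat.zero_le _) i.2)
    apply degree_lt_of_natDegree_lt
    refine lt_of_le_of_lt (natDegree_C_mul_le _ _) ?_
    refine lt_of_le_of_lt (natDegree_pol_le β i j) ?_
    obtain ⟨d', rfl⟩ : ∃ d', d = d' + 1 := ⟨d - 1, by omega⟩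
    rw [Nat.mul_succ, Nat.add_sub_cancel]
    omega
  · intro n _
    have h1 : PowerSeries.mk s = ∑ i, ∑ j ∈ Finset.range M₁, PowerSeries.C (c i j) *
        PowerSeries.mk (fun l => (l.choose j : K) * β i ^ (l - j)) := by
      ext l
      simp only [PowerSeries.coeff_mk, map_sum, PowerSeries.coeff_C_mul, hs]
      refine Finset.sum_congr rfl fun i _ => Finset.sum_congr rfl fun j _ => ?_
      ring
    have h2 : PowerSeries.mk s *
        ((reflect d (∏ i, (X - C (β i))) : K[X]) : PowerSeries K) ^ M =
        ((reflect (M * d - 1) (∑ i, ∑ j ∈ Finset.range M₁, C (c i j) * pol β M i j) : K[X]) :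
          PowerSeries K) := by
      rw [h1, Finset.sum_mul]
      have h3 : reflect (M * d - 1) (∑ i, ∑ j ∈ Finset.range M₁, C (c i j) * pol β M i j) =
          ∑ i, ∑ j ∈ Finset.range M₁, C (c i j) * reflect (M * d - 1) (pol β M i j) := by
        ext l
        simp only [coeff_reflect, finsetSum_coeff, coeff_C_mul]
      rw [h3]
      have h4 : ((∑ i, ∑ j ∈ Finset.range M₁, C (c i j) * reflect (M * d - 1) (pol β M i j) :
          K[X]) : PowerSeries K) = ∑ i, ∑ j ∈ Finset.range M₁, PowerSeries.C (c i j) *
            ((reflect (M * d - 1) (pol β M i j) : K[X]) : PowerSeries K) := by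
        rw [← Polynomial.coeToPowerSeries.ringHom_apply, map_sum]
        refine Finset.sum_congr rfl fun i _ => ?_
        rw [map_sum]
        refine Finset.sum_congr rfl fun j _ => ?_
        rw [map_mul, Polynomial.coeToPowerSeries.ringHom_apply,
          Polynomial.coeToPowerSeries.ringHom_apply, Polynomial.coe_C]
      rw [h4]
      refine Finset.sum_congr rfl fun i _ => ?_
      rw [Finset.sum_mul]
      refine Finset.sum_congr rfl fun j hj => ?_
      rw [mul_assoc, gen_pol β i (lt_of_lt_of_le (Finset.mem_range.1 hj) hM)]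
    rw [h2, Polynomial.coeff_coe]

private theorem digits_zero {g : K[X]} (hg : g.Monic) {t : ℕ → K[X]} {M : ℕ}
    (ht : ∀ l ∈ Finset.Icc 1 M, (t l).degree < g.natDegree) (r : ℕ) (hr : r ≤ M)
    (hdvd : g ^ r ∣ ∑ l ∈ Finset.Icc 1 M, t l * g ^ (M - l)) :
    ∀ l, M - r < l → l ≤ M → t l = 0 := by
  induction r with
  | zero => intro l h1 h2; omega
  | succ r ih =>
    have ih' := ih (by omega) ((pow_dvd_pow g (Nat.le_succ r)).trans hdvd)
    have hsum : ∑ l ∈ Finset.Icc 1 M, t l * g ^ (M - l) =
        g ^ r * (t (M - r) + g * ∑ l ∈ Finset.Icc 1 (M - r - 1), t l * g ^ (M - r - 1 - l)) := by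
      have h1 : ∑ l ∈ Finset.Icc 1 M, t l * g ^ (M - l) =
          ∑ l ∈ Finset.Icc 1 (M - r), t l * g ^ (M - l) := by
        symm
        apply Finset.sum_subset (Finset.Icc_subset_Icc_right (Nat.sub_le _ _))
        intro l hl hl'
        rw [Finset.mem_Icc] at hl hl'
        rw [ih' l (by omega) hl.2, zero_mul]
      have h2 : Finset.Icc 1 (M - r) = insert (M - r) (Finset.Icc 1 (M - r - 1)) := by
        ext l
        simp only [Finset.mem_Icc, Finset.mem_insert]
        omega
      rw [h1, h2, Finset.sum_insert (by simp; omega)]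
      rw [mul_add, Finset.mul_sum, Finset.mul_sum]
      congr 1
      · rw [mul_comm]
        congr 2
        omega
      · refine Finset.sum_congr rfl fun l hl => ?_
        rw [Finset.mem_Icc] at hl
        have e1 : M - l = r + (1 + (M - r - 1 - l)) := by omega
        rw [e1, pow_add, pow_add, pow_one]
        ring
    rw [hsum, pow_succ] at hdvd
    have hdvd2 := (mul_dvd_mul_iff_left (pow_ne_zero r hg.ne_zero)).1 hdvd
    rw [dvd_add_left (Dvd.intro _ rfl)] at hdvd2
    have h0 : t (M - r) = 0 := by
      apply eq_zero_of_dvd_of_degree_lt hdvd2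
      rw [degree_eq_natDegree hg.ne_zero]
      exact ht _ (Finset.mem_Icc.2 ⟨by omega, by omega⟩)
    intro l h1 h2
    rcases Nat.lt_or_ge (M - r) l with h | h
    · exact ih' l h h2
    · have : l = M - r := by omega
      rw [this, h0]

end

/-! ### Residues -/

section
variable (b : K)

private noncomputable def tay : K[X] →+* PowerSeries K :=
  (Polynomial.coeToPowerSeries.ringHom).comp (taylorAlgHom b : K[X] →+* K[X])

private theorem tay_apply (A : K[X]) : tay b A = ((taylor b A : K[X]) : PowerSeries K) := rfl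

private theorem tay_lin : tay b (X - C b) = PowerSeries.X := by
  rw [tay_apply, map_sub, taylor_X, taylor_C, add_sub_cancel_right, Polynomial.coe_X]

private theorem constantCoeff_tay (A : K[X]) : PowerSeries.constantCoeff (tay b A) = A.eval b := by
  rw [tay_apply, ← PowerSeries.coeff_zero_eq_constantCoeff_apply, Polynomial.coeff_coe,
    taylor_coeff_zero]

private theorem tay_C (a : K) : tay b (C a) = PowerSeries.C a := by
  rw [tay_apply, taylor_C, Polynomial.coe_C]

private theorem tay_derivative (A : K[X]) :
    tay b (derivative A) = PowerSeries.derivative K (tay b A) := by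
  rw [tay_apply, tay_apply, PowerSeries.derivative_coe]
  congr 1
  rw [taylor_apply, taylor_apply, derivative_comp]
  simp

/-- the residue of `A/g^(L+1)` at `b`, where `g = (X - b) h` -/
private noncomputable def res (h : K[X]) (L : ℕ) (A : K[X]) : K :=
  PowerSeries.coeff L (tay b A * (tay b h)⁻¹ ^ (L + 1))

private theorem res_add (h : K[X]) (L : ℕ) (A B : K[X]) :
    res b h L (A + B) = res b h L A + res b h L B := by
  rw [res, res, res, map_add, add_mul, map_add]

private theorem res_C_mul (h : K[X]) (L : ℕ) (a : K) (A : K[X]) :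
    res b h L (C a * A) = a * res b h L A := by
  rw [res, res, (tay b).map_mul, tay_C, mul_assoc, PowerSeries.coeff_C_mul]

private theorem res_sum (h : K[X]) (L : ℕ) {ι : Type*} (s : Finset ι) (A : ι → K[X]) :
    res b h L (∑ i ∈ s, A i) = ∑ i ∈ s, res b h L (A i) := by
  simp only [res, map_sum, Finset.sum_mul]

private theorem tay_mul_inv {h : K[X]} (hb : h.eval b ≠ 0) : tay b h * (tay b h)⁻¹ = 1 :=
  PowerSeries.mul_inv_cancel _ (by rwa [constantCoeff_tay])

private theorem res_mul {h : K[X]} (hb : h.eval b ≠ 0) (L : ℕ) (A : K[X]) :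
    res b h (L + 1) (A * ((X - C b) * h)) = res b h L A := by
  have h1 := tay_mul_inv b hb
  rw [res, res, (tay b).map_mul, (tay b).map_mul, tay_lin]
  have e : tay b A * (PowerSeries.X * tay b h) * (tay b h)⁻¹ ^ (L + 1 + 1) =
      PowerSeries.X * (tay b A * (tay b h)⁻¹ ^ (L + 1)) * (tay b h * (tay b h)⁻¹) := by
    ring
  rw [e, h1, mul_one, PowerSeries.coeff_succ_X_mul]

private theorem res_deriv {h : K[X]} (hb : h.eval b ≠ 0) {L : ℕ} (hL : 1 ≤ L) (w : K[X]) :
    res b h L (derivative w * ((X - C b) * h) - C (L : K) * w * derivative ((X - C b) * h)) = 0 := by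
  have h1 := tay_mul_inv b hb
  obtain ⟨m, rfl⟩ : ∃ m, L = m + 1 := ⟨L - 1, by omega⟩
  set H := tay b h with hH
  set I := H⁻¹ with hI
  set W := tay b w with hW
  have hdI : PowerSeries.derivative K I = - I ^ 2 * PowerSeries.derivative K H := by
    rw [hI]
    exact PowerSeries.derivative_inv' H
  have key : tay b (derivative w * ((X - C b) * h) - C ((m + 1 : ℕ) : K) * w *
      derivative ((X - C b) * h)) * I ^ (m + 1 + 1) =
      PowerSeries.X * PowerSeries.derivative K (W * I ^ (m + 1)) -
        PowerSeries.C ((m + 1 : ℕ) : K) * (W * I ^ (m + 1)) := by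
    rw [map_sub, map_mul, map_mul, map_mul, map_mul, tay_derivative, tay_derivative, map_mul,
      tay_lin, tay_C, ← hH, ← hW]
    rw [Derivation.leibniz, Derivation.leibniz, Derivation.leibniz_pow, hdI,
      PowerSeries.derivative_X]
    simp only [smul_eq_mul, nsmul_eq_mul, Nat.add_sub_cancel, mul_one]
    have hc : PowerSeries.C (((m + 1 : ℕ) : K)) = ((m + 1 : ℕ) : PowerSeries K) := by
      rw [map_natCast]
    rw [hc]
    have e1 : (H * I) = 1 := h1
    linear_combination (PowerSeries.derivative K W * PowerSeries.X * I ^ (m + 1)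
      - ((m + 1 : ℕ) : PowerSeries K) * W * I ^ (m + 1)) * e1
  rw [res, key, map_sub, PowerSeries.coeff_succ_X_mul, PowerSeries.coeff_derivative,
    PowerSeries.coeff_C_mul]
  push_cast
  ring

end

section
variable {d : ℕ} {β : Fin d → K}

private theorem oth_eval_ne (hβ : Function.Injective β) (i : Fin d) : (oth β i).eval (β i) ≠ 0 := by
  rw [oth, eval_prod, Finset.prod_ne_zero_iff]
  intro i' hi'
  rw [eval_sub, eval_X, eval_C, sub_ne_zero]
  exact fun h => (Finset.mem_erase.1 hi').1 (hβ h).symm

private theorem res_pol_self (hβ : Function.Injective β) {M : ℕ} (i : Fin d) {j : ℕ} (hj : j < M) :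
    res (β i) (oth β i) (M - 1) (pol β M i j) = if j = 0 then 1 else 0 := by
  have h1 := tay_mul_inv (β i) (oth_eval_ne hβ i)
  have e : M - 1 + 1 = M := by omega
  rw [res, pol, (tay (β i)).map_mul, map_pow, map_pow, tay_lin, e, mul_assoc, ← mul_pow, h1,
    one_pow, mul_one, PowerSeries.coeff_X_pow]
  split_ifs <;> first | rfl | omega

private theorem res_pol_ne {M : ℕ} {i i' : Fin d} (hi : i' ≠ i) {j : ℕ} (hj : j < M) :
    res (β i) (oth β i) (M - 1) (pol β M i' j) = 0 := by
  have hdvd : (X - C (β i)) ∣ oth β i' := by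
    rw [oth]
    exact Finset.dvd_prod_of_mem (fun i => X - C (β i)) (Finset.mem_erase.2 ⟨hi.symm, Finset.mem_univ i⟩)
  obtain ⟨Q, hQ⟩ := hdvd
  rw [res, pol, hQ, mul_pow, (tay (β i)).map_mul, (tay (β i)).map_mul, map_pow (tay (β i)) (X - C (β i)),
    tay_lin, mul_left_comm, mul_assoc, PowerSeries.coeff_X_pow_mul', if_neg (by omega)]

end

theorem herm_correct {p : ℕ} [CharP K p] [Fact p.Prime] {d M₁ M : ℕ} (hd : 1 ≤ d) (hM₁ : 1 ≤ M₁)
    (hM₁p : M₁ ≤ p) (hM : M₁ ≤ M) {β : Fin d → K} (hβ : Function.Injective β) {g v : K[X]}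
    (hg : g = ∏ i, (X - C (β i))) (hv : ∃ u, v * derivative g + u * g = 1) (c : Fin d → ℕ → K)
    (s : ℕ → K) (hs : ∀ l, s l = ∑ i, ∑ j ∈ Finset.range M₁, c i j * (l.choose j : K) *
      β i ^ (l - j)) (t : ℕ → K[X]) (ht : Digits d M g s t) (i : Fin d) :
    (herm g v t M (M - 1)).eval (β i) = (derivative g).eval (β i) * c i 0 := by
  have hgm : g.Monic := by
    rw [hg]; exact monic_prod_X_sub_C _ _
  have hgd : g.natDegree = d := by
    rw [hg, natDegree_finsetProd_X_sub_C_eq_card, Finset.card_univ, Fintype.card_fin]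
  have hge : g = (X - C (β i)) * oth β i := by rw [hg, prod_eq β i]
  have hb := oth_eval_ne hβ i
  have htd : ∀ l ∈ Finset.Icc 1 M, (t l).degree < g.natDegree := by
    rw [hgd]; exact ht.1
  -- Step A
  have hA : ∑ l ∈ Finset.Icc 1 M, t l * g ^ (M - l) =
      ∑ i, ∑ j ∈ Finset.range M₁, C (c i j) * pol β M i j := by
    have h1 := isBlock_sum β hM c s hs
    rw [← hg] at h1
    exact isBlock_unique ht.2 h1
  -- Step B
  have hB : res (β i) (oth β i) (M - 1) (∑ l ∈ Finset.Icc 1 M, t l * g ^ (M - l)) = c i 0 := by
    rw [hA, res_sum, Finset.sum_eq_single i]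
    · rw [res_sum, Finset.sum_eq_single 0]
      · rw [res_C_mul, res_pol_self hβ i (by omega), if_pos rfl, mul_one]
      · intro j hj hj0
        rw [res_C_mul, res_pol_self hβ i (lt_of_lt_of_le (Finset.mem_range.1 hj) hM), if_neg hj0,
          mul_zero]
      · intro h0
        exact absurd (Finset.mem_range.2 (by omega)) h0
    · intro i' _ hi'
      rw [res_sum]
      apply Finset.sum_eq_zero
      intro j hj
      rw [res_C_mul, res_pol_ne hi' (lt_of_lt_of_le (Finset.mem_range.1 hj) hM), mul_zero]
    · intro h0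
      exact absurd (Finset.mem_univ i) h0
  -- Step C
  have hdvd : g ^ (M - M₁) ∣ ∑ l ∈ Finset.Icc 1 M, t l * g ^ (M - l) := by
    rw [hA]
    apply Finset.dvd_sum
    intro i' _
    apply Finset.dvd_sum
    intro j hj
    apply Dvd.dvd.mul_left
    rw [hg, prod_eq β i', mul_pow, pol]
    have := Finset.mem_range.1 hj
    exact mul_dvd_mul (pow_dvd_pow _ (by omega)) (pow_dvd_pow _ (by omega))
  have hC : ∀ l, M₁ < l → l ≤ M → t l = 0 := by
    intro l h1 h2
    exact digits_zero hgm htd (M - M₁) (by omega) hdvd l (by omega) h2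
  have hC' : ∀ j, j < M → M₁ < M - j → herm g v t M j = 0 := by
    intro j
    induction j with
    | zero => intro _ h2; exact hC M (by simpa using h2) le_rfl
    | succ j ih =>
      intro h1 h2
      simp only [herm, hstep]
      rw [ih (by omega) (by omega), hC _ h2 (by omega)]
      simp
  -- invariance
  have hI : ∀ j, j ≤ M - 1 → res (β i) (oth β i) (M - 1 - j)
      (herm g v t M j + ∑ l ∈ Finset.Icc 1 (M - 1 - j), t l * g ^ (M - j - l)) = c i 0 := by
    intro j
    induction j with
    | zero =>
      intro _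
      rw [← hB]
      congr 1
      have h2 : Finset.Icc 1 M = insert M (Finset.Icc 1 (M - 1)) := by
        ext l
        simp only [Finset.mem_Icc, Finset.mem_insert]
        omega
      rw [h2, Finset.sum_insert (by simp; omega)]
      simp [herm]
    | succ j ih =>
      intro hj
      have ih' := ih (by omega)
      obtain ⟨L, hL⟩ : ∃ L, M - 1 - j = L + 1 := ⟨M - 1 - j - 1, by omega⟩
      have e1 : M - 1 - (j + 1) = L := by omega
      have e2 : M - j = L + 2 := by omega
      have e3 : M - (j + 1) = L + 1 := by omega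
      rw [hL, e2] at ih'
      rw [e1, e3, ← ih', ← res_mul (β i) hb, ← hge]
      simp only [herm, hstep]
      rw [e3]
      set T := herm g v t M j with hT
      set w := T * v %ₘ g with hw
      -- exact division
      have hex : g * ((T - w * derivative g) /ₘ g) = T - w * derivative g := by
        obtain ⟨u, hu⟩ := hv
        have h1 := modByMonic_add_div (T * v) g
        have h2 : g ∣ T - w * derivative g := by
          refine ⟨T * u + (T * v /ₘ g) * derivative g, ?_⟩
          rw [← hw] at h1
          linear_combination -T * hu - derivative g * h1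
        have h3 := (modByMonic_eq_zero_iff_dvd hgm).2 h2
        have h4 := modByMonic_add_div (T - w * derivative g) g
        rwa [h3, zero_add] at h4
      have hsum : ∑ l ∈ Finset.Icc 1 (L + 1), t l * g ^ (L + 2 - l) =
          (t (L + 1) + ∑ l ∈ Finset.Icc 1 L, t l * g ^ (L + 1 - l)) * g := by
        rw [Finset.sum_Icc_succ_top (by omega), add_mul, Finset.sum_mul, add_comm]
        congr 1
        · have : L + 2 - (L + 1) = 1 := by omega
          rw [this, pow_one]
        · refine Finset.sum_congr rfl fun l hl => ?_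
          rw [Finset.mem_Icc] at hl
          have : L + 2 - l = (L + 1 - l) + 1 := by omega
          rw [this, pow_succ, mul_assoc]
      rw [hsum]
      by_cases hLp : L + 1 < M₁
      · have hne : ((L + 1 : ℕ) : K) ≠ 0 := by
          intro h0
          rw [CharP.cast_eq_zero_iff K p] at h0
          exact absurd (Nat.le_of_dvd (by omega) h0) (by omega)
        have hd0 := res_deriv (β i) hb (L := L + 1) (by omega) w
        rw [← hge] at hd0
        have key : T + (t (L + 1) + ∑ l ∈ Finset.Icc 1 L, t l * g ^ (L + 1 - l)) * g =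
            (t (L + 1) + (T - w * derivative g) /ₘ g + C (((L + 1 : ℕ) : K)⁻¹) * derivative w +
              ∑ l ∈ Finset.Icc 1 L, t l * g ^ (L + 1 - l)) * g +
            C (-((L + 1 : ℕ) : K)⁻¹) *
              (derivative w * g - C ((L + 1 : ℕ) : K) * w * derivative g) := by
          have hc : C (((L + 1 : ℕ) : K)⁻¹) * C ((L + 1 : ℕ) : K) = 1 := by
            rw [← C_mul, inv_mul_cancel₀ hne, C_1]
          rw [C_neg]
          linear_combination -hex - w * derivative g * hc
        rw [key, res_add, res_C_mul, hd0, mul_zero, add_zero]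
      · have hT0 : T = 0 := by
          rw [hT]
          exact hC' j (by omega) (by omega)
        have hw0 : w = 0 := by rw [hw, hT0]; simp
        rw [hw0, hT0]
        simp
  have hfin := hI (M - 1) le_rfl
  rw [Nat.sub_self, Finset.Icc_eq_empty (by omega), Finset.sum_empty, add_zero, res, zero_add,
    pow_one, PowerSeries.coeff_zero_eq_constantCoeff_apply, map_mul, constantCoeff_tay,
    PowerSeries.constantCoeff_inv, constantCoeff_tay] at hfin
  have hder : (derivative g).eval (β i) = (oth β i).eval (β i) := by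
    rw [hge, derivative_mul, eval_add, eval_mul, eval_mul]
    simp
  rw [hder, ← hfin]
  field_simp

end

end Pool.Agent.AbsIrr
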