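import Mathlib
import Pool.Agent.Lib.MP_2adc98_lc.Spec

/-!
# MP_2adc98: Frobenius sections of the power sums (M6b)
-/

set_option autoImplicit false

namespace Pool.Agent.AbsIrr

open Polynomial

section
variable {K : Type*} [Field K]

/-- `φ^(p^e) = β^(p^e) + δ` with `x^(p^e)` dividing `δ` -/
private theorem sections_aux {p : ℕ} [CharP K p] [Fact p.Prime] (e : ℕ) (φ : PowerSeries K) :
    ∃ δ : PowerSeries K, PowerSeries.X ^ p ^ e ∣ δ ∧
      φ ^ p ^ e = PowerSeries.C (PowerSeries.constantCoeff φ ^ p ^ e) + δ := by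
  have : CharP (PowerSeries K) p :=
    charP_of_injective_ringHom (f := (PowerSeries.C : K →+* PowerSeries K))
      PowerSeries.C_injective p
  set b := PowerSeries.constantCoeff φ with hb
  have h0 : PowerSeries.X ∣ (φ - PowerSeries.C b) := by
    rw [PowerSeries.X_dvd_iff]
    simp [hb]
  refine ⟨(φ - PowerSeries.C b) ^ p ^ e, pow_dvd_pow_of_dvd h0 _, ?_⟩
  have h1 : φ = PowerSeries.C b + (φ - PowerSeries.C b) := by ring
  conv_lhs => rw [h1]
  rw [add_pow_char_pow, map_pow]

theorem sections {p : ℕ} [CharP K p] [Fact p.Prime] {d N e M : ℕ} (hN : 1 ≤ N) {Ω : K[X][X]}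
    (φ : Fin d → PowerSeries K) (hM : N ≤ p ^ e * M) (a : Fin d) :
    ∃ c : Fin d → ℕ → K, (∀ i, c i 0 = Zmat N φ Ω a i) ∧ ∀ l : ℕ,
      PowerSeries.coeff (N - 1) (∑ i, φ i ^ (p ^ e * l + a) * ev Ω (φ i)) =
        ∑ i, ∑ j ∈ Finset.range M, c i j * (l.choose j : K) *
          (PowerSeries.constantCoeff (φ i) ^ p ^ e) ^ (l - j) := by
  choose δ hδ1 hδ2 using fun i => sections_aux (p := p) e (φ i)
  refine ⟨fun i j => PowerSeries.coeff (N - 1) (δ i ^ j * (φ i ^ (a : ℕ) * ev Ω (φ i))), ?_, ?_⟩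
  · intro i
    simp [Zmat]
  · intro l
    rw [map_sum]
    refine Finset.sum_congr rfl fun i _ => ?_
    set b := PowerSeries.constantCoeff (φ i) ^ p ^ e with hb
    -- the terms vanish beyond `M` and beyond `l`
    have hvan : ∀ j, M ≤ j →
        PowerSeries.coeff (N - 1) (δ i ^ j * (φ i ^ (a : ℕ) * ev Ω (φ i))) = 0 := by
      intro j hj
      have h1 : PowerSeries.X ^ N ∣ δ i ^ j * (φ i ^ (a : ℕ) * ev Ω (φ i)) := by
        refine dvd_mul_of_dvd_left ?_ _
        calc (PowerSeries.X : PowerSeries K) ^ N ∣ PowerSeries.X ^ (p ^ e * j) :=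
              pow_dvd_pow _ (hM.trans (Nat.mul_le_mul_left _ hj))
          _ = (PowerSeries.X ^ p ^ e) ^ j := pow_mul _ _ _
          _ ∣ δ i ^ j := pow_dvd_pow_of_dvd (hδ1 i) _
      rw [PowerSeries.X_pow_dvd_iff] at h1
      exact h1 _ (by omega)
    have h2 : φ i ^ (p ^ e * l + (a : ℕ)) * ev Ω (φ i) =
        ∑ j ∈ Finset.range (l + 1), PowerSeries.C ((l.choose j : K) * b ^ (l - j)) *
          (δ i ^ j * (φ i ^ (a : ℕ) * ev Ω (φ i))) := by
      rw [pow_add, pow_mul, hδ2 i, ← hb, add_comm, add_pow, Finset.sum_mul, Finset.sum_mul]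
      refine Finset.sum_congr rfl fun j _ => ?_
      rw [map_mul, map_natCast, map_pow PowerSeries.C b]
      ring
    rw [h2, map_sum]
    have h3 : ∀ j, PowerSeries.coeff (N - 1) (PowerSeries.C ((l.choose j : K) * b ^ (l - j)) *
          (δ i ^ j * (φ i ^ (a : ℕ) * ev Ω (φ i)))) =
        PowerSeries.coeff (N - 1) (δ i ^ j * (φ i ^ (a : ℕ) * ev Ω (φ i))) * (l.choose j : K) *
          b ^ (l - j) := by
      intro j
      rw [PowerSeries.coeff_C_mul]
      ring
    simp only [h3]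
    -- both sums equal the sum over `range (max ..)`
    have h4 : ∑ j ∈ Finset.range (l + 1),
        PowerSeries.coeff (N - 1) (δ i ^ j * (φ i ^ (a : ℕ) * ev Ω (φ i))) * (l.choose j : K) *
          b ^ (l - j) = ∑ j ∈ Finset.range (max (l + 1) M),
        PowerSeries.coeff (N - 1) (δ i ^ j * (φ i ^ (a : ℕ) * ev Ω (φ i))) * (l.choose j : K) *
          b ^ (l - j) := by
      refine Finset.sum_subset (Finset.range_subset_range.2 (le_max_left _ _)) fun j _ hj => ?_
      rw [Finset.mem_range, not_lt] at hj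
      rw [Nat.choose_eq_zero_of_lt (by omega)]
      simp
    have h5 : ∑ j ∈ Finset.range M,
        PowerSeries.coeff (N - 1) (δ i ^ j * (φ i ^ (a : ℕ) * ev Ω (φ i))) * (l.choose j : K) *
          b ^ (l - j) = ∑ j ∈ Finset.range (max (l + 1) M),
        PowerSeries.coeff (N - 1) (δ i ^ j * (φ i ^ (a : ℕ) * ev Ω (φ i))) * (l.choose j : K) *
          b ^ (l - j) := by
      refine Finset.sum_subset (Finset.range_subset_range.2 (le_max_right _ _)) fun j _ hj => ?_
      rw [Finset.mem_range, not_lt] at hj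
      rw [hvan j hj]
      simp
    rw [h4, h5]

end

end Pool.Agent.AbsIrr
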