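import Mathlib
import Pool.Agent.Lib.MP_2adc98_lc.Spec

/-!
# MP_2adc98, piece M6a: the coefficients of `E/F`
-/

set_option autoImplicit false

namespace Pool.Agent.AbsIrr

open Polynomial

section
variable {K : Type*} [Field K]

private lemma weq_map_invOfUnit {R S : Type*} [CommRing R] [CommRing S] (σ : R →+* S)
    (F : PowerSeries R) :
    PowerSeries.map σ (PowerSeries.invOfUnit F 1) =
      PowerSeries.invOfUnit (PowerSeries.map σ F) 1 := by
  ext n
  induction n using Nat.strong_induction_on with
  | _ n ih =>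
    rw [PowerSeries.coeff_map, PowerSeries.coeff_invOfUnit, PowerSeries.coeff_invOfUnit]
    by_cases h : n = 0
    · simp [h]
    · rw [if_neg h, if_neg h]
      rw [map_mul, map_neg, map_sum]
      simp only [inv_one, Units.val_one, map_one]
      congr 1
      refine Finset.sum_congr rfl fun x _ => ?_
      by_cases hx : x.2 < n
      · rw [if_pos hx, if_pos hx, map_mul, ← ih x.2 hx, PowerSeries.coeff_map,
          PowerSeries.coeff_map]
      · rw [if_neg hx, if_neg hx, map_zero]

private lemma weq_rv_map {k : Type*} [Field k] (σ : K →+* k) (m : ℕ) (P : K[X][X]) :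
    PowerSeries.map (mapRingHom σ) (rv m P) = rv m (P.map (mapRingHom σ)) := by
  unfold rv
  rw [← Polynomial.polynomial_map_coe, reflect_map]

private lemma weq_EF_map {k : Type*} [Field k] (σ : K →+* k) (d : ℕ) (f Ω : K[X][X]) :
    PowerSeries.map (mapRingHom σ) (EF d f Ω) =
      EF d (f.map (mapRingHom σ)) (Ω.map (mapRingHom σ)) := by
  unfold EF
  rw [map_mul, weq_map_invOfUnit, weq_rv_map, weq_rv_map, Polynomial.map_mul, derivative_map]

theorem W_map {k : Type*} [Field k] (σ : K →+* k) (N d : ℕ) (f Ω : K[X][X]) (n : ℕ) :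
    σ (W N d f Ω n) = W N d (f.map (mapRingHom σ)) (Ω.map (mapRingHom σ)) n := by
  unfold W
  rw [← weq_EF_map, PowerSeries.coeff_map, coe_mapRingHom, coeff_map]

/-- `(1 - a t)⁻¹` -/
private lemma weq_geom {R : Type*} [CommRing R] (a : R) :
    (1 - PowerSeries.C a * PowerSeries.X) * PowerSeries.mk (fun n => a ^ n) = 1 := by
  ext n
  rw [sub_mul, one_mul, map_sub, mul_assoc, PowerSeries.coeff_C_mul, PowerSeries.coeff_mk]
  cases n with
  | zero => simp
  | succ n =>
    rw [mul_comm PowerSeries.X, PowerSeries.coeff_succ_mul_X, PowerSeries.coeff_mk,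
      PowerSeries.coeff_one, if_neg (Nat.succ_ne_zero n), pow_succ']
    ring

private lemma weq_natDegree_prod {R : Type*} [CommRing R] [Nontrivial R] {ι : Type*}
    (s : Finset ι) (a : ι → R) : (∏ i ∈ s, (X - C (a i))).natDegree = s.card := by
  rw [natDegree_prod_of_monic _ _ fun i _ => monic_X_sub_C _]
  simp

private lemma weq_reflect_prod {R : Type*} [CommRing R] [Nontrivial R] {ι : Type*}
    [DecidableEq ι] (s : Finset ι) (a : ι → R) :
    (reflect s.card (∏ i ∈ s, (X - C (a i)))) = ∏ i ∈ s, (1 - C (a i) * X) := by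
  induction s using Finset.induction_on with
  | empty => simp
  | insert i s hi ih =>
    rw [Finset.prod_insert hi, Finset.prod_insert hi, Finset.card_insert_of_notMem hi,
      add_comm s.card 1, reflect_mul _ _ (natDegree_X_sub_C _).le
        (weq_natDegree_prod s a).le, ih]
    congr 1
    ext n
    rw [coeff_reflect]
    rcases n with _ | _ | n
    · simp
    · simp [coeff_one]
    · rw [revAt_eq_self_of_lt (by omega)]
      simp [coeff_X, coeff_one]

private lemma weq_reflect_sum {R : Type*} [CommRing R] {ι : Type*} (N : ℕ)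
    (s : Finset ι) (P : ι → R[X]) :
    reflect N (∑ i ∈ s, P i) = ∑ i ∈ s, reflect N (P i) := by
  ext n
  simp only [coeff_reflect, finsetSum_coeff]

/-- the coefficients of `Ω_rev / (1 - a t)` -/
private lemma weq_last {R : Type*} [CommRing R] {m : ℕ} {P : R[X]} (hP : P.natDegree ≤ m)
    (a : R) (n : ℕ) :
    PowerSeries.coeff (n + m) (((reflect m P : R[X]) : PowerSeries R) *
      PowerSeries.mk (fun n => a ^ n)) = a ^ n * P.eval a := by
  rw [PowerSeries.coeff_mul, Finset.Nat.sum_antidiagonal_eq_sum_range_succ_mk]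
  have h1 : Finset.range (m + 1) ⊆ Finset.range (n + m).succ := by
    intro i hi
    rw [Finset.mem_range] at hi ⊢
    omega
  rw [← Finset.sum_subset h1]
  · rw [← Finset.sum_range_reflect, eval_eq_sum_range' (Nat.lt_succ_of_le hP), Finset.mul_sum]
    refine Finset.sum_congr rfl fun j hj => ?_
    rw [Finset.mem_range] at hj
    have e1 : m + 1 - 1 - j = m - j := by omega
    rw [e1, Polynomial.coeff_coe, coeff_reflect, PowerSeries.coeff_mk,
      revAt_le (by omega)]
    have e2 : m - (m - j) = j := by omega
    have e3 : n + m - (m - j) = n + j := by omega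
    rw [e2, e3, pow_add]
    ring
  · intro i hi hi2
    rw [Finset.mem_range] at hi hi2
    rw [Polynomial.coeff_coe, coeff_reflect, revAt_eq_self_of_lt (by omega),
      coeff_eq_zero_of_natDegree_lt (by omega), zero_mul]

theorem W_eq {d : ℕ} (N : ℕ) {f Ω : K[X][X]} {φ : Fin d → PowerSeries K} (hφ : IsRoots f φ)
    (hΩ : Ω.natDegree < d) (n : ℕ) : W N d f Ω (n + (d - 1)) =
      PowerSeries.coeff (N - 1) (∑ i, φ i ^ n * ev Ω (φ i)) := by
  classical
  obtain ⟨c, hc⟩ : ∃ c : K[X] →+* PowerSeries K, c = coeToPowerSeries.ringHom := ⟨_, rfl⟩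
  have hcv : ∀ P : K[X], c P = (P : PowerSeries K) := by
    intro P; rw [hc]; rfl
  have hfc : f.map c = ∏ i, (X - C (φ i)) := by rw [hc]; exact hφ.prod
  have hd : 0 < d := by omega
  -- coefficients through the coercion
  have h1 : W N d f Ω (n + (d - 1)) = PowerSeries.coeff (N - 1)
      (PowerSeries.coeff (n + (d - 1)) (PowerSeries.map c (EF d f Ω))) := by
    unfold W
    rw [PowerSeries.coeff_map, hcv, Polynomial.coeff_coe]
  rw [h1]
  congr 1
  -- the image of `E/F`
  have hrv : ∀ (m : ℕ) (P : K[X][X]), PowerSeries.map c (rv m P) =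
      ((reflect m (P.map c) : (PowerSeries K)[X]) : PowerSeries (PowerSeries K)) := by
    intro m P
    unfold rv
    rw [← Polynomial.polynomial_map_coe, reflect_map]
  have hF : PowerSeries.map c (rv d f) =
      ∏ i, (1 - PowerSeries.C (φ i) * PowerSeries.X) := by
    rw [hrv, hfc]
    have h2 := weq_reflect_prod (Finset.univ : Finset (Fin d)) φ
    rw [Finset.card_univ, Fintype.card_fin] at h2
    rw [h2]
    rw [← Polynomial.coeToPowerSeries.ringHom_apply, map_prod]
    refine Finset.prod_congr rfl fun i _ => ?_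
    simp
  have hE : PowerSeries.map c (rv (2 * d - 2) (Ω * derivative f)) =
      ((reflect (d - 1) (Ω.map c) : (PowerSeries K)[X]) : PowerSeries (PowerSeries K)) *
      ∑ i, ∏ j ∈ Finset.univ.erase i, (1 - PowerSeries.C (φ j) * PowerSeries.X) := by
    have e1 : 2 * d - 2 = (d - 1) + (d - 1) := by omega
    rw [hrv, Polynomial.map_mul, e1, reflect_mul]
    · rw [← derivative_map, hfc, derivative_prod_finset, Polynomial.coe_mul]
      congr 1
      rw [weq_reflect_sum, ← Polynomial.coeToPowerSeries.ringHom_apply, map_sum]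
      refine Finset.sum_congr rfl fun i _ => ?_
      rw [derivative_X_sub_C, mul_one]
      have h2 := weq_reflect_prod ((Finset.univ : Finset (Fin d)).erase i) φ
      rw [Finset.card_erase_of_mem (Finset.mem_univ i), Finset.card_univ,
        Fintype.card_fin] at h2
      rw [h2, map_prod]
      refine Finset.prod_congr rfl fun j _ => ?_
      simp
    · exact natDegree_map_le.trans (by omega)
    · rw [← derivative_map, hfc]
      refine (natDegree_derivative_le _).trans ?_
      rw [weq_natDegree_prod]
      simp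
  have hEF : PowerSeries.map c (EF d f Ω) = ∑ i,
      ((reflect (d - 1) (Ω.map c) : (PowerSeries K)[X]) : PowerSeries (PowerSeries K)) *
        PowerSeries.mk (fun n => φ i ^ n) := by
    unfold EF
    rw [map_mul, weq_map_invOfUnit, hE, hF, mul_assoc, ← Finset.mul_sum]
    congr 1
    rw [Finset.sum_mul]
    refine Finset.sum_congr rfl fun i _ => ?_
    have h3 : (∏ i, (1 - PowerSeries.C (φ i) * PowerSeries.X)) * PowerSeries.invOfUnit
        (∏ i, (1 - PowerSeries.C (φ i) * PowerSeries.X)) 1 = 1 := by
      refine PowerSeries.mul_invOfUnit _ _ ?_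
      rw [map_prod]
      simp
    rw [← Finset.mul_prod_erase Finset.univ _ (Finset.mem_univ i)] at h3 ⊢
    have h4 := weq_geom (φ i)
    calc _ = (∏ j ∈ Finset.univ.erase i, (1 - PowerSeries.C (φ j) * PowerSeries.X)) *
          PowerSeries.invOfUnit ((1 - PowerSeries.C (φ i) * PowerSeries.X) *
            ∏ j ∈ Finset.univ.erase i, (1 - PowerSeries.C (φ j) * PowerSeries.X)) 1 *
            ((1 - PowerSeries.C (φ i) * PowerSeries.X) * PowerSeries.mk (fun n => φ i ^ n)) := by
          rw [h4, mul_one]
      _ = ((1 - PowerSeries.C (φ i) * PowerSeries.X) *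
            ∏ j ∈ Finset.univ.erase i, (1 - PowerSeries.C (φ j) * PowerSeries.X)) *
          PowerSeries.invOfUnit ((1 - PowerSeries.C (φ i) * PowerSeries.X) *
            ∏ j ∈ Finset.univ.erase i, (1 - PowerSeries.C (φ j) * PowerSeries.X)) 1 *
            PowerSeries.mk (fun n => φ i ^ n) := by ring
      _ = PowerSeries.mk (fun n => φ i ^ n) := by rw [h3, one_mul]
  rw [hEF, map_sum]
  refine Finset.sum_congr rfl fun i _ => ?_
  rw [weq_last (natDegree_map_le.trans (by omega))]
  congr 1
  unfold ev
  rw [eval_map, hc]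

end

end Pool.Agent.AbsIrr
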