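import Mathlib
import Pool.Agent.Lib.MP_2adc98_lc.Spec
import Pool.Agent.Lib.MP_2adc98_lc.Basic
import Pool.Agent.Lib.MP_2adc98_lc.WEq
import Pool.Agent.Lib.MP_2adc98_lc.Sections
import Pool.Agent.Lib.MP_2adc98_lc.Hermite
import Pool.Agent.Lib.MP_2adc98_lc.RankMap

/-!
# Bridge (M9): the matrix computed by the program has the rank of `Z`
-/

set_option autoImplicit false

namespace Pool.Agent.AbsIrr

open Polynomial

section
variable {K : Type*} [Field K]

namespace BridgeAux

variable {k : Type*} [Field k] (σ : K →+* k)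

theorem at0_map (f : K[X][X]) : at0 (f.map (mapRingHom σ)) = (at0 f).map σ := by
  rw [at0, at0, Polynomial.map_map, Polynomial.map_map]
  congr 1
  ext
  · simp
  · simp

theorem mk_map (s : ℕ → K) : PowerSeries.map σ (PowerSeries.mk s) =
    PowerSeries.mk (fun n => σ (s n)) := by
  ext n; simp

theorem reflect_map (d : ℕ) (g : K[X]) : reflect d (g.map σ) = (reflect d g).map σ := by
  ext n; simp [coeff_reflect]

theorem coe_map (g : K[X]) : ((g.map σ : k[X]) : PowerSeries k) =
    PowerSeries.map σ (g : PowerSeries K) := by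
  ext n; simp

theorem isBlock_map {d e : ℕ} {g A : K[X]} {s : ℕ → K} (h : IsBlock d e g s A) :
    IsBlock d e (g.map σ) (fun n => σ (s n)) (A.map σ) := by
  refine ⟨lt_of_le_of_lt (degree_map_le) h.1, fun n hn => ?_⟩
  rw [← mk_map, reflect_map, reflect_map, coe_map, ← map_pow, ← map_mul, PowerSeries.coeff_map,
    h.2 n hn, coeff_map]

theorem digits_map {d M : ℕ} {g : K[X]} {s : ℕ → K} {t : ℕ → K[X]} (h : Digits d M g s t) :
    Digits d M (g.map σ) (fun n => σ (s n)) (fun l => (t l).map σ) := by
  refine ⟨fun l hl => lt_of_le_of_lt (degree_map_le) (h.1 l hl), ?_⟩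
  have := isBlock_map σ h.2
  convert this using 1
  rw [Polynomial.map_sum]
  refine Finset.sum_congr rfl fun l _ => ?_
  rw [Polynomial.map_mul, Polynomial.map_pow]

end BridgeAux

open BridgeAux

/-- what the program computes: `fn` is the normalised polynomial (monic in `y`), `g` has the
coefficients of `at0 fn` raised to the power `q = p^e` -/
theorem bridge {k : Type*} [Field k] [Algebra K k] {p : ℕ} [CharP K p]
    [Fact p.Prime] {d N e M₁ M : ℕ} (hd : 1 ≤ d) (hN : 5 * d ^ 2 < N) (hqN : N ≤ p ^ e * M₁)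
    (hM₁ : 1 ≤ M₁) (hM₁p : M₁ ≤ p) (hM : M₁ ≤ M) {f : K[X][X]} {φ : Fin d → PowerSeries k}
    (hφ : IsRoots (f.map (mapRingHom (algebraMap K k))) φ) {Ω : K[X][X]} (hΩ : Ω.natDegree < d)
    {g v : K[X]} (hg : g = (at0 f).map (iterateFrobenius K p e))
    (hv : ∃ u, v * derivative g + u * g = 1) (t : Fin d → ℕ → K[X])
    (ht : ∀ a : Fin d, Digits d M g (sec N d (p ^ e) f Ω a) (t a)) :
    (Matrix.of fun (a j : Fin d) => (herm g v (t a) M (M - 1)).coeff j).rank =
      (Zmat N φ (Ω.map (mapRingHom (algebraMap K k)))).rank := by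
  classical
  set σ : K →+* k := algebraMap K k with hσ
  have : CharP k p := charP_of_injective_algebraMap σ.injective p
  have : ExpChar k p := ExpChar.prime Fact.out
  set β : Fin d → k := fun i => PowerSeries.constantCoeff (φ i) ^ p ^ e with hβdef
  have hβ : Function.Injective β := by
    intro i j hij
    apply hφ.inj
    have := iterateFrobenius_inj k p e
    apply this
    simpa [iterateFrobenius_def, hβdef] using hij
  -- the polynomial `g`
  have hgσ : g.map σ = ∏ i, (X - C (β i)) := by
    have h1 : (at0 f).map σ = ∏ i, (X - C (PowerSeries.constantCoeff (φ i))) := by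
      rw [← at0_map, ← hφ.at0_eq]
    have h2 : g.map σ = ((at0 f).map σ).map (iterateFrobenius k p e) := by
      rw [hg, Polynomial.map_map, Polynomial.map_map]
      congr 1
      ext x
      simp [iterateFrobenius_def]
    rw [h2, h1, Polynomial.map_prod]
    refine Finset.prod_congr rfl fun i _ => ?_
    rw [Polynomial.map_sub, map_X, map_C, iterateFrobenius_def]
  have hvσ : ∃ u, v.map σ * derivative (g.map σ) + u * g.map σ = 1 := by
    obtain ⟨u, hu⟩ := hv
    refine ⟨u.map σ, ?_⟩
    rw [derivative_map, ← Polynomial.map_mul, ← Polynomial.map_mul, ← Polynomial.map_add, hu,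
      Polynomial.map_one]
  have hgmon : (g.map σ).Monic := by
    rw [hgσ]; exact monic_prod_of_monic _ _ fun i _ => monic_X_sub_C _
  have hgmonK : g.Monic := by
    rw [Monic, ← σ.injective.eq_iff, ← leadingCoeff_map_of_injective σ.injective, map_one]
    exact hgmon
  have hgdeg : (g.map σ).natDegree = d := by
    rw [hgσ, natDegree_prod_of_monic _ _ fun i _ => monic_X_sub_C _]
    simp
  have hΩσ : (Ω.map (mapRingHom σ)).natDegree < d := lt_of_le_of_lt natDegree_map_le hΩ
  have hN1 : 1 ≤ N := by omega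
  -- the matrix identity
  set T : Matrix (Fin d) (Fin d) K :=
    Matrix.of fun (a j : Fin d) => (herm g v (t a) M (M - 1)).coeff j with hT
  set Z := Zmat N φ (Ω.map (mapRingHom σ)) with hZ
  have key : ∀ a i : Fin d, (herm (g.map σ) (v.map σ) (fun l => (t a l).map σ) M (M - 1)).eval (β i)
      = (derivative (g.map σ)).eval (β i) * Z a i := by
    intro a i
    obtain ⟨c, hc0, hc⟩ := sections hN1 (Ω := Ω.map (mapRingHom σ)) φ hqN a
    rw [hZ, ← hc0 i]
    refine herm_correct (M₁ := M₁) (p := p) hd hM₁ hM₁p hM hβ hgσ hvσ c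
      (fun l => σ (sec N d (p ^ e) f Ω a l)) ?_ _ (digits_map σ (ht a)) i
    intro l
    rw [sec, W_map, W_eq N hφ hΩσ]
    exact hc l
  have hdeg : ∀ a : Fin d,
      (herm (g.map σ) (v.map σ) (fun l => (t a l).map σ) M (M - 1)).degree < d := by
    intro a
    have := herm_degree (v := v.map σ) hgmon (t := fun l => (t a l).map σ) (M := M)
      (fun l hl => by rw [hgdeg]; exact lt_of_le_of_lt degree_map_le ((ht a).1 l hl))
      (hM₁.trans hM) (M - 1) le_rfl
    rwa [hgdeg] at this
  have hmat : T.map σ * (Matrix.vandermonde β).transpose =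
      Z * Matrix.diagonal (fun i => (derivative (g.map σ)).eval (β i)) := by
    ext a i
    rw [Matrix.mul_diagonal, mul_comm, ← key a i, Matrix.mul_apply]
    have hnd : (herm (g.map σ) (v.map σ) (fun l => (t a l).map σ) M (M - 1)).natDegree < d := by
      by_cases h0 : herm (g.map σ) (v.map σ) (fun l => (t a l).map σ) M (M - 1) = 0
      · rw [h0, natDegree_zero]; omega
      · exact (natDegree_lt_iff_degree_lt h0).2 (hdeg a)
    rw [eval_eq_sum_range' hnd, ← Fin.sum_univ_eq_sum_range
      (fun j => (herm (g.map σ) (v.map σ) (fun l => (t a l).map σ) M (M - 1)).coeff j * β i ^ j) d]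
    refine Finset.sum_congr rfl fun j _ => ?_
    rw [Matrix.map_apply, Matrix.transpose_apply, Matrix.vandermonde_apply, hT, Matrix.of_apply,
      ← herm_map σ g v hgmonK, coeff_map]
  have hdet1 : IsUnit (Matrix.vandermonde β).transpose.det := by
    rw [Matrix.det_transpose, isUnit_iff_ne_zero, Matrix.det_vandermonde_ne_zero_iff]
    exact hβ
  have hdet2 : IsUnit (Matrix.diagonal (fun i => (derivative (g.map σ)).eval (β i))).det := by
    rw [Matrix.det_diagonal, isUnit_iff_ne_zero, Finset.prod_ne_zero_iff]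
    intro i _ h0
    obtain ⟨u, hu⟩ := hvσ
    have h1 := congrArg (Polynomial.eval (β i)) hu
    rw [eval_add, eval_mul, eval_mul, h0, mul_zero, zero_add, eval_one, hgσ, eval_prod,
      Finset.prod_eq_zero (Finset.mem_univ i) (by simp), mul_zero] at h1
    exact zero_ne_one h1
  have h1 := congrArg Matrix.rank hmat
  rw [Matrix.rank_mul_eq_left_of_isUnit_det _ _ hdet1,
    Matrix.rank_mul_eq_left_of_isUnit_det _ _ hdet2, rank_map_field] at h1
  exact h1

end

end Pool.Agent.AbsIrr
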