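import Mathlib
import Pool.Agent.Lib.MP_2adc98_lc.Defs

/-!
# MP_2adc98_lc: piece CNT, counting bad random choices
-/

set_option autoImplicit false

namespace Pool.Agent.AbsIrr

open Finset Polynomial

private theorem tape_lt {L : Type} [Zero L] {m : ℕ} (ω : Fin m → L) (i : ℕ) (hi : i < m) :
    tape ω i = ω ⟨i, hi⟩ := by
  simp [tape, hi]

private theorem tape_mem {L : Type} [Zero L] {m : ℕ} {S : Finset L} {ω : Fin m → L}
    (hω : ∀ i, ω i ∈ S) (i : ℕ) (hi : i < m) : tape ω i ∈ S := by
  rw [tape_lt ω i hi]; exact hω _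

private theorem ext_tape {L : Type} [Zero L] {m : ℕ} {ω ω' : Fin m → L}
    (h : ∀ i < m, tape ω i = tape ω' i) : ω = ω' := by
  funext i
  have := h i i.2
  rw [tape_lt ω i i.2, tape_lt ω' i i.2] at this
  exact this

theorem count {L : Type} (S : Finset L) (h m n β γ : ℕ) (hm : 2 + h * n ≤ m)
    (P : L → L → Prop) (Q : L → L → (Fin h × Fin n → L) → Prop)
    (hP : by classical exact ((S ×ˢ S).filter fun ab => P ab.1 ab.2).card ≤ β * S.card)
    (hQ : ∀ a ∈ S, ∀ b ∈ S, by classical exact
      ((Fintype.piFinset fun _ : Fin h × Fin n => S).filter fun ω => Q a b ω).card * S.card ≤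
        γ * S.card ^ (h * n))
    (hS : 3 * (β + γ) ≤ S.card) (hn : 0 < n) [Zero L] : by
    classical exact
    3 * ((Fintype.piFinset fun _ : Fin m => S).filter fun ω =>
      P (tape ω 0) (tape ω 1) ∨ Q (tape ω 0) (tape ω 1)
        (fun q => tape ω (2 + (q.1 * n + q.2)))).card ≤ S.card ^ m := by
  classical
  -- the tapes with `P`
  have h1 : ((Fintype.piFinset fun _ : Fin m => S).filter fun ω =>
      P (tape ω 0) (tape ω 1)).card ≤ β * S.card * S.card ^ (m - 2) := by
    have e1 : ((Fintype.piFinset fun _ : Fin m => S).filter fun ω =>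
        P (tape ω 0) (tape ω 1)).card ≤
        (((S ×ˢ S).filter fun ab => P ab.1 ab.2) ×ˢ
          (Fintype.piFinset fun _ : Fin (m - 2) => S)).card := by
      refine Finset.card_le_card_of_injOn
        (fun ω => ((tape ω 0, tape ω 1), fun i : Fin (m - 2) => tape ω (2 + i))) ?_ ?_
      · intro ω hω
        simp only [Finset.coe_filter, Set.mem_ofPred_eq, Fintype.mem_piFinset] at hω
        simp only [Finset.coe_product, Finset.coe_filter, Set.mem_prod, Set.mem_ofPred_eq,
          Finset.mem_product, Finset.mem_coe, Fintype.mem_piFinset]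
        exact ⟨⟨⟨tape_mem hω.1 0 (by omega), tape_mem hω.1 1 (by omega)⟩, hω.2⟩,
          fun i => tape_mem hω.1 _ (by omega)⟩
      · intro ω _ ω' _ he
        simp only [Prod.mk.injEq] at he
        obtain ⟨⟨e0, e1⟩, e2⟩ := he
        refine ext_tape fun i hi => ?_
        rcases Nat.lt_or_ge i 2 with h2 | h2
        · interval_cases i
          · exact e0
          · exact e1
        · have := congrFun e2 ⟨i - 2, by omega⟩
          simp only at this
          rwa [show 2 + (i - 2) = i by omega] at this
    refine e1.trans ?_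
    rw [Finset.card_product, Fintype.card_piFinset_const]
    exact Nat.mul_le_mul_right _ hP
  -- the tapes with `Q`
  have h2 : ((Fintype.piFinset fun _ : Fin m => S).filter fun ω =>
      Q (tape ω 0) (tape ω 1) (fun q => tape ω (2 + (q.1 * n + q.2)))).card * S.card ≤
      γ * S.card ^ m := by
    have e1 : ((Fintype.piFinset fun _ : Fin m => S).filter fun ω =>
        Q (tape ω 0) (tape ω 1) (fun q => tape ω (2 + (q.1 * n + q.2)))).card ≤
        ((S ×ˢ S).sigma fun ab => ((Fintype.piFinset fun _ : Fin h × Fin n => S).filter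
          fun ω => Q ab.1 ab.2 ω) ×ˢ
          (Fintype.piFinset fun _ : Fin (m - (2 + h * n)) => S)).card := by
      refine Finset.card_le_card_of_injOn
        (fun ω => ⟨(tape ω 0, tape ω 1), (fun q => tape ω (2 + (q.1 * n + q.2)),
          fun i : Fin (m - (2 + h * n)) => tape ω (2 + h * n + i))⟩) ?_ ?_
      · intro ω hω
        simp only [Finset.coe_filter, Set.mem_ofPred_eq, Fintype.mem_piFinset] at hω
        simp only [Finset.mem_coe, Finset.mem_sigma, Finset.mem_product, Finset.mem_filter,
          Fintype.mem_piFinset]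
        refine ⟨⟨tape_mem hω.1 0 (by omega), tape_mem hω.1 1 (by omega)⟩,
          ⟨fun q => tape_mem hω.1 _ ?_, hω.2⟩, fun i => tape_mem hω.1 _ (by omega)⟩
        have hq1 := q.1.2
        have hq2 := q.2.2
        have : (q.1 : ℕ) * n + q.2 < h * n := by nlinarith
        omega
      · intro ω _ ω' _ he
        simp only [Sigma.mk.injEq, Prod.mk.injEq] at he
        obtain ⟨⟨e0, e1⟩, e2⟩ := he
        rw [heq_eq_eq, Prod.mk.injEq] at e2
        obtain ⟨e2, e3⟩ := e2
        refine ext_tape fun i hi => ?_
        rcases Nat.lt_or_ge i 2 with h2 | h2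
        · interval_cases i
          · exact e0
          · exact e1
        · rcases Nat.lt_or_ge i (2 + h * n) with h3 | h3
          · have hlt : (i - 2) / n < h := by
              rw [Nat.div_lt_iff_lt_mul hn]; omega
            have := congrFun e2 (⟨(i - 2) / n, hlt⟩, ⟨(i - 2) % n, Nat.mod_lt _ hn⟩)
            simp only at this
            rwa [Nat.div_add_mod', show 2 + (i - 2) = i by omega] at this
          · have := congrFun e3 ⟨i - (2 + h * n), by omega⟩
            simp only at this
            rwa [show 2 + h * n + (i - (2 + h * n)) = i by omega] at this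
    rw [Finset.card_sigma] at e1
    refine (Nat.mul_le_mul_right _ e1).trans ?_
    rw [Finset.sum_mul]
    have e2 : ∀ ab ∈ S ×ˢ S, (((Fintype.piFinset fun _ : Fin h × Fin n => S).filter
          fun ω => Q ab.1 ab.2 ω) ×ˢ
          (Fintype.piFinset fun _ : Fin (m - (2 + h * n)) => S)).card * S.card ≤
          γ * S.card ^ (h * n) * S.card ^ (m - (2 + h * n)) := by
      intro ab hab
      rw [Finset.mem_product] at hab
      rw [Finset.card_product, Fintype.card_piFinset_const, mul_right_comm]
      exact Nat.mul_le_mul_right _ (hQ ab.1 hab.1 ab.2 hab.2)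
    refine (Finset.sum_le_card_nsmul _ _ _ e2).trans ?_
    rw [Finset.card_product, smul_eq_mul]
    have : S.card ^ m = S.card * S.card * (S.card ^ (h * n) * S.card ^ (m - (2 + h * n))) := by
      rw [← pow_add, ← pow_two, ← pow_add]
      congr 1
      omega
    rw [this]
    exact le_of_eq (by ring)
  rcases Nat.eq_zero_or_pos S.card with h0 | h0
  · have : ((Fintype.piFinset fun _ : Fin m => S).filter fun ω =>
      P (tape ω 0) (tape ω 1) ∨ Q (tape ω 0) (tape ω 1)
        (fun q => tape ω (2 + (q.1 * n + q.2)))) = ∅ := by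
      rw [Finset.card_eq_zero] at h0
      subst h0
      apply Finset.filter_eq_empty_iff.mpr
      intro ω hω
      rw [Fintype.mem_piFinset] at hω
      exact absurd (hω ⟨0, by omega⟩) (Finset.notMem_empty _)
    rw [this]
    simp
  · rw [Finset.filter_or]
    refine Nat.le_of_mul_le_mul_right ?_ h0
    have e1 := Finset.card_union_le ((Fintype.piFinset fun _ : Fin m => S).filter fun ω =>
      P (tape ω 0) (tape ω 1)) ((Fintype.piFinset fun _ : Fin m => S).filter fun ω =>
      Q (tape ω 0) (tape ω 1) (fun q => tape ω (2 + (q.1 * n + q.2))))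
    have e3 : S.card * S.card ^ (m - 2) * S.card = S.card ^ m := by
      rw [mul_comm S.card, mul_assoc, ← pow_two, ← pow_add]
      congr 1
      omega
    have e4 : ((Fintype.piFinset fun _ : Fin m => S).filter fun ω =>
      P (tape ω 0) (tape ω 1)).card * S.card ≤ β * S.card ^ m := by
      refine (Nat.mul_le_mul_right _ h1).trans (le_of_eq ?_)
      rw [← e3]; ring
    calc 3 * _ * S.card ≤ 3 * (_ + _) * S.card :=
          Nat.mul_le_mul_right _ (Nat.mul_le_mul_left 3 e1)
      _ = 3 * (_ * S.card + _ * S.card) := by ring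
      _ ≤ 3 * (β * S.card ^ m + γ * S.card ^ m) :=
          Nat.mul_le_mul_left 3 (Nat.add_le_add e4 h2)
      _ = 3 * (β + γ) * S.card ^ m := by ring
      _ ≤ S.card * S.card ^ m := Nat.mul_le_mul_right _ hS
      _ = S.card ^ m * S.card := mul_comm _ _

end Pool.Agent.AbsIrr
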