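import Mathlib
import Pool.Agent.Lib.MP_2adc98_lc.Basic
import Pool.Agent.Lib.MP_2adc98_lc.Spec

/-!
# MP_2adc98: traces and norms of polynomials over the roots are polynomials of bounded degree
-/

set_option autoImplicit false

namespace Pool.Agent.AbsIrr

open Polynomial

section
variable {K : Type*} [Field K]

/-- the matrix of multiplication by `P` modulo `f` -/
private noncomputable def mulMat (d : ℕ) (f P : K[X][X]) : Matrix (Fin d) (Fin d) K[X] :=
  Matrix.of fun r c => ((P * X ^ (c : ℕ)) %ₘ f).coeff r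

private theorem mulMat_degree {d : ℕ} {f : K[X][X]} (hf : f.Monic) (hd : f.natDegree = d)
    (hTD : TD d f) {D : ℕ} {P : K[X][X]} (hP : TD D P) (r c : Fin d)
    (h : mulMat d f P r c ≠ 0) : (mulMat d f P r c).natDegree + (r : ℕ) ≤ D + c := by
  have h1 : TD (D + (c : ℕ)) (P * X ^ (c : ℕ)) := by
    refine TD.mul hP ?_
    have := TD.C_mul_X_pow (K := K) (D := c) (j := c) (P := 1) (by simp)
    simpa using this
  exact TD.modByMonic hf hd hTD h1 r h

private theorem mulMat_det_degree {d : ℕ} {f : K[X][X]} (hf : f.Monic) (hd : f.natDegree = d)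
    (hTD : TD d f) {D : ℕ} {P : K[X][X]} (hP : TD D P) :
    (mulMat d f P).det.natDegree ≤ D * d := by
  rw [Matrix.det_apply]
  refine natDegree_sum_le_of_forall_le _ _ fun σ _ => ?_
  refine (natDegree_smul_le _ _).trans ?_
  by_cases h0 : ∃ c, mulMat d f P (σ c) c = 0
  · obtain ⟨c, hc⟩ := h0
    have h1 : ∏ i : Fin d, mulMat d f P (σ i) i = 0 :=
      Finset.prod_eq_zero (f := fun i => mulMat d f P (σ i) i) (Finset.mem_univ c) hc
    rw [h1]
    simp
  push Not at h0
  refine (natDegree_prod_le _ _).trans ?_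
  have h1 : ∑ c : Fin d, ((mulMat d f P (σ c) c).natDegree + ((σ c : Fin d) : ℕ)) ≤
      ∑ c : Fin d, (D + (c : ℕ)) :=
    Finset.sum_le_sum fun c _ => mulMat_degree hf hd hTD hP (σ c) c (h0 c)
  rw [Finset.sum_add_distrib, Finset.sum_add_distrib,
    Equiv.sum_comp σ (fun c : Fin d => (c : ℕ))] at h1
  have h2 : ∑ _c : Fin d, D = D * d := by simp [mul_comm]
  rw [h2] at h1
  simpa using Nat.le_of_add_le_add_right h1

private theorem mulMat_trace_degree {d : ℕ} {f : K[X][X]} (hf : f.Monic) (hd : f.natDegree = d)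
    (hTD : TD d f) {D : ℕ} {P : K[X][X]} (hP : TD D P) :
    (mulMat d f P).trace.natDegree ≤ D := by
  rw [Matrix.trace]
  refine natDegree_sum_le_of_forall_le _ _ fun c _ => ?_
  rw [Matrix.diag_apply]
  by_cases h0 : mulMat d f P c c = 0
  · rw [h0]; simp
  have := mulMat_degree hf hd hTD hP c c h0
  omega

private theorem ev_eq_sum {d : ℕ} {R : K[X][X]} (hR : R.degree < (d : ℕ)) (φ : PowerSeries K) :
    ev R φ = ∑ r : Fin d, φ ^ (r : ℕ) * ((R.coeff r : K[X]) : PowerSeries K) := by
  by_cases h : R = 0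
  · subst h
    simp [ev]
  · rw [ev, eval₂_eq_sum_range' _ ((natDegree_lt_iff_degree_lt h).2 hR)]
    rw [Finset.sum_range]
    exact Finset.sum_congr rfl fun r _ => by rw [mul_comm]; rfl

private theorem ev_modByMonic {f : K[X][X]} {φ : PowerSeries K} (h : ev f φ = 0)
    (P : K[X][X]) : ev (P %ₘ f) φ = ev P φ := by
  have h1 := congrArg (fun Q => ev Q φ) (modByMonic_add_div P f)
  simp only [ev_add, ev_mul, h, zero_mul, add_zero] at h1
  exact h1

private theorem vand_mul {d : ℕ} {f P : K[X][X]} (hf : f.Monic) (hd : f.natDegree = d)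
    {φ : Fin d → PowerSeries K} (hφ : ∀ i, ev f (φ i) = 0) :
    Matrix.vandermonde φ * (mulMat d f P).map (coeToPowerSeries.ringHom (R := K)) =
      Matrix.diagonal (fun i => ev P (φ i)) * Matrix.vandermonde φ := by
  ext1 i c
  rw [Matrix.mul_apply, Matrix.diagonal_mul, Matrix.vandermonde_apply]
  have h1 : ((P * X ^ (c : ℕ)) %ₘ f).degree < (d : ℕ) := by
    have h2 := degree_modByMonic_lt (P * X ^ (c : ℕ)) hf
    rwa [degree_eq_natDegree hf.ne_zero, hd] at h2
  have h3 := ev_eq_sum h1 (φ i)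
  rw [ev_modByMonic (hφ i), ev_mul, ev_pow, ev_X] at h3
  rw [h3]
  exact Finset.sum_congr rfl fun r _ => by
    rw [Matrix.vandermonde_apply, Matrix.map_apply, mulMat, Matrix.of_apply]
    rfl

private theorem isUnit_det_vand {d : ℕ} {φ : Fin d → PowerSeries K}
    (h : Function.Injective fun i => PowerSeries.constantCoeff (φ i)) :
    IsUnit (Matrix.vandermonde φ).det := by
  rw [PowerSeries.isUnit_iff_constantCoeff, isUnit_iff_ne_zero, RingHom.map_det]
  have h1 : (PowerSeries.constantCoeff (R := K)).mapMatrix (Matrix.vandermonde φ) =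
      Matrix.vandermonde fun i => PowerSeries.constantCoeff (φ i) := by
    ext1 i j
    simp [Matrix.vandermonde_apply]
  rw [h1, Matrix.det_vandermonde_ne_zero_iff]
  exact h

theorem trace_norm {ι : Type*} [Fintype ι] {f : K[X][X]} (hTD : TD (Fintype.card ι) f)
    {φ : ι → PowerSeries K} (hφ : IsRoots f φ) {D : ℕ} {P : K[X][X]} (hP : TD D P) :
    (∃ Q : K[X], Q.natDegree ≤ D ∧ (Q : PowerSeries K) = ∑ i, ev P (φ i)) ∧
    ∃ Q : K[X], Q.natDegree ≤ D * Fintype.card ι ∧ (Q : PowerSeries K) = ∏ i, ev P (φ i) := by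
  have hf := hφ.monic
  have hd := hφ.natDegree_eq
  set e := (Fintype.equivFin ι).symm with he
  set ψ : Fin (Fintype.card ι) → PowerSeries K := fun i => φ (e i) with hψ
  have h0 : ∀ i, ev f (ψ i) = 0 := fun i => hφ.ev_eq_zero (e i)
  have hu : IsUnit (Matrix.vandermonde ψ).det := isUnit_det_vand (hφ.inj.comp e.injective)
  have hV := vand_mul (P := P) hf hd h0
  refine ⟨⟨(mulMat (Fintype.card ι) f P).trace, mulMat_trace_degree hf hd hTD hP, ?_⟩,
    ⟨(mulMat (Fintype.card ι) f P).det, mulMat_det_degree hf hd hTD hP, ?_⟩⟩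
  · have h1 : (((mulMat (Fintype.card ι) f P).trace : K[X]) : PowerSeries K) =
        ((mulMat (Fintype.card ι) f P).map (coeToPowerSeries.ringHom (R := K))).trace := by
      rw [← AddMonoidHom.map_trace]
      rfl
    have h2 : (mulMat (Fintype.card ι) f P).map (coeToPowerSeries.ringHom (R := K)) =
        (Matrix.vandermonde ψ)⁻¹ * (Matrix.diagonal (fun i => ev P (ψ i)) *
          Matrix.vandermonde ψ) := by
      rw [← hV, ← Matrix.mul_assoc, Matrix.nonsing_inv_mul _ hu, Matrix.one_mul]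
    rw [h1, h2, Matrix.trace_mul_comm, Matrix.mul_assoc, Matrix.mul_nonsing_inv _ hu,
      Matrix.mul_one, Matrix.trace_diagonal]
    exact Equiv.sum_comp e (fun i => ev P (φ i))
  · have h1 : (((mulMat (Fintype.card ι) f P).det : K[X]) : PowerSeries K) =
        ((mulMat (Fintype.card ι) f P).map (coeToPowerSeries.ringHom (R := K))).det := by
      exact RingHom.map_det (coeToPowerSeries.ringHom (R := K)) _
    have h2 := congrArg Matrix.det hV
    rw [Matrix.det_mul, Matrix.det_mul, mul_comm] at h2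
    have h3 := hu.mul_right_cancel h2
    rw [h1, h3, Matrix.det_diagonal]
    exact Equiv.prod_comp e (fun i => ev P (φ i))

end

end Pool.Agent.AbsIrr
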