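import Mathlib
import Pool.Agent.Lib.MP_2adc98_lc.Basic
import Pool.Agent.Lib.MP_2adc98_lc.TraceNorm

/-!
# MP_2adc98: independence of the functionals (piece M3)
-/

set_option autoImplicit false

namespace Pool.Agent.AbsIrr

open Polynomial

namespace Ind

variable {K : Type*} [Field K]

/-- a polynomial vanishing at a root of the irreducible polynomial `f` is divisible by `f` -/
theorem dvd_of_root {ι : Type*} [Fintype ι] {f : K[X][X]} (hirr : Irreducible f)
    {φ : ι → PowerSeries K} (hφ : IsRoots f φ) (i : ι) {Q : K[X][X]} (hQ : ev Q (φ i) = 0) :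
    f ∣ Q := by
  let _ : Algebra K[X] (PowerSeries K) := (Polynomial.coeToPowerSeries.ringHom).toAlgebra
  have halg : ∀ p : K[X], algebraMap K[X] (PowerSeries K) p = (p : PowerSeries K) := fun p => rfl
  have hinj : Function.Injective (algebraMap K[X] (PowerSeries K)) :=
    fun a b hab => Polynomial.coe_injective K hab
  have : FaithfulSMul K[X] (PowerSeries K) :=
    (faithfulSMul_iff_algebraMap_injective _ _).2 hinj
  have hev : ∀ P : K[X][X], aeval (φ i) P = ev P (φ i) := fun P => rfl
  have hint : IsIntegral K[X] (φ i) := ⟨f, hφ.monic, hφ.ev_eq_zero i⟩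
  have h1 : minpoly K[X] (φ i) ∣ f :=
    minpoly.isIntegrallyClosed_dvd hint (by rw [hev]; exact hφ.ev_eq_zero i)
  have h2 : minpoly K[X] (φ i) ∣ Q :=
    minpoly.isIntegrallyClosed_dvd hint (by rw [hev]; exact hQ)
  have h3 : Associated (minpoly K[X] (φ i)) f := by
    refine (hirr.dvd_iff.1 h1).resolve_left (minpoly.not_isUnit _ _) |>.symm
  exact h3.symm.dvd.trans h2

/-- a polynomial of small degree divisible by a large power of `x` vanishes -/
theorem eq_zero_of_dvd {p : K[X]} {M : ℕ} (hp : p.natDegree < M)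
    (h : (PowerSeries.X : PowerSeries K) ^ M ∣ (p : PowerSeries K)) : p = 0 := by
  rw [PowerSeries.X_pow_dvd_iff] at h
  ext n
  rcases lt_or_ge n M with hn | hn
  · have := h n hn
    rw [Polynomial.coeff_coe] at this
    rw [this, Polynomial.coeff_zero]
  · rw [Polynomial.coeff_zero]
    exact Polynomial.coeff_eq_zero_of_natDegree_lt (lt_of_lt_of_le hp hn)

/-- the constant polynomial in `x` -/
theorem ev_mapC (c : K[X]) (φ : PowerSeries K) :
    ev (c.map C) φ = c.eval₂ PowerSeries.C φ := by
  unfold ev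
  rw [Polynomial.eval₂_map]
  congr 1
  ext a
  simp

theorem TD_mapC {c : K[X]} {D : ℕ} (hc : c.natDegree ≤ D) : TD D (c.map C) := by
  intro j hj
  rw [Polynomial.coeff_map] at hj ⊢
  rw [Polynomial.natDegree_C, Nat.zero_add]
  by_contra hlt
  push Not at hlt
  apply hj
  rw [Polynomial.coeff_eq_zero_of_natDegree_lt (by omega), Polynomial.C_0]

/-- the divided difference of `f` at `b` and `y` -/
noncomputable def dd (d : ℕ) (f : K[X][X]) (b y : PowerSeries K) : PowerSeries K :=
  ∑ l ∈ Finset.range (d + 1), ∑ k ∈ Finset.range l,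
    (f.coeff l : PowerSeries K) * (b ^ (l - 1 - k) * y ^ k)

theorem ev_eq_sum {d : ℕ} {f : K[X][X]} (hd : f.natDegree ≤ d) (y : PowerSeries K) :
    ev f y = ∑ l ∈ Finset.range (d + 1), (f.coeff l : PowerSeries K) * y ^ l := by
  unfold ev
  rw [Polynomial.eval₂_eq_sum_range' _ (Nat.lt_succ_of_le hd)]
  rfl

theorem dd_mul {d : ℕ} {f : K[X][X]} (hd : f.natDegree ≤ d) (b y : PowerSeries K) :
    (y - b) * dd d f b y = ev f y - ev f b := by
  rw [ev_eq_sum hd, ev_eq_sum hd, ← Finset.sum_sub_distrib, dd, Finset.mul_sum]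
  refine Finset.sum_congr rfl fun l _ => ?_
  rw [← mul_sub, ← (Commute.all y b).mul_geom_sum₂ l, ← Finset.mul_sum, ← mul_assoc,
    mul_comm (y - b), mul_assoc]
  congr 2
  refine Finset.sum_congr rfl fun k _ => ?_
  rw [mul_comm]

theorem dd_self {d : ℕ} {f : K[X][X]} (hd : f.natDegree ≤ d) (b : PowerSeries K) :
    dd d f b b = ev (derivative f) b := by
  have hd' : (derivative f).natDegree ≤ d := (Polynomial.natDegree_derivative_le f).trans (by omega)
  rw [dd, Finset.sum_range_succ']
  simp only [Finset.range_zero, Finset.sum_empty, add_zero]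
  have h1 : ∀ l ∈ Finset.range d, ∑ k ∈ Finset.range (l + 1),
      (f.coeff (l + 1) : PowerSeries K) * (b ^ (l + 1 - 1 - k) * b ^ k) =
      ((derivative f).coeff l : PowerSeries K) * b ^ l := by
    intro l _
    have h2 : ∀ k ∈ Finset.range (l + 1), (f.coeff (l + 1) : PowerSeries K) *
        (b ^ (l + 1 - 1 - k) * b ^ k) = (f.coeff (l + 1) : PowerSeries K) * b ^ l := by
      intro k hk
      rw [← pow_add]
      congr 2
      have := Finset.mem_range.1 hk
      omega
    rw [Finset.sum_congr rfl h2, Finset.sum_const, Finset.card_range, Polynomial.coeff_derivative,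
      nsmul_eq_mul]
    have h3 : (((f.coeff (l + 1)) * ((l : K[X]) + 1) : K[X]) : PowerSeries K) =
        (f.coeff (l + 1) : PowerSeries K) * ((l : PowerSeries K) + 1) := by
      rw [Polynomial.coe_mul, Polynomial.coe_add, Polynomial.coe_one]
      congr 2
      exact map_natCast (Polynomial.coeToPowerSeries.ringHom (R := K)) l
    rw [h3]
    push_cast
    ring
  rw [Finset.sum_congr rfl h1]
  unfold ev
  rw [Polynomial.eval₂_eq_sum_range' _ (Nat.lt_succ_of_le hd'), Finset.sum_range_succ]
  have h4 : (derivative f).coeff d = 0 := by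
    rw [Polynomial.coeff_derivative, Polynomial.coeff_eq_zero_of_natDegree_lt (by omega), zero_mul]
  rw [h4, map_zero, zero_mul, add_zero]
  rfl

theorem dd_roots {d : ℕ} {f : K[X][X]} {φ : Fin d → PowerSeries K} (hφ : IsRoots f φ)
    (h c' : Fin d → PowerSeries K) (i : Fin d) :
    ∑ j, h j * c' j * dd d f (φ j) (φ i) = h i * c' i * ev (derivative f) (φ i) := by
  have hd : f.natDegree ≤ d := by rw [hφ.natDegree_eq, Fintype.card_fin]
  rw [Finset.sum_eq_single i]
  · rw [dd_self hd]
  · intro j _ hj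
    have h1 := dd_mul (f := f) hd (φ j) (φ i)
    rw [hφ.ev_eq_zero, hφ.ev_eq_zero, sub_zero] at h1
    have h2 : φ i - φ j ≠ 0 := by
      intro h3
      apply hj
      apply hφ.inj
      show PowerSeries.constantCoeff (φ j) = PowerSeries.constantCoeff (φ i)
      rw [sub_eq_zero.1 h3]
    rw [(mul_eq_zero.1 h1).resolve_left h2, mul_zero]
  · intro hi
    exact absurd (Finset.mem_univ i) hi

/-- the polynomial of blueprint (B) -/
theorem exists_P {d N : ℕ} {f : K[X][X]} (hTD : TD d f) (hd1 : 1 ≤ d)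
    {φ : Fin d → PowerSeries K} (hφ : IsRoots f φ) (h c' : Fin d → PowerSeries K)
    (hS : ∀ n < d, ∀ m, 3 * d ≤ m → m < N →
      PowerSeries.coeff m (∑ i, h i * c' i * φ i ^ n) = 0) :
    ∃ P : K[X][X], TD (4 * d - 2) P ∧ ∀ i, (PowerSeries.X : PowerSeries K) ^ N ∣
      ev P (φ i) - h i * c' i * ev (derivative f) (φ i) := by
  set S : ℕ → PowerSeries K := fun n => ∑ i, h i * c' i * φ i ^ n with hSdef
  set T : ℕ → K[X] := fun n => PowerSeries.trunc (3 * d) (S n) with hTdef
  have hTdeg : ∀ n, (T n).natDegree ≤ 3 * d - 1 := by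
    intro n
    have := PowerSeries.natDegree_trunc_lt (S n) (3 * d - 1)
    have h3 : 3 * d - 1 + 1 = 3 * d := by omega
    rw [h3] at this
    simp only [hTdef]
    omega
  have hTS : ∀ n < d, (PowerSeries.X : PowerSeries K) ^ N ∣ (T n : PowerSeries K) - S n := by
    intro n hn
    rw [PowerSeries.X_pow_dvd_iff]
    intro m hm
    rw [map_sub, Polynomial.coeff_coe, PowerSeries.coeff_trunc]
    split_ifs with h1
    · rw [sub_self]
    · rw [zero_sub, neg_eq_zero]
      exact hS n hn m (by omega) hm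
  refine ⟨∑ l ∈ Finset.range (d + 1), ∑ k ∈ Finset.range l,
    C (f.coeff l * T (l - 1 - k)) * X ^ k, ?_, ?_⟩
  · refine TD.sum _ fun l hl => TD.sum _ fun k hk => ?_
    have hk' := Finset.mem_range.1 hk
    have hl' := Finset.mem_range.1 hl
    by_cases hfl : f.coeff l = 0
    · rw [hfl, zero_mul, C_0, zero_mul]
      intro j hj
      exact absurd (Polynomial.coeff_zero _) hj
    · refine TD.C_mul_X_pow ?_
      have h1 := hTD l hfl
      have h2 := Polynomial.natDegree_mul_le (p := f.coeff l) (q := T (l - 1 - k))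
      have h3 := hTdeg (l - 1 - k)
      omega
  · intro i
    have hev : ev (∑ l ∈ Finset.range (d + 1), ∑ k ∈ Finset.range l,
        C (f.coeff l * T (l - 1 - k)) * X ^ k) (φ i) =
        ∑ l ∈ Finset.range (d + 1), ∑ k ∈ Finset.range l,
          (f.coeff l : PowerSeries K) * ((T (l - 1 - k) : PowerSeries K) * φ i ^ k) := by
      unfold ev
      rw [Polynomial.eval₂_finsetSum]
      refine Finset.sum_congr rfl fun l _ => ?_
      rw [Polynomial.eval₂_finsetSum]
      refine Finset.sum_congr rfl fun k _ => ?_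
      rw [Polynomial.eval₂_mul, Polynomial.eval₂_C, Polynomial.eval₂_pow, Polynomial.eval₂_X,
        map_mul, mul_assoc]
      rfl
    have hG : h i * c' i * ev (derivative f) (φ i) =
        ∑ l ∈ Finset.range (d + 1), ∑ k ∈ Finset.range l,
          (f.coeff l : PowerSeries K) * (S (l - 1 - k) * φ i ^ k) := by
      rw [← dd_roots hφ h c' i]
      simp only [dd, Finset.mul_sum]
      rw [Finset.sum_comm]
      refine Finset.sum_congr rfl fun l _ => ?_
      rw [Finset.sum_comm]
      refine Finset.sum_congr rfl fun k _ => ?_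
      simp only [hSdef, Finset.sum_mul, Finset.mul_sum]
      refine Finset.sum_congr rfl fun j _ => ?_
      ring
    rw [hev, hG, ← Finset.sum_sub_distrib]
    refine Finset.dvd_sum fun l hl => ?_
    rw [← Finset.sum_sub_distrib]
    refine Finset.dvd_sum fun k hk => ?_
    have hk' := Finset.mem_range.1 hk
    have hl' := Finset.mem_range.1 hl
    rw [← mul_sub, ← sub_mul]
    exact ((hTS (l - 1 - k) (by omega)).mul_right _).mul_left _

end Ind

open Ind in
theorem functional_indep {K : Type*} [Field K] {d N : ℕ} {f : K[X][X]} (hTD : TD d f)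
    (hirr : Irreducible f)
    {φ : Fin d → PowerSeries K} (hφ : IsRoots f φ) (hN : 5 * d ^ 2 < N) (h : Fin d → K)
    (hh : ¬ ∃ a, ∀ i, h i = a) (c : K[X]) (hc : c ≠ 0) (hcd : c.natDegree < d) :
    ∃ j < N - 3 * d, ∃ n < d, PowerSeries.coeff (N - 1) (∑ i, PowerSeries.C (h i) *
      (c.eval₂ PowerSeries.C (φ i) * PowerSeries.X ^ j * φ i ^ n)) ≠ 0 := by
  classical
  by_contra hcon
  push Not at hcon
  have hd1 : 1 ≤ d := by omega
  have hNd : 3 * d < N := by nlinarith
  set c' : Fin d → PowerSeries K := fun i => c.eval₂ PowerSeries.C (φ i) with hc'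
  set H : Fin d → PowerSeries K := fun i => PowerSeries.C (h i) with hH
  have hS : ∀ n < d, ∀ m, 3 * d ≤ m → m < N →
      PowerSeries.coeff m (∑ i, H i * c' i * φ i ^ n) = 0 := by
    intro n hn m hm hmN
    have h1 := hcon (N - 1 - m) (by omega) n hn
    have h2 : ∑ i, PowerSeries.C (h i) * (c.eval₂ PowerSeries.C (φ i) *
        PowerSeries.X ^ (N - 1 - m) * φ i ^ n) =
        PowerSeries.X ^ (N - 1 - m) * ∑ i, H i * c' i * φ i ^ n := by
      rw [Finset.mul_sum]
      refine Finset.sum_congr rfl fun i _ => ?_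
      simp only [hH, hc']
      ring
    rw [h2] at h1
    obtain ⟨q, hq⟩ : ∃ q, q = N - 1 - m := ⟨_, rfl⟩
    have h3 : N - 1 = m + q := by omega
    rw [← hq, h3, PowerSeries.coeff_X_pow_mul] at h1
    exact h1
  obtain ⟨P, hPTD, hP⟩ := exists_P hTD hd1 hφ H c' hS
  set cy : K[X][X] := c.map C with hcy
  have hcyTD : TD (d - 1) cy := TD_mapC (by omega)
  have hcyev : ∀ i, ev cy (φ i) = c' i := fun i => ev_mapC c (φ i)
  have hf1 : TD (d - 1) (derivative f) := hTD.derivative
  -- the factors
  have hfacTD : ∀ v : K, TD (4 * d - 2) (P - C (C v) * (cy * derivative f)) := by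
    intro v
    refine hPTD.sub ?_
    have h1 : TD 0 (C (C v) : K[X][X]) := TD.C (by rw [natDegree_C])
    exact (h1.mul (hcyTD.mul hf1)).mono (by omega)
  have hfacev : ∀ v i, ev (P - C (C v) * (cy * derivative f)) (φ i) =
      ev P (φ i) - PowerSeries.C v * (c' i * ev (derivative f) (φ i)) := by
    intro v i
    rw [ev_sub, ev_mul, ev_mul, hcyev, ev_C, Polynomial.coe_C]
  set Q : K[X][X] := ∏ v ∈ Finset.univ.image h, (P - C (C v) * (cy * derivative f)) with hQ
  have hprodTD : ∀ s : Finset K, TD (s.card * (4 * d - 2))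
      (∏ v ∈ s, (P - C (C v) * (cy * derivative f))) := by
    intro s
    induction s using Finset.induction_on with
    | empty =>
      rw [Finset.prod_empty, Finset.card_empty, zero_mul, ← C_1]
      exact TD.C (by rw [natDegree_one])
    | insert a s ha ih =>
      rw [Finset.prod_insert ha, Finset.card_insert_of_notMem ha]
      exact ((hfacTD a).mul ih).mono (by rw [add_mul, one_mul]; omega)
  have hcard : (Finset.univ.image h).card ≤ d := by
    calc _ ≤ (Finset.univ : Finset (Fin d)).card := Finset.card_image_le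
      _ = d := by rw [Finset.card_univ, Fintype.card_fin]
  have hQTD : TD (d * (4 * d - 2)) Q := (hprodTD _).mono (Nat.mul_le_mul_right _ hcard)
  have hQdvd : ∀ i, (PowerSeries.X : PowerSeries K) ^ N ∣ ev Q (φ i) := by
    intro i
    have hmem : h i ∈ Finset.univ.image h := Finset.mem_image_of_mem _ (Finset.mem_univ i)
    have h1 : ev (P - C (C (h i)) * (cy * derivative f)) (φ i) ∣ ev Q (φ i) := by
      rw [hQ, ← Finset.mul_prod_erase _ _ hmem, ev_mul]
      exact dvd_mul_right _ _
    refine dvd_trans ?_ h1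
    rw [hfacev, ← mul_assoc]
    exact hP i
  have hTD' : TD (Fintype.card (Fin d)) f := by rw [Fintype.card_fin]; exact hTD
  -- some value of `Q` vanishes
  obtain ⟨-, q, hqdeg, hq⟩ := trace_norm hTD' hφ hQTD
  have hq0 : q = 0 := by
    refine eq_zero_of_dvd (M := N * d) ?_ ?_
    · rw [Fintype.card_fin] at hqdeg
      refine lt_of_le_of_lt hqdeg ?_
      refine Nat.mul_lt_mul_of_pos_right ?_ hd1
      refine lt_of_le_of_lt (Nat.mul_le_mul_left d (Nat.sub_le _ _)) ?_
      nlinarith
    · rw [hq, pow_mul]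
      have h1 : ∏ _i : Fin d, (PowerSeries.X : PowerSeries K) ^ N =
          (PowerSeries.X ^ N) ^ d := by
        rw [Finset.prod_const, Finset.card_univ, Fintype.card_fin]
      rw [← h1]
      exact Finset.prod_dvd_prod_of_dvd _ _ fun i _ => hQdvd i
  rw [hq0, Polynomial.coe_zero] at hq
  obtain ⟨i₀, -, hi₀⟩ := Finset.prod_eq_zero_iff.1 hq.symm
  have hfQ : f ∣ Q := dvd_of_root hirr hφ i₀ hi₀
  obtain ⟨v, -, hv⟩ := hirr.prime.exists_mem_finset_dvd (hQ ▸ hfQ)
  -- `c (φ i)` is not divisible by `x^N`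
  have hcnd : ∀ i, ¬ (PowerSeries.X : PowerSeries K) ^ N ∣ c' i := by
    intro i hdvd
    obtain ⟨-, r, hrdeg, hr⟩ := trace_norm hTD' hφ hcyTD
    have hr0 : r = 0 := by
      refine eq_zero_of_dvd (M := N) ?_ ?_
      · rw [Fintype.card_fin] at hrdeg
        refine lt_of_le_of_lt hrdeg ?_
        refine lt_of_le_of_lt (Nat.mul_le_mul_right d (Nat.sub_le _ _)) ?_
        nlinarith
      · rw [hr]
        have h1 : ev cy (φ i) ∣ ∏ j, ev cy (φ j) := Finset.dvd_prod_of_mem _ (Finset.mem_univ i)
        rw [hcyev i] at h1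
        exact hdvd.trans h1
    rw [hr0, Polynomial.coe_zero] at hr
    obtain ⟨j, -, hj⟩ := Finset.prod_eq_zero_iff.1 hr.symm
    have hfc : f ∣ cy := dvd_of_root hirr hφ j hj
    have hcy0 : cy = 0 := by
      refine Polynomial.eq_zero_of_dvd_of_natDegree_lt hfc ?_
      rw [hφ.natDegree_eq, Fintype.card_fin]
      exact lt_of_le_of_lt (Polynomial.natDegree_map_le) hcd
    apply hc
    exact (Polynomial.map_injective C C_injective) (by rw [← hcy, hcy0, Polynomial.map_zero])
  apply hh
  refine ⟨v, fun i => ?_⟩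
  by_contra hne
  have h1 : ev (P - C (C v) * (cy * derivative f)) (φ i) = 0 := by
    obtain ⟨R, hR⟩ := hv
    rw [hR, ev_mul, hφ.ev_eq_zero, zero_mul]
  rw [hfacev, sub_eq_zero] at h1
  have h2 := hP i
  rw [h1, mul_assoc, ← sub_mul, ← mul_assoc] at h2
  have h3 : (PowerSeries.X : PowerSeries K) ^ N ∣ (PowerSeries.C v - H i) * c' i :=
    ((hφ.isUnit_ev_derivative i).dvd_mul_right).1 h2
  have h4 : IsUnit (PowerSeries.C v - H i) := by
    simp only [hH]
    rw [← map_sub]
    exact (IsUnit.mk0 _ (sub_ne_zero.2 (Ne.symm hne))).map _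
  exact hcnd i ((h4.dvd_mul_left).1 h3)

end Pool.Agent.AbsIrr
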