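import Mathlib
import Pool.Agent.Lib.MP_2adc98_lc.GenRank
import Pool.Agent.Lib.MP_2adc98_lc.Spec
import Pool.Agent.Lib.MP_2adc98_lc.Indep

/-!
# M4b: the generic rank
-/

set_option autoImplicit false

namespace Pool.Agent.AbsIrr

open Polynomial

variable {K : Type*} [Field K]

private theorem gen_ev_Om {d m : ℕ} (ω : Fin d × Fin m → K) (φ : PowerSeries K) :
    ev (Om d m ω) φ = ∑ q : Fin d × Fin m,
      PowerSeries.C (ω q) * (PowerSeries.X ^ (q.2 : ℕ) * φ ^ (q.1 : ℕ)) := by
  unfold ev Om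
  rw [Polynomial.eval₂_finsetSum]
  refine Finset.sum_congr rfl fun q _ => ?_
  rw [Polynomial.eval₂_monomial, Polynomial.coeToPowerSeries.ringHom_apply,
    Polynomial.coe_monomial, PowerSeries.monomial_eq_C_mul_X_pow, mul_assoc]

private theorem gen_Zmat {d m N : ℕ} (φ : Fin d → PowerSeries K) (ω : Fin d × Fin m → K)
    (a i : Fin d) : Zmat N φ (Om d m ω) a i = ∑ q : Fin d × Fin m, ω q *
      PowerSeries.coeff (N - 1) (φ i ^ (a : ℕ) * (PowerSeries.X ^ (q.2 : ℕ) * φ i ^ (q.1 : ℕ))) := by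
  simp only [Zmat, Matrix.of_apply, gen_ev_Om, Finset.mul_sum, map_sum]
  refine Finset.sum_congr rfl fun q _ => ?_
  rw [mul_left_comm, PowerSeries.coeff_C_mul]

private theorem gen_add {d m N : ℕ} (φ : Fin d → PowerSeries K) (ω ω' : Fin d × Fin m → K) :
    Zmat N φ (Om d m (ω + ω')) = Zmat N φ (Om d m ω) + Zmat N φ (Om d m ω') := by
  ext a i
  simp only [Matrix.add_apply, gen_Zmat, Pi.add_apply, add_mul, Finset.sum_add_distrib]

private theorem gen_smul {d m N : ℕ} (φ : Fin d → PowerSeries K) (c : K)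
    (ω : Fin d × Fin m → K) :
    Zmat N φ (Om d m (c • ω)) = c • Zmat N φ (Om d m ω) := by
  ext a i
  simp only [Matrix.smul_apply, gen_Zmat, Pi.smul_apply, smul_eq_mul, Finset.mul_sum, mul_assoc]

private theorem cons_zero_add {e : ℕ} (w w' : Fin e → K) :
    (Fin.cons 0 (w + w') : Fin (e + 1) → K) =
      (Fin.cons 0 w : Fin (e + 1) → K) + (Fin.cons 0 w' : Fin (e + 1) → K) := by
  funext i
  refine Fin.cases ?_ (fun j => ?_) i <;> simp

private theorem cons_zero_smul {e : ℕ} (c : K) (w : Fin e → K) :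
    (Fin.cons 0 (c • w) : Fin (e + 1) → K) = c • (Fin.cons 0 w : Fin (e + 1) → K) := by
  funext i
  refine Fin.cases ?_ (fun j => ?_) i <;> simp

/-- the bilinear map `(ω, w) ↦ Z_ω (0, w)` -/
private noncomputable def genB (e m N : ℕ) (φ : Fin (e + 1) → PowerSeries K) :
    (Fin (e + 1) × Fin m → K) →ₗ[K] (Fin e → K) →ₗ[K] (Fin (e + 1) → K) :=
  LinearMap.mk₂ K (fun ω w => (Zmat N φ (Om (e + 1) m ω)).mulVec (Fin.cons 0 w))
    (fun ω ω' w => by rw [gen_add, Matrix.add_mulVec])
    (fun c ω w => by rw [gen_smul, Matrix.smul_mulVec])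
    (fun ω w w' => by rw [cons_zero_add, Matrix.mulVec_add])
    (fun c ω w => by rw [cons_zero_smul, Matrix.mulVec_smul])

private theorem genB_apply (e m N : ℕ) (φ : Fin (e + 1) → PowerSeries K)
    (ω : Fin (e + 1) × Fin m → K) (w : Fin e → K) :
    genB e m N φ ω w = (Zmat N φ (Om (e + 1) m ω)).mulVec (Fin.cons 0 w) := rfl

theorem exists_generic {d N : ℕ} {f : K[X][X]} [Infinite K] (hTD : TD d f) (hirr : Irreducible f)
    {φ : Fin d → PowerSeries K} (hφ : IsRoots f φ) (hN : 5 * d ^ 2 < N) :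
    ∃ ω : Fin d × Fin (N - 3 * d) → K, d ≤ (Zmat N φ (Om d (N - 3 * d) ω)).rank + 1 := by
  classical
  rcases d with _ | e
  · exact ⟨0, by simp⟩
  set m := N - 3 * (e + 1) with hm
  have hsurj : ∀ w : Fin e → K, w ≠ 0 → Function.Surjective (fun ω => genB e m N φ ω w) := by
    intro w hw
    by_contra hns
    set L : (Fin (e + 1) × Fin m → K) →ₗ[K] (Fin (e + 1) → K) := (genB e m N φ).flip w with hL
    have hlt : LinearMap.range L < ⊤ := by
      rw [lt_top_iff_ne_top]
      intro h
      exact hns (LinearMap.range_eq_top.1 h)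
    obtain ⟨F, hF0, hFL⟩ := Submodule.exists_le_ker_of_lt_top _ hlt
    set c : K[X] := ∑ a : Fin (e + 1), monomial (a : ℕ) (F (Pi.single a 1)) with hc
    have hccoeff : ∀ a : Fin (e + 1), c.coeff a = F (Pi.single a 1) := by
      intro a
      rw [hc, Polynomial.finsetSum_coeff]
      simp only [Polynomial.coeff_monomial]
      rw [Finset.sum_eq_single a]
      · simp
      · intro b _ hb
        rw [if_neg]
        intro h
        exact hb (Fin.ext h)
      · simp
    have hc0 : c ≠ 0 := by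
      intro h
      apply hF0
      refine LinearMap.pi_ext' fun a => ?_
      refine LinearMap.ext_ring ?_
      have := hccoeff a
      rw [h, Polynomial.coeff_zero] at this
      simpa using this.symm
    have hcd : c.natDegree < e + 1 := by
      refine lt_of_le_of_lt (Polynomial.natDegree_sum_le_of_forall_le (n := e) _ _ ?_)
        (Nat.lt_succ_self e)
      intro a _
      exact (Polynomial.natDegree_monomial_le _).trans (Nat.lt_succ_iff.1 a.2)
    set h : Fin (e + 1) → K := Fin.cons 0 w with hh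
    have hnc : ¬ ∃ a, ∀ i, h i = a := by
      rintro ⟨a, ha⟩
      apply hw
      funext j
      have h0 := ha 0
      have h1 := ha j.succ
      simp only [hh, Fin.cons_zero, Fin.cons_succ] at h0 h1
      rw [h1, ← h0]
      rfl
    obtain ⟨j, hj, n, hn, hne⟩ := functional_indep hTD hirr hφ hN h hnc c hc0 hcd
    apply hne
    have hker : F (L (Pi.single (⟨n, hn⟩, ⟨j, hj⟩) 1)) = 0 := hFL ⟨_, rfl⟩
    -- expand the functional
    have hFsum : ∀ u : Fin (e + 1) → K, F u = ∑ a, u a * c.coeff a := by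
      intro u
      conv_lhs => rw [pi_eq_sum_univ u, map_sum]
      refine Finset.sum_congr rfl fun a _ => ?_
      rw [map_smul, hccoeff, smul_eq_mul]
      congr 2
      funext b
      simp [Pi.single_apply, eq_comm]
    have hLa : ∀ a : Fin (e + 1), L (Pi.single (⟨n, hn⟩, ⟨j, hj⟩) 1) a =
        ∑ i, PowerSeries.coeff (N - 1) (φ i ^ (a : ℕ) * (PowerSeries.X ^ j * φ i ^ n)) * h i := by
      intro a
      change (Zmat N φ (Om (e + 1) m _)).mulVec h a = _
      rw [Matrix.mulVec, dotProduct]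
      refine Finset.sum_congr rfl fun i _ => ?_
      rw [gen_Zmat, Finset.sum_eq_single (⟨n, hn⟩, ⟨j, hj⟩)]
      · simp
      · intro q _ hq
        rw [Pi.single_eq_of_ne hq, zero_mul]
      · simp
    rw [hFsum] at hker
    simp only [hLa] at hker
    have hcev : ∀ ψ : PowerSeries K, c.eval₂ PowerSeries.C ψ =
        ∑ a : Fin (e + 1), PowerSeries.C (c.coeff a) * ψ ^ (a : ℕ) := by
      intro ψ
      conv_lhs => rw [hc, Polynomial.eval₂_finsetSum]
      refine Finset.sum_congr rfl fun a _ => ?_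
      rw [Polynomial.eval₂_monomial, hccoeff]
    rw [map_sum]
    simp only [hcev, PowerSeries.coeff_C_mul, Finset.sum_mul, map_sum, mul_assoc]
    rw [← hker, Finset.sum_congr rfl (fun i _ => Finset.mul_sum _ _ _), Finset.sum_comm]
    refine Finset.sum_congr rfl fun a _ => ?_
    rw [Finset.sum_mul]
    refine Finset.sum_congr rfl fun i _ => ?_
    ring
  obtain ⟨ω, hω⟩ := exists_injective_of_pointwise_surj (genB e m N φ) (by simp) hsurj
  refine ⟨ω, ?_⟩
  have h1 : Module.finrank K (LinearMap.range (genB e m N φ ω)) = e := by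
    rw [LinearMap.finrank_range_of_inj hω]
    simp
  have h2 : LinearMap.range (genB e m N φ ω) ≤
      LinearMap.range (Zmat N φ (Om (e + 1) m ω)).mulVecLin := by
    rintro _ ⟨w, rfl⟩
    exact ⟨_, rfl⟩
  have h3 := Submodule.finrank_mono h2
  rw [h1] at h3
  have h4 : (Zmat N φ (Om (e + 1) m ω)).rank =
      Module.finrank K (LinearMap.range (Zmat N φ (Om (e + 1) m ω)).mulVecLin) := rfl
  omega

end Pool.Agent.AbsIrr
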