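import Pool.Agent.Lib.MP_2adc98_lc.Basic
import Pool.Agent.Lib.MP_2adc98_lc.TraceNorm

/-!
# MP_2adc98: the rank of the matrix `Zmat`, and the reducible case
-/

set_option autoImplicit false

namespace Pool.Agent.AbsIrr

open Polynomial

section

variable {K : Type*} [Field K]

private theorem coeff_sum_zero {ι : Type*} [Fintype ι] {d N : ℕ} {f : K[X][X]}
    (hTD : TD (Fintype.card ι) f) {φ : ι → PowerSeries K} (hφ : IsRoots f φ)
    (hN : 5 * d ^ 2 < N) (ω : Fin d × Fin (N - 3 * d) → K) (a : Fin d) :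
    ∑ i, PowerSeries.coeff (N - 1) (φ i ^ (a : ℕ) * ev (Om d (N - 3 * d) ω) (φ i)) = 0 := by
  have h0 : TD (a : ℕ) (X ^ (a : ℕ) : K[X][X]) := by
    have h := TD.C_mul_X_pow (D := (a : ℕ)) (j := (a : ℕ)) (P := (1 : K[X])) (by simp)
    simpa using h
  have h1 := TD.mul h0 (TD_Om ω)
  obtain ⟨⟨Q, hQd, hQ⟩, _⟩ := trace_norm hTD hφ h1
  have h2 : ∑ i, ev (X ^ (a : ℕ) * Om d (N - 3 * d) ω) (φ i) =
      ∑ i, φ i ^ (a : ℕ) * ev (Om d (N - 3 * d) ω) (φ i) := by
    refine Finset.sum_congr rfl fun i _ => ?_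
    rw [ev_mul, ev_pow, ev_X]
  rw [← map_sum, ← h2, ← hQ, Polynomial.coeff_coe]
  refine Polynomial.coeff_eq_zero_of_natDegree_lt (lt_of_le_of_lt hQd ?_)
  have ha := a.2
  have hd : d ≤ d ^ 2 := Nat.le_self_pow (by norm_num) d
  omega

private theorem rank_add_card_le {d : ℕ} (A : Matrix (Fin d) (Fin d) K) {ι : Type*} [Fintype ι]
    (v : ι → Fin d → K) (hv : LinearIndependent K v) (h : ∀ i, A.mulVec (v i) = 0) :
    A.rank + Fintype.card ι ≤ d := by
  have h1 := LinearMap.finrank_range_add_finrank_ker A.mulVecLin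
  rw [Module.finrank_fintype_fun_eq_card, Fintype.card_fin] at h1
  have h2 : Fintype.card ι ≤ Module.finrank K (LinearMap.ker A.mulVecLin) := by
    have h3 : LinearIndependent K (fun i => (⟨v i, by
        rw [LinearMap.mem_ker, Matrix.mulVecLin_apply, h i]⟩ : LinearMap.ker A.mulVecLin)) :=
      LinearIndependent.of_comp (LinearMap.ker A.mulVecLin).subtype hv
    exact h3.fintype_card_le_finrank
  have h3 : A.rank = Module.finrank K (LinearMap.range A.mulVecLin) := rfl
  omega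

theorem rank_le_pred {d N : ℕ} {f : K[X][X]} (hTD : TD d f) (hd1 : 1 ≤ d)
    {φ : Fin d → PowerSeries K} (hφ : IsRoots f φ) (hN : 5 * d ^ 2 < N)
    (ω : Fin d × Fin (N - 3 * d) → K) :
    (Zmat N φ (Om d (N - 3 * d) ω)).rank + 1 ≤ d := by
  have h1 : (Zmat N φ (Om d (N - 3 * d) ω)).mulVec (fun _ => (1 : K)) = 0 := by
    funext a
    have h2 := coeff_sum_zero (f := f) (by rw [Fintype.card_fin]; exact hTD) hφ hN ω a
    simpa [Matrix.mulVec, dotProduct, Zmat] using h2
  have h2 := rank_add_card_le (Zmat N φ (Om d (N - 3 * d) ω)) (ι := Unit)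
    (fun _ => fun _ => (1 : K)) ?_ (fun _ => h1)
  · simpa using h2
  · rw [linearIndependent_unique_iff]
    intro h
    have := congrFun h ⟨0, hd1⟩
    simp at this

/-- the factors of `f` and subsets of the roots -/
private theorem roots_of_mul {d : ℕ} {f f₁ f₂ : K[X][X]} {φ : Fin d → PowerSeries K}
    (hφ : IsRoots f φ) (h₁ : f₁.Monic) (h₂ : f₂.Monic) (hf : f₁ * f₂ = f) :
    ∃ t u : Finset (Fin d), t ∪ u = Finset.univ ∧ Disjoint t u ∧
      IsRoots f₁ (fun i : t => φ i) ∧ IsRoots f₂ (fun i : u => φ i) := by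
  classical
  have hp : ∀ i ∈ (Finset.univ : Finset (Fin d)), Prime (X - C (φ i)) :=
    fun i _ => Polynomial.prime_X_sub_C (φ i)
  have hx : f₁.map Polynomial.coeToPowerSeries.ringHom *
      f₂.map Polynomial.coeToPowerSeries.ringHom = 1 * ∏ i, (X - C (φ i)) := by
    rw [one_mul, ← Polynomial.map_mul, hf, hφ.prod]
  obtain ⟨t, u, b, c, htu, hdisj, hbc, hb, hc⟩ := mul_eq_mul_prime_prod hp hx
  have key : ∀ (b c : (PowerSeries K)[X]) (s : Finset (Fin d)) (g : K[X][X]), 1 = b * c →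
      g.Monic → g.map Polynomial.coeToPowerSeries.ringHom = b * ∏ i ∈ s, (X - C (φ i)) →
      IsRoots g (fun i : s => φ i) := by
    intro b c s g hbc hg h
    have hmon : (∏ i ∈ s, (X - C (φ i)) : (PowerSeries K)[X]).Monic :=
      monic_prod_of_monic _ _ fun i _ => monic_X_sub_C _
    have hgm := hg.map (Polynomial.coeToPowerSeries.ringHom (R := K))
    have hb1 : b.natDegree = 0 := by
      have hu : IsUnit b := IsUnit.of_mul_eq_one c hbc.symm
      exact Polynomial.natDegree_eq_zero_of_isUnit hu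
    have hb2 : b.leadingCoeff = 1 := by
      have h3 := congrArg Polynomial.leadingCoeff h
      rw [Polynomial.leadingCoeff_mul, hgm.leadingCoeff, hmon.leadingCoeff, mul_one] at h3
      exact h3.symm
    have hb3 : b = 1 := by
      rw [Polynomial.eq_C_of_natDegree_eq_zero hb1]
      rw [Polynomial.leadingCoeff, hb1] at hb2
      rw [hb2, C_1]
    constructor
    · rw [h, hb3, one_mul]
      exact (Finset.prod_coe_sort s (fun i => (X - C (φ i) : (PowerSeries K)[X]))).symm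
    · intro i j hij
      exact Subtype.ext (hφ.inj hij)
  refine ⟨t, u, htu, hdisj, key b c t f₁ hbc h₁ hb, key c b u f₂ (by rw [mul_comm]; exact hbc) h₂
    hc⟩

theorem rank_reducible {d N : ℕ} {f : K[X][X]} (hTD : TD d f) (hd1 : 1 ≤ d)
    {φ : Fin d → PowerSeries K} (hφ : IsRoots f φ) (hN : 5 * d ^ 2 < N)
    (hred : ¬ Irreducible f) (ω : Fin d × Fin (N - 3 * d) → K) :
    (Zmat N φ (Om d (N - 3 * d) ω)).rank + 2 ≤ d := by
  classical
  have hfm := hφ.monic
  have hfd : f.natDegree = d := by rw [hφ.natDegree_eq, Fintype.card_fin]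
  have hf1 : f ≠ 1 := by
    rintro rfl
    rw [natDegree_one] at hfd
    omega
  rw [hfm.irreducible_iff_natDegree] at hred
  push Not at hred
  obtain ⟨f₁, f₂, h₁, h₂, hf, hn₁, hn₂⟩ := hred hf1
  obtain ⟨t, u, htu, hdisj, ht, hu⟩ := roots_of_mul hφ h₁ h₂ hf
  have hTD₁ := TD.of_mul h₁ h₂ hf.symm hfd hTD
  have hTD₂ := TD.of_mul h₂ h₁ (by rw [mul_comm, hf]) hfd hTD
  rw [ht.natDegree_eq] at hTD₁ hn₁
  rw [hu.natDegree_eq] at hTD₂ hn₂
  have hker : ∀ (s : Finset (Fin d)) (g : K[X][X]), TD (Fintype.card s) g →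
      IsRoots g (fun i : s => φ i) →
      (Zmat N φ (Om d (N - 3 * d) ω)).mulVec (fun i => if i ∈ s then (1 : K) else 0) = 0 := by
    intro s g hg hs
    funext a
    have h2 := coeff_sum_zero hg hs hN ω a
    rw [Finset.sum_coe_sort s (fun i => PowerSeries.coeff (N - 1)
      (φ i ^ (a : ℕ) * ev (Om d (N - 3 * d) ω) (φ i)))] at h2
    simp only [Matrix.mulVec, dotProduct, Zmat, Matrix.of_apply, mul_ite, mul_one, mul_zero,
      Finset.sum_ite_mem, Finset.univ_inter, Pi.zero_apply]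
    exact h2
  obtain ⟨i₁, hi₁⟩ : t.Nonempty := by
    rw [← Finset.card_pos, ← Fintype.card_coe]
    omega
  obtain ⟨i₂, hi₂⟩ : u.Nonempty := by
    rw [← Finset.card_pos, ← Fintype.card_coe]
    omega
  have h2 := rank_add_card_le (Zmat N φ (Om d (N - 3 * d) ω)) (ι := Fin 2)
    ![fun i => if i ∈ t then (1 : K) else 0, fun i => if i ∈ u then (1 : K) else 0] ?_ ?_
  · simpa using h2
  · rw [LinearIndependent.pair_iff]
    intro x y hxy
    have e1 := congrFun hxy i₁
    have e2 := congrFun hxy i₂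
    have n1 : i₁ ∉ u := Finset.disjoint_left.1 hdisj hi₁
    have n2 : i₂ ∉ t := Finset.disjoint_right.1 hdisj hi₂
    simp [hi₁, n1] at e1
    simp [hi₂, n2] at e2
    exact ⟨e1, e2⟩
  · intro i
    fin_cases i
    · exact hker t f₁ hTD₁ ht
    · exact hker u f₂ hTD₂ hu

end

end Pool.Agent.AbsIrr
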