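import Mathlib
import Pool.Agent.Lib.MP_2adc98_lc.Spec

/-!
# M1a: Hensel's lemma in `k⟦x⟧`, a monic polynomial splits
-/

set_option autoImplicit false

namespace Pool.Agent.AbsIrr

open Polynomial

section
variable {k : Type*} [Field k]

private theorem at0_eq_map (f : k[X][X]) :
    at0 f = (f.map Polynomial.coeToPowerSeries.ringHom).map PowerSeries.constantCoeff := by
  rw [at0, Polynomial.map_map]
  congr 1
  ext a
  · simp
  · simp

private theorem hensel_root {f : k[X][X]} (hf : f.Monic) {α : k} (hα : (at0 f).eval α = 0)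
    (hα' : (derivative (at0 f)).eval α ≠ 0) :
    ∃ φ : PowerSeries k, (f.map Polynomial.coeToPowerSeries.ringHom).IsRoot φ ∧
      PowerSeries.constantCoeff φ = α := by
  set F : (PowerSeries k)[X] := f.map Polynomial.coeToPowerSeries.ringHom with hF
  have hFm : F.Monic := hf.map _
  have hev : ∀ (P : (PowerSeries k)[X]), PowerSeries.constantCoeff (P.eval (PowerSeries.C α)) =
      (P.map PowerSeries.constantCoeff).eval α := by
    intro P
    have h := Polynomial.eval₂_at_apply (PowerSeries.constantCoeff (R := k)) (PowerSeries.C α)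
      (p := P)
    rw [PowerSeries.constantCoeff_C] at h
    rw [Polynomial.eval_map, h]
  have h1 : F.eval (PowerSeries.C α) ∈ Ideal.span {(PowerSeries.X : PowerSeries k)} := by
    rw [Ideal.mem_span_singleton, PowerSeries.X_dvd_iff, hev, ← at0_eq_map, hα]
  have h2 : IsUnit (Ideal.Quotient.mk (Ideal.span {(PowerSeries.X : PowerSeries k)})
      (F.derivative.eval (PowerSeries.C α))) := by
    apply IsUnit.map
    rw [PowerSeries.isUnit_iff_constantCoeff, hev, ← Polynomial.derivative_map, ← at0_eq_map]
    exact isUnit_iff_ne_zero.2 hα'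
  obtain ⟨φ, hφ1, hφ2⟩ := HenselianRing.is_henselian F hFm (PowerSeries.C α) h1 h2
  refine ⟨φ, hφ1, ?_⟩
  rw [Ideal.mem_span_singleton, PowerSeries.X_dvd_iff, map_sub,
    PowerSeries.constantCoeff_C, sub_eq_zero] at hφ2
  exact hφ2

end

theorem exists_roots {k : Type*} [Field k] [IsAlgClosed k] {f : k[X][X]} (hf : f.Monic)
    (hs : (at0 f).Separable) : ∃ φ : Fin f.natDegree → PowerSeries k, IsRoots f φ := by
  classical
  have hm : (at0 f).Monic := hf.map _
  have hdeg : (at0 f).natDegree = f.natDegree := hf.natDegree_map _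
  have hcard : (at0 f).roots.toFinset.card = f.natDegree := by
    rw [Multiset.toFinset_card_of_nodup (Polynomial.nodup_roots hs), ← hdeg]
    exact (IsAlgClosed.splits (at0 f)).natDegree_eq_card_roots.symm
  let e : Fin f.natDegree ≃ (at0 f).roots.toFinset := (Finset.equivFinOfCardEq hcard).symm
  have hroot : ∀ i, ∃ φ : PowerSeries k, (f.map Polynomial.coeToPowerSeries.ringHom).IsRoot φ ∧
      PowerSeries.constantCoeff φ = (e i : k) := by
    intro i
    have h1 : (at0 f).IsRoot (e i : k) := by
      have := (e i).2
      rw [Multiset.mem_toFinset, Polynomial.mem_roots hm.ne_zero] at this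
      exact this
    exact hensel_root hf h1 (hs.eval₂_derivative_ne_zero (RingHom.id k) h1)
  choose φ hφ1 hφ2 using hroot
  have hinj : Function.Injective fun i => PowerSeries.constantCoeff (φ i) := by
    intro i j hij
    simp only [hφ2] at hij
    exact e.injective (Subtype.ext hij)
  have hφinj : Function.Injective φ := fun i j hij => hinj (by simp only [hij])
  have hFm : (f.map Polynomial.coeToPowerSeries.ringHom).Monic := hf.map _
  have hFd : (f.map Polynomial.coeToPowerSeries.ringHom).natDegree = f.natDegree :=
    hf.natDegree_map _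
  have hle : Finset.univ.val.map φ ≤ (f.map Polynomial.coeToPowerSeries.ringHom).roots := by
    rw [Multiset.le_iff_subset ((Multiset.nodup_map_iff_of_injective hφinj).2 Finset.univ.nodup)]
    intro a ha
    rw [Multiset.mem_map] at ha
    obtain ⟨i, -, rfl⟩ := ha
    exact (Polynomial.mem_roots hFm.ne_zero).2 (hφ1 i)
  have hroots : Finset.univ.val.map φ = (f.map Polynomial.coeToPowerSeries.ringHom).roots := by
    apply Multiset.eq_of_le_of_card_le hle
    refine (Polynomial.card_roots' _).trans ?_
    rw [hFd, Multiset.card_map]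
    simp
  refine ⟨φ, ?_, hinj⟩
  rw [← Polynomial.prod_multiset_X_sub_C_of_monic_of_roots_card_eq hFm]
  · rw [← hroots, Multiset.map_map]
    rfl
  · rw [← hroots, hFd]
    simp

end Pool.Agent.AbsIrr
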