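import Mathlib
import Pool.Agent.Lib.MP_2adc98_lc.Spec
import Pool.Agent.Lib.MP_2adc98_lc.Basic
import Pool.Agent.Lib.MP_2adc98_lc.Roots
import Pool.Agent.Lib.MP_2adc98_lc.Reducible
import Pool.Agent.Lib.MP_2adc98_lc.Generic
import Pool.Agent.Lib.MP_2adc98_lc.Bridge

/-!
# MathMain (M12): soundness and completeness of the rank test
-/

set_option autoImplicit false

namespace Pool.Agent.AbsIrr

open Polynomial

section
variable {K : Type*} [Field K]

namespace MathMainAux

variable {k : Type*} [Field k] (σ : K →+* k)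

theorem at0_map (f : K[X][X]) : at0 (f.map (mapRingHom σ)) = (at0 f).map σ := by
  rw [at0, at0, Polynomial.map_map, Polynomial.map_map]
  congr 1
  ext
  · simp
  · simp

theorem TD_map {D : ℕ} {f : K[X][X]} (hf : TD D f) : TD D (f.map (mapRingHom σ)) := by
  intro j hj
  rw [coeff_map, coe_mapRingHom] at hj ⊢
  have h0 : f.coeff j ≠ 0 := by
    intro h0; rw [h0, Polynomial.map_zero] at hj; exact hj rfl
  have := hf j h0
  have h1 : ((f.coeff j).map σ).natDegree ≤ (f.coeff j).natDegree := natDegree_map_le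
  omega

theorem Om_map {d m : ℕ} (ω : Fin d × Fin m → K) :
    (Om d m ω).map (mapRingHom σ) = Om d m (fun i => σ (ω i)) := by
  rw [Om, Om, Polynomial.map_sum]
  refine Finset.sum_congr rfl fun q _ => ?_
  rw [map_monomial, coe_mapRingHom, map_monomial]

theorem Om_add {d m : ℕ} (ω ω' : Fin d × Fin m → K) :
    Om d m (ω + ω') = Om d m ω + Om d m ω' := by
  rw [Om, Om, Om, ← Finset.sum_add_distrib]
  refine Finset.sum_congr rfl fun q _ => ?_
  rw [Pi.add_apply, map_add, map_add]

theorem Om_smul {d m : ℕ} (a : K) (ω : Fin d × Fin m → K) :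
    Om d m (a • ω) = C (C a) * Om d m ω := by
  rw [Om, Om, Finset.mul_sum]
  refine Finset.sum_congr rfl fun q _ => ?_
  rw [Pi.smul_apply, smul_eq_mul, C_mul_monomial, C_mul_monomial]

theorem ev_add (P Q : K[X][X]) (φ : PowerSeries K) : ev (P + Q) φ = ev P φ + ev Q φ := by
  rw [ev, ev, ev, eval₂_add]

theorem ev_CC_mul (a : K) (P : K[X][X]) (φ : PowerSeries K) :
    ev (C (C a) * P) φ = PowerSeries.C a * ev P φ := by
  rw [ev, ev, eval₂_mul, eval₂_C]
  congr 1
  simp

/-- `Z` as a linear map in the coefficients -/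
noncomputable def Zlin (N : ℕ) {d : ℕ} (m : ℕ) (φ : Fin d → PowerSeries K) :
    (Fin d × Fin m → K) →ₗ[K] Matrix (Fin d) (Fin d) K where
  toFun ω := Zmat N φ (Om d m ω)
  map_add' ω ω' := by
    ext a i
    simp only [Zmat, Matrix.of_apply, Matrix.add_apply, Om_add, ev_add, mul_add, map_add]
  map_smul' c ω := by
    ext a i
    simp only [Zmat, Matrix.of_apply, Matrix.smul_apply, Om_smul, ev_CC_mul, RingHom.id_apply,
      smul_eq_mul]
    rw [mul_left_comm, PowerSeries.coeff_C_mul]

theorem exists_roots_cast {k : Type*} [Field k] [IsAlgClosed k] {f : k[X][X]} (hf : f.Monic)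
    (hs : (at0 f).Separable) {d : ℕ} (hd : f.natDegree = d) :
    ∃ φ : Fin d → PowerSeries k, IsRoots f φ := by
  subst hd
  exact exists_roots hf hs

end MathMainAux

open MathMainAux

/-! ## M12 (MathMain.lean): what the assembly uses -/

section
variable {k : Type*} [Field k] [IsAlgClosed k] [Algebra K k] {p : ℕ} [CharP K p]
    [Fact p.Prime] {d N e M₁ M : ℕ} (hd : 1 ≤ d) (hN : 5 * d ^ 2 < N) (hqN : N ≤ p ^ e * M₁)
    (hM₁ : 1 ≤ M₁) (hM₁p : M₁ ≤ p) (hM : M₁ ≤ M) {f : K[X][X]} (hf : f.Monic)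
    (hfd : f.natDegree = d) (hTD : TD d f) (hsep : (at0 f).Separable)
    {g v : K[X]} (hg : g = (at0 f).map (iterateFrobenius K p e))
    (hv : ∃ u, v * derivative g + u * g = 1)
    (t : (Fin d × Fin (N - 3 * d) → K) → Fin d → ℕ → K[X])
    (ht : ∀ ω, ∀ a : Fin d, Digits d M g (sec N d (p ^ e) f (Om d (N - 3 * d) ω) a) (t ω a))
include hd hN hqN hM₁ hM₁p hM hf hfd hTD hsep hg hv ht

/-- the test never accepts a polynomial which is not absolutely irreducible -/
theorem sound (hred : ¬ Irreducible (f.map (mapRingHom (algebraMap K k))))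
    (ω : Fin d × Fin (N - 3 * d) → K) :
    (Matrix.of fun (a j : Fin d) => (herm g v (t ω a) M (M - 1)).coeff j).rank ≠ d - 1 := by
  obtain ⟨φ, hφ⟩ : ∃ φ : Fin d → PowerSeries k, IsRoots (f.map (mapRingHom (algebraMap K k))) φ := by
    refine exists_roots_cast (hf.map _) ?_ ?_
    · rw [MathMainAux.at0_map]; exact hsep.map
    · rw [hf.natDegree_map]; exact hfd
  rw [bridge hd hN hqN hM₁ hM₁p hM hφ (Om_natDegree_lt (by omega) ω) hg hv (t ω) (ht ω), Om_map]
  have := rank_reducible (TD_map (algebraMap K k) hTD) hd hφ hN hred (fun i => (algebraMap K k) (ω i))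
  omega

/-- the test accepts absolutely irreducible polynomials with high probability -/
theorem complete (hirr : Irreducible (f.map (mapRingHom (algebraMap K k)))) (S : Finset K) :
    open Classical in
    ((Fintype.piFinset fun _ : Fin d × Fin (N - 3 * d) => S).filter fun ω =>
      (Matrix.of fun (a j : Fin d) => (herm g v (t ω a) M (M - 1)).coeff j).rank ≠ d - 1).card *
        S.card ≤ d * S.card ^ (d * (N - 3 * d)) := by
  classical
  obtain ⟨φ, hφ⟩ : ∃ φ : Fin d → PowerSeries k, IsRoots (f.map (mapRingHom (algebraMap K k))) φ := by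
    refine exists_roots_cast (hf.map _) ?_ ?_
    · rw [MathMainAux.at0_map]; exact hsep.map
    · rw [hf.natDegree_map]; exact hfd
  have : Infinite k := IsAlgClosed.instInfinite
  obtain ⟨ω0, hω0⟩ := exists_generic (TD_map (algebraMap K k) hTD) hirr hφ hN
  have h1 := card_rank_lt_mul_le (K := K) (Zlin N (N - 3 * d) φ) (d - 1)
    ⟨ω0, by change d - 1 ≤ (Zmat N φ (Om d (N - 3 * d) ω0)).rank; omega⟩ S
  rw [Fintype.card_prod, Fintype.card_fin, Fintype.card_fin] at h1
  refine le_trans (le_trans (Nat.mul_le_mul_right _ (Finset.card_le_card ?_)) h1) ?_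
  · intro ω hω
    rw [Finset.mem_filter] at hω ⊢
    refine ⟨hω.1, ?_⟩
    have h2 := hω.2
    rw [bridge hd hN hqN hM₁ hM₁p hM hφ (Om_natDegree_lt (by omega) ω) hg hv (t ω) (ht ω),
      Om_map] at h2
    have h3 := rank_le_pred (TD_map (algebraMap K k) hTD) hd hφ hN (fun i => (algebraMap K k) (ω i))
    change (Zmat N φ (Om d (N - 3 * d) fun i => (algebraMap K k) (ω i))).rank < d - 1
    omega
  · exact Nat.mul_le_mul_right _ (Nat.sub_le _ _)

end

end

end Pool.Agent.AbsIrr
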