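import Mathlib
import Pool.Agent.Lib.MP_2adc98_lc.Spec

/-!
# MP_2adc98, piece M11: the digits computed by divide and conquer
-/

set_option autoImplicit false

namespace Pool.Agent.AbsIrr

open Polynomial

section
variable {K : Type*} [Field K]

private theorem reflect_pow' {d : ℕ} {g : K[X]} (hg : g.natDegree ≤ d) (e : ℕ) :
    reflect (e * d) (g ^ e) = (reflect d g) ^ e := by
  induction e with
  | zero => simp
  | succ e ih =>
    rw [pow_succ, pow_succ, ← ih, Nat.succ_mul]
    refine reflect_mul _ _ ?_ hg
    exact natDegree_pow_le_of_le e hg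

private theorem natDegree_le_of_degree_lt {A : K[X]} {m : ℕ} (h : A.degree < (m : ℕ)) :
    A.natDegree ≤ m - 1 := by
  by_cases h0 : A = 0
  · simp [h0]
  · rw [degree_eq_natDegree h0] at h
    have : A.natDegree < m := by exact_mod_cast h
    omega

private theorem block_merge {d e : ℕ} (hd : 1 ≤ d) (he : 1 ≤ e) {g : K[X]} (hgd : g.natDegree = d)
    (s : ℕ → K) {A B : K[X]} (hA : IsBlock d e g s A)
    (hB : IsBlock d e g (fun n => PowerSeries.coeff (n + e * d)
        (PowerSeries.mk s * ((reflect d g : K[X]) : PowerSeries K) ^ e)) B) :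
    IsBlock d (2 * e) g s (A * g ^ e + B) := by
  set G : PowerSeries K := ((reflect d g : K[X]) : PowerSeries K) with hG
  set U : PowerSeries K := PowerSeries.mk s * G ^ e with hU
  have hed : 1 ≤ e * d := Nat.mul_pos he hd
  have hAd := natDegree_le_of_degree_lt hA.1
  have hBd := natDegree_le_of_degree_lt hB.1
  have hge : (g ^ e).natDegree ≤ e * d := natDegree_pow_le_of_le e hgd.le
  constructor
  · have h1 : (A * g ^ e).degree < ((2 * e * d : ℕ) : WithBot ℕ) := by
      by_cases h0 : A = 0
      · rw [h0, zero_mul, degree_zero]
        exact WithBot.bot_lt_coe _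
      · by_cases h1 : A * g ^ e = 0
        · rw [h1, degree_zero]
          exact WithBot.bot_lt_coe _
        rw [degree_eq_natDegree h1]
        have h2 : (A * g ^ e).natDegree ≤ e * d - 1 + e * d :=
          natDegree_mul_le.trans (add_le_add hAd hge)
        have h3 : 2 * e * d = e * d + e * d := by ring
        exact_mod_cast (by omega : (A * g ^ e).natDegree < 2 * e * d)
    refine (degree_add_le _ _).trans_lt (max_lt h1 (hB.1.trans_le ?_))
    have h3 : e * d ≤ 2 * e * d := by nlinarith
    exact_mod_cast h3
  · intro n hn
    have e0 : 2 * e * d = e * d + e * d := by ring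
    -- splitting of `U`
    have hsplit : U = ((reflect (e * d - 1) A : K[X]) : PowerSeries K) +
        PowerSeries.X ^ (e * d) * PowerSeries.mk (fun n => PowerSeries.coeff (n + e * d) U) := by
      ext m
      rw [map_add, PowerSeries.coeff_X_pow_mul', Polynomial.coeff_coe]
      by_cases hm : m < e * d
      · rw [if_neg (by omega), add_zero, hA.2 m hm]
      · rw [if_pos (by omega), PowerSeries.coeff_mk, Nat.sub_add_cancel (by omega)]
        have : (reflect (e * d - 1) A).coeff m = 0 := by
          rw [coeff_reflect, revAt_eq_self_of_lt (by omega)]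
          exact coeff_eq_zero_of_natDegree_lt (by omega)
        rw [this, zero_add]
    have h1 : PowerSeries.mk s * G ^ (2 * e) =
        ((reflect (e * d - 1) A * (reflect d g) ^ e : K[X]) : PowerSeries K) +
          PowerSeries.X ^ (e * d) *
            (PowerSeries.mk (fun n => PowerSeries.coeff (n + e * d) U) * G ^ e) := by
      have h2 : PowerSeries.mk s * G ^ (2 * e) = U * G ^ e := by
        rw [hU, two_mul, pow_add, mul_assoc]
      rw [h2]
      conv_lhs => rw [hsplit]
      rw [Polynomial.coe_mul, Polynomial.coe_pow]
      ring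
    have h2 : reflect (2 * e * d - 1) (A * g ^ e) =
        reflect (e * d - 1) A * (reflect d g) ^ e := by
      have : 2 * e * d - 1 = (e * d - 1) + e * d := by omega
      rw [this, reflect_mul _ _ hAd hge, reflect_pow' hgd.le]
    have h3 : reflect (2 * e * d - 1) B = X ^ (e * d) * reflect (e * d - 1) B := by
      have : 2 * e * d - 1 = e * d + (e * d - 1) := by omega
      rw [this]
      have h4 := reflect_mul (1 : K[X]) B (F := e * d) (G := e * d - 1) (by simp) hBd
      rwa [one_mul, reflect_one] at h4
    rw [h1, reflect_add, h2, h3, map_add, coeff_add, Polynomial.coeff_coe]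
    congr 1
    rw [PowerSeries.coeff_X_pow_mul', coeff_X_pow_mul']
    by_cases hm : e * d ≤ n
    · rw [if_pos hm, if_pos hm]
      exact hB.2 (n - e * d) (by omega)
    · rw [if_neg hm, if_neg hm]

theorem split_digits {d : ℕ} (hd : 1 ≤ d) {g : K[X]} (hg : g.Monic) (hgd : g.natDegree = d)
    (j : ℕ) (s : ℕ → K) : Digits d (2 ^ j) g s (split d g j s) := by
  have _ := hg
  induction j generalizing s with
  | zero =>
    have hdeg : (split d g 0 s 1).degree < (d : ℕ) := by
      rw [split]
      rw [degree_lt_iff_coeff_zero]
      intro m hm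
      rw [coeff_reflect, revAt_eq_self_of_lt (by omega), PowerSeries.coeff_trunc, if_neg (by omega)]
    refine ⟨?_, ?_, ?_⟩
    · intro l _
      exact hdeg
    · simp only [pow_zero, Finset.Icc_self, Finset.sum_singleton, Nat.sub_self, mul_one, one_mul]
      exact hdeg
    · intro n hn
      simp only [pow_zero, Finset.Icc_self, Finset.sum_singleton, Nat.sub_self, mul_one, one_mul,
        pow_one] at hn ⊢
      rw [split, reflect_reflect, PowerSeries.coeff_trunc, if_pos hn]
  | succ j ih =>
    set e := 2 ^ j with he
    have he1 : 1 ≤ e := Nat.one_le_two_pow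
    have he2 : 2 ^ (j + 1) = 2 * e := by rw [he, pow_succ]; ring
    set s' : ℕ → K := fun n => PowerSeries.coeff (n + e * d)
        (PowerSeries.mk s * ((reflect d g : K[X]) : PowerSeries K) ^ e) with hs'
    have h1 := ih s
    have h2 := ih s'
    have hsp : ∀ l, split d g (j + 1) s l = if l ≤ e then split d g j s l else
        split d g j s' (l - e) := fun l => rfl
    rw [he2]
    constructor
    · intro l hl
      rw [Finset.mem_Icc] at hl
      rw [hsp]
      split_ifs with h3
      · exact h1.1 l (Finset.mem_Icc.2 ⟨hl.1, h3⟩)
      · exact h2.1 (l - e) (Finset.mem_Icc.2 ⟨by omega, by omega⟩)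
    · have hsum : ∑ l ∈ Finset.Icc 1 (2 * e), split d g (j + 1) s l * g ^ (2 * e - l) =
          (∑ l ∈ Finset.Icc 1 e, split d g j s l * g ^ (e - l)) * g ^ e +
            ∑ l ∈ Finset.Icc 1 e, split d g j s' l * g ^ (e - l) := by
        have hun : Finset.Icc 1 (2 * e) = Finset.Icc 1 e ∪ Finset.Icc (e + 1) (2 * e) := by
          ext l; simp only [Finset.mem_union, Finset.mem_Icc]; omega
        have hdis : Disjoint (Finset.Icc 1 e) (Finset.Icc (e + 1) (2 * e)) := by
          rw [Finset.disjoint_left]
          intro l h3 h4
          rw [Finset.mem_Icc] at h3 h4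
          omega
        rw [hun, Finset.sum_union hdis, Finset.sum_mul]
        congr 1
        · refine Finset.sum_congr rfl fun l hl => ?_
          rw [Finset.mem_Icc] at hl
          rw [hsp, if_pos hl.2, mul_assoc, ← pow_add]
          congr 2
          omega
        · have him : Finset.Icc (e + 1) (2 * e) = (Finset.Icc 1 e).image (· + e) := by
            ext l
            simp only [Finset.mem_Icc, Finset.mem_image]
            constructor
            · intro h3; exact ⟨l - e, by omega, by omega⟩
            · rintro ⟨a, h3, rfl⟩; omega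
          rw [him, Finset.sum_image (fun a _ b _ h => by simpa using h)]
          refine Finset.sum_congr rfl fun l hl => ?_
          rw [Finset.mem_Icc] at hl
          rw [hsp, if_neg (by omega), Nat.add_sub_cancel]
          congr 2
          omega
      rw [hsum]
      exact block_merge hd he1 hgd s h1.2 h2.2

end

end Pool.Agent.AbsIrr
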