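import Mathlib
import Pool.Agent.Lib.MP_2adc98_lc.ADefs

/-!
# MP_2adc98_lc: Gaussian elimination (Wedderburn reduction), the rank
-/

set_option autoImplicit false

namespace Pool.Agent.AbsIrr

open Finset Polynomial

section
variable {K : Type} [Field K]

open Classical in
/-- the pivot in column `j`: the last row `i < n` with a nonzero entry, or `n` -/
noncomputable def gaPiv (n w : ℕ) (M : ℕ → K) (j : ℕ) : ℕ :=
  iterF n n (fun s i => if M (i * w + j) = 0 then s else i)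

/-- the elimination with pivot `(p, j)`, if `p < n` -/
noncomputable def gaElim (n m w : ℕ) (M : ℕ → K) (j p : ℕ) : ℕ → K :=
  if p < n then tabF (m * w) (fun N => M N - M (N / w * w + j) * M (p * w + N % w) / M (p * w + j))
  else M

open Classical in
theorem gaPiv_aux (n w : ℕ) (M : ℕ → K) (j k : ℕ) :
    (iterF k n (fun s i => if M (i * w + j) = 0 then s else i) = n ∧
      ∀ i < k, M (i * w + j) = 0) ∨
    (iterF k n (fun s i => if M (i * w + j) = 0 then s else i) < k ∧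
      M (iterF k n (fun s i => if M (i * w + j) = 0 then s else i) * w + j) ≠ 0) := by
  induction k with
  | zero => left; simp
  | succ k ih =>
    rw [iterF_succ]
    by_cases h : M (k * w + j) = 0
    · rw [if_pos h]
      rcases ih with ⟨h1, h2⟩ | ⟨h1, h2⟩
      · left
        refine ⟨h1, fun i hi => ?_⟩
        rcases Nat.lt_succ_iff_lt_or_eq.1 hi with h3 | h3
        · exact h2 i h3
        · rw [h3]; exact h
      · right
        exact ⟨by omega, h2⟩
    · rw [if_neg h]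
      right
      exact ⟨by omega, h⟩

theorem gaPiv_spec (n w : ℕ) (M : ℕ → K) (j : ℕ) :
    (gaPiv n w M j = n ∧ ∀ i < n, M (i * w + j) = 0) ∨
    (gaPiv n w M j < n ∧ M (gaPiv n w M j * w + j) ≠ 0) := gaPiv_aux n w M j n

theorem gaElim_apply {n m w : ℕ} (M : ℕ → K) {j p r c : ℕ} (hp : p < n) (hr : r < m) (hc : c < w) :
    gaElim n m w M j p (r * w + c) =
      M (r * w + c) - M (r * w + j) * M (p * w + c) / M (p * w + j) := by
  have hw : 0 < w := by omega
  have h1 : (r * w + c) / w = r := by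
    rw [mul_comm, Nat.mul_add_div hw, Nat.div_eq_of_lt hc, add_zero]
  have h2 : (r * w + c) % w = c := by
    rw [mul_comm, Nat.mul_add_mod, Nat.mod_eq_of_lt hc]
  have h3 : r * w + c < m * w := by
    calc r * w + c < r * w + w := by omega
      _ = (r + 1) * w := by ring
      _ ≤ m * w := Nat.mul_le_mul_right _ hr
  unfold gaElim tabF
  rw [if_pos hp, if_pos h3]
  beta_reduce
  rw [h1, h2]

/-- Wedderburn reduction -/
theorem ga_wedderburn {n k : ℕ} (A A' : Matrix (Fin n) (Fin k) K) (i : Fin n) (j : Fin k)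
    (hij : A i j ≠ 0) (hA' : ∀ r c, A' r c = A r c - A r j * A i c / A i j) :
    LinearMap.range A'.mulVecLin =
      LinearMap.range A.mulVecLin ⊓ LinearMap.ker (LinearMap.proj (R := K) (φ := fun _ => K) i) ∧
    A'.rank + 1 = A.rank := by
  have h1 : ∀ x, A'.mulVec x = A.mulVec x - (A.mulVec x i / A i j) • A.mulVec (Pi.single j 1) := by
    intro x
    ext r
    rw [Pi.sub_apply, Pi.smul_apply, Matrix.mulVec_single_one]
    simp only [Matrix.mulVec, dotProduct, Matrix.col_apply, smul_eq_mul]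
    rw [Finset.sum_div, Finset.sum_mul, ← Finset.sum_sub_distrib]
    refine Finset.sum_congr rfl fun c _ => ?_
    rw [hA']
    field_simp
  have hcol : A.mulVec (Pi.single j 1) i = A i j := by
    rw [Matrix.mulVec_single_one]; rfl
  have hrange : LinearMap.range A'.mulVecLin = LinearMap.range A.mulVecLin ⊓
      LinearMap.ker (LinearMap.proj (R := K) (φ := fun _ => K) i) := by
    apply le_antisymm
    · rintro _ ⟨x, rfl⟩
      refine ⟨⟨x - (A.mulVec x i / A i j) • Pi.single j 1, ?_⟩, ?_⟩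
      · rw [map_sub, map_smul]
        exact (h1 x).symm
      · rw [SetLike.mem_coe, LinearMap.mem_ker, LinearMap.proj_apply]
        show A'.mulVec x i = 0
        rw [h1, Pi.sub_apply, Pi.smul_apply, hcol, smul_eq_mul, div_mul_cancel₀ _ hij, sub_self]
    · rintro _ ⟨⟨x, rfl⟩, h2⟩
      rw [SetLike.mem_coe, LinearMap.mem_ker, LinearMap.proj_apply] at h2
      refine ⟨x, ?_⟩
      show A'.mulVec x = A.mulVec x
      have h3 : A.mulVec x i = 0 := h2
      rw [h1, h3, zero_div, zero_smul, sub_zero]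
  refine ⟨hrange, ?_⟩
  -- the functional `proj i` on the range
  obtain ⟨R, hR⟩ : ∃ R, R = LinearMap.range A.mulVecLin := ⟨_, rfl⟩
  obtain ⟨f, hf⟩ : ∃ f : Module.Dual K R,
      f = (LinearMap.proj (R := K) (φ := fun _ => K) i).comp R.subtype := ⟨_, rfl⟩
  have hf0 : f ≠ 0 := by
    intro h0
    have hm : A.mulVec (Pi.single j 1) ∈ R := by rw [hR]; exact ⟨Pi.single j 1, rfl⟩
    have h4 : f ⟨_, hm⟩ = 0 := by rw [h0]; rfl
    rw [hf] at h4
    have h5 : A.mulVec (Pi.single j 1) i = 0 := h4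
    rw [hcol] at h5
    exact hij h5
  have h5 := Module.Dual.finrank_ker_add_one_of_ne_zero hf0
  have h6 : (LinearMap.ker f).map R.subtype = LinearMap.range A'.mulVecLin := by
    rw [hrange, ← hR, hf, LinearMap.ker_comp, Submodule.map_comap_subtype]
  unfold Matrix.rank
  rw [← h6, ← hR, Submodule.finrank_map_subtype_eq]
  exact h5

/-- the top left block -/
def gaTop (n w : ℕ) (M : ℕ → K) : Matrix (Fin n) (Fin n) K := Matrix.of fun i j => M (i * w + j)

theorem gaElim_top {n m w : ℕ} (hw : n ≤ w) (hm : n ≤ m) (M : ℕ → K) {j p : ℕ} (hp : p < n)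
    (hj : j < n) (r c : Fin n) :
    gaTop n w (gaElim n m w M j p) r c = gaTop n w M r c -
      gaTop n w M r ⟨j, hj⟩ * gaTop n w M ⟨p, hp⟩ c / gaTop n w M ⟨p, hp⟩ ⟨j, hj⟩ := by
  unfold gaTop
  simp only [Matrix.of_apply]
  exact gaElim_apply M hp (by have := r.2; omega) (by have := c.2; omega)

end

/-! ### costs -/

theorem gaPiv_rlz : RlzQ (a := .prod .nat (.prod .nat (.prod .nat .arr))) (b := .nat)
    (fun K _ x => gaPiv x.1 x.2.1 x.2.2.2 x.2.2.1) (fun _ _ x => x.1) := by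
  classical
  have hf : RlzQ (a := .prod (.prod (.prod .nat (.prod .nat (.prod .nat .arr))) .nat) .nat)
      (b := .nat) (fun K _ x => if (x.1.1.2.2.2 : ℕ → K) (x.2 * x.1.1.2.1 + x.1.1.2.2.1) = 0 then
        x.1.2 else x.2) (fun _ _ _ => 0) := by
    apply RlzQ.mono
    case h =>
      apply_rules [RlzQ.iteZero, RlzQ.get, RlzQ.add, RlzQ.mul, RlzQ.fst, RlzQ.snd, RlzQ.input]
    case A => exact 1
    case hc => intro K _ x; simp
  have := RlzQ.iterB (a := .prod .nat (.prod .nat (.prod .nat .arr))) (b := .nat)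
    (N := fun K _ x => x.1) (S := fun K _ x => x.1)
    (f := fun K _ x s i => if (x.2.2.2 : ℕ → K) (i * x.2.1 + x.2.2.1) = 0 then s else i)
    (RlzQ.fst RlzQ.input) (RlzQ.fst RlzQ.input) hf 1 (by
      intro K _ x i hi
      rw [pow_one]
      have hi' : i ≤ x.1 := hi
      have h1 : (iterF i x.1 (fun s i => if (x.2.2.2 : ℕ → K) (i * x.2.1 + x.2.2.1) = 0 then s
          else i) : ℕ) ≤ x.1 := by
        rcases gaPiv_aux x.1 x.2.1 (x.2.2.2 : ℕ → K) x.2.2.1 i with h | h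
        · exact h.1.le
        · exact (Nat.le_of_lt h.1).trans hi'
      have h2 : x.1 ≤ Ty.nmx K (.prod .nat (.prod .nat (.prod .nat .arr))) x := le_max_left _ _
      show (iterF i x.1 (fun s i => if (x.2.2.2 : ℕ → K) (i * x.2.1 + x.2.2.1) = 0 then s
          else i) : ℕ) ≤ _
      omega)
  refine (this.congr (fun K _ x => ?_)).mono 1 (fun K _ x => by simp)
  unfold gaPiv
  congr 1

theorem gaElim_rlz :
    RlzQ (a := .prod .nat (.prod .nat (.prod .nat (.prod .nat (.prod .nat .arr))))) (b := .arr)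
      (fun K _ x => gaElim x.1 x.2.1 x.2.2.1 (x.2.2.2.2.2 : ℕ → K) x.2.2.2.1 x.2.2.2.2.1)
      (fun _ _ x => x.2.1 * x.2.2.1) := by
  have hentry : RlzQ (a := .prod (.prod .nat (.prod .nat (.prod .nat (.prod .nat
      (.prod .nat .arr))))) .nat) (b := .fld) (fun K _ x => (x.1.2.2.2.2.2 : ℕ → K) x.2 -
          (x.1.2.2.2.2.2 : ℕ → K) (x.2 / x.1.2.2.1 * x.1.2.2.1 + x.1.2.2.2.1) *
            (x.1.2.2.2.2.2 : ℕ → K) (x.1.2.2.2.2.1 * x.1.2.2.1 + x.2 % x.1.2.2.1) /
              (x.1.2.2.2.2.2 : ℕ → K) (x.1.2.2.2.2.1 * x.1.2.2.1 + x.1.2.2.2.1))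
      (fun _ _ _ => 0) := by
    have hM : RlzQ (a := .prod (.prod .nat (.prod .nat (.prod .nat (.prod .nat
        (.prod .nat .arr))))) .nat) (b := .arr) (fun K _ x => x.1.2.2.2.2.2)
        (fun _ _ _ => 0) := by apply_rules [RlzQ.fst, RlzQ.snd, RlzQ.input]
    have hi1 : RlzQ (a := .prod (.prod .nat (.prod .nat (.prod .nat (.prod .nat
        (.prod .nat .arr))))) .nat) (b := .nat)
        (fun K _ x => (x.2 : ℕ) / x.1.2.2.1 * x.1.2.2.1 + x.1.2.2.2.1) (fun _ _ _ => 0) := by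
      apply RlzQ.mono
      case h => apply_rules [RlzQ.add, RlzQ.mul, RlzQ.div, RlzQ.fst, RlzQ.snd, RlzQ.input]
      case A => exact 1
      case hc => intro K _ x; simp
    have hi2 : RlzQ (a := .prod (.prod .nat (.prod .nat (.prod .nat (.prod .nat
        (.prod .nat .arr))))) .nat) (b := .nat)
        (fun K _ x => (x.1.2.2.2.2.1 : ℕ) * x.1.2.2.1 + x.2 % x.1.2.2.1) (fun _ _ _ => 0) := by
      apply RlzQ.mono
      case h => apply_rules [RlzQ.add, RlzQ.mul, RlzQ.mod, RlzQ.fst, RlzQ.snd, RlzQ.input]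
      case A => exact 1
      case hc => intro K _ x; simp
    have hi3 : RlzQ (a := .prod (.prod .nat (.prod .nat (.prod .nat (.prod .nat
        (.prod .nat .arr))))) .nat) (b := .nat)
        (fun K _ x => (x.1.2.2.2.2.1 : ℕ) * x.1.2.2.1 + x.1.2.2.2.1) (fun _ _ _ => 0) := by
      apply RlzQ.mono
      case h => apply_rules [RlzQ.add, RlzQ.mul, RlzQ.fst, RlzQ.snd, RlzQ.input]
      case A => exact 1
      case hc => intro K _ x; simp
    exact (RlzQ.fsub (RlzQ.get hM (RlzQ.snd RlzQ.input)) (RlzQ.fdiv (RlzQ.fmul (RlzQ.get hM hi1)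
      (RlzQ.get hM hi2)) (RlzQ.get hM hi3))).mono 1 (fun K _ x => by simp)
  have hN : RlzQ (a := .prod .nat (.prod .nat (.prod .nat (.prod .nat (.prod .nat .arr)))))
      (b := .nat) (fun K _ x => (x.2.1 : ℕ) * (x.2.2.1 : ℕ)) (fun _ _ _ => 0) := by
    apply RlzQ.mono
    case h => apply_rules [RlzQ.mul, RlzQ.fst, RlzQ.snd, RlzQ.input]
    case A => exact 1
    case hc => intro K _ x; simp
  have htab := RlzQ.tab (f := fun K _ (x : Ty.val K (.prod .nat (.prod .nat (.prod .nat (.prod .nat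
          (.prod .nat .arr)))))) N => (x.2.2.2.2.2 : ℕ → K) N -
          (x.2.2.2.2.2 : ℕ → K) (N / x.2.2.1 * x.2.2.1 + x.2.2.2.1) *
            (x.2.2.2.2.2 : ℕ → K) (x.2.2.2.2.1 * x.2.2.1 + N % x.2.2.1) /
              (x.2.2.2.2.2 : ℕ → K) (x.2.2.2.2.1 * x.2.2.1 + x.2.2.2.1)) hN hentry
  have hp : RlzQ (a := .prod .nat (.prod .nat (.prod .nat (.prod .nat (.prod .nat .arr)))))
      (b := .nat) (fun K _ x => x.2.2.2.2.1) (fun _ _ _ => 0) := by
    apply_rules [RlzQ.fst, RlzQ.snd, RlzQ.input]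
  have hn : RlzQ (a := .prod .nat (.prod .nat (.prod .nat (.prod .nat (.prod .nat .arr)))))
      (b := .nat) (fun K _ x => x.1) (fun _ _ _ => 0) := by
    apply_rules [RlzQ.fst, RlzQ.snd, RlzQ.input]
  have hM : RlzQ (a := .prod .nat (.prod .nat (.prod .nat (.prod .nat (.prod .nat .arr)))))
      (b := .arr) (fun K _ x => x.2.2.2.2.2) (fun _ _ _ => 0) := by
    apply_rules [RlzQ.fst, RlzQ.snd, RlzQ.input]
  refine (RlzQ.iteLt hp hn htab hM).mono 1 (fun K _ x => ?_)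
  simp only [Finset.sum_const_zero, add_zero, zero_add]
  split_ifs <;> omega

/-- one step of the elimination -/
noncomputable def gaStep {K : Type} [Field K] (n m w : ℕ) (M : ℕ → K) (j : ℕ) : ℕ → K :=
  gaElim n m w M j (gaPiv n w M j)

theorem gaStep_rlz :
    RlzQ (a := .prod .nat (.prod .nat (.prod .nat (.prod .nat .arr)))) (b := .arr)
      (fun K _ x => gaStep x.1 x.2.1 x.2.2.1 (x.2.2.2.2 : ℕ → K) x.2.2.2.1)
      (fun _ _ x => x.1 + x.2.1 * x.2.2.1) := by
  have h0 : RlzQ (a := .prod .nat (.prod .nat (.prod .nat (.prod .nat .arr))))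
      (b := .prod .nat (.prod .nat (.prod .nat .arr)))
      (fun K _ x => (x.1, (x.2.2.1, (x.2.2.2.1, x.2.2.2.2)))) (fun _ _ _ => 0) :=
    (RlzQ.pair (RlzQ.fst RlzQ.input) (RlzQ.pair (RlzQ.fst (RlzQ.snd (RlzQ.snd RlzQ.input)))
      (RlzQ.pair (RlzQ.fst (RlzQ.snd (RlzQ.snd (RlzQ.snd RlzQ.input))))
        (RlzQ.snd (RlzQ.snd (RlzQ.snd (RlzQ.snd RlzQ.input))))))).mono 1 (fun K _ x => by simp)
  have h1 : RlzQ (a := .prod .nat (.prod .nat (.prod .nat (.prod .nat .arr)))) (b := .nat)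
      (fun K _ x => gaPiv x.1 x.2.2.1 (x.2.2.2.2 : ℕ → K) x.2.2.2.1) (fun _ _ x => x.1) :=
    (RlzQ.comp gaPiv_rlz h0).mono 1 (fun K _ x => by simp)
  have h2 : RlzQ (a := .prod .nat (.prod .nat (.prod .nat (.prod .nat .arr))))
      (b := .prod .nat (.prod .nat (.prod .nat (.prod .nat (.prod .nat .arr)))))
      (fun K _ x => (x.1, (x.2.1, (x.2.2.1, (x.2.2.2.1,
        (gaPiv x.1 x.2.2.1 (x.2.2.2.2 : ℕ → K) x.2.2.2.1, x.2.2.2.2))))))
      (fun _ _ x => x.1) :=
    (RlzQ.pair (RlzQ.fst RlzQ.input) (RlzQ.pair (RlzQ.fst (RlzQ.snd RlzQ.input))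
      (RlzQ.pair (RlzQ.fst (RlzQ.snd (RlzQ.snd RlzQ.input)))
        (RlzQ.pair (RlzQ.fst (RlzQ.snd (RlzQ.snd (RlzQ.snd RlzQ.input)))) (RlzQ.pair h1
          (RlzQ.snd (RlzQ.snd (RlzQ.snd (RlzQ.snd RlzQ.input))))))))).mono 1
      (fun K _ x => by simp)
  exact (RlzQ.comp gaElim_rlz h2).mono 1 (fun K _ x => by simp)

/-! ### the rank -/

/-- the loop computing the rank -/
noncomputable def gaRank {K : Type} [Field K] (n : ℕ) (A : ℕ → K) (k : ℕ) : (ℕ → K) × ℕ :=
  iterF k (A, 0) (fun s j => (gaStep n n n s.1 j, if gaPiv n n s.1 j < n then s.2 + 1 else s.2))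

/-- one step on the top left block -/
theorem gaStep_top {K : Type} [Field K] {n m w : ℕ} (hw : n ≤ w) (hm : n ≤ m) (M : ℕ → K) {j : ℕ}
    (hj : j < n) (hz : ∀ l < j, ∀ r < n, M (r * w + l) = 0) :
    (gaPiv n w M j = n ∧ gaStep n m w M j = M ∧ ∀ l < j + 1, ∀ r < n, M (r * w + l) = 0) ∨
    ∃ p : Fin n, gaPiv n w M j = p ∧ gaTop n w M p ⟨j, hj⟩ ≠ 0 ∧
      (∀ r c : Fin n, gaTop n w (gaStep n m w M j) r c = gaTop n w M r c -
        gaTop n w M r ⟨j, hj⟩ * gaTop n w M p c / gaTop n w M p ⟨j, hj⟩) ∧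
      ∀ l < j + 1, ∀ r < n, gaStep n m w M j (r * w + l) = 0 := by
  rcases gaPiv_spec n w M j with ⟨h1, h2⟩ | ⟨h1, h2⟩
  · left
    refine ⟨h1, ?_, ?_⟩
    · unfold gaStep gaElim
      rw [if_neg (by omega)]
    · intro l hl r hr
      rcases Nat.lt_succ_iff_lt_or_eq.1 hl with h3 | h3
      · exact hz l h3 r hr
      · rw [h3]; exact h2 r hr
  · right
    refine ⟨⟨gaPiv n w M j, h1⟩, rfl, h2, ?_, ?_⟩
    · intro r c
      exact gaElim_top hw hm M h1 hj r c
    · intro l hl r hr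
      unfold gaStep
      rw [gaElim_apply M h1 (by omega) (by omega)]
      rcases Nat.lt_succ_iff_lt_or_eq.1 hl with h3 | h3
      · rw [hz l h3 r hr, hz l h3 _ h1]; simp
      · rw [h3, mul_div_assoc, div_self h2, mul_one, sub_self]

theorem gaRank_inv {K : Type} [Field K] (n : ℕ) (A : ℕ → K) (k : ℕ) (hk : k ≤ n) :
    (gaTop n n A).rank = (gaRank n A k).2 + (gaTop n n (gaRank n A k).1).rank ∧
      (∀ l < k, ∀ r < n, (gaRank n A k).1 (r * n + l) = 0) ∧ (gaRank n A k).2 ≤ k := by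
  induction k with
  | zero =>
    refine ⟨?_, fun l hl => absurd hl (Nat.not_lt_zero l), le_rfl⟩
    show _ = 0 + _
    rw [zero_add]; rfl
  | succ k ih =>
    obtain ⟨h1, h2, h3⟩ := ih (by omega)
    obtain ⟨s, hs⟩ : ∃ s, s = gaRank n A k := ⟨_, rfl⟩
    rw [← hs] at h1 h2 h3
    have e : gaRank n A (k + 1) =
        (gaStep n n n s.1 k, if gaPiv n n s.1 k < n then s.2 + 1 else s.2) := by
      rw [hs]; rfl
    rw [e]
    rcases gaStep_top (m := n) le_rfl le_rfl s.1 (show k < n by omega) h2 with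
      ⟨g1, g2, g3⟩ | ⟨p, g1, g2, g3, g4⟩
    · rw [g1, if_neg (lt_irrefl n), g2]
      exact ⟨h1, g3, by omega⟩
    · rw [g1, if_pos p.2]
      refine ⟨?_, g4, by show s.2 + 1 ≤ k + 1; omega⟩
      have h5 := (ga_wedderburn _ _ p ⟨k, by omega⟩ g2 g3).2
      show _ = s.2 + 1 + (gaTop n n (gaStep n n n s.1 k)).rank
      omega

theorem gaRank_eq {K : Type} [Field K] (n : ℕ) (A : ℕ → K) :
    (gaRank n A n).2 = (matOf n n A).rank := by
  obtain ⟨h1, h2, h3⟩ := gaRank_inv n A n le_rfl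
  have h4 : gaTop n n (gaRank n A n).1 = 0 := by
    ext r c
    exact h2 c c.2 r r.2
  rw [h4, Matrix.rank_zero, add_zero] at h1
  exact h1.symm

theorem gauss_rank : RlzQ (a := .prod .nat .arr) (b := .nat)
    (fun _ _ x => (matOf x.1 x.1 x.2).rank) (fun _ _ x => x.1 ^ 3) := by
  have hn : RlzQ (a := .prod (.prod (.prod .nat .arr) (.prod .arr .nat)) .nat) (b := .nat)
      (fun K _ x => x.1.1.1) (fun _ _ _ => 0) := RlzQ.fst (RlzQ.fst (RlzQ.fst RlzQ.input))
  have hM : RlzQ (a := .prod (.prod (.prod .nat .arr) (.prod .arr .nat)) .nat) (b := .arr)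
      (fun K _ x => x.1.2.1) (fun _ _ _ => 0) := RlzQ.fst (RlzQ.snd (RlzQ.fst RlzQ.input))
  have hr : RlzQ (a := .prod (.prod (.prod .nat .arr) (.prod .arr .nat)) .nat) (b := .nat)
      (fun K _ x => x.1.2.2) (fun _ _ _ => 0) := RlzQ.snd (RlzQ.snd (RlzQ.fst RlzQ.input))
  have hj : RlzQ (a := .prod (.prod (.prod .nat .arr) (.prod .arr .nat)) .nat) (b := .nat)
      (fun K _ x => x.2) (fun _ _ _ => 0) := RlzQ.snd RlzQ.input
  have h1 : RlzQ (a := .prod (.prod (.prod .nat .arr) (.prod .arr .nat)) .nat) (b := .arr)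
      (fun K _ x => gaStep x.1.1.1 x.1.1.1 x.1.1.1 (x.1.2.1 : ℕ → K) x.2)
      (fun _ _ x => x.1.1.1 + x.1.1.1 * x.1.1.1) :=
    (RlzQ.comp gaStep_rlz (RlzQ.pair hn (RlzQ.pair hn (RlzQ.pair hn (RlzQ.pair hj hM))))).mono 1
      (fun K _ x => by simp)
  have h2 : RlzQ (a := .prod (.prod (.prod .nat .arr) (.prod .arr .nat)) .nat) (b := .nat)
      (fun K _ x => gaPiv x.1.1.1 x.1.1.1 (x.1.2.1 : ℕ → K) x.2) (fun _ _ x => x.1.1.1) :=
    (RlzQ.comp gaPiv_rlz (RlzQ.pair hn (RlzQ.pair hn (RlzQ.pair hj hM)))).mono 1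
      (fun K _ x => by simp)
  have h3 : RlzQ (a := .prod (.prod (.prod .nat .arr) (.prod .arr .nat)) .nat)
      (b := .prod .arr .nat)
      (fun K _ x => (gaStep x.1.1.1 x.1.1.1 x.1.1.1 (x.1.2.1 : ℕ → K) x.2,
        if gaPiv x.1.1.1 x.1.1.1 (x.1.2.1 : ℕ → K) x.2 < x.1.1.1 then x.1.2.2 + 1 else x.1.2.2))
      (fun _ _ x => x.1.1.1 + x.1.1.1 * x.1.1.1) :=
    (RlzQ.pair h1 (RlzQ.iteLt h2 hn (RlzQ.add hr (RlzQ.lit 1)) hr)).mono 2 (fun K _ x => by
      simp only [add_zero, ite_self]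
      nlinarith)
  have h4 : RlzQ (a := .prod .nat .arr) (b := .prod .arr .nat)
      (fun K _ x => (x.2, 0)) (fun _ _ _ => 0) :=
    (RlzQ.pair (RlzQ.snd RlzQ.input) (RlzQ.lit 0)).mono 1 (fun K _ x => by simp)
  have h5 := RlzQ.iterB (a := .prod .nat .arr) (b := .prod .arr .nat)
    (N := fun K _ x => x.1) (S := fun K _ x => (x.2, 0))
    (f := fun K _ x s j => (gaStep x.1 x.1 x.1 (s.1 : ℕ → K) j,
        if gaPiv x.1 x.1 (s.1 : ℕ → K) j < x.1 then s.2 + 1 else s.2))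
    (RlzQ.fst RlzQ.input) h4 h3 1 (by
      intro K _ x i hi
      have h6 := (gaRank_inv x.1 (x.2 : ℕ → K) i hi).2.2
      rw [pow_one]
      have h7 : Ty.nmx K (.prod .arr .nat) (gaRank x.1 (x.2 : ℕ → K) i) =
          (gaRank x.1 (x.2 : ℕ → K) i).2 := Nat.zero_max _
      show Ty.nmx K (.prod .arr .nat) (gaRank x.1 (x.2 : ℕ → K) i) ≤ _
      rw [h7]
      have h8 : (i : ℕ) ≤ (x.1 : ℕ) := hi
      refine (h6.trans h8).trans ?_
      omega)
  refine ((RlzQ.snd h5).congr (fun K _ x => gaRank_eq x.1 (x.2 : ℕ → K))).mono 4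
    (fun K _ x => ?_)
  simp only [Finset.sum_const, Finset.card_range, smul_eq_mul, zero_add]
  obtain ⟨n, hn⟩ : ∃ n : ℕ, n = x.1 := ⟨_, rfl⟩
  rw [← hn]
  have h7 : n ≤ n ^ 3 := Nat.le_self_pow (by norm_num) n
  have h8 : n * n ≤ n ^ 3 := by
    rw [← pow_two]
    rcases Nat.eq_zero_or_pos n with h | h
    · rw [h]; norm_num
    · exact Nat.pow_le_pow_right h (by norm_num)
  nlinarith

end Pool.Agent.AbsIrr
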