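import Mathlib
import Pool.Agent.Lib.MP_2adc98_lc.ADefs
import Pool.Agent.Lib.MP_2adc98_lc.Defs
import Pool.Agent.Lib.MP_2adc98_lc.BL
import Pool.Agent.Lib.MP_2adc98_lc.GA1

/-!
# MP_2adc98_lc: the stages of the test
-/

set_option autoImplicit false

namespace Pool.Agent.AbsIrr

open Finset Polynomial

theorem RlzQ.letIn {a b b' : Ty} {V : Fam a b'} {G : Fam (.prod a b') b} {cv : CFam a}
    {cg : CFam (.prod a b')} (hG : RlzQ G cg) (hV : RlzQ V cv) :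
    RlzQ (fun K _ x => G K (x, V K x)) (fun K _ x => cv K x + cg K (x, V K x)) :=
  (RlzQ.comp hG (RlzQ.pair RlzQ.input hV)).mono 1 (fun K _ x => by simp)

/-- `(d, fs) ↦ fn`: division by the leading coefficient -/
def gNorm : Fam (.prod .nat .arr) .arr := fun _ _ y =>
  tabF ((y.1 + 1) * (y.1 + 1)) (fun n => y.2 n * (y.2 (y.1 * (y.1 + 1)))⁻¹)

theorem gNorm_rlz : RlzQ gNorm (fun _ _ y => y.1 ^ 2) := by
  unfold gNorm
  apply RlzQ.mono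
  case h =>
    apply_rules (maxDepth := 1000) [RlzQ.tab, RlzQ.add, RlzQ.mul, RlzQ.fmul, RlzQ.finv, RlzQ.get, RlzQ.fst, RlzQ.snd,
      RlzQ.input, RlzQ.lit]
  case A => exact 10
  case hc =>
    intro K _ x
    simp only [Finset.sum_const_zero, add_zero, zero_add]
    nlinarith

/-- `(d, fn) ↦ f₀` -/
def gAt0 : Fam (.prod .nat .arr) .arr := fun _ _ y =>
  tabF (y.1 + 1) (fun j => y.2 (j * (y.1 + 1)))

theorem gAt0_rlz : RlzQ gAt0 (fun _ _ y => y.1) := by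
  unfold gAt0
  apply RlzQ.mono
  case h =>
    apply_rules (maxDepth := 1000) [RlzQ.tab, RlzQ.add, RlzQ.mul, RlzQ.fmul, RlzQ.finv, RlzQ.get, RlzQ.fst, RlzQ.snd,
      RlzQ.input, RlzQ.lit]
  case A => exact 10
  case hc =>
    intro K _ x
    simp only [Finset.sum_const_zero, add_zero, zero_add]
    nlinarith

/-- `(d, (q, (M, W))) ↦ S` (sections; `M` = number of digits) -/
def gSec : Fam (.prod .nat (.prod .nat (.prod .nat .arr))) .arr := fun _ _ y =>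
  tabF (y.1 * (y.2.2.1 * y.1)) (fun n => y.2.2.2 (y.2.1 * (n % (y.2.2.1 * y.1)) +
    n / (y.2.2.1 * y.1) + (y.1 - 1)))

theorem gSec_rlz : RlzQ gSec (fun _ _ y => y.1 ^ 2 * y.2.2.1) := by
  unfold gSec
  apply RlzQ.mono
  case h =>
    apply_rules (maxDepth := 1000) [RlzQ.tab, RlzQ.add, RlzQ.sub, RlzQ.div, RlzQ.mod, RlzQ.mul, RlzQ.fmul, RlzQ.finv,
      RlzQ.get, RlzQ.fst, RlzQ.snd, RlzQ.input, RlzQ.lit]
  case A => exact 10
  case hc =>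
    intro K _ x
    simp only [Finset.sum_const_zero, add_zero, zero_add]
    nlinarith

/-- `(d, g) ↦ G` (reversal) -/
def gRev : Fam (.prod .nat .arr) .arr := fun _ _ y => tabF (y.1 + 1) (fun n => y.2 (y.1 - n))

theorem gRev_rlz : RlzQ gRev (fun _ _ y => y.1) := by
  unfold gRev
  apply RlzQ.mono
  case h =>
    apply_rules (maxDepth := 1000) [RlzQ.tab, RlzQ.add, RlzQ.sub, RlzQ.get, RlzQ.fst, RlzQ.snd, RlzQ.input, RlzQ.lit]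
  case A => exact 10
  case hc =>
    intro K _ x
    simp only [Finset.sum_const_zero, add_zero, zero_add]
    nlinarith

/-- `(n, ω) ↦ ω'`: the random elements number `2, ..., n + 1` -/
def gTail : Fam (.prod .nat .arr) .arr := fun _ _ y => tabF y.1 (fun i => y.2 (2 + i))

theorem gTail_rlz : RlzQ gTail (fun _ _ y => y.1) := by
  unfold gTail
  apply RlzQ.mono
  case h =>
    apply_rules (maxDepth := 1000) [RlzQ.tab, RlzQ.add, RlzQ.sub, RlzQ.get, RlzQ.fst, RlzQ.snd, RlzQ.input, RlzQ.lit]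
  case A => exact 10
  case hc =>
    intro K _ x
    simp only [Finset.sum_const_zero, add_zero, zero_add]
    nlinarith

/-! ### composition with cost `Õ(d³)` -/

theorem pr3 {b b' : Ty} {F : Fam Inp b} {G : Fam Inp b'} (hF : RlzQ F (fun _ _ x => x.1 ^ 3))
    (hG : RlzQ G (fun _ _ x => x.1 ^ 3)) :
    RlzQ (b := .prod b b') (fun K _ x => (F K x, G K x)) (fun _ _ x => x.1 ^ 3) :=
  (RlzQ.pair hF hG).mono 2 (fun K _ x => by beta_reduce; omega)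

theorem app3 {b c : Ty} {F : Fam Inp b} {G : Fam b c} {cg : CFam b} (hG : RlzQ G cg)
    (hF : RlzQ F (fun _ _ x => x.1 ^ 3)) (A : ℕ)
    (h : ∀ (K : Type) [Field K] (x : Inp.val K), cg K (F K x) ≤ A * (x.1 ^ 3 + 1)) :
    RlzQ (fun K _ x => G K (F K x)) (fun _ _ x => x.1 ^ 3) :=
  (RlzQ.comp hG hF).mono (A + 1) (fun K _ x => by
    have := h K x
    beta_reduce
    nlinarith)

theorem of3 {b : Ty} {F : Fam Inp b} {c : CFam Inp} (hF : RlzQ F c) (A : ℕ)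
    (h : ∀ (K : Type) [Field K] (x : Inp.val K), c K x ≤ A * (x.1 ^ 3 + 1)) :
    RlzQ F (fun _ _ x => x.1 ^ 3) := hF.mono A h

theorem d3 : RlzQ (a := Inp) (b := .nat) (fun _ _ x => x.1) (fun _ _ x => x.1 ^ 3) :=
  of3 (RlzQ.fst RlzQ.input) 0 (fun _ _ _ => Nat.zero_le _)

theorem p3 : RlzQ (a := Inp) (b := .nat) (fun _ _ x => x.2.1) (fun _ _ x => x.1 ^ 3) :=
  of3 (RlzQ.fst (RlzQ.snd RlzQ.input)) 0 (fun _ _ _ => Nat.zero_le _)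

theorem A3 : RlzQ (a := Inp) (b := .arr) (fun _ _ x => x.2.2.1) (fun _ _ x => x.1 ^ 3) :=
  of3 (RlzQ.fst (RlzQ.snd (RlzQ.snd RlzQ.input))) 0 (fun _ _ _ => Nat.zero_le _)

theorem w3 : RlzQ (a := Inp) (b := .arr) (fun _ _ x => x.2.2.2) (fun _ _ x => x.1 ^ 3) :=
  of3 (RlzQ.snd (RlzQ.snd (RlzQ.snd RlzQ.input))) 0 (fun _ _ _ => Nat.zero_le _)

theorem get3 {V : Fam Inp .arr} (hV : RlzQ V (fun _ _ x => x.1 ^ 3)) {N : Fam Inp .nat}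
    (hN : RlzQ N (fun _ _ x => x.1 ^ 3)) :
    RlzQ (a := Inp) (b := .fld) (fun K _ x => (V K x : ℕ → K) (N K x)) (fun _ _ x => x.1 ^ 3) :=
  of3 (RlzQ.get hV hN) 2 (fun _ _ _ => by beta_reduce; omega)

theorem mul3 {F G : Fam Inp .nat} (hF : RlzQ F (fun _ _ x => x.1 ^ 3))
    (hG : RlzQ G (fun _ _ x => x.1 ^ 3)) :
    RlzQ (b := .nat) (fun K _ x => (F K x : ℕ) * (G K x : ℕ)) (fun _ _ x => x.1 ^ 3) :=
  of3 (RlzQ.mul hF hG) 2 (fun _ _ _ => by omega)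

theorem add3 {F G : Fam Inp .nat} (hF : RlzQ F (fun _ _ x => x.1 ^ 3))
    (hG : RlzQ G (fun _ _ x => x.1 ^ 3)) :
    RlzQ (b := .nat) (fun K _ x => (F K x : ℕ) + (G K x : ℕ)) (fun _ _ x => x.1 ^ 3) :=
  of3 (RlzQ.add hF hG) 2 (fun _ _ _ => by omega)

theorem lit3 (n : ℕ) : RlzQ (a := Inp) (b := .nat) (fun _ _ _ => n) (fun _ _ x => x.1 ^ 3) :=
  of3 (RlzQ.lit n) 0 (fun _ _ _ => Nat.zero_le _)

section stages

variable (κ q b : ℕ → ℕ → ℕ)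
  (Fsh : Fam (.prod .nat (.prod .fld (.prod .fld .arr))) .arr)
  (Fbz : Fam (.prod .nat .arr) (.prod .nat .arr))
  (Fw : Fam (.prod .nat (.prod .nat (.prod .nat (.prod .arr .arr)))) .arr)
  (Fdc : Fam (.prod .nat (.prod .nat (.prod .nat (.prod .arr .arr)))) .arr)
  (Fhe : Fam (.prod .nat (.prod .nat (.prod .nat (.prod .arr (.prod .arr .arr))))) .arr)

/-- the coefficients of `f(x + a y + b, y)` -/
def tSh : Fam Inp .arr := fun K _ x => Fsh K (x.1, (x.2.2.2 0, (x.2.2.2 1, x.2.2.1)))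
/-- the normalised polynomial -/
def tFn : Fam Inp .arr := fun K _ x => gNorm K (x.1, tSh Fsh K x)
/-- `f(0, y)` -/
def tF0 : Fam Inp .arr := fun K _ x => gAt0 K (x.1, tFn Fsh K x)
/-- flag and `v₀` -/
def tBz : Fam Inp (.prod .nat .arr) := fun K _ x => Fbz K (x.1, tF0 Fsh K x)
/-- the coefficients of `g` -/
noncomputable def tG : Fam Inp .arr := fun K _ x => powT (x.1 + 1) (q x.1 x.2.1) (tF0 Fsh K x)
/-- the coefficients of `v` -/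
noncomputable def tV : Fam Inp .arr := fun K _ x => powT x.1 (q x.1 x.2.1) (tBz Fsh Fbz K x).2
/-- the coefficients of `Ω` -/
def tOm : Fam Inp .arr := fun K _ x => gTail K (x.1 * 2 ^ κ x.1 x.2.1, x.2.2.2)
/-- `W` -/
def tW : Fam Inp .arr := fun K _ x => Fw K (κ x.1 x.2.1, (x.1,
  (q x.1 x.2.1 * (2 ^ b x.1 x.2.1 * x.1) + 2 * x.1, (tFn Fsh K x, tOm κ K x))))
/-- the sections -/
def tS : Fam Inp .arr := fun K _ x => gSec K (x.1, (q x.1 x.2.1, (2 ^ b x.1 x.2.1,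
  tW κ q b Fsh Fw K x)))
/-- the digits -/
noncomputable def tD : Fam Inp .arr := fun K _ x => Fdc K (x.1, (x.1, (b x.1 x.2.1,
  (gRev K (x.1, tG q Fsh K x), tS κ q b Fsh Fw K x))))
/-- the matrix -/
noncomputable def tT : Fam Inp .arr := fun K _ x => Fhe K (x.1, (x.1, (2 ^ b x.1 x.2.1,
  (tG q Fsh K x, (tV q Fsh Fbz K x, tD κ q b Fsh Fw Fdc K x)))))
open Classical in
/-- the answer -/
noncomputable def tOut : Fam Inp .nat := fun K _ x =>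
  if (tSh Fsh K x (x.1 * (x.1 + 1)) : K) = 0 then 0 else
    if (tBz Fsh Fbz K x).1 ≠ 0 then
      (if (matOf x.1 x.1 (tT κ q b Fsh Fbz Fw Fdc Fhe K x)).rank + 1 = x.1 then 1 else 0)
    else 0

variable {κ q b Fsh Fbz Fw Fdc Fhe}
  (hprm : RlzQ (a := .prod .nat .nat) (b := .prod .nat (.prod .nat .nat))
      (fun _ _ x => (κ x.1 x.2, (q x.1 x.2, b x.1 x.2))) (fun _ _ x => x.1 ^ 2))
  {C : ℕ} (hC : ∀ d p, 2 ^ κ d p ≤ C * (d + 1) ^ 2 ∧ q d p ≤ C * (d + 1) ^ 2 ∧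
      2 ^ b d p ≤ C * (d + 1) ∧ q d p * 2 ^ b d p ≤ C * (d + 1) ^ 2)
  (hFsh : RlzQ Fsh (fun _ _ x => x.1 ^ 3))
  (hFbz : RlzQ Fbz (fun _ _ x => x.1 ^ 3))
  (hFw : RlzQ Fw (fun _ _ x => 2 ^ x.1 * (x.2.1 + 1) + x.2.1 ^ 3 + x.2.2.1))
  (hFdc : RlzQ Fdc (fun _ _ x => (x.1 + 1) * 2 ^ x.2.2.1 * (x.2.1 + 1)))
  (hFhe : RlzQ Fhe (fun _ _ x =>
    (x.1 + 1) * (x.2.1 + 1) * (x.2.2.1 + 1) + (x.2.1 + x.2.2.1) ^ 2))

theorem sq_le3 (d : ℕ) : d ^ 2 ≤ d ^ 3 := by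
  rcases Nat.eq_zero_or_pos d with rfl | h
  · simp
  · exact Nat.pow_le_pow_right h (by norm_num)

theorem self_le3 (d : ℕ) : d ≤ d ^ 3 := by
  rcases Nat.eq_zero_or_pos d with rfl | h
  · simp
  · calc d = d ^ 1 := (pow_one d).symm
      _ ≤ d ^ 3 := Nat.pow_le_pow_right h (by norm_num)

theorem cube_le3 (d : ℕ) : (d + 1) ^ 3 ≤ 8 * (d ^ 3 + 1) := by
  have h1 := sq_le3 d
  have h2 := self_le3 d
  nlinarith

include hprm in
theorem prm3 : RlzQ (a := Inp) (b := .prod .nat (.prod .nat .nat))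
    (fun _ _ x => (κ x.1 x.2.1, (q x.1 x.2.1, b x.1 x.2.1))) (fun _ _ x => x.1 ^ 3) := by
  have h := app3 hprm (pr3 d3 p3) 1 (fun K _ x => by
    have := sq_le3 x.1
    dsimp only
    omega)
  exact h

include hprm in
theorem k3 : RlzQ (a := Inp) (b := .nat) (fun _ _ x => κ x.1 x.2.1) (fun _ _ x => x.1 ^ 3) :=
  RlzQ.fst (prm3 hprm)

include hprm in
theorem q3 : RlzQ (a := Inp) (b := .nat) (fun _ _ x => q x.1 x.2.1) (fun _ _ x => x.1 ^ 3) :=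
  RlzQ.fst (RlzQ.snd (prm3 hprm))

include hprm in
theorem b3 : RlzQ (a := Inp) (b := .nat) (fun _ _ x => b x.1 x.2.1) (fun _ _ x => x.1 ^ 3) :=
  RlzQ.snd (RlzQ.snd (prm3 hprm))

include hprm hC in
theorem pk3 : RlzQ (a := Inp) (b := .nat) (fun _ _ x => 2 ^ κ x.1 x.2.1)
    (fun _ _ x => x.1 ^ 3) := by
  refine of3 (RlzQ.npow (RlzQ.lit 2) (k3 hprm)) (16 * C + 16) (fun K _ x => ?_)
  have h1 := (hC x.1 x.2.1).1
  have h2 : κ x.1 x.2.1 ≤ 2 ^ κ x.1 x.2.1 := Nat.lt_two_pow_self.le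
  have h3 := sq_le3 x.1
  have h4 := self_le3 x.1
  have h5 : 2 ^ κ x.1 x.2.1 ≤ 4 * C * (x.1 ^ 3 + 1) := by nlinarith
  nlinarith

include hprm hC in
theorem pb3 : RlzQ (a := Inp) (b := .nat) (fun _ _ x => 2 ^ b x.1 x.2.1)
    (fun _ _ x => x.1 ^ 3) := by
  refine of3 (RlzQ.npow (RlzQ.lit 2) (b3 hprm)) (16 * C + 16) (fun K _ x => ?_)
  have h1 := (hC x.1 x.2.1).2.2.1
  have h2 : b x.1 x.2.1 ≤ 2 ^ b x.1 x.2.1 := Nat.lt_two_pow_self.le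
  have h4 := self_le3 x.1
  have h5 : 2 ^ b x.1 x.2.1 ≤ 4 * C * (x.1 ^ 3 + 1) := by nlinarith
  nlinarith

include hFsh in
theorem tSh3 : RlzQ (tSh Fsh) (fun _ _ x => x.1 ^ 3) := by
  have h := app3 hFsh (pr3 d3 (pr3 (get3 w3 (lit3 0)) (pr3 (get3 w3 (lit3 1)) A3))) 1
    (fun K _ x => by dsimp only; omega)
  exact h

include hFsh in
theorem tFn3 : RlzQ (tFn Fsh) (fun _ _ x => x.1 ^ 3) := by
  have h := app3 gNorm_rlz (pr3 d3 (tSh3 hFsh)) 1 (fun K _ x => by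
    have := sq_le3 x.1
    dsimp only
    omega)
  exact h

include hFsh in
theorem tF03 : RlzQ (tF0 Fsh) (fun _ _ x => x.1 ^ 3) := by
  have h := app3 gAt0_rlz (pr3 d3 (tFn3 hFsh)) 1 (fun K _ x => by
    have := self_le3 x.1
    dsimp only
    omega)
  exact h

include hFsh hFbz in
theorem tBz3 : RlzQ (tBz Fsh Fbz) (fun _ _ x => x.1 ^ 3) := by
  have h := app3 hFbz (pr3 d3 (tF03 hFsh)) 1 (fun K _ x => by dsimp only; omega)
  exact h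

include hFsh hprm hC in
theorem tG3 : RlzQ (tG q Fsh) (fun _ _ x => x.1 ^ 3) := by
  refine of3 (RlzQ.powT (RlzQ.add d3 (RlzQ.lit 1)) (q3 hprm) (tF03 hFsh)) (8 * C + 16)
    (fun K _ x => ?_)
  have h1 := (hC x.1 x.2.1).2.1
  have h3 := sq_le3 x.1
  have h4 := self_le3 x.1
  have h5 : q x.1 x.2.1 ≤ 4 * C * (x.1 ^ 3 + 1) := by nlinarith
  nlinarith

include hFsh hFbz hprm hC in
theorem tV3 : RlzQ (tV q Fsh Fbz) (fun _ _ x => x.1 ^ 3) := by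
  refine of3 (RlzQ.powT d3 (q3 hprm) (RlzQ.snd (tBz3 hFsh hFbz))) (8 * C + 16)
    (fun K _ x => ?_)
  have h1 := (hC x.1 x.2.1).2.1
  have h3 := sq_le3 x.1
  have h4 := self_le3 x.1
  have h5 : q x.1 x.2.1 ≤ 4 * C * (x.1 ^ 3 + 1) := by nlinarith
  nlinarith

include hprm hC in
theorem tOm3 : RlzQ (tOm κ) (fun _ _ x => x.1 ^ 3) := by
  have h := app3 gTail_rlz (pr3 (mul3 d3 (pk3 hprm hC)) w3) (8 * C) (fun K _ x => ?_)
  · exact h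
  have h1 := (hC x.1 x.2.1).1
  have h2 := cube_le3 x.1
  dsimp only
  calc x.1 * 2 ^ κ x.1 x.2.1 ≤ (x.1 + 1) * (C * (x.1 + 1) ^ 2) :=
        Nat.mul_le_mul (Nat.le_succ _) h1
    _ = C * (x.1 + 1) ^ 3 := by ring
    _ ≤ C * (8 * (x.1 ^ 3 + 1)) := by gcongr
    _ = 8 * C * (x.1 ^ 3 + 1) := by ring

include hprm hC hFsh hFw in
theorem tW3 : RlzQ (tW κ q b Fsh Fw) (fun _ _ x => x.1 ^ 3) := by
  have h := app3 hFw (pr3 (k3 hprm) (pr3 d3 (pr3 (add3 (mul3 (q3 hprm) (mul3 (pb3 hprm hC) d3))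
    (mul3 (lit3 2) d3)) (pr3 (tFn3 hFsh) (tOm3 hprm hC))))) (16 * C + 3) (fun K _ x => ?_)
  · exact h
  have h1 := (hC x.1 x.2.1).1
  have h1' := (hC x.1 x.2.1).2.2.2
  have h2 := cube_le3 x.1
  have h4 := self_le3 x.1
  have e1 : 2 ^ κ x.1 x.2.1 * (x.1 + 1) ≤ 8 * C * (x.1 ^ 3 + 1) := by
    calc 2 ^ κ x.1 x.2.1 * (x.1 + 1) ≤ (C * (x.1 + 1) ^ 2) * (x.1 + 1) := by gcongr
      _ = C * (x.1 + 1) ^ 3 := by ring
      _ ≤ C * (8 * (x.1 ^ 3 + 1)) := by gcongr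
      _ = 8 * C * (x.1 ^ 3 + 1) := by ring
  have e2 : q x.1 x.2.1 * (2 ^ b x.1 x.2.1 * x.1) ≤ 8 * C * (x.1 ^ 3 + 1) := by
    calc q x.1 x.2.1 * (2 ^ b x.1 x.2.1 * x.1) = (q x.1 x.2.1 * 2 ^ b x.1 x.2.1) * x.1 := by ring
      _ ≤ (C * (x.1 + 1) ^ 2) * (x.1 + 1) := by gcongr; omega
      _ = C * (x.1 + 1) ^ 3 := by ring
      _ ≤ C * (8 * (x.1 ^ 3 + 1)) := by gcongr
      _ = 8 * C * (x.1 ^ 3 + 1) := by ring
  dsimp only
  nlinarith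

include hprm hC hFsh hFw in
theorem tS3 : RlzQ (tS κ q b Fsh Fw) (fun _ _ x => x.1 ^ 3) := by
  have h := app3 gSec_rlz (pr3 d3 (pr3 (q3 hprm) (pr3 (pb3 hprm hC)
    (tW3 hprm hC hFsh hFw)))) (8 * C) (fun K _ x => ?_)
  · exact h
  have h1 := (hC x.1 x.2.1).2.2.1
  have h2 := cube_le3 x.1
  dsimp only
  calc x.1 ^ 2 * 2 ^ b x.1 x.2.1 ≤ (x.1 + 1) ^ 2 * (C * (x.1 + 1)) := by gcongr; omega
    _ = C * (x.1 + 1) ^ 3 := by ring
    _ ≤ C * (8 * (x.1 ^ 3 + 1)) := by gcongr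
    _ = 8 * C * (x.1 ^ 3 + 1) := by ring

include hprm hC hFsh hFw hFdc in
theorem tD3 : RlzQ (tD κ q b Fsh Fw Fdc) (fun _ _ x => x.1 ^ 3) := by
  have h0 := app3 gRev_rlz (pr3 d3 (tG3 hprm hC hFsh)) 1 (fun K _ x => by
    have := self_le3 x.1
    dsimp only
    omega)
  have h := app3 hFdc (pr3 d3 (pr3 d3 (pr3 (b3 hprm) (pr3 h0 (tS3 hprm hC hFsh hFw)))))
    (8 * C) (fun K _ x => ?_)
  · exact h
  · have h1 := (hC x.1 x.2.1).2.2.1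
    have h2 := cube_le3 x.1
    dsimp only
    calc (x.1 + 1) * 2 ^ b x.1 x.2.1 * (x.1 + 1)
        ≤ (x.1 + 1) * (C * (x.1 + 1)) * (x.1 + 1) := by gcongr
      _ = C * (x.1 + 1) ^ 3 := by ring
      _ ≤ C * (8 * (x.1 ^ 3 + 1)) := by gcongr
      _ = 8 * C * (x.1 ^ 3 + 1) := by ring

include hprm hC hFsh hFbz hFw hFdc hFhe in
theorem tT3 : RlzQ (tT κ q b Fsh Fbz Fw Fdc Fhe) (fun _ _ x => x.1 ^ 3) := by
  have h := app3 hFhe (pr3 d3 (pr3 d3 (pr3 (pb3 hprm hC) (pr3 (tG3 hprm hC hFsh)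
    (pr3 (tV3 hprm hC hFsh hFbz) (tD3 hprm hC hFsh hFw hFdc)))))) (16 * (C + 1) ^ 2)
    (fun K _ x => ?_)
  · exact h
  have h1 := (hC x.1 x.2.1).2.2.1
  have h2 := cube_le3 x.1
  have h3 := sq_le3 x.1
  have h4 := self_le3 x.1
  dsimp only
  have e1 : (x.1 + 1) * (x.1 + 1) * (2 ^ b x.1 x.2.1 + 1) ≤ 8 * (C + 1) * (x.1 ^ 3 + 1) := by
    calc (x.1 + 1) * (x.1 + 1) * (2 ^ b x.1 x.2.1 + 1)
        ≤ (x.1 + 1) * (x.1 + 1) * (C * (x.1 + 1) + (x.1 + 1)) :=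
          Nat.mul_le_mul_left _ (Nat.add_le_add h1 (by omega))
      _ = (C + 1) * (x.1 + 1) ^ 3 := by ring
      _ ≤ (C + 1) * (8 * (x.1 ^ 3 + 1)) := by gcongr
      _ = 8 * (C + 1) * (x.1 ^ 3 + 1) := by ring
  have e2 : (x.1 + 2 ^ b x.1 x.2.1) ^ 2 ≤ 4 * (C + 1) ^ 2 * (x.1 ^ 3 + 1) := by
    calc (x.1 + 2 ^ b x.1 x.2.1) ^ 2 ≤ ((x.1 + 1) + C * (x.1 + 1)) ^ 2 := by gcongr; omega
      _ = (C + 1) ^ 2 * (x.1 + 1) ^ 2 := by ring
      _ ≤ (C + 1) ^ 2 * (4 * (x.1 ^ 3 + 1)) := by gcongr; nlinarith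
      _ = 4 * (C + 1) ^ 2 * (x.1 ^ 3 + 1) := by ring
  have e3 : 8 * (C + 1) * (x.1 ^ 3 + 1) ≤ 8 * (C + 1) ^ 2 * (x.1 ^ 3 + 1) := by
    gcongr
    nlinarith
  refine (Nat.add_le_add e1 e2).trans ((Nat.add_le_add_right e3 _).trans ?_)
  rw [← add_mul]
  exact Nat.mul_le_mul_right _ (by nlinarith)

include hprm hC hFsh hFbz hFw hFdc hFhe in
theorem tOut3 : RlzQ (tOut κ q b Fsh Fbz Fw Fdc Fhe) (fun _ _ x => x.1 ^ 3) := by
  have hr := app3 gauss_rank (pr3 d3 (tT3 hprm hC hFsh hFbz hFw hFdc hFhe)) 1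
      (fun K _ x => by dsimp only; omega)
  refine of3 (RlzQ.iteZero (get3 (tSh3 hFsh) (mul3 d3 (add3 d3 (lit3 1)))) (lit3 0)
    (RlzQ.iteNat (RlzQ.fst (tBz3 hFsh hFbz)) (RlzQ.iteEq (add3 hr (lit3 1)) d3 (lit3 1) (lit3 0))
      (lit3 0))) 8 (fun K _ x => ?_)
  split_ifs <;> omega

end stages

end Pool.Agent.AbsIrr
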