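import Mathlib
import Pool.Agent.Lib.MP_2adc98_lc.Stages
import Pool.Agent.Lib.MP_2adc98_lc.Shift
import Pool.Agent.Lib.MP_2adc98_lc.Split
import Pool.Agent.Lib.MP_2adc98_lc.MathMain

/-!
# MP_2adc98_lc: correctness of the stages
-/

set_option autoImplicit false

namespace Pool.Agent.AbsIrr

open Finset Polynomial

section split

variable {K : Type*} [Field K]

/-- the digits depend on the first `2^j d` entries only -/
theorem split_congr (d : ℕ) (g : K[X]) (j : ℕ) (s s' : ℕ → K)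
    (h : ∀ n < 2 ^ j * d, s n = s' n) (l : ℕ) : split d g j s l = split d g j s' l := by
  induction j generalizing s s' l with
  | zero =>
    have h1 : PowerSeries.trunc d (PowerSeries.mk s * ((reflect d g : K[X]) : PowerSeries K)) =
        PowerSeries.trunc d (PowerSeries.mk s' * ((reflect d g : K[X]) : PowerSeries K)) := by
      ext n
      rw [PowerSeries.coeff_trunc, PowerSeries.coeff_trunc]
      split_ifs with hn
      · rw [PowerSeries.coeff_mul, PowerSeries.coeff_mul]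
        refine Finset.sum_congr rfl fun x hx => ?_
        have := Finset.HasAntidiagonal.mem_antidiagonal.mp hx
        rw [PowerSeries.coeff_mk, PowerSeries.coeff_mk, h x.1 (by omega)]
      · rfl
    simp only [split, h1]
  | succ j ih =>
    simp only [split]
    split_ifs with hl
    · exact ih s s' (fun n hn => h n (by rw [pow_succ]; nlinarith)) l
    · refine ih _ _ (fun n hn => ?_) _
      rw [PowerSeries.coeff_mul, PowerSeries.coeff_mul]
      refine Finset.sum_congr rfl fun x hx => ?_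
      have := Finset.HasAntidiagonal.mem_antidiagonal.mp hx
      rw [PowerSeries.coeff_mk, PowerSeries.coeff_mk, h x.1 (by rw [pow_succ]; nlinarith)]

end split

section

variable {L : Type} [Field L]

theorem shf_coeff_eq_C {d : ℕ} (a b : L) {F : L[X][X]} (hF : TD d F) :
    (shf a b F).coeff d = C (((shf a b F).coeff d).coeff 0) := by
  rw [shf_coeff_top a b hF, coeff_C_zero]

theorem coeffs2_C_mul (w : ℕ) (c : L) (P : L[X][X]) (n : ℕ) :
    coeffs2 w (C (C c) * P) n = c * coeffs2 w P n := by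
  simp [coeffs2]

theorem at0_coeff (P : L[X][X]) (j : ℕ) : (at0 P).coeff j = (P.coeff j).coeff 0 := by
  rw [at0, coeff_map, coe_evalRingHom, coeff_zero_eq_eval_zero]

theorem at0_C_mul (c : L) (P : L[X][X]) : at0 (C (C c) * P) = C c * at0 P := by
  rw [at0, at0, Polynomial.map_mul]
  simp

theorem apol_coeff (n : ℕ) (a : ℕ → L) (i : ℕ) : (apol n a).coeff i = if i < n then a i else 0 := by
  rw [apol, finsetSum_coeff]
  simp only [coeff_monomial]
  rw [Finset.sum_ite_eq' (Finset.range n) i a]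
  simp [Finset.mem_range]

end

section core

variable {κ q b : ℕ → ℕ → ℕ}
  {Fsh : Fam (.prod .nat (.prod .fld (.prod .fld .arr))) .arr}
  {Fbz : Fam (.prod .nat .arr) (.prod .nat .arr)}
  {Fw : Fam (.prod .nat (.prod .nat (.prod .nat (.prod .arr .arr)))) .arr}
  {Fdc : Fam (.prod .nat (.prod .nat (.prod .nat (.prod .arr .arr)))) .arr}
  {Fhe : Fam (.prod .nat (.prod .nat (.prod .nat (.prod .arr (.prod .arr .arr))))) .arr}

/-- the specification of the substitution routine -/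
def SpecSh (Fsh : Fam (.prod .nat (.prod .fld (.prod .fld .arr))) .arr) : Prop :=
  ∀ (K : Type) [Field K] (d : ℕ) (a b : K) (f : K[X][X]) (A : ℕ → K), TD d f →
      (∀ n < (d + 1) * (d + 1), A n = coeffs2 (d + 1) f n) →
      ∀ n < (d + 1) * (d + 1), Fsh K (d, (a, (b, A))) n = coeffs2 (d + 1) (shf a b f) n

/-- the specification of the inversion routine -/
def SpecBz (Fbz : Fam (.prod .nat .arr) (.prod .nat .arr)) : Prop :=
  ∀ (K : Type) [Field K] (d : ℕ) (f₀ : K[X]) (a : ℕ → K), 1 ≤ d → f₀.Monic →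
      f₀.natDegree = d → (∀ i ≤ d, a i = f₀.coeff i) →
      (f₀.Separable → (Fbz K (d, a)).1 ≠ 0) ∧
      ((Fbz K (d, a)).1 ≠ 0 → ∃ u, apol d (Fbz K (d, a)).2 * derivative f₀ + u * f₀ = 1)

/-- the specification of the routine for `W` -/
def SpecW (Fw : Fam (.prod .nat (.prod .nat (.prod .nat (.prod .arr .arr)))) .arr) : Prop :=
  ∀ (K : Type) [Field K] (κ d L : ℕ) (A ω : ℕ → K) (f : K[X][X]), 1 ≤ d → TD d f →
      f.Monic → f.natDegree = d → 5 * d ^ 2 < 2 ^ κ →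
      (∀ n < (d + 1) * (d + 1), A n = coeffs2 (d + 1) f n) →
      ∀ n < L, Fw K (κ, (d, (L, (A, ω)))) n = W (2 ^ κ) d f
        (Om d (2 ^ κ - 3 * d) (fun q => ω (q.1 * (2 ^ κ - 3 * d) + q.2))) n

/-- the specification of the digits routine -/
def SpecDc (Fdc : Fam (.prod .nat (.prod .nat (.prod .nat (.prod .arr .arr)))) .arr) : Prop :=
  ∀ (K : Type) [Field K] (B d j : ℕ) (g : K[X]) (G S : ℕ → K), 1 ≤ d → g.natDegree ≤ d →
      (∀ n ≤ d, G n = g.coeff (d - n)) → ∀ k < B, ∀ c < 2 ^ j, ∀ i < d,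
        Fdc K (B, (d, (j, (G, S)))) ((k * 2 ^ j + c) * d + i) =
          (split d g j (fun n => S (k * (2 ^ j * d) + n)) (c + 1)).coeff (d - 1 - i)

/-- the specification of the Hermite routine -/
def SpecHe (Fhe : Fam (.prod .nat (.prod .nat (.prod .nat (.prod .arr (.prod .arr .arr))))) .arr) :
    Prop :=
  ∀ (K : Type) [Field K] (B d M : ℕ) (g v : K[X]) (t : ℕ → ℕ → K[X]) (G V D : ℕ → K),
      1 ≤ d → 1 ≤ M → g.Monic → g.natDegree = d → v.degree < d →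
      (∀ k < B, ∀ l ∈ Finset.Icc 1 M, (t k l).degree < d) →
      (∀ i < d, G i = g.coeff i) → (∀ i < d, V i = v.coeff i) →
      (∀ k < B, ∀ c < M, ∀ i < d, D ((k * M + c) * d + i) = (t k (c + 1)).coeff (d - 1 - i)) →
      ∀ k < B, ∀ j < d, Fhe K (B, (d, (M, (G, (V, D))))) (k * d + j) =
        (herm g v (t k) M (M - 1)).coeff j

/-- the polynomial after normalisation -/
noncomputable def nrm {L : Type} [Field L] (d : ℕ) (a b : L) (F : L[X][X]) : L[X][X] :=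
  C (C (((shf a b F).coeff d).coeff 0)⁻¹) * shf a b F

/-- the random polynomial `Ω` from the tape -/
noncomputable def omt {L : Type} [Field L] (N d : ℕ) (ω : ℕ → L) :
    Fin d × Fin (N - 3 * d) → L := fun q => ω (2 + (q.1 * (N - 3 * d) + q.2))

variable (hsh : SpecSh Fsh) (hbz : SpecBz Fbz) (hw : SpecW Fw) (hdc : SpecDc Fdc)
  (hhe : SpecHe Fhe)

section one
variable {L : Type} [Field L] {p d : ℕ} {A : ℕ → L} {F : L[X][X]} (hd : 1 ≤ d) (hF : TD d F)
  (hA : ∀ n < (d + 1) * (d + 1), A n = coeffs2 (d + 1) F n) (ω : ℕ → L)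

include hsh hF hA in
theorem tSh_spec (n : ℕ) (hn : n < (d + 1) * (d + 1)) :
    tSh Fsh L (d, (p, (A, ω))) n = coeffs2 (d + 1) (shf (ω 0) (ω 1) F) n :=
  hsh L d (ω 0) (ω 1) F A hF hA n hn

include hsh hF hA in
theorem tSh_top : tSh Fsh L (d, (p, (A, ω))) (d * (d + 1)) =
    ((shf (ω 0) (ω 1) F).coeff d).coeff 0 := by
  rw [tSh_spec hsh hF hA ω (d * (d + 1)) (by nlinarith), coeffs2, Nat.mul_div_cancel _ (by omega),
    Nat.mul_mod_left]

include hsh hF hA in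
theorem tFn_spec (n : ℕ) (hn : n < (d + 1) * (d + 1)) :
    tFn Fsh L (d, (p, (A, ω))) n = coeffs2 (d + 1) (nrm d (ω 0) (ω 1) F) n := by
  have h1 := tSh_spec (p := p) hsh hF hA ω n hn
  have h2 := tSh_top (p := p) hsh hF hA ω
  have h3 : tFn Fsh L (d, (p, (A, ω))) n = tSh Fsh L (d, (p, (A, ω))) n *
      (tSh Fsh L (d, (p, (A, ω))) (d * (d + 1)))⁻¹ := by
    change (if n < (d + 1) * (d + 1) then _ else _) = _
    rw [if_pos hn]
  rw [h3, h1, h2, nrm, coeffs2_C_mul, mul_comm]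

include hsh hF hA in
theorem tF0_spec (j : ℕ) (hj : j ≤ d) :
    tF0 Fsh L (d, (p, (A, ω))) j = (at0 (nrm d (ω 0) (ω 1) F)).coeff j := by
  have h1 := tFn_spec (p := p) hsh hF hA ω (j * (d + 1)) (by nlinarith)
  have h3 : tF0 Fsh L (d, (p, (A, ω))) j = tFn Fsh L (d, (p, (A, ω))) (j * (d + 1)) := by
    change (if j < d + 1 then _ else _) = _
    rw [if_pos (by omega)]
  rw [h3, h1, coeffs2, Nat.mul_div_cancel _ (by omega), Nat.mul_mod_left, at0_coeff]

/-- the polynomial `v₀` depends only on the first two random elements -/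
theorem tBz_congr (ω' : ℕ → L) (h0 : ω' 0 = ω 0) (h1 : ω' 1 = ω 1) :
    tBz Fsh Fbz L (d, (p, (A, ω'))) = tBz Fsh Fbz L (d, (p, (A, ω))) := by
  have h : tSh Fsh L (d, (p, (A, ω'))) = tSh Fsh L (d, (p, (A, ω))) := by
    change Fsh L (d, (ω' 0, (ω' 1, A))) = Fsh L (d, (ω 0, (ω 1, A)))
    rw [h0, h1]
  simp only [tBz, tF0, tFn, h]

/-- the polynomial `v` -/
noncomputable def vpol (Fsh : Fam (.prod .nat (.prod .fld (.prod .fld .arr))) .arr)
    (Fbz : Fam (.prod .nat .arr) (.prod .nat .arr)) (p : ℕ) [Fact p.Prime] [CharP L p] (d e : ℕ)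
    (A : ℕ → L) (a b : L) : L[X] :=
  (apol d (tBz Fsh Fbz L (d, (p, (A, fun i => if i = 0 then a else b)))).2).map
    (iterateFrobenius L p e)

theorem vpol_eq [Fact p.Prime] [CharP L p] (e : ℕ) :
    vpol Fsh Fbz p d e A (ω 0) (ω 1) =
      (apol d (tBz Fsh Fbz L (d, (p, (A, ω)))).2).map (iterateFrobenius L p e) := by
  rw [vpol, tBz_congr ω _ (by simp) (by simp)]

theorem vpol_degree [Fact p.Prime] [CharP L p] (e : ℕ) (a b : L) :
    (vpol Fsh Fbz p d e A a b).degree < d := by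
  rw [vpol]
  refine lt_of_le_of_lt degree_map_le ?_
  rw [degree_lt_iff_coeff_zero]
  intro m hm
  rw [apol_coeff, if_neg (by omega)]

theorem vpol_coeff [Fact p.Prime] [CharP L p] (e : ℕ) (i : ℕ) (hi : i < d) (hq : q d p = p ^ e) :
    tV q Fsh Fbz L (d, (p, (A, ω))) i = (vpol Fsh Fbz p d e A (ω 0) (ω 1)).coeff i := by
  rw [vpol_eq, coeff_map, apol_coeff, if_pos hi, iterateFrobenius_def]
  change (if i < d then _ else _) = _
  rw [if_pos hi]
  change _ ^ (q d p) = _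
  rw [hq]

include hsh hF hA in
theorem tG_spec [Fact p.Prime] [CharP L p] (e : ℕ) (i : ℕ) (hi : i ≤ d) (hq : q d p = p ^ e) :
    tG q Fsh L (d, (p, (A, ω))) i =
      ((at0 (nrm d (ω 0) (ω 1) F)).map (iterateFrobenius L p e)).coeff i := by
  have h1 := tF0_spec (p := p) hsh hF hA ω i hi
  have h2 : tG q Fsh L (d, (p, (A, ω))) i = tF0 Fsh L (d, (p, (A, ω))) i ^ q d p := by
    change (if i < d + 1 then _ else _) = _
    rw [if_pos (by omega)]
  rw [h2, h1, coeff_map, iterateFrobenius_def, hq]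

include hF in
theorem nrm_spec (a b : L) (h0 : (shf a b F).coeff d ≠ 0) :
    (nrm d a b F).Monic ∧ (nrm d a b F).natDegree = d ∧ TD d (nrm d a b F) ∧
      ((at0 (nrm d a b F)).Separable ↔ (at0 (shf a b F)).Separable) ∧
      ∀ {k : Type} [Field k] (σ : L →+* k),
        (Irreducible ((nrm d a b F).map (mapRingHom σ)) ↔
          Irreducible (F.map (mapRingHom σ))) := by
  have h1 := shf_coeff_eq_C a b hF
  have h2 : ((shf a b F).coeff d).coeff 0 ≠ 0 := by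
    intro h
    rw [h, C_0] at h1
    exact h0 h1
  obtain ⟨e1, e2, e3, e4, e5⟩ := normalise hF a b _ h1 h2
  exact ⟨e1, e2, e3, e4, fun σ => e5 σ⟩

include hF hd hA hsh hbz in
theorem bz_spec (h0 : (shf (ω 0) (ω 1) F).coeff d ≠ 0) :
    ((at0 (shf (ω 0) (ω 1) F)).Separable ↔ (tBz Fsh Fbz L (d, (p, (A, ω)))).1 ≠ 0) ∧
    ((tBz Fsh Fbz L (d, (p, (A, ω)))).1 ≠ 0 →
      ∃ u, apol d (tBz Fsh Fbz L (d, (p, (A, ω)))).2 *
        derivative (at0 (nrm d (ω 0) (ω 1) F)) + u * at0 (nrm d (ω 0) (ω 1) F) = 1) := by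
  obtain ⟨e1, e2, e3, e4, e5⟩ := nrm_spec hF (ω 0) (ω 1) h0
  obtain ⟨k1, k2⟩ := hbz L d (at0 (nrm d (ω 0) (ω 1) F)) (tF0 Fsh L (d, (p, (A, ω)))) hd
    (e1.map _) (by rw [at0, e1.natDegree_map, e2]) (fun i hi => tF0_spec hsh hF hA ω i hi)
  refine ⟨⟨fun h => k1 (e4.mpr h), fun h => e4.mp ?_⟩, k2⟩
  obtain ⟨u, hu⟩ := k2 h
  exact ⟨u, apol d (Fbz L (d, tF0 Fsh L (d, (p, (A, ω))))).2, by rw [add_comm]; exact hu⟩

/-! the sections -/

theorem tOm_spec {m : ℕ} (hm : m ≤ 2 ^ κ d p) (x y : ℕ) (hx : x < d) (hy : y < m) :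
    tOm κ L (d, (p, (A, ω))) (x * m + y) = ω (2 + (x * m + y)) := by
  change (if x * m + y < d * 2 ^ κ d p then _ else _) = _
  rw [if_pos]
  calc x * m + y < x * m + m := by omega
    _ = (x + 1) * m := by ring
    _ ≤ d * 2 ^ κ d p := Nat.mul_le_mul hx hm

include hsh hw hF hd hA in
theorem tW_spec (h0 : (shf (ω 0) (ω 1) F).coeff d ≠ 0) (hκ : 5 * d ^ 2 < 2 ^ κ d p) (n : ℕ)
    (hn : n < q d p * (2 ^ b d p * d) + 2 * d) :
    tW κ q b Fsh Fw L (d, (p, (A, ω))) n = W (2 ^ κ d p) d (nrm d (ω 0) (ω 1) F)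
      (Om d (2 ^ κ d p - 3 * d) (omt (2 ^ κ d p) d ω)) n := by
  obtain ⟨e1, e2, e3, e4, e5⟩ := nrm_spec hF (ω 0) (ω 1) h0
  have h := hw L (κ d p) d (q d p * (2 ^ b d p * d) + 2 * d) (tFn Fsh L (d, (p, (A, ω))))
    (tOm κ L (d, (p, (A, ω)))) (nrm d (ω 0) (ω 1) F) hd e3 e1 e2 hκ
    (fun n hn => tFn_spec hsh hF hA ω n hn) n hn
  refine Eq.trans h ?_
  congr 2
  funext x
  exact tOm_spec ω (Nat.sub_le _ _) _ _ x.1.2 x.2.2

include hsh hw hF hd hA in
theorem tS_spec (h0 : (shf (ω 0) (ω 1) F).coeff d ≠ 0) (hκ : 5 * d ^ 2 < 2 ^ κ d p) (k l : ℕ)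
    (hk : k < d) (hl : l < 2 ^ b d p * d) :
    tS κ q b Fsh Fw L (d, (p, (A, ω))) (k * (2 ^ b d p * d) + l) =
      sec (2 ^ κ d p) d (q d p) (nrm d (ω 0) (ω 1) F)
        (Om d (2 ^ κ d p - 3 * d) (omt (2 ^ κ d p) d ω)) k l := by
  have hpos : 0 < 2 ^ b d p * d := by omega
  have h1 : k * (2 ^ b d p * d) + l < d * (2 ^ b d p * d) := by
    calc k * (2 ^ b d p * d) + l < k * (2 ^ b d p * d) + 2 ^ b d p * d := by omega
      _ = (k + 1) * (2 ^ b d p * d) := by ring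
      _ ≤ d * (2 ^ b d p * d) := Nat.mul_le_mul_right _ hk
  have h2 : (k * (2 ^ b d p * d) + l) % (2 ^ b d p * d) = l := by
    rw [Nat.add_comm, Nat.add_mul_mod_self_right, Nat.mod_eq_of_lt hl]
  have h3 : (k * (2 ^ b d p * d) + l) / (2 ^ b d p * d) = k := by
    rw [Nat.add_comm, Nat.add_mul_div_right _ _ hpos, Nat.div_eq_of_lt hl, zero_add]
  have h4 : tS κ q b Fsh Fw L (d, (p, (A, ω))) (k * (2 ^ b d p * d) + l) =
      tW κ q b Fsh Fw L (d, (p, (A, ω))) (q d p * ((k * (2 ^ b d p * d) + l) % (2 ^ b d p * d)) +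
        (k * (2 ^ b d p * d) + l) / (2 ^ b d p * d) + (d - 1)) := by
    change (if k * (2 ^ b d p * d) + l < d * (2 ^ b d p * d) then _ else _) = _
    rw [if_pos h1]
  rw [h4, h2, h3, tW_spec (q := q) hsh hw hd hF hA ω h0 hκ]
  · rfl
  · have h5 : q d p * l ≤ q d p * (2 ^ b d p * d) := Nat.mul_le_mul_left _ hl.le
    omega

include hsh hw hdc hF hd hA in
theorem tD_spec [Fact p.Prime] [CharP L p] {e : ℕ} (hq : q d p = p ^ e)
    (h0 : (shf (ω 0) (ω 1) F).coeff d ≠ 0) (hκ : 5 * d ^ 2 < 2 ^ κ d p)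
    (k c i : ℕ) (hk : k < d) (hc : c < 2 ^ b d p) (hi : i < d) :
    tD κ q b Fsh Fw Fdc L (d, (p, (A, ω))) ((k * 2 ^ b d p + c) * d + i) =
      (split d ((at0 (nrm d (ω 0) (ω 1) F)).map (iterateFrobenius L p e)) (b d p)
        (sec (2 ^ κ d p) d (p ^ e) (nrm d (ω 0) (ω 1) F)
          (Om d (2 ^ κ d p - 3 * d) (omt (2 ^ κ d p) d ω)) k) (c + 1)).coeff (d - 1 - i) := by
  obtain ⟨e1, e2, e3, e4, e5⟩ := nrm_spec hF (ω 0) (ω 1) h0
  have h1 : ((at0 (nrm d (ω 0) (ω 1) F)).map (iterateFrobenius L p e)).natDegree ≤ d := by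
    refine natDegree_map_le.trans ?_
    rw [at0]
    exact natDegree_map_le.trans e2.le
  have h := hdc L d d (b d p) ((at0 (nrm d (ω 0) (ω 1) F)).map (iterateFrobenius L p e))
    (gRev L (d, tG q Fsh L (d, (p, (A, ω))))) (tS κ q b Fsh Fw L (d, (p, (A, ω)))) hd h1
    (fun n hn => ?_) k hk c hc i hi
  · refine Eq.trans h ?_
    congr 1
    refine split_congr _ _ _ _ _ (fun n hn => ?_) _
    rw [tS_spec hsh hw hd hF hA ω h0 hκ k n hk hn, hq]
  · change (if n < d + 1 then _ else _) = _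
    rw [if_pos (by omega)]
    exact tG_spec hsh hF hA ω e (d - n) (by omega) hq

include hsh hw hdc hhe hF hd hA in
theorem tT_spec [Fact p.Prime] [CharP L p] {e : ℕ} (hq : q d p = p ^ e)
    (h0 : (shf (ω 0) (ω 1) F).coeff d ≠ 0) (hκ : 5 * d ^ 2 < 2 ^ κ d p)
    (k j : ℕ) (hk : k < d) (hj : j < d) :
    tT κ q b Fsh Fbz Fw Fdc Fhe L (d, (p, (A, ω))) (k * d + j) =
      (herm ((at0 (nrm d (ω 0) (ω 1) F)).map (iterateFrobenius L p e))
        (vpol Fsh Fbz p d e A (ω 0) (ω 1))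
        (split d ((at0 (nrm d (ω 0) (ω 1) F)).map (iterateFrobenius L p e)) (b d p)
          (sec (2 ^ κ d p) d (p ^ e) (nrm d (ω 0) (ω 1) F)
            (Om d (2 ^ κ d p - 3 * d) (omt (2 ^ κ d p) d ω)) k))
        (2 ^ b d p) (2 ^ b d p - 1)).coeff j := by
  obtain ⟨e1, e2, e3, e4, e5⟩ := nrm_spec hF (ω 0) (ω 1) h0
  have m1 : (at0 (nrm d (ω 0) (ω 1) F)).Monic := e1.map _
  have m2 : (at0 (nrm d (ω 0) (ω 1) F)).natDegree = d := by
    rw [at0, e1.natDegree_map, e2]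
  have g1 : ((at0 (nrm d (ω 0) (ω 1) F)).map (iterateFrobenius L p e)).Monic := m1.map _
  have g2 : ((at0 (nrm d (ω 0) (ω 1) F)).map (iterateFrobenius L p e)).natDegree = d := by
    rw [m1.natDegree_map, m2]
  have h := hhe L d d (2 ^ b d p) ((at0 (nrm d (ω 0) (ω 1) F)).map (iterateFrobenius L p e))
    (vpol Fsh Fbz p d e A (ω 0) (ω 1))
    (fun k => split d ((at0 (nrm d (ω 0) (ω 1) F)).map (iterateFrobenius L p e)) (b d p)
          (sec (2 ^ κ d p) d (p ^ e) (nrm d (ω 0) (ω 1) F)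
            (Om d (2 ^ κ d p - 3 * d) (omt (2 ^ κ d p) d ω)) k))
    (tG q Fsh L (d, (p, (A, ω)))) (tV q Fsh Fbz L (d, (p, (A, ω))))
    (tD κ q b Fsh Fw Fdc L (d, (p, (A, ω)))) hd Nat.one_le_two_pow g1 g2
    (vpol_degree e (ω 0) (ω 1))
    (fun k _ l hl => (split_digits hd g1 g2 (b d p) _).1 l hl)
    (fun i hi => tG_spec hsh hF hA ω e i hi.le hq)
    (fun i hi => vpol_coeff ω e i hi hq)
    (fun k hk c hc i hi => tD_spec hsh hw hdc hd hF hA ω hq h0 hκ k c i hk hc hi) k hk j hj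
  exact h

/-- the digits as polynomials -/
noncomputable def dig (p : ℕ) [Fact p.Prime] [CharP L p] (N e b' d : ℕ) (f : L[X][X])
    (Ω : Fin d × Fin (N - 3 * d) → L) (k : Fin d) : ℕ → L[X] :=
  split d ((at0 f).map (iterateFrobenius L p e)) b' (sec N d (p ^ e) f (Om d (N - 3 * d) Ω) k)

/-- the matrix computed by the program -/
noncomputable def resMat (p : ℕ) [Fact p.Prime] [CharP L p] (N e b' d : ℕ) (f : L[X][X])
    (v : L[X]) (Ω : Fin d × Fin (N - 3 * d) → L) : Matrix (Fin d) (Fin d) L :=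
  Matrix.of fun (a j : Fin d) => (herm ((at0 f).map (iterateFrobenius L p e)) v
    (dig p N e b' d f Ω a) (2 ^ b') (2 ^ b' - 1)).coeff j

include hsh hbz hF hd hA in
theorem tOut_bad (h : ¬ ((shf (ω 0) (ω 1) F).coeff d ≠ 0 ∧
    (at0 (shf (ω 0) (ω 1) F)).Separable)) :
    tOut κ q b Fsh Fbz Fw Fdc Fhe L (d, (p, (A, ω))) ≠ 1 := by
  have h2 := tSh_top (p := p) hsh hF hA ω
  by_cases h0 : (shf (ω 0) (ω 1) F).coeff d = 0
  · have h3 : tSh Fsh L (d, (p, (A, ω))) (d * (d + 1)) = 0 := by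
      rw [h2, h0, coeff_zero]
    have h4 : tOut κ q b Fsh Fbz Fw Fdc Fhe L (d, (p, (A, ω))) = 0 := if_pos h3
    rw [h4]
    exact zero_ne_one
  · have h5 : ¬ (tBz Fsh Fbz L (d, (p, (A, ω)))).1 ≠ 0 := by
      intro h6
      exact h ⟨h0, (bz_spec hsh hbz hd hF hA ω h0).1.mpr h6⟩
    intro h7
    rw [tOut] at h7
    simp only at h7
    rw [if_neg h5, ite_self] at h7
    exact zero_ne_one h7

include hsh hbz hw hdc hhe hF hd hA in
theorem tOut_good [Fact p.Prime] [CharP L p] {e : ℕ} (hq : q d p = p ^ e)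
    (hκ : 5 * d ^ 2 < 2 ^ κ d p) (h0 : (shf (ω 0) (ω 1) F).coeff d ≠ 0)
    (hsep : (at0 (shf (ω 0) (ω 1) F)).Separable) :
    tOut κ q b Fsh Fbz Fw Fdc Fhe L (d, (p, (A, ω))) = 1 ↔
      (resMat p (2 ^ κ d p) e (b d p) d (nrm d (ω 0) (ω 1) F)
        (vpol Fsh Fbz p d e A (ω 0) (ω 1)) (omt (2 ^ κ d p) d ω)).rank = d - 1 := by
  have h2 := tSh_top (p := p) hsh hF hA ω
  have h1 := shf_coeff_eq_C (ω 0) (ω 1) hF
  have h3 : tSh Fsh L (d, (p, (A, ω))) (d * (d + 1)) ≠ 0 := by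
    rw [h2]
    intro h
    rw [h, C_0] at h1
    exact h0 h1
  have h5 : (tBz Fsh Fbz L (d, (p, (A, ω)))).1 ≠ 0 := (bz_spec hsh hbz hd hF hA ω h0).1.mp hsep
  have h6 : matOf d d (tT κ q b Fsh Fbz Fw Fdc Fhe L (d, (p, (A, ω)))) =
      resMat p (2 ^ κ d p) e (b d p) d (nrm d (ω 0) (ω 1) F)
        (vpol Fsh Fbz p d e A (ω 0) (ω 1)) (omt (2 ^ κ d p) d ω) := by
    ext i j
    exact tT_spec hsh hw hdc hhe hd hF hA ω hq h0 hκ i j i.2 j.2
  have h7 : tOut κ q b Fsh Fbz Fw Fdc Fhe L (d, (p, (A, ω))) =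
      if (matOf d d (tT κ q b Fsh Fbz Fw Fdc Fhe L (d, (p, (A, ω))))).rank + 1 = d then 1
        else 0 := by
    rw [tOut]
    simp only
    rw [if_neg h3, if_pos h5]
  rw [h7, h6]
  constructor
  · intro h
    by_contra h8
    rw [if_neg (by omega)] at h
    exact zero_ne_one h
  · intro h
    rw [if_pos (by omega)]

include hsh hbz hF hd hA in
theorem vpol_spec [Fact p.Prime] [CharP L p] (e : ℕ)
    (h0 : (shf (ω 0) (ω 1) F).coeff d ≠ 0)
    (hsep : (at0 (shf (ω 0) (ω 1) F)).Separable) :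
    ∃ u, vpol Fsh Fbz p d e A (ω 0) (ω 1) *
      derivative ((at0 (nrm d (ω 0) (ω 1) F)).map (iterateFrobenius L p e)) +
        u * (at0 (nrm d (ω 0) (ω 1) F)).map (iterateFrobenius L p e) = 1 := by
  obtain ⟨k1, k2⟩ := bz_spec (p := p) hsh hbz hd hF hA ω h0
  obtain ⟨u, hu⟩ := k2 (k1.mp hsep)
  rw [vpol_eq]
  exact ⟨_, frob_bezout e hu⟩

end one

end core

end Pool.Agent.AbsIrr
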