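import Mathlib
import Pool.Agent.Lib.MP_2adc98_lc.ADefs

/-!
# MP_2adc98_lc, piece FMB: the fast Fourier transform on flat arrays (helper26)
-/

set_option autoImplicit false

namespace Pool.Agent.AbsIrr

open Finset

/-! ### powers of natural numbers -/

private theorem fmb_pow_eq (m : ℕ) (i : ℕ) : iterF i 1 (fun s _ => s * m) = m ^ i := by
  induction i with
  | zero => rfl
  | succ i ih => rw [iterF_succ, ih, pow_succ]

private theorem fmb_pow_le (m : ℕ) {i n : ℕ} (h : i ≤ n) : m ^ i ≤ m ^ n + 1 := by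
  rcases Nat.eq_zero_or_pos m with rfl | hm
  · rcases Nat.eq_zero_or_pos i with rfl | hi
    · simp
    · rw [zero_pow (by omega)]; exact Nat.zero_le _
  · exact (Nat.pow_le_pow_right hm h).trans (Nat.le_succ _)

private theorem fmb_aux (m n T U : ℕ) : m ^ n + 1 ≤ n + m ^ n + 0 + n + T + U + 2 := by omega

private theorem fmb_npow0 : RlzQ (a := .prod .nat .nat) (b := .nat)
    (fun _ _ x => (x.1 : ℕ) ^ (x.2 : ℕ)) (fun _ _ x => x.2 + x.1 ^ x.2) := by
  have hN : RlzQ (a := .prod .nat .nat) (b := .nat) (fun _ _ x => (x.2 : ℕ))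
      (fun _ _ x => x.2 + x.1 ^ x.2) := (RlzQ.snd RlzQ.input).mono 1 (fun K _ x => by simp)
  have h := RlzQ.iterB (a := .prod .nat .nat) (b := .nat) (f := fun K _ x s _ => (s : ℕ) * x.1)
    hN (RlzQ.lit 1)
    (RlzQ.mul (RlzQ.snd (RlzQ.fst RlzQ.input)) (RlzQ.fst (RlzQ.fst (RlzQ.fst RlzQ.input)))) 1
    (fun K _ x i hi => by
      show iterF i 1 (fun s _ => s * x.1) ≤ _
      rw [fmb_pow_eq, pow_one]
      have := fmb_pow_le x.1 hi
      exact this.trans (fmb_aux _ _ _ _))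
  refine (h.congr (fun K _ x => fmb_pow_eq _ _)).mono 2 (fun K _ x => ?_)
  simp only [Finset.sum_const_zero, add_zero]
  omega

private theorem fmb_npow {a : Ty} {A B : Fam a .nat} {ca cb : CFam a} (hA : RlzQ A ca) (hB : RlzQ B cb) :
    RlzQ (b := .nat) (fun K _ x => (A K x : ℕ) ^ (B K x : ℕ))
      (fun K _ x => ca K x + cb K x + (B K x + A K x ^ B K x)) :=
  RlzQ.comp fmb_npow0 (RlzQ.pair hA hB)


/-! ### one round -/

private theorem fmb_aux2 (m s : ℕ) : m + m * s ≤ 10 * (m * (s + 1) + 1) := by nlinarith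

private theorem fmb_aux3 (m : ℕ) : m ≤ 1 * (m + 1) := by omega

/-- one round of the transform; `p1 = s^h`, `p2 = s^(l-h-1)`, `n = s^l` -/
def fmbR {K : Type} [Field K] (p1 p2 n s B L τ : ℕ) (X : ℕ → K) : ℕ → K :=
  tabF (B * n * L) (fun N => ∑ c ∈ range s,
    X ((N / L / n * n + (N / L % n / p2 % p1 * (p2 * s) + (N / L % n % p2 + c * p2))) * L +
      (N % L + (L - τ * p2 * c * (N / L % n / p2) % L)) % L))

private theorem fmbR_rlz :
    RlzQ (a := .prod .nat (.prod .nat (.prod .nat (.prod .nat (.prod .nat (.prod .nat (.prod .nat .arr)))))))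
      (b := .arr)
      (fun _ _ y => fmbR y.1 y.2.1 y.2.2.1 y.2.2.2.1 y.2.2.2.2.1 y.2.2.2.2.2.1 y.2.2.2.2.2.2.1
        y.2.2.2.2.2.2.2)
      (fun _ _ y => y.2.2.2.2.1 * y.2.2.1 * y.2.2.2.2.2.1 * (y.2.2.2.1 + 1)) := by
  unfold fmbR
  apply RlzQ.mono
  case h =>
    apply_rules (maxDepth := 1000) [RlzQ.tab, RlzQ.sum, RlzQ.add, RlzQ.sub, RlzQ.mul, RlzQ.div, RlzQ.mod, RlzQ.get,
      RlzQ.fst, RlzQ.snd, RlzQ.input, RlzQ.lit]
  case A => exact 10
  case hc =>
    intro K _ x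
    simp only [Finset.sum_const_zero, add_zero, zero_add]
    rw [Finset.sum_const, Finset.card_range, smul_eq_mul]
    exact fmb_aux2 _ _

/-- the whole transform, `n = s^l` given.  Input `(n, (s, (l, (B, (L, (τ, A))))))` -/
def fmbG {K : Type} [Field K] (n s l B L τ : ℕ) (A : ℕ → K) : ℕ → K :=
  iterF l (tabF (B * n * L) (fun i => A i))
    (fun X h => fmbR (s ^ h) (s ^ (l - h - 1)) n s B L τ X)

private theorem fmb_sum (s l : ℕ) (n : ℕ) (hs : 2 ≤ s) (hn : s ^ l ≤ n) (T : ℕ) :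
    ∑ i ∈ range l, ((i + s ^ i) + (l - i - 1 + s ^ (l - i - 1)) + T) ≤ l * (2 * l + 2 * n + T) := by
  refine sum_range_le fun i hi => ?_
  have h1 : s ^ i ≤ s ^ l := Nat.pow_le_pow_right (by omega) hi.le
  have h2 : s ^ (l - i - 1) ≤ s ^ l := Nat.pow_le_pow_right (by omega) (by omega)
  omega

private theorem fmbG_rlz :
    RlzQ (a := .prod .nat (.prod .nat (.prod .nat (.prod .nat (.prod .nat (.prod .nat .arr))))))
      (b := .arr)
      (fun _ _ z => fmbG z.1 z.2.1 z.2.2.1 z.2.2.2.1 z.2.2.2.2.1 z.2.2.2.2.2.1 z.2.2.2.2.2.2)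
      (fun _ _ z => z.2.2.2.1 * z.1 * z.2.2.2.2.1 + z.2.2.1 + ∑ i ∈ range (z.2.2.1 : ℕ),
        ((i + z.2.1 ^ i) + (z.2.2.1 - i - 1 + z.2.1 ^ (z.2.2.1 - i - 1)) +
          z.2.2.2.1 * z.1 * z.2.2.2.2.1 * (z.2.1 + 1))) := by
  have hz : RlzQ (a := .prod .nat (.prod .nat (.prod .nat (.prod .nat (.prod .nat (.prod .nat .arr))))))
      (fun _ _ z => z) (fun _ _ _ => 0) := RlzQ.input
  have hN : RlzQ (a := .prod .nat (.prod .nat (.prod .nat (.prod .nat (.prod .nat (.prod .nat .arr))))))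
      (b := .nat) (fun _ _ z => z.2.2.1) (fun _ _ _ => 0) := RlzQ.fst (RlzQ.snd (RlzQ.snd hz))
  have hS : RlzQ (a := .prod .nat (.prod .nat (.prod .nat (.prod .nat (.prod .nat (.prod .nat .arr))))))
      (b := .arr) (fun _ _ z => tabF (z.2.2.2.1 * z.1 * z.2.2.2.2.1) (fun i => z.2.2.2.2.2.2 i))
      (fun _ _ z => z.2.2.2.1 * z.1 * z.2.2.2.2.1) := by
    apply RlzQ.mono
    case h =>
      apply_rules (maxDepth := 1000) [RlzQ.tab, RlzQ.sum, RlzQ.add, RlzQ.sub, RlzQ.mul, RlzQ.div, RlzQ.mod, RlzQ.get,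
        RlzQ.fst, RlzQ.snd, RlzQ.input, RlzQ.lit]
    case A => exact 1
    case hc =>
      intro K _ x
      simp only [Finset.sum_const_zero, add_zero, zero_add]
      exact fmb_aux3 _
  unfold fmbG
  have hw : RlzQ (a := .prod (.prod (.prod .nat (.prod .nat (.prod .nat (.prod .nat (.prod .nat (.prod .nat .arr)))))) .arr) .nat)
      (fun _ _ w => w) (fun _ _ _ => 0) := RlzQ.input
  have hb := RlzQ.comp fmbR_rlz (RlzQ.pair (fmb_npow (RlzQ.fst (RlzQ.snd (RlzQ.fst (RlzQ.fst hw)))) (RlzQ.snd hw))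
    (RlzQ.pair (fmb_npow (RlzQ.fst (RlzQ.snd (RlzQ.fst (RlzQ.fst hw))))
      (RlzQ.sub (RlzQ.sub (RlzQ.fst (RlzQ.snd (RlzQ.snd (RlzQ.fst (RlzQ.fst hw))))) (RlzQ.snd hw)) (RlzQ.lit 1)))
    (RlzQ.pair (RlzQ.fst (RlzQ.fst (RlzQ.fst hw)))
    (RlzQ.pair (RlzQ.fst (RlzQ.snd (RlzQ.fst (RlzQ.fst hw))))
    (RlzQ.pair (RlzQ.fst (RlzQ.snd (RlzQ.snd (RlzQ.snd (RlzQ.fst (RlzQ.fst hw))))))
    (RlzQ.pair (RlzQ.fst (RlzQ.snd (RlzQ.snd (RlzQ.snd (RlzQ.snd (RlzQ.fst (RlzQ.fst hw)))))))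
    (RlzQ.pair (RlzQ.fst (RlzQ.snd (RlzQ.snd (RlzQ.snd (RlzQ.snd (RlzQ.snd (RlzQ.fst (RlzQ.fst hw))))))))
      (RlzQ.snd (RlzQ.fst hw)))))))))
  have h := RlzQ.iter (a := .prod .nat (.prod .nat (.prod .nat (.prod .nat (.prod .nat (.prod .nat .arr)))))) (b := .arr) (f := fun K _ z X h => fmbR (z.2.1 ^ h) (z.2.1 ^ (z.2.2.1 - h - 1)) z.1 z.2.1 z.2.2.2.1
    z.2.2.2.2.1 z.2.2.2.2.2.1 X) hN hS hb
  refine h.mono 1 (fun K _ x => ?_)
  simp only [add_zero, zero_add, one_mul]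
  exact Nat.le_succ _

private theorem fmb_cost (s l B L n : ℕ) (hn : l < n) :
    l + n + (B * n * L + l + l * (2 * l + 2 * n + B * n * L * (s + 1))) ≤
      10 * ((s + 1) * (l + 1) * ((B + 1) * n * (L + 1)) + 1) := by
  set G := (s + 1) * (l + 1) * ((B + 1) * n * (L + 1)) with hG
  have h1 : (l + 1) * n ≤ G := by
    have : (l + 1) * n = 1 * (l + 1) * (1 * n * 1) := by ring
    rw [this, hG]
    gcongr <;> omega
  have h2 : B * n * L ≤ G := by
    have : B * n * L = 1 * 1 * (B * n * L) := by ring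
    rw [this, hG]
    gcongr <;> omega
  have h3 : l * (B * n * L * (s + 1)) ≤ G := by
    have : l * (B * n * L * (s + 1)) = (s + 1) * l * (B * n * L) := by ring
    rw [this, hG]
    gcongr <;> omega
  have h4 : l * l ≤ l * n := Nat.mul_le_mul_left _ hn.le
  nlinarith

private theorem fmb_total (s l B L : ℕ) (hs : 2 ≤ s) :
    l + s ^ l + (B * s ^ l * L + l + ∑ i ∈ range l,
      ((i + s ^ i) + (l - i - 1 + s ^ (l - i - 1)) + B * s ^ l * L * (s + 1))) ≤
      10 * ((s + 1) * (l + 1) * ((B + 1) * s ^ l * (L + 1)) + 1) := by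
  have h1 := fmb_sum s l (s ^ l) hs le_rfl (B * s ^ l * L * (s + 1))
  have h2 : l < s ^ l := Nat.lt_pow_self (by omega)
  have h3 := fmb_cost s l B L (s ^ l) h2
  omega

/-- the whole transform.  Input `(s, (l, (B, (L, (τ, A)))))` -/
noncomputable def fmbF : Fam (.prod .nat (.prod .nat (.prod .nat (.prod .nat (.prod .nat .arr))))) .arr :=
  fun _ _ x => if (x.1 : ℕ) < 2 then x.2.2.2.2.2 else
    fmbG ((x.1 : ℕ) ^ (x.2.1 : ℕ)) x.1 x.2.1 x.2.2.1 x.2.2.2.1 x.2.2.2.2.1 x.2.2.2.2.2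

private theorem fmbF_rlz : RlzQ fmbF (fun _ _ x =>
      (x.1 + 1) * (x.2.1 + 1) * ((x.2.2.1 + 1) * x.1 ^ x.2.1 * (x.2.2.2.1 + 1))) := by
  have hz : RlzQ (a := .prod .nat (.prod .nat (.prod .nat (.prod .nat (.prod .nat .arr)))))
      (fun _ _ z => z) (fun _ _ _ => 0) := RlzQ.input
  have h := RlzQ.iteLt (RlzQ.fst hz) (RlzQ.lit 2)
    (RlzQ.snd (RlzQ.snd (RlzQ.snd (RlzQ.snd (RlzQ.snd hz)))))
    (RlzQ.comp fmbG_rlz (RlzQ.pair (fmb_npow (RlzQ.fst hz) (RlzQ.fst (RlzQ.snd hz))) hz))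
  unfold fmbF
  refine h.mono 10 (fun K _ x => ?_)
  by_cases hs : (x.1 : ℕ) < 2
  · rw [if_pos hs]
    exact Nat.zero_le _
  · rw [if_neg hs]
    simp only [add_zero, zero_add]
    exact fmb_total _ _ _ _ (not_lt.1 hs)

/-! ### correctness -/

private theorem fmb_sh {L : ℕ} (hL : 0 < L) (e t : ℕ) :
    (((e + (L - t % L)) % L : ℕ) : ℤ) = ((e : ℤ) - t) % L := by
  have h1 : t % L ≤ L := (Nat.mod_lt t hL).le
  have h2 : ((L - t % L : ℕ) : ℤ) = (L : ℤ) - (t : ℤ) % L := by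
    rw [Nat.cast_sub h1, Int.natCast_mod]
  rw [Int.natCast_mod, Nat.cast_add, h2]
  rw [Int.emod_eq_emod_iff_emod_sub_eq_zero]
  have h3 : (e : ℤ) + (L - (t : ℤ) % L) - (e - t) = L * (1 + (t : ℤ) / L) := by
    have := Int.emod_add_mul_ediv (t : ℤ) L
    linear_combination (-1 : ℤ) * this
  rw [h3]
  exact Int.mul_emod_right _ _

/-- composition of shifts -/
private theorem fmb_sh_sh {L : ℕ} (hL : 0 < L) (e t1 t2 t3 : ℕ) (h : ((t1 + t2 : ℕ) : ℤ) ≡ t3 [ZMOD L]) :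
    ((e + (L - t1 % L)) % L + (L - t2 % L)) % L = (e + (L - t3 % L)) % L := by
  apply Int.ofNat_inj.1
  show (((((e + (L - t1 % L)) % L + (L - t2 % L)) % L : ℕ)) : ℤ) = (((e + (L - t3 % L)) % L : ℕ) : ℤ)
  rw [fmb_sh hL, fmb_sh hL, fmb_sh hL]
  rw [Int.emod_sub_emod]
  show (_ : ℤ) ≡ _ [ZMOD L]
  have h2 : ((t1 : ℤ) + t2) ≡ t3 [ZMOD L] := by exact_mod_cast h
  have h3 := (Int.ModEq.refl (n := (L : ℤ)) (e : ℤ)).sub h2
  rwa [← sub_sub] at h3

private theorem fmb_reindex {M : Type*} [AddCommMonoid M] (s p : ℕ) (g : ℕ → M) :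
    ∑ i ∈ range (p * s), g i = ∑ c ∈ range s, ∑ i ∈ range p, g (c + s * i) := by
  induction p with
  | zero => simp
  | succ p ih =>
    rw [add_mul, one_mul, Finset.sum_range_add, ih, ← Finset.sum_add_distrib]
    refine Finset.sum_congr rfl fun c _ => ?_
    rw [Finset.sum_range_succ]
    congr 2
    ring

/-- the state after `h` rounds, as a function of the flat index; `p1 = s^h`, `q = s^(l-h)` -/
private def fmbInv {K : Type} [Field K] (p1 q n L τ : ℕ) (A : ℕ → K) (N : ℕ) : K :=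
  ∑ i ∈ range p1, A ((N / L / n * n + (N / L % n % q + q * i)) * L +
    (N % L + (L - τ * q * i * (N / L % n / q) % L)) % L)

/-- the inductive step -/
private theorem fmb_step {K : Type} [Field K] (p1 p2 s B L τ : ℕ) (hp1 : 0 < p1) (hp2 : 0 < p2)
    (hs : 0 < s) (hL : 0 < L) (hdvd : L ∣ τ * (p1 * (p2 * s))) (A : ℕ → K) :
    fmbR p1 p2 (p1 * (p2 * s)) s B L τ (tabF (B * (p1 * (p2 * s)) * L)
      (fmbInv p1 (p2 * s) (p1 * (p2 * s)) L τ A)) =
    tabF (B * (p1 * (p2 * s)) * L) (fmbInv (p1 * s) p2 (p1 * (p2 * s)) L τ A) := by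
  set n := p1 * (p2 * s) with hn
  have hnpos : 0 < n := by positivity
  funext N
  unfold fmbR
  simp only [tabF]
  split_ifs with hN
  swap
  · rfl
  -- decomposition of the index
  set c := N / L / n with hc
  set x := N / L % n with hx
  set e := N % L with he
  have hcB : c < B := by
    rw [hc, Nat.div_div_eq_div_mul]
    apply Nat.div_lt_of_lt_mul
    calc N < B * n * L := hN
      _ = L * n * B := by ring
  have hxn : x < n := Nat.mod_lt _ hnpos
  have heL : e < L := Nat.mod_lt _ hL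
  set u := x / p2 with hu
  set v := x % p2 with hv
  have hvp : v < p2 := Nat.mod_lt _ hp2
  rw [fmbInv, ← hc, ← hx, ← he, ← hu, ← hv, fmb_reindex s p1]
  refine Finset.sum_congr rfl fun c' hc' => ?_
  have hc's := Finset.mem_range.1 hc'
  set w := v + c' * p2 with hw
  have hws : w < p2 * s := by
    have : c' + 1 ≤ s := hc's
    calc w = v + c' * p2 := rfl
      _ < p2 + c' * p2 := by omega
      _ = (c' + 1) * p2 := by ring
      _ ≤ s * p2 := Nat.mul_le_mul_right _ this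
      _ = p2 * s := by ring
  set u0 := u % p1 with hu0
  have hu0p : u0 < p1 := Nat.mod_lt _ hp1
  set x' := u0 * (p2 * s) + w with hx'
  have hx'n : x' < n := by
    calc x' < u0 * (p2 * s) + p2 * s := by omega
      _ = (u0 + 1) * (p2 * s) := by ring
      _ ≤ p1 * (p2 * s) := Nat.mul_le_mul_right _ hu0p
  set e' := (e + (L - τ * p2 * c' * u % L)) % L with he'
  have he'L : e' < L := Nat.mod_lt _ hL
  have hdiv : ((c * n + x') * L + e') / L = c * n + x' := by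
    rw [mul_comm, Nat.mul_add_div hL, Nat.div_eq_of_lt he'L, add_zero]
  have hmod : ((c * n + x') * L + e') % L = e' := by
    rw [mul_comm, Nat.mul_add_mod, Nat.mod_eq_of_lt he'L]
  have hdivn : (c * n + x') / n = c := by
    rw [mul_comm, Nat.mul_add_div hnpos, Nat.div_eq_of_lt hx'n, add_zero]
  have hmodn : (c * n + x') % n = x' := by
    rw [mul_comm, Nat.mul_add_mod, Nat.mod_eq_of_lt hx'n]
  have hps : 0 < p2 * s := by positivity
  have hdivq : x' / (p2 * s) = u0 := by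
    rw [hx', mul_comm u0, Nat.mul_add_div hps, Nat.div_eq_of_lt hws, add_zero]
  have hmodq : x' % (p2 * s) = w := by
    rw [hx', mul_comm u0, Nat.mul_add_mod, Nat.mod_eq_of_lt hws]
  have hlt : (c * n + x') * L + e' < B * n * L := by
    calc (c * n + x') * L + e' < (c * n + x') * L + L := by omega
      _ = (c * n + (x' + 1)) * L := by ring
      _ ≤ (c * n + n) * L := Nat.mul_le_mul_right _ (by omega)
      _ = (c + 1) * n * L := by ring
      _ ≤ B * n * L := Nat.mul_le_mul_right _ (Nat.mul_le_mul_right _ hcB)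
  rw [if_pos hlt, fmbInv, hdiv, hmod, hdivn, hmodn, hdivq, hmodq]
  refine Finset.sum_congr rfl fun i _ => ?_
  congr 1
  have h1 : w + p2 * s * i = v + p2 * (c' + s * i) := by rw [hw]; ring
  rw [h1]
  congr 1
  refine fmb_sh_sh hL e _ _ _ ?_
  obtain ⟨z, hz⟩ := hdvd
  have hu' : u = p1 * (u / p1) + u0 := (Nat.div_add_mod u p1).symm
  have h2 : τ * p2 * (c' + s * i) * u = (τ * p2 * c' * u + τ * (p2 * s) * i * u0) +
      L * (z * (i * (u / p1))) := by
    have h3 : τ * p2 * (c' + s * i) * u = τ * p2 * c' * u + τ * (p2 * s) * i * u := by ring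
    have h4 : τ * (p2 * s) * i * u = τ * (p2 * s) * i * (p1 * (u / p1) + u0) := by rw [← hu']
    rw [h3, h4]
    have h5 : τ * (p2 * s) * i * (p1 * (u / p1) + u0) =
        τ * (p2 * s) * i * u0 + (τ * (p1 * (p2 * s))) * (i * (u / p1)) := by ring
    rw [h5, ← hn, hz]
    ring
  rw [h2, Int.modEq_iff_dvd]
  refine ⟨((z * (i * (u / p1)) : ℕ) : ℤ), ?_⟩
  push_cast
  ring

private theorem fmb_iter {K : Type} [Field K] (s l B L τ : ℕ) (hs : 0 < s) (hL : 0 < L)
    (hdvd : L ∣ τ * s ^ l) (A : ℕ → K) (h : ℕ) (hh : h ≤ l) :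
    iterF h (tabF (B * s ^ l * L) (fun i => A i))
      (fun X h => fmbR (s ^ h) (s ^ (l - h - 1)) (s ^ l) s B L τ X) =
    tabF (B * s ^ l * L) (fmbInv (s ^ h) (s ^ (l - h)) (s ^ l) L τ A) := by
  induction h with
  | zero =>
    rw [iterF_zero]
    funext N
    simp only [tabF]
    split_ifs with hN
    swap
    · rfl
    have hnpos : 0 < s ^ l := by positivity
    rw [fmbInv, pow_zero, Finset.sum_range_one, Nat.sub_zero, mul_zero, add_zero, mul_zero, zero_mul,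
      Nat.zero_mod, Nat.sub_zero, Nat.add_mod_right, Nat.mod_mod, Nat.mod_mod, Nat.div_add_mod',
      Nat.div_add_mod']
  | succ h ih =>
    rw [iterF_succ, ih (by omega)]
    have h1 : s ^ (l - h) = s ^ (l - h - 1) * s := by
      rw [← pow_succ]
      congr 1
      omega
    have h2 : s ^ l = s ^ h * (s ^ (l - h - 1) * s) := by
      rw [← h1, ← pow_add]
      congr 1
      omega
    have h3 : l - (h + 1) = l - h - 1 := by omega
    have h4 := fmb_step (s ^ h) (s ^ (l - h - 1)) s B L τ (by positivity) (by positivity) hs hL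
      (by rw [← h2]; exact hdvd) A
    rw [← h2] at h4
    rw [h1, h3, pow_succ]
    exact h4

theorem fft : ∃ F : Fam (.prod .nat (.prod .nat (.prod .nat (.prod .nat (.prod .nat .arr))))) .arr,
    RlzQ F (fun _ _ x =>
      (x.1 + 1) * (x.2.1 + 1) * ((x.2.2.1 + 1) * x.1 ^ x.2.1 * (x.2.2.2.1 + 1))) ∧
    ∀ (K : Type) [Field K] (s l B L τ : ℕ) (A : ℕ → K), 2 ≤ s → L ∣ τ * s ^ l →
      F K (s, (l, (B, (L, (τ, A))))) = dftB B (s ^ l) L τ A := by
  refine ⟨fmbF, fmbF_rlz, fun K _ s l B L τ A hs hdvd => ?_⟩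
  have h1 : fmbF K (s, (l, (B, (L, (τ, A))))) = fmbG (s ^ l) s l B L τ A := if_neg (not_lt.2 hs)
  rw [h1, fmbG]
  rcases Nat.eq_zero_or_pos L with rfl | hL
  · -- empty arrays
    have hX : ∀ h : ℕ, iterF h (tabF (B * s ^ l * 0) (fun i => A i))
        (fun X h => fmbR (s ^ h) (s ^ (l - h - 1)) (s ^ l) s B 0 τ X) = fun _ => 0 := by
      intro h
      cases h with
      | zero => funext N; simp [tabF]
      | succ h => rw [iterF_succ]; funext N; simp [fmbR, tabF]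
    rw [hX]
    funext N
    simp [dftB, tabF]
  · rw [fmb_iter s l B L τ (by omega) hL hdvd A l le_rfl]
    funext N
    unfold dftB
    simp only [tabF]
    split_ifs with hN
    swap
    · rfl
    rw [fmbInv, Nat.sub_self, pow_zero]
    refine Finset.sum_congr rfl fun i _ => ?_
    rw [Nat.mod_one, zero_add, one_mul, Nat.div_div_eq_div_mul, mul_comm L (s ^ l), Nat.div_one, mul_one]

end Pool.Agent.AbsIrr
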