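import Mathlib

/-!
# MP_2adc98_lc, piece FMA : Fourier inversion modulo `Φ_s(w^(s^k))` (helper78)
-/

set_option autoImplicit false

namespace Pool.Agent.AbsIrr

open Finset Polynomial

private theorem geom_mul {R : Type*} [CommRing R] (y : R) (a b : ℕ) :
    ∑ u ∈ range (a * b), y ^ u = (∑ v ∈ range a, y ^ v) * ∑ c ∈ range b, (y ^ a) ^ c := by
  induction b with
  | zero => simp
  | succ b ih =>
    rw [Nat.mul_succ, Finset.sum_range_add, ih, Finset.sum_range_succ, mul_add]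
    congr 1
    rw [Finset.sum_mul]
    refine Finset.sum_congr rfl fun v _ => ?_
    rw [← pow_mul, ← pow_add]
    congr 1
    ring

private theorem sum_pow_zero {R : Type*} [CommRing R] {s : ℕ} (hs : s.Prime) {ρ : R}
    (h : ∑ c ∈ range s, ρ ^ c = 0) {i : ℕ} (hi : ¬ s ∣ i) : ∑ c ∈ range s, (ρ ^ i) ^ c = 0 := by
  have h1 : ρ ^ s = 1 := by
    have := geom_sum_mul ρ s
    rw [h, zero_mul] at this
    exact (sub_eq_zero.1 this.symm)
  have hcop : Nat.Coprime s i := (Nat.Prime.coprime_iff_not_dvd hs).2 hi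
  have hinj : Set.InjOn (fun c => i * c % s) (range s : Set ℕ) := by
    intro c1 hc1 c2 hc2 h12
    have h3 : i * c1 ≡ i * c2 [MOD s] := h12
    have h4 : c1 ≡ c2 [MOD s] := Nat.ModEq.cancel_left_of_coprime hcop h3
    have h5 : c1 % s = c2 % s := h4
    rwa [Nat.mod_eq_of_lt (mem_range.1 (mem_coe.1 hc1)),
      Nat.mod_eq_of_lt (mem_range.1 (mem_coe.1 hc2))] at h5
  have himg : (range s).image (fun c => i * c % s) = range s := by
    refine eq_of_subset_of_card_le ?_ ?_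
    · intro z hz
      obtain ⟨c, -, rfl⟩ := mem_image.1 hz
      exact mem_range.2 (Nat.mod_lt _ hs.pos)
    · rw [card_image_of_injOn hinj]
  rw [← himg, sum_image hinj] at h
  rw [← h]
  refine sum_congr rfl fun c _ => ?_
  rw [← pow_mul]
  conv_lhs => rw [← Nat.div_add_mod (i * c) s, pow_add, pow_mul, h1, one_pow, one_mul]

private theorem dft_zero {R : Type*} [CommRing R] {s : ℕ} (hs : s.Prime) {x : R} {k l : ℕ}
    (hlk : l ≤ k + 1) (h : ∑ c ∈ range s, x ^ (c * s ^ k) = 0) {i : ℕ} (hi : ¬ s ^ l ∣ i) :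
    ∑ u ∈ range (s ^ l), x ^ (s ^ (k + 1 - l) * i * u) = 0 := by
  have hi0 : i ≠ 0 := by
    rintro rfl
    exact hi (dvd_zero _)
  obtain ⟨e, i', hi', rfl⟩ := Nat.exists_eq_pow_mul_and_not_dvd hi0 s hs.ne_one
  have hel : e < l := by
    by_contra hcon
    exact hi ((pow_dvd_pow s (not_lt.1 hcon)).trans (dvd_mul_right _ _))
  have hl1 : s ^ l = s ^ (l - e - 1) * (s * s ^ e) := by
    rw [← pow_succ', ← pow_add]
    congr 1
    omega
  have hρ : ∑ c ∈ range s, (x ^ (s ^ k)) ^ c = 0 := by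
    rw [← h]
    refine sum_congr rfl fun c _ => ?_
    rw [← pow_mul, mul_comm]
  have h1 : ∀ u, x ^ (s ^ (k + 1 - l) * (s ^ e * i') * u) = (x ^ (s ^ (k + 1 - l) * (s ^ e * i'))) ^ u :=
    fun u => pow_mul _ _ _
  simp only [h1]
  rw [hl1, geom_mul, geom_mul]
  have h2 : (x ^ (s ^ (k + 1 - l) * (s ^ e * i'))) ^ (s ^ (l - e - 1)) = (x ^ (s ^ k)) ^ i' := by
    rw [← pow_mul, ← pow_mul]
    congr 1
    have h3 : s ^ (k + 1 - l) * s ^ e * s ^ (l - e - 1) = s ^ k := by
      rw [← pow_add, ← pow_add]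
      congr 1
      omega
    rw [← h3]
    ring
  rw [h2, sum_pow_zero hs hρ hi', zero_mul, mul_zero]

private theorem dft_one {R : Type*} [CommRing R] {s : ℕ} {x : R} {k l : ℕ}
    (hlk : l ≤ k + 1) (h : x ^ (s ^ (k + 1)) = 1) {i : ℕ} (hi : s ^ l ∣ i) :
    ∑ u ∈ range (s ^ l), x ^ (s ^ (k + 1 - l) * i * u) = ((s ^ l : ℕ) : R) := by
  obtain ⟨t, rfl⟩ := hi
  have h1 : ∀ u, x ^ (s ^ (k + 1 - l) * (s ^ l * t) * u) = 1 := by
    intro u
    have h2 : s ^ (k + 1 - l) * (s ^ l * t) * u = s ^ (k + 1) * (t * u) := by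
      have h3 : s ^ (k + 1 - l) * s ^ l = s ^ (k + 1) := by
        rw [← pow_add]
        congr 1
        omega
      rw [← h3]
      ring
    rw [h2, pow_mul, h, one_pow]
  simp only [h1, sum_const, card_range, nsmul_eq_mul, mul_one]

private theorem idx_iff {n i i' j : ℕ} (hi : i < n) (hi' : i' < n) (hj : j < n) :
    n ∣ i + i' + (n - 1) * j ↔ i' = (j + n - i) % n := by
  have hn : 1 ≤ n := by omega
  have hval : (j + n - i) % n = if i ≤ j then j - i else j + n - i := by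
    split_ifs with h
    · have : j + n - i = j - i + n := by omega
      rw [this, Nat.add_mod_right, Nat.mod_eq_of_lt (by omega)]
    · rw [Nat.mod_eq_of_lt (by omega)]
  obtain ⟨m, rfl⟩ : ∃ m, n = m + 1 := ⟨n - 1, by omega⟩
  rw [Nat.add_sub_cancel]
  constructor
  · rintro ⟨t, ht⟩
    rw [hval]
    -- `i + i' - j = n (t - j)`
    have h1 : ((i : ℤ) + i' - j) = ((m : ℤ) + 1) * ((t : ℤ) - j) := by
      have : ((i + i' + m * j : ℕ) : ℤ) = (((m + 1) * t : ℕ) : ℤ) := by exact_mod_cast ht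
      push_cast at this
      linarith
    have h2 : (t : ℤ) - j < 2 := by
      by_contra hcon
      push Not at hcon
      have : ((m : ℤ) + 1) * 2 ≤ ((m : ℤ) + 1) * ((t : ℤ) - j) :=
        mul_le_mul_of_nonneg_left hcon (by positivity)
      omega
    have h3 : -1 < (t : ℤ) - j := by
      by_contra hcon
      push Not at hcon
      have : ((m : ℤ) + 1) * ((t : ℤ) - j) ≤ ((m : ℤ) + 1) * (-1) :=
        mul_le_mul_of_nonneg_left hcon (by positivity)
      omega
    have h4 : (t : ℤ) - j = 0 ∨ (t : ℤ) - j = 1 := by omega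
    rcases h4 with h4 | h4
    · rw [h4, mul_zero] at h1
      split_ifs <;> omega
    · rw [h4, mul_one] at h1
      split_ifs <;> omega
  · intro h
    rw [hval] at h
    split_ifs at h with hij
    · refine ⟨j, ?_⟩
      have : i + i' = j := by omega
      rw [this]
      ring
    · refine ⟨j + 1, ?_⟩
      have : i + i' = j + (m + 1) := by omega
      rw [this]
      ring

theorem dft_inversion {K : Type} [Field K] {s : ℕ} (hs : s.Prime) (k l : ℕ) (hl : 1 ≤ l)
    (hlk : l ≤ k + 1) (a b : ℕ → K[X]) (j : ℕ) (hj : j < s ^ l) :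
    (∑ c ∈ range s, (X : K[X]) ^ (c * s ^ k)) ∣
      (∑ u ∈ range (s ^ l),
        (∑ i ∈ range (s ^ l), a i * X ^ (s ^ (k + 1 - l) * i * u)) *
        (∑ i ∈ range (s ^ l), b i * X ^ (s ^ (k + 1 - l) * i * u)) *
          X ^ ((s ^ (k + 1) - s ^ (k + 1 - l)) * j * u)) -
      C ((s ^ l : ℕ) : K) * ∑ i ∈ range (s ^ l), a i * b ((j + s ^ l - i) % s ^ l) := by
  classical
  have _ := hl
  set Φ : K[X] := ∑ c ∈ range s, (X : K[X]) ^ (c * s ^ k) with hΦ
  rw [← Ideal.mem_span_singleton, ← Ideal.Quotient.eq]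
  set q : K[X] →+* K[X] ⧸ Ideal.span {Φ} := Ideal.Quotient.mk (Ideal.span {Φ}) with hq
  set x : K[X] ⧸ Ideal.span {Φ} := q X with hx
  have hΦ0 : ∑ c ∈ range s, x ^ (c * s ^ k) = 0 := by
    have h1 : q Φ = 0 := Ideal.Quotient.eq_zero_iff_mem.2 (Ideal.mem_span_singleton_self Φ)
    have h2 : q Φ = ∑ c ∈ range s, q ((X : K[X]) ^ (c * s ^ k)) := map_sum q _ _
    rw [← h1, h2]
    refine sum_congr rfl fun c _ => ?_
    rw [map_pow]
  have hN : x ^ (s ^ (k + 1)) = 1 := by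
    have h1 := geom_sum_mul (x ^ (s ^ k)) s
    have h2 : ∑ c ∈ range s, (x ^ (s ^ k)) ^ c = 0 := by
      rw [← hΦ0]
      refine sum_congr rfl fun c _ => ?_
      rw [← pow_mul, mul_comm]
    rw [h2, zero_mul, ← pow_mul, ← pow_succ] at h1
    exact sub_eq_zero.1 h1.symm
  have hexp : ∀ i i' u : ℕ, s ^ (k + 1 - l) * i * u + s ^ (k + 1 - l) * i' * u +
      (s ^ (k + 1) - s ^ (k + 1 - l)) * j * u =
      s ^ (k + 1 - l) * (i + i' + (s ^ l - 1) * j) * u := by
    intro i i' u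
    have h1 : s ^ (k + 1) - s ^ (k + 1 - l) = s ^ (k + 1 - l) * (s ^ l - 1) := by
      rw [Nat.mul_sub, mul_one, ← pow_add]
      congr 2
      omega
    rw [h1]
    ring
  have hL : q (∑ u ∈ range (s ^ l),
        (∑ i ∈ range (s ^ l), a i * X ^ (s ^ (k + 1 - l) * i * u)) *
        (∑ i ∈ range (s ^ l), b i * X ^ (s ^ (k + 1 - l) * i * u)) *
          X ^ ((s ^ (k + 1) - s ^ (k + 1 - l)) * j * u)) =
      ∑ i ∈ range (s ^ l), ∑ i' ∈ range (s ^ l), q (a i) * q (b i') *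
        ∑ u ∈ range (s ^ l), x ^ (s ^ (k + 1 - l) * (i + i' + (s ^ l - 1) * j) * u) := by
    rw [map_sum]
    have h1 : ∀ u, q ((∑ i ∈ range (s ^ l), a i * X ^ (s ^ (k + 1 - l) * i * u)) *
        (∑ i ∈ range (s ^ l), b i * X ^ (s ^ (k + 1 - l) * i * u)) *
          X ^ ((s ^ (k + 1) - s ^ (k + 1 - l)) * j * u)) =
        ∑ i ∈ range (s ^ l), ∑ i' ∈ range (s ^ l), q (a i) * q (b i') *
          x ^ (s ^ (k + 1 - l) * (i + i' + (s ^ l - 1) * j) * u) := by
      intro u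
      rw [map_mul, map_mul, map_sum, map_sum, map_pow, sum_mul_sum, sum_mul]
      refine sum_congr rfl fun i _ => ?_
      rw [sum_mul]
      refine sum_congr rfl fun i' _ => ?_
      rw [← hexp, pow_add, pow_add, map_mul, map_mul, map_pow, map_pow]
      ring
    simp only [h1]
    rw [sum_comm]
    refine sum_congr rfl fun i _ => ?_
    rw [sum_comm]
    refine sum_congr rfl fun i' _ => ?_
    rw [mul_sum]
  rw [hL, map_mul, map_sum, mul_sum]
  refine sum_congr rfl fun i hi => ?_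
  have hi' := mem_range.1 hi
  have hn : 0 < s ^ l := by omega
  rw [sum_eq_single ((j + s ^ l - i) % s ^ l)]
  · rw [dft_one hlk hN ((idx_iff hi' (Nat.mod_lt _ hn) hj).2 rfl), map_mul]
    have h2 : q (C ((s ^ l : ℕ) : K)) = ((s ^ l : ℕ) : K[X] ⧸ Ideal.span {Φ}) := by
      rw [map_natCast, map_natCast]
    rw [h2]
    ring
  · intro i' hi1 hne
    rw [dft_zero hs hlk hΦ0 (fun hd => hne ((idx_iff hi' (mem_range.1 hi1) hj).1 hd)), mul_zero]
  · intro hcon
    exact absurd (mem_range.2 (Nat.mod_lt _ hn)) hcon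

end Pool.Agent.AbsIrr
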