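import Mathlib
import Pool.Agent.Lib.MP_2adc98_lc.ADefs
import Pool.Agent.Lib.MP_2adc98_lc.FMA

/-!
# MP_2adc98_lc, piece FMC: one level of the recursion for fast multiplication (helper15)
-/

set_option autoImplicit false

namespace Pool.Agent.AbsIrr

open Finset Polynomial

section FMC
variable {K : Type} [Field K]

private lemma fmc_tabF_lt {n : ℕ} {f : ℕ → K} {i : ℕ} (h : i < n) : tabF n f i = f i := by
  simp [tabF, h]

private lemma fmc_div {c L e : ℕ} (he : e < L) : (c * L + e) / L = c := by
  have hL : 0 < L := by omega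
  rw [add_comm, Nat.add_mul_div_right _ _ hL, Nat.div_eq_of_lt he, zero_add]

private lemma fmc_mod {c L e : ℕ} (he : e < L) : (c * L + e) % L = e := by
  rw [add_comm, Nat.add_mul_mod_self_right, Nat.mod_eq_of_lt he]

private lemma fmc_lt {c M L e : ℕ} (hc : c < M) (he : e < L) : c * L + e < M * L := by
  have : (c + 1) * L ≤ M * L := Nat.mul_le_mul_right _ hc
  nlinarith

/-- `X^e ≡ X^(e % L)` modulo `X^L - 1` -/
private lemma fmc_Xmod (L e : ℕ) : (X ^ L - 1 : K[X]) ∣ X ^ e - X ^ (e % L) := by
  have h1 : (X ^ e : K[X]) = X ^ (e % L) * (X ^ L) ^ (e / L) := by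
    rw [← pow_mul, ← pow_add, Nat.mod_add_div]
  rw [h1, ← mul_sub_one]
  exact Dvd.dvd.mul_left (by simpa using sub_one_dvd_pow_sub_one (X ^ L : K[X]) (e / L)) _

/-- rotation -/
private lemma fmc_rot (L t : ℕ) (a : ℕ → K) : (X ^ L - 1 : K[X]) ∣
    (∑ e ∈ range L, monomial e (a e)) * X ^ t -
      ∑ e ∈ range L, monomial e (a ((e + (L - t % L)) % L)) := by
  rcases Nat.eq_zero_or_pos L with hL | hL
  · subst hL; simp
  have h1 : ∑ e ∈ range L, monomial e (a ((e + (L - t % L)) % L)) =
      ∑ e ∈ range L, monomial ((e + t) % L) (a e) := by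
    symm
    refine Finset.sum_nbij' (fun e => (e + t) % L) (fun e => (e + (L - t % L)) % L) ?_ ?_ ?_ ?_ ?_
    · intro e _; simpa using Nat.mod_lt _ hL
    · intro e _; simpa using Nat.mod_lt _ hL
    · intro e he
      have he' : e < L := by simpa using he
      have ht := Nat.mod_lt t hL
      change ((e + t) % L + (L - t % L)) % L = e
      rw [Nat.add_mod, Nat.mod_mod, ← Nat.add_mod]
      have h2 : e + t + (L - t % L) = e + L * (t / L + 1) := by
        have := Nat.mod_add_div t L
        rw [mul_add]; omega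
      rw [h2, Nat.add_mul_mod_self_left, Nat.mod_eq_of_lt he']
    · intro e he
      have he' : e < L := by simpa using he
      have ht := Nat.mod_lt t hL
      change ((e + (L - t % L)) % L + t) % L = e
      rw [Nat.add_mod, Nat.mod_mod, ← Nat.add_mod]
      have h2 : e + (L - t % L) + t = e + L * (t / L + 1) := by
        have := Nat.mod_add_div t L
        rw [mul_add]; omega
      rw [h2, Nat.add_mul_mod_self_left, Nat.mod_eq_of_lt he']
    · intro e he
      have he' : e < L := by simpa using he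
      have ht := Nat.mod_lt t hL
      congr 2
      rw [Nat.add_mod ((e + t) % L), Nat.mod_mod, ← Nat.add_mod]
      have h2 : e + t + (L - t % L) = e + L * (t / L + 1) := by
        have := Nat.mod_add_div t L
        rw [mul_add]; omega
      rw [h2, Nat.add_mul_mod_self_left, Nat.mod_eq_of_lt he']
  rw [h1, Finset.sum_mul, ← Finset.sum_sub_distrib]
  refine Finset.dvd_sum fun e _ => ?_
  rw [← C_mul_X_pow_eq_monomial, ← C_mul_X_pow_eq_monomial, mul_assoc, ← pow_add, ← mul_sub]
  exact Dvd.dvd.mul_left (fmc_Xmod L (e + t)) _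

private lemma fmc_blk_dft (B n L τ : ℕ) (A : ℕ → K) (b u : ℕ) (hb : b < B) (hu : u < n) :
    (X ^ L - 1 : K[X]) ∣ (∑ i ∈ range n, blk L A (b * n + i) * X ^ (τ * i * u)) -
      blk L (dftB B n L τ A) (b * n + u) := by
  have h1 : blk L (dftB B n L τ A) (b * n + u) = ∑ i ∈ range n, ∑ e ∈ range L,
      monomial e (A ((b * n + i) * L + (e + (L - τ * i * u % L)) % L)) := by
    rw [blk, Finset.sum_comm]
    refine Finset.sum_congr rfl fun e he => ?_
    have he' : e < L := by simpa using he
    rw [← map_sum]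
    congr 1
    have h2 : (b * n + u) * L + e < B * n * L := fmc_lt (fmc_lt hb hu) he'
    rw [dftB, fmc_tabF_lt h2, fmc_div he', fmc_mod he', fmc_mod hu]
    have h3 : ((b * n + u) * L + e) / (n * L) = b := by
      rw [mul_comm n L, ← Nat.div_div_eq_div_mul, fmc_div he', fmc_div hu]
    rw [h3]
  rw [h1, ← Finset.sum_sub_distrib]
  refine Finset.dvd_sum fun i _ => ?_
  exact fmc_rot L (τ * i * u) (fun e => A ((b * n + i) * L + e))

private lemma fmc_blk_cyc (M L : ℕ) (A A' : ℕ → K) (c : ℕ) (hc : c < M) :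
    (X ^ L - 1 : K[X]) ∣ blk L A c * blk L A' c - blk L (cycB M L A A') c := by
  have h1 : blk L (cycB M L A A') c = ∑ i ∈ range L, C (A (c * L + i)) * ∑ e ∈ range L,
      monomial e (A' (c * L + (e + (L - i % L)) % L)) := by
    have h2 : ∀ i ∈ range L, C (A (c * L + i)) * ∑ e ∈ range L,
        monomial e (A' (c * L + (e + (L - i % L)) % L)) =
        ∑ e ∈ range L, monomial e (A (c * L + i) * A' (c * L + (e + (L - i)) % L)) := by
      intro i hi
      have hi' : i < L := by simpa using hi
      rw [Finset.mul_sum, Nat.mod_eq_of_lt hi']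
      refine Finset.sum_congr rfl fun e _ => ?_
      rw [C_mul_monomial]
    rw [Finset.sum_congr rfl h2, blk, Finset.sum_comm]
    refine Finset.sum_congr rfl fun e he => ?_
    have he' : e < L := by simpa using he
    rw [← map_sum]
    congr 1
    have h3 : c * L + e < M * L := fmc_lt hc he'
    rw [cycB, fmc_tabF_lt h3, fmc_div he', fmc_mod he']
  have h2 : blk L A c * blk L A' c = ∑ i ∈ range L, C (A (c * L + i)) * (blk L A' c * X ^ i) := by
    conv_lhs => rw [blk, Finset.sum_mul]
    refine Finset.sum_congr rfl fun i _ => ?_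
    rw [← C_mul_X_pow_eq_monomial]; ring
  rw [h1, h2, ← Finset.sum_sub_distrib]
  refine Finset.dvd_sum fun i _ => ?_
  rw [← mul_sub]
  exact Dvd.dvd.mul_left (fmc_rot L i (fun e => A' (c * L + e))) _

private lemma fmc_blk_pad (M m L : ℕ) (hm : m ≤ L) (A : ℕ → K) (c : ℕ) (hc : c < M) :
    blk L (padB M m L A) c = blk m A c := by
  rw [blk, blk]
  rw [← Finset.sum_subset (Finset.range_mono hm)]
  · refine Finset.sum_congr rfl fun e he => ?_
    have he' : e < m := by simpa using he
    have he2 : e < L := by omega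
    rw [padB, fmc_tabF_lt (fmc_lt hc he2), fmc_div he2, fmc_mod he2, if_pos he']
  · intro e he hne
    have he' : e < L := by simpa using he
    have h2 : ¬ e < m := by simpa using hne
    rw [padB, fmc_tabF_lt (fmc_lt hc he'), fmc_mod he', if_neg h2, map_zero]

private lemma fmc_blk_coeff (w : ℕ) (A : ℕ → K) (c x : ℕ) :
    (blk w A c).coeff x = if x < w then A (c * w + x) else 0 := by
  rw [blk, finsetSum_coeff]
  simp only [coeff_monomial]
  rw [Finset.sum_ite_eq']
  simp

/-- reduction modulo `Φ_s (w^M)` -/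
private lemma fmc_red {s M : ℕ} (hs : 2 ≤ s) (V c : K[X]) (hV : ∀ x, s * M ≤ x → V.coeff x = 0)
    (hc : ∀ x, (s - 1) * M ≤ x → c.coeff x = 0)
    (h : (∑ i ∈ range s, (X : K[X]) ^ (i * M)) ∣ V - c) {x : ℕ} (hx : x < M) :
    c.coeff x = V.coeff x - V.coeff ((s - 1) * M + x) := by
  obtain ⟨Q, hQ⟩ := h
  have hM : 0 < M := by omega
  have hc2 : c.coeff ((s - 1) * M + x) = 0 := hc _ (by omega)
  -- coefficients of `Q` beyond `M` vanish
  have hdeg : ∀ y, M ≤ y → Q.coeff y = 0 := by
    by_contra hcon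
    push Not at hcon
    obtain ⟨y, hy, hQy⟩ := hcon
    have hQ0 : Q ≠ 0 := by rintro rfl; simp at hQy
    have hyd : y ≤ Q.natDegree := le_natDegree_of_ne_zero hQy
    set D := Q.natDegree with hD
    have hlead : Q.coeff D ≠ 0 := by
      rw [hD, coeff_natDegree]; exact leadingCoeff_ne_zero.2 hQ0
    have h1 : (V - c).coeff ((s - 1) * M + D) = Q.coeff D := by
      rw [hQ, Finset.sum_mul, finsetSum_coeff]
      rw [Finset.sum_eq_single (s - 1)]
      · rw [add_comm, coeff_X_pow_mul]
      · intro i hi hne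
        have hi' : i < s := by simpa using hi
        have h2 : i * M ≤ (s - 1) * M + D := by
          have : i * M ≤ (s - 1) * M := Nat.mul_le_mul_right _ (by omega)
          omega
        rw [coeff_X_pow_mul', if_pos h2]
        apply coeff_eq_zero_of_natDegree_lt
        have h3 : (i + 1) * M ≤ (s - 1) * M := Nat.mul_le_mul_right _ (by omega)
        have h4 : (i + 1) * M = i * M + M := by ring
        omega
      · intro hni; simp at hni; omega
    have h2 : (V - c).coeff ((s - 1) * M + D) = 0 := by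
      have h3 : s * M = (s - 1) * M + M := by
        obtain ⟨s', rfl⟩ : ∃ s', s = s' + 1 := ⟨s - 1, by omega⟩
        rw [Nat.add_sub_cancel]; ring
      rw [coeff_sub, hV _ (by omega), hc _ (by omega), sub_zero]
    exact hlead (by rw [← h1, h2])
  have e1 : (V - c).coeff x = Q.coeff x := by
    rw [hQ, Finset.sum_mul, finsetSum_coeff]
    rw [Finset.sum_eq_single 0]
    · simp
    · intro i _ hne
      have h2 : ¬ i * M ≤ x := by
        have : 1 * M ≤ i * M := Nat.mul_le_mul_right _ (by omega)
        omega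
      rw [coeff_X_pow_mul', if_neg h2]
    · intro hni; simp at hni; omega
  have e2 : (V - c).coeff ((s - 1) * M + x) = Q.coeff x := by
    rw [hQ, Finset.sum_mul, finsetSum_coeff]
    rw [Finset.sum_eq_single (s - 1)]
    · rw [add_comm, coeff_X_pow_mul]
    · intro i hi hne
      have hi' : i < s := by simpa using hi
      have h2 : i * M ≤ (s - 1) * M + x := by
        have : i * M ≤ (s - 1) * M := Nat.mul_le_mul_right _ (by omega)
        omega
      rw [coeff_X_pow_mul', if_pos h2]
      apply hdeg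
      have h3 : (i + 1) * M ≤ (s - 1) * M := Nat.mul_le_mul_right _ (by omega)
      have h4 : (i + 1) * M = i * M + M := by ring
      omega
    · intro hni; simp at hni; omega
  rw [coeff_sub] at e1 e2
  rw [hc2] at e2
  linear_combination -e1 + e2

/-- a sum over `range (n m)` by blocks -/
private lemma fmc_sum_blocks (n m : ℕ) (f : ℕ → K) :
    ∑ I ∈ range (n * m), f I = ∑ i ∈ range n, ∑ p ∈ range m, f (i * m + p) := by
  induction n with
  | zero => simp
  | succ n ih =>
    rw [Finset.sum_range_succ, ← ih, Nat.succ_mul, Finset.sum_range_add]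

/-- product of two blocks -/
private lemma fmc_blk_mul_coeff (m : ℕ) (A A' : ℕ → K) (c c' x : ℕ) :
    (blk m A c * blk m A' c').coeff x = ∑ p ∈ range m,
      if p ≤ x ∧ x - p < m then A (c * m + p) * A' (c' * m + (x - p)) else 0 := by
  conv_lhs => rw [blk, Finset.sum_mul, finsetSum_coeff]
  refine Finset.sum_congr rfl fun p _ => ?_
  rw [← C_mul_X_pow_eq_monomial, mul_assoc, coeff_C_mul, coeff_X_pow_mul']
  by_cases h1 : p ≤ x
  · rw [if_pos h1, fmc_blk_coeff]
    by_cases h2 : x - p < m
    · rw [if_pos h2, if_pos ⟨h1, h2⟩]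
    · rw [if_neg h2, if_neg (fun h => h2 h.2), mul_zero]
  · rw [if_neg h1, if_neg (fun h => h1 h.1), mul_zero]

private lemma fmc_mod_block {n m q r : ℕ} (hn : 0 < n) (hr : r < m) :
    (q * m + r) % (n * m) = q % n * m + r := by
  have h1 : q * m + r = (q % n * m + r) + n * m * (q / n) := by
    have := Nat.mod_add_div q n
    calc q * m + r = (q % n + n * (q / n)) * m + r := by rw [this]
      _ = _ := by ring
  rw [h1, Nat.add_mul_mod_self_left, Nat.mod_eq_of_lt (fmc_lt (Nat.mod_lt _ hn) hr)]

/-- the cyclic convolution of length `n m` by blocks -/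
private lemma fmc_cyc (n m : ℕ) (A A' : ℕ → K) (b j x : ℕ) (hx : x < m) :
    ∑ I ∈ range (n * m), A (b * (n * m) + I) *
      A' (b * (n * m) + (j * m + x + (n * m - I)) % (n * m)) =
    ∑ i ∈ range n, ((blk m A (b * n + i) * blk m A' (b * n + (j + n - i) % n)).coeff x +
      (blk m A (b * n + i) * blk m A' (b * n + ((j + (n - 1)) % n + n - i) % n)).coeff (m + x)) := by
  rw [fmc_sum_blocks]
  refine Finset.sum_congr rfl fun i hi => ?_
  have hi' : i < n := by simpa using hi
  rw [fmc_blk_mul_coeff, fmc_blk_mul_coeff, ← Finset.sum_add_distrib]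
  refine Finset.sum_congr rfl fun p hp => ?_
  have hp' : p < m := by simpa using hp
  have hn : 0 < n := by omega
  have hA : b * (n * m) + (i * m + p) = (b * n + i) * m + p := by ring
  rw [hA]
  have hnm : n * m - (i * m + p) + (i * m + p) = n * m :=
    Nat.sub_add_cancel (fmc_lt hi' hp').le
  have hsub : (n - i) * m + i * m = n * m := by
    rw [← add_mul]; congr 1; omega
  rcases Nat.lt_or_ge x p with hxp | hxp
  · rw [if_neg (by omega), if_pos (by omega), zero_add]
    congr 2
    have h1 : j * m + x + (n * m - (i * m + p)) = (j + n - i - 1) * m + (m + x - p) := by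
      have h2 : (j + n - i - 1) * m + m = j * m + (n - i) * m := by
        rw [← add_mul, ← Nat.succ_mul]; congr 1; omega
      omega
    rw [h1, fmc_mod_block hn (by omega)]
    have h3 : ((j + (n - 1)) % n + n - i) % n = (j + n - i - 1) % n := by
      have h4 : (j + (n - 1)) % n + n - i = (j + (n - 1)) % n + (n - i) := by omega
      rw [h4, Nat.mod_add_mod]
      have h5 : j + (n - 1) + (n - i) = (j + n - i - 1) + n := by omega
      rw [h5, Nat.add_mod_right]
    rw [h3]; ring
  · rw [if_pos (by omega), if_neg (by omega), add_zero]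
    congr 2
    have h1 : j * m + x + (n * m - (i * m + p)) = (j + n - i) * m + (x - p) := by
      have h2 : (j + n - i) * m = j * m + (n - i) * m := by
        rw [← add_mul]; congr 1; omega
      omega
    rw [h1, fmc_mod_block hn (by omega)]
    ring

private lemma fmc_key {s : ℕ} (hs : s.Prime) (B l m r : ℕ)
    (hl : 1 ≤ l) (hlr : l ≤ r + 2) (hm : m = s ^ r) (A A' : ℕ → K) (b : ℕ) (hb : b < B) (j : ℕ)
    (hj : j < s ^ l) :
    (∑ c ∈ range s, (X : K[X]) ^ (c * (s * m))) ∣
    blk (s * s * m) (dftB B (s ^ l) (s * s * m) (s * s * m - s ^ (r + 2 - l))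
      (cycB (B * s ^ l) (s * s * m)
        (dftB B (s ^ l) (s * s * m) (s ^ (r + 2 - l)) (padB (B * s ^ l) m (s * s * m) A))
        (dftB B (s ^ l) (s * s * m) (s ^ (r + 2 - l)) (padB (B * s ^ l) m (s * s * m) A'))))
        (b * s ^ l + j) -
    C ((s ^ l : ℕ) : K) * ∑ i ∈ range (s ^ l),
      blk m A (b * s ^ l + i) * blk m A' (b * s ^ l + (j + s ^ l - i) % s ^ l) := by
  have hinv := dft_inversion (K := K) hs (r + 1) l hl (by omega)
    (fun i => blk m A (b * s ^ l + i)) (fun i => blk m A' (b * s ^ l + i)) j hj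
  have hsm : s ^ (r + 1) = s * m := by rw [hm]; ring
  have hL : s ^ (r + 1 + 1) = s * s * m := by rw [hm]; ring
  rw [hsm, hL] at hinv
  simp only [show r + 1 + 1 - l = r + 2 - l by omega] at hinv
  have hmL : m ≤ s * s * m := by
    have : 1 * m ≤ s * s * m := Nat.mul_le_mul_right _ (by nlinarith [hs.two_le])
    omega
  generalize hΦ : (∑ c ∈ range s, (X : K[X]) ^ (c * (s * m))) = Φ at hinv ⊢
  generalize hτ : s ^ (r + 2 - l) = τ at hinv ⊢
  have hΦL : Φ ∣ X ^ (s * s * m) - 1 := by
    refine ⟨X ^ (s * m) - 1, ?_⟩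
    have h1 := geom_sum_mul ((X : K[X]) ^ (s * m)) s
    rw [← hΦ]
    have h2 : ∑ c ∈ range s, (X : K[X]) ^ (c * (s * m)) = ∑ i ∈ range s, (X ^ (s * m)) ^ i := by
      refine Finset.sum_congr rfl fun i _ => ?_
      rw [← pow_mul, mul_comm]
    rw [h2, h1, ← pow_mul]
    congr 2; ring
  generalize hLL : s * s * m = L at *
  generalize hn : s ^ l = n at *
  -- pass to the quotient by `Φ`
  let π := Ideal.Quotient.mk (Ideal.span {Φ})
  have hπ : ∀ f g : K[X], (X ^ L - 1) ∣ f - g → π f = π g := by
    intro f g h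
    exact (Ideal.Quotient.eq).2 (Ideal.mem_span_singleton.2 (hΦL.trans h))
  have hπ' : ∀ f g : K[X], π f = π g → Φ ∣ f - g := by
    intro f g h
    exact Ideal.mem_span_singleton.1 ((Ideal.Quotient.eq).1 h)
  have hπ'' : ∀ f g : K[X], Φ ∣ f - g → π f = π g := by
    intro f g h
    exact (Ideal.Quotient.eq).2 (Ideal.mem_span_singleton.2 h)
  apply hπ'
  rw [← hπ _ _ (fmc_blk_dft B n L (L - τ) _ b j hb hj), ← hπ'' _ _ hinv, map_sum, map_sum]
  refine Finset.sum_congr rfl fun u hu => ?_
  have hu' : u < n := by simpa using hu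
  rw [map_mul, map_mul, map_mul, ← hπ _ _ (fmc_blk_cyc (B * n) L _ _ (b * n + u) (fmc_lt hb hu')),
    map_mul, ← hπ _ _ (fmc_blk_dft B n L τ _ b u hb hu'),
    ← hπ _ _ (fmc_blk_dft B n L τ _ b u hb hu')]
  have e1 : ∀ A : ℕ → K, ∑ i ∈ range n, blk L (padB (B * n) m L A) (b * n + i) * X ^ (τ * i * u) =
      ∑ i ∈ range n, blk m A (b * n + i) * X ^ (τ * i * u) := by
    intro A
    refine Finset.sum_congr rfl fun i hi => ?_
    have hi' : i < n := by simpa using hi
    rw [fmc_blk_pad _ _ _ hmL _ _ (fmc_lt hb hi')]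
  rw [e1, e1, mul_right_comm (L - τ) u j]

theorem level {K : Type} [Field K] {s : ℕ} (hs : s.Prime) (hsK : (s : K) ≠ 0) (B l m r : ℕ)
    (hl : 1 ≤ l) (hlr : l ≤ r + 2) (hm : m = s ^ r) (A A' : ℕ → K) :
    upB s B (s ^ l) m (dftB B (s ^ l) (s * s * m) (s * s * m - s ^ (r + 2 - l))
      (cycB (B * s ^ l) (s * s * m)
        (dftB B (s ^ l) (s * s * m) (s ^ (r + 2 - l)) (padB (B * s ^ l) m (s * s * m) A))
        (dftB B (s ^ l) (s * s * m) (s ^ (r + 2 - l)) (padB (B * s ^ l) m (s * s * m) A')))) =
    cycB B (s ^ l * m) A A' := by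
  have key := fun b hb j hj => fmc_key (K := K) hs B l m r hl hlr hm A A' b hb j hj
  have hs2 := hs.two_le
  have hm0 : 0 < m := by rw [hm]; exact pow_pos hs.pos r
  have hn0 : 0 < s ^ l := pow_pos hs.pos l
  have hnK : ((s ^ l : ℕ) : K) ≠ 0 := by push_cast; exact pow_ne_zero _ hsK
  generalize dftB B (s ^ l) (s * s * m) (s * s * m - s ^ (r + 2 - l))
      (cycB (B * s ^ l) (s * s * m)
        (dftB B (s ^ l) (s * s * m) (s ^ (r + 2 - l)) (padB (B * s ^ l) m (s * s * m) A))
        (dftB B (s ^ l) (s * s * m) (s ^ (r + 2 - l)) (padB (B * s ^ l) m (s * s * m) A'))) = V at *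
  generalize s ^ l = n at *
  have hss : 2 * m ≤ s * m := Nat.mul_le_mul_right _ hs2
  have hssm : s * s * m = s * (s * m) := by ring
  have hs1 : s * m ≤ (s - 1) * (s * m) := Nat.le_mul_of_pos_left _ (by omega)
  have hs3 : s * (s * m) = (s - 1) * (s * m) + s * m := by
    obtain ⟨s', rfl⟩ : ∃ s', s = s' + 1 := ⟨s - 1, by omega⟩
    rw [Nat.add_sub_cancel]; ring
  -- the reduction of a block
  have red : ∀ b < B, ∀ j < n, ∀ x < s * m,
      V ((b * n + j) * (s * s * m) + x) - V ((b * n + j) * (s * s * m) + ((s - 1) * (s * m) + x)) =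
      (n : K) * ∑ i ∈ range n,
        (blk m A (b * n + i) * blk m A' (b * n + (j + n - i) % n)).coeff x := by
    intro b hb j hj x hx
    have h1 := fmc_red hs2 (blk (s * s * m) V (b * n + j)) _ ?_ ?_ (key b hb j hj) hx
    · rw [fmc_blk_coeff, fmc_blk_coeff, if_pos (by omega), if_pos (by omega), coeff_C_mul,
        finsetSum_coeff] at h1
      exact h1.symm
    · intro y hy
      rw [fmc_blk_coeff, if_neg (by omega)]
    · intro y hy
      rw [coeff_C_mul, finsetSum_coeff]
      rw [Finset.sum_eq_zero, mul_zero]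
      intro i _
      rw [fmc_blk_mul_coeff]
      refine Finset.sum_eq_zero fun p hp => ?_
      have hp' : p < m := by simpa using hp
      rw [if_neg (by omega)]
  funext N
  by_cases hN : N < B * n * m
  · have hx : N % m < m := Nat.mod_lt _ hm0
    have hy : N / m < B * n := Nat.div_lt_of_lt_mul (by rw [mul_comm]; exact hN)
    have hj : N / m % n < n := Nat.mod_lt _ hn0
    have hb : N / m / n < B := Nat.div_lt_of_lt_mul (by rw [mul_comm]; exact hy)
    have hj' : (N / m % n + (n - 1)) % n < n := Nat.mod_lt _ hn0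
    have e1 : N / m = N / m / n * n + N / m % n := by
      have := Nat.div_add_mod (N / m) n
      rw [mul_comm] at this; exact this.symm
    have r1 := red _ hb _ hj (N % m) (by omega)
    have r2 := red _ hb _ hj' (m + N % m) (by omega)
    rw [← e1] at r1
    rw [upB, fmc_tabF_lt hN, r1, r2, cycB, fmc_tabF_lt (by rw [← mul_assoc]; exact hN)]
    have e2 : N / (n * m) = N / m / n := by rw [mul_comm n m, Nat.div_div_eq_div_mul]
    have e3 : N % (n * m) = N / m % n * m + N % m := by
      have h1 : N = N / m * m + N % m := by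
        have := Nat.div_add_mod N m
        rw [mul_comm] at this; exact this.symm
      conv_lhs => rw [h1]
      exact fmc_mod_block hn0 hx
    rw [e2, e3, fmc_cyc n m A A' _ _ _ hx, Finset.sum_add_distrib]
    field_simp
  · have hN' : ¬ N < B * (n * m) := by rw [← mul_assoc]; exact hN
    rw [upB, cycB]
    simp only [tabF, if_neg hN, if_neg hN']

end FMC

end Pool.Agent.AbsIrr
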