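import Mathlib
import Pool.Agent.Lib.MP_2adc98_lc.ADefs
import Pool.Agent.Lib.MP_2adc98_lc.BL
import Pool.Agent.Lib.MP_2adc98_lc.FMB
import Pool.Agent.Lib.MP_2adc98_lc.FMC

/-!
# MP_2adc98_lc, piece FMD: cyclic convolution in quasilinear cost (helper67)
-/

set_option autoImplicit false

namespace Pool.Agent.AbsIrr

open Finset Polynomial

/-! ### the prime -/

theorem fmd_sK : RlzQ (a := .prod .nat .nat) (b := .nat) (fun K _ _ => sK K) (fun _ _ _ => 0) := by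
  have h2 : RlzQ (a := .prod .nat .nat) (b := .fld) (fun K _ _ => (2 : K)) (fun _ _ _ => 0) :=
    ((RlzQ.fadd RlzQ.one RlzQ.one).congr (fun K _ x => by norm_num)).mono 1 (fun K _ x => by simp)
  refine ((RlzQ.iteZero h2 (RlzQ.lit 3) (RlzQ.lit 2)).congr (fun K _ x => ?_)).mono 1
    (fun K _ x => by simp)
  unfold sK
  rfl

theorem fmd_two_le (K : Type) [Field K] : 2 ≤ sK K := by
  unfold sK; split_ifs <;> norm_num

theorem fmd_le_three (K : Type) [Field K] : sK K ≤ 3 := by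
  unfold sK; split_ifs <;> norm_num

theorem fmd_prime (K : Type) [Field K] : (sK K).Prime := by
  unfold sK; split_ifs
  · exact Nat.prime_three
  · exact Nat.prime_two

theorem fmd_ne (K : Type) [Field K] : (sK K : K) ≠ 0 := by
  unfold sK
  split_ifs with h
  · intro h3
    push_cast at h3
    have : (1 : K) = 3 - 2 := by norm_num
    rw [h3, h] at this
    simp at this
  · intro h2
    push_cast at h2
    exact h h2

/-! ### the levels -/

/-- the exponent at level `i` -/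
def fmdk (k i : ℕ) : ℕ := iterF i k (fun y _ => y / 2 + 1)

theorem fmdk_zero (k : ℕ) : fmdk k 0 = k := rfl

theorem fmdk_succ (k i : ℕ) : fmdk k (i + 1) = fmdk k i / 2 + 1 := rfl

theorem fmdk_le (k i : ℕ) : fmdk k i ≤ k / 2 ^ i + 2 := by
  induction i with
  | zero => rw [fmdk_zero]; simp
  | succ i ih =>
    rw [fmdk_succ, pow_succ, ← Nat.div_div_eq_div_mul]
    omega

theorem fmdk_le' (k i : ℕ) : fmdk k i ≤ k + 1 := by
  induction i with
  | zero => rw [fmdk_zero]; omega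
  | succ i ih => rw [fmdk_succ]; omega

theorem fmdk_le'' (k i : ℕ) : fmdk k i ≤ 2 * i + k := by
  induction i with
  | zero => rw [fmdk_zero]; omega
  | succ i ih => rw [fmdk_succ]; omega

theorem fmdk_last (k : ℕ) : fmdk k (Nat.log 2 k + 1) ≤ 2 := by
  refine (fmdk_le k _).trans ?_
  have : k < 2 ^ (Nat.log 2 k + 1) := Nat.lt_pow_succ_log_self (by norm_num) k
  rw [Nat.div_eq_of_lt this]

/-- number of steps of the transform at level `i` -/
def fmdl (k i : ℕ) : ℕ := fmdk k i - fmdk k i / 2 + 1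

/-- exponent of the number of blocks at level `i` -/
def fmdb (k i : ℕ) : ℕ := 2 * i + k - fmdk k i

theorem fmdb_succ (k i : ℕ) : fmdb k (i + 1) = fmdb k i + fmdl k i := by
  have := fmdk_le'' k i
  unfold fmdb fmdl
  rw [fmdk_succ]
  omega

theorem fmd_total (k i : ℕ) : fmdb k i + fmdl k i + (fmdk k i / 2 + 2) = 2 * i + k + 3 := by
  have := fmdk_le'' k i
  unfold fmdb fmdl
  omega

/-- the size of the data after level `i` -/
noncomputable def fmdT (K : Type) [Field K] (k i : ℕ) : ℕ := sK K ^ (2 * i + k + 3)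

theorem fmd_pow_le (K : Type) [Field K] {k i e : ℕ} (he : e ≤ 2 * i + k + 3) :
    sK K ^ e ≤ fmdT K k i :=
  Nat.pow_le_pow_right (by have := fmd_two_le K; omega) he

theorem fmd_exp_le (K : Type) [Field K] (k i : ℕ) : 2 * i + k + 3 ≤ fmdT K k i :=
  (Nat.lt_pow_self (fmd_two_le K)).le

/-! ### the numbers are computed -/

section
variable {a : Ty} {F G : Fam a .nat} {cf cg : CFam a}

theorem fmd_k : RlzQ (a := .prod .nat .nat) (b := .nat) (fun _ _ x => fmdk x.1 x.2)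
    (fun _ _ x => x.2) := by
  have h := RlzQ.iterB (a := .prod .nat .nat) (b := .nat) (N := fun _ _ x => x.2)
    (S := fun _ _ x => x.1)
    (f := fun _ _ _ s _ => s / 2 + 1) (RlzQ.snd RlzQ.input) (RlzQ.fst RlzQ.input)
    (RlzQ.add (RlzQ.div (RlzQ.snd (RlzQ.fst RlzQ.input)) (RlzQ.lit 2)) (RlzQ.lit 1)) 1 (by
      intro K _ x i _
      have h1 : fmdk x.1 i ≤ x.1 + 1 := fmdk_le' _ _
      simp only [Ty.nmx, pow_one]
      have h2 := le_max_left x.1 x.2
      have h3 : iterF i x.1 (fun s _ => s / 2 + 1) = fmdk x.1 i := rfl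
      rw [h3]
      omega)
  exact h.mono 1 (fun K _ x => by simp)

theorem fmd_l : RlzQ (a := .prod .nat .nat) (b := .nat) (fun _ _ x => fmdl x.1 x.2)
    (fun _ _ x => x.2) :=
  (RlzQ.add (RlzQ.sub fmd_k (RlzQ.div fmd_k (RlzQ.lit 2))) (RlzQ.lit 1)).mono 2
    (fun K _ x => by omega)

theorem fmd_bexp : RlzQ (a := .prod .nat .nat) (b := .nat) (fun _ _ x => fmdb x.1 x.2)
    (fun _ _ x => x.2) :=
  (RlzQ.sub (RlzQ.add (RlzQ.mul (RlzQ.lit 2) (RlzQ.snd RlzQ.input)) (RlzQ.fst RlzQ.input))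
    fmd_k).mono 1 (fun K _ x => by omega)

/-- a power of the prime with a small exponent -/
theorem fmd_pow {e : ℕ → ℕ → ℕ} (he : RlzQ (a := .prod .nat .nat) (b := .nat)
    (fun _ _ x => e x.1 x.2) (fun _ _ x => x.2)) (hle : ∀ k i, e k i ≤ 2 * i + k + 3) :
    RlzQ (a := .prod .nat .nat) (b := .nat) (fun K _ x => sK K ^ e x.1 x.2)
      (fun K _ x => fmdT K x.1 x.2) := by
  refine (RlzQ.npow fmd_sK he).mono 4 (fun K _ x => ?_)
  have h1 := fmd_pow_le K (hle x.1 x.2)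
  have h2 := fmd_exp_le K x.1 x.2
  have h3 := hle x.1 x.2
  omega

theorem fmd_B : RlzQ (a := .prod .nat .nat) (b := .nat) (fun K _ x => sK K ^ fmdb x.1 x.2)
    (fun K _ x => fmdT K x.1 x.2) :=
  fmd_pow fmd_bexp (fun k i => by have := fmd_total k i; omega)

theorem fmd_n : RlzQ (a := .prod .nat .nat) (b := .nat) (fun K _ x => sK K ^ fmdl x.1 x.2)
    (fun K _ x => fmdT K x.1 x.2) :=
  fmd_pow fmd_l (fun k i => by have := fmd_total k i; omega)

theorem fmd_m : RlzQ (a := .prod .nat .nat) (b := .nat) (fun K _ x => sK K ^ (fmdk x.1 x.2 / 2))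
    (fun K _ x => fmdT K x.1 x.2) :=
  fmd_pow (e := fun k i => fmdk k i / 2)
    ((RlzQ.div fmd_k (RlzQ.lit 2)).mono 1 (fun K _ x => by omega))
    (fun k i => by have := fmd_total k i; omega)

end

/-! ### auxiliary array functions -/

theorem fmd_pad : RlzQ (a := .prod .nat (.prod .nat (.prod .nat .arr))) (b := .arr)
    (fun _ _ x => padB x.1 x.2.1 x.2.2.1 x.2.2.2) (fun _ _ x => x.1 * x.2.2.1) := by
  unfold padB
  apply RlzQ.mono
  case h =>
    apply_rules [RlzQ.tab, RlzQ.iteLt, RlzQ.add, RlzQ.mul, RlzQ.div, RlzQ.mod, RlzQ.get, RlzQ.fst,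
      RlzQ.snd, RlzQ.input, RlzQ.zero]
  case A => exact 10
  case hc =>
    intro K _ x
    simp
    omega

theorem fmd_cycB : RlzQ (a := .prod .nat (.prod .nat (.prod .arr .arr))) (b := .arr)
    (fun _ _ x => cycB x.1 x.2.1 x.2.2.1 x.2.2.2) (fun _ _ x => x.1 * x.2.1 * (x.2.1 + 1)) := by
  unfold cycB
  apply RlzQ.mono
  case h =>
    apply_rules (maxDepth := 500) [RlzQ.tab, RlzQ.sum, RlzQ.fmul, RlzQ.add, RlzQ.sub, RlzQ.mul, RlzQ.div, RlzQ.mod,
      RlzQ.get, RlzQ.fst, RlzQ.snd, RlzQ.input]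
  case A => exact 10
  case hc =>
    intro K _ x
    simp
    nlinarith [Nat.zero_le (x.1 * x.2.1)]

theorem fmd_cast : RlzQ (a := .nat) (b := .fld) (fun K _ x => ((x : ℕ) : K))
    (fun _ _ x => x) := by
  have h := RlzQ.sum (a := .nat) (N := fun _ _ x => x) (f := fun K _ _ _ => (1 : K))
    RlzQ.input RlzQ.one
  refine (h.congr (fun K _ x => by simp)).mono 1 (fun K _ x => by simp)

theorem fmd_up' : RlzQ (a := .prod (.prod .nat (.prod .nat (.prod .nat (.prod .nat .arr)))) .fld)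
    (b := .arr)
    (fun K _ x => tabF (x.1.2.1 * x.1.2.2.1 * x.1.2.2.2.1) (fun N => x.2 * (
    (x.1.2.2.2.2 (N / x.1.2.2.2.1 * (x.1.1 * x.1.1 * x.1.2.2.2.1) + N % x.1.2.2.2.1) -
      x.1.2.2.2.2 (N / x.1.2.2.2.1 * (x.1.1 * x.1.1 * x.1.2.2.2.1) +
        ((x.1.1 - 1) * (x.1.1 * x.1.2.2.2.1) + N % x.1.2.2.2.1))) +
    (x.1.2.2.2.2 ((N / x.1.2.2.2.1 / x.1.2.2.1 * x.1.2.2.1 +
        (N / x.1.2.2.2.1 % x.1.2.2.1 + (x.1.2.2.1 - 1)) % x.1.2.2.1) *
          (x.1.1 * x.1.1 * x.1.2.2.2.1) + (x.1.2.2.2.1 + N % x.1.2.2.2.1)) -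
      x.1.2.2.2.2 ((N / x.1.2.2.2.1 / x.1.2.2.1 * x.1.2.2.1 +
        (N / x.1.2.2.2.1 % x.1.2.2.1 + (x.1.2.2.1 - 1)) % x.1.2.2.1) *
          (x.1.1 * x.1.1 * x.1.2.2.2.1) +
        ((x.1.1 - 1) * (x.1.1 * x.1.2.2.2.1) + (x.1.2.2.2.1 + N % x.1.2.2.2.1)))))))
    (fun _ _ x => x.1.2.1 * x.1.2.2.1 * x.1.2.2.2.1) := by
  apply RlzQ.mono
  case h =>
    apply_rules (maxDepth := 500) [RlzQ.tab, RlzQ.fmul, RlzQ.fadd, RlzQ.fsub, RlzQ.add, RlzQ.sub, RlzQ.mul,
      RlzQ.div, RlzQ.mod, RlzQ.get, RlzQ.fst, RlzQ.snd, RlzQ.input, RlzQ.lit]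
  case A => exact 10
  case hc =>
    intro K _ x
    simp
    omega

theorem fmd_up : RlzQ (a := .prod .nat (.prod .nat (.prod .nat (.prod .nat .arr)))) (b := .arr)
    (fun _ _ x => upB x.1 x.2.1 x.2.2.1 x.2.2.2.1 x.2.2.2.2)
    (fun _ _ x => x.2.1 * x.2.2.1 * x.2.2.2.1 + x.2.2.1) := by
  have hn : RlzQ (a := .prod .nat (.prod .nat (.prod .nat (.prod .nat .arr)))) (b := .nat)
      (fun _ _ x => x.2.2.1) (fun _ _ _ => 0) := RlzQ.fst (RlzQ.snd (RlzQ.snd RlzQ.input))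
  have h := RlzQ.comp fmd_up' (RlzQ.pair RlzQ.input (RlzQ.finv (RlzQ.comp fmd_cast hn)))
  refine (h.congr (fun K _ x => rfl)).mono 2 (fun K _ x => ?_)
  simp only
  omega

/-! ### the steps -/

/-- padded block length at level `i` -/
noncomputable def fmdL (K : Type) [Field K] (k i : ℕ) : ℕ := sK K * sK K * sK K ^ (fmdk k i / 2)

/-- exponent of the root at level `i` -/
noncomputable def fmdt (K : Type) [Field K] (k i : ℕ) : ℕ := sK K ^ (fmdk k i / 2 + 2 - fmdl k i)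

theorem fmd_L : RlzQ (a := .prod .nat .nat) (b := .nat) (fun K _ x => fmdL K x.1 x.2)
    (fun K _ x => fmdT K x.1 x.2) :=
  (RlzQ.mul (RlzQ.mul fmd_sK fmd_sK) fmd_m).mono 1 (fun K _ x => by omega)

theorem fmd_t : RlzQ (a := .prod .nat .nat) (b := .nat) (fun K _ x => fmdt K x.1 x.2)
    (fun K _ x => fmdT K x.1 x.2) :=
  fmd_pow (e := fun k i => fmdk k i / 2 + 2 - fmdl k i)
    ((RlzQ.sub (RlzQ.add (RlzQ.div fmd_k (RlzQ.lit 2)) (RlzQ.lit 2)) fmd_l).mono 2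
      (fun K _ x => by omega))
    (fun k i => by have := fmd_total k i; omega)

theorem fmd_BnL (K : Type) [Field K] (k i : ℕ) :
    sK K ^ fmdb k i * sK K ^ fmdl k i * fmdL K k i = fmdT K k i := by
  unfold fmdL fmdT
  rw [← fmd_total k i, pow_add, pow_add, pow_add]
  ring

/-- the down step -/
noncomputable def fmdD (F : Fam (.prod .nat (.prod .nat (.prod .nat (.prod .nat (.prod .nat .arr)))))
    .arr) (K : Type) [Field K] (k i : ℕ) (A : ℕ → K) : ℕ → K :=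
  F K (sK K, (fmdl k i, (sK K ^ fmdb k i, (fmdL K k i, (fmdt K k i,
    padB (sK K ^ fmdb k i * sK K ^ fmdl k i) (sK K ^ (fmdk k i / 2)) (fmdL K k i) A)))))

/-- the up step -/
noncomputable def fmdU (F : Fam (.prod .nat (.prod .nat (.prod .nat (.prod .nat (.prod .nat .arr)))))
    .arr) (K : Type) [Field K] (k i : ℕ) (A : ℕ → K) : ℕ → K :=
  upB (sK K) (sK K ^ fmdb k i) (sK K ^ fmdl k i) (sK K ^ (fmdk k i / 2))
    (F K (sK K, (fmdl k i, (sK K ^ fmdb k i, (fmdL K k i, (fmdL K k i - fmdt K k i, A))))))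

/-- cost of the steps -/
noncomputable def fmdC (K : Type) [Field K] (k i : ℕ) : ℕ := (2 * i + k + 4) * fmdT K k i

theorem fmd_cost_aux (K : Type) [Field K] (k i : ℕ) :
    (sK K + 1) * (fmdl k i + 1) * ((sK K ^ fmdb k i + 1) * sK K ^ fmdl k i * (fmdL K k i + 1)) ≤
      16 * fmdC K k i := by
  have h2 := fmd_two_le K
  have h3 := fmd_le_three K
  have hl : fmdl k i + 1 ≤ 2 * i + k + 4 := by
    have := fmd_total k i
    omega
  have hB : 1 ≤ sK K ^ fmdb k i := Nat.one_le_pow _ _ (by omega)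
  have hL : 1 ≤ fmdL K k i := by
    unfold fmdL
    have : 1 ≤ sK K ^ (fmdk k i / 2) := Nat.one_le_pow _ _ (by omega)
    nlinarith
  calc (sK K + 1) * (fmdl k i + 1) *
        ((sK K ^ fmdb k i + 1) * sK K ^ fmdl k i * (fmdL K k i + 1))
      ≤ 4 * (2 * i + k + 4) * ((2 * sK K ^ fmdb k i) * sK K ^ fmdl k i * (2 * fmdL K k i)) := by
        gcongr <;> omega
    _ = 16 * ((2 * i + k + 4) * (sK K ^ fmdb k i * sK K ^ fmdl k i * fmdL K k i)) := by ring
    _ = 16 * fmdC K k i := by rw [fmd_BnL]; rfl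

theorem fmdT_le_C (K : Type) [Field K] (k i : ℕ) : fmdT K k i ≤ fmdC K k i := by
  unfold fmdC
  exact Nat.le_mul_of_pos_left _ (by omega)

section steps

variable {F : Fam (.prod .nat (.prod .nat (.prod .nat (.prod .nat (.prod .nat .arr))))) .arr}
  (hF : RlzQ F (fun _ _ x =>
      (x.1 + 1) * (x.2.1 + 1) * ((x.2.2.1 + 1) * x.1 ^ x.2.1 * (x.2.2.2.1 + 1))))

include hF

theorem fmd_down : RlzQ (a := .prod (.prod .nat .nat) .arr) (b := .arr)
    (fun K _ x => fmdD F K x.1.1 x.1.2 x.2) (fun K _ x => fmdC K x.1.1 x.1.2) := by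
  have hfst : RlzQ (a := .prod (.prod .nat .nat) .arr) (b := .prod .nat .nat)
      (fun _ _ x => x.1) (fun _ _ _ => 0) := RlzQ.fst RlzQ.input
  have hs := RlzQ.comp fmd_sK hfst
  have hl := RlzQ.comp fmd_l hfst
  have hB := RlzQ.comp fmd_B hfst
  have hn := RlzQ.comp fmd_n hfst
  have hm := RlzQ.comp fmd_m hfst
  have hL := RlzQ.comp fmd_L hfst
  have ht := RlzQ.comp fmd_t hfst
  have hp := RlzQ.comp fmd_pad (RlzQ.pair (RlzQ.mul hB hn) (RlzQ.pair hm (RlzQ.pair hL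
    (RlzQ.snd (RlzQ.input (a := .prod (.prod .nat .nat) .arr))))))
  have h := RlzQ.comp hF (RlzQ.pair hs (RlzQ.pair hl (RlzQ.pair hB (RlzQ.pair hL
    (RlzQ.pair ht hp)))))
  refine (h.congr (fun K _ x => rfl)).mono 30 (fun K _ x => ?_)
  have h1 := fmd_cost_aux K x.1.1 x.1.2
  have h2 := fmdT_le_C K x.1.1 x.1.2
  have h3 := fmd_exp_le K x.1.1 x.1.2
  have h4 := fmd_BnL K x.1.1 x.1.2
  simp only at h1 ⊢
  omega

theorem fmd_up_step : RlzQ (a := .prod (.prod .nat .nat) .arr) (b := .arr)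
    (fun K _ x => fmdU F K x.1.1 x.1.2 x.2) (fun K _ x => fmdC K x.1.1 x.1.2) := by
  have hfst : RlzQ (a := .prod (.prod .nat .nat) .arr) (b := .prod .nat .nat)
      (fun _ _ x => x.1) (fun _ _ _ => 0) := RlzQ.fst RlzQ.input
  have hs := RlzQ.comp fmd_sK hfst
  have hl := RlzQ.comp fmd_l hfst
  have hB := RlzQ.comp fmd_B hfst
  have hn := RlzQ.comp fmd_n hfst
  have hm := RlzQ.comp fmd_m hfst
  have hL := RlzQ.comp fmd_L hfst
  have ht := RlzQ.comp fmd_t hfst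
  have h := RlzQ.comp hF (RlzQ.pair hs (RlzQ.pair hl (RlzQ.pair hB (RlzQ.pair hL
    (RlzQ.pair (RlzQ.sub hL ht) (RlzQ.snd (RlzQ.input (a := .prod (.prod .nat .nat) .arr))))))))
  have h' := RlzQ.comp fmd_up (RlzQ.pair hs (RlzQ.pair hB (RlzQ.pair hn (RlzQ.pair hm h))))
  refine (h'.congr (fun K _ x => rfl)).mono 30 (fun K _ x => ?_)
  have h1 := fmd_cost_aux K x.1.1 x.1.2
  have h2 := fmdT_le_C K x.1.1 x.1.2
  have h3 := fmd_exp_le K x.1.1 x.1.2
  have h4 := fmd_BnL K x.1.1 x.1.2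
  have h5 : sK K ^ fmdb x.1.1 x.1.2 * sK K ^ fmdl x.1.1 x.1.2 * sK K ^ (fmdk x.1.1 x.1.2 / 2) ≤
      fmdT K x.1.1 x.1.2 := by
    rw [← h4]
    unfold fmdL
    have := fmd_two_le K
    gcongr
    exact Nat.le_mul_of_pos_left _ (by positivity)
  have h6 : sK K ^ fmdl x.1.1 x.1.2 ≤ fmdT K x.1.1 x.1.2 :=
    fmd_pow_le K (by have := fmd_total x.1.1 x.1.2; omega)
  simp only at h1 h5 ⊢
  omega

end steps

/-! ### the loops -/

/-- the array after `i` down steps -/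
noncomputable def fmdDn (F : Fam (.prod .nat (.prod .nat (.prod .nat (.prod .nat (.prod .nat .arr)))))
    .arr) (K : Type) [Field K] (k i : ℕ) (A : ℕ → K) : ℕ → K :=
  iterF i A (fun y j => fmdD F K k j y)

/-- the whole computation, `r` levels -/
noncomputable def fmdAll (F : Fam (.prod .nat (.prod .nat (.prod .nat (.prod .nat (.prod .nat
    .arr))))) .arr) (K : Type) [Field K] (k r : ℕ) (A A' : ℕ → K) : ℕ → K :=
  iterF r (cycB (sK K ^ fmdb k r) (sK K ^ (fmdk k r + 1)) (fmdDn F K k r A) (fmdDn F K k r A'))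
    (fun y j => fmdU F K k (r - 1 - j) y)

section correct

variable {F : Fam (.prod .nat (.prod .nat (.prod .nat (.prod .nat (.prod .nat .arr))))) .arr}
  (hF : ∀ (K : Type) [Field K] (s l B L τ : ℕ) (A : ℕ → K), 2 ≤ s → L ∣ τ * s ^ l →
      F K (s, (l, (B, (L, (τ, A))))) = dftB B (s ^ l) L τ A)

include hF

theorem fmd_step (K : Type) [Field K] (k i : ℕ) (A A' : ℕ → K) :
    fmdU F K k i (cycB (sK K ^ fmdb k (i + 1)) (sK K ^ (fmdk k (i + 1) + 1))
      (fmdD F K k i A) (fmdD F K k i A')) =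
    cycB (sK K ^ fmdb k i) (sK K ^ (fmdk k i + 1)) A A' := by
  have hs2 := fmd_two_le K
  have hl : 1 ≤ fmdl k i := by unfold fmdl; omega
  have hlr : fmdl k i ≤ fmdk k i / 2 + 2 := by unfold fmdl; omega
  have h1 := level (fmd_prime K) (fmd_ne K) (sK K ^ fmdb k i) (fmdl k i) (sK K ^ (fmdk k i / 2))
    (fmdk k i / 2) hl hlr rfl A A'
  have hLe : fmdL K k i = sK K ^ (fmdk k i / 2 + 2) := by
    unfold fmdL; rw [pow_add]; ring
  have htl : fmdt K k i * sK K ^ fmdl k i = fmdL K k i := by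
    rw [hLe]
    unfold fmdt
    rw [← pow_add]
    congr 1; omega
  have hdiv : fmdL K k i ∣ fmdt K k i * sK K ^ fmdl k i := by rw [htl]
  have hdiv' : fmdL K k i ∣ (fmdL K k i - fmdt K k i) * sK K ^ fmdl k i := by
    rw [Nat.sub_mul, htl]
    exact Nat.dvd_sub (Dvd.intro _ rfl) dvd_rfl
  have e1 : sK K ^ fmdb k (i + 1) = sK K ^ fmdb k i * sK K ^ fmdl k i := by
    rw [fmdb_succ, pow_add]
  have e2 : sK K ^ (fmdk k (i + 1) + 1) = fmdL K k i := by
    rw [hLe, fmdk_succ]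
  have e3 : sK K ^ fmdl k i * sK K ^ (fmdk k i / 2) = sK K ^ (fmdk k i + 1) := by
    rw [← pow_add]; congr 1; unfold fmdl; omega
  unfold fmdU fmdD
  rw [hF K _ _ _ _ _ _ hs2 hdiv', hF K _ _ _ _ _ _ hs2 hdiv, hF K _ _ _ _ _ _ hs2 hdiv, e1, e2,
    ← e3]
  exact h1

theorem fmd_correct_aux (K : Type) [Field K] (k r : ℕ) (A A' : ℕ → K) (j : ℕ) (hj : j ≤ r) :
    iterF j (cycB (sK K ^ fmdb k r) (sK K ^ (fmdk k r + 1)) (fmdDn F K k r A)
      (fmdDn F K k r A')) (fun y j => fmdU F K k (r - 1 - j) y) =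
    cycB (sK K ^ fmdb k (r - j)) (sK K ^ (fmdk k (r - j) + 1)) (fmdDn F K k (r - j) A)
      (fmdDn F K k (r - j) A') := by
  induction j with
  | zero => rw [iterF_zero, Nat.sub_zero]
  | succ j ih =>
    rw [iterF_succ, ih (by omega)]
    have h1 : r - j = (r - (j + 1)) + 1 := by omega
    have h2 : r - 1 - j = r - (j + 1) := by omega
    rw [h1, h2]
    exact fmd_step hF K k (r - (j + 1)) _ _

theorem fmd_correct (K : Type) [Field K] (k r : ℕ) (A A' : ℕ → K) :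
    fmdAll F K k r A A' = cyc (sK K ^ (k + 1)) A A' := by
  unfold fmdAll
  rw [fmd_correct_aux hF K k r A A' r le_rfl, Nat.sub_self]
  have h1 : fmdb k 0 = 0 := by unfold fmdb; rw [fmdk_zero]; omega
  rw [h1, fmdk_zero, pow_zero]
  unfold cycB cyc fmdDn
  rw [iterF_zero, iterF_zero, one_mul]
  funext N
  unfold tabF
  split_ifs with h
  · simp only [Nat.div_eq_of_lt h, Nat.mod_eq_of_lt h, zero_mul, zero_add]
  · rfl

end correct

section cost

variable {F : Fam (.prod .nat (.prod .nat (.prod .nat (.prod .nat (.prod .nat .arr))))) .arr}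
  (hF : RlzQ F (fun _ _ x =>
      (x.1 + 1) * (x.2.1 + 1) * ((x.2.2.1 + 1) * x.1 ^ x.2.1 * (x.2.2.2.1 + 1))))

theorem fmdC_mono (K : Type) [Field K] {k i j : ℕ} (h : i ≤ j) : fmdC K k i ≤ fmdC K k j := by
  unfold fmdC fmdT
  have := fmd_two_le K
  have h1 : sK K ^ (2 * i + k + 3) ≤ sK K ^ (2 * j + k + 3) :=
    Nat.pow_le_pow_right (by omega) (by omega)
  exact Nat.mul_le_mul (by omega) h1

include hF

/-- input `((k, r), A)` -/
theorem fmd_Dn : RlzQ (a := .prod (.prod .nat .nat) .arr) (b := .arr)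
    (fun K _ x => fmdDn F K x.1.1 x.1.2 x.2) (fun K _ x => x.1.2 * fmdC K x.1.1 x.1.2) := by
  have hb : RlzQ (a := .prod (.prod (.prod (.prod .nat .nat) .arr) .arr) .nat)
      (b := .prod (.prod .nat .nat) .arr) (fun _ _ x => ((x.1.1.1.1, x.2), x.1.2))
      (fun _ _ _ => 0) :=
    (RlzQ.pair (RlzQ.pair (RlzQ.fst (RlzQ.fst (RlzQ.fst (RlzQ.fst RlzQ.input))))
      (RlzQ.snd RlzQ.input)) (RlzQ.snd (RlzQ.fst RlzQ.input))).mono 1 (fun K _ x => by simp)
  have hbody := RlzQ.comp (fmd_down hF) hb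
  have hN : RlzQ (a := .prod (.prod .nat .nat) .arr) (b := .nat) (fun _ _ x => x.1.2)
    (fun _ _ _ => 0) := RlzQ.snd (RlzQ.fst RlzQ.input)
  have hS : RlzQ (a := .prod (.prod .nat .nat) .arr) (b := .arr) (fun _ _ x => x.2)
    (fun _ _ _ => 0) := RlzQ.snd RlzQ.input
  have h := RlzQ.iter (a := .prod (.prod .nat .nat) .arr) (b := .arr)
    (N := fun _ _ x => x.1.2) (S := fun _ _ x => x.2)
    (f := fun K _ x s i => fmdD F K x.1.1 i s) hN hS hbody
  have key : ∀ (K : Type) [Field K] (k r : ℕ), 0 + 0 + r + ∑ i ∈ range r, (0 + fmdC K k i) ≤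
      2 * (r * fmdC K k r + 1) := by
    intro K _ k r
    have h1 : ∑ i ∈ range r, (0 + fmdC K k i) ≤ r * fmdC K k r :=
      sum_range_le (fun i hi => by rw [zero_add]; exact fmdC_mono K hi.le)
    have h2 : r ≤ r * fmdC K k r := by
      refine Nat.le_mul_of_pos_right _ ?_
      have := fmdT_le_C K k r
      have := fmd_exp_le K k r
      omega
    omega
  exact (h.congr (fun K _ x => rfl)).mono 2 (fun K _ x => key K x.1.1 x.1.2)

/-- input `((k, r), (A, A'))` -/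
theorem fmd_All : RlzQ (a := .prod (.prod .nat .nat) (.prod .arr .arr)) (b := .arr)
    (fun K _ x => fmdAll F K x.1.1 x.1.2 x.2.1 x.2.2)
    (fun K _ x => (x.1.2 + 1) * fmdC K x.1.1 x.1.2 * (sK K ^ (fmdk x.1.1 x.1.2 + 1) + 1)) := by
  have hfst : RlzQ (a := .prod (.prod .nat .nat) (.prod .arr .arr)) (b := .prod .nat .nat)
      (fun _ _ x => x.1) (fun _ _ _ => 0) := RlzQ.fst RlzQ.input
  have hA : RlzQ (a := .prod (.prod .nat .nat) (.prod .arr .arr)) (b := .arr)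
      (fun _ _ x => x.2.1) (fun _ _ _ => 0) := RlzQ.fst (RlzQ.snd RlzQ.input)
  have hA' : RlzQ (a := .prod (.prod .nat .nat) (.prod .arr .arr)) (b := .arr)
      (fun _ _ x => x.2.2) (fun _ _ _ => 0) := RlzQ.snd (RlzQ.snd RlzQ.input)
  have hD := RlzQ.comp (fmd_Dn hF) (RlzQ.pair hfst hA)
  have hD' := RlzQ.comp (fmd_Dn hF) (RlzQ.pair hfst hA')
  have hB := RlzQ.comp fmd_B hfst
  have hL := RlzQ.comp (fmd_pow (e := fun k i => fmdk k i + 1)
    ((RlzQ.add fmd_k (RlzQ.lit 1)).mono 1 (fun K _ x => by omega))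
    (fun k i => by have := fmdk_le' k i; omega)) hfst
  have hC := RlzQ.comp fmd_cycB (RlzQ.pair hB (RlzQ.pair hL (RlzQ.pair hD hD')))
  have hN : RlzQ (a := .prod (.prod .nat .nat) (.prod .arr .arr)) (b := .nat) (fun _ _ x => x.1.2)
    (fun _ _ _ => 0) := RlzQ.snd (RlzQ.fst RlzQ.input)
  have hb : RlzQ (a := .prod (.prod (.prod (.prod .nat .nat) (.prod .arr .arr)) .arr) .nat)
      (b := .prod (.prod .nat .nat) .arr)
      (fun _ _ x => ((x.1.1.1.1, x.1.1.1.2 - 1 - x.2), x.1.2))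
      (fun _ _ _ => 0) :=
    (RlzQ.pair (RlzQ.pair (RlzQ.fst (RlzQ.fst (RlzQ.fst (RlzQ.fst RlzQ.input))))
      (RlzQ.sub (RlzQ.sub (RlzQ.snd (RlzQ.fst (RlzQ.fst (RlzQ.fst RlzQ.input)))) (RlzQ.lit 1))
        (RlzQ.snd RlzQ.input))) (RlzQ.snd (RlzQ.fst RlzQ.input))).mono 1 (fun K _ x => by simp)
  have hbody := RlzQ.comp (fmd_up_step hF) hb
  have h := RlzQ.iter (a := .prod (.prod .nat .nat) (.prod .arr .arr)) (b := .arr)
    (N := fun _ _ x => x.1.2)
    (f := fun K _ x s i => fmdU F K x.1.1 (x.1.2 - 1 - i) s) hN hC hbody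
  have key : ∀ (K : Type) [Field K] (k r : ℕ),
      0 + (0 + fmdT K k r + (0 + fmdT K k r + (0 + 0 + r * fmdC K k r + (0 + 0 + r * fmdC K k r)))
        + sK K ^ fmdb k r * sK K ^ (fmdk k r + 1) * (sK K ^ (fmdk k r + 1) + 1)) + r +
        ∑ i ∈ range r, (0 + fmdC K k (r - 1 - i)) ≤
      10 * ((r + 1) * fmdC K k r * (sK K ^ (fmdk k r + 1) + 1) + 1) := by
    intro K _ k r
    have h1 : ∑ i ∈ range r, (0 + fmdC K k (r - 1 - i)) ≤ r * fmdC K k r :=
      sum_range_le (fun i hi => by rw [zero_add]; exact fmdC_mono K (by omega))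
    have h2 := fmdT_le_C K k r
    have h3 := fmd_exp_le K k r
    have h4 : sK K ^ fmdb k r * sK K ^ (fmdk k r + 1) ≤ fmdT K k r := by
      rw [← pow_add]
      exact fmd_pow_le K (by have := fmd_total k r; unfold fmdl at this; omega)
    generalize fmdC K k r = C at *
    generalize fmdT K k r = T at *
    generalize sK K ^ (fmdk k r + 1) = S at *
    generalize sK K ^ fmdb k r = B at *
    have h5 : B * S * (S + 1) ≤ C * (S + 1) := by
      have : B * S ≤ C := h4.trans h2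
      gcongr
    have h6 : r ≤ r * C := Nat.le_mul_of_pos_right _ (by omega)
    have h7 : (r + 1) * C * (S + 1) = r * C * S + r * C + C * S + C := by ring
    have h8 : C * (S + 1) = C * S + C := by ring
    have h9 : 0 ≤ r * C * S := Nat.zero_le _
    rw [h7]
    omega
  exact (h.congr (fun K _ x => rfl)).mono 10 (fun K _ x => key K x.1.1 x.1.2)

end cost

theorem fmd_mono2 {a b : Ty} {F : Fam a b} {g g' : CFam a} (h : RlzQ F g) (A c : ℕ)
    (hc : ∀ (K : Type) [Field K] (x : a.val K), g K x ≤ A * Phi c (g' K x)) : RlzQ F g' :=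
  h.mono' (max A c) (fun K _ x => (hc K x).trans
    (Nat.mul_le_mul (le_max_left _ _) (Phi_mono (le_max_right _ _) le_rfl)))

theorem fmd_T_bound {s k r l S : ℕ} (hs2 : 2 ≤ s) (hs3 : s ≤ 3) (hr : r = Nat.log 2 k + 1)
    (hS : S = s ^ (k + 1)) (hkl : k + 2 ≤ l) : s ^ (2 * r + k + 3) ≤ 81 * l ^ 4 * S := by
  have h1 : s ^ (2 * r + k + 3) = (s ^ 2) ^ r * s ^ 2 * S := by
    rw [hS, ← pow_mul, ← pow_add, ← pow_add]; congr 1; ring
  rw [h1]
  have h2 : s ^ 2 ≤ 9 := by nlinarith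
  have h4 : 2 ^ Nat.log 2 k ≤ l := by
    rcases Nat.eq_zero_or_pos k with h0 | h0
    · rw [h0]; simp; omega
    · have := Nat.pow_log_le_self 2 (x := k) (by omega)
      omega
  have h5 : (16 : ℕ) ^ (Nat.log 2 k) = (2 ^ Nat.log 2 k) ^ 4 := by
    rw [← pow_mul, mul_comm (Nat.log 2 k) 4, pow_mul]; norm_num
  have h6 : (9 : ℕ) ^ (Nat.log 2 k) ≤ 16 ^ (Nat.log 2 k) := Nat.pow_le_pow_left (by norm_num) _
  have h7 : (2 ^ Nat.log 2 k) ^ 4 ≤ l ^ 4 := Nat.pow_le_pow_left h4 4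
  have h3 : (s ^ 2) ^ r ≤ 9 * l ^ 4 := by
    have h8 : (s ^ 2) ^ r ≤ 9 ^ r := Nat.pow_le_pow_left h2 r
    have h9 : (9 : ℕ) ^ r = 9 ^ (Nat.log 2 k) * 9 := by rw [hr, pow_succ]
    omega
  calc (s ^ 2) ^ r * s ^ 2 * S ≤ (9 * l ^ 4) * 9 * S :=
        Nat.mul_le_mul_right _ (Nat.mul_le_mul h3 h2)
    _ = 81 * l ^ 4 * S := by ring

theorem fmd_final {s k r C e : ℕ} (hs2 : 2 ≤ s) (hs3 : s ≤ 3) (hr : r = Nat.log 2 k + 1)
    (hC : C ≤ (2 * r + k + 4) * s ^ (2 * r + k + 3)) (he : e ≤ 3) :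
    k + (r + 1) * C * (s ^ e + 1) ≤ 10000 * Phi 6 (s ^ (k + 1)) := by
  obtain ⟨S, hS⟩ : ∃ S, S = s ^ (k + 1) := ⟨_, rfl⟩
  obtain ⟨l, hl⟩ : ∃ l, l = Nat.log 2 (S + 1) + 1 := ⟨_, rfl⟩
  have hkl : k + 2 ≤ l := by
    have h1 : 2 ^ (k + 1) ≤ S + 1 := by
      have : 2 ^ (k + 1) ≤ s ^ (k + 1) := Nat.pow_le_pow_left hs2 _
      omega
    have h2 : k + 1 ≤ Nat.log 2 (S + 1) := Nat.le_log_of_pow_le (by norm_num) h1
    omega
  have hkS : k + 1 ≤ S := by rw [hS]; exact (Nat.lt_pow_self hs2).le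
  have hrk : r ≤ k + 1 := by
    have := log_self_le k
    omega
  have hlast : s ^ e + 1 ≤ 28 := by
    have h2 : s ^ e ≤ s ^ 3 := Nat.pow_le_pow_right (by omega) he
    have h3 : s ^ 3 ≤ 3 ^ 3 := Nat.pow_le_pow_left hs3 3
    omega
  have hT := fmd_T_bound hs2 hs3 hr hS hkl
  have hC' : C ≤ 4 * l * (81 * l ^ 4 * S) :=
    hC.trans (Nat.mul_le_mul (by omega) hT)
  have hmain : (r + 1) * C * (s ^ e + 1) ≤ l * (4 * l * (81 * l ^ 4 * S)) * 28 :=
    Nat.mul_le_mul (Nat.mul_le_mul (by omega) hC') hlast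
  have hPhi : Phi 6 (s ^ (k + 1)) = (S + 1) * l ^ 6 := by
    unfold Phi
    rw [← hS, ← hl]
  have hfin : l * (4 * l * (81 * l ^ 4 * S)) * 28 ≤ 9072 * ((S + 1) * l ^ 6) := by
    have : l * (4 * l * (81 * l ^ 4 * S)) * 28 = 9072 * (S * l ^ 6) := by ring
    rw [this]
    exact Nat.mul_le_mul_left _ (Nat.mul_le_mul_right _ (by omega))
  have hl6 : S + 1 ≤ (S + 1) * l ^ 6 :=
    Nat.le_mul_of_pos_right _ (Nat.pow_pos (by omega))
  rw [hPhi]
  generalize (S + 1) * l ^ 6 = Z at *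
  generalize (r + 1) * C * (s ^ e + 1) = Y at *
  generalize l * (4 * l * (81 * l ^ 4 * S)) * 28 = V at *
  omega

theorem cyc_rlz : RlzQ (a := .prod .nat (.prod .arr .arr)) (b := .arr)
    (fun K _ x => cyc (sK K ^ (x.1 + 1)) x.2.1 x.2.2) (fun K _ x => sK K ^ (x.1 + 1)) := by
  obtain ⟨F, hFc, hF⟩ := fft
  have hk : RlzQ (a := .prod .nat (.prod .arr .arr)) (b := .nat) (fun _ _ x => x.1)
    (fun _ _ _ => 0) := RlzQ.fst RlzQ.input
  have hr := RlzQ.add (RlzQ.nlog (RlzQ.lit 2) hk) (RlzQ.lit 1)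
  have h := RlzQ.comp (fmd_All hFc) (RlzQ.pair (RlzQ.pair hk hr)
    (RlzQ.snd (RlzQ.input (a := .prod .nat (.prod .arr .arr)))))
  have key : ∀ (K : Type) [Field K] (k : ℕ),
      k + (Nat.log 2 k + 1 + 1) * fmdC K k (Nat.log 2 k + 1) *
        (sK K ^ (fmdk k (Nat.log 2 k + 1) + 1) + 1) ≤ 10000 * Phi 6 (sK K ^ (k + 1)) := by
    intro K _ k
    refine fmd_final (fmd_two_le K) (fmd_le_three K) rfl ?_ (by have := fmdk_last k; omega)
    unfold fmdC fmdT
    exact le_rfl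
  refine fmd_mono2 (h.congr (fun K _ x => ?_)) 10000 6 (fun K _ x => ?_)
  · exact fmd_correct hF K _ _ _ _
  · have h1 := key K x.1
    refine le_trans (le_of_eq ?_) h1
    simp only [Nat.zero_add, Nat.add_zero]

end Pool.Agent.AbsIrr
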