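import Mathlib
import Pool.Agent.Lib.MP_2adc98_lc.ADefs
import Pool.Agent.Lib.MP_2adc98_lc.BL
import Pool.Agent.Lib.MP_2adc98_lc.FMD

/-!
# MP_2adc98_lc, piece FME: multiplication and batch multiplication (helper22)
-/

set_option autoImplicit false

namespace Pool.Agent.AbsIrr

open Finset Polynomial

section FMEaux

private theorem fme_sK {a : Ty} :
    RlzQ (a := a) (b := .nat) (fun K _ _ => sK K) (fun _ _ _ => 0) := by
  refine ((RlzQ.iteZero (b := .nat) (RlzQ.fadd RlzQ.one RlzQ.one) (RlzQ.lit 3)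
    (RlzQ.lit 2)).congr (fun K _ x => ?_)).mono 1 (fun K _ x => ?_)
  · unfold sK
    rw [one_add_one_eq_two]
  · simp

private theorem fme_trunc : RlzQ (a := .prod .nat .arr) (b := .arr)
    (fun _ _ x => tabF x.1 x.2) (fun _ _ x => x.1) := by
  refine (RlzQ.tab (a := .prod .nat .arr) (N := fun _ _ x => x.1) (f := fun _ _ x i => x.2 i)
    (RlzQ.fst RlzQ.input)
    (RlzQ.get (RlzQ.snd (RlzQ.fst RlzQ.input)) (RlzQ.snd RlzQ.input))).mono 1 (fun K _ x => ?_)
  simp

private theorem fme_sK_cases (K : Type) [Field K] : sK K = 2 ∨ sK K = 3 := by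
  unfold sK
  split_ifs
  · right; rfl
  · left; rfl

private theorem fme_pow_le (K : Type) [Field K] (n : ℕ) :
    sK K ^ (Nat.log (sK K) (2 * n) + 1) ≤ 6 * n + 3 := by
  rcases Nat.eq_zero_or_pos n with rfl | hn
  · rcases fme_sK_cases K with h | h <;> simp [h]
  · have h1 : sK K ^ Nat.log (sK K) (2 * n) ≤ 2 * n := Nat.pow_log_le_self _ (by omega)
    rw [pow_succ]
    rcases fme_sK_cases K with h | h <;> rw [h] at h1 ⊢ <;> omega

private theorem fme_lt_pow (K : Type) [Field K] (n : ℕ) :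
    2 * n < sK K ^ (Nat.log (sK K) (2 * n) + 1) := by
  refine Nat.lt_pow_succ_log_self ?_ _
  rcases fme_sK_cases K with h | h <;> rw [h] <;> norm_num

private theorem fme_cyc {K : Type} [Field K] (n L : ℕ) (hL : 2 * n < L) (a b : ℕ → K) :
    tabF n (cyc L (tabF n a) (tabF n b)) = conv n a b := by
  funext e
  unfold conv tabF
  by_cases he : e < n
  · rw [if_pos he, if_pos he]
    unfold cyc tabF
    rw [if_pos (by omega)]
    beta_reduce
    have h1 : ∀ i ∈ range L, (if i < n then a i else 0) *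
        (if (e + (L - i)) % L < n then b ((e + (L - i)) % L) else 0) =
        if i ∈ range (e + 1) then a i * b (e - i) else 0 := by
      intro i hi
      rw [mem_range] at hi
      by_cases h2 : i ≤ e
      · have h3 : (e + (L - i)) % L = e - i := by
          rw [show e + (L - i) = (e - i) + L by omega, Nat.add_mod_right,
            Nat.mod_eq_of_lt (by omega)]
        rw [h3, if_pos (by omega), if_pos (by omega), if_pos (by rw [mem_range]; omega)]
      · have h3 : (e + (L - i)) % L = e + (L - i) := Nat.mod_eq_of_lt (by omega)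
        rw [h3, if_neg (c := i ∈ range (e + 1)) (by rw [mem_range]; omega)]
        by_cases h4 : i < n
        · rw [if_neg (c := e + (L - i) < n) (by omega), mul_zero]
        · rw [if_neg h4, zero_mul]
    rw [Finset.sum_congr rfl h1, Finset.sum_ite_mem]
    congr 1
    ext i
    simp only [mem_inter, mem_range]
    omega
  · rw [if_neg he, if_neg he]

private theorem fme_conv0 : RlzQ (a := .prod .nat (.prod .arr .arr)) (b := .arr)
    (fun _ _ x => conv x.1 x.2.1 x.2.2) (fun _ _ x => x.1) := by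
  have hlog : RlzQ (a := .prod .nat (.prod .arr .arr)) (b := .nat)
      (fun K _ x => Nat.log (sK K) (2 * x.1)) (fun _ _ x => 2 * x.1) :=
    (RlzQ.nlog (a := .prod .nat (.prod .arr .arr)) fme_sK
      (RlzQ.mul (RlzQ.lit 2) (RlzQ.fst RlzQ.input))).mono 1 (fun K _ x => by simp)
  have hA : RlzQ (a := .prod .nat (.prod .arr .arr)) (b := .arr)
      (fun K _ x => tabF x.1 x.2.1) (fun _ _ x => x.1) :=
    (RlzQ.comp fme_trunc (RlzQ.pair (RlzQ.fst RlzQ.input)
      (RlzQ.fst (RlzQ.snd RlzQ.input)))).mono 1 (fun K _ x => by simp)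
  have hB : RlzQ (a := .prod .nat (.prod .arr .arr)) (b := .arr)
      (fun K _ x => tabF x.1 x.2.2) (fun _ _ x => x.1) :=
    (RlzQ.comp fme_trunc (RlzQ.pair (RlzQ.fst RlzQ.input)
      (RlzQ.snd (RlzQ.snd RlzQ.input)))).mono 1 (fun K _ x => by simp)
  refine ((RlzQ.comp fme_trunc (RlzQ.pair (RlzQ.fst RlzQ.input)
    (RlzQ.comp cyc_rlz (RlzQ.pair hlog (RlzQ.pair hA hB))))).congr (fun K _ x => ?_)).mono 20
    (fun K _ x => ?_)
  · exact fme_cyc _ _ (fme_lt_pow K x.1) _ _
  · have h1 := fme_pow_le K x.1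
    simp only [zero_add]
    omega

private theorem fme_block {K : Type} [Field K] (B w : ℕ) (G A : ℕ → K) :
    tabF (B * w) (fun n => conv (2 * (B * w)) (tabF (2 * (B * w)) (fun i => if i < w then G i else 0))
      (tabF (2 * (B * w)) (fun i => if i % (2 * w) < w then A (i / (2 * w) * w + i % (2 * w)) else 0))
      (n / w * (2 * w) + n % w)) = convB B w G A := by
  funext n
  unfold convB tabF
  by_cases hn : n < B * w
  · rw [if_pos hn, if_pos hn]
    have hw : 0 < w := by
      rcases Nat.eq_zero_or_pos w with rfl | h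
      · simp at hn
      · exact h
    have hq : n / w < B := Nat.div_lt_of_lt_mul (by rw [mul_comm]; exact hn)
    have hr : n % w < w := Nat.mod_lt _ hw
    beta_reduce
    generalize n / w = q at *
    generalize n % w = r at *
    have hlt : q * (2 * w) + r < 2 * (B * w) := by
      have h1 : (q + 1) * (2 * w) ≤ B * (2 * w) := Nat.mul_le_mul_right _ (by omega)
      nlinarith
    unfold conv tabF
    beta_reduce
    rw [if_pos hlt]
    have h1 : ∀ j ∈ range (q * (2 * w) + r + 1),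
        (if j < 2 * (B * w) then (if j < w then G j else 0) else 0) *
        (if q * (2 * w) + r - j < 2 * (B * w) then
          (if (q * (2 * w) + r - j) % (2 * w) < w then
            A ((q * (2 * w) + r - j) / (2 * w) * w + (q * (2 * w) + r - j) % (2 * w)) else 0)
          else 0) =
        if j ∈ range (r + 1) then G j * A (q * w + (r - j)) else 0 := by
      intro j hj
      rw [mem_range] at hj
      rw [if_pos (show j < 2 * (B * w) by omega),
        if_pos (show q * (2 * w) + r - j < 2 * (B * w) by omega)]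
      by_cases h2 : j ≤ r
      · have h3 : q * (2 * w) + r - j = 2 * w * q + (r - j) := by
          rw [mul_comm q]; omega
        rw [if_pos (show j < w by omega), if_pos (show j ∈ range (r + 1) by rw [mem_range]; omega),
          h3, Nat.mul_add_mod, Nat.mod_eq_of_lt (show r - j < 2 * w by omega),
          Nat.mul_add_div (by omega), Nat.div_eq_of_lt (show r - j < 2 * w by omega),
          if_pos (show r - j < w by omega), add_zero]
      · rw [if_neg (show ¬ j ∈ range (r + 1) by rw [mem_range]; omega)]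
        by_cases h4 : j < w
        · have hq0 : 0 < q := by
            rcases Nat.eq_zero_or_pos q with rfl | h
            · omega
            · exact h
          obtain ⟨q', rfl⟩ : ∃ q', q = q' + 1 := ⟨q - 1, by omega⟩
          have h3 : (q' + 1) * (2 * w) + r - j = 2 * w * q' + (2 * w + r - j) := by
            rw [add_mul, one_mul, mul_comm q']; omega
          rw [h3, Nat.mul_add_mod, Nat.mod_eq_of_lt (show 2 * w + r - j < 2 * w by omega),
            if_neg (show ¬ 2 * w + r - j < w by omega), mul_zero]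
        · rw [if_neg h4, zero_mul]
    rw [Finset.sum_congr rfl h1, Finset.sum_ite_mem]
    have h5 : range (q * (2 * w) + r + 1) ∩ range (r + 1) = range (r + 1) := by
      ext i
      simp only [mem_inter, mem_range]
      omega
    rw [h5]
  · rw [if_neg hn, if_neg hn]

private theorem fme_get2 : RlzQ (a := .prod .nat (.prod .nat .arr)) (b := .arr)
    (fun _ _ x => tabF (x.1 * x.2.1) (fun i => x.2.2 (i / x.2.1 * (2 * x.2.1) + i % x.2.1)))
    (fun _ _ x => x.1 * x.2.1) := by
  have h1 : RlzQ (a := .prod (.prod .nat (.prod .nat .arr)) .nat) (b := .fld)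
      (fun _ _ x => x.1.2.2 (x.2 / x.1.2.1 * (2 * x.1.2.1) + x.2 % x.1.2.1)) (fun _ _ _ => 0) :=
    (RlzQ.get (a := .prod (.prod .nat (.prod .nat .arr)) .nat)
      (A := fun _ _ x => x.1.2.2) (I := fun _ _ x => x.2 / x.1.2.1 * (2 * x.1.2.1) + x.2 % x.1.2.1)
      (RlzQ.snd (RlzQ.snd (RlzQ.fst RlzQ.input)))
      (RlzQ.add (RlzQ.mul (RlzQ.div (RlzQ.snd RlzQ.input) (RlzQ.fst (RlzQ.snd (RlzQ.fst RlzQ.input))))
        (RlzQ.mul (RlzQ.lit 2) (RlzQ.fst (RlzQ.snd (RlzQ.fst RlzQ.input)))))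
        (RlzQ.mod (RlzQ.snd RlzQ.input) (RlzQ.fst (RlzQ.snd (RlzQ.fst RlzQ.input)))))).mono 1
      (fun K _ x => by simp)
  refine (RlzQ.tab (a := .prod .nat (.prod .nat .arr)) (N := fun _ _ x => x.1 * x.2.1)
    (f := fun _ _ x i => x.2.2 (i / x.2.1 * (2 * x.2.1) + i % x.2.1))
    (RlzQ.mul (RlzQ.fst RlzQ.input) (RlzQ.fst (RlzQ.snd RlzQ.input))) h1).mono 1 (fun K _ x => ?_)
  simp

private theorem fme_G : RlzQ (a := .prod .nat (.prod .nat (.prod .arr .arr))) (b := .arr)
    (fun K _ x => tabF (2 * (x.1 * x.2.1)) (fun i => if i < x.2.1 then x.2.2.1 i else (0 : K)))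
    (fun _ _ x => x.1 * x.2.1) := by
  have h1 : RlzQ (a := .prod (.prod .nat (.prod .nat (.prod .arr .arr))) .nat) (b := .fld)
      (fun K _ x => if x.2 < x.1.2.1 then x.1.2.2.1 x.2 else (0 : K)) (fun _ _ _ => 0) :=
    (RlzQ.iteLt (a := .prod (.prod .nat (.prod .nat (.prod .arr .arr))) .nat) (b := .fld)
      (T := fun _ _ x => x.2) (U := fun _ _ x => x.1.2.1) (F := fun _ _ x => x.1.2.2.1 x.2)
      (G := fun K _ _ => (0 : K))
      (RlzQ.snd RlzQ.input) (RlzQ.fst (RlzQ.snd (RlzQ.fst RlzQ.input)))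
      (RlzQ.get (RlzQ.fst (RlzQ.snd (RlzQ.snd (RlzQ.fst RlzQ.input)))) (RlzQ.snd RlzQ.input))
      RlzQ.zero).mono 1 (fun K _ x => by simp)
  refine (RlzQ.tab (a := .prod .nat (.prod .nat (.prod .arr .arr)))
    (N := fun _ _ x => 2 * (x.1 * x.2.1))
    (f := fun K _ x i => if i < x.2.1 then x.2.2.1 i else (0 : K))
    (RlzQ.mul (RlzQ.lit 2) (RlzQ.mul (RlzQ.fst RlzQ.input) (RlzQ.fst (RlzQ.snd RlzQ.input))))
    h1).mono 2 (fun K _ x => ?_)
  simp only [sum_const_zero, zero_add, add_zero]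
  omega

private theorem fme_A : RlzQ (a := .prod .nat (.prod .nat (.prod .arr .arr))) (b := .arr)
    (fun K _ x => tabF (2 * (x.1 * x.2.1)) (fun i => if i % (2 * x.2.1) < x.2.1 then
      x.2.2.2 (i / (2 * x.2.1) * x.2.1 + i % (2 * x.2.1)) else (0 : K)))
    (fun _ _ x => x.1 * x.2.1) := by
  have hw : RlzQ (a := .prod (.prod .nat (.prod .nat (.prod .arr .arr))) .nat) (b := .nat)
      (fun _ _ x => x.1.2.1) (fun _ _ _ => 0) := RlzQ.fst (RlzQ.snd (RlzQ.fst RlzQ.input))
  have h2w : RlzQ (a := .prod (.prod .nat (.prod .nat (.prod .arr .arr))) .nat) (b := .nat)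
      (fun _ _ x => 2 * x.1.2.1) (fun _ _ _ => 0 + 0) := RlzQ.mul (RlzQ.lit 2) hw
  have hi : RlzQ (a := .prod (.prod .nat (.prod .nat (.prod .arr .arr))) .nat) (b := .nat)
      (fun _ _ x => x.2) (fun _ _ _ => 0) := RlzQ.snd RlzQ.input
  have h1 : RlzQ (a := .prod (.prod .nat (.prod .nat (.prod .arr .arr))) .nat) (b := .fld)
      (fun K _ x => if x.2 % (2 * x.1.2.1) < x.1.2.1 then
        x.1.2.2.2 (x.2 / (2 * x.1.2.1) * x.1.2.1 + x.2 % (2 * x.1.2.1)) else (0 : K))
      (fun _ _ _ => 0) :=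
    (RlzQ.iteLt (a := .prod (.prod .nat (.prod .nat (.prod .arr .arr))) .nat) (b := .fld)
      (T := fun _ _ x => x.2 % (2 * x.1.2.1)) (U := fun _ _ x => x.1.2.1)
      (F := fun _ _ x => x.1.2.2.2 (x.2 / (2 * x.1.2.1) * x.1.2.1 + x.2 % (2 * x.1.2.1)))
      (G := fun K _ _ => (0 : K))
      (RlzQ.mod hi h2w) hw
      (RlzQ.get (RlzQ.snd (RlzQ.snd (RlzQ.snd (RlzQ.fst RlzQ.input))))
        (RlzQ.add (RlzQ.mul (RlzQ.div hi h2w) hw) (RlzQ.mod hi h2w)))
      RlzQ.zero).mono 1 (fun K _ x => by simp)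
  refine (RlzQ.tab (a := .prod .nat (.prod .nat (.prod .arr .arr)))
    (N := fun _ _ x => 2 * (x.1 * x.2.1))
    (f := fun K _ x i => if i % (2 * x.2.1) < x.2.1 then
      x.2.2.2 (i / (2 * x.2.1) * x.2.1 + i % (2 * x.2.1)) else (0 : K))
    (RlzQ.mul (RlzQ.lit 2) (RlzQ.mul (RlzQ.fst RlzQ.input) (RlzQ.fst (RlzQ.snd RlzQ.input))))
    h1).mono 2 (fun K _ x => ?_)
  simp only [sum_const_zero, zero_add, add_zero]
  omega

private theorem fme_convB0 : RlzQ (a := .prod .nat (.prod .nat (.prod .arr .arr))) (b := .arr)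
    (fun _ _ x => convB x.1 x.2.1 x.2.2.1 x.2.2.2) (fun _ _ x => x.1 * x.2.1) := by
  have hn : RlzQ (a := .prod .nat (.prod .nat (.prod .arr .arr))) (b := .nat)
      (fun _ _ x => 2 * (x.1 * x.2.1)) (fun _ _ _ => 0) :=
    (RlzQ.mul (RlzQ.lit 2) (RlzQ.mul (RlzQ.fst RlzQ.input)
      (RlzQ.fst (RlzQ.snd RlzQ.input)))).mono 1 (fun K _ x => by simp)
  refine ((RlzQ.comp fme_get2 (RlzQ.pair (RlzQ.fst RlzQ.input)
    (RlzQ.pair (RlzQ.fst (RlzQ.snd RlzQ.input))
      (RlzQ.comp fme_conv0 (RlzQ.pair hn (RlzQ.pair fme_G fme_A)))))).congr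
      (fun K _ x => ?_)).mono 20 (fun K _ x => ?_)
  · exact fme_block x.1 x.2.1 x.2.2.1 x.2.2.2
  · simp only [zero_add]
    omega

end FMEaux

section FME
variable {a : Ty}
theorem RlzQ.conv {N : Fam a .nat} {A B : Fam a .arr} {cn ca cb : CFam a} (hN : RlzQ N cn)
    (hA : RlzQ A ca) (hB : RlzQ B cb) :
    RlzQ (b := .arr) (fun K _ x => conv (N K x) (A K x) (B K x))
      (fun K _ x => cn K x + ca K x + cb K x + N K x) := by
  refine (RlzQ.comp fme_conv0 (RlzQ.pair hN (RlzQ.pair hA hB))).mono 1 (fun K _ x => ?_)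
  simp only
  omega
theorem RlzQ.convB {M W : Fam a .nat} {G A : Fam a .arr} {cm cw cg ca : CFam a}
    (hM : RlzQ M cm) (hW : RlzQ W cw) (hG : RlzQ G cg) (hA : RlzQ A ca) :
    RlzQ (b := .arr) (fun K _ x => convB (M K x) (W K x) (G K x) (A K x))
      (fun K _ x => cm K x + cw K x + cg K x + ca K x + M K x * W K x) := by
  refine (RlzQ.comp fme_convB0 (RlzQ.pair hM (RlzQ.pair hW (RlzQ.pair hG hA)))).mono 1
    (fun K _ x => ?_)
  simp only
  omega
end FME

end Pool.Agent.AbsIrr
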