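import Mathlib
import Pool.Agent.Lib.MP_2adc98_lc.ADefs
import Pool.Agent.Lib.MP_2adc98_lc.FME

/-!
# MP_2adc98_lc, piece SER : powers and inverses of power series (helper78)
-/

set_option autoImplicit false

namespace Pool.Agent.AbsIrr

open Finset Polynomial

/-! ## the number of binary digits, by a loop -/

private def serBits (x : ℕ) : ℕ :=
  (iterF (S := ℕ × ℕ) x (0, x) (fun s _ => if s.2 ≠ 0 then (s.1 + 1, s.2 / 2) else s)).1

private theorem serBits_inv (x i : ℕ) :
    ∀ s : ℕ × ℕ, s = iterF (S := ℕ × ℕ) i (0, x)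
      (fun s _ => if s.2 ≠ 0 then (s.1 + 1, s.2 / 2) else s) →
    s.2 = x / 2 ^ i ∧ (s.2 ≠ 0 → s.1 = i) ∧ (s.2 = 0 → x < 2 ^ s.1) ∧ s.1 ≤ Nat.log 2 x + 1 := by
  induction i with
  | zero =>
    rintro s rfl
    refine ⟨by simp, fun _ => rfl, fun h => ?_, by simp⟩
    simp only [iterF_zero] at h
    simp [h]
  | succ i ih =>
    rintro s rfl
    rw [iterF_succ]
    obtain ⟨h1, h2, h3, h4⟩ := ih _ rfl
    set s := iterF (S := ℕ × ℕ) i (0, x)
      (fun s _ => if s.2 ≠ 0 then (s.1 + 1, s.2 / 2) else s) with hs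
    have hdiv : x / 2 ^ (i + 1) = x / 2 ^ i / 2 := by
      rw [pow_succ, Nat.div_div_eq_div_mul]
    by_cases hm : s.2 = 0
    · simp only [hm, ne_eq, not_true_eq_false, if_false]
      refine ⟨?_, fun h => h.elim, fun _ => h3 hm, h4⟩
      rw [hdiv, ← h1, hm]
    · simp only [ne_eq, hm, not_false_eq_true, if_true]
      have h5 := h2 hm
      refine ⟨by rw [hdiv, ← h1], fun _ => by rw [h5], fun h => ?_, ?_⟩
      · rw [h1] at h
        have h6 : x / 2 ^ (i + 1) = 0 := by rw [hdiv, h]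
        rw [h5]
        rcases Nat.div_eq_zero_iff.1 h6 with h7 | h7
        · exact absurd h7 (by positivity)
        · exact h7
      · rw [h1] at hm
        have h6 : 2 ^ i ≤ x := by
          by_contra hcon
          exact hm (Nat.div_eq_of_lt (not_le.1 hcon))
        have h7 : i ≤ Nat.log 2 x := Nat.le_log_of_pow_le (by norm_num) h6
        omega

private theorem lt_serBits (x : ℕ) : x < 2 ^ serBits x := by
  obtain ⟨h1, _, h3, _⟩ := serBits_inv x x _ rfl
  refine h3 ?_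
  rw [h1]
  exact Nat.div_eq_of_lt Nat.lt_two_pow_self

private theorem serBits_le (x : ℕ) : serBits x ≤ Nat.log 2 x + 1 :=
  (serBits_inv x x _ rfl).2.2.2

private theorem serBits_rlz : RlzQ (a := .nat) (b := .nat) (fun _ _ x => serBits x)
    (fun _ _ x => x) := by
  have hbody : RlzQ (a := .prod (.prod .nat (.prod .nat .nat)) .nat) (b := .prod .nat .nat)
      (fun _ _ x => if (x.1.2.2 : ℕ) ≠ 0 then ((x.1.2.1 : ℕ) + 1, (x.1.2.2 : ℕ) / 2) else x.1.2)
      (fun _ _ _ => 0) := by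
    refine RlzQ.mono (RlzQ.iteNat (RlzQ.snd (RlzQ.snd (RlzQ.fst RlzQ.input)))
      (RlzQ.pair (RlzQ.add (RlzQ.fst (RlzQ.snd (RlzQ.fst RlzQ.input))) (RlzQ.lit 1))
        (RlzQ.div (RlzQ.snd (RlzQ.snd (RlzQ.fst RlzQ.input))) (RlzQ.lit 2)))
      (RlzQ.snd (RlzQ.fst RlzQ.input))) 1 (fun K _ x => by simp)
  have hloop := RlzQ.iterB (a := .nat) (b := .prod .nat .nat) (N := fun _ _ x => x)
    (S := fun _ _ x => (0, x))
    (f := fun _ _ _ s _ => if (s.2 : ℕ) ≠ 0 then ((s.1 : ℕ) + 1, (s.2 : ℕ) / 2) else s)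
    RlzQ.input (RlzQ.pair (RlzQ.lit 0) RlzQ.input) hbody 2 (fun K _ x i hi => by
      obtain ⟨h1, h2, h3, h4⟩ := serBits_inv x i _ rfl
      simp only [Ty.nmx]
      have h5 : (iterF (S := ℕ × ℕ) i (0, x)
        (fun s _ => if s.2 ≠ 0 then (s.1 + 1, s.2 / 2) else s)).2 ≤ x := by
        rw [h1]; exact Nat.div_le_self _ _
      have h6 := Nat.log_le_self 2 x
      have h7 : ∀ m : ℕ, m ≤ x + 1 → m ≤ (0 + (0 + 0) + x +
          ∑ i ∈ range x, 0 + x + 2) ^ 2 := by
        intro m hm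
        simp only [sum_const_zero]
        nlinarith
      exact max_le (h7 _ (h4.trans (by omega))) (h7 _ (h5.trans (by omega))))
  exact (RlzQ.fst hloop).mono 1 (fun K _ x => by simp)

/-! ## powers -/

section
variable {K : Type} [Field K]

private theorem ser_conv (n : ℕ) (p q : PowerSeries K) (u v : ℕ → K)
    (hu : ∀ i < n, u i = PowerSeries.coeff i p) (hv : ∀ i < n, v i = PowerSeries.coeff i q) :
    conv n u v = tabF n (fun i => PowerSeries.coeff i (p * q)) := by
  funext i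
  unfold conv tabF
  split_ifs with hi
  · beta_reduce
    rw [PowerSeries.coeff_mul,
      Finset.Nat.sum_antidiagonal_eq_sum_range_succ (fun a b => PowerSeries.coeff a p *
        PowerSeries.coeff b q)]
    refine sum_congr rfl fun j hj => ?_
    have := mem_range.1 hj
    rw [hu j (by omega), hv (i - j) (by omega)]
  · rfl

private theorem tabF_lt (n : ℕ) (f : ℕ → K) {i : ℕ} (hi : i < n) : tabF n f i = f i := by
  unfold tabF
  rw [if_pos hi]

private def serOne (K : Type) [Field K] (n : ℕ) : ℕ → K := tabF n (fun i => if i = 0 then 1 else 0)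

private theorem serOne_eq (n : ℕ) :
    serOne K n = tabF n (fun i => PowerSeries.coeff i (1 : PowerSeries K)) := by
  unfold serOne
  congr 1
  funext i
  rw [PowerSeries.coeff_one]

private def serPow (n e : ℕ) (a : ℕ → K) (i : ℕ) : (ℕ → K) × ((ℕ → K) × ℕ) :=
  iterF (S := (ℕ → K) × ((ℕ → K) × ℕ)) i (serOne K n, (a, e))
    (fun s _ => (if s.2.2 % 2 ≠ 0 then conv n s.1 s.2.1 else s.1, (conv n s.2.1 s.2.1, s.2.2 / 2)))

private theorem serPow_inv (n e : ℕ) (a : ℕ → K) (i : ℕ) :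
    (serPow n e a i).2.2 = e / 2 ^ i ∧ ∃ p q : PowerSeries K,
      (serPow n e a i).1 = tabF n (fun j => PowerSeries.coeff j p) ∧
      (∀ j < n, (serPow n e a i).2.1 j = PowerSeries.coeff j q) ∧
      p * q ^ (serPow n e a i).2.2 = PowerSeries.mk a ^ e := by
  induction i with
  | zero =>
    refine ⟨by simp [serPow], 1, PowerSeries.mk a, serOne_eq n, fun j _ => ?_, ?_⟩
    · simp [serPow]
    · simp [serPow]
  | succ i ih =>
    obtain ⟨h1, p, q, h2, h3, h4⟩ := ih
    have hdiv : e / 2 ^ (i + 1) = e / 2 ^ i / 2 := by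
      rw [pow_succ, Nat.div_div_eq_div_mul]
    have hst : serPow n e a (i + 1) = (if (serPow n e a i).2.2 % 2 ≠ 0 then
        conv n (serPow n e a i).1 (serPow n e a i).2.1 else (serPow n e a i).1,
        (conv n (serPow n e a i).2.1 (serPow n e a i).2.1, (serPow n e a i).2.2 / 2)) := rfl
    rw [hst]
    set s := serPow n e a i with hs
    have hq : conv n s.2.1 s.2.1 = tabF n (fun j => PowerSeries.coeff j (q * q)) :=
      ser_conv n q q _ _ h3 h3
    have hp : conv n s.1 s.2.1 = tabF n (fun j => PowerSeries.coeff j (p * q)) :=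
      ser_conv n p q _ _ (fun j hj => by rw [h2, tabF_lt n _ hj]) h3
    refine ⟨by rw [hdiv, ← h1], if s.2.2 % 2 ≠ 0 then p * q else p, q * q, ?_, ?_, ?_⟩
    · by_cases hb : s.2.2 % 2 = 0
      · simp only [hb, ne_eq, not_true_eq_false, if_false]
        exact h2
      · simp only [ne_eq, hb, not_false_eq_true, if_true]
        exact hp
    · intro j hj
      simp only [hq]
      rw [tabF_lt n _ hj]
    · rw [← h4]
      simp only
      by_cases hb : s.2.2 % 2 = 0
      · simp only [hb, ne_eq, not_true_eq_false, if_false]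
        rw [← pow_two, ← pow_mul]
        congr 2
        omega
      · simp only [ne_eq, hb, not_false_eq_true, if_true]
        rw [mul_assoc, ← pow_two, ← pow_mul, ← pow_succ']
        congr 2
        omega

private theorem serPow_spec (n e : ℕ) (a : ℕ → K) :
    (serPow n e a (serBits e)).1 = pws n e a := by
  obtain ⟨h1, p, q, h2, _, h4⟩ := serPow_inv n e a (serBits e)
  rw [h1, Nat.div_eq_of_lt (lt_serBits e), pow_zero, mul_one] at h4
  rw [h2, h4]
  rfl

end

private theorem serOne_rlz : RlzQ (a := .nat) (b := .arr) (fun K _ x => serOne K x)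
    (fun _ _ x => x) := by
  unfold serOne
  have hf : RlzQ (a := .prod .nat .nat) (b := .fld)
      (fun K _ x => if (x.2 : ℕ) = 0 then (1 : K) else (0 : K)) (fun _ _ _ => 0) :=
    (RlzQ.iteEq (RlzQ.snd RlzQ.input) (RlzQ.lit 0) RlzQ.one RlzQ.zero).mono 1
      (fun K _ x => by simp)
  have := RlzQ.tab (a := .nat) (N := fun _ _ x => x)
    (f := fun _K _ _ i => if (i : ℕ) = 0 then (1 : _K) else (0 : _K)) RlzQ.input hf
  exact this.mono 1 (fun K _ x => by simp)

private theorem Phi_log (x y : ℕ) : (Nat.log 2 x + 1) * y ≤ Phi 1 (x + y) := by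
  unfold Phi
  rw [pow_one, mul_comm]
  refine Nat.mul_le_mul (by omega) ?_
  have : Nat.log 2 x ≤ Nat.log 2 (x + y + 1) := Nat.log_mono_right (by omega)
  omega

private theorem pws_rlz : RlzQ (a := .prod .nat (.prod .nat .arr)) (b := .arr)
    (fun _ _ x => pws x.1 x.2.1 x.2.2) (fun _ _ x => x.1 + x.2.1) := by
  have hbody : RlzQ (a := .prod (.prod (.prod .nat (.prod .nat .arr)) (.prod .arr (.prod .arr .nat)))
      .nat) (b := .prod .arr (.prod .arr .nat))
      (fun K _ x => (if (x.1.2.2.2 : ℕ) % 2 ≠ 0 then conv (K := K) x.1.1.1 x.1.2.1 x.1.2.2.1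
        else x.1.2.1, (conv (K := K) x.1.1.1 x.1.2.2.1 x.1.2.2.1, (x.1.2.2.2 : ℕ) / 2)))
      (fun _ _ x => x.1.1.1) := by
    refine RlzQ.mono (RlzQ.pair (RlzQ.iteNat
      (RlzQ.mod (RlzQ.snd (RlzQ.snd (RlzQ.snd (RlzQ.fst RlzQ.input)))) (RlzQ.lit 2))
      (RlzQ.conv (RlzQ.fst (RlzQ.fst (RlzQ.fst RlzQ.input)))
        (RlzQ.fst (RlzQ.snd (RlzQ.fst RlzQ.input)))
        (RlzQ.fst (RlzQ.snd (RlzQ.snd (RlzQ.fst RlzQ.input)))))
      (RlzQ.fst (RlzQ.snd (RlzQ.fst RlzQ.input))))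
      (RlzQ.pair (RlzQ.conv (RlzQ.fst (RlzQ.fst (RlzQ.fst RlzQ.input)))
        (RlzQ.fst (RlzQ.snd (RlzQ.snd (RlzQ.fst RlzQ.input))))
        (RlzQ.fst (RlzQ.snd (RlzQ.snd (RlzQ.fst RlzQ.input)))))
        (RlzQ.div (RlzQ.snd (RlzQ.snd (RlzQ.snd (RlzQ.fst RlzQ.input)))) (RlzQ.lit 2))))
      2 (fun K _ x => ?_)
    split_ifs <;> omega
  have hinit : RlzQ (a := .prod .nat (.prod .nat .arr)) (b := .prod .arr (.prod .arr .nat))
      (fun K _ x => (serOne K x.1, (x.2.2, x.2.1))) (fun _ _ x => x.1) :=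
    RlzQ.mono (RlzQ.pair (RlzQ.comp serOne_rlz (RlzQ.fst RlzQ.input))
      (RlzQ.pair (RlzQ.snd (RlzQ.snd RlzQ.input)) (RlzQ.fst (RlzQ.snd RlzQ.input)))) 1
      (fun K _ x => by simp)
  have hN : RlzQ (a := .prod .nat (.prod .nat .arr)) (b := .nat)
      (fun _ _ x => serBits x.2.1) (fun _ _ x => x.2.1) :=
    RlzQ.mono (RlzQ.comp serBits_rlz (RlzQ.fst (RlzQ.snd RlzQ.input))) 1 (fun K _ x => by simp)
  have hloop := RlzQ.iterB (a := .prod .nat (.prod .nat .arr)) (b := .prod .arr (.prod .arr .nat))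
    (f := fun K _ x s _ => (if (s.2.2 : ℕ) % 2 ≠ 0 then conv (K := K) x.1 s.1 s.2.1
        else s.1, (conv (K := K) x.1 s.2.1 s.2.1, (s.2.2 : ℕ) / 2)))
    hN hinit hbody 1 (fun K _ x i hi => by
      have h1 := (serPow_inv x.1 x.2.1 x.2.2 i).1
      have h2 : (serPow x.1 x.2.1 x.2.2 i).2.2 ≤ x.2.1 := by
        rw [h1]; exact Nat.div_le_self _ _
      have h3 : (Ty.prod .arr (.prod .arr .nat)).nmx K (serPow x.1 x.2.1 x.2.2 i) ≤ x.2.1 := by
        simp only [Ty.nmx, Nat.zero_max]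
        exact h2
      refine h3.trans ?_
      rw [pow_one]
      omega)
  refine RlzQ.congr ((RlzQ.fst hloop).mono' 3 (fun K _ x => ?_)) (fun K _ x => serPow_spec _ _ _)
  have h1 : ∑ _i ∈ range (serBits x.2.1), x.1 = serBits x.2.1 * x.1 := by simp
  have h2 := serBits_le x.2.1
  have h3 : serBits x.2.1 * x.1 ≤ (Nat.log 2 x.2.1 + 1) * x.1 := Nat.mul_le_mul_right _ h2
  have h4 := Phi_log x.2.1 x.1
  have h5 : Phi 1 (x.2.1 + x.1) ≤ Phi 3 (x.1 + x.2.1) := Phi_mono (by omega) (by omega)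
  have h6 := le_Phi 3 (x.1 + x.2.1)
  have h7 := Nat.log_le_self 2 x.2.1
  rw [h1]
  omega

section SER
variable {a : Ty}

theorem RlzQ.pws {N E : Fam a .nat} {A : Fam a .arr} {cn ce ca : CFam a} (hN : RlzQ N cn)
    (hE : RlzQ E ce) (hA : RlzQ A ca) :
    RlzQ (b := .arr) (fun K _ x => pws (N K x) (E K x) (A K x))
      (fun K _ x => cn K x + ce K x + ca K x + N K x + E K x) :=
  RlzQ.mono (RlzQ.comp pws_rlz (RlzQ.pair hN (RlzQ.pair hE hA))) 1 (fun K _ x => by
    dsimp only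
    omega)

end SER

/-! ## inverses -/

section
variable {K : Type} [Field K]

private def serTwo (n : ℕ) (w : ℕ → K) : ℕ → K :=
  tabF n (fun j => (if j = 0 then 1 + 1 else 0) - w j)

private theorem serTwo_eq (n : ℕ) (p : PowerSeries K) (w : ℕ → K)
    (hw : ∀ j < n, w j = PowerSeries.coeff j p) :
    serTwo n w = tabF n (fun j => PowerSeries.coeff j (1 + 1 - p)) := by
  unfold serTwo tabF
  funext j
  split_ifs with h1
  · beta_reduce
    rw [hw j h1, map_sub, map_add, PowerSeries.coeff_one]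
    by_cases h2 : j = 0
    · rw [if_pos h2, if_pos h2]
    · rw [if_neg h2, if_neg h2, add_zero]
  · rfl

private def serInv (n : ℕ) (a : ℕ → K) (i : ℕ) : ℕ → K :=
  iterF (S := ℕ → K) i (serOne K n) (fun s _ => conv n s (serTwo n (conv n a s)))

private theorem serInv_inv (n : ℕ) (a : ℕ → K) (ha : a 0 = 1) (i : ℕ) :
    ∃ p r : PowerSeries K, serInv n a i = tabF n (fun j => PowerSeries.coeff j p) ∧
      PowerSeries.mk a * p = 1 + PowerSeries.X ^ (2 ^ i) * r := by
  induction i with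
  | zero =>
    have h1 : (PowerSeries.X : PowerSeries K) ∣ PowerSeries.mk a - 1 := by
      rw [PowerSeries.X_dvd_iff, map_sub, map_one, sub_eq_zero,
        ← PowerSeries.coeff_zero_eq_constantCoeff_apply, PowerSeries.coeff_mk, ha]
    obtain ⟨r, hr⟩ := h1
    refine ⟨1, r, serOne_eq n, ?_⟩
    rw [pow_zero, pow_one, ← hr]
    ring
  | succ i ih =>
    obtain ⟨p, r, h1, h2⟩ := ih
    have hst : serInv n a (i + 1) =
      conv n (serInv n a i) (serTwo n (conv n a (serInv n a i))) := rfl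
    have h3 : ∀ j < n, serInv n a i j = PowerSeries.coeff j p := by
      intro j hj
      rw [h1, tabF_lt n _ hj]
    have h4 : ∀ j < n, a j = PowerSeries.coeff j (PowerSeries.mk a) := by
      intro j _
      rw [PowerSeries.coeff_mk]
    have h5 := ser_conv n _ _ _ _ h4 h3
    have h6 := serTwo_eq n (PowerSeries.mk a * p) (conv n a (serInv n a i)) (by
      intro j hj
      rw [h5, tabF_lt n _ hj])
    have h7 := ser_conv n p (1 + 1 - PowerSeries.mk a * p) _
      (serTwo n (conv n a (serInv n a i))) h3 (by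
        intro j hj
        rw [h6, tabF_lt n _ hj])
    refine ⟨p * (1 + 1 - PowerSeries.mk a * p), -(r * r), by rw [hst, h7], ?_⟩
    have h8 : PowerSeries.mk a * (p * (1 + 1 - PowerSeries.mk a * p)) =
        1 - (1 - PowerSeries.mk a * p) ^ 2 := by ring
    rw [h8, h2, pow_succ 2 i, pow_mul]
    ring

private theorem serInv_spec (n : ℕ) (a : ℕ → K) (ha : a 0 = 1) :
    serInv n a (serBits n) = pinv n a := by
  obtain ⟨p, r, h1, h2⟩ := serInv_inv n a ha (serBits n)
  rw [h1]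
  unfold pinv tabF
  funext j
  split_ifs with hj
  · have h3 : PowerSeries.mk a * PowerSeries.invOfUnit (PowerSeries.mk a) 1 = 1 := by
      refine PowerSeries.mul_invOfUnit _ _ ?_
      rw [← PowerSeries.coeff_zero_eq_constantCoeff_apply, PowerSeries.coeff_mk, ha]
      rfl
    have h4 : p = PowerSeries.invOfUnit (PowerSeries.mk a) 1 +
        PowerSeries.X ^ (2 ^ serBits n) * (r * PowerSeries.invOfUnit (PowerSeries.mk a) 1) := by
      calc p = (PowerSeries.mk a * PowerSeries.invOfUnit (PowerSeries.mk a) 1) * p := by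
            rw [h3, one_mul]
        _ = (PowerSeries.mk a * p) * PowerSeries.invOfUnit (PowerSeries.mk a) 1 := by ring
        _ = _ := by rw [h2]; ring
    beta_reduce
    rw [h4, map_add, PowerSeries.coeff_X_pow_mul', if_neg, add_zero]
    have := lt_serBits n
    omega
  · rfl

end

private theorem serTwo_rlz : RlzQ (a := .prod .nat .arr) (b := .arr)
    (fun K _ x => serTwo (K := K) x.1 x.2) (fun _ _ x => x.1) := by
  unfold serTwo
  have hf : RlzQ (a := .prod (.prod .nat .arr) .nat) (b := .fld)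
      (fun K _ x => (if (x.2 : ℕ) = 0 then (1 : K) + 1 else (0 : K)) - (x.1.2 : ℕ → K) x.2)
      (fun _ _ _ => 0) :=
    (RlzQ.fsub (RlzQ.iteEq (RlzQ.snd RlzQ.input) (RlzQ.lit 0) (RlzQ.fadd RlzQ.one RlzQ.one)
      RlzQ.zero) (RlzQ.get (RlzQ.snd (RlzQ.fst RlzQ.input)) (RlzQ.snd RlzQ.input))).mono 1
      (fun K _ x => by simp)
  have := RlzQ.tab (a := .prod .nat .arr) (N := fun _ _ x => x.1)
    (f := fun _K _ x i => (if (i : ℕ) = 0 then (1 : _K) + 1 else (0 : _K)) - (x.2 : ℕ → _K) i)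
    (RlzQ.fst RlzQ.input) hf
  exact this.mono 1 (fun K _ x => by simp)

theorem inverse : ∃ F : Fam (.prod .nat .arr) .arr, RlzQ F (fun _ _ x => x.1) ∧
    ∀ (K : Type) [Field K] (n : ℕ) (a : ℕ → K), a 0 = 1 → F K (n, a) = pinv n a := by
  refine ⟨fun K _ x => serInv (K := K) x.1 x.2 (serBits x.1), ?_,
    fun K _ n a ha => serInv_spec n a ha⟩
  have hbody : RlzQ (a := .prod (.prod (.prod .nat .arr) .arr) .nat) (b := .arr)
      (fun K _ x => conv (K := K) x.1.1.1 x.1.2 (serTwo x.1.1.1 (conv x.1.1.1 x.1.1.2 x.1.2)))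
      (fun _ _ x => x.1.1.1) := by
    refine RlzQ.mono (RlzQ.conv (RlzQ.fst (RlzQ.fst (RlzQ.fst RlzQ.input)))
      (RlzQ.snd (RlzQ.fst RlzQ.input)) (RlzQ.comp serTwo_rlz
        (RlzQ.pair (RlzQ.fst (RlzQ.fst (RlzQ.fst RlzQ.input)))
          (RlzQ.conv (RlzQ.fst (RlzQ.fst (RlzQ.fst RlzQ.input)))
            (RlzQ.snd (RlzQ.fst (RlzQ.fst RlzQ.input))) (RlzQ.snd (RlzQ.fst RlzQ.input))))))
      3 (fun K _ x => ?_)
    dsimp only
    omega
  have hloop := RlzQ.iter (a := .prod .nat .arr) (b := .arr)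
    (f := fun K _ x s _ => conv (K := K) x.1 s (serTwo x.1 (conv x.1 x.2 s)))
    (RlzQ.comp serBits_rlz (RlzQ.fst RlzQ.input)) (RlzQ.comp serOne_rlz (RlzQ.fst RlzQ.input))
    hbody
  refine hloop.mono' 5 (fun K _ x => ?_)
  have h1 : ∑ _i ∈ range (serBits x.1), x.1 = serBits x.1 * x.1 := by simp
  have h2 := serBits_le x.1
  have h3 : serBits x.1 * x.1 ≤ (Nat.log 2 x.1 + 1) * x.1 := Nat.mul_le_mul_right _ h2
  have h5 : (Nat.log 2 x.1 + 1) * x.1 ≤ Phi 5 x.1 := by
    refine le_trans ?_ (Phi_mono (c := 1) (g := x.1) (by omega) le_rfl)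
    unfold Phi
    rw [pow_one, mul_comm]
    refine Nat.mul_le_mul (by omega) ?_
    have : Nat.log 2 x.1 ≤ Nat.log 2 (x.1 + 1) := Nat.log_mono_right (by omega)
    omega
  have h6 := le_Phi 5 x.1
  have h7 := Nat.log_le_self 2 x.1
  dsimp only
  rw [h1]
  omega

end Pool.Agent.AbsIrr
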