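import Mathlib
import Pool.Agent.Lib.MP_2adc98_lc.ADefs
import Pool.Agent.Lib.MP_2adc98_lc.BL
import Pool.Agent.Lib.MP_2adc98_lc.SER
import Pool.Agent.Lib.MP_2adc98_lc.FME

/-!
# MP_2adc98_lc, piece DC: the digits by divide and conquer
-/

set_option autoImplicit false

namespace Pool.Agent.AbsIrr

open Finset Polynomial

/-- the assembly step: `w` is half the block length -/
private def dcMix {K : Type} [Zero K] (N w : ℕ) (A C : ℕ → K) : ℕ → K :=
  tabF N (fun n => if n % (2 * w) < w then A n else C n)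

private theorem dcMix_rlz : RlzQ (a := .prod .nat (.prod .nat (.prod .arr .arr))) (b := .arr)
    (fun _ _ x => dcMix x.1 x.2.1 x.2.2.1 x.2.2.2) (fun _ _ x => x.1) := by
  unfold dcMix
  apply RlzQ.mono
  case h =>
    apply_rules [RlzQ.tab, RlzQ.iteLt, RlzQ.mod, RlzQ.mul, RlzQ.get, RlzQ.fst, RlzQ.snd,
      RlzQ.input, RlzQ.lit]
  case A => exact 10
  case hc =>
    intro K _ x
    simp
    omega

/-- one round -/
private noncomputable def dcStep {K : Type} [Field K] (B d j : ℕ) (G A : ℕ → K) (h : ℕ) : ℕ → K :=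
  dcMix (B * 2 ^ j * d) (2 ^ (j - 1 - h) * d) A
    (convB (B * 2 ^ h) (2 * (2 ^ (j - 1 - h) * d))
      (pws (2 * (2 ^ (j - 1 - h) * d)) (2 ^ (j - 1 - h)) (tabF (d + 1) G)) A)

private theorem dcG_rlz : RlzQ
    (a := .prod (.prod (.prod .nat (.prod .nat (.prod .nat (.prod .arr .arr)))) .arr) .nat)
    (b := .arr)
    (fun _ _ y => tabF ((y.1.1.2.1 : ℕ) + 1) (fun n => (y.1.1.2.2.2.1 : ℕ → _) n))
    (fun _ _ y => y.1.1.2.1) := by
  apply RlzQ.mono
  case h =>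
    apply_rules [RlzQ.tab, RlzQ.add, RlzQ.get, RlzQ.fst, RlzQ.snd, RlzQ.input, RlzQ.lit]
  case A => exact 10
  case hc =>
    intro K _ x
    simp

private theorem dc_bound1 (m d R : ℕ) (h1 : m ≤ R) (h2 : 1 ≤ R) :
    m + R + (m + R) + d + 2 * (R * d) + R ≤ 10 * (R * (d + 1) + 1) := by
  nlinarith [Nat.zero_le (R * d)]

private theorem dc_bound2 (j P m R i Q B e : ℕ) (h1 : m ≤ R) (h2 : 1 ≤ R) (h3 : j ≤ P)
    (h4 : i ≤ Q) (h5 : 1 ≤ Q) :
    j + P + (m + R + (i + Q + (m + R) + R * (e + 1) + B * Q * (2 * (R * e)))) + B * P * e ≤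
      20 * ((B + 1) * (P + Q + Q * R) * (e + 1) + 1) := by
  have h6 : R ≤ Q * R := by nlinarith
  have h7 : R * e ≤ Q * R * e := by nlinarith
  nlinarith [Nat.zero_le (B * P), Nat.zero_le (B * Q), Nat.zero_le (B * Q * R),
    Nat.zero_le (B * P * e), Nat.zero_le (B * Q * e), Nat.zero_le (B * Q * R * e),
    Nat.zero_le (P * e), Nat.zero_le (Q * e), Nat.zero_le (Q * R * e)]

private theorem dcP_rlz : RlzQ
    (a := .prod (.prod (.prod .nat (.prod .nat (.prod .nat (.prod .arr .arr)))) .arr) .nat)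
    (b := .arr)
    (fun _ _ y => pws (2 * (2 ^ ((y.1.1.2.2.1 : ℕ) - 1 - (y.2 : ℕ)) * y.1.1.2.1))
        (2 ^ ((y.1.1.2.2.1 : ℕ) - 1 - (y.2 : ℕ)))
        (tabF ((y.1.1.2.1 : ℕ) + 1) (fun n => (y.1.1.2.2.2.1 : ℕ → _) n)))
    (fun _ _ y => 2 ^ (y.1.1.2.2.1 - 1 - y.2) * (y.1.1.2.1 + 1)) := by
  apply RlzQ.mono
  case h =>
    apply_rules [RlzQ.pws, RlzQ.npow, RlzQ.sub, RlzQ.mul, dcG_rlz, RlzQ.fst, RlzQ.snd, RlzQ.input, RlzQ.lit]
  case A => exact 10
  case hc =>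
    intro K _ x
    simp only [zero_add, add_zero]
    exact dc_bound1 _ _ _ (Nat.lt_two_pow_self).le Nat.one_le_two_pow

private theorem dcStep_rlz : RlzQ
    (a := .prod (.prod (.prod .nat (.prod .nat (.prod .nat (.prod .arr .arr)))) .arr) .nat)
    (b := .arr)
    (fun _ _ y => dcStep y.1.1.1 y.1.1.2.1 y.1.1.2.2.1 y.1.1.2.2.2.1 y.1.2 y.2)
    (fun _ _ y => (y.1.1.1 + 1) * (2 ^ y.1.1.2.2.1 + 2 ^ y.2 +
      2 ^ y.2 * 2 ^ (y.1.1.2.2.1 - 1 - y.2)) * (y.1.1.2.1 + 1)) := by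
  have h := RlzQ.comp
    (a := .prod (.prod (.prod .nat (.prod .nat (.prod .nat (.prod .arr .arr)))) .arr) .nat)
    (b := .prod .nat (.prod .nat (.prod .arr .arr))) dcMix_rlz
    (RlzQ.pair (RlzQ.mul (RlzQ.mul (RlzQ.fst (RlzQ.fst (RlzQ.fst RlzQ.input)))
        (RlzQ.npow (RlzQ.lit 2) (RlzQ.fst (RlzQ.snd (RlzQ.snd (RlzQ.fst (RlzQ.fst RlzQ.input)))))))
        (RlzQ.fst (RlzQ.snd (RlzQ.fst (RlzQ.fst RlzQ.input)))))
      (RlzQ.pair (RlzQ.mul (RlzQ.npow (RlzQ.lit 2) (RlzQ.sub (RlzQ.sub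
        (RlzQ.fst (RlzQ.snd (RlzQ.snd (RlzQ.fst (RlzQ.fst RlzQ.input))))) (RlzQ.lit 1))
          (RlzQ.snd RlzQ.input))) (RlzQ.fst (RlzQ.snd (RlzQ.fst (RlzQ.fst RlzQ.input)))))
      (RlzQ.pair (RlzQ.snd (RlzQ.fst RlzQ.input))
      (RlzQ.convB (RlzQ.mul (RlzQ.fst (RlzQ.fst (RlzQ.fst RlzQ.input)))
          (RlzQ.npow (RlzQ.lit 2) (RlzQ.snd RlzQ.input)))
        (RlzQ.mul (RlzQ.lit 2) (RlzQ.mul (RlzQ.npow (RlzQ.lit 2) (RlzQ.sub (RlzQ.sub
        (RlzQ.fst (RlzQ.snd (RlzQ.snd (RlzQ.fst (RlzQ.fst RlzQ.input))))) (RlzQ.lit 1))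
          (RlzQ.snd RlzQ.input))) (RlzQ.fst (RlzQ.snd (RlzQ.fst (RlzQ.fst RlzQ.input))))))
        dcP_rlz (RlzQ.snd (RlzQ.fst RlzQ.input))))))
  refine (h.congr fun K _ y => rfl).mono 20 fun K _ x => ?_
  simp only [zero_add, add_zero]
  exact dc_bound2 _ _ _ _ _ _ _ _ (Nat.lt_two_pow_self).le Nat.one_le_two_pow
    (Nat.lt_two_pow_self).le (Nat.lt_two_pow_self).le Nat.one_le_two_pow

/-- all rounds -/
private noncomputable def dcLoop {K : Type} [Field K] (B d j : ℕ) (G S : ℕ → K) (t : ℕ) : ℕ → K :=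
  iterF t S (fun A h => dcStep B d j G A h)

private theorem dc_bound3 (j B e : ℕ) (c : ℕ → ℕ)
    (hc : ∀ h < j, c h ≤ (B + 1) * (2 ^ j + 2 ^ h + 2 ^ h * 2 ^ (j - 1 - h)) * (e + 1)) :
    j + ∑ h ∈ range j, c h ≤ 4 * Phi 4 ((B + 1) * 2 ^ j * (e + 1)) := by
  have h1 : ∑ h ∈ range j, c h ≤ j * (3 * ((B + 1) * 2 ^ j * (e + 1))) := by
    refine sum_range_le fun h hh => (hc h hh).trans ?_
    have h2 : 2 ^ h ≤ 2 ^ j := Nat.pow_le_pow_right (by norm_num) hh.le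
    have h3 : 2 ^ h * 2 ^ (j - 1 - h) ≤ 2 ^ j := by
      rw [← pow_add]
      exact Nat.pow_le_pow_right (by norm_num) (by omega)
    calc (B + 1) * (2 ^ j + 2 ^ h + 2 ^ h * 2 ^ (j - 1 - h)) * (e + 1)
        ≤ (B + 1) * (2 ^ j + 2 ^ j + 2 ^ j) * (e + 1) := by gcongr
      _ = 3 * ((B + 1) * 2 ^ j * (e + 1)) := by ring
  have h2 : 2 ^ j ≤ (B + 1) * 2 ^ j * (e + 1) := by
    calc 2 ^ j = 1 * 2 ^ j * 1 := by ring
      _ ≤ (B + 1) * 2 ^ j * (e + 1) := by gcongr <;> omega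
  generalize hg : (B + 1) * 2 ^ j * (e + 1) = g at h1 h2 ⊢
  have h3 : j ≤ Nat.log 2 (g + 1) := Nat.le_log_of_pow_le (by norm_num) (by omega)
  unfold Phi
  generalize Nat.log 2 (g + 1) = L at h3 ⊢
  have h4 : (L + 1) ≤ (L + 1) ^ 4 := Nat.le_self_pow (by norm_num) _
  generalize (L + 1) ^ 4 = M at h4 ⊢
  have h5 : j * (3 * g) ≤ 3 * (g * M) := by
    calc j * (3 * g) ≤ M * (3 * g) := by gcongr; omega
      _ = 3 * (g * M) := by ring
  nlinarith

private theorem dcLoop_rlz : RlzQ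
    (a := .prod .nat (.prod .nat (.prod .nat (.prod .arr .arr)))) (b := .arr)
    (fun _ _ x => dcLoop x.1 x.2.1 x.2.2.1 x.2.2.2.1 x.2.2.2.2 x.2.2.1)
    (fun _ _ x => (x.1 + 1) * 2 ^ x.2.2.1 * (x.2.1 + 1)) := by
  have h := RlzQ.iter (a := .prod .nat (.prod .nat (.prod .nat (.prod .arr .arr)))) (b := .arr)
    (f := fun K _ x A h => dcStep x.1 x.2.1 x.2.2.1 x.2.2.2.1 A h)
    (RlzQ.fst (RlzQ.snd (RlzQ.snd RlzQ.input))) (RlzQ.snd (RlzQ.snd (RlzQ.snd (RlzQ.snd RlzQ.input))))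
    dcStep_rlz
  refine (h.congr fun K _ y => rfl).mono' 4 fun K _ x => ?_
  simp only [zero_add, add_zero]
  exact dc_bound3 _ _ _ _ fun h _ => le_rfl

private theorem dc_bound4 (j B e : ℕ) :
    j + 2 ^ j + e + (B + 1) * 2 ^ j * (e + 1) + B * 2 ^ j * e ≤
      10 * ((B + 1) * 2 ^ j * (e + 1) + 1) := by
  have h1 : j ≤ 2 ^ j := (Nat.lt_two_pow_self).le
  have h2 : 1 ≤ 2 ^ j := Nat.one_le_two_pow
  generalize 2 ^ j = P at h1 h2 ⊢
  have h3 : e ≤ P * e := by nlinarith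
  nlinarith [Nat.zero_le (B * P), Nat.zero_le (B * P * e)]

private noncomputable def dcF : Fam (.prod .nat (.prod .nat (.prod .nat (.prod .arr .arr)))) .arr :=
  fun _ _ x => convB (x.1 * 2 ^ (x.2.2.1 : ℕ)) x.2.1 (tabF ((x.2.1 : ℕ) + 1) x.2.2.2.1)
    (dcLoop x.1 x.2.1 x.2.2.1 x.2.2.2.1 x.2.2.2.2 x.2.2.1)

private theorem dcF_rlz : RlzQ dcF (fun _ _ x => (x.1 + 1) * 2 ^ x.2.2.1 * (x.2.1 + 1)) := by
  have hG : RlzQ (a := .prod .nat (.prod .nat (.prod .nat (.prod .arr .arr)))) (b := .arr)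
      (fun _ _ x => tabF ((x.2.1 : ℕ) + 1) (fun n => (x.2.2.2.1 : ℕ → _) n))
      (fun _ _ x => x.2.1) := by
    apply RlzQ.mono
    case h =>
      apply_rules [RlzQ.tab, RlzQ.add, RlzQ.get, RlzQ.fst, RlzQ.snd, RlzQ.input, RlzQ.lit]
    case A => exact 10
    case hc =>
      intro K _ x
      simp
  have h := RlzQ.convB (a := .prod .nat (.prod .nat (.prod .nat (.prod .arr .arr))))
    (RlzQ.mul (RlzQ.fst RlzQ.input) (RlzQ.npow (RlzQ.lit 2)
      (RlzQ.fst (RlzQ.snd (RlzQ.snd RlzQ.input))))) (RlzQ.fst (RlzQ.snd RlzQ.input)) hG dcLoop_rlz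
  refine (h.congr fun K _ y => rfl).mono 10 fun K _ x => ?_
  simp only [zero_add, add_zero]
  exact dc_bound4 _ _ _

/-! correctness -/

section
variable {K : Type} [Field K]

private theorem coeff_mul_congr (G : PowerSeries K) {s s' : ℕ → K} {m : ℕ}
    (h : ∀ n ≤ m, s n = s' n) :
    PowerSeries.coeff m (PowerSeries.mk s * G) = PowerSeries.coeff m (PowerSeries.mk s' * G) := by
  rw [PowerSeries.coeff_mul, PowerSeries.coeff_mul]
  refine Finset.sum_congr rfl fun p hp => ?_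
  have h1 := Finset.HasAntidiagonal.mem_antidiagonal.1 hp
  rw [PowerSeries.coeff_mk, PowerSeries.coeff_mk, h p.1 (by omega)]

/-- the digits depend only on the first `2^j d` entries -/
private theorem split_congr (d : ℕ) (g : K[X]) (j : ℕ) {s s' : ℕ → K}
    (h : ∀ n < 2 ^ j * d, s n = s' n) (l : ℕ) : split d g j s l = split d g j s' l := by
  induction j generalizing s s' l with
  | zero =>
    simp only [split]
    congr 1
    ext m
    rw [PowerSeries.coeff_trunc, PowerSeries.coeff_trunc]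
    split_ifs with hm
    · exact coeff_mul_congr _ fun n hn => h n (by simp; omega)
    · rfl
  | succ j ih =>
    have e : 2 ^ (j + 1) * d = 2 ^ j * d + 2 ^ j * d := by ring
    simp only [split]
    split_ifs with hl
    · exact ih (fun n hn => h n (by omega)) l
    · exact ih (fun n hn => coeff_mul_congr _ fun m hm => h m (by omega)) _

/-- the batch product on a block -/
private theorem convB_block (M w : ℕ) (P A : ℕ → K) {m n : ℕ} (hm : m < M) (hn : n < w) :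
    convB M w P A (m * w + n) =
      PowerSeries.coeff n (PowerSeries.mk (fun n => A (m * w + n)) * PowerSeries.mk P) := by
  have h1 : (m * w + n) / w = m := by
    rw [mul_comm, Nat.mul_add_div (by omega), Nat.div_eq_of_lt hn, add_zero]
  have h2 : (m * w + n) % w = n := by
    rw [mul_comm, Nat.mul_add_mod, Nat.mod_eq_of_lt hn]
  have h3 : m * w + n < M * w := by
    calc m * w + n < (m + 1) * w := by rw [Nat.succ_mul]; omega
      _ ≤ M * w := Nat.mul_le_mul_right _ hm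
  unfold convB
  rw [tabF, if_pos h3, h1, h2, mul_comm (PowerSeries.mk _) (PowerSeries.mk P), PowerSeries.coeff_mul,
    Finset.Nat.sum_antidiagonal_eq_sum_range_succ (fun a b =>
      PowerSeries.coeff a (PowerSeries.mk P) *
        PowerSeries.coeff b (PowerSeries.mk (fun n => A (m * w + n)))) n]
  refine Finset.sum_congr rfl fun i _ => ?_
  rw [PowerSeries.coeff_mk, PowerSeries.coeff_mk]

private theorem mk_tabF {d : ℕ} {g : K[X]} (hg : g.natDegree ≤ d) {G : ℕ → K}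
    (hG : ∀ n ≤ d, G n = g.coeff (d - n)) :
    PowerSeries.mk (tabF (d + 1) G) = ((reflect d g : K[X]) : PowerSeries K) := by
  ext n
  rw [PowerSeries.coeff_mk, Polynomial.coeff_coe, coeff_reflect, tabF]
  split_ifs with h
  · rw [hG n (by omega), revAt_le (by omega)]
  · rw [revAt_eq_self_of_lt (by omega), coeff_eq_zero_of_natDegree_lt (by omega)]

private theorem dcStep_block {B d j h k c : ℕ} {g : K[X]} (hg : g.natDegree ≤ d) {G : ℕ → K}
    (hG : ∀ n ≤ d, G n = g.coeff (d - n)) (A : ℕ → K) (hh : h < j) (hk : k < B) (hc : c < 2 ^ h)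
    {n : ℕ} (hn : n < 2 * (2 ^ (j - 1 - h) * d)) :
    dcStep B d j G A h ((k * 2 ^ h + c) * (2 * (2 ^ (j - 1 - h) * d)) + n) =
      if n < 2 ^ (j - 1 - h) * d then A ((k * 2 ^ h + c) * (2 * (2 ^ (j - 1 - h) * d)) + n) else
        PowerSeries.coeff n (PowerSeries.mk
          (fun n => A ((k * 2 ^ h + c) * (2 * (2 ^ (j - 1 - h) * d)) + n)) *
            ((reflect d g : K[X]) : PowerSeries K) ^ 2 ^ (j - 1 - h)) := by
  have hm : k * 2 ^ h + c < B * 2 ^ h := by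
    calc k * 2 ^ h + c < (k + 1) * 2 ^ h := by rw [Nat.succ_mul]; omega
      _ ≤ B * 2 ^ h := Nat.mul_le_mul_right _ hk
  have hj : 2 ^ j = 2 ^ h * (2 * 2 ^ (j - 1 - h)) := by
    rw [← pow_succ', ← pow_add]
    congr 1
    omega
  unfold dcStep dcMix
  generalize hw : 2 ^ (j - 1 - h) * d = w at hn ⊢
  have hN : B * 2 ^ j * d = B * 2 ^ h * (2 * w) := by rw [hj, ← hw]; ring
  have h3 : (k * 2 ^ h + c) * (2 * w) + n < B * 2 ^ j * d := by
    rw [hN]
    generalize k * 2 ^ h + c = m at hm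
    calc m * (2 * w) + n < m * (2 * w) + 2 * w := Nat.add_lt_add_left hn _
      _ = (m + 1) * (2 * w) := by ring
      _ ≤ B * 2 ^ h * (2 * w) := Nat.mul_le_mul_right _ hm
  have h2 : ((k * 2 ^ h + c) * (2 * w) + n) % (2 * w) = n := by
    rw [mul_comm, Nat.mul_add_mod, Nat.mod_eq_of_lt hn]
  rw [tabF, if_pos h3, h2]
  split_ifs with h4
  · rfl
  · rw [convB_block _ _ _ _ hm hn]
    rw [mul_comm (PowerSeries.mk _) (PowerSeries.mk _), PowerSeries.coeff_mul,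
      mul_comm (PowerSeries.mk _) (_ ^ _), PowerSeries.coeff_mul]
    refine Finset.sum_congr rfl fun p hp => ?_
    have h1 := Finset.HasAntidiagonal.mem_antidiagonal.1 hp
    rw [PowerSeries.coeff_mk, ← mk_tabF hg hG, pws, tabF, if_pos (by omega)]

private theorem dcLoop_inv {B d j : ℕ} {g : K[X]} (hg : g.natDegree ≤ d) {G : ℕ → K}
    (hG : ∀ n ≤ d, G n = g.coeff (d - n)) (S : ℕ → K) {k : ℕ} (hk : k < B) (t : ℕ) (ht : t ≤ j) :
    ∀ c < 2 ^ t, ∀ c' < 2 ^ (j - t),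
      split d g j (fun n => S (k * (2 ^ j * d) + n)) (c * 2 ^ (j - t) + c' + 1) =
        split d g (j - t) (fun n => dcLoop B d j G S t ((k * 2 ^ t + c) * (2 ^ (j - t) * d) + n))
          (c' + 1) := by
  induction t with
  | zero =>
    intro c hc c' hc'
    obtain rfl : c = 0 := by simpa using hc
    simp [dcLoop]
  | succ t ih =>
    intro c hc c' hc'
    have e1 : j - t = (j - 1 - t) + 1 := by omega
    have e2 : j - (t + 1) = j - 1 - t := by omega
    rw [e2] at hc' ⊢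
    have hc2 : c / 2 < 2 ^ t := by
      rw [pow_succ] at hc
      omega
    have hcm := Nat.div_add_mod c 2
    have hlt : c % 2 < 2 := Nat.mod_lt _ (by norm_num)
    have hc3 : c % 2 * 2 ^ (j - 1 - t) + c' < 2 ^ (j - t) := by
      rw [e1, pow_succ]
      have : c % 2 * 2 ^ (j - 1 - t) ≤ 1 * 2 ^ (j - 1 - t) := Nat.mul_le_mul_right _ (by omega)
      omega
    have h1 := ih (by omega) (c / 2) hc2 (c % 2 * 2 ^ (j - 1 - t) + c') hc3
    have e3 : c / 2 * 2 ^ (j - t) + (c % 2 * 2 ^ (j - 1 - t) + c') + 1 =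
        c * 2 ^ (j - 1 - t) + c' + 1 := by
      conv_rhs => rw [← hcm]
      rw [e1, pow_succ]
      ring
    rw [e3] at h1
    rw [h1, e1]
    simp only [split]
    have hst : dcLoop B d j G S (t + 1) = dcStep B d j G (dcLoop B d j G S t) t := rfl
    have e4 : 2 ^ (j - 1 - t + 1) * d = 2 * (2 ^ (j - 1 - t) * d) := by rw [pow_succ]; ring
    rw [e4, hst]
    generalize dcLoop B d j G S t = A
    have hb := fun n hn => dcStep_block (n := n) hg hG A (by omega : t < j) hk hc2 hn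
    have e5 : ∀ n, (k * 2 ^ (t + 1) + c) * (2 ^ (j - 1 - t) * d) + n =
        (k * 2 ^ t + c / 2) * (2 * (2 ^ (j - 1 - t) * d)) + (c % 2 * (2 ^ (j - 1 - t) * d) + n) := by
      intro n
      conv_lhs => rw [← hcm]
      rw [pow_succ]
      ring
    rcases Nat.lt_or_ge (c % 2) 1 with h0 | h0
    · have h0' : c % 2 = 0 := by omega
      rw [h0', zero_mul, zero_add, if_pos (by omega)]
      refine split_congr d g _ (fun n hn => ?_) _
      rw [e5, h0', zero_mul, zero_add, hb n (by omega), if_pos hn]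
    · have h0' : c % 2 = 1 := by omega
      rw [h0', one_mul, if_neg (by omega)]
      have e6 : 2 ^ (j - 1 - t) + c' + 1 - 2 ^ (j - 1 - t) = c' + 1 := by omega
      rw [e6]
      refine split_congr d g _ (fun n hn => ?_) _
      rw [e5, h0', one_mul, hb (2 ^ (j - 1 - t) * d + n) (by omega), if_neg (by omega),
        add_comm (2 ^ (j - 1 - t) * d) n]

theorem digits_rlz : ∃ F : Fam (.prod .nat (.prod .nat (.prod .nat (.prod .arr .arr)))) .arr,
    RlzQ F (fun _ _ x => (x.1 + 1) * 2 ^ x.2.2.1 * (x.2.1 + 1)) ∧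
    ∀ (K : Type) [Field K] (B d j : ℕ) (g : K[X]) (G S : ℕ → K), 1 ≤ d → g.natDegree ≤ d →
      (∀ n ≤ d, G n = g.coeff (d - n)) → ∀ k < B, ∀ c < 2 ^ j, ∀ i < d,
        F K (B, (d, (j, (G, S)))) ((k * 2 ^ j + c) * d + i) =
          (split d g j (fun n => S (k * (2 ^ j * d) + n)) (c + 1)).coeff (d - 1 - i) := by
  refine ⟨dcF, dcF_rlz, fun K _ B d j g G S hd hg hG k hk c hc i hi => ?_⟩
  have hm : k * 2 ^ j + c < B * 2 ^ j := by
    calc k * 2 ^ j + c < (k + 1) * 2 ^ j := by rw [Nat.succ_mul]; omega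
      _ ≤ B * 2 ^ j := Nat.mul_le_mul_right _ hk
  have h1 := dcLoop_inv hg hG S hk j le_rfl c hc 0 (by simp)
  simp only [Nat.sub_self, pow_zero, mul_one, add_zero, one_mul, zero_add] at h1
  have h2 : dcF K (B, (d, (j, (G, S)))) ((k * 2 ^ j + c) * d + i) =
      convB (B * 2 ^ j) d (tabF (d + 1) G) (dcLoop B d j G S j) ((k * 2 ^ j + c) * d + i) := rfl
  have e : d - 1 - (d - 1 - i) = i := by omega
  rw [h2, h1, convB_block _ _ _ _ hm hi, mk_tabF hg hG, split, coeff_reflect, revAt_le (by omega),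
    e, PowerSeries.coeff_trunc, if_pos (by omega)]

end

end Pool.Agent.AbsIrr
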