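import Mathlib
import Pool.Agent.Lib.MP_2adc98_lc.ADefs
import Pool.Agent.Lib.MP_2adc98_lc.FME
import Pool.Agent.Lib.MP_2adc98_lc.SER

/-!
# MP_2adc98_lc, piece DM: division with remainder by a monic polynomial, for many blocks at once
-/

set_option autoImplicit false
set_option linter.unusedVariables false

namespace Pool.Agent.AbsIrr

open Finset Polynomial

section dm
variable {K : Type} [Field K]

private theorem dm_gmon_deg (d : ℕ) (g : ℕ → K) :
    (gmon d g).Monic ∧ (gmon d g).natDegree = d := by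
  have h : (∑ i ∈ range d, monomial i (g i)).degree < (d : WithBot ℕ) := by
    rw [Polynomial.degree_lt_iff_coeff_zero]
    intro m hm
    rw [finsetSum_coeff]
    refine Finset.sum_eq_zero (fun i hi => ?_)
    rw [coeff_monomial, if_neg]
    have := Finset.mem_range.mp hi
    omega
  refine ⟨monic_X_pow_add h, ?_⟩
  unfold gmon
  rw [natDegree_add_eq_left_of_degree_lt, natDegree_X_pow]
  rwa [degree_X_pow]

private theorem dm_gmon_coeff (d : ℕ) (g : ℕ → K) (i : ℕ) :
    (gmon d g).coeff i = if i < d then g i else if i = d then 1 else 0 := by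
  unfold gmon
  rw [coeff_add, coeff_X_pow, finsetSum_coeff]
  simp only [coeff_monomial]
  rw [Finset.sum_ite_eq' (range d) i g]
  simp only [Finset.mem_range]
  by_cases h1 : i < d
  · have : i ≠ d := by omega
    simp [h1, this]
  · by_cases h2 : i = d
    · simp [h2]
    · simp [h1, h2]

private theorem dm_blk_coeff (w : ℕ) (A : ℕ → K) (c i : ℕ) :
    (blk w A c).coeff i = if i < w then A (c * w + i) else 0 := by
  unfold blk
  rw [finsetSum_coeff]
  simp only [coeff_monomial]
  rw [Finset.sum_ite_eq' (range w) i (fun i => A (c * w + i))]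
  simp only [Finset.mem_range]

private theorem dm_blk_deg (w : ℕ) (A : ℕ → K) (c : ℕ) : (blk w A c).degree < (w : WithBot ℕ) := by
  rw [Polynomial.degree_lt_iff_coeff_zero]
  intro m hm
  rw [dm_blk_coeff, if_neg (by omega)]

/-- the quotient through the inverse of the reversed polynomial -/
private theorem dm_quot {w d : ℕ} (P G : K[X]) (hP : P.degree < (w : WithBot ℕ)) (hG : G.Monic)
    (hd : G.natDegree = d) (n : ℕ) (hn : n + d < w) (a b : ℕ → K)
    (ha : ∀ i, a i = (G.reflect d).coeff i) (hb : ∀ i < w, b i = P.coeff (w - 1 - i)) :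
    (P /ₘ G).coeff n = ∑ j ∈ range (w - 1 - d - n + 1), pinv w a j * b (w - 1 - d - n - j) := by
  set q := P /ₘ G with hq
  set r := P %ₘ G with hr
  have hPq : r + G * q = P := modByMonic_add_div P G
  have hrdeg : ∀ i, d ≤ i → r.coeff i = 0 := by
    intro i hi
    refine coeff_eq_zero_of_degree_lt (lt_of_lt_of_le (degree_modByMonic_lt P hG) ?_)
    rw [degree_eq_natDegree hG.ne_zero, hd]
    exact_mod_cast hi
  have hPn : P.natDegree ≤ w - 1 := by
    rcases eq_or_ne P 0 with h0 | h0
    · simp [h0]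
    · have := (natDegree_lt_iff_degree_lt h0).2 hP
      omega
  have hqdeg : q.natDegree ≤ w - 1 - d := by
    rw [hq, natDegree_divByMonic P hG, hd]
    omega
  have hsplit : (G * q).reflect (w - 1) = G.reflect d * q.reflect (w - 1 - d) := by
    have h := reflect_mul G q (F := d) (G := w - 1 - d) hd.le hqdeg
    rwa [show d + (w - 1 - d) = w - 1 by omega] at h
  have hrefl : P.reflect (w - 1) = r.reflect (w - 1) + G.reflect d * q.reflect (w - 1 - d) := by
    rw [← hsplit, ← reflect_add, hPq]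
  -- power series
  have hA : (PowerSeries.mk a : PowerSeries K) = ((G.reflect d : K[X]) : PowerSeries K) := by
    ext i
    rw [PowerSeries.coeff_mk, Polynomial.coeff_coe, ha]
  have ha0 : a 0 = 1 := by
    rw [ha, coeff_reflect, revAt_le (Nat.zero_le d), Nat.sub_zero, ← hd]
    exact hG
  set H : PowerSeries K := PowerSeries.invOfUnit (PowerSeries.mk a) 1 with hH
  have hHA : H * PowerSeries.mk a = 1 := by
    rw [mul_comm]
    exact PowerSeries.mul_invOfUnit _ _ (by simp [ha0])
  have key : H * ((P.reflect (w - 1) : K[X]) : PowerSeries K) =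
      H * ((r.reflect (w - 1) : K[X]) : PowerSeries K) +
        ((q.reflect (w - 1 - d) : K[X]) : PowerSeries K) := by
    rw [hrefl, Polynomial.coe_add, Polynomial.coe_mul, mul_add, ← mul_assoc, ← hA, hHA, one_mul]
  have hm : w - 1 - d - n < w - d := by omega
  have key2 := congrArg (PowerSeries.coeff (w - 1 - d - n)) key
  rw [map_add, PowerSeries.coeff_mul, PowerSeries.coeff_mul,
    Finset.Nat.sum_antidiagonal_eq_sum_range_succ_mk,
    Finset.Nat.sum_antidiagonal_eq_sum_range_succ_mk, Polynomial.coeff_coe, coeff_reflect,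
    revAt_le (by omega), show w - 1 - d - (w - 1 - d - n) = n by omega] at key2
  rw [Finset.sum_eq_zero (s := range (w - 1 - d - n).succ)
    (f := fun k => PowerSeries.coeff k H * PowerSeries.coeff (w - 1 - d - n - k)
      ((r.reflect (w - 1) : K[X]) : PowerSeries K)), zero_add] at key2
  · rw [← key2]
    refine Finset.sum_congr rfl (fun j hj => ?_)
    have hj' : j ≤ w - 1 - d - n := by
      have := Finset.mem_range.mp hj
      omega
    rw [Polynomial.coeff_coe, coeff_reflect, revAt_le (by omega), hb _ (by omega)]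
    unfold pinv tabF
    rw [if_pos (by omega)]
  · intro j hj
    have hj' : j ≤ w - 1 - d - n := by
      have := Finset.mem_range.mp hj
      omega
    rw [Polynomial.coeff_coe, coeff_reflect, revAt_le (by omega), hrdeg _ (by omega), mul_zero]

private theorem dm_quot_zero {w d : ℕ} (P G : K[X]) (hP : P.degree < (w : WithBot ℕ))
    (hG : G.Monic) (hd : G.natDegree = d) (n : ℕ) (hn : ¬ n + d < w) :
    (P /ₘ G).coeff n = 0 := by
  by_cases h : P.degree < G.degree
  · rw [(divByMonic_eq_zero_iff hG).2 h, coeff_zero]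
  · refine coeff_eq_zero_of_natDegree_lt ?_
    rw [natDegree_divByMonic P hG, hd]
    have h0 : P ≠ 0 := by
      rintro rfl
      apply h
      rw [degree_zero]
      exact Ne.bot_lt (by simpa using hG.ne_zero)
    have h1 := (natDegree_lt_iff_degree_lt h0).2 hP
    have h2 : d ≤ P.natDegree := by
      rw [← hd]
      exact natDegree_le_natDegree (not_lt.mp h)
    omega

private theorem dm_mod (P G : K[X]) (n : ℕ) :
    (P %ₘ G).coeff n = P.coeff n - ∑ j ∈ range (n + 1), G.coeff j * (P /ₘ G).coeff (n - j) := by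
  have hPq : P %ₘ G + G * (P /ₘ G) = P := modByMonic_add_div P G
  have := congrArg (fun Q : K[X] => Q.coeff n) hPq
  simp only [coeff_add, coeff_mul, Finset.Nat.sum_antidiagonal_eq_sum_range_succ_mk] at this
  rw [← this]
  ring

/-- the reversed monic polynomial -/
private def dmRev (d : ℕ) (g : ℕ → K) : ℕ → K :=
  tabF (d + 1) (fun i => if i = 0 then 1 else g (d - i))

/-- the monic polynomial -/
private def dmG (d : ℕ) (g : ℕ → K) : ℕ → K :=
  tabF (d + 1) (fun i => if i < d then g i else 1)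

/-- the reversed blocks -/
private def dmA (B w : ℕ) (A : ℕ → K) : ℕ → K :=
  tabF (B * w) (fun n => A (n / w * w + (w - 1 - n % w)))

/-- the quotients from the products -/
private def dmQ (B w d : ℕ) (V : ℕ → K) : ℕ → K :=
  tabF (B * w) (fun n => if n % w + d < w then V (n / w * w + (w - 1 - d - n % w)) else 0)

private theorem dm_rev_coeff (d : ℕ) (g : ℕ → K) (i : ℕ) :
    dmRev d g i = ((gmon d g).reflect d).coeff i := by
  simp only [dmRev, tabF]
  rw [coeff_reflect, dm_gmon_coeff]
  by_cases hi : i ≤ d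
  · rw [revAt_le hi, if_pos (by omega)]
    by_cases h0 : i = 0
    · subst h0
      simp
    · rw [if_neg h0, if_pos (by omega)]
  · rw [if_neg (by omega), revAt_eq_self_of_lt (by omega), if_neg (by omega), if_neg (by omega)]

private theorem dm_G_coeff (d : ℕ) (g : ℕ → K) (i : ℕ) : dmG d g i = (gmon d g).coeff i := by
  simp only [dmG, tabF]
  rw [dm_gmon_coeff]
  by_cases hi : i < d
  · rw [if_pos (by omega), if_pos hi, if_pos hi]
  · by_cases h1 : i = d
    · rw [if_pos (by omega), if_neg hi, if_neg hi, if_pos h1]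
    · rw [if_neg (by omega), if_neg hi, if_neg h1]

private theorem dm_divmod {w m k : ℕ} (h : k < w) : (m * w + k) / w = m ∧ (m * w + k) % w = k := by
  have hw : 0 < w := by omega
  refine ⟨?_, ?_⟩
  · rw [mul_comm, Nat.mul_add_div hw, Nat.div_eq_of_lt h, Nat.add_zero]
  · rw [mul_comm, Nat.mul_add_mod, Nat.mod_eq_of_lt h]

private theorem dm_lt {B w n k : ℕ} (hn : n < B * w) (hk : k < w) : n / w * w + k < B * w := by
  have h1 : n / w < B := by
    apply Nat.div_lt_of_lt_mul
    rwa [mul_comm]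
  calc n / w * w + k < n / w * w + w := by omega
    _ = (n / w + 1) * w := by ring
    _ ≤ B * w := Nat.mul_le_mul_right _ h1

private theorem dm_div (B w d : ℕ) (g A : ℕ → K) :
    divB B w d g A = dmQ B w d (convB B w (pinv w (dmRev d g)) (dmA B w A)) := by
  funext n
  unfold divB dmQ
  simp only [tabF]
  by_cases hn : n < B * w
  · rw [if_pos hn, if_pos hn]
    have hw : 0 < w := by
      rcases Nat.eq_zero_or_pos w with h | h
      · simp [h] at hn
      · exact h
    have hmod : n % w < w := Nat.mod_lt _ hw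
    by_cases h : n % w + d < w
    · rw [if_pos h]
      have hk : w - 1 - d - n % w < w := by omega
      unfold convB
      simp only [tabF]
      rw [if_pos (dm_lt hn hk), (dm_divmod hk).1, (dm_divmod hk).2]
      rw [dm_quot (blk w A (n / w)) (gmon d g) (dm_blk_deg _ _ _) (dm_gmon_deg d g).1
        (dm_gmon_deg d g).2 (n % w) h (dmRev d g) (fun i => A (n / w * w + (w - 1 - i)))
        (dm_rev_coeff d g) ?_]
      · refine Finset.sum_congr rfl (fun j hj => ?_)
        have hk' : w - 1 - d - n % w - j < w := by omega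
        congr 1
        unfold dmA
        simp only [tabF]
        rw [if_pos (dm_lt hn hk'), (dm_divmod hk').1, (dm_divmod hk').2]
      · intro i hi
        rw [dm_blk_coeff, if_pos (by omega)]
    · rw [if_neg h]
      exact dm_quot_zero _ _ (dm_blk_deg _ _ _) (dm_gmon_deg d g).1 (dm_gmon_deg d g).2 _ h
  · rw [if_neg hn, if_neg hn]

private theorem dm_modB (B w d : ℕ) (g A : ℕ → K) :
    modB B w d g A = tabF (B * w) (fun n => A n - convB B w (dmG d g) (divB B w d g A) n) := by
  funext n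
  unfold modB
  simp only [tabF]
  by_cases hn : n < B * w
  · rw [if_pos hn, if_pos hn]
    have hw : 0 < w := by
      rcases Nat.eq_zero_or_pos w with h | h
      · simp [h] at hn
      · exact h
    have hmod : n % w < w := Nat.mod_lt _ hw
    rw [dm_mod, dm_blk_coeff, if_pos hmod, Nat.div_add_mod' n w]
    congr 1
    unfold convB
    simp only [tabF]
    rw [if_pos hn]
    refine Finset.sum_congr rfl (fun j hj => ?_)
    rw [dm_G_coeff]
    congr 1
    have hk : n % w - j < w := by omega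
    unfold divB
    simp only [tabF]
    rw [if_pos (dm_lt hn hk), (dm_divmod hk).1, (dm_divmod hk).2]
  · rw [if_neg hn, if_neg hn]

end dm

private abbrev TD5 : Ty := .prod .nat (.prod .nat (.prod .nat (.prod .arr .arr)))

private theorem dm_revQ : RlzQ (a := TD5) (b := .arr)
    (fun K _ x => dmRev x.2.2.1 x.2.2.2.1) (fun _ _ x => x.2.2.1) := by
  unfold dmRev
  apply RlzQ.mono
  case h =>
    apply_rules [RlzQ.tab, RlzQ.iteEq, RlzQ.add, RlzQ.sub, RlzQ.get, RlzQ.fst, RlzQ.snd,
      RlzQ.input, RlzQ.lit, RlzQ.one]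
  case A => exact 10
  case hc =>
    intro K _ x
    simp

private theorem dm_GQ : RlzQ (a := TD5) (b := .arr)
    (fun K _ x => dmG x.2.2.1 x.2.2.2.1) (fun _ _ x => x.2.2.1) := by
  unfold dmG
  apply RlzQ.mono
  case h =>
    apply_rules [RlzQ.tab, RlzQ.iteLt, RlzQ.add, RlzQ.sub, RlzQ.get, RlzQ.fst, RlzQ.snd,
      RlzQ.input, RlzQ.lit, RlzQ.one]
  case A => exact 10
  case hc =>
    intro K _ x
    simp

private theorem dm_AQ : RlzQ (a := TD5) (b := .arr)
    (fun K _ x => dmA x.1 x.2.1 x.2.2.2.2) (fun _ _ x => x.1 * x.2.1) := by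
  unfold dmA
  apply RlzQ.mono
  case h =>
    apply_rules [RlzQ.tab, RlzQ.mul, RlzQ.div, RlzQ.mod, RlzQ.add, RlzQ.sub, RlzQ.get, RlzQ.fst,
      RlzQ.snd, RlzQ.input, RlzQ.lit]
  case A => exact 10
  case hc =>
    intro K _ x
    simp
    omega

private theorem dm_QQ : RlzQ (a := .prod TD5 .arr) (b := .arr)
    (fun K _ x => dmQ x.1.1 x.1.2.1 x.1.2.2.1 x.2) (fun _ _ x => x.1.1 * x.1.2.1) := by
  unfold dmQ
  apply RlzQ.mono
  case h =>
    apply_rules (maxDepth := 300) [RlzQ.tab, RlzQ.iteLt, RlzQ.mul, RlzQ.div,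
      RlzQ.mod, RlzQ.add, RlzQ.sub, RlzQ.get, RlzQ.fst, RlzQ.snd, RlzQ.input, RlzQ.lit,
      RlzQ.zero]
  case A => exact 10
  case hc =>
    intro K _ x
    simp
    omega

private theorem dm_MQ : RlzQ (a := .prod TD5 .arr) (b := .arr)
    (fun K _ x => (tabF (x.1.1 * x.1.2.1) (fun n => x.1.2.2.2.2 n - x.2 n) : ℕ → K))
    (fun _ _ x => x.1.1 * x.1.2.1) := by
  apply RlzQ.mono
  case h =>
    apply_rules [RlzQ.tab, RlzQ.fsub, RlzQ.mul, RlzQ.get, RlzQ.fst, RlzQ.snd, RlzQ.input,
      RlzQ.lit]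
  case A => exact 10
  case hc =>
    intro K _ x
    simp
    omega

private theorem dm_divQ : RlzQ (a := TD5) (b := .arr)
    (fun K _ x => divB x.1 x.2.1 x.2.2.1 x.2.2.2.1 x.2.2.2.2)
    (fun _ _ x => (x.1 + 1) * (x.2.1 + 1) + x.2.2.1) := by
  obtain ⟨F, hF, hF'⟩ := inverse
  have h1 : RlzQ (a := TD5) (b := .arr) (fun K _ x => F K (x.2.1, dmRev x.2.2.1 x.2.2.2.1)) _ :=
    RlzQ.comp hF (RlzQ.pair (RlzQ.fst (RlzQ.snd RlzQ.input)) dm_revQ)
  have h2 := RlzQ.convB (M := fun K _ (x : TD5.val K) => x.1)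
    (W := fun K _ (x : TD5.val K) => x.2.1) (RlzQ.fst RlzQ.input)
    (RlzQ.fst (RlzQ.snd RlzQ.input)) h1 dm_AQ
  refine ((RlzQ.comp dm_QQ (RlzQ.pair RlzQ.input h2)).congr (fun K _ x => ?_)).mono 10
    (fun K _ x => ?_)
  · simp only
    rw [hF' K x.2.1 (dmRev x.2.2.1 x.2.2.2.1) (by simp [dmRev, tabF]), dm_div]
  · simp only
    nlinarith

theorem divmod_rlz : RlzQ (a := .prod .nat (.prod .nat (.prod .nat (.prod .arr .arr))))
    (b := .prod .arr .arr)
    (fun K _ x => (divB x.1 x.2.1 x.2.2.1 x.2.2.2.1 x.2.2.2.2,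
      modB x.1 x.2.1 x.2.2.1 x.2.2.2.1 x.2.2.2.2))
    (fun _ _ x => (x.1 + 1) * (x.2.1 + 1) + x.2.2.1) := by
  have hX : ∀ {b : Ty}, RlzQ (a := .prod TD5 b) (b := TD5) (fun K _ x => x.1) (fun _ _ _ => 0) :=
    RlzQ.fst RlzQ.input
  have h1 : RlzQ (a := .prod TD5 .arr) (b := .arr)
      (fun K _ x => convB x.1.1 x.1.2.1 (dmG x.1.2.2.1 x.1.2.2.2.1) x.2) _ :=
    RlzQ.convB (RlzQ.fst hX) (RlzQ.fst (RlzQ.snd hX)) (RlzQ.comp dm_GQ hX)
      (RlzQ.snd RlzQ.input)
  have h2 : RlzQ (a := .prod TD5 .arr) (b := .arr)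
      (fun K _ x => (tabF (x.1.1 * x.1.2.1) (fun n => x.1.2.2.2.2 n -
        convB x.1.1 x.1.2.1 (dmG x.1.2.2.1 x.1.2.2.2.1) x.2 n) : ℕ → K)) _ :=
    RlzQ.comp dm_MQ (RlzQ.pair hX h1)
  have h3 : RlzQ (a := .prod TD5 .arr) (b := .prod .arr .arr)
      (fun K _ x => (x.2, (tabF (x.1.1 * x.1.2.1) (fun n => x.1.2.2.2.2 n -
        convB x.1.1 x.1.2.1 (dmG x.1.2.2.1 x.1.2.2.2.1) x.2 n) : ℕ → K))) _ :=
    RlzQ.pair (RlzQ.snd RlzQ.input) h2
  refine ((RlzQ.comp h3 (RlzQ.pair RlzQ.input dm_divQ)).congr (fun K _ x => ?_)).mono 10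
    (fun K _ x => ?_)
  · simp only
    rw [dm_modB]
  · simp only
    nlinarith

end Pool.Agent.AbsIrr
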