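import Mathlib
import Pool.Agent.Lib.MP_2adc98_lc.ADefs

/-!
# MP_2adc98_lc: Kronecker substitution on flat arrays
-/

set_option autoImplicit false

namespace Pool.Agent.AbsIrr

open Finset Polynomial

/-- Kronecker substitution: the flat array of a product is the convolution of the flat arrays, if
the rows do not overlap -/
theorem flat_mul {K : Type} [Field K] {w D D' : ℕ} (P Q : PowerSeries (PowerSeries K))
    (hP : ∀ i n, D < n → PowerSeries.coeff n (PowerSeries.coeff i P) = 0)
    (hQ : ∀ i n, D' < n → PowerSeries.coeff n (PowerSeries.coeff i Q) = 0) (h : D + D' < w)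
    (n : ℕ) :
    flat w (P * Q) n = ∑ j ∈ range (n + 1), flat w P j * flat w Q (n - j) := by
  have hw : 0 < w := by omega
  rw [← Finset.Nat.sum_antidiagonal_eq_sum_range_succ (fun i j => flat w P i * flat w Q j)]
  unfold flat
  rw [PowerSeries.coeff_mul, map_sum]
  simp only [PowerSeries.coeff_mul]
  rw [← Finset.sum_product', ]
  symm
  refine Finset.sum_bij_ne_zero
    (fun (p : ℕ × ℕ) _ _ => ((p.1 / w, p.2 / w), (p.1 % w, p.2 % w))) ?_ ?_ ?_ ?_
  · intro p hp h0
    have h1 : p.1 % w ≤ D := by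
      by_contra hc
      exact h0 (by rw [hP _ _ (not_le.1 hc), zero_mul])
    have h2 : p.2 % w ≤ D' := by
      by_contra hc
      exact h0 (by rw [hQ _ _ (not_le.1 hc), mul_zero])
    rw [Finset.HasAntidiagonal.mem_antidiagonal] at hp
    have h3 : n = w * (p.1 / w + p.2 / w) + (p.1 % w + p.2 % w) := by
      rw [← hp]
      nlinarith [Nat.div_add_mod p.1 w, Nat.div_add_mod p.2 w]
    have h4 : n / w = p.1 / w + p.2 / w := by
      rw [h3, Nat.mul_add_div hw, Nat.div_eq_of_lt (by omega : p.1 % w + p.2 % w < w), add_zero]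
    have h5 : n % w = p.1 % w + p.2 % w := by
      rw [h3, Nat.mul_add_mod, Nat.mod_eq_of_lt (by omega)]
    simp [h4, h5]
  · intro p hp h0 q hq h1 heq
    simp only [Prod.mk.injEq] at heq
    obtain ⟨⟨h2, h3⟩, h4, h5⟩ := heq
    refine Prod.ext ?_ ?_
    · rw [← Nat.div_add_mod p.1 w, h2, h4, Nat.div_add_mod]
    · rw [← Nat.div_add_mod p.2 w, h3, h5, Nat.div_add_mod]
  · rintro ⟨⟨a, b⟩, c, d⟩ hp h0
    simp only [Finset.mem_product, Finset.HasAntidiagonal.mem_antidiagonal] at hp
    simp only at h0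
    have h1 : c ≤ D := by
      by_contra hc
      exact h0 (by rw [hP _ _ (not_le.1 hc), zero_mul])
    have h2 : d ≤ D' := by
      by_contra hc
      exact h0 (by rw [hQ _ _ (not_le.1 hc), mul_zero])
    have e1 : (w * a + c) / w = a := by
      rw [Nat.mul_add_div hw, Nat.div_eq_of_lt (by omega), add_zero]
    have e2 : (w * b + d) / w = b := by
      rw [Nat.mul_add_div hw, Nat.div_eq_of_lt (by omega), add_zero]
    have e3 : (w * a + c) % w = c := by rw [Nat.mul_add_mod, Nat.mod_eq_of_lt (by omega)]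
    have e4 : (w * b + d) % w = d := by rw [Nat.mul_add_mod, Nat.mod_eq_of_lt (by omega)]
    refine ⟨(w * a + c, w * b + d), ?_, ?_, ?_⟩
    · rw [Finset.HasAntidiagonal.mem_antidiagonal]
      have := Nat.div_add_mod n w
      rw [← hp.1, ← hp.2] at this
      nlinarith
    · simp only [e1, e2, e3, e4]
      exact h0
    · simp only [e1, e2, e3, e4]
  · intro p _ _
    rfl

end Pool.Agent.AbsIrr
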