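import Mathlib
import Pool.Agent.Lib.MP_2adc98_lc.ADefs
import Pool.Agent.Lib.MP_2adc98_lc.Kron
import Pool.Agent.Lib.MP_2adc98_lc.BL
import Pool.Agent.Lib.MP_2adc98_lc.FME

/-!
# MP_2adc98_lc: the arrays of `F` and `E`
-/

set_option autoImplicit false

namespace Pool.Agent.AbsIrr

open Finset Polynomial

private theorem efa_rlz2 : RlzQ (a := .prod (.prod .nat (.prod .nat (.prod .arr .arr))) (.prod .nat .arr))
    (b := .prod .arr .arr)
    (fun _ _ x => (tabF (x.2.1 * (4 * x.1.2.1)) (fun n => if n % (4 * x.1.2.1) ≤ x.1.2.1 then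
        (if n / (4 * x.1.2.1) ≤ x.1.2.1 then
          x.1.2.2.1 ((x.1.2.1 - n % (4 * x.1.2.1)) * (x.1.2.1 + 1) + n / (4 * x.1.2.1)) else 0)
        else 0),
      conv (x.2.1 * (4 * x.1.2.1))
        (tabF (x.2.1 * (4 * x.1.2.1)) (fun n => if n % (4 * x.1.2.1) < x.1.2.1 then
          (if n / (4 * x.1.2.1) < x.2.1 - 3 * x.1.2.1 then
            x.1.2.2.2 ((x.1.2.1 - 1 - n % (4 * x.1.2.1)) * (x.2.1 - 3 * x.1.2.1) +
              n / (4 * x.1.2.1)) else 0) else 0))
        (tabF (x.2.1 * (4 * x.1.2.1)) (fun n => if n % (4 * x.1.2.1) < x.1.2.1 then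
          (if n / (4 * x.1.2.1) ≤ x.1.2.1 then
            x.2.2 (x.1.2.1 - n % (4 * x.1.2.1)) *
              x.1.2.2.1 ((x.1.2.1 - n % (4 * x.1.2.1)) * (x.1.2.1 + 1) + n / (4 * x.1.2.1))
            else 0) else 0))))
    (fun _ _ x => x.2.1 * (x.1.2.1 + 1)) := by
  apply RlzQ.mono
  case h =>
    apply RlzQ.pair
    · apply_rules (maxDepth := 1000) [RlzQ.tab, RlzQ.iteLt, RlzQ.iteLe, RlzQ.get, RlzQ.add,
        RlzQ.mul, RlzQ.sub, RlzQ.div, RlzQ.mod, RlzQ.fmul, RlzQ.fst, RlzQ.snd, RlzQ.input,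
        RlzQ.lit, RlzQ.zero]
    · apply_rules (maxDepth := 1000) [RlzQ.conv, RlzQ.tab, RlzQ.iteLt, RlzQ.iteLe, RlzQ.get, RlzQ.add,
        RlzQ.mul, RlzQ.sub, RlzQ.div, RlzQ.mod, RlzQ.fmul, RlzQ.fst, RlzQ.snd, RlzQ.input,
        RlzQ.lit, RlzQ.zero]
  case A => exact 100
  case hc =>
    intro K _ x
    simp only [Finset.sum_const_zero, add_zero, zero_add, ite_self]
    nlinarith

private theorem efa_aux1 (k d : ℕ) : k + 2 ^ k + (d + 1) ^ 2 ≤ 8 * (2 ^ k + d ^ 3 + 1) := by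
  have h1 : k < 2 ^ k := Nat.lt_two_pow_self
  have h2 : (d + 1) ^ 2 ≤ 4 * (d ^ 3 + 1) := by
    rcases Nat.eq_zero_or_pos d with rfl | hd
    · norm_num
    · have h3 : 1 * d ^ 2 ≤ d * d ^ 2 := Nat.mul_le_mul_right (d ^ 2) hd
      have h4 : 1 * d ≤ d * d := Nat.mul_le_mul_right d hd
      have h5 : d ^ 3 = d * d ^ 2 := by ring
      nlinarith
  omega

private theorem efa_aux2 (k d : ℕ) : k + d ^ 3 + k * (d + 1) ≤ 2 * (k * (d + 1) + d ^ 3 + 1) := by
  nlinarith [Nat.zero_le (k * d), Nat.zero_le (d ^ 3)]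

private theorem efa_rlz1 : RlzQ (a := .prod .nat (.prod .nat (.prod .arr .arr)))
    (b := .prod (.prod .nat (.prod .nat (.prod .arr .arr))) (.prod .nat .arr))
    (fun K _ x => (x, (2 ^ x.1, castT K (x.2.1 + 1))))
    (fun _ _ x => 2 ^ x.1 + x.2.1 ^ 3) := by
  apply RlzQ.mono
  case h =>
    apply RlzQ.pair
    · exact RlzQ.input
    apply RlzQ.pair
    · apply_rules (maxDepth := 1000) [RlzQ.npow, RlzQ.fst, RlzQ.input, RlzQ.lit]
    · apply_rules (maxDepth := 1000) [RlzQ.castT, RlzQ.add, RlzQ.fst, RlzQ.snd, RlzQ.input,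
        RlzQ.lit]
  case A => exact 8
  case hc =>
    intro K _ x
    simp only [add_zero, zero_add]
    exact efa_aux1 x.1 x.2.1

section
variable {K : Type} [Field K]

private theorem efa_coeff_swp (P : PowerSeries K[X]) (i n : ℕ) :
    PowerSeries.coeff n (PowerSeries.coeff i (swp P)) = (PowerSeries.coeff n P).coeff i := by
  simp [swp]

private theorem efa_swp_mul (P Q : PowerSeries K[X]) : swp (P * Q) = swp P * swp Q := by
  ext i n
  rw [efa_coeff_swp, PowerSeries.coeff_mul, PowerSeries.coeff_mul, map_sum, finsetSum_coeff]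
  simp only [PowerSeries.coeff_mul, Polynomial.coeff_mul, efa_coeff_swp]
  rw [Finset.sum_comm]

/-- entries of the flat array of a reversed polynomial -/
private theorem efa_flat {w m : ℕ} (P : K[X][X]) (hP : P.natDegree ≤ m) (n : ℕ) :
    flat w (swp (rv m P)) n =
      if n % w ≤ m then (P.coeff (m - n % w)).coeff (n / w) else 0 := by
  rw [flat, efa_coeff_swp, rv, Polynomial.coeff_coe, coeff_reflect]
  split_ifs with h
  · rw [revAt_le h]
  · rw [revAt_eq_self_of_lt (not_le.1 h), coeff_eq_zero_of_natDegree_lt (show P.natDegree < _ by omega), coeff_zero]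

private theorem efa_supp {m : ℕ} (P : K[X][X]) (hP : P.natDegree ≤ m) (i n : ℕ) (hn : m < n) :
    PowerSeries.coeff n (PowerSeries.coeff i (swp (rv m P))) = 0 := by
  rw [efa_coeff_swp, rv, Polynomial.coeff_coe, coeff_reflect, revAt_eq_self_of_lt hn,
    coeff_eq_zero_of_natDegree_lt (show P.natDegree < _ by omega), coeff_zero]

private theorem efa_Om {d m : ℕ} (ω : ℕ → K) (j i : ℕ) :
    ((Om d m (fun q => ω (q.1 * m + q.2))).coeff j).coeff i =
      if j < d then (if i < m then ω (j * m + i) else 0) else 0 := by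
  rw [Om, finsetSum_coeff, finsetSum_coeff]
  simp only [coeff_monomial]
  split_ifs with h1 h2
  · rw [Finset.sum_eq_single (⟨⟨j, h1⟩, ⟨i, h2⟩⟩ : Fin d × Fin m)]
    · simp
    · intro q _ hq
      by_cases h3 : (q.1 : ℕ) = j
      · by_cases h4 : (q.2 : ℕ) = i
        · exact absurd (Prod.ext (Fin.ext h3) (Fin.ext h4)) hq
        · rw [if_pos h3, coeff_monomial, if_neg h4]
      · rw [if_neg h3, coeff_zero]
    · intro h
      exact absurd (Finset.mem_univ _) h
  · refine Finset.sum_eq_zero fun q _ => ?_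
    split_ifs with h3
    · rw [coeff_monomial, if_neg]
      have := q.2.2
      omega
    · rw [coeff_zero]
  · refine Finset.sum_eq_zero fun q _ => ?_
    have := q.1.2
    rw [if_neg (by omega), coeff_zero]

private theorem efa_Om_deg {d m : ℕ} (ω : ℕ → K) :
    (Om d m (fun q => ω (q.1 * m + q.2))).natDegree ≤ d - 1 := by
  rw [natDegree_le_iff_coeff_eq_zero]
  intro j hj
  ext i
  rw [efa_Om, if_neg (by omega), coeff_zero]

private theorem efa_TD_deg {d : ℕ} {f : K[X][X]} (hf : TD d f) : f.natDegree ≤ d := by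
  rw [natDegree_le_iff_coeff_eq_zero]
  intro j hj
  by_contra h
  have := hf j h
  omega

private theorem efa_TD_coeff {d : ℕ} {f : K[X][X]} (hf : TD d f) (j i : ℕ) (hi : d < i) :
    (f.coeff j).coeff i = 0 := by
  by_cases h : f.coeff j = 0
  · rw [h, coeff_zero]
  · have := hf j h
    exact coeff_eq_zero_of_natDegree_lt (by omega)

private theorem efa_read {d : ℕ} {f : K[X][X]} {A : ℕ → K}
    (hA : ∀ n < (d + 1) * (d + 1), A n = coeffs2 (d + 1) f n) {j i : ℕ} (hj : j ≤ d)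
    (hi : i ≤ d) : A (j * (d + 1) + i) = (f.coeff j).coeff i := by
  have h1 : j * (d + 1) + i < (d + 1) * (d + 1) := by nlinarith
  rw [hA _ h1, coeffs2]
  have h2 : (j * (d + 1) + i) / (d + 1) = j := by
    rw [mul_comm, Nat.mul_add_div (by omega), Nat.div_eq_of_lt (by omega), add_zero]
  have h3 : (j * (d + 1) + i) % (d + 1) = i := by
    rw [mul_comm, Nat.mul_add_mod, Nat.mod_eq_of_lt (by omega)]
  rw [h2, h3]

end

theorem ef_rlz : ∃ F : Fam (.prod .nat (.prod .nat (.prod .arr .arr))) (.prod .arr .arr),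
    RlzQ F (fun _ _ x => 2 ^ x.1 * (x.2.1 + 1) + x.2.1 ^ 3) ∧
    ∀ (K : Type) [Field K] (κ d : ℕ) (A ω : ℕ → K) (f : K[X][X]), 1 ≤ d → TD d f →
      5 * d ^ 2 < 2 ^ κ →
      (∀ n < (d + 1) * (d + 1), A n = coeffs2 (d + 1) f n) →
      (∀ n < 2 ^ κ * (4 * d), (F K (κ, (d, (A, ω)))).1 n = flat (4 * d) (swp (rv d f)) n) ∧
      (∀ n < 2 ^ κ * (4 * d), (F K (κ, (d, (A, ω)))).2 n = flat (4 * d) (swp (rv (2 * d - 2)
        (Om d (2 ^ κ - 3 * d) (fun q => ω (q.1 * (2 ^ κ - 3 * d) + q.2)) * derivative f))) n) := by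
  refine ⟨_, (RlzQ.comp efa_rlz2 efa_rlz1).mono 2 ?_, ?_⟩
  · intro K _ x
    exact efa_aux2 (2 ^ x.1) x.2.1
  intro K _ κ d A ω f hd hf _ hA
  have hfd := efa_TD_deg hf
  refine ⟨fun n hn => ?_, fun n hn => ?_⟩
  · simp only [tabF, if_pos hn]
    rw [efa_flat f hfd]
    split_ifs with h1 h2
    · exact efa_read hA (Nat.sub_le _ _) h2
    · exact (efa_TD_coeff hf _ _ (not_le.1 h2)).symm
    · rfl
  · have h0 : 2 * d - 2 = (d - 1) + (d - 1) := by omega
    have hdd : (derivative f).natDegree ≤ d - 1 := by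
      have := natDegree_derivative_le f
      omega
    rw [h0, rv, reflect_mul _ _ (efa_Om_deg ω) hdd, Polynomial.coe_mul]
    change _ = flat (4 * d) (swp (rv (d - 1) (Om d (2 ^ κ - 3 * d) _) *
      rv (d - 1) (derivative f))) n
    rw [efa_swp_mul, flat_mul (D := d - 1) (D' := d - 1) _ _
      (fun i n hn => efa_supp _ (efa_Om_deg ω) i n hn) (fun i n hn => efa_supp _ hdd i n hn)
      (by omega)]
    have hT : ∀ (g : ℕ → K) (t : ℕ), t < 2 ^ κ * (4 * d) → tabF (2 ^ κ * (4 * d)) g t = g t :=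
      fun g t ht => if_pos ht
    simp only [conv]
    rw [hT _ _ hn]
    refine Finset.sum_congr rfl fun j hj => ?_
    have hj' : j ≤ n := Nat.lt_succ_iff.1 (Finset.mem_range.1 hj)
    rw [hT _ _ (show j < _ by omega), hT _ _ (show n - j < _ by omega),
      efa_flat _ (efa_Om_deg ω), efa_flat _ hdd]
    congr 1
    · rw [efa_Om]
      by_cases h1 : j % (4 * d) < d
      · rw [if_pos h1, if_pos (show j % (4 * d) ≤ d - 1 by omega),
          if_pos (show d - 1 - j % (4 * d) < d by omega)]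
      · rw [if_neg h1, if_neg (show ¬ j % (4 * d) ≤ d - 1 by omega)]
    · generalize n - j = k
      by_cases h1 : k % (4 * d) < d
      · rw [if_pos h1, if_pos (show k % (4 * d) ≤ d - 1 by omega), coeff_derivative]
        have h2 : d - 1 - k % (4 * d) + 1 = d - k % (4 * d) := by omega
        have h3 : ((d - 1 - k % (4 * d) : ℕ) : K[X]) + 1 = C ((d - k % (4 * d) : ℕ) : K) := by
          rw [← h2]
          push_cast
          simp
        rw [h2, h3, coeff_mul_C]
        split_ifs with h4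
        · rw [efa_read hA (Nat.sub_le _ _) h4, castT, tabF, if_pos (by omega), mul_comm]
        · rw [efa_TD_coeff hf _ _ (not_le.1 h4), zero_mul]
      · rw [if_neg h1, if_neg (show ¬ k % (4 * d) ≤ d - 1 by omega)]

end Pool.Agent.AbsIrr
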