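import Mathlib

/-!
# MP_2adc98_lc: piece EXT, extension fields with enough elements
-/

set_option autoImplicit false

namespace Pool.Agent.AbsIrr

open Finset Polynomial

theorem extension (C₀ : ℕ) : ∃ C, ∀ (K : Type) [Field K] (d : ℕ),
    ∃ (L : Type) (_ : Field L) (_ : Algebra K L) (_ : FiniteDimensional K L) (S : Finset L),
      C₀ * d ^ 2 ≤ S.card ∧ Module.finrank K L ≤ C * (Nat.log 2 d + 1) := by
  refine ⟨Nat.log 2 C₀ + 3, ?_⟩
  intro K _ d
  by_cases hK : Finite K
  · have := hK
    have := Fintype.ofFinite K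
    obtain ⟨p, hcp⟩ := CharP.exists K
    have := hcp
    have : Fact p.Prime := ⟨(CharP.char_is_prime_or_zero K p).resolve_right (by
      intro h0
      subst h0
      have := CharP.charP_to_charZero K
      exact not_finite K)⟩
    set e := (Nat.log 2 C₀ + 1) + 2 * (Nat.log 2 d + 1) with he
    have : NeZero e := ⟨by omega⟩
    have : Algebra (ZMod p) K := ZMod.algebra K p
    refine ⟨FiniteField.Extension K p e, inferInstance, inferInstance, inferInstance, ?_⟩
    have : Finite (FiniteField.Extension K p e) :=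
      Module.finite_of_finite K
    have := Fintype.ofFinite (FiniteField.Extension K p e)
    refine ⟨Finset.univ, ?_, ?_⟩
    · rw [Finset.card_univ, ← Nat.card_eq_fintype_card, FiniteField.natCard_extension]
      have h1 : 2 ≤ Nat.card K := by
        have := Finite.one_lt_card (α := K)
        omega
      have h2 : C₀ ≤ 2 ^ (Nat.log 2 C₀ + 1) := (Nat.lt_pow_succ_log_self (by norm_num) _).le
      have h3 : d ≤ 2 ^ (Nat.log 2 d + 1) := (Nat.lt_pow_succ_log_self (by norm_num) _).le
      calc C₀ * d ^ 2 ≤ 2 ^ (Nat.log 2 C₀ + 1) * (2 ^ (Nat.log 2 d + 1)) ^ 2 :=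
            Nat.mul_le_mul h2 (Nat.pow_le_pow_left h3 2)
        _ = 2 ^ e := by rw [he, pow_add _ (Nat.log 2 C₀ + 1), ← pow_mul, mul_comm 2 (Nat.log 2 d + 1)]
        _ ≤ Nat.card K ^ e := Nat.pow_le_pow_left h1 e
    · rw [FiniteField.finrank_extension]
      nlinarith [Nat.zero_le (Nat.log 2 C₀), Nat.zero_le (Nat.log 2 d),
        Nat.zero_le (Nat.log 2 C₀ * Nat.log 2 d)]
  · have : Infinite K := not_finite_iff_infinite.mp hK
    obtain ⟨S, hS⟩ := Infinite.exists_subset_card_eq K (C₀ * d ^ 2)
    refine ⟨K, inferInstance, inferInstance, inferInstance, S, hS.ge, ?_⟩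
    rw [Module.finrank_self]
    nlinarith [Nat.zero_le (Nat.log 2 C₀), Nat.zero_le (Nat.log 2 d)]

end Pool.Agent.AbsIrr
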