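import Mathlib
import Pool.Agent.Lib.MP_2adc98_lc.Model

/-!
# MP_2adc98_lc: programs with `p`-th roots, programs that print, absolute factorization

The programs of `Model.lean` are extended by the extraction of `p`-th roots (`PProg`), and by
programs that print a list of values (`Out`).
-/

set_option autoImplicit false

namespace Pool.Agent.AbsIrr

open Polynomial

/-- the `p`-th root (`p` the characteristic), `0` if there is none -/
noncomputable def prt {K : Type} [Field K] (x : K) : K := by
  classical exact
  if h : ∃ y : K, y ^ ringChar K = x then h.choose else 0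

/-- programs with input type `a` and output type `b`: the programs `Prog`, the extraction of
`p`-th roots, and everything built from them by composition, pairs, case distinction, tables and
loops -/
inductive PProg : Ty → Ty → Type
  | base {a b : Ty} (t : Prog a b) : PProg a b
  /-- the `p`-th root, `p` the characteristic of the field -/
  | proot : PProg .fld .fld
  | comp {a b c : Ty} (g : PProg b c) (f : PProg a b) : PProg a c
  | pair {a b c : Ty} (f : PProg a b) (g : PProg a c) : PProg a (.prod b c)
  | ite {a b : Ty} (t : PProg a .nat) (f g : PProg a b) : PProg a b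
  | tab {a : Ty} (n : PProg a .nat) (f : PProg (.prod a .nat) .fld) : PProg a .arr
  | iter {a b : Ty} (n : PProg a .nat) (s : PProg a b) (f : PProg (.prod (.prod a b) .nat) b) :
      PProg a b

/-- the value computed by a program -/
noncomputable def PProg.eval (K : Type) [Field K] {a b : Ty} (t : PProg a b) :
    a.val K → b.val K :=
  PProg.rec (motive := fun a b _ => a.val K → b.val K)
    (base := fun t x => t.eval K x)
    (proot := fun (x : K) => (prt x : K))
    (comp := fun _ _ g f x => g (f x))
    (pair := fun _ _ f g x => (f x, g x))
    (ite := fun _ _ _ (t : _ → ℕ) f g x => if t x ≠ 0 then f x else g x)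
    (tab := fun _ _ (n : _ → ℕ) (f : _ → K) x => fun (i : ℕ) => if i < n x then f (x, i) else 0)
    (iter := fun _ _ _ (n : _ → ℕ) s f x =>
      Nat.rec (s x) (fun (i : ℕ) y => f ((x, y), i)) (n x))
    t

/-- the number of elementary steps of a program, with the same charges as in `Prog.steps`;
the extraction of a `p`-th root counts `1` -/
noncomputable def PProg.steps (K : Type) [Field K] {a b : Ty} (t : PProg a b) : a.val K → ℕ :=
  PProg.rec (motive := fun a _ _ => a.val K → ℕ)
    (base := fun t x => t.steps K x)
    (proot := fun _ => 1)
    (comp := fun _ f cg cf x => cf x + cg (f.eval K x) + 1)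
    (pair := fun _ _ cf cg x => cf x + cg x + 1)
    (ite := fun t _ _ ct cf cg x =>
      ct x + (if (t.eval K x : ℕ) ≠ 0 then cf x else cg x) + 1)
    (tab := fun n _ cn cf x =>
      cn x + (∑ i ∈ Finset.range (n.eval K x), (cf (x, i) + bitc i 0)) + 1)
    (iter := fun n s f cn cs cf x => cn x + cs x + (∑ i ∈ Finset.range (n.eval K x),
      (cf ((x, Nat.rec (s.eval K x) (fun j y => f.eval K ((x, y), j)) i), i) + bitc i 0)) + 1)
    t

/-- programs with input type `a` that print values of type `b` -/
inductive Out (b : Ty) : Ty → Type
  /-- print the value of `f` -/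
  | print {a : Ty} (f : PProg a b) : Out b a
  /-- compute `f`, then run `g` on the result -/
  | after {a c : Ty} (f : PProg a c) (g : Out b c) : Out b a
  /-- for `i = 0, …, n-1` run `g` on `(x, i)` -/
  | loop {a : Ty} (n : PProg a .nat) (g : Out b (.prod a .nat)) : Out b a

/-- the list of the printed values -/
noncomputable def Out.eval (K : Type) [Field K] {b a : Ty} (t : Out b a) :
    a.val K → List (b.val K) :=
  Out.rec (motive := fun a _ => a.val K → List (b.val K))
    (print := fun f x => [f.eval K x])
    (after := fun f _ g x => g (f.eval K x))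
    (loop := fun n _ g x => (List.range (n.eval K x)).flatMap fun i => g (x, i))
    t

/-- the number of elementary steps of a printing program -/
noncomputable def Out.steps (K : Type) [Field K] {b a : Ty} (t : Out b a) : a.val K → ℕ :=
  Out.rec (motive := fun a _ => a.val K → ℕ)
    (print := fun f x => f.steps K x + 1)
    (after := fun f _ cg x => f.steps K x + cg (f.eval K x) + 1)
    (loop := fun n _ cg x =>
      n.steps K x + (∑ i ∈ Finset.range (n.eval K x), (cg (x, i) + bitc i 0)) + 1)
    t

/-! ### absolute factorization -/

section
variable {L : Type} [Field L]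

/-- a triple `(q, f, m)`: a polynomial `q ∈ L[z]`, a polynomial `f ∈ L[z][x, y]`, a number `m` -/
abbrev Triple (L : Type) [Field L] : Type := L[X] × MvPolynomial (Fin 2) L[X] × ℕ

/-- the polynomial `f(x, y, α)` over an extension field -/
noncomputable def atZ {k : Type} [Field k] [Algebra L k] (α : k)
    (f : MvPolynomial (Fin 2) L[X]) : MvPolynomial (Fin 2) k :=
  MvPolynomial.map (aeval α : L[X] →ₐ[L] k).toRingHom f

/-- the list `T` of triples `(q_i, f_i, m_i)` is the absolute factorization of `f`: every `q_i` is
monic and squarefree, `deg_z f_i < deg q_i`, `m_i ≥ 1`; the polynomials `f_i(x, y, α)`, `α` a root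
of `q_i`, are irreducible over the algebraic closure and pairwise not associated; and `f` is up to
a constant the product of their powers with the exponents `m_i` -/
def IsAbsFact (f : MvPolynomial (Fin 2) L) (T : List (Triple L)) : Prop :=
  (∀ t ∈ T, t.1.Monic ∧ Squarefree t.1 ∧ (∀ e, (t.2.1.coeff e).degree < t.1.degree) ∧
    1 ≤ t.2.2) ∧
  (∀ t ∈ T, ∀ α : AlgebraicClosure L, aeval α t.1 = 0 → Irreducible (atZ α t.2.1)) ∧
  (∀ i j : Fin T.length, ∀ α β : AlgebraicClosure L, aeval α T[i].1 = 0 → aeval β T[j].1 = 0 →
    Associated (atZ α T[i].2.1) (atZ β T[j].2.1) → i = j ∧ α = β) ∧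
  Associated (MvPolynomial.map (algebraMap L (AlgebraicClosure L)) f)
    (T.map fun t => ((t.1.aroots (AlgebraicClosure L)).map fun α =>
      atZ α t.2.1 ^ t.2.2).prod).prod

/-- the printed value `(m, (Q, F))` as a triple: `Q` contains the coefficients of `q`
(degree `≤ d`), the entry `(l (d + 1) + j) (d + 1) + i` of `F` is the coefficient of
`z^l x^i y^j` in `f` (`i, j, l ≤ d`) -/
noncomputable def decode (d : ℕ) (o : ℕ × (ℕ → L) × (ℕ → L)) : Triple L :=
  (∑ l ∈ Finset.range (d + 1), monomial l (o.2.1 l),
    ∑ i ∈ Finset.range (d + 1), ∑ j ∈ Finset.range (d + 1),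
      MvPolynomial.monomial (Finsupp.single 0 i + Finsupp.single 1 j)
        (∑ l ∈ Finset.range (d + 1), monomial l (o.2.2 ((l * (d + 1) + j) * (d + 1) + i))),
    o.1)

end

/-- the type of the printed values -/
abbrev Prt : Ty := .prod .nat (.prod .arr .arr)

/-- the program `A`, run over the field `L` with `m` random elements of the finite set `S`,
prints the absolute factorization of `f`, within `T` steps, with probability at least `2/3` -/
noncomputable def Factors (A : Out Prt Inp) {K : Type} [Field K] (p d : ℕ)
    (f : MvPolynomial (Fin 2) K) (L : Type) [Field L] [Algebra K L] (S : Finset L)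
    (m T : ℕ) : Prop := by
  classical exact
  (∀ ω : Fin m → L, (∀ i, ω i ∈ S) →
    A.steps L (d, (p, (coeffArray L d f, tape ω))) ≤ T) ∧
  3 * ((Fintype.piFinset fun _ : Fin m => S).filter fun ω =>
    ¬ IsAbsFact (MvPolynomial.map (algebraMap K L) f)
      ((A.eval L (d, (p, (coeffArray L d f, tape ω)))).map (decode d))).card ≤ S.card ^ m

end Pool.Agent.AbsIrr
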