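import Mathlib
import Pool.Agent.Lib.MP_2adc98_lc.ADefs
import Pool.Agent.Lib.MP_2adc98_lc.Core
import Pool.Agent.Lib.MP_2adc98_lc.FModel

/-!
# MP_2adc98_lc, stage 2 (absolute factorization): functions on arrays
-/

set_option autoImplicit false

namespace Pool.Agent.AbsIrr

open Finset Polynomial

section arrays
variable {K : Type} [Field K]

open Classical in
/-- the largest `i < n` with `a i ≠ 0` (`0` if there is none) -/
noncomputable def adeg (n : ℕ) (a : ℕ → K) : ℕ := ((range n).filter fun i => a i ≠ 0).sup id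

/-- block number `j` of width `w` -/
def blkA (w j : ℕ) (a : ℕ → K) : ℕ → K := tabF w (fun i => a (j * w + i))

/-- the product modulo `gmon n g` -/
noncomputable def mulmod (n : ℕ) (g a b : ℕ → K) : ℕ → K :=
  tabF n (fun i => ((apol n a * apol n b) %ₘ gmon n g).coeff i)

/-- the power modulo `gmon n g` -/
noncomputable def powmod (n E : ℕ) (g a : ℕ → K) : ℕ → K :=
  tabF n (fun i => (apol n a ^ E %ₘ gmon n g).coeff i)

/-- `A` is congruent to `∑_{i<j} b_i(h) X^i` modulo `G`, for some polynomials `b_i` -/
def InB (G h : K[X]) (j : ℕ) (A : K[X]) : Prop :=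
  ∃ b : ℕ → K[X], G ∣ A - ∑ i ∈ range j, (b i).comp h * X ^ i

/-- `e`-fold `p`-th roots of all entries -/
noncomputable def rootT (n e : ℕ) (a : ℕ → K) : ℕ → K := tabF n (fun i => prt^[e] (a i))

/-- the kernel vector `w` as a polynomial -/
noncomputable def hker (n : ℕ) (g : K[X]) (w : ℕ → K) : K[X] :=
  reflect (n - 1) (PowerSeries.trunc n
    (PowerSeries.mk w * ((reflect n g : K[X]) : PowerSeries K)))

end arrays

section trunc
variable {K : Type} [Field K] {k : Type} [Field k] [Algebra K k]

/-- block number `s` of width `r` as a polynomial in `z`, evaluated at `z = v` -/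
def dv (r : ℕ) (v : k) (a : ℕ → K) (s : ℕ) : k :=
  ∑ l ∈ range r, algebraMap K k (a (s * r + l)) * v ^ l

/-- the ring `k[x]/(x^w)` -/
abbrev TR (k : Type) [Field k] (w : ℕ) : Type :=
  PowerSeries k ⧸ Ideal.span {(PowerSeries.X : PowerSeries k) ^ w}

/-- block number `t` of width `w r` as an element of `k[x]/(x^w)` (with `z = v`): the coefficient of
`x^i` is given by the block number `t w + i` of width `r` -/
noncomputable def cR (w r : ℕ) (v : k) (a : ℕ → K) (t : ℕ) : TR k w :=
  Ideal.Quotient.mk _ (PowerSeries.mk fun i => if i < w then dv r v a (t * w + i) else 0)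

/-- the polynomial over `k[x]/(x^w)` with the first `N` coefficients given by the array -/
noncomputable def pR (w r : ℕ) (v : k) (N : ℕ) (a : ℕ → K) : (TR k w)[X] :=
  ∑ t ∈ range N, monomial t (cR w r v a t)

end trunc

end Pool.Agent.AbsIrr
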