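import Mathlib
import Pool.Agent.Lib.MP_2adc98_lc.FDefs
import Pool.Agent.Lib.MP_2adc98_lc.DM
import Pool.Agent.Lib.MP_2adc98_lc.FME
import Pool.Agent.Lib.MP_2adc98_lc.Stages

/-!
# MP_2adc98_lc, piece FA: small routines (helper65)
-/

set_option autoImplicit false

namespace Pool.Agent.AbsIrr

open Finset Polynomial

/-! ## the degree -/

section
variable {K : Type} [Field K]

private theorem fa_adeg_succ (n : ℕ) (A : ℕ → K) [Decidable (A n = 0)] :
    adeg (n + 1) A = if A n = 0 then adeg n A else n := by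
  classical
  unfold adeg
  rw [range_add_one, filter_insert]
  by_cases h : A n = 0
  · simp [h]
  · rw [if_pos (by simpa using h), if_neg h, sup_insert]
    simp only [id_eq]
    refine sup_eq_left.2 (Finset.sup_le fun i hi => ?_)
    have := mem_range.1 (mem_filter.1 hi).1
    simp only [id_eq]
    omega

open Classical in
private noncomputable def faDeg (n : ℕ) (A : ℕ → K) : ℕ :=
  iterF (S := ℕ) n 0 (fun s i => if A i = 0 then s else i)

private theorem faDeg_eq (n : ℕ) (A : ℕ → K) : faDeg n A = adeg n A := by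
  classical
  induction n with
  | zero => simp [faDeg, adeg]
  | succ n ih =>
    rw [fa_adeg_succ, ← ih]
    unfold faDeg
    rw [iterF_succ]

private theorem fa_adeg_le (n : ℕ) (A : ℕ → K) : adeg n A ≤ n := by
  classical
  unfold adeg
  refine Finset.sup_le fun i hi => ?_
  have := mem_range.1 (mem_filter.1 hi).1
  simp only [id_eq]
  omega

private theorem fa_tabF_lt (n : ℕ) (f : ℕ → K) {i : ℕ} (hi : i < n) : tabF n f i = f i := by
  unfold tabF
  rw [if_pos hi]

private theorem fa_tabF_ge (n : ℕ) (f : ℕ → K) {i : ℕ} (hi : ¬ i < n) : tabF n f i = 0 := by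
  unfold tabF
  rw [if_neg hi]

private theorem fa_apol_coeff (n : ℕ) (A : ℕ → K) (i : ℕ) :
    (apol n A).coeff i = if i < n then A i else 0 := by
  unfold apol
  rw [finsetSum_coeff]
  simp only [coeff_monomial]
  rw [sum_ite_eq' (range n) i]
  simp

private theorem fa_blk_coeff (w : ℕ) (A : ℕ → K) (c i : ℕ) :
    (blk w A c).coeff i = if i < w then A (c * w + i) else 0 := by
  unfold blk
  rw [finsetSum_coeff]
  simp only [coeff_monomial]
  rw [sum_ite_eq' (range w) i]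
  simp

private theorem fa_apol_degree (n : ℕ) (A : ℕ → K) : (apol n A).degree < (n : WithBot ℕ) := by
  rw [degree_lt_iff_coeff_zero]
  intro m hm
  rw [fa_apol_coeff, if_neg (by omega)]

private theorem fa_gmon_monic (n : ℕ) (g : ℕ → K) : (gmon n g).Monic := by
  unfold gmon
  exact monic_X_pow_add (fa_apol_degree n g)

private theorem fa_gmon_degree (n : ℕ) (g : ℕ → K) : (gmon n g).degree = (n : WithBot ℕ) := by
  unfold gmon
  rw [degree_add_eq_left_of_degree_lt]
  · exact degree_X_pow n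
  · rw [degree_X_pow]
    exact fa_apol_degree n g

private theorem fa_conv (n : ℕ) (A B : ℕ → K) :
    blk (2 * n) (conv (2 * n) (tabF n A) (tabF n B)) 0 = apol n A * apol n B := by
  ext i
  rw [fa_blk_coeff, coeff_mul, Finset.Nat.sum_antidiagonal_eq_sum_range_succ
    (fun a b => (apol n A).coeff a * (apol n B).coeff b)]
  simp only [fa_apol_coeff]
  by_cases hi : i < 2 * n
  · rw [if_pos hi, zero_mul, zero_add]
    unfold conv
    rw [fa_tabF_lt _ _ hi]
    rfl
  · rw [if_neg hi]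
    symm
    refine sum_eq_zero fun j hj => ?_
    have := mem_range.1 hj
    by_cases h1 : j < n
    · rw [if_neg (show ¬ i - j < n by omega), mul_zero]
    · rw [if_neg h1, zero_mul]

private theorem fa_mulmod (n : ℕ) (g A B : ℕ → K) :
    tabF n (fun i => modB 1 (2 * n) n g (conv (2 * n) (tabF n A) (tabF n B)) i) =
      mulmod n g A B := by
  funext i
  unfold mulmod
  by_cases hi : i < n
  · rw [fa_tabF_lt _ _ hi, fa_tabF_lt _ _ hi]
    unfold modB
    rw [fa_tabF_lt _ _ (by omega), Nat.div_eq_of_lt (by omega), Nat.mod_eq_of_lt (by omega),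
      fa_conv]
  · rw [fa_tabF_ge _ _ hi, fa_tabF_ge _ _ hi]

private theorem fa_apol_mulmod (n : ℕ) (g A B : ℕ → K) :
    apol n (mulmod n g A B) = (apol n A * apol n B) %ₘ gmon n g := by
  ext i
  rw [fa_apol_coeff]
  by_cases hi : i < n
  · rw [if_pos hi]
    unfold mulmod
    rw [fa_tabF_lt _ _ hi]
  · rw [if_neg hi]
    symm
    apply coeff_eq_zero_of_degree_lt
    have h1 := degree_modByMonic_lt (apol n A * apol n B) (fa_gmon_monic n g)
    rw [fa_gmon_degree] at h1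
    exact h1.trans_le (by exact_mod_cast (by omega : n ≤ i))

private theorem fa_mulmod_dvd (n : ℕ) (g A B : ℕ → K) :
    gmon n g ∣ apol n (mulmod n g A B) - apol n A * apol n B := by
  rw [fa_apol_mulmod]
  have h := modByMonic_add_div (apol n A * apol n B) (gmon n g)
  refine ⟨-((apol n A * apol n B) /ₘ gmon n g), ?_⟩
  linear_combination h

private theorem fa_tab_mulmod (n : ℕ) (g A B : ℕ → K) :
    tabF n (mulmod n g A B) = mulmod n g A B := by
  funext i
  by_cases hi : i < n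
  · rw [fa_tabF_lt _ _ hi]
  · rw [fa_tabF_ge _ _ hi]
    unfold mulmod
    rw [fa_tabF_ge _ _ hi]

end

private theorem faDeg_rlz : RlzQ (a := .prod .nat .arr) (b := .nat)
    (fun K _ x => faDeg (K := K) x.1 x.2) (fun _ _ x => x.1) := by
  classical
  have hbody : RlzQ (a := .prod (.prod (.prod .nat .arr) .nat) .nat) (b := .nat)
      (fun K _ x => if (x.1.1.2 : ℕ → K) x.2 = 0 then (x.1.2 : ℕ) else (x.2 : ℕ))
      (fun _ _ _ => 0) :=
    (RlzQ.iteZero (RlzQ.get (RlzQ.snd (RlzQ.fst (RlzQ.fst RlzQ.input))) (RlzQ.snd RlzQ.input))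
      (RlzQ.snd (RlzQ.fst RlzQ.input)) (RlzQ.snd RlzQ.input)).mono 1 (fun K _ x => by simp)
  have hloop := RlzQ.iterB (a := .prod .nat .arr) (b := .nat) (N := fun _ _ x => x.1)
    (S := fun _ _ _ => (0 : ℕ))
    (f := fun K _ x s i => if (x.2 : ℕ → K) i = 0 then (s : ℕ) else (i : ℕ))
    (RlzQ.fst RlzQ.input) (RlzQ.lit 0) hbody 1 (fun K _ x i hi => by
      have h1 : faDeg (K := K) i x.2 ≤ i := by
        rw [faDeg_eq]
        exact fa_adeg_le i x.2
      have h2 : (Ty.nat).nmx K (iterF i (0 : ℕ)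
          (fun s i => if (x.2 : ℕ → K) i = 0 then (s : ℕ) else (i : ℕ))) = faDeg (K := K) i x.2 :=
        rfl
      rw [pow_one]
      have h3 : i ≤ x.1 := hi
      refine (h2.le.trans (h1.trans h3)).trans ?_
      omega)
  exact hloop.mono 1 (fun K _ x => by simp)

private theorem faBlk_rlz : RlzQ (a := .prod .nat (.prod .nat .arr)) (b := .arr)
    (fun K _ x => blkA (K := K) x.1 x.2.1 x.2.2) (fun _ _ x => x.1) := by
  unfold blkA
  have hf : RlzQ (a := .prod (.prod .nat (.prod .nat .arr)) .nat) (b := .fld)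
      (fun K _ x => (x.1.2.2 : ℕ → K) (x.1.2.1 * x.1.1 + x.2)) (fun _ _ _ => 0) :=
    (RlzQ.get (RlzQ.snd (RlzQ.snd (RlzQ.fst RlzQ.input)))
      (RlzQ.add (RlzQ.mul (RlzQ.fst (RlzQ.snd (RlzQ.fst RlzQ.input)))
        (RlzQ.fst (RlzQ.fst RlzQ.input))) (RlzQ.snd RlzQ.input))).mono 1 (fun K _ x => by simp)
  have := RlzQ.tab (a := .prod .nat (.prod .nat .arr)) (N := fun _ _ x => x.1)
    (f := fun _K _ x i => (x.2.2 : ℕ → _K) (x.2.1 * x.1 + i))
    (RlzQ.fst RlzQ.input) hf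
  exact this.mono 1 (fun K _ x => by simp)

private theorem faTab_rlz : RlzQ (a := .prod .nat .arr) (b := .arr)
    (fun K _ x => tabF (K := K) x.1 x.2) (fun _ _ x => x.1) := by
  have hf : RlzQ (a := .prod (.prod .nat .arr) .nat) (b := .fld)
      (fun K _ x => (x.1.2 : ℕ → K) x.2) (fun _ _ _ => 0) :=
    (RlzQ.get (RlzQ.snd (RlzQ.fst RlzQ.input)) (RlzQ.snd RlzQ.input)).mono 1
      (fun K _ x => by simp)
  have := RlzQ.tab (a := .prod .nat .arr) (N := fun _ _ x => x.1)
    (f := fun _K _ x i => (x.2 : ℕ → _K) i) (RlzQ.fst RlzQ.input) hf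
  exact this.mono 1 (fun K _ x => by simp)

section FA
variable {a : Ty}

theorem RlzQ.adeg {N : Fam a .nat} {A : Fam a .arr} {cn ca : CFam a} (hN : RlzQ N cn)
    (hA : RlzQ A ca) : RlzQ (b := .nat) (fun K _ x => adeg (N K x) (A K x))
      (fun K _ x => cn K x + ca K x + N K x) :=
  ((RlzQ.comp faDeg_rlz (RlzQ.pair hN hA)).congr (fun K _ x => faDeg_eq _ _)).mono 1
    (fun K _ x => by
      dsimp only
      omega)

theorem RlzQ.blkA {W J : Fam a .nat} {A : Fam a .arr} {cw cj ca : CFam a} (hW : RlzQ W cw)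
    (hJ : RlzQ J cj) (hA : RlzQ A ca) :
    RlzQ (b := .arr) (fun K _ x => blkA (W K x) (J K x) (A K x))
      (fun K _ x => cw K x + cj K x + ca K x + W K x) :=
  (RlzQ.comp faBlk_rlz (RlzQ.pair hW (RlzQ.pair hJ hA))).mono 1 (fun K _ x => by
    dsimp only
    omega)

theorem RlzQ.quo {W D : Fam a .nat} {G A : Fam a .arr} {cw cd cg ca : CFam a} (hW : RlzQ W cw)
    (hD : RlzQ D cd) (hG : RlzQ G cg) (hA : RlzQ A ca) :
    RlzQ (b := .arr) (fun K _ x => divB 1 (W K x) (D K x) (G K x) (A K x))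
      (fun K _ x => cw K x + cd K x + cg K x + ca K x + W K x + D K x) :=
  (RlzQ.fst (RlzQ.comp divmod_rlz (RlzQ.pair (RlzQ.lit 1) (RlzQ.pair hW (RlzQ.pair hD
    (RlzQ.pair hG hA)))))).mono 2 (fun K _ x => by
    dsimp only
    omega)

theorem RlzQ.rem {W D : Fam a .nat} {G A : Fam a .arr} {cw cd cg ca : CFam a} (hW : RlzQ W cw)
    (hD : RlzQ D cd) (hG : RlzQ G cg) (hA : RlzQ A ca) :
    RlzQ (b := .arr) (fun K _ x => modB 1 (W K x) (D K x) (G K x) (A K x))
      (fun K _ x => cw K x + cd K x + cg K x + ca K x + W K x + D K x) :=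
  (RlzQ.snd (RlzQ.comp divmod_rlz (RlzQ.pair (RlzQ.lit 1) (RlzQ.pair hW (RlzQ.pair hD
    (RlzQ.pair hG hA)))))).mono 2 (fun K _ x => by
    dsimp only
    omega)

private theorem faMul_rlz : RlzQ (a := .prod .nat (.prod .arr (.prod .arr .arr))) (b := .arr)
    (fun K _ x => mulmod (K := K) x.1 x.2.1 x.2.2.1 x.2.2.2) (fun _ _ x => x.1) := by
  have hn : RlzQ (a := .prod .nat (.prod .arr (.prod .arr .arr))) (b := .nat)
      (fun _ _ x => x.1) (fun _ _ _ => 0) := RlzQ.fst RlzQ.input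
  have hg : RlzQ (a := .prod .nat (.prod .arr (.prod .arr .arr))) (b := .arr)
      (fun _ _ x => x.2.1) (fun _ _ _ => 0) := RlzQ.fst (RlzQ.snd RlzQ.input)
  have hA : RlzQ (a := .prod .nat (.prod .arr (.prod .arr .arr))) (b := .arr)
      (fun _ _ x => x.2.2.1) (fun _ _ _ => 0) := RlzQ.fst (RlzQ.snd (RlzQ.snd RlzQ.input))
  have hB : RlzQ (a := .prod .nat (.prod .arr (.prod .arr .arr))) (b := .arr)
      (fun _ _ x => x.2.2.2) (fun _ _ _ => 0) := RlzQ.snd (RlzQ.snd (RlzQ.snd RlzQ.input))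
  have h2n := RlzQ.mul (RlzQ.lit (a := .prod .nat (.prod .arr (.prod .arr .arr))) 2) hn
  have hc := RlzQ.conv h2n (RlzQ.comp faTab_rlz (RlzQ.pair hn hA))
    (RlzQ.comp faTab_rlz (RlzQ.pair hn hB))
  have hr := RlzQ.rem h2n hn hg hc
  have ht := RlzQ.comp faTab_rlz (RlzQ.pair hn hr)
  refine (ht.congr (fun K _ x => ?_)).mono 12 (fun K _ x => ?_)
  · exact fa_mulmod x.1 x.2.1 x.2.2.1 x.2.2.2
  · dsimp only
    omega

theorem RlzQ.mulmod {N : Fam a .nat} {G A B : Fam a .arr} {cn cg ca cb : CFam a} (hN : RlzQ N cn)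
    (hG : RlzQ G cg) (hA : RlzQ A ca) (hB : RlzQ B cb) :
    RlzQ (b := .arr) (fun K _ x => mulmod (N K x) (G K x) (A K x) (B K x))
      (fun K _ x => cn K x + cg K x + ca K x + cb K x + N K x) :=
  (RlzQ.comp faMul_rlz (RlzQ.pair hN (RlzQ.pair hG (RlzQ.pair hA hB)))).mono 1
    (fun K _ x => by
      dsimp only
      omega)

end FA

/-! ## the number of binary digits, by a loop -/

private def faBits (x : ℕ) : ℕ :=
  (iterF (S := ℕ × ℕ) x (0, x) (fun s _ => if s.2 ≠ 0 then (s.1 + 1, s.2 / 2) else s)).1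

private theorem faBits_inv (x i : ℕ) :
    ∀ s : ℕ × ℕ, s = iterF (S := ℕ × ℕ) i (0, x)
      (fun s _ => if s.2 ≠ 0 then (s.1 + 1, s.2 / 2) else s) →
    s.2 = x / 2 ^ i ∧ (s.2 ≠ 0 → s.1 = i) ∧ (s.2 = 0 → x < 2 ^ s.1) ∧ s.1 ≤ Nat.log 2 x + 1 := by
  induction i with
  | zero =>
    rintro s rfl
    refine ⟨by simp, fun _ => rfl, fun h => ?_, by simp⟩
    simp only [iterF_zero] at h
    simp [h]
  | succ i ih =>
    rintro s rfl
    rw [iterF_succ]
    obtain ⟨h1, h2, h3, h4⟩ := ih _ rfl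
    set s := iterF (S := ℕ × ℕ) i (0, x)
      (fun s _ => if s.2 ≠ 0 then (s.1 + 1, s.2 / 2) else s) with hs
    have hdiv : x / 2 ^ (i + 1) = x / 2 ^ i / 2 := by
      rw [pow_succ, Nat.div_div_eq_div_mul]
    by_cases hm : s.2 = 0
    · simp only [hm, ne_eq, not_true_eq_false, if_false]
      refine ⟨?_, fun h => h.elim, fun _ => h3 hm, h4⟩
      rw [hdiv, ← h1, hm]
    · simp only [ne_eq, hm, not_false_eq_true, if_true]
      have h5 := h2 hm
      refine ⟨by rw [hdiv, ← h1], fun _ => by rw [h5], fun h => ?_, ?_⟩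
      · rw [h1] at h
        have h6 : x / 2 ^ (i + 1) = 0 := by rw [hdiv, h]
        rw [h5]
        rcases Nat.div_eq_zero_iff.1 h6 with h7 | h7
        · exact absurd h7 (by positivity)
        · exact h7
      · rw [h1] at hm
        have h6 : 2 ^ i ≤ x := by
          by_contra hcon
          exact hm (Nat.div_eq_of_lt (not_le.1 hcon))
        have h7 : i ≤ Nat.log 2 x := Nat.le_log_of_pow_le (by norm_num) h6
        omega

private theorem lt_faBits (x : ℕ) : x < 2 ^ faBits x := by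
  obtain ⟨h1, _, h3, _⟩ := faBits_inv x x _ rfl
  refine h3 ?_
  rw [h1]
  exact Nat.div_eq_of_lt Nat.lt_two_pow_self

private theorem faBits_le (x : ℕ) : faBits x ≤ Nat.log 2 x + 1 :=
  (faBits_inv x x _ rfl).2.2.2

private theorem faBits_rlz : RlzQ (a := .nat) (b := .nat) (fun _ _ x => faBits x)
    (fun _ _ x => x) := by
  have hbody : RlzQ (a := .prod (.prod .nat (.prod .nat .nat)) .nat) (b := .prod .nat .nat)
      (fun _ _ x => if (x.1.2.2 : ℕ) ≠ 0 then ((x.1.2.1 : ℕ) + 1, (x.1.2.2 : ℕ) / 2) else x.1.2)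
      (fun _ _ _ => 0) := by
    refine RlzQ.mono (RlzQ.iteNat (RlzQ.snd (RlzQ.snd (RlzQ.fst RlzQ.input)))
      (RlzQ.pair (RlzQ.add (RlzQ.fst (RlzQ.snd (RlzQ.fst RlzQ.input))) (RlzQ.lit 1))
        (RlzQ.div (RlzQ.snd (RlzQ.snd (RlzQ.fst RlzQ.input))) (RlzQ.lit 2)))
      (RlzQ.snd (RlzQ.fst RlzQ.input))) 1 (fun K _ x => by simp)
  have hloop := RlzQ.iterB (a := .nat) (b := .prod .nat .nat) (N := fun _ _ x => x)
    (S := fun _ _ x => (0, x))
    (f := fun _ _ _ s _ => if (s.2 : ℕ) ≠ 0 then ((s.1 : ℕ) + 1, (s.2 : ℕ) / 2) else s)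
    RlzQ.input (RlzQ.pair (RlzQ.lit 0) RlzQ.input) hbody 2 (fun K _ x i hi => by
      obtain ⟨h1, h2, h3, h4⟩ := faBits_inv x i _ rfl
      simp only [Ty.nmx]
      have h5 : (iterF (S := ℕ × ℕ) i (0, x)
        (fun s _ => if s.2 ≠ 0 then (s.1 + 1, s.2 / 2) else s)).2 ≤ x := by
        rw [h1]; exact Nat.div_le_self _ _
      have h6 := Nat.log_le_self 2 x
      have h7 : ∀ m : ℕ, m ≤ x + 1 → m ≤ (0 + (0 + 0) + x +
          ∑ i ∈ range x, 0 + x + 2) ^ 2 := by
        intro m hm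
        simp only [sum_const_zero]
        nlinarith
      exact max_le (h7 _ (h4.trans (by omega))) (h7 _ (h5.trans (by omega))))
  exact (RlzQ.fst hloop).mono 1 (fun K _ x => by simp)

/-! ## powers -/

section
variable {K : Type} [Field K]

private def faOne (K : Type) [Field K] (n : ℕ) : ℕ → K := tabF n (fun i => if i = 0 then 1 else 0)

private theorem faOne_dvd (n : ℕ) (g : ℕ → K) : gmon n g ∣ apol n (faOne K n) - 1 := by
  rcases Nat.eq_zero_or_pos n with rfl | hn
  · have : gmon 0 g = 1 := by simp [gmon]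
    rw [this]
    exact one_dvd _
  · have : apol n (faOne K n) = 1 := by
      ext i
      rw [fa_apol_coeff, coeff_one]
      unfold faOne tabF
      by_cases h1 : i < n
      · rw [if_pos h1, if_pos h1]
      · rw [if_neg h1, if_neg (by omega)]
    rw [this, sub_self]
    exact dvd_zero _

private theorem faOne_tab (n : ℕ) : tabF n (faOne K n) = faOne K n := by
  funext i
  by_cases hi : i < n
  · rw [fa_tabF_lt _ _ hi]
  · rw [fa_tabF_ge _ _ hi]
    unfold faOne
    rw [fa_tabF_ge _ _ hi]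

private noncomputable def faPow (n e : ℕ) (g a : ℕ → K) (i : ℕ) : (ℕ → K) × ((ℕ → K) × ℕ) :=
  iterF (S := (ℕ → K) × ((ℕ → K) × ℕ)) i (faOne K n, (a, e))
    (fun s _ => (if s.2.2 % 2 ≠ 0 then mulmod n g s.1 s.2.1 else s.1,
      (mulmod n g s.2.1 s.2.1, s.2.2 / 2)))

private theorem faPow_inv (n e : ℕ) (g a : ℕ → K) (i : ℕ) :
    (faPow n e g a i).2.2 = e / 2 ^ i ∧ tabF n (faPow n e g a i).1 = (faPow n e g a i).1 ∧
      gmon n g ∣ apol n (faPow n e g a i).1 * apol n (faPow n e g a i).2.1 ^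
        (faPow n e g a i).2.2 - apol n a ^ e := by
  induction i with
  | zero =>
    refine ⟨by simp [faPow], faOne_tab n, ?_⟩
    have h := faOne_dvd n g
    have h2 : apol n (faPow n e g a 0).1 * apol n (faPow n e g a 0).2.1 ^
        (faPow n e g a 0).2.2 - apol n a ^ e = (apol n (faOne K n) - 1) * apol n a ^ e := by
      simp only [faPow, iterF_zero]
      ring
    rw [h2]
    exact h.mul_right _
  | succ i ih =>
    obtain ⟨h1, h2, h4⟩ := ih
    have hdiv : e / 2 ^ (i + 1) = e / 2 ^ i / 2 := by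
      rw [pow_succ, Nat.div_div_eq_div_mul]
    have hst : faPow n e g a (i + 1) = (if (faPow n e g a i).2.2 % 2 ≠ 0 then
        mulmod n g (faPow n e g a i).1 (faPow n e g a i).2.1 else (faPow n e g a i).1,
        (mulmod n g (faPow n e g a i).2.1 (faPow n e g a i).2.1, (faPow n e g a i).2.2 / 2)) := rfl
    rw [hst]
    set s := faPow n e g a i with hs
    refine ⟨by rw [hdiv, ← h1], ?_, ?_⟩
    · by_cases hb : s.2.2 % 2 = 0
      · simp only [hb, ne_eq, not_true_eq_false, if_false]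
        exact h2
      · simp only [ne_eq, hb, not_false_eq_true, if_true]
        exact fa_tab_mulmod _ _ _ _
    · have hq := fa_mulmod_dvd n g s.2.1 s.2.1
      have hp := fa_mulmod_dvd n g s.1 s.2.1
      have hq2 : gmon n g ∣ apol n (mulmod n g s.2.1 s.2.1) ^ (s.2.2 / 2) -
          (apol n s.2.1 * apol n s.2.1) ^ (s.2.2 / 2) := hq.trans (sub_dvd_pow_sub_pow _ _ _)
      simp only
      by_cases hb : s.2.2 % 2 = 0
      · simp only [hb, ne_eq, not_true_eq_false, if_false]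
        have he : s.2.2 = 2 * (s.2.2 / 2) := by omega
        have h5 : apol n s.1 * apol n s.2.1 ^ s.2.2 =
            apol n s.1 * (apol n s.2.1 * apol n s.2.1) ^ (s.2.2 / 2) := by
          rw [← pow_two, ← pow_mul, ← he]
        rw [h5] at h4
        have h6 := dvd_add (hq2.mul_left (apol n s.1)) h4
        refine h6.trans (dvd_of_eq ?_)
        ring
      · simp only [ne_eq, hb, not_false_eq_true, if_true]
        have he : s.2.2 = 2 * (s.2.2 / 2) + 1 := by omega
        have h5 : apol n s.1 * apol n s.2.1 ^ s.2.2 =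
            (apol n s.1 * apol n s.2.1) * (apol n s.2.1 * apol n s.2.1) ^ (s.2.2 / 2) := by
          rw [mul_assoc, ← pow_two, ← pow_mul, ← pow_succ', ← he]
        rw [h5] at h4
        have h6 := dvd_add (dvd_add (hq2.mul_left (apol n (mulmod n g s.1 s.2.1)))
          (hp.mul_right ((apol n s.2.1 * apol n s.2.1) ^ (s.2.2 / 2)))) h4
        refine h6.trans (dvd_of_eq ?_)
        ring

private theorem faPow_spec (n e : ℕ) (g a : ℕ → K) :
    (faPow n e g a (faBits e)).1 = powmod n e g a := by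
  obtain ⟨h1, h2, h4⟩ := faPow_inv n e g a (faBits e)
  rw [h1, Nat.div_eq_of_lt (lt_faBits e), pow_zero, mul_one] at h4
  rw [← h2]
  unfold powmod
  have h5 : apol n a ^ e %ₘ gmon n g = apol n (faPow n e g a (faBits e)).1 := by
    have h6 := (fa_gmon_monic n g)
    rw [← (modByMonic_eq_self_iff h6).2 (show (apol n (faPow n e g a (faBits e)).1).degree <
      (gmon n g).degree by rw [fa_gmon_degree]; exact fa_apol_degree _ _)]
    exact (modByMonic_eq_of_dvd_sub h6 h4).symm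
  rw [h5]
  funext i
  by_cases hi : i < n
  · rw [fa_tabF_lt _ _ hi, fa_tabF_lt _ _ hi, fa_apol_coeff, if_pos hi]
  · rw [fa_tabF_ge _ _ hi, fa_tabF_ge _ _ hi]

end

private theorem faOne_rlz : RlzQ (a := .nat) (b := .arr) (fun K _ x => faOne K x)
    (fun _ _ x => x) := by
  unfold faOne
  have hf : RlzQ (a := .prod .nat .nat) (b := .fld)
      (fun K _ x => if (x.2 : ℕ) = 0 then (1 : K) else (0 : K)) (fun _ _ _ => 0) :=
    (RlzQ.iteEq (RlzQ.snd RlzQ.input) (RlzQ.lit 0) RlzQ.one RlzQ.zero).mono 1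
      (fun K _ x => by simp)
  have := RlzQ.tab (a := .nat) (N := fun _ _ x => x)
    (f := fun _K _ _ i => if (i : ℕ) = 0 then (1 : _K) else (0 : _K)) RlzQ.input hf
  exact this.mono 1 (fun K _ x => by simp)

private theorem fa_Phi_log (x y : ℕ) : (Nat.log 2 x + 1) * y ≤ Phi 1 (x + y) := by
  unfold Phi
  rw [pow_one, mul_comm]
  refine Nat.mul_le_mul (by omega) ?_
  have : Nat.log 2 x ≤ Nat.log 2 (x + y + 1) := Nat.log_mono_right (by omega)
  omega

private theorem faPow_rlz : RlzQ (a := .prod .nat (.prod .nat (.prod .arr .arr))) (b := .arr)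
    (fun K _ x => powmod (K := K) x.1 x.2.1 x.2.2.1 x.2.2.2) (fun _ _ x => x.1 + x.2.1) := by
  have hbody : RlzQ (a := .prod (.prod (.prod .nat (.prod .nat (.prod .arr .arr)))
      (.prod .arr (.prod .arr .nat))) .nat) (b := .prod .arr (.prod .arr .nat))
      (fun K _ x => (if (x.1.2.2.2 : ℕ) % 2 ≠ 0 then
        mulmod (K := K) x.1.1.1 x.1.1.2.2.1 x.1.2.1 x.1.2.2.1
        else x.1.2.1, (mulmod (K := K) x.1.1.1 x.1.1.2.2.1 x.1.2.2.1 x.1.2.2.1,
          (x.1.2.2.2 : ℕ) / 2)))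
      (fun _ _ x => x.1.1.1) := by
    refine RlzQ.mono (RlzQ.pair (RlzQ.iteNat
      (RlzQ.mod (RlzQ.snd (RlzQ.snd (RlzQ.snd (RlzQ.fst RlzQ.input)))) (RlzQ.lit 2))
      (RlzQ.mulmod (RlzQ.fst (RlzQ.fst (RlzQ.fst RlzQ.input)))
        (RlzQ.fst (RlzQ.snd (RlzQ.snd (RlzQ.fst (RlzQ.fst RlzQ.input)))))
        (RlzQ.fst (RlzQ.snd (RlzQ.fst RlzQ.input)))
        (RlzQ.fst (RlzQ.snd (RlzQ.snd (RlzQ.fst RlzQ.input)))))
      (RlzQ.fst (RlzQ.snd (RlzQ.fst RlzQ.input))))
      (RlzQ.pair (RlzQ.mulmod (RlzQ.fst (RlzQ.fst (RlzQ.fst RlzQ.input)))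
        (RlzQ.fst (RlzQ.snd (RlzQ.snd (RlzQ.fst (RlzQ.fst RlzQ.input)))))
        (RlzQ.fst (RlzQ.snd (RlzQ.snd (RlzQ.fst RlzQ.input))))
        (RlzQ.fst (RlzQ.snd (RlzQ.snd (RlzQ.fst RlzQ.input)))))
        (RlzQ.div (RlzQ.snd (RlzQ.snd (RlzQ.snd (RlzQ.fst RlzQ.input)))) (RlzQ.lit 2))))
      2 (fun K _ x => ?_)
    split_ifs <;> omega
  have hinit : RlzQ (a := .prod .nat (.prod .nat (.prod .arr .arr)))
      (b := .prod .arr (.prod .arr .nat))
      (fun K _ x => (faOne K x.1, (x.2.2.2, x.2.1))) (fun _ _ x => x.1) :=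
    RlzQ.mono (RlzQ.pair (RlzQ.comp faOne_rlz (RlzQ.fst RlzQ.input))
      (RlzQ.pair (RlzQ.snd (RlzQ.snd (RlzQ.snd RlzQ.input))) (RlzQ.fst (RlzQ.snd RlzQ.input)))) 1
      (fun K _ x => by simp)
  have hN : RlzQ (a := .prod .nat (.prod .nat (.prod .arr .arr))) (b := .nat)
      (fun _ _ x => faBits x.2.1) (fun _ _ x => x.2.1) :=
    RlzQ.mono (RlzQ.comp faBits_rlz (RlzQ.fst (RlzQ.snd RlzQ.input))) 1 (fun K _ x => by simp)
  have hloop := RlzQ.iterB (a := .prod .nat (.prod .nat (.prod .arr .arr)))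
    (b := .prod .arr (.prod .arr .nat))
    (f := fun K _ x s _ => (if (s.2.2 : ℕ) % 2 ≠ 0 then mulmod (K := K) x.1 x.2.2.1 s.1 s.2.1
        else s.1, (mulmod (K := K) x.1 x.2.2.1 s.2.1 s.2.1, (s.2.2 : ℕ) / 2)))
    hN hinit hbody 1 (fun K _ x i hi => by
      have h1 := (faPow_inv x.1 x.2.1 x.2.2.1 x.2.2.2 i).1
      have h2 : (faPow x.1 x.2.1 x.2.2.1 x.2.2.2 i).2.2 ≤ x.2.1 := by
        rw [h1]; exact Nat.div_le_self _ _
      have h3 : (Ty.prod .arr (.prod .arr .nat)).nmx K (faPow x.1 x.2.1 x.2.2.1 x.2.2.2 i) ≤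
          x.2.1 := by
        simp only [Ty.nmx, Nat.zero_max]
        exact h2
      refine h3.trans ?_
      rw [pow_one]
      omega)
  refine RlzQ.congr ((RlzQ.fst hloop).mono' 3 (fun K _ x => ?_)) (fun K _ x => faPow_spec _ _ _ _)
  have h1 : ∑ _i ∈ range (faBits x.2.1), x.1 = faBits x.2.1 * x.1 := by simp
  have h2 := faBits_le x.2.1
  have h3 : faBits x.2.1 * x.1 ≤ (Nat.log 2 x.2.1 + 1) * x.1 := Nat.mul_le_mul_right _ h2
  have h4 := fa_Phi_log x.2.1 x.1
  have h5 : Phi 1 (x.2.1 + x.1) ≤ Phi 3 (x.1 + x.2.1) := Phi_mono (by omega) (by omega)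
  have h6 := le_Phi 3 (x.1 + x.2.1)
  have h7 := Nat.log_le_self 2 x.2.1
  rw [h1]
  omega

section FA
variable {a : Ty}

theorem RlzQ.powmod {N E : Fam a .nat} {G A : Fam a .arr} {cn ce cg ca : CFam a} (hN : RlzQ N cn)
    (hE : RlzQ E ce) (hG : RlzQ G cg) (hA : RlzQ A ca) :
    RlzQ (b := .arr) (fun K _ x => powmod (N K x) (E K x) (G K x) (A K x))
      (fun K _ x => cn K x + ce K x + cg K x + ca K x + N K x + E K x) :=
  (RlzQ.comp faPow_rlz (RlzQ.pair hN (RlzQ.pair hE (RlzQ.pair hG hA)))).mono 1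
    (fun K _ x => by
      dsimp only
      omega)

theorem adeg_eq {K k : Type} [Field K] [Field k] (σ : K →+* k) {n : ℕ} {A : ℕ → K} {P : k[X]}
    (hP : P.Monic) (hd : P.natDegree < n) (h : ∀ i < n, σ (A i) = P.coeff i) :
    adeg n A = P.natDegree := by
  classical
  unfold adeg
  apply le_antisymm
  · refine Finset.sup_le fun i hi => ?_
    obtain ⟨h1, h2⟩ := mem_filter.1 hi
    have h3 := h i (mem_range.1 h1)
    refine le_natDegree_of_ne_zero ?_
    show P.coeff i ≠ 0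
    rw [← h3]
    exact (map_ne_zero σ).2 h2
  · have h1 : P.natDegree ∈ (range n).filter fun i => A i ≠ 0 := by
      refine mem_filter.2 ⟨mem_range.2 hd, fun h0 => ?_⟩
      have h3 := h _ hd
      rw [h0, map_zero] at h3
      have h4 : P.coeff P.natDegree = 1 := hP
      rw [h4] at h3
      exact zero_ne_one h3
    exact Finset.le_sup (f := id) h1

end FA

end Pool.Agent.AbsIrr
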