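import Mathlib
import Pool.Agent.Lib.MP_2adc98_lc.Lang

/-!
# MP_2adc98_lc: value and number of steps of a program

`Prog.eval` and `Prog.steps` (the definitions used in the statement) agree with `Prog.run` and
`Prog.bcost`.
-/

set_option autoImplicit false

namespace Pool.Agent.AbsIrr

theorem Prog.eval_eq (K : Type) [Field K] {a b : Ty} (t : Prog a b) (x : a.val K) :
    t.eval K x = t.run K x := by
  induction t with
  | id a => rfl
  | comp g f hg hf => exact (hg _).trans (congrArg _ (hf x))
  | pair f g hf hg => exact Prod.ext (hf x) (hg x)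
  | fst a b => rfl
  | snd a b => rfl
  | lit a n => rfl
  | add => rfl
  | sub => rfl
  | mul => rfl
  | div => rfl
  | mod => rfl
  | lt => rfl
  | zero a => rfl
  | one a => rfl
  | fadd => rfl
  | fsub => rfl
  | fmul => rfl
  | finv => rfl
  | isZero => rfl
  | get => rfl
  | ite t f g ht hf hg =>
    change (if t.eval K x ≠ 0 then f.eval K x else g.eval K x) = _
    rw [ht x, hf x, hg x]
    rfl
  | tab n f hn hf =>
    change (fun i => if i < n.eval K x then f.eval K (x, i) else 0) = _
    rw [hn x]
    funext i
    rw [hf (x, i)]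
    rfl
  | @iter a b n s f hn hs hf =>
    change Nat.rec (motive := fun _ => b.val K) (s.eval K x) (fun i y => f.eval K ((x, y), i))
      (n.eval K x) = _
    have h : (fun (i : ℕ) y => f.eval K ((x, y), i)) = fun i y => f.run K ((x, y), i) := by
      funext i y
      exact hf _
    rw [hn x, hs x, h]
    rfl

theorem Prog.steps_eq (K : Type) [Field K] {a b : Ty} (t : Prog a b) (x : a.val K) :
    t.steps K x = t.bcost K x := by
  induction t with
  | id a => rfl
  | comp g f hg hf =>
    change f.steps K x + g.steps K (f.eval K x) + 1 = _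
    rw [hf x, hg, Prog.eval_eq]
    rfl
  | pair f g hf hg =>
    change f.steps K x + g.steps K x + 1 = _
    rw [hf x, hg x]
    rfl
  | fst a b => rfl
  | snd a b => rfl
  | lit a n => rfl
  | add => rfl
  | sub => rfl
  | mul => rfl
  | div => rfl
  | mod => rfl
  | lt => rfl
  | zero a => rfl
  | one a => rfl
  | fadd => rfl
  | fsub => rfl
  | fmul => rfl
  | finv => rfl
  | isZero => rfl
  | get => rfl
  | ite t f g ht hf hg =>
    change t.steps K x + (if t.eval K x ≠ 0 then f.steps K x else g.steps K x) + 1 = _
    rw [ht x, hf x, hg x, Prog.eval_eq]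
    rfl
  | tab n f hn hf =>
    change n.steps K x + (∑ i ∈ Finset.range (n.eval K x), (f.steps K (x, i) + bitc i 0)) + 1 = _
    rw [hn x, Prog.eval_eq]
    simp only [hf]
    rfl
  | iter n s f hn hs hf =>
    change n.steps K x + s.steps K x + (∑ i ∈ Finset.range (n.eval K x),
      (f.steps K ((x, Nat.rec (s.eval K x) (fun j y => f.eval K ((x, y), j)) i), i) +
        bitc i 0)) + 1 = _
    rw [hn x, hs x, Prog.eval_eq]
    simp only [hf, Prog.eval_eq]
    rfl

end Pool.Agent.AbsIrr
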