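import Mathlib
import Pool.Agent.Lib.MP_2adc98_lc.FModel
import Pool.Agent.Lib.MP_2adc98_lc.Sem
import Pool.Agent.Lib.MP_2adc98_lc.RlzQ

/-!
# MP_2adc98_lc: the calculus for programs with `p`-th roots

`Rz`, `RzQ` are the analogues of `Rlz`, `RlzQ` for the programs `PProg`.
-/

set_option autoImplicit false

namespace Pool.Agent.AbsIrr

open Finset

/-- the value -/
noncomputable def PProg.run (K : Type) [Field K] : {a b : Ty} → PProg a b → a.val K → b.val K
  | _, _, .base t, x => t.run K x
  | _, _, .proot, x => prt (K := K) x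
  | _, _, .comp g f, x => g.run K (f.run K x)
  | _, _, .pair f g, x => (f.run K x, g.run K x)
  | _, _, .ite t f g, x => if t.run K x ≠ 0 then f.run K x else g.run K x
  | _, _, .tab n f, x => fun i => if i < n.run K x then f.run K (x, i) else 0
  | _, _, .iter n s f, x => Nat.rec (s.run K x) (fun i y => f.run K ((x, y), i)) (n.run K x)

/-- the number of rounds and operations -/
noncomputable def PProg.cost (K : Type) [Field K] : {a b : Ty} → PProg a b → a.val K → ℕ
  | _, _, .base t, x => t.cost K x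
  | _, _, .proot, _ => 1
  | _, _, .comp g f, x => f.cost K x + g.cost K (f.run K x) + 1
  | _, _, .pair f g, x => f.cost K x + g.cost K x + 1
  | _, _, .ite t f g, x =>
      t.cost K x + (if t.run K x ≠ 0 then f.cost K x else g.cost K x) + 1
  | _, _, .tab n f, x =>
      n.cost K x + (∑ i ∈ Finset.range (n.run K x), (f.cost K (x, i) + 1)) + 1
  | _, _, .iter n s f, x =>
      n.cost K x + s.cost K x + (∑ i ∈ Finset.range (n.run K x),
        (f.cost K ((x, Nat.rec (s.run K x) (fun j y => f.run K ((x, y), j)) i), i) + 1)) + 1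

/-- the number of elementary steps -/
noncomputable def PProg.bcost (K : Type) [Field K] : {a b : Ty} → PProg a b → a.val K → ℕ
  | _, _, .base t, x => t.bcost K x
  | _, _, .proot, _ => 1
  | _, _, .comp g f, x => f.bcost K x + g.bcost K (f.run K x) + 1
  | _, _, .pair f g, x => f.bcost K x + g.bcost K x + 1
  | _, _, .ite t f g, x =>
      t.bcost K x + (if t.run K x ≠ 0 then f.bcost K x else g.bcost K x) + 1
  | _, _, .tab n f, x =>
      n.bcost K x + (∑ i ∈ Finset.range (n.run K x), (f.bcost K (x, i) + bitc i 0)) + 1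
  | _, _, .iter n s f, x =>
      n.bcost K x + s.bcost K x + (∑ i ∈ Finset.range (n.run K x),
        (f.bcost K ((x, Nat.rec (s.run K x) (fun j y => f.run K ((x, y), j)) i), i) +
          bitc i 0)) + 1

/-- the largest natural number occurring during the run of a program -/
noncomputable def PProg.mx (K : Type) [Field K] : {a b : Ty} → PProg a b → a.val K → ℕ
  | _, _, .base t, x => t.mx K x
  | _, _, .proot, _ => 0
  | _, _, .comp g f, x => max (f.mx K x) (g.mx K (f.run K x))
  | _, _, .pair f g, x => max (f.mx K x) (g.mx K x)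
  | _, _, .ite t f g, x =>
      max (t.mx K x) (if t.run K x ≠ 0 then f.mx K x else g.mx K x)
  | _, _, .tab n f, x =>
      max (n.mx K x) ((Finset.range (n.run K x)).sup fun i => f.mx K (x, i))
  | _, _, .iter n s f, x =>
      max (max (n.mx K x) (s.mx K x)) ((Finset.range (n.run K x)).sup fun i =>
        f.mx K ((x, Nat.rec (s.run K x) (fun j y => f.run K ((x, y), j)) i), i))

/-- all natural numbers of the input and of the output are bounded by `mx` -/
theorem PProg.nmx_le_mx (K : Type) [Field K] : ∀ {a b : Ty} (t : PProg a b) (x : a.val K),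
    a.nmx K x ≤ t.mx K x ∧ b.nmx K (t.run K x) ≤ t.mx K x := by
  intro a b t
  induction t with
  | base t => intro x; exact Prog.nmx_le_mx K t x
  | proot => intro x; exact ⟨by simp [Ty.nmx, PProg.mx], Nat.zero_le _⟩
  | comp g f hg hf =>
    intro x
    exact ⟨(hf x).1.trans (le_max_left _ _), (hg _).2.trans (le_max_right _ _)⟩
  | pair f g hf hg =>
    intro x
    exact ⟨(hf x).1.trans (le_max_left _ _), max_le_max (hf x).2 (hg x).2⟩
  | ite t f g ht hf hg =>
    intro x
    refine ⟨(ht x).1.trans (le_max_left _ _), ?_⟩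
    simp only [PProg.run, PProg.mx]
    split_ifs
    · exact (hf x).2.trans (le_max_right _ _)
    · exact (hg x).2.trans (le_max_right _ _)
  | tab n f hn hf =>
    intro x
    exact ⟨(hn x).1.trans (le_max_left _ _), Nat.zero_le _⟩
  | iter n s f hn hs hf =>
    intro x
    refine ⟨(hn x).1.trans ((le_max_left _ _).trans (le_max_left _ _)), ?_⟩
    simp only [PProg.run, PProg.mx]
    rcases Nat.eq_zero_or_pos (n.run K x) with h0 | h0
    · rw [h0]
      exact (hs x).2.trans ((le_max_right _ _).trans (le_max_left _ _))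
    · obtain ⟨m, hm⟩ := Nat.exists_eq_succ_of_ne_zero (Nat.pos_iff_ne_zero.1 h0)
      rw [hm]
      refine le_trans ?_ (le_max_right _ _)
      refine le_trans (hf _).2 (Finset.le_sup (f := fun i => f.mx K ((x, Nat.rec (s.run K x)
        (fun j y => f.run K ((x, y), j)) i), i)) (Finset.mem_range.2 (Nat.lt_succ_self m)))

/-- the number of elementary steps in terms of the number of operations and the size of the
numbers -/
theorem PProg.bcost_le (K : Type) [Field K] {B : ℕ} : ∀ {a b : Ty} (t : PProg a b) (x : a.val K),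
    t.mx K x ≤ B → t.bcost K x ≤ t.cost K x * (Nat.size B + 1) ^ 2 := by
  have h1 : 1 ≤ (Nat.size B + 1) ^ 2 := Nat.one_le_iff_ne_zero.2 (by positivity)
  have e1 : ∀ {m n : ℕ}, m ≤ B → n ≤ B → bitc m n ≤ 1 * (Nat.size B + 1) ^ 2 := fun hm hn => by
    rw [one_mul]; exact bitc_le hm hn
  intro a b t
  induction t with
  | base t => intro x hx; exact Prog.bcost_le K t x hx
  | proot => intro x _; simpa [PProg.bcost, PProg.cost] using h1
  | comp g f hg hf =>
    intro x hx
    have h2 := hf x ((le_max_left _ _).trans hx)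
    have h3 := hg (f.run K x) ((le_max_right _ _).trans hx)
    simp only [PProg.bcost, PProg.cost]
    nlinarith
  | pair f g hf hg =>
    intro x hx
    have h2 := hf x ((le_max_left _ _).trans hx)
    have h3 := hg x ((le_max_right _ _).trans hx)
    simp only [PProg.bcost, PProg.cost]
    nlinarith
  | ite t f g ht hf hg =>
    intro x hx
    have h2 := ht x ((le_max_left _ _).trans hx)
    have h3 := (le_max_right _ _).trans hx
    simp only [PProg.bcost, PProg.cost]
    split_ifs at h3 ⊢
    · have h4 := hf x h3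
      nlinarith
    · have h4 := hg x h3
      nlinarith
  | tab n f hn hf =>
    intro x hx
    have h2 := hn x ((le_max_left _ _).trans hx)
    have h3 := (le_max_right _ _).trans hx
    rw [Finset.sup_le_iff] at h3
    have h4 : ∑ i ∈ Finset.range (n.run K x), (f.bcost K (x, i) + bitc i 0) ≤
        (∑ i ∈ Finset.range (n.run K x), (f.cost K (x, i) + 1)) * (Nat.size B + 1) ^ 2 := by
      rw [Finset.sum_mul]
      refine Finset.sum_le_sum fun i hi => ?_
      have h5 := hf (x, i) (h3 i hi)
      have h6 : i ≤ B := by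
        have := (PProg.nmx_le_mx K f (x, i)).1
        exact ((le_max_right _ _).trans this).trans (h3 i hi)
      have h7 := e1 h6 (Nat.zero_le B)
      rw [add_mul]
      exact Nat.add_le_add h5 h7
    simp only [PProg.bcost, PProg.cost]
    nlinarith
  | iter n s f hn hs hf =>
    intro x hx
    have h2 := hn x ((le_max_left _ _).trans ((le_max_left _ _).trans hx))
    have h2' := hs x ((le_max_right _ _).trans ((le_max_left _ _).trans hx))
    have h3 := (le_max_right _ _).trans hx
    rw [Finset.sup_le_iff] at h3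
    have h4 : ∑ i ∈ Finset.range (n.run K x), (f.bcost K ((x, Nat.rec (s.run K x)
        (fun j y => f.run K ((x, y), j)) i), i) + bitc i 0) ≤
        (∑ i ∈ Finset.range (n.run K x), (f.cost K ((x, Nat.rec (s.run K x)
        (fun j y => f.run K ((x, y), j)) i), i) + 1)) * (Nat.size B + 1) ^ 2 := by
      rw [Finset.sum_mul]
      refine Finset.sum_le_sum fun i hi => ?_
      have h5 := hf _ (h3 i hi)
      have h6 : i ≤ B := by
        have := (PProg.nmx_le_mx K f ((x, Nat.rec (s.run K x)
          (fun j y => f.run K ((x, y), j)) i), i)).1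
        exact ((le_max_right _ _).trans this).trans (h3 i hi)
      have h7 := e1 h6 (Nat.zero_le B)
      rw [add_mul]
      exact Nat.add_le_add h5 h7
    simp only [PProg.bcost, PProg.cost]
    nlinarith


theorem PProg.eval_eq (K : Type) [Field K] {a b : Ty} (t : PProg a b) (x : a.val K) :
    t.eval K x = t.run K x := by
  induction t with
  | base t => exact Prog.eval_eq K t x
  | proot => rfl
  | comp g f hg hf => exact (hg _).trans (congrArg _ (hf x))
  | pair f g hf hg => exact Prod.ext (hf x) (hg x)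
  | ite t f g ht hf hg =>
    change (if t.eval K x ≠ 0 then f.eval K x else g.eval K x) = _
    rw [ht x, hf x, hg x]
    rfl
  | tab n f hn hf =>
    change (fun i => if i < n.eval K x then f.eval K (x, i) else 0) = _
    rw [hn x]
    funext i
    rw [hf (x, i)]
    rfl
  | @iter a b n s f hn hs hf =>
    change Nat.rec (motive := fun _ => b.val K) (s.eval K x) (fun i y => f.eval K ((x, y), i))
      (n.eval K x) = _
    have h : (fun (i : ℕ) y => f.eval K ((x, y), i)) = fun i y => f.run K ((x, y), i) := by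
      funext i y
      exact hf _
    rw [hn x, hs x, h]
    rfl

theorem PProg.steps_eq (K : Type) [Field K] {a b : Ty} (t : PProg a b) (x : a.val K) :
    t.steps K x = t.bcost K x := by
  induction t with
  | base t => exact Prog.steps_eq K t x
  | proot => rfl
  | comp g f hg hf =>
    change f.steps K x + g.steps K (f.eval K x) + 1 = _
    rw [hf x, hg, PProg.eval_eq]
    rfl
  | pair f g hf hg =>
    change f.steps K x + g.steps K x + 1 = _
    rw [hf x, hg x]
    rfl
  | ite t f g ht hf hg =>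
    change t.steps K x + (if t.eval K x ≠ 0 then f.steps K x else g.steps K x) + 1 = _
    rw [ht x, hf x, hg x, PProg.eval_eq]
    rfl
  | tab n f hn hf =>
    change n.steps K x + (∑ i ∈ Finset.range (n.eval K x), (f.steps K (x, i) + bitc i 0)) + 1 = _
    rw [hn x, PProg.eval_eq]
    simp only [hf]
    rfl
  | iter n s f hn hs hf =>
    change n.steps K x + s.steps K x + (∑ i ∈ Finset.range (n.eval K x),
      (f.steps K ((x, Nat.rec (s.eval K x) (fun j y => f.eval K ((x, y), j)) i), i) +
        bitc i 0)) + 1 = _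
    rw [hn x, hs x, PProg.eval_eq]
    simp only [hf, PProg.eval_eq]
    rfl

/-- `F` is computed by one program, with cost `O(c + 1)` -/
def Rz {a b : Ty} (F : Fam a b) (c : CFam a) : Prop :=
  ∃ (t : PProg a b) (C : ℕ), ∀ (K : Type) [Field K] (x : a.val K),
    t.run K x = F K x ∧ t.cost K x ≤ C * (c K x + 1) ∧
      t.mx K x ≤ (c K x + a.nmx K x + 2) ^ C

variable {a b b' d : Ty}

theorem Rz.of {F : Fam a b} {c : CFam a} (h : Rlz F c) : Rz F c := by
  obtain ⟨t, C, ht⟩ := h
  exact ⟨.base t, C, fun K _ x => ht K x⟩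

theorem Rz.mono {F : Fam a b} {c c' : CFam a} (h : Rz F c) (A : ℕ)
    (hc : ∀ (K : Type) [Field K] (x : a.val K), c K x ≤ A * (c' K x + 1)) : Rz F c' := by
  obtain ⟨t, C, ht⟩ := h
  refine ⟨t, (A + 3) * C, fun K _ x => ⟨(ht K x).1, (ht K x).2.1.trans ?_, (ht K x).2.2.trans ?_⟩⟩
  · have := hc K x
    calc C * (c K x + 1) ≤ C * (A * (c' K x + 1) + 1) := by gcongr
      _ ≤ C * (A * (c' K x + 1) + 3 * (c' K x + 1)) := by gcongr; omega
      _ = (A + 3) * C * (c' K x + 1) := by ring
  · have h1 := hc K x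
    set B := c' K x + a.nmx K x with hB
    rw [pow_mul]
    refine Nat.pow_le_pow_left ?_ C
    have h2 : c K x + a.nmx K x + 2 ≤ (A + 1) * (B + 2) ^ 1 := by
      rw [pow_one]
      nlinarith
    refine h2.trans (mul_pw_le.trans (Nat.pow_le_pow_right (by omega) (by omega)))

/-- change the function (extensionally) -/
theorem Rz.congr {F G : Fam a b} {c : CFam a} (h : Rz F c)
    (hc : ∀ (K : Type) [Field K] (x : a.val K), F K x = G K x) : Rz G c := by
  obtain ⟨t, C, ht⟩ := h
  exact ⟨t, C, fun K _ x => ⟨(ht K x).1.trans (hc K x), (ht K x).2⟩⟩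

theorem Rz.comp {G : Fam b d} {F : Fam a b} {cg : CFam b} {cf : CFam a}
    (hG : Rz G cg) (hF : Rz F cf) :
    Rz (fun K _ x => G K (F K x)) (fun K _ x => cf K x + cg K (F K x)) := by
  obtain ⟨t, C, ht⟩ := hG
  obtain ⟨s, D, hs⟩ := hF
  refine ⟨.comp t s, C + D + 1 + (D + 2) * C,
    fun K _ x => ⟨by simp [PProg.run, (hs K x).1, (ht K _).1], ?_, ?_⟩⟩
  · have h1 := (hs K x).2.1
    have h2 := (ht K (s.run K x)).2.1
    rw [(hs K x).1] at h2
    simp only [PProg.cost, (hs K x).1]
    nlinarith [Nat.zero_le (cf K x), Nat.zero_le (cg K (F K x)),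
      Nat.zero_le ((D + 2) * C * (cf K x + cg K (F K x) + 1))]
  · have h1 := (hs K x).2.2
    have h2 := (ht K (s.run K x)).2.2
    have h3 := (PProg.nmx_le_mx K s x).2
    rw [(hs K x).1] at h2 h3
    simp only [PProg.mx, (hs K x).1]
    refine max_le (h1.trans (pw_mono (by omega) (by omega))) (h2.trans ?_)
    have h4 : (cf K x + a.nmx K x + 2) ^ D ≤ (cf K x + cg K (F K x) + a.nmx K x + 2) ^ D :=
      pw_mono (by omega) le_rfl
    refine (pw_nest (B := cf K x + cg K (F K x) + a.nmx K x) (D := D) (C := C) ?_).trans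
      (Nat.pow_le_pow_right (by omega) (by omega))
    omega

theorem Rz.pair {F : Fam a b} {G : Fam a b'} {cf cg : CFam a} (hF : Rz F cf) (hG : Rz G cg) :
    Rz (b := .prod b b') (fun K _ x => (F K x, G K x)) (fun K _ x => cf K x + cg K x) := by
  obtain ⟨t, C, ht⟩ := hF
  obtain ⟨s, D, hs⟩ := hG
  refine ⟨.pair t s, C + D + 1,
    fun K _ x => ⟨by simp [PProg.run, (hs K x).1, (ht K _).1], ?_, ?_⟩⟩
  · have h1 := (hs K x).2.1
    have h2 := (ht K x).2.1
    simp only [PProg.cost]
    nlinarith [Nat.zero_le (cf K x), Nat.zero_le (cg K x)]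
  · simp only [PProg.mx]
    exact max_le ((ht K x).2.2.trans (pw_mono (by omega) (by omega)))
      ((hs K x).2.2.trans (pw_mono (by omega) (by omega)))

/-- case distinction, test for a nonzero natural number -/
theorem Rz.iteNat {T : Fam a .nat} {F G : Fam a b} {ct cf cg : CFam a} (hT : Rz T ct)
    (hF : Rz F cf) (hG : Rz G cg) :
    Rz (fun K _ x => if (T K x : ℕ) ≠ 0 then F K x else G K x)
      (fun K _ x => ct K x + if (T K x : ℕ) ≠ 0 then cf K x else cg K x) := by
  obtain ⟨r, B, hr⟩ := hT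
  obtain ⟨t, C, ht⟩ := hF
  obtain ⟨s, D, hs⟩ := hG
  refine ⟨.ite r t s, B + C + D + 1, fun K _ x => ⟨by simp [PProg.run, (hr K x).1, (hs K x).1,
    (ht K _).1], ?_, ?_⟩⟩
  · have h1 := (hs K x).2.1
    have h2 := (ht K x).2.1
    have h3 := (hr K x).2.1
    simp only [PProg.cost, (hr K x).1]
    split_ifs
    · nlinarith [Nat.zero_le (cf K x), Nat.zero_le (cg K x), Nat.zero_le (ct K x)]
    · nlinarith [Nat.zero_le (cf K x), Nat.zero_le (cg K x), Nat.zero_le (ct K x)]
  · simp only [PProg.mx, (hr K x).1]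
    refine max_le ((hr K x).2.2.trans (pw_mono (by omega) (by omega))) ?_
    split_ifs
    · exact (ht K x).2.2.trans (pw_mono (by omega) (by omega))
    · exact (hs K x).2.2.trans (pw_mono (by omega) (by omega))

/-- building an array.  In goals the entry function must be written `f K x i`. -/
theorem Rz.tab {N : Fam a .nat} {cn : CFam a} {f : ∀ (K : Type) [Field K], a.val K → ℕ → K}
    {c : CFam (.prod a .nat)} (hN : Rz N cn)
    (hf : Rz (a := .prod a .nat) (b := .fld) (fun K _ x => f K x.1 x.2) c) :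
    Rz (b := .arr) (fun K _ x => tabF (N K x) (fun i => f K x i))
      (fun K _ x => cn K x + N K x + ∑ i ∈ range (N K x), c K (x, i)) := by
  obtain ⟨t, C, ht⟩ := hf
  obtain ⟨s, D, hs⟩ := hN
  refine ⟨.tab s t, C + D + 2, fun K _ x => ⟨?_, ?_, ?_⟩⟩
  · funext i
    simp only [PProg.run, (hs K x).1, tabF, (ht K (x, i)).1]
  · simp only [PProg.cost, (hs K x).1]
    have h1 := (hs K x).2.1
    have h2 : ∑ i ∈ range (N K x), (t.cost K (x, i) + 1) ≤
        C * (∑ i ∈ range (N K x), c K (x, i) + N K x) + N K x := by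
      calc ∑ i ∈ range (N K x), (t.cost K (x, i) + 1)
          ≤ ∑ i ∈ range (N K x), (C * (c K (x, i) + 1) + 1) :=
            Finset.sum_le_sum (fun i _ => Nat.add_le_add_right (ht K (x, i)).2.1 1)
        _ = C * (∑ i ∈ range (N K x), c K (x, i) + N K x) + N K x := by
            rw [Finset.sum_add_distrib, ← Finset.mul_sum, Finset.sum_add_distrib]; simp
    have h3 : (0:ℕ) ≤ ∑ i ∈ range (N K x), c K (x, i) := Nat.zero_le _
    nlinarith [Nat.zero_le (cn K x), Nat.zero_le (N K x)]
  · simp only [PProg.mx, (hs K x).1]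
    refine max_le ((hs K x).2.2.trans (pw_mono (by omega) (by omega))) ?_
    refine Finset.sup_le fun i hi => ((ht K (x, i)).2.2).trans (pw_mono ?_ (by omega))
    have h1 : c K (x, i) ≤ ∑ i ∈ range (N K x), c K (x, i) :=
      Finset.single_le_sum (f := fun i => c K (x, i)) (fun j _ => Nat.zero_le _) hi
    have h2 := Finset.mem_range.1 hi
    simp only [Ty.nmx]
    generalize ∑ i ∈ range (N K x), c K (x, i) = T at h1 ⊢
    generalize hn : a.nmx K x = m
    generalize N K x = n' at h2 ⊢
    have h3 : max m i ≤ m + i := max_le (by omega) (by omega)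
    omega

/-- loops.  In goals the body must be written `f K x s i`.  Version for loop states containing
natural numbers, with an explicit bound for them. -/
theorem Rz.iterB {N : Fam a .nat} {S : Fam a b} {cn cs : CFam a}
    {f : ∀ (K : Type) [Field K], a.val K → b.val K → ℕ → b.val K}
    {c : CFam (.prod (.prod a b) .nat)} (hN : Rz N cn) (hS : Rz S cs)
    (hf : Rz (a := .prod (.prod a b) .nat) (b := b) (fun K _ x => f K x.1.1 x.1.2 x.2) c)
    (A : ℕ) (hA : ∀ (K : Type) [Field K] (x : a.val K), ∀ i ≤ N K x,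
      b.nmx K (iterF i (S K x) (fun s i => f K x s i)) ≤ (cn K x + cs K x + N K x +
        ∑ i ∈ range (N K x), c K ((x, iterF i (S K x) (fun s i => f K x s i)), i) +
          a.nmx K x + 2) ^ A) :
    Rz (b := b) (fun K _ x => iterF (N K x) (S K x) (fun s i => f K x s i))
      (fun K _ x => cn K x + cs K x + N K x +
        ∑ i ∈ range (N K x), c K ((x, iterF i (S K x) (fun s i => f K x s i)), i)) := by
  obtain ⟨t, C, ht⟩ := hf
  obtain ⟨s, D, hs⟩ := hN
  obtain ⟨r, E, hr⟩ := hS
  have hst : ∀ (K : Type) [Field K] (x : a.val K) (n : ℕ),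
      (Nat.rec (r.run K x) (fun i y => t.run K ((x, y), i)) n : b.val K) =
        iterF n (S K x) (fun s i => f K x s i) := by
    intro K _ x n
    induction n with
    | zero => exact (hr K x).1
    | succ n ih =>
      rw [iterF_succ, ← ih]
      exact (ht K ((x, _), n)).1
  refine ⟨.iter s r t, C + D + E + 2 + (A + 2) * C, fun K _ x => ⟨?_, ?_, ?_⟩⟩
  · simp only [PProg.run, (hs K x).1]
    exact hst K x _
  · simp only [PProg.cost, (hs K x).1]
    have h1 := (hs K x).2.1
    have h0 := (hr K x).2.1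
    have h2 : ∑ i ∈ range (N K x), (t.cost K ((x, (Nat.rec (r.run K x)
        (fun j y => t.run K ((x, y), j)) i : b.val K)), i) + 1) ≤
        C * (∑ i ∈ range (N K x), c K ((x, iterF i (S K x) (fun s i => f K x s i)), i)
          + N K x) + N K x := by
      calc ∑ i ∈ range (N K x), (t.cost K ((x, (Nat.rec (r.run K x)
            (fun j y => t.run K ((x, y), j)) i : b.val K)), i) + 1)
          ≤ ∑ i ∈ range (N K x),
            (C * (c K ((x, iterF i (S K x) (fun s i => f K x s i)), i) + 1) + 1) := by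
            refine Finset.sum_le_sum (fun i _ => ?_)
            rw [hst K x i]
            exact Nat.add_le_add_right (ht K ((x, _), i)).2.1 1
        _ = C * (∑ i ∈ range (N K x), c K ((x, iterF i (S K x) (fun s i => f K x s i)), i)
            + N K x) + N K x := by
            rw [Finset.sum_add_distrib, ← Finset.mul_sum, Finset.sum_add_distrib]; simp
    generalize hT : ∑ i ∈ range (N K x), c K ((x, iterF i (S K x) (fun s i => f K x s i)), i) = T
      at h2 ⊢
    nlinarith [Nat.zero_le (cn K x), Nat.zero_le (N K x), Nat.zero_le (cs K x), Nat.zero_le T,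
      Nat.zero_le ((A + 2) * C * (cn K x + cs K x + N K x + T + 1))]
  · simp only [PProg.mx, (hs K x).1]
    have hA' := hA K x
    have hc : ∀ i ∈ range (N K x), c K ((x, iterF i (S K x) (fun s i => f K x s i)), i) ≤
        ∑ i ∈ range (N K x), c K ((x, iterF i (S K x) (fun s i => f K x s i)), i) := fun i hi =>
      Finset.single_le_sum (f := fun i => c K ((x, iterF i (S K x) (fun s i => f K x s i)), i))
        (fun j _ => Nat.zero_le _) hi
    generalize hT : ∑ i ∈ range (N K x), c K ((x, iterF i (S K x) (fun s i => f K x s i)), i) = T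
      at hA' hc ⊢
    refine max_le (max_le ((hs K x).2.2.trans (pw_mono (by omega) (by omega)))
      ((hr K x).2.2.trans (pw_mono (by omega) (by omega)))) ?_
    refine Finset.sup_le fun i hi => ?_
    rw [hst K x i]
    refine ((ht K ((x, _), i)).2.2).trans ?_
    have h2 := Finset.mem_range.1 hi
    have h3 := hA' i h2.le
    have h4 := hc i hi
    refine (pw_nest (B := cn K x + cs K x + N K x + T + a.nmx K x) (D := A) (C := C) ?_).trans
      (Nat.pow_le_pow_right (by omega) (by omega))
    simp only [Ty.nmx]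
    generalize b.nmx K (iterF i (S K x) (fun s i => f K x s i)) = m at h3 ⊢
    generalize hP : (cn K x + cs K x + N K x + T + a.nmx K x + 2) ^ A = P at h3 ⊢
    have h5 : max (max (a.nmx K x) m) i ≤ a.nmx K x + m + i :=
      max_le (max_le (by omega) (by omega)) (by omega)
    have h6 := Nat.add_le_add h4 h5
    refine h6.trans ?_
    omega

/-- loops whose state contains no natural numbers.  In goals the body must be written
`f K x s i`. -/
theorem Rz.iter [NoNat b] {N : Fam a .nat} {S : Fam a b} {cn cs : CFam a}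
    {f : ∀ (K : Type) [Field K], a.val K → b.val K → ℕ → b.val K}
    {c : CFam (.prod (.prod a b) .nat)} (hN : Rz N cn) (hS : Rz S cs)
    (hf : Rz (a := .prod (.prod a b) .nat) (b := b) (fun K _ x => f K x.1.1 x.1.2 x.2) c) :
    Rz (b := b) (fun K _ x => iterF (N K x) (S K x) (fun s i => f K x s i))
      (fun K _ x => cn K x + cs K x + N K x +
        ∑ i ∈ range (N K x), c K ((x, iterF i (S K x) (fun s i => f K x s i)), i)) :=
  Rz.iterB hN hS hf 0 (fun K _ x i _ => by rw [NoNat.nmx_eq]; exact Nat.zero_le _)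

/-- the extraction of `p`-th roots -/
theorem Rz.proot {F : Fam a .fld} {c : CFam a} (hF : Rz F c) :
    Rz (b := .fld) (fun K _ x => prt (K := K) (F K x)) c := by
  have h : Rz (a := .fld) (b := .fld) (fun K _ x => prt (K := K) x) (fun _ _ _ => 0) :=
    ⟨.proot, 1, fun K _ x => ⟨rfl, by simp [PProg.cost], by simp [PProg.mx]⟩⟩
  exact (Rz.comp h hF).mono 1 (fun K _ x => by simp)

/-- `F` is computed by one program, with cost `Õ(g)` -/
def RzQ {a b : Ty} (F : Fam a b) (g : CFam a) : Prop :=
  ∃ c : ℕ, Rz F (fun K _ x => Phi c (g K x))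

theorem RzQ.of {F : Fam a b} {g : CFam a} (h : RlzQ F g) : RzQ F g := by
  obtain ⟨c, h⟩ := h
  exact ⟨c, Rz.of h⟩

/-- weaken the cost, absorbing constants and logarithmic factors -/
theorem RzQ.mono' {F : Fam a b} {g g' : CFam a} (h : RzQ F g) (A : ℕ)
    (hc : ∀ (K : Type) [Field K] (x : a.val K), g K x ≤ A * Phi A (g' K x)) : RzQ F g' := by
  obtain ⟨c, hc'⟩ := h
  obtain ⟨D, e, hD⟩ := Phi_absorb c A
  refine ⟨e, hc'.mono D (fun K _ x => ?_)⟩
  have := hD _ _ (hc K x)
  nlinarith

/-- weaken the cost, absorbing constants -/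
theorem RzQ.mono {F : Fam a b} {g g' : CFam a} (h : RzQ F g) (A : ℕ)
    (hc : ∀ (K : Type) [Field K] (x : a.val K), g K x ≤ A * (g' K x + 1)) : RzQ F g' :=
  h.mono' A (fun K _ x => (hc K x).trans (Nat.mul_le_mul_left A (le_Phi _ _)))

theorem RzQ.congr {F G : Fam a b} {g : CFam a} (h : RzQ F g)
    (hc : ∀ (K : Type) [Field K] (x : a.val K), F K x = G K x) : RzQ G g := by
  obtain ⟨c, h⟩ := h
  exact ⟨c, h.congr hc⟩

theorem RzQ.comp {G : Fam b d} {F : Fam a b} {cg : CFam b} {cf : CFam a}
    (hG : RzQ G cg) (hF : RzQ F cf) :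
    RzQ (fun K _ x => G K (F K x)) (fun K _ x => cf K x + cg K (F K x)) := by
  obtain ⟨e, hG⟩ := hG
  obtain ⟨e', hF⟩ := hF
  refine ⟨max e' e, (Rz.comp hG hF).mono 2 (fun K _ x => ?_)⟩
  have := Phi_add_le (c := e') (c' := e) (g := cf K x) (g' := cg K (F K x))
  beta_reduce
  omega

theorem RzQ.pair {F : Fam a b} {G : Fam a b'} {cf cg : CFam a} (hF : RzQ F cf)
    (hG : RzQ G cg) :
    RzQ (b := .prod b b') (fun K _ x => (F K x, G K x)) (fun K _ x => cf K x + cg K x) := by
  obtain ⟨e, hG⟩ := hG
  obtain ⟨e', hF⟩ := hF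
  refine ⟨max e' e, (Rz.pair hF hG).mono 2 (fun K _ x => ?_)⟩
  have := Phi_add_le (c := e') (c' := e) (g := cf K x) (g' := cg K x)
  beta_reduce
  omega

theorem RzQ.iteNat {T : Fam a .nat} {F G : Fam a b} {ct cf cg : CFam a} (hT : RzQ T ct)
    (hF : RzQ F cf) (hG : RzQ G cg) :
    RzQ (fun K _ x => if (T K x : ℕ) ≠ 0 then F K x else G K x)
      (fun K _ x => ct K x + if (T K x : ℕ) ≠ 0 then cf K x else cg K x) := by
  obtain ⟨e, hT⟩ := hT
  obtain ⟨e', hF⟩ := hF
  obtain ⟨e'', hG⟩ := hG
  refine ⟨max e (max e' e''), (Rz.iteNat hT hF hG).mono 2 (fun K _ x => ?_)⟩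
  have h1 := Phi_ite (P := (T K x : ℕ) ≠ 0) e' e'' (cf K x) (cg K x)
  have h2 := Phi_add_le (c := e) (c' := max e' e'') (g := ct K x)
    (g' := if (T K x : ℕ) ≠ 0 then cf K x else cg K x)
  beta_reduce
  omega

/-- building an array.  In goals the entry function must be written `f K x i`. -/
theorem RzQ.tab {N : Fam a .nat} {cn : CFam a} {f : ∀ (K : Type) [Field K], a.val K → ℕ → K}
    {c : CFam (.prod a .nat)} (hN : RzQ N cn)
    (hf : RzQ (a := .prod a .nat) (b := .fld) (fun K _ x => f K x.1 x.2) c) :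
    RzQ (b := .arr) (fun K _ x => tabF (N K x) (fun i => f K x i))
      (fun K _ x => cn K x + N K x + ∑ i ∈ range (N K x), c K (x, i)) := by
  obtain ⟨e, hN⟩ := hN
  obtain ⟨e', hf⟩ := hf
  refine ⟨max e e', (Rz.tab hN hf).mono 3 (fun K _ x => ?_)⟩
  have h1 := sum_Phi_le e' (N K x) (fun i => c K (x, i))
  have h2 : Phi e (cn K x) ≤
      Phi (max e e') (cn K x + N K x + ∑ i ∈ range (N K x), c K (x, i)) :=
    Phi_mono (le_max_left _ _) (by omega)
  have h3 : Phi e' (N K x + ∑ i ∈ range (N K x), c K (x, i)) ≤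
      Phi (max e e') (cn K x + N K x + ∑ i ∈ range (N K x), c K (x, i)) :=
    Phi_mono (le_max_right _ _) (by omega)
  have h4 := le_Phi (max e e') (cn K x + N K x + ∑ i ∈ range (N K x), c K (x, i))
  beta_reduce
  omega

/-- loops.  In goals the body must be written `f K x s i`.  Version for loop states containing
natural numbers, with an explicit bound for them. -/
theorem RzQ.iterB {N : Fam a .nat} {S : Fam a b} {cn cs : CFam a}
    {f : ∀ (K : Type) [Field K], a.val K → b.val K → ℕ → b.val K}
    {c : CFam (.prod (.prod a b) .nat)} (hN : RzQ N cn) (hS : RzQ S cs)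
    (hf : RzQ (a := .prod (.prod a b) .nat) (b := b) (fun K _ x => f K x.1.1 x.1.2 x.2) c)
    (A : ℕ) (hA : ∀ (K : Type) [Field K] (x : a.val K), ∀ i ≤ N K x,
      b.nmx K (iterF i (S K x) (fun s i => f K x s i)) ≤ (cn K x + cs K x + N K x +
        ∑ i ∈ range (N K x), c K ((x, iterF i (S K x) (fun s i => f K x s i)), i) +
          a.nmx K x + 2) ^ A) :
    RzQ (b := b) (fun K _ x => iterF (N K x) (S K x) (fun s i => f K x s i))
      (fun K _ x => cn K x + cs K x + N K x +
        ∑ i ∈ range (N K x), c K ((x, iterF i (S K x) (fun s i => f K x s i)), i)) := by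
  obtain ⟨e, hN⟩ := hN
  obtain ⟨e', hf⟩ := hf
  obtain ⟨e'', hS⟩ := hS
  refine ⟨max (max e e'') e', (Rz.iterB hN hS hf A (fun K _ x i hi => ?_)).mono 4
    (fun K _ x => ?_)⟩
  · refine (hA K x i hi).trans (pw_mono ?_ le_rfl)
    have h1 : ∑ i ∈ range (N K x), c K ((x, iterF i (S K x) (fun s i => f K x s i)), i) ≤
        ∑ i ∈ range (N K x), Phi e' (c K ((x, iterF i (S K x) (fun s i => f K x s i)), i)) :=
      Finset.sum_le_sum fun j _ => by
        have := le_Phi e' (c K ((x, iterF j (S K x) (fun s i => f K x s i)), j))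
        omega
    have h2 := le_Phi e (cn K x)
    have h3 := le_Phi e'' (cs K x)
    omega
  have h1 := sum_Phi_le e' (N K x)
    (fun i => c K ((x, iterF i (S K x) (fun s i => f K x s i)), i))
  beta_reduce at h1 ⊢
  generalize hT : ∑ i ∈ range (N K x), c K ((x, iterF i (S K x) (fun s i => f K x s i)), i) = T
    at h1 ⊢
  have h2 : Phi e (cn K x) ≤ Phi (max (max e e'') e') (cn K x + cs K x + N K x + T) :=
    Phi_mono ((le_max_left _ _).trans (le_max_left _ _)) (by omega)
  have h2' : Phi e'' (cs K x) ≤ Phi (max (max e e'') e') (cn K x + cs K x + N K x + T) :=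
    Phi_mono ((le_max_right _ _).trans (le_max_left _ _)) (by omega)
  have h3 : Phi e' (N K x + T) ≤ Phi (max (max e e'') e') (cn K x + cs K x + N K x + T) :=
    Phi_mono (le_max_right _ _) (by omega)
  have h4 := le_Phi (max (max e e'') e') (cn K x + cs K x + N K x + T)
  omega

/-- loops whose state contains no natural numbers.  In goals the body must be written
`f K x s i`. -/
theorem RzQ.iter [NoNat b] {N : Fam a .nat} {S : Fam a b} {cn cs : CFam a}
    {f : ∀ (K : Type) [Field K], a.val K → b.val K → ℕ → b.val K}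
    {c : CFam (.prod (.prod a b) .nat)} (hN : RzQ N cn) (hS : RzQ S cs)
    (hf : RzQ (a := .prod (.prod a b) .nat) (b := b) (fun K _ x => f K x.1.1 x.1.2 x.2) c) :
    RzQ (b := b) (fun K _ x => iterF (N K x) (S K x) (fun s i => f K x s i))
      (fun K _ x => cn K x + cs K x + N K x +
        ∑ i ∈ range (N K x), c K ((x, iterF i (S K x) (fun s i => f K x s i)), i)) :=
  RzQ.iterB hN hS hf 0 (fun K _ x i _ => by rw [NoNat.nmx_eq]; exact Nat.zero_le _)

theorem RzQ.proot {F : Fam a .fld} {c : CFam a} (hF : RzQ F c) :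
    RzQ (b := .fld) (fun K _ x => prt (K := K) (F K x)) c := by
  obtain ⟨e, h⟩ := hF
  exact ⟨e, Rz.proot h⟩

theorem RzQ.fst {F : Fam a (.prod b b')} {cf : CFam a} (hF : RzQ F cf) :
    RzQ (fun K _ x => (F K x).1) cf :=
  (RzQ.comp (RzQ.of (RlzQ.fst (b := b) (b' := b') RlzQ.input)) hF).mono 1
    (fun K _ x => by simp)

theorem RzQ.snd {F : Fam a (.prod b b')} {cf : CFam a} (hF : RzQ F cf) :
    RzQ (fun K _ x => (F K x).2) cf :=
  (RzQ.comp (RzQ.of (RlzQ.snd (b := b) (b' := b') RlzQ.input)) hF).mono 1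
    (fun K _ x => by simp)

theorem RzQ.letIn {V : Fam a b'} {G : Fam (.prod a b') b} {cv : CFam a}
    {cg : CFam (.prod a b')} (hG : RzQ G cg) (hV : RzQ V cv) :
    RzQ (fun K _ x => G K (x, V K x)) (fun K _ x => cv K x + cg K (x, V K x)) :=
  (RzQ.comp hG (RzQ.pair (RzQ.of RlzQ.input) hV)).mono 1 (fun K _ x => by simp)

/-- from the calculus to the true number of elementary steps `bcost` -/
theorem RzQ.exists_prog {F : Fam a b} {g : CFam a} (h : RzQ F g) :
    ∃ (t : PProg a b) (C : ℕ), ∀ (K : Type) [Field K] (x : a.val K), t.run K x = F K x ∧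
      t.bcost K x ≤ C * (g K x + 1) * (Nat.log 2 (g K x + a.nmx K x + 2) + 1) ^ C := by
  obtain ⟨c, t, C, ht⟩ := h
  set D := C * (c + 4) + 2 with hD
  refine ⟨t, 2 * C * D ^ 2 + (c + 2), fun K _ x => ⟨(ht K x).1, ?_⟩⟩
  have h1 := (ht K x).2.1
  have h2 := (ht K x).2.2
  set G := g K x + a.nmx K x with hG
  set L := Nat.log 2 (G + 2) with hL
  have hlog : Nat.log 2 (g K x + 1) ≤ L := Nat.log_mono_right (by omega)
  have hPhi : Phi c (g K x) ≤ (g K x + 1) * (L + 1) ^ c := by
    unfold Phi
    gcongr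
  -- the size of the numbers
  have h3 : Phi c (g K x) + a.nmx K x + 2 ≤ (G + 2) ^ (c + 3) := by
    have h4 : Phi c (g K x) ≤ (G + 2) ^ (c + 1) := by
      unfold Phi
      rw [pow_succ, mul_comm]
      refine Nat.mul_le_mul ?_ (by omega)
      refine Nat.pow_le_pow_left ?_ c
      have := Nat.log_lt_self 2 (x := g K x + 1) (by omega)
      omega
    have h5 : G + 2 ≤ (G + 2) ^ (c + 1) := by
      calc G + 2 = (G + 2) ^ 1 := (pow_one _).symm
        _ ≤ (G + 2) ^ (c + 1) := Nat.pow_le_pow_right (by omega) (by omega)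
    have h6 : 2 * (G + 2) ^ (c + 1) ≤ (G + 2) ^ (c + 3) := by
      rw [show c + 3 = (c + 1) + 1 + 1 by ring, pow_succ (G + 2) (c + 1 + 1),
        pow_succ (G + 2) (c + 1)]
      have : 1 ≤ (G + 2) ^ (c + 1) := Nat.one_le_iff_ne_zero.2 (by positivity)
      nlinarith [Nat.zero_le ((G + 2) ^ (c + 1) * G), Nat.zero_le ((G + 2) ^ (c + 1) * G * G)]
    omega
  have h4 : t.mx K x ≤ ((G + 2) ^ (c + 3)) ^ C := h2.trans (Nat.pow_le_pow_left h3 C)
  have h5 : Nat.size (((G + 2) ^ (c + 3)) ^ C) + 1 ≤ D * (L + 1) := by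
    have h6 : Nat.size (((G + 2) ^ (c + 3)) ^ C) ≤ Nat.log 2 (((G + 2) ^ (c + 3)) ^ C) + 1 :=
      Nat.size_le.2 (Nat.lt_pow_succ_log_self (by norm_num) _)
    have h7 := log_pow_le ((G + 2) ^ (c + 3)) C
    have h8 := log_pow_le (G + 2) (c + 3)
    rw [← hL] at h8
    have h9 : C * (Nat.log 2 ((G + 2) ^ (c + 3)) + 1) ≤ C * ((c + 3) * (L + 1) + 1) := by gcongr
    have h10 : C * ((c + 3) * (L + 1) + 1) ≤ C * ((c + 4) * (L + 1)) := by
      gcongr
      nlinarith
    have h11 : D * (L + 1) = C * ((c + 4) * (L + 1)) + 2 * (L + 1) := by rw [hD]; ring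
    omega
  have h6 := PProg.bcost_le K t x h4
  calc t.bcost K x ≤ t.cost K x * (Nat.size (((G + 2) ^ (c + 3)) ^ C) + 1) ^ 2 := h6
    _ ≤ (C * (Phi c (g K x) + 1)) * (D * (L + 1)) ^ 2 := by gcongr
    _ ≤ (C * (2 * ((g K x + 1) * (L + 1) ^ c))) * (D * (L + 1)) ^ 2 := by
        gcongr
        have : 1 ≤ (g K x + 1) * (L + 1) ^ c := Nat.one_le_iff_ne_zero.2 (by positivity)
        omega
    _ = 2 * C * D ^ 2 * (g K x + 1) * (L + 1) ^ (c + 2) := by
        rw [pow_add]; ring
    _ ≤ (2 * C * D ^ 2 + (c + 2)) * (g K x + 1) * (L + 1) ^ (2 * C * D ^ 2 + (c + 2)) := by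
        refine Nat.mul_le_mul (Nat.mul_le_mul_right _ (Nat.le_add_right _ _))
          (Nat.pow_le_pow_right (by omega) (Nat.le_add_left _ _))


end Pool.Agent.AbsIrr
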