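import Mathlib
import Pool.Agent.Lib.MP_2adc98_lc.FRz
import Pool.Agent.Lib.MP_2adc98_lc.FDefs

/-!
# MP_2adc98_lc: iterated `p`-th roots of all entries of an array
-/

set_option autoImplicit false

namespace Pool.Agent.AbsIrr

open Finset Polynomial

theorem iterF_prt {K : Type} [Field K] (e : ℕ) (x : K) :
    iterF e x (fun s _ => prt s) = prt^[e] x := by
  induction e with
  | zero => rfl
  | succ e ih => rw [iterF_succ, ih, Function.iterate_succ_apply']

variable {a : Ty}

theorem RzQ.rootT {N E : Fam a .nat} {A : Fam a .arr} {cn ce ca : CFam a} (hN : RzQ N cn)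
    (hE : RzQ E ce) (hA : RzQ A ca) :
    RzQ (b := .arr) (fun K _ x => rootT (N K x) (E K x) (A K x))
      (fun K _ x => cn K x + ce K x + ca K x + N K x * (E K x + 1)) := by
  -- input `(n, (e, A))`
  have h1 : RzQ (a := .prod (.prod .nat (.prod .nat .arr)) .nat) (b := .fld)
      (fun K _ x => iterF x.1.2.1 (x.1.2.2 x.2 : K) (fun s _ => prt (K := K) s))
      (fun _ _ x => x.1.2.1) := by
    have hn : RzQ (a := .prod (.prod .nat (.prod .nat .arr)) .nat) (b := .nat)
        (fun _ _ x => x.1.2.1) (fun _ _ _ => 0) :=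
      RzQ.fst (RzQ.snd (RzQ.fst (RzQ.of RlzQ.input)))
    have hs : RzQ (a := .prod (.prod .nat (.prod .nat .arr)) .nat) (b := .fld)
        (fun K _ x => (x.1.2.2 x.2 : K)) (fun _ _ _ => 0) :=
      RzQ.of ((RlzQ.get (RlzQ.snd (RlzQ.snd (RlzQ.fst RlzQ.input))) (RlzQ.snd RlzQ.input)).mono 1
        (fun _ _ _ => by simp))
    have hf : RzQ (a := .prod (.prod (.prod (.prod .nat (.prod .nat .arr)) .nat) .fld) .nat)
        (b := .fld) (fun K _ x => prt (K := K) x.1.2) (fun _ _ _ => 0) :=
      RzQ.proot (RzQ.snd (RzQ.fst (RzQ.of RlzQ.input)))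
    refine (RzQ.iter (b := .fld) hn hs (f := fun K _ x s i => prt (K := K) s) hf).mono 2
      (fun K _ x => ?_)
    simp
    omega
  have h2 : RzQ (a := .prod .nat (.prod .nat .arr)) (b := .arr)
      (fun K _ x => Pool.Agent.AbsIrr.rootT x.1 x.2.1 x.2.2)
      (fun _ _ x => x.1 * (x.2.1 + 1)) := by
    have hn : RzQ (a := .prod .nat (.prod .nat .arr)) (b := .nat)
        (fun _ _ x => x.1) (fun _ _ _ => 0) := RzQ.fst (RzQ.of RlzQ.input)
    refine ((RzQ.tab (a := .prod .nat (.prod .nat .arr)) hn (f := fun K _ x i => iterF x.2.1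
      (x.2.2 i : K) (fun s _ => prt (K := K) s)) h1).congr (fun K _ x => ?_)).mono 2 (fun K _ x => ?_)
    · unfold Pool.Agent.AbsIrr.rootT
      congr 1
      funext i
      exact iterF_prt _ _
    · simp only [sum_const, card_range, smul_eq_mul]
      nlinarith
  exact (RzQ.comp h2 (RzQ.pair hN (RzQ.pair hE hA))).mono 2 (fun K _ x => by
    beta_reduce
    dsimp only
    omega)

/-- in a perfect field of characteristic `p` the `p`-th root exists -/
theorem prt_pow {K : Type} [Field K] {p : ℕ} [CharP K p] [Fact p.Prime] [PerfectRing K p]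
    (x : K) : prt x ^ p = x := by
  have h : ∃ y : K, y ^ ringChar K = x := by
    rw [ringChar.eq K p]
    obtain ⟨y, hy⟩ := surjective_frobenius K p x
    exact ⟨y, by simpa [frobenius_def] using hy⟩
  have h1 : prt x = h.choose := by
    unfold prt
    rw [dif_pos h]
  rw [h1]
  calc h.choose ^ p = h.choose ^ ringChar K := by congr 1; exact (ringChar.eq K p).symm
    _ = x := h.choose_spec

theorem prt_iterate_pow {K : Type} [Field K] {p : ℕ} [CharP K p] [Fact p.Prime] [PerfectRing K p]
    (e : ℕ) (x : K) : (prt^[e] x) ^ p ^ e = x := by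
  induction e with
  | zero => simp
  | succ e ih =>
    rw [Function.iterate_succ_apply', pow_succ' p e, pow_mul, prt_pow, ih]

end Pool.Agent.AbsIrr
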