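import Mathlib
import Pool.Agent.Lib.MP_2adc98_lc.FRoot

/-!
# MP_2adc98_lc, stage 2: definitions for the composite routines
-/

set_option autoImplicit false

namespace Pool.Agent.AbsIrr

open Finset Polynomial

/-- the number of classes of size `δ` -/
noncomputable def numc {K : Type} [Field K] (n δ : ℕ) (S : ℕ → K) : ℕ :=
  adeg (n + 1) (blkA (n + 1) (δ - 1) S) - adeg (n + 1) (blkA (n + 1) δ S)

/-- `m` times the degree of the part of multiplicity `m`, `0` if this is larger than `d` -/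
noncomputable def gmn {K : Type} [Field K] (d m : ℕ) (rho : ℕ → K) : ℕ :=
  if m * (adeg (d + 1) (blkA (d + 1) (m - 1) rho) - adeg (d + 1) (blkA (d + 1) m rho)) ≤ d then
    m * (adeg (d + 1) (blkA (d + 1) (m - 1) rho) - adeg (d + 1) (blkA (d + 1) m rho)) else 0

/-- what holds for the output `o = (n, (h, (v₀, (H, S))))` on every input -/
def CostOK {K : Type} [Field K] (d m : ℕ) (rho : ℕ → K)
    (o : ℕ × (ℕ → K) × (ℕ → K) × (ℕ → K) × (ℕ → K)) : Prop :=
  m * o.1 = gmn d m rho ∧ (m = 0 → o.1 = 0) ∧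
    ∃ a : ℕ → ℕ, Antitone a ∧
      (∀ j ≤ o.1, a j = adeg (o.1 + 1) (blkA (o.1 + 1) j o.2.2.2.2)) ∧
      ∑ j ∈ range o.1, a j ≤ o.1

/-- the cost of the computation for the multiplicity `m` -/
noncomputable def cP1 {K : Type} [Field K] (κ q e b d p m : ℕ) (rho : ℕ → K) : ℕ :=
  ((gmn d m rho + 1) * ((d + 1) ^ 2 + 2 ^ κ + q * 2 ^ b + (d + 1) * 2 ^ b) + 4 ^ b + q + p) *
    (e + 1)

section
variable {K : Type} [Field K] {k : Type} [Field k] [Algebra K k]

/-- block `j` (`j ≤ d`) of the array `rho` is the product of the `y - α` over the roots of `f₀` of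
multiplicity `> j` -/
def IsRho (d : ℕ) (f₀ : k[X]) (rho : ℕ → K) : Prop := by
  classical exact
  ∀ j ≤ d, ∀ l ≤ d, algebraMap K k (rho (j * (d + 1) + l)) =
    (∏ α ∈ f₀.roots.toFinset with j < f₀.rootMultiplicity α, (X - C α)).coeff l

/-- what the computation for one squarefree part `h = ∏ F c` must deliver:
`o = (n, (h, (v₀, (H, S))))` -/
def GoodOut {ι : Type} [Fintype ι] (F : ι → k[X][X]) (n : ℕ)
    (o : ℕ × (ℕ → K) × (ℕ → K) × (ℕ → K) × (ℕ → K)) : Prop :=
  o.1 = n ∧ ∃ h : K[X][X], h.Monic ∧ h.natDegree = n ∧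
    h.map (mapRingHom (algebraMap K k)) = ∏ c, F c ∧
    (∀ i < (n + 1) * (n + 1), o.2.1 i = coeffs2 (n + 1) h i) ∧
    (∃ u, apol n o.2.2.1 * derivative (at0 h) + u * at0 h = 1) ∧
    ∃ val : ι → k, Function.Injective val ∧
      (∀ c, at0 (F c) ∣ (apol n o.2.2.2.1).map (algebraMap K k) - C (val c)) ∧
      ∀ j ≤ n, (blk (n + 1) o.2.2.2.2 j).map (algebraMap K k) =
        ∏ c with j < (F c).natDegree, (X - C (val c))

end

end Pool.Agent.AbsIrr
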