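import Mathlib
import Pool.Agent.Lib.MP_2adc98_lc.FDefs

/-!
# MP_2adc98_lc, stage 2: the invariant factors, mathematical part

`Ins n m E R U`: the vectors `U 0, ..., U (m-1)` of length `n` are linearly independent, `U R = 1`
and `E = R U`, so that `v` is in their span if and only if `v E = v`, and then `v R` are the
coefficients.
-/

set_option autoImplicit false

namespace Pool.Agent.AbsIrr

open Finset Polynomial

section ins
variable {K : Type} [Field K]

/-- a projector `E = R U` with `U R = 1` -/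
structure Ins (n m : ℕ) (E R U : ℕ → ℕ → K) : Prop where
  e : ∀ i < n, ∀ a < n, E i a = ∑ k ∈ range m, R i k * U k a
  r : ∀ k < m, ∀ l < m, ∑ i ∈ range n, U k i * R i l = if k = l then 1 else 0
  z : ∀ i < n, ∀ k < n, m ≤ k → R i k = 0

theorem Ins.ue {n m : ℕ} {E R U : ℕ → ℕ → K} (h : Ins n m E R U) {k : ℕ} (hk : k < m) {a : ℕ}
    (ha : a < n) : ∑ i ∈ range n, U k i * E i a = U k a := by
  have h1 : ∀ i ∈ range n, U k i * E i a = ∑ l ∈ range m, U k i * R i l * U l a := by
    intro i hi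
    rw [h.e i (mem_range.1 hi) a ha, Finset.mul_sum]
    exact Finset.sum_congr rfl fun l _ => by ring
  rw [Finset.sum_congr rfl h1, Finset.sum_comm]
  have h2 : ∀ l ∈ range m, ∑ i ∈ range n, U k i * R i l * U l a =
      if k = l then U l a else 0 := by
    intro l hl
    rw [← Finset.sum_mul, h.r k hk l (mem_range.1 hl)]
    split_ifs <;> simp
  rw [Finset.sum_congr rfl h2, Finset.sum_ite_eq (range m) k (fun l => U l a),
    if_pos (mem_range.2 hk)]

theorem Ins.ve {n m : ℕ} {E R U : ℕ → ℕ → K} (h : Ins n m E R U) (v : ℕ → K) {a : ℕ}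
    (ha : a < n) : ∑ i ∈ range n, v i * E i a =
      ∑ k ∈ range m, (∑ i ∈ range n, v i * R i k) * U k a := by
  have h1 : ∀ i ∈ range n, v i * E i a = ∑ l ∈ range m, v i * R i l * U l a := by
    intro i hi
    rw [h.e i (mem_range.1 hi) a ha, Finset.mul_sum]
    exact Finset.sum_congr rfl fun l _ => by ring
  rw [Finset.sum_congr rfl h1, Finset.sum_comm]
  exact Finset.sum_congr rfl fun l _ => by rw [Finset.sum_mul]

/-- independence -/
theorem Ins.indep {n m : ℕ} {E R U : ℕ → ℕ → K} (h : Ins n m E R U) {c : ℕ → K}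
    (hc : ∀ a < n, ∑ k ∈ range m, c k * U k a = 0) : ∀ l < m, c l = 0 := by
  intro l hl
  have h1 : ∑ a ∈ range n, (∑ k ∈ range m, c k * U k a) * R a l = 0 := by
    refine Finset.sum_eq_zero fun a ha => ?_
    rw [hc a (mem_range.1 ha), zero_mul]
  have h2 : ∑ a ∈ range n, (∑ k ∈ range m, c k * U k a) * R a l =
      ∑ k ∈ range m, c k * ∑ a ∈ range n, U k a * R a l := by
    simp_rw [Finset.sum_mul, Finset.mul_sum]
    rw [Finset.sum_comm]
    exact Finset.sum_congr rfl fun k _ => Finset.sum_congr rfl fun a _ => by ring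
  rw [h1] at h2
  have h3 : ∀ k ∈ range m, c k * ∑ a ∈ range n, U k a * R a l = if k = l then c k else 0 := by
    intro k hk
    rw [h.r k (mem_range.1 hk) l hl]
    split_ifs <;> simp
  rw [Finset.sum_congr rfl h3, Finset.sum_ite_eq' (range m) l c, if_pos (mem_range.2 hl)] at h2
  exact h2.symm

/-- if there is a vector outside the span, then `m < n` -/
theorem Ins.lt {n m : ℕ} {E R U : ℕ → ℕ → K} (h : Ins n m E R U) (hm : m ≤ n) {v : ℕ → K} {p : ℕ}
    (hp : p < n) (hd : v p - ∑ i ∈ range n, v i * E i p ≠ 0) : m < n := by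
  by_contra hlt
  have hmn : m = n := by omega
  subst hmn
  apply hd
  obtain ⟨MU, hMU⟩ : ∃ MU : Matrix (Fin m) (Fin m) K, MU = Matrix.of fun (k i : Fin m) => U k i := ⟨_, rfl⟩
  obtain ⟨MR, hMR⟩ : ∃ MR : Matrix (Fin m) (Fin m) K, MR = Matrix.of fun (i k : Fin m) => R i k := ⟨_, rfl⟩
  have h1 : MU * MR = 1 := by
    ext k l
    rw [Matrix.mul_apply, hMU, hMR, Matrix.one_apply]
    simp only [Matrix.of_apply]
    rw [← Finset.sum_range (fun i => U k i * R i l), h.r k k.2 l l.2]
    simp only [Fin.ext_iff]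
  have h2 : MR * MU = 1 := mul_eq_one_comm.1 h1
  have h3 : ∀ i ∈ range m, v i * E i p = if i = p then v i else 0 := by
    intro i hi
    have h4 : (MR * MU) ⟨i, mem_range.1 hi⟩ ⟨p, hp⟩ = E i p := by
      rw [Matrix.mul_apply, hMU, hMR]
      simp only [Matrix.of_apply]
      rw [← Finset.sum_range (fun k => R i k * U k p), h.e i (mem_range.1 hi) p hp]
    rw [← h4, h2, Matrix.one_apply]
    simp only [Fin.mk.injEq]
    split_ifs <;> simp
  rw [Finset.sum_congr rfl h3, Finset.sum_ite_eq' (range m) p v, if_pos (mem_range.2 hp), sub_self]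

/-- insertion of a vector outside the span -/
theorem Ins.step {n m : ℕ} {E R U : ℕ → ℕ → K} (h : Ins n m E R U) (hm : m < n) {v d c : ℕ → K}
    {p : ℕ} (hp : p < n) (hd : ∀ a < n, d a = v a - ∑ i ∈ range n, v i * E i a)
    (hc : ∀ k < n, c k = ∑ i ∈ range n, v i * R i k) (hd0 : d p ≠ 0) {E' R' U' : ℕ → ℕ → K}
    (hE : ∀ i < n, ∀ a < n, E' i a = E i a + ((if i = p then 1 else 0) - E i p) * (d a / d p))
    (hR : ∀ i < n, ∀ k < n, R' i k =
      R i k + ((if i = p then 1 else 0) - E i p) * (((if k = m then 1 else 0) - c k) / d p))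
    (hU : ∀ k < m, ∀ a < n, U' k a = U k a) (hU2 : ∀ a < n, U' m a = v a) :
    Ins n (m + 1) E' R' U' := by
  have hcz : ∀ k < n, m ≤ k → c k = 0 := by
    intro k hk hmk
    rw [hc k hk]
    refine Finset.sum_eq_zero fun i hi => ?_
    rw [h.z i (mem_range.1 hi) k hk hmk, mul_zero]
  have hcE : ∀ a < n, ∑ k ∈ range m, c k * U k a = v a - d a := by
    intro a ha
    rw [hd a ha, sub_sub_cancel, h.ve v ha]
    exact Finset.sum_congr rfl fun k hk => by rw [hc k (by have := mem_range.1 hk; omega)]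
  have hcU : ∀ l < n, ∑ i ∈ range n, v i * R i l = c l := fun l hl => (hc l hl).symm
  refine ⟨?_, ?_, ?_⟩
  · intro i hi a ha
    rw [hE i hi a ha, Finset.sum_range_succ, hR i hi m hm, if_pos rfl, hcz m hm le_rfl,
      h.z i hi m hm le_rfl, hU2 a ha]
    have h1 : ∀ k ∈ range m, R' i k * U' k a = R i k * U k a -
        (((if i = p then 1 else 0) - E i p) / d p) * (c k * U k a) := by
      intro k hk
      have hk' := mem_range.1 hk
      rw [hR i hi k (by omega), hU k hk' a ha, if_neg (show ¬ k = m by omega)]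
      ring
    rw [Finset.sum_congr rfl h1, Finset.sum_sub_distrib, ← Finset.mul_sum, hcE a ha,
      ← h.e i hi a ha]
    field_simp
    ring
  · intro k hk l hl
    have hl' : l < n := by omega
    have h1 : ∑ i ∈ range n, U' k i * R' i l = ∑ i ∈ range n, U' k i * R i l +
        (∑ i ∈ range n, U' k i * ((if i = p then 1 else 0) - E i p)) *
          (((if l = m then 1 else 0) - c l) / d p) := by
      rw [Finset.sum_mul, ← Finset.sum_add_distrib]
      refine Finset.sum_congr rfl fun i hi => ?_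
      rw [hR i (mem_range.1 hi) l hl']
      ring
    have h2 : ∑ i ∈ range n, U' k i * ((if i = p then 1 else 0) - E i p) =
        U' k p - ∑ i ∈ range n, U' k i * E i p := by
      simp_rw [mul_sub]
      rw [Finset.sum_sub_distrib]
      congr 1
      simp only [mul_ite, mul_one, mul_zero]
      rw [Finset.sum_ite_eq' (range n) p (U' k), if_pos (mem_range.2 hp)]
    rcases Nat.lt_succ_iff_lt_or_eq.1 hk with hk' | hk'
    · have h3 : ∑ i ∈ range n, U' k i * E i p = U k p := by
        rw [← h.ue hk' hp]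
        exact Finset.sum_congr rfl fun i hi => by rw [hU k hk' i (mem_range.1 hi)]
      rw [h1, h2, h3, hU k hk' p hp, sub_self, zero_mul, add_zero]
      have h4 : ∑ i ∈ range n, U' k i * R i l = ∑ i ∈ range n, U k i * R i l :=
        Finset.sum_congr rfl fun i hi => by rw [hU k hk' i (mem_range.1 hi)]
      rw [h4]
      rcases Nat.lt_succ_iff_lt_or_eq.1 hl with hl2 | hl2
      · exact h.r k hk' l hl2
      · rw [if_neg (by omega)]
        refine Finset.sum_eq_zero fun i hi => ?_
        rw [h.z i (mem_range.1 hi) l hl' (by omega), mul_zero]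
    · subst hk'
      have h3 : ∑ i ∈ range n, U' k i * E i p = v p - d p := by
        rw [hd p hp, sub_sub_cancel]
        exact Finset.sum_congr rfl fun i hi => by rw [hU2 i (mem_range.1 hi)]
      have h4 : ∑ i ∈ range n, U' k i * R i l = c l := by
        rw [hc l hl']
        exact Finset.sum_congr rfl fun i hi => by rw [hU2 i (mem_range.1 hi)]
      rw [h1, h2, h3, h4, hU2 p hp, sub_sub_cancel, mul_div_cancel₀ _ hd0]
      simp only [eq_comm (a := l) (b := k)]
      ring
  · intro i hi k hk hmk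
    rw [hR i hi k hk, h.z i hi k hk (by omega), hcz k hk (by omega),
      if_neg (show ¬ k = m by omega)]
    simp

theorem Ins.zero (n : ℕ) (U : ℕ → ℕ → K) : Ins n 0 (fun _ _ => 0) (fun _ _ => 0) U :=
  ⟨fun i _ a _ => by simp, fun k hk => absurd hk (Nat.not_lt_zero k), fun _ _ _ _ _ => rfl⟩

end ins

section pol
variable {K : Type} [Field K]

theorem fi_sum_modByMonic {G : K[X]} (w : ℕ → K[X]) (c : ℕ → K) (m : ℕ) :
    (∑ k ∈ range m, C (c k) * w k) %ₘ G = ∑ k ∈ range m, C (c k) * (w k %ₘ G) := by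
  induction m with
  | zero => simp
  | succ m ih =>
    rw [Finset.sum_range_succ, Finset.sum_range_succ, Polynomial.add_modByMonic, ih,
      ← Polynomial.smul_eq_C_mul, ← Polynomial.smul_eq_C_mul, Polynomial.smul_modByMonic]

theorem fi_dvd_iff {G : K[X]} (hG : G.Monic) {n : ℕ} (hn : G.natDegree = n) (A : K[X])
    (w : ℕ → K[X]) (c : ℕ → K) (m : ℕ) :
    G ∣ A - ∑ k ∈ range m, C (c k) * w k ↔
      ∀ a < n, (A %ₘ G).coeff a = ∑ k ∈ range m, c k * (w k %ₘ G).coeff a := by
  rw [← Polynomial.modByMonic_eq_zero_iff_dvd hG, Polynomial.sub_modByMonic, fi_sum_modByMonic,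
    sub_eq_zero, Polynomial.ext_iff]
  have h1 : ∀ (B : K[X]) (a : ℕ), n ≤ a → (B %ₘ G).coeff a = 0 := by
    intro B a ha
    apply Polynomial.coeff_eq_zero_of_degree_lt
    refine (Polynomial.degree_modByMonic_lt B hG).trans_le ?_
    rw [Polynomial.degree_eq_natDegree hG.ne_zero, hn]
    exact_mod_cast ha
  have h2 : ∀ a, (∑ k ∈ range m, C (c k) * (w k %ₘ G)).coeff a =
      ∑ k ∈ range m, c k * (w k %ₘ G).coeff a := by
    intro a
    rw [finsetSum_coeff]
    exact Finset.sum_congr rfl fun k _ => by rw [coeff_C_mul]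
  constructor
  · intro h a _
    rw [h a, h2]
  · intro h a
    rw [h2]
    rcases Nat.lt_or_ge a n with ha | ha
    · exact h a ha
    · rw [h1 A a ha]
      refine (Finset.sum_eq_zero fun k _ => ?_).symm
      rw [h1 _ a ha, mul_zero]

/-! ### `InB` -/

theorem InB.congr {G h : K[X]} {j : ℕ} {A B : K[X]} (hB : InB G h j B) (hd : G ∣ A - B) :
    InB G h j A := by
  obtain ⟨b, hb⟩ := hB
  refine ⟨b, ?_⟩
  have := dvd_add hd hb
  rwa [sub_add_sub_cancel] at this

theorem InB.zero {G h : K[X]} {j : ℕ} : InB G h j 0 :=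
  ⟨fun _ => 0, by simp⟩

theorem InB.add {G h : K[X]} {j : ℕ} {A B : K[X]} (hA : InB G h j A) (hB : InB G h j B) :
    InB G h j (A + B) := by
  obtain ⟨a, ha⟩ := hA
  obtain ⟨b, hb⟩ := hB
  refine ⟨fun i => a i + b i, ?_⟩
  have e : A + B - ∑ i ∈ range j, (a i + b i).comp h * X ^ i =
      (A - ∑ i ∈ range j, (a i).comp h * X ^ i) + (B - ∑ i ∈ range j, (b i).comp h * X ^ i) := by
    have : ∑ i ∈ range j, (a i + b i).comp h * X ^ i = ∑ i ∈ range j, (a i).comp h * X ^ i +
        ∑ i ∈ range j, (b i).comp h * X ^ i := by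
      rw [← Finset.sum_add_distrib]
      exact Finset.sum_congr rfl fun i _ => by rw [add_comp, add_mul]
    rw [this]; ring
  rw [e]
  exact dvd_add ha hb

theorem InB.mul {G h : K[X]} {j : ℕ} {A : K[X]} (q : K[X]) (hA : InB G h j A) :
    InB G h j (q.comp h * A) := by
  obtain ⟨a, ha⟩ := hA
  refine ⟨fun i => q * a i, ?_⟩
  have e : q.comp h * A - ∑ i ∈ range j, (q * a i).comp h * X ^ i =
      q.comp h * (A - ∑ i ∈ range j, (a i).comp h * X ^ i) := by
    rw [mul_sub, Finset.mul_sum]
    congr 1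
    exact Finset.sum_congr rfl fun i _ => by rw [mul_comp, mul_assoc]
  rw [e]
  exact dvd_mul_of_dvd_right ha _

theorem InB.smul {G h : K[X]} {j : ℕ} {A : K[X]} (c : K) (hA : InB G h j A) :
    InB G h j (C c * A) := by
  have := hA.mul (C c)
  rwa [C_comp] at this

theorem InB.sum {G h : K[X]} {j : ℕ} {A : ℕ → K[X]} {c : ℕ → K} {m : ℕ}
    (hA : ∀ k < m, InB G h j (A k)) : InB G h j (∑ k ∈ range m, C (c k) * A k) := by
  induction m with
  | zero => simpa using InB.zero
  | succ m ih =>
    rw [Finset.sum_range_succ]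
    exact (ih fun k hk => hA k (by omega)).add ((hA m (by omega)).smul _)

theorem InB.succ {G h : K[X]} {j : ℕ} {A : K[X]} (hA : InB G h j A) : InB G h (j + 1) A := by
  obtain ⟨a, ha⟩ := hA
  refine ⟨fun i => if i < j then a i else 0, ?_⟩
  have e : ∑ i ∈ range (j + 1), ((if i < j then a i else 0) : K[X]).comp h * X ^ i =
      ∑ i ∈ range j, (a i).comp h * X ^ i := by
    rw [Finset.sum_range_succ, if_neg (lt_irrefl j), zero_comp, zero_mul, add_zero]
    exact Finset.sum_congr rfl fun i hi => by rw [if_pos (mem_range.1 hi)]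
  rw [e]
  exact ha

theorem InB.self {G h : K[X]} {j : ℕ} (q : K[X]) : InB G h (j + 1) (q.comp h * X ^ j) := by
  refine ⟨fun i => if i = j then q else 0, ?_⟩
  have e : ∑ i ∈ range (j + 1), ((if i = j then q else 0) : K[X]).comp h * X ^ i =
      q.comp h * X ^ j := by
    rw [Finset.sum_range_succ, if_pos rfl, Finset.sum_eq_zero, zero_add]
    intro i hi
    rw [if_neg (by have := mem_range.1 hi; omega), zero_comp, zero_mul]
  rw [e, sub_self]
  exact dvd_zero _

theorem InB.split {G h : K[X]} {j : ℕ} {A : K[X]} (hA : InB G h (j + 1) A) :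
    ∃ q B : K[X], InB G h j B ∧ A = B + q.comp h * X ^ j := by
  obtain ⟨a, ha⟩ := hA
  refine ⟨a j, A - (a j).comp h * X ^ j, ⟨a, ?_⟩, by ring⟩
  rw [Finset.sum_range_succ] at ha
  have e : A - (a j).comp h * X ^ j - ∑ i ∈ range j, (a i).comp h * X ^ i =
      A - (∑ i ∈ range j, (a i).comp h * X ^ i + (a j).comp h * X ^ j) := by ring
  rw [e]
  exact ha

/-- the property of block number `j` -/
def FIGood (G h : K[X]) (j : ℕ) (S : K[X]) : Prop :=
  S.Monic ∧ InB G h j (S.comp h * X ^ j) ∧
    ∀ A : K[X], A ≠ 0 → InB G h j (A.comp h * X ^ j) → S.natDegree ≤ A.natDegree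

/-- the vectors found so far: `m` vectors, the last `l` of them are `h^i X^j`, `i < l`, and the
others span the space of all `A` with `InB G h j A` -/
structure FIW (G h : K[X]) (j l m : ℕ) (w : ℕ → K[X]) : Prop where
  le : l ≤ m
  last : ∀ i < l, w (m - l + i) = h ^ i * X ^ j
  span : ∀ A, InB G h j A → ∃ c : ℕ → K, G ∣ A - ∑ k ∈ range (m - l), C (c k) * w k
  mem : ∀ k < m - l, InB G h j (w k)

/-- the block -/
noncomputable def fiS (l m : ℕ) (c : ℕ → K) : K[X] :=
  X ^ l - ∑ i ∈ range l, C (c (m - l + i)) * X ^ i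

theorem fiS_sum_degree (l m : ℕ) (c : ℕ → K) :
    (∑ i ∈ range l, C (c (m - l + i)) * X ^ i : K[X]).degree < (l : WithBot ℕ) := by
  rw [Polynomial.degree_lt_iff_coeff_zero]
  intro i hi
  rw [finsetSum_coeff]
  refine Finset.sum_eq_zero fun k hk => ?_
  rw [coeff_C_mul, coeff_X_pow, if_neg (by have := mem_range.1 hk; omega), mul_zero]

theorem fiS_monic (l m : ℕ) (c : ℕ → K) : (fiS l m c).Monic := by
  unfold fiS
  exact Polynomial.monic_X_pow_sub (fiS_sum_degree l m c)

theorem fiS_natDegree (l m : ℕ) (c : ℕ → K) : (fiS l m c).natDegree = l := by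
  unfold fiS
  apply Polynomial.natDegree_eq_of_degree_eq_some
  rw [Polynomial.degree_sub_eq_left_of_degree_lt]
  · exact Polynomial.degree_X_pow l
  · rw [Polynomial.degree_X_pow]
    exact fiS_sum_degree l m c

theorem fiS_comp {G h : K[X]} {j l m : ℕ} {w : ℕ → K[X]} (hw : FIW G h j l m w) (c : ℕ → K) :
    (fiS l m c).comp h * X ^ j = (h ^ l * X ^ j - ∑ k ∈ range m, C (c k) * w k) +
      ∑ k ∈ range (m - l), C (c k) * w k := by
  have h1 : ∑ k ∈ range m, C (c k) * w k = ∑ k ∈ range (m - l), C (c k) * w k +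
      ∑ i ∈ range l, C (c (m - l + i)) * w (m - l + i) := by
    have h0 : m = m - l + l := by have := hw.le; omega
    conv_lhs => rw [h0]
    rw [Finset.sum_range_add]
  have h2 : ∑ i ∈ range l, C (c (m - l + i)) * w (m - l + i) =
      ∑ i ∈ range l, C (c (m - l + i)) * (h ^ i * X ^ j) :=
    Finset.sum_congr rfl fun i hi => by rw [hw.last i (mem_range.1 hi)]
  have h3 : (fiS l m c).comp h = h ^ l - ∑ i ∈ range l, C (c (m - l + i)) * h ^ i := by
    unfold fiS
    rw [sub_comp, X_pow_comp, Polynomial.sum_comp]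
    congr 1
    exact Finset.sum_congr rfl fun i _ => by rw [mul_comp, C_comp, X_pow_comp]
  rw [h1, h2, h3, sub_mul, Finset.sum_mul]
  have h4 : ∑ i ∈ range l, C (c (m - l + i)) * (h ^ i * X ^ j) =
      ∑ i ∈ range l, C (c (m - l + i)) * h ^ i * X ^ j :=
    Finset.sum_congr rfl fun i _ => by ring
  rw [h4]
  ring

theorem fi_comp_eq {h r : K[X]} {l : ℕ} (hr : r.degree < (l : WithBot ℕ)) :
    r.comp h = ∑ i ∈ range l, C (r.coeff i) * h ^ i := by
  have e : r = ∑ i ∈ range l, C (r.coeff i) * X ^ i := by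
    ext k
    rw [finsetSum_coeff]
    simp only [coeff_C_mul, coeff_X_pow, mul_ite, mul_one, mul_zero]
    rw [Finset.sum_ite_eq (range l) k (fun i => r.coeff i)]
    by_cases hk : k < l
    · rw [if_pos (mem_range.2 hk)]
    · rw [if_neg (fun h => hk (mem_range.1 h))]
      rw [Polynomial.degree_lt_iff_coeff_zero] at hr
      exact hr k (by omega)
  conv_lhs => rw [e]
  rw [Polynomial.sum_comp]
  exact Finset.sum_congr rfl fun i _ => by rw [mul_comp, C_comp, X_pow_comp]

/-- joining two sums -/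
theorem fi_join {G h : K[X]} {j l m : ℕ} {w : ℕ → K[X]} (hw : FIW G h j l m w) (c : ℕ → K)
    {r : K[X]} (hr : r.degree < (l : WithBot ℕ)) :
    ∑ k ∈ range m, C (if k < m - l then c k else r.coeff (k - (m - l))) * w k =
      ∑ k ∈ range (m - l), C (c k) * w k + r.comp h * X ^ j := by
  have h0 : m = m - l + l := by have := hw.le; omega
  conv_lhs => rw [h0]
  rw [Finset.sum_range_add]
  congr 1
  · refine Finset.sum_congr rfl fun k hk => ?_
    have hk' : k < m - l + l - l := by have := mem_range.1 hk; omega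
    rw [if_pos hk']
  · rw [fi_comp_eq hr, Finset.sum_mul]
    refine Finset.sum_congr rfl fun i hi => ?_
    rw [hw.last i (mem_range.1 hi), if_neg (by omega), mul_assoc]
    congr 3
    omega

theorem fi_indep {G : K[X]} (hG : G.Monic) {n : ℕ} (hn : G.natDegree = n) {m : ℕ}
    {E R : ℕ → ℕ → K} {w : ℕ → K[X]} (h : Ins n m E R fun k a => (w k %ₘ G).coeff a) {c : ℕ → K}
    (hc : G ∣ ∑ k ∈ range m, C (c k) * w k) : ∀ k < m, c k = 0 := by
  apply h.indep
  intro a ha
  have h1 : G ∣ 0 - ∑ k ∈ range m, C (c k) * w k := by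
    rw [zero_sub]
    exact (dvd_neg).2 hc
  have h2 := (fi_dvd_iff hG hn 0 w c m).1 h1 a ha
  rw [Polynomial.zero_modByMonic, coeff_zero] at h2
  exact h2.symm

theorem fi_good {G h : K[X]} (hG : G.Monic) {n : ℕ} (hn : G.natDegree = n) {j l m : ℕ}
    {E R : ℕ → ℕ → K} {w : ℕ → K[X]} (hI : Ins n m E R fun k a => (w k %ₘ G).coeff a)
    (hw : FIW G h j l m w) {c : ℕ → K}
    (hc : G ∣ h ^ l * X ^ j - ∑ k ∈ range m, C (c k) * w k) : FIGood G h j (fiS l m c) := by
  refine ⟨fiS_monic l m c, ?_, ?_⟩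
  · have h1 : InB G h j (∑ k ∈ range (m - l), C (c k) * w k) := InB.sum hw.mem
    refine h1.congr ?_
    rw [fiS_comp hw c, add_sub_cancel_right]
    exact hc
  · intro A hA hAB
    rw [fiS_natDegree]
    by_contra hlt
    have hd : A.degree < (l : WithBot ℕ) := by
      rw [Polynomial.degree_eq_natDegree hA]
      exact_mod_cast (by omega : A.natDegree < l)
    obtain ⟨c', hc'⟩ := hw.span _ hAB
    have h1 := fi_join hw (fun k => -c' k) hd
    have h2 : G ∣ ∑ k ∈ range m, C (if k < m - l then -c' k else A.coeff (k - (m - l))) * w k := by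
      rw [h1]
      have e : ∑ k ∈ range (m - l), C (-c' k) * w k + A.comp h * X ^ j =
          A.comp h * X ^ j - ∑ k ∈ range (m - l), C (c' k) * w k := by
        simp only [C_neg, neg_mul, Finset.sum_neg_distrib]
        ring
      rw [e]
      exact hc'
    have h3 := fi_indep hG hn hI h2 (m - l + A.natDegree) (by have := hw.le; omega)
    rw [if_neg (by omega), Nat.add_sub_cancel_left] at h3
    exact hA (Polynomial.leadingCoeff_eq_zero.1 h3)

theorem fi_next {G h : K[X]} {j l m : ℕ} {w : ℕ → K[X]} (hw : FIW G h j l m w) {c : ℕ → K}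
    (hc : G ∣ h ^ l * X ^ j - ∑ k ∈ range m, C (c k) * w k) : FIW G h (j + 1) 0 m w := by
  refine ⟨Nat.zero_le m, fun i hi => absurd hi (Nat.not_lt_zero i), ?_, ?_⟩
  · intro A hA
    obtain ⟨q, B, hB, rfl⟩ := hA.split
    have hS := fiS_monic l m c
    have hSd : (fiS l m c).degree = (l : WithBot ℕ) := by
      rw [Polynomial.degree_eq_natDegree hS.ne_zero, fiS_natDegree]
    have hr : (q %ₘ fiS l m c).degree < (l : WithBot ℕ) := by
      rw [← hSd]
      exact Polynomial.degree_modByMonic_lt q hS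
    have hSB : InB G h j ((fiS l m c).comp h * X ^ j) := by
      have h1 : InB G h j (∑ k ∈ range (m - l), C (c k) * w k) := InB.sum hw.mem
      refine h1.congr ?_
      rw [fiS_comp hw c, add_sub_cancel_right]
      exact hc
    obtain ⟨c', hc'⟩ := hw.span _ (hB.add (hSB.mul (q /ₘ fiS l m c)))
    refine ⟨fun k => if k < m - l then c' k else (q %ₘ fiS l m c).coeff (k - (m - l)), ?_⟩
    rw [Nat.sub_zero, fi_join hw c' hr]
    have e : q.comp h = (q %ₘ fiS l m c).comp h + (fiS l m c).comp h *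
        (q /ₘ fiS l m c).comp h := by
      rw [← mul_comp, ← add_comp, Polynomial.modByMonic_add_div]
    have e2 : B + q.comp h * X ^ j - (∑ k ∈ range (m - l), C (c' k) * w k +
        (q %ₘ fiS l m c).comp h * X ^ j) = B + (q /ₘ fiS l m c).comp h *
          ((fiS l m c).comp h * X ^ j) - ∑ k ∈ range (m - l), C (c' k) * w k := by
      rw [e]; ring
    rw [e2]
    exact hc'
  · intro k hk
    rw [Nat.sub_zero] at hk
    by_cases hk' : k < m - l
    · exact (hw.mem k hk').succ
    · have h1 : m - l + (k - (m - l)) = k := by omega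
      have h2 := hw.last (k - (m - l)) (by have := hw.le; omega)
      rw [h1] at h2
      rw [h2]
      have h3 := InB.self (G := G) (h := h) (j := j) (X ^ (k - (m - l)))
      rwa [X_pow_comp] at h3

theorem fi_push {G h : K[X]} {j l m : ℕ} {w w' : ℕ → K[X]} (hw : FIW G h j l m w)
    (h1 : ∀ k < m, w' k = w k) (h2 : w' m = h ^ l * X ^ j) : FIW G h j (l + 1) (m + 1) w' := by
  have hle := hw.le
  have e : m + 1 - (l + 1) = m - l := by omega
  refine ⟨by omega, ?_, ?_, ?_⟩
  · intro i hi
    rw [e]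
    rcases Nat.lt_succ_iff_lt_or_eq.1 hi with hi' | hi'
    · rw [h1 _ (by omega), hw.last i hi']
    · subst hi'
      rw [Nat.sub_add_cancel hle, h2]
  · intro A hA
    rw [e]
    obtain ⟨c, hc⟩ := hw.span A hA
    refine ⟨c, ?_⟩
    have h3 : ∑ k ∈ range (m - l), C (c k) * w' k = ∑ k ∈ range (m - l), C (c k) * w k :=
      Finset.sum_congr rfl fun k hk => by rw [h1 k (by have := mem_range.1 hk; omega)]
    rw [h3]
    exact hc
  · intro k hk
    rw [e] at hk
    rw [h1 k (by omega)]
    exact hw.mem k hk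

theorem fi_start {G h : K[X]} (w : ℕ → K[X]) : FIW G h 0 0 0 w := by
  refine ⟨le_rfl, fun i hi => absurd hi (Nat.not_lt_zero i), ?_, fun k hk =>
    absurd hk (Nat.not_lt_zero k)⟩
  rintro A ⟨b, hb⟩
  exact ⟨fun _ => 0, by simpa using hb⟩

end pol

end Pool.Agent.AbsIrr
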