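import Mathlib
import Pool.Agent.Lib.MP_2adc98_lc.FIA
import Pool.Agent.Lib.MP_2adc98_lc.Stages
import Pool.Agent.Lib.MP_2adc98_lc.FA

/-!
# MP_2adc98_lc, stage 2: the invariant factors, the algorithm
-/

set_option autoImplicit false

namespace Pool.Agent.AbsIrr

open Finset Polynomial

section alg
variable {K : Type} [Field K]

/-- the residual `v - v E` -/
noncomputable def fiD (n : ℕ) (v E : ℕ → K) : ℕ → K :=
  tabF n (fun a => v a - ∑ i ∈ range n, v i * E (i * n + a))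

/-- the coefficients `v R` -/
noncomputable def fiC (n : ℕ) (v R : ℕ → K) : ℕ → K :=
  tabF n (fun k => ∑ i ∈ range n, v i * R (i * n + k))

open Classical in
/-- the pivot: an index with `d i ≠ 0`, or `n` -/
noncomputable def fiP (n : ℕ) (d : ℕ → K) : ℕ :=
  iterF n n (fun s i => if d i = 0 then s else i)

/-- the new projector -/
noncomputable def fiE (n p : ℕ) (d E : ℕ → K) : ℕ → K :=
  tabF (n * n) (fun N => E N + ((if N / n = p then 1 else 0) - E (N / n * n + p)) *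
    (d (N % n) / d p))

/-- the new coefficient matrix -/
noncomputable def fiR (n p m : ℕ) (d c E R : ℕ → K) : ℕ → K :=
  tabF (n * n) (fun N => R N + ((if N / n = p then 1 else 0) - E (N / n * n + p)) *
    (((if N % n = m then 1 else 0) - c (N % n)) / d p))

/-- the coefficients of `X^j` modulo `gmon n g`, for `j ≤ n` -/
noncomputable def fiV (n : ℕ) (g : ℕ → K) (j : ℕ) : ℕ → K :=
  tabF n (fun i => if j < n then (if i = j then 1 else 0) else -g i)

/-- writing block number `j` -/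
noncomputable def fiB (n j l m : ℕ) (c S : ℕ → K) : ℕ → K :=
  tabF ((n + 1) * (n + 1)) (fun N => if N / (n + 1) = j then
    (if N % (n + 1) < l then -c (m - l + N % (n + 1)) else if N % (n + 1) = l then 1 else 0)
    else S N)

/-- the state `(E, R, v, S, j, l, m)` -/
abbrev FISt : Ty := .prod .arr (.prod .arr (.prod .arr (.prod .arr (.prod .nat (.prod .nat .nat)))))

/-- one round, with the residual, the coefficients and the pivot given -/
noncomputable def fiStep2 (n : ℕ) (g H : ℕ → K) (s : FISt.val K) (d c : ℕ → K) (p : ℕ) :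
    FISt.val K :=
  if n < s.2.2.2.2.1 then s
  else if p < n then
    (fiE n p d s.1, (fiR n p s.2.2.2.2.2.2 d c s.1 s.2.1, (mulmod n g H s.2.2.1,
      (s.2.2.2.1, (s.2.2.2.2.1, (s.2.2.2.2.2.1 + 1, s.2.2.2.2.2.2 + 1))))))
  else
    (s.1, (s.2.1, (fiV n g (s.2.2.2.2.1 + 1),
      (fiB n s.2.2.2.2.1 s.2.2.2.2.2.1 s.2.2.2.2.2.2 c s.2.2.2.1,
        (s.2.2.2.2.1 + 1, (0, s.2.2.2.2.2.2))))))

/-- one round -/
noncomputable def fiStep (n : ℕ) (g H : ℕ → K) (s : FISt.val K) : FISt.val K :=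
  fiStep2 n g H s (fiD n s.2.2.1 s.1) (fiC n s.2.2.1 s.2.1) (fiP n (fiD n s.2.2.1 s.1))

/-- the beginning -/
noncomputable def fiInit (n : ℕ) (g : ℕ → K) : FISt.val K :=
  (tabF 0 (fun _ => 0), (tabF 0 (fun _ => 0), (fiV n g 0, (tabF 0 (fun _ => 0), (0, (0, 0))))))

/-- the state after `t` rounds -/
noncomputable def fiRun (n : ℕ) (g H : ℕ → K) (t : ℕ) : FISt.val K :=
  iterF t (fiInit n g) (fun s _ => fiStep n g H s)

theorem fiP_aux (n : ℕ) (d : ℕ → K) (k : ℕ) :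
    open Classical in
    (iterF k n (fun s i => if d i = 0 then s else i) = n ∧ ∀ i < k, d i = 0) ∨
    (iterF k n (fun s i => if d i = 0 then s else i) < k ∧
      d (iterF k n (fun s i => if d i = 0 then s else i)) ≠ 0) := by
  classical
  induction k with
  | zero => left; simp
  | succ k ih =>
    rw [iterF_succ]
    by_cases h : d k = 0
    · rw [if_pos h]
      rcases ih with ⟨h1, h2⟩ | ⟨h1, h2⟩
      · left
        refine ⟨h1, fun i hi => ?_⟩
        rcases Nat.lt_succ_iff_lt_or_eq.1 hi with h3 | h3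
        · exact h2 i h3
        · rw [h3]; exact h
      · right
        exact ⟨by omega, h2⟩
    · rw [if_neg h]
      right
      exact ⟨by omega, h⟩

theorem fiP_spec (n : ℕ) (d : ℕ → K) :
    (fiP n d = n ∧ ∀ i < n, d i = 0) ∨ (fiP n d < n ∧ d (fiP n d) ≠ 0) := fiP_aux n d n

end alg

/-! ### costs -/

section cost

theorem fiP_rlz : RlzQ (a := .prod .nat .arr) (b := .nat)
    (fun K _ x => fiP x.1 x.2) (fun _ _ x => x.1) := by
  classical
  have hf : RlzQ (a := .prod (.prod (.prod .nat .arr) .nat) .nat)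
      (b := .nat) (fun K _ x => if (x.1.1.2 : ℕ → K) x.2 = 0 then x.1.2 else x.2)
      (fun _ _ _ => 0) := by
    apply RlzQ.mono
    case h =>
      apply_rules [RlzQ.iteZero, RlzQ.get, RlzQ.fst, RlzQ.snd, RlzQ.input]
    case A => exact 1
    case hc => intro K _ x; simp
  have := RlzQ.iterB (a := .prod .nat .arr) (b := .nat)
    (N := fun K _ x => x.1) (S := fun K _ x => x.1)
    (f := fun K _ x s i => if (x.2 : ℕ → K) i = 0 then s else i)
    (RlzQ.fst RlzQ.input) (RlzQ.fst RlzQ.input) hf 1 (by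
      intro K _ x i hi
      rw [pow_one]
      have hi' : i ≤ x.1 := hi
      have h1 : (iterF i x.1 (fun s i => if (x.2 : ℕ → K) i = 0 then s
          else i) : ℕ) ≤ x.1 := by
        rcases fiP_aux x.1 (x.2 : ℕ → K) i with h | h
        · exact h.1.le
        · exact (Nat.le_of_lt h.1).trans hi'
      have h2 : x.1 ≤ Ty.nmx K (.prod .nat .arr) x := le_max_left _ _
      show (iterF i x.1 (fun s i => if (x.2 : ℕ → K) i = 0 then s
          else i) : ℕ) ≤ _
      omega)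
  refine (this.congr (fun K _ x => ?_)).mono 1 (fun K _ x => by simp)
  unfold fiP
  congr 1

/-- `(n, (v, E)) ↦ v - v E` -/
theorem fiD_rlz : RlzQ (a := .prod .nat (.prod .arr .arr)) (b := .arr)
    (fun K _ x => fiD x.1 x.2.1 x.2.2) (fun _ _ x => x.1 ^ 2) := by
  have hs : RlzQ (a := .prod (.prod .nat (.prod .arr .arr)) .nat) (b := .fld)
      (fun K _ x => ∑ i ∈ range x.1.1, (x.1.2.1 : ℕ → K) i * (x.1.2.2 : ℕ → K) (i * x.1.1 + x.2))
      (fun _ _ x => x.1.1) := by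
    apply RlzQ.mono
    case h =>
      apply RlzQ.sum
      case hN => exact RlzQ.fst (RlzQ.fst RlzQ.input)
      case hf =>
        apply_rules [RlzQ.fmul, RlzQ.get, RlzQ.add, RlzQ.mul, RlzQ.fst, RlzQ.snd, RlzQ.input]
    case A => exact 1
    case hc => intro K _ x; simp
  have he : RlzQ (a := .prod (.prod .nat (.prod .arr .arr)) .nat) (b := .fld)
      (fun K _ x => (x.1.2.1 : ℕ → K) x.2 -
        ∑ i ∈ range x.1.1, (x.1.2.1 : ℕ → K) i * (x.1.2.2 : ℕ → K) (i * x.1.1 + x.2))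
      (fun _ _ x => x.1.1) := by
    have h0 : RlzQ (a := .prod (.prod .nat (.prod .arr .arr)) .nat) (b := .fld)
        (fun K _ x => (x.1.2.1 : ℕ → K) x.2) (fun _ _ _ => 0) :=
      (RlzQ.get (RlzQ.fst (RlzQ.snd (RlzQ.fst RlzQ.input))) (RlzQ.snd RlzQ.input)).mono 1
        (fun K _ x => by simp)
    exact (RlzQ.fsub h0 hs).mono 1 (fun K _ x => by simp)
  have := RlzQ.tab (a := .prod .nat (.prod .arr .arr)) (f := fun K _ (x : Ty.val K (.prod .nat (.prod .arr .arr))) a =>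
    (x.2.1 : ℕ → K) a - ∑ i ∈ range x.1, (x.2.1 : ℕ → K) i * (x.2.2 : ℕ → K) (i * x.1 + a))
    (N := fun K _ x => x.1) (RlzQ.fst RlzQ.input) he
  refine this.mono 2 (fun K _ x => ?_)
  simp only [Finset.sum_const, Finset.card_range, smul_eq_mul, zero_add]
  nlinarith [Nat.zero_le x.1]

/-- `(n, (v, R)) ↦ v R` -/
theorem fiC_rlz : RlzQ (a := .prod .nat (.prod .arr .arr)) (b := .arr)
    (fun K _ x => fiC x.1 x.2.1 x.2.2) (fun _ _ x => x.1 ^ 2) := by
  have hs : RlzQ (a := .prod (.prod .nat (.prod .arr .arr)) .nat) (b := .fld)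
      (fun K _ x => ∑ i ∈ range x.1.1, (x.1.2.1 : ℕ → K) i * (x.1.2.2 : ℕ → K) (i * x.1.1 + x.2))
      (fun _ _ x => x.1.1) := by
    apply RlzQ.mono
    case h =>
      apply RlzQ.sum
      case hN => exact RlzQ.fst (RlzQ.fst RlzQ.input)
      case hf =>
        apply_rules [RlzQ.fmul, RlzQ.get, RlzQ.add, RlzQ.mul, RlzQ.fst, RlzQ.snd, RlzQ.input]
    case A => exact 1
    case hc => intro K _ x; simp
  have := RlzQ.tab (a := .prod .nat (.prod .arr .arr))
    (f := fun K _ (x : Ty.val K (.prod .nat (.prod .arr .arr))) a =>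
    ∑ i ∈ range x.1, (x.2.1 : ℕ → K) i * (x.2.2 : ℕ → K) (i * x.1 + a))
    (N := fun K _ x => x.1) (RlzQ.fst RlzQ.input) hs
  refine this.mono 2 (fun K _ x => ?_)
  simp only [Finset.sum_const, Finset.card_range, smul_eq_mul, zero_add]
  nlinarith [Nat.zero_le x.1]

/-- `(n, (p, (d, E)))` -/
theorem fiE_rlz : RlzQ (a := .prod .nat (.prod .nat (.prod .arr .arr))) (b := .arr)
    (fun _ _ x => fiE x.1 x.2.1 x.2.2.1 x.2.2.2) (fun _ _ x => x.1 ^ 2) := by
  have he : RlzQ (a := .prod (.prod .nat (.prod .nat (.prod .arr .arr))) .nat) (b := .fld)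
      (fun K _ x => (x.1.2.2.2 : ℕ → K) x.2 + ((if (x.2 / x.1.1 : ℕ) = x.1.2.1 then (1 : K) else 0) -
        (x.1.2.2.2 : ℕ → K) (x.2 / x.1.1 * x.1.1 + x.1.2.1)) *
          ((x.1.2.2.1 : ℕ → K) (x.2 % x.1.1) / (x.1.2.2.1 : ℕ → K) x.1.2.1))
      (fun _ _ _ => 0) := by
    apply RlzQ.mono
    case h =>
      apply_rules (maxDepth := 1000) [RlzQ.fadd, RlzQ.fsub, RlzQ.fmul, RlzQ.fdiv, RlzQ.iteEq,
        RlzQ.get, RlzQ.one, RlzQ.zero, RlzQ.add, RlzQ.mul, RlzQ.div, RlzQ.mod, RlzQ.fst, RlzQ.snd,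
        RlzQ.input]
    case A => exact 1
    case hc => intro K _ x; simp
  have hN : RlzQ (a := .prod .nat (.prod .nat (.prod .arr .arr))) (b := .nat)
      (fun K _ x => (x.1 : ℕ) * (x.1 : ℕ)) (fun _ _ _ => 0) :=
    (RlzQ.mul (RlzQ.fst RlzQ.input) (RlzQ.fst RlzQ.input)).mono 1 (fun K _ x => by simp)
  have := RlzQ.tab (a := .prod .nat (.prod .nat (.prod .arr .arr)))
    (f := fun K _ (x : Ty.val K (.prod .nat (.prod .nat (.prod .arr .arr)))) N =>
      (x.2.2.2 : ℕ → K) N + ((if (N / x.1 : ℕ) = x.2.1 then (1 : K) else 0) -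
        (x.2.2.2 : ℕ → K) (N / x.1 * x.1 + x.2.1)) *
          ((x.2.2.1 : ℕ → K) (N % x.1) / (x.2.2.1 : ℕ → K) x.2.1)) hN he
  refine this.mono 2 (fun K _ x => ?_)
  simp only [Finset.sum_const_zero, zero_add, add_zero]
  nlinarith [Nat.zero_le x.1]

/-- `(n, (p, (m, (d, (c, (E, R))))))` -/
theorem fiR_rlz : RlzQ (a := .prod .nat (.prod .nat (.prod .nat (.prod .arr (.prod .arr
    (.prod .arr .arr)))))) (b := .arr)
    (fun _ _ x => fiR x.1 x.2.1 x.2.2.1 x.2.2.2.1 x.2.2.2.2.1 x.2.2.2.2.2.1 x.2.2.2.2.2.2)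
    (fun _ _ x => x.1 ^ 2) := by
  have he : RlzQ (a := .prod (.prod .nat (.prod .nat (.prod .nat (.prod .arr (.prod .arr
      (.prod .arr .arr)))))) .nat) (b := .fld)
      (fun K _ x => (x.1.2.2.2.2.2.2 : ℕ → K) x.2 +
        ((if (x.2 / x.1.1 : ℕ) = x.1.2.1 then (1 : K) else 0) -
        (x.1.2.2.2.2.2.1 : ℕ → K) (x.2 / x.1.1 * x.1.1 + x.1.2.1)) *
          (((if (x.2 % x.1.1 : ℕ) = x.1.2.2.1 then (1 : K) else 0) -
            (x.1.2.2.2.2.1 : ℕ → K) (x.2 % x.1.1)) / (x.1.2.2.2.1 : ℕ → K) x.1.2.1))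
      (fun _ _ _ => 0) := by
    apply RlzQ.mono
    case h =>
      apply_rules (maxDepth := 1000) [RlzQ.fadd, RlzQ.fsub, RlzQ.fmul, RlzQ.fdiv, RlzQ.iteEq,
        RlzQ.get, RlzQ.one, RlzQ.zero, RlzQ.add, RlzQ.mul, RlzQ.div, RlzQ.mod, RlzQ.fst, RlzQ.snd,
        RlzQ.input]
    case A => exact 1
    case hc => intro K _ x; simp
  have hN : RlzQ (a := .prod .nat (.prod .nat (.prod .nat (.prod .arr (.prod .arr
      (.prod .arr .arr)))))) (b := .nat)
      (fun K _ x => (x.1 : ℕ) * (x.1 : ℕ)) (fun _ _ _ => 0) :=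
    (RlzQ.mul (RlzQ.fst RlzQ.input) (RlzQ.fst RlzQ.input)).mono 1 (fun K _ x => by simp)
  have := RlzQ.tab (a := .prod .nat (.prod .nat (.prod .nat (.prod .arr (.prod .arr
      (.prod .arr .arr))))))
    (f := fun K _ (x : Ty.val K (.prod .nat (.prod .nat (.prod .nat (.prod .arr (.prod .arr
      (.prod .arr .arr))))))) N =>
      (x.2.2.2.2.2.2 : ℕ → K) N + ((if (N / x.1 : ℕ) = x.2.1 then (1 : K) else 0) -
        (x.2.2.2.2.2.1 : ℕ → K) (N / x.1 * x.1 + x.2.1)) *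
          (((if (N % x.1 : ℕ) = x.2.2.1 then (1 : K) else 0) -
            (x.2.2.2.2.1 : ℕ → K) (N % x.1)) / (x.2.2.2.1 : ℕ → K) x.2.1)) hN he
  refine this.mono 2 (fun K _ x => ?_)
  simp only [Finset.sum_const_zero, zero_add, add_zero]
  nlinarith [Nat.zero_le x.1]

/-- `(n, (g, j))` -/
theorem fiV_rlz : RlzQ (a := .prod .nat (.prod .arr .nat)) (b := .arr)
    (fun _ _ x => fiV x.1 x.2.1 x.2.2) (fun _ _ x => x.1) := by
  have he : RlzQ (a := .prod (.prod .nat (.prod .arr .nat)) .nat) (b := .fld)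
      (fun K _ x => if (x.1.2.2 : ℕ) < x.1.1 then (if (x.2 : ℕ) = x.1.2.2 then (1 : K) else 0) else
        -(x.1.2.1 : ℕ → K) x.2) (fun _ _ _ => 0) := by
    apply RlzQ.mono
    case h =>
      apply_rules (maxDepth := 1000) [RlzQ.iteLt, RlzQ.iteEq, RlzQ.fneg, RlzQ.get, RlzQ.one,
        RlzQ.zero, RlzQ.fst, RlzQ.snd, RlzQ.input]
    case A => exact 1
    case hc => intro K _ x; simp
  have := RlzQ.tab (a := .prod .nat (.prod .arr .nat))
    (f := fun K _ (x : Ty.val K (.prod .nat (.prod .arr .nat))) i =>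
      if (x.2.2 : ℕ) < x.1 then (if (i : ℕ) = x.2.2 then (1 : K) else 0) else
        -(x.2.1 : ℕ → K) i) (N := fun K _ x => x.1) (RlzQ.fst RlzQ.input) he
  exact this.mono 1 (fun K _ x => by simp)

/-- `(n, (j, (l, (m, (c, S)))))` -/
theorem fiB_rlz : RlzQ (a := .prod .nat (.prod .nat (.prod .nat (.prod .nat (.prod .arr .arr)))))
    (b := .arr) (fun _ _ x => fiB x.1 x.2.1 x.2.2.1 x.2.2.2.1 x.2.2.2.2.1 x.2.2.2.2.2)
    (fun _ _ x => (x.1 + 1) ^ 2) := by
  have he : RlzQ (a := .prod (.prod .nat (.prod .nat (.prod .nat (.prod .nat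
      (.prod .arr .arr))))) .nat) (b := .fld)
      (fun K _ x => if (x.2 / (x.1.1 + 1) : ℕ) = x.1.2.1 then
        (if (x.2 % (x.1.1 + 1) : ℕ) < x.1.2.2.1 then
          -(x.1.2.2.2.2.1 : ℕ → K) (x.1.2.2.2.1 - x.1.2.2.1 + x.2 % (x.1.1 + 1)) else
            if (x.2 % (x.1.1 + 1) : ℕ) = x.1.2.2.1 then (1 : K) else 0)
        else (x.1.2.2.2.2.2 : ℕ → K) x.2) (fun _ _ _ => 0) := by
    apply RlzQ.mono
    case h =>
      apply_rules (maxDepth := 1000) [RlzQ.iteLt, RlzQ.iteEq, RlzQ.fneg, RlzQ.get, RlzQ.one,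
        RlzQ.zero, RlzQ.add, RlzQ.sub, RlzQ.mul, RlzQ.div, RlzQ.mod, RlzQ.fst, RlzQ.snd,
        RlzQ.input, RlzQ.lit]
    case A => exact 1
    case hc => intro K _ x; simp
  have hN : RlzQ (a := .prod .nat (.prod .nat (.prod .nat (.prod .nat (.prod .arr .arr)))))
      (b := .nat) (fun K _ x => (x.1 + 1 : ℕ) * (x.1 + 1 : ℕ)) (fun _ _ _ => 0) := by
    apply RlzQ.mono
    case h => apply_rules [RlzQ.mul, RlzQ.add, RlzQ.lit, RlzQ.fst, RlzQ.input]
    case A => exact 1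
    case hc => intro K _ x; simp
  have := RlzQ.tab (a := .prod .nat (.prod .nat (.prod .nat (.prod .nat (.prod .arr .arr)))))
    (f := fun K _ (x : Ty.val K (.prod .nat (.prod .nat (.prod .nat (.prod .nat
      (.prod .arr .arr)))))) N =>
      if (N / (x.1 + 1) : ℕ) = x.2.1 then
        (if (N % (x.1 + 1) : ℕ) < x.2.2.1 then
          -(x.2.2.2.2.1 : ℕ → K) (x.2.2.2.1 - x.2.2.1 + N % (x.1 + 1)) else
            if (N % (x.1 + 1) : ℕ) = x.2.2.1 then (1 : K) else 0)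
        else (x.2.2.2.2.2 : ℕ → K) N) hN he
  refine this.mono 2 (fun K _ x => ?_)
  simp only [Finset.sum_const_zero, zero_add, add_zero]
  nlinarith [Nat.zero_le x.1]

/-- the input of `fiStep2`: `((((n, (g, H)), s), (d, c)), p)` -/
abbrev FITy0 : Ty := .prod .nat (.prod .arr .arr)

abbrev FITy1 : Ty := .prod FITy0 FISt

abbrev FITy2 : Ty := .prod FITy1 (.prod .arr .arr)

abbrev FITy3 : Ty := .prod FITy2 .nat

theorem fi_lit0 {a : Ty} : RlzQ (a := a) (b := .nat) (fun _ _ _ => (0 : ℕ)) (fun _ _ _ => 0) :=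
  RlzQ.lit 0

theorem fiStep2_rlz : RlzQ (a := FITy3) (b := FISt)
    (fun _ _ x => fiStep2 x.1.1.1.1 x.1.1.1.2.1 x.1.1.1.2.2 x.1.1.2 x.1.2.1 x.1.2.2 x.2)
    (fun _ _ x => (x.1.1.1.1 + 1) ^ 2) := by
  have hn : RlzQ (a := FITy3) (b := .nat) (fun _ _ x => x.1.1.1.1) (fun _ _ _ => 0) := by
    apply_rules [RlzQ.fst, RlzQ.snd, RlzQ.input]
  have hg : RlzQ (a := FITy3) (b := .arr) (fun _ _ x => x.1.1.1.2.1) (fun _ _ _ => 0) := by
    apply_rules [RlzQ.fst, RlzQ.snd, RlzQ.input]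
  have hH : RlzQ (a := FITy3) (b := .arr) (fun _ _ x => x.1.1.1.2.2) (fun _ _ _ => 0) := by
    apply_rules [RlzQ.fst, RlzQ.snd, RlzQ.input]
  have hs : RlzQ (a := FITy3) (b := FISt) (fun _ _ x => x.1.1.2) (fun _ _ _ => 0) := by
    apply_rules [RlzQ.fst, RlzQ.snd, RlzQ.input]
  have hd : RlzQ (a := FITy3) (b := .arr) (fun _ _ x => x.1.2.1) (fun _ _ _ => 0) := by
    apply_rules [RlzQ.fst, RlzQ.snd, RlzQ.input]
  have hc : RlzQ (a := FITy3) (b := .arr) (fun _ _ x => x.1.2.2) (fun _ _ _ => 0) := by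
    apply_rules [RlzQ.fst, RlzQ.snd, RlzQ.input]
  have hp : RlzQ (a := FITy3) (b := .nat) (fun _ _ x => x.2) (fun _ _ _ => 0) := by
    apply_rules [RlzQ.fst, RlzQ.snd, RlzQ.input]
  have hE := RlzQ.fst hs
  have hR := RlzQ.fst (RlzQ.snd hs)
  have hv := RlzQ.fst (RlzQ.snd (RlzQ.snd hs))
  have hS := RlzQ.fst (RlzQ.snd (RlzQ.snd (RlzQ.snd hs)))
  have hj := RlzQ.fst (RlzQ.snd (RlzQ.snd (RlzQ.snd (RlzQ.snd hs))))
  have hl := RlzQ.fst (RlzQ.snd (RlzQ.snd (RlzQ.snd (RlzQ.snd (RlzQ.snd hs)))))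
  have hm := RlzQ.snd (RlzQ.snd (RlzQ.snd (RlzQ.snd (RlzQ.snd (RlzQ.snd hs)))))
  have kE := RlzQ.comp fiE_rlz (RlzQ.pair hn (RlzQ.pair hp (RlzQ.pair hd hE)))
  have kR := RlzQ.comp fiR_rlz (RlzQ.pair hn (RlzQ.pair hp (RlzQ.pair hm (RlzQ.pair hd
    (RlzQ.pair hc (RlzQ.pair hE hR))))))
  have kv := RlzQ.mulmod hn hg hH hv
  have kV := RlzQ.comp fiV_rlz (RlzQ.pair hn (RlzQ.pair hg (RlzQ.add hj (RlzQ.lit 1))))
  have kB := RlzQ.comp fiB_rlz (RlzQ.pair hn (RlzQ.pair hj (RlzQ.pair hl (RlzQ.pair hm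
    (RlzQ.pair hc hS)))))
  have k1 := RlzQ.pair kE (RlzQ.pair kR (RlzQ.pair kv (RlzQ.pair hS (RlzQ.pair hj
    (RlzQ.pair (RlzQ.add hl (RlzQ.lit 1)) (RlzQ.add hm (RlzQ.lit 1)))))))
  have k2 := RlzQ.pair hE (RlzQ.pair hR (RlzQ.pair kV (RlzQ.pair kB (RlzQ.pair
    (RlzQ.add hj (RlzQ.lit 1)) (RlzQ.pair fi_lit0 hm)))))
  have k3 := RlzQ.iteLt hn hj hs (RlzQ.iteLt hp hn k1 k2)
  refine (k3.congr (fun K _ x => ?_)).mono 6 (fun K _ x => ?_)
  · unfold fiStep2
    rfl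
  · simp only [zero_add, add_zero]
    split_ifs <;> nlinarith [Nat.zero_le x.1.1.1.1]

theorem fiStep_rlz : RlzQ (a := FITy1) (b := FISt)
    (fun _ _ x => fiStep x.1.1 x.1.2.1 x.1.2.2 x.2) (fun _ _ x => (x.1.1 + 1) ^ 2) := by
  have hn : RlzQ (a := FITy1) (b := .nat) (fun _ _ x => x.1.1) (fun _ _ _ => 0) := by
    apply_rules [RlzQ.fst, RlzQ.snd, RlzQ.input]
  have hs : RlzQ (a := FITy1) (b := FISt) (fun _ _ x => x.2) (fun _ _ _ => 0) := by
    apply_rules [RlzQ.fst, RlzQ.snd, RlzQ.input]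
  have hE := RlzQ.fst hs
  have hR := RlzQ.fst (RlzQ.snd hs)
  have hv := RlzQ.fst (RlzQ.snd (RlzQ.snd hs))
  have kd := RlzQ.comp fiD_rlz (RlzQ.pair hn (RlzQ.pair hv hE))
  have kc := RlzQ.comp fiC_rlz (RlzQ.pair hn (RlzQ.pair hv hR))
  have hn2 : RlzQ (a := FITy2) (b := .nat) (fun _ _ x => x.1.1.1) (fun _ _ _ => 0) := by
    apply_rules [RlzQ.fst, RlzQ.snd, RlzQ.input]
  have hd2 : RlzQ (a := FITy2) (b := .arr) (fun _ _ x => x.2.1) (fun _ _ _ => 0) := by
    apply_rules [RlzQ.fst, RlzQ.snd, RlzQ.input]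
  have kp := RlzQ.comp fiP_rlz (RlzQ.pair hn2 hd2)
  have k1 := RlzQ.letIn fiStep2_rlz kp
  have k2 := RlzQ.letIn k1 (RlzQ.pair kd kc)
  refine (k2.congr (fun K _ x => ?_)).mono 6 (fun K _ x => ?_)
  · unfold fiStep
    rfl
  · simp only [zero_add, add_zero]
    nlinarith [Nat.zero_le x.1.1]

theorem fiInit_rlz : RlzQ (a := FITy0) (b := FISt)
    (fun _ _ x => fiInit x.1 x.2.1) (fun _ _ x => x.1) := by
  have hz : RlzQ (a := FITy0) (b := .arr) (fun _ _ _ => tabF 0 (fun _ => 0)) (fun _ _ _ => 0) := by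
    have := RlzQ.tab (a := FITy0) (f := fun _ _ _ _ => 0) (N := fun _ _ _ => 0) fi_lit0
      (RlzQ.zero)
    exact this.mono 1 (fun K _ x => by simp)
  have hn : RlzQ (a := FITy0) (b := .nat) (fun _ _ x => x.1) (fun _ _ _ => 0) := by
    apply_rules [RlzQ.fst, RlzQ.snd, RlzQ.input]
  have hg : RlzQ (a := FITy0) (b := .arr) (fun _ _ x => x.2.1) (fun _ _ _ => 0) := by
    apply_rules [RlzQ.fst, RlzQ.snd, RlzQ.input]
  have kV := RlzQ.comp fiV_rlz (RlzQ.pair hn (RlzQ.pair hg fi_lit0))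
  have k := RlzQ.pair hz (RlzQ.pair hz (RlzQ.pair kV (RlzQ.pair hz (RlzQ.pair fi_lit0
    (RlzQ.pair fi_lit0 fi_lit0)))))
  refine (k.congr (fun K _ x => ?_)).mono 1 (fun K _ x => ?_)
  · rfl
  · omega

theorem fiRun_nat {K : Type} [Field K] (n : ℕ) (g H : ℕ → K) (t : ℕ) :
    (fiRun n g H t).2.2.2.2.1 ≤ t ∧ (fiRun n g H t).2.2.2.2.2.1 ≤ t ∧
      (fiRun n g H t).2.2.2.2.2.2 ≤ t := by
  induction t with
  | zero => exact ⟨le_rfl, le_rfl, le_rfl⟩
  | succ t ih =>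
    have e : fiRun n g H (t + 1) = fiStep n g H (fiRun n g H t) := rfl
    rw [e]
    unfold fiStep fiStep2
    obtain ⟨h1, h2, h3⟩ := ih
    split_ifs
    · exact ⟨Nat.le_succ_of_le h1, Nat.le_succ_of_le h2, Nat.le_succ_of_le h3⟩
    · exact ⟨Nat.le_succ_of_le h1, Nat.succ_le_succ h2, Nat.succ_le_succ h3⟩
    · exact ⟨Nat.succ_le_succ h1, Nat.zero_le _, Nat.le_succ_of_le h3⟩

theorem fiRun_rlz : RlzQ (a := FITy0) (b := .arr)
    (fun _ _ x => (fiRun x.1 x.2.1 x.2.2 (2 * x.1 + 1)).2.2.2.1)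
    (fun _ _ x => (x.1 + 1) ^ 3) := by
  have hN : RlzQ (a := FITy0) (b := .nat) (fun _ _ x => 2 * x.1 + 1) (fun _ _ _ => 0) := by
    apply RlzQ.mono
    case h => apply_rules [RlzQ.mul, RlzQ.add, RlzQ.lit, RlzQ.fst, RlzQ.input]
    case A => exact 1
    case hc => intro K _ x; simp
  have hf : RlzQ (a := .prod (.prod FITy0 FISt) .nat) (b := FISt)
      (fun K _ x => fiStep x.1.1.1 x.1.1.2.1 x.1.1.2.2 x.1.2) (fun _ _ x => (x.1.1.1 + 1) ^ 2) :=
    (RlzQ.comp fiStep_rlz (RlzQ.fst RlzQ.input)).mono 1 (fun K _ x => by simp)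
  have := RlzQ.iterB (a := FITy0) (b := FISt) (N := fun K _ x => 2 * x.1 + 1)
    (S := fun K _ x => fiInit x.1 x.2.1)
    (f := fun K _ x s _ => fiStep x.1 x.2.1 x.2.2 s) hN fiInit_rlz hf 1 (by
      intro K _ x i hi
      rw [pow_one]
      have hi' : i ≤ 2 * x.1 + 1 := hi
      obtain ⟨h1, h2, h3⟩ := fiRun_nat x.1 x.2.1 x.2.2 i
      have h4 : Ty.nmx K FISt (fiRun x.1 x.2.1 x.2.2 i) ≤ i := by
        simp only [Ty.nmx]
        simp only [Nat.zero_max]
        exact max_le h1 (max_le h2 h3)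
      have h5 : Ty.nmx K FISt (iterF i (fiInit x.1 x.2.1) (fun s _ => fiStep x.1 x.2.1 x.2.2 s)) ≤
        i := h4
      have h6 : ∀ a b c d : ℕ, a ≤ 0 + b + a + c + d + 2 := by intros; omega
      exact h5.trans (hi'.trans (h6 _ _ _ _)))
  refine ((RlzQ.fst (RlzQ.snd (RlzQ.snd (RlzQ.snd this)))).congr (fun K _ x => ?_)).mono 4
    (fun K _ x => ?_)
  · rfl
  · have h1 : ∑ i ∈ range (2 * x.1 + 1), (x.1 + 1) ^ 2 = (2 * x.1 + 1) * (x.1 + 1) ^ 2 := by
      rw [Finset.sum_const, Finset.card_range, smul_eq_mul]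
    simp only [h1]
    nlinarith [Nat.zero_le x.1, Nat.zero_le (x.1 ^ 2), Nat.zero_le (x.1 ^ 3)]

end cost

/-! ### correctness -/

section corr
variable {K : Type} [Field K]

theorem fi_gmon (n : ℕ) (g : ℕ → K) : (gmon n g).Monic ∧ (gmon n g).natDegree = n := by
  have h : (∑ i ∈ range n, monomial i (g i)).degree < (n : WithBot ℕ) := by
    rw [Polynomial.degree_lt_iff_coeff_zero]
    intro m hm
    rw [finsetSum_coeff]
    refine Finset.sum_eq_zero fun i hi => ?_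
    rw [coeff_monomial, if_neg (by have := mem_range.1 hi; omega)]
  unfold gmon
  refine ⟨Polynomial.monic_X_pow_add h, ?_⟩
  apply Polynomial.natDegree_eq_of_degree_eq_some
  rw [Polynomial.degree_add_eq_left_of_degree_lt]
  · exact Polynomial.degree_X_pow n
  · rw [Polynomial.degree_X_pow]
    exact h

theorem fi_gmon_deg (n : ℕ) (g : ℕ → K) : (gmon n g).degree = (n : WithBot ℕ) := by
  rw [Polynomial.degree_eq_natDegree (fi_gmon n g).1.ne_zero, (fi_gmon n g).2]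

theorem fiV_eq {n : ℕ} (g : ℕ → K) {j : ℕ} (hj : j ≤ n) {a : ℕ} (ha : a < n) :
    fiV n g j a = (X ^ j %ₘ gmon n g).coeff a := by
  unfold fiV tabF
  rw [if_pos ha]
  beta_reduce
  rcases Nat.lt_or_ge j n with hj' | hj'
  · have h1 : (X ^ j %ₘ gmon n g : K[X]) = X ^ j := by
      rw [Polynomial.modByMonic_eq_self_iff (fi_gmon n g).1, fi_gmon_deg, Polynomial.degree_X_pow]
      exact_mod_cast hj'
    rw [h1, coeff_X_pow, if_pos hj']
  · have hjn : j = n := by omega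
    subst hjn
    have h2 : (-∑ i ∈ range j, monomial i (g i) : K[X]).degree < (j : WithBot ℕ) := by
      rw [Polynomial.degree_neg, Polynomial.degree_lt_iff_coeff_zero]
      intro m hm
      rw [finsetSum_coeff]
      refine Finset.sum_eq_zero fun i hi => ?_
      rw [coeff_monomial, if_neg (by have := mem_range.1 hi; omega)]
    have h1 : (X ^ j %ₘ gmon j g : K[X]) = -∑ i ∈ range j, monomial i (g i) := by
      have h3 : (X ^ j %ₘ gmon j g : K[X]) = (-∑ i ∈ range j, monomial i (g i)) %ₘ gmon j g := by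
        apply Polynomial.modByMonic_eq_of_dvd_sub (fi_gmon j g).1
        rw [sub_neg_eq_add]
        exact dvd_refl _
      rw [h3, Polynomial.modByMonic_eq_self_iff (fi_gmon j g).1, fi_gmon_deg]
      exact h2
    rw [h1, if_neg (by omega), coeff_neg, finsetSum_coeff]
    simp only [coeff_monomial]
    rw [Finset.sum_ite_eq' (range j) a g, if_pos (mem_range.2 ha)]

theorem fi_mulmod {n : ℕ} (g H v : ℕ → K) {A : K[X]}
    (hv : ∀ a < n, v a = (A %ₘ gmon n g).coeff a) {a : ℕ} (ha : a < n) :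
    mulmod n g H v a = ((apol n H * A) %ₘ gmon n g).coeff a := by
  have h1 : apol n v = A %ₘ gmon n g := by
    ext k
    unfold apol
    rw [finsetSum_coeff]
    simp only [coeff_monomial]
    rw [Finset.sum_ite_eq' (range n) k v]
    by_cases hk : k < n
    · rw [if_pos (mem_range.2 hk), hv k hk]
    · rw [if_neg (fun h => hk (mem_range.1 h))]
      symm
      apply Polynomial.coeff_eq_zero_of_degree_lt
      refine (Polynomial.degree_modByMonic_lt A (fi_gmon n g).1).trans_le ?_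
      rw [fi_gmon_deg]
      exact_mod_cast (by omega : n ≤ k)
  have h2 : (apol n H * (A %ₘ gmon n g)) %ₘ gmon n g = (apol n H * A) %ₘ gmon n g := by
    apply Polynomial.modByMonic_eq_of_dvd_sub (fi_gmon n g).1
    have h3 := Polynomial.modByMonic_add_div A (gmon n g)
    have h4 : apol n H * (A %ₘ gmon n g) - apol n H * A =
        gmon n g * (-(apol n H * (A /ₘ gmon n g))) := by
      conv_lhs => rw [← h3]
      rw [h3]
      have h5 : A %ₘ gmon n g = A - gmon n g * (A /ₘ gmon n g) := by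
        rw [eq_sub_iff_add_eq]; exact h3
      rw [h5]; ring
    rw [h4]
    exact dvd_mul_right _ _
  unfold mulmod tabF
  rw [if_pos ha]
  beta_reduce
  rw [h1, h2]

theorem fi_blk_coeff (w : ℕ) (A : ℕ → K) (c i : ℕ) :
    (blk w A c).coeff i = if i < w then A (c * w + i) else 0 := by
  unfold blk
  rw [finsetSum_coeff]
  simp only [coeff_monomial]
  rw [Finset.sum_ite_eq' (range w) i (fun i => A (c * w + i))]
  simp only [mem_range]

theorem fi_idx {n i a : ℕ} (hi : i < n) (ha : a < n) :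
    i * n + a < n * n ∧ (i * n + a) / n = i ∧ (i * n + a) % n = a := by
  have hn : 0 < n := by omega
  refine ⟨?_, ?_, ?_⟩
  · calc i * n + a < i * n + n := by omega
      _ = (i + 1) * n := by ring
      _ ≤ n * n := Nat.mul_le_mul_right _ hi
  · rw [mul_comm, Nat.mul_add_div hn, Nat.div_eq_of_lt ha, add_zero]
  · rw [mul_comm, Nat.mul_add_mod, Nat.mod_eq_of_lt ha]

theorem fiB_blk_lt {n j l m : ℕ} (c S : ℕ → K) {i : ℕ} (hj : j ≤ n) (hi : i < j) :
    blk (n + 1) (fiB n j l m c S) i = blk (n + 1) S i := by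
  ext k
  rw [fi_blk_coeff, fi_blk_coeff]
  by_cases hk : k < n + 1
  · rw [if_pos hk, if_pos hk]
    obtain ⟨h1, h2, h3⟩ := fi_idx (n := n + 1) (i := i) (a := k) (by omega) hk
    unfold fiB tabF
    rw [if_pos h1]
    beta_reduce
    rw [h2, if_neg (by omega)]
  · rw [if_neg hk, if_neg hk]

theorem fiB_blk_eq {n j l m : ℕ} (c S : ℕ → K) (hj : j ≤ n) (hl : l ≤ n) :
    blk (n + 1) (fiB n j l m c S) j = fiS l m c := by
  ext k
  have hc : (fiS l m c).coeff k = (if k = l then 1 else 0) - (if k < l then c (m - l + k) else 0)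
      := by
    unfold fiS
    rw [coeff_sub, coeff_X_pow, finsetSum_coeff]
    simp only [coeff_C_mul, coeff_X_pow, mul_ite, mul_one, mul_zero]
    rw [Finset.sum_ite_eq (range l) k (fun i => c (m - l + i))]
    simp only [mem_range]
  rw [fi_blk_coeff, hc]
  by_cases hk : k < n + 1
  · rw [if_pos hk]
    obtain ⟨h1, h2, h3⟩ := fi_idx (n := n + 1) (i := j) (a := k) (by omega) hk
    unfold fiB tabF
    rw [if_pos h1]
    beta_reduce
    rw [h2, h3, if_pos rfl]
    by_cases h4 : k < l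
    · rw [if_pos h4, if_pos h4, if_neg (show ¬ k = l by omega), zero_sub]
    · rw [if_neg h4, if_neg h4, sub_zero]
  · rw [if_neg hk, if_neg (show ¬ k = l by omega), if_neg (show ¬ k < l by omega), sub_zero]

/-- the invariant of the loop -/
structure FInv (n : ℕ) (g H : ℕ → K) (t : ℕ) (E R v S : ℕ → K) (j l m : ℕ) (w : ℕ → K[X]) :
    Prop where
  ins : Ins n m (fun i a => E (i * n + a)) (fun i k => R (i * n + k))
    (fun k a => (w k %ₘ gmon n g).coeff a)
  fiw : FIW (gmon n g) (apol n H) j l m w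
  mn : m ≤ n
  jn : j ≤ n + 1
  jt : j ≤ n → j + m = t
  jl : n < j → l = 0
  sum : ∑ i ∈ range j, (blk (n + 1) S i).natDegree + l = m
  good : ∀ i < j, FIGood (gmon n g) (apol n H) i (blk (n + 1) S i)
  vv : j ≤ n → ∀ a < n, v a = ((apol n H ^ l * X ^ j) %ₘ gmon n g).coeff a

theorem fi_step_a {n : ℕ} {g H : ℕ → K} {t : ℕ} {E R v S : ℕ → K} {j l m : ℕ} {w : ℕ → K[X]}
    (h : FInv n g H t E R v S j l m w) (hj : j ≤ n) {d c : ℕ → K}
    (hda : ∀ a < n, d a = v a - ∑ i ∈ range n, v i * E (i * n + a))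
    (hca : ∀ k < n, c k = ∑ i ∈ range n, v i * R (i * n + k)) (hd0 : ∀ a < n, d a = 0) :
    FInv n g H (t + 1) E R (fiV n g (j + 1)) (fiB n j l m c S) (j + 1) 0 m w := by
  obtain ⟨hG, hGn⟩ := fi_gmon n g
  have hv := h.vv hj
  have hlm := h.fiw.le
  have hmn := h.mn
  have hjt := h.jt hj
  have hdvd : gmon n g ∣ apol n H ^ l * X ^ j - ∑ k ∈ range m, C (c k) * w k := by
    rw [fi_dvd_iff hG hGn]
    intro a ha
    have h1 := h.ins.ve v ha
    have h2 := hda a ha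
    rw [hd0 a ha] at h2
    rw [← hv a ha, sub_eq_zero.1 h2.symm]
    refine h1.trans (Finset.sum_congr rfl fun k hk => ?_)
    rw [hca k (by have := mem_range.1 hk; omega)]
  refine ⟨h.ins, fi_next h.fiw hdvd, hmn, by omega, fun _ => by omega, fun _ => rfl, ?_, ?_, ?_⟩
  · rw [Finset.sum_range_succ, fiB_blk_eq c S hj (by omega), fiS_natDegree, add_zero, ← h.sum]
    congr 1
    exact Finset.sum_congr rfl fun i hi => by rw [fiB_blk_lt c S hj (mem_range.1 hi)]
  · intro i hi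
    rcases Nat.lt_succ_iff_lt_or_eq.1 hi with hi' | hi'
    · rw [fiB_blk_lt c S hj hi']
      exact h.good i hi'
    · rw [hi', fiB_blk_eq c S hj (by omega)]
      exact fi_good hG hGn h.ins h.fiw hdvd
  · intro hj1 a ha
    rw [fiV_eq g hj1 ha, pow_zero, one_mul]

theorem fi_step_b {n : ℕ} {g H : ℕ → K} {t : ℕ} {E R v S : ℕ → K} {j l m : ℕ} {w : ℕ → K[X]}
    (h : FInv n g H t E R v S j l m w) (hj : j ≤ n) {d c : ℕ → K}
    (hda : ∀ a < n, d a = v a - ∑ i ∈ range n, v i * E (i * n + a))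
    (hca : ∀ k < n, c k = ∑ i ∈ range n, v i * R (i * n + k)) {p : ℕ} (hp : p < n)
    (hdp : d p ≠ 0) :
    ∃ w', FInv n g H (t + 1) (fiE n p d E) (fiR n p m d c E R) (mulmod n g H v) S j (l + 1) (m + 1)
      w' := by
  have hv := h.vv hj
  have hlm := h.fiw.le
  have hjt := h.jt hj
  have hmn : m < n := by
    apply h.ins.lt h.mn hp (v := v)
    rw [← hda p hp]
    exact hdp
  have hu : Function.update w m (apol n H ^ l * X ^ j) m = apol n H ^ l * X ^ j :=
    Function.update_self _ _ _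
  have hu2 : ∀ k < m, Function.update w m (apol n H ^ l * X ^ j) k = w k := fun k hk =>
    Function.update_of_ne (by omega) _ _
  refine ⟨Function.update w m (apol n H ^ l * X ^ j), ?_, fi_push h.fiw hu2 hu, hmn, h.jn,
    fun _ => by omega, fun h' => absurd h' (by omega), by rw [← add_assoc, h.sum], h.good, ?_⟩
  · refine h.ins.step hmn hp hda hca hdp ?_ ?_ ?_ ?_
    · intro i hi a ha
      obtain ⟨h1, h2, h3⟩ := fi_idx hi ha
      show fiE n p d E (i * n + a) = _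
      unfold fiE tabF
      rw [if_pos h1]
      beta_reduce
      rw [h2, h3]
    · intro i hi a ha
      obtain ⟨h1, h2, h3⟩ := fi_idx hi ha
      show fiR n p m d c E R (i * n + a) = _
      unfold fiR tabF
      rw [if_pos h1]
      beta_reduce
      rw [h2, h3]
    · intro k hk a _
      rw [hu2 k hk]
    · intro a ha
      rw [hu, hv a ha]
  · intro _ a ha
    rw [fi_mulmod g H v hv ha, pow_succ']
    congr 2
    ring

theorem FInv.step {n : ℕ} {g H : ℕ → K} {t : ℕ} {E R v S : ℕ → K} {j l m : ℕ} {w : ℕ → K[X]}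
    (h : FInv n g H t E R v S j l m w) :
    ∃ (E' R' v' S' : ℕ → K) (j' l' m' : ℕ) (w' : ℕ → K[X]),
      fiStep n g H (E, R, v, S, j, l, m) = (E', R', v', S', j', l', m') ∧
      FInv n g H (t + 1) E' R' v' S' j' l' m' w' := by
  obtain ⟨d, hd⟩ : ∃ d, d = fiD n v E := ⟨_, rfl⟩
  obtain ⟨c, hc⟩ : ∃ c, c = fiC n v R := ⟨_, rfl⟩
  have hs : fiStep n g H (E, R, v, S, j, l, m) =
      fiStep2 n g H (E, R, v, S, j, l, m) d c (fiP n d) := by rw [hd, hc]; rfl
  rw [hs]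
  have hda : ∀ a < n, d a = v a - ∑ i ∈ range n, v i * E (i * n + a) := by
    intro a ha
    rw [hd]
    unfold fiD tabF
    rw [if_pos ha]
  have hca : ∀ k < n, c k = ∑ i ∈ range n, v i * R (i * n + k) := by
    intro k hk
    rw [hc]
    unfold fiC tabF
    rw [if_pos hk]
  by_cases hj : n < j
  · refine ⟨E, R, v, S, j, l, m, w, ?_, h.ins, h.fiw, h.mn, h.jn, fun h' => absurd hj (by omega),
      h.jl, h.sum, h.good, h.vv⟩
    unfold fiStep2
    exact if_pos hj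
  have hj' : j ≤ n := by omega
  rcases fiP_spec n d with ⟨hp, hd0⟩ | ⟨hp, hdp⟩
  · refine ⟨E, R, fiV n g (j + 1), fiB n j l m c S, j + 1, 0, m, w, ?_,
      fi_step_a h hj' hda hca hd0⟩
    have hp' : ¬ fiP n d < n := by omega
    unfold fiStep2
    rw [if_neg (show ¬ n < ((E, R, v, S, j, l, m) : FISt.val K).2.2.2.2.1 from hj), if_neg hp']
  · obtain ⟨w', hw'⟩ := fi_step_b h hj' hda hca hp hdp
    refine ⟨_, _, _, _, _, _, _, w', ?_, hw'⟩
    unfold fiStep2
    rw [if_neg (show ¬ n < ((E, R, v, S, j, l, m) : FISt.val K).2.2.2.2.1 from hj), if_pos hp]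

theorem fiRun_inv (n : ℕ) (g H : ℕ → K) (t : ℕ) :
    ∃ (E R v S : ℕ → K) (j l m : ℕ) (w : ℕ → K[X]),
      fiRun n g H t = (E, R, v, S, j, l, m) ∧ FInv n g H t E R v S j l m w := by
  induction t with
  | zero =>
    refine ⟨_, _, _, _, _, _, _, fun _ => 0, rfl, ?_, fi_start _, Nat.zero_le n, Nat.zero_le _,
      fun _ => rfl, fun _ => rfl, by simp, fun i hi => absurd hi (Nat.not_lt_zero i), ?_⟩
    · have h0 : ∀ N : ℕ, tabF 0 (fun _ => (0 : K)) N = 0 := by
        intro N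
        unfold tabF
        rw [if_neg (Nat.not_lt_zero N)]
      simp only [h0]
      exact Ins.zero n _
    · intro _ a ha
      rw [fiV_eq g (Nat.zero_le n) ha, pow_zero, pow_zero, one_mul]
  | succ t ih =>
    obtain ⟨E, R, v, S, j, l, m, w, h1, h2⟩ := ih
    obtain ⟨E', R', v', S', j', l', m', w', h3, h4⟩ := h2.step
    refine ⟨E', R', v', S', j', l', m', w', ?_, h4⟩
    rw [← h3, ← h1]
    rfl

end corr

theorem inv_rlz : ∃ F : Fam (.prod .nat (.prod .arr .arr)) .arr,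
    RlzQ F (fun _ _ x => (x.1 + 1) ^ 3) ∧
    ∀ (K : Type) [Field K] (n : ℕ) (g H : ℕ → K),
      (∀ j ≤ n, (blk (n + 1) (F K (n, (g, H))) j).Monic ∧
        InB (gmon n g) (apol n H) j
          ((blk (n + 1) (F K (n, (g, H))) j).comp (apol n H) * X ^ j) ∧
        ∀ A : K[X], A ≠ 0 → InB (gmon n g) (apol n H) j (A.comp (apol n H) * X ^ j) →
          (blk (n + 1) (F K (n, (g, H))) j).natDegree ≤ A.natDegree) ∧
      ∑ j ∈ range (n + 1), (blk (n + 1) (F K (n, (g, H))) j).natDegree ≤ n := by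
  refine ⟨_, fiRun_rlz, ?_⟩
  intro K _ n g H
  obtain ⟨E, R, v, S, j, l, m, w, h1, h2⟩ := fiRun_inv n g H (2 * n + 1)
  have hmn := h2.mn
  have hjn := h2.jn
  have hj : j = n + 1 := by
    rcases Nat.lt_or_ge n j with h3 | h3
    · omega
    · have := h2.jt h3
      omega
  have hS : (fiRun n g H (2 * n + 1)).2.2.2.1 = S := by rw [h1]
  show (∀ j ≤ n, (blk (n + 1) (fiRun n g H (2 * n + 1)).2.2.2.1 j).Monic ∧
        InB (gmon n g) (apol n H) j
          ((blk (n + 1) (fiRun n g H (2 * n + 1)).2.2.2.1 j).comp (apol n H) * X ^ j) ∧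
        ∀ A : K[X], A ≠ 0 → InB (gmon n g) (apol n H) j (A.comp (apol n H) * X ^ j) →
          (blk (n + 1) (fiRun n g H (2 * n + 1)).2.2.2.1 j).natDegree ≤ A.natDegree) ∧
      ∑ j ∈ range (n + 1), (blk (n + 1) (fiRun n g H (2 * n + 1)).2.2.2.1 j).natDegree ≤ n
  rw [hS]
  subst hj
  refine ⟨fun i hi => h2.good i (by omega), ?_⟩
  have := h2.sum
  omega

end Pool.Agent.AbsIrr
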