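import Mathlib
import Pool.Agent.Lib.MP_2adc98_lc.FDefs

/-!
# MP_2adc98_lc, stage 2: what the invariant factors are
-/

set_option autoImplicit false

namespace Pool.Agent.AbsIrr

open Finset Polynomial

namespace FIM

variable {K : Type} [Field K] {k : Type} [Field k] [Algebra K k]

/-- applying a linear form to the coefficients -/
noncomputable def Lam (lam : k →ₗ[K] K) : k[X] →ₗ[K] K[X] :=
  Polynomial.lsum (fun n => (Polynomial.monomial n).comp lam)

theorem Lam_monomial (lam : k →ₗ[K] K) (n : ℕ) (a : k) :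
    Lam lam (monomial n a) = monomial n (lam a) := by
  simp [Lam, Polynomial.lsum_apply, Polynomial.sum_monomial_index]

theorem Lam_coeff (lam : k →ₗ[K] K) (p : k[X]) (n : ℕ) :
    (Lam lam p).coeff n = lam (p.coeff n) := by
  induction p using Polynomial.induction_on' with
  | add p q hp hq => simp [map_add, hp, hq]
  | monomial m a =>
    rw [Lam_monomial, coeff_monomial, coeff_monomial]
    split_ifs <;> simp

theorem Lam_mul (lam : k →ₗ[K] K) (f : K[X]) (g : k[X]) :
    Lam lam (f.map (algebraMap K k) * g) = f * Lam lam g := by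
  ext n
  rw [Lam_coeff, coeff_mul, coeff_mul, map_sum]
  refine Finset.sum_congr rfl fun x _ => ?_
  rw [coeff_map, Lam_coeff, ← Algebra.smul_def, map_smul, smul_eq_mul]

theorem comp_range {R : Type} [CommSemiring R] (p q : R[X]) {n : ℕ} (hn : p.natDegree < n) :
    p.comp q = ∑ i ∈ range n, C (p.coeff i) * q ^ i := by
  rw [Polynomial.comp, eval₂_eq_sum_range' _ hn]

theorem Lam_natDegree_le (lam : k →ₗ[K] K) (p : k[X]) :
    (Lam lam p).natDegree ≤ p.natDegree := by
  refine natDegree_le_iff_coeff_eq_zero.2 fun N hN => ?_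
  rw [Lam_coeff, coeff_eq_zero_of_natDegree_lt hN, map_zero]

theorem Lam_comp (lam : k →ₗ[K] K) (p : k[X]) (h : K[X]) (m : ℕ) :
    Lam lam (p.comp (h.map (algebraMap K k)) * X ^ m) = (Lam lam p).comp h * X ^ m := by
  rw [comp_range p _ (Nat.lt_succ_self _),
    comp_range (Lam lam p) h (lt_of_le_of_lt (Lam_natDegree_le lam p) (Nat.lt_succ_self _)),
    Finset.sum_mul, Finset.sum_mul, map_sum]
  refine Finset.sum_congr rfl fun i _ => ?_
  have h1 : C (p.coeff i) * (h.map (algebraMap K k)) ^ i * (X : k[X]) ^ m =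
      (h ^ i * X ^ m).map (algebraMap K k) * monomial 0 (p.coeff i) := by
    rw [Polynomial.map_mul, Polynomial.map_pow, Polynomial.map_pow, Polynomial.map_X,
      monomial_zero_left]
    ring
  rw [h1, Lam_mul, Lam_monomial, Lam_coeff, monomial_zero_left]
  ring

theorem dvd_comp_sub (A h : k[X]) (v : k) {P : k[X]} (hP : P ∣ h - C v) :
    P ∣ A.comp h - C (A.eval v) := by
  have h1 : h - C v ∣ A.comp h - A.comp (C v) := by
    have := Polynomial.sub_dvd_eval_sub h (C v) (A.map (C : k →+* k[X]))
    rwa [eval_map, eval_map] at this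
  rw [comp_C] at h1
  exact hP.trans h1

theorem dvd_main {A : k[X]} {b : ℕ → k[X]} {h P : k[X]} {v : k} (hP : P ∣ h - C v) (j : ℕ) :
    P ∣ (A.comp h * X ^ j - ∑ i ∈ range j, (b i).comp h * X ^ i) -
      (C (A.eval v) * X ^ j - ∑ i ∈ range j, C ((b i).eval v) * X ^ i) := by
  have h1 : (A.comp h * X ^ j - ∑ i ∈ range j, (b i).comp h * X ^ i) -
      (C (A.eval v) * X ^ j - ∑ i ∈ range j, C ((b i).eval v) * X ^ i) =
      (A.comp h - C (A.eval v)) * X ^ j -
        ∑ i ∈ range j, ((b i).comp h - C ((b i).eval v)) * X ^ i := by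
    simp only [sub_mul, Finset.sum_sub_distrib]
    ring
  rw [h1]
  refine dvd_sub (Dvd.dvd.mul_right (dvd_comp_sub A h v hP) _) (Finset.dvd_sum fun i _ => ?_)
  exact Dvd.dvd.mul_right (dvd_comp_sub (b i) h v hP) _

end FIM

open FIM

theorem inv_math {K : Type} [Field K] {k : Type} [Field k] [Algebra K k] {G h : K[X]}
    (hG : G.Monic) {ι : Type} [Fintype ι] {P : ι → k[X]} (hP : ∀ c, (P c).Monic)
    (hcop : Pairwise fun c c' => IsCoprime (P c) (P c'))
    (hprod : G.map (algebraMap K k) = ∏ c, P c) {val : ι → k} (hval : Function.Injective val)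
    (hh : ∀ c, P c ∣ h.map (algebraMap K k) - C (val c)) {j : ℕ} {S : K[X]} (hS : S.Monic)
    (hS1 : InB G h j (S.comp h * X ^ j))
    (hS2 : ∀ A : K[X], A ≠ 0 → InB G h j (A.comp h * X ^ j) → S.natDegree ≤ A.natDegree) :
    S.map (algebraMap K k) = ∏ c with j < (P c).natDegree, (X - C (val c)) := by
  classical
  set σ := algebraMap K k with hσ
  set D : k[X] := ∏ c with j < (P c).natDegree, (X - C (val c)) with hD
  have hDm : D.Monic := monic_prod_of_monic _ _ fun c _ => monic_X_sub_C _
  -- `D` divides `S`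
  have hdvd : D ∣ S.map σ := by
    obtain ⟨b, hb⟩ := hS1
    refine Finset.prod_dvd_of_coprime ?_ ?_
    · intro c _ c' _ hcc
      exact isCoprime_X_sub_C_of_isUnit_sub
        (sub_ne_zero.2 (hval.ne hcc)).isUnit
    · intro c hc
      rw [Finset.mem_filter] at hc
      have h1 := Polynomial.map_dvd σ hb
      rw [hprod] at h1
      have h2 : P c ∣ ∏ c, P c := Finset.dvd_prod_of_mem _ (Finset.mem_univ c)
      have h3 := h2.trans h1
      rw [Polynomial.map_sub, Polynomial.map_mul, Polynomial.map_pow, Polynomial.map_X,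
        Polynomial.map_sum, Polynomial.map_comp] at h3
      have h4 : P c ∣ (S.map σ).comp (h.map σ) * X ^ j -
          ∑ i ∈ range j, ((b i).map σ).comp (h.map σ) * X ^ i := by
        refine h3.trans (dvd_of_eq ?_)
        congr 1
        refine Finset.sum_congr rfl fun i _ => ?_
        rw [Polynomial.map_mul, Polynomial.map_pow, Polynomial.map_X, Polynomial.map_comp]
      have h5 := (dvd_sub_right h4).1 (dvd_main (A := S.map σ) (b := fun i => (b i).map σ)
        (hh c) j)
      have h6 : C ((S.map σ).eval (val c)) * X ^ j -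
          ∑ i ∈ range j, C (((b i).map σ).eval (val c)) * X ^ i = 0 := by
        refine Polynomial.eq_zero_of_dvd_of_natDegree_lt h5 (lt_of_le_of_lt ?_ hc.2)
        refine (natDegree_sub_le _ _).trans (max_le (natDegree_C_mul_X_pow_le _ _) ?_)
        refine natDegree_sum_le_of_forall_le _ _ fun i hi => ?_
        exact (natDegree_C_mul_X_pow_le _ _).trans (Finset.mem_range.1 hi).le
      have h7 := congrArg (fun q : k[X] => q.coeff j) h6
      simp only [coeff_sub, finsetSum_coeff, coeff_C_mul, coeff_X_pow, coeff_zero, if_true] at h7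
      rw [Finset.sum_eq_zero, sub_zero, mul_one] at h7
      · exact dvd_iff_isRoot.2 h7
      · intro i hi
        rw [if_neg (Finset.mem_range.1 hi).ne', mul_zero]
  -- interpolation
  have hint : ∃ b : ℕ → k[X], ∏ c, P c ∣ D.comp (h.map σ) * X ^ j -
      ∑ i ∈ range j, (b i).comp (h.map σ) * X ^ i := by
    let val' : ι → ℕ → k := fun c i => D.eval (val c) * ((X : k[X]) ^ j %ₘ P c).coeff i
    let b : ℕ → k[X] := fun i => Lagrange.interpolate Finset.univ val (fun c => val' c i)
    have hb : ∀ i c, (b i).eval (val c) = val' c i := by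
      intro i c
      exact Lagrange.eval_interpolate_at_node _ hval.injOn (Finset.mem_univ c)
    refine ⟨b, Finset.prod_dvd_of_coprime (fun c _ c' _ hcc => hcop hcc) fun c _ => ?_⟩
    refine (dvd_sub_left ?_).1 (dvd_main (A := D) (b := b) (hh c) j)
    by_cases hc : j < (P c).natDegree
    · have h0 : D.eval (val c) = 0 := by
        rw [hD, eval_prod]
        refine Finset.prod_eq_zero (Finset.mem_filter.2 ⟨Finset.mem_univ c, hc⟩) ?_
        simp
      simp only [hb, val', h0, zero_mul, C_0, Finset.sum_const_zero, sub_zero, dvd_zero]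
    · have hdeg : ((X : k[X]) ^ j %ₘ P c).natDegree < j ∨ (X : k[X]) ^ j %ₘ P c = 0 := by
        rcases Nat.eq_zero_or_pos (P c).natDegree with h0 | h0
        · right
          have : P c = 1 := (hP c).natDegree_eq_zero.1 h0
          rw [this, modByMonic_one]
        · left
          exact lt_of_lt_of_le (natDegree_modByMonic_lt _ (hP c)
            (fun h => by rw [h, natDegree_one] at h0; exact lt_irrefl _ h0)) (not_lt.1 hc)
      have hsum : ∑ i ∈ range j, C ((b i).eval (val c)) * X ^ i =
          C (D.eval (val c)) * ((X : k[X]) ^ j %ₘ P c) := by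
        have h1 : (X : k[X]) ^ j %ₘ P c =
            ∑ i ∈ range j, C (((X : k[X]) ^ j %ₘ P c).coeff i) * X ^ i := by
          rcases hdeg with hd | hd
          · exact as_sum_range_C_mul_X_pow' _ hd
          · rw [hd]; simp
        conv_rhs => rw [h1]
        rw [Finset.mul_sum]
        refine Finset.sum_congr rfl fun i _ => ?_
        rw [hb]
        simp only [val', C_mul, mul_assoc]
      rw [hsum, ← mul_sub]
      refine Dvd.dvd.mul_left ?_ _
      have h2 := modByMonic_add_div ((X : k[X]) ^ j) (P c)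
      exact ⟨(X : k[X]) ^ j /ₘ P c, by rw [← sub_eq_iff_eq_add'.2 h2.symm]⟩
  -- descent
  obtain ⟨lam, hlam⟩ := LinearMap.exists_leftInverse_of_injective (Algebra.linearMap K k)
    (LinearMap.ker_eq_bot.2 (algebraMap K k).injective)
  have hlam1 : lam 1 = 1 := by
    have := LinearMap.congr_fun hlam 1
    simpa using this
  obtain ⟨b, Q, hQ⟩ := hint
  have hin : InB G h j ((Lam lam D).comp h * X ^ j) := by
    refine ⟨fun i => Lam lam (b i), Lam lam Q, ?_⟩
    rw [← Lam_mul, ← hσ, hprod, ← hQ, map_sub, map_sum, Lam_comp]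
    congr 1
    refine Finset.sum_congr rfl fun i _ => ?_
    rw [Lam_comp]
  have hLD : (Lam lam D).natDegree = D.natDegree ∧ Lam lam D ≠ 0 := by
    have hc : (Lam lam D).coeff D.natDegree = 1 := by
      rw [Lam_coeff, hDm.coeff_natDegree, hlam1]
    refine ⟨le_antisymm (Lam_natDegree_le _ _) (le_natDegree_of_ne_zero ?_), ?_⟩
    · rw [hc]; exact one_ne_zero
    · intro h0
      rw [h0, coeff_zero] at hc
      exact zero_ne_one hc
  have hle := hS2 _ hLD.2 hin
  rw [hLD.1] at hle
  have hSm : (S.map σ).Monic := hS.map σ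
  have := Polynomial.eq_of_monic_of_dvd_of_natDegree_le hDm hSm hdvd
    (by rw [hS.natDegree_map]; exact hle)
  exact this

end Pool.Agent.AbsIrr
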