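import Mathlib
import Pool.Agent.Lib.MP_2adc98_lc.FDefs
import Pool.Agent.Lib.MP_2adc98_lc.BL
import Pool.Agent.Lib.MP_2adc98_lc.FA
import Pool.Agent.Lib.MP_2adc98_lc.FI
import Pool.Agent.Lib.MP_2adc98_lc.FIM

/-!
# MP_2adc98_lc, stage 2, piece FMD0: multiplicities in one variable, without the p-th roots
(helper28)
-/

set_option autoImplicit false
set_option linter.unusedVariables false

namespace Pool.Agent.AbsIrr

open Finset Polynomial

namespace MD0

/-- the array of `X` modulo `gmon d g` -/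
noncomputable def xarr {K : Type} [Field K] (d : ℕ) (g : ℕ → K) : ℕ → K :=
  tabF d (fun i => if d = 1 then - g 0 else if i = 1 then 1 else 0)

/-- the exponent -/
def qe (d p : ℕ) : ℕ := p ^ (Nat.log p d + 1)

theorem qe_le (d p : ℕ) : qe d p ≤ p * (d + 1) := by
  unfold qe
  rcases Nat.eq_zero_or_pos d with rfl | hd
  · simp
  · rw [pow_succ, mul_comm]
    exact Nat.mul_le_mul_left p ((Nat.pow_log_le_self p (by omega)).trans (Nat.le_succ d))

theorem lt_qe {d p : ℕ} (hp : 1 < p) : d < qe d p := Nat.lt_pow_succ_log_self hp d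

theorem xarr_rlz : RlzQ (a := .prod .nat .arr) (b := .arr)
    (fun K _ x => xarr x.1 x.2) (fun K _ x => x.1) := by
  unfold xarr
  apply RlzQ.mono
  case h =>
    apply_rules [RlzQ.tab, RlzQ.iteEq, RlzQ.fneg, RlzQ.get, RlzQ.fst, RlzQ.snd, RlzQ.input,
      RlzQ.lit, RlzQ.zero, RlzQ.one]
  case A => exact 10
  case hc =>
    intro K _ x
    simp only [ite_self, add_zero, zero_add, Finset.sum_const_zero]
    omega

theorem qe_rlz : RlzQ (a := .prod .nat .nat) (b := .nat)
    (fun K _ x => qe x.1 x.2) (fun K _ x => x.1 + x.2 * (x.1 + 1)) := by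
  refine ((RlzQ.npow (a := .prod .nat .nat) (RlzQ.snd RlzQ.input)
    (RlzQ.add (RlzQ.nlog (RlzQ.snd RlzQ.input) (RlzQ.fst RlzQ.input)) (RlzQ.lit 1))).congr
      (fun K _ x => rfl)).mono 10 (fun K _ x => ?_)
  have key : ∀ d p : ℕ, 0 + (0 + 0 + d + 0) + (Nat.log p d + 1) + p ^ (Nat.log p d + 1) ≤
      10 * (d + p * (d + 1) + 1) := by
    intro d p
    have h1 := Nat.log_le_self p d
    have h2 : p ^ (Nat.log p d + 1) ≤ p * (d + 1) := qe_le d p
    omega
  exact key _ _

/-- `X^q` modulo `gmon d g` -/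
theorem h_rlz : RlzQ (a := .prod .nat (.prod .nat .arr)) (b := .arr)
    (fun K _ x => powmod x.1 (qe x.1 x.2.1) x.2.2 (xarr x.1 x.2.2))
    (fun K _ x => x.1 + x.2.1 * (x.1 + 1)) := by
  have e1 : RlzQ (a := .prod .nat (.prod .nat .arr)) (b := .nat) (fun K _ x => x.1)
    (fun _ _ _ => 0) := RlzQ.fst RlzQ.input
  have e2 : RlzQ (a := .prod .nat (.prod .nat .arr)) (b := .nat) (fun K _ x => x.2.1)
    (fun _ _ _ => 0) := RlzQ.fst (RlzQ.snd RlzQ.input)
  have e3 : RlzQ (a := .prod .nat (.prod .nat .arr)) (b := .arr) (fun K _ x => x.2.2)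
    (fun _ _ _ => 0) := RlzQ.snd (RlzQ.snd RlzQ.input)
  have eq := RlzQ.comp qe_rlz (RlzQ.pair e1 e2)
  have ex := RlzQ.comp xarr_rlz (RlzQ.pair e1 e3)
  refine ((RlzQ.powmod e1 eq e3 ex).congr (fun K _ x => rfl)).mono 10 (fun K _ x => ?_)
  have key : ∀ d p : ℕ, 0 + (0 + 0 + (d + p * (d + 1))) + 0 + (0 + 0 + d) + d + qe d p ≤
      10 * (d + p * (d + 1) + 1) := by
    intro d p
    have h2 := qe_le d p
    omega
  exact key _ _


section math
variable {K : Type} [Field K]

theorem gmon_tail (d : ℕ) (g : ℕ → K) :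
    (∑ i ∈ range d, monomial i (g i) : K[X]).degree < (d : WithBot ℕ) := by
  rw [degree_lt_iff_coeff_zero]
  intro m hm
  rw [finsetSum_coeff]
  refine sum_eq_zero (fun i hi => ?_)
  rw [coeff_monomial, if_neg]
  have := mem_range.1 hi
  omega

theorem gmon_monic (d : ℕ) (g : ℕ → K) : (gmon d g).Monic := monic_X_pow_add (gmon_tail d g)

theorem gmon_degree (d : ℕ) (g : ℕ → K) : (gmon d g).degree = d := by
  unfold gmon
  rw [degree_add_eq_left_of_degree_lt]
  · exact degree_X_pow d
  · rw [degree_X_pow]; exact gmon_tail d g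

theorem gmon_natDegree (d : ℕ) (g : ℕ → K) : (gmon d g).natDegree = d :=
  natDegree_eq_of_degree_eq_some (gmon_degree d g)

theorem apolc (n : ℕ) (a : ℕ → K) (i : ℕ) : (apol n a).coeff i = if i < n then a i else 0 := by
  unfold apol
  rw [finsetSum_coeff]
  simp only [coeff_monomial]
  rw [Finset.sum_ite_eq']
  simp [mem_range]

theorem blkc (w : ℕ) (A : ℕ → K) (c i : ℕ) :
    (blk w A c).coeff i = if i < w then A (c * w + i) else 0 := by
  unfold blk
  rw [finsetSum_coeff]
  simp only [coeff_monomial]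
  rw [Finset.sum_ite_eq']
  simp [mem_range]

theorem apol_xarr (d : ℕ) (g : ℕ → K) : apol d (xarr d g) = X %ₘ gmon d g := by
  rcases Nat.lt_or_ge d 2 with h | h
  · interval_cases d
    · have : gmon 0 g = 1 := by simp [gmon]
      rw [this, modByMonic_one]
      simp [apol]
    · have h1 : (X : K[X]) %ₘ gmon 1 g = C (- g 0) := by
        refine (div_modByMonic_unique (1 : K[X]) (C (- g 0)) (gmon_monic 1 g) ⟨?_, ?_⟩).2
        · simp [gmon]
        · rw [gmon_degree]
          exact lt_of_le_of_lt degree_C_le (by norm_num)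
      rw [h1]
      simp [apol, xarr, tabF]
  · have h1 : (X : K[X]) %ₘ gmon d g = X := by
      rw [modByMonic_eq_self_iff (gmon_monic d g), gmon_degree, degree_X]
      exact_mod_cast (by omega : 1 < d)
    rw [h1]
    ext i
    rw [apolc, coeff_X, xarr]
    unfold tabF
    have h2 : d ≠ 1 := by omega
    by_cases h3 : i = 1
    · subst h3
      simp [h2, (by omega : 1 < d)]
    · simp [h2, h3, Ne.symm h3]

theorem apol_powmod (n E : ℕ) (g a : ℕ → K) :
    apol n (powmod n E g a) = apol n a ^ E %ₘ gmon n g := by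
  have hd : (apol n a ^ E %ₘ gmon n g).degree < (n : WithBot ℕ) := by
    have := degree_modByMonic_lt (apol n a ^ E) (gmon_monic n g)
    rwa [gmon_degree] at this
  ext i
  rw [apolc]
  split_ifs with h
  · simp [powmod, tabF, h]
  · exact (coeff_eq_zero_of_degree_lt (lt_of_lt_of_le hd (by exact_mod_cast (not_lt.1 h)))).symm

theorem dvd_sub_pow (d q : ℕ) (g : ℕ → K) :
    gmon d g ∣ apol d (powmod d q g (xarr d g)) - X ^ q := by
  rw [apol_powmod, apol_xarr]
  have h1 : gmon d g ∣ (X %ₘ gmon d g) ^ q %ₘ gmon d g - (X %ₘ gmon d g) ^ q := by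
    exact dvd_modByMonic_sub _ _
  have h2 : gmon d g ∣ (X %ₘ gmon d g) ^ q - X ^ q := by
    exact dvd_trans (dvd_modByMonic_sub _ _) (sub_dvd_pow_sub_pow _ _ q)
  have := dvd_add h1 h2
  simpa using this

end math


theorem sum_adeg (d : ℕ) {K : Type} [Field K] (A : ℕ → K)
    (hm : ∀ j ≤ d, (blk (d + 1) A j).Monic)
    (hs : ∑ j ∈ range (d + 1), (blk (d + 1) A j).natDegree ≤ d) :
    ∑ j ∈ range (d + 1), adeg (d + 1) (blkA (d + 1) j A) ≤ d := by
  refine le_trans (le_of_eq (sum_congr rfl (fun j hj => ?_))) hs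
  have hj' : j ≤ d := by have := mem_range.1 hj; omega
  have hlt : (blk (d + 1) A j).natDegree < d + 1 := by
    rw [natDegree_lt_iff_degree_lt (hm j hj').ne_zero, degree_lt_iff_coeff_zero]
    intro m hm
    rw [blkc, if_neg (by omega)]
  refine adeg_eq (RingHom.id K) (hm j hj') hlt (fun i hi => ?_)
  rw [blkc, if_pos hi]
  simp [blkA, tabF, hi]

open Classical in
theorem math_main {K : Type} [Field K] (d p : ℕ) [CharP K p] [Fact p.Prime] (f₀ : ℕ → K)
    (k : Type) [Field k] [IsAlgClosed k] [Algebra K k] {j : ℕ} {S : K[X]} (hS : S.Monic)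
    (hS1 : InB (gmon d f₀) (apol d (powmod d (qe d p) f₀ (xarr d f₀))) j
      (S.comp (apol d (powmod d (qe d p) f₀ (xarr d f₀))) * X ^ j))
    (hS2 : ∀ A : K[X], A ≠ 0 → InB (gmon d f₀) (apol d (powmod d (qe d p) f₀ (xarr d f₀))) j
      (A.comp (apol d (powmod d (qe d p) f₀ (xarr d f₀))) * X ^ j) →
        S.natDegree ≤ A.natDegree) :
    S.map (algebraMap K k) = ∏ α ∈ ((gmon d f₀).map (algebraMap K k)).roots.toFinset with
      j < ((gmon d f₀).map (algebraMap K k)).rootMultiplicity α, (X - C (α ^ qe d p)) := by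
  have : CharP k p := charP_of_injective_algebraMap (algebraMap K k).injective p
  have hp : p.Prime := Fact.out
  set G : k[X] := (gmon d f₀).map (algebraMap K k) with hG
  have hGm : G.Monic := (gmon_monic d f₀).map _
  have hGd : G.natDegree = d := by
    rw [hG, (gmon_monic d f₀).natDegree_map, gmon_natDegree]
  have hnd : ∀ (α : k) (n : ℕ), ((X - C α) ^ n : k[X]).natDegree = n := by
    intro α n
    rw [natDegree_pow, natDegree_X_sub_C, mul_one]
  have hcop : Pairwise fun c c' : {α // α ∈ G.roots.toFinset} =>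
      IsCoprime ((X - C (c : k)) ^ G.rootMultiplicity (c : k))
        ((X - C (c' : k)) ^ G.rootMultiplicity (c' : k)) := by
    intro c c' hcc
    refine IsCoprime.pow ?_
    refine isCoprime_X_sub_C_of_isUnit_sub ?_
    rw [isUnit_iff_ne_zero, sub_ne_zero]
    exact fun h => hcc (Subtype.ext h)
  have hprod : G = ∏ c : {α // α ∈ G.roots.toFinset},
      (X - C (c : k)) ^ G.rootMultiplicity (c : k) := by
    have h1 : (G.roots.map (fun a => X - C a)).prod = G :=
      prod_multiset_X_sub_C_of_monic_of_roots_card_eq hGm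
        (IsAlgClosed.splits G).natDegree_eq_card_roots.symm
    conv_lhs => rw [← h1]
    rw [Finset.prod_multiset_map_count, ← Finset.prod_coe_sort]
    refine Finset.prod_congr rfl (fun c _ => ?_)
    rw [count_roots]
  have hinj : Function.Injective (fun c : {α // α ∈ G.roots.toFinset} => (c : k) ^ qe d p) := by
    intro c c' h
    refine Subtype.ext ?_
    have h2 := iterateFrobenius_inj k p (Nat.log p d + 1)
    refine h2 ?_
    rw [iterateFrobenius_def, iterateFrobenius_def]
    exact h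
  have hdiv : ∀ c : {α // α ∈ G.roots.toFinset},
      (X - C (c : k)) ^ G.rootMultiplicity (c : k) ∣
        (apol d (powmod d (qe d p) f₀ (xarr d f₀))).map (algebraMap K k) -
          C ((c : k) ^ qe d p) := by
    intro c
    have h1 : (X - C (c : k)) ^ G.rootMultiplicity (c : k) ∣
        (apol d (powmod d (qe d p) f₀ (xarr d f₀))).map (algebraMap K k) - X ^ qe d p := by
      refine dvd_trans (pow_rootMultiplicity_dvd _ _) ?_
      have := Polynomial.map_dvd (algebraMap K k) (dvd_sub_pow d (qe d p) f₀)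
      simpa [hG] using this
    have h2 : (X - C (c : k)) ^ G.rootMultiplicity (c : k) ∣
        X ^ qe d p - C ((c : k) ^ qe d p) := by
      have h3 : (X ^ qe d p - C ((c : k) ^ qe d p) : k[X]) = (X - C (c : k)) ^ qe d p := by
        rw [qe, sub_pow_char_pow, C_pow]
      rw [h3]
      refine pow_dvd_pow _ ?_
      refine le_trans ?_ (lt_qe (d := d) hp.one_lt).le
      rw [← hGd, ← count_roots]
      exact (Multiset.count_le_card _ _).trans (card_roots' G)
    have := dvd_add h1 h2
    simpa using this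
  have key := inv_math (G := gmon d f₀) (h := apol d (powmod d (qe d p) f₀ (xarr d f₀)))
    (gmon_monic d f₀) (P := fun c : {α // α ∈ G.roots.toFinset} =>
      (X - C (c : k)) ^ G.rootMultiplicity (c : k))
    (fun c => (monic_X_sub_C _).pow _) hcop hprod
    (val := fun c : {α // α ∈ G.roots.toFinset} => (c : k) ^ qe d p) hinj hdiv hS hS1 hS2
  rw [key]
  simp only [hnd]
  rw [Finset.prod_filter, Finset.prod_filter]
  exact Finset.prod_coe_sort G.roots.toFinset
    (fun α => if j < G.rootMultiplicity α then (X - C (α ^ qe d p) : k[X]) else 1)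

end MD0

open Classical in
theorem md0_rlz : ∃ F : Fam (.prod .nat (.prod .nat .arr)) .arr,
    RlzQ F (fun _ _ x => (x.1 + 1) ^ 3 + x.2.1 * (x.1 + 1)) ∧
    ∀ (K : Type) [Field K] (d p : ℕ) [CharP K p] [Fact p.Prime] (f₀ : ℕ → K) (k : Type)
      [Field k] [IsAlgClosed k] [Algebra K k],
      (∀ j ≤ d, (blk (d + 1) (F K (d, (p, f₀))) j).map (algebraMap K k) =
        ∏ α ∈ ((gmon d f₀).map (algebraMap K k)).roots.toFinset with
          j < ((gmon d f₀).map (algebraMap K k)).rootMultiplicity α,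
          (X - C (α ^ p ^ (Nat.log p d + 1)))) ∧
      ∑ j ∈ range (d + 1), adeg (d + 1) (blkA (d + 1) j (F K (d, (p, f₀)))) ≤ d := by
  obtain ⟨I, hI, hIs⟩ := inv_rlz
  refine ⟨fun K _ x => I K (x.1, (x.2.2, powmod x.1 (MD0.qe x.1 x.2.1) x.2.2
    (MD0.xarr x.1 x.2.2))), ?_, ?_⟩
  · have e1 : RlzQ (a := .prod .nat (.prod .nat .arr)) (b := .nat) (fun K _ x => x.1)
      (fun _ _ _ => 0) := RlzQ.fst RlzQ.input
    have e3 : RlzQ (a := .prod .nat (.prod .nat .arr)) (b := .arr) (fun K _ x => x.2.2)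
      (fun _ _ _ => 0) := RlzQ.snd (RlzQ.snd RlzQ.input)
    refine ((RlzQ.comp hI (RlzQ.pair e1 (RlzQ.pair e3 MD0.h_rlz))).congr
      (fun K _ x => rfl)).mono 3 (fun K _ x => ?_)
    have key : ∀ d p : ℕ, 0 + (0 + (d + p * (d + 1))) + (d + 1) ^ 3 ≤
        3 * ((d + 1) ^ 3 + p * (d + 1) + 1) := by
      intro d p
      nlinarith [Nat.zero_le (d * d * d), Nat.zero_le (d * d)]
    exact key _ _
  · intro K _ d p _ _ f₀ k _ _ _
    obtain ⟨h1, h2⟩ := hIs K d f₀ (powmod d (MD0.qe d p) f₀ (MD0.xarr d f₀))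
    refine ⟨fun j hj => ?_, ?_⟩
    · obtain ⟨ha, hb, hc⟩ := h1 j hj
      exact MD0.math_main d p f₀ k ha hb hc
    · exact MD0.sum_adeg d _ (fun j hj => (h1 j hj).1) h2

end Pool.Agent.AbsIrr
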