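import Mathlib
import Pool.Agent.Lib.MP_2adc98_lc.FDefs2
import Pool.Agent.Lib.MP_2adc98_lc.BL
import Pool.Agent.Lib.MP_2adc98_lc.FMD0

/-!
# MP_2adc98_lc, stage 2, piece FMD: multiplicities in one variable, with the `p`-th roots
-/

set_option autoImplicit false

namespace Pool.Agent.AbsIrr

open Finset Polynomial

/-- coefficients of the product with the `q`-th powers -/
private theorem fmdr_coeff {k : Type} [Field k] {p : ℕ} [CharP k p] [Fact p.Prime] (e : ℕ)
    (s : Finset k) (l : ℕ) :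
    (∏ α ∈ s, (X - C (α ^ p ^ e)) : k[X]).coeff l = ((∏ α ∈ s, (X - C α) : k[X]).coeff l) ^ p ^ e := by
  have h : (∏ α ∈ s, (X - C (α ^ p ^ e)) : k[X]) =
      (∏ α ∈ s, (X - C α) : k[X]).map (iterateFrobenius k p e) := by
    rw [Polynomial.map_prod]
    refine Finset.prod_congr rfl fun α _ => ?_
    rw [Polynomial.map_sub, Polynomial.map_X, Polynomial.map_C, iterateFrobenius_def]
  rw [h, Polynomial.coeff_map, iterateFrobenius_def]

private theorem fmdr_inj {k : Type} [Field k] {p : ℕ} [CharP k p] [Fact p.Prime] (e : ℕ)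
    {x y : k} (h : x ^ p ^ e = y ^ p ^ e) : x = y := by
  have h1 : iterateFrobenius k p e x = iterateFrobenius k p e y := by
    rw [iterateFrobenius_def, iterateFrobenius_def]
    exact h
  exact (iterateFrobenius k p e).injective h1

theorem md_rlz : ∃ F : Fam (.prod .nat (.prod .nat .arr)) .arr,
    RzQ F (fun _ _ x => (x.1 + 1) ^ 3 + x.2.1 * (x.1 + 1)) ∧
    ∀ (K : Type) [Field K] (d p : ℕ) [CharP K p] [Fact p.Prime] [PerfectRing K p] (f₀ : ℕ → K)
      (k : Type) [Field k] [IsAlgClosed k] [Algebra K k],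
      IsRho d ((gmon d f₀).map (algebraMap K k)) (F K (d, (p, f₀))) := by
  obtain ⟨G, hG, hspec⟩ := md0_rlz
  refine ⟨fun K _ x => rootT ((x.1 + 1) * (x.1 + 1)) (Nat.log (x.2.1 : ℕ) (x.1 : ℕ) + 1) (G K x),
    ?_, ?_⟩
  · have hd : RlzQ (a := .prod .nat (.prod .nat .arr)) (b := .nat) (fun _ _ x => x.1)
        (fun _ _ _ => 0) := RlzQ.fst RlzQ.input
    have hp : RlzQ (a := .prod .nat (.prod .nat .arr)) (b := .nat) (fun _ _ x => x.2.1)
        (fun _ _ _ => 0) := RlzQ.fst (RlzQ.snd RlzQ.input)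
    have hN := RlzQ.mul (RlzQ.add hd (RlzQ.lit 1)) (RlzQ.add hd (RlzQ.lit 1))
    have hE := RlzQ.add (RlzQ.nlog hp hd) (RlzQ.lit 1)
    refine (RzQ.rootT (RzQ.of hN) (RzQ.of hE) (RzQ.of hG)).mono 20 (fun K _ x => ?_)
    have h1 := Nat.log_le_self (x.2.1 : ℕ) (x.1 : ℕ)
    generalize Nat.log (x.2.1 : ℕ) (x.1 : ℕ) = L at h1 ⊢
    generalize (x.1 : ℕ) = d at h1 ⊢
    generalize (x.2.1 : ℕ) * (d + 1) = P
    have h2 : (d + 1) * (d + 1) * (L + 1 + 1) ≤ (d + 1) * (d + 1) * (d + 1 + 1) :=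
      Nat.mul_le_mul_left _ (by omega)
    nlinarith [Nat.zero_le (d ^ 3), Nat.zero_le (d ^ 2)]
  · intro K _ d p _ _ _ f₀ k _ _ _
    unfold IsRho
    intro j hj l hl
    classical
    have : CharP k p := charP_of_injective_algebraMap (algebraMap K k).injective p
    have h1 := (hspec K d p f₀ k).1 j hj
    have h2 : (rootT ((d + 1) * (d + 1)) (Nat.log p d + 1) (G K (d, (p, f₀)))
        (j * (d + 1) + l)) ^ p ^ (Nat.log p d + 1) = G K (d, (p, f₀)) (j * (d + 1) + l) := by
      have h3 : j * (d + 1) + l < (d + 1) * (d + 1) := by nlinarith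
      unfold rootT tabF
      rw [if_pos h3]
      exact prt_iterate_pow _ _
    have h4 : algebraMap K k (G K (d, (p, f₀)) (j * (d + 1) + l)) =
        (∏ α ∈ ((gmon d f₀).map (algebraMap K k)).roots.toFinset with
          j < ((gmon d f₀).map (algebraMap K k)).rootMultiplicity α,
          (X - C (α ^ p ^ (Nat.log p d + 1)))).coeff l := by
      rw [← h1, Polynomial.coeff_map]
      congr 1
      unfold blk
      rw [Polynomial.finsetSum_coeff]
      simp only [Polynomial.coeff_monomial]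
      rw [Finset.sum_ite_eq' (range (d + 1)) l, if_pos (by simpa using (by omega : l < d + 1))]
    rw [fmdr_coeff, ← h2, map_pow] at h4
    have h6 := fmdr_inj (Nat.log p d + 1) h4
    convert h6 using 3

end Pool.Agent.AbsIrr
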