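import Mathlib
import Pool.Agent.Lib.MP_2adc98_lc.Basic
import Pool.Agent.Lib.MP_2adc98_lc.BadCount

/-!
# FM4: the number of bad pairs for a product of irreducible polynomials
-/

set_option autoImplicit false

namespace Pool.Agent.AbsIrr

open Finset Polynomial

namespace FM4

open BadCount

variable {k : Type} [Field k]

/-- the top coefficient as a polynomial in `a` -/
private noncomputable def lp (d : ℕ) (f : k[X][X]) : k[X] :=
  ∑ j ∈ Finset.range (d + 1), monomial (d - j) ((f.coeff j).coeff (d - j))

private theorem lp_eval {d : ℕ} {f : k[X][X]} (hf : TD d f) (a b : k) :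
    (shf a b f).coeff d = C ((lp d f).eval a) := by
  rw [shf_coeff_top a b hf, lp, eval_finsetSum]
  simp only [eval_monomial]

private theorem lp_ne {d : ℕ} {f : k[X][X]} (hdeg : ∃ j ≤ d, (f.coeff j).coeff (d - j) ≠ 0) :
    lp d f ≠ 0 := by
  obtain ⟨j, hj, hne⟩ := hdeg
  intro h0
  apply hne
  have h1 : (lp d f).coeff (d - j) = (f.coeff j).coeff (d - j) := by
    rw [lp, finsetSum_coeff]
    simp only [coeff_monomial]
    rw [Finset.sum_eq_single j]
    · simp
    · intro i hi hij
      have : i ≤ d := by simpa [Nat.lt_succ_iff] using hi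
      rw [if_neg (by omega)]
    · intro h; simp at h; omega
  rw [← h1, h0, coeff_zero]

private theorem lp_deg (d : ℕ) (f : k[X][X]) : (lp d f).natDegree ≤ d := by
  refine natDegree_sum_le_of_forall_le _ _ fun j _ => ?_
  exact (natDegree_monomial_le _).trans (Nat.sub_le _ _)

private theorem one_le {d : ℕ} {f : k[X][X]} (hf : TD d f) (hirr : Irreducible f) : 1 ≤ d := by
  by_contra hlt
  have h0 : d = 0 := by omega
  subst h0
  have h1 := TD_iff.1 hf
  have h2 : f = C (C ((f.coeff 0).coeff 0)) := by
    ext j i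
    by_cases hj : j = 0
    · subst hj
      by_cases hi : i = 0
      · subst hi; simp
      · rw [coeff_C_zero, coeff_C_of_ne_zero hi]
        by_contra h3
        have := h1 _ _ h3
        omega
    · rw [coeff_C_of_ne_zero hj, coeff_zero]
      by_contra h3
      have := h1 _ _ h3
      omega
  rw [h2] at hirr
  by_cases h5 : (f.coeff 0).coeff 0 = 0
  · rw [h5] at hirr
    simp at hirr
  · exact hirr.not_isUnit (isUnit_C.2 (isUnit_C.2 (isUnit_iff_ne_zero.2 h5)))

open Classical in
private theorem bad_a [IsAlgClosed k] {d : ℕ} {f : k[X][X]} (hf : TD d f)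
    (hdeg : ∃ j ≤ d, (f.coeff j).coeff (d - j) ≠ 0) (hirr : Irreducible f) (S : Finset k) :
    (S.filter fun a => (lp d f).eval a = 0 ∨ derivative (shf a 0 f) = 0).card ≤ d + 1 := by
  have hone : (S.filter fun a => derivative (shf a 0 f) = 0).card ≤ 1 := by
    rw [Finset.card_le_one]
    intro a ha a' ha'
    by_contra hne
    obtain ⟨h1, h2⟩ := der_unique (Finset.mem_filter.1 ha).2 (Finset.mem_filter.1 ha').2 hne
    exact not_irreducible_of_der h1 h2 hirr
  have htop : (S.filter fun a => (lp d f).eval a = 0).card ≤ d := by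
    refine le_trans ?_ (lp_deg d f)
    refine le_trans (Finset.card_le_card (t := (lp d f).roots.toFinset) ?_)
      ((Multiset.toFinset_card_le _).trans (card_roots' _))
    intro a ha
    rw [Multiset.mem_toFinset, mem_roots (lp_ne hdeg)]
    exact (Finset.mem_filter.1 ha).2
  rw [Finset.filter_or]
  exact (Finset.card_union_le _ _).trans (add_le_add htop hone)

private theorem natDegree_of_coeff {d : ℕ} {F : k[X][X]} (hTD : TD d F) (hL : F.coeff d ≠ 0) :
    F.natDegree = d := by
  refine le_antisymm ?_ (le_natDegree_of_ne_zero hL)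
  rw [natDegree_le_iff_coeff_eq_zero]
  intro j hj
  by_contra h0
  have := hTD j h0
  omega

private theorem resultant_ne {t : ℕ} {F : Fin t → k[X][X]} (hirr : ∀ i, Irreducible (F i))
    (hna : Pairwise fun i j => ¬ Associated (F i) (F j)) (hd : ∀ i, (F i).natDegree ≠ 0)
    (hder : ∀ i, derivative (F i) ≠ 0) (hP : (∏ i, F i).natDegree ≠ 0) :
    resultant (∏ i, F i) (derivative (∏ i, F i)) ≠ 0 := by
  intro h0
  let L := FractionRing k[X]
  have hinj : Function.Injective (algebraMap k[X] L) := IsFractionRing.injective _ _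
  have h1 : resultant ((∏ i, F i).map (algebraMap k[X] L))
      ((derivative (∏ i, F i)).map (algebraMap k[X] L)) = 0 := by
    rw [natDegree_map_eq_of_injective hinj, natDegree_map_eq_of_injective hinj,
      resultant_map_map, h0, map_zero]
  rw [resultant_eq_zero_iff] at h1
  apply h1.2
  have h2 : ∀ i, Irreducible ((F i).map (algebraMap k[X] L)) := fun i =>
    (((hirr i).isPrimitive (hd i)).irreducible_iff_irreducible_map_fraction_map).1 (hirr i)
  have h3 : ((∏ i, F i).map (algebraMap k[X] L)).Separable := by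
    rw [Polynomial.map_prod]
    refine separable_prod ?_ fun i => ?_
    · intro i j hij
      by_contra hnc
      have h4 : (F i).map (algebraMap k[X] L) ∣ (F j).map (algebraMap k[X] L) := by
        by_contra hnd
        exact hnc (((h2 i).coprime_iff_not_dvd).2 hnd)
      have h5 : F i ∣ F j :=
        (IsPrimitive.dvd_iff_fraction_map_dvd_fraction_map L ((hirr i).isPrimitive (hd i))
          ).2 h4
      exact hna hij ((hirr i).associated_of_dvd (hirr j) h5)
    · rw [separable_iff_derivative_ne_zero (h2 i), derivative_map]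
      rw [Ne, Polynomial.map_eq_zero_iff hinj]
      exact hder i
  rw [Polynomial.Separable, derivative_map] at h3
  exact h3

private theorem exists_disc' {t d : ℕ} {F : Fin t → k[X][X]} (hirr : ∀ i, Irreducible (F i))
    (hna : Pairwise fun i j => ¬ Associated (F i) (F j)) {δ : Fin t → ℕ}
    (hTD : ∀ i, TD (δ i) (F i)) (hd : ∑ i, δ i = d) (hd0 : d ≠ 0) (a : k)
    (hL : ∀ i, (shf a 0 (F i)).coeff (δ i) ≠ 0) (hder : ∀ i, derivative (shf a 0 (F i)) ≠ 0) :
    ∃ D : k[X], D ≠ 0 ∧ D.natDegree ≤ d * (2 * d - 1) ∧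
      ∀ b, D.eval b ≠ 0 → (at0 (∏ i, shf a b (F i))).Separable := by
  set G : Fin t → k[X][X] := fun i => shf a 0 (F i) with hG
  have hGTD : ∀ i, TD (δ i) (G i) := fun i => TD_shf a 0 (hTD i)
  have hGirr : ∀ i, Irreducible (G i) := fun i => (irreducible_shf_iff a 0 (F i)).2 (hirr i)
  have hGnd : ∀ i, (G i).natDegree = δ i := fun i => natDegree_of_coeff (hGTD i) (hL i)
  have hGna : Pairwise fun i j => ¬ Associated (G i) (G j) := by
    intro i j hij hass
    apply hna hij
    have h1 := hass.map (shfHom (-a) (-0) : k[X][X] →+* k[X][X])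
    simp only [G, shf_eq] at h1
    rwa [shf_inv, shf_inv] at h1
  set P : k[X][X] := ∏ i, G i with hPdef
  have hPTD : TD d P := by
    rw [← hd]
    exact TD.prod _ fun i _ => hGTD i
  have hPnd : P.natDegree = d := by
    rw [hPdef, natDegree_prod _ _ fun i _ => (hGirr i).ne_zero, ← hd]
    exact Finset.sum_congr rfl fun i _ => hGnd i
  have hPd0 : P.natDegree ≠ 0 := by rwa [hPnd]
  have hδ : ∀ i, 1 ≤ δ i := fun i => one_le (hTD i) (hirr i)
  have hc : ∀ j, (P.coeff j).natDegree ≤ d := by
    intro j
    by_cases h0 : P.coeff j = 0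
    · rw [h0]; simp
    · have := hPTD j h0
      omega
  have hc' : ∀ j, ((derivative P).coeff j).natDegree ≤ d := by
    intro j
    rw [coeff_derivative]
    refine (natDegree_mul_le).trans ?_
    have h1 : ((j : k[X]) + 1).natDegree = 0 := by
      have : ((j : k[X]) + 1) = C ((j : k) + 1) := by simp
      rw [this, natDegree_C]
    rw [h1, add_zero]
    exact hc _
  have hdlt := natDegree_derivative_lt hPd0
  refine ⟨resultant P (derivative P), resultant_ne hGirr hGna
    (fun i => by rw [hGnd]; have := hδ i; omega) hder hPd0, ?_, fun b hb => ?_⟩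
  · refine (natDegree_resultant_le hc hc').trans ?_
    rw [mul_comm]
    refine Nat.mul_le_mul_left _ ?_
    omega
  · have hab : at0 (∏ i, shf a b (F i)) = P.map (evalRingHom b) := by
      have h1 : (∏ i, shf a b (F i)) = shf a b (∏ i, F i) := by
        rw [shf_eq, map_prod]
        rfl
      have h2 : P = shf a 0 (∏ i, F i) := by
        rw [shf_eq, map_prod]
        rfl
      rw [h1, at0_shf, h2]
    rw [hab]
    have h1 : resultant (P.map (evalRingHom b)) ((derivative P).map (evalRingHom b)) P.natDegree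
        (derivative P).natDegree = (resultant P (derivative P)).eval b := by
      rw [resultant_map_map, coe_evalRingHom]
    obtain ⟨p, q, -, -, hpq⟩ := exists_mul_add_mul_eq_C_resultant (P.map (evalRingHom b))
      ((derivative P).map (evalRingHom b)) (m := P.natDegree) (n := (derivative P).natDegree)
      natDegree_map_le natDegree_map_le (Or.inl hPd0)
    rw [h1] at hpq
    unfold Polynomial.Separable
    rw [derivative_map]
    refine ⟨C ((resultant P (derivative P)).eval b)⁻¹ * p,
      C ((resultant P (derivative P)).eval b)⁻¹ * q, ?_⟩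
    calc C ((resultant P (derivative P)).eval b)⁻¹ * p * P.map (evalRingHom b) +
          C ((resultant P (derivative P)).eval b)⁻¹ * q * (derivative P).map (evalRingHom b)
        = C ((resultant P (derivative P)).eval b)⁻¹ *
          (P.map (evalRingHom b) * p + (derivative P).map (evalRingHom b) * q) := by ring
      _ = 1 := by
        rw [hpq, ← C_mul, inv_mul_cancel₀ hb, C_1]

end FM4

open Classical in
open BadCount FM4 in
theorem bad_count_sq {k : Type} [Field k] [IsAlgClosed k] {t d : ℕ} {F : Fin t → k[X][X]}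
    {δ : Fin t → ℕ} (hirr : ∀ i, Irreducible (F i))
    (hna : Pairwise fun i j => ¬ Associated (F i) (F j)) (hTD : ∀ i, TD (δ i) (F i))
    (htop : ∀ i, ∃ j ≤ δ i, ((F i).coeff j).coeff (δ i - j) ≠ 0) (hd : ∑ i, δ i ≤ d)
    (S : Finset k) :
    ((S ×ˢ S).filter fun ab => ¬ ((∀ i, (shf ab.1 ab.2 (F i)).coeff (δ i) ≠ 0) ∧
      (at0 (∏ i, shf ab.1 ab.2 (F i))).Separable)).card ≤ (4 * d ^ 2 + 1) * S.card := by
  have hδ : ∀ i, 1 ≤ δ i := fun i => one_le (hTD i) (hirr i)
  set D := ∑ i, δ i with hD
  by_cases hD0 : D = 0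
  · have ht : IsEmpty (Fin t) := by
      refine ⟨fun i => ?_⟩
      have h1 : δ i ≤ D := Finset.single_le_sum (f := δ) (fun _ _ => Nat.zero_le _)
        (Finset.mem_univ i)
      have := hδ i
      omega
    have h0 : ((S ×ˢ S).filter fun ab => ¬ ((∀ i, (shf ab.1 ab.2 (F i)).coeff (δ i) ≠ 0) ∧
      (at0 (∏ i, shf ab.1 ab.2 (F i))).Separable)) = ∅ := by
      rw [Finset.filter_eq_empty_iff]
      intro ab _ h
      apply h
      refine ⟨fun i => isEmptyElim i, ?_⟩
      rw [Finset.univ_eq_empty, Finset.prod_empty, at0, Polynomial.map_one]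
      exact separable_one
    rw [h0, Finset.card_empty]
    exact Nat.zero_le _
  let bad : Finset k := S.filter fun a =>
    ∃ i, (lp (δ i) (F i)).eval a = 0 ∨ derivative (shf a 0 (F i)) = 0
  have hbad : bad.card ≤ 2 * D := by
    have h1 : bad ⊆ Finset.univ.biUnion fun i => S.filter fun a =>
        (lp (δ i) (F i)).eval a = 0 ∨ derivative (shf a 0 (F i)) = 0 := by
      intro a ha
      rw [Finset.mem_filter] at ha
      obtain ⟨ha1, i, hi⟩ := ha
      rw [Finset.mem_biUnion]
      exact ⟨i, Finset.mem_univ _, Finset.mem_filter.2 ⟨ha1, hi⟩⟩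
    refine (Finset.card_le_card h1).trans (Finset.card_biUnion_le.trans ?_)
    calc ∑ i, (S.filter fun a => (lp (δ i) (F i)).eval a = 0 ∨
          derivative (shf a 0 (F i)) = 0).card ≤ ∑ i, 2 * δ i := by
          refine Finset.sum_le_sum fun i _ => (bad_a (hTD i) (htop i) (hirr i) S).trans ?_
          have := hδ i
          omega
      _ = 2 * D := by rw [← Finset.mul_sum]
  have hgood : ∀ a ∈ S, a ∉ bad → (S.filter fun b => ¬ ((∀ i, (shf a b (F i)).coeff (δ i) ≠ 0) ∧
      (at0 (∏ i, shf a b (F i))).Separable)).card ≤ D * (2 * D - 1) := by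
    intro a haS ha
    have ha' : ∀ i, (lp (δ i) (F i)).eval a ≠ 0 ∧ derivative (shf a 0 (F i)) ≠ 0 := by
      intro i
      constructor
      · intro h; exact ha (Finset.mem_filter.2 ⟨haS, i, Or.inl h⟩)
      · intro h; exact ha (Finset.mem_filter.2 ⟨haS, i, Or.inr h⟩)
    have hL : ∀ b i, (shf a b (F i)).coeff (δ i) ≠ 0 := by
      intro b i
      rw [lp_eval (hTD i)]
      simpa using (ha' i).1
    obtain ⟨Q, hQ0, hQdeg, hQ⟩ := exists_disc' hirr hna hTD hD.symm hD0 a (hL 0)
      (fun i => (ha' i).2)
    refine le_trans ?_ hQdeg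
    refine le_trans (Finset.card_le_card (t := Q.roots.toFinset) ?_)
      ((Multiset.toFinset_card_le _).trans (card_roots' _))
    intro b hb
    rw [Multiset.mem_toFinset, mem_roots hQ0]
    by_contra hb0
    exact (Finset.mem_filter.1 hb).2 ⟨hL b, hQ b hb0⟩
  have hsum : ((S ×ˢ S).filter fun ab => ¬ ((∀ i, (shf ab.1 ab.2 (F i)).coeff (δ i) ≠ 0) ∧
      (at0 (∏ i, shf ab.1 ab.2 (F i))).Separable)).card = ∑ a ∈ S,
      (S.filter fun b => ¬ ((∀ i, (shf a b (F i)).coeff (δ i) ≠ 0) ∧
      (at0 (∏ i, shf a b (F i))).Separable)).card := by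
    rw [Finset.card_filter, Finset.sum_product]
    refine Finset.sum_congr rfl fun a _ => ?_
    rw [Finset.card_filter]
  rw [hsum]
  have hbound : ∀ a ∈ S, (S.filter fun b => ¬ ((∀ i, (shf a b (F i)).coeff (δ i) ≠ 0) ∧
      (at0 (∏ i, shf a b (F i))).Separable)).card ≤
        (if a ∈ bad then S.card else 0) + D * (2 * D - 1) := by
    intro a ha
    by_cases h1 : a ∈ bad
    · rw [if_pos h1]
      exact (Finset.card_filter_le _ _).trans (by omega)
    · rw [if_neg h1, zero_add]
      exact hgood a ha h1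
  refine (Finset.sum_le_sum hbound).trans ?_
  rw [Finset.sum_add_distrib, ← Finset.sum_filter, Finset.sum_const, Finset.sum_const,
    smul_eq_mul, smul_eq_mul]
  have h1 : (S.filter fun a => a ∈ bad).card ≤ 2 * D := by
    refine le_trans (Finset.card_le_card ?_) hbad
    intro a ha
    exact (Finset.mem_filter.1 ha).2
  have h2 : D * (2 * D - 1) ≤ D * (2 * D) := Nat.mul_le_mul_left _ (Nat.sub_le _ _)
  have h3 : 1 ≤ D := by omega
  calc (S.filter fun a => a ∈ bad).card * S.card + S.card * (D * (2 * D - 1))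
      ≤ 2 * D * S.card + S.card * (D * (2 * D)) := by gcongr
    _ = (2 * D + 2 * D ^ 2) * S.card := by ring
    _ ≤ (4 * d ^ 2 + 1) * S.card := by
        refine Nat.mul_le_mul_right _ ?_
        nlinarith

end Pool.Agent.AbsIrr
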