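import Mathlib

/-!
# FM7: counting
-/

set_option autoImplicit false

namespace Pool.Agent.AbsIrr

open Finset

open Classical in
theorem count_inj {L : Type} (S : Finset L) {m : ℕ} {ι : Type} [Fintype ι] (φ : ι ↪ Fin m)
    (E : (Fin m → L) → Prop) (c : ℕ)
    (h : ∀ ω₀ : Fin m → L, (∀ i, ω₀ i ∈ S) →
      ((Fintype.piFinset fun _ : ι => S).filter fun x =>
        E (Function.extend φ x ω₀)).card * S.card ≤ c * S.card ^ Fintype.card ι) :
    ((Fintype.piFinset fun _ : Fin m => S).filter E).card * S.card ≤ c * S.card ^ m := by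
  rcases Nat.eq_zero_or_pos S.card with hS | hS
  · rw [hS, mul_zero]
    exact Nat.zero_le _
  set Pm := Fintype.piFinset fun _ : Fin m => S with hPm
  set Pi := Fintype.piFinset fun _ : ι => S with hPi
  have hcm : Pm.card = S.card ^ m := by simp [hPm]
  have hci : Pi.card = S.card ^ Fintype.card ι := by simp [hPi]
  have hext : ∀ (x : ι → L) (ω : Fin m → L) (i : ι), Function.extend φ x ω (φ i) = x i :=
    fun x ω i => φ.injective.extend_apply x ω i
  have hext' : ∀ (x : ι → L) (ω : Fin m → L) (j : Fin m), (¬ ∃ i, φ i = j) →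
      Function.extend φ x ω j = ω j := fun x ω j hj => Function.extend_apply' x ω j hj
  have hmemext : ∀ (x : ι → L) (ω : Fin m → L), x ∈ Pi → ω ∈ Pm → Function.extend φ x ω ∈ Pm := by
    intro x ω hx hω
    rw [hPm, Fintype.mem_piFinset] at hω ⊢
    rw [hPi, Fintype.mem_piFinset] at hx
    intro j
    by_cases hj : ∃ i, φ i = j
    · obtain ⟨i, rfl⟩ := hj
      rw [hext]
      exact hx i
    · rw [hext' _ _ _ hj]
      exact hω j
  have hbij : ((Pm ×ˢ Pi).filter fun z => E (Function.extend φ z.2 z.1)).card =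
      ((Pm ×ˢ Pi).filter fun z => E z.1).card := by
    refine Finset.card_nbij' (fun z => (Function.extend φ z.2 z.1, fun i => z.1 (φ i)))
      (fun z => (Function.extend φ z.2 z.1, fun i => z.1 (φ i))) ?_ ?_ ?_ ?_
    · rintro ⟨ω, x⟩ hz
      simp only [Finset.coe_filter, Finset.mem_product, Set.mem_ofPred_eq] at hz ⊢
      refine ⟨⟨hmemext x ω hz.1.2 hz.1.1, ?_⟩, hz.2⟩
      rw [hPi, Fintype.mem_piFinset]
      intro i
      exact Fintype.mem_piFinset.1 hz.1.1 _
    · rintro ⟨ω, x⟩ hz
      simp only [Finset.coe_filter, Finset.mem_product, Set.mem_ofPred_eq] at hz ⊢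
      refine ⟨⟨hmemext x ω hz.1.2 hz.1.1, ?_⟩, ?_⟩
      · rw [hPi, Fintype.mem_piFinset]
        intro i
        exact Fintype.mem_piFinset.1 hz.1.1 _
      · have : Function.extend φ (fun i => ω (φ i)) (Function.extend φ x ω) = ω := by
          funext j
          by_cases hj : ∃ i, φ i = j
          · obtain ⟨i, rfl⟩ := hj
            rw [hext]
          · rw [hext' _ _ _ hj, hext' _ _ _ hj]
        rw [this]
        exact hz.2
    · rintro ⟨ω, x⟩ _
      simp only [Prod.mk.injEq]
      constructor
      · funext j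
        by_cases hj : ∃ i, φ i = j
        · obtain ⟨i, rfl⟩ := hj
          rw [hext]
        · rw [hext' _ _ _ hj, hext' _ _ _ hj]
      · funext i
        rw [hext]
    · rintro ⟨ω, x⟩ _
      simp only [Prod.mk.injEq]
      constructor
      · funext j
        by_cases hj : ∃ i, φ i = j
        · obtain ⟨i, rfl⟩ := hj
          rw [hext]
        · rw [hext' _ _ _ hj, hext' _ _ _ hj]
      · funext i
        rw [hext]
  have h1 : ((Pm ×ˢ Pi).filter fun z => E z.1).card = (Pm.filter E).card * Pi.card := by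
    rw [← Finset.card_product]
    congr 1
    ext ⟨ω, x⟩
    simp only [Finset.mem_filter, Finset.mem_product]
    tauto
  have h2 : ((Pm ×ˢ Pi).filter fun z => E (Function.extend φ z.2 z.1)).card =
      ∑ ω ∈ Pm, (Pi.filter fun x => E (Function.extend φ x ω)).card := by
    rw [Finset.card_filter, Finset.sum_product]
    refine Finset.sum_congr rfl fun ω _ => ?_
    rw [Finset.card_filter]
  have h3 : (∑ ω ∈ Pm, (Pi.filter fun x => E (Function.extend φ x ω)).card) * S.card ≤
      Pm.card * (c * S.card ^ Fintype.card ι) := by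
    rw [Finset.sum_mul, ← smul_eq_mul (Pm.card)]
    refine Finset.sum_le_card_nsmul _ _ _ fun ω hω => ?_
    exact h ω (Fintype.mem_piFinset.1 hω)
  rw [← h2, hbij, h1, hcm, hci] at h3
  have hpos : 0 < S.card ^ Fintype.card ι := pow_pos hS _
  refine le_of_mul_le_mul_right ?_ hpos
  calc (Pm.filter E).card * S.card * S.card ^ Fintype.card ι
      = (Pm.filter E).card * S.card ^ Fintype.card ι * S.card := by ring
    _ ≤ S.card ^ m * (c * S.card ^ Fintype.card ι) := h3
    _ = c * S.card ^ m * S.card ^ Fintype.card ι := by ring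

end Pool.Agent.AbsIrr
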