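import Mathlib
import Pool.Agent.Lib.MP_2adc98_lc.FM4
import Pool.Agent.Lib.MP_2adc98_lc.FM7
import Pool.Agent.Lib.MP_2adc98_lc.Model

/-!
# MP_2adc98_lc, stage 2: counting the bad choices
-/

set_option autoImplicit false

namespace Pool.Agent.AbsIrr

open Finset Polynomial

open Classical in
/-- the union bound -/
theorem bad_union {L : Type} (S : Finset L) {M d : ℕ} {E0 : (Fin M → L) → Prop}
    {E1 E2 : ℕ → (Fin M → L) → Prop} {nn : ℕ → ℕ} {B : (Fin M → L) → Prop}
    (h0 : ((Fintype.piFinset fun _ : Fin M => S).filter E0).card * S.card ≤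
      (4 * d ^ 2 + 1) * S.card ^ M)
    (h1 : ∀ m, 1 ≤ m → m ≤ d → 1 ≤ nn m →
      ((Fintype.piFinset fun _ : Fin M => S).filter (E1 m)).card * S.card ≤ nn m * S.card ^ M)
    (h2 : ∀ m, 1 ≤ m → m ≤ d → 1 ≤ nn m →
      ((Fintype.piFinset fun _ : Fin M => S).filter (E2 m)).card * S.card ≤
        nn m ^ 2 * S.card ^ M)
    (hnn : ∑ m ∈ range (d + 1), nn m ≤ d)
    (hB : ∀ ω, (∀ i, ω i ∈ S) → B ω → E0 ω ∨ ∃ m, 1 ≤ m ∧ m ≤ d ∧ 1 ≤ nn m ∧ (E1 m ω ∨ E2 m ω))
    (hd : 1 ≤ d) (hS : 21 * d ^ 2 ≤ S.card) :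
    3 * ((Fintype.piFinset fun _ : Fin M => S).filter B).card ≤ S.card ^ M := by
  set P := Fintype.piFinset fun _ : Fin M => S with hP
  set I := (range (d + 1)).filter (fun m => 1 ≤ m ∧ 1 ≤ nn m) with hI
  have hIm : ∀ m ∈ I, 1 ≤ m ∧ m ≤ d ∧ 1 ≤ nn m := fun m hm => by
    rw [hI, Finset.mem_filter, Finset.mem_range] at hm
    exact ⟨hm.2.1, by omega, hm.2.2⟩
  have hsub : P.filter B ⊆ P.filter E0 ∪ I.biUnion fun m => P.filter (E1 m) ∪ P.filter (E2 m) := by
    intro ω hω
    rw [Finset.mem_filter] at hω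
    have hωS : ∀ i, ω i ∈ S := Fintype.mem_piFinset.mp hω.1
    rw [Finset.mem_union, Finset.mem_biUnion]
    rcases hB ω hωS hω.2 with h | ⟨m, g1, g2, g3, g4⟩
    · exact Or.inl (Finset.mem_filter.mpr ⟨hω.1, h⟩)
    · refine Or.inr ⟨m, ?_, ?_⟩
      · rw [hI, Finset.mem_filter, Finset.mem_range]
        exact ⟨by omega, g1, g3⟩
      · rw [Finset.mem_union, Finset.mem_filter, Finset.mem_filter]
        rcases g4 with g4 | g4
        · exact Or.inl ⟨hω.1, g4⟩
        · exact Or.inr ⟨hω.1, g4⟩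
  have hcard : (P.filter B).card ≤ (P.filter E0).card +
      ∑ m ∈ I, ((P.filter (E1 m)).card + (P.filter (E2 m)).card) := by
    refine (Finset.card_le_card hsub).trans ((Finset.card_union_le _ _).trans ?_)
    refine Nat.add_le_add_left (Finset.card_biUnion_le.trans ?_) _
    exact Finset.sum_le_sum fun m _ => Finset.card_union_le _ _
  have hsum1 : ∑ m ∈ I, nn m ≤ d :=
    (Finset.sum_le_sum_of_subset (Finset.filter_subset _ _)).trans hnn
  have hsum2 : ∑ m ∈ I, nn m ^ 2 ≤ d ^ 2 := by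
    calc ∑ m ∈ I, nn m ^ 2 ≤ ∑ m ∈ I, nn m * d := by
          refine Finset.sum_le_sum fun m hm => ?_
          rw [sq]
          refine Nat.mul_le_mul_left _ ?_
          exact (Finset.single_le_sum (f := nn) (fun _ _ => Nat.zero_le _) hm).trans hsum1
      _ = (∑ m ∈ I, nn m) * d := by rw [Finset.sum_mul]
      _ ≤ d * d := Nat.mul_le_mul_right _ hsum1
      _ = d ^ 2 := (sq d).symm
  have htot : (P.filter B).card * S.card ≤ 7 * d ^ 2 * S.card ^ M := by
    calc (P.filter B).card * S.card ≤ ((P.filter E0).card +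
        ∑ m ∈ I, ((P.filter (E1 m)).card + (P.filter (E2 m)).card)) * S.card :=
          Nat.mul_le_mul_right _ hcard
      _ = (P.filter E0).card * S.card + ∑ m ∈ I, ((P.filter (E1 m)).card * S.card +
          (P.filter (E2 m)).card * S.card) := by
        rw [Nat.add_mul, Finset.sum_mul]
        simp only [Nat.add_mul]
      _ ≤ (4 * d ^ 2 + 1) * S.card ^ M + ∑ m ∈ I, (nn m * S.card ^ M +
          nn m ^ 2 * S.card ^ M) := by
        refine Nat.add_le_add h0 (Finset.sum_le_sum fun m hm => ?_)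
        obtain ⟨g1, g2, g3⟩ := hIm m hm
        exact Nat.add_le_add (h1 m g1 g2 g3) (h2 m g1 g2 g3)
      _ = ((4 * d ^ 2 + 1) + (∑ m ∈ I, nn m + ∑ m ∈ I, nn m ^ 2)) * S.card ^ M := by
        rw [Nat.add_mul, Finset.sum_add_distrib, ← Finset.sum_mul, ← Finset.sum_mul]
        ring
      _ ≤ 7 * d ^ 2 * S.card ^ M := by
        refine Nat.mul_le_mul_right _ ?_
        nlinarith
  have hS1 : 0 < S.card := by nlinarith
  have h3 : 3 * (P.filter B).card * S.card ≤ S.card ^ M * S.card := by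
    calc 3 * (P.filter B).card * S.card = 3 * ((P.filter B).card * S.card) := by ring
      _ ≤ 3 * (7 * d ^ 2 * S.card ^ M) := Nat.mul_le_mul_left _ htot
      _ = 21 * d ^ 2 * S.card ^ M := by ring
      _ ≤ S.card * S.card ^ M := Nat.mul_le_mul_right _ hS
      _ = S.card ^ M * S.card := Nat.mul_comm _ _
  exact Nat.le_of_mul_le_mul_right h3 hS1

theorem tape_lt {L : Type} [Zero L] {m : ℕ} (ω : Fin m → L) {i : ℕ} (h : i < m) :
    tape ω i = ω ⟨i, h⟩ := by
  unfold tape
  rw [dif_pos h]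

/-- replacing the entries at the places `φ` -/
theorem tape_extend {L : Type} [Zero L] {m : ℕ} {ι : Type} (φ : ι ↪ Fin m) (x : ι → L)
    (ω : Fin m → L) (i : ι) : tape (Function.extend φ x ω) (φ i) = x i := by
  rw [tape_lt _ (φ i).2]
  exact φ.injective.extend_apply x ω i

theorem tape_extend' {L : Type} [Zero L] {m : ℕ} {ι : Type} (φ : ι ↪ Fin m) (x : ι → L)
    (ω : Fin m → L) {j : ℕ} (h : ∀ i, (φ i : ℕ) ≠ j) :
    tape (Function.extend φ x ω) j = tape ω j := by
  by_cases hj : j < m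
  · rw [tape_lt _ hj, tape_lt _ hj]
    refine Function.extend_apply' x ω _ ?_
    rintro ⟨i, hi⟩
    exact h i (by rw [hi])
  · unfold tape
    rw [dif_neg hj, dif_neg hj]

/-- the instance does not matter -/
theorem card_filter_inst {α : Type} {s : Finset α} {P : α → Prop} (i1 i2 : DecidablePred P) :
    (@Finset.filter α P i1 s).card = (@Finset.filter α P i2 s).card := by
  have h : i1 = i2 := Subsingleton.elim _ _
  rw [h]

open Classical in
/-- `count_inj` with the standard instance -/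
theorem count_inj' {L : Type} (S : Finset L) {m : ℕ} {ι : Type} [Fintype ι] [inst : DecidableEq ι]
    (φ : ι ↪ Fin m) (E : (Fin m → L) → Prop) (c : ℕ)
    (h : ∀ ω₀ : Fin m → L, (∀ i, ω₀ i ∈ S) →
      ((Fintype.piFinset fun _ : ι => S).filter fun x =>
        E (Function.extend φ x ω₀)).card * S.card ≤ c * S.card ^ Fintype.card ι) :
    ((Fintype.piFinset fun _ : Fin m => S).filter E).card * S.card ≤ c * S.card ^ m := by
  have hi : inst = fun a b => Classical.propDecidable (a = b) := Subsingleton.elim _ _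
  subst hi
  exact count_inj S φ E c h

open Classical in
/-- the bad shifts -/
theorem bad_shift {L : Type} [Field L] (S : Finset L) {M : ℕ} (hM : 2 ≤ M) {E : L → L → Prop}
    {c : ℕ} (h : ((S ×ˢ S).filter fun ab => E ab.1 ab.2).card ≤ c * S.card) :
    ((Fintype.piFinset fun _ : Fin M => S).filter fun ω => E (tape ω 0) (tape ω 1)).card *
      S.card ≤ c * S.card ^ M := by
  refine count_inj' S (ι := Fin 2) (Fin.castLEEmb hM) _ c (fun ω₀ _ => ?_)
  rw [Fintype.card_fin]
  have e0 : ∀ x : Fin 2 → L, tape (Function.extend (Fin.castLEEmb hM) x ω₀) 0 = x 0 := fun x =>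
    tape_extend (Fin.castLEEmb hM) x ω₀ 0
  have e1 : ∀ x : Fin 2 → L, tape (Function.extend (Fin.castLEEmb hM) x ω₀) 1 = x 1 := fun x =>
    tape_extend (Fin.castLEEmb hM) x ω₀ 1
  have h1 : ((Fintype.piFinset fun _ : Fin 2 => S).filter fun x =>
      E (tape (Function.extend (Fin.castLEEmb hM) x ω₀) 0)
        (tape (Function.extend (Fin.castLEEmb hM) x ω₀) 1)).card ≤ c * S.card := by
    refine le_trans (Finset.card_le_card_of_injOn (fun x => (x 0, x 1)) ?_ ?_) h
    · intro x hx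
      simp only [Finset.coe_filter, Set.mem_ofPred_eq, Fintype.mem_piFinset, e0, e1] at hx
      simp only [Finset.coe_filter, Set.mem_ofPred_eq, Finset.mem_product]
      exact ⟨⟨hx.1 0, hx.1 1⟩, hx.2⟩
    · intro x _ y _ hxy
      funext i
      fin_cases i
      · exact (Prod.ext_iff.mp hxy).1
      · exact (Prod.ext_iff.mp hxy).2
  have h2 := Nat.mul_le_mul_right S.card h1
  rw [Nat.mul_assoc, ← sq] at h2
  exact h2

end Pool.Agent.AbsIrr
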