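import Mathlib
import Pool.Agent.Lib.MP_2adc98_lc.FDefs2
import Pool.Agent.Lib.MP_2adc98_lc.FA

/-!
# MP_2adc98_lc, stage 2: the parts of the factorization program
-/

set_option autoImplicit false

namespace Pool.Agent.AbsIrr

open Finset Polynomial

/-- parameters `(κ, (q, (e, b)))` -/
abbrev Prm : Ty := .prod .nat (.prod .nat (.prod .nat .nat))
/-- `(x, (prm, (sh, (ft, (rho, (s, Ω))))))` -/
abbrev St0 : Ty := .prod Inp (.prod Prm (.prod .arr (.prod .arr (.prod .arr (.prod .arr .arr)))))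
/-- `(n, (h, (v₀, (H, S))))` -/
abbrev Ot1 : Ty := .prod .nat (.prod .arr (.prod .arr (.prod .arr .arr)))
/-- input of the computation for one multiplicity: `(κ, (q, (e, (b, (d, (p, (m, (ft, (rho,
(s, ω))))))))))` -/
abbrev In1 : Ty := .prod .nat (.prod .nat (.prod .nat (.prod .nat (.prod .nat (.prod .nat
  (.prod .nat (.prod .arr (.prod .arr (.prod .arr .arr)))))))))
abbrev St1 : Ty := .prod (.prod St0 .nat) Ot1
abbrev St2 : Ty := .prod St1 .nat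
/-- input of the computation of the printed value -/
abbrev In3 : Ty := .prod .nat (.prod .fld (.prod .fld (.prod .nat (.prod .arr (.prod .arr
  (.prod .arr (.prod .arr .nat)))))))

theorem cube_succ (n : ℕ) : n ^ 3 ≤ (n + 1) ^ 3 := Nat.pow_le_pow_left (by omega) 3

theorem zp {a b b' : Ty} {F : Fam a b} {G : Fam a b'} (hF : RlzQ F (fun _ _ _ => 0))
    (hG : RlzQ G (fun _ _ _ => 0)) :
    RlzQ (b := .prod b b') (fun K _ x => (F K x, G K x)) (fun _ _ _ => 0) :=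
  (RlzQ.pair hF hG).mono 1 (fun _ _ _ => by simp)

theorem adeg_le {K : Type} [Field K] (n : ℕ) (a : ℕ → K) : adeg n a ≤ n := by
  classical
  unfold adeg
  refine Finset.sup_le (fun i hi => ?_)
  exact (Finset.mem_range.mp (Finset.mem_filter.mp hi).1).le

theorem le_cP1 {K : Type} [Field K] (κ q e b d p m : ℕ) (rho : ℕ → K) :
    d + 1 ≤ cP1 κ q e b d p m rho := by
  unfold cP1
  have e1 : d + 1 ≤ (d + 1) ^ 2 := Nat.le_self_pow (by norm_num) _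
  calc d + 1 ≤ (1 * ((d + 1) ^ 2 + 0 + 0 + 0) + 0 + 0 + 0) * 1 := by omega
    _ ≤ _ := by gcongr <;> exact Nat.le_add_left _ _

section fams

variable (κ q b : ℕ → ℕ → ℕ)
  (Fsh : Fam (.prod .nat (.prod .fld (.prod .fld .arr))) .arr)
  (Fmd : Fam (.prod .nat (.prod .nat .arr)) .arr)
  (F1 : Fam In1 Ot1) (F3 : Fam In3 (.prod .arr .arr))

/-- the parameters -/
def aPrm : Fam Inp Prm := fun _ _ x =>
  (κ x.1 x.2.1, (q x.1 x.2.1, (Nat.log x.2.1 (q x.1 x.2.1), b x.1 x.2.1)))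
/-- the products `∏ (y - α)` over the roots of multiplicity `> j` -/
def aRho : Fam Inp .arr := fun K _ x => Fmd K (x.1, (x.2.1, tF0 Fsh K x))
/-- the random elements for the kernel vectors -/
def aS : Fam Inp .arr := fun _ _ x => tabF x.1 (fun i => x.2.2.2 (2 + i))
/-- the random elements for `Ω` -/
def aOm : Fam Inp .arr := fun _ _ x =>
  tabF (x.1 * 2 ^ κ x.1 x.2.1) (fun i => x.2.2.2 (2 + x.1 + i))
/-- the preparation -/
def a0 : Fam Inp St0 := fun K _ x => (x, (aPrm κ q b K x, (tSh Fsh K x, (tFn Fsh K x,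
  (aRho Fsh Fmd K x, (aS K x, aOm κ K x))))))
open Classical in
/-- the number of rounds of the outer loop -/
noncomputable def aN0 : Fam St0 .nat := fun K _ x =>
  if (x.2.2.1 (x.1.1 * (x.1.1 + 1)) : K) = 0 then 0 else x.1.1 + 1
/-- the number of random elements for the kernel vector -/
noncomputable def aLen : Fam (.prod St0 .nat) .nat := fun _ _ x =>
  adeg (x.1.1.1 + 1) (blkA (x.1.1.1 + 1) (x.2 - 1) x.1.2.2.2.2.1) -
    adeg (x.1.1.1 + 1) (blkA (x.1.1.1 + 1) x.2 x.1.2.2.2.2.1)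
/-- the input for one multiplicity -/
noncomputable def aIn1 : Fam (.prod St0 .nat) In1 := fun K _ x => (x.1.2.1.1, (x.1.2.1.2.1,
  (x.1.2.1.2.2.1, (x.1.2.1.2.2.2, (x.1.1.1, (x.1.1.2.1, (x.2, (x.1.2.2.2.1, (x.1.2.2.2.2.1,
    (tabF (aLen K x) x.1.2.2.2.2.2.1, x.1.2.2.2.2.2.2))))))))))
/-- the state for one multiplicity -/
noncomputable def a1 : Fam (.prod St0 .nat) St1 := fun K _ x => (x, F1 K (aIn1 K x))
/-- the number of rounds of the loop over the sizes -/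
def aN1 : Fam St1 .nat := fun _ _ x => x.2.1 + 1
/-- is there a class of size `δ`? -/
noncomputable def aN2 : Fam St2 .nat := fun _ _ x =>
  if x.2 = 0 then 0 else if numc x.1.2.1 x.2 x.1.2.2.2.2.2 = 0 then 0 else 1
/-- the input for the printed value -/
def aIn3 : Fam (.prod St2 .nat) In3 := fun _ _ x => (x.1.1.1.1.1.1, (x.1.1.1.1.1.2.2.2 0,
  (x.1.1.1.1.1.2.2.2 1, (x.1.1.2.1, (x.1.1.2.2.1, (x.1.1.2.2.2.1, (x.1.1.2.2.2.2.1,
    (x.1.1.2.2.2.2.2, x.1.2))))))))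
/-- the printed value -/
def a3 : Fam (.prod St2 .nat) Prt := fun K _ x => (x.1.1.1.2, F3 K (aIn3 K x))

variable {κ q b Fsh Fmd F1 F3}
  (hprm : RlzQ (a := .prod .nat .nat) (b := .prod .nat (.prod .nat .nat))
      (fun _ _ x => (κ x.1 x.2, (q x.1 x.2, b x.1 x.2))) (fun _ _ x => x.1 ^ 2))
  {C : ℕ} (hC : ∀ d p, 2 ^ κ d p ≤ C * (d + 1) ^ 2 ∧ q d p ≤ C * (d + 1) ^ 2 ∧
      2 ^ b d p ≤ C * (d + 1) ∧ q d p * 2 ^ b d p ≤ C * (d + 1) ^ 2)
  (hFsh : RlzQ Fsh (fun _ _ x => x.1 ^ 3))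
  (hFmd : RzQ Fmd (fun _ _ x => (x.1 + 1) ^ 3 + x.2.1 * (x.1 + 1)))
  (hF1 : RzQ F1 (fun K _ x => cP1 (K := K) x.1 x.2.1 x.2.2.1 x.2.2.2.1 x.2.2.2.2.1 x.2.2.2.2.2.1
      x.2.2.2.2.2.2.1 x.2.2.2.2.2.2.2.2.1))
  (hF3 : RlzQ F3 (fun _ _ x => (x.2.2.2.2.2.2.2.2 + 1) *
      (numc x.2.2.2.1 x.2.2.2.2.2.2.2.2 x.2.2.2.2.2.2.2.1 + 1) *
      (x.1 + x.2.2.2.1 + x.2.2.2.2.2.2.2.2 + 1) ^ 2))

/-- the cost of the preparation -/
def k0 : CFam Inp := fun _ _ x => (x.1 + 1) ^ 3 + x.2.1 * (x.1 + 1)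

include hprm hC in
theorem aPrm_rlz : RlzQ (aPrm κ q b) (fun _ _ x => x.1 ^ 3) := by
  have hl : RlzQ (a := Inp) (b := .nat) (fun _ _ x => Nat.log x.2.1 (q x.1 x.2.1))
      (fun _ _ x => x.1 ^ 3) := by
    refine of3 (RlzQ.nlog p3 (q3 hprm)) (8 * C + 16) (fun K _ x => ?_)
    have h1 := (hC x.1 x.2.1).2.1
    have h3 := sq_le3 x.1
    have h4 := self_le3 x.1
    have h5 : q x.1 x.2.1 ≤ 4 * C * (x.1 ^ 3 + 1) := by nlinarith
    nlinarith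
  exact pr3 (k3 hprm) (pr3 (q3 hprm) (pr3 hl (b3 hprm)))

include hFsh hFmd in
theorem aRho_rz : RzQ (aRho Fsh Fmd) k0 := by
  have h := RzQ.comp hFmd (RzQ.of (pr3 d3 (pr3 p3 (tF03 hFsh))))
  refine h.mono 2 (fun K _ x => ?_)
  unfold k0
  dsimp only
  have := cube_succ x.1
  generalize x.2.1 * (x.1 + 1) = w at *
  omega

theorem aS_rlz : RlzQ aS (fun _ _ x => x.1 ^ 3) := by
  unfold aS
  refine of3 (RlzQ.tab (a := Inp) (RlzQ.fst RlzQ.input) (f := fun K _ x i => (x.2.2.2 (2 + i) : K))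
    (c := fun _ _ _ => 0) ?_) 2 (fun K _ x => ?_)
  · exact (RlzQ.get (RlzQ.snd (RlzQ.snd (RlzQ.snd (RlzQ.fst RlzQ.input))))
      (RlzQ.add (RlzQ.lit 2) (RlzQ.snd RlzQ.input))).mono 1 (fun _ _ _ => by simp)
  · have := self_le3 x.1
    simp
    omega

include hprm hC in
theorem aOm_rlz : RlzQ (aOm κ) (fun _ _ x => x.1 ^ 3) := by
  unfold aOm
  refine of3 (RlzQ.tab (a := Inp) (mul3 d3 (pk3 hprm hC))
    (f := fun K _ x i => (x.2.2.2 (2 + x.1 + i) : K))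
    (c := fun _ _ _ => 0) ?_) (8 * C + 2) (fun K _ x => ?_)
  · exact (RlzQ.get (RlzQ.snd (RlzQ.snd (RlzQ.snd (RlzQ.fst RlzQ.input))))
      (RlzQ.add (RlzQ.add (RlzQ.lit 2) (RlzQ.fst (RlzQ.fst RlzQ.input)))
        (RlzQ.snd RlzQ.input))).mono 1 (fun _ _ _ => by simp)
  · have h1 := (hC x.1 x.2.1).1
    have h2 := cube_le3 x.1
    simp only [sum_const_zero, add_zero]
    have : x.1 * 2 ^ κ x.1 x.2.1 ≤ 8 * C * (x.1 ^ 3 + 1) := by
      calc x.1 * 2 ^ κ x.1 x.2.1 ≤ (x.1 + 1) * (C * (x.1 + 1) ^ 2) :=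
            Nat.mul_le_mul (Nat.le_succ _) h1
        _ = C * (x.1 + 1) ^ 3 := by ring
        _ ≤ C * (8 * (x.1 ^ 3 + 1)) := by gcongr
        _ = 8 * C * (x.1 ^ 3 + 1) := by ring
    nlinarith

theorem to_k0 {b : Ty} {F : Fam Inp b} (h : RlzQ F (fun _ _ x => x.1 ^ 3)) : RzQ F k0 :=
  (RzQ.of h).mono 1 (fun K _ x => by
    unfold k0
    have := cube_succ x.1
    generalize x.2.1 * (x.1 + 1) = w
    omega)

theorem prk0 {b b' : Ty} {F : Fam Inp b} {G : Fam Inp b'} (hF : RzQ F k0) (hG : RzQ G k0) :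
    RzQ (b := .prod b b') (fun K _ x => (F K x, G K x)) k0 :=
  (RzQ.pair hF hG).mono 2 (fun K _ x => by omega)

include hprm hC hFsh hFmd in
theorem a0_rz : RzQ (a0 κ q b Fsh Fmd) k0 :=
  prk0 (to_k0 (of3 RlzQ.input 0 (fun _ _ _ => Nat.zero_le _))) (prk0 (to_k0 (aPrm_rlz hprm hC))
    (prk0 (to_k0 (tSh3 hFsh)) (prk0 (to_k0 (tFn3 hFsh)) (prk0 (aRho_rz hFsh hFmd)
      (prk0 (to_k0 aS_rlz) (to_k0 (aOm_rlz hprm hC)))))))

theorem aN0_rz : RzQ aN0 (fun _ _ _ => 0) := by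
  refine RzQ.of ?_
  unfold aN0
  apply RlzQ.mono
  case h =>
    apply_rules (maxDepth := 1000) [RlzQ.iteZero, RlzQ.get, RlzQ.add, RlzQ.mul, RlzQ.fst,
      RlzQ.snd, RlzQ.input, RlzQ.lit]
  case A => exact 1
  case hc => intro K _ x; simp

theorem aLen_rlz : RlzQ aLen (fun _ _ x => x.1.1.1 + 1) := by
  unfold aLen
  apply RlzQ.mono
  case h =>
    apply_rules (maxDepth := 1000) [RlzQ.adeg, RlzQ.blkA, RlzQ.get, RlzQ.add,
      RlzQ.sub, RlzQ.fst, RlzQ.snd, RlzQ.input, RlzQ.lit]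
  case A => exact 10
  case hc =>
    intro K _ x
    simp only [add_zero, zero_add]
    omega

theorem aIn1_rlz : RlzQ aIn1 (fun _ _ x => x.1.1.1 + 1) := by
  have h0 : RlzQ (a := .prod St0 .nat) (b := .prod St0 .nat) (fun _ _ x => x)
    (fun _ _ _ => 0) := RlzQ.input
  have h1 : RlzQ (a := .prod St0 .nat) (b := St0) (fun _ _ x => x.1) (fun _ _ _ => 0) :=
    RlzQ.fst h0
  have hx : RlzQ (a := .prod St0 .nat) (b := Inp) (fun _ _ x => x.1.1) (fun _ _ _ => 0) :=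
    RlzQ.fst h1
  have h2 : RlzQ (a := .prod St0 .nat) (b := .prod Prm (.prod .arr (.prod .arr (.prod .arr
    (.prod .arr .arr))))) (fun _ _ x => x.1.2) (fun _ _ _ => 0) := RlzQ.snd h1
  have hp : RlzQ (a := .prod St0 .nat) (b := Prm) (fun _ _ x => x.1.2.1) (fun _ _ _ => 0) :=
    RlzQ.fst h2
  have h3 : RlzQ (a := .prod St0 .nat) (b := .prod .arr (.prod .arr (.prod .arr
    (.prod .arr .arr)))) (fun _ _ x => x.1.2.2) (fun _ _ _ => 0) := RlzQ.snd h2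
  have hs : RlzQ (a := .prod St0 .nat) (b := .arr) (fun K _ x => x.1.2.2.2.2.2.1)
      (fun _ _ _ => 0) := RlzQ.fst (RlzQ.snd (RlzQ.snd (RlzQ.snd h3)))
  have hl : RlzQ (a := .prod St0 .nat) (b := .arr) (fun K _ x =>
      tabF (aLen K x) x.1.2.2.2.2.2.1) (fun _ _ x => x.1.1.1 + 1) := by
    have h := RlzQ.tab (a := .prod St0 .nat) aLen_rlz
      (f := fun K _ x i => (x.1.2.2.2.2.2.1 i : K)) (c := fun _ _ _ => 0)
      ((RlzQ.get (RlzQ.fst (RlzQ.snd (RlzQ.snd (RlzQ.snd (RlzQ.snd (RlzQ.snd (RlzQ.fst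
        (RlzQ.fst RlzQ.input)))))))) (RlzQ.snd RlzQ.input)).mono 1 (fun _ _ _ => by simp))
    refine h.mono 2 (fun K _ x => ?_)
    simp only [sum_const_zero, add_zero]
    have hle : (aLen K x : ℕ) ≤ (x.1.1.1 : ℕ) + 1 := (Nat.sub_le _ _).trans (adeg_le _ _)
    have key : ∀ u v : ℕ, u ≤ v + 1 → v + 1 + u ≤ 2 * (v + 1 + 1) := by intros; omega
    exact key _ _ hle
  have z1 := zp (RlzQ.fst hp) (zp (RlzQ.fst (RlzQ.snd hp)) (zp (RlzQ.fst (RlzQ.snd (RlzQ.snd hp)))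
    (zp (RlzQ.snd (RlzQ.snd (RlzQ.snd hp))) (zp (RlzQ.fst hx) (zp (RlzQ.fst (RlzQ.snd hx))
      (zp (RlzQ.snd h0) (zp (RlzQ.fst (RlzQ.snd h3)) (RlzQ.fst (RlzQ.snd (RlzQ.snd h3))))))))))
  have z2 := RlzQ.pair z1 (RlzQ.pair hl (RlzQ.snd (RlzQ.snd (RlzQ.snd (RlzQ.snd h3)))))
  have hre : RlzQ (a := .prod (.prod .nat (.prod .nat (.prod .nat (.prod .nat (.prod .nat
      (.prod .nat (.prod .nat (.prod .arr .arr)))))))) (.prod .arr .arr)) (b := In1)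
      (fun _ _ y => (y.1.1, (y.1.2.1, (y.1.2.2.1, (y.1.2.2.2.1, (y.1.2.2.2.2.1,
        (y.1.2.2.2.2.2.1, (y.1.2.2.2.2.2.2.1, (y.1.2.2.2.2.2.2.2.1, (y.1.2.2.2.2.2.2.2.2,
        (y.2.1, y.2.2)))))))))) ) (fun _ _ _ => 0) := by
    have g1 := RlzQ.fst (RlzQ.input (a := .prod (.prod .nat (.prod .nat (.prod .nat (.prod .nat
      (.prod .nat (.prod .nat (.prod .nat (.prod .arr .arr)))))))) (.prod .arr .arr)))
    have g2 := RlzQ.snd (RlzQ.input (a := .prod (.prod .nat (.prod .nat (.prod .nat (.prod .nat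
      (.prod .nat (.prod .nat (.prod .nat (.prod .arr .arr)))))))) (.prod .arr .arr)))
    have g3 := RlzQ.snd g1
    have g4 := RlzQ.snd g3
    have g5 := RlzQ.snd g4
    have g6 := RlzQ.snd g5
    have g7 := RlzQ.snd g6
    have g8 := RlzQ.snd g7
    have g9 := RlzQ.snd g8
    exact zp (RlzQ.fst g1) (zp (RlzQ.fst g3) (zp (RlzQ.fst g4) (zp (RlzQ.fst g5)
      (zp (RlzQ.fst g6) (zp (RlzQ.fst g7) (zp (RlzQ.fst g8) (zp (RlzQ.fst g9)
        (zp (RlzQ.snd g9) (zp (RlzQ.fst g2) (RlzQ.snd g2))))))))))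
  exact (RlzQ.comp hre z2).mono 2 (fun K _ x => by omega)

/-- the cost for one multiplicity -/
noncomputable def k1 : CFam (.prod St0 .nat) := fun K _ x => cP1 (K := K) x.1.2.1.1 x.1.2.1.2.1
  x.1.2.1.2.2.1 x.1.2.1.2.2.2 x.1.1.1 x.1.1.2.1 x.2 x.1.2.2.2.2.1

include hF1 in
theorem a1_rz : RzQ (a1 F1) k1 := by
  have h := RzQ.pair (RzQ.of RlzQ.input) (RzQ.comp hF1 (RzQ.of aIn1_rlz))
  refine RzQ.mono h 2 (fun K _ x => ?_)
  have h1 : (x.1.1.1 : ℕ) + 1 ≤ k1 K x := le_cP1 _ _ _ _ _ _ _ _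
  have key : ∀ u v : ℕ, u + 1 ≤ v → 0 + (u + 1 + v) ≤ 2 * (v + 1) := by intros; omega
  exact key _ _ h1

theorem aN1_rz : RzQ aN1 (fun _ _ _ => 0) := by
  refine RzQ.of ?_
  unfold aN1
  exact (RlzQ.add (RlzQ.fst (RlzQ.snd RlzQ.input)) (RlzQ.lit 1)).mono 1 (fun _ _ _ => by simp)

theorem aN2_rz : RzQ aN2 (fun _ _ x => x.1.2.1) := by
  refine RzQ.of ?_
  unfold aN2 numc
  apply RlzQ.mono
  case h =>
    apply_rules (maxDepth := 1000) [RlzQ.iteEq, RlzQ.adeg, RlzQ.blkA, RlzQ.get, RlzQ.add,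
      RlzQ.sub, RlzQ.fst, RlzQ.snd, RlzQ.input, RlzQ.lit]
  case A => exact 10
  case hc =>
    intro K _ x
    simp only [add_zero, zero_add]
    split_ifs <;> omega

theorem aIn3_rlz : RlzQ aIn3 (fun _ _ _ => 0) := by
  have h0 : RlzQ (a := .prod St2 .nat) (b := St2) (fun _ _ x => x.1) (fun _ _ _ => 0) :=
    RlzQ.fst RlzQ.input
  have h1 : RlzQ (a := .prod St2 .nat) (b := St1) (fun _ _ x => x.1.1) (fun _ _ _ => 0) :=
    RlzQ.fst h0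
  have hx : RlzQ (a := .prod St2 .nat) (b := Inp) (fun _ _ x => x.1.1.1.1.1)
    (fun _ _ _ => 0) := RlzQ.fst (RlzQ.fst (RlzQ.fst h1))
  have ho : RlzQ (a := .prod St2 .nat) (b := Ot1) (fun _ _ x => x.1.1.2) (fun _ _ _ => 0) :=
    RlzQ.snd h1
  have hg : ∀ i : ℕ, RlzQ (a := .prod St2 .nat) (b := .fld)
      (fun K _ x => (x.1.1.1.1.1.2.2.2 i : K)) (fun _ _ _ => 0) := fun i =>
    (RlzQ.get (RlzQ.snd (RlzQ.snd (RlzQ.snd hx))) (RlzQ.lit i)).mono 1 (fun _ _ _ => by simp)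
  exact zp (RlzQ.fst hx) (zp (hg 0) (zp (hg 1) (zp (RlzQ.fst ho) (zp (RlzQ.fst (RlzQ.snd ho))
    (zp (RlzQ.fst (RlzQ.snd (RlzQ.snd ho))) (zp (RlzQ.fst (RlzQ.snd (RlzQ.snd (RlzQ.snd ho))))
      (zp (RlzQ.snd (RlzQ.snd (RlzQ.snd (RlzQ.snd ho)))) (RlzQ.snd h0))))))))

/-- the cost of one printed value -/
noncomputable def kk3 : CFam (.prod St2 .nat) := fun _ _ x => (x.1.2 + 1) *
  (numc x.1.1.2.1 x.1.2 x.1.1.2.2.2.2.2 + 1) * (x.1.1.1.1.1.1 + x.1.1.2.1 + x.1.2 + 1) ^ 2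

include hF3 in
theorem a3_rz : RzQ (a3 F3) kk3 := by
  refine RzQ.of ?_
  have h := RlzQ.pair (RlzQ.snd (RlzQ.fst (RlzQ.fst (RlzQ.fst (a := .prod St2 .nat)
    RlzQ.input)))) (RlzQ.comp hF3 aIn3_rlz)
  refine RlzQ.mono h 1 (fun K _ x => ?_)
  unfold kk3
  simp only [zero_add]
  exact (Nat.le_succ _).trans (by rw [one_mul]; rfl)

end fams

end Pool.Agent.AbsIrr
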