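import Mathlib
import Pool.Agent.Lib.MP_2adc98_lc.FA
import Pool.Agent.Lib.MP_2adc98_lc.FDefs2

/-!
# MP_2adc98_lc, stage 2: sums over multiplicities and sizes
-/

set_option autoImplicit false

namespace Pool.Agent.AbsIrr

open Finset Polynomial

open Classical in
theorem blkA_apply {K : Type} [Field K] (w j : ℕ) (a : ℕ → K) {i : ℕ} (hi : i < w) :
    blkA w j a i = a (j * w + i) := by
  unfold blkA tabF
  rw [if_pos hi]

open Classical in
theorem adeg_rho {K : Type} [Field K] {k : Type} [Field k] [Algebra K k] {d : ℕ}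
    {f₀ : k[X]} (hd : f₀.natDegree ≤ d) {rho : ℕ → K} (h : IsRho d f₀ rho) {j : ℕ} (hj : j ≤ d) :
    adeg (d + 1) (blkA (d + 1) j rho) =
      (f₀.roots.toFinset.filter fun α => j < f₀.rootMultiplicity α).card := by
  have h1 := h j hj
  have h2 : (∏ α ∈ f₀.roots.toFinset with j < f₀.rootMultiplicity α, (X - C α)).natDegree =
      (f₀.roots.toFinset.filter fun α => j < f₀.rootMultiplicity α).card := by
    rw [natDegree_prod_of_monic _ _ (fun α _ => monic_X_sub_C α)]
    simp
  have h3 : (f₀.roots.toFinset.filter fun α => j < f₀.rootMultiplicity α).card ≤ d :=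
    (card_filter_le _ _).trans ((Multiset.toFinset_card_le _).trans ((card_roots' _).trans hd))
  rw [← h2]
  refine adeg_eq (algebraMap K k) (monic_prod_of_monic _ _ (fun α _ => monic_X_sub_C α))
    (by omega) (fun i hi => ?_)
  rw [blkA_apply _ _ _ hi]
  exact h1 i (by omega)

open Classical in
theorem gmn_le {K : Type} [Field K] {k : Type} [Field k] [Algebra K k] {d : ℕ}
    {f₀ : k[X]} (hd : f₀.natDegree ≤ d) {rho : ℕ → K} (h : IsRho d f₀ rho) {m : ℕ} (hm : m ≤ d) :
    gmn d m rho ≤ ∑ α ∈ f₀.roots.toFinset with f₀.rootMultiplicity α = m,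
      f₀.rootMultiplicity α := by
  have h0 : ∑ α ∈ f₀.roots.toFinset with f₀.rootMultiplicity α = m, f₀.rootMultiplicity α =
      m * (f₀.roots.toFinset.filter fun α => f₀.rootMultiplicity α = m).card := by
    rw [Finset.sum_congr rfl (fun α hα => (Finset.mem_filter.mp hα).2), Finset.sum_const,
      smul_eq_mul, mul_comm]
  rw [h0]
  rcases Nat.eq_zero_or_pos m with rfl | hm1
  · unfold gmn
    simp
  have h1 := adeg_rho hd h (j := m - 1) (by omega)
  have h2 := adeg_rho hd h (j := m) hm
  have h3 : (f₀.roots.toFinset.filter fun α => m - 1 < f₀.rootMultiplicity α).card =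
      (f₀.roots.toFinset.filter fun α => m < f₀.rootMultiplicity α).card +
      (f₀.roots.toFinset.filter fun α => f₀.rootMultiplicity α = m).card := by
    rw [← Finset.card_union_of_disjoint]
    · congr 1
      ext α
      simp only [mem_filter, mem_union]
      constructor
      · rintro ⟨h4, h5⟩
        by_cases h6 : m < f₀.rootMultiplicity α
        · exact Or.inl ⟨h4, h6⟩
        · exact Or.inr ⟨h4, by omega⟩
      · rintro (⟨h4, h5⟩ | ⟨h4, h5⟩)
        · exact ⟨h4, by omega⟩
        · exact ⟨h4, by omega⟩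
    · rw [Finset.disjoint_left]
      intro α h4 h5
      have h6 := (mem_filter.mp h4).2
      have h7 := (mem_filter.mp h5).2
      omega
  unfold gmn
  rw [h1, h2, h3]
  split_ifs
  · refine Nat.mul_le_mul_left _ (by omega)
  · exact Nat.zero_le _

open Classical in
/-- the sum over all multiplicities -/
theorem sum_gmn_le {K : Type} [Field K] {k : Type} [Field k] [Algebra K k] {d : ℕ}
    {f₀ : k[X]} (hd : f₀.natDegree ≤ d) {rho : ℕ → K} (h : IsRho d f₀ rho) :
    ∑ m ∈ range (d + 1), gmn d m rho ≤ d := by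
  calc ∑ m ∈ range (d + 1), gmn d m rho
      ≤ ∑ m ∈ range (d + 1), ∑ α ∈ f₀.roots.toFinset with f₀.rootMultiplicity α = m,
        f₀.rootMultiplicity α := Finset.sum_le_sum fun m hm => gmn_le hd h
          (by have := Finset.mem_range.mp hm; omega)
    _ ≤ ∑ α ∈ f₀.roots.toFinset, f₀.rootMultiplicity α :=
        Finset.sum_fiberwise_le_sum_of_sum_fiber_nonneg (fun _ _ => Nat.zero_le _)
    _ = ∑ α ∈ f₀.roots.toFinset, f₀.roots.count α := by simp only [count_roots]
    _ = Multiset.card f₀.roots := Multiset.toFinset_sum_count_eq _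
    _ ≤ d := (card_roots' _).trans hd

theorem abel_sum (a : ℕ → ℕ) (ha : Antitone a) (N : ℕ) :
    ∑ δ ∈ range (N + 1), δ * (a (δ - 1) - a δ) + N * a N = ∑ j ∈ range N, a j := by
  induction N with
  | zero => simp
  | succ N ih =>
    rw [Finset.sum_range_succ, Finset.sum_range_succ (fun j => a j), ← ih, Nat.add_sub_cancel]
    have h1 : a (N + 1) ≤ a N := ha (Nat.le_succ N)
    have h2 : (N + 1) * (a N - a (N + 1)) + (N + 1) * a (N + 1) = N * a N + a N := by
      rw [← Nat.mul_add, Nat.sub_add_cancel h1]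
      ring
    omega

/-- the sum over all sizes -/
theorem sum_numc_le {K : Type} [Field K] {n : ℕ} {S : ℕ → K} {a : ℕ → ℕ} (ha : Antitone a)
    (h : ∀ j ≤ n, a j = adeg (n + 1) (blkA (n + 1) j S)) (hs : ∑ j ∈ range n, a j ≤ n) :
    ∑ δ ∈ range (n + 1), δ * numc n δ S ≤ n := by
  have h1 := abel_sum a ha n
  have h2 : ∑ δ ∈ range (n + 1), δ * numc n δ S =
      ∑ δ ∈ range (n + 1), δ * (a (δ - 1) - a δ) := by
    refine Finset.sum_congr rfl fun δ hδ => ?_
    have := Finset.mem_range.mp hδ
    unfold numc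
    rw [← h (δ - 1) (by omega), ← h δ (by omega)]
  omega

end Pool.Agent.AbsIrr
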