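import Mathlib
import Pool.Agent.Lib.MP_2adc98_lc.GA1

/-!
# MP_2adc98_lc: Gaussian elimination, linear systems
-/

set_option autoImplicit false

namespace Pool.Agent.AbsIrr

open Finset Polynomial

section
variable {K : Type} [Field K]

/-- the stacked matrix `[[A, b], [1, 0]]` with `2 n` rows and `n + 1` columns -/
noncomputable def gaStack (n : ℕ) (A b : ℕ → K) : ℕ → K :=
  tabF (2 * n * (n + 1)) (fun N => if N / (n + 1) < n then
    (if N % (n + 1) < n then A (N / (n + 1) * n + N % (n + 1)) else b (N / (n + 1)))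
    else (if N % (n + 1) = N / (n + 1) - n then 1 else 0))

/-- the elimination loop on the stacked matrix -/
noncomputable def gaLoop (n : ℕ) (A b : ℕ → K) (k : ℕ) : ℕ → K :=
  iterF k (gaStack n A b) (fun M j => gaStep n (2 * n) (n + 1) M j)

/-- the solution -/
noncomputable def gaSol (n : ℕ) (A b : ℕ → K) : ℕ → K :=
  tabF n (fun i => - gaLoop n A b n ((n + i) * (n + 1) + n))

theorem gaStack_apply {n : ℕ} (A b : ℕ → K) {r c : ℕ} (hr : r < 2 * n) (hc : c < n + 1) :
    gaStack n A b (r * (n + 1) + c) = if r < n then (if c < n then A (r * n + c) else b r)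
      else (if c = r - n then 1 else 0) := by
  have h1 : (r * (n + 1) + c) / (n + 1) = r := by
    rw [mul_comm, Nat.mul_add_div (by omega), Nat.div_eq_of_lt hc, add_zero]
  have h2 : (r * (n + 1) + c) % (n + 1) = c := by
    rw [mul_comm, Nat.mul_add_mod, Nat.mod_eq_of_lt hc]
  have h3 : r * (n + 1) + c < 2 * n * (n + 1) := by
    calc r * (n + 1) + c < r * (n + 1) + (n + 1) := by omega
      _ = (r + 1) * (n + 1) := by ring
      _ ≤ 2 * n * (n + 1) := Nat.mul_le_mul_right _ hr
  unfold gaStack tabF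
  rw [if_pos h3]
  beta_reduce
  rw [h1, h2]

theorem gaLoop_inv {n : ℕ} (A b : ℕ → K)
    (hv : ∃ v : Fin n → K, (matOf n n A).mulVec v = fun i : Fin n => b i) (k : ℕ) (hk : k ≤ n) :
    (∀ r < n, ∀ c < n + 1, gaLoop n A b k (r * (n + 1) + c) =
      ∑ l : Fin n, A (r * n + l) * gaLoop n A b k ((n + l) * (n + 1) + c) +
        if c = n then b r else 0) ∧
    (∀ l < k, ∀ r < n, gaLoop n A b k (r * (n + 1) + l) = 0) ∧
    (fun r : Fin n => gaLoop n A b k (r * (n + 1) + n)) ∈
      LinearMap.range (gaTop n (n + 1) (gaLoop n A b k)).mulVecLin := by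
  induction k with
  | zero =>
    refine ⟨?_, fun l hl => absurd hl (Nat.not_lt_zero l), ?_⟩
    · intro r hr c hc
      show gaStack n A b (r * (n + 1) + c) =
        ∑ l : Fin n, A (r * n + l) * gaStack n A b ((n + l) * (n + 1) + c) + _
      rw [gaStack_apply A b (by omega) hc, if_pos hr]
      have h1 : ∀ l : Fin n, gaStack n A b ((n + l) * (n + 1) + c) = if c = l then 1 else 0 := by
        intro l
        have := l.2
        rw [gaStack_apply A b (by omega) hc, if_neg (by omega)]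
        congr 1
        simp
      simp only [h1, mul_ite, mul_one, mul_zero]
      by_cases h2 : c < n
      · rw [if_pos h2, if_neg (by omega), add_zero]
        rw [Finset.sum_eq_single ⟨c, h2⟩]
        · simp
        · intro l _ hl
          rw [if_neg]
          intro h3
          exact hl (Fin.ext h3.symm)
        · intro h; exact absurd (Finset.mem_univ _) h
      · have h3 : c = n := by omega
        rw [if_neg h2, if_pos h3, Finset.sum_eq_zero, zero_add]
        intro l _
        rw [if_neg]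
        have := l.2
        omega
    · obtain ⟨v, hv⟩ := hv
      refine ⟨v, ?_⟩
      have h1 : gaTop n (n + 1) (gaLoop n A b 0) = matOf n n A := by
        ext r c
        show gaStack n A b (r * (n + 1) + c) = A (r * n + c)
        have := r.2
        have := c.2
        rw [gaStack_apply A b (by omega) (by omega), if_pos r.2, if_pos c.2]
      rw [h1]
      show (matOf n n A).mulVec v = _
      rw [hv]
      ext r
      show b r = gaStack n A b (r * (n + 1) + n)
      have := r.2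
      rw [gaStack_apply A b (by omega) (by omega), if_pos r.2, if_neg (lt_irrefl n)]
  | succ k ih =>
    obtain ⟨h1, h2, h3⟩ := ih (by omega)
    obtain ⟨M, hM⟩ : ∃ M, M = gaLoop n A b k := ⟨_, rfl⟩
    rw [← hM] at h1 h2 h3
    have e : gaLoop n A b (k + 1) = gaStep n (2 * n) (n + 1) M k := by rw [hM]; rfl
    rw [e]
    have hkn : k < n := by omega
    rcases gaStep_top (m := 2 * n) (w := n + 1) (by omega) (by omega) M hkn h2 with
      ⟨g1, g2, g3⟩ | ⟨p, g1, g2, g3, g4⟩
    · rw [g2]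
      exact ⟨h1, g3, h3⟩
    · have hst : ∀ r < 2 * n, ∀ c < n + 1, gaStep n (2 * n) (n + 1) M k (r * (n + 1) + c) =
          M (r * (n + 1) + c) - M (r * (n + 1) + k) * M (p * (n + 1) + c) /
            M (p * (n + 1) + k) := by
        intro r hr c hc
        unfold gaStep
        rw [g1, gaElim_apply M p.2 hr hc]
      have g2' : M (p * (n + 1) + k) ≠ 0 := g2
      refine ⟨?_, g4, ?_⟩
      · intro r hr c hc
        rw [hst r (by omega) c hc]
        have h4 : ∀ l : Fin n, A (r * n + l) *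
            gaStep n (2 * n) (n + 1) M k ((n + l) * (n + 1) + c) =
            A (r * n + l) * M ((n + l) * (n + 1) + c) - A (r * n + l) *
              M ((n + l) * (n + 1) + k) * (M (p * (n + 1) + c) / M (p * (n + 1) + k)) := by
          intro l
          have := l.2
          rw [hst _ (by omega) c hc]
          ring
        simp only [h4]
        rw [Finset.sum_sub_distrib, ← Finset.sum_mul]
        have h5 := h1 r hr c hc
        have h6 := h1 r hr k (by omega)
        rw [if_neg (by omega), add_zero] at h6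
        rw [← h6, h5]
        ring
      · have hw := (ga_wedderburn _ _ p ⟨k, hkn⟩ g2 g3).1
        rw [hw]
        constructor
        · have h4 : (fun r : Fin n => gaStep n (2 * n) (n + 1) M k (r * (n + 1) + n)) =
              (fun r : Fin n => M (r * (n + 1) + n)) -
                (M (p * (n + 1) + n) / M (p * (n + 1) + k)) •
                  (gaTop n (n + 1) M).mulVecLin (Pi.single ⟨k, hkn⟩ 1) := by
            ext r
            have := r.2
            rw [hst r (by omega) n (by omega)]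
            rw [Pi.sub_apply, Pi.smul_apply, Matrix.mulVecLin_apply, Matrix.mulVec_single_one]
            show _ = M (r * (n + 1) + n) - (M (p * (n + 1) + n) / M (p * (n + 1) + k)) •
              M (r * (n + 1) + k)
            rw [smul_eq_mul]
            ring
          rw [h4]
          exact Submodule.sub_mem _ h3 (Submodule.smul_mem _ _ ⟨_, rfl⟩)
        · rw [SetLike.mem_coe, LinearMap.mem_ker, LinearMap.proj_apply]
          have := p.2
          rw [hst p (by omega) n (by omega), mul_div_cancel_left₀ _ g2', sub_self]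

theorem gaSol_spec (n : ℕ) (A b : ℕ → K)
    (hv : ∃ v : Fin n → K, (matOf n n A).mulVec v = fun i : Fin n => b i) :
    (matOf n n A).mulVec (fun i : Fin n => gaSol n A b i) = fun i : Fin n => b i := by
  obtain ⟨h1, h2, h3⟩ := gaLoop_inv A b hv n le_rfl
  have h4 : gaTop n (n + 1) (gaLoop n A b n) = 0 := by
    ext r c
    exact h2 c c.2 r r.2
  rw [h4] at h3
  obtain ⟨x, hx⟩ := h3
  ext r
  have h5 : gaLoop n A b n (r * (n + 1) + n) = 0 := by
    have := congrFun hx r
    simp only [Matrix.mulVecLin_apply, Matrix.zero_mulVec, Pi.zero_apply] at this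
    exact this.symm
  have h6 := h1 r r.2 n (by omega)
  rw [h5, if_pos rfl] at h6
  have h7 : ∀ l : Fin n, matOf n n A r l * gaSol n A b l =
      -(A (r * n + l) * gaLoop n A b n ((n + l) * (n + 1) + n)) := by
    intro l
    unfold gaSol tabF
    rw [if_pos l.2]
    show A (r * n + l) * _ = _
    ring
  show ∑ l : Fin n, matOf n n A r l * gaSol n A b l = b r
  simp only [h7]
  rw [Finset.sum_neg_distrib]
  linear_combination h6

end

/-! ### costs -/

theorem gaStack_rlz : RlzQ (a := .prod .nat (.prod .arr .arr)) (b := .arr)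
    (fun K _ x => gaStack x.1 (x.2.1 : ℕ → K) x.2.2) (fun _ _ x => 2 * x.1 * (x.1 + 1)) := by
  have hn : RlzQ (a := .prod (.prod .nat (.prod .arr .arr)) .nat) (b := .nat)
      (fun K _ x => x.1.1) (fun _ _ _ => 0) := RlzQ.fst (RlzQ.fst RlzQ.input)
  have hn1 : RlzQ (a := .prod (.prod .nat (.prod .arr .arr)) .nat) (b := .nat)
      (fun K _ x => x.1.1 + 1) (fun _ _ _ => 0) :=
    (RlzQ.add hn (RlzQ.lit 1)).mono 1 (fun K _ x => by simp)
  have hA : RlzQ (a := .prod (.prod .nat (.prod .arr .arr)) .nat) (b := .arr)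
      (fun K _ x => x.1.2.1) (fun _ _ _ => 0) := RlzQ.fst (RlzQ.snd (RlzQ.fst RlzQ.input))
  have hb : RlzQ (a := .prod (.prod .nat (.prod .arr .arr)) .nat) (b := .arr)
      (fun K _ x => x.1.2.2) (fun _ _ _ => 0) := RlzQ.snd (RlzQ.snd (RlzQ.fst RlzQ.input))
  have hN : RlzQ (a := .prod (.prod .nat (.prod .arr .arr)) .nat) (b := .nat)
      (fun K _ x => x.2) (fun _ _ _ => 0) := RlzQ.snd RlzQ.input
  have hdiv : RlzQ (a := .prod (.prod .nat (.prod .arr .arr)) .nat) (b := .nat)
      (fun K _ x => (x.2 : ℕ) / (x.1.1 + 1)) (fun _ _ _ => 0) :=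
    (RlzQ.div hN hn1).mono 1 (fun K _ x => by simp)
  have hmod : RlzQ (a := .prod (.prod .nat (.prod .arr .arr)) .nat) (b := .nat)
      (fun K _ x => (x.2 : ℕ) % (x.1.1 + 1)) (fun _ _ _ => 0) :=
    (RlzQ.mod hN hn1).mono 1 (fun K _ x => by simp)
  have hentry : RlzQ (a := .prod (.prod .nat (.prod .arr .arr)) .nat) (b := .fld)
      (fun K _ x => if (x.2 : ℕ) / (x.1.1 + 1) < x.1.1 then
        (if (x.2 : ℕ) % (x.1.1 + 1) < x.1.1 then
          (x.1.2.1 : ℕ → K) ((x.2 : ℕ) / (x.1.1 + 1) * x.1.1 + (x.2 : ℕ) % (x.1.1 + 1))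
          else (x.1.2.2 : ℕ → K) ((x.2 : ℕ) / (x.1.1 + 1)))
        else (if (x.2 : ℕ) % (x.1.1 + 1) = (x.2 : ℕ) / (x.1.1 + 1) - x.1.1 then 1 else 0))
      (fun _ _ _ => 0) := by
    refine (RlzQ.iteLt hdiv hn (RlzQ.iteLt hmod hn (RlzQ.get hA (RlzQ.add (RlzQ.mul hdiv hn) hmod))
      (RlzQ.get hb hdiv)) (RlzQ.iteEq hmod (RlzQ.sub hdiv hn) RlzQ.one RlzQ.zero)).mono 1
      (fun K _ x => ?_)
    simp
  have hlen : RlzQ (a := .prod .nat (.prod .arr .arr)) (b := .nat)
      (fun K _ x => 2 * x.1 * (x.1 + 1)) (fun _ _ _ => 0) :=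
    (RlzQ.mul (RlzQ.mul (RlzQ.lit 2) (RlzQ.fst RlzQ.input)) (RlzQ.add (RlzQ.fst RlzQ.input)
      (RlzQ.lit 1))).mono 1 (fun K _ x => by simp)
  refine (RlzQ.tab (f := fun K _ (x : Ty.val K (.prod .nat (.prod .arr .arr))) N =>
      if (N : ℕ) / (x.1 + 1) < x.1 then
        (if (N : ℕ) % (x.1 + 1) < x.1 then
          (x.2.1 : ℕ → K) ((N : ℕ) / (x.1 + 1) * x.1 + (N : ℕ) % (x.1 + 1))
          else (x.2.2 : ℕ → K) ((N : ℕ) / (x.1 + 1)))
        else (if (N : ℕ) % (x.1 + 1) = (N : ℕ) / (x.1 + 1) - x.1 then 1 else 0))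
      hlen hentry).mono 1 (fun K _ x => ?_)
  simp only [Finset.sum_const_zero, add_zero, zero_add]
  omega

theorem gaLoop_rlz : RlzQ (a := .prod .nat (.prod .arr .arr)) (b := .arr)
    (fun K _ x => gaLoop x.1 (x.2.1 : ℕ → K) x.2.2 x.1) (fun _ _ x => x.1 ^ 3) := by
  have hn : RlzQ (a := .prod (.prod (.prod .nat (.prod .arr .arr)) .arr) .nat) (b := .nat)
      (fun K _ x => x.1.1.1) (fun _ _ _ => 0) := RlzQ.fst (RlzQ.fst (RlzQ.fst RlzQ.input))
  have hM : RlzQ (a := .prod (.prod (.prod .nat (.prod .arr .arr)) .arr) .nat) (b := .arr)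
      (fun K _ x => x.1.2) (fun _ _ _ => 0) := RlzQ.snd (RlzQ.fst RlzQ.input)
  have hj : RlzQ (a := .prod (.prod (.prod .nat (.prod .arr .arr)) .arr) .nat) (b := .nat)
      (fun K _ x => x.2) (fun _ _ _ => 0) := RlzQ.snd RlzQ.input
  have h1 : RlzQ (a := .prod (.prod (.prod .nat (.prod .arr .arr)) .arr) .nat) (b := .arr)
      (fun K _ x => gaStep x.1.1.1 (2 * x.1.1.1) (x.1.1.1 + 1) (x.1.2 : ℕ → K) x.2)
      (fun _ _ x => x.1.1.1 + 2 * x.1.1.1 * (x.1.1.1 + 1)) :=
    (RlzQ.comp gaStep_rlz (RlzQ.pair hn (RlzQ.pair (RlzQ.mul (RlzQ.lit 2) hn)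
      (RlzQ.pair (RlzQ.add hn (RlzQ.lit 1)) (RlzQ.pair hj hM))))).mono 1
      (fun K _ x => by simp)
  have h2 := RlzQ.iter (a := .prod .nat (.prod .arr .arr)) (b := .arr)
    (N := fun K _ x => x.1) (S := fun K _ x => gaStack x.1 (x.2.1 : ℕ → K) x.2.2)
    (f := fun K _ x s j => gaStep x.1 (2 * x.1) (x.1 + 1) (s : ℕ → K) j)
    (RlzQ.fst RlzQ.input) gaStack_rlz h1
  refine h2.mono 20 (fun K _ x => ?_)
  simp only [Finset.sum_const, Finset.card_range, smul_eq_mul, zero_add]
  obtain ⟨n, hn⟩ : ∃ n : ℕ, n = x.1 := ⟨_, rfl⟩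
  rw [← hn]
  have h7 : n ≤ n ^ 3 := Nat.le_self_pow (by norm_num) n
  have h8 : n * n ≤ n ^ 3 := by
    rw [← pow_two]
    rcases Nat.eq_zero_or_pos n with h | h
    · rw [h]; norm_num
    · exact Nat.pow_le_pow_right h (by norm_num)
  nlinarith

theorem gauss_solve : ∃ F : Fam (.prod .nat (.prod .arr .arr)) .arr,
    RlzQ F (fun _ _ x => x.1 ^ 3) ∧ ∀ (K : Type) [Field K] (n : ℕ) (A b : ℕ → K),
      (∃ v : Fin n → K, (matOf n n A).mulVec v = fun i : Fin n => b i) →
      (matOf n n A).mulVec (fun i : Fin n => F K (n, (A, b)) i) = fun i : Fin n => b i := by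
  refine ⟨fun K _ x => gaSol x.1 (x.2.1 : ℕ → K) x.2.2, ?_, fun K _ n A b h => gaSol_spec n A b h⟩
  have hn : RlzQ (a := .prod (.prod .nat .arr) .nat) (b := .nat)
      (fun K _ x => x.1.1) (fun _ _ _ => 0) := RlzQ.fst (RlzQ.fst RlzQ.input)
  have hM : RlzQ (a := .prod (.prod .nat .arr) .nat) (b := .arr)
      (fun K _ x => x.1.2) (fun _ _ _ => 0) := RlzQ.snd (RlzQ.fst RlzQ.input)
  have hi : RlzQ (a := .prod (.prod .nat .arr) .nat) (b := .nat)
      (fun K _ x => x.2) (fun _ _ _ => 0) := RlzQ.snd RlzQ.input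
  have hentry : RlzQ (a := .prod (.prod .nat .arr) .nat) (b := .fld)
      (fun K _ x => -(x.1.2 : ℕ → K) ((x.1.1 + x.2) * (x.1.1 + 1) + x.1.1)) (fun _ _ _ => 0) :=
    (RlzQ.fneg (RlzQ.get hM (RlzQ.add (RlzQ.mul (RlzQ.add hn hi) (RlzQ.add hn (RlzQ.lit 1)))
      hn))).mono 1 (fun K _ x => by simp)
  have htab := RlzQ.tab (a := .prod .nat .arr) (N := fun K _ x => x.1)
    (f := fun K _ (x : Ty.val K (.prod .nat .arr)) i =>
      -(x.2 : ℕ → K) ((x.1 + i) * (x.1 + 1) + x.1)) (RlzQ.fst RlzQ.input) hentry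
  have h1 : RlzQ (a := .prod .nat (.prod .arr .arr)) (b := .prod .nat .arr)
      (fun K _ x => (x.1, gaLoop x.1 (x.2.1 : ℕ → K) x.2.2 x.1)) (fun _ _ x => x.1 ^ 3) :=
    (RlzQ.pair (RlzQ.fst RlzQ.input) gaLoop_rlz).mono 1 (fun K _ x => by simp)
  refine (RlzQ.comp htab h1).mono 2 (fun K _ x => ?_)
  simp only [Finset.sum_const_zero, add_zero, zero_add]
  obtain ⟨n, hn⟩ : ∃ n : ℕ, n = x.1 := ⟨_, rfl⟩
  rw [← hn]
  have h7 : n ≤ n ^ 3 := Nat.le_self_pow (by norm_num) n
  omega

end Pool.Agent.AbsIrr
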