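import Mathlib
import Pool.Agent.Lib.MP_2adc98_lc.ADefs
import Pool.Agent.Lib.MP_2adc98_lc.GA2

/-!
# MP_2adc98_lc: the inverse of `f₀'` modulo `f₀` by linear algebra
-/

set_option autoImplicit false

namespace Pool.Agent.AbsIrr

open Finset Polynomial

namespace SY

section defs
variable {K : Type} [Field K]

/-- coefficients of the derivative -/
def der (d : ℕ) (a : ℕ → K) : ℕ → K :=
  tabF d (fun m => (∑ _i ∈ range (m + 1), (1 : K)) * a (m + 1))

/-- entries of the matrix of the linear system -/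
def sysE (n d : ℕ) (D a : ℕ → K) (N : ℕ) : K :=
  if N % n < d then (if N % n ≤ N / n then D (N / n - N % n) else 0)
    else (if N % n - d ≤ N / n then a (N / n - (N % n - d)) else 0)

/-- the matrix of the linear system -/
def sysA (d : ℕ) (D a : ℕ → K) : ℕ → K :=
  tabF ((2 * d - 1) * (2 * d - 1)) (fun N => sysE (2 * d - 1) d D a N)

open Classical in
/-- are all equations satisfied? -/
noncomputable def chk (n : ℕ) (A b w : ℕ → K) : ℕ :=
  iterF n 1 (fun s i => if ((∑ j ∈ range n, A (i * n + j) * w j) - b i : K) = 0 then s else 0)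

end defs

theorem der_rlz : RlzQ (a := .prod .nat .arr) (b := .arr)
    (fun _ _ x => der x.1 x.2) (fun _ _ x => x.1 ^ 2) := by
  unfold der
  apply RlzQ.mono
  case h =>
    apply_rules [RlzQ.tab, RlzQ.sum, RlzQ.add, RlzQ.fmul, RlzQ.get, RlzQ.fst, RlzQ.snd,
      RlzQ.input, RlzQ.lit, RlzQ.one]
  case A => exact 10
  case hc =>
    intro K _ x
    simp only [Finset.sum_const_zero, add_zero, zero_add]
    have : ∑ i ∈ range x.1, (i + 1) ≤ x.1 * x.1 :=
      (sum_range_le (B := x.1) (fun i hi => by omega)).trans (by simp)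
    nlinarith

theorem sysA_rlz : RlzQ (a := .prod .nat (.prod .arr .arr)) (b := .arr)
    (fun _ _ x => sysA x.1 x.2.1 x.2.2) (fun _ _ x => x.1 ^ 2) := by
  unfold sysA sysE
  apply RlzQ.mono
  case h =>
    apply_rules (maxDepth := 500) [RlzQ.tab, RlzQ.sum, RlzQ.add, RlzQ.sub, RlzQ.mul, RlzQ.div,
      RlzQ.mod, RlzQ.fmul, RlzQ.get, RlzQ.fst, RlzQ.snd, RlzQ.iteLt, RlzQ.iteLe,
      RlzQ.input, RlzQ.lit, RlzQ.one, RlzQ.zero]
  case A => exact 10
  case hc =>
    intro K _ x
    simp
    nlinarith [Nat.sub_le (2 * x.1) 1, Nat.mul_le_mul (Nat.sub_le (2 * x.1) 1) (Nat.sub_le (2 * x.1) 1)]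

open Classical in
theorem chk_le {K : Type} [Field K] (n m : ℕ) (A b w : ℕ → K) :
    iterF m 1 (fun s i => if ((∑ j ∈ range n, A (i * n + j) * w j) - b i : K) = 0 then s
      else 0) ≤ 1 := by
  induction m with
  | zero => simp
  | succ m ih =>
    rw [iterF_succ]
    split_ifs
    · exact ih
    · simp

open Classical in
theorem chk_iff {K : Type} [Field K] (n m : ℕ) (A b w : ℕ → K) :
    iterF m 1 (fun s i => if ((∑ j ∈ range n, A (i * n + j) * w j) - b i : K) = 0 then s
      else 0) ≠ 0 ↔ ∀ i < m, ∑ j ∈ range n, A (i * n + j) * w j = b i := by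
  induction m with
  | zero => simp
  | succ m ih =>
    rw [iterF_succ]
    split_ifs with h
    · rw [ih]
      constructor
      · intro h1 i hi
        rcases Nat.lt_succ_iff_lt_or_eq.mp hi with h2 | h2
        · exact h1 i h2
        · rw [h2]; exact sub_eq_zero.mp h
      · intro h1 i hi
        exact h1 i (by omega)
    · simp only [ne_eq, not_true_eq_false, false_iff, not_forall]
      exact ⟨m, by omega, fun h1 => h (sub_eq_zero.mpr h1)⟩

theorem chk_rlz : RlzQ (a := .prod .nat (.prod .arr (.prod .arr .arr))) (b := .nat)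
    (fun _ _ x => chk x.1 x.2.1 x.2.2.1 x.2.2.2) (fun _ _ x => x.1 ^ 2) := by
  unfold chk
  apply RlzQ.mono
  case h =>
    apply RlzQ.iterB (b := .nat) (A := 1)
    case hN => exact RlzQ.fst RlzQ.input
    case hS => exact RlzQ.lit 1
    case hf =>
      apply RlzQ.iteZero
      case hT =>
        apply_rules (maxDepth := 500) [RlzQ.tab, RlzQ.sum, RlzQ.add, RlzQ.sub, RlzQ.mul, RlzQ.div,
          RlzQ.mod, RlzQ.fmul, RlzQ.fsub, RlzQ.get, RlzQ.fst, RlzQ.snd, RlzQ.iteLt, RlzQ.iteLe,
          RlzQ.input, RlzQ.lit, RlzQ.one, RlzQ.zero]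
      case hF => exact RlzQ.snd (RlzQ.fst RlzQ.input)
      case hG => exact RlzQ.lit 0
    case hA =>
      intro K _ x i hi
      refine (chk_le (K := K) x.1 i x.2.1 x.2.2.1 x.2.2.2).trans ?_
      simp
  case A => exact 10
  case hc =>
    intro K _ x
    simp
    nlinarith

/-- the product of a polynomial given by an array with another polynomial -/
theorem apol_mul_coeff {K : Type} [Field K] (n : ℕ) (w : ℕ → K) (P : K[X]) (k : ℕ) :
    (apol n w * P).coeff k = ∑ j ∈ range n, (if j ≤ k then P.coeff (k - j) else 0) * w j := by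
  unfold apol
  rw [Finset.sum_mul, finsetSum_coeff]
  refine Finset.sum_congr rfl fun j _ => ?_
  rw [← C_mul_X_pow_eq_monomial, mul_assoc, coeff_C_mul, coeff_X_pow_mul', mul_comm]

theorem apol_coeff {K : Type} [Field K] (n : ℕ) (w : ℕ → K) (k : ℕ) :
    (apol n w).coeff k = if k < n then w k else 0 := by
  unfold apol
  rw [finsetSum_coeff]
  simp only [coeff_monomial]
  split_ifs with h
  · rw [Finset.sum_eq_single k]
    · simp
    · intro b _ hb
      simp [hb]
    · intro h'
      exact absurd (Finset.mem_range.mpr h) h'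
  · refine Finset.sum_eq_zero fun b hb => ?_
    rw [if_neg]
    rintro rfl
    exact h (Finset.mem_range.mp hb)

theorem der_eq {K : Type} [Field K] (d : ℕ) (f₀ : K[X]) (a : ℕ → K) (hd : f₀.natDegree = d)
    (ha : ∀ i ≤ d, a i = f₀.coeff i) (m : ℕ) : der d a m = (derivative f₀).coeff m := by
  unfold der tabF
  rw [coeff_derivative]
  dsimp only
  split_ifs with h
  · rw [ha (m + 1) (by omega)]
    simp [mul_comm]
  · rw [coeff_eq_zero_of_natDegree_lt (by omega), zero_mul]

theorem tab_eq {K : Type} [Field K] (d : ℕ) (f₀ : K[X]) (a : ℕ → K) (hd : f₀.natDegree = d)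
    (ha : ∀ i ≤ d, a i = f₀.coeff i) (m : ℕ) : tabF (d + 1) a m = f₀.coeff m := by
  unfold tabF
  split_ifs with h
  · exact ha m (by omega)
  · rw [coeff_eq_zero_of_natDegree_lt (by omega)]

theorem sys_eq {K : Type} [Field K] (d : ℕ) (hd1 : 1 ≤ d) (f₀ : K[X]) (a w : ℕ → K)
    (hd : f₀.natDegree = d) (ha : ∀ i ≤ d, a i = f₀.coeff i) (i : ℕ) (hi : i < 2 * d - 1) :
    ∑ j ∈ range (2 * d - 1), sysA d (der d a) (tabF (d + 1) a) (i * (2 * d - 1) + j) * w j =
      (apol d w * derivative f₀ + apol (d - 1) (fun j => w (d + j)) * f₀).coeff i := by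
  have hn : 2 * d - 1 = d + (d - 1) := by omega
  have hent : ∀ j < 2 * d - 1, sysA d (der d a) (tabF (d + 1) a) (i * (2 * d - 1) + j) =
      if j < d then (if j ≤ i then (derivative f₀).coeff (i - j) else 0)
        else (if j - d ≤ i then f₀.coeff (i - (j - d)) else 0) := by
    intro j hj
    have h1 : (i * (2 * d - 1) + j) / (2 * d - 1) = i := by
      rw [mul_comm, Nat.mul_add_div (by omega), Nat.div_eq_of_lt hj, add_zero]
    have h2 : (i * (2 * d - 1) + j) % (2 * d - 1) = j := by
      rw [mul_comm, Nat.mul_add_mod, Nat.mod_eq_of_lt hj]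
    have h3 : i * (2 * d - 1) + j < (2 * d - 1) * (2 * d - 1) := by
      calc i * (2 * d - 1) + j < i * (2 * d - 1) + (2 * d - 1) := by omega
        _ = (i + 1) * (2 * d - 1) := by ring
        _ ≤ (2 * d - 1) * (2 * d - 1) := Nat.mul_le_mul_right _ hi
    have e0 : sysA d (der d a) (tabF (d + 1) a) (i * (2 * d - 1) + j) =
        sysE (2 * d - 1) d (der d a) (tabF (d + 1) a) (i * (2 * d - 1) + j) := if_pos h3
    rw [e0]
    unfold sysE
    rw [h1, h2, der_eq d f₀ a hd ha (i - j), tab_eq d f₀ a hd ha (i - (j - d))]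
  rw [Finset.sum_congr rfl (fun j hj => by rw [hent j (Finset.mem_range.mp hj)]), coeff_add,
    apol_mul_coeff, apol_mul_coeff, hn, Finset.sum_range_add]
  congr 1
  · refine Finset.sum_congr rfl fun j hj => ?_
    rw [if_pos (Finset.mem_range.mp hj)]
  · refine Finset.sum_congr rfl fun j hj => ?_
    rw [if_neg (by omega), Nat.add_sub_cancel_left]

/-- the solution of the system in the separable case -/
theorem exists_sol {K : Type} [Field K] (d : ℕ) (hd1 : 1 ≤ d) (f₀ : K[X]) (hm : f₀.Monic)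
    (hd : f₀.natDegree = d) (hs : f₀.Separable) : ∃ w : ℕ → K,
      apol d w * derivative f₀ + apol (d - 1) (fun j => w (d + j)) * f₀ = 1 := by
  obtain ⟨a, b, hab⟩ := hs
  set v := b %ₘ f₀ with hv
  set u := a + (b /ₘ f₀) * derivative f₀ with hu
  have e1 : v * derivative f₀ + u * f₀ = 1 := by
    have := modByMonic_add_div b f₀
    calc v * derivative f₀ + u * f₀ = a * f₀ + (v + f₀ * (b /ₘ f₀)) * derivative f₀ := by
          rw [hu]; ring
      _ = 1 := by rw [hv, this, hab]
  have hf1 : f₀ ≠ 1 := by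
    rintro rfl
    simp at hd
    omega
  have hvd : v.natDegree < d := hd ▸ natDegree_modByMonic_lt b hm hf1
  have hud : ∀ k, d - 1 ≤ k → u.coeff k = 0 := by
    intro k hk
    by_cases hu0 : u = 0
    · rw [hu0, coeff_zero]
    · have h1 : (u * f₀).natDegree = u.natDegree + d := by
        rw [natDegree_mul hu0 hm.ne_zero, hd]
      have h2 : u * f₀ = 1 - v * derivative f₀ := by rw [← e1]; ring
      have h3 : (1 - v * derivative f₀).natDegree ≤ 2 * d - 2 := by
        refine (natDegree_sub_le _ _).trans (max_le (by simp) ?_)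
        refine natDegree_mul_le.trans ?_
        have := natDegree_derivative_le f₀
        omega
      rw [← h2, h1] at h3
      exact coeff_eq_zero_of_natDegree_lt (by omega)
  refine ⟨fun j => if j < d then v.coeff j else u.coeff (j - d), ?_⟩
  have e2 : apol d (fun j => if j < d then v.coeff j else u.coeff (j - d)) = v := by
    ext k
    rw [apol_coeff]
    split_ifs with h
    · rfl
    · rw [coeff_eq_zero_of_natDegree_lt (by omega)]
  have e3 : apol (d - 1) (fun j => if d + j < d then v.coeff (d + j) else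
      u.coeff (d + j - d)) = u := by
    ext k
    rw [apol_coeff]
    split_ifs with h h'
    · omega
    · rw [Nat.add_sub_cancel_left]
    · rw [hud k (by omega)]
  rw [e2, e3, e1]

theorem eq_one_of {K : Type} [Field K] (d : ℕ) (hd1 : 1 ≤ d) (f₀ : K[X]) (w : ℕ → K)
    (hd : f₀.natDegree = d) (h : ∀ i < 2 * d - 1,
      (apol d w * derivative f₀ + apol (d - 1) (fun j => w (d + j)) * f₀).coeff i =
        (1 : K[X]).coeff i) :
    apol d w * derivative f₀ + apol (d - 1) (fun j => w (d + j)) * f₀ = 1 := by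
  have hap : ∀ (n : ℕ) (z : ℕ → K), (apol n z).natDegree ≤ n - 1 := by
    intro n z
    rw [natDegree_le_iff_coeff_eq_zero]
    intro k hk
    rw [apol_coeff, if_neg (by omega)]
  ext i
  by_cases hi : i < 2 * d - 1
  · exact h i hi
  · have h1 : (apol d w * derivative f₀).coeff i = 0 := by
      apply coeff_eq_zero_of_natDegree_lt
      have h2 := natDegree_mul_le (p := apol d w) (q := derivative f₀)
      have h3 := hap d w
      have h4 := natDegree_derivative_le f₀
      omega
    have h2 : (apol (d - 1) (fun j => w (d + j)) * f₀).coeff i = 0 := by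
      rcases Nat.eq_zero_or_pos (d - 1) with h0 | h0
      · rw [h0]
        simp [apol]
      · apply coeff_eq_zero_of_natDegree_lt
        have h2 := natDegree_mul_le (p := apol (d - 1) (fun j => w (d + j))) (q := f₀)
        have h3 := hap (d - 1) (fun j => w (d + j))
        omega
    rw [coeff_add, h1, h2, add_zero, coeff_one, if_neg (by omega)]

end SY

/-- the inverse of `f₀'` modulo `f₀`.  Input `(d, f₀)`, output `(flag, v₀)` -/
theorem bezout : ∃ F : Fam (.prod .nat .arr) (.prod .nat .arr), RlzQ F (fun _ _ x => x.1 ^ 3) ∧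
    ∀ (K : Type) [Field K] (d : ℕ) (f₀ : K[X]) (a : ℕ → K), 1 ≤ d → f₀.Monic →
      f₀.natDegree = d → (∀ i ≤ d, a i = f₀.coeff i) →
      (f₀.Separable → (F K (d, a)).1 ≠ 0) ∧
      ((F K (d, a)).1 ≠ 0 → ∃ u, apol d (F K (d, a)).2 * derivative f₀ + u * f₀ = 1) := by
  obtain ⟨G, hG, hGs⟩ := gauss_solve
  -- the stages
  have s1 : RlzQ (a := .prod .nat .arr) (b := .prod .nat (.prod .arr .arr))
      (fun K _ x => (x.1, (SY.der x.1 x.2, tabF (x.1 + 1) (fun i => x.2 i))))
      (fun _ _ x => x.1 ^ 2) := by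
    apply RlzQ.mono
    case h =>
      exact RlzQ.pair (RlzQ.fst RlzQ.input) (RlzQ.pair SY.der_rlz
        (RlzQ.tab (RlzQ.add (RlzQ.fst RlzQ.input) (RlzQ.lit 1))
          (RlzQ.get (RlzQ.snd (RlzQ.fst RlzQ.input)) (RlzQ.snd RlzQ.input))))
    case A => exact 10
    case hc =>
      intro K _ x
      simp
      nlinarith
  have s2 : RlzQ (a := .prod .nat (.prod .arr .arr)) (b := .prod .nat (.prod .arr .arr))
      (fun K _ x => (2 * x.1 - 1, (SY.sysA x.1 x.2.1 x.2.2, tabF 1 (fun _ => (1 : K)))))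
      (fun _ _ x => x.1 ^ 2) := by
    apply RlzQ.mono
    case h =>
      exact RlzQ.pair (RlzQ.sub (RlzQ.mul (RlzQ.lit 2) (RlzQ.fst RlzQ.input)) (RlzQ.lit 1))
        (RlzQ.pair SY.sysA_rlz (RlzQ.tab (f := fun K _ _ _ => (1 : K)) (RlzQ.lit 1) RlzQ.one))
    case A => exact 10
    case hc =>
      intro K _ x
      simp
  have s3 : RlzQ (a := .prod .nat (.prod .arr .arr))
      (b := .prod .nat (.prod .arr (.prod .arr .arr)))
      (fun K _ x => (x.1, (x.2.1, (x.2.2, G K x))))
      (fun _ _ x => x.1 ^ 3) := by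
    apply RlzQ.mono
    case h =>
      exact RlzQ.pair (RlzQ.fst RlzQ.input) (RlzQ.pair (RlzQ.fst (RlzQ.snd RlzQ.input))
        (RlzQ.pair (RlzQ.snd (RlzQ.snd RlzQ.input)) hG))
    case A => exact 10
    case hc =>
      intro K _ x
      have key : ∀ m : ℕ, m ≤ 10 * (m + 1) := fun m => by omega
      simpa using key (x.1 ^ 3)
  have s4 : RlzQ (a := .prod .nat (.prod .arr (.prod .arr .arr))) (b := .prod .nat .arr)
      (fun K _ x => (SY.chk x.1 x.2.1 x.2.2.1 x.2.2.2, x.2.2.2))
      (fun _ _ x => x.1 ^ 2) := by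
    apply RlzQ.mono
    case h =>
      exact RlzQ.pair SY.chk_rlz (RlzQ.snd (RlzQ.snd (RlzQ.snd RlzQ.input)))
    case A => exact 10
    case hc =>
      intro K _ x
      have key : ∀ m : ℕ, m ≤ 10 * (m + 1) := fun m => by omega
      simpa using key (x.1 ^ 2)
  refine ⟨_, (RlzQ.comp s4 (RlzQ.comp s3 (RlzQ.comp s2 s1))).mono 100 ?_, ?_⟩
  · intro K _ x
    dsimp only
    have key : ∀ m : ℕ, m ^ 2 + m ^ 2 + (2 * m - 1) ^ 3 + (2 * m - 1) ^ 2 ≤
        100 * (m ^ 3 + 1) := by
      intro m
      have h1 : (2 * m - 1) ^ 3 ≤ (2 * m) ^ 3 := Nat.pow_le_pow_left (Nat.sub_le _ _) 3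
      have h2 : (2 * m - 1) ^ 2 ≤ (2 * m) ^ 2 := Nat.pow_le_pow_left (Nat.sub_le _ _) 2
      have h3 : m ^ 2 ≤ m ^ 3 + 1 := by
        rcases Nat.eq_zero_or_pos m with h | h
        · rw [h]; norm_num
        · exact (Nat.pow_le_pow_right h (show 2 ≤ 3 by norm_num)).trans (Nat.le_succ _)
      rw [mul_pow] at h1 h2
      omega
    exact key x.1
  · intro K _ d f₀ a hd1 hm hd ha
    dsimp only
    set A := SY.sysA d (SY.der d a) (tabF (d + 1) fun i => a i) with hA
    set b : ℕ → K := tabF 1 (fun _ => (1 : K)) with hb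
    set w := G K (2 * d - 1, (A, b)) with hw
    have hb1 : ∀ i, b i = (1 : K[X]).coeff i := by
      intro i
      rw [hb, coeff_one]
      unfold tabF
      by_cases h : i = 0
      · rw [if_pos (by omega), if_pos h]
      · rw [if_neg (by omega), if_neg h]
    have hmv : ∀ z : ℕ → K, (matOf (2 * d - 1) (2 * d - 1) A).mulVec
        (fun i : Fin (2 * d - 1) => z i) = (fun i : Fin (2 * d - 1) =>
          (apol d z * derivative f₀ + apol (d - 1) (fun j => z (d + j)) * f₀).coeff i) := by
      intro z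
      funext i
      rw [← SY.sys_eq d hd1 f₀ a z hd ha i i.2]
      unfold Matrix.mulVec dotProduct matOf
      simp only [Matrix.of_apply]
      rw [Finset.sum_range]
    have hchk : SY.chk (2 * d - 1) A b w ≠ 0 ↔ ∀ i < 2 * d - 1,
        (apol d w * derivative f₀ + apol (d - 1) (fun j => w (d + j)) * f₀).coeff i =
          (1 : K[X]).coeff i := by
      unfold SY.chk
      rw [SY.chk_iff]
      refine forall₂_congr fun i hi => ?_
      rw [SY.sys_eq d hd1 f₀ a w hd ha i hi, hb1]
    constructor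
    · intro hs
      rw [hchk]
      obtain ⟨z, hz⟩ := SY.exists_sol d hd1 f₀ hm hd hs
      have h1 := hGs K (2 * d - 1) A b ⟨fun i => z i, by
        rw [hmv z, hz]
        funext i
        rw [hb1]⟩
      rw [← hw, hmv w] at h1
      intro i hi
      have h2 := congrFun h1 ⟨i, hi⟩
      rw [← hb1]
      exact h2
    · intro h
      rw [hchk] at h
      exact ⟨_, SY.eq_one_of d hd1 f₀ w hd h⟩

end Pool.Agent.AbsIrr
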