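import Mathlib
import Pool.Agent.Lib.MP_2adc98_lc.FDefs
import Pool.Agent.Lib.MP_2adc98_lc.SY

/-!
# MP_2adc98_lc, stage 2: inversion modulo a monic polynomial by linear algebra
-/

set_option autoImplicit false

namespace Pool.Agent.AbsIrr

open Finset Polynomial

namespace FN

theorem apol_natDegree_le {K : Type} [Field K] (n : ℕ) (z : ℕ → K) :
    (apol n z).natDegree ≤ n - 1 := by
  rw [natDegree_le_iff_coeff_eq_zero]
  intro k hk
  rw [SY.apol_coeff, if_neg (by omega)]

theorem gmon_coeff {K : Type} [Field K] (n : ℕ) (g : ℕ → K) (m : ℕ) :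
    (gmon n g).coeff m = if m < n then g m else if m = n then 1 else 0 := by
  have h := SY.apol_coeff n g m
  unfold apol at h
  unfold gmon
  rw [coeff_add, h, coeff_X_pow]
  by_cases h1 : m < n
  · rw [if_pos h1, if_pos h1, if_neg (by omega), zero_add]
  · rw [if_neg h1, if_neg h1, add_zero]

theorem gmon_natDegree {K : Type} [Field K] (n : ℕ) (g : ℕ → K) : (gmon n g).natDegree = n := by
  apply le_antisymm
  · rw [natDegree_le_iff_coeff_eq_zero]
    intro k hk
    rw [gmon_coeff, if_neg (by omega), if_neg (by omega)]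
  · apply le_natDegree_of_ne_zero
    rw [gmon_coeff, if_neg (lt_irrefl _), if_pos rfl]
    exact one_ne_zero

theorem gmon_monic {K : Type} [Field K] (n : ℕ) (g : ℕ → K) : (gmon n g).Monic := by
  rw [Monic, leadingCoeff, gmon_natDegree, gmon_coeff, if_neg (lt_irrefl _), if_pos rfl]

section defs
variable {K : Type} [Field K]

/-- the coefficients of the monic polynomial -/
def gar (n : ℕ) (g : ℕ → K) : ℕ → K := tabF (n + 1) (fun i => if i < n then g i else 1)

end defs

theorem gar_eq {K : Type} [Field K] (n : ℕ) (g : ℕ → K) (m : ℕ) :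
    gar n g m = (gmon n g).coeff m := by
  rw [gmon_coeff]
  unfold gar tabF
  dsimp only
  by_cases h1 : m < n
  · rw [if_pos (by omega), if_pos h1, if_pos h1]
  · by_cases h2 : m = n
    · rw [if_pos (by omega), if_neg h1, if_neg h1, if_pos h2]
    · rw [if_neg (by omega), if_neg h1, if_neg h2]

theorem sys_eq {K : Type} [Field K] (n : ℕ) (hn1 : 1 ≤ n) (g A w : ℕ → K) (i : ℕ)
    (hi : i < 2 * n - 1) :
    ∑ j ∈ range (2 * n - 1), SY.sysA n (tabF n A) (gar n g) (i * (2 * n - 1) + j) * w j =
      (apol n w * apol n A + apol (n - 1) (fun j => w (n + j)) * gmon n g).coeff i := by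
  have hn : 2 * n - 1 = n + (n - 1) := by omega
  have hA : ∀ m, tabF n A m = (apol n A).coeff m := fun m => by
    rw [SY.apol_coeff]; rfl
  have hent : ∀ j < 2 * n - 1, SY.sysA n (tabF n A) (gar n g) (i * (2 * n - 1) + j) =
      if j < n then (if j ≤ i then (apol n A).coeff (i - j) else 0)
        else (if j - n ≤ i then (gmon n g).coeff (i - (j - n)) else 0) := by
    intro j hj
    have h1 : (i * (2 * n - 1) + j) / (2 * n - 1) = i := by
      rw [mul_comm, Nat.mul_add_div (by omega), Nat.div_eq_of_lt hj, add_zero]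
    have h2 : (i * (2 * n - 1) + j) % (2 * n - 1) = j := by
      rw [mul_comm, Nat.mul_add_mod, Nat.mod_eq_of_lt hj]
    have h3 : i * (2 * n - 1) + j < (2 * n - 1) * (2 * n - 1) := by
      calc i * (2 * n - 1) + j < i * (2 * n - 1) + (2 * n - 1) := by omega
        _ = (i + 1) * (2 * n - 1) := by ring
        _ ≤ (2 * n - 1) * (2 * n - 1) := Nat.mul_le_mul_right _ hi
    have e0 : SY.sysA n (tabF n A) (gar n g) (i * (2 * n - 1) + j) =
        SY.sysE (2 * n - 1) n (tabF n A) (gar n g) (i * (2 * n - 1) + j) := if_pos h3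
    rw [e0]
    unfold SY.sysE
    rw [h1, h2, hA, gar_eq]
  rw [Finset.sum_congr rfl (fun j hj => by rw [hent j (Finset.mem_range.mp hj)]), coeff_add,
    SY.apol_mul_coeff, SY.apol_mul_coeff, hn, Finset.sum_range_add]
  congr 1
  · refine Finset.sum_congr rfl fun j hj => ?_
    rw [if_pos (Finset.mem_range.mp hj)]
  · refine Finset.sum_congr rfl fun j hj => ?_
    rw [if_neg (by omega), Nat.add_sub_cancel_left]

/-- the solution of the system in the coprime case -/
theorem exists_sol {K : Type} [Field K] (n : ℕ) (hn1 : 1 ≤ n) (g A : ℕ → K)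
    (hc : IsCoprime (apol n A) (gmon n g)) : ∃ w : ℕ → K,
      apol n w * apol n A + apol (n - 1) (fun j => w (n + j)) * gmon n g = 1 := by
  obtain ⟨b, a, hab⟩ := hc
  have hm := gmon_monic n g
  have hd := gmon_natDegree n g
  set f := gmon n g with hf
  set P := apol n A with hP
  have hPd : P.natDegree ≤ n - 1 := apol_natDegree_le n A
  set v := b %ₘ f with hv
  set u := a + (b /ₘ f) * P with hu
  have e1 : v * P + u * f = 1 := by
    have := modByMonic_add_div b f
    calc v * P + u * f = a * f + (v + f * (b /ₘ f)) * P := by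
          rw [hu]; ring
      _ = 1 := by rw [hv, this, ← hab]; ring
  have hf1 : f ≠ 1 := by
    intro h
    rw [h] at hd
    simp at hd
    omega
  have hvd : v.natDegree < n := hd ▸ natDegree_modByMonic_lt b hm hf1
  have hud : ∀ k, n - 1 ≤ k → u.coeff k = 0 := by
    intro k hk
    by_cases hu0 : u = 0
    · rw [hu0, coeff_zero]
    · have h1 : (u * f).natDegree = u.natDegree + n := by
        rw [natDegree_mul hu0 hm.ne_zero, hd]
      have h2 : u * f = 1 - v * P := by rw [← e1]; ring
      have h3 : (1 - v * P).natDegree ≤ 2 * n - 2 := by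
        refine (natDegree_sub_le _ _).trans (max_le (by simp) ?_)
        refine natDegree_mul_le.trans ?_
        omega
      rw [← h2, h1] at h3
      exact coeff_eq_zero_of_natDegree_lt (by omega)
  refine ⟨fun j => if j < n then v.coeff j else u.coeff (j - n), ?_⟩
  have e2 : apol n (fun j => if j < n then v.coeff j else u.coeff (j - n)) = v := by
    ext k
    rw [SY.apol_coeff]
    split_ifs with h
    · rfl
    · rw [coeff_eq_zero_of_natDegree_lt (by omega)]
  have e3 : apol (n - 1) (fun j => if n + j < n then v.coeff (n + j) else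
      u.coeff (n + j - n)) = u := by
    ext k
    rw [SY.apol_coeff]
    split_ifs with h h'
    · omega
    · rw [Nat.add_sub_cancel_left]
    · rw [hud k (by omega)]
  rw [e2, e3, e1]

theorem eq_one_of {K : Type} [Field K] (n : ℕ) (hn1 : 1 ≤ n) (g A : ℕ → K) (w : ℕ → K)
    (h : ∀ i < 2 * n - 1,
      (apol n w * apol n A + apol (n - 1) (fun j => w (n + j)) * gmon n g).coeff i =
        (1 : K[X]).coeff i) :
    apol n w * apol n A + apol (n - 1) (fun j => w (n + j)) * gmon n g = 1 := by
  ext i
  by_cases hi : i < 2 * n - 1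
  · exact h i hi
  · have h1 : (apol n w * apol n A).coeff i = 0 := by
      apply coeff_eq_zero_of_natDegree_lt
      have h2 := natDegree_mul_le (p := apol n w) (q := apol n A)
      have h3 := apol_natDegree_le n w
      have h4 := apol_natDegree_le n A
      omega
    have h2 : (apol (n - 1) (fun j => w (n + j)) * gmon n g).coeff i = 0 := by
      rcases Nat.eq_zero_or_pos (n - 1) with h0 | h0
      · rw [h0]
        simp [apol]
      · apply coeff_eq_zero_of_natDegree_lt
        have h2 := natDegree_mul_le (p := apol (n - 1) (fun j => w (n + j))) (q := gmon n g)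
        have h3 := apol_natDegree_le (n - 1) (fun j => w (n + j))
        have h4 := gmon_natDegree n g
        omega
    rw [coeff_add, h1, h2, add_zero, coeff_one, if_neg (by omega)]

end FN

/-- inversion modulo `gmon n g` -/
theorem modinv : ∃ F : Fam (.prod .nat (.prod .arr .arr)) .arr,
    RlzQ F (fun _ _ x => (x.1 + 1) ^ 3) ∧
    ∀ (K : Type) [Field K] (n : ℕ) (g A : ℕ → K), IsCoprime (apol n A) (gmon n g) →
      gmon n g ∣ apol n (F K (n, (g, A))) * apol n A - 1 := by
  obtain ⟨G, hG, hGs⟩ := gauss_solve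
  have s1 : RlzQ (a := .prod .nat (.prod .arr .arr)) (b := .prod .nat (.prod .arr .arr))
      (fun K _ x => (x.1, (tabF x.1 (fun i => x.2.2 i),
        tabF (x.1 + 1) (fun i => if i < x.1 then x.2.1 i else (1 : K)))))
      (fun _ _ x => x.1 ^ 2) := by
    apply RlzQ.mono
    case h =>
      exact RlzQ.pair (RlzQ.fst RlzQ.input) (RlzQ.pair
        (RlzQ.tab (RlzQ.fst RlzQ.input)
          (RlzQ.get (RlzQ.snd (RlzQ.snd (RlzQ.fst RlzQ.input))) (RlzQ.snd RlzQ.input)))
        (RlzQ.tab (RlzQ.add (RlzQ.fst RlzQ.input) (RlzQ.lit 1))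
          (RlzQ.iteLt (RlzQ.snd RlzQ.input) (RlzQ.fst (RlzQ.fst RlzQ.input))
            (RlzQ.get (RlzQ.fst (RlzQ.snd (RlzQ.fst RlzQ.input))) (RlzQ.snd RlzQ.input))
            RlzQ.one)))
    case A => exact 10
    case hc =>
      intro K _ x
      simp
      nlinarith
  have s2 : RlzQ (a := .prod .nat (.prod .arr .arr)) (b := .prod .nat (.prod .arr .arr))
      (fun K _ x => (2 * x.1 - 1, (SY.sysA x.1 x.2.1 x.2.2, tabF 1 (fun _ => (1 : K)))))
      (fun _ _ x => x.1 ^ 2) := by
    apply RlzQ.mono
    case h =>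
      exact RlzQ.pair (RlzQ.sub (RlzQ.mul (RlzQ.lit 2) (RlzQ.fst RlzQ.input)) (RlzQ.lit 1))
        (RlzQ.pair SY.sysA_rlz (RlzQ.tab (f := fun K _ _ _ => (1 : K)) (RlzQ.lit 1) RlzQ.one))
    case A => exact 10
    case hc =>
      intro K _ x
      simp
  refine ⟨_, (RlzQ.comp hG (RlzQ.comp s2 s1)).mono 100 ?_, ?_⟩
  · intro K _ x
    dsimp only
    have key : ∀ m : ℕ, m ^ 2 + m ^ 2 + (2 * m - 1) ^ 3 ≤ 100 * ((m + 1) ^ 3 + 1) := by
      intro m
      have h1 : (2 * m - 1) ^ 3 ≤ (2 * m) ^ 3 := Nat.pow_le_pow_left (Nat.sub_le _ _) 3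
      rw [mul_pow] at h1
      nlinarith [Nat.zero_le (m ^ 3), Nat.zero_le (m ^ 2)]
    exact key x.1
  · intro K _ n g A hc
    dsimp only
    rcases Nat.eq_zero_or_pos n with hn0 | hn1
    · subst hn0
      have : gmon 0 g = 1 := by simp [gmon]
      rw [this]
      exact one_dvd _
    set M := SY.sysA n (tabF n fun i => A i)
      (tabF (n + 1) fun i => if i < n then g i else (1 : K)) with hM
    have hM' : M = SY.sysA n (tabF n A) (FN.gar n g) := rfl
    set b : ℕ → K := tabF 1 (fun _ => (1 : K)) with hb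
    set w := G K (2 * n - 1, (M, b)) with hw
    have hb1 : ∀ i, b i = (1 : K[X]).coeff i := by
      intro i
      rw [hb, coeff_one]
      unfold tabF
      by_cases h : i = 0
      · rw [if_pos (by omega), if_pos h]
      · rw [if_neg (by omega), if_neg h]
    have hmv : ∀ z : ℕ → K, (matOf (2 * n - 1) (2 * n - 1) M).mulVec
        (fun i : Fin (2 * n - 1) => z i) = (fun i : Fin (2 * n - 1) =>
          (apol n z * apol n A + apol (n - 1) (fun j => z (n + j)) * gmon n g).coeff i) := by
      intro z
      funext i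
      rw [← FN.sys_eq n hn1 g A z i i.2]
      unfold Matrix.mulVec dotProduct matOf
      simp only [Matrix.of_apply]
      rw [Finset.sum_range, hM']
    obtain ⟨z, hz⟩ := FN.exists_sol n hn1 g A hc
    have h1 := hGs K (2 * n - 1) M b ⟨fun i => z i, by
      rw [hmv z, hz]
      funext i
      rw [hb1]⟩
    rw [← hw, hmv w] at h1
    have h2 := FN.eq_one_of n hn1 g A w (fun i hi => by
      have h2 := congrFun h1 ⟨i, hi⟩
      rw [← hb1]
      exact h2)
    refine ⟨-apol (n - 1) (fun j => w (n + j)), ?_⟩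
    rw [← h2]
    ring

end Pool.Agent.AbsIrr
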