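import Mathlib
import Pool.Agent.Lib.MP_2adc98_lc.FAsm
import Pool.Agent.Lib.MP_2adc98_lc.FCost1
import Pool.Agent.Lib.MP_2adc98_lc.FN

/-!
# MP_2adc98_lc, stage 2: the factorization program and its cost
-/

set_option autoImplicit false

namespace Pool.Agent.AbsIrr

open Finset Polynomial

/-- the factorization program -/
def theOut (t0 : PProg Inp St0) (tN0 : PProg St0 .nat) (t1 : PProg (.prod St0 .nat) St1)
    (tN1 : PProg St1 .nat) (tN2 : PProg St2 .nat) (t3 : PProg (.prod St2 .nat) Prt) :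
    Out Prt Inp :=
  .after t0 (.loop tN0 (.after t1 (.loop tN1 (.loop tN2 (.print t3)))))

/-- getting rid of the logarithmic factors -/
theorem log_factor (c P : ℕ) : ∃ c', ∀ d g n : ℕ, 1 ≤ d → g + n + 2 ≤ P * (d + 1) ^ 9 →
    c * (g + 1) * (Nat.log 2 (g + n + 2) + 1) ^ c ≤
      c' * (Nat.log 2 d + 1) ^ c' * (g + 1) := by
  refine ⟨c * (Nat.log 2 P + 20) ^ c + c, fun d g n hd h => ?_⟩
  have h1 : Nat.log 2 (g + n + 2) + 1 ≤ (Nat.log 2 P + 20) * (Nat.log 2 d + 1) := by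
    have e1 := Nat.log_mono_right (b := 2) h
    have e2 := log_mul_le P ((d + 1) ^ 9)
    have e3 := log_pow_le (d + 1) 9
    have e4 : Nat.log 2 (d + 1) ≤ Nat.log 2 d + 1 := by
      have f1 : Nat.log 2 (d + 1) ≤ Nat.log 2 (d * 2) := Nat.log_mono_right (by omega)
      rwa [Nat.log_mul_base (by norm_num) (by omega)] at f1
    nlinarith [Nat.zero_le (Nat.log 2 P * Nat.log 2 d)]
  have h2 : (Nat.log 2 d + 1) ^ c ≤ (Nat.log 2 d + 1) ^ (c * (Nat.log 2 P + 20) ^ c + c) :=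
    Nat.pow_le_pow_right (by omega) (by omega)
  calc c * (g + 1) * (Nat.log 2 (g + n + 2) + 1) ^ c
      ≤ c * (g + 1) * ((Nat.log 2 P + 20) * (Nat.log 2 d + 1)) ^ c := by gcongr
    _ = c * (Nat.log 2 P + 20) ^ c * (Nat.log 2 d + 1) ^ c * (g + 1) := by rw [mul_pow]; ring
    _ ≤ (c * (Nat.log 2 P + 20) ^ c + c) * (Nat.log 2 d + 1) ^ (c * (Nat.log 2 P + 20) ^ c + c) *
        (g + 1) := by
      gcongr
      omega

theorem bitc_zero_le {i d : ℕ} (hi : i ≤ d) : bitc i 0 ≤ 4 * (Nat.log 2 d + 1) := by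
  unfold bitc
  have h1 : Nat.size i ≤ Nat.log 2 d + 1 := by
    refine Nat.size_le.2 ?_
    exact lt_of_le_of_lt hi (Nat.lt_pow_succ_log_self (by norm_num) d)
  have h2 : Nat.size 0 = 0 := Nat.size_zero
  rw [h2]
  omega

section

variable {κ q b : ℕ → ℕ → ℕ}
  {Fsh : Fam (.prod .nat (.prod .fld (.prod .fld .arr))) .arr}
  {Fmd : Fam (.prod .nat (.prod .nat .arr)) .arr}
  {F1 : Fam In1 Ot1} {F3 : Fam In3 (.prod .arr .arr)}
  {C : ℕ} (hC : ∀ d p, 2 ^ κ d p ≤ C * (d + 1) ^ 2 ∧ q d p ≤ C * (d + 1) ^ 2 ∧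
      2 ^ b d p ≤ C * (d + 1) ∧ q d p * 2 ^ b d p ≤ C * (d + 1) ^ 2)
  (hok : ∀ (K : Type) [Field K] (κ q e b d p m : ℕ) (f rho s ω : ℕ → K),
      CostOK d m rho (F1 K (κ, (q, (e, (b, (d, (p, (m, (f, (rho, (s, ω)))))))))))) 
  (hmd : ∀ (K : Type) [Field K] (d p : ℕ) [CharP K p] [Fact p.Prime] [PerfectRing K p]
      (f₀ : ℕ → K) (k : Type) [Field k] [IsAlgClosed k] [Algebra K k],
      IsRho d ((gmon d f₀).map (algebraMap K k)) (Fmd K (d, (p, f₀))))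

include hC in
theorem St0_nmx {K : Type} [Field K] {d p : ℕ} (hp : p < d ^ 2) (A ω : ℕ → K) :
    St0.nmx K (a0 κ q b Fsh Fmd K (d, (p, (A, ω)))) ≤ (C + 1) * (d + 1) ^ 2 := by
  have h1 := hC d p
  have hκ : κ d p ≤ 2 ^ κ d p := Nat.lt_two_pow_self.le
  have hb : b d p ≤ 2 ^ b d p := Nat.lt_two_pow_self.le
  have he : Nat.log p (q d p) ≤ q d p := Nat.log_le_self _ _
  have hb' : C * (d + 1) ≤ C * (d + 1) ^ 2 := Nat.mul_le_mul_left _ (by nlinarith)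
  have hd' : (d + 1) ^ 2 = d ^ 2 + 2 * d + 1 := by ring
  have hcd : C * (d + 1) ^ 2 ≤ (C + 1) * (d + 1) ^ 2 := Nat.mul_le_mul_right _ (by omega)
  have hcd2 : (d + 1) ^ 2 ≤ (C + 1) * (d + 1) ^ 2 := Nat.le_mul_of_pos_left _ (by omega)
  change max (max d (max p (max 0 0))) (max (max (κ d p) (max (q d p)
    (max (Nat.log p (q d p)) (b d p)))) (max 0 (max 0 (max 0 (max 0 0))))) ≤ _
  have : d ≤ (d + 1) ^ 2 := by nlinarith
  have : p ≤ (d + 1) ^ 2 := by omega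
  simp only [max_le_iff]
  refine ⟨⟨by omega, by omega, by omega, by omega⟩, ⟨?_, ?_, ?_, ?_⟩, by omega, by omega, by omega,
    by omega, by omega⟩
  · omega
  · omega
  · omega
  · omega

include hmd in
theorem sum_gmn_rho {K : Type} [Field K] {d p : ℕ} [CharP K p] [Fact p.Prime] [PerfectRing K p]
    (A ω : ℕ → K) :
    ∑ m ∈ range (d + 1), gmn d m (aRho Fsh Fmd K (d, (p, (A, ω)))) ≤ d := by
  have h := hmd K d p (tF0 Fsh K (d, (p, (A, ω)))) (AlgebraicClosure K)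
  exact sum_gmn_le (by rw [(FN.gmon_monic d _).natDegree_map, FN.gmon_natDegree]) h

include hok in
theorem ok1 {K : Type} [Field K] (d p : ℕ) (A ω : ℕ → K) (m : ℕ) :
    CostOK d m (aRho Fsh Fmd K (d, (p, (A, ω))))
      (a1 F1 K (a0 κ q b Fsh Fmd K (d, (p, (A, ω))), m)).2 :=
  hok K _ _ _ _ d p m _ _ _ _

/-- the bound for the cost of one multiplicity -/
theorem k1_le {K : Type} [Field K] {κ' q' e' b' d p C : ℕ} (h1 : 2 ^ κ' ≤ C * (d + 1) ^ 2)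
    (h2 : q' ≤ C * (d + 1) ^ 2) (h3 : 2 ^ b' ≤ C * (d + 1)) (h4 : q' * 2 ^ b' ≤ C * (d + 1) ^ 2)
    (hp : p ≤ (d + 1) ^ 2) (m : ℕ) (rho : ℕ → K) :
    cP1 κ' q' e' b' d p m rho ≤
      (C ^ 2 + 4 * C + 2) * (d + 1) ^ 2 * (e' + 1) * (gmn d m rho + 1) := by
  unfold cP1
  have h5 : (d + 1) * 2 ^ b' ≤ C * (d + 1) ^ 2 := by
    calc (d + 1) * 2 ^ b' ≤ (d + 1) * (C * (d + 1)) := Nat.mul_le_mul_left _ h3
      _ = C * (d + 1) ^ 2 := by ring
  have h6 : 4 ^ b' ≤ C ^ 2 * (d + 1) ^ 2 := by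
    calc 4 ^ b' = (2 ^ b') ^ 2 := by rw [← pow_mul, mul_comm b' 2, pow_mul]; norm_num
      _ ≤ (C * (d + 1)) ^ 2 := Nat.pow_le_pow_left h3 2
      _ = C ^ 2 * (d + 1) ^ 2 := by ring
  have h7 : ((gmn d m rho + 1) * ((d + 1) ^ 2 + 2 ^ κ' + q' * 2 ^ b' + (d + 1) * 2 ^ b') +
      4 ^ b' + q' + p) ≤ (C ^ 2 + 4 * C + 2) * (d + 1) ^ 2 * (gmn d m rho + 1) := by
    have h8 : (gmn d m rho + 1) * ((d + 1) ^ 2 + 2 ^ κ' + q' * 2 ^ b' + (d + 1) * 2 ^ b') ≤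
        (gmn d m rho + 1) * ((1 + 3 * C) * (d + 1) ^ 2) := by
      refine Nat.mul_le_mul_left _ ?_
      nlinarith
    have h9 : 4 ^ b' + q' + p ≤ (C ^ 2 + C + 1) * (d + 1) ^ 2 := by nlinarith
    have h10 : (C ^ 2 + C + 1) * (d + 1) ^ 2 ≤
        (C ^ 2 + C + 1) * (d + 1) ^ 2 * (gmn d m rho + 1) :=
      Nat.le_mul_of_pos_right _ (Nat.succ_pos _)
    nlinarith
  calc _ ≤ (C ^ 2 + 4 * C + 2) * (d + 1) ^ 2 * (gmn d m rho + 1) * (e' + 1) :=
        Nat.mul_le_mul_right _ h7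
    _ = _ := by ring

end

/-- the arithmetic of the total cost -/
theorem total_arith {B D N0 Q' E : ℕ} (hB : 1 ≤ B) (hD : 1 ≤ D) {g n : ℕ → ℕ}
    {c1 cN1 : ℕ → ℕ} {cN2 N2 : ℕ → ℕ → ℕ} {c3 : ℕ → ℕ → ℕ → ℕ} {bb : ℕ → ℕ} {ν : ℕ → ℕ → ℕ}
    {c0 cN0 : ℕ} (h0 : c0 ≤ B * (2 * D ^ 3 + 1)) (hN0c : cN0 ≤ B) (hN0 : N0 ≤ D)
    (hbb : ∀ i < D, bb i ≤ B) (hg : ∑ m ∈ range D, g m ≤ D) (hng : ∀ m < D, n m ≤ g m)
    (hgD : ∀ m < D, g m < D)
    (h1 : ∀ m < D, c1 m ≤ B * (Q' * D ^ 2 * E * (g m + 1) + 1)) (hN1 : ∀ m < D, cN1 m ≤ B)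
    (hN2c : ∀ m < D, ∀ δ < n m + 1, cN2 m δ ≤ B * (n m + 1))
    (hN2 : ∀ m < D, ∀ δ < n m + 1, N2 m δ ≤ 1 ∧ N2 m δ ≤ δ * ν m δ)
    (hν : ∀ m < D, ∑ δ ∈ range (n m + 1), δ * ν m δ ≤ n m)
    (h3 : ∀ m < D, ∀ δ < n m + 1, ∀ l < N2 m δ,
      c3 m δ l ≤ B * (36 * (δ * ν m δ) * D ^ 2 + 1)) :
    c0 + (cN0 + (∑ m ∈ range N0, (c1 m + (cN1 m + (∑ δ ∈ range (n m + 1), ((cN2 m δ +
      (∑ l ∈ range (N2 m δ), (c3 m δ l + 1 + bb l)) + 1) + bb δ)) + 1) + 1 + bb m)) + 1) + 1 ≤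
      B * D ^ 3 * (2 * Q' * E + 100) := by
  have hD2 : 1 ≤ D ^ 2 := Nat.one_le_pow _ _ hD
  have hD3 : 1 ≤ D ^ 3 := Nat.one_le_pow _ _ hD
  have hDD : D ≤ D ^ 2 := by nlinarith
  -- the innermost sum
  have hI : ∀ m < D, ∀ δ < n m + 1, ((cN2 m δ +
      (∑ l ∈ range (N2 m δ), (c3 m δ l + 1 + bb l)) + 1) + bb δ) ≤
      B * (n m + 3) + B * 39 * D ^ 2 * (δ * ν m δ) := by
    intro m hm δ hδ
    have e1 := hN2c m hm δ hδ
    obtain ⟨e2, e3⟩ := hN2 m hm δ hδ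
    have e4 := hbb δ (by have := hng m hm; have := hgD m hm; omega)
    have e5 : ∑ l ∈ range (N2 m δ), (c3 m δ l + 1 + bb l) ≤ B * 39 * D ^ 2 * (δ * ν m δ) := by
      rcases Nat.eq_zero_or_pos (N2 m δ) with h | h
      · rw [h]
        simp
      · have h' : N2 m δ = 1 := by omega
        have h6 := h3 m hm δ hδ 0 h
        have h7 := hbb 0 (by omega)
        rw [h', Finset.sum_range_one]
        set w := δ * ν m δ with hw
        have h8 : 1 ≤ w := by omega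
        have h9 : 1 ≤ D ^ 2 * w := Nat.mul_pos (by omega) (by omega)
        have h10 : B ≤ B * (D ^ 2 * w) := Nat.le_mul_of_pos_right _ h9
        have h11 : B * (36 * w * D ^ 2 + 1) = 36 * (B * (D ^ 2 * w)) + B := by ring
        have h12 : B * 39 * D ^ 2 * w = 39 * (B * (D ^ 2 * w)) := by ring
        omega
    have e6 : B * (n m + 3) = B * (n m + 1) + 2 * B := by ring
    omega
  have hI2 : ∀ m < D, ∑ δ ∈ range (n m + 1), ((cN2 m δ +
      (∑ l ∈ range (N2 m δ), (c3 m δ l + 1 + bb l)) + 1) + bb δ) ≤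
      B * 42 * D ^ 2 * (n m + 1) := by
    intro m hm
    refine (Finset.sum_le_sum fun δ hδ => hI m hm δ (Finset.mem_range.mp hδ)).trans ?_
    rw [Finset.sum_add_distrib, Finset.sum_const, card_range, smul_eq_mul, ← Finset.mul_sum]
    have e1 := hν m hm
    have e2 : B * 39 * D ^ 2 * ∑ δ ∈ range (n m + 1), δ * ν m δ ≤ B * 39 * D ^ 2 * (n m + 1) :=
      Nat.mul_le_mul_left _ (by omega)
    have e3 : n m + 3 ≤ 3 * D ^ 2 := by
      have := hng m hm; have := hgD m hm; omega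
    have e4 : (n m + 1) * (B * (n m + 3)) ≤ (n m + 1) * (B * (3 * D ^ 2)) := by gcongr
    have e5 : B * 42 * D ^ 2 * (n m + 1) = (n m + 1) * (B * (3 * D ^ 2)) +
      B * 39 * D ^ 2 * (n m + 1) := by ring
    omega
  have hJ : ∀ m < D, (c1 m + (cN1 m + (∑ δ ∈ range (n m + 1), ((cN2 m δ +
      (∑ l ∈ range (N2 m δ), (c3 m δ l + 1 + bb l)) + 1) + bb δ)) + 1) + 1 + bb m) ≤
      B * D ^ 2 * (Q' * E + 47) * (g m + 1) := by
    intro m hm
    have e1 := h1 m hm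
    have e2 := hN1 m hm
    have e3 := hI2 m hm
    have e4 := hbb m hm
    have e5 : B * 42 * D ^ 2 * (n m + 1) ≤ B * 42 * D ^ 2 * (g m + 1) :=
      Nat.mul_le_mul_left _ (by have := hng m hm; omega)
    have e6 : 1 ≤ D ^ 2 * (g m + 1) := Nat.mul_pos (by omega) (by omega)
    have e7 : B ≤ B * (D ^ 2 * (g m + 1)) := Nat.le_mul_of_pos_right _ e6
    have e8 : B * D ^ 2 * (Q' * E + 47) * (g m + 1) = B * (Q' * D ^ 2 * E * (g m + 1)) +
      B * 42 * D ^ 2 * (g m + 1) + 5 * (B * (D ^ 2 * (g m + 1))) := by ring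
    have e9 : B * (Q' * D ^ 2 * E * (g m + 1) + 1) = B * (Q' * D ^ 2 * E * (g m + 1)) + B := by
      ring
    omega
  have hS : ∑ m ∈ range N0, (c1 m + (cN1 m + (∑ δ ∈ range (n m + 1), ((cN2 m δ +
      (∑ l ∈ range (N2 m δ), (c3 m δ l + 1 + bb l)) + 1) + bb δ)) + 1) + 1 + bb m) ≤
      B * D ^ 2 * (Q' * E + 47) * (2 * D) := by
    calc _ ≤ ∑ m ∈ range D, (c1 m + (cN1 m + (∑ δ ∈ range (n m + 1), ((cN2 m δ +
      (∑ l ∈ range (N2 m δ), (c3 m δ l + 1 + bb l)) + 1) + bb δ)) + 1) + 1 + bb m) :=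
          Finset.sum_le_sum_of_subset (Finset.range_subset_range.2 hN0)
      _ ≤ ∑ m ∈ range D, B * D ^ 2 * (Q' * E + 47) * (g m + 1) :=
          Finset.sum_le_sum fun m hm => hJ m (Finset.mem_range.mp hm)
      _ = B * D ^ 2 * (Q' * E + 47) * ∑ m ∈ range D, (g m + 1) := by rw [← Finset.mul_sum]
      _ ≤ B * D ^ 2 * (Q' * E + 47) * (2 * D) := by
        refine Nat.mul_le_mul_left _ ?_
        rw [Finset.sum_add_distrib, Finset.sum_const, card_range, smul_eq_mul]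
        omega
  have e1 : B ≤ B * D ^ 3 := Nat.le_mul_of_pos_right _ hD3
  have e2 : B * D ^ 3 * (2 * Q' * E + 100) = B * D ^ 2 * (Q' * E + 47) * (2 * D) +
    6 * (B * D ^ 3) := by ring
  have e3 : B * (2 * D ^ 3 + 1) = 2 * (B * D ^ 3) + B := by ring
  omega

/-- the number of steps of the factorization program -/
theorem theOut_steps {t0 : PProg Inp St0} {tN0 : PProg St0 .nat} {t1 : PProg (.prod St0 .nat) St1}
    {tN1 : PProg St1 .nat} {tN2 : PProg St2 .nat} {t3 : PProg (.prod St2 .nat) Prt}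
    {K : Type} [Field K] {x : Inp.val K} {y : St0.val K} {N0 : ℕ} {z : ℕ → St1.val K}
    {n : ℕ → ℕ} {N2 : ℕ → ℕ → ℕ} (h0 : t0.run K x = y) (hN0 : tN0.run K y = N0)
    (h1 : ∀ m, t1.run K (y, m) = z m) (hN1 : ∀ m, tN1.run K (z m) = n m + 1)
    (hN2 : ∀ m δ, tN2.run K (z m, δ) = N2 m δ) :
    (theOut t0 tN0 t1 tN1 tN2 t3).steps K x = t0.bcost K x + (tN0.bcost K y +
      (∑ m ∈ range N0, (t1.bcost K (y, m) + (tN1.bcost K (z m) + (∑ δ ∈ range (n m + 1),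
      ((tN2.bcost K (z m, δ) + (∑ l ∈ range (N2 m δ), (t3.bcost K ((z m, δ), l) + 1 +
        bitc l 0)) + 1) + bitc δ 0)) + 1) + 1 + bitc m 0)) + 1) + 1 := by
  change t0.steps K x + (tN0.steps K (t0.eval K x) +
      (∑ m ∈ range (tN0.eval K (t0.eval K x)), (t1.steps K (t0.eval K x, m) +
        (tN1.steps K (t1.eval K (t0.eval K x, m)) +
        (∑ δ ∈ range (tN1.eval K (t1.eval K (t0.eval K x, m))),
      ((tN2.steps K (t1.eval K (t0.eval K x, m), δ) +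
        (∑ l ∈ range (tN2.eval K (t1.eval K (t0.eval K x, m), δ)),
          (t3.steps K ((t1.eval K (t0.eval K x, m), δ), l) + 1 +
        bitc l 0)) + 1) + bitc δ 0)) + 1) + 1 + bitc m 0)) + 1) + 1 = _
  simp only [PProg.eval_eq, PProg.steps_eq, h0, hN0, h1, hN1, hN2]

/-- a cost bound for one part -/
def CB {a b : Ty} (c : ℕ) (t : PProg a b) (F : Fam a b) (g : CFam a) : Prop :=
  ∀ (K : Type) [Field K] (x : a.val K), t.run K x = F K x ∧
    t.bcost K x ≤ c * (g K x + 1) * (Nat.log 2 (g K x + a.nmx K x + 2) + 1) ^ c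

theorem CB.mono {a b : Ty} {c c' : ℕ} (hc : c ≤ c') {t : PProg a b} {F : Fam a b} {g : CFam a}
    (h : CB c t F g) : CB c' t F g := by
  intro K _ x
  refine ⟨(h K x).1, (h K x).2.trans ?_⟩
  have h1 : (Nat.log 2 (g K x + a.nmx K x + 2) + 1) ^ c ≤
      (Nat.log 2 (g K x + a.nmx K x + 2) + 1) ^ c' := Nat.pow_le_pow_right (by omega) hc
  gcongr

section

variable {κ q b : ℕ → ℕ → ℕ}
  {Fsh : Fam (.prod .nat (.prod .fld (.prod .fld .arr))) .arr}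
  {Fmd : Fam (.prod .nat (.prod .nat .arr)) .arr}
  {F1 : Fam In1 Ot1} {F3 : Fam In3 (.prod .arr .arr)}
  {C : ℕ} (hC : ∀ d p, 2 ^ κ d p ≤ C * (d + 1) ^ 2 ∧ q d p ≤ C * (d + 1) ^ 2 ∧
      2 ^ b d p ≤ C * (d + 1) ∧ q d p * 2 ^ b d p ≤ C * (d + 1) ^ 2)
  (hok : ∀ (K : Type) [Field K] (κ q e b d p m : ℕ) (f rho s ω : ℕ → K),
      CostOK d m rho (F1 K (κ, (q, (e, (b, (d, (p, (m, (f, (rho, (s, ω)))))))))))) 
  (hmd : ∀ (K : Type) [Field K] (d p : ℕ) [CharP K p] [Fact p.Prime] [PerfectRing K p]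
      (f₀ : ℕ → K) (k : Type) [Field k] [IsAlgClosed k] [Algebra K k],
      IsRho d ((gmon d f₀).map (algebraMap K k)) (Fmd K (d, (p, f₀))))

include hC hok hmd in
theorem theOut_cost {t0 : PProg Inp St0} {tN0 : PProg St0 .nat} {t1 : PProg (.prod St0 .nat) St1}
    {tN1 : PProg St1 .nat} {tN2 : PProg St2 .nat} {t3 : PProg (.prod St2 .nat) Prt} {c : ℕ}
    (h0 : CB c t0 (a0 κ q b Fsh Fmd) k0) (hN0 : CB c tN0 aN0 (fun _ _ _ => 0))
    (h1 : CB c t1 (a1 F1) k1) (hN1 : CB c tN1 aN1 (fun _ _ _ => 0))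
    (hN2 : CB c tN2 aN2 (fun _ _ x => x.1.2.1)) (h3 : CB c t3 (a3 F3) kk3) :
    ∃ C₂, ∀ (K : Type) [Field K] (d p : ℕ) [CharP K p] [Fact p.Prime] [PerfectRing K p]
      (A ω : ℕ → K), p < d ^ 2 → (theOut t0 tN0 t1 tN1 tN2 t3).steps K (d, (p, (A, ω))) ≤
        C₂ * d ^ 3 * (Nat.log 2 d + 1) ^ C₂ := by
  obtain ⟨c', hc'⟩ := log_factor c ((C ^ 2 + 4 * C + 2) * (C + 1) + C + 50)
  set P := (C ^ 2 + 4 * C + 2) * (C + 1) + C + 50 with hP
  set Q' := C ^ 2 + 4 * C + 2 with hQ'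
  refine ⟨8 * (c' + 4) * (2 * Q' * (Nat.log 2 C + 6) + 100) + c' + 2,
    fun K _ d p _ _ _ A ω hp => ?_⟩
  have hd : 1 ≤ d := by
    rcases Nat.eq_zero_or_pos d with rfl | h
    · simp at hp
    · exact h
  have hp2 : 2 ≤ p := (Fact.out : p.Prime).two_le
  set Λ := Nat.log 2 d + 1 with hΛ
  have hΛ1 : 1 ≤ Λ := by omega
  set x : Inp.val K := (d, (p, (A, ω))) with hx
  set y := a0 κ q b Fsh Fmd K x with hy
  set rho := aRho Fsh Fmd K x with hrho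
  set B := (c' + 4) * Λ ^ (c' + 1) with hB
  have hB1 : 1 ≤ B := by
    have : 1 ≤ Λ ^ (c' + 1) := Nat.one_le_pow _ _ hΛ1
    nlinarith
  have hBc : c' * Λ ^ c' ≤ B := by
    have : Λ ^ c' ≤ Λ ^ (c' + 1) := Nat.pow_le_pow_right hΛ1 (by omega)
    exact Nat.mul_le_mul (by omega) this
  have hBb : ∀ i < d + 1, bitc i 0 ≤ B := by
    intro i hi
    refine (bitc_zero_le (d := d) (by omega)).trans ?_
    have : Λ ≤ Λ ^ (c' + 1) := by
      calc Λ = Λ ^ 1 := (pow_one _).symm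
        _ ≤ Λ ^ (c' + 1) := Nat.pow_le_pow_right hΛ1 (by omega)
    exact Nat.mul_le_mul (by omega) this
  have hV : St0.nmx K y ≤ (C + 1) * (d + 1) ^ 2 := St0_nmx hC hp A ω
  set V := (C + 1) * (d + 1) ^ 2 with hVdef
  have hdV : d ≤ V := by
    have : (d + 1) ^ 2 ≤ (C + 1) * (d + 1) ^ 2 := Nat.le_mul_of_pos_left _ (by omega)
    nlinarith
  have hmV : ∀ m ≤ d, m ≤ V := fun m hm => hm.trans hdV
  have hpd : p ≤ (d + 1) ^ 2 := by nlinarith
  have hxV : Inp.nmx K x ≤ V := (le_max_left _ _).trans hV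
  have hpw : ∀ {i j : ℕ}, i ≤ j → (d + 1) ^ i ≤ (d + 1) ^ j := fun h =>
    Nat.pow_le_pow_right (by omega) h
  have hV9 : V ≤ (C + 1) * (d + 1) ^ 9 := Nat.mul_le_mul_left _ (hpw (by omega))
  have h19 : 1 ≤ (d + 1) ^ 9 := Nat.one_le_pow _ _ (by omega)
  have step : ∀ {a b : Ty} {t : PProg a b} {F : Fam a b} {g : CFam a} (h : CB c t F g)
      (u : a.val K) (G : ℕ), g K u ≤ G → g K u + 2 ≤ (P - C - 1) * (d + 1) ^ 9 →
      a.nmx K u ≤ V → t.bcost K u ≤ B * (G + 1) := by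
    intro a b t F g h u G hG hG9 hu
    have e0 : (P - C - 1) + (C + 1) = P := by omega
    have e1 : g K u + a.nmx K u + 2 ≤ P * (d + 1) ^ 9 := by
      rw [← e0, Nat.add_mul]
      omega
    refine ((h K u).2.trans (hc' d _ _ hd e1)).trans ?_
    exact Nat.mul_le_mul hBc (by omega)
  obtain ⟨hCκ, hCq, hCb, hCqb⟩ := hC d p
  set z : ℕ → St1.val K := fun m => a1 F1 K (y, m) with hz
  set n : ℕ → ℕ := fun m => (z m).2.1 with hn
  set S : ℕ → ℕ → K := fun m => (z m).2.2.2.2.2 with hS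
  have hcok : ∀ m, CostOK d m rho (z m).2 := fun m => ok1 hok d p A ω m
  have hgd : ∀ m, gmn d m rho ≤ d := fun m => by
    unfold gmn
    split_ifs with h
    · exact h
    · exact Nat.zero_le _
  have hng : ∀ m, n m ≤ gmn d m rho := by
    intro m
    obtain ⟨e1, e2, -⟩ := hcok m
    rcases Nat.eq_zero_or_pos m with h | h
    · change (z m).2.1 ≤ _
      rw [e2 h]
      exact Nat.zero_le _
    · rw [← e1]
      exact Nat.le_mul_of_pos_left _ h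
  have hν : ∀ m, ∑ δ ∈ range (n m + 1), δ * numc (n m) δ (S m) ≤ n m := by
    intro m
    obtain ⟨-, -, a, ha, hb, hc⟩ := hcok m
    exact sum_numc_le ha hb hc
  have hsteps := theOut_steps (t0 := t0) (tN0 := tN0) (t1 := t1) (tN1 := tN1) (tN2 := tN2)
    (t3 := t3) (K := K) (x := x) (y := y) (N0 := aN0 K y) (z := z) (n := n)
    (N2 := fun m δ => aN2 K (z m, δ)) (h0 K x).1 (hN0 K y).1 (fun m => (h1 K (y, m)).1)
    (fun m => (hN1 K (z m)).1) (fun m δ => (hN2 K (z m, δ)).1)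
  rw [hsteps]
  -- the parts
  set e := Nat.log p (q d p) with he
  have heq : e ≤ q d p := Nat.log_le_self _ _
  have hk1 : ∀ m, k1 K (y, m) ≤ Q' * (d + 1) ^ 2 * (e + 1) * (gmn d m rho + 1) := fun m =>
    k1_le hCκ hCq hCb hCqb hpd m rho
  have hk0 : k0 K x ≤ 2 * (d + 1) ^ 3 := by
    change (d + 1) ^ 3 + p * (d + 1) ≤ 2 * (d + 1) ^ 3
    have : p * (d + 1) ≤ (d + 1) ^ 2 * (d + 1) := Nat.mul_le_mul_right _ hpd
    have : (d + 1) ^ 2 * (d + 1) = (d + 1) ^ 3 := by ring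
    omega
  have hPC : (C ^ 2 + 4 * C + 2) * (C + 1) + 49 ≤ P - C - 1 := by omega
  have hbig : ∀ G : ℕ, G ≤ (Q' * (C + 1) + 47) * (d + 1) ^ 9 →
      G + 2 ≤ (P - C - 1) * (d + 1) ^ 9 := by
    intro G hG
    have e1 : (Q' * (C + 1) + 49) * (d + 1) ^ 9 ≤ (P - C - 1) * (d + 1) ^ 9 :=
      Nat.mul_le_mul_right _ hPC
    have e2 : (Q' * (C + 1) + 49) * (d + 1) ^ 9 =
      (Q' * (C + 1) + 47) * (d + 1) ^ 9 + 2 * (d + 1) ^ 9 := by ring
    omega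
  have hb0 : (0 : ℕ) ≤ (Q' * (C + 1) + 47) * (d + 1) ^ 9 := Nat.zero_le _
  have hznmx : ∀ m ≤ d, St1.nmx K (z m) ≤ V := by
    intro m hm
    have e1 : (z m).2.1 ≤ V := (hng m).trans ((hgd m).trans hdV)
    change max (max (St0.nmx K y) m) (max (z m).2.1 (max 0 (max 0 (max 0 0)))) ≤ V
    simp only [max_le_iff]
    exact ⟨⟨hV, by omega⟩, e1, by omega, by omega, by omega, by omega⟩
  refine (total_arith (D := d + 1) (Q' := Q') (E := e + 1) (g := fun m => gmn d m rho)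
    (ν := fun m δ => numc (n m) δ (S m)) (B := B) hB1 (by omega) ?_ ?_ ?_ hBb
    ((sum_gmn_rho hmd A ω).trans (by omega)) (fun m _ => hng m)
    (fun m _ => Nat.lt_succ_of_le (hgd m)) ?_ ?_ ?_ ?_ (fun m _ => hν m) ?_).trans ?_
  · refine step h0 x _ hk0 (hbig _ (hk0.trans ?_)) hxV
    exact Nat.mul_le_mul (by omega) (hpw (by omega))
  · exact (step hN0 y 0 le_rfl (hbig 0 hb0) hV).trans (by omega)
  · change aN0 K y ≤ d + 1
    unfold aN0
    split_ifs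
    · exact Nat.zero_le _
    · exact le_rfl
  · intro m hm
    refine step h1 (y, m) _ (hk1 m) (hbig _ ((hk1 m).trans ?_)) (max_le hV (hmV m (by omega)))
    have e1 : (d + 1) ^ 2 * (e + 1) * (gmn d m rho + 1) ≤ (C + 1) * (d + 1) ^ 9 := by
      have f1 : e + 1 ≤ (C + 1) * (d + 1) ^ 2 := by
        have : 1 ≤ (d + 1) ^ 2 := Nat.one_le_pow _ _ (by omega)
        rw [Nat.add_mul, one_mul]
        omega
      calc (d + 1) ^ 2 * (e + 1) * (gmn d m rho + 1)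
          ≤ (d + 1) ^ 2 * ((C + 1) * (d + 1) ^ 2) * (d + 1) := by
            have := hgd m
            gcongr
        _ = (C + 1) * (d + 1) ^ 5 := by ring
        _ ≤ (C + 1) * (d + 1) ^ 9 := Nat.mul_le_mul_left _ (hpw (by omega))
    calc Q' * (d + 1) ^ 2 * (e + 1) * (gmn d m rho + 1) =
        Q' * ((d + 1) ^ 2 * (e + 1) * (gmn d m rho + 1)) := by ring
      _ ≤ Q' * ((C + 1) * (d + 1) ^ 9) := Nat.mul_le_mul_left _ e1
      _ = Q' * (C + 1) * (d + 1) ^ 9 := by ring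
      _ ≤ (Q' * (C + 1) + 47) * (d + 1) ^ 9 := Nat.mul_le_mul_right _ (by omega)
  · intro m hm
    exact (step hN1 (z m) 0 le_rfl (hbig 0 hb0) (hznmx m (by omega))).trans (by omega)
  · intro m hm δ hδ
    have hnd : n m ≤ d := (hng m).trans (hgd m)
    refine step hN2 (z m, δ) (n m) le_rfl (hbig _ ?_)
      (max_le (hznmx m (by omega)) (hmV δ (by omega)))
    change n m ≤ _
    calc n m ≤ 1 * (d + 1) ^ 1 := by rw [one_mul, pow_one]; omega
      _ ≤ _ := Nat.mul_le_mul (by omega) (hpw (by omega))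
  · intro m hm δ hδ
    change aN2 K (z m, δ) ≤ 1 ∧ aN2 K (z m, δ) ≤ δ * numc (n m) δ (S m)
    unfold aN2
    dsimp only
    split_ifs with e1 e2
    · simp
    · simp
    · refine ⟨le_rfl, Nat.mul_pos (Nat.pos_of_ne_zero e1) (Nat.pos_of_ne_zero e2)⟩
  · intro m hm δ hδ l hl
    have hl' : l < aN2 K (z m, δ) := hl
    have hnd : n m ≤ d := (hng m).trans (hgd m)
    have e1 : δ ≠ 0 ∧ numc (n m) δ (S m) ≠ 0 ∧ l = 0 := by
      unfold aN2 at hl'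
      dsimp only at hl'
      split_ifs at hl' with f1 f2
      · exact absurd hl' (Nat.not_lt_zero _)
      · exact absurd hl' (Nat.not_lt_zero _)
      · exact ⟨f1, f2, Nat.lt_one_iff.mp hl'⟩
    obtain ⟨e1, e2, rfl⟩ := e1
    have e3 : δ * numc (n m) δ (S m) ≤ n m :=
      (Finset.single_le_sum (f := fun δ => δ * numc (n m) δ (S m)) (fun _ _ => Nat.zero_le _)
        (Finset.mem_range.mpr hδ)).trans (hν m)
    have e4 : kk3 K ((z m, δ), 0) ≤ 36 * (δ * numc (n m) δ (S m)) * (d + 1) ^ 2 := by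
      change (δ + 1) * (numc (n m) δ (S m) + 1) * (d + n m + δ + 1) ^ 2 ≤ _
      have f1 : δ + 1 ≤ 2 * δ := by omega
      have f2 : numc (n m) δ (S m) + 1 ≤ 2 * numc (n m) δ (S m) := by omega
      have f3 : d + n m + δ + 1 ≤ 3 * (d + 1) := by omega
      calc (δ + 1) * (numc (n m) δ (S m) + 1) * (d + n m + δ + 1) ^ 2
          ≤ (2 * δ) * (2 * numc (n m) δ (S m)) * (3 * (d + 1)) ^ 2 := by gcongr
        _ = _ := by ring
    refine step h3 ((z m, δ), 0) _ e4 (hbig _ (e4.trans ?_))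
      (max_le (max_le (hznmx m (by omega)) (hmV δ (by omega))) (Nat.zero_le _))
    calc 36 * (δ * numc (n m) δ (S m)) * (d + 1) ^ 2 ≤ 36 * (d + 1) * (d + 1) ^ 2 := by
          gcongr
          omega
      _ = 36 * (d + 1) ^ 3 := by ring
      _ ≤ (Q' * (C + 1) + 47) * (d + 1) ^ 9 := Nat.mul_le_mul (by omega) (hpw (by omega))
  · have he2 : e + 1 ≤ (Nat.log 2 C + 6) * Λ := by
      have f1 : e ≤ Nat.log 2 (q d p) := Nat.log_anti_left (by norm_num) hp2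
      have f2 : Nat.log 2 (q d p) ≤ Nat.log 2 (C * (d + 1) ^ 2) := Nat.log_mono_right hCq
      have f3 := log_mul_le C ((d + 1) ^ 2)
      have f4 := log_pow_le (d + 1) 2
      have f5 : Nat.log 2 (d + 1) ≤ Nat.log 2 d + 1 := by
        have f6 : Nat.log 2 (d + 1) ≤ Nat.log 2 (d * 2) := Nat.log_mono_right (by omega)
        rwa [Nat.log_mul_base (by norm_num) (by omega)] at f6
      nlinarith [Nat.zero_le (Nat.log 2 C * Nat.log 2 d)]
    have hd3 : (d + 1) ^ 3 ≤ 8 * d ^ 3 := by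
      calc (d + 1) ^ 3 ≤ (2 * d) ^ 3 := Nat.pow_le_pow_left (by omega) 3
        _ = 8 * d ^ 3 := by ring
    set M := 2 * Q' * (Nat.log 2 C + 6) + 100 with hM
    have e1 : 2 * Q' * (e + 1) + 100 ≤ M * Λ := by
      calc 2 * Q' * (e + 1) + 100 ≤ 2 * Q' * ((Nat.log 2 C + 6) * Λ) + 100 * Λ := by
            gcongr
            omega
        _ = M * Λ := by rw [hM]; ring
    have e2 : Λ ^ (c' + 2) ≤ Λ ^ (8 * (c' + 4) * M + c' + 2) := Nat.pow_le_pow_right hΛ1 (by omega)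
    calc B * (d + 1) ^ 3 * (2 * Q' * (e + 1) + 100) ≤ B * (8 * d ^ 3) * (M * Λ) := by gcongr
      _ = 8 * (c' + 4) * M * d ^ 3 * Λ ^ (c' + 2) := by rw [hB]; ring
      _ ≤ (8 * (c' + 4) * M + c' + 2) * d ^ 3 * Λ ^ (8 * (c' + 4) * M + c' + 2) := by
        gcongr
        omega

end

end Pool.Agent.AbsIrr
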