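import Mathlib
import Pool.Agent.Lib.MP_2adc98_lc.FDefs2

/-!
# MP_2adc98_lc, stage 2: the list of triples (pure algebra)
-/

set_option autoImplicit false

namespace Pool.Agent.AbsIrr

open Finset Polynomial

namespace FIN

/-- the roots of the first component of a triple -/
private theorem aroots_eq {L : Type} [Field L] {t : ℕ} (val : Fin t → AlgebraicClosure L)
    (s : Finset (Fin t)) {q : L[X]}
    (hq : q.map (algebraMap L (AlgebraicClosure L)) = ∏ i ∈ s, (X - C (val i))) :
    q.aroots (AlgebraicClosure L) = s.val.map val := by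
  rw [Polynomial.aroots, hq]
  have h : (∏ i ∈ s, (X - C (val i)) : (AlgebraicClosure L)[X]) =
      ((s.val.map val).map fun a => X - C a).prod := by
    rw [Multiset.map_map]; rfl
  rw [h, Polynomial.roots_multiset_prod_X_sub_C]

private theorem root_ex {L : Type} [Field L] {t : ℕ} (val : Fin t → AlgebraicClosure L)
    (s : Finset (Fin t)) {q : L[X]}
    (hq : q.map (algebraMap L (AlgebraicClosure L)) = ∏ i ∈ s, (X - C (val i)))
    {α : AlgebraicClosure L} (hα : aeval α q = 0) : ∃ i ∈ s, α = val i := by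
  rw [← Polynomial.eval_map_algebraMap, hq, Polynomial.eval_prod,
    Finset.prod_eq_zero_iff] at hα
  obtain ⟨i, hi, h⟩ := hα
  refine ⟨i, hi, ?_⟩
  simpa [sub_eq_zero] using h

end FIN

open FIN in
open Classical in
theorem isAbsFact_of {L : Type} [Field L] {f : MvPolynomial (Fin 2) L} {t : ℕ}
    {F : Fin t → MvPolynomial (Fin 2) (AlgebraicClosure L)} {mm : Fin t → ℕ}
    (hirr : ∀ i, Irreducible (F i)) (hna : Pairwise fun i j => ¬ Associated (F i) (F j))
    (hf : Associated (MvPolynomial.map (algebraMap L (AlgebraicClosure L)) f)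
      (∏ i, F i ^ mm i)) {κ : Type} {keys : List κ} (hnd : keys.Nodup) {tr : κ → Triple L}
    (ky : Fin t → κ) (hky : ∀ i, ky i ∈ keys) (val : Fin t → AlgebraicClosure L)
    (hq : ∀ κ ∈ keys, (tr κ).1.Monic ∧ (tr κ).1.map (algebraMap L (AlgebraicClosure L)) =
      ∏ i with ky i = κ, (X - C (val i)))
    (hinj : ∀ i j, ky i = ky j → val i = val j → i = j)
    (hdeg : ∀ κ ∈ keys, ∀ e, ((tr κ).2.1.coeff e).degree < (tr κ).1.degree)
    (hm : ∀ i, mm i = (tr (ky i)).2.2) (h1 : ∀ κ ∈ keys, 1 ≤ (tr κ).2.2)
    (hat : ∀ i, Associated (atZ (val i) (tr (ky i)).2.1) (F i)) :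
    IsAbsFact f (keys.map tr) := by
  refine ⟨?_, ?_, ?_, ?_⟩
  · intro x hx
    obtain ⟨c, hc, rfl⟩ := List.mem_map.1 hx
    refine ⟨(hq c hc).1, ?_, hdeg c hc, h1 c hc⟩
    have hs : ((tr c).1.map (algebraMap L (AlgebraicClosure L))).Separable := by
      rw [(hq c hc).2]
      refine (Polynomial.separable_prod_X_sub_C_iff' (f := val)).2 ?_
      intro i hi j hj hij
      simp only [Finset.mem_filter, Finset.mem_univ, true_and] at hi hj
      exact hinj i j (hi.trans hj.symm) hij
    exact ((Polynomial.separable_map _).1 hs).squarefree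
  · intro x hx α hα
    obtain ⟨c, hc, rfl⟩ := List.mem_map.1 hx
    obtain ⟨i, hi, rfl⟩ := root_ex val _ (hq c hc).2 hα
    simp only [Finset.mem_filter, Finset.mem_univ, true_and] at hi
    subst hi
    exact (hat i).symm.irreducible (hirr i)
  · intro i j α β hα hβ hab
    have hi' : (i : ℕ) < keys.length := by simpa using i.2
    have hj' : (j : ℕ) < keys.length := by simpa using j.2
    have ei : (keys.map tr)[i] = tr keys[(i : ℕ)] := by
      simp [Fin.getElem_fin]
    have ej : (keys.map tr)[j] = tr keys[(j : ℕ)] := by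
      simp [Fin.getElem_fin]
    rw [ei] at hα hab
    rw [ej] at hβ hab
    obtain ⟨a, ha, rfl⟩ := root_ex val _ (hq _ (List.getElem_mem hi')).2 hα
    obtain ⟨b, hb, rfl⟩ := root_ex val _ (hq _ (List.getElem_mem hj')).2 hβ
    simp only [Finset.mem_filter, Finset.mem_univ, true_and] at ha hb
    rw [← ha, ← hb] at hab
    have hF : Associated (F a) (F b) := (hat a).symm.trans (hab.trans (hat b))
    have hab' : a = b := by
      by_contra hne
      exact hna hne hF
    subst hab'
    refine ⟨?_, rfl⟩
    have : keys[(i : ℕ)] = keys[(j : ℕ)] := ha.symm.trans hb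
    exact Fin.ext ((List.Nodup.getElem_inj_iff hnd).1 this)
  · refine hf.trans ?_
    have e1 : ∀ c ∈ keys, (((tr c).1.aroots (AlgebraicClosure L)).map fun α =>
        atZ α (tr c).2.1 ^ (tr c).2.2).prod =
        ∏ i with ky i = c, atZ (val i) (tr (ky i)).2.1 ^ (tr (ky i)).2.2 := by
      intro c hc
      rw [aroots_eq val _ (hq c hc).2, Multiset.map_map]
      refine Finset.prod_congr rfl ?_
      intro i hi
      simp only [Finset.mem_filter, Finset.mem_univ, true_and] at hi
      subst hi
      rfl
    have e2 : ((keys.map tr).map fun t => ((t.1.aroots (AlgebraicClosure L)).map fun α =>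
        atZ α t.2.1 ^ t.2.2).prod).prod =
        ∏ i, atZ (val i) (tr (ky i)).2.1 ^ (tr (ky i)).2.2 := by
      rw [List.map_map]
      have : (keys.map ((fun t : Triple L => ((t.1.aroots (AlgebraicClosure L)).map fun α =>
          atZ α t.2.1 ^ t.2.2).prod) ∘ tr)) =
          keys.map fun c => ∏ i with ky i = c,
            atZ (val i) (tr (ky i)).2.1 ^ (tr (ky i)).2.2 :=
        List.map_congr_left fun c hc => e1 c hc
      rw [this, ← List.prod_toFinset _ hnd]
      exact Finset.prod_fiberwise_of_maps_to (fun i _ => List.mem_toFinset.2 (hky i)) _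
    rw [e2]
    refine Associated.prod _ _ _ ?_
    intro i _
    rw [hm i]
    exact ((hat i).symm).pow_pow

end Pool.Agent.AbsIrr
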