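import Mathlib
import Pool.Agent.Lib.MP_2adc98_lc.FCost
import Pool.Agent.Lib.MP_2adc98_lc.FIN
import Pool.Agent.Lib.MP_2adc98_lc.Shift
import Pool.Agent.Lib.MP_2adc98_lc.Core

/-!
# MP_2adc98_lc, stage 2: correctness of the printed list
-/

set_option autoImplicit false

namespace Pool.Agent.AbsIrr

open Finset Polynomial

/-! ### the numbers of classes -/

open Classical in
theorem adeg_blk {K : Type} [Field K] {k : Type} [Field k] [Algebra K k] {ι : Type} [Fintype ι]
    {dg : ι → ℕ} {val : ι → k} {n : ℕ} {S : ℕ → K} (hn : ∑ c, dg c ≤ n) {j : ℕ}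
    (h : (blk (n + 1) S j).map (algebraMap K k) = ∏ c with j < dg c, (X - C (val c))) :
    adeg (n + 1) (blkA (n + 1) j S) = (univ.filter fun c => j < dg c).card := by
  have h2 : (∏ c with j < dg c, (X - C (val c))).natDegree =
      (univ.filter fun c => j < dg c).card := by
    rw [natDegree_prod_of_monic _ _ (fun α _ => monic_X_sub_C _)]
    simp
  have h3 : (univ.filter fun c => j < dg c).card ≤ n := by
    rw [Finset.card_eq_sum_ones]
    refine le_trans ?_ hn
    refine (Finset.sum_le_sum (fun c hc => ?_)).trans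
      (Finset.sum_le_sum_of_subset (Finset.filter_subset (fun c => j < dg c) univ))
    have := (Finset.mem_filter.mp hc).2
    omega
  rw [← h2]
  refine adeg_eq (algebraMap K k) (monic_prod_of_monic _ _ (fun α _ => monic_X_sub_C _))
    (by omega) (fun i hi => ?_)
  rw [blkA_apply _ _ _ hi, ← h, coeff_map]
  congr 1
  unfold blk
  rw [finsetSum_coeff]
  simp only [coeff_monomial]
  rw [Finset.sum_ite_eq' (Finset.range (n + 1)) i (fun i => S (j * (n + 1) + i))]
  rw [if_pos (Finset.mem_range.mpr hi)]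

open Classical in
theorem numc_eq {K : Type} [Field K] {k : Type} [Field k] [Algebra K k] {ι : Type} [Fintype ι]
    {dg : ι → ℕ} {val : ι → k} {n : ℕ} {S : ℕ → K} (hn : ∑ c, dg c ≤ n)
    (h : ∀ j ≤ n, (blk (n + 1) S j).map (algebraMap K k) =
      ∏ c with j < dg c, (X - C (val c))) {δ : ℕ} (h1 : 1 ≤ δ) (h2 : δ ≤ n) :
    numc n δ S = (univ.filter fun c => dg c = δ).card := by
  unfold numc
  rw [adeg_blk hn (h (δ - 1) (by omega)), adeg_blk hn (h δ h2)]
  have h3 : (univ.filter fun c => δ - 1 < dg c).card =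
      (univ.filter fun c => δ < dg c).card + (univ.filter fun c => dg c = δ).card := by
    rw [← Finset.card_union_of_disjoint]
    · congr 1
      ext c
      simp only [mem_filter, mem_union, mem_univ, true_and]
      omega
    · rw [Finset.disjoint_left]
      intro c h4 h5
      have h6 := (mem_filter.mp h4).2
      have h7 := (mem_filter.mp h5).2
      omega
  omega

/-! ### decoding -/

theorem fin2_eq (e : Fin 2 →₀ ℕ) : e = Finsupp.single 0 (e 0) + Finsupp.single 1 (e 1) := by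
  ext i
  fin_cases i <;> simp

theorem fin2_inj {i j i' j' : ℕ} (h : (Finsupp.single 0 i + Finsupp.single 1 j : Fin 2 →₀ ℕ) =
    Finsupp.single 0 i' + Finsupp.single 1 j') : i = i' ∧ j = j' := by
  have h0 := DFunLike.congr_fun h 0
  have h1 := DFunLike.congr_fun h 1
  simp at h0 h1
  exact ⟨h0, h1⟩

/-- the coefficients of the decoded polynomial -/
theorem coeff_dec {R : Type*} [CommSemiring R] (d : ℕ) (g : ℕ → ℕ → R) (i j : ℕ) :
    (∑ i ∈ Finset.range (d + 1), ∑ j ∈ Finset.range (d + 1),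
      MvPolynomial.monomial (Finsupp.single 0 i + Finsupp.single 1 j : Fin 2 →₀ ℕ) (g i j)).coeff
        (Finsupp.single 0 i + Finsupp.single 1 j) = if i ≤ d ∧ j ≤ d then g i j else 0 := by
  classical
  rw [MvPolynomial.coeff_sum]
  simp only [MvPolynomial.coeff_sum, MvPolynomial.coeff_monomial]
  by_cases h : i ≤ d ∧ j ≤ d
  · rw [if_pos h, Finset.sum_eq_single i, Finset.sum_eq_single j]
    · rw [if_pos rfl]
    · intro j' _ hj'
      rw [if_neg]
      intro h'
      exact hj' (fin2_inj h').2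
    · intro h'
      exact absurd (Finset.mem_range.mpr (by omega)) h'
    · intro i' _ hi'
      refine Finset.sum_eq_zero fun j' _ => ?_
      rw [if_neg]
      intro h'
      exact hi' (fin2_inj h').1
    · intro h'
      exact absurd (Finset.mem_range.mpr (by omega)) h'
  · rw [if_neg h]
    refine Finset.sum_eq_zero fun i' hi' => Finset.sum_eq_zero fun j' hj' => ?_
    rw [if_neg]
    intro h'
    have := Finset.mem_range.mp hi'
    have := Finset.mem_range.mp hj'
    obtain ⟨h1, h2⟩ := fin2_inj h'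
    exact h ⟨by omega, by omega⟩

theorem decode_coeff {L : Type} [Field L] (d : ℕ) (o : ℕ × (ℕ → L) × (ℕ → L)) (i j : ℕ) :
    (decode d o).2.1.coeff (Finsupp.single 0 i + Finsupp.single 1 j) = if i ≤ d ∧ j ≤ d then
      ∑ l ∈ Finset.range (d + 1), monomial l (o.2.2 ((l * (d + 1) + j) * (d + 1) + i))
      else 0 :=
  coeff_dec d (fun i j => ∑ l ∈ Finset.range (d + 1),
    monomial l (o.2.2 ((l * (d + 1) + j) * (d + 1) + i))) i j

theorem atZ_coeff {L : Type} [Field L] {k : Type} [Field k] [Algebra L k] (α : k) (d : ℕ)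
    (o : ℕ × (ℕ → L) × (ℕ → L)) (i j : ℕ) :
    (atZ α (decode d o).2.1).coeff (Finsupp.single 0 i + Finsupp.single 1 j) =
      if i ≤ d ∧ j ≤ d then ∑ l ∈ Finset.range (d + 1),
        algebraMap L k (o.2.2 ((l * (d + 1) + j) * (d + 1) + i)) * α ^ l else 0 := by
  unfold atZ
  rw [MvPolynomial.coeff_map, decode_coeff]
  split_ifs
  · change aeval α (∑ l ∈ Finset.range (d + 1),
      monomial l (o.2.2 ((l * (d + 1) + j) * (d + 1) + i))) = _
    rw [map_sum]
    simp only [aeval_monomial]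
  · exact map_zero _

/-- the coefficients have degree `< r` if the entries of the blocks with number `≥ r` vanish -/
theorem decode_degree {L : Type} [Field L] (d : ℕ) (o : ℕ × (ℕ → L) × (ℕ → L)) {r : ℕ}
    (h : ∀ l j i, r ≤ l → j ≤ d → i ≤ d →
      o.2.2 ((l * (d + 1) + j) * (d + 1) + i) = 0) (e : Fin 2 →₀ ℕ) :
    ((decode d o).2.1.coeff e).degree < r := by
  rw [fin2_eq e, decode_coeff]
  split_ifs with h1
  · rw [degree_lt_iff_coeff_zero]
    intro l hl
    rw [finsetSum_coeff]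
    refine Finset.sum_eq_zero fun l' _ => ?_
    rw [coeff_monomial]
    split_ifs with h2
    · subst h2
      exact h l' _ _ hl h1.2 h1.1
    · rfl
  · rw [degree_zero]
    exact WithBot.bot_lt_coe _

/-! ### the list of keys -/

/-- the pairs (multiplicity, size) in the order in which they are printed -/
def keyL (N0 : ℕ) (n : ℕ → ℕ) (N2 : ℕ → ℕ → ℕ) : List (ℕ × ℕ) :=
  (List.range N0).flatMap fun m => (List.range (n m + 1)).flatMap fun δ =>
    (List.range (N2 m δ)).map fun _ => (m, δ)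

theorem mem_keyL {N0 : ℕ} {n : ℕ → ℕ} {N2 : ℕ → ℕ → ℕ} {x : ℕ × ℕ} :
    x ∈ keyL N0 n N2 ↔ x.1 < N0 ∧ x.2 ≤ n x.1 ∧ N2 x.1 x.2 ≠ 0 := by
  unfold keyL
  simp only [List.mem_flatMap, List.mem_range, List.mem_map]
  constructor
  · rintro ⟨m, hm, δ, hδ, l, hl, rfl⟩
    exact ⟨hm, by simpa using Nat.lt_succ_iff.mp hδ, by simp only; omega⟩
  · rintro ⟨h1, h2, h3⟩
    exact ⟨x.1, h1, x.2, by omega, 0, by omega, rfl⟩

theorem nodup_keyL {N0 : ℕ} {n : ℕ → ℕ} {N2 : ℕ → ℕ → ℕ} (h : ∀ m δ, N2 m δ ≤ 1) :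
    (keyL N0 n N2).Nodup := by
  unfold keyL
  rw [List.nodup_flatMap]
  refine ⟨fun m _ => ?_, ?_⟩
  · rw [List.nodup_flatMap]
    refine ⟨fun δ _ => ?_, ?_⟩
    · have h1 := h m δ
      interval_cases N2 m δ
      · simp
      · simp [List.range_succ]
    · refine (List.nodup_range (n := n m + 1)).imp ?_
      intro δ δ' hne
      rw [Function.onFun, List.disjoint_left]
      intro x h1 h2
      rw [List.mem_map] at h1 h2
      obtain ⟨_, _, rfl⟩ := h1
      obtain ⟨_, _, h3⟩ := h2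
      exact hne (by simpa using (Prod.ext_iff.mp h3).2.symm)
  · refine (List.nodup_range (n := N0)).imp ?_
    intro m m' hne
    rw [Function.onFun, List.disjoint_left]
    intro x h1 h2
    simp only [List.mem_flatMap, List.mem_map] at h1 h2
    obtain ⟨_, _, _, _, rfl⟩ := h1
    obtain ⟨_, _, _, _, h3⟩ := h2
    exact hne (by simpa using (Prod.ext_iff.mp h3).1.symm)

/-- the printed list -/
theorem flat_eq {α : Type*} {N0 : ℕ} {n : ℕ → ℕ} {N2 : ℕ → ℕ → ℕ} (v : ℕ → ℕ → α) :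
    ((List.range N0).flatMap fun m => (List.range (n m + 1)).flatMap fun δ =>
      (List.range (N2 m δ)).flatMap fun _ => [v m δ]) =
      (keyL N0 n N2).map fun x => v x.1 x.2 := by
  unfold keyL
  rw [List.map_flatMap]
  refine List.flatMap_congr fun m _ => ?_
  rw [List.map_flatMap]
  refine List.flatMap_congr fun δ _ => ?_
  rw [List.map_map]
  induction List.range (N2 m δ) with
  | nil => rfl
  | cons a l ih => simp [ih]

/-! ### correctness -/

theorem TD_coeff_zero {K : Type} [Field K] {D : ℕ} {P : K[X][X]} (h : TD D P) {i j : ℕ}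
    (hij : D < i + j) : (P.coeff j).coeff i = 0 := by
  by_cases h0 : P.coeff j = 0
  · rw [h0, coeff_zero]
  · refine coeff_eq_zero_of_natDegree_lt ?_
    have := h j h0
    omega

/-- the specification of the computation of the printed value -/
def Spec3 (F : Fam In3 (.prod .arr .arr)) : Prop := by
  classical exact
    ∀ (K : Type) [Field K] (k : Type) [Field k] [Algebra K k] (d n δ : ℕ) (a b : K)
      (h v₀ H S : ℕ → K) (hp : K[X][X]) (ι : Type) [Fintype ι] (F' : ι → k[X][X]) (val : ι → k),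
      (∀ c, (F' c).Monic ∧ 1 ≤ (F' c).natDegree ∧ TD (F' c).natDegree (F' c)) →
      (at0 (∏ c, F' c)).Separable → hp.Monic → hp.natDegree = n →
      hp.map (mapRingHom (algebraMap K k)) = ∏ c, F' c →
      (∀ i < (n + 1) * (n + 1), h i = coeffs2 (n + 1) hp i) →
      (∃ u, apol n v₀ * derivative (at0 hp) + u * at0 hp = 1) → Function.Injective val →
      (∀ c, at0 (F' c) ∣ (apol n H).map (algebraMap K k) - C (val c)) →
      (∀ j ≤ n, (blk (n + 1) S j).map (algebraMap K k) =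
        ∏ c with j < (F' c).natDegree, (X - C (val c))) → 1 ≤ δ → δ ≤ n → n ≤ d →
      (∑ l ∈ range (d + 1), monomial l ((F K (d, (a, (b, (n, (h, (v₀, (H, (S, δ))))))))).1 l) :
        K[X]).map (algebraMap K k) = ∏ c with (F' c).natDegree = δ, (X - C (val c)) ∧
      (∀ l j i, numc n δ S ≤ l → j ≤ d → i ≤ d →
        (F K (d, (a, (b, (n, (h, (v₀, (H, (S, δ))))))))).2
          ((l * (d + 1) + j) * (d + 1) + i) = 0) ∧
      ∀ c, (F' c).natDegree = δ → ∀ i ≤ d, ∀ j ≤ d,
        ∑ l ∈ range (d + 1), algebraMap K k ((F K (d, (a, (b, (n, (h, (v₀, (H, (S, δ))))))))).2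
          ((l * (d + 1) + j) * (d + 1) + i)) * val c ^ l =
          ((shf (-algebraMap K k a) (-algebraMap K k b) (F' c)).coeff j).coeff i

/-- is there a class of size `δ`? -/
noncomputable def n2 {L : Type} [Field L] (o : ℕ → Ot1.val L) (m δ : ℕ) : ℕ :=
  if δ = 0 then 0 else if numc (o m).1 δ (o m).2.2.2.2 = 0 then 0 else 1

/-- the printed triple -/
noncomputable def trp {L : Type} [Field L] (F3 : Fam In3 (.prod .arr .arr)) (d : ℕ) (a b : L)
    (o : ℕ → Ot1.val L) (x : ℕ × ℕ) : Triple L :=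
  decode d (x.1, F3 L (d, (a, (b, ((o x.1).1, ((o x.1).2.1, ((o x.1).2.2.1, ((o x.1).2.2.2.1,
    ((o x.1).2.2.2.2, x.2)))))))))

open Classical in
theorem isAbsFact_good {Φ : ∀ (K : Type) [Field K], MvPolynomial (Fin 2) K ≃+* K[X][X]}
    (hΦc : ∀ (K : Type) [Field K] (f : MvPolynomial (Fin 2) K) (i j : ℕ),
      ((Φ K f).coeff j).coeff i = f.coeff (Finsupp.single 0 i + Finsupp.single 1 j))
    {L : Type} [Field L] {f' : MvPolynomial (Fin 2) L} {d t : ℕ}
    {Fi F' : Fin t → (AlgebraicClosure L)[X][X]} {δ mm : Fin t → ℕ} {u : AlgebraicClosure L}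
    {a b : L} (hu : u ≠ 0)
    (hG : Φ (AlgebraicClosure L) (MvPolynomial.map (algebraMap L (AlgebraicClosure L)) f') =
      C (C u) * ∏ i, Fi i ^ mm i)
    (hirr : ∀ i, Irreducible (Fi i)) (hna : Pairwise fun i j => ¬ Associated (Fi i) (Fi j))
    (hmm : ∀ i, 1 ≤ mm i) (hδ : ∀ i, 1 ≤ δ i) (hsum : ∑ i, mm i * δ i = d)
    (hF' : ∀ i, (F' i).Monic ∧ (F' i).natDegree = δ i ∧ TD (δ i) (F' i) ∧
      ∃ c, c ≠ 0 ∧ shf (-algebraMap L (AlgebraicClosure L) a)
        (-algebraMap L (AlgebraicClosure L) b) (F' i) = C (C c) * Fi i)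
    (hsep : (at0 (∏ i, F' i)).Separable) {nn : ℕ → ℕ} (hnn : ∀ m, nn m = ∑ i with mm i = m, δ i)
    {o : ℕ → Ot1.val L} (ho0 : (o 0).1 = 0) (ho1 : ∀ m, 1 ≤ m → m ≤ d → (o m).1 = nn m)
    (ho : ∀ m, 1 ≤ m → m ≤ d → 1 ≤ nn m →
      GoodOut (fun c : {i // mm i = m} => F' c) (nn m) (o m))
    {F3 : Fam In3 (.prod .arr .arr)} (h3 : Spec3 F3) :
    IsAbsFact f' ((keyL (d + 1) (fun m => (o m).1) (n2 o)).map (trp F3 d a b o)) := by
  set σ := algebraMap L (AlgebraicClosure L) with hσ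
  -- bounds
  have hmmd : ∀ i, mm i ≤ d ∧ δ i ≤ d := fun i => by
    have h1 : mm i * δ i ≤ d := by
      rw [← hsum]
      exact Finset.single_le_sum (f := fun i => mm i * δ i) (fun _ _ => Nat.zero_le _)
        (Finset.mem_univ i)
    have := hmm i
    have := hδ i
    constructor <;> nlinarith
  have hnnd : ∀ m, 1 ≤ m → nn m ≤ d := fun m hm => by
    rw [hnn, ← hsum]
    calc ∑ i with mm i = m, δ i ≤ ∑ i with mm i = m, mm i * δ i :=
          Finset.sum_le_sum fun i _ => Nat.le_mul_of_pos_left _ (hmm i)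
      _ ≤ ∑ i, mm i * δ i := Finset.sum_le_sum_of_subset (Finset.filter_subset _ _)
  have hδn : ∀ i, δ i ≤ nn (mm i) := fun i => by
    rw [hnn]
    exact Finset.single_le_sum (f := δ) (fun _ _ => Nat.zero_le _)
      (Finset.mem_filter.mpr ⟨Finset.mem_univ i, rfl⟩)
  have hex : ∀ m, 1 ≤ m → m ≤ d → 1 ≤ nn m → ∃ (h : L[X][X])
      (val : {i // mm i = m} → AlgebraicClosure L), h.Monic ∧ h.natDegree = nn m ∧
      h.map (mapRingHom σ) = ∏ c : {i // mm i = m}, F' c ∧
      (∀ i < (nn m + 1) * (nn m + 1), (o m).2.1 i = coeffs2 (nn m + 1) h i) ∧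
      (∃ u, apol (nn m) (o m).2.2.1 * derivative (at0 h) + u * at0 h = 1) ∧
      Function.Injective val ∧
      (∀ c : {i // mm i = m}, at0 (F' c) ∣ (apol (nn m) (o m).2.2.2.1).map σ - C (val c)) ∧
      ∀ j ≤ nn m, (blk (nn m + 1) (o m).2.2.2.2 j).map σ =
        ∏ c : {i // mm i = m} with j < (F' c.1).natDegree, (X - C (val c)) := by
    intro m h1 h2 h3
    obtain ⟨g1, h, g2, g3, g4, g5, g6, val, g7, g8, g9⟩ := ho m h1 h2 h3
    exact ⟨h, val, g2, g3, g4, g5, g6, g7, g8, g9⟩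
  choose! hp val hhp using hex
  -- the classes of one multiplicity
  have hdd : ∀ m, ∑ c : {i // mm i = m}, (F' c).natDegree = nn m := fun m => by
    rw [hnn, ← Finset.sum_subtype_eq_sum_filter]
    refine Finset.sum_congr (by ext; simp) fun c _ => (hF' c).2.1
  have hsepm : ∀ m, (at0 (∏ c : {i // mm i = m}, F' c)).Separable := fun m => by
    refine hsep.of_dvd ?_
    unfold at0
    refine Polynomial.map_dvd _ ?_
    have e1 : ∏ c : {i // mm i = m}, F' c = ∏ i with mm i = m, F' i := by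
      rw [← Finset.prod_subtype_eq_prod_filter]
      exact Finset.prod_congr (by ext; simp) fun _ _ => rfl
    rw [e1]
    exact Finset.prod_dvd_prod_of_subset _ _ _ (Finset.filter_subset _ _)
  have key : ∀ m, 1 ≤ m → m ≤ d → 1 ≤ nn m → ∀ δ₀, 1 ≤ δ₀ → δ₀ ≤ nn m →
      ((trp F3 d a b o (m, δ₀)).1.map σ =
        ∏ c : {i // mm i = m} with (F' c.1).natDegree = δ₀, (X - C (val m c))) ∧
      numc (nn m) δ₀ (o m).2.2.2.2 =
        (univ.filter fun c : {i // mm i = m} => (F' c.1).natDegree = δ₀).card ∧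
      (∀ l j i, numc (nn m) δ₀ (o m).2.2.2.2 ≤ l → j ≤ d → i ≤ d →
        (F3 L (d, (a, (b, ((o m).1, ((o m).2.1, ((o m).2.2.1, ((o m).2.2.2.1,
          ((o m).2.2.2.2, δ₀))))))))).2 ((l * (d + 1) + j) * (d + 1) + i) = 0) ∧
      ∀ c : {i // mm i = m}, (F' c.1).natDegree = δ₀ → ∀ i ≤ d, ∀ j ≤ d,
        ∑ l ∈ range (d + 1), σ ((F3 L (d, (a, (b, ((o m).1, ((o m).2.1, ((o m).2.2.1,
          ((o m).2.2.2.1, ((o m).2.2.2.2, δ₀))))))))).2
            ((l * (d + 1) + j) * (d + 1) + i)) * val m c ^ l =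
          ((shf (-σ a) (-σ b) (F' c)).coeff j).coeff i := by
    intro m h1 h2 h4 δ₀ h5 h6
    obtain ⟨g2, g3, g4, g5, g6, g7, g8, g9⟩ := hhp m h1 h2 h4
    have e0 : (o m).1 = nn m := ho1 m h1 h2
    have g := h3 L (AlgebraicClosure L) d (nn m) δ₀ a b (o m).2.1 (o m).2.2.1 (o m).2.2.2.1 (o m).2.2.2.2 (hp m)
      {i // mm i = m} (fun c => F' c) (val m)
      (fun c => ⟨(hF' c).1, by rw [(hF' c).2.1]; exact hδ c, by
        rw [(hF' c).2.1]; exact (hF' c).2.2.1⟩) (hsepm m) g2 g3 g4 g5 g6 g7 g8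
      (fun j hj => by rw [g9 j hj]) h5 h6 (hnnd m h1)
    obtain ⟨k1, k2, k3⟩ := g
    refine ⟨?_, ?_, ?_, ?_⟩
    · unfold trp decode
      simp only [e0]
      exact k1
    · exact numc_eq (hdd m).le (fun j hj => g9 j hj) h5 h6
    · rw [e0]
      exact k2
    · rw [e0]
      exact k3
  -- the keys
  have hkeys : ∀ x ∈ keyL (d + 1) (fun m => (o m).1) (n2 o), 1 ≤ x.1 ∧ x.1 ≤ d ∧ 1 ≤ nn x.1 ∧
      1 ≤ x.2 ∧ x.2 ≤ nn x.1 ∧ numc (nn x.1) x.2 (o x.1).2.2.2.2 ≠ 0 := by
    intro x hx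
    obtain ⟨h1, h2, h4⟩ := mem_keyL.mp hx
    unfold n2 at h4
    split_ifs at h4 with h5 h6
    · exact absurd rfl h4
    · exact absurd rfl h4
    have h7 : 1 ≤ x.1 := by
      rcases Nat.eq_zero_or_pos x.1 with h | h
      · rw [h, ho0] at h2
        omega
      · exact h
    have h8 := ho1 x.1 h7 (by omega)
    rw [h8] at h2 h6
    exact ⟨h7, by omega, by omega, by omega, h2, h6⟩
  -- transport between equal multiplicities
  have htr : ∀ (m : ℕ) (c : {i // mm i = m}), val (mm c.1) ⟨c.1, rfl⟩ = val m c := by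
    rintro m ⟨i, rfl⟩
    rfl
  have hmap : ∀ x ∈ keyL (d + 1) (fun m => (o m).1) (n2 o), (trp F3 d a b o x).1.map σ =
      ∏ i with (mm i, δ i) = x, (X - C (val (mm i) ⟨i, rfl⟩)) := by
    intro x hx
    obtain ⟨h1, h2, h4, h5, h6, h7⟩ := hkeys x hx
    obtain ⟨k1, -⟩ := key x.1 h1 h2 h4 x.2 h5 h6
    rw [show x = (x.1, x.2) from rfl, k1]
    refine Finset.prod_bij (fun c _ => c.1) ?_ ?_ ?_ ?_
    · intro c hc
      rw [Finset.mem_filter] at hc ⊢
      refine ⟨Finset.mem_univ _, ?_⟩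
      rw [← (hF' c.1).2.1, hc.2, c.2]
    · intro c _ c' _ h
      exact Subtype.ext h
    · intro i hi
      rw [Finset.mem_filter] at hi
      have e1 := (Prod.ext_iff.mp hi.2).1
      have e2 := (Prod.ext_iff.mp hi.2).2
      refine ⟨⟨i, e1⟩, ?_, rfl⟩
      rw [Finset.mem_filter]
      refine ⟨Finset.mem_univ _, ?_⟩
      rw [(hF' i).2.1]
      exact e2
    · intro c _
      rw [htr]
  have hmonic : ∀ x ∈ keyL (d + 1) (fun m => (o m).1) (n2 o), (trp F3 d a b o x).1.Monic := by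
    intro x hx
    refine monic_of_injective σ.injective ?_
    rw [hmap x hx]
    exact monic_prod_of_monic _ _ fun i _ => monic_X_sub_C _
  have hunit : ∀ c : AlgebraicClosure L, c ≠ 0 → IsUnit ((Φ (AlgebraicClosure L)).symm (C (C c))) := fun c hc =>
    (isUnit_C.2 (isUnit_C.2 (isUnit_iff_ne_zero.2 hc)) : IsUnit (C (C c) : (AlgebraicClosure L)[X][X])).map _
  refine isAbsFact_of (L := L) (f := f') (F := fun i => (Φ (AlgebraicClosure L)).symm (Fi i)) (mm := mm)
    (fun i => ?_) ?_ ?_ (nodup_keyL (fun m δ => ?_)) (tr := trp F3 d a b o)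
    (fun i => (mm i, δ i)) (fun i => ?_) (fun i => val (mm i) ⟨i, rfl⟩)
    (fun x hx => ⟨hmonic x hx, ?_⟩) (fun i j h1 h2 => ?_) (fun x hx e => ?_) (fun i => rfl)
    (fun x hx => (hkeys x hx).1) (fun i => ?_)
  · exact (MulEquiv.irreducible_iff (Φ (AlgebraicClosure L)).symm).mpr (hirr i)
  · intro i j hij h
    refine hna hij ?_
    have h1 := h.map (Φ (AlgebraicClosure L) :
      MvPolynomial (Fin 2) (AlgebraicClosure L) →* (AlgebraicClosure L)[X][X])
    simpa using h1
  · have h1 : MvPolynomial.map σ f' = (Φ (AlgebraicClosure L)).symm (C (C u)) * ∏ i, (Φ (AlgebraicClosure L)).symm (Fi i) ^ mm i := by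
      have h2 := congrArg (Φ (AlgebraicClosure L)).symm hG
      rw [RingEquiv.symm_apply_apply, map_mul, map_prod] at h2
      rw [h2]
      simp only [map_pow]
    rw [h1]
    exact associated_unit_mul_left _ _ (hunit u hu)
  · unfold n2
    split_ifs <;> omega
  · rw [mem_keyL]
    have h1 := hδn i
    have h2 := hδ i
    have h4 := hmm i
    have h5 := (hmmd i).1
    have h6 := ho1 (mm i) h4 h5
    refine ⟨Nat.lt_succ_of_le h5, by rw [h6]; exact h1, ?_⟩
    obtain ⟨-, k2, -⟩ := key (mm i) h4 h5 (by omega) (δ i) h2 h1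
    unfold n2
    rw [if_neg (by simp only; omega), if_neg]
    · exact one_ne_zero
    · simp only
      rw [h6, k2]
      refine Finset.card_ne_zero_of_mem (a := ⟨i, rfl⟩) ?_
      rw [Finset.mem_filter]
      exact ⟨Finset.mem_univ _, (hF' i).2.1⟩
  · rw [hmap x hx]
    exact Finset.prod_congr (by ext; simp) fun _ _ => rfl
  · have e1 : mm i = mm j := (Prod.ext_iff.mp h1).1
    have e2 : val (mm j) ⟨i, e1⟩ = val (mm j) ⟨j, rfl⟩ := by
      rw [← htr (mm j) ⟨i, e1⟩]
      exact h2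
    obtain ⟨-, -, -, -, -, g7, -⟩ := hhp (mm j) (hmm j) (hmmd j).1
      (le_trans (hδ j) (hδn j))
    exact congrArg Subtype.val (g7 e2)
  · obtain ⟨h1, h2, h4, h5, h6, h7⟩ := hkeys x hx
    obtain ⟨k1, k2, k3, -⟩ := key x.1 h1 h2 h4 x.2 h5 h6
    have e1 : (trp F3 d a b o x).1.degree = (numc (nn x.1) x.2 (o x.1).2.2.2.2 : ℕ) := by
      rw [← degree_map (trp F3 d a b o x).1 σ, k1, k2, degree_prod_of_monic _ _
        (fun c _ => monic_X_sub_C _)]
      simp
    rw [e1]
    exact decode_degree d _ k3 e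
  · obtain ⟨c, hc, hc'⟩ := (hF' i).2.2.2
    obtain ⟨-, -, -, k4⟩ := key (mm i) (hmm i) (hmmd i).1 (le_trans (hδ i) (hδn i)) (δ i) (hδ i)
      (hδn i)
    have hTD : TD (δ i) (shf (-σ a) (-σ b) (F' i)) := TD_shf _ _ (hF' i).2.2.1
    have e1 : atZ (val (mm i) ⟨i, rfl⟩) (trp F3 d a b o (mm i, δ i)).2.1 =
        (Φ (AlgebraicClosure L)).symm (shf (-σ a) (-σ b) (F' i)) := by
      refine MvPolynomial.ext _ _ fun e => ?_
      rw [fin2_eq e, ← hΦc (AlgebraicClosure L) ((Φ (AlgebraicClosure L)).symm (shf (-σ a) (-σ b) (F' i))),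
        RingEquiv.apply_symm_apply]
      unfold trp
      rw [atZ_coeff]
      split_ifs with h
      · exact k4 ⟨i, rfl⟩ (hF' i).2.1 _ h.1 _ h.2
      · rw [TD_coeff_zero hTD]
        have := (hmmd i).2
        omega
    rw [e1, hc', map_mul]
    exact associated_unit_mul_left _ _ (hunit c hc)

end Pool.Agent.AbsIrr
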