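import Mathlib
import Pool.Agent.Lib.MP_2adc98_lc.Basic
import Pool.Agent.Lib.MP_2adc98_lc.Core
import Pool.Agent.Lib.MP_2adc98_lc.BadCount

/-!
# FM5: factorization
-/

set_option autoImplicit false

namespace Pool.Agent.AbsIrr

open Finset Polynomial

namespace FM5

section
variable {K : Type} [Field K]

/-- `x ↦ x s`, `y ↦ y s` -/
private noncomputable def theta : K[X][X] →+* K[X][X][X] :=
  eval₂RingHom (R := K[X]) (S := K[X][X][X]) (eval₂RingHom (R := K) (S := K[X][X][X])
    (((Polynomial.C : K[X][X] →+* K[X][X][X]).comp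
    (Polynomial.C : K[X] →+* K[X][X])).comp (Polynomial.C : K →+* K[X]))
      (Polynomial.C (Polynomial.C X) * X)) (Polynomial.C X * X)

private theorem theta_monomial (i j : ℕ) (a : K) :
    theta (monomial j (monomial i a)) = monomial (i + j) (monomial j (monomial i a)) := by
  simp only [theta, coe_eval₂RingHom, eval₂_monomial, RingHom.comp_apply]
  simp only [← C_mul_X_pow_eq_monomial, map_mul, map_pow]
  ring

private theorem theta_coeff (P : K[X][X]) (n j i : ℕ) :
    (((theta P).coeff n).coeff j).coeff i = if n = i + j then (P.coeff j).coeff i else 0 := by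
  induction P using Polynomial.induction_on' with
  | add P Q hP hQ =>
    rw [map_add, coeff_add, coeff_add, coeff_add, hP, hQ, coeff_add, coeff_add]
    split_ifs <;> simp
  | monomial j0 c =>
    induction c using Polynomial.induction_on' with
    | add c c' hc hc' =>
      rw [map_add (monomial j0), map_add, coeff_add, coeff_add, coeff_add, hc, hc', coeff_add, coeff_add]
      split_ifs <;> simp
    | monomial i0 a =>
      rw [theta_monomial]
      by_cases h1 : j0 = j
      · subst h1
        by_cases h2 : i0 = i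
        · subst h2
          by_cases h3 : n = i0 + j0
          · subst h3; simp
          · rw [if_neg h3, coeff_monomial, if_neg (Ne.symm h3)]; simp
        · simp only [coeff_monomial]
          split_ifs <;> simp_all [coeff_monomial]
      · simp only [coeff_monomial]
        split_ifs <;> simp_all [coeff_monomial]

private theorem theta_natDegree (D : ℕ) (P : K[X][X]) : (theta P).natDegree ≤ D ↔ TD D P := by
  rw [natDegree_le_iff_coeff_eq_zero, TD_iff]
  constructor
  · intro h i j hij
    by_contra hlt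
    push Not at hlt
    have h1 := theta_coeff P (i + j) j i
    rw [h _ hlt, if_pos rfl] at h1
    exact hij (by simpa using h1.symm)
  · intro h n hn
    ext j i
    rw [theta_coeff]
    split_ifs with hnij
    · by_contra h0
      have := h i j (by simpa using h0)
      omega
    · simp

private theorem theta_ne {P : K[X][X]} (hP : P ≠ 0) : theta P ≠ 0 := by
  intro h
  apply hP
  ext j i
  have h1 := theta_coeff P (i + j) j i
  rw [h, if_pos rfl] at h1
  simpa using h1.symm

private theorem top_of {P : K[X][X]} (hP : P ≠ 0) :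
    ∃ j ≤ (theta P).natDegree, ((P.coeff j).coeff ((theta P).natDegree - j)) ≠ 0 := by
  have h1 : (theta P).coeff (theta P).natDegree ≠ 0 := by
    rw [coeff_natDegree]
    exact leadingCoeff_ne_zero.2 (theta_ne hP)
  obtain ⟨j, hj⟩ : ∃ j, ((theta P).coeff (theta P).natDegree).coeff j ≠ 0 := by
    by_contra hc
    push Not at hc
    exact h1 (Polynomial.ext (by simpa using hc))
  obtain ⟨i, hi⟩ : ∃ i, (((theta P).coeff (theta P).natDegree).coeff j).coeff i ≠ 0 := by
    by_contra hc
    push Not at hc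
    exact hj (Polynomial.ext (by simpa using hc))
  rw [theta_coeff] at hi
  split_ifs at hi with h
  · refine ⟨j, by omega, ?_⟩
    have : (theta P).natDegree - j = i := by omega
    rwa [this]
  · exact absurd rfl hi

private theorem natDegree_theta_of {d : ℕ} {P : K[X][X]} (hTD : TD d P)
    (htop : ∃ j ≤ d, (P.coeff j).coeff (d - j) ≠ 0) : (theta P).natDegree = d := by
  obtain ⟨j, hj, h⟩ := htop
  refine le_antisymm ((theta_natDegree d P).2 hTD) ?_
  have h1 := TD_iff.1 ((theta_natDegree _ P).1 le_rfl) _ _ h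
  omega

end

end FM5

open FM5

theorem factor_data {k : Type} [Field k] {d : ℕ} {G : k[X][X]} (hTD : TD d G)
    (htop : ∃ j ≤ d, (G.coeff j).coeff (d - j) ≠ 0) :
    ∃ (t : ℕ) (F : Fin t → k[X][X]) (δ m : Fin t → ℕ) (u : k), u ≠ 0 ∧
      G = C (C u) * ∏ i, F i ^ m i ∧
      (∀ i, Irreducible (F i) ∧ 1 ≤ δ i ∧ 1 ≤ m i ∧ TD (δ i) (F i) ∧
        ∃ j ≤ δ i, ((F i).coeff j).coeff (δ i - j) ≠ 0) ∧
      (Pairwise fun i j => ¬ Associated (F i) (F j)) ∧ ∑ i, m i * δ i = d := by
  classical
  have hG : G ≠ 0 := by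
    rintro rfl
    obtain ⟨j, _, h⟩ := htop
    simp at h
  set s := UniqueFactorizationMonoid.normalizedFactors G with hs
  set T : Finset k[X][X] := s.toFinset with hT
  let e : Fin T.card ≃ T := T.equivFin.symm
  have hmem : ∀ i, (e i : k[X][X]) ∈ s := fun i => Multiset.mem_toFinset.1 (e i).2
  have hirr : ∀ i, Irreducible (e i : k[X][X]) := fun i =>
    UniqueFactorizationMonoid.irreducible_of_normalized_factor _ (hmem i)
  have hassoc := UniqueFactorizationMonoid.prod_normalizedFactors hG
  obtain ⟨v, hv⟩ := hassoc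
  obtain ⟨c, hc, hcv⟩ := Polynomial.isUnit_iff.1 v.isUnit
  obtain ⟨c', hc', hcc⟩ := Polynomial.isUnit_iff.1 hc
  have hprod : s.prod = ∏ i, (e i : k[X][X]) ^ s.count (e i : k[X][X]) := by
    rw [Finset.prod_multiset_count, ← hT]
    rw [← Finset.prod_coe_sort T (fun x => x ^ s.count x)]
    exact (Equiv.prod_comp e (fun x : T => (x : k[X][X]) ^ s.count (x : k[X][X]))).symm
  have hGe : G = C (C c') * ∏ i, (e i : k[X][X]) ^ s.count (e i : k[X][X]) := by
    rw [← hprod, ← hv, ← hcv, ← hcc, mul_comm]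
  have hm1 : ∀ i, 1 ≤ s.count (e i : k[X][X]) := fun i => Multiset.one_le_count_iff_mem.2 (hmem i)
  have hδ1 : ∀ i, 1 ≤ (theta (e i : k[X][X])).natDegree := by
    intro i
    by_contra hlt
    have h0 : (theta (e i : k[X][X])).natDegree = 0 := by omega
    have h1 := TD_iff.1 ((theta_natDegree _ (e i : k[X][X])).1 h0.le)
    have h2 : (e i : k[X][X]) = C (C (((e i : k[X][X]).coeff 0).coeff 0)) := by
      ext j i'
      by_cases hj : j = 0
      · subst hj
        by_cases hi : i' = 0
        · subst hi; simp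
        · rw [coeff_C_zero, coeff_C_of_ne_zero hi]
          by_contra h3
          have := h1 _ _ h3
          omega
      · rw [coeff_C_of_ne_zero hj, coeff_zero]
        by_contra h3
        have := h1 _ _ h3
        omega
    have h4 := hirr i
    rw [h2] at h4
    by_cases h5 : ((e i : k[X][X]).coeff 0).coeff 0 = 0
    · rw [h5] at h4
      simp at h4
    · exact h4.not_isUnit (isUnit_C.2 (isUnit_C.2 (isUnit_iff_ne_zero.2 h5)))
  refine ⟨T.card, fun i => (e i : k[X][X]), fun i => (theta (e i : k[X][X])).natDegree,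
    fun i => s.count (e i : k[X][X]), c', isUnit_iff_ne_zero.1 hc', hGe, fun i =>
      ⟨hirr i, hδ1 i, hm1 i, (theta_natDegree _ _).1 le_rfl, top_of (hirr i).ne_zero⟩, ?_, ?_⟩
  · intro i j hij hass
    have h1 := UniqueFactorizationMonoid.normalize_normalized_factor _ (hmem i)
    have h2 := UniqueFactorizationMonoid.normalize_normalized_factor _ (hmem j)
    have h3 : (e i : k[X][X]) = e j := by
      rw [← h1, ← h2]
      exact normalize_eq_normalize hass.dvd hass.symm.dvd
    exact hij (e.injective (Subtype.ext h3))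
  · have h1 := natDegree_theta_of hTD htop
    have hne : ∀ i, theta (e i : k[X][X]) ≠ 0 := fun i => theta_ne (hirr i).ne_zero
    have hCC : (theta (C (C c') : k[X][X])).natDegree = 0 := by
      have h2 : TD 0 (C (C c') : k[X][X]) := TD.C (by simp)
      have := (theta_natDegree 0 _).2 h2
      omega
    have hCC0 : theta (C (C c') : k[X][X]) ≠ 0 := by
      apply theta_ne
      simpa using isUnit_iff_ne_zero.1 hc'
    have hp0 : theta (∏ i, (e i : k[X][X]) ^ s.count (e i : k[X][X])) ≠ 0 := by
      apply theta_ne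
      rw [Finset.prod_ne_zero_iff]
      intro i _
      exact pow_ne_zero _ (hirr i).ne_zero
    rw [hGe, map_mul, natDegree_mul hCC0 hp0, hCC, zero_add, map_prod,
      natDegree_prod _ _ (fun i _ => by rw [map_pow]; exact pow_ne_zero _ (hne i))] at h1
    rw [← h1]
    refine Finset.sum_congr rfl fun i _ => ?_
    rw [map_pow, natDegree_pow]

theorem good_shift {k : Type} [Field k] {d t : ℕ} {G : k[X][X]} {F : Fin t → k[X][X]}
    {δ m : Fin t → ℕ} {u : k} (hu : u ≠ 0) (hG : G = C (C u) * ∏ i, F i ^ m i)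
    (hF : ∀ i, Irreducible (F i) ∧ 1 ≤ δ i ∧ TD (δ i) (F i)) (hTD : TD d G)
    (hd : ∑ i, m i * δ i = d) {a b : k} (h1 : ∀ i, (shf a b (F i)).coeff (δ i) ≠ 0)
    (h2 : (at0 (∏ i, shf a b (F i))).Separable) :
    ∃ F' : Fin t → k[X][X], (∀ i, (F' i).Monic ∧ (F' i).natDegree = δ i ∧ TD (δ i) (F' i) ∧
        Irreducible (F' i) ∧ ∃ c : k, c ≠ 0 ∧ shf (-a) (-b) (F' i) = C (C c) * F i) ∧
      (shf a b G).coeff d ≠ 0 ∧ nrm d a b G = ∏ i, F' i ^ m i ∧
      (at0 (∏ i, F' i)).Separable := by
  classical
  let lc : Fin t → k := fun i => ((shf a b (F i)).coeff (δ i)).coeff 0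
  have hlc : ∀ i, (shf a b (F i)).coeff (δ i) = C (lc i) := fun i =>
    shf_coeff_eq_C a b (hF i).2.2
  have hlc0 : ∀ i, lc i ≠ 0 := by
    intro i h0
    apply h1 i
    rw [hlc i, h0, C_0]
  have hn := fun i => normalise.{0, 0} (hF i).2.2 a b (lc i) (hlc i) (hlc0 i)
  let F' : Fin t → k[X][X] := fun i => C (C (lc i)⁻¹) * shf a b (F i)
  have hF'm : ∀ i, (F' i).Monic := fun i => (hn i).1
  have hF'd : ∀ i, (F' i).natDegree = δ i := fun i => (hn i).2.1
  have hunit : ∀ c : k, c ≠ 0 → IsUnit (C (C c) : k[X][X]) := fun c hc =>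
    isUnit_C.2 (isUnit_C.2 (isUnit_iff_ne_zero.2 hc))
  have hshF : ∀ i, shf a b (F i) = C (C (lc i)) * F' i := by
    intro i
    simp only [F']
    rw [← mul_assoc, ← C_mul, ← C_mul, mul_inv_cancel₀ (hlc0 i), C_1, C_1, one_mul]
  let c0 : k := u * ∏ i, lc i ^ m i
  have hc0 : c0 ≠ 0 := mul_ne_zero hu (Finset.prod_ne_zero_iff.2 fun i _ => pow_ne_zero _ (hlc0 i))
  have hprod : shf a b G = C (C c0) * ∏ i, F' i ^ m i := by
    rw [hG, BadCount.shf_eq, map_mul, BadCount.shfHom_CC, map_prod]
    simp only [map_pow, ← BadCount.shf_eq, hshF, mul_pow, Finset.prod_mul_distrib]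
    rw [← mul_assoc]
    congr 1
    simp only [c0, C_mul, map_prod, map_pow]
  have hmon : (∏ i, F' i ^ m i).Monic := monic_prod_of_monic _ _ fun i _ => (hF'm i).pow _
  have hdeg : (∏ i, F' i ^ m i).natDegree = d := by
    rw [natDegree_prod_of_monic _ _ fun i _ => (hF'm i).pow _, ← hd]
    refine Finset.sum_congr rfl fun i _ => ?_
    rw [(hF'm i).natDegree_pow, hF'd]
  have hcoeff : (shf a b G).coeff d = C c0 := by
    rw [hprod, coeff_C_mul]
    have : (∏ i, F' i ^ m i).coeff d = 1 := by
      conv_lhs => rw [← hdeg]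
      exact hmon.coeff_natDegree
    rw [this, mul_one]
  refine ⟨F', fun i => ⟨hF'm i, hF'd i, (hn i).2.2.1, ?_, (lc i)⁻¹, inv_ne_zero (hlc0 i), ?_⟩,
    ?_, ?_, ?_⟩
  · obtain ⟨w, hw⟩ := hunit (lc i)⁻¹ (inv_ne_zero (hlc0 i))
    simp only [F']
    rw [← hw, irreducible_units_mul, irreducible_shf_iff]
    exact (hF i).1
  · simp only [F']
    rw [BadCount.shf_eq, map_mul, BadCount.shfHom_CC, BadCount.shf_eq a b, BadCount.shf_inv]
  · rw [hcoeff]
    exact C_ne_zero.2 hc0
  · rw [nrm, hcoeff, coeff_C_zero, hprod, ← mul_assoc, ← C_mul, ← C_mul, inv_mul_cancel₀ hc0, C_1,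
      C_1, one_mul]
  · have h3 : (∏ i, F' i) = C (C (∏ i, (lc i)⁻¹)) * ∏ i, shf a b (F i) := by
      simp only [F', Finset.prod_mul_distrib, map_prod]
    rw [h3, at0_C_mul]
    refine Separable.unit_mul (isUnit_C.2 (isUnit_iff_ne_zero.2 ?_)) h2
    exact Finset.prod_ne_zero_iff.2 fun i _ => inv_ne_zero (hlc0 i)

open Classical in
theorem rho_eq {k : Type} [Field k] [IsAlgClosed k] {t : ℕ} {P : Fin t → k[X]}
    (hP : ∀ i, (P i).Monic) (hsep : (∏ i, P i).Separable) (m : Fin t → ℕ) (j : ℕ) :
    ∏ α ∈ (∏ i, P i ^ m i).roots.toFinset with j < (∏ i, P i ^ m i).rootMultiplicity α,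
      (X - C α) = ∏ i with j < m i, P i := by
  have hne : ∀ i, P i ≠ 0 := fun i => (hP i).ne_zero
  have hsepi : ∀ i, (P i).Separable := fun i =>
    hsep.of_dvd (Finset.dvd_prod_of_mem P (Finset.mem_univ i))
  have hPi : ∀ i, P i = ∏ α ∈ (P i).roots.toFinset, (X - C α) := by
    intro i
    have h1 := (IsAlgClosed.splits (P i)).eq_prod_roots_of_monic (hP i)
    have h2 : (P i).roots.Nodup := nodup_roots (hsepi i)
    conv_lhs => rw [h1]
    rw [Finset.prod_multiset_map_count]
    refine Finset.prod_congr rfl fun α hα => ?_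
    rw [Multiset.count_eq_one_of_mem h2 (Multiset.mem_toFinset.1 hα), pow_one]
  have hdisj : ∀ i i', i ≠ i' → Disjoint (P i).roots.toFinset (P i').roots.toFinset := by
    intro i i' hii
    rw [Finset.disjoint_left]
    intro α h1 h2
    rw [Multiset.mem_toFinset, mem_roots (hne _)] at h1 h2
    have h3 : P i * P i' ∣ ∏ i, P i := by
      rw [← Finset.mul_prod_erase Finset.univ P (Finset.mem_univ i)]
      refine mul_dvd_mul_left _ (Finset.dvd_prod_of_mem P ?_)
      exact Finset.mem_erase.2 ⟨hii.symm, Finset.mem_univ _⟩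
    have h4 := (hsep.of_dvd h3).isCoprime
    obtain ⟨a, b, hab⟩ := h4
    have h5 := congrArg (fun q => q.eval α) hab
    simp [h1.eq_zero, h2.eq_zero] at h5
  have hcount : ∀ i α, α ∈ (P i).roots.toFinset →
      (∏ i, P i ^ m i).rootMultiplicity α = m i := by
    intro i α hα
    have hp0 : (∏ i, P i ^ m i) ≠ 0 := Finset.prod_ne_zero_iff.2 fun i _ => pow_ne_zero _ (hne i)
    rw [← count_roots, roots_prod _ _ hp0, Multiset.count_bind]
    simp only [roots_pow, Multiset.count_nsmul]
    have h1 : (Multiset.map (fun i => m i * Multiset.count α (P i).roots) Finset.univ.val).sum =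
        ∑ i, m i * Multiset.count α (P i).roots := rfl
    rw [h1, Finset.sum_eq_single i]
    · rw [Multiset.count_eq_one_of_mem (nodup_roots (hsepi i)) (Multiset.mem_toFinset.1 hα),
        mul_one]
    · intro i' _ hi'
      have h2 : α ∉ (P i').roots.toFinset := Finset.disjoint_left.1 (hdisj i i' hi'.symm) hα
      rw [Multiset.mem_toFinset] at h2
      rw [Multiset.count_eq_zero_of_notMem h2, mul_zero]
    · intro h; exact absurd (Finset.mem_univ _) h
  have hset : (∏ i, P i ^ m i).roots.toFinset.filter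
      (fun α => j < (∏ i, P i ^ m i).rootMultiplicity α) =
      (Finset.univ.filter fun i => j < m i).biUnion fun i => (P i).roots.toFinset := by
    ext α
    have hp0 : (∏ i, P i ^ m i) ≠ 0 := Finset.prod_ne_zero_iff.2 fun i _ => pow_ne_zero _ (hne i)
    rw [Finset.mem_filter, Finset.mem_biUnion, Multiset.mem_toFinset, mem_roots hp0]
    constructor
    · rintro ⟨h1, h2⟩
      rw [IsRoot.def, eval_prod, Finset.prod_eq_zero_iff] at h1
      obtain ⟨i, _, hi⟩ := h1
      rw [eval_pow] at hi
      have h3 := eq_zero_of_pow_eq_zero hi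
      have h4 : α ∈ (P i).roots.toFinset := by
        rw [Multiset.mem_toFinset, mem_roots (hne i)]
        exact h3
      refine ⟨i, ?_, h4⟩
      rw [Finset.mem_filter]
      refine ⟨Finset.mem_univ _, ?_⟩
      rwa [hcount i α h4] at h2
    · rintro ⟨i, hi, h4⟩
      rw [Finset.mem_filter] at hi
      refine ⟨?_, by rw [hcount i α h4]; exact hi.2⟩
      rw [IsRoot.def, eval_prod]
      refine Finset.prod_eq_zero (Finset.mem_univ i) ?_
      rw [Multiset.mem_toFinset, mem_roots (hne i)] at h4
      rw [eval_pow, h4.eq_zero]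
      exact zero_pow (by omega)
  rw [hset, Finset.prod_biUnion]
  · exact Finset.prod_congr rfl fun i _ => (hPi i).symm
  · intro i _ i' _ hii
    exact hdisj i i' hii

end Pool.Agent.AbsIrr
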