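import Mathlib
import Pool.Agent.Lib.MP_2adc98_lc.FCost
import Pool.Agent.Lib.MP_2adc98_lc.FM5
import Pool.Agent.Lib.MP_2adc98_lc.Core

/-!
# MP_2adc98_lc, stage 2: the data after the shift
-/

set_option autoImplicit false

namespace Pool.Agent.AbsIrr

open Finset Polynomial

namespace FMn

theorem at0_map {K k : Type} [Field K] [Field k] (σ : K →+* k) (f : K[X][X]) :
    at0 (f.map (mapRingHom σ)) = (at0 f).map σ := by
  unfold at0
  rw [Polynomial.map_map, Polynomial.map_map]
  congr 1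
  ext x
  · simp
  · simp

theorem nrm_map {K k : Type} [Field K] [Field k] (σ : K →+* k) (d : ℕ) (a b : K) (F : K[X][X]) :
    (nrm d a b F).map (mapRingHom σ) = nrm d (σ a) (σ b) (F.map (mapRingHom σ)) := by
  unfold nrm
  rw [Polynomial.map_mul, shf_map, map_C, coe_mapRingHom, map_C, ← shf_map, coeff_map,
    coe_mapRingHom, coeff_map, map_inv₀]

theorem at0_prod {K : Type} [Field K] {ι : Type} (s : Finset ι) (F : ι → K[X][X]) :
    at0 (∏ i ∈ s, F i) = ∏ i ∈ s, at0 (F i) := by
  unfold at0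
  rw [Polynomial.map_prod]

theorem at0_pow {K : Type} [Field K] (F : K[X][X]) (m : ℕ) : at0 (F ^ m) = at0 F ^ m := by
  unfold at0
  rw [Polynomial.map_pow]

theorem gmon_eq {K : Type} [Field K] {d : ℕ} {P : K[X]} (hP : P.Monic) (hd : P.natDegree = d)
    {g : ℕ → K} (hg : ∀ i < d, g i = P.coeff i) : gmon d g = P := by
  ext i
  rw [FN.gmon_coeff]
  split_ifs with h1 h2
  · exact hg i h1
  · subst h2
    rw [← hd]
    exact hP.coeff_natDegree.symm
  · rw [coeff_eq_zero_of_natDegree_lt (by omega)]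

open Classical in
/-- the degrees of the products over the multiplicities -/
theorem adeg_mult {K : Type} [Field K] {k : Type} [Field k] [IsAlgClosed k] [Algebra K k]
    {d t : ℕ} {P : Fin t → k[X]} {mm : Fin t → ℕ} (hP : ∀ i, (P i).Monic)
    (hsep : (∏ i, P i).Separable) (hd : (∏ i, P i ^ mm i).natDegree ≤ d) {rho : ℕ → K}
    (h : IsRho d (∏ i, P i ^ mm i) rho) {j : ℕ} (hj : j ≤ d) :
    adeg (d + 1) (blkA (d + 1) j rho) = ∑ i with j < mm i, (P i).natDegree := by
  rw [adeg_rho hd h hj]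
  have h1 := congrArg natDegree (rho_eq hP hsep mm j)
  rw [natDegree_prod_of_monic _ _ (fun α _ => monic_X_sub_C α),
    natDegree_prod_of_monic _ _ (fun i _ => hP i)] at h1
  simp only [natDegree_X_sub_C, sum_const, smul_eq_mul, mul_one] at h1
  exact h1

open Classical in
theorem adeg_diff {K : Type} [Field K] {k : Type} [Field k] [IsAlgClosed k] [Algebra K k]
    {d t : ℕ} {P : Fin t → k[X]} {mm : Fin t → ℕ} (hP : ∀ i, (P i).Monic)
    (hsep : (∏ i, P i).Separable) (hd : (∏ i, P i ^ mm i).natDegree ≤ d) {rho : ℕ → K}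
    (h : IsRho d (∏ i, P i ^ mm i) rho) {m : ℕ} (hm : 1 ≤ m) (hmd : m ≤ d) :
    adeg (d + 1) (blkA (d + 1) (m - 1) rho) - adeg (d + 1) (blkA (d + 1) m rho) =
      ∑ i with mm i = m, (P i).natDegree := by
  rw [adeg_mult hP hsep hd h (by omega), adeg_mult hP hsep hd h hmd]
  have h1 : ∑ i with m - 1 < mm i, (P i).natDegree =
      ∑ i with m < mm i, (P i).natDegree + ∑ i with mm i = m, (P i).natDegree := by
    rw [← Finset.sum_union]
    · congr 1
      ext i
      simp only [mem_filter, mem_union, mem_univ, true_and]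
      omega
    · rw [Finset.disjoint_left]
      intro i h4 h5
      have h6 := (mem_filter.mp h4).2
      have h7 := (mem_filter.mp h5).2
      omega
  omega

section
variable {Fsh : Fam (.prod .nat (.prod .fld (.prod .fld .arr))) .arr}
  {Fmd : Fam (.prod .nat (.prod .nat .arr)) .arr} {L : Type} [Field L] {p d : ℕ} {A : ℕ → L}

/-- the coefficients of the normalised polynomial, for the shift `(a, b)` -/
def fT (Fsh : Fam (.prod .nat (.prod .fld (.prod .fld .arr))) .arr) (p d : ℕ) (A : ℕ → L)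
    (a b : L) : ℕ → L := tFn Fsh L (d, (p, (A, fun i => if i = 0 then a else b)))

/-- the products over the multiplicities, for the shift `(a, b)` -/
def rT (Fsh : Fam (.prod .nat (.prod .fld (.prod .fld .arr))) .arr)
    (Fmd : Fam (.prod .nat (.prod .nat .arr)) .arr) (p d : ℕ) (A : ℕ → L) (a b : L) : ℕ → L :=
  aRho Fsh Fmd L (d, (p, (A, fun i => if i = 0 then a else b)))

theorem tSh_congr (ω ω' : ℕ → L) (h0 : ω' 0 = ω 0) (h1 : ω' 1 = ω 1) :
    tSh Fsh L (d, (p, (A, ω'))) = tSh Fsh L (d, (p, (A, ω))) := by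
  change Fsh L (d, (ω' 0, (ω' 1, A))) = Fsh L (d, (ω 0, (ω 1, A)))
  rw [h0, h1]

theorem fT_eq (ω : ℕ → L) : tFn Fsh L (d, (p, (A, ω))) = fT Fsh p d A (ω 0) (ω 1) := by
  unfold fT
  have h := tSh_congr (Fsh := Fsh) (p := p) (d := d) (A := A)
    (fun i => if i = 0 then ω 0 else ω 1) ω (by simp) (by simp)
  simp only [tFn, h]

theorem rT_eq (ω : ℕ → L) : aRho Fsh Fmd L (d, (p, (A, ω))) = rT Fsh Fmd p d A (ω 0) (ω 1) := by
  unfold rT
  have h := tSh_congr (Fsh := Fsh) (p := p) (d := d) (A := A)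
    (fun i => if i = 0 then ω 0 else ω 1) ω (by simp) (by simp)
  simp only [aRho, tF0, tFn, h]

/-- the specification of the routine for the multiplicities -/
def SpecMd (Fmd : Fam (.prod .nat (.prod .nat .arr)) .arr) : Prop :=
  ∀ (K : Type) [Field K] (d p : ℕ) [CharP K p] [Fact p.Prime] [PerfectRing K p]
      (f₀ : ℕ → K) (k : Type) [Field k] [IsAlgClosed k] [Algebra K k],
      IsRho d ((gmon d f₀).map (algebraMap K k)) (Fmd K (d, (p, f₀)))

theorem fT_spec (hsh : SpecSh Fsh) {F : L[X][X]} (hF : TD d F)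
    (hA : ∀ n < (d + 1) * (d + 1), A n = coeffs2 (d + 1) F n) (a b : L) (n : ℕ)
    (hn : n < (d + 1) * (d + 1)) : fT Fsh p d A a b n = coeffs2 (d + 1) (nrm d a b F) n :=
  tFn_spec hsh hF hA (fun i => if i = 0 then a else b) n hn

theorem rT_spec (hsh : SpecSh Fsh) (hmd : SpecMd Fmd) [CharP L p] [Fact p.Prime]
    [PerfectRing L p] {F : L[X][X]} (hF : TD d F)
    (hA : ∀ n < (d + 1) * (d + 1), A n = coeffs2 (d + 1) F n) {a b : L}
    (h0 : (shf a b F).coeff d ≠ 0) (k : Type) [Field k] [IsAlgClosed k] [Algebra L k] :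
    IsRho d (at0 ((nrm d a b F).map (mapRingHom (algebraMap L k)))) (rT Fsh Fmd p d A a b) := by
  obtain ⟨e1, e2, e3, e4, e5⟩ := nrm_spec hF a b h0
  have h1 : gmon d (tF0 Fsh L (d, (p, (A, fun i => if i = 0 then a else b)))) =
      at0 (nrm d a b F) := by
    have h3 : (at0 (nrm d a b F)).natDegree = d := by
      unfold at0
      rw [e1.natDegree_map, e2]
    refine gmon_eq (e1.map _) h3 (fun i hi => ?_)
    exact tF0_spec hsh hF hA (fun i => if i = 0 then a else b) i hi.le
  have h2 := hmd L d p (tF0 Fsh L (d, (p, (A, fun i => if i = 0 then a else b)))) k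
  rw [h1, ← at0_map] at h2
  exact h2

end

end FMn

end Pool.Agent.AbsIrr
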