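import Mathlib
import Pool.Agent.Lib.MP_2adc98_lc.ADefs
import Pool.Agent.Lib.MP_2adc98_lc.BL

/-!
# MP_2adc98_lc, piece PAR: the parameters (helper8)
-/

set_option autoImplicit false
set_option linter.unusedVariables false

namespace Pool.Agent.AbsIrr

open Finset Polynomial

private def pK (d : ℕ) : ℕ := Nat.log 2 (5 * (d * d)) + 1

private def pN (d : ℕ) : ℕ := 2 ^ pK d

private def pQ (d p : ℕ) : ℕ :=
  if 1 < p then (if p < d * d then p ^ Nat.log p (pN d) else pN d) else pN d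

private def pB (d p : ℕ) : ℕ := Nat.log 2 (pN d / pQ d p + 1) + 1

private theorem pN_pos (d : ℕ) : 1 ≤ pN d := Nat.one_le_two_pow

private theorem pN_gt (d : ℕ) : 5 * (d * d) < pN d :=
  Nat.lt_pow_succ_log_self (by norm_num) _

private theorem pN_le (d : ℕ) : pN d ≤ 10 * (d * d) + 2 := by
  rcases Nat.eq_zero_or_pos d with rfl | hd
  · decide
  · have h1 : 2 ^ Nat.log 2 (5 * (d * d)) ≤ 5 * (d * d) :=
      Nat.pow_log_le_self 2 (by positivity)
    unfold pN pK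
    rw [pow_succ]
    omega

private theorem pK_le (d : ℕ) : pK d ≤ 5 * (d * d) + 1 := by
  have := Nat.log_le_self 2 (5 * (d * d))
  unfold pK
  omega

private theorem pQ_cases (d p : ℕ) : pQ d p = pN d ∨
    (1 < p ∧ p < d * d ∧ pQ d p = p ^ Nat.log p (pN d)) := by
  unfold pQ
  split_ifs with h1 h2
  · exact Or.inr ⟨h1, h2, rfl⟩
  · exact Or.inl rfl
  · exact Or.inl rfl

private theorem pQ_pos (d p : ℕ) : 1 ≤ pQ d p := by
  rcases pQ_cases d p with h | ⟨h1, h2, h3⟩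
  · rw [h]; exact pN_pos d
  · rw [h3]; exact Nat.one_le_pow _ _ (by omega)

private theorem pQ_le (d p : ℕ) : pQ d p ≤ pN d := by
  rcases pQ_cases d p with h | ⟨h1, h2, h3⟩
  · rw [h]
  · rw [h3]
    exact Nat.pow_log_le_self p (by have := pN_pos d; omega)

private theorem pDiv_lt (d p : ℕ) (h1 : 1 < p) (h2 : p < d * d) : pN d / pQ d p < p := by
  have h3 : pQ d p = p ^ Nat.log p (pN d) := by
    unfold pQ
    rw [if_pos h1, if_pos h2]
  rw [Nat.div_lt_iff_lt_mul (pQ_pos d p), h3, mul_comm, ← pow_succ]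
  exact Nat.lt_pow_succ_log_self h1 _

private theorem pDiv_le (d p : ℕ) : pN d / pQ d p ≤ 12 * (d + 1) := by
  rcases pQ_cases d p with h | ⟨h1, h2, h3⟩
  · rw [h, Nat.div_self (pN_pos d)]
    omega
  · rcases le_or_gt p d with hp | hp
    · have := pDiv_lt d p h1 h2
      omega
    · have h4 : p ≤ pQ d p := by
        rw [h3]
        have h5 : p ≤ pN d := by have := pN_gt d; omega
        have h6 : 0 < Nat.log p (pN d) := Nat.log_pos h1 h5
        calc p = p ^ 1 := (pow_one p).symm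
          _ ≤ p ^ Nat.log p (pN d) := Nat.pow_le_pow_right (by omega) h6
      calc pN d / pQ d p ≤ pN d / (d + 1) := Nat.div_le_div_left (by omega) (by omega)
        _ ≤ (12 * (d + 1) * (d + 1)) / (d + 1) := by
          refine Nat.div_le_div_right ?_
          have := pN_le d
          nlinarith
        _ = 12 * (d + 1) := Nat.mul_div_cancel _ (by omega)

private theorem pB_ge (d p : ℕ) : pN d / pQ d p + 1 ≤ 2 ^ pB d p :=
  (Nat.lt_pow_succ_log_self (by norm_num) _).le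

private theorem pB_le (d p : ℕ) : 2 ^ pB d p ≤ 2 * (pN d / pQ d p + 1) := by
  unfold pB
  rw [pow_succ, mul_comm]
  exact Nat.mul_le_mul_left 2 (Nat.pow_log_le_self 2 (Nat.succ_ne_zero _))

private theorem pK_rlz {a : Ty} {D : Fam a .nat} {cd : CFam a} (hD : RlzQ D cd) :
    RlzQ (b := .nat) (fun K _ x => pK (D K x)) (fun K _ x => cd K x + (D K x : ℕ) ^ 2) := by
  refine ((RlzQ.add (RlzQ.nlog (RlzQ.lit 2) (RlzQ.mul (RlzQ.lit 5) (RlzQ.mul hD hD)))
    (RlzQ.lit 1)).congr (fun K _ x => rfl)).mono 10 (fun K _ x => ?_)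
  have key : ∀ c D : ℕ, 0 + (0 + (c + c)) + 5 * (D * D) + 0 ≤ 10 * (c + D ^ 2 + 1) := by
    intro c D
    nlinarith
  exact key _ _

private theorem pN_rlz {a : Ty} {D : Fam a .nat} {cd : CFam a} (hD : RlzQ D cd) :
    RlzQ (b := .nat) (fun K _ x => pN (D K x)) (fun K _ x => cd K x + (D K x : ℕ) ^ 2) := by
  refine ((RlzQ.npow (RlzQ.lit 2) (pK_rlz hD)).congr (fun K _ x => rfl)).mono 30 (fun K _ x => ?_)
  have key : ∀ c D : ℕ, 0 + (c + D ^ 2) + pK D + 2 ^ pK D ≤ 30 * (c + D ^ 2 + 1) := by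
    intro c D
    have h1 := pK_le D
    have h2 : 2 ^ pK D ≤ 10 * (D * D) + 2 := pN_le D
    nlinarith
  exact key _ _

private theorem pQ_rlz : RlzQ (a := .prod .nat .nat) (b := .nat)
    (fun K _ x => pQ x.1 x.2) (fun K _ x => x.1 ^ 2) := by
  have eD : RlzQ (a := .prod .nat .nat) (b := .nat) (fun K _ x => x.1) (fun _ _ _ => 0) :=
    RlzQ.fst RlzQ.input
  have eP : RlzQ (a := .prod .nat .nat) (b := .nat) (fun K _ x => x.2) (fun _ _ _ => 0) :=
    RlzQ.snd RlzQ.input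
  have eN := pN_rlz eD
  refine ((RlzQ.iteLt (RlzQ.lit 1) eP (RlzQ.iteLt eP (RlzQ.mul eD eD)
    (RlzQ.npow eP (RlzQ.nlog eP eN)) eN) eN).congr (fun K _ x => rfl)).mono 60 (fun K _ x => ?_)
  have key : ∀ d p : ℕ, (0 + 0 + if 1 < p then (0 + (0 + 0) + if p < d * d then
      0 + (0 + (0 + d ^ 2) + pN d) + Nat.log p (pN d) + p ^ Nat.log p (pN d) else 0 + d ^ 2)
      else 0 + d ^ 2) ≤ 60 * (d ^ 2 + 1) := by
    intro d p
    have h1 := pN_le d
    have h2 := Nat.log_le_self p (pN d)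
    have h3 : p ^ Nat.log p (pN d) ≤ pN d := Nat.pow_log_le_self p (by have := pN_pos d; omega)
    split_ifs <;> nlinarith
  exact key _ _

private theorem pB_rlz : RlzQ (a := .prod .nat .nat) (b := .nat)
    (fun K _ x => pB x.1 x.2) (fun K _ x => x.1 ^ 2) := by
  have eD : RlzQ (a := .prod .nat .nat) (b := .nat) (fun K _ x => x.1) (fun _ _ _ => 0) :=
    RlzQ.fst RlzQ.input
  have eN := pN_rlz eD
  refine ((RlzQ.add (RlzQ.nlog (RlzQ.lit 2) (RlzQ.add (RlzQ.div eN pQ_rlz) (RlzQ.lit 1)))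
    (RlzQ.lit 1)).congr (fun K _ x => rfl)).mono 60 (fun K _ x => ?_)
  have key : ∀ d p : ℕ, 0 + ((0 + d ^ 2) + d ^ 2 + 0) + (pN d / pQ d p + 1) + 0 ≤
      60 * (d ^ 2 + 1) := by
    intro d p
    have h1 := pN_le d
    have h2 := Nat.div_le_self (pN d) (pQ d p)
    nlinarith
  exact key _ _

theorem params : ∃ κ q b : ℕ → ℕ → ℕ,
    RlzQ (a := .prod .nat .nat) (b := .prod .nat (.prod .nat .nat))
      (fun _ _ x => (κ x.1 x.2, (q x.1 x.2, b x.1 x.2))) (fun _ _ x => x.1 ^ 2) ∧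
    (∃ C, ∀ d p, 2 ^ κ d p ≤ C * (d + 1) ^ 2 ∧ q d p ≤ C * (d + 1) ^ 2 ∧
      2 ^ b d p ≤ C * (d + 1) ∧ q d p * 2 ^ b d p ≤ C * (d + 1) ^ 2) ∧
    ∀ d p, p.Prime → p < d ^ 2 → 5 * d ^ 2 < 2 ^ κ d p ∧ ∃ e M₁, q d p = p ^ e ∧
      2 ^ κ d p ≤ p ^ e * M₁ ∧ 1 ≤ M₁ ∧ M₁ ≤ p ∧ M₁ ≤ 2 ^ b d p := by
  refine ⟨fun d _ => pK d, pQ, pB, ?_, ⟨50, fun d p => ?_⟩, fun d p hp hpd => ?_⟩
  · refine ((RlzQ.pair (pK_rlz (a := .prod .nat .nat) (RlzQ.fst RlzQ.input))
      (RlzQ.pair pQ_rlz pB_rlz)).congr (fun K _ x => rfl)).mono 3 (fun K _ x => ?_)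
    have key : ∀ c : ℕ, 0 + c + (c + c) ≤ 3 * (c + 1) := by intros; omega
    exact key _
  · have h1 : 2 ^ pK d ≤ 10 * (d * d) + 2 := pN_le d
    have h2 := pN_le d
    have h3 := pQ_le d p
    have h4 := pB_le d p
    have h5 := pDiv_le d p
    have h6 : pQ d p * (pN d / pQ d p) ≤ pN d := Nat.mul_div_le _ _
    have h7 : pQ d p * 2 ^ pB d p ≤ pQ d p * (2 * (pN d / pQ d p + 1)) :=
      Nat.mul_le_mul_left _ h4
    refine ⟨?_, ?_, ?_, ?_⟩ <;> nlinarith
  · have hpd' : p < d * d := by rw [← sq]; exact hpd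
    refine ⟨?_, Nat.log p (pN d), pN d / pQ d p + 1, ?_, ?_, Nat.le_add_left 1 _, ?_, pB_ge d p⟩
    · rw [sq]; exact pN_gt d
    · unfold pQ
      rw [if_pos hp.one_lt, if_pos hpd']
    · have h3 : pQ d p = p ^ Nat.log p (pN d) := by
        unfold pQ
        rw [if_pos hp.one_lt, if_pos hpd']
      rw [← h3]
      exact (Nat.lt_mul_div_succ (pN d) (pQ_pos d p)).le
    · have := pDiv_lt d p hp.one_lt hpd'
      omega

end Pool.Agent.AbsIrr
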