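import Mathlib
import Pool.Agent.Lib.MP_2adc98_lc.ADefs
import Pool.Agent.Lib.MP_2adc98_lc.BL

/-!
# MP_2adc98_lc, piece PR: the substitution `f(x + a y + b, y)`

Two steps `x → x + b`, `x → x + a y` with tables of powers and Pascal's triangle.
-/

set_option autoImplicit false

namespace Pool.Agent.AbsIrr

open Finset Polynomial

/-- the powers `b^k`, `k ≤ d` -/
def prPow (K : Type) [Field K] (d : ℕ) (b : K) : ℕ → K :=
  tabF (d + 1) (fun k => iterF k (1 : K) (fun s _ => s * b))

theorem pr_iterF_pow {K : Type} [Field K] (b : K) (k : ℕ) :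
    iterF k (1 : K) (fun s _ => s * b) = b ^ k := by
  induction k with
  | zero => simp
  | succ k ih => rw [iterF_succ, ih, pow_succ]

/-- `f(x+b,y)` -/
def prOne (K : Type) [Field K] (d : ℕ) (B P A : ℕ → K) : ℕ → K :=
  tabF ((d + 1) * (d + 1)) (fun n => ∑ k ∈ range (d + 1),
    A ((d + 1) * (n / (d + 1)) + k) * (B ((d + 1) * k + n % (d + 1)) * P (k - n % (d + 1))))

/-- `f(x+ay,y)` -/
def prTwo (K : Type) [Field K] (d : ℕ) (B P A : ℕ → K) : ℕ → K :=
  tabF ((d + 1) * (d + 1)) (fun n => ∑ m ∈ range (d + 1),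
    if m ≤ n / (d + 1) + n % (d + 1) then
      A ((d + 1) * (n / (d + 1) + n % (d + 1) - m) + m) *
        (B ((d + 1) * m + n % (d + 1)) * P (m - n % (d + 1)))
    else 0)

theorem pr_cost (n : ℕ) :
    (n + 1) * (n + 1) + (n + 1) * (n + 1) * (n + 1 + (n + 1)) ≤ 30 * (n ^ 3 + 1) := by
  rcases Nat.eq_zero_or_pos n with rfl | h
  · norm_num
  · have h1 : n ^ 2 ≤ n ^ 3 := Nat.pow_le_pow_right h (by norm_num)
    have h2 : n ^ 1 ≤ n ^ 3 := Nat.pow_le_pow_right h (by norm_num)
    nlinarith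

theorem prPow_rlz : RlzQ (a := .prod .nat .fld) (b := .arr)
    (fun K _ x => prPow K x.1 x.2) (fun _ _ x => x.1 ^ 2) := by
  unfold prPow
  apply RlzQ.mono
  case h =>
    refine RlzQ.tab (a := .prod .nat .fld) (cn := fun _ _ _ => 0 + 0)
      (f := fun (K : Type) [Field K] (x : Ty.val K (.prod .nat .fld)) (k : ℕ) =>
        iterF k (1 : K) (fun s _ => s * x.2))
      (c := fun (K : Type) [Field K] (x : Ty.val K (.prod (.prod .nat .fld) .nat)) => x.2) ?_ ?_
    · apply_rules (maxDepth := 400) [RlzQ.add, RlzQ.fst, RlzQ.snd, RlzQ.input, RlzQ.lit]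
    · refine (RlzQ.iter (a := .prod (.prod .nat .fld) .nat) (b := .fld)
        (f := fun (K : Type) [Field K] (x : Ty.val K (.prod (.prod .nat .fld) .nat)) (s : K)
          (i : ℕ) => s * x.1.2) (c := fun _ _ _ => 0) (RlzQ.snd RlzQ.input) RlzQ.one ?_).mono 1
          (fun K _ x => ?_)
      · refine (RlzQ.mono (g := fun _ _ _ => 0 + 0) ?_ 1 (fun _ _ _ => by simp))
        apply_rules (maxDepth := 400) [RlzQ.fmul, RlzQ.fst, RlzQ.snd, RlzQ.input]
      · simp
  case A => exact 10
  case hc =>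
    intro K _ x
    have : ∀ n : ℕ, 0 + 0 + (n + 1) + ∑ i ∈ range (n + 1), i ≤ 10 * (n ^ 2 + 1) := by
      intro n
      have : ∑ i ∈ range (n + 1), i ≤ (n + 1) * (n + 1) :=
        sum_range_le (B := n + 1) (fun i hi => by omega)
      nlinarith
    exact this x.1

theorem prOne_rlz : RlzQ (a := .prod .nat (.prod .arr (.prod .arr .arr))) (b := .arr)
    (fun K _ x => prOne K x.1 x.2.1 x.2.2.1 x.2.2.2) (fun _ _ x => x.1 ^ 3) := by
  unfold prOne
  apply RlzQ.mono
  case h =>
    apply_rules (maxDepth := 400) [RlzQ.tab, RlzQ.sum, RlzQ.add, RlzQ.sub, RlzQ.mul, RlzQ.div,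
      RlzQ.mod, RlzQ.fmul, RlzQ.get, RlzQ.fst, RlzQ.snd, RlzQ.input, RlzQ.lit]
  case A => exact 30
  case hc =>
    intro K _ x
    simp only [Finset.sum_const_zero, add_zero, zero_add, Finset.sum_const, card_range, smul_eq_mul]
    refine le_trans ?_ (pr_cost x.1)
    gcongr
    · exact Nat.le_add_right _ _
    · exact Nat.le_add_left _ _

theorem prTwo_rlz : RlzQ (a := .prod .nat (.prod .arr (.prod .arr .arr))) (b := .arr)
    (fun K _ x => prTwo K x.1 x.2.1 x.2.2.1 x.2.2.2) (fun _ _ x => x.1 ^ 3) := by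
  unfold prTwo
  apply RlzQ.mono
  case h =>
    apply_rules (maxDepth := 400) [RlzQ.tab, RlzQ.sum, RlzQ.iteLe, RlzQ.add, RlzQ.sub, RlzQ.mul,
      RlzQ.div, RlzQ.mod, RlzQ.fmul, RlzQ.get, RlzQ.fst, RlzQ.snd, RlzQ.input, RlzQ.lit, RlzQ.zero]
  case A => exact 30
  case hc =>
    intro K _ x
    simp only [Finset.sum_const_zero, add_zero, zero_add, Finset.sum_const, card_range, smul_eq_mul,
      ite_self]
    refine le_trans ?_ (pr_cost x.1)
    gcongr
    · exact Nat.le_add_right _ _
    · exact Nat.le_add_left _ _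

/-- the routine -/
def prShift (K : Type) [Field K] (d : ℕ) (a b : K) (A : ℕ → K) : ℕ → K :=
  prTwo K d (binT K d) (prPow K d a) (prOne K d (binT K d) (prPow K d b) A)

theorem prShift_rlz : RlzQ (a := .prod .nat (.prod .fld (.prod .fld .arr))) (b := .arr)
    (fun K _ x => prShift K x.1 x.2.1 x.2.2.1 x.2.2.2) (fun _ _ x => x.1 ^ 3) := by
  have h1 : RlzQ (a := .prod .nat (.prod .fld (.prod .fld .arr))) (b := .arr)
      (fun K _ x => binT K x.1) (fun _ _ x => 0 + x.1 ^ 3) := RlzQ.binT (RlzQ.fst RlzQ.input)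
  have h2 : RlzQ (a := .prod .nat (.prod .fld (.prod .fld .arr))) (b := .arr)
      (fun K _ x => prPow K x.1 x.2.1) (fun _ _ x => (0 + 0) + x.1 ^ 2) :=
    RlzQ.comp prPow_rlz (RlzQ.pair (RlzQ.fst RlzQ.input) (RlzQ.fst (RlzQ.snd RlzQ.input)))
  have h3 : RlzQ (a := .prod .nat (.prod .fld (.prod .fld .arr))) (b := .arr)
      (fun K _ x => prPow K x.1 x.2.2.1) (fun _ _ x => (0 + 0) + x.1 ^ 2) :=
    RlzQ.comp prPow_rlz (RlzQ.pair (RlzQ.fst RlzQ.input)
      (RlzQ.fst (RlzQ.snd (RlzQ.snd RlzQ.input))))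
  have h4 := RlzQ.comp prOne_rlz (RlzQ.pair (a := .prod .nat (.prod .fld (.prod .fld .arr)))
    (RlzQ.fst RlzQ.input) (RlzQ.pair h1 (RlzQ.pair h3
      (RlzQ.snd (RlzQ.snd (RlzQ.snd RlzQ.input))))))
  have h5 := RlzQ.comp prTwo_rlz (RlzQ.pair (a := .prod .nat (.prod .fld (.prod .fld .arr)))
    (RlzQ.fst RlzQ.input) (RlzQ.pair h1 (RlzQ.pair h2 h4)))
  refine h5.mono 30 (fun K _ x => ?_)
  have : ∀ n : ℕ, 0 + (0 + n ^ 3 + (0 + 0 + n ^ 2 + (0 + (0 + n ^ 3 + (0 + 0 + n ^ 2 + 0)) + n ^ 3)))
      + n ^ 3 ≤ 30 * (n ^ 3 + 1) := by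
    intro n
    rcases Nat.eq_zero_or_pos n with rfl | h
    · norm_num
    · have h1 : n ^ 2 ≤ n ^ 3 := Nat.pow_le_pow_right h (by norm_num)
      omega
  exact this x.1

/-! ## the specification -/

/-- all coefficients have indices at most `d` -/
def prWB (d : ℕ) {K : Type} [Field K] (f : K[X][X]) : Prop :=
  ∀ j k, (f.coeff j).coeff k ≠ 0 → j ≤ d ∧ k ≤ d

theorem prWB_of_TD {K : Type} [Field K] {d : ℕ} {f : K[X][X]} (h : TD d f) : prWB d f := by
  intro j k hjk
  have h1 : f.coeff j ≠ 0 := by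
    intro h0
    rw [h0] at hjk
    simp at hjk
  have h2 := h j h1
  have h3 := le_natDegree_of_ne_zero hjk
  omega

theorem pr_sum {K : Type} [Field K] {d : ℕ} {f : K[X][X]} (h : prWB d f) :
    f = ∑ j ∈ range (d + 1), ∑ k ∈ range (d + 1), monomial j (monomial k ((f.coeff j).coeff k)) := by
  ext j k
  simp only [finsetSum_coeff, coeff_monomial]
  by_cases hjk : (f.coeff j).coeff k = 0
  · rw [hjk]
    symm
    refine Finset.sum_eq_zero fun j' _ => ?_
    refine Finset.sum_eq_zero fun k' _ => ?_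
    split_ifs with h1
    · rw [coeff_monomial]
      split_ifs with h2
      · rw [h1, h2, hjk]
      · rfl
    · simp
  · obtain ⟨h1, h2⟩ := h j k hjk
    rw [Finset.sum_eq_single j, Finset.sum_eq_single k]
    · simp
    · intro k' _ hk'
      simp [coeff_monomial, hk']
    · intro h3
      exact absurd (Finset.mem_range.2 (by omega)) h3
    · intro j' _ hj'
      refine Finset.sum_eq_zero fun k' _ => ?_
      simp [hj']
    · intro h3
      exact absurd (Finset.mem_range.2 (by omega)) h3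

/-- the substitution as a ring homomorphism -/
noncomputable def prHom {K : Type} [Field K] (a b : K) : K[X][X] →+* K[X][X] :=
  eval₂RingHom (eval₂RingHom (C.comp C) (C X + C (C a) * X + C (C b))) X

theorem shf_eq {K : Type} [Field K] (a b : K) (f : K[X][X]) : shf a b f = prHom a b f := rfl

theorem prHom_monomial {K : Type} [Field K] (a b : K) (j k : ℕ) (c : K) :
    prHom a b (monomial j (monomial k c)) =
      C (C c) * (C X + C (C a) * X + C (C b)) ^ k * X ^ j := by
  unfold prHom
  rw [coe_eval₂RingHom, eval₂_monomial, coe_eval₂RingHom, eval₂_monomial]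
  rfl

theorem prHom_comp {K : Type} [Field K] (a b : K) (f : K[X][X]) :
    prHom a b f = prHom a 0 (prHom 0 b f) := by
  have h : prHom a b = (prHom a 0).comp (prHom 0 b) := by
    unfold prHom
    ext x
    · simp
    · simp
    · simp
  rw [h]
  rfl

theorem prOne_coeff {K : Type} [Field K] {d : ℕ} {f : K[X][X]} (h : prWB d f) (b : K) (j i : ℕ) :
    ((shf 0 b f).coeff j).coeff i =
      ∑ k ∈ range (d + 1), (f.coeff j).coeff k * ((k.choose i : K) * b ^ (k - i)) := by
  rw [shf_eq]
  conv_lhs => rw [pr_sum h]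
  simp only [map_sum, finsetSum_coeff]
  have h1 : ∀ j' k' : ℕ, ((prHom 0 b (monomial j' (monomial k' ((f.coeff j').coeff k')))).coeff
      j).coeff i = if j = j' then (f.coeff j').coeff k' * ((k'.choose i : K) * b ^ (k' - i))
        else 0 := by
    intro j' k'
    rw [prHom_monomial]
    have h2 : (C (C ((f.coeff j').coeff k')) * (C X + C (C 0) * X + C (C b)) ^ k' * X ^ j' :
        K[X][X]) = C (C ((f.coeff j').coeff k') * (X + C b) ^ k') * X ^ j' := by
      simp
    rw [h2, coeff_C_mul_X_pow]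
    split_ifs with h3
    · rw [coeff_C_mul, coeff_X_add_C_pow]
      ring
    · simp
  simp only [h1]
  by_cases hj : j < d + 1
  · rw [Finset.sum_eq_single j]
    · simp
    · intro j' _ hj'
      refine Finset.sum_eq_zero fun k' _ => ?_
      rw [if_neg (Ne.symm hj')]
    · intro h3
      exact absurd (Finset.mem_range.2 hj) h3
  · rw [Finset.sum_eq_zero, Finset.sum_eq_zero]
    · intro k _
      have : (f.coeff j).coeff k = 0 := by
        by_contra hne
        have := (h j k hne).1
        omega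
      rw [this, zero_mul]
    · intro j' hj'
      refine Finset.sum_eq_zero fun k' _ => ?_
      rw [if_neg]
      rintro rfl
      exact hj (Finset.mem_range.1 hj')

theorem prWB_shf {K : Type} [Field K] {d : ℕ} {f : K[X][X]} (h : prWB d f) (b : K) :
    prWB d (shf 0 b f) := by
  intro j i hji
  rw [prOne_coeff h] at hji
  obtain ⟨k, hk, hne⟩ := Finset.exists_ne_zero_of_sum_ne_zero hji
  have h1 := h j k (left_ne_zero_of_mul hne)
  refine ⟨h1.1, ?_⟩
  by_contra hi
  have : k.choose i = 0 := Nat.choose_eq_zero_of_lt (by omega)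
  rw [this] at hne
  simp at hne

theorem prTwo_coeff {K : Type} [Field K] {d : ℕ} {f : K[X][X]} (h : prWB d f) (a : K) (j i : ℕ) :
    ((shf a 0 f).coeff j).coeff i =
      ∑ k ∈ range (d + 1), if k ≤ j + i then
        (f.coeff (j + i - k)).coeff k * ((k.choose i : K) * a ^ (k - i)) else 0 := by
  rw [shf_eq]
  conv_lhs => rw [pr_sum h]
  simp only [map_sum, finsetSum_coeff]
  have h1 : ∀ j' k' : ℕ, ((prHom a 0 (monomial j' (monomial k' ((f.coeff j').coeff k')))).coeff
      j).coeff i = if j + i = j' + k' then (f.coeff j').coeff k' *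
        ((k'.choose i : K) * a ^ (k' - i)) else 0 := by
    intro j' k'
    rw [prHom_monomial]
    have h2 : (C (C ((f.coeff j').coeff k')) * (C X + C (C a) * X + C (C 0)) ^ k' * X ^ j' :
        K[X][X]) = ∑ m ∈ range (k' + 1), C (C ((f.coeff j').coeff k' * (k'.choose m : K) *
          a ^ (k' - m)) * X ^ m) * X ^ (k' - m + j') := by
      rw [show (C (C (0 : K)) : K[X][X]) = 0 by simp, add_zero, add_pow, Finset.mul_sum,
        Finset.sum_mul]
      refine Finset.sum_congr rfl fun m _ => ?_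
      rw [mul_pow, pow_add]
      simp only [map_mul, map_pow, map_natCast]
      ring
    rw [h2]
    simp only [finsetSum_coeff, coeff_C_mul_X_pow]
    by_cases hi : i ≤ k'
    · rw [Finset.sum_eq_single i]
      · by_cases h3 : j + i = j' + k'
        · rw [if_pos (by omega), if_pos h3, coeff_C_mul_X_pow, if_pos rfl]
          ring
        · rw [if_neg (by omega), if_neg h3, coeff_zero]
      · intro m _ hm
        split_ifs
        · rw [coeff_C_mul_X_pow, if_neg (Ne.symm hm)]
        · rw [coeff_zero]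
      · intro h3
        exact absurd (Finset.mem_range.2 (by omega)) h3
    · rw [Nat.choose_eq_zero_of_lt (by omega : k' < i)]
      simp only [Nat.cast_zero, zero_mul, mul_zero, ite_self]
      refine Finset.sum_eq_zero fun m hm => ?_
      have := Finset.mem_range.1 hm
      split_ifs
      · rw [coeff_C_mul_X_pow, if_neg (by omega)]
      · rw [coeff_zero]
  simp only [h1]
  rw [Finset.sum_comm]
  refine Finset.sum_congr rfl fun k _ => ?_
  by_cases hk : k ≤ j + i
  · rw [if_pos hk]
    by_cases hj : j + i - k < d + 1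
    · rw [Finset.sum_eq_single (j + i - k)]
      · rw [if_pos (by omega)]
      · intro j' _ hj'
        rw [if_neg (by omega)]
      · intro h3
        exact absurd (Finset.mem_range.2 hj) h3
    · have : (f.coeff (j + i - k)).coeff k = 0 := by
        by_contra hne
        have := (h _ k hne).1
        omega
      rw [this, zero_mul]
      refine Finset.sum_eq_zero fun j' hj' => ?_
      have := Finset.mem_range.1 hj'
      rw [if_neg (by omega)]
  · rw [if_neg hk]
    refine Finset.sum_eq_zero fun j' _ => ?_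
    rw [if_neg (by omega)]

theorem pr_div {d j i : ℕ} (hi : i < d + 1) : ((d + 1) * j + i) / (d + 1) = j := by
  rw [Nat.mul_add_div (by omega), Nat.div_eq_of_lt hi, add_zero]

theorem pr_mod {d j i : ℕ} (hi : i < d + 1) : ((d + 1) * j + i) % (d + 1) = i := by
  rw [Nat.mul_add_mod, Nat.mod_eq_of_lt hi]

theorem pr_lt {d j i : ℕ} (hj : j < d + 1) (hi : i < d + 1) :
    (d + 1) * j + i < (d + 1) * (d + 1) := by
  nlinarith

theorem pr_binT {K : Type} [Field K] {d k i : ℕ} (hk : k < d + 1) (hi : i < d + 1) :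
    binT K d ((d + 1) * k + i) = (k.choose i : K) := by
  unfold binT tabF
  rw [if_pos (pr_lt hk hi)]
  beta_reduce
  rw [pr_div hi, pr_mod hi]

theorem pr_prPow {K : Type} [Field K] {d k : ℕ} (b : K) (hk : k < d + 1) :
    prPow K d b k = b ^ k := by
  unfold prPow tabF
  rw [if_pos hk]
  exact pr_iterF_pow b k

theorem prOne_spec {K : Type} [Field K] {d : ℕ} {f : K[X][X]} (h : prWB d f) (b : K) {A : ℕ → K}
    (hA : ∀ n < (d + 1) * (d + 1), A n = coeffs2 (d + 1) f n) (n : ℕ) :
    prOne K d (binT K d) (prPow K d b) A n = coeffs2 (d + 1) (shf 0 b f) n := by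
  have hi : n % (d + 1) < d + 1 := Nat.mod_lt _ (by omega)
  unfold prOne tabF coeffs2
  rw [prOne_coeff h]
  split_ifs with hn
  · have hj : n / (d + 1) < d + 1 := Nat.div_lt_of_lt_mul hn
    refine Finset.sum_congr rfl fun k hk => ?_
    have hk' := Finset.mem_range.1 hk
    rw [hA _ (pr_lt hj hk'), coeffs2, pr_div hk', pr_mod hk', pr_binT hk' hi,
      pr_prPow b (by omega)]
  · symm
    refine Finset.sum_eq_zero fun k _ => ?_
    have : (f.coeff (n / (d + 1))).coeff k = 0 := by
      by_contra hne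
      have h1 := (h _ k hne).1
      have h2 : d + 1 ≤ n / (d + 1) := (Nat.le_div_iff_mul_le (by omega)).2 (by omega)
      omega
    rw [this, zero_mul]

theorem prTwo_spec {K : Type} [Field K] {d : ℕ} {f : K[X][X]} (h : prWB d f) (a : K) {A : ℕ → K}
    (hA : ∀ n, A n = coeffs2 (d + 1) f n) (n : ℕ) (hn : n < (d + 1) * (d + 1)) :
    prTwo K d (binT K d) (prPow K d a) A n = coeffs2 (d + 1) (shf a 0 f) n := by
  have hi : n % (d + 1) < d + 1 := Nat.mod_lt _ (by omega)
  unfold prTwo tabF coeffs2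
  rw [prTwo_coeff h, if_pos hn]
  refine Finset.sum_congr rfl fun k hk => ?_
  have hk' := Finset.mem_range.1 hk
  by_cases h1 : k ≤ n / (d + 1) + n % (d + 1)
  · rw [if_pos h1, if_pos h1, hA, coeffs2, pr_div hk', pr_mod hk', pr_binT hk' hi,
      pr_prPow a (by omega)]
  · rw [if_neg h1, if_neg h1]

theorem shift_rlz : ∃ F : Fam (.prod .nat (.prod .fld (.prod .fld .arr))) .arr,
    RlzQ F (fun _ _ x => x.1 ^ 3) ∧
    ∀ (K : Type) [Field K] (d : ℕ) (a b : K) (f : K[X][X]) (A : ℕ → K), TD d f →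
      (∀ n < (d + 1) * (d + 1), A n = coeffs2 (d + 1) f n) →
      ∀ n < (d + 1) * (d + 1), F K (d, (a, (b, A))) n = coeffs2 (d + 1) (shf a b f) n := by
  refine ⟨_, prShift_rlz, fun K _ d a b f A hf hA n hn => ?_⟩
  have h := prWB_of_TD hf
  have h1 : shf a b f = shf a 0 (shf 0 b f) := by
    rw [shf_eq, shf_eq, shf_eq, prHom_comp]
  rw [h1]
  exact prTwo_spec (prWB_shf h b) a (prOne_spec h b hA) n hn

end Pool.Agent.AbsIrr
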