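import Mathlib
import Pool.Agent.Lib.MP_2adc98_lc.FGood
import Pool.Agent.Lib.MP_2adc98_lc.FCount
import Pool.Agent.Lib.MP_2adc98_lc.FMain0
import Pool.Agent.Lib.MP_2adc98_lc.PAR
import Pool.Agent.Lib.MP_2adc98_lc.PR
import Pool.Agent.Lib.MP_2adc98_lc.BR
import Pool.Agent.Lib.MP_2adc98_lc.EXT

/-!
# MP_2adc98_lc, stage 2: the main theorem on absolute factorization
-/

set_option autoImplicit false

namespace Pool.Agent.AbsIrr

open Finset Polynomial

/-- the main statement -/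
def FullStatement : Prop :=
  ∃ (A : Out Prt Inp) (C C' : ℕ), ∀ (K : Type) [Field K] [PerfectField K] (p d : ℕ) [CharP K p],
    0 < p → p < d ^ 2 →
    (∀ (L : Type) [Field L] [Algebra K L] [FiniteDimensional K L] (S : Finset L),
      C * d ^ 2 ≤ S.card → ∀ f : MvPolynomial (Fin 2) K, f.totalDegree = d →
        Factors A p d f L S (C * d ^ 3) (C * d ^ 3 * (Nat.log 2 d + 1) ^ C)) ∧
    ∃ (L : Type) (_ : Field L) (_ : Algebra K L) (_ : FiniteDimensional K L) (S : Finset L),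
      C * d ^ 2 ≤ S.card ∧ Module.finrank K L ≤ C' * (Nat.log 2 d + 1)

open Classical in
/-- the specification of the computation for one multiplicity -/
def Spec1 (F : Fam In1 Ot1) : Prop :=
    ∀ (K : Type) [Field K] (k : Type) [Field k] [IsAlgClosed k] [Algebra K k]
      (κ e b d p m M₁ t : ℕ) [CharP K p] [Fact p.Prime] [PerfectRing K p] (f rho : ℕ → K)
      (ft : K[X][X]) (F' : Fin t → k[X][X]) (mm : Fin t → ℕ), ft.Monic → ft.natDegree = d →
      TD d ft → (∀ i < (d + 1) * (d + 1), f i = coeffs2 (d + 1) ft i) →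
      (∀ i, (F' i).Monic ∧ TD (F' i).natDegree (F' i) ∧ Irreducible (F' i) ∧ 1 ≤ mm i) →
      ft.map (mapRingHom (algebraMap K k)) = ∏ i, F' i ^ mm i →
      (at0 (∏ i, F' i)).Separable → IsRho d (at0 (ft.map (mapRingHom (algebraMap K k)))) rho →
      5 * d ^ 2 < 2 ^ κ → 2 ^ κ ≤ p ^ e * M₁ → 1 ≤ M₁ → M₁ ≤ p → M₁ ≤ 2 ^ b → 1 ≤ m →
      ((∀ i, mm i ≠ m) → ∀ s ω,
        (F K (κ, (p ^ e, (e, (b, (d, (p, (m, (f, (rho, (s, ω))))))))))).1 = 0) ∧
      ∀ n : ℕ, n = (∑ i with mm i = m, (F' i).natDegree) → 1 ≤ n →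
        ∃ R : (Fin n × Fin (2 ^ κ - 3 * n) → K) → Prop,
          (∀ S : Finset K, ((Fintype.piFinset fun _ : Fin n × Fin (2 ^ κ - 3 * n) => S).filter
            fun Ω => ¬ R Ω).card * S.card ≤ n * S.card ^ (n * (2 ^ κ - 3 * n))) ∧
          ∀ ω : ℕ → K, R (fun qq => ω (qq.1 * (2 ^ κ - 3 * n) + qq.2)) →
            ∀ S : Finset K, ((Fintype.piFinset fun _ : Fin n => S).filter fun s =>
              ¬ GoodOut (fun c : {i // mm i = m} => F' c) n
                (F K (κ, (p ^ e, (e, (b, (d, (p, (m, (f, (rho, (tape s, ω))))))))))) ).card *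
                S.card ≤ n ^ 2 * S.card ^ n

/-- the printed list of the factorization program -/
theorem theOut_eval {t0 : PProg Inp St0} {tN0 : PProg St0 .nat} {t1 : PProg (.prod St0 .nat) St1}
    {tN1 : PProg St1 .nat} {tN2 : PProg St2 .nat} {t3 : PProg (.prod St2 .nat) Prt}
    {K : Type} [Field K] {x : Inp.val K} {y : St0.val K} {N0 : ℕ} {z : ℕ → St1.val K}
    {n : ℕ → ℕ} {N2 : ℕ → ℕ → ℕ} {v : ℕ → ℕ → Prt.val K} (h0 : t0.run K x = y)
    (hN0 : tN0.run K y = N0) (h1 : ∀ m, t1.run K (y, m) = z m)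
    (hN1 : ∀ m, tN1.run K (z m) = n m + 1) (hN2 : ∀ m δ, tN2.run K (z m, δ) = N2 m δ)
    (h3 : ∀ m δ l, t3.run K ((z m, δ), l) = v m δ) :
    (theOut t0 tN0 t1 tN1 tN2 t3).eval K x = (keyL N0 n N2).map fun x => v x.1 x.2 := by
  rw [← flat_eq]
  change ((List.range (tN0.eval K (t0.eval K x))).flatMap fun m =>
    (List.range (tN1.eval K (t1.eval K (t0.eval K x, m)))).flatMap fun δ =>
      (List.range (tN2.eval K (t1.eval K (t0.eval K x, m), δ))).flatMap fun l =>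
        [t3.eval K ((t1.eval K (t0.eval K x, m), δ), l)]) = _
  simp only [PProg.eval_eq, h0, hN0, h1, hN1, hN2, h3]

theorem digit_inj {w a b c d : ℕ} (hb : b < w) (hd : d < w) (h : a * w + b = c * w + d) :
    a = c ∧ b = d := by
  have hw : 0 < w := by omega
  have h1 : (a * w + b) / w = a := by
    rw [Nat.mul_comm, Nat.mul_add_div hw, Nat.div_eq_of_lt hb, Nat.add_zero]
  have h2 : (c * w + d) / w = c := by
    rw [Nat.mul_comm, Nat.mul_add_div hw, Nat.div_eq_of_lt hd, Nat.add_zero]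
  have h3 : a = c := by rw [← h1, ← h2, h]
  subst h3
  exact ⟨rfl, by omega⟩

section core

variable {κ q b : ℕ → ℕ → ℕ}
  {Fsh : Fam (.prod .nat (.prod .fld (.prod .fld .arr))) .arr}
  {Fmd : Fam (.prod .nat (.prod .nat .arr)) .arr}
  {F1 : Fam In1 Ot1} {F3 : Fam In3 (.prod .arr .arr)}
  (hsh : SpecSh Fsh) (hmd : FMn.SpecMd Fmd)
  (hok : ∀ (K : Type) [Field K] (κ q e b d p m : ℕ) (f rho s ω : ℕ → K),
      CostOK d m rho (F1 K (κ, (q, (e, (b, (d, (p, (m, (f, (rho, (s, ω))))))))))))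
  (h1s : Spec1 F1) (h3s : Spec3 F3)
  {Φ : ∀ (K : Type) [Field K], MvPolynomial (Fin 2) K ≃+* K[X][X]}
  (hΦc : ∀ (K : Type) [Field K] (f : MvPolynomial (Fin 2) K) (i j : ℕ),
    ((Φ K f).coeff j).coeff i = f.coeff (Finsupp.single 0 i + Finsupp.single 1 j))
  (hΦm : ∀ (K L : Type) [Field K] [Field L] (σ : K →+* L) (f : MvPolynomial (Fin 2) K),
    Φ L (MvPolynomial.map σ f) = (Φ K f).map (mapRingHom σ))

/-- the array of the random elements for `Ω` -/
def omT {L : Type} [Field L] (κ : ℕ → ℕ → ℕ) (d p : ℕ) (ω : ℕ → L) : ℕ → L :=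
  tabF (d * 2 ^ κ d p) (fun i => ω (2 + d + i))

/-- the output for the multiplicity `m` -/
noncomputable def outm {L : Type} [Field L] (κ b : ℕ → ℕ → ℕ)
    (Fsh : Fam (.prod .nat (.prod .fld (.prod .fld .arr))) .arr)
    (Fmd : Fam (.prod .nat (.prod .nat .arr)) .arr) (F1 : Fam In1 Ot1) (p d e : ℕ) (A : ℕ → L)
    (a b' : L) (m : ℕ) (s ω : ℕ → L) : Ot1.val L :=
  F1 L (κ d p, (p ^ e, (e, (b d p, (d, (p, (m, (FMn.fT Fsh p d A a b',
    (FMn.rT Fsh Fmd p d A a b', (s, ω))))))))))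

open Classical in
include hsh hmd hok h1s h3s hΦc hΦm in
theorem factors_count {L : Type} [Field L] {p d : ℕ} [CharP L p] [Fact p.Prime] [PerfectRing L p]
    {f' : MvPolynomial (Fin 2) L} (hd : 1 ≤ d) (hF : TD d (Φ L f'))
    (htop : ∃ j ≤ d, ((Φ L f').coeff j).coeff (d - j) ≠ 0) {e M₁ : ℕ}
    (hκ : 5 * d ^ 2 < 2 ^ κ d p) (hq : q d p = p ^ e) (hM1 : 2 ^ κ d p ≤ p ^ e * M₁)
    (hM2 : 1 ≤ M₁) (hM3 : M₁ ≤ p) (hM4 : M₁ ≤ 2 ^ b d p) {A : ℕ → L}
    (hA : ∀ n < (d + 1) * (d + 1), A n = coeffs2 (d + 1) (Φ L f') n) (S : Finset L)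
    (hS : 21 * d ^ 2 ≤ S.card) {M : ℕ} (hM : 2 + d + d * 2 ^ κ d p ≤ M)
    {t0 : PProg Inp St0} {tN0 : PProg St0 .nat} {t1 : PProg (.prod St0 .nat) St1}
    {tN1 : PProg St1 .nat} {tN2 : PProg St2 .nat} {t3 : PProg (.prod St2 .nat) Prt}
    (r0 : ∀ x, t0.run L x = a0 κ q b Fsh Fmd L x) (rN0 : ∀ x, tN0.run L x = aN0 L x)
    (r1 : ∀ x, t1.run L x = a1 F1 L x) (rN1 : ∀ x, tN1.run L x = aN1 L x)
    (rN2 : ∀ x, tN2.run L x = aN2 L x) (r3 : ∀ x, t3.run L x = a3 F3 L x) :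
    3 * ((Fintype.piFinset fun _ : Fin M => S).filter fun ω =>
      ¬ IsAbsFact f' (((theOut t0 tN0 t1 tN1 tN2 t3).eval L
        (d, (p, (A, tape ω)))).map (decode d))).card ≤ S.card ^ M := by
  set F := Φ L f' with hFdef
  set σ := algebraMap L (AlgebraicClosure L) with hσ
  set G := F.map (mapRingHom σ) with hGdef
  have hTDG : TD d G := by
    intro j hj
    have h1 : G.coeff j = (F.coeff j).map σ := by rw [hGdef, coeff_map, coe_mapRingHom]
    rw [h1] at hj ⊢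
    have h2 : F.coeff j ≠ 0 := by
      intro h
      rw [h, Polynomial.map_zero] at hj
      exact hj rfl
    rw [natDegree_map]
    exact hF j h2
  have htopG : ∃ j ≤ d, (G.coeff j).coeff (d - j) ≠ 0 := by
    obtain ⟨j, hj, hj'⟩ := htop
    refine ⟨j, hj, ?_⟩
    rw [hGdef, coeff_map, coe_mapRingHom, coeff_map]
    exact (map_ne_zero σ).mpr hj'
  obtain ⟨t, Fi, δ, mm, u, hu, hG, hFi, hna, hsum⟩ := factor_data hTDG htopG
  set good : L → L → Prop := fun a b' => (∀ i, (shf (σ a) (σ b') (Fi i)).coeff (δ i) ≠ 0) ∧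
    (at0 (∏ i, shf (σ a) (σ b') (Fi i))).Separable with hgood
  have hgs : ∀ a b' : L, good a b' → ∃ F' : Fin t → (AlgebraicClosure L)[X][X],
      (∀ i, (F' i).Monic ∧ (F' i).natDegree = δ i ∧ TD (δ i) (F' i) ∧ Irreducible (F' i) ∧
        ∃ c : AlgebraicClosure L, c ≠ 0 ∧ shf (-σ a) (-σ b') (F' i) = C (C c) * Fi i) ∧
      (shf (σ a) (σ b') G).coeff d ≠ 0 ∧ nrm d (σ a) (σ b') G = ∏ i, F' i ^ mm i ∧
      (at0 (∏ i, F' i)).Separable := fun a b' h =>
    good_shift hu hG (fun i => ⟨(hFi i).1, (hFi i).2.1, (hFi i).2.2.2.1⟩) hTDG hsum h.1 h.2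
  choose! F' hF' using hgs
  set nn : ℕ → ℕ := fun m => ∑ i with mm i = m, δ i with hnn
  have hsumδ : ∑ i, δ i ≤ d := by
    rw [← hsum]
    exact Finset.sum_le_sum fun i _ => Nat.le_mul_of_pos_left _ (hFi i).2.2.1
  have hnnd : ∀ m, nn m ≤ d := fun m =>
    (Finset.sum_le_sum_of_subset (Finset.filter_subset _ _)).trans hsumδ
  have hsumnn : ∑ m ∈ range (d + 1), nn m ≤ d :=
    (Finset.sum_fiberwise_le_sum_of_sum_fiber_nonneg (fun _ _ => Nat.zero_le _)).trans hsumδ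
  -- the shifted polynomial over `L`
  have htopab : ∀ a b' : L, good a b' → (shf a b' F).coeff d ≠ 0 := by
    intro a b' h h0
    have h1 := (hF' a b' h).2.1
    rw [hGdef, ← shf_map, coeff_map, h0, map_zero] at h1
    exact h1 rfl
  have hmapab : ∀ a b' : L, good a b' →
      (nrm d a b' F).map (mapRingHom σ) = ∏ i, F' a b' i ^ mm i := fun a b' h => by
    rw [FMn.nrm_map]
    exact (hF' a b' h).2.2.1
  have hrho : ∀ a b' : L, good a b' →
      IsRho d (at0 ((nrm d a b' F).map (mapRingHom σ))) (FMn.rT Fsh Fmd p d A a b') :=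
    fun a b' h => FMn.rT_spec hsh hmd hF hA (htopab a b' h) _
  have hp1 : ∀ a b' : L, good a b' → ∀ m, 1 ≤ m →
      ((∀ i, mm i ≠ m) → ∀ s ω, (outm κ b Fsh Fmd F1 p d e A a b' m s ω).1 = 0) ∧
      (1 ≤ nn m → ∃ R : (Fin (nn m) × Fin (2 ^ κ d p - 3 * nn m) → L) → Prop,
        (∀ S : Finset L, ((Fintype.piFinset fun _ : Fin (nn m) ×
          Fin (2 ^ κ d p - 3 * nn m) => S).filter fun Ω => ¬ R Ω).card * S.card ≤
            nn m * S.card ^ (nn m * (2 ^ κ d p - 3 * nn m))) ∧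
        ∀ ω : ℕ → L, R (fun qq => ω (qq.1 * (2 ^ κ d p - 3 * nn m) + qq.2)) →
          ∀ S : Finset L, ((Fintype.piFinset fun _ : Fin (nn m) => S).filter fun s =>
            ¬ GoodOut (fun c : {i // mm i = m} => F' a b' c) (nn m)
              (outm κ b Fsh Fmd F1 p d e A a b' m (tape s) ω)).card * S.card ≤
                nn m ^ 2 * S.card ^ nn m) := by
    intro a b' h m hm
    obtain ⟨e1, e2, e3, -, -⟩ := nrm_spec hF a b' (htopab a b' h)
    obtain ⟨g1, g2, g3, g4⟩ := hF' a b' h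
    have hh := h1s L (AlgebraicClosure L) (κ d p) e (b d p) d p m M₁ t
      (FMn.fT Fsh p d A a b') (FMn.rT Fsh Fmd p d A a b') (nrm d a b' F) (F' a b') mm e1 e2 e3
      (fun i hi => FMn.fT_spec hsh hF hA a b' i hi)
      (fun i => ⟨(g1 i).1, by rw [(g1 i).2.1]; exact (g1 i).2.2.1, (g1 i).2.2.2.1,
        (hFi i).2.2.1⟩) (hmapab a b' h) g4 (hrho a b' h) hκ hM1 hM2 hM3 hM4 hm
    refine ⟨hh.1, fun hn1 => ?_⟩
    have hn : nn m = ∑ i with mm i = m, (F' a b' i).natDegree := by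
      rw [hnn]
      exact Finset.sum_congr rfl fun i _ => (g1 i).2.1.symm
    exact hh.2 (nn m) hn hn1
  have hR : ∀ (a b' : L) (m : ℕ), good a b' → 1 ≤ m → 1 ≤ nn m →
      ∃ R : (Fin (nn m) × Fin (2 ^ κ d p - 3 * nn m) → L) → Prop,
        (∀ S : Finset L, ((Fintype.piFinset fun _ : Fin (nn m) ×
          Fin (2 ^ κ d p - 3 * nn m) => S).filter fun Ω => ¬ R Ω).card * S.card ≤
            nn m * S.card ^ (nn m * (2 ^ κ d p - 3 * nn m))) ∧
        ∀ ω : ℕ → L, R (fun qq => ω (qq.1 * (2 ^ κ d p - 3 * nn m) + qq.2)) →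
          ∀ S : Finset L, ((Fintype.piFinset fun _ : Fin (nn m) => S).filter fun s =>
            ¬ GoodOut (fun c : {i // mm i = m} => F' a b' c) (nn m)
              (outm κ b Fsh Fmd F1 p d e A a b' m (tape s) ω)).card * S.card ≤
                nn m ^ 2 * S.card ^ nn m := fun a b' m h h1 h2 => (hp1 a b' h m h1).2 h2
  choose! R hR1 hR2 using hR
  have hn2κ : ∀ m, nn m * (2 ^ κ d p - 3 * nn m) ≤ d * 2 ^ κ d p := fun m =>
    Nat.mul_le_mul (hnnd m) (Nat.sub_le _ _)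
  suffices hsuff : 3 * (@Finset.filter _ (fun ω => ¬ IsAbsFact f'
      (((theOut t0 tN0 t1 tN1 tN2 t3).eval L (d, (p, (A, tape ω)))).map (decode d)))
      (fun _ => Classical.propDecidable _) (Fintype.piFinset fun _ : Fin M => S)).card ≤
        S.card ^ M by
    exact le_of_eq_of_le (congrArg (3 * ·) (card_filter_inst _ _)) hsuff
  refine bad_union S (d := d) (nn := nn)
    (E0 := fun ω => ¬ good (tape ω 0) (tape ω 1))
    (E1 := fun m ω => good (tape ω 0) (tape ω 1) ∧ ¬ R (tape ω 0) (tape ω 1) m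
      (fun qq => omT κ d p (tape ω) (qq.1 * (2 ^ κ d p - 3 * nn m) + qq.2)))
    (E2 := fun m ω => good (tape ω 0) (tape ω 1) ∧ R (tape ω 0) (tape ω 1) m
      (fun qq => omT κ d p (tape ω) (qq.1 * (2 ^ κ d p - 3 * nn m) + qq.2)) ∧
      ¬ GoodOut (fun c : {i // mm i = m} => F' (tape ω 0) (tape ω 1) c) (nn m)
        (outm κ b Fsh Fmd F1 p d e A (tape ω 0) (tape ω 1) m
          (tape (fun i : Fin (nn m) => tape ω (2 + i))) (omT κ d p (tape ω))))
    ?_ ?_ ?_ hsumnn ?_ hd hS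
  · -- bad shifts
    refine bad_shift S (by omega) (E := fun a b' => ¬ good a b') ?_
    have h1 := bad_count_sq (k := AlgebraicClosure L) (fun i => (hFi i).1) hna
      (fun i => (hFi i).2.2.2.1) (fun i => (hFi i).2.2.2.2) hsumδ (S.image σ)
    rw [Finset.card_image_of_injective S σ.injective] at h1
    refine le_trans (Finset.card_le_card_of_injOn (fun ab => (σ ab.1, σ ab.2)) ?_ ?_) h1
    · intro x hx
      simp only [Finset.coe_filter, Set.mem_ofPred_eq, Finset.mem_product] at hx ⊢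
      exact ⟨⟨Finset.mem_image_of_mem _ hx.1.1, Finset.mem_image_of_mem _ hx.1.2⟩, hx.2⟩
    · intro x _ y _ hxy
      exact Prod.ext (σ.injective (Prod.ext_iff.mp hxy).1) (σ.injective (Prod.ext_iff.mp hxy).2)
  · -- bad `Ω`
    intro m hm1 hmd hn1
    have hidx : ∀ qq : Fin (nn m) × Fin (2 ^ κ d p - 3 * nn m), (qq.1 : ℕ) * (2 ^ κ d p - 3 * nn m) + qq.2 <
        d * 2 ^ κ d p := by
      intro qq
      refine lt_of_lt_of_le ?_ (hn2κ m)
      calc (qq.1 : ℕ) * (2 ^ κ d p - 3 * nn m) + qq.2 < qq.1 * (2 ^ κ d p - 3 * nn m) + (2 ^ κ d p - 3 * nn m) := by have := qq.2.2; omega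
        _ = (qq.1 + 1) * (2 ^ κ d p - 3 * nn m) := by ring
        _ ≤ nn m * (2 ^ κ d p - 3 * nn m) := Nat.mul_le_mul_right _ qq.1.2
    have hφlt : ∀ qq : Fin (nn m) × Fin (2 ^ κ d p - 3 * nn m), 2 + d + ((qq.1 : ℕ) * (2 ^ κ d p - 3 * nn m) + qq.2) < M := fun qq => by
      have := hidx qq
      omega
    have hφinj : Function.Injective (fun qq : Fin (nn m) × Fin (2 ^ κ d p - 3 * nn m) =>
        (⟨2 + d + ((qq.1 : ℕ) * (2 ^ κ d p - 3 * nn m) + qq.2), hφlt qq⟩ : Fin M)) := by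
      intro x y hxy
      have h1 : 2 + d + ((x.1 : ℕ) * (2 ^ κ d p - 3 * nn m) + x.2) = 2 + d + ((y.1 : ℕ) * (2 ^ κ d p - 3 * nn m) + y.2) :=
        congrArg Fin.val hxy
      have h2 : (x.1 : ℕ) * (2 ^ κ d p - 3 * nn m) + x.2 = (y.1 : ℕ) * (2 ^ κ d p - 3 * nn m) + y.2 := by omega
      obtain ⟨h3, h4⟩ := digit_inj x.2.2 y.2.2 h2
      exact Prod.ext (Fin.ext h3) (Fin.ext h4)
    refine count_inj' S (ι := Fin (nn m) × Fin (2 ^ κ d p - 3 * nn m)) ⟨_, hφinj⟩ _ (nn m) (fun ω₀ _ => ?_)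
    have hcard : Fintype.card (Fin (nn m) × Fin (2 ^ κ d p - 3 * nn m)) = nn m * (2 ^ κ d p - 3 * nn m) := by simp
    rw [hcard]
    set φ : Fin (nn m) × Fin (2 ^ κ d p - 3 * nn m) ↪ Fin M := ⟨_, hφinj⟩ with hφ
    have hφv : ∀ i, (φ i : ℕ) = 2 + d + ((i.1 : ℕ) * (2 ^ κ d p - 3 * nn m) + i.2) := fun i => rfl
    have e0 : ∀ x : Fin (nn m) × Fin (2 ^ κ d p - 3 * nn m) → L, tape (Function.extend φ x ω₀) 0 = tape ω₀ 0 :=
      fun x => tape_extend' φ x ω₀ (fun i => by rw [hφv]; omega)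
    have e1 : ∀ x : Fin (nn m) × Fin (2 ^ κ d p - 3 * nn m) → L, tape (Function.extend φ x ω₀) 1 = tape ω₀ 1 :=
      fun x => tape_extend' φ x ω₀ (fun i => by rw [hφv]; omega)
    have e2 : ∀ x : Fin (nn m) × Fin (2 ^ κ d p - 3 * nn m) → L, (fun qq : Fin (nn m) × Fin (2 ^ κ d p - 3 * nn m) =>
        omT κ d p (tape (Function.extend φ x ω₀)) (qq.1 * (2 ^ κ d p - 3 * nn m) + qq.2)) = x := by
      intro x
      funext qq
      unfold omT tabF
      rw [if_pos (hidx qq)]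
      exact tape_extend φ x ω₀ qq
    simp only [e0, e1, e2]
    by_cases hg : good (tape ω₀ 0) (tape ω₀ 1)
    · refine le_trans (Nat.mul_le_mul_right _ (Finset.card_le_card ?_))
        (hR1 (tape ω₀ 0) (tape ω₀ 1) m hg hm1 hn1 S)
      intro x hx
      rw [Finset.mem_filter] at hx ⊢
      exact ⟨hx.1, hx.2.2⟩
    · rw [Finset.filter_false_of_mem (fun x _ h => hg h.1), Finset.card_empty, Nat.zero_mul]
      exact Nat.zero_le _
  · -- bad kernel vectors
    intro m hm1 hmd hn1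
    have hφlt : ∀ i : Fin (nn m), 2 + (i : ℕ) < M := by
      intro i
      have := i.2
      have := hnnd m
      omega
    have hφinj : Function.Injective (fun i : Fin (nn m) => (⟨2 + i, hφlt i⟩ : Fin M)) := by
      intro x y hxy
      have h1 : 2 + (x : ℕ) = 2 + y := congrArg Fin.val hxy
      exact Fin.ext (by omega)
    refine count_inj' S (ι := Fin (nn m)) ⟨_, hφinj⟩ _ (nn m ^ 2) (fun ω₀ _ => ?_)
    rw [Fintype.card_fin]
    set φ : Fin (nn m) ↪ Fin M := ⟨_, hφinj⟩ with hφ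
    have hφv : ∀ i, (φ i : ℕ) = 2 + (i : ℕ) := fun i => rfl
    have e0 : ∀ x : Fin (nn m) → L, tape (Function.extend φ x ω₀) 0 = tape ω₀ 0 :=
      fun x => tape_extend' φ x ω₀ (fun i => by rw [hφv]; omega)
    have e1 : ∀ x : Fin (nn m) → L, tape (Function.extend φ x ω₀) 1 = tape ω₀ 1 :=
      fun x => tape_extend' φ x ω₀ (fun i => by rw [hφv]; omega)
    have e2 : ∀ x : Fin (nn m) → L, omT κ d p (tape (Function.extend φ x ω₀)) =
        omT κ d p (tape ω₀) := by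
      intro x
      unfold omT tabF
      funext j
      split_ifs
      · refine tape_extend' φ x ω₀ (fun i => ?_)
        rw [hφv]
        have := i.2
        have := hnnd m
        omega
      · rfl
    have e3 : ∀ x : Fin (nn m) → L, (fun i : Fin (nn m) =>
        tape (Function.extend φ x ω₀) (2 + i)) = x := by
      intro x
      funext i
      exact tape_extend φ x ω₀ i
    simp only [e0, e1, e2, e3]
    by_cases hg : good (tape ω₀ 0) (tape ω₀ 1) ∧ R (tape ω₀ 0) (tape ω₀ 1) m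
      (fun qq => omT κ d p (tape ω₀) (qq.1 * (2 ^ κ d p - 3 * nn m) + qq.2))
    · refine le_trans (Nat.mul_le_mul_right _ (Finset.card_le_card ?_))
        (hR2 (tape ω₀ 0) (tape ω₀ 1) m hg.1 hm1 hn1 _ hg.2 S)
      intro x hx
      rw [Finset.mem_filter] at hx ⊢
      exact ⟨hx.1, hx.2.2.2⟩
    · rw [Finset.filter_false_of_mem (fun x _ h => hg ⟨h.1, h.2.1⟩), Finset.card_empty,
        Nat.zero_mul]
      exact Nat.zero_le _
  · -- the good choices
    intro ω hω hbad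
    by_contra hcon
    push Not at hcon
    obtain ⟨hg, hall⟩ := hcon
    set a := tape ω 0 with ha
    set b' := tape ω 1 with hb'
    set x : Inp.val L := (d, (p, (A, tape ω))) with hx
    set y := a0 κ q b Fsh Fmd L x with hy
    set z : ℕ → St1.val L := fun m => a1 F1 L (y, m) with hz
    set o : ℕ → Ot1.val L := fun m => (z m).2 with ho
    obtain ⟨e1, e2, e3, -, -⟩ := nrm_spec hF a b' (htopab a b' hg)
    obtain ⟨g1, g2, g3, g4⟩ := hF' a b' hg
    -- the lengths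
    have hlen : ∀ m, 1 ≤ m → m ≤ d → aLen L (y, m) = nn m := by
      intro m hm1 hmd
      have h1 : at0 ((nrm d a b' F).map (mapRingHom σ)) = ∏ i, at0 (F' a b' i) ^ mm i := by
        rw [hmapab a b' hg, FMn.at0_prod]
        exact Finset.prod_congr rfl fun i _ => FMn.at0_pow _ _
      have h2 := hrho a b' hg
      rw [h1] at h2
      have h3 : (∏ i, at0 (F' a b' i) ^ mm i).natDegree ≤ d := by
        rw [← h1]
        unfold at0
        exact natDegree_map_le.trans (natDegree_map_le.trans e2.le)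
      have h4 := FMn.adeg_diff (P := fun i => at0 (F' a b' i)) (fun i => (g1 i).1.map _)
        (by rw [← FMn.at0_prod]; exact g4) h3 h2 hm1 hmd
      have h5 : aLen L (y, m) = adeg (d + 1) (blkA (d + 1) (m - 1) (FMn.rT Fsh Fmd p d A a b')) -
          adeg (d + 1) (blkA (d + 1) m (FMn.rT Fsh Fmd p d A a b')) := by
        rw [← FMn.rT_eq (tape ω)]
        rfl
      rw [h5, h4, hnn]
      refine Finset.sum_congr rfl fun i _ => ?_
      unfold at0
      rw [(g1 i).1.natDegree_map, (g1 i).2.1]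
    have hout : ∀ m, o m = outm κ b Fsh Fmd F1 p d e A a b' m
        (tabF (aLen L (y, m)) (aS L x)) (omT κ d p (tape ω)) := by
      intro m
      have hlog : Nat.log p (q d p) = e := by
        rw [hq]
        exact Nat.log_pow (Fact.out : p.Prime).one_lt e
      have h1 : o m = F1 L (κ d p, (q d p, (Nat.log p (q d p), (b d p, (d, (p, (m,
          (tFn Fsh L x, (aRho Fsh Fmd L x, (tabF (aLen L (y, m)) (aS L x),
            omT κ d p (tape ω))))))))))) := rfl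
      rw [h1, hlog, hq, FMn.fT_eq, FMn.rT_eq]
      rfl
    have htab : ∀ m, 1 ≤ m → m ≤ d → tabF (aLen L (y, m)) (aS L x) =
        tape (fun i : Fin (nn m) => tape ω (2 + i)) := by
      intro m hm1 hmd
      rw [hlen m hm1 hmd]
      funext j
      unfold tabF
      change (if j < nn m then (if j < d then tape ω (2 + j) else 0) else 0) = _
      split_ifs with h1 h2
      · rw [tape_lt _ h1]
      · have := hnnd m
        omega
      · unfold tape
        rw [dif_neg h1]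
    have hGood : ∀ m, 1 ≤ m → m ≤ d → 1 ≤ nn m →
        GoodOut (fun c : {i // mm i = m} => F' a b' c) (nn m) (o m) := by
      intro m hm1 hmd hn1
      rw [hout, htab m hm1 hmd]
      obtain ⟨h1, h2⟩ := hall m hm1 hmd hn1
      exact h2 hg (h1 hg)
    have hout1 : ∀ m, 1 ≤ m → m ≤ d → (o m).1 = nn m := by
      intro m hm1 hmd
      rcases Nat.eq_zero_or_pos (nn m) with h0 | h0
      · rw [h0, hout]
        refine (hp1 a b' hg m hm1).1 (fun i hi => ?_) _ _
        have h1 : δ i ≤ nn m := by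
          rw [hnn]
          exact Finset.single_le_sum (f := δ) (fun _ _ => Nat.zero_le _)
            (Finset.mem_filter.mpr ⟨Finset.mem_univ i, hi⟩)
        have := (hFi i).2.1
        omega
      · exact (hGood m hm1 hmd h0).1
    have hout0 : (o 0).1 = 0 := by
      have h1 := hok L (κ d p) (q d p) (Nat.log p (q d p)) (b d p) d p 0 (tFn Fsh L x)
        (aRho Fsh Fmd L x) (tabF (aLen L (y, 0)) (aS L x)) (aOm κ L x)
      exact h1.2.1 rfl
    have hfinal := isAbsFact_good hΦc (L := L) (f' := f') (a := a) (b := b') hu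
      (by rw [hΦm]; exact hG) (fun i => (hFi i).1) hna (fun i => (hFi i).2.2.1)
      (fun i => (hFi i).2.1) hsum (F' := F' a b') (fun i => ⟨(g1 i).1, (g1 i).2.1, (g1 i).2.2.1,
        (g1 i).2.2.2.2⟩) g4 (nn := nn) (fun m => rfl) hout0 hout1 hGood h3s
    refine hbad ?_
    have hN0 : aN0 L y = d + 1 := by
      have h1 := tSh_top (p := p) hsh hF hA (tape ω)
      have h2 := shf_coeff_eq_C a b' hF
      have h3 : tSh Fsh L x (d * (d + 1)) ≠ 0 := by
        rw [hx, h1]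
        intro h
        rw [h, C_0] at h2
        exact htopab a b' hg h2
      exact if_neg h3
    have heval := theOut_eval (t0 := t0) (tN0 := tN0) (t1 := t1) (tN1 := tN1) (tN2 := tN2)
      (t3 := t3) (K := L) (x := x) (y := y) (N0 := d + 1) (z := z) (n := fun m => (o m).1)
      (N2 := n2 o) (v := fun m δ => (m, F3 L (d, (a, (b', ((o m).1, ((o m).2.1, ((o m).2.2.1,
        ((o m).2.2.2.1, ((o m).2.2.2.2, δ)))))))))) (r0 x) ((rN0 y).trans hN0)
      (fun m => r1 (y, m)) (fun m => rN1 (z m)) (fun m δ => rN2 (z m, δ))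
      (fun m δ l => r3 ((z m, δ), l))
    rw [heval, List.map_map]
    exact hfinal

end core

/-- the main theorem, from the three parts of the algorithm -/
theorem main_of
    (Hmd : ∃ F : Fam (.prod .nat (.prod .nat .arr)) .arr,
      RzQ F (fun _ _ x => (x.1 + 1) ^ 3 + x.2.1 * (x.1 + 1)) ∧ FMn.SpecMd F)
    (H1 : ∃ F : Fam In1 Ot1, RzQ F (fun K _ x => cP1 (K := K) x.1 x.2.1 x.2.2.1 x.2.2.2.1
      x.2.2.2.2.1 x.2.2.2.2.2.1 x.2.2.2.2.2.2.1 x.2.2.2.2.2.2.2.2.1) ∧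
      (∀ (K : Type) [Field K] (κ q e b d p m : ℕ) (f rho s ω : ℕ → K),
        CostOK d m rho (F K (κ, (q, (e, (b, (d, (p, (m, (f, (rho, (s, ω)))))))))))) ∧ Spec1 F)
    (H3 : ∃ F : Fam In3 (.prod .arr .arr), RlzQ F (fun _ _ x => (x.2.2.2.2.2.2.2.2 + 1) *
      (numc x.2.2.2.1 x.2.2.2.2.2.2.2.2 x.2.2.2.2.2.2.2.1 + 1) *
      (x.1 + x.2.2.2.1 + x.2.2.2.2.2.2.2.2 + 1) ^ 2) ∧ Spec3 F) : FullStatement := by
  classical
  obtain ⟨κ, q, b, hprm, ⟨C₀, hC⟩, hpar⟩ := params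
  obtain ⟨Fsh, hFsh, hsh⟩ := shift_rlz
  obtain ⟨Fmd, hFmd, hmd⟩ := Hmd
  obtain ⟨F1, hF1, hok, h1s⟩ := H1
  obtain ⟨F3, hF3, h3s⟩ := H3
  obtain ⟨Φ, hΦc, hΦT, hΦt, hΦm⟩ := bridge_XX
  obtain ⟨t0, c0, h0⟩ := (a0_rz hprm hC hFsh hFmd).exists_prog
  obtain ⟨tN0, cN0, hN0⟩ := aN0_rz.exists_prog
  obtain ⟨t1, c1, h1⟩ := (a1_rz hF1).exists_prog
  obtain ⟨tN1, cN1, hN1⟩ := aN1_rz.exists_prog
  obtain ⟨tN2, cN2, hN2⟩ := aN2_rz.exists_prog
  obtain ⟨t3, c3, h3⟩ := (a3_rz hF3).exists_prog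
  have b0 : CB (c0 + cN0 + c1 + cN1 + cN2 + c3) t0 (a0 κ q b Fsh Fmd) k0 :=
    CB.mono (by omega) h0
  have bN0 : CB (c0 + cN0 + c1 + cN1 + cN2 + c3) tN0 aN0 (fun _ _ _ => 0) :=
    CB.mono (by omega) hN0
  have b1 : CB (c0 + cN0 + c1 + cN1 + cN2 + c3) t1 (a1 F1) k1 := CB.mono (by omega) h1
  have bN1 : CB (c0 + cN0 + c1 + cN1 + cN2 + c3) tN1 aN1 (fun _ _ _ => 0) :=
    CB.mono (by omega) hN1
  have bN2 : CB (c0 + cN0 + c1 + cN1 + cN2 + c3) tN2 aN2 (fun _ _ x => x.1.2.1) :=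
    CB.mono (by omega) hN2
  have b3 : CB (c0 + cN0 + c1 + cN1 + cN2 + c3) t3 (a3 F3) kk3 := CB.mono (by omega) h3
  obtain ⟨C₂, hC₂⟩ := theOut_cost hC hok hmd b0 bN0 b1 bN1 bN2 b3
  set C := C₂ + 4 * C₀ + 24 with hCdef
  obtain ⟨C', hC'⟩ := extension C
  refine ⟨theOut t0 tN0 t1 tN1 tN2 t3, C, C', fun K _ _ p d _ hp hpd =>
    ⟨fun L _ _ _ S hS f hf => ?_, hC' K d⟩⟩
  have hprime : p.Prime := (CharP.char_is_prime_or_zero K p).resolve_right hp.ne'
  have : Fact p.Prime := ⟨hprime⟩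
  have : CharP L p := charP_of_injective_algebraMap (algebraMap K L).injective p
  have : PerfectField L := Algebra.IsAlgebraic.perfectField (K := K)
  have : PerfectRing L p := PerfectField.toPerfectRing p
  have hd : 1 ≤ d := by
    rcases Nat.eq_zero_or_pos d with rfl | h
    · simp at hpd
    · exact h
  obtain ⟨hκ, e, M₁, hq, hM1, hM2, hM3, hM4⟩ := hpar d p hprime hpd
  set f' := MvPolynomial.map (algebraMap K L) f with hf'
  have hdeg : f'.totalDegree = d := by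
    rw [hf', MvPolynomial.totalDegree,
      MvPolynomial.support_map_of_injective _ (algebraMap K L).injective,
      ← MvPolynomial.totalDegree, hf]
  have hF : TD d (Φ L f') := by
    rw [← hdeg]
    exact hΦT L f'
  have htop : ∃ j ≤ d, ((Φ L f').coeff j).coeff (d - j) ≠ 0 := by
    have h0 : f' ≠ 0 := by
      intro h
      rw [h] at hdeg
      simp at hdeg
      omega
    obtain ⟨j, hj, hj'⟩ := hΦt L f' h0
    rw [hdeg] at hj hj'
    exact ⟨j, hj, hj'⟩
  have hA : ∀ n < (d + 1) * (d + 1), coeffArray L d f n = coeffs2 (d + 1) (Φ L f') n := by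
    intro n hn
    rw [coeffArray, if_pos hn, coeffs2, hΦc, hf', MvPolynomial.coeff_map]
  have hd3 : 1 ≤ d ^ 3 := Nat.one_le_pow _ _ hd
  have hM : 2 + d + d * 2 ^ κ d p ≤ C * d ^ 3 := by
    have g1 := (hC d p).1
    have g2 : d * 2 ^ κ d p ≤ d * (C₀ * (2 * d) ^ 2) := by
      gcongr
      refine g1.trans ?_
      gcongr
      omega
    have g3 : d * (C₀ * (2 * d) ^ 2) = 4 * C₀ * d ^ 3 := by ring
    have g4 : d ≤ d ^ 3 := Nat.le_self_pow (by norm_num) d
    have g5 : (4 * C₀ + 3) * d ^ 3 ≤ C * d ^ 3 := Nat.mul_le_mul_right _ (by omega)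
    have g6 : (4 * C₀ + 3) * d ^ 3 = 4 * C₀ * d ^ 3 + 3 * d ^ 3 := by ring
    omega
  have hS' : 21 * d ^ 2 ≤ S.card :=
    (Nat.mul_le_mul_right _ (by omega : 21 ≤ C)).trans hS
  refine ⟨fun ω _ => ?_, ?_⟩
  · refine (hC₂ L d p (coeffArray L d f) (tape ω) hpd).trans ?_
    refine Nat.mul_le_mul (Nat.mul_le_mul_right _ (by omega)) ?_
    exact Nat.pow_le_pow_right (by omega) (by omega)
  · have hh := factors_count hsh hmd hok h1s h3s hΦc hΦm (L := L) (p := p) (d := d) hd hF htop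
      hκ hq hM1 hM2 hM3 hM4 hA S hS' hM (fun x => (h0 L x).1) (fun x => (hN0 L x).1)
      (fun x => (h1 L x).1) (fun x => (hN1 L x).1) (fun x => (hN2 L x).1)
      (fun x => (h3 L x).1)
    exact le_of_eq_of_le (congrArg (3 * ·) (card_filter_inst _ _)) hh

end Pool.Agent.AbsIrr
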