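import Mathlib

namespace Pool.Agent.AbsIrr

open Finset Polynomial

theorem hs_mod {R : Type*} [CommRing R] [Nontrivial R] {f p q r : R[X]} (hp : p.Monic)
    (h : f = p * q + r) (hr : r.degree < p.degree) : f %ₘ p = r ∧ f /ₘ p = q := by
  have := div_modByMonic_unique (f := f) q r hp ⟨by rw [h]; ring, hr⟩
  exact ⟨this.2, this.1⟩

theorem hs_degC {R : Type*} [CommRing R] {D : R[X]} {n : WithBot ℕ} (c : R) (h : D.degree < n) :
    (C c * D).degree < n := by
  refine lt_of_le_of_lt ?_ h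
  rw [← smul_eq_C_mul]
  exact degree_smul_le c D

/-- One quadratic Hensel step for a monic factor, with the cofactor inverse `u`. -/
theorem hensel_step {R : Type*} [CommRing R] [Nontrivial R] (a : R) {f P Q p u : R[X]}
    (hP : P.Monic) (hQ : Q.Monic) (hf : f = P * Q) (hp : p.Monic)
    (hd : p.natDegree = P.natDegree) (h1 : C a ∣ p - P) (h2 : ∃ s, C a ∣ u * Q - 1 - s * P) :
    let p' := p + (u * (f %ₘ p)) %ₘ p
    p'.Monic ∧ p'.natDegree = P.natDegree ∧ C (a ^ 2) ∣ p' - P ∧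
      ∃ s, C (a ^ 2) ∣ ((u * (2 - (f /ₘ p') * u)) %ₘ p') * Q - 1 - s * P := by
  intro p'
  have hdeg : p.degree = P.degree := by
    rw [degree_eq_natDegree hp.ne_zero, degree_eq_natDegree hP.ne_zero, hd]
  -- the correction has small degree
  have hlt : ((u * (f %ₘ p)) %ₘ p).degree < p.degree := degree_modByMonic_lt _ hp
  have hp'm : p'.Monic := hp.add_of_left hlt
  have hp'd : p'.natDegree = P.natDegree := by
    rw [← hd]
    exact natDegree_add_eq_left_of_degree_lt hlt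
  obtain ⟨D0, hD0⟩ := h1
  obtain ⟨s, e, he⟩ := h2
  -- a representative of small degree
  have hsub : (p - P).degree < P.degree := by
    rw [← hdeg]
    exact degree_sub_lt_left hdeg hp.ne_zero (by rw [hp.leadingCoeff, hP.leadingCoeff])
  obtain ⟨D, hD, hDdeg⟩ : ∃ D : R[X], p - P = C a * D ∧ D.degree < p.degree := by
    refine ⟨D0 %ₘ P, ?_, ?_⟩
    · have h := (modByMonic_eq_self_iff hP).2 hsub
      rw [hD0, ← smul_eq_C_mul, smul_modByMonic, smul_eq_C_mul, smul_eq_C_mul] at h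
      rw [hD0, h]
    · rw [hdeg]; exact degree_modByMonic_lt _ hP
  have hCa : (C (a ^ 2) : R[X]) = C a * C a := by rw [← C_mul, pow_two]
  -- the remainder of `f` by `p`
  have e1 : f %ₘ p = C (-a) * ((D * Q) %ₘ p) := by
    refine (hs_mod (q := Q - C a * ((D * Q) /ₘ p)) hp ?_ (hs_degC _ (degree_modByMonic_lt _ hp))).1
    have h := modByMonic_add_div (D * Q) p
    rw [hf, C_neg]
    linear_combination (-Q) * hD + C a * h
  -- the correction
  set W : R[X] := (e * D - s * D ^ 2) %ₘ p with hW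
  have e2 : (u * (f %ₘ p)) %ₘ p = C (-a) * (D + C a * W) := by
    have hdW : (D + C a * W).degree < p.degree :=
      lt_of_le_of_lt (degree_add_le _ _)
        (max_lt hDdeg (hs_degC _ (degree_modByMonic_lt _ hp)))
    refine (hs_mod (q := C (-a) * (s * D - u * ((D * Q) /ₘ p) + C a * ((e * D - s * D ^ 2) /ₘ p)))
      hp ?_ (hs_degC _ hdW)).1
    have h := modByMonic_add_div (D * Q) p
    have h' := modByMonic_add_div (e * D - s * D ^ 2) p
    rw [e1, C_neg, hW]
    linear_combination (-C a) * (u * h + D * he - s * D * hD - C a * h')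
  have e3 : p' - P = C (a ^ 2) * (-W) := by
    show p + (u * (f %ₘ p)) %ₘ p - P = _
    rw [e2, hCa, C_neg]
    linear_combination hD
  refine ⟨hp'm, hp'd, ⟨_, e3⟩, ?_⟩
  clear_value p'
  -- the quotient by `p'`
  have e4 : f /ₘ p' = Q + C (a ^ 2) * ((W * Q) /ₘ p') := by
    refine (hs_mod (r := C (a ^ 2) * ((W * Q) %ₘ p')) hp'm ?_
      (hs_degC _ (degree_modByMonic_lt _ hp'm))).2
    have h := modByMonic_add_div (W * Q) p'
    rw [hf]
    linear_combination (-Q) * e3 - C (a ^ 2) * h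
  rw [e4]
  have h5 := modByMonic_add_div (u * (2 - (Q + C (a ^ 2) * ((W * Q) /ₘ p')) * u)) p'
  generalize (u * (2 - (Q + C (a ^ 2) * ((W * Q) /ₘ p')) * u)) /ₘ p' = V at h5 ⊢
  generalize (u * (2 - (Q + C (a ^ 2) * ((W * Q) /ₘ p')) * u)) %ₘ p' = U at h5 ⊢
  generalize (W * Q) /ₘ p' = G at h5 ⊢
  refine ⟨-V * Q - s ^ 2 * P - 2 * C a * e * s, -e ^ 2 + W * V * Q - G * u ^ 2 * Q, ?_⟩
  rw [hCa] at e3 h5 ⊢
  linear_combination Q * h5 - V * Q * e3 + (-(u * Q - 1 + s * P + C a * e)) * he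

end Pool.Agent.AbsIrr
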