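import Mathlib
import Pool.Agent.Lib.MP_2adc98_lc.FDefs
import Pool.Agent.Lib.MP_2adc98_lc.DM
import Pool.Agent.Lib.MP_2adc98_lc.Stages

/-!
# MP_2adc98_lc, piece FR1: products of truncated power series in `x`, `y` over `K[z]/(gmon r q)`
-/

set_option autoImplicit false
set_option linter.unusedVariables false
set_option linter.unusedSimpArgs false

namespace Pool.Agent.AbsIrr

open Finset Polynomial

namespace FR1

/-! ### the routine -/

/-- padding: the blocks of width `r` get width `2 r`, those of width `w` get width `2 w` -/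
def pad (K : Type) [Field K] (N w r : ℕ) (A : ℕ → K) : ℕ → K :=
  tabF (N * (2 * w) * (2 * r)) (fun n => if n % (2 * r) < r then
    (if n / (2 * r) % (2 * w) < w then
      A ((n / (2 * r) / (2 * w) * w + n / (2 * r) % (2 * w)) * r + n % (2 * r)) else 0) else 0)

/-- cutting: the first `w` blocks of any `2 w` blocks -/
def cut (K : Type) [Field K] (N w r : ℕ) (C : ℕ → K) : ℕ → K :=
  tabF (N * w * (2 * r)) (fun n =>
    C ((n / (2 * r) / w * (2 * w) + n / (2 * r) % w) * (2 * r) + n % (2 * r)))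

/-- the first `r` entries of blocks of width `2 r` -/
def fin (K : Type) [Field K] (N w r : ℕ) (M : ℕ → K) : ℕ → K :=
  tabF (N * w * r) (fun n => M (n / r * (2 * r) + n % r))

/-- the routine -/
noncomputable def out (K : Type) [Field K] (N w r : ℕ) (q A B : ℕ → K) : ℕ → K :=
  fin K N w r (modB (N * w) (2 * r) r q (cut K N w r
    (conv (N * (2 * w) * (2 * r)) (pad K N w r A) (pad K N w r B))))

theorem pad_rlz : RlzQ (a := .prod .nat (.prod .nat (.prod .nat .arr))) (b := .arr)
    (fun K _ x => pad K x.1 x.2.1 x.2.2.1 x.2.2.2)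
    (fun _ _ x => (x.1 + 1) * (x.2.1 + 1) * (x.2.2.1 + 1)) := by
  unfold pad
  apply RlzQ.mono
  case h =>
    apply_rules (maxDepth := 1000) [RlzQ.tab, RlzQ.iteLt, RlzQ.add, RlzQ.sub, RlzQ.mul, RlzQ.div,
      RlzQ.mod, RlzQ.get, RlzQ.fst, RlzQ.snd, RlzQ.input, RlzQ.lit, RlzQ.zero]
  case A => exact 30
  case hc =>
    intro K _ x
    simp only [Finset.sum_const_zero, add_zero, zero_add, Finset.sum_const, card_range, smul_eq_mul,
      ite_self]
    nlinarith [Nat.zero_le (x.1 * x.2.1 * x.2.2.1), Nat.zero_le (x.1 * x.2.1),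
      Nat.zero_le (x.1 * x.2.2.1), Nat.zero_le (x.2.1 * x.2.2.1)]

theorem cut_rlz : RlzQ (a := .prod .nat (.prod .nat (.prod .nat .arr))) (b := .arr)
    (fun K _ x => cut K x.1 x.2.1 x.2.2.1 x.2.2.2)
    (fun _ _ x => (x.1 + 1) * (x.2.1 + 1) * (x.2.2.1 + 1)) := by
  unfold cut
  apply RlzQ.mono
  case h =>
    apply_rules (maxDepth := 1000) [RlzQ.tab, RlzQ.iteLt, RlzQ.add, RlzQ.sub, RlzQ.mul, RlzQ.div,
      RlzQ.mod, RlzQ.get, RlzQ.fst, RlzQ.snd, RlzQ.input, RlzQ.lit, RlzQ.zero]
  case A => exact 30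
  case hc =>
    intro K _ x
    simp only [Finset.sum_const_zero, add_zero, zero_add, Finset.sum_const, card_range, smul_eq_mul,
      ite_self]
    nlinarith [Nat.zero_le (x.1 * x.2.1 * x.2.2.1), Nat.zero_le (x.1 * x.2.1),
      Nat.zero_le (x.1 * x.2.2.1), Nat.zero_le (x.2.1 * x.2.2.1)]

theorem fin_rlz : RlzQ (a := .prod .nat (.prod .nat (.prod .nat .arr))) (b := .arr)
    (fun K _ x => fin K x.1 x.2.1 x.2.2.1 x.2.2.2)
    (fun _ _ x => (x.1 + 1) * (x.2.1 + 1) * (x.2.2.1 + 1)) := by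
  unfold fin
  apply RlzQ.mono
  case h =>
    apply_rules (maxDepth := 1000) [RlzQ.tab, RlzQ.iteLt, RlzQ.add, RlzQ.sub, RlzQ.mul, RlzQ.div,
      RlzQ.mod, RlzQ.get, RlzQ.fst, RlzQ.snd, RlzQ.input, RlzQ.lit, RlzQ.zero]
  case A => exact 30
  case hc =>
    intro K _ x
    simp only [Finset.sum_const_zero, add_zero, zero_add, Finset.sum_const, card_range, smul_eq_mul,
      ite_self]
    nlinarith [Nat.zero_le (x.1 * x.2.1 * x.2.2.1), Nat.zero_le (x.1 * x.2.1),
      Nat.zero_le (x.1 * x.2.2.1), Nat.zero_le (x.2.1 * x.2.2.1)]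

abbrev T6 : Ty := .prod .nat (.prod .nat (.prod .nat (.prod .arr (.prod .arr .arr))))

theorem out_rlz : RlzQ (a := T6) (b := .arr)
    (fun K _ x => out K x.1 x.2.1 x.2.2.1 x.2.2.2.1 x.2.2.2.2.1 x.2.2.2.2.2)
    (fun _ _ x => (x.1 + 1) * (x.2.1 + 1) * (x.2.2.1 + 1)) := by
  have hN : RlzQ (a := T6) (b := .nat) (fun K _ x => x.1) (fun _ _ _ => 0) := RlzQ.fst RlzQ.input
  have hw : RlzQ (a := T6) (b := .nat) (fun K _ x => x.2.1) (fun _ _ _ => 0) :=
    RlzQ.fst (RlzQ.snd RlzQ.input)
  have hr : RlzQ (a := T6) (b := .nat) (fun K _ x => x.2.2.1) (fun _ _ _ => 0) :=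
    RlzQ.fst (RlzQ.snd (RlzQ.snd RlzQ.input))
  have hq : RlzQ (a := T6) (b := .arr) (fun K _ x => x.2.2.2.1) (fun _ _ _ => 0) :=
    RlzQ.fst (RlzQ.snd (RlzQ.snd (RlzQ.snd RlzQ.input)))
  have hA : RlzQ (a := T6) (b := .arr) (fun K _ x => x.2.2.2.2.1) (fun _ _ _ => 0) :=
    RlzQ.fst (RlzQ.snd (RlzQ.snd (RlzQ.snd (RlzQ.snd RlzQ.input))))
  have hB : RlzQ (a := T6) (b := .arr) (fun K _ x => x.2.2.2.2.2) (fun _ _ _ => 0) :=
    RlzQ.snd (RlzQ.snd (RlzQ.snd (RlzQ.snd (RlzQ.snd RlzQ.input))))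
  have h1 := RlzQ.comp pad_rlz (RlzQ.pair hN (RlzQ.pair hw (RlzQ.pair hr hA)))
  have h2 := RlzQ.comp pad_rlz (RlzQ.pair hN (RlzQ.pair hw (RlzQ.pair hr hB)))
  have h3 := RlzQ.conv (RlzQ.mul (RlzQ.mul hN (RlzQ.mul (RlzQ.lit 2) hw))
    (RlzQ.mul (RlzQ.lit 2) hr)) h1 h2
  have h4 := RlzQ.comp cut_rlz (RlzQ.pair hN (RlzQ.pair hw (RlzQ.pair hr h3)))
  have h5 := RlzQ.snd (RlzQ.comp divmod_rlz (RlzQ.pair (RlzQ.mul hN hw) (RlzQ.pair
    (RlzQ.mul (RlzQ.lit 2) hr) (RlzQ.pair hr (RlzQ.pair hq h4)))))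
  have h6 := RlzQ.comp fin_rlz (RlzQ.pair hN (RlzQ.pair hw (RlzQ.pair hr h5)))
  refine h6.mono 30 (fun K _ x => ?_)
  obtain ⟨N, w, r, q, A, B⟩ := x
  simp only [add_zero, zero_add]
  nlinarith [Nat.zero_le (N * w * r), Nat.zero_le (N * w),
      Nat.zero_le (N * r), Nat.zero_le (w * r)]

/-! ### specification -/

theorem split_eq {W m l j c : ℕ} (hl : l < W) (h : j % W + c % W < W) (he : m * W + l = j + c) :
    m = j / W + c / W ∧ l = j % W + c % W := by
  have hW0 : 0 < W := by omega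
  have h4 : W * m + l = W * (j / W + c / W) + (j % W + c % W) := by
    have h1 := Nat.div_add_mod j W
    have h2 := Nat.div_add_mod c W
    rw [mul_add]
    rw [mul_comm] at he
    omega
  constructor
  · have := congrArg (fun x => x / W) h4
    beta_reduce at this
    rwa [Nat.mul_add_div hW0, Nat.mul_add_div hW0, Nat.div_eq_of_lt hl, Nat.div_eq_of_lt h,
      add_zero, add_zero] at this
  · have := congrArg (fun x => x % W) h4
    beta_reduce at this
    rwa [Nat.mul_add_mod, Nat.mul_add_mod, Nat.mod_eq_of_lt hl, Nat.mod_eq_of_lt h] at this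

theorem kron {R : Type} [CommSemiring R] {W h : ℕ} (hW : 2 * h ≤ W) (a b : ℕ → R)
    (ha : ∀ n, h ≤ n % W → a n = 0) (hb : ∀ n, h ≤ n % W → b n = 0) (m l : ℕ) (hl : l < W) :
    ∑ j ∈ range (m * W + l + 1), a j * b (m * W + l - j) =
      ∑ s ∈ range (m + 1), ∑ i ∈ range (l + 1), a (s * W + i) * b ((m - s) * W + (l - i)) := by
  have hW0 : 0 < W := by omega
  rw [← Finset.sum_product']
  refine Finset.sum_bij_ne_zero (fun (j : ℕ) _ _ => (j / W, j % W)) ?_ ?_ ?_ ?_
  · intro j hj h0
    have hj' := Finset.mem_range.1 hj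
    have h1 : j % W < h := by
      by_contra hc
      exact h0 (by rw [ha _ (not_lt.1 hc), zero_mul])
    have h2 : (m * W + l - j) % W < h := by
      by_contra hc
      exact h0 (by rw [hb _ (not_lt.1 hc), mul_zero])
    set c := m * W + l - j with hc
    have h3 : m * W + l = j + c := by omega
    obtain ⟨h5, h6⟩ := split_eq hl (by omega : j % W + c % W < W) h3
    rw [Finset.mem_product, Finset.mem_range, Finset.mem_range]
    constructor
    · show j / W < m + 1
      rw [h5]
      exact Nat.lt_succ_of_le (Nat.le_add_right _ _)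
    · show j % W < l + 1
      rw [h6]
      exact Nat.lt_succ_of_le (Nat.le_add_right _ _)
  · intro p hp h0 q hq h1 heq
    simp only [Prod.mk.injEq] at heq
    rw [← Nat.div_add_mod p W, ← Nat.div_add_mod q W, heq.1, heq.2]
  · rintro ⟨s, i⟩ hsi h0
    rw [Finset.mem_product, Finset.mem_range, Finset.mem_range] at hsi
    obtain ⟨hs, hi⟩ := hsi
    simp only at hs hi h0
    have e1 : (s * W + i) / W = s := by
      rw [mul_comm, Nat.mul_add_div hW0, Nat.div_eq_of_lt (by omega), add_zero]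
    have e2 : (s * W + i) % W = i := by
      rw [mul_comm, Nat.mul_add_mod, Nat.mod_eq_of_lt (by omega)]
    have e3 : m * W = s * W + (m - s) * W := by
      rw [← add_mul]
      congr 1
      omega
    have e4 : m * W + l - (s * W + i) = (m - s) * W + (l - i) := by omega
    refine ⟨s * W + i, ?_, ?_, ?_⟩
    · rw [Finset.mem_range]
      omega
    · rw [e4]
      exact h0
    · rw [e1, e2]
  · intro j hj h0
    have hj' := Finset.mem_range.1 hj
    have h1 : j % W < h := by
      by_contra hc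
      exact h0 (by rw [ha _ (not_lt.1 hc), zero_mul])
    have h2 : (m * W + l - j) % W < h := by
      by_contra hc
      exact h0 (by rw [hb _ (not_lt.1 hc), mul_zero])
    set c := m * W + l - j with hc
    have h3 : m * W + l = j + c := by omega
    obtain ⟨h5, h6⟩ := split_eq hl (by omega : j % W + c % W < W) h3
    have e5 : j / W * W + j % W = j := Nat.div_add_mod' j W
    have e6 : (m - j / W) * W + (l - j % W) = c := by
      rw [h5, h6, Nat.add_sub_cancel_left, Nat.add_sub_cancel_left]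
      exact Nat.div_add_mod' c W
    show a j * b c = a (j / W * W + j % W) * b ((m - j / W) * W + (l - j % W))
    rw [e5, e6]

theorem evmul {R : Type} [CommRing R] {r : ℕ} (hr : 0 < r) (a b : ℕ → R)
    (ha : ∀ l, r ≤ l → l < 2 * r → a l = 0) (hb : ∀ l, r ≤ l → l < 2 * r → b l = 0) (v : R) :
    ∑ l ∈ range (2 * r), (∑ i ∈ range (l + 1), a i * b (l - i)) * v ^ l =
      (∑ l ∈ range r, a l * v ^ l) * (∑ l ∈ range r, b l * v ^ l) := by
  set P : R[X] := ∑ l ∈ range r, monomial l (a l) with hP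
  set Q : R[X] := ∑ l ∈ range r, monomial l (b l) with hQ
  have cP : ∀ l < 2 * r, P.coeff l = a l := by
    intro l hl
    rw [hP, finsetSum_coeff]
    simp only [coeff_monomial]
    rw [Finset.sum_ite_eq' (range r) l a]
    by_cases h : l < r
    · rw [if_pos (Finset.mem_range.2 h)]
    · rw [if_neg (by simpa using h), ha l (not_lt.1 h) hl]
  have cQ : ∀ l < 2 * r, Q.coeff l = b l := by
    intro l hl
    rw [hQ, finsetSum_coeff]
    simp only [coeff_monomial]
    rw [Finset.sum_ite_eq' (range r) l b]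
    by_cases h : l < r
    · rw [if_pos (Finset.mem_range.2 h)]
    · rw [if_neg (by simpa using h), hb l (not_lt.1 h) hl]
  have dP : P.natDegree ≤ r - 1 := by
    refine natDegree_sum_le_of_forall_le _ _ (fun i hi => (natDegree_monomial_le _).trans ?_)
    have := Finset.mem_range.1 hi
    omega
  have dQ : Q.natDegree ≤ r - 1 := by
    refine natDegree_sum_le_of_forall_le _ _ (fun i hi => (natDegree_monomial_le _).trans ?_)
    have := Finset.mem_range.1 hi
    omega
  have d3 : (P * Q).natDegree < 2 * r := by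
    have := natDegree_mul_le (p := P) (q := Q)
    omega
  have eP : P.eval v = ∑ l ∈ range r, a l * v ^ l := by
    rw [hP, eval_finsetSum]
    exact Finset.sum_congr rfl fun l _ => eval_monomial
  have eQ : Q.eval v = ∑ l ∈ range r, b l * v ^ l := by
    rw [hQ, eval_finsetSum]
    exact Finset.sum_congr rfl fun l _ => eval_monomial
  rw [← eP, ← eQ, ← eval_mul, eval_eq_sum_range' d3]
  refine Finset.sum_congr rfl fun l hl => ?_
  have hl' := Finset.mem_range.1 hl
  congr 1
  rw [coeff_mul, Finset.Nat.sum_antidiagonal_eq_sum_range_succ_mk]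
  refine Finset.sum_congr rfl fun i hi => ?_
  have hi' := Finset.mem_range.1 hi
  rw [cP i (by omega), cQ (l - i) (by omega)]

theorem dm {w m i : ℕ} (hi : i < w) : (m * w + i) / w = m ∧ (m * w + i) % w = i := by
  have hw : 0 < w := by omega
  refine ⟨?_, ?_⟩
  · rw [mul_comm, Nat.mul_add_div hw, Nat.div_eq_of_lt hi, Nat.add_zero]
  · rw [mul_comm, Nat.mul_add_mod, Nat.mod_eq_of_lt hi]

theorem lt2 {N w t i : ℕ} (ht : t < N) (hi : i < w) : t * w + i < N * w := by
  calc t * w + i < t * w + w := by omega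
    _ = (t + 1) * w := by ring
    _ ≤ N * w := Nat.mul_le_mul_right _ ht

section
variable {K : Type} [Field K] {N w r : ℕ}

theorem pad_zero1 (A : ℕ → K) {n : ℕ} (h : r ≤ n % (2 * r)) : pad K N w r A n = 0 := by
  unfold pad tabF
  beta_reduce
  rw [if_neg (not_lt.2 h), ite_self]

theorem pad_zero2 (A : ℕ → K) {n : ℕ} (h : w ≤ n / (2 * r) % (2 * w)) : pad K N w r A n = 0 := by
  unfold pad tabF
  beta_reduce
  rw [if_neg (not_lt.2 h), ite_self, ite_self]

theorem pad_apply (A : ℕ → K) {t i l : ℕ} (ht : t < N) (hi : i < w) (hl : l < r) :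
    pad K N w r A ((t * (2 * w) + i) * (2 * r) + l) = A ((t * w + i) * r + l) := by
  have h1 := dm (w := 2 * r) (m := t * (2 * w) + i) (i := l) (by omega)
  have h2 := dm (w := 2 * w) (m := t) (i := i) (by omega)
  unfold pad tabF
  rw [if_pos (lt2 (lt2 ht (by omega)) (by omega))]
  beta_reduce
  rw [h1.1, h1.2, if_pos hl, h2.1, h2.2, if_pos hi]

theorem conv_pad (A B : ℕ → K) {t i l : ℕ} (ht : t < N) (hi : i < 2 * w) (hl : l < 2 * r) :
    conv (N * (2 * w) * (2 * r)) (pad K N w r A) (pad K N w r B)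
        ((t * (2 * w) + i) * (2 * r) + l) =
      ∑ u ∈ range (t * (2 * w) + i + 1), ∑ j ∈ range (l + 1),
        pad K N w r A (u * (2 * r) + j) *
          pad K N w r B ((t * (2 * w) + i - u) * (2 * r) + (l - j)) := by
  unfold conv tabF
  rw [if_pos (lt2 (lt2 ht (by omega)) (by omega))]
  exact kron (h := r) le_rfl _ _ (fun n h => pad_zero1 A h) (fun n h => pad_zero1 B h) _ _ hl

end

section
variable {K : Type} [Field K] {N w r : ℕ} {k : Type} [Field k] [Algebra K k] {v : k}

/-- the value of one block of the convolution -/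
theorem dv_conv (hr : 0 < r) (A B : ℕ → K) {t i : ℕ} (ht : t < N) (hi : i < w) :
    ∑ l ∈ range (2 * r), algebraMap K k (conv (N * (2 * w) * (2 * r)) (pad K N w r A)
        (pad K N w r B) ((t * (2 * w) + i) * (2 * r) + l)) * v ^ l =
      ∑ s ∈ range (t + 1), ∑ j ∈ range (i + 1),
        dv r v A (s * w + j) * dv r v B ((t - s) * w + (i - j)) := by
  -- the blocks of the padded arrays
  have hp : ∀ A : ℕ → K, ∀ s < N, ∀ j < w,
      ∑ l ∈ range r, algebraMap K k (pad K N w r A ((s * (2 * w) + j) * (2 * r) + l)) * v ^ l =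
        dv r v A (s * w + j) := by
    intro A s hs j hj
    unfold dv
    refine Finset.sum_congr rfl fun l hl => ?_
    rw [pad_apply A hs hj (Finset.mem_range.1 hl)]
  have hz : ∀ A : ℕ → K, ∀ u : ℕ, w ≤ u % (2 * w) →
      ∑ l ∈ range r, algebraMap K k (pad K N w r A (u * (2 * r) + l)) * v ^ l = 0 := by
    intro A u hu
    refine Finset.sum_eq_zero fun l hl => ?_
    have hl' := Finset.mem_range.1 hl
    rw [pad_zero2 A, map_zero, zero_mul]
    rwa [(dm (w := 2 * r) (m := u) (i := l) (by omega)).1]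
  have h1 : ∀ l ∈ range (2 * r), algebraMap K k (conv (N * (2 * w) * (2 * r)) (pad K N w r A)
        (pad K N w r B) ((t * (2 * w) + i) * (2 * r) + l)) * v ^ l =
      ∑ u ∈ range (t * (2 * w) + i + 1), (∑ j ∈ range (l + 1),
        algebraMap K k (pad K N w r A (u * (2 * r) + j)) *
          algebraMap K k (pad K N w r B ((t * (2 * w) + i - u) * (2 * r) + (l - j)))) * v ^ l := by
    intro l hl
    rw [conv_pad A B ht (by omega) (Finset.mem_range.1 hl), map_sum, Finset.sum_mul]
    refine Finset.sum_congr rfl fun u _ => ?_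
    rw [map_sum]
    simp only [map_mul]
  rw [Finset.sum_congr rfl h1, Finset.sum_comm]
  have h2 : ∀ u ∈ range (t * (2 * w) + i + 1),
      ∑ l ∈ range (2 * r), (∑ j ∈ range (l + 1),
        algebraMap K k (pad K N w r A (u * (2 * r) + j)) *
          algebraMap K k (pad K N w r B ((t * (2 * w) + i - u) * (2 * r) + (l - j)))) * v ^ l =
      (∑ l ∈ range r, algebraMap K k (pad K N w r A (u * (2 * r) + l)) * v ^ l) *
      (∑ l ∈ range r, algebraMap K k (pad K N w r B
        ((t * (2 * w) + i - u) * (2 * r) + l)) * v ^ l) := by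
    intro u _
    refine evmul hr (fun l => algebraMap K k (pad K N w r A (u * (2 * r) + l)))
      (fun l => algebraMap K k (pad K N w r B ((t * (2 * w) + i - u) * (2 * r) + l))) ?_ ?_ v
    · intro l h1 h2
      rw [pad_zero1 A, map_zero]
      rwa [(dm (w := 2 * r) (m := u) (i := l) h2).2]
    · intro l h1 h2
      rw [pad_zero1 B, map_zero]
      rwa [(dm (w := 2 * r) (m := t * (2 * w) + i - u) (i := l) h2).2]
  rw [Finset.sum_congr rfl h2]
  rw [kron (W := 2 * w) (h := w) le_rfl
    (fun u => ∑ l ∈ range r, algebraMap K k (pad K N w r A (u * (2 * r) + l)) * v ^ l)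
    (fun u => ∑ l ∈ range r, algebraMap K k (pad K N w r B (u * (2 * r) + l)) * v ^ l)
    (hz A) (hz B) t i (by omega)]
  refine Finset.sum_congr rfl fun s hs => Finset.sum_congr rfl fun j hj => ?_
  have hs' := Finset.mem_range.1 hs
  have hj' := Finset.mem_range.1 hj
  rw [hp A s (by omega) j (by omega), hp B (t - s) (by omega) (i - j) (by omega)]

theorem gmon_monic (d : ℕ) (g : ℕ → K) :
    (gmon d g).Monic ∧ (gmon d g).degree = (d : WithBot ℕ) := by
  have h : (∑ i ∈ range d, monomial i (g i)).degree < (d : WithBot ℕ) := by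
    rw [Polynomial.degree_lt_iff_coeff_zero]
    intro m hm
    rw [finsetSum_coeff]
    refine Finset.sum_eq_zero (fun i hi => ?_)
    rw [coeff_monomial, if_neg]
    have := Finset.mem_range.mp hi
    omega
  refine ⟨monic_X_pow_add h, ?_⟩
  unfold gmon
  rw [degree_add_eq_left_of_degree_lt (by rwa [degree_X_pow]), degree_X_pow]

theorem dv_fin (hr : 0 < r) (q : ℕ → K) (hv : aeval v (gmon r q) = 0) (D : ℕ → K) {t i : ℕ}
    (ht : t < N) (hi : i < w) :
    dv r v (fin K N w r (modB (N * w) (2 * r) r q D)) (t * w + i) =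
      ∑ l ∈ range (2 * r), algebraMap K k (D ((t * w + i) * (2 * r) + l)) * v ^ l := by
  set c := t * w + i with hc
  have hcN : c < N * w := lt2 ht hi
  have h1 : aeval v (blk (2 * r) D c) =
      ∑ l ∈ range (2 * r), algebraMap K k (D (c * (2 * r) + l)) * v ^ l := by
    unfold blk
    rw [map_sum]
    exact Finset.sum_congr rfl fun l _ => aeval_monomial v
  have h2 : aeval v (blk (2 * r) D c %ₘ gmon r q) = aeval v (blk (2 * r) D c) := by
    conv_rhs => rw [← modByMonic_add_div (blk (2 * r) D c) (gmon r q)]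
    rw [map_add, map_mul, hv, zero_mul, add_zero]
  have h3 : (blk (2 * r) D c %ₘ gmon r q).natDegree < r := by
    have hm := gmon_monic r q
    have h := degree_modByMonic_lt (blk (2 * r) D c) hm.1
    rw [hm.2] at h
    rcases eq_or_ne (blk (2 * r) D c %ₘ gmon r q) 0 with h0 | h0
    · rw [h0, natDegree_zero]
      exact hr
    · exact (natDegree_lt_iff_degree_lt h0).2 h
  rw [← h1, ← h2, aeval_eq_sum_range' h3]
  unfold dv
  refine Finset.sum_congr rfl fun l hl => ?_
  have hl' := Finset.mem_range.1 hl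
  rw [Algebra.smul_def]
  congr 2
  unfold fin modB tabF
  rw [if_pos (lt2 hcN hl')]
  beta_reduce
  rw [(dm hl').1, (dm hl').2, if_pos (lt2 hcN (by omega)),
    (dm (w := 2 * r) (m := c) (i := l) (by omega)).1,
    (dm (w := 2 * r) (m := c) (i := l) (by omega)).2]

theorem dv_out (hr : 0 < r) (q : ℕ → K) (hv : aeval v (gmon r q) = 0) (A B : ℕ → K) {t i : ℕ}
    (ht : t < N) (hi : i < w) :
    dv r v (out K N w r q A B) (t * w + i) = ∑ s ∈ range (t + 1), ∑ j ∈ range (i + 1),
        dv r v A (s * w + j) * dv r v B ((t - s) * w + (i - j)) := by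
  rw [← dv_conv hr A B ht hi]
  unfold out
  rw [dv_fin hr q hv _ ht hi]
  refine Finset.sum_congr rfl fun l hl => ?_
  have hl' := Finset.mem_range.1 hl
  congr 2
  unfold cut tabF
  rw [if_pos (lt2 (lt2 ht hi) hl')]
  beta_reduce
  rw [(dm hl').1, (dm hl').2, (dm hi).1, (dm hi).2]

theorem cR_out (q : ℕ → K) (hv : aeval v (gmon r q) = 0) (A B : ℕ → K) {t : ℕ} (ht : t < N) :
    cR w r v (out K N w r q A B) t =
      ∑ s ∈ range (t + 1), cR w r v A s * cR w r v B (t - s) := by
  have hr : 0 < r := by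
    rcases Nat.eq_zero_or_pos r with h | h
    · subst h
      simp [gmon] at hv
    · exact h
  unfold cR
  simp only [← map_mul]
  rw [← map_sum, Ideal.Quotient.eq, Ideal.mem_span_singleton, PowerSeries.X_pow_dvd_iff]
  intro i hi
  rw [map_sub, sub_eq_zero, PowerSeries.coeff_mk, if_pos hi, dv_out hr q hv A B ht hi, map_sum]
  refine Finset.sum_congr rfl fun s _ => ?_
  rw [PowerSeries.coeff_mul, Finset.Nat.sum_antidiagonal_eq_sum_range_succ_mk]
  refine Finset.sum_congr rfl fun j hj => ?_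
  have hj' := Finset.mem_range.1 hj
  rw [PowerSeries.coeff_mk, PowerSeries.coeff_mk, if_pos (by omega), if_pos (by omega)]

end

end FR1

theorem rconv_rlz :
    ∃ F : Fam (.prod .nat (.prod .nat (.prod .nat (.prod .arr (.prod .arr .arr))))) .arr,
    RlzQ F (fun _ _ x => (x.1 + 1) * (x.2.1 + 1) * (x.2.2.1 + 1)) ∧
    ∀ (K : Type) [Field K] (N w r : ℕ) (q A B : ℕ → K) (k : Type) [Field k] [Algebra K k] (v : k),
      aeval v (gmon r q) = 0 → ∀ t < N, cR w r v (F K (N, (w, (r, (q, (A, B)))))) t =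
        ∑ s ∈ range (t + 1), cR w r v A s * cR w r v B (t - s) :=
  ⟨_, FR1.out_rlz, fun _ _ _ _ _ q A B _ _ _ _ hv _ ht => FR1.cR_out q hv A B ht⟩

end Pool.Agent.AbsIrr
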