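import Mathlib
import Pool.Agent.Lib.MP_2adc98_lc.FDefs
import Pool.Agent.Lib.MP_2adc98_lc.BL
import Pool.Agent.Lib.MP_2adc98_lc.FR1

/-!
# MP_2adc98_lc, piece FR2 : inverses of power series over `k[x]/(x^w)`
-/

set_option autoImplicit false

namespace Pool.Agent.AbsIrr.FR2

open Finset Polynomial

section
variable {K : Type} [Field K] {k : Type} [Field k] [Algebra K k] {w r : ℕ} {v : k}

/-- the array with the single entry `1` -/
private def one1 (K : Type) [Field K] : ℕ → K := tabF 1 (fun _ => 1)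

/-- two minus an array -/
private def two (L : ℕ) (c : ℕ → K) : ℕ → K :=
  tabF L (fun j => (if j = 0 then 1 + 1 else 0) - c j)

private theorem dv_sub (a b : ℕ → K) (s : ℕ) :
    dv r v (fun j => a j - b j) s = dv r v a s - dv r v b s := by
  unfold dv
  rw [← sum_sub_distrib]
  refine sum_congr rfl fun l _ => ?_
  rw [map_sub, sub_mul]

private theorem dv_add (a b : ℕ → K) (s : ℕ) :
    dv r v (fun j => a j + b j) s = dv r v a s + dv r v b s := by
  unfold dv
  rw [← sum_add_distrib]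
  refine sum_congr rfl fun l _ => ?_
  rw [map_add, add_mul]

private theorem cR_sub (a b : ℕ → K) (t : ℕ) :
    cR w r v (fun j => a j - b j) t = cR w r v a t - cR w r v b t := by
  unfold cR
  rw [← map_sub]
  congr 1
  ext i
  simp only [PowerSeries.coeff_mk, map_sub, dv_sub]
  split_ifs <;> simp

private theorem cR_add (a b : ℕ → K) (t : ℕ) :
    cR w r v (fun j => a j + b j) t = cR w r v a t + cR w r v b t := by
  unfold cR
  rw [← map_add]
  congr 1
  ext i
  simp only [PowerSeries.coeff_mk, map_add, dv_add]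
  split_ifs <;> simp

private theorem idx_lt {N t i l : ℕ} (ht : t < N) (hi : i < w) (hl : l < r) :
    (t * w + i) * r + l < N * (w * r) := by
  have h1 : t * w + i + 1 ≤ N * w := by
    have : (t + 1) * w ≤ N * w := Nat.mul_le_mul_right _ ht
    nlinarith
  have h2 : (t * w + i + 1) * r ≤ N * w * r := Nat.mul_le_mul_right _ h1
  nlinarith

private theorem cR_congr {a b : ℕ → K} {N t : ℕ} (ht : t < N)
    (h : ∀ j < N * (w * r), a j = b j) : cR w r v a t = cR w r v b t := by
  unfold cR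
  congr 1
  ext i
  simp only [PowerSeries.coeff_mk]
  split_ifs with hi
  · unfold dv
    refine sum_congr rfl fun l hl => ?_
    rw [h _ (idx_lt ht hi (mem_range.1 hl))]
  · rfl

private theorem dv_one (hr : 0 < r) (s : ℕ) : dv r v (one1 K) s = if s = 0 then 1 else 0 := by
  unfold dv one1 tabF
  by_cases hs : s = 0
  · subst hs
    rw [if_pos rfl, sum_eq_single 0]
    · simp
    · intro l _ hl
      rw [if_neg (by omega)]
      simp
    · intro h
      exact absurd (mem_range.2 hr) h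
  · rw [if_neg hs]
    refine sum_eq_zero fun l _ => ?_
    rw [if_neg]
    · simp
    · have : 0 < s * r := Nat.mul_pos (Nat.pos_of_ne_zero hs) hr
      omega

private theorem tr_sub (k : Type) [Field k] : Subsingleton (TR k 0) := by
  rw [TR, pow_zero, Ideal.Quotient.subsingleton_iff]
  exact Ideal.span_singleton_one

private theorem cR_one (hr : 0 < r) (t : ℕ) :
    cR w r v (one1 K) t = if t = 0 then 1 else 0 := by
  rcases Nat.eq_zero_or_pos w with rfl | hw
  · exact (tr_sub k).elim _ _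
  · have h1 : (PowerSeries.mk fun i => if i < w then dv r v (one1 K) (t * w + i) else 0) =
        if t = 0 then (1 : PowerSeries k) else 0 := by
      ext i
      rw [PowerSeries.coeff_mk]
      by_cases ht : t = 0
      · subst ht
        rw [if_pos rfl, PowerSeries.coeff_one, zero_mul, zero_add, dv_one hr]
        by_cases hi : i = 0
        · subst hi
          rw [if_pos hw]
        · rw [if_neg hi]
          simp
      · have h0 : 0 < t * w := Nat.mul_pos (Nat.pos_of_ne_zero ht) hw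
        have h00 : t * w + i ≠ 0 := by omega
        rw [if_neg ht, map_zero, dv_one hr, if_neg h00]
        simp
    unfold cR
    rw [h1]
    split_ifs
    · exact map_one _
    · exact map_zero _

private theorem cR_two (hr : 0 < r) {N t : ℕ} (ht : t < N) (c : ℕ → K) :
    cR w r v (two (N * (w * r)) c) t = (if t = 0 then 1 + 1 else 0) - cR w r v c t := by
  have h1 : cR w r v (two (N * (w * r)) c) t =
      cR w r v (fun j => (fun j => one1 K j + one1 K j) j - c j) t := by
    refine cR_congr ht fun j hj => ?_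
    unfold two one1 tabF
    rw [if_pos hj]
    by_cases h0 : j = 0
    · subst h0
      simp
    · simp [h0]
  rw [h1, cR_sub, cR_add, cR_one hr]
  split_ifs <;> simp

private abbrev In : Ty := .prod .nat (.prod .nat (.prod .nat (.prod .arr .arr)))

private abbrev InC : Ty := .prod .nat (.prod .nat (.prod .nat (.prod .arr (.prod .arr .arr))))

variable (Fc : Fam InC .arr)

private def stepN (K : Type) [Field K] (x : In.val K) (s : ℕ → K) : ℕ → K :=
  Fc K (x.1, (x.2.1, (x.2.2.1, (x.2.2.2.1, (s, two (x.1 * (x.2.1 * x.2.2.1))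
    (Fc K (x.1, (x.2.1, (x.2.2.1, (x.2.2.2.1, (x.2.2.2.2, s)))))))))))

private def newt (K : Type) [Field K] (x : In.val K) (i : ℕ) : ℕ → K :=
  iterF (S := ℕ → K) i (one1 K) (fun s _ => stepN Fc K x s)

private def Good (Fc : Fam InC .arr) : Prop :=
  ∀ (K : Type) [Field K] (N w r : ℕ) (q A B : ℕ → K) (k : Type) [Field k] [Algebra K k] (v : k),
      aeval v (gmon r q) = 0 → ∀ t < N, cR w r v (Fc K (N, (w, (r, (q, (A, B)))))) t =
        ∑ s ∈ range (t + 1), cR w r v A s * cR w r v B (t - s)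

variable {Fc}

private theorem good_mul (hF : Good Fc) (N : ℕ) (q A B : ℕ → K) (hv : aeval v (gmon r q) = 0)
    (p p' : PowerSeries (TR k w)) (hA : ∀ t < N, cR w r v A t = PowerSeries.coeff t p)
    (hB : ∀ t < N, cR w r v B t = PowerSeries.coeff t p') :
    ∀ t < N, cR w r v (Fc K (N, (w, (r, (q, (A, B)))))) t = PowerSeries.coeff t (p * p') := by
  intro t ht
  rw [hF K N w r q A B k v hv t ht, PowerSeries.coeff_mul,
    Finset.Nat.sum_antidiagonal_eq_sum_range_succ (fun a b => PowerSeries.coeff a p *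
        PowerSeries.coeff b p')]
  refine sum_congr rfl fun s hs => ?_
  have := mem_range.1 hs
  rw [hA s (by omega), hB (t - s) (by omega)]

private theorem newt_inv (hF : Good Fc) (hr : 0 < r) (N : ℕ) (q A : ℕ → K)
    (hv : aeval v (gmon r q) = 0) (hA : cR w r v A 0 = 1) (i : ℕ) :
    ∃ p u : PowerSeries (TR k w),
      (∀ t < N, cR w r v (newt Fc K (N, (w, (r, (q, A)))) i) t = PowerSeries.coeff t p) ∧
      PowerSeries.mk (cR w r v A) * p = 1 + PowerSeries.X ^ (2 ^ i) * u := by
  induction i with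
  | zero =>
    have h1 : (PowerSeries.X : PowerSeries (TR k w)) ∣ PowerSeries.mk (cR w r v A) - 1 := by
      rw [PowerSeries.X_dvd_iff, map_sub, map_one, sub_eq_zero,
        ← PowerSeries.coeff_zero_eq_constantCoeff_apply, PowerSeries.coeff_mk, hA]
    obtain ⟨u, hu⟩ := h1
    refine ⟨1, u, fun t _ => ?_, ?_⟩
    · rw [PowerSeries.coeff_one]
      exact cR_one hr t
    · rw [pow_zero, pow_one, ← hu]
      ring
  | succ i ih =>
    obtain ⟨p, u, h1, h2⟩ := ih
    have hst : newt Fc K (N, (w, (r, (q, A)))) (i + 1) =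
      stepN Fc K (N, (w, (r, (q, A)))) (newt Fc K (N, (w, (r, (q, A)))) i) := rfl
    set s := newt Fc K (N, (w, (r, (q, A)))) i with hs
    have h4 : ∀ j < N, cR w r v A j = PowerSeries.coeff j (PowerSeries.mk (cR w r v A)) := by
      intro j _
      rw [PowerSeries.coeff_mk]
    have h5 := good_mul hF N q A s hv _ _ h4 h1
    have h6 : ∀ t < N, cR w r v (two (N * (w * r)) (Fc K (N, (w, (r, (q, (A, s))))))) t =
        PowerSeries.coeff t (1 + 1 - PowerSeries.mk (cR w r v A) * p) := by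
      intro t ht
      rw [cR_two hr ht, h5 t ht, map_sub, map_add, PowerSeries.coeff_one]
      split_ifs <;> simp
    have h7 := good_mul hF N q s _ hv _ _ h1 h6
    refine ⟨p * (1 + 1 - PowerSeries.mk (cR w r v A) * p), -(u * u), ?_, ?_⟩
    · rw [hst]
      exact h7
    · have h8 : PowerSeries.mk (cR w r v A) * (p * (1 + 1 - PowerSeries.mk (cR w r v A) * p)) =
          1 - (1 - PowerSeries.mk (cR w r v A) * p) ^ 2 := by ring
      rw [h8, h2, pow_succ 2 i, pow_mul]
      ring

end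

private theorem one1_rlz {a : Ty} : RlzQ (a := a) (b := .arr) (fun K _ _ => one1 K)
    (fun _ _ _ => 1) := by
  unfold one1
  have := RlzQ.tab (a := a) (N := fun _ _ _ => 1)
    (f := fun _K _ _ _ => (1 : _K)) (RlzQ.lit 1) (RlzQ.one)
  exact this.mono 2 (fun K _ x => by simp)

private theorem two_rlz : RlzQ (a := .prod .nat .arr) (b := .arr)
    (fun K _ x => two (K := K) x.1 x.2) (fun _ _ x => x.1) := by
  unfold two
  have hf : RlzQ (a := .prod (.prod .nat .arr) .nat) (b := .fld)
      (fun K _ x => (if (x.2 : ℕ) = 0 then (1 : K) + 1 else (0 : K)) - (x.1.2 : ℕ → K) x.2)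
      (fun _ _ _ => 0) :=
    (RlzQ.fsub (RlzQ.iteEq (RlzQ.snd RlzQ.input) (RlzQ.lit 0) (RlzQ.fadd RlzQ.one RlzQ.one)
      RlzQ.zero) (RlzQ.get (RlzQ.snd (RlzQ.fst RlzQ.input)) (RlzQ.snd RlzQ.input))).mono 1
      (fun K _ x => by simp)
  have := RlzQ.tab (a := .prod .nat .arr) (N := fun _ _ x => x.1)
    (f := fun _K _ x i => (if (i : ℕ) = 0 then (1 : _K) + 1 else (0 : _K)) - (x.2 : ℕ → _K) i)
    (RlzQ.fst RlzQ.input) hf
  exact this.mono 1 (fun K _ x => by simp)

private theorem stepN_rlz {Fc : Fam InC .arr}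
    (hFc : RlzQ Fc (fun _ _ x => (x.1 + 1) * (x.2.1 + 1) * (x.2.2.1 + 1))) :
    RlzQ (a := .prod (.prod In .arr) .nat) (b := .arr)
      (fun K _ x => stepN Fc K x.1.1 x.1.2)
      (fun _ _ x => (x.1.1.1 + 1) * (x.1.1.2.1 + 1) * (x.1.1.2.2.1 + 1)) := by
  unfold stepN
  have hx : RlzQ (a := .prod (.prod In .arr) .nat) (b := In) (fun K _ x => x.1.1)
      (fun _ _ _ => 0) := RlzQ.fst (RlzQ.fst RlzQ.input)
  have hs : RlzQ (a := .prod (.prod In .arr) .nat) (b := .arr) (fun K _ x => x.1.2)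
      (fun _ _ _ => 0) := RlzQ.snd (RlzQ.fst RlzQ.input)
  have hN := RlzQ.fst hx
  have hw := RlzQ.fst (RlzQ.snd hx)
  have hr := RlzQ.fst (RlzQ.snd (RlzQ.snd hx))
  have hq := RlzQ.fst (RlzQ.snd (RlzQ.snd (RlzQ.snd hx)))
  have hA := RlzQ.snd (RlzQ.snd (RlzQ.snd (RlzQ.snd hx)))
  have h1 := RlzQ.comp hFc (RlzQ.pair hN (RlzQ.pair hw (RlzQ.pair hr (RlzQ.pair hq
    (RlzQ.pair hA hs)))))
  have h2 := RlzQ.comp two_rlz (RlzQ.pair (RlzQ.mul hN (RlzQ.mul hw hr)) h1)
  have h3 := RlzQ.comp hFc (RlzQ.pair hN (RlzQ.pair hw (RlzQ.pair hr (RlzQ.pair hq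
    (RlzQ.pair hs h2)))))
  refine h3.mono 3 (fun K _ x => ?_)
  dsimp only
  generalize (x.1.1.1 : ℕ) = N
  generalize (x.1.1.2.1 : ℕ) = w
  generalize (x.1.1.2.2.1 : ℕ) = r
  nlinarith [Nat.zero_le (N * w), Nat.zero_le (N * r), Nat.zero_le (w * r)]

private theorem cost_aux (N w r : ℕ) :
    0 + 0 + N + 0 + 1 + (Nat.log 2 N + 1) +
      ∑ _i ∈ range (Nat.log 2 N + 1), (N + 1) * (w + 1) * (r + 1) ≤
      8 * Phi 8 ((N + 1) * (w + 1) * (r + 1)) := by
  have h1 : ∑ _i ∈ range (Nat.log 2 N + 1), (N + 1) * (w + 1) * (r + 1) =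
    (Nat.log 2 N + 1) * ((N + 1) * (w + 1) * (r + 1)) := by simp
  have h7 := Nat.log_le_self 2 N
  have h0 : N + 1 ≤ (N + 1) * (w + 1) * (r + 1) := by
    calc N + 1 ≤ (N + 1) * (w + 1) := Nat.le_mul_of_pos_right _ (by omega)
      _ ≤ _ := Nat.le_mul_of_pos_right _ (by omega)
  rw [h1]
  generalize (N + 1) * (w + 1) * (r + 1) = G at h0 ⊢
  have h5 : (Nat.log 2 N + 1) * G ≤ Phi 1 G := by
    unfold Phi
    rw [pow_one, mul_comm]
    refine Nat.mul_le_mul (by omega) ?_
    have : Nat.log 2 N ≤ Nat.log 2 (G + 1) := Nat.log_mono_right (by omega)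
    omega
  have h6 : Phi 1 G ≤ Phi 8 G := Phi_mono (by omega) le_rfl
  have h8 := le_Phi 8 G
  generalize (Nat.log 2 N + 1) * G = H at h5 ⊢
  omega

end Pool.Agent.AbsIrr.FR2

namespace Pool.Agent.AbsIrr

open Finset Polynomial FR2

theorem rinv_rlz :
    ∃ F : Fam (.prod .nat (.prod .nat (.prod .nat (.prod .arr .arr)))) .arr,
    RlzQ F (fun _ _ x => (x.1 + 1) * (x.2.1 + 1) * (x.2.2.1 + 1)) ∧
    ∀ (K : Type) [Field K] (N w r : ℕ) (q A : ℕ → K) (k : Type) [Field k] [Algebra K k] (v : k),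
      aeval v (gmon r q) = 0 → cR w r v A 0 = 1 → ∀ t < N,
        ∑ s ∈ range (t + 1), cR w r v A s * cR w r v (F K (N, (w, (r, (q, A))))) (t - s) =
          if t = 0 then 1 else 0 := by
  obtain ⟨Fc, hFc, hG⟩ := rconv_rlz
  refine ⟨fun K _ x => newt Fc K x (Nat.log 2 x.1 + 1), ?_, ?_⟩
  · have hloop := RlzQ.iter (a := In) (b := .arr)
      (f := fun K _ x s _ => stepN Fc K x s)
      (RlzQ.add (RlzQ.nlog (RlzQ.lit 2) (RlzQ.fst RlzQ.input)) (RlzQ.lit 1)) one1_rlz
      (stepN_rlz hFc)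
    refine RlzQ.congr (hloop.mono' 8 (fun K _ x => ?_)) (fun K _ x => rfl)
    dsimp only
    exact cost_aux x.1 x.2.1 x.2.2.1
  · intro K _ N w r q A k _ _ v hv hA t ht
    have hr : 0 < r := by
      rcases Nat.eq_zero_or_pos r with rfl | h
      · exfalso
        simp [gmon] at hv
      · exact h
    obtain ⟨p, u, h1, h2⟩ := newt_inv hG hr N q A hv hA (Nat.log 2 N + 1)
    have h3 : ∑ s ∈ range (t + 1), cR w r v A s *
        cR w r v (newt Fc K (N, (w, (r, (q, A)))) (Nat.log 2 N + 1)) (t - s) =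
        PowerSeries.coeff t (PowerSeries.mk (cR w r v A) * p) := by
      rw [PowerSeries.coeff_mul, Finset.Nat.sum_antidiagonal_eq_sum_range_succ
        (fun a b => PowerSeries.coeff a (PowerSeries.mk (cR w r v A)) * PowerSeries.coeff b p)]
      refine sum_congr rfl fun s hs => ?_
      rw [h1 (t - s) (by omega), PowerSeries.coeff_mk]
    dsimp only
    have h4 : ¬ 2 ^ (Nat.log 2 N + 1) ≤ t := by
      have := Nat.lt_pow_succ_log_self (b := 2) (by norm_num) N
      rw [Nat.succ_eq_add_one] at this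
      omega
    rw [h3, h2, map_add, PowerSeries.coeff_one, PowerSeries.coeff_X_pow_mul', if_neg h4, add_zero]

end Pool.Agent.AbsIrr
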