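import Mathlib
import Pool.Agent.Lib.MP_2adc98_lc.FDefs
import Pool.Agent.Lib.MP_2adc98_lc.FR1
import Pool.Agent.Lib.MP_2adc98_lc.FR2

/-!
# MP_2adc98_lc, stage 2: division with remainder by a monic polynomial over `k[x]/(x^w)`
-/

set_option autoImplicit false

namespace Pool.Agent.AbsIrr

open Finset Polynomial

namespace FR3

section alg
variable {R : Type*} [CommRing R]

theorem inv_mul_series {N : ℕ} {g I C a : ℕ → R}
    (hI : ∀ t < N, ∑ s ∈ range (t + 1), g s * I (t - s) = if t = 0 then 1 else 0)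
    (hC : ∀ t < N, C t = ∑ s ∈ range (t + 1), I s * a (t - s)) {u : ℕ} (hu : u < N) :
    ∑ s ∈ range (u + 1), g s * C (u - s) = a u := by
  have h1 : ∀ (f h : ℕ → R) (t : ℕ),
      PowerSeries.coeff t (PowerSeries.mk f * PowerSeries.mk h) =
        ∑ s ∈ range (t + 1), f s * h (t - s) := by
    intro f h t
    rw [PowerSeries.coeff_mul, Finset.Nat.sum_antidiagonal_eq_sum_range_succ_mk]
    simp
  have h2 : ∑ s ∈ range (u + 1), g s * C (u - s) =
      PowerSeries.coeff u (PowerSeries.mk g * (PowerSeries.mk I * PowerSeries.mk a)) := by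
    rw [PowerSeries.coeff_mul, Finset.Nat.sum_antidiagonal_eq_sum_range_succ_mk]
    refine Finset.sum_congr rfl fun s hs => ?_
    dsimp only
    rw [PowerSeries.coeff_mk, h1, hC _ (by omega)]
  rw [h2, ← mul_assoc, PowerSeries.coeff_mul, Finset.Nat.sum_antidiagonal_eq_sum_range_succ_mk,
    Finset.sum_eq_single 0]
  · dsimp only
    rw [h1, hI 0 (by omega)]
    simp
  · intro s hs hs0
    dsimp only
    rw [h1, hI s (by have := Finset.mem_range.mp hs; omega), if_neg hs0, zero_mul]
  · intro h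
    simp at h

theorem div_coeff {N δ : ℕ} {g I C Q a p : ℕ → R} (hg0 : 0 < N → g 0 = 1)
    (hg : ∀ s, 1 ≤ s → s < N → g s = if s ≤ δ then p (δ - s) else 0)
    (hI : ∀ t < N, ∑ s ∈ range (t + 1), g s * I (t - s) = if t = 0 then 1 else 0)
    (hC : ∀ t < N, C t = ∑ s ∈ range (t + 1), I s * a (N - 1 - (t - s)))
    (hQ : ∀ t, Q t = if t + δ < N then C (N - 1 - δ - t) else 0) {m : ℕ} (h1 : δ ≤ m)
    (h2 : m < N) : a m = Q (m - δ) + ∑ s ∈ range δ, p s * Q (m - s) := by
  have h3 := inv_mul_series (a := fun t => a (N - 1 - t)) hI hC (u := N - 1 - m) (by omega)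
  beta_reduce at h3
  rw [show N - 1 - (N - 1 - m) = m by omega] at h3
  rw [← h3, Finset.sum_range_succ', hg0 (by omega), one_mul, add_comm]
  congr 1
  · rw [hQ, if_pos (by omega)]
    congr 1
    omega
  · rw [← Finset.sum_range_reflect (fun s => p s * Q (m - s)) δ]
    have h4 : ∀ s, s < N - 1 - m → g (s + 1) * C (N - 1 - m - (s + 1)) =
        if s < δ then p (δ - 1 - s) * Q (m - (δ - 1 - s)) else 0 := by
      intro s hs
      rw [hg _ (by omega) (by omega)]
      by_cases hd : s < δ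
      · rw [if_pos (by omega), if_pos hd, hQ, if_pos (by omega)]
        congr 2 <;> omega
      · rw [if_neg (by omega), if_neg hd, zero_mul]
    rw [Finset.sum_congr rfl fun s hs => h4 s (Finset.mem_range.mp hs)]
    rw [← Finset.sum_filter]
    symm
    refine (Finset.sum_subset (s₁ := (range (N - 1 - m)).filter fun s => s < δ) ?_ ?_).symm
    · intro s hs
      rw [Finset.mem_filter] at hs
      exact Finset.mem_range.mpr hs.2
    · intro s hs hs'
      rw [Finset.mem_filter, Finset.mem_range, not_and] at hs'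
      rw [Finset.mem_range] at hs
      have : N - 1 - m ≤ s := by
        by_contra h
        exact hs' (by omega) hs
      rw [hQ, if_neg (by omega), mul_zero]

end alg

section cR
variable {K : Type} [Field K] {k : Type} [Field k] [Algebra K k] {w r : ℕ} {v : k}

theorem cR_congr {a b : ℕ → K} {s t : ℕ}
    (h : ∀ j < w * r, a (s * (w * r) + j) = b (t * (w * r) + j)) :
    cR w r v a s = cR w r v b t := by
  unfold cR
  congr 2
  funext i
  by_cases hi : i < w
  · rw [if_pos hi, if_pos hi]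
    unfold dv
    refine Finset.sum_congr rfl fun l hl => ?_
    have hl' := Finset.mem_range.mp hl
    have h1 : i * r + l < w * r := by
      have h2 : (i + 1) * r ≤ w * r := Nat.mul_le_mul_right _ hi
      nlinarith
    have h2 := h _ h1
    rw [show s * (w * r) + (i * r + l) = (s * w + i) * r + l by ring,
      show t * (w * r) + (i * r + l) = (t * w + i) * r + l by ring] at h2
    rw [h2]
  · rw [if_neg hi, if_neg hi]

theorem cR_sub (a b : ℕ → K) (t : ℕ) :
    cR w r v (fun i => a i - b i) t = cR w r v a t - cR w r v b t := by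
  unfold cR
  rw [← map_sub]
  congr 1
  ext i
  rw [map_sub, PowerSeries.coeff_mk, PowerSeries.coeff_mk, PowerSeries.coeff_mk]
  by_cases hi : i < w
  · rw [if_pos hi, if_pos hi, if_pos hi]
    unfold dv
    rw [← Finset.sum_sub_distrib]
    refine Finset.sum_congr rfl fun l _ => ?_
    rw [map_sub, sub_mul]
  · rw [if_neg hi, if_neg hi, if_neg hi, sub_zero]

theorem cR_zero {a : ℕ → K} {t : ℕ} (h : ∀ j < w * r, a (t * (w * r) + j) = 0) :
    cR w r v a t = 0 := by
  have h1 : cR w r v a t = cR w r v (fun i => a i - a i) t :=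
    cR_congr fun j hj => by rw [h j hj, sub_zero]
  rw [h1, cR_sub, sub_self]

theorem cR_one {a : ℕ → K} (hr : 0 < r) (h : ∀ j < w * r, a j = if j = 0 then 1 else 0) :
    cR w r v a 0 = 1 := by
  unfold cR
  rcases Nat.eq_zero_or_pos w with hw | hw
  · rw [← map_one (Ideal.Quotient.mk _), Ideal.Quotient.eq, hw, pow_zero,
      Ideal.span_singleton_one]
    exact Submodule.mem_top
  · rw [← map_one (Ideal.Quotient.mk _)]
    congr 1
    ext i
    rw [PowerSeries.coeff_mk, PowerSeries.coeff_one]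
    by_cases hi : i < w
    · rw [if_pos hi]
      unfold dv
      have h1 : ∀ l ∈ range r, algebraMap K k (a ((0 * w + i) * r + l)) * v ^ l =
          if l = 0 then (if i = 0 then 1 else 0) else 0 := by
        intro l hl
        have hl' := Finset.mem_range.mp hl
        have h2 : (0 * w + i) * r + l < w * r := by
          have h2 : (i + 1) * r ≤ w * r := Nat.mul_le_mul_right _ hi
          nlinarith
        rw [h _ h2]
        by_cases hl0 : l = 0
        · by_cases hi0 : i = 0
          · subst hl0 hi0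
            simp
          · have h3 : (0 * w + i) * r + l ≠ 0 := by
              have : 0 < i * r := Nat.mul_pos (by omega) hr
              rw [zero_mul, zero_add]
              omega
            rw [if_neg h3, if_pos hl0, if_neg hi0, map_zero, zero_mul]
        · rw [if_neg (by omega), if_neg hl0, map_zero, zero_mul]
      rw [Finset.sum_congr rfl h1,
        Finset.sum_ite_eq' (range r) 0 (fun _ => if i = 0 then (1 : k) else 0),
        if_pos (Finset.mem_range.mpr hr)]
    · rw [if_neg hi, if_neg (by omega)]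

theorem coeff_pR (N : ℕ) (a : ℕ → K) (m : ℕ) :
    (pR w r v N a).coeff m = if m < N then cR w r v a m else 0 := by
  unfold pR
  rw [Polynomial.finsetSum_coeff]
  simp only [Polynomial.coeff_monomial]
  rw [Finset.sum_ite_eq' (range N) m (fun t => cR w r v a t)]
  simp only [Finset.mem_range]

theorem cR_tab {N : ℕ} {f : ℕ → ℕ → K} {b : ℕ → K} {s t : ℕ} (ht : t < N)
    (h : ∀ j < w * r, f t j = b (s * (w * r) + j)) :
    cR w r v (tabF (N * (w * r)) (fun n => f (n / (w * r)) (n % (w * r)))) t =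
      cR w r v b s := by
  refine cR_congr fun j hj => ?_
  have h1 : t * (w * r) + j < N * (w * r) := by
    have : (t + 1) * (w * r) ≤ N * (w * r) := Nat.mul_le_mul_right _ ht
    nlinarith
  have h2 : (t * (w * r) + j) / (w * r) = t := by
    rw [mul_comm, Nat.mul_add_div (by omega), Nat.div_eq_of_lt hj, add_zero]
  have h3 : (t * (w * r) + j) % (w * r) = j := by
    rw [mul_comm, Nat.mul_add_mod, Nat.mod_eq_of_lt hj]
  unfold tabF
  rw [if_pos h1]
  beta_reduce
  rw [h2, h3, h j hj]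

theorem cR_tab_zero {N : ℕ} {f : ℕ → K} {t : ℕ} (ht : N ≤ t) :
    cR w r v (tabF (N * (w * r)) f) t = 0 := by
  refine cR_zero fun j hj => ?_
  have h1 : ¬ t * (w * r) + j < N * (w * r) := by
    have : N * (w * r) ≤ t * (w * r) := Nat.mul_le_mul_right _ ht
    omega
  unfold tabF
  rw [if_neg h1]

end cR

/-! ### the program -/

/-- the input `(N, (w, (r, (δ, (q, (P, A))))))` -/
abbrev DIn : Ty := .prod .nat (.prod .nat (.prod .nat (.prod .nat (.prod .arr (.prod .arr .arr)))))

/-- the cost -/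
def cD : CFam DIn := fun _ _ x => (x.1 + x.2.2.2.1 + 1) * (x.2.1 + 1) * (x.2.2.1 + 1)

theorem prD {b b' : Ty} {F : Fam DIn b} {G : Fam DIn b'} (hF : RlzQ F cD) (hG : RlzQ G cD) :
    RlzQ (b := .prod b b') (fun K _ x => (F K x, G K x)) cD :=
  (RlzQ.pair hF hG).mono 2 (fun K _ x => by omega)

theorem appD {b c : Ty} {F : Fam DIn b} {G : Fam b c} {cg : CFam b} (hG : RlzQ G cg)
    (hF : RlzQ F cD) (A : ℕ)
    (h : ∀ (K : Type) [Field K] (x : DIn.val K), cg K (F K x) ≤ A * (cD K x + 1)) :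
    RlzQ (fun K _ x => G K (F K x)) cD :=
  (RlzQ.comp hG hF).mono (A + 1) (fun K _ x => by
    have := h K x
    nlinarith)

theorem ofD {b : Ty} {F : Fam DIn b} {c : CFam DIn} (hF : RlzQ F c) (A : ℕ)
    (h : ∀ (K : Type) [Field K] (x : DIn.val K), c K x ≤ A * (cD K x + 1)) :
    RlzQ F cD := hF.mono A h

theorem ND : RlzQ (a := DIn) (b := .nat) (fun _ _ x => x.1) cD :=
  ofD (RlzQ.fst RlzQ.input) 0 (fun _ _ _ => Nat.zero_le _)
theorem wD : RlzQ (a := DIn) (b := .nat) (fun _ _ x => x.2.1) cD :=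
  ofD (RlzQ.fst (RlzQ.snd RlzQ.input)) 0 (fun _ _ _ => Nat.zero_le _)
theorem rD : RlzQ (a := DIn) (b := .nat) (fun _ _ x => x.2.2.1) cD :=
  ofD (RlzQ.fst (RlzQ.snd (RlzQ.snd RlzQ.input))) 0 (fun _ _ _ => Nat.zero_le _)
theorem δD : RlzQ (a := DIn) (b := .nat) (fun _ _ x => x.2.2.2.1) cD :=
  ofD (RlzQ.fst (RlzQ.snd (RlzQ.snd (RlzQ.snd RlzQ.input)))) 0 (fun _ _ _ => Nat.zero_le _)
theorem qD : RlzQ (a := DIn) (b := .arr) (fun _ _ x => x.2.2.2.2.1) cD :=
  ofD (RlzQ.fst (RlzQ.snd (RlzQ.snd (RlzQ.snd (RlzQ.snd RlzQ.input))))) 0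
    (fun _ _ _ => Nat.zero_le _)
theorem PD : RlzQ (a := DIn) (b := .arr) (fun _ _ x => x.2.2.2.2.2.1) cD :=
  ofD (RlzQ.fst (RlzQ.snd (RlzQ.snd (RlzQ.snd (RlzQ.snd (RlzQ.snd RlzQ.input)))))) 0
    (fun _ _ _ => Nat.zero_le _)
theorem AD : RlzQ (a := DIn) (b := .arr) (fun _ _ x => x.2.2.2.2.2.2) cD :=
  ofD (RlzQ.snd (RlzQ.snd (RlzQ.snd (RlzQ.snd (RlzQ.snd (RlzQ.snd RlzQ.input)))))) 0
    (fun _ _ _ => Nat.zero_le _)

/-- the reversed monic polynomial -/
def zRv : Fam DIn .arr := fun K _ x =>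
  tabF (x.1 * (x.2.1 * x.2.2.1)) (fun n =>
    if n < x.2.1 * x.2.2.1 then (if n = 0 then (1 : K) else 0)
    else if n / (x.2.1 * x.2.2.1) ≤ x.2.2.2.1 then
      x.2.2.2.2.2.1 ((x.2.2.2.1 - n / (x.2.1 * x.2.2.1)) * (x.2.1 * x.2.2.1) +
        n % (x.2.1 * x.2.2.1)) else 0)

theorem le1 (N w r δ : ℕ) : N * (w * r) ≤ (N + δ + 1) * (w + 1) * (r + 1) := by
  rw [mul_assoc]
  gcongr <;> omega

theorem le2 (N w r δ : ℕ) : δ * (w * r) ≤ (N + δ + 1) * (w + 1) * (r + 1) := by
  rw [mul_assoc]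
  gcongr <;> omega

theorem zRv_rlz : RlzQ zRv cD := by
  unfold zRv
  apply RlzQ.mono
  case h =>
    apply_rules (maxDepth := 1000) [RlzQ.tab, RlzQ.iteLt, RlzQ.iteLe, RlzQ.iteEq, RlzQ.add,
      RlzQ.sub, RlzQ.mul, RlzQ.div, RlzQ.mod, RlzQ.get, RlzQ.fst, RlzQ.snd, RlzQ.input, RlzQ.lit,
      RlzQ.zero, RlzQ.one]
  case A => exact 10
  case hc =>
    intro K _ x
    simp only [Finset.sum_const_zero, add_zero, zero_add, ite_self]
    have := le1 x.1 x.2.1 x.2.2.1 x.2.2.2.1
    unfold cD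
    omega

/-- the reversed dividend -/
def zAr : Fam DIn .arr := fun _ _ x =>
  tabF (x.1 * (x.2.1 * x.2.2.1)) (fun n => x.2.2.2.2.2.2
    ((x.1 - 1 - n / (x.2.1 * x.2.2.1)) * (x.2.1 * x.2.2.1) + n % (x.2.1 * x.2.2.1)))

theorem zAr_rlz : RlzQ zAr cD := by
  unfold zAr
  apply RlzQ.mono
  case h =>
    apply_rules (maxDepth := 1000) [RlzQ.tab, RlzQ.iteLt, RlzQ.iteLe, RlzQ.iteEq, RlzQ.add,
      RlzQ.sub, RlzQ.mul, RlzQ.div, RlzQ.mod, RlzQ.get, RlzQ.fst, RlzQ.snd, RlzQ.input, RlzQ.lit,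
      RlzQ.zero, RlzQ.one]
  case A => exact 10
  case hc =>
    intro K _ x
    simp only [Finset.sum_const_zero, add_zero, zero_add]
    have := le1 x.1 x.2.1 x.2.2.1 x.2.2.2.1
    unfold cD
    omega

/-- cutting out the quotient; input `(N, (w, (r, (δ, C))))` -/
def gCut : Fam (.prod .nat (.prod .nat (.prod .nat (.prod .nat .arr)))) .arr := fun K _ x =>
  tabF (x.1 * (x.2.1 * x.2.2.1)) (fun n => if n / (x.2.1 * x.2.2.1) + x.2.2.2.1 < x.1 then
    x.2.2.2.2 ((x.1 - 1 - x.2.2.2.1 - n / (x.2.1 * x.2.2.1)) * (x.2.1 * x.2.2.1) +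
      n % (x.2.1 * x.2.2.1)) else (0 : K))

theorem gCut_rlz : RlzQ gCut (fun _ _ x => x.1 * (x.2.1 * x.2.2.1)) := by
  unfold gCut
  apply RlzQ.mono
  case h =>
    apply_rules (maxDepth := 1000) [RlzQ.tab, RlzQ.iteLt, RlzQ.iteLe, RlzQ.iteEq, RlzQ.add,
      RlzQ.sub, RlzQ.mul, RlzQ.div, RlzQ.mod, RlzQ.get, RlzQ.fst, RlzQ.snd, RlzQ.input, RlzQ.lit,
      RlzQ.zero, RlzQ.one]
  case A => exact 10
  case hc =>
    intro K _ x
    simp only [Finset.sum_const_zero, add_zero, zero_add, ite_self]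
    omega

/-- the remainder; input `(N, (w, (r, (δ, (A, V)))))` -/
def gSub : Fam (.prod .nat (.prod .nat (.prod .nat (.prod .nat (.prod .arr .arr))))) .arr :=
  fun K _ x => tabF (x.2.2.2.1 * (x.2.1 * x.2.2.1)) (fun n =>
    (if n < x.1 * (x.2.1 * x.2.2.1) then x.2.2.2.2.1 n else (0 : K)) - x.2.2.2.2.2 n)

theorem gSub_rlz : RlzQ gSub (fun _ _ x => x.2.2.2.1 * (x.2.1 * x.2.2.1)) := by
  unfold gSub
  apply RlzQ.mono
  case h =>
    apply_rules (maxDepth := 1000) [RlzQ.tab, RlzQ.iteLt, RlzQ.iteLe, RlzQ.iteEq, RlzQ.add,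
      RlzQ.sub, RlzQ.fsub, RlzQ.mul, RlzQ.div, RlzQ.mod, RlzQ.get, RlzQ.fst, RlzQ.snd, RlzQ.input,
      RlzQ.lit, RlzQ.zero, RlzQ.one]
  case A => exact 10
  case hc =>
    intro K _ x
    simp only [Finset.sum_const_zero, add_zero, zero_add, ite_self]
    omega

section main

variable (Fc : Fam (.prod .nat (.prod .nat (.prod .nat (.prod .arr (.prod .arr .arr))))) .arr)
  (Fi : Fam (.prod .nat (.prod .nat (.prod .nat (.prod .arr .arr)))) .arr)

/-- the inverse of the reversed polynomial -/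
def zI : Fam DIn .arr := fun K _ x => Fi K (x.1, (x.2.1, (x.2.2.1, (x.2.2.2.2.1, zRv K x))))
/-- its product with the reversed dividend -/
def zC : Fam DIn .arr := fun K _ x =>
  Fc K (x.1, (x.2.1, (x.2.2.1, (x.2.2.2.2.1, (zI Fi K x, zAr K x)))))
/-- the quotient -/
def zQ : Fam DIn .arr := fun K _ x =>
  gCut K (x.1, (x.2.1, (x.2.2.1, (x.2.2.2.1, zC Fc Fi K x))))
/-- the product of `P` and the quotient -/
def zV : Fam DIn .arr := fun K _ x =>
  Fc K (x.2.2.2.1, (x.2.1, (x.2.2.1, (x.2.2.2.2.1, (x.2.2.2.2.2.1, zQ Fc Fi K x)))))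
/-- the remainder -/
def zR : Fam DIn .arr := fun K _ x =>
  gSub K (x.1, (x.2.1, (x.2.2.1, (x.2.2.2.1, (x.2.2.2.2.2.2, zV Fc Fi K x)))))

variable {Fc Fi} (hFc : RlzQ Fc (fun _ _ x => (x.1 + 1) * (x.2.1 + 1) * (x.2.2.1 + 1)))
  (hFi : RlzQ Fi (fun _ _ x => (x.1 + 1) * (x.2.1 + 1) * (x.2.2.1 + 1)))
include hFi

theorem zI_rlz : RlzQ (zI Fi) cD := by
  have h := prD ND (prD wD (prD rD (prD qD zRv_rlz)))
  have h2 := appD hFi h 1 (fun K _ x => by
    unfold cD
    rw [one_mul]
    refine le_trans ?_ (Nat.le_succ _)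
    gcongr
    omega)
  exact h2

include hFc

theorem zC_rlz : RlzQ (zC Fc Fi) cD := by
  have h := prD ND (prD wD (prD rD (prD qD (prD (zI_rlz hFi) zAr_rlz))))
  have h2 := appD hFc h 1 (fun K _ x => by
    unfold cD
    rw [one_mul]
    refine le_trans ?_ (Nat.le_succ _)
    gcongr
    omega)
  exact h2

theorem zQ_rlz : RlzQ (zQ Fc Fi) cD := by
  have h := prD ND (prD wD (prD rD (prD δD (zC_rlz hFc hFi))))
  have h2 := appD gCut_rlz h 1 (fun K _ x => by
    have := le1 x.1 x.2.1 x.2.2.1 x.2.2.2.1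
    unfold cD
    rw [one_mul]
    exact this.trans (Nat.le_succ _))
  exact h2

theorem zV_rlz : RlzQ (zV Fc Fi) cD := by
  have h := prD δD (prD wD (prD rD (prD qD (prD PD (zQ_rlz hFc hFi)))))
  have h2 := appD hFc h 1 (fun K _ x => by
    unfold cD
    rw [one_mul]
    refine le_trans ?_ (Nat.le_succ _)
    gcongr
    omega)
  exact h2

theorem zR_rlz : RlzQ (zR Fc Fi) cD := by
  have h := prD ND (prD wD (prD rD (prD δD (prD AD (zV_rlz hFc hFi)))))
  have h2 := appD gSub_rlz h 1 (fun K _ x => by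
    have := le2 x.1 x.2.1 x.2.2.1 x.2.2.2.1
    unfold cD
    rw [one_mul]
    exact this.trans (Nat.le_succ _))
  exact h2

end main

/-- division with remainder from products and inverses of series -/
theorem rdivmod_of
    (hconv : ∃ F : Fam (.prod .nat (.prod .nat (.prod .nat (.prod .arr (.prod .arr .arr))))) .arr,
      RlzQ F (fun _ _ x => (x.1 + 1) * (x.2.1 + 1) * (x.2.2.1 + 1)) ∧
      ∀ (K : Type) [Field K] (N w r : ℕ) (q A B : ℕ → K) (k : Type) [Field k] [Algebra K k]
        (v : k), aeval v (gmon r q) = 0 → ∀ t < N,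
          cR w r v (F K (N, (w, (r, (q, (A, B)))))) t =
            ∑ s ∈ range (t + 1), cR w r v A s * cR w r v B (t - s))
    (hinv : ∃ F : Fam (.prod .nat (.prod .nat (.prod .nat (.prod .arr .arr)))) .arr,
      RlzQ F (fun _ _ x => (x.1 + 1) * (x.2.1 + 1) * (x.2.2.1 + 1)) ∧
      ∀ (K : Type) [Field K] (N w r : ℕ) (q A : ℕ → K) (k : Type) [Field k] [Algebra K k] (v : k),
        aeval v (gmon r q) = 0 → cR w r v A 0 = 1 → ∀ t < N,
          ∑ s ∈ range (t + 1), cR w r v A s * cR w r v (F K (N, (w, (r, (q, A))))) (t - s) =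
            if t = 0 then 1 else 0) :
    ∃ F : Fam (.prod .nat (.prod .nat (.prod .nat (.prod .nat (.prod .arr (.prod .arr .arr))))))
      (.prod .arr .arr),
    RlzQ F (fun _ _ x => (x.1 + x.2.2.2.1 + 1) * (x.2.1 + 1) * (x.2.2.1 + 1)) ∧
    ∀ (K : Type) [Field K] (N w r δ : ℕ) (q P A : ℕ → K) (k : Type) [Field k] [Algebra K k]
      (v : k), aeval v (gmon r q) = 0 →
      pR w r v N A = (X ^ δ + pR w r v δ P) *
        pR w r v N (F K (N, (w, (r, (δ, (q, (P, A))))))).1 +
          pR w r v δ (F K (N, (w, (r, (δ, (q, (P, A))))))).2 := by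
  obtain ⟨Fc, hFc, hc⟩ := hconv
  obtain ⟨Fi, hFi, hi⟩ := hinv
  refine ⟨fun K _ x => (zQ Fc Fi K x, zR Fc Fi K x),
    prD (zQ_rlz hFc hFi) (zR_rlz hFc hFi), ?_⟩
  intro K _ N w r δ q P A k _ _ v hv
  beta_reduce
  set x : DIn.val K := (N, (w, (r, (δ, (q, (P, A)))))) with hx
  have hr : 0 < r := by
    rcases Nat.eq_zero_or_pos r with hr | hr
    · subst hr
      simp [gmon] at hv
    · exact hr
  -- the reversed polynomial
  have hR0 : 0 < N → cR w r v (zRv K x) 0 = 1 := by
    intro hN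
    refine cR_one hr fun j hj => ?_
    have h1 : j < N * (w * r) := by nlinarith
    change (tabF (N * (w * r)) (fun n => if n < w * r then (if n = 0 then (1 : K) else 0)
      else if n / (w * r) ≤ δ then P ((δ - n / (w * r)) * (w * r) + n % (w * r)) else 0) :
        ℕ → K) j = _
    unfold tabF
    rw [if_pos h1]
    beta_reduce
    rw [if_pos hj]
  have hR : ∀ s, 1 ≤ s → s < N → cR w r v (zRv K x) s =
      if s ≤ δ then cR w r v P (δ - s) else 0 := by
    intro s hs1 hs2
    have key : ∀ j < w * r, zRv K x (s * (w * r) + j) =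
        if s ≤ δ then P ((δ - s) * (w * r) + j) else 0 := by
      intro j hj
      have h1 : s * (w * r) + j < N * (w * r) := by
        have : (s + 1) * (w * r) ≤ N * (w * r) := Nat.mul_le_mul_right _ hs2
        nlinarith
      have h2 : (s * (w * r) + j) / (w * r) = s := by
        rw [mul_comm, Nat.mul_add_div (by omega), Nat.div_eq_of_lt hj, add_zero]
      have h3 : (s * (w * r) + j) % (w * r) = j := by
        rw [mul_comm, Nat.mul_add_mod, Nat.mod_eq_of_lt hj]
      have h4 : ¬ s * (w * r) + j < w * r := by nlinarith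
      change (tabF (N * (w * r)) (fun n => if n < w * r then (if n = 0 then (1 : K) else 0)
        else if n / (w * r) ≤ δ then P ((δ - n / (w * r)) * (w * r) + n % (w * r)) else 0) :
          ℕ → K) (s * (w * r) + j) = _
      unfold tabF
      rw [if_pos h1]
      beta_reduce
      rw [if_neg h4, h2, h3]
    by_cases hsd : s ≤ δ
    · rw [if_pos hsd]
      refine cR_congr fun j hj => ?_
      rw [key j hj, if_pos hsd]
    · rw [if_neg hsd]
      refine cR_zero fun j hj => ?_
      rw [key j hj, if_neg hsd]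
  have hI : ∀ t < N,
      ∑ s ∈ range (t + 1), cR w r v (zRv K x) s * cR w r v (zI Fi K x) (t - s) =
        if t = 0 then 1 else 0 := fun t ht =>
    hi K N w r q (zRv K x) k v hv (hR0 (by omega)) t ht
  have hC : ∀ t < N, cR w r v (zC Fc Fi K x) t = ∑ s ∈ range (t + 1),
      cR w r v (zI Fi K x) s * cR w r v A (N - 1 - (t - s)) := by
    intro t ht
    refine (hc K N w r q (zI Fi K x) (zAr K x) k v hv t ht).trans ?_
    refine Finset.sum_congr rfl fun s hs => ?_
    congr 1
    exact cR_tab (N := N) (f := fun a b => A ((N - 1 - a) * (w * r) + b)) (b := A)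
      (s := N - 1 - (t - s)) (by omega) (fun j _ => rfl)
  have hQ : ∀ t, cR w r v (zQ Fc Fi K x) t =
      if t + δ < N then cR w r v (zC Fc Fi K x) (N - 1 - δ - t) else 0 := by
    intro t
    by_cases ht : t < N
    · by_cases h1 : t + δ < N
      · rw [if_pos h1]
        refine cR_tab (f := fun a b => if a + δ < N then
          zC Fc Fi K x ((N - 1 - δ - a) * (w * r) + b) else 0) ht (fun j _ => ?_)
        rw [if_pos h1]
      · rw [if_neg h1]
        refine (cR_tab (f := fun a b => if a + δ < N then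
          zC Fc Fi K x ((N - 1 - δ - a) * (w * r) + b) else 0) (b := fun _ => 0) (s := 0) ht
          (fun j _ => ?_)).trans (cR_zero fun _ _ => rfl)
        rw [if_neg h1]
    · rw [if_neg (by omega)]
      exact cR_tab_zero (N := N) (by omega)
  have hV : ∀ t < δ, cR w r v (zV Fc Fi K x) t = ∑ s ∈ range (t + 1),
      cR w r v P s * cR w r v (zQ Fc Fi K x) (t - s) := fun t ht =>
    hc K δ w r q P (zQ Fc Fi K x) k v hv t ht
  have hRem : ∀ t < δ, cR w r v (zR Fc Fi K x) t =
      (if t < N then cR w r v A t else 0) - cR w r v (zV Fc Fi K x) t := by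
    intro t ht
    have h0 : cR w r v (zR Fc Fi K x) t =
        cR w r v (fun n => (if n < N * (w * r) then A n else 0) - zV Fc Fi K x n) t := by
      refine cR_congr fun j hj => ?_
      have h1 : t * (w * r) + j < δ * (w * r) := by
        have : (t + 1) * (w * r) ≤ δ * (w * r) := Nat.mul_le_mul_right _ ht
        nlinarith
      change (tabF (δ * (w * r)) (fun n => (if n < N * (w * r) then A n else (0 : K)) -
        zV Fc Fi K x n) : ℕ → K) (t * (w * r) + j) = _
      unfold tabF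
      rw [if_pos h1]
    rw [h0, cR_sub]
    congr 1
    by_cases h2 : t < N
    · rw [if_pos h2]
      refine cR_congr fun j hj => ?_
      have h1 : t * (w * r) + j < N * (w * r) := by
        have : (t + 1) * (w * r) ≤ N * (w * r) := Nat.mul_le_mul_right _ h2
        nlinarith
      rw [if_pos h1]
    · rw [if_neg h2]
      refine cR_zero fun j hj => ?_
      have h1 : ¬ t * (w * r) + j < N * (w * r) := by
        have : N * (w * r) ≤ t * (w * r) := Nat.mul_le_mul_right _ (by omega)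
        omega
      rw [if_neg h1]
  -- comparison of coefficients
  have hQc : ∀ t, (pR w r v N (zQ Fc Fi K x)).coeff t = cR w r v (zQ Fc Fi K x) t := by
    intro t
    rw [coeff_pR]
    by_cases ht : t < N
    · rw [if_pos ht]
    · rw [if_neg ht, hQ, if_neg (by omega)]
  ext m
  rw [coeff_add, add_mul, coeff_add, coeff_X_pow_mul', hQc, coeff_mul,
    Finset.Nat.sum_antidiagonal_eq_sum_range_succ_mk, coeff_pR, coeff_pR]
  have h1 : ∑ s ∈ range (m + 1),
      (pR w r v δ P).coeff s * (pR w r v N (zQ Fc Fi K x)).coeff (m - s) =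
        ∑ s ∈ range (m + 1), (if s < δ then cR w r v P s else 0) *
          cR w r v (zQ Fc Fi K x) (m - s) :=
    Finset.sum_congr rfl fun s _ => by rw [coeff_pR, hQc]
  dsimp only
  rw [h1]
  rcases Nat.lt_or_ge m δ with hm | hm
  · rw [if_neg (show ¬ δ ≤ m by omega), if_pos hm, hRem m hm, hV m hm, zero_add]
    have h2 : ∑ s ∈ range (m + 1), (if s < δ then cR w r v P s else 0) *
        cR w r v (zQ Fc Fi K x) (m - s) = ∑ s ∈ range (m + 1), cR w r v P s *
        cR w r v (zQ Fc Fi K x) (m - s) :=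
      Finset.sum_congr rfl fun s hs => by
        rw [if_pos (by have := Finset.mem_range.mp hs; omega)]
    rw [h2]
    ring
  · rw [if_pos hm, if_neg (show ¬ m < δ by omega), add_zero]
    have h2 : ∑ s ∈ range (m + 1), (if s < δ then cR w r v P s else 0) *
        cR w r v (zQ Fc Fi K x) (m - s) = ∑ s ∈ range δ, cR w r v P s *
        cR w r v (zQ Fc Fi K x) (m - s) := by
      refine (Finset.sum_subset (s₁ := range δ) (Finset.range_mono (by omega)) ?_).symm.trans ?_
      · intro s _ hs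
        rw [Finset.mem_range] at hs
        rw [if_neg hs, zero_mul]
      · exact Finset.sum_congr rfl fun s hs => by rw [if_pos (Finset.mem_range.mp hs)]
    rw [h2]
    rcases Nat.lt_or_ge m N with hmN | hmN
    · rw [if_pos hmN]
      exact div_coeff hR0 hR hI hC hQ hm hmN
    · rw [if_neg (show ¬ m < N by omega), hQ, if_neg (by omega), zero_add]
      symm
      refine Finset.sum_eq_zero fun s hs => ?_
      have := Finset.mem_range.mp hs
      rw [hQ, if_neg (by omega), mul_zero]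

end FR3

/-- **Division with remainder by a monic polynomial over `k[x]/(x^w)`.** -/
theorem rdivmod_rlz :
    ∃ F : Fam (.prod .nat (.prod .nat (.prod .nat (.prod .nat (.prod .arr (.prod .arr .arr))))))
      (.prod .arr .arr),
    RlzQ F (fun _ _ x => (x.1 + x.2.2.2.1 + 1) * (x.2.1 + 1) * (x.2.2.1 + 1)) ∧
    ∀ (K : Type) [Field K] (N w r δ : ℕ) (q P A : ℕ → K) (k : Type) [Field k] [Algebra K k]
      (v : k), aeval v (gmon r q) = 0 →
      pR w r v N A = (X ^ δ + pR w r v δ P) *
        pR w r v N (F K (N, (w, (r, (δ, (q, (P, A))))))).1 +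
          pR w r v δ (F K (N, (w, (r, (δ, (q, (P, A))))))).2 :=
  FR3.rdivmod_of rconv_rlz rinv_rlz

end Pool.Agent.AbsIrr
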