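import Mathlib
import Pool.Agent.Lib.MP_2adc98_lc.FDefs
import Pool.Agent.Lib.MP_2adc98_lc.BL
import Pool.Agent.Lib.MP_2adc98_lc.FR1
import Pool.Agent.Lib.MP_2adc98_lc.FR3
import Pool.Agent.Lib.MP_2adc98_lc.FHM

/-!
# MP_2adc98_lc, stage 2, piece FH: Hensel lifting of a factor (helper28)
-/

set_option autoImplicit false

namespace Pool.Agent.AbsIrr

open Finset Polynomial

namespace FH

/-! ## realizability -/

section rlz

variable (dm : Fam (.prod .nat (.prod .nat (.prod .nat (.prod .nat (.prod .arr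
  (.prod .arr .arr)))))) (.prod .arr .arr))
variable (rc : Fam (.prod .nat (.prod .nat (.prod .nat (.prod .arr (.prod .arr .arr))))) .arr)

section defs
variable {K : Type} [Field K]

/-- division with remainder -/
def hdiv (r w δ : ℕ) (q P : ℕ → K) (N : ℕ) (A : ℕ → K) : (ℕ → K) × (ℕ → K) :=
  dm K (N, (w, (r, (δ, (q, (P, A))))))

/-- product -/
def hmul (r w : ℕ) (q : ℕ → K) (N : ℕ) (A B : ℕ → K) : ℕ → K :=
  rc K (N, (w, (r, (q, (A, B)))))

/-- truncation to `N` blocks -/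
def htr (r w N : ℕ) (A : ℕ → K) : ℕ → K := tabF (N * w * r) (fun i => A i)

/-- `u (f mod p)` -/
def c1 (r w n δ : ℕ) (q F P U : ℕ → K) : ℕ → K :=
  hmul rc r w q (2 * δ) (htr r w δ U) (htr r w δ (hdiv dm r w δ q P (n + 1) F).2)

/-- the new `p` -/
def pN (r w n δ : ℕ) (q F P U : ℕ → K) : ℕ → K :=
  tabF (δ * w * r) (fun i => P i +
    (hdiv dm r w δ q P (2 * δ) (c1 dm rc r w n δ q F P U)).2 i)

/-- `(f / p') u` -/
def c2 (r w n δ : ℕ) (q F P' U : ℕ → K) : ℕ → K :=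
  hmul rc r w q (n + 1 + δ) (htr r w (n + 1) (hdiv dm r w δ q P' (n + 1) F).1) (htr r w δ U)

/-- `2 - (f / p') u` -/
def c3 (r w n δ : ℕ) (V : ℕ → K) : ℕ → K :=
  tabF ((n + 1 + δ) * w * r) (fun i => (if i = 0 then 1 + 1 else 0) - V i)

/-- the new `u` -/
def uN (r w n δ : ℕ) (q F P' U : ℕ → K) : ℕ → K :=
  htr r w δ (hdiv dm r w δ q P' (n + 1 + 2 * δ) (hmul rc r w q (n + 1 + 2 * δ) (htr r w δ U)
    (c3 r w n δ (c2 dm rc r w n δ q F P' U)))).2

/-- one step -/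
def step (r w n δ : ℕ) (q F : ℕ → K) (s : (ℕ → K) × (ℕ → K)) : (ℕ → K) × (ℕ → K) :=
  (pN dm rc r w n δ q F s.1 s.2, uN dm rc r w n δ q F (pN dm rc r w n δ q F s.1 s.2) s.2)

end defs

variable {a : Ty}

/-- the cost of one product or division -/
def cst (r w n δ : ℕ) : ℕ := (n + δ + 1) * (w + 1) * (r + 1)

section closure
variable {R W N D : Fam a .nat} {Q P A B : Fam a .arr} {cr cw cn cd cq cp ca cb : CFam a}

theorem hdiv_rlz (hdm : RlzQ dm (fun _ _ x => (x.1 + x.2.2.2.1 + 1) * (x.2.1 + 1) * (x.2.2.1 + 1)))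
    (hR : RlzQ R cr) (hW : RlzQ W cw) (hD : RlzQ D cd) (hQ : RlzQ Q cq) (hP : RlzQ P cp)
    (hN : RlzQ N cn) (hA : RlzQ A ca) :
    RlzQ (b := .prod .arr .arr)
      (fun K _ x => hdiv dm (R K x) (W K x) (D K x) (Q K x) (P K x) (N K x) (A K x))
      (fun K _ x => cr K x + cw K x + cd K x + cq K x + cp K x + cn K x + ca K x +
        (N K x + D K x + 1) * (W K x + 1) * (R K x + 1)) :=
  (RlzQ.comp hdm (RlzQ.pair hN (RlzQ.pair hW (RlzQ.pair hR (RlzQ.pair hD (RlzQ.pair hQ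
    (RlzQ.pair hP hA))))))).mono 1 (fun K _ x => by
      dsimp only
      omega)

theorem hmul_rlz (hrc : RlzQ rc (fun _ _ x => (x.1 + 1) * (x.2.1 + 1) * (x.2.2.1 + 1)))
    (hR : RlzQ R cr) (hW : RlzQ W cw) (hQ : RlzQ Q cq) (hN : RlzQ N cn) (hA : RlzQ A ca)
    (hB : RlzQ B cb) :
    RlzQ (b := .arr)
      (fun K _ x => hmul rc (R K x) (W K x) (Q K x) (N K x) (A K x) (B K x))
      (fun K _ x => cr K x + cw K x + cq K x + cn K x + ca K x + cb K x +
        (N K x + 1) * (W K x + 1) * (R K x + 1)) :=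
  (RlzQ.comp hrc (RlzQ.pair hN (RlzQ.pair hW (RlzQ.pair hR (RlzQ.pair hQ
    (RlzQ.pair hA hB)))))).mono 1 (fun K _ x => by
      dsimp only
      omega)

theorem htr_rlz0 : RlzQ (a := .prod .nat (.prod .nat (.prod .nat .arr))) (b := .arr)
    (fun K _ x => htr x.1 x.2.1 x.2.2.1 x.2.2.2) (fun _ _ x => x.2.2.1 * x.2.1 * x.1) := by
  unfold htr
  apply RlzQ.mono
  case h =>
    apply_rules [RlzQ.tab, RlzQ.mul, RlzQ.get, RlzQ.fst, RlzQ.snd, RlzQ.input]
  case A => exact 10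
  case hc =>
    intro K _ x
    simp only [add_zero, zero_add, Finset.sum_const_zero]
    omega

theorem htr_rlz (hR : RlzQ R cr) (hW : RlzQ W cw) (hN : RlzQ N cn) (hA : RlzQ A ca) :
    RlzQ (b := .arr) (fun K _ x => htr (R K x) (W K x) (N K x) (A K x))
      (fun K _ x => cr K x + cw K x + cn K x + ca K x + N K x * W K x * R K x) :=
  (RlzQ.comp htr_rlz0 (RlzQ.pair hR (RlzQ.pair hW (RlzQ.pair hN hA)))).mono 1 (fun K _ x => by
      dsimp only
      omega)

end closure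


/-- the context `(r, (w, (n, (δ, (q, F)))))` -/
abbrev Cx : Ty := .prod .nat (.prod .nat (.prod .nat (.prod .nat (.prod .arr .arr))))

theorem bd1 (r w n δ : ℕ) : δ * w * r ≤ cst r w n δ ∧ (n + 1) * w * r ≤ cst r w n δ ∧
    (2 * δ + 1) * (w + 1) * (r + 1) ≤ 2 * cst r w n δ ∧
    (2 * δ + δ + 1) * (w + 1) * (r + 1) ≤ 3 * cst r w n δ ∧
    (n + 1 + δ + 1) * (w + 1) * (r + 1) ≤ 2 * cst r w n δ ∧
    (n + 1 + δ) * w * r ≤ cst r w n δ ∧
    (n + 1 + 2 * δ + 1) * (w + 1) * (r + 1) ≤ 3 * cst r w n δ ∧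
    (n + 1 + 2 * δ + δ + 1) * (w + 1) * (r + 1) ≤ 4 * cst r w n δ := by
  unfold cst
  have h0 : w * r ≤ (w + 1) * (r + 1) := Nat.mul_le_mul (by omega) (by omega)
  have h1 : 0 < (w + 1) * (r + 1) := by positivity
  simp only [mul_assoc]
  generalize w * r = y at h0
  generalize (w + 1) * (r + 1) = z at h0 h1
  refine ⟨?_, ?_, ?_, ?_, ?_, ?_, ?_, ?_⟩
  · exact Nat.mul_le_mul (by omega) h0
  · exact Nat.mul_le_mul (by omega) h0
  · nlinarith
  · nlinarith
  · nlinarith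
  · exact Nat.mul_le_mul (by omega) h0
  · nlinarith
  · nlinarith

section base
variable (hdm : RlzQ dm (fun _ _ x => (x.1 + x.2.2.2.1 + 1) * (x.2.1 + 1) * (x.2.2.1 + 1)))
  (hrc : RlzQ rc (fun _ _ x => (x.1 + 1) * (x.2.1 + 1) * (x.2.2.1 + 1)))

section ctx
variable {X : Ty} {C : Fam X Cx} (hC : RlzQ C (fun _ _ _ => 0))
include hC
theorem eR : RlzQ (b := .nat) (fun K _ x => (C K x).1) (fun _ _ _ => 0) := RlzQ.fst hC
theorem eW : RlzQ (b := .nat) (fun K _ x => (C K x).2.1) (fun _ _ _ => 0) :=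
  RlzQ.fst (RlzQ.snd hC)
theorem eN : RlzQ (b := .nat) (fun K _ x => (C K x).2.2.1) (fun _ _ _ => 0) :=
  RlzQ.fst (RlzQ.snd (RlzQ.snd hC))
theorem eD : RlzQ (b := .nat) (fun K _ x => (C K x).2.2.2.1) (fun _ _ _ => 0) :=
  RlzQ.fst (RlzQ.snd (RlzQ.snd (RlzQ.snd hC)))
theorem eQ : RlzQ (b := .arr) (fun K _ x => (C K x).2.2.2.2.1) (fun _ _ _ => 0) :=
  RlzQ.fst (RlzQ.snd (RlzQ.snd (RlzQ.snd (RlzQ.snd hC))))
theorem eF : RlzQ (b := .arr) (fun K _ x => (C K x).2.2.2.2.2) (fun _ _ _ => 0) :=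
  RlzQ.snd (RlzQ.snd (RlzQ.snd (RlzQ.snd (RlzQ.snd hC))))
end ctx

include hdm hrc

theorem c1_rlz0 : RlzQ (a := .prod Cx (.prod .arr .arr)) (b := .arr)
    (fun K _ x => c1 dm rc x.1.1 x.1.2.1 x.1.2.2.1 x.1.2.2.2.1 x.1.2.2.2.2.1 x.1.2.2.2.2.2
      x.2.1 x.2.2)
    (fun _ _ x => cst x.1.1 x.1.2.1 x.1.2.2.1 x.1.2.2.2.1) := by
  have eC : RlzQ (a := .prod Cx (.prod .arr .arr)) (b := Cx) (fun K _ x => x.1)
    (fun _ _ _ => 0) := RlzQ.fst RlzQ.input
  have eP : RlzQ (a := .prod Cx (.prod .arr .arr)) (b := .arr) (fun K _ x => x.2.1)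
    (fun _ _ _ => 0) := RlzQ.fst (RlzQ.snd RlzQ.input)
  have eU : RlzQ (a := .prod Cx (.prod .arr .arr)) (b := .arr) (fun K _ x => x.2.2)
    (fun _ _ _ => 0) := RlzQ.snd (RlzQ.snd RlzQ.input)
  refine ((hmul_rlz rc hrc (eR eC) (eW eC) (eQ eC) (RlzQ.mul (RlzQ.lit 2) (eD eC))
    (htr_rlz (eR eC) (eW eC) (eD eC) eU)
    (htr_rlz (eR eC) (eW eC) (eD eC) (RlzQ.snd (hdiv_rlz dm hdm (eR eC) (eW eC) (eD eC) (eQ eC)
      eP (RlzQ.add (eN eC) (RlzQ.lit 1)) (eF eC))))).congr (fun K _ x => rfl)).mono 10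
      (fun K _ x => ?_)
  obtain ⟨h1, h2, h3, h4, h5, h6, h7, h8⟩ := bd1 x.1.1 x.1.2.1 x.1.2.2.1 x.1.2.2.2.1
  try dsimp only at *
  omega

theorem pN_rlz0 : RlzQ (a := .prod Cx (.prod .arr .arr)) (b := .arr)
    (fun K _ x => pN dm rc x.1.1 x.1.2.1 x.1.2.2.1 x.1.2.2.2.1 x.1.2.2.2.2.1 x.1.2.2.2.2.2
      x.2.1 x.2.2)
    (fun _ _ x => cst x.1.1 x.1.2.1 x.1.2.2.1 x.1.2.2.2.1) := by
  have eC : RlzQ (a := .prod Cx (.prod .arr .arr)) (b := Cx) (fun K _ x => x.1)
    (fun _ _ _ => 0) := RlzQ.fst RlzQ.input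
  have eP : RlzQ (a := .prod Cx (.prod .arr .arr)) (b := .arr) (fun K _ x => x.2.1)
    (fun _ _ _ => 0) := RlzQ.fst (RlzQ.snd RlzQ.input)
  have hV := RlzQ.snd (hdiv_rlz dm hdm (eR eC) (eW eC) (eD eC) (eQ eC) eP
    (RlzQ.mul (RlzQ.lit 2) (eD eC)) (c1_rlz0 dm rc hdm hrc))
  have hG : RlzQ (a := .prod (.prod Cx (.prod .arr .arr)) .arr) (b := .arr)
      (fun K _ x => tabF (x.1.1.2.2.2.1 * x.1.1.2.1 * x.1.1.1)
        (fun i => (x.1.2.1 i : K) + x.2 i))
      (fun _ _ x => x.1.1.2.2.2.1 * x.1.1.2.1 * x.1.1.1) := by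
    apply RlzQ.mono
    case h =>
      apply_rules [RlzQ.tab, RlzQ.mul, RlzQ.fadd, RlzQ.get, RlzQ.fst, RlzQ.snd, RlzQ.input]
    case A => exact 10
    case hc =>
      intro K _ x
      simp only [add_zero, zero_add, Finset.sum_const_zero]
      omega
  refine ((RlzQ.comp hG (RlzQ.pair RlzQ.input hV)).congr (fun K _ x => rfl)).mono 10
    (fun K _ x => ?_)
  obtain ⟨h1, h2, h3, h4, h5, h6, h7, h8⟩ := bd1 x.1.1 x.1.2.1 x.1.2.2.1 x.1.2.2.2.1
  try dsimp only at *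
  omega

theorem c2_rlz0 : RlzQ (a := .prod Cx (.prod .arr .arr)) (b := .arr)
    (fun K _ x => c2 dm rc x.1.1 x.1.2.1 x.1.2.2.1 x.1.2.2.2.1 x.1.2.2.2.2.1 x.1.2.2.2.2.2
      x.2.1 x.2.2)
    (fun _ _ x => cst x.1.1 x.1.2.1 x.1.2.2.1 x.1.2.2.2.1) := by
  have eC : RlzQ (a := .prod Cx (.prod .arr .arr)) (b := Cx) (fun K _ x => x.1)
    (fun _ _ _ => 0) := RlzQ.fst RlzQ.input
  have eP : RlzQ (a := .prod Cx (.prod .arr .arr)) (b := .arr) (fun K _ x => x.2.1)
    (fun _ _ _ => 0) := RlzQ.fst (RlzQ.snd RlzQ.input)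
  have eU : RlzQ (a := .prod Cx (.prod .arr .arr)) (b := .arr) (fun K _ x => x.2.2)
    (fun _ _ _ => 0) := RlzQ.snd (RlzQ.snd RlzQ.input)
  refine ((hmul_rlz rc hrc (eR eC) (eW eC) (eQ eC)
    (RlzQ.add (RlzQ.add (eN eC) (RlzQ.lit 1)) (eD eC))
    (htr_rlz (eR eC) (eW eC) (RlzQ.add (eN eC) (RlzQ.lit 1))
      (RlzQ.fst (hdiv_rlz dm hdm (eR eC) (eW eC) (eD eC) (eQ eC)
      eP (RlzQ.add (eN eC) (RlzQ.lit 1)) (eF eC))))
    (htr_rlz (eR eC) (eW eC) (eD eC) eU)).congr (fun K _ x => rfl)).mono 10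
      (fun K _ x => ?_)
  obtain ⟨h1, h2, h3, h4, h5, h6, h7, h8⟩ := bd1 x.1.1 x.1.2.1 x.1.2.2.1 x.1.2.2.2.1
  try dsimp only at *
  omega

omit hdm hrc in
theorem c3_rlz0 : RlzQ (a := .prod Cx .arr) (b := .arr)
    (fun K _ x => c3 x.1.1 x.1.2.1 x.1.2.2.1 x.1.2.2.2.1 x.2)
    (fun _ _ x => (x.1.2.2.1 + 1 + x.1.2.2.2.1) * x.1.2.1 * x.1.1) := by
  unfold c3
  apply RlzQ.mono
  case h =>
    apply_rules (maxDepth := 1000) [RlzQ.tab, RlzQ.mul, RlzQ.add, RlzQ.fadd, RlzQ.fsub,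
      RlzQ.iteEq, RlzQ.get, RlzQ.fst, RlzQ.snd, RlzQ.input, RlzQ.lit, RlzQ.one, RlzQ.zero]
  case A => exact 10
  case hc =>
    intro K _ x
    simp only [ite_self, add_zero, zero_add, Finset.sum_const_zero]
    omega

theorem uN_rlz0 : RlzQ (a := .prod Cx (.prod .arr .arr)) (b := .arr)
    (fun K _ x => uN dm rc x.1.1 x.1.2.1 x.1.2.2.1 x.1.2.2.2.1 x.1.2.2.2.2.1 x.1.2.2.2.2.2
      x.2.1 x.2.2)
    (fun _ _ x => cst x.1.1 x.1.2.1 x.1.2.2.1 x.1.2.2.2.1) := by
  have eC : RlzQ (a := .prod Cx (.prod .arr .arr)) (b := Cx) (fun K _ x => x.1)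
    (fun _ _ _ => 0) := RlzQ.fst RlzQ.input
  have eP : RlzQ (a := .prod Cx (.prod .arr .arr)) (b := .arr) (fun K _ x => x.2.1)
    (fun _ _ _ => 0) := RlzQ.fst (RlzQ.snd RlzQ.input)
  have eU : RlzQ (a := .prod Cx (.prod .arr .arr)) (b := .arr) (fun K _ x => x.2.2)
    (fun _ _ _ => 0) := RlzQ.snd (RlzQ.snd RlzQ.input)
  have eM : RlzQ (a := .prod Cx (.prod .arr .arr)) (b := .nat)
      (fun K _ x => x.1.2.2.1 + 1 + 2 * x.1.2.2.2.1) (fun _ _ _ => 0) :=
    (RlzQ.add (RlzQ.add (eN eC) (RlzQ.lit 1)) (RlzQ.mul (RlzQ.lit 2) (eD eC))).mono 1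
      (fun K _ x => by simp)
  have h3' := RlzQ.comp c3_rlz0 (RlzQ.pair eC (c2_rlz0 dm rc hdm hrc))
  refine ((htr_rlz (eR eC) (eW eC) (eD eC) (RlzQ.snd (hdiv_rlz dm hdm (eR eC) (eW eC) (eD eC)
    (eQ eC) eP eM (hmul_rlz rc hrc (eR eC) (eW eC) (eQ eC) eM
      (htr_rlz (eR eC) (eW eC) (eD eC) eU) h3')))).congr (fun K _ x => rfl)).mono 20
      (fun K _ x => ?_)
  obtain ⟨h1, h2, h3, h4, h5, h6, h7, h8⟩ := bd1 x.1.1 x.1.2.1 x.1.2.2.1 x.1.2.2.2.1
  try dsimp only at *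
  omega

theorem step_rlz0 : RlzQ (a := .prod Cx (.prod .arr .arr)) (b := .prod .arr .arr)
    (fun K _ x => step dm rc x.1.1 x.1.2.1 x.1.2.2.1 x.1.2.2.2.1 x.1.2.2.2.2.1 x.1.2.2.2.2.2 x.2)
    (fun _ _ x => cst x.1.1 x.1.2.1 x.1.2.2.1 x.1.2.2.2.1) := by
  have hG : RlzQ (a := .prod (.prod Cx (.prod .arr .arr)) .arr) (b := .prod .arr .arr)
      (fun K _ x => (x.2, uN dm rc x.1.1.1 x.1.1.2.1 x.1.1.2.2.1 x.1.1.2.2.2.1 x.1.1.2.2.2.2.1
        x.1.1.2.2.2.2.2 x.2 x.1.2.2))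
      (fun _ _ x => cst x.1.1.1 x.1.1.2.1 x.1.1.2.2.1 x.1.1.2.2.2.1) := by
    refine ((RlzQ.pair (RlzQ.snd RlzQ.input) (RlzQ.comp (uN_rlz0 dm rc hdm hrc)
      (RlzQ.pair (RlzQ.fst (RlzQ.fst RlzQ.input)) (RlzQ.pair (RlzQ.snd RlzQ.input)
        (RlzQ.snd (RlzQ.snd (RlzQ.fst RlzQ.input))))))).congr (fun K _ x => rfl)).mono 2
        (fun K _ x => ?_)
    dsimp only
    omega
  refine ((RlzQ.comp hG (RlzQ.pair RlzQ.input (pN_rlz0 dm rc hdm hrc))).congr
    (fun K _ x => rfl)).mono 3 (fun K _ x => ?_)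
  dsimp only
  omega

/-- the loop -/
theorem loop_rlz : RlzQ (a := .prod Cx (.prod .arr .arr)) (b := .prod .arr .arr)
    (fun K _ x => iterF (Nat.log 2 x.1.2.1 + 1) x.2 (fun s _ =>
      step dm rc x.1.1 x.1.2.1 x.1.2.2.1 x.1.2.2.2.1 x.1.2.2.2.2.1 x.1.2.2.2.2.2 s))
    (fun _ _ x => cst x.1.1 x.1.2.1 x.1.2.2.1 x.1.2.2.2.1) := by
  have eC : RlzQ (a := .prod Cx (.prod .arr .arr)) (b := Cx) (fun K _ x => x.1)
    (fun _ _ _ => 0) := RlzQ.fst RlzQ.input
  have hbody : RlzQ (a := .prod (.prod (.prod Cx (.prod .arr .arr)) (.prod .arr .arr)) .nat)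
      (b := .prod .arr .arr)
      (fun K _ x => step dm rc x.1.1.1.1 x.1.1.1.2.1 x.1.1.1.2.2.1 x.1.1.1.2.2.2.1
        x.1.1.1.2.2.2.2.1 x.1.1.1.2.2.2.2.2 x.1.2)
      (fun _ _ x => cst x.1.1.1.1 x.1.1.1.2.1 x.1.1.1.2.2.1 x.1.1.1.2.2.2.1) := by
    refine ((RlzQ.comp (step_rlz0 dm rc hdm hrc) (RlzQ.pair
      (RlzQ.fst (RlzQ.fst (RlzQ.fst RlzQ.input))) (RlzQ.snd (RlzQ.fst RlzQ.input)))).congr
      (fun K _ x => rfl)).mono 1 (fun K _ x => ?_)
    dsimp only
    omega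
  have hloop := RlzQ.iter (a := .prod Cx (.prod .arr .arr)) (b := .prod .arr .arr)
    (f := fun K _ x s _ => step dm rc x.1.1 x.1.2.1 x.1.2.2.1 x.1.2.2.2.1 x.1.2.2.2.2.1
      x.1.2.2.2.2.2 s)
    (RlzQ.add (RlzQ.nlog (RlzQ.lit 2) (eW eC)) (RlzQ.lit 1)) (RlzQ.snd RlzQ.input) hbody
  refine (hloop.congr (fun K _ x => rfl)).mono' 5 (fun K _ x => ?_)
  have key : ∀ r w n δ : ℕ, (0 + 0 + w + 0) + 0 + (Nat.log 2 w + 1) +
      ∑ _i ∈ range (Nat.log 2 w + 1), cst r w n δ ≤ 5 * Phi 5 (cst r w n δ) := by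
    intro r w n δ
    rw [sum_const, card_range, smul_eq_mul]
    have hw : w ≤ cst r w n δ := by
      unfold cst
      have : 1 * (w + 1) * 1 ≤ (n + δ + 1) * (w + 1) * (r + 1) :=
        Nat.mul_le_mul (Nat.mul_le_mul (by omega) le_rfl) (by omega)
      omega
    have hl := Nat.log_le_self 2 w
    have hp := le_Phi 5 (cst r w n δ)
    have h5 : (Nat.log 2 w + 1) * cst r w n δ ≤ Phi 5 (cst r w n δ) := by
      refine le_trans ?_ (Phi_mono (c := 1) (g := cst r w n δ) (by omega) le_rfl)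
      unfold Phi
      rw [pow_one, mul_comm]
      refine Nat.mul_le_mul (by omega) ?_
      have : Nat.log 2 w ≤ Nat.log 2 (cst r w n δ + 1) := Nat.log_mono_right (by omega)
      omega
    omega
  exact key x.1.1 x.1.2.1 x.1.2.2.1 x.1.2.2.2.1

end base

end rlz


/-! ## the input arrays -/

section inp
variable {K : Type} [Field K]

/-- the coefficients of `f` in the format of the ring level -/
def inF (r w n : ℕ) (f : ℕ → K) : ℕ → K :=
  tabF ((n + 1) * w * r) (fun i => if i % r = 0 then f (i / r / w * (n + 1) + i / r % w) else 0)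

/-- constant coefficients in the format of the ring level -/
def inP (r w δ : ℕ) (P : ℕ → K) : ℕ → K :=
  tabF (δ * w * r) (fun i => if i / r % w = 0 then P (i / r / w * r + i % r) else 0)

end inp

theorem inF_rlz0 : RlzQ (a := .prod .nat (.prod .nat (.prod .nat .arr))) (b := .arr)
    (fun K _ x => inF x.1 x.2.1 x.2.2.1 x.2.2.2) (fun _ _ x => (x.2.2.1 + 1) * x.2.1 * x.1) := by
  unfold inF
  apply RlzQ.mono
  case h =>
    apply_rules (maxDepth := 1000) [RlzQ.tab, RlzQ.mul, RlzQ.add, RlzQ.div, RlzQ.mod,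
      RlzQ.iteEq, RlzQ.get, RlzQ.fst, RlzQ.snd, RlzQ.input, RlzQ.lit, RlzQ.zero]
  case A => exact 10
  case hc =>
    intro K _ x
    simp only [ite_self, add_zero, zero_add, Finset.sum_const_zero]
    omega

theorem inP_rlz0 : RlzQ (a := .prod .nat (.prod .nat (.prod .nat .arr))) (b := .arr)
    (fun K _ x => inP x.1 x.2.1 x.2.2.1 x.2.2.2) (fun _ _ x => x.2.2.1 * x.2.1 * x.1) := by
  unfold inP
  apply RlzQ.mono
  case h =>
    apply_rules (maxDepth := 1000) [RlzQ.tab, RlzQ.mul, RlzQ.add, RlzQ.div, RlzQ.mod,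
      RlzQ.iteEq, RlzQ.get, RlzQ.fst, RlzQ.snd, RlzQ.input, RlzQ.lit, RlzQ.zero]
  case A => exact 10
  case hc =>
    intro K _ x
    simp only [ite_self, add_zero, zero_add, Finset.sum_const_zero]
    omega

/-! ## the ring level -/

section math
variable {K : Type} [Field K] {k : Type} [Field k] [Algebra K k]

/-- polynomials to `k[x]/(x^w)` -/
noncomputable def φ (k : Type) [Field k] (w : ℕ) : k[X] →+* TR k w :=
  (Ideal.Quotient.mk _).comp Polynomial.coeToPowerSeries.ringHom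

theorem nontriv {w : ℕ} (hw : 1 ≤ w) : Nontrivial (TR k w) := by
  refine Ideal.Quotient.nontrivial_iff.2 ?_
  rw [Ne, Ideal.span_singleton_eq_top]
  intro h
  have h1 : IsUnit (PowerSeries.X : PowerSeries k) := isUnit_of_dvd_unit
    (dvd_pow_self _ (by omega)) h
  exact PowerSeries.X_prime.not_isUnit h1

theorem cR_eq_iff (w r : ℕ) (v : k) (A : ℕ → K) (t : ℕ) (p : k[X]) :
    cR w r v A t = φ k w p ↔ ∀ i < w, dv r v A (t * w + i) = p.coeff i := by
  unfold cR φ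
  rw [RingHom.comp_apply, Ideal.Quotient.eq, Ideal.mem_span_singleton, PowerSeries.X_pow_dvd_iff]
  refine forall₂_congr (fun i hi => ?_)
  rw [map_sub, PowerSeries.coeff_mk, if_pos hi, sub_eq_zero]
  simp

theorem cR_eq_of (w r : ℕ) (v : k) (A : ℕ → K) (t : ℕ) (g : ℕ → k)
    (h : ∀ i < w, dv r v A (t * w + i) = g i) :
    cR w r v A t = Ideal.Quotient.mk _ (PowerSeries.mk fun i => if i < w then g i else 0) := by
  unfold cR
  congr 2
  funext i
  split_ifs with hi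
  · exact h i hi
  · rfl

theorem pRc (w r : ℕ) (v : k) (N : ℕ) (A : ℕ → K) (t : ℕ) :
    (pR w r v N A).coeff t = if t < N then cR w r v A t else 0 := by
  unfold pR
  rw [finsetSum_coeff]
  simp only [coeff_monomial]
  rw [Finset.sum_ite_eq']
  simp [mem_range]

theorem idx {N w r t i l : ℕ} (ht : t < N) (hi : i < w) (hl : l < r) :
    (t * w + i) * r + l < N * w * r := by
  have h1 : t * w + i + 1 ≤ N * w := by
    have : (t + 1) * w ≤ N * w := Nat.mul_le_mul_right w ht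
    nlinarith
  have h2 : (t * w + i + 1) * r ≤ N * w * r := Nat.mul_le_mul_right r h1
  nlinarith

theorem dv_tab {N w r t i : ℕ} (v : k) (A : ℕ → K) (ht : t < N) (hi : i < w) :
    dv r v (tabF (N * w * r) A) (t * w + i) = dv r v A (t * w + i) := by
  unfold dv
  refine sum_congr rfl (fun l hl => ?_)
  rw [tabF, if_pos (idx ht hi (mem_range.1 hl))]

theorem dv_tab_ge {N w r t i : ℕ} (v : k) (A : ℕ → K) (ht : N ≤ t) :
    dv r v (tabF (N * w * r) A) (t * w + i) = 0 := by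
  unfold dv
  refine sum_eq_zero (fun l hl => ?_)
  rw [tabF, if_neg, map_zero, zero_mul]
  have h1 : N * w * r ≤ t * w * r := Nat.mul_le_mul_right r (Nat.mul_le_mul_right w ht)
  have h2 : t * w * r ≤ (t * w + i) * r := Nat.mul_le_mul_right r (by omega)
  omega

theorem cR_tab {N w r t : ℕ} (v : k) (A : ℕ → K) :
    cR w r v (tabF (N * w * r) A) t = if t < N then cR w r v A t else 0 := by
  split_ifs with h
  · exact cR_eq_of w r v _ t _ (fun i hi => dv_tab v A h hi)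
  · rw [cR_eq_of w r v _ t (fun _ => 0) (fun i _ => dv_tab_ge v A (not_lt.1 h))]
    have : (PowerSeries.mk fun i : ℕ => if i < w then (0 : k) else 0) = 0 := by
      ext i
      simp
    rw [this, map_zero]

theorem pR_tab {N w r : ℕ} (v : k) (A : ℕ → K) :
    pR w r v N (tabF (N * w * r) A) = pR w r v N A := by
  unfold pR
  refine sum_congr rfl (fun t ht => ?_)
  rw [cR_tab, if_pos (mem_range.1 ht)]

theorem dv_add (r : ℕ) (v : k) (A B : ℕ → K) (s : ℕ) :
    dv r v (fun i => A i + B i) s = dv r v A s + dv r v B s := by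
  unfold dv
  rw [← sum_add_distrib]
  refine sum_congr rfl (fun l _ => ?_)
  rw [map_add, add_mul]

theorem cR_add (w r : ℕ) (v : k) (A B : ℕ → K) (t : ℕ) :
    cR w r v (fun i => A i + B i) t = cR w r v A t + cR w r v B t := by
  unfold cR
  rw [← map_add]
  congr 1
  ext i
  simp only [PowerSeries.coeff_mk, map_add]
  split_ifs
  · exact dv_add r v A B _
  · simp

theorem pR_add (w r : ℕ) (v : k) (N : ℕ) (A B : ℕ → K) :
    pR w r v N (fun i => A i + B i) = pR w r v N A + pR w r v N B := by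
  unfold pR
  rw [← sum_add_distrib]
  refine sum_congr rfl (fun t _ => ?_)
  rw [cR_add, map_add]

/-- two minus an array -/
theorem pR_two (w r : ℕ) (v : k) (N : ℕ) (A : ℕ → K) (hr : 1 ≤ r) (hw : 1 ≤ w) (hN : 1 ≤ N) :
    pR w r v N (fun i => (if i = 0 then 1 + 1 else 0) - A i) = 2 - pR w r v N A := by
  have h1 : pR w r v N (fun i => if i = 0 then (1 + 1 : K) else 0) = 2 := by
    ext t
    rw [pRc]
    have h2 : ∀ i, dv r v (fun i => if i = 0 then (1 + 1 : K) else 0) i =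
        if i = 0 then 2 else 0 := by
      intro i
      unfold dv
      by_cases hi : i = 0
      · subst hi
        rw [sum_eq_single 0]
        · simp; norm_num
        · intro l _ hl
          simp [hl]
        · intro h
          simp at h
          omega
      · rw [if_neg hi]
        refine sum_eq_zero (fun l _ => ?_)
        have : ¬ (i * r + l = 0) := by
          have : 0 < i * r := Nat.mul_pos (Nat.pos_of_ne_zero hi) hr
          omega
        beta_reduce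
        rw [if_neg this, map_zero, zero_mul]
    have h3 : cR w r v (fun i => if i = 0 then (1 + 1 : K) else 0) t = if t = 0 then 2 else 0 := by
      have h4 : cR w r v (fun i => if i = 0 then (1 + 1 : K) else 0) t =
          φ k w (if t = 0 then 2 else 0) := by
        rw [cR_eq_iff]
        intro i hi
        rw [h2]
        by_cases ht : t = 0
        · subst ht
          rw [if_pos rfl]
          by_cases hi0 : i = 0
          · subst hi0
            simp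
          · have : (0 * w + i = 0) ↔ False := by simp [hi0]
            rw [if_neg (by simpa using hi0)]
            rw [← map_ofNat (C : k →+* k[X]) 2, coeff_C, if_neg hi0]
        · rw [if_neg ht, if_neg, coeff_zero]
          have : 0 < t * w := Nat.mul_pos (Nat.pos_of_ne_zero ht) hw
          omega
      rw [h4]
      by_cases ht : t = 0
      · rw [if_pos ht, if_pos ht]
        exact map_ofNat (φ k w) 2
      · rw [if_neg ht, if_neg ht, map_zero]
    rw [h3, ← map_ofNat (C : TR k w →+* (TR k w)[X]) 2, coeff_C]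
    by_cases ht : t = 0
    · subst ht
      simp [show 0 < N by omega]
    · simp [ht]
  have h2 := pR_add w r v N (fun i => (if i = 0 then (1 + 1 : K) else 0) - A i) A
  have h3 : (fun i => ((if i = 0 then (1 + 1 : K) else 0) - A i) + A i) =
      fun i => if i = 0 then (1 + 1 : K) else 0 := by
    funext i
    ring
  rw [h3, h1] at h2
  rw [h2]
  ring


/-! ## one step -/

section spec
variable (dm : Fam (.prod .nat (.prod .nat (.prod .nat (.prod .nat (.prod .arr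
  (.prod .arr .arr)))))) (.prod .arr .arr))
variable (rc : Fam (.prod .nat (.prod .nat (.prod .nat (.prod .arr (.prod .arr .arr))))) .arr)
variable {r w : ℕ} {v : k} {q : ℕ → K}

theorem mul_spec (hrc : ∀ (N : ℕ) (A B : ℕ → K), ∀ t < N, cR w r v (hmul rc r w q N A B) t =
      ∑ s ∈ range (t + 1), cR w r v A s * cR w r v B (t - s)) {N a b : ℕ} (hN : a + b ≤ N)
    (A B : ℕ → K) :
    pR w r v N (hmul rc r w q N (tabF (a * w * r) A) (tabF (b * w * r) B)) =
      pR w r v a A * pR w r v b B := by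
  ext t
  rw [pRc, coeff_mul, Finset.Nat.sum_antidiagonal_eq_sum_range_succ
    (fun i j => (pR w r v a A).coeff i * (pR w r v b B).coeff j)]
  simp only [pRc]
  split_ifs with ht
  · rw [hrc N _ _ t ht]
    refine sum_congr rfl (fun s _ => ?_)
    rw [cR_tab, cR_tab]
  · symm
    refine sum_eq_zero (fun s hs => ?_)
    have := mem_range.1 hs
    by_cases h1 : s < a
    · rw [if_neg (show ¬ (t - s < b) by omega), mul_zero]
    · rw [if_neg h1, zero_mul]

theorem htr_eq (N : ℕ) (A : ℕ → K) : htr r w N A = tabF (N * w * r) A := rfl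

theorem pR_degree (N : ℕ) (A : ℕ → K) : (pR w r v N A).degree < (N : WithBot ℕ) := by
  rw [degree_lt_iff_coeff_zero]
  intro m hm
  rw [pRc, if_neg (by omega)]

theorem mon_monic [Nontrivial (TR k w)] (δ : ℕ) (P : ℕ → K) :
    (X ^ δ + pR w r v δ P).Monic ∧ (X ^ δ + pR w r v δ P).natDegree = δ ∧
      (X ^ δ + pR w r v δ P).degree = (δ : WithBot ℕ) := by
  have h : (X ^ δ + pR w r v δ P).degree = (δ : WithBot ℕ) := by
    rw [degree_add_eq_left_of_degree_lt]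
    · exact degree_X_pow δ
    · rw [degree_X_pow]; exact pR_degree δ P
  exact ⟨monic_X_pow_add (pR_degree δ P), natDegree_eq_of_degree_eq_some h, h⟩

theorem div_spec [Nontrivial (TR k w)]
    (hdm : ∀ (N δ : ℕ) (P A : ℕ → K), pR w r v N A = (X ^ δ + pR w r v δ P) *
      pR w r v N (hdiv dm r w δ q P N A).1 + pR w r v δ (hdiv dm r w δ q P N A).2)
    (N δ : ℕ) (P A : ℕ → K) :
    pR w r v N A %ₘ (X ^ δ + pR w r v δ P) = pR w r v δ (hdiv dm r w δ q P N A).2 ∧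
      pR w r v N A /ₘ (X ^ δ + pR w r v δ P) = pR w r v N (hdiv dm r w δ q P N A).1 := by
  obtain ⟨h1, h2, h3⟩ := mon_monic (r := r) (v := v) (w := w) δ P
  have := div_modByMonic_unique (f := pR w r v N A) (pR w r v N (hdiv dm r w δ q P N A).1)
    (pR w r v δ (hdiv dm r w δ q P N A).2) h1 ⟨by
      conv_rhs => rw [hdm N δ P A]
      ring, by rw [h3]; exact pR_degree δ _⟩
  exact ⟨this.2, this.1⟩

theorem step_spec [Nontrivial (TR k w)] (hr : 1 ≤ r) (hw : 1 ≤ w)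
    (hdm : ∀ (N δ : ℕ) (P A : ℕ → K), pR w r v N A = (X ^ δ + pR w r v δ P) *
      pR w r v N (hdiv dm r w δ q P N A).1 + pR w r v δ (hdiv dm r w δ q P N A).2)
    (hrc : ∀ (N : ℕ) (A B : ℕ → K), ∀ t < N, cR w r v (hmul rc r w q N A B) t =
      ∑ s ∈ range (t + 1), cR w r v A s * cR w r v B (t - s))
    (n δ : ℕ) (F : ℕ → K) (s : (ℕ → K) × (ℕ → K)) :
    let f := pR w r v (n + 1) F
    let p := X ^ δ + pR w r v δ s.1
    let u := pR w r v δ s.2
    let p' := X ^ δ + pR w r v δ (step dm rc r w n δ q F s).1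
    p' = p + (u * (f %ₘ p)) %ₘ p ∧
      pR w r v δ (step dm rc r w n δ q F s).2 = (u * (2 - (f /ₘ p') * u)) %ₘ p' := by
  intro f p u p'
  have e1 : p' = p + (u * (f %ₘ p)) %ₘ p := by
    have h1 := (div_spec dm hdm (n + 1) δ s.1 F).1
    have h2 : pR w r v (2 * δ) (c1 dm rc r w n δ q F s.1 s.2) = u * (f %ₘ p) := by
      unfold c1
      rw [htr_eq, htr_eq, mul_spec rc hrc (by omega), ← h1]
    have h3 := (div_spec dm hdm (2 * δ) δ s.1 (c1 dm rc r w n δ q F s.1 s.2)).1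
    rw [h2] at h3
    change X ^ δ + pR w r v δ (pN dm rc r w n δ q F s.1 s.2) = _
    unfold pN
    rw [pR_tab, pR_add, ← h3]
    ring
  refine ⟨e1, ?_⟩
  change pR w r v δ (uN dm rc r w n δ q F (pN dm rc r w n δ q F s.1 s.2) s.2) = _
  have hp' : p' = X ^ δ + pR w r v δ (pN dm rc r w n δ q F s.1 s.2) := rfl
  rw [hp']
  set P' := pN dm rc r w n δ q F s.1 s.2 with hP'
  have h1 := (div_spec dm hdm (n + 1) δ P' F).2
  have h2 : pR w r v (n + 1 + δ) (c2 dm rc r w n δ q F P' s.2) =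
      (f /ₘ (X ^ δ + pR w r v δ P')) * u := by
    unfold c2
    rw [htr_eq, htr_eq, mul_spec rc hrc (by omega), ← h1]
  have h3 := pR_two w r v (n + 1 + δ) (c2 dm rc r w n δ q F P' s.2) hr hw (by omega)
  rw [h2] at h3
  unfold uN c3
  rw [htr_eq, htr_eq, pR_tab, ← (div_spec dm hdm _ δ P' _).1, mul_spec rc hrc (by omega), h3]


/-- the invariant of the loop -/
def Inv (w r : ℕ) (v : k) (δ : ℕ) (P Q : (TR k w)[X]) (a : TR k w)
    (s : (ℕ → K) × (ℕ → K)) : Prop :=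
  C a ∣ (X ^ δ + pR w r v δ s.1) - P ∧ ∃ t, C a ∣ pR w r v δ s.2 * Q - 1 - t * P

theorem inv_loop [Nontrivial (TR k w)] (hr : 1 ≤ r) (hw : 1 ≤ w)
    (hdm : ∀ (N δ : ℕ) (P A : ℕ → K), pR w r v N A = (X ^ δ + pR w r v δ P) *
      pR w r v N (hdiv dm r w δ q P N A).1 + pR w r v δ (hdiv dm r w δ q P N A).2)
    (hrc : ∀ (N : ℕ) (A B : ℕ → K), ∀ t < N, cR w r v (hmul rc r w q N A B) t =
      ∑ s ∈ range (t + 1), cR w r v A s * cR w r v B (t - s))
    (n δ : ℕ) (F : ℕ → K) {P Q : (TR k w)[X]} (hP : P.Monic) (hQ : Q.Monic)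
    (hd : P.natDegree = δ) (hf : pR w r v (n + 1) F = P * Q) (a : TR k w)
    (s : (ℕ → K) × (ℕ → K)) (h0 : Inv w r v δ P Q a s) (i : ℕ) :
    Inv w r v δ P Q (a ^ 2 ^ i) (iterF i s (fun s _ => step dm rc r w n δ q F s)) := by
  induction i with
  | zero => simpa using h0
  | succ i ih =>
    rw [iterF_succ]
    set s' := iterF i s (fun s _ => step dm rc r w n δ q F s) with hs'
    obtain ⟨h1, h2⟩ := ih
    obtain ⟨e1, e2⟩ := step_spec dm rc hr hw hdm hrc n δ F s'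
    obtain ⟨m1, m2, _⟩ := mon_monic (r := r) (v := v) (w := w) δ s'.1
    have key := hensel_step (a ^ 2 ^ i) hP hQ hf m1 (m2.trans hd.symm) h1 h2
    simp only at key e1 e2
    rw [← e1, ← e2] at key
    obtain ⟨_, _, k3, k4⟩ := key
    have hpow : a ^ 2 ^ (i + 1) = (a ^ 2 ^ i) ^ 2 := by rw [← pow_mul, pow_succ]
    rw [hpow]
    exact ⟨k3, k4⟩

end spec


/-! ## the initial arrays -/

theorem dv_inP {r w δ t i : ℕ} (v : k) (A : ℕ → K) (ht : t < δ) (hi : i < w) :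
    dv r v (inP r w δ A) (t * w + i) = if i = 0 then dv r v A t else 0 := by
  unfold inP
  rw [dv_tab v _ ht hi]
  unfold dv
  have h1 : ∀ l ∈ range r, algebraMap K k ((fun i => if i / r % w = 0 then
      A (i / r / w * r + i % r) else 0) ((t * w + i) * r + l)) * v ^ l =
      if i = 0 then algebraMap K k (A (t * r + l)) * v ^ l else 0 := by
    intro l hl
    have hl' := mem_range.1 hl
    have e1 : ((t * w + i) * r + l) / r = t * w + i := by
      rw [mul_comm, Nat.mul_add_div (by omega), Nat.div_eq_of_lt hl', add_zero]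
    have e2 : ((t * w + i) * r + l) % r = l := by
      rw [mul_comm, Nat.mul_add_mod, Nat.mod_eq_of_lt hl']
    have e3 : (t * w + i) / w = t := by
      rw [mul_comm, Nat.mul_add_div (by omega), Nat.div_eq_of_lt hi, add_zero]
    have e4 : (t * w + i) % w = i := by
      rw [mul_comm, Nat.mul_add_mod, Nat.mod_eq_of_lt hi]
    beta_reduce
    rw [e1, e2, e3, e4]
    split_ifs <;> simp
  rw [sum_congr rfl h1]
  split_ifs <;> simp

theorem dv_inF {r w n t i : ℕ} (hr : 1 ≤ r) (v : k) (f : ℕ → K) (ht : t < n + 1) (hi : i < w) :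
    dv r v (inF r w n f) (t * w + i) = algebraMap K k (f (t * (n + 1) + i)) := by
  unfold inF
  rw [dv_tab v _ ht hi]
  unfold dv
  have h1 : ∀ l ∈ range r, algebraMap K k ((fun i => if i % r = 0 then
      f (i / r / w * (n + 1) + i / r % w) else 0) ((t * w + i) * r + l)) * v ^ l =
      if l = 0 then algebraMap K k (f (t * (n + 1) + i)) else 0 := by
    intro l hl
    have hl' := mem_range.1 hl
    have e1 : ((t * w + i) * r + l) / r = t * w + i := by
      rw [mul_comm, Nat.mul_add_div (by omega), Nat.div_eq_of_lt hl', add_zero]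
    have e2 : ((t * w + i) * r + l) % r = l := by
      rw [mul_comm, Nat.mul_add_mod, Nat.mod_eq_of_lt hl']
    have e3 : (t * w + i) / w = t := by
      rw [mul_comm, Nat.mul_add_div (by omega), Nat.div_eq_of_lt hi, add_zero]
    have e4 : (t * w + i) % w = i := by
      rw [mul_comm, Nat.mul_add_mod, Nat.mod_eq_of_lt hi]
    beta_reduce
    rw [e1, e2, e3, e4]
    by_cases h : l = 0
    · subst h; simp
    · simp [h]
  rw [sum_congr rfl h1, Finset.sum_ite_eq', if_pos (mem_range.2 (by omega))]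

theorem cR_inP {r w δ t : ℕ} (v : k) (A : ℕ → K) (ht : t < δ) :
    cR w r v (inP r w δ A) t = φ k w (C (dv r v A t)) := by
  rw [cR_eq_iff]
  intro i hi
  rw [dv_inP v A ht hi, coeff_C]

theorem φ_dvd (w : ℕ) (p : k[X]) : φ k w X ∣ φ k w (C (p.coeff 0)) - φ k w p := by
  rw [← map_sub]
  refine map_dvd _ ?_
  rw [X_dvd_iff]
  simp

theorem at0_dvd (w : ℕ) (G : k[X][X]) :
    C (φ k w X) ∣ (at0 G).map ((φ k w).comp C) - G.map (φ k w) := by
  rw [C_dvd_iff_dvd_coeff]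
  intro j
  rw [coeff_sub, coeff_map, coeff_map, at0_coeff]
  exact φ_dvd w _

theorem pR_inP {r w δ : ℕ} (v : k) (A : ℕ → K) :
    pR w r v δ (inP r w δ A) =
      (∑ j ∈ range δ, monomial j (dv r v A j)).map ((φ k w).comp C) := by
  unfold pR
  rw [Polynomial.map_sum]
  refine sum_congr rfl (fun t ht => ?_)
  rw [cR_inP v A (mem_range.1 ht), map_monomial, RingHom.comp_apply]

theorem φ_X_pow {w j : ℕ} (h : w ≤ j) : (φ k w X) ^ j = 0 := by
  rw [← map_pow]
  unfold φ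
  rw [RingHom.comp_apply, Ideal.Quotient.eq_zero_iff_mem, Ideal.mem_span_singleton]
  simpa using pow_dvd_pow (PowerSeries.X : PowerSeries k) h

end math

end FH

theorem hensel_rlz :
    ∃ F : Fam (.prod .nat (.prod .nat (.prod .nat (.prod .nat (.prod .arr (.prod .arr
      (.prod .arr .arr))))))) .arr,
    RlzQ F (fun _ _ x => (x.2.2.1 + x.2.2.2.1 + 1) * (x.2.1 + 1) * (x.1 + 1)) ∧
    ∀ (K : Type) [Field K] (r w n δ : ℕ) (q f P₀ U₀ : ℕ → K) (k : Type) [Field k] [Algebra K k]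
      (v : k) (P Q : k[X][X]), aeval v (gmon r q) = 0 → 1 ≤ w → w ≤ n + 1 → P.Monic → Q.Monic →
      P.natDegree = δ → (P * Q).natDegree = n →
      (∀ j ≤ n, ∀ i < w, ((P * Q).coeff j).coeff i = algebraMap K k (f (j * (n + 1) + i))) →
      (∀ j < δ, dv r v P₀ j = (P.coeff j).coeff 0) →
      at0 P ∣ (∑ j ∈ range δ, monomial j (dv r v U₀ j)) * at0 Q - 1 →
      ∀ j < δ, ∀ i < w, dv r v (F K (r, (w, (n, (δ, (q, (f, (P₀, U₀)))))))) (j * w + i) =
        (P.coeff j).coeff i := by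
  obtain ⟨dm, hdm, sdm⟩ := rdivmod_rlz
  obtain ⟨rc, hrc, src⟩ := rconv_rlz
  refine ⟨fun K _ x => (iterF (S := (ℕ → K) × (ℕ → K)) (Nat.log 2 x.2.1 + 1)
    (FH.inP x.1 x.2.1 x.2.2.2.1 x.2.2.2.2.2.2.1, FH.inP x.1 x.2.1 x.2.2.2.1 x.2.2.2.2.2.2.2)
    (fun s _ => FH.step dm rc x.1 x.2.1 x.2.2.1 x.2.2.2.1 x.2.2.2.2.1
      (FH.inF x.1 x.2.1 x.2.2.1 x.2.2.2.2.2.1) s)).1, ?_, ?_⟩
  · have e1 : RlzQ (a := .prod .nat (.prod .nat (.prod .nat (.prod .nat (.prod .arr (.prod .arr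
      (.prod .arr .arr))))))) (b := .nat) (fun K _ x => x.1) (fun _ _ _ => 0) :=
      RlzQ.fst RlzQ.input
    have e2 : RlzQ (a := .prod .nat (.prod .nat (.prod .nat (.prod .nat (.prod .arr (.prod .arr
      (.prod .arr .arr))))))) (b := .nat) (fun K _ x => x.2.1) (fun _ _ _ => 0) :=
      RlzQ.fst (RlzQ.snd RlzQ.input)
    have e3 : RlzQ (a := .prod .nat (.prod .nat (.prod .nat (.prod .nat (.prod .arr (.prod .arr
      (.prod .arr .arr))))))) (b := .nat) (fun K _ x => x.2.2.1) (fun _ _ _ => 0) :=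
      RlzQ.fst (RlzQ.snd (RlzQ.snd RlzQ.input))
    have e4 : RlzQ (a := .prod .nat (.prod .nat (.prod .nat (.prod .nat (.prod .arr (.prod .arr
      (.prod .arr .arr))))))) (b := .nat) (fun K _ x => x.2.2.2.1) (fun _ _ _ => 0) :=
      RlzQ.fst (RlzQ.snd (RlzQ.snd (RlzQ.snd RlzQ.input)))
    have e5 : RlzQ (a := .prod .nat (.prod .nat (.prod .nat (.prod .nat (.prod .arr (.prod .arr
      (.prod .arr .arr))))))) (b := .arr) (fun K _ x => x.2.2.2.2.1) (fun _ _ _ => 0) :=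
      RlzQ.fst (RlzQ.snd (RlzQ.snd (RlzQ.snd (RlzQ.snd RlzQ.input))))
    have e6 : RlzQ (a := .prod .nat (.prod .nat (.prod .nat (.prod .nat (.prod .arr (.prod .arr
      (.prod .arr .arr))))))) (b := .arr) (fun K _ x => x.2.2.2.2.2.1) (fun _ _ _ => 0) :=
      RlzQ.fst (RlzQ.snd (RlzQ.snd (RlzQ.snd (RlzQ.snd (RlzQ.snd RlzQ.input)))))
    have e7 : RlzQ (a := .prod .nat (.prod .nat (.prod .nat (.prod .nat (.prod .arr (.prod .arr
      (.prod .arr .arr))))))) (b := .arr) (fun K _ x => x.2.2.2.2.2.2.1) (fun _ _ _ => 0) :=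
      RlzQ.fst (RlzQ.snd (RlzQ.snd (RlzQ.snd (RlzQ.snd (RlzQ.snd (RlzQ.snd RlzQ.input))))))
    have e8 : RlzQ (a := .prod .nat (.prod .nat (.prod .nat (.prod .nat (.prod .arr (.prod .arr
      (.prod .arr .arr))))))) (b := .arr) (fun K _ x => x.2.2.2.2.2.2.2) (fun _ _ _ => 0) :=
      RlzQ.snd (RlzQ.snd (RlzQ.snd (RlzQ.snd (RlzQ.snd (RlzQ.snd (RlzQ.snd RlzQ.input))))))
    have f1 := RlzQ.comp FH.inF_rlz0 (RlzQ.pair e1 (RlzQ.pair e2 (RlzQ.pair e3 e6)))
    have f2 := RlzQ.comp FH.inP_rlz0 (RlzQ.pair e1 (RlzQ.pair e2 (RlzQ.pair e4 e7)))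
    have f3 := RlzQ.comp FH.inP_rlz0 (RlzQ.pair e1 (RlzQ.pair e2 (RlzQ.pair e4 e8)))
    refine ((RlzQ.fst (RlzQ.comp (FH.loop_rlz dm rc hdm hrc) (RlzQ.pair
      (RlzQ.pair e1 (RlzQ.pair e2 (RlzQ.pair e3 (RlzQ.pair e4 (RlzQ.pair e5 f1)))))
      (RlzQ.pair f2 f3)))).congr (fun K _ x => rfl)).mono 10 (fun K _ x => ?_)
    obtain ⟨h1, h2, -, -, -, -, -, -⟩ := FH.bd1 x.1 x.2.1 x.2.2.1 x.2.2.2.1
    have h3 : FH.cst x.1 x.2.1 x.2.2.1 x.2.2.2.1 =
      (x.2.2.1 + x.2.2.2.1 + 1) * (x.2.1 + 1) * (x.1 + 1) := rfl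
    dsimp only
    omega
  · intro K _ r w n δ q f P₀ U₀ k _ _ v P Q hv hw hwn hP hQ hPd hPQ hf hP0 hU0
    have hr : 1 ≤ r := by
      rcases Nat.eq_zero_or_pos r with rfl | h
      · simp [gmon] at hv
      · exact h
    have := FH.nontriv (k := k) hw
    have hPm : (P.map (FH.φ k w)).Monic := hP.map _
    have hQm : (Q.map (FH.φ k w)).Monic := hQ.map _
    have hPd' : (P.map (FH.φ k w)).natDegree = δ := by rw [hP.natDegree_map, hPd]
    have hF : pR w r v (n + 1) (FH.inF r w n f) = P.map (FH.φ k w) * Q.map (FH.φ k w) := by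
      rw [← Polynomial.map_mul]
      ext t
      rw [FH.pRc, coeff_map]
      split_ifs with ht
      · rw [FH.cR_eq_iff]
        intro i hi
        rw [FH.dv_inF hr v f ht hi, hf t (by omega) i hi]
      · rw [coeff_eq_zero_of_natDegree_lt (by omega), map_zero]
    have h0 : FH.Inv w r v δ (P.map (FH.φ k w)) (Q.map (FH.φ k w)) (FH.φ k w X)
        (FH.inP r w δ P₀, FH.inP r w δ U₀) := by
      have hQ0 := FH.at0_dvd w Q
      have hP0' := FH.at0_dvd w P
      constructor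
      · have e : X ^ δ + pR w r v δ (FH.inP r w δ P₀) = (at0 P).map ((FH.φ k w).comp C) := by
          ext t
          rw [coeff_add, coeff_X_pow, FH.pRc, coeff_map, at0_coeff]
          rcases lt_trichotomy t δ with h | h | h
          · rw [if_neg (by omega), if_pos h, FH.cR_inP v P₀ h, hP0 t h, zero_add]
            rfl
          · subst h
            have : P.coeff t = 1 := by rw [← hPd]; exact hP
            rw [if_pos rfl, if_neg (by omega), this]
            simp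
          · rw [if_neg (by omega), if_neg (by omega),
              coeff_eq_zero_of_natDegree_lt (by omega : P.natDegree < t)]
            simp
        simp only
        rw [e]
        exact hP0'
      · obtain ⟨s0, hs0⟩ := hU0
        refine ⟨s0.map ((FH.φ k w).comp C), ?_⟩
        simp only
        rw [FH.pR_inP]
        have h1 := congrArg (Polynomial.map ((FH.φ k w).comp C)) hs0
        rw [Polynomial.map_sub, Polynomial.map_mul, Polynomial.map_mul, Polynomial.map_one] at h1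
        set W := (∑ j ∈ range δ, monomial j (dv r v U₀ j)).map ((FH.φ k w).comp C) with hW
        have h2 : W * Q.map (FH.φ k w) - 1 - s0.map ((FH.φ k w).comp C) * P.map (FH.φ k w) =
            s0.map ((FH.φ k w).comp C) *
              ((at0 P).map ((FH.φ k w).comp C) - P.map (FH.φ k w)) -
            W * ((at0 Q).map ((FH.φ k w).comp C) - Q.map (FH.φ k w)) := by
          linear_combination h1
        rw [h2]
        obtain ⟨y1, hy1⟩ := hP0'
        obtain ⟨y2, hy2⟩ := hQ0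
        rw [hy1, hy2]
        exact ⟨s0.map ((FH.φ k w).comp C) * y1 - W * y2, by ring⟩
    have key := (FH.inv_loop dm rc hr hw
      (fun N δ P A => sdm K N w r δ q P A k v hv)
      (fun N A B => src K N w r q A B k v hv) n δ (FH.inF r w n f) hPm hQm hPd' hF
      (FH.φ k w X) _ h0 (Nat.log 2 w + 1)).1
    have hlt : w ≤ 2 ^ (Nat.log 2 w + 1) := (Nat.lt_pow_succ_log_self (by norm_num) w).le
    rw [FH.φ_X_pow hlt, C_0, zero_dvd_iff, sub_eq_zero] at key
    intro j hj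
    rw [← FH.cR_eq_iff]
    have h1 := congrArg (fun p => p.coeff j) key
    simp only [coeff_add, coeff_X_pow, FH.pRc, coeff_map, if_neg (show ¬ j = δ by omega),
      if_pos hj, zero_add] at h1
    exact h1

end Pool.Agent.AbsIrr
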