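import Mathlib
import Pool.Agent.Lib.MP_2adc98_lc.FDefs2
import Pool.Agent.Lib.MP_2adc98_lc.Basic

/-!
# MP_2adc98_lc, piece FHP (mathematical part): Kronecker substitution and comparison of arrays
with polynomials over an extension field
-/

set_option autoImplicit false

namespace Pool.Agent.AbsIrr.HM

open Finset Polynomial

section arr
variable {K : Type} [Field K] {k : Type} [Field k] [Algebra K k]

theorem tabF_lt (n : ℕ) (f : ℕ → K) {i : ℕ} (hi : i < n) : tabF n f i = f i := by
  unfold tabF
  rw [if_pos hi]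

theorem apol_coeff (n : ℕ) (a : ℕ → K) (i : ℕ) :
    (apol n a).coeff i = if i < n then a i else 0 := by
  unfold apol
  rw [finsetSum_coeff]
  simp only [coeff_monomial]
  rw [sum_ite_eq']
  simp only [mem_range]

theorem blk_coeff (w : ℕ) (A : ℕ → K) (c i : ℕ) :
    (blk w A c).coeff i = if i < w then A (c * w + i) else 0 := by
  unfold blk
  rw [finsetSum_coeff]
  simp only [coeff_monomial]
  rw [sum_ite_eq' (range w) i (fun i => A (c * w + i))]
  simp only [mem_range]

theorem gmon_eq (d : ℕ) (g : ℕ → K) : gmon d g = X ^ d + apol d g := rfl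

theorem apol_degree (d : ℕ) (g : ℕ → K) : (apol d g).degree < d := by
  rw [degree_lt_iff_coeff_zero]
  intro m hm
  rw [apol_coeff, if_neg (by omega)]

theorem gmon_monic (d : ℕ) (g : ℕ → K) : (gmon d g).Monic := by
  rw [gmon_eq]
  exact monic_X_pow_add (apol_degree d g)

theorem gmon_map {P : k[X]} (hP : P.Monic) {D : ℕ} (hD : P.natDegree = D) {g : ℕ → K}
    (h : ∀ i < D, algebraMap K k (g i) = P.coeff i) : (gmon D g).map (algebraMap K k) = P := by
  ext i
  rw [coeff_map, gmon_eq, coeff_add, coeff_X_pow, apol_coeff]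
  rcases lt_trichotomy i D with hi | hi | hi
  · rw [if_neg (by omega), if_pos hi, zero_add, h i hi]
  · rw [if_pos hi, if_neg (by omega), add_zero, map_one, hi, ← hD]
    exact hP.coeff_natDegree.symm
  · rw [if_neg (by omega), if_neg (by omega), add_zero, map_zero,
      coeff_eq_zero_of_natDegree_lt (by omega)]

theorem apol_map {P : k[X]} {D : ℕ} (hD : P.degree < D) {g : ℕ → K}
    (h : ∀ i < D, algebraMap K k (g i) = P.coeff i) : (apol D g).map (algebraMap K k) = P := by
  ext i
  rw [coeff_map, apol_coeff]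
  split_ifs with hi
  · exact h i hi
  · rw [map_zero]
    exact (coeff_eq_zero_of_degree_lt (hD.trans_le (by exact_mod_cast (not_lt.1 hi)))).symm

theorem blk_map {P : k[X]} {D : ℕ} (hD : P.degree < D) {g : ℕ → K}
    (h : ∀ i < D, algebraMap K k (g i) = P.coeff i) : (blk D g 0).map (algebraMap K k) = P := by
  ext i
  rw [coeff_map, blk_coeff]
  split_ifs with hi
  · rw [zero_mul, zero_add]
    exact h i hi
  · rw [map_zero]
    exact (coeff_eq_zero_of_degree_lt (hD.trans_le (by exact_mod_cast (not_lt.1 hi)))).symm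

/-- quotients by a monic polynomial -/
theorem quo_eq {P G : k[X]} {W D : ℕ} (hP : P.degree < W) (hG : G.Monic) (hGD : G.natDegree = D)
    {a g : ℕ → K} (ha : ∀ i < W, algebraMap K k (a i) = P.coeff i)
    (hg : ∀ i < D, algebraMap K k (g i) = G.coeff i) :
    ∀ i < W, algebraMap K k (divB 1 W D g a i) = (P /ₘ G).coeff i := by
  intro i hi
  unfold divB
  rw [one_mul, tabF_lt _ _ hi, Nat.div_eq_of_lt hi, Nat.mod_eq_of_lt hi, ← coeff_map,
    map_divByMonic _ (gmon_monic D g), blk_map hP ha, gmon_map hG hGD hg]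

theorem rem_eq {P G : k[X]} {W D : ℕ} (hP : P.degree < W) (hG : G.Monic) (hGD : G.natDegree = D)
    {a g : ℕ → K} (ha : ∀ i < W, algebraMap K k (a i) = P.coeff i)
    (hg : ∀ i < D, algebraMap K k (g i) = G.coeff i) :
    ∀ i < W, algebraMap K k (modB 1 W D g a i) = (P %ₘ G).coeff i := by
  intro i hi
  unfold modB
  rw [one_mul, tabF_lt _ _ hi, Nat.div_eq_of_lt hi, Nat.mod_eq_of_lt hi, ← coeff_map,
    map_modByMonic _ (gmon_monic D g), blk_map hP ha, gmon_map hG hGD hg]

/-- powers -/
theorem pws_eq {P : k[X]} {W m : ℕ} {a : ℕ → K}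
    (ha : ∀ i < W, algebraMap K k (a i) = P.coeff i) :
    ∀ i < W, algebraMap K k (pws W m a i) = (P ^ m).coeff i := by
  intro i hi
  unfold pws
  rw [tabF_lt _ _ hi]
  beta_reduce
  rw [← PowerSeries.coeff_map, map_pow]
  have h1 : (PowerSeries.X : PowerSeries k) ^ W ∣
      PowerSeries.map (algebraMap K k) (PowerSeries.mk a) - (P : PowerSeries k) := by
    rw [PowerSeries.X_pow_dvd_iff]
    intro j hj
    rw [map_sub, PowerSeries.coeff_map, PowerSeries.coeff_mk, ha j hj, coeff_coe, sub_self]
  have h2 := h1.trans (sub_dvd_pow_sub_pow _ _ m)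
  rw [PowerSeries.X_pow_dvd_iff] at h2
  have h3 := h2 i hi
  rw [map_sub, sub_eq_zero] at h3
  rw [h3, ← Polynomial.coe_pow, coeff_coe]

end arr

/-! ## Kronecker substitution -/

section kron
variable {k : Type} [Field k]

/-- the reversed polynomial with `x = Y`, `T = Y^M` -/
noncomputable def kr (M N : ℕ) (g : k[X][X]) : k[X] := (reflect N g).eval (X ^ M)

theorem kr_pow (M N m : ℕ) {g : k[X][X]} (hg : g.natDegree ≤ N) :
    kr M (m * N) (g ^ m) = kr M N g ^ m := by
  induction m with
  | zero => simp [kr]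
  | succ m ih =>
    rw [pow_succ, pow_succ, ← ih, kr, kr, kr, add_mul, one_mul, reflect_mul, eval_mul]
    · exact natDegree_pow_le_of_le m hg
    · exact hg

theorem kr_coeff {M N : ℕ} (hN : N < M) {g : k[X][X]} (hg : g.natDegree ≤ N) (hTD : TD N g)
    (i : ℕ) : (kr M N g).coeff i =
      if i / M ≤ N then (g.coeff (N - i / M)).coeff (i % M) else 0 := by
  have hM : 0 < M := by omega
  unfold kr
  have h0 : (reflect N g).natDegree < N + 1 := by
    rw [Nat.lt_succ_iff, natDegree_le_iff_coeff_eq_zero]
    intro j hj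
    rw [coeff_reflect, revAt_eq_self_of_lt hj]
    exact coeff_eq_zero_of_natDegree_lt (by omega)
  rw [eval_eq_sum_range' h0, finsetSum_coeff]
  have h1 : ∀ t ∈ range (N + 1), ((reflect N g).coeff t * (X ^ M) ^ t).coeff i =
      if t = i / M then (g.coeff (N - i / M)).coeff (i % M) else 0 := by
    intro t ht
    have ht' : t ≤ N := by have := mem_range.1 ht; omega
    rw [← pow_mul, coeff_mul_X_pow', coeff_reflect, revAt_le ht']
    have hdm := Nat.div_add_mod i M
    have hml := Nat.mod_lt i hM
    by_cases hti : t = i / M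
    · subst hti
      rw [if_pos (by omega), if_pos rfl]
      congr 1
      omega
    · rw [if_neg hti]
      split_ifs with hle
      · by_contra hne
        have h2 := (TD_iff.1 hTD) _ _ hne
        apply hti
        have h3 : i < M * t + M := by omega
        have h4 : t ≤ i / M := (Nat.le_div_iff_mul_le hM).2 (by linarith [Nat.mul_comm t M])
        have h5 : i / M < t + 1 := (Nat.div_lt_iff_lt_mul hM).2 (by nlinarith)
        omega
      · rfl
  rw [sum_congr rfl h1, sum_ite_eq' (range (N + 1)) (i / M)]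
  simp only [mem_range, Nat.lt_succ_iff]

end kron

end Pool.Agent.AbsIrr.HM
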