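import Mathlib
import Pool.Agent.Lib.MP_2adc98_lc.FDefs
import Pool.Agent.Lib.MP_2adc98_lc.BL
import Pool.Agent.Lib.MP_2adc98_lc.FME

/-!
# MP_2adc98_lc, piece FRT : `m`-th roots of power series, `p ∤ m` (helper64)
-/

set_option autoImplicit false

namespace Pool.Agent.AbsIrr

open Finset Polynomial

namespace FRT

/-! ## the `p`-adic valuation -/

/-- one round of the loop -/
def vstep (p : ℕ) (s : ℕ × ℕ) : ℕ × ℕ := if s.2 % p = 0 then (s.1 + 1, s.2 / p) else s

/-- `i` rounds -/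
def vloop (p m i : ℕ) : ℕ × ℕ := iterF (S := ℕ × ℕ) i (0, m) (fun s _ => vstep p s)

theorem vloop_le (p m i : ℕ) : (vloop p m i).1 ≤ i ∧ (vloop p m i).2 ≤ m := by
  induction i with
  | zero => exact ⟨le_rfl, le_rfl⟩
  | succ i ih =>
    have h : vloop p m (i + 1) = vstep p (vloop p m i) := rfl
    rw [h]
    unfold vstep
    split_ifs
    · exact ⟨Nat.succ_le_succ ih.1, (Nat.div_le_self _ _).trans ih.2⟩
    · exact ⟨ih.1.trans (Nat.le_succ i), ih.2⟩

theorem vloop_spec (p m : ℕ) (hm : 1 ≤ m) (i : ℕ) :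
    m = p ^ (vloop p m i).1 * (vloop p m i).2 ∧
      (p ∣ (vloop p m i).2 → (vloop p m i).1 = i) := by
  induction i with
  | zero => exact ⟨by simp [vloop], fun _ => rfl⟩
  | succ i ih =>
    have h : vloop p m (i + 1) = vstep p (vloop p m i) := rfl
    rw [h]
    obtain ⟨h1, h2⟩ := ih
    unfold vstep
    split_ifs with hd
    · have hd' : p ∣ (vloop p m i).2 := Nat.dvd_of_mod_eq_zero hd
      refine ⟨?_, fun _ => by rw [h2 hd']⟩
      conv_lhs => rw [h1]
      rw [pow_succ, mul_assoc, Nat.mul_div_cancel' hd']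
    · refine ⟨h1, fun h3 => ?_⟩
      exact absurd (Nat.mod_eq_zero_of_dvd h3) hd

theorem vloop_final (p m : ℕ) (hp : 2 ≤ p) (hm : 1 ≤ m) :
    m = p ^ (vloop p m m).1 * (vloop p m m).2 ∧ ¬ p ∣ (vloop p m m).2 := by
  obtain ⟨h1, h2⟩ := vloop_spec p m hm m
  refine ⟨h1, fun h3 => ?_⟩
  have h4 := h2 h3
  rw [h4] at h1
  have h5 : (vloop p m m).2 ≠ 0 := by
    intro h0
    rw [h0, mul_zero] at h1
    omega
  have h6 : p ^ m ≤ m := by
    conv_rhs => rw [h1]
    exact Nat.le_mul_of_pos_right _ (Nat.pos_of_ne_zero h5)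
  have h7 : 2 ^ m ≤ p ^ m := Nat.pow_le_pow_left hp m
  have h8 : m < 2 ^ m := Nat.lt_two_pow_self
  omega

theorem vloop_rlz : RlzQ (a := .prod .nat .nat) (b := .prod .nat .nat)
    (fun _ _ x => vloop x.1 x.2 x.2) (fun _ _ x => x.2) := by
  have hbody : RlzQ (a := .prod (.prod (.prod .nat .nat) (.prod .nat .nat)) .nat)
      (b := .prod .nat .nat) (fun _ _ x => vstep x.1.1.1 x.1.2) (fun _ _ _ => 0) := by
    have es : RlzQ (a := .prod (.prod (.prod .nat .nat) (.prod .nat .nat)) .nat)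
      (b := .prod .nat .nat) (fun _ _ x => x.1.2) (fun _ _ _ => 0) :=
      RlzQ.snd (RlzQ.fst RlzQ.input)
    have ep : RlzQ (a := .prod (.prod (.prod .nat .nat) (.prod .nat .nat)) .nat)
      (b := .nat) (fun _ _ x => x.1.1.1) (fun _ _ _ => 0) :=
      RlzQ.fst (RlzQ.fst (RlzQ.fst RlzQ.input))
    have h := RlzQ.iteEq (RlzQ.mod (RlzQ.snd es) ep) (RlzQ.lit 0)
      (RlzQ.pair (RlzQ.add (RlzQ.fst es) (RlzQ.lit 1)) (RlzQ.div (RlzQ.snd es) ep)) es
    exact (h.congr (fun K _ x => rfl)).mono 1 (fun K _ x => by simp)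
  have h := RlzQ.iterB (a := .prod .nat .nat) (b := .prod .nat .nat)
    (f := fun _ _ x s _ => vstep x.1 s) (RlzQ.snd RlzQ.input)
    (RlzQ.pair (RlzQ.lit 0) (RlzQ.snd RlzQ.input)) hbody 1 (fun K _ x i hi => by
      obtain ⟨h1, h2⟩ := vloop_le x.1 x.2 i
      rw [pow_one]
      have h3 : Ty.nmx K (.prod .nat .nat) (vloop x.1 x.2 i) ≤ x.2 := by
        simp only [Ty.nmx]
        exact max_le (h1.trans hi) h2
      refine h3.trans ?_
      omega)
  exact h.mono 1 (fun K _ x => by simp)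

/-! ## search for `t` with `m ∣ t q + 1` -/

/-- the last `t < n` with `m ∣ t q + 1` -/
def tfind (q m n : ℕ) : ℕ := iterF (S := ℕ) n 0 (fun s i => if (i * q + 1) % m = 0 then i else s)

theorem tfind_le (q m n : ℕ) : tfind q m n ≤ n := by
  induction n with
  | zero => exact le_rfl
  | succ n ih =>
    have h : tfind q m (n + 1) = if (n * q + 1) % m = 0 then n else tfind q m n := rfl
    rw [h]
    split_ifs <;> omega

theorem tfind_spec (q m n : ℕ) (h : ∃ i < n, (i * q + 1) % m = 0) :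
    (tfind q m n * q + 1) % m = 0 := by
  induction n with
  | zero =>
    obtain ⟨i, hi, _⟩ := h
    omega
  | succ n ih =>
    have h' : tfind q m (n + 1) = if (n * q + 1) % m = 0 then n else tfind q m n := rfl
    rw [h']
    split_ifs with h2
    · exact h2
    · obtain ⟨i, hi, h3⟩ := h
      refine ih ⟨i, ?_, h3⟩
      rcases Nat.lt_succ_iff_lt_or_eq.1 hi with h4 | h4
      · exact h4
      · rw [h4] at h3
        exact absurd h3 h2

theorem exists_t (q m : ℕ) (hm : 1 ≤ m) (h : Nat.Coprime q m) :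
    ∃ i < m, (i * q + 1) % m = 0 := by
  rcases Nat.eq_or_lt_of_le hm with h1 | h1
  · refine ⟨0, by omega, ?_⟩
    rw [← h1]
    exact Nat.mod_one _
  · obtain ⟨u, _, hu⟩ := Nat.exists_mul_mod_eq_one_of_coprime h h1
    refine ⟨(m - 1) * u % m, Nat.mod_lt _ (by omega), ?_⟩
    have h2 : q * u ≡ 1 [MOD m] := by
      unfold Nat.ModEq
      rw [hu, Nat.mod_eq_of_lt h1]
    have h3 : (m - 1) * u % m * q + 1 ≡ 0 [MOD m] := by
      calc (m - 1) * u % m * q + 1 ≡ (m - 1) * u * q + 1 [MOD m] :=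
            Nat.ModEq.add_right _ (Nat.ModEq.mul_right _ (Nat.mod_modEq _ _))
        _ = (m - 1) * (q * u) + 1 := by ring
        _ ≡ (m - 1) * 1 + 1 [MOD m] := Nat.ModEq.add_right _ (Nat.ModEq.mul_left _ h2)
        _ = m := by omega
        _ ≡ 0 [MOD m] := by simp [Nat.ModEq]
    simpa [Nat.ModEq] using h3

theorem tfind_rlz : RlzQ (a := .prod .nat .nat) (b := .nat)
    (fun _ _ x => tfind x.1 x.2 x.2) (fun _ _ x => x.2) := by
  have hbody : RlzQ (a := .prod (.prod (.prod .nat .nat) .nat) .nat) (b := .nat)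
      (fun _ _ x => if ((x.2 : ℕ) * (x.1.1.1 : ℕ) + 1) % (x.1.1.2 : ℕ) = 0 then (x.2 : ℕ)
        else (x.1.2 : ℕ)) (fun _ _ _ => 0) := by
    have ei : RlzQ (a := .prod (.prod (.prod .nat .nat) .nat) .nat) (b := .nat)
        (fun _ _ x => x.2) (fun _ _ _ => 0) := RlzQ.snd RlzQ.input
    have eq : RlzQ (a := .prod (.prod (.prod .nat .nat) .nat) .nat) (b := .nat)
        (fun _ _ x => x.1.1.1) (fun _ _ _ => 0) := RlzQ.fst (RlzQ.fst (RlzQ.fst RlzQ.input))
    have em : RlzQ (a := .prod (.prod (.prod .nat .nat) .nat) .nat) (b := .nat)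
        (fun _ _ x => x.1.1.2) (fun _ _ _ => 0) := RlzQ.snd (RlzQ.fst (RlzQ.fst RlzQ.input))
    have es : RlzQ (a := .prod (.prod (.prod .nat .nat) .nat) .nat) (b := .nat)
        (fun _ _ x => x.1.2) (fun _ _ _ => 0) := RlzQ.snd (RlzQ.fst RlzQ.input)
    have h := RlzQ.iteEq (RlzQ.mod (RlzQ.add (RlzQ.mul ei eq) (RlzQ.lit 1)) em) (RlzQ.lit 0)
      ei es
    exact (h.congr (fun K _ x => rfl)).mono 1 (fun K _ x => by simp)
  have h := RlzQ.iterB (a := .prod .nat .nat) (b := .nat)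
    (f := fun _ _ x s i => if ((i : ℕ) * (x.1 : ℕ) + 1) % (x.2 : ℕ) = 0 then (i : ℕ)
        else (s : ℕ)) (RlzQ.snd RlzQ.input) (RlzQ.lit 0) hbody 1 (fun K _ x i hi => by
      have h1 := tfind_le x.1 x.2 i
      rw [pow_one]
      have h3 : Ty.nmx K .nat (tfind x.1 x.2 i) ≤ x.2 := by
        simp only [Ty.nmx]
        exact h1.trans hi
      refine h3.trans ?_
      omega)
  exact h.mono 1 (fun K _ x => by simp)

/-! ## powers with a large exponent -/

section
variable {K : Type} [Field K]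

theorem conv_ser (n : ℕ) (p q : PowerSeries K) (u v : ℕ → K)
    (hu : ∀ i < n, u i = PowerSeries.coeff i p) (hv : ∀ i < n, v i = PowerSeries.coeff i q) :
    ∀ i < n, conv n u v i = PowerSeries.coeff i (p * q) := by
  intro i hi
  unfold conv tabF
  rw [if_pos hi]
  beta_reduce
  rw [PowerSeries.coeff_mul,
    Finset.Nat.sum_antidiagonal_eq_sum_range_succ (fun a b => PowerSeries.coeff a p *
      PowerSeries.coeff b q)]
  refine sum_congr rfl fun j hj => ?_
  have := mem_range.1 hj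
  rw [hu j (by omega), hv (i - j) (by omega)]

/-- the array `1, 0, 0, …` -/
def one (K : Type) [Field K] (n : ℕ) : ℕ → K := tabF n (fun i => if i = 0 then 1 else 0)

theorem one_ser (n : ℕ) : ∀ i < n, one K n i = PowerSeries.coeff i (1 : PowerSeries K) := by
  intro i hi
  unfold one tabF
  rw [if_pos hi, PowerSeries.coeff_one]

/-- one round of repeated squaring -/
def bstep (n : ℕ) (s : (ℕ → K) × ((ℕ → K) × ℕ)) : (ℕ → K) × ((ℕ → K) × ℕ) :=
  (if s.2.2 % 2 ≠ 0 then conv n s.1 s.2.1 else s.1, (conv n s.2.1 s.2.1, s.2.2 / 2))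

/-- `i` rounds of repeated squaring -/
def bpow (n e : ℕ) (a : ℕ → K) (i : ℕ) : (ℕ → K) × ((ℕ → K) × ℕ) :=
  iterF (S := (ℕ → K) × ((ℕ → K) × ℕ)) i (one K n, (a, e)) (fun s _ => bstep n s)

theorem bpow_inv (n e : ℕ) (a : ℕ → K) (i : ℕ) :
    (bpow n e a i).2.2 = e / 2 ^ i ∧ ∃ p q : PowerSeries K,
      (∀ j < n, (bpow n e a i).1 j = PowerSeries.coeff j p) ∧
      (∀ j < n, (bpow n e a i).2.1 j = PowerSeries.coeff j q) ∧
      p * q ^ (bpow n e a i).2.2 = PowerSeries.mk a ^ e := by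
  induction i with
  | zero =>
    refine ⟨by simp [bpow], 1, PowerSeries.mk a, one_ser n, fun j _ => ?_, ?_⟩
    · simp [bpow]
    · simp [bpow]
  | succ i ih =>
    obtain ⟨h1, p, q, h2, h3, h4⟩ := ih
    have hdiv : e / 2 ^ (i + 1) = e / 2 ^ i / 2 := by
      rw [pow_succ, Nat.div_div_eq_div_mul]
    have hst : bpow n e a (i + 1) = bstep n (bpow n e a i) := rfl
    rw [hst]
    unfold bstep
    set s := bpow n e a i with hs
    have hq := conv_ser n q q _ _ h3 h3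
    have hp := conv_ser n p q _ _ h2 h3
    refine ⟨by rw [hdiv, ← h1], if s.2.2 % 2 ≠ 0 then p * q else p, q * q, ?_, ?_, ?_⟩
    · by_cases hb : s.2.2 % 2 = 0
      · simp only [hb, ne_eq, not_true_eq_false, if_false]
        exact h2
      · simp only [ne_eq, hb, not_false_eq_true, if_true]
        exact hp
    · exact hq
    · rw [← h4]
      simp only
      by_cases hb : s.2.2 % 2 = 0
      · simp only [hb, ne_eq, not_true_eq_false, if_false]
        rw [← pow_two, ← pow_mul]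
        congr 2
        omega
      · simp only [ne_eq, hb, not_false_eq_true, if_true]
        rw [mul_assoc, ← pow_two, ← pow_mul, ← pow_succ']
        congr 2
        omega

theorem bpow_spec (n e : ℕ) (a : ℕ → K) (L : ℕ) (hL : e < 2 ^ L) :
    ∀ j < n, (bpow n e a L).1 j = PowerSeries.coeff j (PowerSeries.mk a ^ e) := by
  obtain ⟨h1, p, q, h2, _, h4⟩ := bpow_inv n e a L
  rw [h1, Nat.div_eq_of_lt hL, pow_zero, mul_one] at h4
  rw [← h4]
  exact h2

end

theorem one_rlz : RlzQ (a := .nat) (b := .arr) (fun K _ x => one K x) (fun _ _ x => x) := by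
  unfold one
  have hf : RlzQ (a := .prod .nat .nat) (b := .fld)
      (fun K _ x => if (x.2 : ℕ) = 0 then (1 : K) else (0 : K)) (fun _ _ _ => 0) :=
    (RlzQ.iteEq (RlzQ.snd RlzQ.input) (RlzQ.lit 0) RlzQ.one RlzQ.zero).mono 1
      (fun K _ x => by simp)
  have := RlzQ.tab (a := .nat) (N := fun _ _ x => x)
    (f := fun _K _ _ i => if (i : ℕ) = 0 then (1 : _K) else (0 : _K)) RlzQ.input hf
  exact this.mono 1 (fun K _ x => by simp)

/-! ## the parameters -/

/-- a power of `p` larger than `N` -/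
def qf (N p : ℕ) : ℕ := p ^ Nat.log p N * p

/-- the exponent -/
def ef (N p m : ℕ) : ℕ := (tfind (qf N p) m m * qf N p + 1) / m

/-- the number of rounds -/
def rf (N p : ℕ) : ℕ := Nat.log 2 (N + 1) + Nat.log 2 (p + 1) + 3

theorem pow_log_le (N p : ℕ) : p ^ Nat.log p N ≤ N + 1 := by
  rcases Nat.eq_zero_or_pos N with h | h
  · simp [h]
  · exact (Nat.pow_log_le_self p (Nat.pos_iff_ne_zero.1 h)).trans (Nat.le_succ N)

theorem qf_le (N p : ℕ) : qf N p ≤ (N + 1) * p := Nat.mul_le_mul_right _ (pow_log_le N p)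

theorem ef_le (N p m : ℕ) : ef N p m ≤ (N + 1) * (p + 1) := by
  unfold ef
  have h1 := tfind_le (qf N p) m m
  have h2 := qf_le N p
  rcases Nat.eq_zero_or_pos m with h | h
  · rw [h, Nat.div_zero]
    exact Nat.zero_le _
  · refine Nat.div_le_of_le_mul ?_
    have h3 : tfind (qf N p) m m * qf N p ≤ m * ((N + 1) * p) := Nat.mul_le_mul h1 h2
    nlinarith

theorem ef_lt (N p m : ℕ) : ef N p m < 2 ^ rf N p := by
  refine (ef_le N p m).trans_lt ?_
  unfold rf
  have h1 : N + 1 < 2 ^ (Nat.log 2 (N + 1) + 1) := Nat.lt_pow_succ_log_self (by norm_num) _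
  have h2 : p + 1 < 2 ^ (Nat.log 2 (p + 1) + 1) := Nat.lt_pow_succ_log_self (by norm_num) _
  have h3 : 2 ^ (Nat.log 2 (N + 1) + Nat.log 2 (p + 1) + 3) =
      2 ^ (Nat.log 2 (N + 1) + 1) * 2 ^ (Nat.log 2 (p + 1) + 1) * 2 := by
    rw [← pow_add, ← pow_succ]
    congr 1
    omega
  rw [h3]
  have h4 : (N + 1) * (p + 1) < 2 ^ (Nat.log 2 (N + 1) + 1) * 2 ^ (Nat.log 2 (p + 1) + 1) :=
    Nat.mul_lt_mul_of_lt_of_lt h1 h2
  omega

/-- the input type -/
abbrev In : Ty := .prod .nat (.prod .nat (.prod .nat .arr))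

theorem qf_rlz : RlzQ (a := In) (b := .nat) (fun _ _ x => qf x.1 x.2.1)
    (fun _ _ x => x.1) := by
  have eN : RlzQ (a := In) (b := .nat) (fun _ _ x => x.1) (fun _ _ _ => 0) :=
    RlzQ.fst RlzQ.input
  have ep : RlzQ (a := In) (b := .nat) (fun _ _ x => x.2.1) (fun _ _ _ => 0) :=
    RlzQ.fst (RlzQ.snd RlzQ.input)
  refine (RlzQ.mul (RlzQ.npow ep (RlzQ.nlog ep eN)) ep).mono 3 (fun K _ x => ?_)
  have h1 := pow_log_le x.1 x.2.1
  have h2 := Nat.log_le_self x.2.1 x.1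
  omega

theorem ef_rlz : RlzQ (a := In) (b := .nat) (fun _ _ x => ef x.1 x.2.1 x.2.2.1)
    (fun _ _ x => x.1 + x.2.2.1) := by
  have em : RlzQ (a := In) (b := .nat) (fun _ _ x => x.2.2.1) (fun _ _ _ => 0) :=
    RlzQ.fst (RlzQ.snd (RlzQ.snd RlzQ.input))
  refine (RlzQ.div (RlzQ.add (RlzQ.mul (RlzQ.comp tfind_rlz (RlzQ.pair qf_rlz em)) qf_rlz)
    (RlzQ.lit 1)) em).mono 2 (fun K _ x => ?_)
  dsimp only
  omega

theorem rf_rlz : RlzQ (a := In) (b := .nat) (fun _ _ x => rf x.1 x.2.1)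
    (fun _ _ x => x.1 + x.2.1) := by
  have eN : RlzQ (a := In) (b := .nat) (fun _ _ x => x.1) (fun _ _ _ => 0) :=
    RlzQ.fst RlzQ.input
  have ep : RlzQ (a := In) (b := .nat) (fun _ _ x => x.2.1) (fun _ _ _ => 0) :=
    RlzQ.fst (RlzQ.snd RlzQ.input)
  refine (RlzQ.add (RlzQ.add (RlzQ.nlog (RlzQ.lit 2) (RlzQ.add eN (RlzQ.lit 1)))
    (RlzQ.nlog (RlzQ.lit 2) (RlzQ.add ep (RlzQ.lit 1)))) (RlzQ.lit 3)).mono 2
    (fun K _ x => ?_)
  omega

/-- the whole routine -/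
def root {K : Type} [Field K] (N p m : ℕ) (A : ℕ → K) : ℕ → K :=
  (bpow N (ef N p m) A (rf N p)).1

theorem Phi_cost (N p m : ℕ) :
    N + p + (N + m) + rf N p + rf N p * N ≤ 10 * Phi 10 (N + p + m) := by
  have h0 : Phi 1 (N + p + m) ≤ Phi 10 (N + p + m) := Phi_mono (by omega) le_rfl
  have h1 : Phi 1 (N + p + m) = (N + p + m + 1) * (Nat.log 2 (N + p + m + 1) + 1) := by
    unfold Phi
    rw [pow_one]
  have h2 : Nat.log 2 (N + 1) ≤ Nat.log 2 (N + p + m + 1) := Nat.log_mono_right (by omega)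
  have h3 : Nat.log 2 (p + 1) ≤ Nat.log 2 (N + p + m + 1) := Nat.log_mono_right (by omega)
  have h4 : rf N p ≤ 3 * (Nat.log 2 (N + p + m + 1) + 1) := by
    unfold rf
    omega
  generalize Nat.log 2 (N + p + m + 1) = L at h1 h4
  have h5 : rf N p * (N + 1) ≤ 3 * (L + 1) * (N + p + m + 1) :=
    Nat.mul_le_mul h4 (by omega)
  have h6 : N + p + m + 1 ≤ (N + p + m + 1) * (L + 1) := Nat.le_mul_of_pos_right _ (by omega)
  nlinarith

theorem root_rlz : RlzQ (a := In) (b := .arr) (fun _ _ x => root x.1 x.2.1 x.2.2.1 x.2.2.2)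
    (fun _ _ x => x.1 + x.2.1 + x.2.2.1) := by
  have hbody : RlzQ (a := .prod (.prod In (.prod .arr (.prod .arr .nat))) .nat)
      (b := .prod .arr (.prod .arr .nat))
      (fun K _ x => bstep (K := K) x.1.1.1 x.1.2) (fun _ _ x => x.1.1.1) := by
    have eN : RlzQ (a := .prod (.prod In (.prod .arr (.prod .arr .nat))) .nat) (b := .nat)
        (fun _ _ x => x.1.1.1) (fun _ _ _ => 0) := RlzQ.fst (RlzQ.fst (RlzQ.fst RlzQ.input))
    have es : RlzQ (a := .prod (.prod In (.prod .arr (.prod .arr .nat))) .nat)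
        (b := .prod .arr (.prod .arr .nat)) (fun _ _ x => x.1.2) (fun _ _ _ => 0) :=
      RlzQ.snd (RlzQ.fst RlzQ.input)
    refine RlzQ.mono ((RlzQ.pair (RlzQ.iteNat (RlzQ.mod (RlzQ.snd (RlzQ.snd es)) (RlzQ.lit 2))
      (RlzQ.conv eN (RlzQ.fst es) (RlzQ.fst (RlzQ.snd es))) (RlzQ.fst es))
      (RlzQ.pair (RlzQ.conv eN (RlzQ.fst (RlzQ.snd es)) (RlzQ.fst (RlzQ.snd es)))
        (RlzQ.div (RlzQ.snd (RlzQ.snd es)) (RlzQ.lit 2)))).congr (fun K _ x => rfl))
      2 (fun K _ x => ?_)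
    split_ifs <;> omega
  have hinit : RlzQ (a := In) (b := .prod .arr (.prod .arr .nat))
      (fun K _ x => (one K x.1, (x.2.2.2, ef x.1 x.2.1 x.2.2.1)))
      (fun _ _ x => x.1 + x.2.2.1) :=
    RlzQ.mono (RlzQ.pair (RlzQ.comp one_rlz (RlzQ.fst RlzQ.input))
      (RlzQ.pair (RlzQ.snd (RlzQ.snd (RlzQ.snd RlzQ.input))) ef_rlz)) 2
      (fun K _ x => by omega)
  have hloop := RlzQ.iterB (a := In) (b := .prod .arr (.prod .arr .nat))
    (f := fun K _ x s _ => bstep (K := K) x.1 s) rf_rlz hinit hbody 2 (fun K _ x i hi => by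
      have h1 := (bpow_inv x.1 (ef x.1 x.2.1 x.2.2.1) x.2.2.2 i).1
      have h2 : (bpow x.1 (ef x.1 x.2.1 x.2.2.1) x.2.2.2 i).2.2 ≤ (x.1 + 1) * (x.2.1 + 1) := by
        rw [h1]
        exact (Nat.div_le_self _ _).trans (ef_le _ _ _)
      have h3 : (Ty.prod .arr (.prod .arr .nat)).nmx K
          (bpow x.1 (ef x.1 x.2.1 x.2.2.1) x.2.2.2 i) ≤ (x.1 + 1) * (x.2.1 + 1) := by
        simp only [Ty.nmx, Nat.zero_max]
        exact h2
      refine h3.trans ?_
      rw [pow_two]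
      refine Nat.mul_le_mul ?_ ?_
      · dsimp only; omega
      · dsimp only; omega)
  refine RlzQ.congr ((RlzQ.fst hloop).mono' 10 (fun K _ x => ?_)) (fun K _ x => rfl)
  have h1 : ∑ _i ∈ range (rf x.1 x.2.1), x.1 = rf x.1 x.2.1 * x.1 := by simp
  have h2 := Phi_cost x.1 x.2.1 x.2.2.1
  dsimp only
  rw [h1]
  exact h2

/-! ## the specification -/

theorem qf_eq (N p : ℕ) : qf N p = p ^ (Nat.log p N + 1) := by
  unfold qf
  rw [pow_succ]

theorem le_qf (N p : ℕ) (hp : 2 ≤ p) : N ≤ p ^ (Nat.log p N + 1) :=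
  (Nat.lt_pow_succ_log_self (by omega) N).le

theorem ef_mul (N p m : ℕ) (hp : p.Prime) (hm : ¬ p ∣ m) :
    m * ef N p m = tfind (qf N p) m m * qf N p + 1 := by
  have hm1 : 1 ≤ m := by
    rcases Nat.eq_zero_or_pos m with h | h
    · rw [h] at hm
      exact absurd (dvd_zero p) hm
    · exact h
  have hc : Nat.Coprime (qf N p) m := by
    rw [qf_eq]
    exact Nat.Coprime.pow_left _ ((Nat.Prime.coprime_iff_not_dvd hp).2 hm)
  have h1 := tfind_spec (qf N p) m m (exists_t _ m hm1 hc)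
  unfold ef
  exact Nat.mul_div_cancel' (Nat.dvd_of_mod_eq_zero h1)

theorem root_math {k : Type} [Field k] (p : ℕ) [Fact p.Prime] [CharP k p] (N s : ℕ)
    (hN : N ≤ p ^ s) (B : PowerSeries k) (hB : PowerSeries.constantCoeff B = 1) (t : ℕ) :
    (PowerSeries.X : PowerSeries k) ^ N ∣ B ^ (t * p ^ s + 1) - B := by
  have : CharP (PowerSeries k) p :=
    charP_of_injective_ringHom (f := (PowerSeries.C : k →+* PowerSeries k))
      PowerSeries.C_injective p
  have h1 : B ^ (t * p ^ s + 1) - B = B * ((B ^ p ^ s) ^ t - 1 ^ t) := by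
    rw [one_pow, ← pow_mul, mul_comm (p ^ s) t, pow_succ]
    ring
  have h2 : B ^ p ^ s - 1 = (B - 1) ^ p ^ s := by
    rw [sub_pow_char_pow, one_pow]
  have h3 : (PowerSeries.X : PowerSeries k) ∣ B - 1 := by
    rw [PowerSeries.X_dvd_iff, map_sub, hB, map_one, sub_self]
  rw [h1]
  refine Dvd.dvd.mul_left (Dvd.dvd.trans ?_ (sub_dvd_pow_sub_pow (B ^ p ^ s) 1 t)) B
  rw [h2]
  exact (pow_dvd_pow _ hN).trans (pow_dvd_pow_of_dvd h3 _)

theorem root_spec (K : Type) [Field K] (N p m : ℕ) [CharP K p] [Fact p.Prime] (A : ℕ → K)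
    (k : Type) [Field k] [Algebra K k] (B : PowerSeries k) (hm : ¬ p ∣ m)
    (hB : PowerSeries.constantCoeff B = 1)
    (hA : ∀ i < N, algebraMap K k (A i) = PowerSeries.coeff i (B ^ m)) :
    ∀ i < N, algebraMap K k (root N p m A i) = PowerSeries.coeff i B := by
  intro i hi
  have hp : p.Prime := Fact.out
  have : CharP k p := charP_of_injective_algebraMap (algebraMap K k).injective p
  unfold root
  rw [bpow_spec N (ef N p m) A (rf N p) (ef_lt N p m) i hi, ← PowerSeries.coeff_map, map_pow]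
  have h1 : (PowerSeries.X : PowerSeries k) ^ N ∣
      PowerSeries.map (algebraMap K k) (PowerSeries.mk A) - B ^ m := by
    rw [PowerSeries.X_pow_dvd_iff]
    intro j hj
    rw [map_sub, PowerSeries.coeff_map, PowerSeries.coeff_mk, hA j hj, sub_self]
  have h2 : (PowerSeries.X : PowerSeries k) ^ N ∣
      PowerSeries.map (algebraMap K k) (PowerSeries.mk A) ^ ef N p m - (B ^ m) ^ ef N p m :=
    h1.trans (sub_dvd_pow_sub_pow _ _ _)
  have h3 := root_math p N (Nat.log p N + 1) (le_qf N p hp.two_le) B hB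
    (tfind (qf N p) m m)
  rw [← pow_mul, ef_mul N p m hp hm, ← qf_eq] at *
  have h4 := dvd_add h2 h3
  rw [sub_add_sub_cancel, PowerSeries.X_pow_dvd_iff] at h4
  have h5 := h4 i hi
  rw [map_sub, sub_eq_zero] at h5
  exact h5

end FRT

theorem nthroot_rlz : ∃ F : Fam (.prod .nat (.prod .nat (.prod .nat .arr))) .arr,
    RlzQ F (fun _ _ x => x.1 + x.2.1 + x.2.2.1) ∧
    ∀ (K : Type) [Field K] (N p m : ℕ) [CharP K p] [Fact p.Prime] (A : ℕ → K) (k : Type)
      [Field k] [Algebra K k] (B : PowerSeries k), ¬ p ∣ m →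
      PowerSeries.constantCoeff B = 1 →
      (∀ i < N, algebraMap K k (A i) = PowerSeries.coeff i (B ^ m)) →
      ∀ i < N, algebraMap K k (F K (N, (p, (m, A))) i) = PowerSeries.coeff i B :=
  ⟨fun _ _ x => FRT.root x.1 x.2.1 x.2.2.1 x.2.2.2, FRT.root_rlz,
    fun K _ N p m _ _ A k _ _ B hm hB hA i hi => FRT.root_spec K N p m A k B hm hB hA i hi⟩

/-- `m = p^e m'`: the numbers `e`, `m'` -/
theorem padic_rlz : ∃ F : Fam (.prod .nat .nat) (.prod .nat .nat),
    RlzQ F (fun _ _ x => x.2) ∧ ∀ (K : Type) [Field K] (p m : ℕ), p.Prime → 1 ≤ m →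
      m = p ^ (F K (p, m)).1 * (F K (p, m)).2 ∧ ¬ p ∣ (F K (p, m)).2 :=
  ⟨fun _ _ x => FRT.vloop x.1 x.2 x.2, FRT.vloop_rlz,
    fun _ _ p m hp hm => FRT.vloop_final p m hp.two_le hm⟩

end Pool.Agent.AbsIrr
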