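import Mathlib
import Pool.Agent.Lib.MP_2adc98_lc.FDefs2
import Pool.Agent.Lib.MP_2adc98_lc.FRT
import Pool.Agent.Lib.MP_2adc98_lc.BL

/-!
# MP_2adc98_lc, stage 2, piece FMR: `m`-th roots of power series
-/

set_option autoImplicit false

namespace Pool.Agent.AbsIrr

open Finset Polynomial

/-! ### powers of power series in characteristic `p` -/

private theorem mr_coeff_pow {k : Type} [Field k] {p : ℕ} [CharP k p] [Fact p.Prime]
    (e : ℕ) (D : PowerSeries k) (i : ℕ) :
    PowerSeries.coeff (p ^ e * i) (D ^ p ^ e) = (PowerSeries.coeff i D) ^ p ^ e := by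
  have hp : 0 < p ^ e := pow_pos (Fact.out : p.Prime).pos e
  have : CharP (PowerSeries k) p :=
    charP_of_injective_algebraMap (algebraMap k (PowerSeries k)).injective p
  have : ExpChar (PowerSeries k) p := ExpChar.prime (Fact.out : p.Prime)
  have : ExpChar k p := ExpChar.prime (Fact.out : p.Prime)
  have h1 := PowerSeries.eq_shift_mul_X_pow_add_trunc (i + 1) D
  set S : PowerSeries k := PowerSeries.mk fun j => PowerSeries.coeff (j + (i + 1)) D with hS
  set T : Polynomial k := PowerSeries.trunc (i + 1) D with hT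
  have h2 : D ^ p ^ e = (S * PowerSeries.X ^ (i + 1)) ^ p ^ e + ((T ^ p ^ e : Polynomial k) : PowerSeries k) := by
    conv_lhs => rw [h1]
    rw [add_pow_expChar_pow, Polynomial.coe_pow]
  have h3 : PowerSeries.coeff (p ^ e * i) ((S * PowerSeries.X ^ (i + 1)) ^ p ^ e) = 0 := by
    have h4 : (PowerSeries.X : PowerSeries k) ^ ((i + 1) * p ^ e) ∣
        (S * PowerSeries.X ^ (i + 1)) ^ p ^ e := by
      rw [mul_pow, ← pow_mul]
      exact Dvd.intro_left _ rfl
    exact PowerSeries.X_pow_dvd_iff.1 h4 _ (by nlinarith)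
  rw [h2, map_add, h3, zero_add, Polynomial.coeff_coe, ← Polynomial.map_iterateFrobenius_expand,
    Polynomial.coeff_map, Polynomial.coeff_expand_mul' hp, hT, PowerSeries.coeff_trunc,
    if_pos (Nat.lt_succ_self i), iterateFrobenius_def]

/-! ### the routine -/

/-- the data `(e, m')`, guarded -/
private noncomputable def mrPad (P : Fam (.prod .nat .nat) (.prod .nat .nat)) :
    Fam (.prod .nat (.prod .nat (.prod .nat .arr))) (.prod .nat (.prod .nat .nat)) :=
  fun K _ x =>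
    (if (P K (x.2.1, x.2.2.1)).1 ≤ Nat.log 2 x.2.2.1 then (P K (x.2.1, x.2.2.1)).1 else 0,
      (if (P K (x.2.1, x.2.2.1)).2 ≤ x.2.2.1 then (P K (x.2.1, x.2.2.1)).2 else 0,
        x.2.2.1 / (P K (x.2.1, x.2.2.1)).2))

private theorem mrPad_rlz {P : Fam (.prod .nat .nat) (.prod .nat .nat)}
    (hP : RlzQ P (fun _ _ x => x.2)) : RlzQ (mrPad P) (fun _ _ x => x.2.2.1) := by
  have hp : RlzQ (a := .prod .nat (.prod .nat (.prod .nat .arr))) (b := .nat)
      (fun _ _ x => x.2.1) (fun _ _ _ => 0) := RlzQ.fst (RlzQ.snd RlzQ.input)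
  have hm : RlzQ (a := .prod .nat (.prod .nat (.prod .nat .arr))) (b := .nat)
      (fun _ _ x => x.2.2.1) (fun _ _ _ => 0) := RlzQ.fst (RlzQ.snd (RlzQ.snd RlzQ.input))
  have he : RlzQ (a := .prod .nat (.prod .nat (.prod .nat .arr))) (b := .prod .nat .nat)
      (fun K _ x => P K (x.2.1, x.2.2.1)) (fun _ _ x => x.2.2.1) :=
    (RlzQ.comp hP (RlzQ.pair hp hm)).mono 1 (fun K _ x => by simp)
  have h1 : RlzQ (a := .prod .nat (.prod .nat (.prod .nat .arr))) (b := .nat)
      (fun K _ x => if (P K (x.2.1, x.2.2.1)).1 ≤ Nat.log 2 x.2.2.1 then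
        (P K (x.2.1, x.2.2.1)).1 else 0) (fun _ _ x => x.2.2.1) :=
    (RlzQ.iteLe (RlzQ.fst he) (RlzQ.nlog (RlzQ.lit 2) hm) (RlzQ.fst he) (RlzQ.lit 0)).mono 3
      (fun K _ x => by split_ifs <;> omega)
  have h2 : RlzQ (a := .prod .nat (.prod .nat (.prod .nat .arr))) (b := .nat)
      (fun K _ x => if (P K (x.2.1, x.2.2.1)).2 ≤ x.2.2.1 then
        (P K (x.2.1, x.2.2.1)).2 else 0) (fun _ _ x => x.2.2.1) :=
    (RlzQ.iteLe (RlzQ.snd he) hm (RlzQ.snd he) (RlzQ.lit 0)).mono 3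
      (fun K _ x => by split_ifs <;> omega)
  have h3 : RlzQ (a := .prod .nat (.prod .nat (.prod .nat .arr))) (b := .nat)
      (fun K _ x => x.2.2.1 / (P K (x.2.1, x.2.2.1)).2) (fun _ _ x => x.2.2.1) :=
    (RlzQ.div hm (RlzQ.snd he)).mono 1 (fun K _ x => by omega)
  exact (RlzQ.pair h1 (RlzQ.pair h2 h3)).mono 3 (fun K _ x => by omega)

/-- the main part; input `((N, (p, (m, A))), (e, (m', pe)))` -/
private noncomputable def mrMain (F : Fam (.prod .nat (.prod .nat (.prod .nat .arr))) .arr) :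
    Fam (.prod (.prod .nat (.prod .nat (.prod .nat .arr))) (.prod .nat (.prod .nat .nat))) .arr :=
  fun K _ x => F K (x.1.1, (x.1.2.1, (x.2.2.1,
    rootT x.1.1 x.2.1 (tabF x.1.1 (fun i => (x.1.2.2.2 (x.2.2.2 * i) : K))))))

private theorem mrMain_rlz {F : Fam (.prod .nat (.prod .nat (.prod .nat .arr))) .arr}
    (hF : RlzQ F (fun _ _ x => x.1 + x.2.1 + x.2.2.1)) :
    RzQ (mrMain F) (fun _ _ x => x.1.1 * (x.2.1 + 1) + x.1.2.1 + x.2.2.1) := by
  have hN : RlzQ (a := .prod (.prod .nat (.prod .nat (.prod .nat .arr)))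
      (.prod .nat (.prod .nat .nat))) (b := .nat) (fun _ _ x => x.1.1) (fun _ _ _ => 0) :=
    RlzQ.fst (RlzQ.fst RlzQ.input)
  have hp : RlzQ (a := .prod (.prod .nat (.prod .nat (.prod .nat .arr)))
      (.prod .nat (.prod .nat .nat))) (b := .nat) (fun _ _ x => x.1.2.1) (fun _ _ _ => 0) :=
    RlzQ.fst (RlzQ.snd (RlzQ.fst RlzQ.input))
  have he : RlzQ (a := .prod (.prod .nat (.prod .nat (.prod .nat .arr)))
      (.prod .nat (.prod .nat .nat))) (b := .nat) (fun _ _ x => x.2.1) (fun _ _ _ => 0) :=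
    RlzQ.fst (RlzQ.snd RlzQ.input)
  have hm : RlzQ (a := .prod (.prod .nat (.prod .nat (.prod .nat .arr)))
      (.prod .nat (.prod .nat .nat))) (b := .nat) (fun _ _ x => x.2.2.1) (fun _ _ _ => 0) :=
    RlzQ.fst (RlzQ.snd (RlzQ.snd RlzQ.input))
  have hg : RlzQ (a := .prod (.prod (.prod .nat (.prod .nat (.prod .nat .arr)))
      (.prod .nat (.prod .nat .nat))) .nat) (b := .fld)
      (fun K _ x => (x.1.1.2.2.2 (x.1.2.2.2 * x.2) : K)) (fun _ _ _ => 0) :=
    (RlzQ.get (RlzQ.snd (RlzQ.snd (RlzQ.snd (RlzQ.fst (RlzQ.fst RlzQ.input)))))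
      (RlzQ.mul (RlzQ.snd (RlzQ.snd (RlzQ.snd (RlzQ.fst RlzQ.input))))
        (RlzQ.snd RlzQ.input))).mono 1 (fun K _ x => by simp)
  have ht : RlzQ (a := .prod (.prod .nat (.prod .nat (.prod .nat .arr)))
      (.prod .nat (.prod .nat .nat))) (b := .arr)
      (fun K _ x => tabF x.1.1 (fun i => (x.1.2.2.2 (x.2.2.2 * i) : K)))
      (fun _ _ x => x.1.1) :=
    (RlzQ.tab (a := .prod (.prod .nat (.prod .nat (.prod .nat .arr)))
      (.prod .nat (.prod .nat .nat))) (f := fun K _ x i => (x.1.2.2.2 (x.2.2.2 * i) : K))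
      hN hg).mono 1
      (fun K _ x => by simp)
  have hr := RzQ.rootT (RzQ.of hN) (RzQ.of he) (RzQ.of ht)
  have hall := RzQ.comp (RzQ.of hF) (RzQ.pair (RzQ.of hN) (RzQ.pair (RzQ.of hp)
    (RzQ.pair (RzQ.of hm) hr)))
  exact hall.mono 3 (fun K _ x => by
    dsimp only
    nlinarith)

private theorem mr_cost (a b c e m' : ℕ) (h1 : e ≤ Nat.log 2 c) (h2 : m' ≤ c) :
    c + (a * (e + 1) + b + m') ≤ 3 * Phi 3 (a + b + c) := by
  have h3 : Nat.log 2 c ≤ Nat.log 2 (a + b + c + 1) := Nat.log_mono_right (by omega)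
  have h4 : a * (e + 1) ≤ Phi 1 (a + b + c) := by
    unfold Phi
    rw [pow_one]
    exact Nat.mul_le_mul (by omega) (by omega)
  have h5 : Phi 1 (a + b + c) ≤ Phi 3 (a + b + c) := Phi_mono (by omega) le_rfl
  have h6 := le_Phi 3 (a + b + c)
  omega

theorem mroot_rlz : ∃ F : Fam (.prod .nat (.prod .nat (.prod .nat .arr))) .arr,
    RzQ F (fun _ _ x => x.1 + x.2.1 + x.2.2.1) ∧
    ∀ (K : Type) [Field K] (N p m : ℕ) [CharP K p] [Fact p.Prime] [PerfectRing K p] (A : ℕ → K)
      (k : Type) [Field k] [Algebra K k] (B : PowerSeries k), 1 ≤ m →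
      PowerSeries.constantCoeff B = 1 →
      (∀ i, algebraMap K k (A i) = PowerSeries.coeff i (B ^ m)) →
      ∀ i < N, algebraMap K k (F K (N, (p, (m, A))) i) = PowerSeries.coeff i B := by
  obtain ⟨P, hP, hPs⟩ := padic_rlz
  obtain ⟨F, hF, hFs⟩ := nthroot_rlz
  refine ⟨fun K _ x => mrMain F K (x, mrPad P K x), ?_, ?_⟩
  · refine (RzQ.letIn (mrMain_rlz hF) (RzQ.of (mrPad_rlz hP))).mono' 3 (fun K _ x => ?_)
    dsimp only
    have h1 : ((mrPad P K x).1 : ℕ) ≤ (Nat.log 2 x.2.2.1 : ℕ) := by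
      unfold mrPad
      dsimp only
      split_ifs with h
      · exact h
      · exact Nat.zero_le _
    have h2 : ((mrPad P K x).2.1 : ℕ) ≤ (x.2.2.1 : ℕ) := by
      unfold mrPad
      dsimp only
      split_ifs with h
      · exact h
      · exact Nat.zero_le _
    exact mr_cost _ _ _ _ _ h1 h2
  · intro K _ N p m _ _ _ A k _ _ B hm hB hA i hi
    have hp : p.Prime := Fact.out
    obtain ⟨e1, e2⟩ := hPs K p m hp hm
    set e := (P K (p, m)).1 with he
    set m' := (P K (p, m)).2 with hm'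
    have hm'0 : 1 ≤ m' := by
      rcases Nat.eq_zero_or_pos m' with h | h
      · rw [h] at e2; exact absurd (dvd_zero p) e2
      · exact h
    have hpe : 0 < p ^ e := pow_pos hp.pos e
    have hm'le : m' ≤ m := by
      rw [e1]; exact Nat.le_mul_of_pos_left _ hpe
    have hele : e ≤ Nat.log 2 m := by
      have h1 : 2 ^ e ≤ m := by
        calc 2 ^ e ≤ p ^ e := Nat.pow_le_pow_left hp.two_le e
          _ ≤ m := by rw [e1]; exact Nat.le_mul_of_pos_right _ hm'0
      exact Nat.le_log_of_pow_le (by norm_num) h1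
    have hdiv : m / m' = p ^ e := by
      conv_lhs => rw [e1]
      exact Nat.mul_div_cancel _ hm'0
    have hpad : mrPad P K (N, (p, (m, A))) = (e, (m', p ^ e)) := by
      unfold mrPad
      dsimp only
      rw [← he, ← hm', if_pos hele, if_pos hm'le, hdiv]
    change algebraMap K k (mrMain F K ((N, (p, (m, A))), mrPad P K (N, (p, (m, A)))) i) = _
    rw [hpad]
    unfold mrMain
    dsimp only
    have : CharP k p := charP_of_injective_algebraMap (algebraMap K k).injective p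
    have : ExpChar k p := ExpChar.prime hp
    refine hFs K N p m' _ k B e2 hB ?_ i hi
    intro j hj
    have h1 : rootT N e (tabF N fun i => A (p ^ e * i)) j = prt^[e] (A (p ^ e * j)) := by
      unfold rootT
      simp only [tabF, if_pos hj]
    rw [h1]
    have h2 : (algebraMap K k (prt^[e] (A (p ^ e * j)))) ^ p ^ e =
        (PowerSeries.coeff j (B ^ m')) ^ p ^ e := by
      rw [← map_pow, prt_iterate_pow, hA, ← mr_coeff_pow, ← pow_mul, mul_comm m' (p ^ e), ← e1]
    exact iterateFrobenius_inj k p e h2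

end Pool.Agent.AbsIrr
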