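import Mathlib
import Pool.Agent.Lib.MP_2adc98_lc.FHPm
import Pool.Agent.Lib.MP_2adc98_lc.SER
import Pool.Agent.Lib.MP_2adc98_lc.FA
import Pool.Agent.Lib.MP_2adc98_lc.FN
import Pool.Agent.Lib.MP_2adc98_lc.FH
import Pool.Agent.Lib.MP_2adc98_lc.FMR

/-!
# MP_2adc98_lc, piece FHP: the part of multiplicity `m` (Hensel lifting and `m`-th root)
-/

set_option autoImplicit false

namespace Pool.Agent.AbsIrr.HM

open Finset Polynomial

/-- the input `(d, (p, (m, (f, rho))))` -/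
abbrev In : Ty := .prod .nat (.prod .nat (.prod .nat (.prod .arr .arr)))

theorem adeg_le {K : Type} [Field K] (n : ℕ) (a : ℕ → K) : adeg n a ≤ n := by
  classical
  unfold adeg
  refine Finset.sup_le fun i hi => ?_
  have := mem_range.1 (mem_filter.1 hi).1
  simp only [id]
  omega

/-! ## tables -/

/-- `(d, f) ↦` the coefficients of `f(0, y)` -/
def tF0 : Fam (.prod .nat .arr) .arr := fun _ _ y => tabF (y.1 + 1) (fun j => y.2 (j * (y.1 + 1)))

/-- `(e, H) ↦` the Kronecker substitution of the reversed polynomial -/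
def tKr : Fam (.prod .nat .arr) .arr := fun _ _ y =>
  tabF ((y.1 + 1) * (y.1 + 1)) (fun i => if i = 0 then 1 else
    if i < y.1 + 1 then 0 else y.2 ((y.1 - i / (y.1 + 1)) * (y.1 + 1) + i % (y.1 + 1)))

/-- `(n, (e, R)) ↦` the polynomial -/
def tFin : Fam (.prod .nat (.prod .nat .arr)) .arr := fun _ _ y =>
  tabF ((y.1 + 1) * (y.1 + 1)) (fun i => y.2.2 ((y.1 - i / (y.1 + 1)) * (y.2.1 + 1) +
    i % (y.1 + 1)))

def tZero (K : Type) [Field K] : ℕ → K := tabF 0 (fun _ => 0)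

theorem tF0_rlz : RlzQ tF0 (fun _ _ y => y.1) := by
  unfold tF0
  apply RlzQ.mono
  case h =>
    apply_rules (maxDepth := 1000) [RlzQ.tab, RlzQ.add, RlzQ.mul, RlzQ.get, RlzQ.fst, RlzQ.snd,
      RlzQ.input, RlzQ.lit]
  case A => exact 10
  case hc =>
    intro K _ x
    simp only [Finset.sum_const_zero, add_zero, zero_add]
    nlinarith

theorem tKr_rlz : RlzQ tKr (fun _ _ y => (y.1 + 1) ^ 2) := by
  unfold tKr
  apply RlzQ.mono
  case h =>
    apply_rules (maxDepth := 1000) [RlzQ.tab, RlzQ.add, RlzQ.sub, RlzQ.mul, RlzQ.div, RlzQ.mod,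
      RlzQ.iteEq, RlzQ.iteLt, RlzQ.one, RlzQ.zero, RlzQ.get, RlzQ.fst, RlzQ.snd, RlzQ.input,
      RlzQ.lit]
  case A => exact 10
  case hc =>
    intro K _ x
    simp only [add_zero, ite_self, Finset.sum_const_zero]
    nlinarith

theorem tFin_rlz : RlzQ tFin (fun _ _ y => (y.1 + 1) ^ 2) := by
  unfold tFin
  apply RlzQ.mono
  case h =>
    apply_rules (maxDepth := 1000) [RlzQ.tab, RlzQ.add, RlzQ.sub, RlzQ.mul, RlzQ.div, RlzQ.mod,
      RlzQ.get, RlzQ.fst, RlzQ.snd, RlzQ.input, RlzQ.lit]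
  case A => exact 10
  case hc =>
    intro K _ x
    simp only [add_zero, Finset.sum_const_zero]
    nlinarith

theorem tZero_rlz {a : Ty} : RlzQ (a := a) (b := .arr) (fun K _ _ => tZero K) (fun _ _ _ => 0) := by
  unfold tZero
  have := RlzQ.tab (a := a) (N := fun _ _ _ => 0) (f := fun _K _ _ _ => (0 : _K)) (RlzQ.lit 0)
    (RlzQ.zero)
  exact this.mono 2 (fun K _ x => by simp)

/-! ## stages -/

noncomputable def fB : Fam In .nat := fun _ _ x => adeg (x.1 + 1) (blkA (x.1 + 1) x.2.2.1 x.2.2.2.2)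

noncomputable def fA : Fam In .nat := fun _ _ x =>
  adeg (x.1 + 1) (blkA (x.1 + 1) (x.2.2.1 - 1) x.2.2.2.2)

noncomputable def fN : Fam In .nat := fun K _ x =>
  if x.2.2.1 ≠ 0 then
    (if x.2.2.1 * (fA K x - fB K x) ≤ x.1 then fA K x - fB K x else 0) else 0

noncomputable def fE : Fam In .nat := fun K _ x => x.2.2.1 * fN K x

theorem fE_eq (K : Type) [Field K] (x : In.val K) : fE K x = gmn x.1 x.2.2.1 x.2.2.2.2 := by
  unfold fE fN gmn fA fB
  by_cases hm : x.2.2.1 = 0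
  · rw [hm]; simp
  · simp only [ne_eq, hm, not_false_eq_true, if_true]
    split_ifs <;> simp

theorem fE_le (K : Type) [Field K] (x : In.val K) : @LE.le ℕ _ (fE K x) x.1 := by
  rw [fE_eq]
  unfold gmn
  split_ifs with h
  · exact h
  · exact Nat.zero_le _

theorem fN_le (K : Type) [Field K] (x : In.val K) : @LE.le ℕ _ (fN K x) (fE K x) := by
  unfold fE
  by_cases hm : x.2.2.1 = 0
  · unfold fN
    rw [hm]; simp
  · exact Nat.le_mul_of_pos_left _ (Nat.pos_of_ne_zero hm)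

private theorem rd : RlzQ (a := In) (b := .nat) (fun _ _ x => x.1) (fun _ _ _ => 0) :=
  RlzQ.fst RlzQ.input
private theorem rd1 : RlzQ (a := In) (b := .nat) (fun _ _ x => x.1 + 1) (fun _ _ _ => 0) :=
  (RlzQ.add rd (RlzQ.lit 1)).mono 1 (fun K _ x => by simp)
private theorem rp : RlzQ (a := In) (b := .nat) (fun _ _ x => x.2.1) (fun _ _ _ => 0) :=
  RlzQ.fst (RlzQ.snd RlzQ.input)
private theorem rm : RlzQ (a := In) (b := .nat) (fun _ _ x => x.2.2.1) (fun _ _ _ => 0) :=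
  RlzQ.fst (RlzQ.snd (RlzQ.snd RlzQ.input))
private theorem rf : RlzQ (a := In) (b := .arr) (fun _ _ x => x.2.2.2.1) (fun _ _ _ => 0) :=
  RlzQ.fst (RlzQ.snd (RlzQ.snd (RlzQ.snd RlzQ.input)))
private theorem rr : RlzQ (a := In) (b := .arr) (fun _ _ x => x.2.2.2.2) (fun _ _ _ => 0) :=
  RlzQ.snd (RlzQ.snd (RlzQ.snd (RlzQ.snd RlzQ.input)))

theorem fB_rlz : RlzQ fB (fun _ _ x => x.1) :=
  (RlzQ.adeg rd1 (RlzQ.blkA rd1 rm rr)).mono 4 (fun K _ x => by
    try dsimp only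
    omega)

theorem fA_rlz : RlzQ fA (fun _ _ x => x.1) :=
  (RlzQ.adeg rd1 (RlzQ.blkA rd1 (RlzQ.sub rm (RlzQ.lit 1)) rr)).mono 4 (fun K _ x => by
    try dsimp only
    omega)

theorem fN_rlz : RlzQ fN (fun _ _ x => x.1) := by
  refine (RlzQ.iteNat rm (RlzQ.iteLe (RlzQ.mul rm (RlzQ.sub fA_rlz fB_rlz)) rd
    (RlzQ.sub fA_rlz fB_rlz) (RlzQ.lit 0)) (RlzQ.lit 0)).mono 10 (fun K _ x => ?_)
  try dsimp only
  split_ifs <;> omega

theorem fE_rlz : RlzQ fE (fun _ _ x => x.1) :=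
  (RlzQ.mul rm fN_rlz).mono 4 (fun K _ x => by
    try dsimp only
    omega)

/-- the cost of the stages -/
noncomputable def cS : CFam In := fun K _ x => (fE K x + 1) * (x.1 + 1) ^ 2 + x.2.1 + x.2.2.1

private theorem c1 (d e : ℕ) : d + 1 ≤ (e + 1) * (d + 1) ^ 2 := by
  have : 1 * (d + 1) ≤ (e + 1) * (d + 1) := Nat.mul_le_mul_right _ (by omega)
  nlinarith

private theorem c2 {d e : ℕ} (h : e ≤ d) : (e + 1) ^ 3 ≤ (e + 1) * (d + 1) ^ 2 := by
  have : (e + 1) ^ 2 ≤ (d + 1) ^ 2 := Nat.pow_le_pow_left (by omega) 2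
  calc (e + 1) ^ 3 = (e + 1) * (e + 1) ^ 2 := by ring
    _ ≤ _ := Nat.mul_le_mul_left _ this

private theorem c3 {d e : ℕ} (h : e ≤ d) : (d + e + 1) * (e + 1 + 1) * (1 + 1) ≤
    8 * ((e + 1) * (d + 1) ^ 2) := by
  have a1 : (d + e + 1) * (e + 1 + 1) ≤ (2 * (d + 1)) * (2 * (e + 1)) :=
    Nat.mul_le_mul (by omega) (by omega)
  have a2 : (d + 1) * (e + 1) ≤ (e + 1) * (d + 1) ^ 2 := by
    rw [mul_comm]
    exact Nat.mul_le_mul_left _ (by nlinarith)
  nlinarith

private theorem c4 {d e n : ℕ} (h : e ≤ d) (h' : n ≤ e) :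
    (n + 1) * (e + 1) ≤ (e + 1) * (d + 1) ^ 2 := by
  rw [mul_comm]
  exact Nat.mul_le_mul_left _ (by nlinarith)

private theorem c5 {d e n : ℕ} (h : e ≤ d) (h' : n ≤ e) :
    (n + 1) ^ 2 ≤ (e + 1) * (d + 1) ^ 2 := by
  rw [sq]
  exact Nat.mul_le_mul (by omega) (by nlinarith)

noncomputable def fU : Fam In .arr := fun K _ x =>
  divB 1 (x.1 + 1) (fB K x) (blkA (x.1 + 1) x.2.2.1 x.2.2.2.2)
    (blkA (x.1 + 1) (x.2.2.1 - 1) x.2.2.2.2)

theorem fU_rlz : RlzQ fU cS :=
  (RlzQ.quo rd1 fB_rlz (RlzQ.blkA rd1 rm rr)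
    (RlzQ.blkA rd1 (RlzQ.sub rm (RlzQ.lit 1)) rr)).mono 10 (fun K _ x => by
    have h := adeg_le (x.1 + 1) (blkA (x.1 + 1) x.2.2.1 x.2.2.2.2)
    have h2 := c1 x.1 (fE K x)
    unfold cS
    have h3 : @LE.le ℕ _ (fB K x) (x.1 + 1) := h
    try dsimp only
    generalize (fE K x + 1) * (x.1 + 1) ^ 2 = G at h2 ⊢
    omega)

noncomputable def fP0 : Fam In .arr := fun K _ x => pws (x.1 + 1) x.2.2.1 (fU K x)

theorem fP0_rlz : RlzQ fP0 cS :=
  (RlzQ.pws rd1 rm fU_rlz).mono 10 (fun K _ x => by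
    have h2 := c1 x.1 (fE K x)
    unfold cS
    try dsimp only
    generalize (fE K x + 1) * (x.1 + 1) ^ 2 = G at h2 ⊢
    omega)

noncomputable def fF0 : Fam In .arr := fun K _ x => tF0 K (x.1, x.2.2.2.1)

theorem fF0_rlz : RlzQ fF0 cS :=
  (RlzQ.comp tF0_rlz (RlzQ.pair rd rf)).mono 10 (fun K _ x => by
    have h2 := c1 x.1 (fE K x)
    unfold cS
    try dsimp only
    generalize (fE K x + 1) * (x.1 + 1) ^ 2 = G at h2 ⊢
    omega)

noncomputable def fQ0 : Fam In .arr := fun K _ x =>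
  divB 1 (x.1 + 1) (fE K x) (fP0 K x) (fF0 K x)

theorem fQ0_rlz : RlzQ fQ0 cS :=
  (RlzQ.quo rd1 fE_rlz fP0_rlz fF0_rlz).mono 10 (fun K _ x => by
    have h := fE_le K x
    have h2 := c1 x.1 (fE K x)
    unfold cS
    try dsimp only
    generalize (fE K x + 1) * (x.1 + 1) ^ 2 = G at h2 ⊢
    omega)

noncomputable def fQ1 : Fam In .arr := fun K _ x =>
  modB 1 (x.1 + 1) (fE K x) (fP0 K x) (fQ0 K x)

theorem fQ1_rlz : RlzQ fQ1 cS :=
  (RlzQ.rem rd1 fE_rlz fP0_rlz fQ0_rlz).mono 10 (fun K _ x => by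
    have h := fE_le K x
    have h2 := c1 x.1 (fE K x)
    unfold cS
    try dsimp only
    generalize (fE K x + 1) * (x.1 + 1) ^ 2 = G at h2 ⊢
    omega)

section
variable (Fm : Fam (.prod .nat (.prod .arr .arr)) .arr)
  (Fh : Fam (.prod .nat (.prod .nat (.prod .nat (.prod .nat (.prod .arr (.prod .arr
      (.prod .arr .arr))))))) .arr)
  (Fr : Fam (.prod .nat (.prod .nat (.prod .nat .arr))) .arr)

noncomputable def fU0 : Fam In .arr := fun K _ x => Fm K (fE K x, (fP0 K x, fQ1 K x))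

noncomputable def fH : Fam In .arr := fun K _ x =>
  Fh K (1, (fE K x + 1, (x.1, (fE K x, (tZero K, (x.2.2.2.1, (fP0 K x, fU0 Fm K x)))))))

noncomputable def fK : Fam In .arr := fun K _ x => tKr K (fE K x, fH Fm Fh K x)

noncomputable def fR : Fam In .arr := fun K _ x =>
  Fr K ((fN K x + 1) * (fE K x + 1), (x.2.1, (x.2.2.1, fK Fm Fh K x)))

noncomputable def fO : Fam In .arr := fun K _ x => tFin K (fN K x, (fE K x, fR Fm Fh Fr K x))

noncomputable def fOut : Fam In (.prod .nat .arr) := fun K _ x =>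
  if fN K x ≠ 0 then (fN K x, fO Fm Fh Fr K x) else (0, tZero K)

variable {Fm Fh Fr}

theorem fU0_rlz (hFm : RlzQ Fm (fun _ _ x => (x.1 + 1) ^ 3)) : RlzQ (fU0 Fm) cS :=
  (RlzQ.comp hFm (RlzQ.pair fE_rlz (RlzQ.pair fP0_rlz fQ1_rlz))).mono 10 (fun K _ x => by
    have h := fE_le K x
    have h2 := c1 x.1 (fE K x)
    unfold cS
    try dsimp only
    have h3 := c2 h
    generalize (fE K x + 1) * (x.1 + 1) ^ 2 = G at h2 h3 ⊢
    generalize (fE K x + 1) ^ 3 = G' at h3 ⊢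
    omega)

theorem fH_rlz (hFm : RlzQ Fm (fun _ _ x => (x.1 + 1) ^ 3))
    (hFh : RlzQ Fh (fun _ _ x => (x.2.2.1 + x.2.2.2.1 + 1) * (x.2.1 + 1) * (x.1 + 1))) :
    RlzQ (fH Fm Fh) cS :=
  (RlzQ.comp hFh (RlzQ.pair (RlzQ.lit 1) (RlzQ.pair (RlzQ.add fE_rlz (RlzQ.lit 1))
    (RlzQ.pair rd (RlzQ.pair fE_rlz (RlzQ.pair tZero_rlz (RlzQ.pair rf
      (RlzQ.pair fP0_rlz (fU0_rlz hFm))))))))).mono 20 (fun K _ x => by
    have h := fE_le K x
    have h2 := c1 x.1 (fE K x)
    unfold cS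
    try dsimp only
    have h3 := c3 h
    generalize (fE K x + 1) * (x.1 + 1) ^ 2 = G at h2 h3 ⊢
    generalize (x.1 + fE K x + 1) * (fE K x + 1 + 1) * (1 + 1) = G' at h3 ⊢
    omega)

theorem fK_rlz (hFm : RlzQ Fm (fun _ _ x => (x.1 + 1) ^ 3))
    (hFh : RlzQ Fh (fun _ _ x => (x.2.2.1 + x.2.2.2.1 + 1) * (x.2.1 + 1) * (x.1 + 1))) :
    RlzQ (fK Fm Fh) cS :=
  (RlzQ.comp tKr_rlz (RlzQ.pair fE_rlz (fH_rlz hFm hFh))).mono 10 (fun K _ x => by
    have h := fE_le K x
    have h2 := c1 x.1 (fE K x)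
    unfold cS
    try dsimp only
    have h3 := c5 h le_rfl
    generalize (fE K x + 1) * (x.1 + 1) ^ 2 = G at h2 h3 ⊢
    generalize (fE K x + 1) ^ 2 = G' at h3 ⊢
    omega)

theorem fR_rlz (hFm : RlzQ Fm (fun _ _ x => (x.1 + 1) ^ 3))
    (hFh : RlzQ Fh (fun _ _ x => (x.2.2.1 + x.2.2.2.1 + 1) * (x.2.1 + 1) * (x.1 + 1)))
    (hFr : RzQ Fr (fun _ _ x => x.1 + x.2.1 + x.2.2.1)) : RzQ (fR Fm Fh Fr) cS :=
  (RzQ.comp hFr (RzQ.pair (RzQ.of (RlzQ.mul (RlzQ.add fN_rlz (RlzQ.lit 1))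
    (RlzQ.add fE_rlz (RlzQ.lit 1)))) (RzQ.pair (RzQ.of rp) (RzQ.pair (RzQ.of rm)
      (RzQ.of (fK_rlz hFm hFh)))))).mono 20 (fun K _ x => by
    have h := fE_le K x
    have h' := fN_le K x
    have h2 := c1 x.1 (fE K x)
    unfold cS
    try dsimp only
    have h3 := c4 h h'
    generalize (fE K x + 1) * (x.1 + 1) ^ 2 = G at h2 h3 ⊢
    generalize (fN K x + 1) * (fE K x + 1) = G' at h3 ⊢
    omega)

theorem fO_rlz (hFm : RlzQ Fm (fun _ _ x => (x.1 + 1) ^ 3))
    (hFh : RlzQ Fh (fun _ _ x => (x.2.2.1 + x.2.2.2.1 + 1) * (x.2.1 + 1) * (x.1 + 1)))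
    (hFr : RzQ Fr (fun _ _ x => x.1 + x.2.1 + x.2.2.1)) : RzQ (fO Fm Fh Fr) cS :=
  (RzQ.comp (RzQ.of tFin_rlz) (RzQ.pair (RzQ.of fN_rlz) (RzQ.pair (RzQ.of fE_rlz)
    (fR_rlz hFm hFh hFr)))).mono 20 (fun K _ x => by
    have h := fE_le K x
    have h' := fN_le K x
    have h2 := c1 x.1 (fE K x)
    unfold cS
    try dsimp only
    have h3 := c5 h h'
    generalize (fE K x + 1) * (x.1 + 1) ^ 2 = G at h2 h3 ⊢
    generalize (fN K x + 1) ^ 2 = G' at h3 ⊢
    omega)

theorem fOut_rlz (hFm : RlzQ Fm (fun _ _ x => (x.1 + 1) ^ 3))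
    (hFh : RlzQ Fh (fun _ _ x => (x.2.2.1 + x.2.2.2.1 + 1) * (x.2.1 + 1) * (x.1 + 1)))
    (hFr : RzQ Fr (fun _ _ x => x.1 + x.2.1 + x.2.2.1)) : RzQ (fOut Fm Fh Fr)
      (fun _ _ x => (gmn x.1 x.2.2.1 x.2.2.2.2 + 1) * (x.1 + 1) ^ 2 + x.2.1) := by
  refine (RzQ.iteNat (RzQ.of fN_rlz) (RzQ.pair (RzQ.of fN_rlz) (fO_rlz hFm hFh hFr))
    (RzQ.of (RlzQ.pair (RlzQ.lit 0) tZero_rlz))).mono 20 (fun K _ x => ?_)
  have h := fE_le K x
  have h2 := c1 x.1 (fE K x)
  unfold cS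
  try dsimp only
  rw [← fE_eq]
  have h4 : fN K x ≠ 0 → @LE.le ℕ _ x.2.2.1 (fE K x) := fun hn =>
    Nat.le_mul_of_pos_right _ (Nat.pos_of_ne_zero hn)
  generalize (fE K x + 1) * (x.1 + 1) ^ 2 = G at h2 ⊢
  split_ifs with h5
  · have := h4 h5
    omega
  · omega

end

section spec
variable {K : Type} [Field K] {k : Type} [Field k] [Algebra K k]

theorem dv_one0 (a : ℕ → K) (s : ℕ) : dv 1 (0 : k) a s = algebraMap K k (a s) := by
  unfold dv
  simp

theorem at0_coeff {L : Type} [Field L] (P : L[X][X]) (i : ℕ) :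
    (at0 P).coeff i = (P.coeff i).coeff 0 := by
  unfold at0
  rw [coeff_map, coe_evalRingHom, coeff_zero_eq_eval_zero]

theorem at0_mul {L : Type} [Field L] (P Q : L[X][X]) : at0 (P * Q) = at0 P * at0 Q := by
  unfold at0
  rw [Polynomial.map_mul]

theorem at0_pow {L : Type} [Field L] (P : L[X][X]) (m : ℕ) : at0 (P ^ m) = at0 P ^ m := by
  unfold at0
  rw [Polynomial.map_pow]

/-- the table `tKr` contains the coefficients of the Kronecker substitution -/
theorem tKr_spec {e : ℕ} {H : ℕ → K} {g : k[X][X]} (hg : g.Monic) (hd : g.natDegree = e)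
    (hTD : TD e g)
    (hH : ∀ j < e, ∀ i < e + 1, algebraMap K k (H (j * (e + 1) + i)) = (g.coeff j).coeff i)
    (i : ℕ) : algebraMap K k (tKr K (e, H) i) = (kr (e + 1) e g).coeff i := by
  rw [kr_coeff (M := e + 1) (show e < e + 1 by omega) hd.le hTD]
  unfold tKr tabF
  dsimp only
  have hM : 0 < e + 1 := by omega
  have hml := Nat.mod_lt i hM
  by_cases h1 : i < (e + 1) * (e + 1)
  · have h2 : i / (e + 1) < e + 1 := (Nat.div_lt_iff_lt_mul hM).2 h1
    have h2' : i / (e + 1) ≤ e := by omega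
    rw [if_pos h1, if_pos h2']
    by_cases h3 : i < e + 1
    · rw [Nat.div_eq_of_lt h3, Nat.sub_zero, Nat.mod_eq_of_lt h3]
      have h4 : g.coeff e = 1 := by rw [← hd]; exact hg.coeff_natDegree
      rw [h4, coeff_one]
      by_cases h0 : i = 0
      · simp only [h0, if_true, map_one]
      · simp only [h0, if_false, h3, if_true, map_zero]
    · have h4 : 1 ≤ i / (e + 1) := (Nat.le_div_iff_mul_le hM).2 (by omega)
      have h0 : i ≠ 0 := by omega
      simp only [h0, if_false, h3]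
      exact hH _ (by omega) _ hml
  · have h2 : e + 1 ≤ i / (e + 1) := (Nat.le_div_iff_mul_le hM).2 (by omega)
    have h2' : ¬ i / (e + 1) ≤ e := by omega
    rw [if_neg h1, if_neg h2', map_zero]

end spec

end Pool.Agent.AbsIrr.HM

namespace Pool.Agent.AbsIrr

open Finset Polynomial HM

theorem hm_rlz :
    ∃ F : Fam (.prod .nat (.prod .nat (.prod .nat (.prod .arr .arr)))) (.prod .nat .arr),
    RzQ F (fun _ _ x => (gmn x.1 x.2.2.1 x.2.2.2.2 + 1) * (x.1 + 1) ^ 2 + x.2.1) ∧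
    (∀ (K : Type) [Field K] (d p m : ℕ) (f rho : ℕ → K),
      m * (F K (d, (p, (m, (f, rho))))).1 = gmn d m rho ∧
      (m = 0 → (F K (d, (p, (m, (f, rho))))).1 = 0)) ∧
    ∀ (K : Type) [Field K] (d p m n : ℕ) [CharP K p] [Fact p.Prime] [PerfectRing K p]
      (f rho : ℕ → K) (ft : K[X][X]) (k : Type) [Field k] [Algebra K k]
      (h Q : k[X][X]) (ρ₁ ρ₂ : k[X]), ft.Monic → ft.natDegree = d → TD d ft →
      (∀ i < (d + 1) * (d + 1), f i = coeffs2 (d + 1) ft i) → 1 ≤ m → h.Monic → Q.Monic →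
      ft.map (mapRingHom (algebraMap K k)) = h ^ m * Q → h.natDegree = n → 1 ≤ n → TD n h →
      IsCoprime (at0 h) (at0 Q) → ρ₁.Monic → ρ₂.Monic → ρ₁ = at0 h * ρ₂ → ρ₁.natDegree ≤ d →
      (∀ l ≤ d, algebraMap K k (rho ((m - 1) * (d + 1) + l)) = ρ₁.coeff l) →
      (∀ l ≤ d, algebraMap K k (rho (m * (d + 1) + l)) = ρ₂.coeff l) →
      (F K (d, (p, (m, (f, rho))))).1 = n ∧ ∀ j ≤ n, ∀ i ≤ n,
        algebraMap K k ((F K (d, (p, (m, (f, rho))))).2 (j * (n + 1) + i)) =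
          (h.coeff j).coeff i := by
  obtain ⟨Fm, hFm, sM⟩ := modinv
  obtain ⟨Fh, hFh, sH⟩ := hensel_rlz
  obtain ⟨Fr, hFr, sR⟩ := mroot_rlz
  refine ⟨fOut Fm Fh Fr, fOut_rlz hFm hFh hFr, ?_, ?_⟩
  · intro K _ d p m f rho
    have h1 : (fOut Fm Fh Fr K (d, (p, (m, (f, rho))))).1 = fN K (d, (p, (m, (f, rho)))) := by
      unfold fOut
      split_ifs with h
      · rfl
      · exact (not_not.1 h).symm
    rw [h1]
    refine ⟨fE_eq K (d, (p, (m, (f, rho)))), fun hm => ?_⟩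
    unfold fN
    rw [if_neg (not_not.2 hm)]
  · intro K _ d p m n _ _ _ f rho ft k _ _ h Q ρ₁ ρ₂ hft hdeg hTD hf hm hh hQ hprod hn h1n hTDh
      hcop hρ₁ hρ₂ hρ hρd hr1 hr2
    -- degrees
    have ha0 : (at0 h).Monic := hh.map _
    have had : (at0 h).natDegree = n := by rw [← hn]; exact hh.natDegree_map _
    have hQ0m : (at0 Q).Monic := hQ.map _
    have hm1 : (h ^ m).Monic := hh.pow m
    have hmd : (h ^ m).natDegree = m * n := by rw [hh.natDegree_pow, hn]
    have hg0 : (at0 h ^ m).Monic := ha0.pow m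
    have hgd : (at0 h ^ m).natDegree = m * n := by rw [ha0.natDegree_pow, had]
    have hPQ : (h ^ m * Q).natDegree = d := by
      rw [← hprod, hft.natDegree_map, hdeg]
    have hsum : m * n + Q.natDegree = d := by
      rw [← hPQ, hm1.natDegree_mul hQ, hmd]
    have hmn : m * n ≤ d := by omega
    have hnm : n ≤ m * n := Nat.le_mul_of_pos_left _ hm
    have hρs : ρ₁.natDegree = n + ρ₂.natDegree := by
      rw [hρ, ha0.natDegree_mul hρ₂, had]
    have hb2 : ∀ i < d + 1, algebraMap K k (blkA (d + 1) m rho i) = ρ₂.coeff i := by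
      intro i hi
      unfold blkA
      rw [tabF_lt _ _ hi]
      exact hr2 i (by omega)
    have hb1 : ∀ i < d + 1, algebraMap K k (blkA (d + 1) (m - 1) rho i) = ρ₁.coeff i := by
      intro i hi
      unfold blkA
      rw [tabF_lt _ _ hi]
      exact hr1 i (by omega)
    set x : In.val K := (d, (p, (m, (f, rho)))) with hx
    have hB : fB K x = ρ₂.natDegree :=
      adeg_eq (algebraMap K k) hρ₂ (show ρ₂.natDegree < d + 1 by omega) hb2
    have hA : fA K x = ρ₁.natDegree :=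
      adeg_eq (algebraMap K k) hρ₁ (show ρ₁.natDegree < d + 1 by omega) hb1
    have hNn : fN K x = n := by
      have key : ∀ a b : ℕ, a = ρ₁.natDegree → b = ρ₂.natDegree →
          (if m ≠ 0 then (if m * (a - b) ≤ d then a - b else 0) else 0) = n := by
        intro a b h1 h2
        have h3 : a - b = n := by omega
        have h4 : m ≠ 0 := by omega
        rw [h3, if_pos h4, if_pos hmn]
      exact key _ _ hA hB
    have hEe : fE K x = m * n := by
      unfold fE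
      rw [hNn]
    -- the factor at x = 0
    have hdW : ∀ P : k[X], P.natDegree ≤ d → P.degree < ((d + 1 : ℕ) : WithBot ℕ) := by
      intro P hP
      refine (degree_le_natDegree).trans_lt ?_
      exact_mod_cast (by omega : P.natDegree < d + 1)
    have hU : ∀ i < d + 1, algebraMap K k (fU K x i) = (at0 h).coeff i := by
      intro i hi
      have h1 := quo_eq (K := K) (W := d + 1) (D := ρ₂.natDegree) (P := ρ₁) (G := ρ₂)
        (hdW ρ₁ hρd) hρ₂ rfl hb1 (fun i hi => hb2 i (by omega)) i hi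
      rw [hρ, mul_comm, mul_divByMonic_cancel_left _ hρ₂] at h1
      rw [← h1, ← hB]
      rfl
    have hP0 : ∀ i < d + 1, algebraMap K k (fP0 K x i) = (at0 h ^ m).coeff i :=
      fun i hi => pws_eq hU i hi
    have hF0 : ∀ i < d + 1, algebraMap K k (fF0 K x i) = (at0 h ^ m * at0 Q).coeff i := by
      intro i hi
      have h1 : fF0 K x i = f (i * (d + 1)) := by
        show tabF (d + 1) (fun j => f (j * (d + 1))) i = _
        rw [tabF_lt _ _ hi]
      have h2 : i * (d + 1) < (d + 1) * (d + 1) := Nat.mul_lt_mul_of_pos_right hi (by omega)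
      rw [h1, hf _ h2, ← at0_pow, ← at0_mul, ← hprod, at0_coeff]
      unfold coeffs2
      rw [Nat.mul_div_cancel _ (by omega), Nat.mul_mod_left, coeff_map, coe_mapRingHom, coeff_map]
    have hFd : (at0 h ^ m * at0 Q).natDegree ≤ d := by
      rw [hg0.natDegree_mul hQ0m, hgd]
      have : (at0 Q).natDegree = Q.natDegree := hQ.natDegree_map _
      omega
    have hP0' : ∀ i < m * n, algebraMap K k (fP0 K x i) = (at0 h ^ m).coeff i :=
      fun i hi => hP0 i (by omega)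
    have hQq : ∀ i < d + 1, algebraMap K k (fQ0 K x i) = (at0 Q).coeff i := by
      intro i hi
      have h1 := quo_eq (hdW _ hFd) hg0 hgd hF0 hP0' i hi
      rw [mul_divByMonic_cancel_left _ hg0] at h1
      rw [← h1, ← hEe]
      rfl
    have hQr : ∀ i < d + 1, algebraMap K k (fQ1 K x i) = (at0 Q %ₘ (at0 h ^ m)).coeff i := by
      intro i hi
      have h0 : (at0 Q).natDegree ≤ d := by
        have : (at0 Q).natDegree = Q.natDegree := hQ.natDegree_map _
        omega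
      have h1 := rem_eq (hdW _ h0) hg0 hgd hQq hP0' i hi
      rw [← h1, ← hEe]
      rfl
    have hgm : (gmon (m * n) (fP0 K x)).map (algebraMap K k) = at0 h ^ m :=
      gmon_map hg0 hgd hP0'
    have hap : (apol (m * n) (fQ1 K x)).map (algebraMap K k) = at0 Q %ₘ (at0 h ^ m) := by
      refine apol_map ?_ (fun i hi => hQr i (by omega))
      have := degree_modByMonic_lt (at0 Q) hg0
      rwa [degree_eq_natDegree hg0.ne_zero, hgd] at this
    have hco : IsCoprime (apol (m * n) (fQ1 K x)) (gmon (m * n) (fP0 K x)) := by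
      rw [← isCoprime_map (algebraMap K k), hap, hgm]
      have h1 : IsCoprime (at0 Q) (at0 h ^ m) := (hcop.symm).pow_right
      rw [← modByMonic_add_div (at0 Q) (at0 h ^ m)] at h1
      exact IsCoprime.of_add_mul_left_left h1
    have hdv0 := sM K (m * n) (fP0 K x) (fQ1 K x) hco
    have hUe : fU0 Fm K x = Fm K (m * n, (fP0 K x, fQ1 K x)) := by
      unfold fU0
      rw [hEe]
    rw [← hUe] at hdv0
    have hdv1 : at0 (h ^ m) ∣ (∑ j ∈ range (m * n), monomial j (dv 1 (0 : k) (fU0 Fm K x) j)) *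
        at0 Q - 1 := by
      have h1 := map_dvd (mapRingHom (algebraMap K k)) hdv0
      rw [map_sub, map_mul, map_one, coe_mapRingHom, hgm, hap] at h1
      have h2 : ∑ j ∈ range (m * n), monomial j (dv 1 (0 : k) (fU0 Fm K x) j) =
          (apol (m * n) (fU0 Fm K x)).map (algebraMap K k) := by
        unfold apol
        rw [Polynomial.map_sum]
        refine sum_congr rfl fun j _ => ?_
        rw [map_monomial, dv_one0]
      rw [h2, at0_pow]
      have h3 : (apol (m * n) (fU0 Fm K x)).map (algebraMap K k) * at0 Q - 1 =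
          ((apol (m * n) (fU0 Fm K x)).map (algebraMap K k) * (at0 Q %ₘ (at0 h ^ m)) - 1) +
            at0 h ^ m * ((apol (m * n) (fU0 Fm K x)).map (algebraMap K k) *
              (at0 Q /ₘ (at0 h ^ m))) := by
        conv_lhs => rw [← modByMonic_add_div (at0 Q) (at0 h ^ m)]
        ring
      rw [h3]
      exact dvd_add h1 (dvd_mul_right _ _)
    have hH := sH K 1 (m * n + 1) d (m * n) (tZero K) f (fP0 K x) (fU0 Fm K x) k 0 (h ^ m) Q
      (by simp [gmon, tZero, tabF]) (by omega) (by omega) hm1 hQ hmd hPQ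
      (by
        intro j hj i hi
        have h2 : j * (d + 1) + i < (d + 1) * (d + 1) := by nlinarith
        rw [hf _ h2, ← hprod]
        unfold coeffs2
        have e1 : (j * (d + 1) + i) / (d + 1) = j := by
          rw [mul_comm, Nat.mul_add_div (by omega), Nat.div_eq_of_lt (by omega), add_zero]
        have e2 : (j * (d + 1) + i) % (d + 1) = i := by
          rw [mul_comm, Nat.mul_add_mod, Nat.mod_eq_of_lt (by omega)]
        rw [e1, e2, coeff_map, coe_mapRingHom, coeff_map])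
      (by
        intro j hj
        rw [dv_one0, hP0' j hj, ← at0_pow, at0_coeff])
      hdv1
    have hHe : fH Fm Fh K x = Fh K (1, (m * n + 1, (d, (m * n, (tZero K, (f,
        (fP0 K x, fU0 Fm K x))))))) := by
      unfold fH
      rw [hEe]
    rw [← hHe] at hH
    have hKe : fK Fm Fh K x = tKr K (m * n, fH Fm Fh K x) := by
      unfold fK
      rw [hEe]
    have hKr : ∀ i, algebraMap K k (fK Fm Fh K x i) =
        PowerSeries.coeff i ((kr (m * n + 1) n h : PowerSeries k) ^ m) := by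
      intro i
      rw [hKe, tKr_spec hm1 hmd (hTDh.pow m) (fun j hj i hi => by
        rw [← hH j hj i hi, dv_one0]) i, kr_pow _ _ _ hn.le, ← Polynomial.coe_pow, coeff_coe]
    have hR := sR K ((n + 1) * (m * n + 1)) p m (fK Fm Fh K x) k (kr (m * n + 1) n h) hm
      (by
        rw [← PowerSeries.coeff_zero_eq_constantCoeff_apply, coeff_coe,
          kr_coeff (by omega) hn.le hTDh, Nat.zero_div, if_pos (by omega), Nat.zero_mod,
          Nat.sub_zero]
        have : h.coeff n = 1 := by rw [← hn]; exact hh.coeff_natDegree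
        rw [this, coeff_one_zero])
      hKr
    have hRe : fR Fm Fh Fr K x = Fr K ((n + 1) * (m * n + 1), (p, (m, fK Fm Fh K x))) := by
      unfold fR
      rw [hEe, hNn]
    rw [← hRe] at hR
    have hOut : fOut Fm Fh Fr K x = (n, fO Fm Fh Fr K x) := by
      unfold fOut
      rw [hNn]
      exact if_pos (show n ≠ 0 by omega)
    rw [hOut]
    refine ⟨rfl, fun j hj i hi => ?_⟩
    have hOe : fO Fm Fh Fr K x (j * (n + 1) + i) =
        fR Fm Fh Fr K x ((n - j) * (m * n + 1) + i) := by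
      have h2 : j * (n + 1) + i < (n + 1) * (n + 1) := by nlinarith
      have e1 : (j * (n + 1) + i) / (n + 1) = j := by
        rw [mul_comm, Nat.mul_add_div (by omega), Nat.div_eq_of_lt (by omega), add_zero]
      have e2 : (j * (n + 1) + i) % (n + 1) = i := by
        rw [mul_comm, Nat.mul_add_mod, Nat.mod_eq_of_lt (by omega)]
      unfold fO
      rw [hNn, hEe]
      unfold tFin
      dsimp only
      rw [tabF_lt _ _ h2, e1, e2]
    show algebraMap K k (fO Fm Fh Fr K x (j * (n + 1) + i)) = _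
    have h3 : (n - j) * (m * n + 1) + i < (n + 1) * (m * n + 1) := by
      have : (n - j) * (m * n + 1) ≤ n * (m * n + 1) := Nat.mul_le_mul_right _ (by omega)
      nlinarith
    have e1 : ((n - j) * (m * n + 1) + i) / (m * n + 1) = n - j := by
      rw [mul_comm, Nat.mul_add_div (by omega), Nat.div_eq_of_lt (by omega), add_zero]
    have e2 : ((n - j) * (m * n + 1) + i) % (m * n + 1) = i := by
      rw [mul_comm, Nat.mul_add_mod, Nat.mod_eq_of_lt (by omega)]
    rw [hOe, hR _ h3, coeff_coe, kr_coeff (by omega) hn.le hTDh, e1, e2, if_pos (by omega)]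
    congr 2
    omega

end Pool.Agent.AbsIrr
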