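import Mathlib
import Pool.Agent.Lib.MP_2adc98_lc.ADefs
import Pool.Agent.Lib.MP_2adc98_lc.Hermite
import Pool.Agent.Lib.MP_2adc98_lc.BL
import Pool.Agent.Lib.MP_2adc98_lc.FME
import Pool.Agent.Lib.MP_2adc98_lc.DM

/-!
# MP_2adc98, piece HE: Hermite reduction of all sections at once (helper21)
-/

set_option autoImplicit false

namespace Pool.Agent.AbsIrr

open Finset Polynomial

section
variable {K : Type} [Field K]

/-- the first `d` coefficients of `v` -/
private def heV (d : ℕ) (V : ℕ → K) : ℕ → K := tabF d (fun i => V i)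

/-- the coefficients of `g'` -/
private def heG (d : ℕ) (c G : ℕ → K) : ℕ → K :=
  tabF d (fun i => if i + 1 < d then c (i + 1) * G (i + 1) else c (i + 1))

/-- the remainders `w` -/
private noncomputable def heW (B d : ℕ) (G V T : ℕ → K) : ℕ → K :=
  modB B (2 * d) d G (convB B (2 * d) V (padB B d (2 * d) T))

/-- the difference `T - w g'` -/
private noncomputable def heS (B d : ℕ) (G' T W : ℕ → K) : ℕ → K :=
  tabF (B * (2 * d)) (fun n => padB B d (2 * d) T n - convB B (2 * d) G' W n)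

/-- the quotients `u` -/
private noncomputable def heU (B d : ℕ) (G G' T W : ℕ → K) : ℕ → K :=
  divB B (2 * d) d G (heS B d G' T W)

/-- the new state -/
private noncomputable def heN (B d M : ℕ) (c D W U : ℕ → K) (i : ℕ) : ℕ → K :=
  tabF (B * d) (fun n => D ((n / d * M + (M - (i + 1) - 1)) * d + (d - 1 - n % d)) +
    U (n / d * (2 * d) + n % d) +
    (c (M - (i + 1)))⁻¹ * (c (n % d + 1) * W (n / d * (2 * d) + (n % d + 1))))

end

private theorem heV_rlz : RlzQ (a := .prod .nat .arr) (b := .arr)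
    (fun K _ x => heV x.1 x.2) (fun _ _ x => x.1) := by
  unfold heV
  apply RlzQ.mono
  case h =>
    apply_rules [RlzQ.tab, RlzQ.get, RlzQ.fst, RlzQ.snd, RlzQ.input, RlzQ.lit]
  case A => exact 10
  case hc =>
    intro K _ x
    simp only [Finset.sum_const_zero, add_zero, zero_add]
    omega

private theorem heG_rlz : RlzQ (a := .prod .nat (.prod .arr .arr)) (b := .arr)
    (fun K _ x => heG x.1 x.2.1 x.2.2) (fun _ _ x => x.1) := by
  unfold heG
  apply RlzQ.mono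
  case h =>
    apply_rules [RlzQ.tab, RlzQ.iteLt, RlzQ.fmul, RlzQ.add, RlzQ.get, RlzQ.fst, RlzQ.snd,
      RlzQ.input, RlzQ.lit]
  case A => exact 10
  case hc =>
    intro K _ x
    simp only [Finset.sum_const_zero, add_zero, zero_add, ite_self]
    omega

private theorem hePad_rlz : RlzQ (a := .prod .nat (.prod .nat .arr)) (b := .arr)
    (fun K _ x => padB x.1 x.2.1 (2 * x.2.1) x.2.2)
    (fun _ _ x => (x.1 + 1) * (x.2.1 + 1)) := by
  unfold padB
  have hn : RlzQ (a := .prod (.prod .nat (.prod .nat .arr)) .nat) (b := .nat)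
    (fun _ _ x => x.2) (fun _ _ _ => 0) := RlzQ.snd RlzQ.input
  have hd : RlzQ (a := .prod (.prod .nat (.prod .nat .arr)) .nat) (b := .nat)
    (fun _ _ x => x.1.2.1) (fun _ _ _ => 0) := RlzQ.fst (RlzQ.snd (RlzQ.fst RlzQ.input))
  have hA : RlzQ (a := .prod (.prod .nat (.prod .nat .arr)) .nat) (b := .arr)
    (fun _ _ x => x.1.2.2) (fun _ _ _ => 0) := RlzQ.snd (RlzQ.snd (RlzQ.fst RlzQ.input))
  refine (RlzQ.tab (RlzQ.mul (RlzQ.fst RlzQ.input)
    (RlzQ.mul (RlzQ.lit 2) (RlzQ.fst (RlzQ.snd RlzQ.input))))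
    (RlzQ.iteLt (RlzQ.mod hn (RlzQ.mul (RlzQ.lit 2) hd)) hd
      (RlzQ.get hA (RlzQ.add (RlzQ.mul (RlzQ.div hn (RlzQ.mul (RlzQ.lit 2) hd)) hd)
        (RlzQ.mod hn (RlzQ.mul (RlzQ.lit 2) hd)))) RlzQ.zero)).mono 10 (fun K _ x => ?_)
  simp only [Finset.sum_const_zero, add_zero, zero_add, ite_self]
  nlinarith

/-- input `(B, (d, (G, (V, T))))` -/
private theorem heW_rlz :
    RlzQ (a := .prod .nat (.prod .nat (.prod .arr (.prod .arr .arr)))) (b := .arr)
    (fun K _ x => heW x.1 x.2.1 x.2.2.1 x.2.2.2.1 x.2.2.2.2)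
    (fun _ _ x => (x.1 + 1) * (x.2.1 + 1)) := by
  unfold heW
  have hpad : RlzQ (a := .prod .nat (.prod .nat (.prod .arr (.prod .arr .arr)))) (b := .arr)
      (fun K _ x => padB x.1 x.2.1 (2 * x.2.1) x.2.2.2.2)
      (fun K _ x => (x.1 + 1) * (x.2.1 + 1)) :=
    (RlzQ.comp hePad_rlz (RlzQ.pair (RlzQ.fst RlzQ.input)
      (RlzQ.pair (RlzQ.fst (RlzQ.snd RlzQ.input))
        (RlzQ.snd (RlzQ.snd (RlzQ.snd (RlzQ.snd RlzQ.input))))))).mono 1
      (fun K _ x => by simp only [zero_add, add_zero]; omega)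
  have hconv : RlzQ (a := .prod .nat (.prod .nat (.prod .arr (.prod .arr .arr)))) (b := .arr)
      (fun K _ x => convB x.1 (2 * x.2.1) x.2.2.2.1 (padB x.1 x.2.1 (2 * x.2.1) x.2.2.2.2))
      (fun K _ x => (x.1 + 1) * (x.2.1 + 1)) :=
    (RlzQ.convB (RlzQ.fst RlzQ.input) (RlzQ.mul (RlzQ.lit 2) (RlzQ.fst (RlzQ.snd RlzQ.input)))
      (RlzQ.fst (RlzQ.snd (RlzQ.snd (RlzQ.snd RlzQ.input)))) hpad).mono 10
      (fun K _ x => by simp only [zero_add, add_zero]; nlinarith)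
  refine RlzQ.mono (RlzQ.snd (RlzQ.comp divmod_rlz (RlzQ.pair (RlzQ.fst RlzQ.input)
    (RlzQ.pair (RlzQ.mul (RlzQ.lit 2) (RlzQ.fst (RlzQ.snd RlzQ.input)))
      (RlzQ.pair (RlzQ.fst (RlzQ.snd RlzQ.input))
        (RlzQ.pair (RlzQ.fst (RlzQ.snd (RlzQ.snd RlzQ.input))) hconv)))))) 10
    (fun K _ x => ?_)
  simp only [zero_add, add_zero]
  nlinarith [Nat.zero_le (x.1 * x.2.1)]

/-- input `(B, (d, (G', (T, W))))` -/
private theorem heS_rlz :
    RlzQ (a := .prod .nat (.prod .nat (.prod .arr (.prod .arr .arr)))) (b := .arr)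
    (fun K _ x => heS x.1 x.2.1 x.2.2.1 x.2.2.2.1 x.2.2.2.2)
    (fun _ _ x => (x.1 + 1) * (x.2.1 + 1)) := by
  unfold heS
  have hpad : RlzQ (a := .prod .nat (.prod .nat (.prod .arr (.prod .arr .arr)))) (b := .arr)
      (fun K _ x => padB x.1 x.2.1 (2 * x.2.1) x.2.2.2.1)
      (fun _ _ x => (x.1 + 1) * (x.2.1 + 1)) :=
    (RlzQ.comp hePad_rlz (RlzQ.pair (RlzQ.fst RlzQ.input)
      (RlzQ.pair (RlzQ.fst (RlzQ.snd RlzQ.input))
        (RlzQ.fst (RlzQ.snd (RlzQ.snd (RlzQ.snd RlzQ.input))))))).mono 1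
      (fun K _ x => by simp only [zero_add, add_zero]; omega)
  have hconv : RlzQ (a := .prod .nat (.prod .nat (.prod .arr (.prod .arr .arr)))) (b := .arr)
      (fun K _ x => convB x.1 (2 * x.2.1) x.2.2.1 x.2.2.2.2)
      (fun _ _ x => (x.1 + 1) * (x.2.1 + 1)) :=
    (RlzQ.convB (RlzQ.fst RlzQ.input) (RlzQ.mul (RlzQ.lit 2) (RlzQ.fst (RlzQ.snd RlzQ.input)))
      (RlzQ.fst (RlzQ.snd (RlzQ.snd RlzQ.input)))
      (RlzQ.snd (RlzQ.snd (RlzQ.snd (RlzQ.snd RlzQ.input))))).mono 10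
      (fun K _ x => by simp only [zero_add, add_zero]; nlinarith)
  have hfin : RlzQ (a := .prod (.prod .nat (.prod .nat (.prod .arr (.prod .arr .arr))))
      (.prod .arr .arr)) (b := .arr)
      (fun K _ x => tabF (x.1.1 * (2 * x.1.2.1)) (fun n => x.2.1 n - x.2.2 n))
      (fun _ _ x => (x.1.1 + 1) * (x.1.2.1 + 1)) := by
    refine (RlzQ.tab (RlzQ.mul (RlzQ.fst (RlzQ.fst RlzQ.input))
      (RlzQ.mul (RlzQ.lit 2) (RlzQ.fst (RlzQ.snd (RlzQ.fst RlzQ.input)))))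
      (RlzQ.fsub (RlzQ.get (RlzQ.fst (RlzQ.snd (RlzQ.fst RlzQ.input))) (RlzQ.snd RlzQ.input))
        (RlzQ.get (RlzQ.snd (RlzQ.snd (RlzQ.fst RlzQ.input))) (RlzQ.snd RlzQ.input)))).mono 10
      (fun K _ x => ?_)
    simp only [Finset.sum_const_zero, add_zero, zero_add]
    nlinarith
  refine (RlzQ.comp hfin (RlzQ.pair RlzQ.input (RlzQ.pair hpad hconv))).mono 10 (fun K _ x => ?_)
  simp only [zero_add, add_zero]
  omega

/-- input `(B, (d, (G, (G', (T, W)))))` -/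
private theorem heU_rlz :
    RlzQ (a := .prod .nat (.prod .nat (.prod .arr (.prod .arr (.prod .arr .arr))))) (b := .arr)
    (fun K _ x => heU x.1 x.2.1 x.2.2.1 x.2.2.2.1 x.2.2.2.2.1 x.2.2.2.2.2)
    (fun _ _ x => (x.1 + 1) * (x.2.1 + 1)) := by
  unfold heU
  have hS : RlzQ (a := .prod .nat (.prod .nat (.prod .arr (.prod .arr (.prod .arr .arr)))))
      (b := .arr)
      (fun K _ x => heS x.1 x.2.1 x.2.2.2.1 x.2.2.2.2.1 x.2.2.2.2.2)
      (fun _ _ x => (x.1 + 1) * (x.2.1 + 1)) :=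
    (RlzQ.comp heS_rlz (RlzQ.pair (RlzQ.fst RlzQ.input)
      (RlzQ.pair (RlzQ.fst (RlzQ.snd RlzQ.input))
        (RlzQ.snd (RlzQ.snd (RlzQ.snd RlzQ.input)))))).mono 1
      (fun K _ x => by simp only [zero_add, add_zero]; omega)
  refine RlzQ.mono (RlzQ.fst (RlzQ.comp divmod_rlz (RlzQ.pair (RlzQ.fst RlzQ.input)
    (RlzQ.pair (RlzQ.mul (RlzQ.lit 2) (RlzQ.fst (RlzQ.snd RlzQ.input)))
      (RlzQ.pair (RlzQ.fst (RlzQ.snd RlzQ.input))
        (RlzQ.pair (RlzQ.fst (RlzQ.snd (RlzQ.snd RlzQ.input))) hS)))))) 10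
    (fun K _ x => ?_)
  simp only [zero_add, add_zero]
  nlinarith [Nat.zero_le (x.1 * x.2.1)]

/-- input `(B, (d, (M, (c, (D, (W, (U, i)))))))` -/
private theorem heN_rlz :
    RlzQ (a := .prod .nat (.prod .nat (.prod .nat (.prod .arr (.prod .arr (.prod .arr
      (.prod .arr .nat))))))) (b := .arr)
    (fun K _ x => heN x.1 x.2.1 x.2.2.1 x.2.2.2.1 x.2.2.2.2.1 x.2.2.2.2.2.1 x.2.2.2.2.2.2.1
      x.2.2.2.2.2.2.2)
    (fun _ _ x => (x.1 + 1) * (x.2.1 + 1)) := by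
  unfold heN
  have hn : RlzQ (a := .prod (.prod .nat (.prod .nat (.prod .nat (.prod .arr (.prod .arr
      (.prod .arr (.prod .arr .nat))))))) .nat) (b := .nat)
      (fun _ _ x => x.2) (fun _ _ _ => 0) := RlzQ.snd RlzQ.input
  have hd : RlzQ (a := .prod (.prod .nat (.prod .nat (.prod .nat (.prod .arr (.prod .arr
      (.prod .arr (.prod .arr .nat))))))) .nat) (b := .nat)
      (fun _ _ x => x.1.2.1) (fun _ _ _ => 0) := RlzQ.fst (RlzQ.snd (RlzQ.fst RlzQ.input))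
  have hM : RlzQ (a := .prod (.prod .nat (.prod .nat (.prod .nat (.prod .arr (.prod .arr
      (.prod .arr (.prod .arr .nat))))))) .nat) (b := .nat)
      (fun _ _ x => x.1.2.2.1) (fun _ _ _ => 0) :=
    RlzQ.fst (RlzQ.snd (RlzQ.snd (RlzQ.fst RlzQ.input)))
  have hc : RlzQ (a := .prod (.prod .nat (.prod .nat (.prod .nat (.prod .arr (.prod .arr
      (.prod .arr (.prod .arr .nat))))))) .nat) (b := .arr)
      (fun _ _ x => x.1.2.2.2.1) (fun _ _ _ => 0) :=
    RlzQ.fst (RlzQ.snd (RlzQ.snd (RlzQ.snd (RlzQ.fst RlzQ.input))))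
  have hD : RlzQ (a := .prod (.prod .nat (.prod .nat (.prod .nat (.prod .arr (.prod .arr
      (.prod .arr (.prod .arr .nat))))))) .nat) (b := .arr)
      (fun _ _ x => x.1.2.2.2.2.1) (fun _ _ _ => 0) :=
    RlzQ.fst (RlzQ.snd (RlzQ.snd (RlzQ.snd (RlzQ.snd (RlzQ.fst RlzQ.input)))))
  have hW : RlzQ (a := .prod (.prod .nat (.prod .nat (.prod .nat (.prod .arr (.prod .arr
      (.prod .arr (.prod .arr .nat))))))) .nat) (b := .arr)
      (fun _ _ x => x.1.2.2.2.2.2.1) (fun _ _ _ => 0) :=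
    RlzQ.fst (RlzQ.snd (RlzQ.snd (RlzQ.snd (RlzQ.snd (RlzQ.snd (RlzQ.fst RlzQ.input))))))
  have hU : RlzQ (a := .prod (.prod .nat (.prod .nat (.prod .nat (.prod .arr (.prod .arr
      (.prod .arr (.prod .arr .nat))))))) .nat) (b := .arr)
      (fun _ _ x => x.1.2.2.2.2.2.2.1) (fun _ _ _ => 0) :=
    RlzQ.fst (RlzQ.snd (RlzQ.snd (RlzQ.snd (RlzQ.snd (RlzQ.snd (RlzQ.snd
      (RlzQ.fst RlzQ.input)))))))
  have hi : RlzQ (a := .prod (.prod .nat (.prod .nat (.prod .nat (.prod .arr (.prod .arr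
      (.prod .arr (.prod .arr .nat))))))) .nat) (b := .nat)
      (fun _ _ x => x.1.2.2.2.2.2.2.2) (fun _ _ _ => 0) :=
    RlzQ.snd (RlzQ.snd (RlzQ.snd (RlzQ.snd (RlzQ.snd (RlzQ.snd (RlzQ.snd
      (RlzQ.fst RlzQ.input)))))))
  have hnd := RlzQ.div hn hd
  have hnm := RlzQ.mod hn hd
  have hMi := RlzQ.sub hM (RlzQ.add hi (RlzQ.lit 1))
  have h1 := RlzQ.get hD (RlzQ.add (RlzQ.mul (RlzQ.add (RlzQ.mul hnd hM)
    (RlzQ.sub hMi (RlzQ.lit 1))) hd) (RlzQ.sub (RlzQ.sub hd (RlzQ.lit 1)) hnm))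
  have h2 := RlzQ.get hU (RlzQ.add (RlzQ.mul hnd (RlzQ.mul (RlzQ.lit 2) hd)) hnm)
  have h3 := RlzQ.fmul (RlzQ.finv (RlzQ.get hc hMi))
    (RlzQ.fmul (RlzQ.get hc (RlzQ.add hnm (RlzQ.lit 1)))
      (RlzQ.get hW (RlzQ.add (RlzQ.mul hnd (RlzQ.mul (RlzQ.lit 2) hd))
        (RlzQ.add hnm (RlzQ.lit 1)))))
  refine (RlzQ.tab (RlzQ.mul (RlzQ.fst RlzQ.input) (RlzQ.fst (RlzQ.snd RlzQ.input)))
    (RlzQ.fadd (RlzQ.fadd h1 h2) h3)).mono 10 (fun K _ x => ?_)
  simp only [Finset.sum_const_zero, add_zero, zero_add]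
  nlinarith


section
variable {K : Type} [Field K]

/-- the loop body -/
private noncomputable def heB (B d M : ℕ) (G V G' c D T : ℕ → K) (i : ℕ) : ℕ → K :=
  heN B d M c D (heW B d G V T) (heU B d G G' T (heW B d G V T)) i

/-- the start -/
private noncomputable def heI (B d M : ℕ) (D : ℕ → K) : ℕ → K :=
  tabF (B * d) (fun n => D ((n / d * M + (M - 1)) * d + (d - 1 - n % d)))

/-- the loop -/
private noncomputable def heL (B d M : ℕ) (G V G' c D : ℕ → K) : ℕ → K :=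
  iterF (M - 1) (heI B d M D) (fun T i => heB B d M G V G' c D T i)

end

/-- input `((B, (d, (M, (G, (V', (G', (c, D))))))), T), i)` -/
private theorem heB_rlz :
    RlzQ (a := .prod (.prod (.prod .nat (.prod .nat (.prod .nat (.prod .arr (.prod .arr
      (.prod .arr (.prod .arr .arr))))))) .arr) .nat) (b := .arr)
    (fun K _ x => heB x.1.1.1 x.1.1.2.1 x.1.1.2.2.1 x.1.1.2.2.2.1 x.1.1.2.2.2.2.1
      x.1.1.2.2.2.2.2.1 x.1.1.2.2.2.2.2.2.1 x.1.1.2.2.2.2.2.2.2 x.1.2 x.2)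
    (fun _ _ x => (x.1.1.1 + 1) * (x.1.1.2.1 + 1)) := by
  unfold heB
  -- the variables of the input
  have hy : RlzQ (a := .prod (.prod (.prod .nat (.prod .nat (.prod .nat (.prod .arr (.prod .arr
      (.prod .arr (.prod .arr .arr))))))) .arr) .nat) (b := .prod .nat (.prod .nat (.prod .nat
        (.prod .arr (.prod .arr (.prod .arr (.prod .arr .arr)))))))
      (fun _ _ x => x.1.1) (fun _ _ _ => 0) := RlzQ.fst (RlzQ.fst RlzQ.input)
  have hT : RlzQ (a := .prod (.prod (.prod .nat (.prod .nat (.prod .nat (.prod .arr (.prod .arr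
      (.prod .arr (.prod .arr .arr))))))) .arr) .nat) (b := .arr)
      (fun _ _ x => x.1.2) (fun _ _ _ => 0) := RlzQ.snd (RlzQ.fst RlzQ.input)
  have hi : RlzQ (a := .prod (.prod (.prod .nat (.prod .nat (.prod .nat (.prod .arr (.prod .arr
      (.prod .arr (.prod .arr .arr))))))) .arr) .nat) (b := .nat)
      (fun _ _ x => x.2) (fun _ _ _ => 0) := RlzQ.snd RlzQ.input
  have hW : RlzQ (a := .prod (.prod (.prod .nat (.prod .nat (.prod .nat (.prod .arr (.prod .arr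
      (.prod .arr (.prod .arr .arr))))))) .arr) .nat) (b := .arr)
      (fun K _ x => heW x.1.1.1 x.1.1.2.1 x.1.1.2.2.2.1 x.1.1.2.2.2.2.1 x.1.2)
      (fun _ _ x => (x.1.1.1 + 1) * (x.1.1.2.1 + 1)) :=
    (RlzQ.comp heW_rlz (RlzQ.pair (RlzQ.fst hy) (RlzQ.pair (RlzQ.fst (RlzQ.snd hy))
      (RlzQ.pair (RlzQ.fst (RlzQ.snd (RlzQ.snd (RlzQ.snd hy))))
        (RlzQ.pair (RlzQ.fst (RlzQ.snd (RlzQ.snd (RlzQ.snd (RlzQ.snd hy))))) hT))))).mono 1
      (fun K _ x => by simp only [zero_add, add_zero]; omega)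
  have hU : RlzQ (a := .prod (.prod (.prod .nat (.prod .nat (.prod .nat (.prod .arr (.prod .arr
      (.prod .arr (.prod .arr .arr))))))) .arr) .nat) (b := .arr)
      (fun K _ x => heU x.1.1.1 x.1.1.2.1 x.1.1.2.2.2.1 x.1.1.2.2.2.2.2.1 x.1.2
        (heW x.1.1.1 x.1.1.2.1 x.1.1.2.2.2.1 x.1.1.2.2.2.2.1 x.1.2))
      (fun _ _ x => (x.1.1.1 + 1) * (x.1.1.2.1 + 1)) :=
    (RlzQ.comp heU_rlz (RlzQ.pair (RlzQ.fst hy) (RlzQ.pair (RlzQ.fst (RlzQ.snd hy))
      (RlzQ.pair (RlzQ.fst (RlzQ.snd (RlzQ.snd (RlzQ.snd hy))))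
        (RlzQ.pair (RlzQ.fst (RlzQ.snd (RlzQ.snd (RlzQ.snd (RlzQ.snd (RlzQ.snd hy))))))
          (RlzQ.pair hT hW)))))).mono 2
      (fun K _ x => by simp only [zero_add, add_zero]; omega)
  refine (RlzQ.comp heN_rlz (RlzQ.pair (RlzQ.fst hy) (RlzQ.pair (RlzQ.fst (RlzQ.snd hy))
    (RlzQ.pair (RlzQ.fst (RlzQ.snd (RlzQ.snd hy)))
      (RlzQ.pair (RlzQ.fst (RlzQ.snd (RlzQ.snd (RlzQ.snd (RlzQ.snd (RlzQ.snd
        (RlzQ.snd hy)))))))
        (RlzQ.pair (RlzQ.snd (RlzQ.snd (RlzQ.snd (RlzQ.snd (RlzQ.snd (RlzQ.snd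
          (RlzQ.snd hy))))))) (RlzQ.pair hW (RlzQ.pair hU hi)))))))).mono 4 (fun K _ x => ?_)
  simp only [zero_add, add_zero]
  omega

/-- input `(B, (d, (M, D)))` -/
private theorem heI_rlz :
    RlzQ (a := .prod .nat (.prod .nat (.prod .nat .arr))) (b := .arr)
    (fun K _ x => heI x.1 x.2.1 x.2.2.1 x.2.2.2) (fun _ _ x => (x.1 + 1) * (x.2.1 + 1)) := by
  unfold heI
  have hn : RlzQ (a := .prod (.prod .nat (.prod .nat (.prod .nat .arr))) .nat) (b := .nat)
      (fun _ _ x => x.2) (fun _ _ _ => 0) := RlzQ.snd RlzQ.input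
  have hd : RlzQ (a := .prod (.prod .nat (.prod .nat (.prod .nat .arr))) .nat) (b := .nat)
      (fun _ _ x => x.1.2.1) (fun _ _ _ => 0) := RlzQ.fst (RlzQ.snd (RlzQ.fst RlzQ.input))
  have hM : RlzQ (a := .prod (.prod .nat (.prod .nat (.prod .nat .arr))) .nat) (b := .nat)
      (fun _ _ x => x.1.2.2.1) (fun _ _ _ => 0) :=
    RlzQ.fst (RlzQ.snd (RlzQ.snd (RlzQ.fst RlzQ.input)))
  have hD : RlzQ (a := .prod (.prod .nat (.prod .nat (.prod .nat .arr))) .nat) (b := .arr)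
      (fun _ _ x => x.1.2.2.2) (fun _ _ _ => 0) :=
    RlzQ.snd (RlzQ.snd (RlzQ.snd (RlzQ.fst RlzQ.input)))
  have h1 := RlzQ.get hD (RlzQ.add (RlzQ.mul (RlzQ.add (RlzQ.mul (RlzQ.div hn hd) hM)
    (RlzQ.sub hM (RlzQ.lit 1))) hd) (RlzQ.sub (RlzQ.sub hd (RlzQ.lit 1)) (RlzQ.mod hn hd)))
  refine (RlzQ.tab (RlzQ.mul (RlzQ.fst RlzQ.input) (RlzQ.fst (RlzQ.snd RlzQ.input))) h1).mono 10
    (fun K _ x => ?_)
  simp only [Finset.sum_const_zero, add_zero, zero_add]
  nlinarith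

private theorem heArith (B d m : ℕ) : (B + 1) * (d + 1) + (m - 1) + (m - 1) * ((B + 1) * (d + 1)) ≤
    4 * ((B + 1) * (d + 1) * (m + 1) + 1) := by
  generalize hP : (B + 1) * (d + 1) = P
  have hP1 : 1 ≤ P := by rw [← hP]; nlinarith
  have h2 : (m - 1) * P ≤ m * P := Nat.mul_le_mul_right _ (Nat.sub_le _ _)
  have h3 : m ≤ m * P := Nat.le_mul_of_pos_right _ hP1
  have h4 : P * (m + 1) = m * P + P := by ring
  rw [h4]
  omega

/-- input `(B, (d, (M, (G, (V', (G', (c, D)))))))` -/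
private theorem heL_rlz :
    RlzQ (a := .prod .nat (.prod .nat (.prod .nat (.prod .arr (.prod .arr
      (.prod .arr (.prod .arr .arr))))))) (b := .arr)
    (fun K _ x => heL x.1 x.2.1 x.2.2.1 x.2.2.2.1 x.2.2.2.2.1
      x.2.2.2.2.2.1 x.2.2.2.2.2.2.1 x.2.2.2.2.2.2.2)
    (fun _ _ x => (x.1 + 1) * (x.2.1 + 1) * (x.2.2.1 + 1)) := by
  unfold heL
  have hI : RlzQ (a := .prod .nat (.prod .nat (.prod .nat (.prod .arr (.prod .arr
      (.prod .arr (.prod .arr .arr))))))) (b := .arr)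
      (fun K _ x => heI x.1 x.2.1 x.2.2.1 x.2.2.2.2.2.2.2)
      (fun _ _ x => (x.1 + 1) * (x.2.1 + 1)) :=
    (RlzQ.comp heI_rlz (RlzQ.pair (RlzQ.fst RlzQ.input) (RlzQ.pair (RlzQ.fst (RlzQ.snd
      RlzQ.input)) (RlzQ.pair (RlzQ.fst (RlzQ.snd (RlzQ.snd RlzQ.input)))
        (RlzQ.snd (RlzQ.snd (RlzQ.snd (RlzQ.snd (RlzQ.snd (RlzQ.snd (RlzQ.snd
          RlzQ.input))))))))))).mono 1 (fun K _ x => by simp only [zero_add, add_zero]; omega)
  refine (RlzQ.iter (a := .prod .nat (.prod .nat (.prod .nat (.prod .arr (.prod .arr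
      (.prod .arr (.prod .arr .arr))))))) (b := .arr)
    (f := fun K _ x s i => heB x.1 x.2.1 x.2.2.1 x.2.2.2.1 x.2.2.2.2.1
      x.2.2.2.2.2.1 x.2.2.2.2.2.2.1 x.2.2.2.2.2.2.2 s i)
    (RlzQ.sub (RlzQ.fst (RlzQ.snd (RlzQ.snd RlzQ.input))) (RlzQ.lit 1)) hI heB_rlz).mono 4
    (fun K _ x => ?_)
  simp only [zero_add, add_zero, Finset.sum_const, Finset.card_range, smul_eq_mul]
  exact heArith x.1 x.2.1 x.2.2.1

section
variable {K : Type} [Field K]

/-- the whole algorithm -/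
private noncomputable def heF (B d M : ℕ) (G V D : ℕ → K) : ℕ → K :=
  heL B d M G (heV d V) (heG d (castT K (d + M + 1)) G) (castT K (d + M + 1)) D

end

private theorem heF_rlz :
    RlzQ (a := .prod .nat (.prod .nat (.prod .nat (.prod .arr (.prod .arr .arr))))) (b := .arr)
    (fun K _ x => heF x.1 x.2.1 x.2.2.1 x.2.2.2.1 x.2.2.2.2.1 x.2.2.2.2.2)
    (fun _ _ x => (x.1 + 1) * (x.2.1 + 1) * (x.2.2.1 + 1) + (x.2.1 + x.2.2.1) ^ 2) := by
  unfold heF
  have hB : RlzQ (a := .prod .nat (.prod .nat (.prod .nat (.prod .arr (.prod .arr .arr)))))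
    (b := .nat) (fun _ _ x => x.1) (fun _ _ _ => 0) := RlzQ.fst RlzQ.input
  have hd : RlzQ (a := .prod .nat (.prod .nat (.prod .nat (.prod .arr (.prod .arr .arr)))))
    (b := .nat) (fun _ _ x => x.2.1) (fun _ _ _ => 0) := RlzQ.fst (RlzQ.snd RlzQ.input)
  have hM : RlzQ (a := .prod .nat (.prod .nat (.prod .nat (.prod .arr (.prod .arr .arr)))))
    (b := .nat) (fun _ _ x => x.2.2.1) (fun _ _ _ => 0) :=
    RlzQ.fst (RlzQ.snd (RlzQ.snd RlzQ.input))
  have hG : RlzQ (a := .prod .nat (.prod .nat (.prod .nat (.prod .arr (.prod .arr .arr)))))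
    (b := .arr) (fun _ _ x => x.2.2.2.1) (fun _ _ _ => 0) :=
    RlzQ.fst (RlzQ.snd (RlzQ.snd (RlzQ.snd RlzQ.input)))
  have hV : RlzQ (a := .prod .nat (.prod .nat (.prod .nat (.prod .arr (.prod .arr .arr)))))
    (b := .arr) (fun _ _ x => x.2.2.2.2.1) (fun _ _ _ => 0) :=
    RlzQ.fst (RlzQ.snd (RlzQ.snd (RlzQ.snd (RlzQ.snd RlzQ.input))))
  have hD : RlzQ (a := .prod .nat (.prod .nat (.prod .nat (.prod .arr (.prod .arr .arr)))))
    (b := .arr) (fun _ _ x => x.2.2.2.2.2) (fun _ _ _ => 0) :=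
    RlzQ.snd (RlzQ.snd (RlzQ.snd (RlzQ.snd (RlzQ.snd RlzQ.input))))
  have hc : RlzQ (a := .prod .nat (.prod .nat (.prod .nat (.prod .arr (.prod .arr .arr)))))
      (b := .arr) (fun K _ x => castT K (x.2.1 + x.2.2.1 + 1))
      (fun _ _ x => (x.2.1 + x.2.2.1 + 1) ^ 2) :=
    (RlzQ.castT (RlzQ.add (RlzQ.add hd hM) (RlzQ.lit 1))).mono 1
      (fun K _ x => by simp only [zero_add, add_zero]; omega)
  have hV' := (RlzQ.comp heV_rlz (RlzQ.pair hd hV))
  have hG' := (RlzQ.comp heG_rlz (RlzQ.pair hd (RlzQ.pair hc hG)))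
  refine (RlzQ.comp heL_rlz (RlzQ.pair hB (RlzQ.pair hd (RlzQ.pair hM (RlzQ.pair hG
    (RlzQ.pair hV' (RlzQ.pair hG' (RlzQ.pair hc hD)))))))).mono 20 (fun K _ x => ?_)
  simp only [zero_add, add_zero]
  nlinarith [Nat.zero_le (x.1 * x.2.1), Nat.zero_le (x.1 * x.2.1 * x.2.2.1),
    Nat.zero_le (x.1 * x.2.2.1), Nat.zero_le (x.2.1 * x.2.2.1)]


section
variable {K : Type} [Field K]

private theorem heTabF {n : ℕ} {f : ℕ → K} {i : ℕ} (h : i < n) : tabF n f i = f i := by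
  simp [tabF, h]

private theorem heIdx {B w k x : ℕ} (hk : k < B) (hx : x < w) : k * w + x < B * w := by
  calc k * w + x < k * w + w := by omega
    _ = (k + 1) * w := by ring
    _ ≤ B * w := Nat.mul_le_mul_right _ hk

private theorem heDiv {w k x : ℕ} (hx : x < w) : (k * w + x) / w = k := by
  rw [Nat.div_eq_iff (by omega)]
  constructor
  · omega
  · have : (k + 1) * w = k * w + w := by ring
    omega

private theorem heMod {w k x : ℕ} (hx : x < w) : (k * w + x) % w = x := by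
  rw [Nat.mul_add_mod_self_right, Nat.mod_eq_of_lt hx]

private theorem heCoeff0 {p : K[X]} {d n : ℕ} (hp : p.degree < (d : ℕ)) (hn : d ≤ n) :
    p.coeff n = 0 :=
  Polynomial.coeff_eq_zero_of_degree_lt (lt_of_lt_of_le hp (by exact_mod_cast hn))

private theorem heV_spec {d : ℕ} {v : K[X]} {V : ℕ → K} (hv : v.degree < (d : ℕ))
    (hV : ∀ i < d, V i = v.coeff i) (i : ℕ) : heV d V i = v.coeff i := by
  unfold heV tabF
  split_ifs with h
  · exact hV i h
  · exact (heCoeff0 hv (by omega)).symm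

private theorem heG_spec {d : ℕ} {g : K[X]} {G c : ℕ → K} (hg : g.Monic) (hd : g.natDegree = d)
    (hG : ∀ i < d, G i = g.coeff i) (hc : ∀ i ≤ d, c i = (i : K)) (i : ℕ) :
    heG d c G i = (derivative g).coeff i := by
  unfold heG tabF
  rw [Polynomial.coeff_derivative]
  by_cases h : i < d
  · rw [if_pos h]
    beta_reduce
    by_cases h' : i + 1 < d
    · rw [if_pos h', hc _ h'.le, hG _ h']
      push_cast
      ring
    · have : i + 1 = d := by omega
      have h2 : g.coeff (i + 1) = 1 := by rw [this, ← hd]; exact hg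
      rw [if_neg h', hc _ (by omega), h2]
      push_cast
      ring
  · rw [if_neg h, Polynomial.coeff_eq_zero_of_natDegree_lt (by omega), zero_mul]

private theorem hePad_spec {B d k : ℕ} {T : ℕ → K} {P : K[X]} (hk : k < B)
    (hP : P.degree < (d : ℕ)) (hT : ∀ j < d, T (k * d + j) = P.coeff j) (x : ℕ) (hx : x < 2 * d) :
    padB B d (2 * d) T (k * (2 * d) + x) = P.coeff x := by
  unfold padB
  rw [heTabF (heIdx hk hx), heDiv hx, heMod hx]
  split_ifs with h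
  · exact hT x h
  · exact (heCoeff0 hP (by omega)).symm

private theorem heConv_spec {B w k : ℕ} {G A : ℕ → K} {p q : K[X]} (hk : k < B)
    (hG : ∀ j < w, G j = p.coeff j) (hA : ∀ j < w, A (k * w + j) = q.coeff j) (x : ℕ)
    (hx : x < w) : convB B w G A (k * w + x) = (p * q).coeff x := by
  unfold convB
  rw [heTabF (heIdx hk hx), heDiv hx, heMod hx, Polynomial.coeff_mul,
    Finset.Nat.sum_antidiagonal_eq_sum_range_succ_mk]
  refine Finset.sum_congr rfl fun j hj => ?_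
  have hj' : j < x + 1 := Finset.mem_range.1 hj
  rw [hG j (by omega), hA (x - j) (by omega)]

private theorem heBlk {w k : ℕ} {A : ℕ → K} {P : K[X]} (hP : P.degree < (w : ℕ))
    (hA : ∀ j < w, A (k * w + j) = P.coeff j) : blk w A k = P := by
  unfold blk
  ext n
  rw [Polynomial.finsetSum_coeff]
  simp only [Polynomial.coeff_monomial]
  rw [Finset.sum_ite_eq']
  split_ifs with h
  · exact hA n (Finset.mem_range.1 h)
  · exact (heCoeff0 hP (by simpa using h)).symm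

private theorem heGmon {d : ℕ} {g : K[X]} {G : ℕ → K} (hg : g.Monic) (hd : g.natDegree = d)
    (hG : ∀ i < d, G i = g.coeff i) : gmon d G = g := by
  unfold gmon
  conv_rhs => rw [Polynomial.Monic.as_sum hg, hd]
  congr 1
  refine Finset.sum_congr rfl fun i hi => ?_
  rw [hG i (Finset.mem_range.1 hi), Polynomial.C_mul_X_pow_eq_monomial]

private theorem heMod_spec {B w d k : ℕ} {g P : K[X]} {G A : ℕ → K} (hk : k < B) (hg : g.Monic)
    (hd : g.natDegree = d) (hG : ∀ i < d, G i = g.coeff i) (hP : P.degree < (w : ℕ))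
    (hA : ∀ j < w, A (k * w + j) = P.coeff j) (x : ℕ) (hx : x < w) :
    modB B w d G A (k * w + x) = (P %ₘ g).coeff x := by
  unfold modB
  rw [heTabF (heIdx hk hx), heDiv hx, heMod hx, heBlk hP hA, heGmon hg hd hG]

private theorem heDiv_spec {B w d k : ℕ} {g P : K[X]} {G A : ℕ → K} (hk : k < B) (hg : g.Monic)
    (hd : g.natDegree = d) (hG : ∀ i < d, G i = g.coeff i) (hP : P.degree < (w : ℕ))
    (hA : ∀ j < w, A (k * w + j) = P.coeff j) (x : ℕ) (hx : x < w) :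
    divB B w d G A (k * w + x) = (P /ₘ g).coeff x := by
  unfold divB
  rw [heTabF (heIdx hk hx), heDiv hx, heMod hx, heBlk hP hA, heGmon hg hd hG]

private theorem heDegMul {d : ℕ} {p q : K[X]} (hd : 1 ≤ d) (hp : p.degree < (d : ℕ))
    (hq : q.degree < (d : ℕ)) : (p * q).degree < ((2 * d : ℕ) : WithBot ℕ) := by
  rw [Polynomial.degree_mul]
  rcases eq_or_ne p 0 with rfl | h0
  · simp only [degree_zero, WithBot.bot_add]
    exact WithBot.bot_lt_coe _
  rcases eq_or_ne q 0 with rfl | h1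
  · simp only [degree_zero, WithBot.add_bot]
    exact WithBot.bot_lt_coe _
  rw [Polynomial.degree_eq_natDegree h0, Polynomial.degree_eq_natDegree h1] at *
  have h2 : p.natDegree < d := by exact_mod_cast hp
  have h3 : q.natDegree < d := by exact_mod_cast hq
  have h4 : p.natDegree + q.natDegree < 2 * d := by omega
  exact_mod_cast h4

private theorem heStep_spec {B d M : ℕ} {g v : K[X]} {t : ℕ → ℕ → K[X]} {G V G' c D T : ℕ → K}
    {P : ℕ → K[X]} {i : ℕ} (hd1 : 1 ≤ d) (hg : g.Monic) (hd : g.natDegree = d)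
    (hv : v.degree < (d : ℕ)) (hG : ∀ i < d, G i = g.coeff i) (hV : ∀ i, V i = v.coeff i)
    (hG' : ∀ i, G' i = (derivative g).coeff i) (hc : ∀ i ≤ d + M, c i = (i : K))
    (hD : ∀ k < B, ∀ c < M, ∀ i < d, D ((k * M + c) * d + i) = (t k (c + 1)).coeff (d - 1 - i))
    (hi : i + 1 ≤ M - 1) (hP : ∀ k < B, (P k).degree < (d : ℕ))
    (hT : ∀ k < B, ∀ j < d, T (k * d + j) = (P k).coeff j) :
    ∀ k < B, ∀ j < d, heB B d M G V G' c D T i (k * d + j) =
      (hstep g v (M - (i + 1)) (t k (M - (i + 1))) (P k)).coeff j := by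
  intro k hk j hj
  have hgd : g.degree = (d : ℕ) := by rw [Polynomial.degree_eq_natDegree hg.ne_zero, hd]
  have hdg' : (derivative g).degree < (d : ℕ) := by
    rw [← hgd]
    exact Polynomial.degree_derivative_lt hg.ne_zero
  set w := P k * v %ₘ g with hw
  have hwd : w.degree < (d : ℕ) := by rw [← hgd]; exact Polynomial.degree_modByMonic_lt _ hg
  have h2d : ((d : ℕ) : WithBot ℕ) ≤ ((2 * d : ℕ) : WithBot ℕ) := by
    exact_mod_cast (by omega : d ≤ 2 * d)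
  -- the remainders
  have hW : ∀ x < 2 * d, heW B d G V T (k * (2 * d) + x) = w.coeff x := by
    intro x hx
    unfold heW
    rw [heMod_spec (P := v * P k) hk hg hd hG (heDegMul hd1 hv (hP k hk)) ?_ x hx, hw, mul_comm v]
    intro y hy
    exact heConv_spec hk (fun j _ => hV j) (hePad_spec hk (hP k hk) (hT k hk)) y hy
  -- the difference
  have hS : ∀ x < 2 * d, heS B d G' T (heW B d G V T) (k * (2 * d) + x) =
      (P k - w * derivative g).coeff x := by
    intro x hx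
    unfold heS
    rw [heTabF (heIdx hk hx), hePad_spec hk (hP k hk) (hT k hk) x hx,
      heConv_spec hk (fun j _ => hG' j) hW x hx, Polynomial.coeff_sub, mul_comm w]
  have hSd : (P k - w * derivative g).degree < ((2 * d : ℕ) : WithBot ℕ) :=
    lt_of_le_of_lt (Polynomial.degree_sub_le _ _)
      (max_lt (lt_of_lt_of_le (hP k hk) h2d) (heDegMul hd1 hwd hdg'))
  have hU : ∀ x < 2 * d, heU B d G G' T (heW B d G V T) (k * (2 * d) + x) =
      ((P k - w * derivative g) /ₘ g).coeff x := by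
    intro x hx
    unfold heU
    exact heDiv_spec hk hg hd hG hSd hS x hx
  unfold heB heN hstep
  rw [heTabF (heIdx hk hj), heDiv hj, heMod hj, hW _ (by omega), hU _ (by omega),
    hD k hk _ (by omega) _ (by omega), hc _ (by omega), hc _ (by omega), ← hw]
  simp only [Polynomial.coeff_add, Polynomial.coeff_C_mul, Polynomial.coeff_derivative]
  rw [show M - (i + 1) - 1 + 1 = M - (i + 1) by omega, show d - 1 - (d - 1 - j) = j by omega]
  push_cast
  ring

private theorem heF_spec {B d M : ℕ} {g v : K[X]} {t : ℕ → ℕ → K[X]} {G V D : ℕ → K}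
    (hd1 : 1 ≤ d) (hM : 1 ≤ M) (hg : g.Monic) (hd : g.natDegree = d) (hv : v.degree < (d : ℕ))
    (ht : ∀ k < B, ∀ l ∈ Finset.Icc 1 M, (t k l).degree < (d : ℕ))
    (hG : ∀ i < d, G i = g.coeff i) (hV : ∀ i < d, V i = v.coeff i)
    (hD : ∀ k < B, ∀ c < M, ∀ i < d,
      D ((k * M + c) * d + i) = (t k (c + 1)).coeff (d - 1 - i)) :
    ∀ k < B, ∀ j < d, heF B d M G V D (k * d + j) = (herm g v (t k) M (M - 1)).coeff j := by
  have hc : ∀ i ≤ d + M, castT K (d + M + 1) i = (i : K) := fun i hi =>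
    heTabF (f := fun i : ℕ => (i : K)) (by omega)
  have key : ∀ n ≤ M - 1, ∀ k < B, ∀ j < d,
      iterF n (heI B d M D) (fun T i => heB B d M G (heV d V) (heG d (castT K (d + M + 1)) G)
        (castT K (d + M + 1)) D T i) (k * d + j) = (herm g v (t k) M n).coeff j := by
    intro n
    induction n with
    | zero =>
      intro _ k hk j hj
      rw [iterF_zero]
      unfold heI
      rw [heTabF (heIdx hk hj), heDiv hj, heMod hj, hD k hk _ (by omega) _ (by omega),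
        show M - 1 + 1 = M by omega, show d - 1 - (d - 1 - j) = j by omega]
      rfl
    | succ n ih =>
      intro hn k hk j hj
      rw [iterF_succ]
      exact heStep_spec (P := fun k => herm g v (t k) M n) hd1 hg hd hv hG
        (heV_spec hv hV) (heG_spec hg hd hG (fun i hi => hc i (by omega))) hc hD hn
        (fun k hk => by
          have := herm_degree (v := v) hg (t := t k) (M := M) (by rw [hd]; exact ht k hk) hM n
            (by omega)
          rwa [hd] at this)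
        (ih (by omega)) k hk j hj
  intro k hk j hj
  exact key (M - 1) le_rfl k hk j hj

end

theorem hermite_rlz :
    ∃ F : Fam (.prod .nat (.prod .nat (.prod .nat (.prod .arr (.prod .arr .arr))))) .arr,
    RlzQ F (fun _ _ x => (x.1 + 1) * (x.2.1 + 1) * (x.2.2.1 + 1) + (x.2.1 + x.2.2.1) ^ 2) ∧
    ∀ (K : Type) [Field K] (B d M : ℕ) (g v : K[X]) (t : ℕ → ℕ → K[X]) (G V D : ℕ → K),
      1 ≤ d → 1 ≤ M → g.Monic → g.natDegree = d → v.degree < d →
      (∀ k < B, ∀ l ∈ Finset.Icc 1 M, (t k l).degree < d) →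
      (∀ i < d, G i = g.coeff i) → (∀ i < d, V i = v.coeff i) →
      (∀ k < B, ∀ c < M, ∀ i < d, D ((k * M + c) * d + i) = (t k (c + 1)).coeff (d - 1 - i)) →
      ∀ k < B, ∀ j < d, F K (B, (d, (M, (G, (V, D))))) (k * d + j) =
        (herm g v (t k) M (M - 1)).coeff j :=
  ⟨_, heF_rlz, fun K _ _ _ _ _ _ _ _ _ _ h1 h2 h3 h4 h5 h6 h7 h8 h9 =>
    heF_spec h1 h2 h3 h4 h5 h6 h7 h8 h9⟩

end Pool.Agent.AbsIrr
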