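import Mathlib
import Pool.Agent.Lib.MP_2adc98_lc.ADefs
import Pool.Agent.Lib.MP_2adc98_lc.BL
import Pool.Agent.Lib.MP_2adc98_lc.FME

/-!
# MP_2adc98_lc: GR, the Graeffe loop on flat arrays
-/

set_option autoImplicit false

namespace Pool.Agent.AbsIrr

open Finset Polynomial

section GR

/-- the array of `A(-x)`: rows of width `w` with odd index are negated -/
private def grNeg {K : Type} [Field K] (n w : ℕ) (A : ℕ → K) : ℕ → K :=
  tabF n (fun k => if (k / w) % 2 < 1 then A k else - A k)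

/-- keep the entries of the even rows of width `w` -/
private def grSel {K : Type} [Field K] (n w s : ℕ) (C : ℕ → K) : ℕ → K :=
  tabF n (fun k => if k % (2 * w) < w then C (k + s) else 0)

/-- one step of the Graeffe loop -/
private def grStep {K : Type} [Field K] (n w : ℕ) (S : (ℕ → K) × (ℕ → K)) : (ℕ → K) × (ℕ → K) :=
  (grSel n w 0 (conv n S.1 (grNeg n w S.1)), grSel n w w (conv n S.2 (grNeg n w S.1)))

private theorem grNeg_rlz : RlzQ (a := .prod .nat (.prod .nat .arr)) (b := .arr)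
    (fun _ _ x => grNeg x.1 x.2.1 x.2.2) (fun _ _ x => x.1) := by
  unfold grNeg
  apply RlzQ.mono
  case h =>
    apply_rules [RlzQ.tab, RlzQ.iteLt, RlzQ.mod, RlzQ.div, RlzQ.fneg, RlzQ.get, RlzQ.fst, RlzQ.snd, RlzQ.input, RlzQ.lit]
  case A => exact 3
  case hc =>
    intro K _ x
    simp only [Finset.sum_const_zero, add_zero, zero_add, ite_self]
    omega

private theorem grSel_rlz : RlzQ (a := .prod .nat (.prod .nat (.prod .nat .arr))) (b := .arr)
    (fun _ _ x => grSel x.1 x.2.1 x.2.2.1 x.2.2.2) (fun _ _ x => x.1) := by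
  unfold grSel
  apply RlzQ.mono
  case h =>
    apply_rules [RlzQ.tab, RlzQ.iteLt, RlzQ.mod, RlzQ.add, RlzQ.mul, RlzQ.get, RlzQ.zero, RlzQ.fst, RlzQ.snd, RlzQ.input, RlzQ.lit]
  case A => exact 3
  case hc =>
    intro K _ x
    simp only [Finset.sum_const_zero, add_zero, zero_add, ite_self]
    omega

private theorem RlzQ.grNeg {a : Ty} {N W : Fam a .nat} {A : Fam a .arr} {cn cw ca : CFam a}
    (hN : RlzQ N cn) (hW : RlzQ W cw) (hA : RlzQ A ca) :
    RlzQ (b := .arr) (fun K _ x => grNeg (N K x) (W K x) (A K x))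
      (fun K _ x => cn K x + cw K x + ca K x + N K x) :=
  (RlzQ.comp grNeg_rlz (RlzQ.pair hN (RlzQ.pair hW hA))).mono 1 (fun K _ x => by simp; omega)

private theorem RlzQ.grSel {a : Ty} {N W S : Fam a .nat} {A : Fam a .arr} {cn cw cs ca : CFam a}
    (hN : RlzQ N cn) (hW : RlzQ W cw) (hS : RlzQ S cs) (hA : RlzQ A ca) :
    RlzQ (b := .arr) (fun K _ x => grSel (N K x) (W K x) (S K x) (A K x))
      (fun K _ x => cn K x + cw K x + cs K x + ca K x + N K x) :=
  (RlzQ.comp grSel_rlz (RlzQ.pair hN (RlzQ.pair hW (RlzQ.pair hS hA)))).mono 1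
    (fun K _ x => by simp; omega)

private theorem grStep_rlz : RlzQ (a := .prod .nat (.prod .nat (.prod .arr .arr)))
    (b := .prod .arr .arr)
    (fun _ _ x => grStep x.1 x.2.1 x.2.2) (fun _ _ x => x.1) := by
  unfold grStep
  apply RlzQ.mono
  case h =>
    apply RlzQ.pair <;>
    apply_rules [RlzQ.grSel, RlzQ.grNeg, RlzQ.conv, RlzQ.fst, RlzQ.snd, RlzQ.input,
      RlzQ.lit]
  case A => exact 10
  case hc =>
    intro K _ x
    omega

private theorem gr_cost (κ d : ℕ) :
    κ + ∑ i ∈ range κ, (2 ^ κ + 2 ^ i + 2 ^ κ * (4 * d)) ≤ 20 * Phi 20 (2 ^ κ * (d + 1)) := by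
  have h1 : ∑ i ∈ range κ, (2 ^ κ + 2 ^ i + 2 ^ κ * (4 * d)) ≤ κ * (4 * (2 ^ κ * (d + 1))) := by
    refine sum_range_le fun i hi => ?_
    have : 2 ^ i ≤ 2 ^ κ := Nat.pow_le_pow_right (by omega) hi.le
    have e : 4 * (2 ^ κ * (d + 1)) = 2 ^ κ * (4 * d) + 4 * 2 ^ κ := by ring
    omega
  have h2 : κ ≤ Nat.log 2 (2 ^ κ * (d + 1) + 1) := by
    refine Nat.le_log_of_pow_le (by omega) ?_
    nlinarith [Nat.zero_le (2 ^ κ * d)]
  have h3 : κ * (4 * (2 ^ κ * (d + 1))) + κ ≤ 4 * Phi 1 (2 ^ κ * (d + 1)) := by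
    unfold Phi
    rw [pow_one]
    calc κ * (4 * (2 ^ κ * (d + 1))) + κ ≤ 4 * ((2 ^ κ * (d + 1) + 1) * κ) := by
          nlinarith [Nat.zero_le κ]
      _ ≤ _ := by gcongr; omega
  have h4 : Phi 1 (2 ^ κ * (d + 1)) ≤ Phi 20 (2 ^ κ * (d + 1)) := Phi_mono (by omega) le_rfl
  omega

/-- the loop -/
private def grLoop {K : Type} [Field K] (κ d : ℕ) (S : (ℕ → K) × (ℕ → K)) :
    (ℕ → K) × (ℕ → K) :=
  iterF κ S (fun s h => grStep (2 ^ κ * (4 * d)) (4 * d * 2 ^ h) s)

private theorem grLoop_rlz : RlzQ (a := .prod .nat (.prod .nat (.prod .arr .arr)))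
    (b := .prod .arr .arr)
    (fun _ _ x => grLoop x.1 x.2.1 x.2.2) (fun _ _ x => 2 ^ x.1 * (x.2.1 + 1)) := by
  have hN : RlzQ (a := .prod .nat (.prod .nat (.prod .arr .arr))) (b := .nat)
      (fun _ _ x => 2 ^ x.1 * (4 * x.2.1)) (fun _ _ x => 2 ^ x.1) := by
    apply RlzQ.mono
    case h =>
      apply_rules [RlzQ.mul, RlzQ.npow, RlzQ.fst, RlzQ.snd, RlzQ.input, RlzQ.lit]
    case A => exact 2
    case hc =>
      intro K _ x
      have := (Nat.lt_two_pow_self (n := x.1)).le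
      omega
  have hW : RlzQ (a := .prod (.prod (.prod .nat (.prod .nat (.prod .arr .arr))) (.prod .arr .arr))
      .nat) (b := .nat) (fun _ _ y => 4 * y.1.1.2.1 * 2 ^ y.2) (fun _ _ y => 2 ^ y.2) := by
    apply RlzQ.mono
    case h =>
      apply_rules [RlzQ.mul, RlzQ.npow, RlzQ.fst, RlzQ.snd, RlzQ.input, RlzQ.lit]
    case A => exact 2
    case hc =>
      intro K _ x
      have := (Nat.lt_two_pow_self (n := x.2)).le
      omega
  unfold grLoop
  refine (RlzQ.iter (a := .prod .nat (.prod .nat (.prod .arr .arr))) (b := .prod .arr .arr)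
      (f := fun K _ x s h => grStep (2 ^ x.1 * (4 * x.2.1)) (4 * x.2.1 * 2 ^ h) s) 
      (RlzQ.fst RlzQ.input) (RlzQ.snd (RlzQ.snd RlzQ.input))
      (RlzQ.comp grStep_rlz (RlzQ.pair (RlzQ.comp hN (RlzQ.fst (RlzQ.fst RlzQ.input))) 
        (RlzQ.pair hW (RlzQ.snd (RlzQ.fst RlzQ.input)))))).mono' 20 (fun K _ x => ?_)
  have h := gr_cost x.1 x.2.1
  simp only [zero_add, add_zero]
  exact h

variable {K : Type} [Field K]

/-- `t`-degree less than `a` -/
private def grDeg (a : ℕ) (P : PowerSeries (PowerSeries K)) : Prop :=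
  ∀ i n, a ≤ n → PowerSeries.coeff n (PowerSeries.coeff i P) = 0

private theorem grDeg_mul {a b : ℕ} {P Q : PowerSeries (PowerSeries K)} (hP : grDeg a P)
    (hQ : grDeg b Q) (ha : 1 ≤ a) : grDeg (a + b - 1) (P * Q) := by
  intro i n hn
  rw [PowerSeries.coeff_mul, map_sum]
  refine Finset.sum_eq_zero fun x _ => ?_
  rw [PowerSeries.coeff_mul]
  refine Finset.sum_eq_zero fun y hy => ?_
  rw [Finset.HasAntidiagonal.mem_antidiagonal] at hy
  by_cases h : a ≤ y.1
  · rw [hP _ _ h, zero_mul]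
  · rw [hQ _ _ (by omega), mul_zero]

/-- Kronecker substitution -/
private theorem flat_mul {w a b : ℕ} (hw : 0 < w) {P Q : PowerSeries (PowerSeries K)}
    (hP : grDeg a P) (hQ : grDeg b Q) (hab : a + b ≤ w + 1) (n : ℕ) :
    ∑ j ∈ range (n + 1), flat w P j * flat w Q (n - j) = flat w (P * Q) n := by
  rw [← Finset.Nat.sum_antidiagonal_eq_sum_range_succ (fun i j => flat w P i * flat w Q j) n]
  have h1 : flat w (P * Q) n = ∑ x ∈ antidiagonal (n / w) ×ˢ antidiagonal (n % w),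
      PowerSeries.coeff x.2.1 (PowerSeries.coeff x.1.1 P) *
        PowerSeries.coeff x.2.2 (PowerSeries.coeff x.1.2 Q) := by
    rw [flat, PowerSeries.coeff_mul, map_sum, Finset.sum_product]
    refine Finset.sum_congr rfl fun x _ => ?_
    rw [PowerSeries.coeff_mul]
  rw [h1]
  symm
  refine Finset.sum_of_injOn (fun x => (w * x.1.1 + x.2.1, w * x.1.2 + x.2.2)) ?_ ?_ ?_ ?_
  · rintro ⟨⟨i, i'⟩, ⟨r, r'⟩⟩ hx ⟨⟨j, j'⟩, ⟨s, s'⟩⟩ hy h
    simp only [Finset.coe_product, Set.mem_prod, Finset.mem_coe,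
      Finset.HasAntidiagonal.mem_antidiagonal] at hx hy
    simp only [Prod.mk.injEq] at h
    have hlt := Nat.mod_lt n hw
    have e1 : ∀ i r : ℕ, r < w → (w * i + r) / w = i ∧ (w * i + r) % w = r := fun i r hr =>
      ⟨by rw [Nat.mul_add_div hw, Nat.div_eq_of_lt hr, add_zero],
        by rw [Nat.mul_add_mod, Nat.mod_eq_of_lt hr]⟩
    have a1 := e1 i r (by omega)
    have a2 := e1 j s (by omega)
    have a3 := e1 i' r' (by omega)
    have a4 := e1 j' s' (by omega)
    rw [h.1] at a1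
    rw [h.2] at a3
    simp only [Prod.mk.injEq]
    exact ⟨⟨a1.1.symm.trans a2.1, a3.1.symm.trans a4.1⟩, ⟨a1.2.symm.trans a2.2, a3.2.symm.trans a4.2⟩⟩
  · rintro ⟨⟨i, i'⟩, ⟨r, r'⟩⟩ hx
    simp only [Finset.coe_product, Set.mem_prod, Finset.mem_coe,
      Finset.HasAntidiagonal.mem_antidiagonal] at hx ⊢
    have := Nat.div_add_mod n w
    rw [← hx.1, ← hx.2] at this
    rw [← this]
    ring
  · rintro ⟨j, l⟩ hjl hn
    rw [Finset.HasAntidiagonal.mem_antidiagonal] at hjl
    simp only at hjl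
    by_cases hc : j % w + l % w < w
    · exfalso
      apply hn
      refine ⟨((j / w, l / w), (j % w, l % w)), ?_, ?_⟩
      · simp only [Finset.coe_product, Set.mem_prod, Finset.mem_coe,
          Finset.HasAntidiagonal.mem_antidiagonal]
        have e : n = w * (j / w + l / w) + (j % w + l % w) := by
          have := Nat.div_add_mod j w
          have := Nat.div_add_mod l w
          rw [← hjl]
          nlinarith
        constructor
        · rw [e, Nat.mul_add_div hw, Nat.div_eq_of_lt hc, add_zero]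
        · rw [e, Nat.mul_add_mod, Nat.mod_eq_of_lt hc]
      · simp only [Nat.div_add_mod]
    · simp only [flat]
      by_cases h : a ≤ j % w
      · rw [hP _ _ h, zero_mul]
      · rw [hQ _ _ (by omega), mul_zero]
  · rintro ⟨⟨i, i'⟩, ⟨r, r'⟩⟩ hx
    simp only [Finset.mem_product, Finset.HasAntidiagonal.mem_antidiagonal] at hx
    have hlt := Nat.mod_lt n hw
    simp only [flat]
    rw [Nat.mul_add_div hw, Nat.div_eq_of_lt (show r < w by omega), add_zero,
      Nat.mul_add_mod, Nat.mod_eq_of_lt (show r < w by omega), Nat.mul_add_div hw,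
      Nat.div_eq_of_lt (show r' < w by omega), add_zero,
      Nat.mul_add_mod, Nat.mod_eq_of_lt (show r' < w by omega)]

private theorem gr_coeff_neg (P : PowerSeries (PowerSeries K)) (i n : ℕ) :
    PowerSeries.coeff n (PowerSeries.coeff i (PowerSeries.evalNegHom P)) =
      if i % 2 < 1 then PowerSeries.coeff n (PowerSeries.coeff i P)
      else - PowerSeries.coeff n (PowerSeries.coeff i P) := by
  have h : PowerSeries.coeff i (PowerSeries.evalNegHom P) =
      (-1) ^ i * PowerSeries.coeff i P := by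
    simp [PowerSeries.evalNegHom]
  rw [h]
  split_ifs with h2
  · have : Even i := Nat.even_iff.mpr (by omega)
    rw [this.neg_one_pow, one_mul]
  · have : Odd i := Nat.odd_iff.mpr (by omega)
    rw [this.neg_one_pow, neg_one_mul, map_neg]

private theorem grDeg_neg {a : ℕ} {P : PowerSeries (PowerSeries K)} (hP : grDeg a P) :
    grDeg a (PowerSeries.evalNegHom P) := by
  intro i n hn
  rw [gr_coeff_neg, hP _ _ hn, neg_zero, ite_self]

private theorem grNeg_flat {N w k : ℕ} {A : ℕ → K} {P : PowerSeries (PowerSeries K)}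
    (hA : ∀ n < N, A n = flat w P n) (hk : k < N) :
    grNeg N w A k = flat w (PowerSeries.evalNegHom P) k := by
  rw [grNeg, tabF, if_pos hk, flat, gr_coeff_neg, hA k hk, flat]

private theorem conv_flat {N w a b k : ℕ} {A B : ℕ → K} {P Q : PowerSeries (PowerSeries K)}
    (hw : 0 < w) (hP : grDeg a P) (hQ : grDeg b Q) (hab : a + b ≤ w + 1)
    (hA : ∀ n < N, A n = flat w P n) (hB : ∀ n < N, B n = flat w Q n) (hk : k < N) :
    conv N A B k = flat w (P * Q) k := by
  rw [conv, tabF, if_pos hk, ← flat_mul hw hP hQ hab k]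
  refine Finset.sum_congr rfl fun j hj => ?_
  rw [Finset.mem_range] at hj
  rw [hA _ (by omega), hB _ (by omega)]

private theorem grStep_flat {N w m a b : ℕ} {S : (ℕ → K) × (ℕ → K)}
    {P H : PowerSeries (PowerSeries K)} (hw : 0 < w) (hN : N = 2 * w * m) (ha : 1 ≤ a)
    (hP : grDeg a P) (hH : grDeg b H) (hb : 1 ≤ b) (haa : a + a ≤ w + 1) (hab : b + a ≤ w + 1)
    (hA : ∀ n < N, S.1 n = flat w P n) (hB : ∀ n < N, S.2 n = flat w H n) :
    (∀ n < N, (grStep N w S).1 n = flat (2 * w) (gF P) n) ∧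
    (∀ n < N, (grStep N w S).2 n = flat (2 * w) (gH P H) n) := by
  have key : ∀ k s : ℕ, s < 2 → k < N → k % (2 * w) < w → k + s * w < N ∧
      (k + s * w) / w = 2 * (k / (2 * w)) + s ∧ (k + s * w) % w = k % (2 * w) := by
    intro k s hs hk hlt
    have h1 := Nat.div_add_mod k (2 * w)
    have e : k + s * w = w * (2 * (k / (2 * w)) + s) + k % (2 * w) := by
      calc k + s * w = (2 * w * (k / (2 * w)) + k % (2 * w)) + s * w := by rw [h1]
        _ = _ := by ring
    have hq : k / (2 * w) < m := by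
      rw [Nat.div_lt_iff_lt_mul (by omega), mul_comm, ← hN]
      exact hk
    refine ⟨?_, ?_, ?_⟩
    · rw [e, hN]
      calc w * (2 * (k / (2 * w)) + s) + k % (2 * w) < w * (2 * (k / (2 * w)) + 1) + w := by
            have : w * (2 * (k / (2 * w)) + s) ≤ w * (2 * (k / (2 * w)) + 1) :=
              Nat.mul_le_mul_left _ (by omega)
            omega
        _ = 2 * w * (k / (2 * w) + 1) := by ring
        _ ≤ 2 * w * m := Nat.mul_le_mul_left _ (by omega)
    · rw [e, Nat.mul_add_div hw, Nat.div_eq_of_lt hlt, add_zero]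
    · rw [e, Nat.mul_add_mod, Nat.mod_eq_of_lt hlt]
  have hneg := grDeg_neg hP
  constructor
  · intro n hn
    simp only [grStep, grSel, tabF]
    rw [if_pos hn, flat, gF, PowerSeries.coeff_mk]
    split_ifs with h
    · have h1 := key n 0 (by omega) hn h
      rw [add_zero, conv_flat hw hP hneg haa hA (fun k hk => grNeg_flat hA hk) hn, flat]
      rw [zero_mul, add_zero, add_zero] at h1
      rw [h1.2.1, h1.2.2]
    · exact (grDeg_mul hP hneg ha _ _ (by omega)).symm
  · intro n hn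
    simp only [grStep, grSel, tabF]
    rw [if_pos hn, flat, gH, PowerSeries.coeff_mk]
    split_ifs with h
    · have h1 := key n 1 (by omega) hn h
      rw [one_mul] at h1
      rw [conv_flat hw hH hneg hab hB (fun k hk => grNeg_flat hA hk) h1.1, flat, h1.2.1, h1.2.2]
    · exact (grDeg_mul hH hneg hb _ _ (by omega)).symm

private theorem grLoop_spec (κ d : ℕ) (hd : 1 ≤ d) (A B : ℕ → K)
    (P H : PowerSeries (PowerSeries K))
    (hP : ∀ i n, d < n → PowerSeries.coeff n (PowerSeries.coeff i P) = 0)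
    (hH : ∀ i n, 2 * d ≤ n → PowerSeries.coeff n (PowerSeries.coeff i H) = 0)
    (hA : ∀ n < 2 ^ κ * (4 * d), A n = flat (4 * d) P n)
    (hB : ∀ n < 2 ^ κ * (4 * d), B n = flat (4 * d) H n) :
    ∀ h ≤ κ,
      grDeg (d * 2 ^ h + 1) (gFi P h) ∧ grDeg (d * 2 ^ h + d) (gHi P H h) ∧
      (∀ n < 2 ^ κ * (4 * d), (iterF h (A, B)
        (fun s h => grStep (2 ^ κ * (4 * d)) (4 * d * 2 ^ h) s)).1 n =
          flat (4 * d * 2 ^ h) (gFi P h) n) ∧
      (∀ n < 2 ^ κ * (4 * d), (iterF h (A, B)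
        (fun s h => grStep (2 ^ κ * (4 * d)) (4 * d * 2 ^ h) s)).2 n =
          flat (4 * d * 2 ^ h) (gHi P H h) n) := by
  intro h
  induction h with
  | zero =>
    intro _
    simp only [gFi, gHi, pow_zero, mul_one, Function.iterate_zero, id_eq, iterF_zero]
    exact ⟨fun i n hn => hP i n (by omega), fun i n hn => hH i n (by omega), hA, hB⟩
  | succ h ih =>
    intro hh
    obtain ⟨i1, i2, i3, i4⟩ := ih (by omega)
    have e1 : gFi P (h + 1) = gF (gFi P h) := by
      rw [gFi, gFi, Function.iterate_succ_apply']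
    have e2 : gHi P H (h + 1) = gH (gFi P h) (gHi P H h) := rfl
    have hpos : 1 ≤ 2 ^ h := Nat.one_le_two_pow
    have hd2 : d ≤ d * 2 ^ h := Nat.le_mul_of_pos_right _ hpos
    have e3 : 4 * d * 2 ^ h = 4 * (d * 2 ^ h) := by ring
    have e4 : 4 * d * 2 ^ (h + 1) = 2 * (4 * d * 2 ^ h) := by ring
    have e5 : d * 2 ^ (h + 1) = 2 * (d * 2 ^ h) := by ring
    have hN : 2 ^ κ * (4 * d) = 2 * (4 * d * 2 ^ h) * 2 ^ (κ - (h + 1)) := by
      have : 2 ^ κ = 2 ^ (h + 1) * 2 ^ (κ - (h + 1)) := by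
        rw [← pow_add]
        congr 1
        omega
      rw [this]
      ring
    have hst := grStep_flat (w := 4 * d * 2 ^ h) (by positivity) hN (by omega) i1 i2 (by omega)
      (by omega) (by omega) i3 i4
    rw [e1, e2, e4, iterF_succ]
    refine ⟨?_, ?_, hst.1, hst.2⟩
    · intro i n hn
      rw [gF, PowerSeries.coeff_mk]
      exact grDeg_mul i1 (grDeg_neg i1) (by omega) _ _ (by omega)
    · intro i n hn
      rw [gH, PowerSeries.coeff_mk]
      exact grDeg_mul i2 (grDeg_neg i1) (by omega) _ _ (by omega)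

/-- the Graeffe loop.  Input `(κ, (d, (A, B)))` -/
theorem graeffe_rlz : ∃ F : Fam (.prod .nat (.prod .nat (.prod .arr .arr))) .arr,
    RlzQ F (fun _ _ x => 2 ^ x.1 * (x.2.1 + 1)) ∧
    ∀ (K : Type) [Field K] (κ d : ℕ) (A B : ℕ → K) (P H : PowerSeries (PowerSeries K)), 1 ≤ d →
      (∀ i n, d < n → PowerSeries.coeff n (PowerSeries.coeff i P) = 0) →
      (∀ i n, 2 * d ≤ n → PowerSeries.coeff n (PowerSeries.coeff i H) = 0) →
      (∀ n < 2 ^ κ * (4 * d), A n = flat (4 * d) P n) →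
      (∀ n < 2 ^ κ * (4 * d), B n = flat (4 * d) H n) →
      ∀ n < 2 ^ κ * (4 * d), F K (κ, (d, (A, B))) n =
        PowerSeries.coeff n (PowerSeries.constantCoeff (gHi P H κ)) := by
  refine ⟨fun _ _ x => (grLoop x.1 x.2.1 x.2.2).2, RlzQ.snd grLoop_rlz, ?_⟩
  intro K _ κ d A B P H hd hP hH hA hB n hn
  have h := (grLoop_spec κ d hd A B P H hP hH hA hB κ le_rfl).2.2.2 n hn
  have e : 4 * d * 2 ^ κ = 2 ^ κ * (4 * d) := by ring
  rw [e] at h
  refine h.trans ?_
  rw [flat, Nat.div_eq_of_lt hn, Nat.mod_eq_of_lt hn,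
    PowerSeries.coeff_zero_eq_constantCoeff_apply]

end GR

end Pool.Agent.AbsIrr
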