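import Mathlib
import Pool.Agent.Lib.MP_2adc98_lc.Spec

/-!
# MP_2adc98: M10, the Graeffe loop
-/

set_option autoImplicit false

namespace Pool.Agent.AbsIrr

open Polynomial

section
variable {K : Type*} [Field K]

private theorem coeff_coeff_swp (P : PowerSeries K[X]) (i n : ℕ) :
    PowerSeries.coeff n (PowerSeries.coeff i (swp P)) = (PowerSeries.coeff n P).coeff i := by
  simp [swp]

private theorem swp_mul (P Q : PowerSeries K[X]) : swp (P * Q) = swp P * swp Q := by
  ext i n
  rw [coeff_coeff_swp, PowerSeries.coeff_mul, PowerSeries.coeff_mul, map_sum, finsetSum_coeff]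
  simp only [PowerSeries.coeff_mul, Polynomial.coeff_mul, coeff_coeff_swp]
  rw [Finset.sum_comm]

private theorem swp_one : swp (1 : PowerSeries K[X]) = 1 := by
  ext i n
  rw [coeff_coeff_swp, PowerSeries.coeff_one, PowerSeries.coeff_one]
  by_cases hi : i = 0 <;> by_cases hn : n = 0 <;>
    simp [hi, hn, Polynomial.coeff_one, PowerSeries.coeff_one]

theorem swp_EF {N d : ℕ} {f Ω : K[X][X]} (hf : f.Monic) (hfd : f.natDegree = d) (n : ℕ) :
    ∃ u : (PowerSeries K)ˣ, (u : PowerSeries K) = PowerSeries.constantCoeff (swp (rv d f)) ∧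
      W N d f Ω n = PowerSeries.coeff n (PowerSeries.coeff (N - 1)
        (swp (rv (2 * d - 2) (Ω * derivative f)) * PowerSeries.invOfUnit (swp (rv d f)) u)) := by
  have h0 : PowerSeries.constantCoeff (rv d f) = 1 := by
    rw [rv, ← PowerSeries.coeff_zero_eq_constantCoeff_apply, Polynomial.coeff_coe, coeff_reflect,
      revAt_le (Nat.zero_le _), Nat.sub_zero, ← hfd]
    exact hf.coeff_natDegree
  have h1 : rv d f * PowerSeries.invOfUnit (rv d f) 1 = 1 :=
    PowerSeries.mul_invOfUnit _ _ (by simp [h0])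
  have h2 : swp (rv d f) * swp (PowerSeries.invOfUnit (rv d f) 1) = 1 := by
    rw [← swp_mul, h1, swp_one]
  have h3 : PowerSeries.constantCoeff (swp (rv d f)) *
      PowerSeries.constantCoeff (swp (PowerSeries.invOfUnit (rv d f) 1)) = 1 := by
    rw [← map_mul, h2, map_one]
  refine ⟨Units.mkOfMulEqOne _ _ h3, rfl, ?_⟩
  have h4 : PowerSeries.invOfUnit (swp (rv d f)) (Units.mkOfMulEqOne _ _ h3) =
      swp (PowerSeries.invOfUnit (rv d f) 1) := by
    have h5 := PowerSeries.mul_invOfUnit (swp (rv d f)) (Units.mkOfMulEqOne _ _ h3) rfl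
    calc _ = PowerSeries.invOfUnit (swp (rv d f)) (Units.mkOfMulEqOne _ _ h3) *
        (swp (rv d f) * swp (PowerSeries.invOfUnit (rv d f) 1)) := by rw [h2, mul_one]
      _ = (swp (rv d f) * PowerSeries.invOfUnit (swp (rv d f)) (Units.mkOfMulEqOne _ _ h3)) *
          swp (PowerSeries.invOfUnit (rv d f) 1) := by ring
      _ = _ := by rw [h5, one_mul]
  rw [h4, ← swp_mul, coeff_coeff_swp, W, EF]

end

section
variable {R : Type*} [CommRing R]

private theorem coeff_neg (F : PowerSeries R) (n : ℕ) :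
    PowerSeries.coeff n (PowerSeries.evalNegHom F) = (-1) ^ n * PowerSeries.coeff n F := by
  simp [PowerSeries.evalNegHom]

/-- `F(x) F(-x)` is even -/
private theorem odd_coeff (F : PowerSeries R) (n : ℕ) :
    PowerSeries.coeff (2 * n + 1) (F * PowerSeries.evalNegHom F) = 0 := by
  rw [PowerSeries.coeff_mul]
  refine Finset.sum_involution (fun p _ => (p.2, p.1)) ?_ ?_ ?_ ?_
  · rintro ⟨a, b⟩ h
    rw [Finset.HasAntidiagonal.mem_antidiagonal] at h
    simp only at h
    simp only [coeff_neg]
    rcases Nat.even_or_odd b with hb | hb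
    · have ha : Odd a := by
        rw [← Nat.not_even_iff_odd]
        intro ha
        have := ha.add hb
        rw [h] at this
        exact (Nat.not_even_iff_odd.mpr ⟨n, rfl⟩) this
      rw [hb.neg_one_pow, ha.neg_one_pow]
      ring
    · have ha : Even a := by
        rw [← Nat.not_odd_iff_even]
        intro ha
        have := ha.add_odd hb
        rw [h] at this
        exact (Nat.not_even_iff_odd.mpr ⟨n, rfl⟩) this
      rw [hb.neg_one_pow, ha.neg_one_pow]
      ring
  · rintro ⟨a, b⟩ h _ h'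
    rw [Finset.HasAntidiagonal.mem_antidiagonal] at h
    simp only [Prod.mk.injEq] at h h'
    omega
  · rintro ⟨a, b⟩ h
    rw [Finset.HasAntidiagonal.mem_antidiagonal] at h ⊢
    simp only at h ⊢
    omega
  · rintro ⟨a, b⟩ h
    rfl

/-- multiplication by an even series, even coefficients -/
private theorem coeff_even_mul (P Q : PowerSeries R)
    (hQ : ∀ n, PowerSeries.coeff (2 * n + 1) Q = 0) (n : ℕ) :
    PowerSeries.coeff (2 * n) (P * Q) = PowerSeries.coeff n
      (PowerSeries.mk (fun n => PowerSeries.coeff (2 * n) P) *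
        PowerSeries.mk (fun n => PowerSeries.coeff (2 * n) Q)) := by
  rw [PowerSeries.coeff_mul, PowerSeries.coeff_mul]
  symm
  refine Finset.sum_of_injOn (fun p => (2 * p.1, 2 * p.2)) ?_ ?_ ?_ ?_
  · rintro ⟨a, b⟩ _ ⟨a', b'⟩ _ h
    simp only [Prod.mk.injEq] at h ⊢
    omega
  · rintro ⟨a, b⟩ h
    simp only [Finset.mem_coe, Finset.HasAntidiagonal.mem_antidiagonal] at h ⊢
    omega
  · rintro ⟨a, b⟩ h h'
    rw [Finset.HasAntidiagonal.mem_antidiagonal] at h
    simp only at h
    rcases Nat.even_or_odd' b with ⟨c, hc | hc⟩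
    · exfalso
      apply h'
      refine ⟨(n - c, c), ?_, ?_⟩
      · simp only [Finset.mem_coe, Finset.HasAntidiagonal.mem_antidiagonal]
        omega
      · simp only [Prod.mk.injEq]
        omega
    · simp only [hc, hQ, mul_zero]
  · rintro ⟨a, b⟩ _
    simp

/-- multiplication by an even series, odd coefficients -/
private theorem coeff_odd_mul (P Q : PowerSeries R)
    (hQ : ∀ n, PowerSeries.coeff (2 * n + 1) Q = 0) (n : ℕ) :
    PowerSeries.coeff (2 * n + 1) (P * Q) = PowerSeries.coeff n
      (PowerSeries.mk (fun n => PowerSeries.coeff (2 * n + 1) P) *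
        PowerSeries.mk (fun n => PowerSeries.coeff (2 * n) Q)) := by
  rw [PowerSeries.coeff_mul, PowerSeries.coeff_mul]
  symm
  refine Finset.sum_of_injOn (fun p => (2 * p.1 + 1, 2 * p.2)) ?_ ?_ ?_ ?_
  · rintro ⟨a, b⟩ _ ⟨a', b'⟩ _ h
    simp only [Prod.mk.injEq] at h ⊢
    omega
  · rintro ⟨a, b⟩ h
    simp only [Finset.mem_coe, Finset.HasAntidiagonal.mem_antidiagonal] at h ⊢
    omega
  · rintro ⟨a, b⟩ h h'
    rw [Finset.HasAntidiagonal.mem_antidiagonal] at h
    simp only at h
    rcases Nat.even_or_odd' b with ⟨c, hc | hc⟩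
    · exfalso
      apply h'
      refine ⟨(n - c, c), ?_, ?_⟩
      · simp only [Finset.mem_coe, Finset.HasAntidiagonal.mem_antidiagonal]
        omega
      · simp only [Prod.mk.injEq]
        omega
    · simp only [hc, hQ, mul_zero]
  · rintro ⟨a, b⟩ _
    simp

private theorem gF_mul_gF (F G : PowerSeries R) (h : F * G = 1) : gF F * gF G = 1 := by
  ext n
  rw [gF, gF, ← coeff_even_mul _ _ (odd_coeff G)]
  have : F * PowerSeries.evalNegHom F * (G * PowerSeries.evalNegHom G) = 1 := by
    have h2 : PowerSeries.evalNegHom F * PowerSeries.evalNegHom G = 1 := by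
      rw [← map_mul, h, map_one]
    calc _ = (F * G) * (PowerSeries.evalNegHom F * PowerSeries.evalNegHom G) := by ring
      _ = 1 := by rw [h, h2, one_mul]
  rw [this, PowerSeries.coeff_one, PowerSeries.coeff_one]
  simp

private theorem coeff_step (F G H : PowerSeries R) (h : F * G = 1) (n : ℕ) :
    PowerSeries.coeff (2 * n + 1) (H * G) = PowerSeries.coeff n (gH F H * gF G) := by
  rw [gF, gH, ← coeff_odd_mul _ _ (odd_coeff G)]
  have h2 : PowerSeries.evalNegHom F * PowerSeries.evalNegHom G = 1 := by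
    rw [← map_mul, h, map_one]
  congr 1
  calc H * G = H * G * (PowerSeries.evalNegHom F * PowerSeries.evalNegHom G) := by
        rw [h2, mul_one]
    _ = _ := by ring

private theorem constantCoeff_gF (G : PowerSeries R) :
    PowerSeries.constantCoeff (gF G) = PowerSeries.constantCoeff G ^ 2 := by
  rw [← PowerSeries.coeff_zero_eq_constantCoeff_apply, gF, PowerSeries.coeff_mk, mul_zero,
    PowerSeries.coeff_zero_eq_constantCoeff_apply, map_mul, pow_two]
  congr 1
  rw [← PowerSeries.coeff_zero_eq_constantCoeff_apply, coeff_neg]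
  simp

private theorem gHi_succ (F H : PowerSeries R) (k : ℕ) :
    gHi F H (k + 1) = gHi (gF F) (gH F H) k := by
  induction k with
  | zero => simp [gHi, gFi]
  | succ k ih =>
    rw [gHi, ih]
    conv_rhs => rw [gHi]
    congr 1

private theorem graeffe_aux (k : ℕ) : ∀ (F G H : PowerSeries R), F * G = 1 →
    PowerSeries.coeff (2 ^ k - 1) (H * G) =
      PowerSeries.constantCoeff (gHi F H k) * PowerSeries.constantCoeff G ^ 2 ^ k := by
  induction k with
  | zero =>
    intro F G H _
    simp [gHi]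
  | succ k ih =>
    intro F G H h
    have h1 : 2 ^ (k + 1) - 1 = 2 * (2 ^ k - 1) + 1 := by
      have := Nat.one_le_two_pow (n := k)
      rw [pow_succ]
      omega
    rw [h1, coeff_step F G H h, ih (gF F) (gF G) (gH F H) (gF_mul_gF F G h), gHi_succ,
      constantCoeff_gF, ← pow_mul, pow_succ, mul_comm (2 ^ k) 2]

end

/-- the Graeffe loop: `[x^(2^κ - 1)] H/F = H_κ(0)/F(0)^(2^κ)` -/
theorem graeffe {R : Type*} [CommRing R] (F H : PowerSeries R) (u : Rˣ)
    (hu : PowerSeries.constantCoeff F = u) (κ : ℕ) :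
    PowerSeries.coeff (2 ^ κ - 1) (H * PowerSeries.invOfUnit F u) =
      PowerSeries.constantCoeff (gHi F H κ) * ((u⁻¹ : Rˣ) : R) ^ 2 ^ κ := by
  rw [graeffe_aux κ F _ H (PowerSeries.mul_invOfUnit F u hu)]
  simp

/-- truncation: only the coefficients below `2^(κ-h)` of `F_h` and `H_h` matter -/
theorem graeffe_trunc {R : Type*} [CommRing R] (F H F' H' : PowerSeries R) (m : ℕ)
    (hF : ∀ n < 2 * m, PowerSeries.coeff n F = PowerSeries.coeff n F')
    (hH : ∀ n < 2 * m, PowerSeries.coeff n H = PowerSeries.coeff n H') :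
    (∀ n < m, PowerSeries.coeff n (gF F) = PowerSeries.coeff n (gF F')) ∧
    ∀ n < m, PowerSeries.coeff n (gH F H) = PowerSeries.coeff n (gH F' H') := by
  constructor
  · intro n hn
    simp only [gF, PowerSeries.coeff_mk, PowerSeries.coeff_mul]
    refine Finset.sum_congr rfl ?_
    rintro ⟨a, b⟩ h
    rw [Finset.HasAntidiagonal.mem_antidiagonal] at h
    simp only at h ⊢
    rw [coeff_neg, coeff_neg, hF a (by omega), hF b (by omega)]
  · intro n hn
    simp only [gH, PowerSeries.coeff_mk, PowerSeries.coeff_mul]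
    refine Finset.sum_congr rfl ?_
    rintro ⟨a, b⟩ h
    rw [Finset.HasAntidiagonal.mem_antidiagonal] at h
    simp only at h ⊢
    rw [coeff_neg, coeff_neg, hH a (by omega), hF b (by omega)]

end Pool.Agent.AbsIrr
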