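import Mathlib
import Pool.Agent.Lib.MP_2adc98_lc.ADefs
import Pool.Agent.Lib.MP_2adc98_lc.BL
import Pool.Agent.Lib.MP_2adc98_lc.FME
import Pool.Agent.Lib.MP_2adc98_lc.SER
import Pool.Agent.Lib.MP_2adc98_lc.EFA
import Pool.Agent.Lib.MP_2adc98_lc.GR
import Pool.Agent.Lib.MP_2adc98_lc.Graeffe

/-!
# MP_2adc98_lc: the first coefficients of `W` (piece WS)
-/

set_option autoImplicit false

namespace Pool.Agent.AbsIrr

open Finset Polynomial

section
variable {K : Type} [Field K]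

/-- the coefficients below `L` of a power depend only on the coefficients below `L` -/
private theorem coeff_pow_congr (A B : PowerSeries K) (L e : ℕ)
    (h : ∀ i < L, PowerSeries.coeff i A = PowerSeries.coeff i B) :
    ∀ i < L, PowerSeries.coeff i (A ^ e) = PowerSeries.coeff i (B ^ e) := by
  induction e with
  | zero => intro i _; simp
  | succ e ih =>
    intro i hi
    rw [pow_succ, pow_succ, PowerSeries.coeff_mul, PowerSeries.coeff_mul]
    refine Finset.sum_congr rfl (fun p hp => ?_)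
    rw [Finset.HasAntidiagonal.mem_antidiagonal] at hp
    rw [ih p.1 (by omega), h p.2 (by omega)]

/-- `t`-degree of the coefficients of a power series in `x` over `K⟦t⟧` -/
private def TDeg (D : ℕ) (P : PowerSeries (PowerSeries K)) : Prop :=
  ∀ i n, D < n → PowerSeries.coeff n (PowerSeries.coeff i P) = 0

private theorem TDeg.mul {D D' : ℕ} {P Q : PowerSeries (PowerSeries K)} (hP : TDeg D P)
    (hQ : TDeg D' Q) : TDeg (D + D') (P * Q) := by
  intro i n hn
  rw [PowerSeries.coeff_mul, map_sum]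
  refine Finset.sum_eq_zero (fun p _ => ?_)
  rw [PowerSeries.coeff_mul]
  refine Finset.sum_eq_zero (fun q hq => ?_)
  rw [Finset.HasAntidiagonal.mem_antidiagonal] at hq
  by_cases h : D < q.1
  · rw [hP p.1 q.1 h, zero_mul]
  · rw [hQ p.2 q.2 (by omega), mul_zero]

private theorem TDeg.neg {D : ℕ} {P : PowerSeries (PowerSeries K)} (hP : TDeg D P) :
    TDeg D (PowerSeries.evalNegHom P) := by
  intro i n hn
  have h : PowerSeries.coeff i (PowerSeries.evalNegHom P) = (-1) ^ i * PowerSeries.coeff i P := by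
    simp [PowerSeries.evalNegHom]
  rw [h]
  rcases Nat.even_or_odd i with hi | hi
  · rw [hi.neg_one_pow, one_mul]
    exact hP i n hn
  · rw [hi.neg_one_pow, neg_one_mul, map_neg, hP i n hn, neg_zero]

private theorem TDeg.gF {D : ℕ} {P : PowerSeries (PowerSeries K)} (hP : TDeg D P) :
    TDeg (D + D) (gF P) := by
  intro i n hn
  rw [AbsIrr.gF, PowerSeries.coeff_mk]
  exact hP.mul hP.neg _ _ hn

private theorem TDeg.gH {D D' : ℕ} {P H : PowerSeries (PowerSeries K)} (hP : TDeg D P)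
    (hH : TDeg D' H) : TDeg (D' + D) (gH P H) := by
  intro i n hn
  rw [AbsIrr.gH, PowerSeries.coeff_mk]
  exact hH.mul hP.neg _ _ hn

private theorem TDeg.gFi {D : ℕ} {P : PowerSeries (PowerSeries K)} (hP : TDeg D P) (h : ℕ) :
    TDeg (D * 2 ^ h) (gFi P h) := by
  induction h with
  | zero => simpa [AbsIrr.gFi] using hP
  | succ h ih =>
    have e : AbsIrr.gFi P (h + 1) = AbsIrr.gF (AbsIrr.gFi P h) := by
      unfold AbsIrr.gFi
      rw [Function.iterate_succ_apply']
    rw [e, show D * 2 ^ (h + 1) = D * 2 ^ h + D * 2 ^ h by ring]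
    exact ih.gF

private theorem TDeg.gHi {D D' : ℕ} {P H : PowerSeries (PowerSeries K)} (hP : TDeg D P)
    (hH : TDeg D' H) (h : ℕ) : TDeg (D' + D * 2 ^ h) (gHi P H h) := by
  induction h with
  | zero =>
    intro i n hn
    exact hH i n (by omega)
  | succ h ih =>
    rw [AbsIrr.gHi, show D' + D * 2 ^ (h + 1) = D' + D * 2 ^ h + D * 2 ^ h by ring]
    exact TDeg.gH (TDeg.gFi hP h) ih


private theorem coeff2_swp_rv (m : ℕ) (P : K[X][X]) (i n : ℕ) :
    PowerSeries.coeff n (PowerSeries.coeff i (swp (rv m P))) =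
      (P.coeff (revAt m n)).coeff i := by
  rw [swp, PowerSeries.coeff_mk, PowerSeries.coeff_mk, rv, Polynomial.coeff_coe, coeff_reflect]

private theorem tdeg_swp_rv (m D : ℕ) (P : K[X][X]) (hD : m ≤ D) (hP : P.natDegree ≤ D) :
    TDeg D (swp (rv m P)) := by
  intro i n hn
  rw [coeff2_swp_rv, revAt_eq_self_of_lt (by omega),
    Polynomial.coeff_eq_zero_of_natDegree_lt (p := P) (n := n) (by omega), Polynomial.coeff_zero]

private theorem natDegree_Om (d m : ℕ) (ω : Fin d × Fin m → K) : (Om d m ω).natDegree ≤ d - 1 := by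
  unfold Om
  refine Polynomial.natDegree_sum_le_of_forall_le _ _ (fun q _ => ?_)
  refine (Polynomial.natDegree_monomial_le _).trans ?_
  have := q.1.isLt
  omega

/-- the final computation: `H` and `P` from the arrays -/
private theorem ws_final (N L : ℕ) (A' y : ℕ → K) (G : PowerSeries K) (v : (PowerSeries K)ˣ)
    (hG : PowerSeries.mk A' = G) (hu : PowerSeries.mk y = (v : PowerSeries K)) (hu0 : y 0 = 1)
    (n : ℕ) (hn : n < L) :
    conv L A' (pws L N (pinv L y)) n =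
      PowerSeries.coeff n (G * ((v⁻¹ : (PowerSeries K)ˣ) : PowerSeries K) ^ N) := by
  have hinv : ((v⁻¹ : (PowerSeries K)ˣ) : PowerSeries K) =
      PowerSeries.invOfUnit (PowerSeries.mk y) 1 := by
    refine Units.inv_eq_of_mul_eq_one_right ?_
    rw [← hu]
    refine PowerSeries.mul_invOfUnit _ _ ?_
    rw [← PowerSeries.coeff_zero_eq_constantCoeff_apply, PowerSeries.coeff_mk, hu0, Units.val_one]
  have hpow : ∀ i < L, PowerSeries.coeff i (PowerSeries.mk (pinv L y) ^ N) =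
      PowerSeries.coeff i (((v⁻¹ : (PowerSeries K)ˣ) : PowerSeries K) ^ N) := by
    refine coeff_pow_congr _ _ L N (fun i hi => ?_)
    rw [PowerSeries.coeff_mk, pinv, tabF, if_pos hi, hinv]
  rw [PowerSeries.coeff_mul, Finset.Nat.sum_antidiagonal_eq_sum_range_succ (fun i j =>
    PowerSeries.coeff i G * PowerSeries.coeff j (((v⁻¹ : (PowerSeries K)ˣ) : PowerSeries K) ^ N)) n]
  rw [conv, tabF, if_pos hn]
  refine Finset.sum_congr rfl (fun j hj => ?_)
  rw [← hG, PowerSeries.coeff_mk]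
  congr 1
  rw [pws, tabF, if_pos (by omega), hpow _ (by omega)]

end

private abbrev InW : Ty := .prod .nat (.prod .nat (.prod .nat (.prod .arr .arr)))

/-- the data of the last step: `((x, 2^κ), (y, g))` -/
private abbrev InZ : Ty := .prod (.prod InW .nat) (.prod (.prod .arr .arr) .arr)

private theorem ws_last (FI : Fam (.prod .nat .arr) .arr) (hFI : RlzQ FI (fun _ _ x => x.1)) :
    RlzQ (a := InZ) (b := .arr)
      (fun K _ z => conv z.1.1.2.2.1
        (tabF (z.1.2 * (4 * z.1.1.2.1)) (fun i => z.2.2 i))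
        (pws z.1.1.2.2.1 z.1.2 (FI K (z.1.1.2.2.1, tabF (4 * z.1.1.2.1) (fun i => z.2.1.1 i)))))
      (fun _ _ z => z.1.1.2.2.1 + (z.1.2 + 1) * (z.1.1.2.1 + 1)) := by
  have hL : RlzQ (a := InZ) (b := .nat) (fun K _ z => z.1.1.2.2.1) (fun _ _ _ => 0) := by
    apply_rules [RlzQ.fst, RlzQ.snd, RlzQ.input]
  have hd : RlzQ (a := InZ) (b := .nat) (fun K _ z => z.1.1.2.1) (fun _ _ _ => 0) := by
    apply_rules [RlzQ.fst, RlzQ.snd, RlzQ.input]
  have hN : RlzQ (a := InZ) (b := .nat) (fun K _ z => z.1.2) (fun _ _ _ => 0) := by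
    apply_rules [RlzQ.fst, RlzQ.snd, RlzQ.input]
  have h1 := RlzQ.tab (a := InZ) (f := fun (K : Type) [Field K] z i => z.2.2 i)
    (RlzQ.mul hN (RlzQ.mul (RlzQ.lit 4) hd)) (by
      apply_rules [RlzQ.get, RlzQ.fst, RlzQ.snd, RlzQ.input])
  have h2 := RlzQ.tab (a := InZ) (f := fun (K : Type) [Field K] z i => z.2.1.1 i)
    (RlzQ.mul (RlzQ.lit 4) hd) (by
      apply_rules [RlzQ.get, RlzQ.fst, RlzQ.snd, RlzQ.input])
  have h3 := RlzQ.comp hFI (RlzQ.pair hL h2)
  have h4 := RlzQ.conv hL h1 (RlzQ.pws hL hN h3)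
  refine RlzQ.mono h4 10 ?_
  intro K _ z
  simp only [add_zero, zero_add, Finset.sum_const_zero]
  generalize z.1.2 = N
  generalize z.1.1.2.1 = d
  generalize z.1.1.2.2.1 = L
  nlinarith [Nat.zero_le (N * d)]

theorem w_rlz : ∃ F : Fam (.prod .nat (.prod .nat (.prod .nat (.prod .arr .arr)))) .arr,
    RlzQ F (fun _ _ x => 2 ^ x.1 * (x.2.1 + 1) + x.2.1 ^ 3 + x.2.2.1) ∧
    ∀ (K : Type) [Field K] (κ d L : ℕ) (A ω : ℕ → K) (f : K[X][X]), 1 ≤ d → TD d f →
      f.Monic → f.natDegree = d → 5 * d ^ 2 < 2 ^ κ →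
      (∀ n < (d + 1) * (d + 1), A n = coeffs2 (d + 1) f n) →
      ∀ n < L, F K (κ, (d, (L, (A, ω)))) n = W (2 ^ κ) d f
        (Om d (2 ^ κ - 3 * d) (fun q => ω (q.1 * (2 ^ κ - 3 * d) + q.2))) n := by
  obtain ⟨FE, hFE, sFE⟩ := ef_rlz
  obtain ⟨FG, hFG, sFG⟩ := graeffe_rlz
  obtain ⟨FI, hFI, sFI⟩ := inverse
  have hlast := ws_last FI hFI
  -- first step: `(x, 2^κ)`
  have hs0 : RlzQ (a := InW) (b := .prod InW .nat) (fun K _ x => (x, 2 ^ x.1))
      (fun K _ x => 2 ^ x.1) := by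
    refine RlzQ.mono (RlzQ.pair RlzQ.input (RlzQ.npow (A := fun K _ x => 2)
      (B := fun K _ (x : InW.val K) => x.1) (RlzQ.lit 2) (RlzQ.fst RlzQ.input))) 2 ?_
    intro K _ x
    have := Nat.lt_two_pow_self (n := x.1)
    omega
  have hs1 : RlzQ (a := .prod InW .nat) (b := .prod (.prod InW .nat) (.prod .arr .arr))
      (fun K _ z => (z, FE K (z.1.1, (z.1.2.1, (z.1.2.2.2.1, z.1.2.2.2.2)))))
      (fun K _ z => 2 ^ z.1.1 * (z.1.2.1 + 1) + z.1.2.1 ^ 3) := by
    have hi := RlzQ.fst (RlzQ.input (a := .prod InW .nat))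
    have ht := RlzQ.pair (RlzQ.fst hi) (RlzQ.pair (RlzQ.fst (RlzQ.snd hi)) (RlzQ.pair
      (RlzQ.fst (RlzQ.snd (RlzQ.snd (RlzQ.snd hi)))) (RlzQ.snd (RlzQ.snd (RlzQ.snd (RlzQ.snd hi))))))
    refine RlzQ.mono (RlzQ.pair RlzQ.input (RlzQ.comp hFE ht)) 1 ?_
    intro K _ x
    simp only
    omega
  have hs2 : RlzQ (a := .prod (.prod InW .nat) (.prod .arr .arr)) (b := InZ)
      (fun K _ z => (z.1, (z.2, FG K (z.1.1.1, (z.1.1.2.1, z.2)))))
      (fun K _ z => 2 ^ z.1.1.1 * (z.1.1.2.1 + 1)) := by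
    have hi := RlzQ.fst (RlzQ.fst (RlzQ.input (a := .prod (.prod InW .nat) (.prod .arr .arr))))
    have ht := RlzQ.pair (RlzQ.fst hi) (RlzQ.pair (RlzQ.fst (RlzQ.snd hi)) (RlzQ.snd
      (RlzQ.input (a := .prod (.prod InW .nat) (.prod .arr .arr)))))
    refine RlzQ.mono (RlzQ.pair (RlzQ.fst RlzQ.input) (RlzQ.pair (RlzQ.snd RlzQ.input)
      (RlzQ.comp hFG ht))) 1 ?_
    intro K _ x
    simp only
    omega
  refine ⟨_, RlzQ.mono (RlzQ.comp hlast (RlzQ.comp hs2 (RlzQ.comp hs1 hs0))) 5 ?_, ?_⟩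
  · intro K _ x
    simp only
    have h1 : 1 ≤ 2 ^ x.1 := Nat.one_le_two_pow
    generalize 2 ^ x.1 = N at *
    generalize x.2.1 = d at *
    generalize x.2.2.1 = L at *
    have h2 : 1 * d ≤ N * d := Nat.mul_le_mul_right d h1
    nlinarith [h1, h2, Nat.zero_le (d ^ 3)]
  · intro K _ κ d L A ω f hd hTD hm hdeg hκ hA n hn
    set Ω := Om d (2 ^ κ - 3 * d) (fun q => ω (q.1 * (2 ^ κ - 3 * d) + q.2)) with hΩ
    obtain ⟨hy1, hy2⟩ := sFE K κ d A ω f hd hTD hκ hA
    rw [← hΩ] at hy2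
    -- degrees
    have hP : TDeg d (swp (rv d f)) := tdeg_swp_rv d d f le_rfl hdeg.le
    have hdegH : (Ω * derivative f).natDegree ≤ 2 * d - 2 := by
      refine (Polynomial.natDegree_mul_le).trans ?_
      have h1 := natDegree_Om d (2 ^ κ - 3 * d) (fun q => ω (q.1 * (2 ^ κ - 3 * d) + q.2))
      have h2 := Polynomial.natDegree_derivative_le f
      rw [← hΩ] at h1
      omega
    have hH : TDeg (2 * d - 2) (swp (rv (2 * d - 2) (Ω * derivative f))) :=
      tdeg_swp_rv _ _ _ le_rfl hdegH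
    have hg := sFG K κ d _ _ (swp (rv d f)) (swp (rv (2 * d - 2) (Ω * derivative f))) hd
      (fun i n hn => hP i n hn) (fun i n hn => hH i n (by omega)) hy1 hy2
    obtain ⟨u, hu, hW⟩ := swp_EF (N := 2 ^ κ) (Ω := Ω) hm hdeg n
    rw [hW, graeffe _ _ u hu.symm κ]
    -- the arrays are the power series
    have e1 : PowerSeries.mk (tabF (2 ^ κ * (4 * d)) (fun i => FG K (κ, (d,
        ((FE K (κ, (d, (A, ω)))).1, (FE K (κ, (d, (A, ω)))).2))) i)) =
        PowerSeries.constantCoeff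
          (gHi (swp (rv d f)) (swp (rv (2 * d - 2) (Ω * derivative f))) κ) := by
      ext i
      rw [PowerSeries.coeff_mk, tabF]
      split_ifs with hi
      · exact hg i hi
      · rw [← PowerSeries.coeff_zero_eq_constantCoeff_apply]
        refine ((TDeg.gHi hP hH κ) 0 i ?_).symm
        have h1 : 1 ≤ 2 ^ κ := Nat.one_le_two_pow
        have h2 : 1 * d ≤ 2 ^ κ * d := Nat.mul_le_mul_right d h1
        have h3 : 2 ^ κ * (4 * d) = 4 * (2 ^ κ * d) := by ring
        have h4 : d * 2 ^ κ = 2 ^ κ * d := by ring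
        omega
    have e2 : PowerSeries.mk (tabF (4 * d) (fun i => (FE K (κ, (d, (A, ω)))).1 i)) =
        (u : PowerSeries K) := by
      rw [hu]
      ext i
      rw [PowerSeries.coeff_mk, tabF, ← PowerSeries.coeff_zero_eq_constantCoeff_apply]
      split_ifs with hi
      · have h1 : 1 ≤ 2 ^ κ := Nat.one_le_two_pow
        rw [hy1 i (by nlinarith), flat, Nat.mod_eq_of_lt hi, Nat.div_eq_of_lt hi]
      · exact (hP 0 i (by omega)).symm
    have e3 : tabF (4 * d) (fun i => (FE K (κ, (d, (A, ω)))).1 i) 0 = 1 := by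
      have h0 : PowerSeries.coeff 0 (PowerSeries.mk
        (tabF (4 * d) (fun i => (FE K (κ, (d, (A, ω)))).1 i))) = 1 := by
        rw [e2, hu, ← PowerSeries.coeff_zero_eq_constantCoeff_apply, coeff2_swp_rv,
          revAt_le (Nat.zero_le _), Nat.sub_zero]
        have h1 : f.coeff d = 1 := by rw [← hdeg]; exact hm.coeff_natDegree
        rw [h1, Polynomial.coeff_one_zero]
      rwa [PowerSeries.coeff_mk] at h0
    have := ws_final (2 ^ κ) L _ _ _ u e1 e2 e3 n hn
    rw [← sFI K L _ e3] at this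
    exact this

end Pool.Agent.AbsIrr
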