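import Mathlib
import Pool.Agent.Lib.MP_2adc98_lc.FDefs
import Pool.Agent.Lib.MP_2adc98_lc.SY
import Pool.Agent.Lib.MP_2adc98_lc.WS
import Pool.Agent.Lib.MP_2adc98_lc.DC
import Pool.Agent.Lib.MP_2adc98_lc.HE

/-!
# MP_2adc98_lc, stage 2, piece FC: the matrix of the test for a normalised polynomial
-/

set_option autoImplicit false

namespace Pool.Agent.AbsIrr

open Finset Polynomial

namespace FCore

/-- `(κ, (q, (b, (n, (h, ω)))))` -/
abbrev InC : Ty := .prod .nat (.prod .nat (.prod .nat (.prod .nat (.prod .arr .arr))))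

/-- the cost bound -/
abbrev cb : CFam InC := fun _ _ x =>
  (x.2.2.2.1 + 1) * (2 ^ x.1 + x.2.1 * 2 ^ x.2.2.1 + (x.2.2.2.1 + 1) ^ 2 +
      (x.2.2.2.1 + 1) * 2 ^ x.2.2.1) + 4 ^ x.2.2.1 + x.2.1

theorem pr {b b' : Ty} {F : Fam InC b} {G : Fam InC b'} (hF : RlzQ F cb)
    (hG : RlzQ G cb) :
    RlzQ (b := .prod b b') (fun K _ x => (F K x, G K x)) cb :=
  (RlzQ.pair hF hG).mono 2 (fun K _ x => by beta_reduce; omega)

theorem app {b c : Ty} {F : Fam InC b} {G : Fam b c} {cg : CFam b} (hG : RlzQ G cg)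
    (hF : RlzQ F cb) (A : ℕ)
    (h : ∀ (K : Type) [Field K] (x : InC.val K), cg K (F K x) ≤ A * (cb K x + 1)) :
    RlzQ (fun K _ x => G K (F K x)) cb :=
  (RlzQ.comp hG hF).mono (A + 1) (fun K _ x => by
    have := h K x
    beta_reduce
    nlinarith)

theorem of' {b : Ty} {F : Fam InC b} {c : CFam InC} (hF : RlzQ F c) (A : ℕ)
    (h : ∀ (K : Type) [Field K] (x : InC.val K), c K x ≤ A * (cb K x + 1)) :
    RlzQ F cb := hF.mono A h

theorem kr : RlzQ (a := InC) (b := .nat) (fun _ _ x => x.1) cb :=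
  of' (RlzQ.fst RlzQ.input) 0 (fun _ _ _ => Nat.zero_le _)

theorem qr : RlzQ (a := InC) (b := .nat) (fun _ _ x => x.2.1) cb :=
  of' (RlzQ.fst (RlzQ.snd RlzQ.input)) 0 (fun _ _ _ => Nat.zero_le _)

theorem br : RlzQ (a := InC) (b := .nat) (fun _ _ x => x.2.2.1) cb :=
  of' (RlzQ.fst (RlzQ.snd (RlzQ.snd RlzQ.input))) 0 (fun _ _ _ => Nat.zero_le _)

theorem nr : RlzQ (a := InC) (b := .nat) (fun _ _ x => x.2.2.2.1) cb :=
  of' (RlzQ.fst (RlzQ.snd (RlzQ.snd (RlzQ.snd RlzQ.input)))) 0 (fun _ _ _ => Nat.zero_le _)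

theorem hr : RlzQ (a := InC) (b := .arr) (fun _ _ x => x.2.2.2.2.1) cb :=
  of' (RlzQ.fst (RlzQ.snd (RlzQ.snd (RlzQ.snd (RlzQ.snd RlzQ.input))))) 0
    (fun _ _ _ => Nat.zero_le _)

theorem wr : RlzQ (a := InC) (b := .arr) (fun _ _ x => x.2.2.2.2.2) cb :=
  of' (RlzQ.snd (RlzQ.snd (RlzQ.snd (RlzQ.snd (RlzQ.snd RlzQ.input))))) 0
    (fun _ _ _ => Nat.zero_le _)

theorem mulr {F G : Fam InC .nat} (hF : RlzQ F cb) (hG : RlzQ G cb) :
    RlzQ (b := .nat) (fun K _ x => (F K x : ℕ) * (G K x : ℕ)) cb :=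
  of' (RlzQ.mul hF hG) 2 (fun _ _ _ => by omega)

theorem addr {F G : Fam InC .nat} (hF : RlzQ F cb) (hG : RlzQ G cb) :
    RlzQ (b := .nat) (fun K _ x => (F K x : ℕ) + (G K x : ℕ)) cb :=
  of' (RlzQ.add hF hG) 2 (fun _ _ _ => by omega)

theorem litr (n : ℕ) : RlzQ (a := InC) (b := .nat) (fun _ _ _ => n) cb :=
  of' (RlzQ.lit n) 0 (fun _ _ _ => Nat.zero_le _)

/-- the cost bound as a function of numbers -/
def CB (κ q b n : ℕ) : ℕ :=
  (n + 1) * (2 ^ κ + q * 2 ^ b + (n + 1) ^ 2 + (n + 1) * 2 ^ b) + 4 ^ b + q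

/-- the parts of the cost bound -/
theorem CB_eq (κ q b n : ℕ) : CB κ q b n =
    (n + 1) * 2 ^ κ + (n + 1) * (q * 2 ^ b) + (n + 1) ^ 3 + (n + 1) ^ 2 * 2 ^ b + 4 ^ b + q := by
  unfold CB
  ring

theorem self_cube (n : ℕ) : n ≤ (n + 1) ^ 3 := by
  calc n ≤ n + 1 := Nat.le_succ n
    _ = (n + 1) ^ 1 := (pow_one _).symm
    _ ≤ (n + 1) ^ 3 := Nat.pow_le_pow_right (by omega) (by norm_num)

theorem sq_help (n b : ℕ) : (n + 2 ^ b) ^ 2 ≤ 2 * (n + 1) ^ 2 + 2 * 4 ^ b := by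
  have e : (4 : ℕ) ^ b = (2 ^ b) ^ 2 := by
    rw [← pow_mul, mul_comm, pow_mul]
    norm_num
  rw [e]
  calc (n + 2 ^ b) ^ 2 ≤ 2 * (n ^ 2 + (2 ^ b) ^ 2) := add_sq_le
    _ = 2 * n ^ 2 + 2 * (2 ^ b) ^ 2 := by ring
    _ ≤ 2 * (n + 1) ^ 2 + 2 * (2 ^ b) ^ 2 := by
      have : n ^ 2 ≤ (n + 1) ^ 2 := Nat.pow_le_pow_left (Nat.le_succ _) 2
      omega

section bounds
variable (κ q b n : ℕ)

theorem c_pb : 0 + CB κ q b n + b + 2 ^ b ≤ 3 * (CB κ q b n + 1) := by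
  have h1 := CB_eq κ q b n
  have h0 : 0 < 4 ^ b := Nat.pow_pos (by norm_num)
  have h2 : b ≤ 2 ^ b := Nat.lt_two_pow_self.le
  have h3 : 1 * 2 ^ b ≤ (n + 1) ^ 2 * 2 ^ b :=
    Nat.mul_le_mul_right _ (Nat.one_le_pow _ _ (by omega))
  omega

theorem c_n : n ≤ 1 * (CB κ q b n + 1) := by
  have h1 := CB_eq κ q b n
  have h0 : 0 < 4 ^ b := Nat.pow_pos (by norm_num)
  have h2 := self_cube n
  omega

theorem c_n3 : n ^ 3 ≤ 1 * (CB κ q b n + 1) := by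
  have h1 := CB_eq κ q b n
  have h0 : 0 < 4 ^ b := Nat.pow_pos (by norm_num)
  have h2 : n ^ 3 ≤ (n + 1) ^ 3 := Nat.pow_le_pow_left (Nat.le_succ _) 3
  omega

theorem c_G : CB κ q b n + 0 + CB κ q b n + CB κ q b n + (n + 1) + q ≤
    8 * (CB κ q b n + 1) := by
  have h1 := CB_eq κ q b n
  have h0 : 0 < 4 ^ b := Nat.pow_pos (by norm_num)
  have h2 := self_cube n
  omega

theorem c_V : CB κ q b n + CB κ q b n + CB κ q b n + n + q ≤ 8 * (CB κ q b n + 1) := by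
  have h1 := CB_eq κ q b n
  have h0 : 0 < 4 ^ b := Nat.pow_pos (by norm_num)
  have h2 := self_cube n
  omega

theorem c_W : 2 ^ κ * (n + 1) + n ^ 3 + (q * (2 ^ b * n) + 2 * n) ≤ 2 * (CB κ q b n + 1) := by
  have h1 := CB_eq κ q b n
  have h0 : 0 < 4 ^ b := Nat.pow_pos (by norm_num)
  have e1 : 2 ^ κ * (n + 1) = (n + 1) * 2 ^ κ := mul_comm _ _
  have e2 : q * (2 ^ b * n) ≤ (n + 1) * (q * 2 ^ b) := by
    calc q * (2 ^ b * n) = n * (q * 2 ^ b) := by ring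
      _ ≤ _ := Nat.mul_le_mul_right _ (Nat.le_succ _)
  have e3 : n ^ 3 + 2 * n ≤ (n + 1) ^ 3 := by
    have : (n + 1) ^ 3 = n ^ 3 + 3 * n ^ 2 + 3 * n + 1 := by ring
    omega
  omega

theorem c_S : n ^ 2 * 2 ^ b ≤ 1 * (CB κ q b n + 1) := by
  have h1 := CB_eq κ q b n
  have h0 : 0 < 4 ^ b := Nat.pow_pos (by norm_num)
  have h2 : n ^ 2 * 2 ^ b ≤ (n + 1) ^ 2 * 2 ^ b :=
    Nat.mul_le_mul_right _ (Nat.pow_le_pow_left (Nat.le_succ _) 2)
  omega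

theorem c_D : (n + 1) * 2 ^ b * (n + 1) ≤ 1 * (CB κ q b n + 1) := by
  have h1 := CB_eq κ q b n
  have h0 : 0 < 4 ^ b := Nat.pow_pos (by norm_num)
  have h2 : (n + 1) * 2 ^ b * (n + 1) = (n + 1) ^ 2 * 2 ^ b := by ring
  omega

theorem c_T : (n + 1) * (n + 1) * (2 ^ b + 1) + (n + 2 ^ b) ^ 2 ≤ 8 * (CB κ q b n + 1) := by
  have h1 := CB_eq κ q b n
  have h0 : 0 < 4 ^ b := Nat.pow_pos (by norm_num)
  have h2 : (n + 1) * (n + 1) * (2 ^ b + 1) = (n + 1) ^ 2 * 2 ^ b + (n + 1) ^ 2 := by ring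
  have h3 := sq_help n b
  have h4 : (n + 1) ^ 2 ≤ (n + 1) ^ 3 := Nat.pow_le_pow_right (by omega) (by norm_num)
  omega

end bounds

theorem pbr : RlzQ (a := InC) (b := .nat) (fun _ _ x => 2 ^ x.2.2.1) cb :=
  of' (RlzQ.npow (RlzQ.lit 2) br) 3 (fun _ _ x => c_pb x.1 x.2.1 x.2.2.1 x.2.2.2.1)

section stages

variable (Fbz : Fam (.prod .nat .arr) (.prod .nat .arr))
  (Fw : Fam (.prod .nat (.prod .nat (.prod .nat (.prod .arr .arr)))) .arr)
  (Fdc : Fam (.prod .nat (.prod .nat (.prod .nat (.prod .arr .arr)))) .arr)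
  (Fhe : Fam (.prod .nat (.prod .nat (.prod .nat (.prod .arr (.prod .arr .arr))))) .arr)

/-- `f(0, y)` -/
def uF0 : Fam InC .arr := fun K _ x => gAt0 K (x.2.2.2.1, x.2.2.2.2.1)
/-- flag and `v₀` -/
def uBz : Fam InC (.prod .nat .arr) := fun K _ x => Fbz K (x.2.2.2.1, uF0 K x)
/-- the coefficients of `g` -/
noncomputable def uG : Fam InC .arr := fun K _ x => powT (x.2.2.2.1 + 1) x.2.1 (uF0 K x)
/-- the coefficients of `v` -/
noncomputable def uV : Fam InC .arr := fun K _ x => powT x.2.2.2.1 x.2.1 (uBz Fbz K x).2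
/-- `W` -/
def uW : Fam InC .arr := fun K _ x => Fw K (x.1, (x.2.2.2.1,
  (x.2.1 * (2 ^ x.2.2.1 * x.2.2.2.1) + 2 * x.2.2.2.1, (x.2.2.2.2.1, x.2.2.2.2.2))))
/-- the sections -/
def uS : Fam InC .arr := fun K _ x => gSec K (x.2.2.2.1, (x.2.1, (2 ^ x.2.2.1, uW Fw K x)))
/-- the digits -/
noncomputable def uD : Fam InC .arr := fun K _ x => Fdc K (x.2.2.2.1, (x.2.2.2.1, (x.2.2.1,
  (gRev K (x.2.2.2.1, uG K x), uS Fw K x))))
/-- the matrix -/
noncomputable def uT : Fam InC .arr := fun K _ x => Fhe K (x.2.2.2.1, (x.2.2.2.1, (2 ^ x.2.2.1,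
  (uG K x, (uV Fbz K x, uD Fw Fdc K x)))))

variable {Fbz Fw Fdc Fhe}
  (hFbz : RlzQ Fbz (fun _ _ x => x.1 ^ 3))
  (hFw : RlzQ Fw (fun _ _ x => 2 ^ x.1 * (x.2.1 + 1) + x.2.1 ^ 3 + x.2.2.1))
  (hFdc : RlzQ Fdc (fun _ _ x => (x.1 + 1) * 2 ^ x.2.2.1 * (x.2.1 + 1)))
  (hFhe : RlzQ Fhe (fun _ _ x =>
    (x.1 + 1) * (x.2.1 + 1) * (x.2.2.1 + 1) + (x.2.1 + x.2.2.1) ^ 2))

theorem uF0r : RlzQ uF0 cb := by
  have h := app gAt0_rlz (pr nr hr) 1 (fun _ _ x => c_n x.1 x.2.1 x.2.2.1 x.2.2.2.1)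
  exact h

include hFbz in
theorem uBzr : RlzQ (uBz Fbz) cb := by
  have h := app hFbz (pr nr uF0r) 1 (fun _ _ x => c_n3 x.1 x.2.1 x.2.2.1 x.2.2.2.1)
  exact h

theorem uGr : RlzQ uG cb :=
  of' (RlzQ.powT (RlzQ.add nr (RlzQ.lit 1)) qr uF0r) 8
    (fun K _ x => c_G x.1 x.2.1 x.2.2.1 x.2.2.2.1)

include hFbz in
theorem uVr : RlzQ (uV Fbz) cb :=
  of' (RlzQ.powT nr qr (RlzQ.snd (uBzr hFbz))) 8
    (fun K _ x => c_V x.1 x.2.1 x.2.2.1 x.2.2.2.1)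

include hFw in
theorem uWr : RlzQ (uW Fw) cb := by
  have h := app hFw (pr kr (pr nr (pr (addr (mulr qr (mulr pbr nr)) (mulr (litr 2) nr))
    (pr hr wr)))) 2 (fun K _ x => c_W x.1 x.2.1 x.2.2.1 x.2.2.2.1)
  exact h

include hFw in
theorem uSr : RlzQ (uS Fw) cb := by
  have h := app gSec_rlz (pr nr (pr qr (pr pbr (uWr hFw)))) 1
    (fun K _ x => c_S x.1 x.2.1 x.2.2.1 x.2.2.2.1)
  exact h

include hFw hFdc in
theorem uDr : RlzQ (uD Fw Fdc) cb := by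
  have h0 := app gRev_rlz (pr nr uGr) 1 (fun K _ x => c_n x.1 x.2.1 x.2.2.1 x.2.2.2.1)
  have h := app hFdc (pr nr (pr nr (pr br (pr h0 (uSr hFw))))) 1
    (fun K _ x => c_D x.1 x.2.1 x.2.2.1 x.2.2.2.1)
  exact h

include hFbz hFw hFdc hFhe in
theorem uTr : RlzQ (uT Fbz Fw Fdc Fhe) cb := by
  have h := app hFhe (pr nr (pr nr (pr pbr (pr uGr (pr (uVr hFbz) (uDr hFw hFdc)))))) 8
    (fun K _ x => c_T x.1 x.2.1 x.2.2.1 x.2.2.2.1)
  exact h

end stages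

section spec

variable {Fbz : Fam (.prod .nat .arr) (.prod .nat .arr)}
  {Fw : Fam (.prod .nat (.prod .nat (.prod .nat (.prod .arr .arr)))) .arr}
  {Fdc : Fam (.prod .nat (.prod .nat (.prod .nat (.prod .arr .arr)))) .arr}
  {Fhe : Fam (.prod .nat (.prod .nat (.prod .nat (.prod .arr (.prod .arr .arr))))) .arr}
  (hbz : SpecBz Fbz) (hw : SpecW Fw) (hdc : SpecDc Fdc) (hhe : SpecHe Fhe)
  {K : Type} [Field K] {p κ e b n : ℕ} {h : ℕ → K} (ω : ℕ → K) {f : K[X][X]}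
  (hn : 1 ≤ n) (hTD : TD n f) (hf : f.Monic) (hfd : f.natDegree = n)
  (hκ : 5 * n ^ 2 < 2 ^ κ) (hh : ∀ i < (n + 1) * (n + 1), h i = coeffs2 (n + 1) f i)

include hh in
theorem uF0_spec (q : ℕ) (j : ℕ) (hj : j ≤ n) :
    uF0 K (κ, (q, (b, (n, (h, ω))))) j = (at0 f).coeff j := by
  have h1 := hh (j * (n + 1)) (by nlinarith)
  have h3 : uF0 K (κ, (q, (b, (n, (h, ω))))) j = h (j * (n + 1)) := by
    change (if j < n + 1 then _ else _) = _
    rw [if_pos (by omega)]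
  rw [h3, h1, coeffs2, Nat.mul_div_cancel _ (by omega), Nat.mul_mod_left, at0_coeff]

include hh in
theorem uG_spec [Fact p.Prime] [CharP K p] (i : ℕ) (hi : i ≤ n) :
    uG K (κ, (p ^ e, (b, (n, (h, ω))))) i =
      ((at0 f).map (iterateFrobenius K p e)).coeff i := by
  have h1 := uF0_spec (κ := κ) (b := b) ω hh (p ^ e) i hi
  have h2 : uG K (κ, (p ^ e, (b, (n, (h, ω))))) i =
      uF0 K (κ, (p ^ e, (b, (n, (h, ω))))) i ^ p ^ e := by
    change (if i < n + 1 then _ else _) = _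
    rw [if_pos (by omega)]
  rw [h2, h1, coeff_map, iterateFrobenius_def]

theorem uV_spec [Fact p.Prime] [CharP K p] (i : ℕ) (hi : i < n) :
    uV Fbz K (κ, (p ^ e, (b, (n, (h, ω))))) i =
      ((apol n (uBz Fbz K (κ, (p ^ e, (b, (n, (h, ω)))))).2).map
        (iterateFrobenius K p e)).coeff i := by
  rw [coeff_map, apol_coeff, if_pos hi, iterateFrobenius_def]
  change (if i < n then _ else _) = _
  rw [if_pos hi]

include hw hn hTD hf hfd hκ hh in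
theorem uS_spec (q k l : ℕ) (hk : k < n) (hl : l < 2 ^ b * n) :
    uS Fw K (κ, (q, (b, (n, (h, ω))))) (k * (2 ^ b * n) + l) =
      sec (2 ^ κ) n q f (Om n (2 ^ κ - 3 * n) (fun qq => ω (qq.1 * (2 ^ κ - 3 * n) + qq.2)))
        k l := by
  have hpos : 0 < 2 ^ b * n := by omega
  have h1 : k * (2 ^ b * n) + l < n * (2 ^ b * n) := by
    calc k * (2 ^ b * n) + l < k * (2 ^ b * n) + 2 ^ b * n := by omega
      _ = (k + 1) * (2 ^ b * n) := by ring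
      _ ≤ n * (2 ^ b * n) := Nat.mul_le_mul_right _ hk
  have h2 : (k * (2 ^ b * n) + l) % (2 ^ b * n) = l := by
    rw [Nat.add_comm, Nat.add_mul_mod_self_right, Nat.mod_eq_of_lt hl]
  have h3 : (k * (2 ^ b * n) + l) / (2 ^ b * n) = k := by
    rw [Nat.add_comm, Nat.add_mul_div_right _ _ hpos, Nat.div_eq_of_lt hl, zero_add]
  have h4 : uS Fw K (κ, (q, (b, (n, (h, ω))))) (k * (2 ^ b * n) + l) =
      uW Fw K (κ, (q, (b, (n, (h, ω))))) (q * ((k * (2 ^ b * n) + l) % (2 ^ b * n)) +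
        (k * (2 ^ b * n) + l) / (2 ^ b * n) + (n - 1)) := by
    change (if k * (2 ^ b * n) + l < n * (2 ^ b * n) then _ else _) = _
    rw [if_pos h1]
  rw [h4, h2, h3]
  refine (hw K κ n (q * (2 ^ b * n) + 2 * n) h ω f hn hTD hf hfd hκ hh _ ?_).trans ?_
  · have h5 : q * l ≤ q * (2 ^ b * n) := Nat.mul_le_mul_left _ hl.le
    omega
  · rfl

include hw hdc hn hTD hf hfd hκ hh in
theorem uD_spec [Fact p.Prime] [CharP K p] (k c i : ℕ) (hk : k < n) (hc : c < 2 ^ b)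
    (hi : i < n) :
    uD Fw Fdc K (κ, (p ^ e, (b, (n, (h, ω))))) ((k * 2 ^ b + c) * n + i) =
      (split n ((at0 f).map (iterateFrobenius K p e)) b
        (sec (2 ^ κ) n (p ^ e) f
          (Om n (2 ^ κ - 3 * n) (fun qq => ω (qq.1 * (2 ^ κ - 3 * n) + qq.2))) k)
        (c + 1)).coeff (n - 1 - i) := by
  have h1 : ((at0 f).map (iterateFrobenius K p e)).natDegree ≤ n := by
    refine natDegree_map_le.trans ?_
    rw [at0]
    exact natDegree_map_le.trans hfd.le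
  have h2 := hdc K n n b ((at0 f).map (iterateFrobenius K p e))
    (gRev K (n, uG K (κ, (p ^ e, (b, (n, (h, ω)))))))
    (uS Fw K (κ, (p ^ e, (b, (n, (h, ω)))))) hn h1 (fun m hm => ?_) k hk c hc i hi
  · refine Eq.trans h2 ?_
    congr 1
    refine split_congr _ _ _ _ _ (fun m hm => ?_) _
    exact uS_spec hw ω hn hTD hf hfd hκ hh (p ^ e) k m hk hm
  · change (if m < n + 1 then _ else _) = _
    rw [if_pos (by omega)]
    exact uG_spec ω hh (n - m) (by omega)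

include hw hdc hhe hn hTD hf hfd hκ hh in
theorem uT_spec [Fact p.Prime] [CharP K p] (a j : Fin n) :
    uT Fbz Fw Fdc Fhe K (κ, (p ^ e, (b, (n, (h, ω))))) (a * n + j) =
      resMat p (2 ^ κ) e b n f ((apol n (uBz Fbz K (κ, (p ^ e, (b, (n, (h, ω)))))).2).map
        (iterateFrobenius K p e)) (fun qq => ω (qq.1 * (2 ^ κ - 3 * n) + qq.2)) a j := by
  have m1 : (at0 f).Monic := hf.map _
  have m2 : (at0 f).natDegree = n := by
    rw [at0, hf.natDegree_map, hfd]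
  have g1 : ((at0 f).map (iterateFrobenius K p e)).Monic := m1.map _
  have g2 : ((at0 f).map (iterateFrobenius K p e)).natDegree = n := by
    rw [m1.natDegree_map, m2]
  have g3 : ((apol n (uBz Fbz K (κ, (p ^ e, (b, (n, (h, ω)))))).2).map
      (iterateFrobenius K p e)).degree < n := by
    refine lt_of_le_of_lt degree_map_le ?_
    rw [degree_lt_iff_coeff_zero]
    intro m hm
    rw [apol_coeff, if_neg (by omega)]
  exact hhe K n n (2 ^ b) ((at0 f).map (iterateFrobenius K p e))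
    ((apol n (uBz Fbz K (κ, (p ^ e, (b, (n, (h, ω)))))).2).map (iterateFrobenius K p e))
    (fun k => split n ((at0 f).map (iterateFrobenius K p e)) b
        (sec (2 ^ κ) n (p ^ e) f
          (Om n (2 ^ κ - 3 * n) (fun qq => ω (qq.1 * (2 ^ κ - 3 * n) + qq.2))) k))
    (uG K (κ, (p ^ e, (b, (n, (h, ω)))))) (uV Fbz K (κ, (p ^ e, (b, (n, (h, ω))))))
    (uD Fw Fdc K (κ, (p ^ e, (b, (n, (h, ω)))))) hn Nat.one_le_two_pow g1 g2 g3
    (fun k _ l hl => (split_digits hn g1 g2 b _).1 l hl)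
    (fun i hi => uG_spec ω hh i hi.le)
    (fun i hi => uV_spec ω i hi)
    (fun k hk c hc i hi => uD_spec hw hdc ω hn hTD hf hfd hκ hh k c i hk hc hi) a a.2 j j.2

end spec

end FCore

theorem core2 :
    ∃ F : Fam (.prod .nat (.prod .nat (.prod .nat (.prod .nat (.prod .arr .arr)))))
      (.prod .arr .arr),
    RlzQ F (fun _ _ x => (x.2.2.2.1 + 1) * (2 ^ x.1 + x.2.1 * 2 ^ x.2.2.1 + (x.2.2.2.1 + 1) ^ 2 +
      (x.2.2.2.1 + 1) * 2 ^ x.2.2.1) + 4 ^ x.2.2.1 + x.2.1) ∧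
    ∀ (K : Type) [Field K] (p κ e b n : ℕ) [CharP K p] [Fact p.Prime] (h ω : ℕ → K)
      (f : K[X][X]), 1 ≤ n → TD n f → f.Monic → f.natDegree = n → (at0 f).Separable →
      5 * n ^ 2 < 2 ^ κ → (∀ i < (n + 1) * (n + 1), h i = coeffs2 (n + 1) f i) →
      ∃ v₀ : K[X], v₀.degree < n ∧ (∃ u, v₀ * derivative (at0 f) + u * at0 f = 1) ∧
        (∀ i < n, (F K (κ, (p ^ e, (b, (n, (h, ω)))))).1 i = v₀.coeff i) ∧
        ∀ a j : Fin n, (F K (κ, (p ^ e, (b, (n, (h, ω)))))).2 (a * n + j) =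
          resMat p (2 ^ κ) e b n f (v₀.map (iterateFrobenius K p e))
            (fun qq => ω (qq.1 * (2 ^ κ - 3 * n) + qq.2)) a j := by
  obtain ⟨Fbz, hFbz, hbz⟩ := bezout
  obtain ⟨Fw, hFw, hw⟩ := w_rlz
  obtain ⟨Fdc, hFdc, hdc⟩ := digits_rlz
  obtain ⟨Fhe, hFhe, hhe⟩ := hermite_rlz
  refine ⟨fun K _ x => ((FCore.uBz Fbz K x).2, FCore.uT Fbz Fw Fdc Fhe K x),
    FCore.pr (RlzQ.snd (FCore.uBzr hFbz)) (FCore.uTr hFbz hFw hFdc hFhe),
    fun K _ p κ e b n _ _ h ω f hn hTD hf hfd hsep hκ hh => ?_⟩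
  have m1 : (at0 f).Monic := hf.map _
  have m2 : (at0 f).natDegree = n := by
    rw [at0, hf.natDegree_map, hfd]
  obtain ⟨k1, k2⟩ := hbz K n (at0 f) (FCore.uF0 K (κ, (p ^ e, (b, (n, (h, ω)))))) hn m1 m2
    (fun i hi => FCore.uF0_spec ω hh _ i hi)
  refine ⟨apol n (FCore.uBz Fbz K (κ, (p ^ e, (b, (n, (h, ω)))))).2, ?_, k2 (k1 hsep),
    fun i hi => ?_, fun a j => FCore.uT_spec hw hdc hhe ω hn hTD hf hfd hκ hh a j⟩
  · rw [degree_lt_iff_coeff_zero]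
    intro m hm
    rw [apol_coeff, if_neg (by omega)]
  · rw [apol_coeff, if_pos hi]

end Pool.Agent.AbsIrr
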