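import Mathlib
import Pool.Agent.Lib.MP_2adc98_lc.FDefs
import Pool.Agent.Lib.MP_2adc98_lc.GA2

/-!
# MP_2adc98_lc: Gaussian elimination, the kernel of a square matrix
-/

set_option autoImplicit false

namespace Pool.Agent.AbsIrr

open Finset Polynomial

section
variable {K : Type} [Field K]

/-- the stacked matrix `[[A], [1]]` with `2 n` rows and `n` columns -/
noncomputable def gkStack (n : ℕ) (A : ℕ → K) : ℕ → K :=
  tabF (2 * n * n) (fun N => if N / n < n then A N else (if N % n = N / n - n then 1 else 0))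

/-- the elimination loop on the stacked matrix -/
noncomputable def gkLoop (n : ℕ) (A : ℕ → K) (k : ℕ) : ℕ → K :=
  iterF k (gkStack n A) (fun M j => gaStep n (2 * n) n M j)

/-- the lower block -/
noncomputable def gkSol (n : ℕ) (A : ℕ → K) : ℕ → K :=
  tabF (n * n) (fun i => gkLoop n A n (n * n + i))

theorem gkStack_apply {n : ℕ} (A : ℕ → K) {r c : ℕ} (hr : r < 2 * n) (hc : c < n) :
    gkStack n A (r * n + c) = if r < n then A (r * n + c) else (if c = r - n then 1 else 0) := by
  have h1 : (r * n + c) / n = r := by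
    rw [mul_comm, Nat.mul_add_div (by omega), Nat.div_eq_of_lt hc, add_zero]
  have h2 : (r * n + c) % n = c := by
    rw [mul_comm, Nat.mul_add_mod, Nat.mod_eq_of_lt hc]
  have h3 : r * n + c < 2 * n * n := by
    calc r * n + c < r * n + n := by omega
      _ = (r + 1) * n := by ring
      _ ≤ 2 * n * n := Nat.mul_le_mul_right _ hr
  unfold gkStack tabF
  rw [if_pos h3]
  beta_reduce
  rw [h1, h2]

theorem gkLoop_inv {n : ℕ} (A : ℕ → K) (k : ℕ) (hk : k ≤ n) :
    (∀ r < n, ∀ c < n, gkLoop n A k (r * n + c) =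
      ∑ l : Fin n, A (r * n + l) * gkLoop n A k ((n + l) * n + c)) ∧
    (∀ l < k, ∀ r < n, gkLoop n A k (r * n + l) = 0) ∧
    (∀ w : Fin n → K, (∀ r < n, ∑ l : Fin n, A (r * n + l) * w l = 0) →
      ∀ r : Fin n, ∑ c : Fin n, gkLoop n A k ((n + r) * n + c) * w c = w r) := by
  induction k with
  | zero =>
    have h1 : ∀ (l : Fin n) (c : ℕ), c < n →
        gkLoop n A 0 ((n + l) * n + c) = if c = l then 1 else 0 := by
      intro l c hc
      have := l.2
      show gkStack n A ((n + l) * n + c) = _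
      rw [gkStack_apply A (by omega) hc, if_neg (by omega)]
      congr 1
      simp
    refine ⟨?_, fun l hl => absurd hl (Nat.not_lt_zero l), ?_⟩
    · intro r hr c hc
      have h2 : gkLoop n A 0 (r * n + c) = A (r * n + c) := by
        show gkStack n A (r * n + c) = _
        rw [gkStack_apply A (by omega) hc, if_pos hr]
      rw [h2, Finset.sum_eq_single ⟨c, hc⟩]
      · rw [h1 _ _ hc]; simp
      · intro l _ hl
        rw [h1 _ _ hc, if_neg, mul_zero]
        intro h3
        exact hl (Fin.ext h3.symm)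
      · intro h; exact absurd (Finset.mem_univ _) h
    · intro w _ r
      rw [Finset.sum_eq_single r]
      · rw [h1 _ _ r.2]; simp
      · intro c _ hc
        rw [h1 _ _ c.2, if_neg, zero_mul]
        intro h3
        exact hc (Fin.ext h3)
      · intro h; exact absurd (Finset.mem_univ _) h
  | succ k ih =>
    obtain ⟨h1, h2, h3⟩ := ih (by omega)
    obtain ⟨M, hM⟩ : ∃ M, M = gkLoop n A k := ⟨_, rfl⟩
    rw [← hM] at h1 h2 h3
    have e : gkLoop n A (k + 1) = gaStep n (2 * n) n M k := by rw [hM]; rfl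
    rw [e]
    have hkn : k < n := by omega
    rcases gaStep_top (m := 2 * n) (w := n) le_rfl (by omega) M hkn h2 with
      ⟨g1, g2, g3⟩ | ⟨p, g1, g2, g3, g4⟩
    · rw [g2]
      exact ⟨h1, g3, h3⟩
    · have hst : ∀ r < 2 * n, ∀ c < n, gaStep n (2 * n) n M k (r * n + c) =
          M (r * n + c) - M (r * n + k) * M (p * n + c) / M (p * n + k) := by
        intro r hr c hc
        unfold gaStep
        rw [g1, gaElim_apply M p.2 hr hc]
      refine ⟨?_, g4, ?_⟩
      · intro r hr c hc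
        rw [hst r (by omega) c hc]
        have h4 : ∀ l : Fin n, A (r * n + l) *
            gaStep n (2 * n) n M k ((n + l) * n + c) =
            A (r * n + l) * M ((n + l) * n + c) - A (r * n + l) *
              M ((n + l) * n + k) * (M (p * n + c) / M (p * n + k)) := by
          intro l
          have := l.2
          rw [hst _ (by omega) c hc]
          ring
        simp only [h4]
        rw [Finset.sum_sub_distrib, ← Finset.sum_mul, ← h1 r hr k hkn, ← h1 r hr c hc]
        ring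
      · intro w hw r
        have hr := r.2
        have h4 : ∀ c : Fin n, gaStep n (2 * n) n M k ((n + r) * n + c) * w c =
            M ((n + r) * n + c) * w c - M ((n + r) * n + k) / M (p * n + k) *
              (M (p * n + c) * w c) := by
          intro c
          rw [hst _ (by omega) c c.2]
          ring
        simp only [h4]
        rw [Finset.sum_sub_distrib, ← Finset.mul_sum, h3 w hw r]
        have h5 : ∑ c : Fin n, M (p * n + c) * w c = 0 := by
          have h6 : ∀ c : Fin n, M (p * n + c) * w c =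
              ∑ l : Fin n, A (p * n + l) * (M ((n + l) * n + c) * w c) := by
            intro c
            rw [h1 p p.2 c c.2, Finset.sum_mul]
            exact Finset.sum_congr rfl fun l _ => mul_assoc _ _ _
          simp only [h6]
          rw [Finset.sum_comm]
          simp only [← Finset.mul_sum]
          simp only [h3 w hw]
          exact hw p p.2
        rw [h5, mul_zero, sub_zero]

theorem gkSol_apply (n : ℕ) (A : ℕ → K) (r c : Fin n) :
    matOf n n (gkSol n A) r c = gkLoop n A n ((n + r) * n + c) := by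
  have h1 : (r : ℕ) * n + c < n * n := by
    have hr := r.2
    have hc := c.2
    calc (r : ℕ) * n + c < r * n + n := by omega
      _ = (r + 1) * n := by ring
      _ ≤ n * n := Nat.mul_le_mul_right _ hr
  have h2 : n * n + ((r : ℕ) * n + c) = (n + r) * n + c := by ring
  show gkSol n A (r * n + c) = _
  unfold gkSol tabF
  rw [if_pos h1]
  beta_reduce
  rw [h2]

theorem gkSol_spec (n : ℕ) (A : ℕ → K) :
    matOf n n A * matOf n n (gkSol n A) = 0 ∧
      ∀ w : Fin n → K, (matOf n n A).mulVec w = 0 →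
        ∃ s, w = (matOf n n (gkSol n A)).mulVec s := by
  obtain ⟨h1, h2, h3⟩ := gkLoop_inv A n le_rfl
  constructor
  · ext r c
    rw [Matrix.mul_apply]
    have h4 : ∀ l : Fin n, matOf n n A r l * matOf n n (gkSol n A) l c =
        A (r * n + l) * gkLoop n A n ((n + l) * n + c) := fun l => by
      rw [gkSol_apply]; rfl
    simp only [h4]
    rw [← h1 r r.2 c c.2, h2 c c.2 r r.2]
    rfl
  · intro w hw
    refine ⟨w, ?_⟩
    ext r
    have h4 := h3 w (fun r hr => by
      have := congrFun hw ⟨r, hr⟩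
      exact this) r
    rw [← h4]
    show _ = ∑ c, matOf n n (gkSol n A) r c * w c
    simp only [gkSol_apply]

end

/-! ### costs -/

theorem gkStack_rlz : RlzQ (a := .prod .nat .arr) (b := .arr)
    (fun K _ x => gkStack x.1 (x.2 : ℕ → K)) (fun _ _ x => 2 * x.1 * x.1) := by
  have hn : RlzQ (a := .prod (.prod .nat .arr) .nat) (b := .nat)
      (fun K _ x => x.1.1) (fun _ _ _ => 0) := RlzQ.fst (RlzQ.fst RlzQ.input)
  have hA : RlzQ (a := .prod (.prod .nat .arr) .nat) (b := .arr)
      (fun K _ x => x.1.2) (fun _ _ _ => 0) := RlzQ.snd (RlzQ.fst RlzQ.input)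
  have hN : RlzQ (a := .prod (.prod .nat .arr) .nat) (b := .nat)
      (fun K _ x => x.2) (fun _ _ _ => 0) := RlzQ.snd RlzQ.input
  have hdiv : RlzQ (a := .prod (.prod .nat .arr) .nat) (b := .nat)
      (fun K _ x => (x.2 : ℕ) / x.1.1) (fun _ _ _ => 0) :=
    (RlzQ.div hN hn).mono 1 (fun K _ x => by simp)
  have hmod : RlzQ (a := .prod (.prod .nat .arr) .nat) (b := .nat)
      (fun K _ x => (x.2 : ℕ) % x.1.1) (fun _ _ _ => 0) :=
    (RlzQ.mod hN hn).mono 1 (fun K _ x => by simp)
  have hentry : RlzQ (a := .prod (.prod .nat .arr) .nat) (b := .fld)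
      (fun K _ x => if (x.2 : ℕ) / x.1.1 < x.1.1 then (x.1.2 : ℕ → K) x.2
        else (if (x.2 : ℕ) % x.1.1 = (x.2 : ℕ) / x.1.1 - x.1.1 then 1 else 0))
      (fun _ _ _ => 0) := by
    refine (RlzQ.iteLt hdiv hn (RlzQ.get hA hN)
      (RlzQ.iteEq hmod (RlzQ.sub hdiv hn) RlzQ.one RlzQ.zero)).mono 1 (fun K _ x => ?_)
    simp
  have hlen : RlzQ (a := .prod .nat .arr) (b := .nat)
      (fun K _ x => 2 * x.1 * x.1) (fun _ _ _ => 0) :=
    (RlzQ.mul (RlzQ.mul (RlzQ.lit 2) (RlzQ.fst RlzQ.input)) (RlzQ.fst RlzQ.input)).mono 1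
      (fun K _ x => by simp)
  refine (RlzQ.tab (f := fun K _ (x : Ty.val K (.prod .nat .arr)) N =>
      if (N : ℕ) / x.1 < x.1 then (x.2 : ℕ → K) N
        else (if (N : ℕ) % x.1 = (N : ℕ) / x.1 - x.1 then 1 else 0))
      hlen hentry).mono 1 (fun K _ x => ?_)
  simp only [Finset.sum_const_zero, add_zero, zero_add]
  omega

theorem gkLoop_rlz : RlzQ (a := .prod .nat .arr) (b := .arr)
    (fun K _ x => gkLoop x.1 (x.2 : ℕ → K) x.1) (fun _ _ x => x.1 ^ 3) := by
  have hn : RlzQ (a := .prod (.prod (.prod .nat .arr) .arr) .nat) (b := .nat)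
      (fun K _ x => x.1.1.1) (fun _ _ _ => 0) := RlzQ.fst (RlzQ.fst (RlzQ.fst RlzQ.input))
  have hM : RlzQ (a := .prod (.prod (.prod .nat .arr) .arr) .nat) (b := .arr)
      (fun K _ x => x.1.2) (fun _ _ _ => 0) := RlzQ.snd (RlzQ.fst RlzQ.input)
  have hj : RlzQ (a := .prod (.prod (.prod .nat .arr) .arr) .nat) (b := .nat)
      (fun K _ x => x.2) (fun _ _ _ => 0) := RlzQ.snd RlzQ.input
  have h1 : RlzQ (a := .prod (.prod (.prod .nat .arr) .arr) .nat) (b := .arr)
      (fun K _ x => gaStep x.1.1.1 (2 * x.1.1.1) x.1.1.1 (x.1.2 : ℕ → K) x.2)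
      (fun _ _ x => x.1.1.1 + 2 * x.1.1.1 * x.1.1.1) :=
    (RlzQ.comp gaStep_rlz (RlzQ.pair hn (RlzQ.pair (RlzQ.mul (RlzQ.lit 2) hn)
      (RlzQ.pair hn (RlzQ.pair hj hM))))).mono 1 (fun K _ x => by simp)
  have h2 := RlzQ.iter (a := .prod .nat .arr) (b := .arr)
    (N := fun K _ x => x.1) (S := fun K _ x => gkStack x.1 (x.2 : ℕ → K))
    (f := fun K _ x s j => gaStep x.1 (2 * x.1) x.1 (s : ℕ → K) j)
    (RlzQ.fst RlzQ.input) gkStack_rlz h1
  refine h2.mono 20 (fun K _ x => ?_)
  simp only [Finset.sum_const, Finset.card_range, smul_eq_mul, zero_add]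
  obtain ⟨n, hn⟩ : ∃ n : ℕ, n = x.1 := ⟨_, rfl⟩
  rw [← hn]
  have h7 : n ≤ n ^ 3 := Nat.le_self_pow (by norm_num) n
  have h8 : n * n ≤ n ^ 3 := by
    rw [← pow_two]
    rcases Nat.eq_zero_or_pos n with h | h
    · rw [h]; norm_num
    · exact Nat.pow_le_pow_right h (by norm_num)
  nlinarith

theorem gauss_ker : ∃ F : Fam (.prod .nat .arr) .arr, RlzQ F (fun _ _ x => x.1 ^ 3) ∧
    ∀ (K : Type) [Field K] (n : ℕ) (A : ℕ → K),
      matOf n n A * matOf n n (F K (n, A)) = 0 ∧
      ∀ w : Fin n → K, (matOf n n A).mulVec w = 0 →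
        ∃ s, w = (matOf n n (F K (n, A))).mulVec s := by
  refine ⟨fun K _ x => gkSol x.1 (x.2 : ℕ → K), ?_, fun K _ n A => gkSol_spec n A⟩
  have hn : RlzQ (a := .prod (.prod .nat .arr) .nat) (b := .nat)
      (fun K _ x => x.1.1) (fun _ _ _ => 0) := RlzQ.fst (RlzQ.fst RlzQ.input)
  have hM : RlzQ (a := .prod (.prod .nat .arr) .nat) (b := .arr)
      (fun K _ x => x.1.2) (fun _ _ _ => 0) := RlzQ.snd (RlzQ.fst RlzQ.input)
  have hi : RlzQ (a := .prod (.prod .nat .arr) .nat) (b := .nat)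
      (fun K _ x => x.2) (fun _ _ _ => 0) := RlzQ.snd RlzQ.input
  have hentry : RlzQ (a := .prod (.prod .nat .arr) .nat) (b := .fld)
      (fun K _ x => (x.1.2 : ℕ → K) (x.1.1 * x.1.1 + x.2)) (fun _ _ _ => 0) :=
    (RlzQ.get hM (RlzQ.add (RlzQ.mul hn hn) hi)).mono 1 (fun K _ x => by simp)
  have hlen : RlzQ (a := .prod .nat .arr) (b := .nat)
      (fun K _ x => x.1 * x.1) (fun _ _ _ => 0) :=
    (RlzQ.mul (RlzQ.fst RlzQ.input) (RlzQ.fst RlzQ.input)).mono 1 (fun K _ x => by simp)
  have htab := RlzQ.tab (a := .prod .nat .arr) (N := fun K _ x => x.1 * x.1)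
    (f := fun K _ (x : Ty.val K (.prod .nat .arr)) i => (x.2 : ℕ → K) (x.1 * x.1 + i))
    hlen hentry
  have h1 : RlzQ (a := .prod .nat .arr) (b := .prod .nat .arr)
      (fun K _ x => (x.1, gkLoop x.1 (x.2 : ℕ → K) x.1)) (fun _ _ x => x.1 ^ 3) :=
    (RlzQ.pair (RlzQ.fst RlzQ.input) gkLoop_rlz).mono 1 (fun K _ x => by simp)
  refine (RlzQ.comp htab h1).mono 3 (fun K _ x => ?_)
  simp only [Finset.sum_const_zero, add_zero, zero_add]
  obtain ⟨n, hn⟩ : ∃ n : ℕ, n = x.1 := ⟨_, rfl⟩
  rw [← hn]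
  have h8 : n * n ≤ n ^ 3 := by
    rw [← pow_two]
    rcases Nat.eq_zero_or_pos n with h | h
    · rw [h]; norm_num
    · exact Nat.pow_le_pow_right h (by norm_num)
  omega

end Pool.Agent.AbsIrr
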