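import Mathlib
import Pool.Agent.Lib.MP_2adc98_lc.Spec

set_option autoImplicit false

namespace Pool.Agent.AbsIrr

open Finset Polynomial

open Classical in
theorem exists_cls {k : Type} [Field k] {n : ℕ} {f : k[X][X]} {φ : Fin n → PowerSeries k}
    (hφ : IsRoots f φ) {ι : Type} [Fintype ι] {F : ι → k[X][X]} (hF : ∀ c, (F c).Monic)
    (hprod : f = ∏ c, F c) : ∃ cls : Fin n → ι, ∀ c,
      (F c).map Polynomial.coeToPowerSeries.ringHom = ∏ i with cls i = c, (X - C (φ i)) := by
  set G : ι → (PowerSeries k)[X] := fun c => (F c).map Polynomial.coeToPowerSeries.ringHom with hG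
  have hGm : ∀ c, (G c).Monic := fun c => (hF c).map _
  have hinj : Function.Injective φ := fun i j h => hφ.inj (by simp only [h])
  have hP : ∏ c, G c = ∏ i, (X - C (φ i)) := by
    rw [← hφ.prod, hprod, Polynomial.map_prod]
  have hroot : ∀ i, ∃ c, (G c).IsRoot (φ i) := by
    intro i
    have h : (∏ c, G c).eval (φ i) = 0 := by
      rw [hP, eval_prod]
      exact Finset.prod_eq_zero (Finset.mem_univ i) (by simp)
    rw [eval_prod, Finset.prod_eq_zero_iff] at h
    obtain ⟨c, -, hc⟩ := h
    exact ⟨c, hc⟩
  choose cls hcls using hroot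
  refine ⟨cls, ?_⟩
  have hdvd : ∀ c, (∏ i with cls i = c, (X - C (φ i))) ∣ G c := by
    intro c
    have h : ((Finset.univ.filter fun i => cls i = c).val.map φ) ≤ (G c).roots := by
      rw [Multiset.le_iff_subset]
      · intro x hx
        obtain ⟨i, hi, rfl⟩ := Multiset.mem_map.1 hx
        have hi' : cls i = c := by simpa using hi
        rw [mem_roots (hGm c).ne_zero, ← hi']
        exact hcls i
      · exact Multiset.Nodup.map hinj (Finset.nodup _)
    have h2 := (Multiset.prod_X_sub_C_dvd_iff_le_roots (hGm c).ne_zero _).2 h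
    rw [Multiset.map_map] at h2
    exact h2
  have hdeg : ∀ c, (∏ i with cls i = c, (X - C (φ i))).natDegree =
      (Finset.univ.filter fun i => cls i = c).card := by
    intro c
    rw [natDegree_prod_of_monic _ _ (fun i _ => monic_X_sub_C _)]
    simp
  have hle : ∀ c, (Finset.univ.filter fun i => cls i = c).card ≤ (G c).natDegree := fun c => by
    rw [← hdeg c]; exact natDegree_le_of_dvd (hdvd c) (hGm c).ne_zero
  have hsum : ∑ c, (G c).natDegree = ∑ c, (Finset.univ.filter fun i => cls i = c).card := by
    rw [← natDegree_prod_of_monic _ _ (fun c _ => hGm c), hP,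
      natDegree_prod_of_monic _ _ (fun i _ => monic_X_sub_C _)]
    simp only [natDegree_X_sub_C, Finset.sum_const, smul_eq_mul, mul_one]
    rw [Finset.card_eq_sum_card_fiberwise (f := cls) (t := Finset.univ) (by simp)]
  have heq : ∀ c, (Finset.univ.filter fun i => cls i = c).card = (G c).natDegree := by
    intro c
    exact ((Finset.sum_eq_sum_iff_of_le (fun c _ => hle c)).1 hsum.symm) c (Finset.mem_univ c)
  intro c
  refine (eq_of_monic_of_dvd_of_natDegree_le
    (monic_prod_of_monic _ _ (fun i _ => monic_X_sub_C _)) (hGm c) (hdvd c) ?_)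
  rw [hdeg, heq]

end Pool.Agent.AbsIrr
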