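import Mathlib
import Pool.Agent.Lib.MP_2adc98_lc.Indep

/-!
# MP_2adc98_lc, stage 2, FM1: independence of the functionals for a product of irreducible factors
-/

set_option autoImplicit false

namespace Pool.Agent.AbsIrr

open Polynomial

namespace FM1

variable {k : Type} [Field k]

open Classical in
/-- the roots of one factor -/
theorem isRoots_class {n : ℕ} {f : k[X][X]} {φ : Fin n → PowerSeries k} (hφ : IsRoots f φ)
    {ι : Type} {F : ι → k[X][X]} {cls : Fin n → ι} {c : ι}
    (hcls : (F c).map Polynomial.coeToPowerSeries.ringHom =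
      ∏ i with cls i = c, (X - C (φ i))) :
    IsRoots (F c) (fun i : {i // cls i = c} => φ i) := by
  constructor
  · rw [hcls]
    exact (Finset.prod_subtype (p := fun i => cls i = c) _ (by simp)
      (fun i => (X - C (φ i) : (PowerSeries k)[X])))
  · intro i j hij
    exact Subtype.ext (hφ.inj hij)

open Classical in
theorem TD_class {n : ℕ} {f : k[X][X]} (hTD : TD n f) {φ : Fin n → PowerSeries k}
    (hφ : IsRoots f φ) {ι : Type} [Fintype ι] {F : ι → k[X][X]} (hF : ∀ c, (F c).Monic)
    (hprod : f = ∏ c, F c) {cls : Fin n → ι} (c : ι)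
    (hcls : (F c).map Polynomial.coeToPowerSeries.ringHom =
      ∏ i with cls i = c, (X - C (φ i))) :
    TD (Fintype.card {i // cls i = c}) (F c) := by
  have h1 := (isRoots_class hφ hcls).natDegree_eq
  have h2 : f = F c * ∏ c' ∈ Finset.univ.erase c, F c' := by
    rw [Finset.mul_prod_erase _ _ (Finset.mem_univ c), hprod]
  have h3 := TD.of_mul (hF c) (monic_prod_of_monic _ _ fun i _ => hF i) h2
    (by rw [hφ.natDegree_eq, Fintype.card_fin]) hTD
  rwa [h1] at h3

/-- a power series which is algebraic over the constants is constant -/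
theorem eq_C_of_eval₂ {c : k[X]} (hc : c ≠ 0) {φ : PowerSeries k}
    (h : c.eval₂ PowerSeries.C φ = 0) : φ = PowerSeries.C (PowerSeries.constantCoeff φ) := by
  set a := PowerSeries.constantCoeff φ with ha
  obtain ⟨e, he, hne⟩ := Polynomial.exists_eq_pow_rootMultiplicity_mul_and_not_dvd c hc a
  rw [he, Polynomial.eval₂_mul, Polynomial.eval₂_pow, Polynomial.eval₂_sub, Polynomial.eval₂_X,
    Polynomial.eval₂_C, mul_eq_zero] at h
  rcases h with h | h
  · by_contra hne'
    exact pow_ne_zero _ (sub_ne_zero.2 hne') h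
  · exfalso
    apply hne
    rw [Polynomial.dvd_iff_isRoot, Polynomial.IsRoot]
    have h1 := congrArg (PowerSeries.constantCoeff (R := k)) h
    rw [Polynomial.hom_eval₂, map_zero] at h1
    have h2 : (PowerSeries.constantCoeff (R := k)).comp PowerSeries.C = RingHom.id k := by
      ext x; simp
    rw [h2, ← ha] at h1
    exact h1

end FM1

open Ind FM1 in
open Classical in
theorem functional_indep_cls {k : Type} [Field k] {n N : ℕ} {f : k[X][X]} (hTD : TD n f)
    {φ : Fin n → PowerSeries k} (hφ : IsRoots f φ) {ι : Type} [Fintype ι] {F : ι → k[X][X]}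
    (hF : ∀ c, (F c).Monic ∧ Irreducible (F c)) (hprod : f = ∏ c, F c) {cls : Fin n → ι}
    (hcls : ∀ c, (F c).map Polynomial.coeToPowerSeries.ringHom =
      ∏ i with cls i = c, (X - C (φ i)))
    (hN : 5 * n ^ 2 < N) (h : Fin n → k) (hh : ¬ ∃ val : ι → k, ∀ i, h i = val (cls i))
    (c : k[X]) (hc : c ≠ 0) (hcd : c.natDegree < n) :
    ∃ j < N - 3 * n, ∃ m < n, PowerSeries.coeff (N - 1) (∑ i, PowerSeries.C (h i) *
      (c.eval₂ PowerSeries.C (φ i) * PowerSeries.X ^ j * φ i ^ m)) ≠ 0 := by
  by_contra hcon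
  push Not at hcon
  have hd1 : 1 ≤ n := by omega
  have hNd : 3 * n < N := by nlinarith
  -- a class on which `h` is not constant
  obtain ⟨i₁, i₂, hi12, hne12⟩ : ∃ i₁ i₂, cls i₁ = cls i₂ ∧ h i₁ ≠ h i₂ := by
    by_contra hno
    push Not at hno
    apply hh
    refine ⟨fun c => if hx : ∃ i, cls i = c then h hx.choose else 0, fun i => ?_⟩
    have hx : ∃ j, cls j = cls i := ⟨i, rfl⟩
    simp only [dif_pos hx]
    exact (hno _ _ hx.choose_spec).symm
  obtain ⟨c0, hc0⟩ : ∃ c0, c0 = cls i₁ := ⟨_, rfl⟩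
  have hr := isRoots_class hφ (hcls c0)
  have hTD0 := TD_class hTD hφ (fun c => (hF c).1) hprod c0 (hcls c0)
  have hcardn : Fintype.card {i // cls i = c0} ≤ n := by
    have := Fintype.card_subtype_le (fun i => cls i = c0)
    rwa [Fintype.card_fin] at this
  have hcard1 : 0 < Fintype.card {i // cls i = c0} := Fintype.card_pos_iff.2 ⟨⟨i₁, hc0.symm⟩⟩
  have hirr := (hF c0).2
  set c' : Fin n → PowerSeries k := fun i => c.eval₂ PowerSeries.C (φ i) with hc'
  set H : Fin n → PowerSeries k := fun i => PowerSeries.C (h i) with hH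
  have hS : ∀ m' < n, ∀ m, 3 * n ≤ m → m < N →
      PowerSeries.coeff m (∑ i, H i * c' i * φ i ^ m') = 0 := by
    intro m' hm' m hm hmN
    have h1 := hcon (N - 1 - m) (by omega) m' hm'
    have h2 : ∑ i, PowerSeries.C (h i) * (c.eval₂ PowerSeries.C (φ i) *
        PowerSeries.X ^ (N - 1 - m) * φ i ^ m') =
        PowerSeries.X ^ (N - 1 - m) * ∑ i, H i * c' i * φ i ^ m' := by
      rw [Finset.mul_sum]
      refine Finset.sum_congr rfl fun i _ => ?_
      simp only [hH, hc']
      ring
    rw [h2] at h1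
    obtain ⟨q, hq⟩ : ∃ q, q = N - 1 - m := ⟨_, rfl⟩
    have h3 : N - 1 = m + q := by omega
    rw [← hq, h3, PowerSeries.coeff_X_pow_mul] at h1
    exact h1
  obtain ⟨P, hPTD, hP⟩ := exists_P hTD hd1 hφ H c' hS
  set cy : k[X][X] := c.map C with hcy
  have hcyTD : TD (n - 1) cy := TD_mapC (by omega)
  have hcyev : ∀ i, ev cy (φ i) = c' i := fun i => ev_mapC c (φ i)
  have hf1 : TD (n - 1) (derivative f) := hTD.derivative
  -- the factors
  have hfacTD : ∀ v : k, TD (4 * n - 2) (P - C (C v) * (cy * derivative f)) := by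
    intro v
    refine hPTD.sub ?_
    have h1 : TD 0 (C (C v) : k[X][X]) := TD.C (by rw [natDegree_C])
    exact (h1.mul (hcyTD.mul hf1)).mono (by omega)
  have hfacev : ∀ v i, ev (P - C (C v) * (cy * derivative f)) (φ i) =
      ev P (φ i) - PowerSeries.C v * (c' i * ev (derivative f) (φ i)) := by
    intro v i
    rw [ev_sub, ev_mul, ev_mul, hcyev, ev_C, Polynomial.coe_C]
  set Q : k[X][X] := ∏ v ∈ Finset.univ.image h, (P - C (C v) * (cy * derivative f)) with hQ
  have hprodTD : ∀ s : Finset k, TD (s.card * (4 * n - 2))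
      (∏ v ∈ s, (P - C (C v) * (cy * derivative f))) := by
    intro s
    induction s using Finset.induction_on with
    | empty =>
      rw [Finset.prod_empty, Finset.card_empty, zero_mul, ← C_1]
      exact TD.C (by rw [natDegree_one])
    | insert a s ha ih =>
      rw [Finset.prod_insert ha, Finset.card_insert_of_notMem ha]
      exact ((hfacTD a).mul ih).mono (by rw [add_mul, one_mul]; omega)
  have hcard : (Finset.univ.image h).card ≤ n := by
    calc _ ≤ (Finset.univ : Finset (Fin n)).card := Finset.card_image_le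
      _ = n := by rw [Finset.card_univ, Fintype.card_fin]
  have hQTD : TD (n * (4 * n - 2)) Q := (hprodTD _).mono (Nat.mul_le_mul_right _ hcard)
  have hQdvd : ∀ i, (PowerSeries.X : PowerSeries k) ^ N ∣ ev Q (φ i) := by
    intro i
    have hmem : h i ∈ Finset.univ.image h := Finset.mem_image_of_mem _ (Finset.mem_univ i)
    have h1 : ev (P - C (C (h i)) * (cy * derivative f)) (φ i) ∣ ev Q (φ i) := by
      rw [hQ, ← Finset.mul_prod_erase _ _ hmem, ev_mul]
      exact dvd_mul_right _ _
    refine dvd_trans ?_ h1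
    rw [hfacev, ← mul_assoc]
    exact hP i
  -- some value of `Q` vanishes on the class
  obtain ⟨-, q, hqdeg, hq⟩ := trace_norm hTD0 hr hQTD
  have hq0 : q = 0 := by
    refine eq_zero_of_dvd (M := N * Fintype.card {i // cls i = c0}) ?_ ?_
    · refine lt_of_le_of_lt hqdeg ?_
      refine Nat.mul_lt_mul_of_pos_right ?_ hcard1
      refine lt_of_le_of_lt (Nat.mul_le_mul_left n (Nat.sub_le _ _)) ?_
      nlinarith
    · rw [hq, pow_mul]
      have h1 : ∏ _i : {i // cls i = c0}, (PowerSeries.X : PowerSeries k) ^ N =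
          (PowerSeries.X ^ N) ^ Fintype.card {i // cls i = c0} := by
        rw [Finset.prod_const, Finset.card_univ]
      rw [← h1]
      exact Finset.prod_dvd_prod_of_dvd _ _ fun i _ => hQdvd i
  rw [hq0, Polynomial.coe_zero] at hq
  obtain ⟨i₀, -, hi₀⟩ := Finset.prod_eq_zero_iff.1 hq.symm
  have hfQ : F c0 ∣ Q := dvd_of_root hirr hr i₀ hi₀
  obtain ⟨v, -, hv⟩ := hirr.prime.exists_mem_finset_dvd (hQ ▸ hfQ)
  -- `c (φ i)` is not divisible by `x^N` for `i` in the class
  have hcnd : ∀ i : {i // cls i = c0}, ¬ (PowerSeries.X : PowerSeries k) ^ N ∣ c' i := by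
    intro i hdvd
    obtain ⟨-, r, hrdeg, hr'⟩ := trace_norm hTD0 hr hcyTD
    have hr0 : r = 0 := by
      refine eq_zero_of_dvd (M := N) ?_ ?_
      · refine lt_of_le_of_lt hrdeg ?_
        refine lt_of_le_of_lt (Nat.mul_le_mul (Nat.sub_le _ _) hcardn) ?_
        nlinarith
      · rw [hr']
        have h1 : ev cy (φ i) ∣ ∏ j : {i // cls i = c0}, ev cy (φ j) :=
          Finset.dvd_prod_of_mem (fun j : {i // cls i = c0} => ev cy (φ j)) (Finset.mem_univ i)
        rw [hcyev i] at h1
        exact hdvd.trans h1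
    rw [hr0, Polynomial.coe_zero] at hr'
    obtain ⟨j, -, hj⟩ := Finset.prod_eq_zero_iff.1 hr'.symm
    rw [hcyev j] at hj
    have hφj := eq_C_of_eval₂ hc hj
    have hdiv : F c0 ∣ X - C (C (PowerSeries.constantCoeff (φ j))) := by
      refine dvd_of_root hirr hr j ?_
      rw [ev_sub, ev_X, ev_C, Polynomial.coe_C, ← hφj, sub_self]
    have hdeg := Polynomial.natDegree_le_of_dvd hdiv (X_sub_C_ne_zero _)
    rw [natDegree_X_sub_C, hr.natDegree_eq] at hdeg
    have hsub := Fintype.card_le_one_iff_subsingleton.1 hdeg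
    have h12 := hsub.elim ⟨i₁, hc0.symm⟩ ⟨i₂, by rw [← hi12, hc0]⟩
    apply hne12
    rw [Subtype.mk.injEq] at h12
    rw [h12]
  have hval : ∀ i : {i // cls i = c0}, h i = v := by
    intro i
    by_contra hne
    have h1 : ev (P - C (C v) * (cy * derivative f)) (φ i) = 0 := by
      obtain ⟨R, hR⟩ := hv
      rw [hR, ev_mul, hr.ev_eq_zero i, zero_mul]
    rw [hfacev, sub_eq_zero] at h1
    have h2 := hP i
    rw [h1, mul_assoc, ← sub_mul, ← mul_assoc] at h2
    have h3 : (PowerSeries.X : PowerSeries k) ^ N ∣ (PowerSeries.C v - H i) * c' i :=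
      ((hφ.isUnit_ev_derivative i).dvd_mul_right).1 h2
    have h4 : IsUnit (PowerSeries.C v - H i) := by
      simp only [hH]
      rw [← map_sub]
      exact (IsUnit.mk0 _ (sub_ne_zero.2 (Ne.symm hne))).map _
    exact hcnd i ((h4.dvd_mul_left).1 h3)
  apply hne12
  rw [hval ⟨i₁, hc0.symm⟩, hval ⟨i₂, by rw [← hi12, hc0]⟩]

end Pool.Agent.AbsIrr
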