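import Mathlib
import Pool.Agent.Lib.MP_2adc98_lc.FM1
import Pool.Agent.Lib.MP_2adc98_lc.GenRank

/-!
# MP_2adc98_lc, stage 2, FM2: rank and kernel of `Zmat` for a product of irreducible factors
-/

set_option autoImplicit false

namespace Pool.Agent.AbsIrr

open Finset Polynomial

namespace FM2

variable {K : Type} [Field K]

private theorem coeff_sum_zero {ι : Type} [Fintype ι] {d N : ℕ} {f : K[X][X]}
    (hTD : TD (Fintype.card ι) f) {φ : ι → PowerSeries K} (hφ : IsRoots f φ)
    (hN : 5 * d ^ 2 < N) (ω : Fin d × Fin (N - 3 * d) → K) (a : Fin d) :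
    ∑ i, PowerSeries.coeff (N - 1) (φ i ^ (a : ℕ) * ev (Om d (N - 3 * d) ω) (φ i)) = 0 := by
  have h0 : TD (a : ℕ) (X ^ (a : ℕ) : K[X][X]) := by
    have h := TD.C_mul_X_pow (D := (a : ℕ)) (j := (a : ℕ)) (P := (1 : K[X])) (by simp)
    simpa using h
  have h1 := TD.mul h0 (TD_Om ω)
  obtain ⟨⟨Q, hQd, hQ⟩, _⟩ := trace_norm hTD hφ h1
  have h2 : ∑ i, ev (X ^ (a : ℕ) * Om d (N - 3 * d) ω) (φ i) =
      ∑ i, φ i ^ (a : ℕ) * ev (Om d (N - 3 * d) ω) (φ i) := by
    refine Finset.sum_congr rfl fun i _ => ?_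
    rw [ev_mul, ev_pow, ev_X]
  rw [← map_sum, ← h2, ← hQ, Polynomial.coeff_coe]
  refine Polynomial.coeff_eq_zero_of_natDegree_lt (lt_of_le_of_lt hQd ?_)
  have ha := a.2
  have hd : d ≤ d ^ 2 := Nat.le_self_pow (by norm_num) d
  omega

private theorem gen_ev_Om {d m : ℕ} (ω : Fin d × Fin m → K) (φ : PowerSeries K) :
    ev (Om d m ω) φ = ∑ q : Fin d × Fin m,
      PowerSeries.C (ω q) * (PowerSeries.X ^ (q.2 : ℕ) * φ ^ (q.1 : ℕ)) := by
  unfold ev Om
  rw [Polynomial.eval₂_finsetSum]
  refine Finset.sum_congr rfl fun q _ => ?_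
  rw [Polynomial.eval₂_monomial, Polynomial.coeToPowerSeries.ringHom_apply,
    Polynomial.coe_monomial, PowerSeries.monomial_eq_C_mul_X_pow, mul_assoc]

private theorem gen_Zmat {d m N : ℕ} (φ : Fin d → PowerSeries K) (ω : Fin d × Fin m → K)
    (a i : Fin d) : Zmat N φ (Om d m ω) a i = ∑ q : Fin d × Fin m, ω q *
      PowerSeries.coeff (N - 1) (φ i ^ (a : ℕ) * (PowerSeries.X ^ (q.2 : ℕ) * φ i ^ (q.1 : ℕ))) := by
  simp only [Zmat, Matrix.of_apply, gen_ev_Om, Finset.mul_sum, map_sum]
  refine Finset.sum_congr rfl fun q _ => ?_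
  rw [mul_left_comm, PowerSeries.coeff_C_mul]

private theorem gen_add {d m N : ℕ} (φ : Fin d → PowerSeries K) (ω ω' : Fin d × Fin m → K) :
    Zmat N φ (Om d m (ω + ω')) = Zmat N φ (Om d m ω) + Zmat N φ (Om d m ω') := by
  ext a i
  simp only [Matrix.add_apply, gen_Zmat, Pi.add_apply, add_mul, Finset.sum_add_distrib]

private theorem gen_smul {d m N : ℕ} (φ : Fin d → PowerSeries K) (c : K)
    (ω : Fin d × Fin m → K) :
    Zmat N φ (Om d m (c • ω)) = c • Zmat N φ (Om d m ω) := by
  ext a i
  simp only [Matrix.smul_apply, gen_Zmat, Pi.smul_apply, smul_eq_mul, Finset.mul_sum, mul_assoc]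

/-- the bilinear map `(ω, w) ↦ Z_ω w` on a subspace -/
private noncomputable def genB {n m : ℕ} (N : ℕ) (φ : Fin n → PowerSeries K)
    (W : Submodule K (Fin n → K)) :
    (Fin n × Fin m → K) →ₗ[K] W →ₗ[K] (Fin n → K) :=
  LinearMap.mk₂ K (fun ω w => (Zmat N φ (Om n m ω)).mulVec w)
    (fun ω ω' w => by rw [gen_add, Matrix.add_mulVec])
    (fun c ω w => by rw [gen_smul, Matrix.smul_mulVec])
    (fun ω w w' => by rw [Submodule.coe_add, Matrix.mulVec_add])
    (fun c ω w => by rw [Submodule.coe_smul, Matrix.mulVec_smul])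

private theorem genB_apply {n m : ℕ} (N : ℕ) (φ : Fin n → PowerSeries K)
    (W : Submodule K (Fin n → K)) (ω : Fin n × Fin m → K) (w : W) :
    genB N φ W ω w = (Zmat N φ (Om n m ω)).mulVec w := rfl

/-- the class functions -/
private def clsFun (n : ℕ) {ι : Type} (cls : Fin n → ι) : (ι → K) →ₗ[K] (Fin n → K) :=
  LinearMap.funLeft K K cls

/-- restriction to the representatives -/
private theorem finrank_vanish {n : ℕ} {ι : Type} [Fintype ι] {cls : Fin n → ι}
    {rep : ι → Fin n} (hrep : ∀ c, cls (rep c) = c) :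
    Module.finrank K (LinearMap.ker (LinearMap.funLeft K K rep)) + Fintype.card ι = n := by
  have h1 := LinearMap.finrank_range_add_finrank_ker (LinearMap.funLeft K K rep)
  have h2 : Function.Surjective (LinearMap.funLeft K K rep) := by
    refine LinearMap.funLeft_surjective_of_injective K K rep ?_
    intro c c' hcc
    rw [← hrep c, hcc, hrep c']
  rw [LinearMap.range_eq_top.2 h2, finrank_top, Module.finrank_fintype_fun_eq_card,
    Module.finrank_fintype_fun_eq_card, Fintype.card_fin] at h1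
  omega

end FM2

section FM2
set_option linter.unusedSectionVars false
open Classical
variable {k : Type} [Field k] {n N : ℕ} {f : k[X][X]} (hTD : TD n f) (hn : 1 ≤ n)
    {φ : Fin n → PowerSeries k} (hφ : IsRoots f φ) {ι : Type} [Fintype ι] {F : ι → k[X][X]}
    (hF : ∀ c, (F c).Monic ∧ Irreducible (F c)) (hprod : f = ∏ c, F c) {cls : Fin n → ι}
    (hcls : ∀ c, (F c).map Polynomial.coeToPowerSeries.ringHom =
      ∏ i with cls i = c, (X - C (φ i))) (hN : 5 * n ^ 2 < N)
include hTD hn hφ hF hprod hcls hN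

private theorem exists_rep : ∃ rep : ι → Fin n, ∀ c, cls (rep c) = c := by
  have h : ∀ c, ∃ i, cls i = c := by
    intro c
    have h1 := (FM1.isRoots_class hφ (hcls c)).natDegree_eq
    have h2 : 0 < (F c).natDegree := by
      rw [Nat.pos_iff_ne_zero]
      intro h0
      have h3 := (Polynomial.Monic.natDegree_eq_zero (hF c).1).1 h0
      exact (hF c).2.not_isUnit (by rw [h3]; exact isUnit_one)
    rw [h1, Fintype.card_pos_iff] at h2
    obtain ⟨⟨i, hi⟩⟩ := h2
    exact ⟨i, hi⟩
  choose rep hrep using h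
  exact ⟨rep, hrep⟩

private theorem mulVec_cls (ω : Fin n × Fin (N - 3 * n) → k) (val : ι → k) :
    (Zmat N φ (Om n (N - 3 * n) ω)).mulVec (fun i => val (cls i)) = 0 := by
  funext a
  simp only [Matrix.mulVec, dotProduct, Zmat, Matrix.of_apply, Pi.zero_apply]
  have h1 : ∀ i : Fin n, PowerSeries.coeff (N - 1) (φ i ^ (a : ℕ) *
      ev (Om n (N - 3 * n) ω) (φ i)) * val (cls i) = ∑ c, if cls i = c then
        val c * PowerSeries.coeff (N - 1) (φ i ^ (a : ℕ) * ev (Om n (N - 3 * n) ω) (φ i))
        else 0 := by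
    intro i
    rw [Finset.sum_ite_eq, if_pos (Finset.mem_univ _), mul_comm]
  rw [Finset.sum_congr rfl fun i _ => h1 i, Finset.sum_comm]
  refine Finset.sum_eq_zero fun c _ => ?_
  rw [← Finset.sum_filter, ← Finset.mul_sum]
  have h2 := FM2.coeff_sum_zero (FM1.TD_class hTD hφ (fun c => (hF c).1) hprod c (hcls c))
    (FM1.isRoots_class hφ (hcls c)) hN ω a
  rw [Finset.sum_subtype (p := fun i => cls i = c) _ (by simp)
    (fun i => PowerSeries.coeff (N - 1) (φ i ^ (a : ℕ) * ev (Om n (N - 3 * n) ω) (φ i))), h2,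
    mul_zero]

private theorem finrank_cls : Module.finrank k (LinearMap.range (LinearMap.funLeft k k cls)) =
    Fintype.card ι := by
  obtain ⟨rep, hrep⟩ := exists_rep hTD hn hφ hF hprod hcls hN
  rw [LinearMap.finrank_range_of_inj, Module.finrank_fintype_fun_eq_card]
  exact LinearMap.funLeft_injective_of_surjective k k cls fun c => ⟨rep c, hrep c⟩

private theorem cls_le_ker (ω : Fin n × Fin (N - 3 * n) → k) :
    LinearMap.range (LinearMap.funLeft k k cls) ≤
      LinearMap.ker (Zmat N φ (Om n (N - 3 * n) ω)).mulVecLin := by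
  rintro _ ⟨val, rfl⟩
  rw [LinearMap.mem_ker, Matrix.mulVecLin_apply]
  exact mulVec_cls hTD hn hφ hF hprod hcls hN ω val

theorem rank_cls_le (ω : Fin n × Fin (N - 3 * n) → k) :
    (Zmat N φ (Om n (N - 3 * n) ω)).rank + Fintype.card ι ≤ n := by
  have h1 := LinearMap.finrank_range_add_finrank_ker
    (Zmat N φ (Om n (N - 3 * n) ω)).mulVecLin
  rw [Module.finrank_fintype_fun_eq_card, Fintype.card_fin] at h1
  have h2 := Submodule.finrank_mono (cls_le_ker hTD hn hφ hF hprod hcls hN ω)
  rw [finrank_cls hTD hn hφ hF hprod hcls hN] at h2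
  have h3 : (Zmat N φ (Om n (N - 3 * n) ω)).rank =
    Module.finrank k (LinearMap.range (Zmat N φ (Om n (N - 3 * n) ω)).mulVecLin) := rfl
  omega

theorem rank_cls_generic [Infinite k] : ∃ ω : Fin n × Fin (N - 3 * n) → k,
    n ≤ (Zmat N φ (Om n (N - 3 * n) ω)).rank + Fintype.card ι := by
  obtain ⟨rep, hrep⟩ := exists_rep hTD hn hφ hF hprod hcls hN
  set m := N - 3 * n with hm
  set W : Submodule k (Fin n → k) := LinearMap.ker (LinearMap.funLeft k k rep) with hW
  have hWdim : Module.finrank k W + Fintype.card ι = n := FM2.finrank_vanish hrep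
  have hsurj : ∀ w : W, w ≠ 0 → Function.Surjective
      (fun ω : Fin n × Fin m → k => FM2.genB N φ W ω w) := by
    intro w hw
    by_contra hns
    set L : (Fin n × Fin m → k) →ₗ[k] (Fin n → k) := (FM2.genB N φ W).flip w with hL
    have hlt : LinearMap.range L < ⊤ := by
      rw [lt_top_iff_ne_top]
      intro h
      exact hns (LinearMap.range_eq_top.1 h)
    obtain ⟨G, hG0, hGL⟩ := Submodule.exists_le_ker_of_lt_top _ hlt
    set c : k[X] := ∑ a : Fin n, monomial (a : ℕ) (G (Pi.single a 1)) with hc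
    have hccoeff : ∀ a : Fin n, c.coeff a = G (Pi.single a 1) := by
      intro a
      rw [hc, Polynomial.finsetSum_coeff]
      simp only [Polynomial.coeff_monomial]
      rw [Finset.sum_eq_single a]
      · simp
      · intro b _ hb
        rw [if_neg]
        intro h
        exact hb (Fin.ext h)
      · simp
    have hc0 : c ≠ 0 := by
      intro h
      apply hG0
      refine LinearMap.pi_ext' fun a => ?_
      refine LinearMap.ext_ring ?_
      have := hccoeff a
      rw [h, Polynomial.coeff_zero] at this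
      simpa using this.symm
    have hcd : c.natDegree < n := by
      refine lt_of_le_of_lt (Polynomial.natDegree_sum_le_of_forall_le (n := n - 1) _ _ ?_)
        (by omega)
      intro a _
      exact (Polynomial.natDegree_monomial_le _).trans (by have := a.2; omega)
    set h : Fin n → k := (w : Fin n → k) with hh
    have hnc : ¬ ∃ val : ι → k, ∀ i, h i = val (cls i) := by
      rintro ⟨val, hval⟩
      apply hw
      have hw0 : ∀ c, h (rep c) = 0 := by
        intro c
        have h1 : LinearMap.funLeft k k rep (w : Fin n → k) = 0 := LinearMap.mem_ker.1 w.2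
        exact congrFun h1 c
      refine Subtype.ext (funext fun i => ?_)
      have h1 := hval i
      have h2 := hval (rep (cls i))
      rw [hw0, hrep] at h2
      rw [← h2] at h1
      exact h1
    obtain ⟨j, hj, l, hl, hne⟩ := functional_indep_cls hTD hφ hF hprod hcls hN h hnc c hc0 hcd
    apply hne
    have hker : G (L (Pi.single (⟨l, hl⟩, ⟨j, hj⟩) 1)) = 0 := hGL ⟨_, rfl⟩
    -- expand the functional
    have hGsum : ∀ u : Fin n → k, G u = ∑ a, u a * c.coeff a := by
      intro u
      conv_lhs => rw [pi_eq_sum_univ u, map_sum]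
      refine Finset.sum_congr rfl fun a _ => ?_
      rw [map_smul, hccoeff, smul_eq_mul]
      congr 2
      funext b
      simp [Pi.single_apply, eq_comm]
    have hLa : ∀ a : Fin n, L (Pi.single (⟨l, hl⟩, ⟨j, hj⟩) 1) a =
        ∑ i, PowerSeries.coeff (N - 1) (φ i ^ (a : ℕ) * (PowerSeries.X ^ j * φ i ^ l)) * h i := by
      intro a
      change (Zmat N φ (Om n m _)).mulVec h a = _
      rw [Matrix.mulVec, dotProduct]
      refine Finset.sum_congr rfl fun i _ => ?_
      rw [FM2.gen_Zmat, Finset.sum_eq_single (⟨l, hl⟩, ⟨j, hj⟩)]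
      · simp
      · intro q _ hq
        rw [Pi.single_eq_of_ne hq, zero_mul]
      · simp
    rw [hGsum] at hker
    simp only [hLa] at hker
    have hcev : ∀ ψ : PowerSeries k, c.eval₂ PowerSeries.C ψ =
        ∑ a : Fin n, PowerSeries.C (c.coeff a) * ψ ^ (a : ℕ) := by
      intro ψ
      conv_lhs => rw [hc, Polynomial.eval₂_finsetSum]
      refine Finset.sum_congr rfl fun a _ => ?_
      rw [Polynomial.eval₂_monomial, hccoeff]
    rw [map_sum]
    simp only [hcev, PowerSeries.coeff_C_mul, Finset.sum_mul, map_sum, mul_assoc]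
    rw [← hker, Finset.sum_congr rfl (fun i _ => Finset.mul_sum _ _ _), Finset.sum_comm]
    refine Finset.sum_congr rfl fun a _ => ?_
    rw [Finset.sum_mul]
    refine Finset.sum_congr rfl fun i _ => ?_
    ring
  obtain ⟨ω, hω⟩ := exists_injective_of_pointwise_surj (FM2.genB N φ W)
    (by rw [Module.finrank_fintype_fun_eq_card, Fintype.card_fin]; omega) hsurj
  refine ⟨ω, ?_⟩
  have h1 := LinearMap.finrank_range_of_inj hω
  have h2 : LinearMap.range (FM2.genB N φ W ω) ≤
      LinearMap.range (Zmat N φ (Om n m ω)).mulVecLin := by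
    rintro _ ⟨w, rfl⟩
    exact ⟨_, rfl⟩
  have h3 := Submodule.finrank_mono h2
  rw [h1] at h3
  have h4 : (Zmat N φ (Om n m ω)).rank =
      Module.finrank k (LinearMap.range (Zmat N φ (Om n m ω)).mulVecLin) := rfl
  omega

theorem ker_cls (ω : Fin n × Fin (N - 3 * n) → k)
    (hω : n ≤ (Zmat N φ (Om n (N - 3 * n) ω)).rank + Fintype.card ι) (h : Fin n → k) :
    (Zmat N φ (Om n (N - 3 * n) ω)).mulVec h = 0 ↔ ∃ val : ι → k, ∀ i, h i = val (cls i) := by
  constructor
  · intro h0
    have h1 := LinearMap.finrank_range_add_finrank_ker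
      (Zmat N φ (Om n (N - 3 * n) ω)).mulVecLin
    rw [Module.finrank_fintype_fun_eq_card, Fintype.card_fin] at h1
    have h3 : (Zmat N φ (Om n (N - 3 * n) ω)).rank =
      Module.finrank k (LinearMap.range (Zmat N φ (Om n (N - 3 * n) ω)).mulVecLin) := rfl
    have h4 := finrank_cls hTD hn hφ hF hprod hcls hN
    have h5 := Submodule.eq_of_le_of_finrank_le (cls_le_ker hTD hn hφ hF hprod hcls hN ω)
      (by omega)
    have h6 : h ∈ LinearMap.ker (Zmat N φ (Om n (N - 3 * n) ω)).mulVecLin := by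
      rw [LinearMap.mem_ker, Matrix.mulVecLin_apply, h0]
    rw [← h5] at h6
    obtain ⟨val, hval⟩ := h6
    exact ⟨val, fun i => by rw [← hval]; rfl⟩
  · rintro ⟨val, hval⟩
    have : h = fun i => val (cls i) := funext hval
    rw [this]
    exact mulVec_cls hTD hn hφ hF hprod hcls hN ω val

end FM2

end Pool.Agent.AbsIrr
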