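import Mathlib
import Pool.Agent.Lib.MP_2adc98_lc.FDefs
import Pool.Agent.Lib.MP_2adc98_lc.FM0
import Pool.Agent.Lib.MP_2adc98_lc.FM2

/-!
# MP_2adc98_lc, stage 2, FM3: the kernel of the matrix computed by the program
-/

set_option autoImplicit false

namespace Pool.Agent.AbsIrr

open Finset Polynomial

namespace FM3Aux

section mat

variable {K : Type} [Field K] {k : Type} [Field k] [Algebra K k]

/-- the matrix identity in the proof of `bridge` -/
theorem hmat {p : ℕ} [CharP K p] [Fact p.Prime] {d N e M₁ b : ℕ} (hd : 1 ≤ d)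
    (hN : 5 * d ^ 2 < N) (hqN : N ≤ p ^ e * M₁) (hM₁ : 1 ≤ M₁) (hM₁p : M₁ ≤ p) (hM : M₁ ≤ 2 ^ b)
    {f : K[X][X]} {φ : Fin d → PowerSeries k}
    (hφ : IsRoots (f.map (mapRingHom (algebraMap K k))) φ) {g v : K[X]}
    (hg : g = (at0 f).map (iterateFrobenius K p e)) {β : Fin d → k}
    (hβd : ∀ i, β i = PowerSeries.constantCoeff (φ i) ^ p ^ e)
    (hgσ : g.map (algebraMap K k) = ∏ i, (X - C (β i)))
    (hv : ∃ u, v * derivative g + u * g = 1) (Ω : Fin d × Fin (N - 3 * d) → K) :
    (resMat p N e b d f v Ω).map (algebraMap K k) * (Matrix.vandermonde β).transpose =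
      Zmat N φ (Om d (N - 3 * d) fun q => algebraMap K k (Ω q)) *
        Matrix.diagonal (fun i => (derivative (g.map (algebraMap K k))).eval (β i)) := by
  classical
  set σ : K →+* k := algebraMap K k with hσ
  have : CharP k p := charP_of_injective_algebraMap σ.injective p
  have : ExpChar k p := ExpChar.prime Fact.out
  have hβ : Function.Injective β := by
    intro i j hij
    apply hφ.inj
    have := iterateFrobenius_inj k p e
    apply this
    simpa [iterateFrobenius_def, hβd] using hij
  have hvσ : ∃ u, v.map σ * derivative (g.map σ) + u * g.map σ = 1 := by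
    obtain ⟨u, hu⟩ := hv
    refine ⟨u.map σ, ?_⟩
    rw [derivative_map, ← Polynomial.map_mul, ← Polynomial.map_mul, ← Polynomial.map_add, hu,
      Polynomial.map_one]
  have hgmon : (g.map σ).Monic := by
    rw [hgσ]; exact monic_prod_of_monic _ _ fun i _ => monic_X_sub_C _
  have hgmonK : g.Monic := by
    rw [Monic, ← σ.injective.eq_iff, ← leadingCoeff_map_of_injective σ.injective, map_one]
    exact hgmon
  have hgdeg : (g.map σ).natDegree = d := by
    rw [hgσ, natDegree_prod_of_monic _ _ fun i _ => monic_X_sub_C _]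
    simp
  have hgdegK : g.natDegree = d := by
    rw [← hgmonK.natDegree_map σ, hgdeg]
  have hΩσ : (Om d (N - 3 * d) fun q => σ (Ω q)).natDegree < d := Om_natDegree_lt (by omega) _
  have hN1 : 1 ≤ N := by omega
  have ht : ∀ a : Fin d, Digits d (2 ^ b) g (sec N d (p ^ e) f (Om d (N - 3 * d) Ω) a)
      (dig p N e b d f Ω a) := fun a => by
    rw [dig, ← hg]
    exact split_digits hd hgmonK hgdegK b _
  have key : ∀ a i : Fin d, (herm (g.map σ) (v.map σ)
      (fun l => (dig p N e b d f Ω a l).map σ) (2 ^ b) (2 ^ b - 1)).eval (β i)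
      = (derivative (g.map σ)).eval (β i) *
        Zmat N φ (Om d (N - 3 * d) fun q => σ (Ω q)) a i := by
    intro a i
    obtain ⟨c, hc0, hc⟩ := sections hN1 (Ω := Om d (N - 3 * d) fun q => σ (Ω q)) φ hqN a
    rw [← hc0 i]
    refine herm_correct (M₁ := M₁) (p := p) hd hM₁ hM₁p hM hβ hgσ hvσ c
      (fun l => σ (sec N d (p ^ e) f (Om d (N - 3 * d) Ω) a l)) ?_ _
      (BridgeAux.digits_map σ (ht a)) i
    intro l
    rw [sec, W_map, MathMainAux.Om_map, W_eq N hφ hΩσ]
    simpa only [hβd] using hc l
  have hdeg : ∀ a : Fin d, (herm (g.map σ) (v.map σ)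
      (fun l => (dig p N e b d f Ω a l).map σ) (2 ^ b) (2 ^ b - 1)).degree < d := by
    intro a
    have := herm_degree (v := v.map σ) hgmon (t := fun l => (dig p N e b d f Ω a l).map σ)
      (M := 2 ^ b)
      (fun l hl => by rw [hgdeg]; exact lt_of_le_of_lt degree_map_le ((ht a).1 l hl))
      (hM₁.trans hM) (2 ^ b - 1) le_rfl
    rwa [hgdeg] at this
  ext a i
  rw [Matrix.mul_diagonal, mul_comm, ← key a i, Matrix.mul_apply]
  have hnd : (herm (g.map σ) (v.map σ) (fun l => (dig p N e b d f Ω a l).map σ) (2 ^ b)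
      (2 ^ b - 1)).natDegree < d := by
    by_cases h0 : herm (g.map σ) (v.map σ) (fun l => (dig p N e b d f Ω a l).map σ) (2 ^ b)
      (2 ^ b - 1) = 0
    · rw [h0, natDegree_zero]; omega
    · exact (natDegree_lt_iff_degree_lt h0).2 (hdeg a)
  rw [eval_eq_sum_range' hnd, ← Fin.sum_univ_eq_sum_range
    (fun j => (herm (g.map σ) (v.map σ) (fun l => (dig p N e b d f Ω a l).map σ) (2 ^ b)
      (2 ^ b - 1)).coeff j * β i ^ j) d]
  refine Finset.sum_congr rfl fun j _ => ?_
  rw [Matrix.map_apply, Matrix.transpose_apply, Matrix.vandermonde_apply, resMat, Matrix.of_apply,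
    ← hg, ← herm_map σ g v hgmonK, coeff_map]

end mat

section hker

theorem hker_map {K : Type} [Field K] {k : Type} [Field k] (σ : K →+* k) (n : ℕ) (g : K[X])
    (w : ℕ → K) : (hker n g w).map σ = hker n (g.map σ) (fun i => σ (w i)) := by
  ext i
  simp only [hker, coeff_map, coeff_reflect, PowerSeries.coeff_trunc]
  split_ifs
  · rw [PowerSeries.coeff_mul, PowerSeries.coeff_mul, map_sum]
    refine Finset.sum_congr rfl fun x _ => ?_
    rw [map_mul, PowerSeries.coeff_mk, PowerSeries.coeff_mk, Polynomial.coeff_coe,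
      Polynomial.coeff_coe, coeff_reflect, coeff_reflect, coeff_map]
  · rw [map_zero]

variable {k : Type} [Field k] {n : ℕ}

private theorem hker_congr {g : k[X]} {w w' : ℕ → k} (h : ∀ i < n, w i = w' i) :
    hker n g w = hker n g w' := by
  have h1 : PowerSeries.trunc n (PowerSeries.mk w * ((reflect n g : k[X]) : PowerSeries k)) =
      PowerSeries.trunc n (PowerSeries.mk w' * ((reflect n g : k[X]) : PowerSeries k)) := by
    ext m
    rw [PowerSeries.coeff_trunc, PowerSeries.coeff_trunc]
    split_ifs with hm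
    · rw [PowerSeries.coeff_mul, PowerSeries.coeff_mul]
      refine Finset.sum_congr rfl fun x hx => ?_
      have := Finset.HasAntidiagonal.mem_antidiagonal.mp hx
      rw [PowerSeries.coeff_mk, PowerSeries.coeff_mk, h x.1 (by omega)]
    · rfl
  rw [hker, hker, h1]

/-- the cofactor -/
private noncomputable def cof (β : Fin n → k) (i : Fin n) : k[X] :=
  ∏ i' ∈ Finset.univ.erase i, (X - C (β i'))

private theorem cof_natDegree (β : Fin n → k) (i : Fin n) : (cof β i).natDegree = n - 1 := by
  rw [cof, natDegree_finsetProd_X_sub_C_eq_card, Finset.card_erase_of_mem (Finset.mem_univ i),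
    Finset.card_univ, Fintype.card_fin]

private theorem prod_cof (β : Fin n → k) (i : Fin n) :
    ∏ i, (X - C (β i)) = (X - C (β i)) * cof β i :=
  (Finset.mul_prod_erase _ (fun i => X - C (β i)) (Finset.mem_univ i)).symm

private theorem geo (b : k) (P : k[X]) (hP : P.natDegree ≤ n - 1) (hn : 1 ≤ n) :
    PowerSeries.mk (fun j => b ^ j) *
      ((reflect n ((X - C b) * P) : k[X]) : PowerSeries k) =
      ((reflect (n - 1) P : k[X]) : PowerSeries k) := by
  have h1 : reflect n ((X - C b) * P) = (1 - C b * X) * reflect (n - 1) P := by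
    have h2 := reflect_mul (X - C b) P (F := 1) (G := n - 1) (natDegree_X_sub_C _).le hP
    rw [show 1 + (n - 1) = n by omega] at h2
    rw [h2, reflect_sub, reflect_one_X, reflect_C, pow_one]
  rw [h1, Polynomial.coe_mul, ← mul_assoc]
  have h3 : PowerSeries.mk (fun j => b ^ j) * ((1 - C b * X : k[X]) : PowerSeries k) = 1 := by
    rw [Polynomial.coe_sub, Polynomial.coe_mul, Polynomial.coe_one, Polynomial.coe_C,
      Polynomial.coe_X]
    ext m
    rw [mul_sub, mul_one, map_sub, mul_left_comm, PowerSeries.coeff_C_mul]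
    cases m with
    | zero => simp
    | succ m =>
      rw [PowerSeries.coeff_succ_mul_X, PowerSeries.coeff_mk, PowerSeries.coeff_mk,
        PowerSeries.coeff_one, if_neg (Nat.succ_ne_zero m), pow_succ]
      ring
  rw [h3, one_mul]

theorem hker_eval (hn : 1 ≤ n) (β c : Fin n → k) (w : ℕ → k)
    (hw : ∀ j < n, w j = ∑ i, c i * β i ^ j) (i : Fin n) :
    (hker n (∏ i, (X - C (β i))) w).eval (β i) =
      c i * (derivative (∏ i, (X - C (β i)) : k[X])).eval (β i) := by
  have h1 : hker n (∏ i, (X - C (β i))) w = ∑ i, C (c i) * cof β i := by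
    rw [hker_congr (w' := fun j => ∑ i, c i * β i ^ j) hw]
    have h2 : PowerSeries.mk (fun j => ∑ i, c i * β i ^ j) *
        ((reflect n (∏ i, (X - C (β i))) : k[X]) : PowerSeries k) =
        ((∑ i, C (c i) * reflect (n - 1) (cof β i) : k[X]) : PowerSeries k) := by
      have h3 : PowerSeries.mk (fun j => ∑ i, c i * β i ^ j) =
          ∑ i, PowerSeries.C (c i) * PowerSeries.mk (fun j => β i ^ j) := by
        ext m
        rw [PowerSeries.coeff_mk, map_sum]
        refine Finset.sum_congr rfl fun i _ => ?_
        rw [PowerSeries.coeff_C_mul, PowerSeries.coeff_mk]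
      rw [h3, Finset.sum_mul]
      have h4 : ((∑ i, C (c i) * reflect (n - 1) (cof β i) : k[X]) : PowerSeries k) =
          ∑ i, PowerSeries.C (c i) * ((reflect (n - 1) (cof β i) : k[X]) : PowerSeries k) := by
        rw [← Polynomial.coeToPowerSeries.ringHom_apply, map_sum]
        refine Finset.sum_congr rfl fun i _ => ?_
        rw [map_mul, Polynomial.coeToPowerSeries.ringHom_apply,
          Polynomial.coeToPowerSeries.ringHom_apply, Polynomial.coe_C]
      rw [h4]
      refine Finset.sum_congr rfl fun i _ => ?_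
      rw [mul_assoc]
      congr 1
      rw [prod_cof β i]
      exact geo (β i) _ (cof_natDegree β i).le hn
    rw [hker, h2]
    have h5 : PowerSeries.trunc n ((∑ i, C (c i) * reflect (n - 1) (cof β i) : k[X]) :
        PowerSeries k) = ∑ i, C (c i) * reflect (n - 1) (cof β i) := by
      ext m
      rw [PowerSeries.coeff_trunc]
      split_ifs with hm
      · rw [Polynomial.coeff_coe]
      · symm
        rw [Polynomial.finsetSum_coeff]
        refine Finset.sum_eq_zero fun i _ => ?_
        rw [coeff_C_mul, coeff_reflect, revAt_eq_self_of_lt (by omega),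
          coeff_eq_zero_of_natDegree_lt (by rw [cof_natDegree]; omega), mul_zero]
    rw [h5]
    ext m
    simp only [coeff_reflect, Polynomial.finsetSum_coeff, coeff_C_mul, revAt_invol]
  rw [h1, Polynomial.eval_finsetSum, Finset.sum_eq_single i]
  · rw [eval_mul, eval_C, prod_cof β i, derivative_mul, derivative_sub, derivative_X,
      derivative_C, sub_zero, one_mul, eval_add, eval_mul, eval_sub, eval_X, eval_C, sub_self,
      zero_mul, add_zero]
  · intro j _ hj
    rw [eval_mul, cof, eval_prod, Finset.prod_eq_zero (i := i), mul_zero]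
    · exact Finset.mem_erase.2 ⟨hj.symm, Finset.mem_univ _⟩
    · rw [eval_sub, eval_X, eval_C, sub_self]
  · intro h
    exact absurd (Finset.mem_univ i) h

end hker

section lin

/-- the kernel after a field extension -/
theorem ker_ext {K k : Type} [Field K] [Field k] (σ : K →+* k) {n : ℕ}
    {T P : Matrix (Fin n) (Fin n) K} (h1 : T * P = 0)
    (h2 : ∀ w : Fin n → K, T.mulVec w = 0 → ∃ s, w = P.mulVec s) (w : Fin n → k)
    (hw : (T.map σ).mulVec w = 0) : ∃ s, w = (P.map σ).mulVec s := by
  classical
  have hrT : T.rank + P.rank = n := by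
    have h3 : LinearMap.range P.mulVecLin = LinearMap.ker T.mulVecLin := by
      ext x
      constructor
      · rintro ⟨y, rfl⟩
        rw [LinearMap.mem_ker, Matrix.mulVecLin_apply, Matrix.mulVecLin_apply,
          Matrix.mulVec_mulVec, h1, Matrix.zero_mulVec]
      · intro hx
        obtain ⟨s, hs⟩ := h2 x hx
        exact ⟨s, hs.symm⟩
    have h4 := LinearMap.finrank_range_add_finrank_ker T.mulVecLin
    rw [← h3, Module.finrank_fintype_fun_eq_card, Fintype.card_fin] at h4
    exact h4
  have hrTk : (T.map σ).rank + (P.map σ).rank = n := by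
    rw [rank_map_field, rank_map_field, hrT]
  have hle : LinearMap.range (P.map σ).mulVecLin ≤ LinearMap.ker (T.map σ).mulVecLin := by
    rintro _ ⟨y, rfl⟩
    have h5 : T.map σ * P.map σ = 0 := by
      rw [← Matrix.map_mul, h1]
      ext i j
      simp
    rw [LinearMap.mem_ker, Matrix.mulVecLin_apply, Matrix.mulVecLin_apply,
      Matrix.mulVec_mulVec, h5, Matrix.zero_mulVec]
  have hfin : Module.finrank k (LinearMap.range (P.map σ).mulVecLin) =
      Module.finrank k (LinearMap.ker (T.map σ).mulVecLin) := by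
    have h4 := LinearMap.finrank_range_add_finrank_ker (T.map σ).mulVecLin
    rw [Module.finrank_fintype_fun_eq_card, Fintype.card_fin] at h4
    have h6 : (T.map σ).rank = Module.finrank k (LinearMap.range (T.map σ).mulVecLin) := rfl
    have h7 : (P.map σ).rank = Module.finrank k (LinearMap.range (P.map σ).mulVecLin) := rfl
    omega
  have heq := Submodule.eq_of_le_of_finrank_eq hle hfin
  have hmem : w ∈ LinearMap.ker (T.map σ).mulVecLin := hw
  rw [← heq] at hmem
  obtain ⟨s, hs⟩ := hmem
  exact ⟨s, hs.symm⟩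

open Classical in
/-- zeros of a linear form -/
theorem count_lin {K k : Type} [Field K] [Field k] [Algebra K k] {n : ℕ} (a : Fin n → k)
    (ha : a ≠ 0) (S : Finset K) :
    ((Fintype.piFinset fun _ : Fin n => S).filter fun s =>
      ∑ j, a j * algebraMap K k (s j) = 0).card * S.card ≤ S.card ^ n := by
  have h := card_zeros_mul_le (K := K) (k := k) (ι := Fin n)
    (∑ j, MvPolynomial.C (a j) * MvPolynomial.X j) ?_ S (D := 1) ?_
    (fun s => ∑ j, a j * algebraMap K k (s j) = 0) ?_
  · rwa [one_mul, Fintype.card_fin] at h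
  · intro h0
    apply ha
    funext j
    have h1 := congrArg (MvPolynomial.eval (Pi.single j (1 : k))) h0
    rw [map_sum, map_zero, Finset.sum_eq_single j] at h1
    · simpa using h1
    · intro i _ hi
      simp [hi]
    · intro h2
      exact absurd (Finset.mem_univ j) h2
  · refine MvPolynomial.totalDegree_finsetSum_le fun j _ => ?_
    refine (MvPolynomial.totalDegree_mul _ _).trans ?_
    rw [MvPolynomial.totalDegree_C, zero_add, MvPolynomial.totalDegree_X]
  · intro s hs
    rw [map_sum]
    simpa using hs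

end lin

section cls

variable {k : Type} [Field k] {n : ℕ} {f : k[X][X]} {φ : Fin n → PowerSeries k} {ι : Type}
    {F : ι → k[X][X]} {cls : Fin n → ι}

open Classical in
theorem cls_at0 (hcls : ∀ c, (F c).map Polynomial.coeToPowerSeries.ringHom =
      ∏ i with cls i = c, (X - C (φ i))) (c : ι) :
    at0 (F c) = ∏ i with cls i = c, (X - C (PowerSeries.constantCoeff (φ i))) := by
  have h1 : at0 (F c) = ((F c).map Polynomial.coeToPowerSeries.ringHom).map
      (PowerSeries.constantCoeff (R := k)) := by
    rw [Polynomial.map_map, constantCoeff_comp_coe, at0]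
  rw [h1, hcls c, Polynomial.map_prod]
  refine Finset.prod_congr rfl fun i _ => ?_
  rw [Polynomial.map_sub, map_X, map_C]

open Classical in
theorem cls_surj (hF : ∀ c, (F c).Monic ∧ Irreducible (F c))
    (hcls : ∀ c, (F c).map Polynomial.coeToPowerSeries.ringHom =
      ∏ i with cls i = c, (X - C (φ i))) (c : ι) : ∃ i, cls i = c := by
  by_contra h
  push Not at h
  have h1 : (Finset.univ.filter fun i => cls i = c) = ∅ := by
    rw [Finset.filter_eq_empty_iff]
    intro i _
    exact h i
  have h2 := hcls c
  rw [h1, Finset.prod_empty] at h2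
  have h3 : (F c).natDegree = 0 := by
    rw [← (hF c).1.natDegree_map Polynomial.coeToPowerSeries.ringHom, h2, natDegree_one]
  have h4 : F c = 1 := by
    have h5 := (hF c).1
    rw [Polynomial.eq_C_of_natDegree_eq_zero h3] at h5 ⊢
    rw [Monic, leadingCoeff_C] at h5
    rw [h5, C_1]
  exact (hF c).2.not_isUnit (h4 ▸ isUnit_one)

end cls

end FM3Aux

open FM3Aux

open Classical in
theorem kernel_main {K : Type} [Field K] {k : Type} [Field k] [IsAlgClosed k] [Algebra K k]
    {p : ℕ} [CharP K p] [Fact p.Prime] {n N e M₁ b : ℕ} (hn : 1 ≤ n) (hN : 5 * n ^ 2 < N)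
    (hqN : N ≤ p ^ e * M₁) (hM₁ : 1 ≤ M₁) (hM₁p : M₁ ≤ p) (hM : M₁ ≤ 2 ^ b) {f : K[X][X]}
    (hf : f.Monic) (hfd : f.natDegree = n) (hTD : TD n f) (hsep : (at0 f).Separable) {v : K[X]}
    (hv : ∃ u, v * derivative ((at0 f).map (iterateFrobenius K p e)) +
      u * (at0 f).map (iterateFrobenius K p e) = 1)
    {ι : Type} [Fintype ι] {F : ι → k[X][X]} (hF : ∀ c, (F c).Monic ∧ Irreducible (F c))
    (hprod : f.map (mapRingHom (algebraMap K k)) = ∏ c, F c) :
    ∃ R : (Fin n × Fin (N - 3 * n) → K) → Prop,
      (∀ S : Finset K, ((Fintype.piFinset fun _ : Fin n × Fin (N - 3 * n) => S).filter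
        fun Ω => ¬ R Ω).card * S.card ≤ n * S.card ^ (n * (N - 3 * n))) ∧
      ∀ Ω, R Ω → ∀ P : Matrix (Fin n) (Fin n) K, resMat p N e b n f v Ω * P = 0 →
        (∀ w : Fin n → K, (resMat p N e b n f v Ω).mulVec w = 0 → ∃ s, w = P.mulVec s) →
        ∀ S : Finset K, ((Fintype.piFinset fun _ : Fin n => S).filter fun s =>
          ¬ ∃ val : ι → k, Function.Injective val ∧ ∀ c α, (at0 (F c)).IsRoot α →
            ((hker n ((at0 f).map (iterateFrobenius K p e))
              (fun i => if h : i < n then P.mulVec s ⟨i, h⟩ else 0)).map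
                (algebraMap K k)).eval (α ^ p ^ e) = val c).card * S.card ≤
          Fintype.card ι ^ 2 * S.card ^ n := by
  have hchar : CharP k p := charP_of_injective_algebraMap (algebraMap K k).injective p
  have hexp : ExpChar k p := ExpChar.prime Fact.out
  have hexpK : ExpChar K p := ExpChar.prime Fact.out
  have hinf : Infinite k := IsAlgClosed.instInfinite
  obtain ⟨φ, hφ⟩ : ∃ φ : Fin n → PowerSeries k, IsRoots (f.map (mapRingHom (algebraMap K k))) φ := by
    refine MathMainAux.exists_roots_cast (hf.map _) ?_ ?_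
    · rw [MathMainAux.at0_map]; exact hsep.map
    · rw [hf.natDegree_map]; exact hfd
  obtain ⟨cls, hcls⟩ := exists_cls hφ (fun c => (hF c).1) hprod
  have hTDk : TD n (f.map (mapRingHom (algebraMap K k))) := MathMainAux.TD_map _ hTD
  obtain ⟨R, hR⟩ : ∃ R : (Fin n × Fin (N - 3 * n) → K) → Prop, ∀ Ω, R Ω ↔
      n ≤ (Zmat N φ (Om n (N - 3 * n) fun q => algebraMap K k (Ω q))).rank +
        Fintype.card ι := ⟨_, fun Ω => Iff.rfl⟩
  refine ⟨R, fun S => ?_, fun Ω hΩ' P hP1 hP2 S => ?_⟩
  · obtain ⟨ω0, hω0⟩ := rank_cls_generic hTDk hn hφ hF hprod hcls hN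
    have h1 := card_rank_lt_mul_le (K := K) (MathMainAux.Zlin N (N - 3 * n) φ)
      (n - Fintype.card ι)
      ⟨ω0, by
        change n - Fintype.card ι ≤ (Zmat N φ (Om n (N - 3 * n) ω0)).rank
        omega⟩ S
    rw [Fintype.card_prod, Fintype.card_fin, Fintype.card_fin] at h1
    refine le_trans (le_trans (Nat.mul_le_mul_right _ (Finset.card_le_card ?_)) h1) ?_
    · intro ω hω
      have hω' := Finset.mem_filter.1 hω
      refine Finset.mem_filter.2 ⟨hω'.1, ?_⟩
      change (Zmat N φ (Om n (N - 3 * n) fun i => (algebraMap K k) (ω i))).rank <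
        n - Fintype.card ι
      have h2 := hω'.2
      rw [hR] at h2
      omega
    · exact Nat.mul_le_mul_right _ (Nat.sub_le _ _)
  · have hΩ := (hR Ω).1 hΩ'
    -- the roots
    set σ : K →+* k := algebraMap K k with hσ
    set g : K[X] := (at0 f).map (iterateFrobenius K p e) with hg
    set β : Fin n → k := fun i => PowerSeries.constantCoeff (φ i) ^ p ^ e with hβd
    have hβ : Function.Injective β := by
      intro i j hij
      apply hφ.inj
      have := iterateFrobenius_inj k p e
      apply this
      simpa [iterateFrobenius_def, hβd] using hij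
    have hgσ : g.map σ = ∏ i, (X - C (β i)) := by
      have h1 : (at0 f).map σ = ∏ i, (X - C (PowerSeries.constantCoeff (φ i))) := by
        rw [← MathMainAux.at0_map, ← hφ.at0_eq]
      have h2 : g.map σ = ((at0 f).map σ).map (iterateFrobenius k p e) := by
        rw [hg, Polynomial.map_map, Polynomial.map_map]
        congr 1
        ext x
        simp [iterateFrobenius_def]
      rw [h2, h1, Polynomial.map_prod]
      refine Finset.prod_congr rfl fun i _ => ?_
      rw [Polynomial.map_sub, map_X, map_C, iterateFrobenius_def]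
    set T : Matrix (Fin n) (Fin n) K := resMat p N e b n f v Ω with hT
    set Z : Matrix (Fin n) (Fin n) k :=
      Zmat N φ (Om n (N - 3 * n) fun q => algebraMap K k (Ω q)) with hZ
    set D : Matrix (Fin n) (Fin n) k :=
      Matrix.diagonal (fun i => (derivative (g.map σ)).eval (β i)) with hD
    set Vt : Matrix (Fin n) (Fin n) k := (Matrix.vandermonde β).transpose with hVt
    have hmt : T.map σ * Vt = Z * D :=
      hmat hn hN hqN hM₁ hM₁p hM hφ hg (fun i => rfl) hgσ hv Ω
    have hdet1 : IsUnit Vt.det := by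
      rw [hVt, Matrix.det_transpose, isUnit_iff_ne_zero, Matrix.det_vandermonde_ne_zero_iff]
      exact hβ
    have hdet2 : IsUnit D.det := by
      rw [hD, Matrix.det_diagonal, isUnit_iff_ne_zero, Finset.prod_ne_zero_iff]
      intro i _ h0
      obtain ⟨u, hu⟩ := hv
      have h1 := congrArg (fun q : K[X] => (q.map σ).eval (β i)) hu
      simp only [Polynomial.map_add, Polynomial.map_mul, Polynomial.map_one] at h1
      rw [eval_add, eval_mul, eval_mul, ← derivative_map, h0, mul_zero, zero_add, eval_one, hgσ,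
        eval_prod, Finset.prod_eq_zero (Finset.mem_univ i) (by simp), mul_zero] at h1
      exact zero_ne_one h1
    set Q : Matrix (Fin n) (Fin n) k := D * Vt⁻¹ with hQ
    have hQdet : IsUnit Q.det := by
      rw [hQ, Matrix.det_mul]
      exact hdet2.mul (Matrix.isUnit_nonsing_inv_det _ hdet1)
    have hTQ : T.map σ = Z * Q := by
      rw [hQ, ← Matrix.mul_assoc, ← hmt, Matrix.mul_assoc, Matrix.mul_nonsing_inv _ hdet1,
        Matrix.mul_one]
    -- evaluation of the kernel polynomial
    have hev : ∀ (w : ℕ → k) (i : Fin n),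
        (hker n (g.map σ) w).eval (β i) = Q.mulVec (fun j => w j) i := by
      intro w i
      set c : Fin n → k := Vt⁻¹.mulVec (fun j : Fin n => w j) with hc
      have h1 : Vt.mulVec c = fun j : Fin n => w j := by
        rw [hc, Matrix.mulVec_mulVec, Matrix.mul_nonsing_inv _ hdet1, Matrix.one_mulVec]
      have h2 : ∀ j < n, w j = ∑ i, c i * β i ^ j := by
        intro j hj
        have h3 := congrFun h1 ⟨j, hj⟩
        simp only at h3
        rw [← h3, Matrix.mulVec, dotProduct]
        refine Finset.sum_congr rfl fun i _ => ?_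
        rw [hVt, Matrix.transpose_apply, Matrix.vandermonde_apply, mul_comm]
      have h3 := hker_eval hn β c w h2 i
      rw [← hgσ] at h3
      rw [h3, hQ, ← Matrix.mulVec_mulVec, ← hc, hD, Matrix.mulVec_diagonal, mul_comm]
    -- the matrix of the values
    set U : Matrix (Fin n) (Fin n) k := Q * P.map σ with hU
    have hval : ∀ s : Fin n → k, ∃ val : ι → k, ∀ i, U.mulVec s i = val (cls i) := by
      intro s
      refine (ker_cls hTDk hn hφ hF hprod hcls hN _ hΩ (U.mulVec s)).1 ?_
      rw [← hZ, hU, Matrix.mulVec_mulVec, ← Matrix.mul_assoc, ← hTQ, ← Matrix.map_mul, hP1]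
      have : (0 : Matrix (Fin n) (Fin n) K).map σ = 0 := by
        ext i j
        simp
      rw [this, Matrix.zero_mulVec]
    have hsur : ∀ val : ι → k, ∃ s, U.mulVec s = fun i => val (cls i) := by
      intro val
      set h : Fin n → k := fun i => val (cls i) with hh
      have h1 : Z.mulVec h = 0 :=
        (ker_cls hTDk hn hφ hF hprod hcls hN _ hΩ h).2 ⟨val, fun i => rfl⟩
      have h2 : (T.map σ).mulVec (Q⁻¹.mulVec h) = 0 := by
        rw [hTQ, Matrix.mulVec_mulVec, Matrix.mul_assoc, Matrix.mul_nonsing_inv _ hQdet,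
          Matrix.mul_one, h1]
      obtain ⟨s, hs⟩ := ker_ext σ hP1 hP2 _ h2
      refine ⟨s, ?_⟩
      rw [hU, ← Matrix.mulVec_mulVec, ← hs, Matrix.mulVec_mulVec, Matrix.mul_nonsing_inv _ hQdet,
        Matrix.one_mulVec]
    choose rep hrep using cls_surj hF hcls
    -- the values for `s`
    have hvals : ∀ (s : Fin n → K) (i : Fin n),
        ((hker n g (fun i => if h : i < n then P.mulVec s ⟨i, h⟩ else 0)).map σ).eval (β i) =
          U.mulVec (fun j => σ (s j)) i := by
      intro s i
      have h1 : (fun j : Fin n => σ (if h : (j : ℕ) < n then P.mulVec s ⟨j, h⟩ else 0)) =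
          (P.map σ).mulVec (fun j => σ (s j)) := by
        funext j
        rw [dif_pos j.2]
        simp only [Matrix.mulVec, dotProduct, Matrix.map_apply, map_sum, map_mul, Fin.eta]
      rw [hker_map, hev, h1, hU, Matrix.mulVec_mulVec]
    -- the forms
    have hcount : ∀ cc : ι × ι, cc.1 ≠ cc.2 →
        ((Fintype.piFinset fun _ : Fin n => S).filter fun s =>
          ∑ j, (U (rep cc.1) j - U (rep cc.2) j) * algebraMap K k (s j) = 0).card * S.card ≤
            S.card ^ n := by
      intro cc hcc
      refine count_lin _ ?_ S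
      intro h0
      obtain ⟨s, hs⟩ := hsur (fun c => if c = cc.1 then 1 else 0)
      have h1 := congrFun hs (rep cc.1)
      have h2 := congrFun hs (rep cc.2)
      simp only [hrep, if_true, if_neg hcc.symm] at h1 h2
      have h3 : U.mulVec s (rep cc.1) - U.mulVec s (rep cc.2) = 0 := by
        simp only [Matrix.mulVec, dotProduct]
        rw [← Finset.sum_sub_distrib]
        refine Finset.sum_eq_zero fun j _ => ?_
        have h4 := congrFun h0 j
        simp only [Pi.zero_apply] at h4
        rw [← sub_mul, h4, zero_mul]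
      rw [h1, h2] at h3
      simp at h3
    -- the union
    have hsub : ((Fintype.piFinset fun _ : Fin n => S).filter fun s =>
          ¬ ∃ val : ι → k, Function.Injective val ∧ ∀ c α, (at0 (F c)).IsRoot α →
            ((hker n g (fun i => if h : i < n then P.mulVec s ⟨i, h⟩ else 0)).map
                σ).eval (α ^ p ^ e) = val c) ⊆
        (Finset.univ.filter fun cc : ι × ι => cc.1 ≠ cc.2).biUnion fun cc =>
          ((Fintype.piFinset fun _ : Fin n => S).filter fun s =>
            ∑ j, (U (rep cc.1) j - U (rep cc.2) j) * algebraMap K k (s j) = 0) := by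
      intro s hs
      rw [Finset.mem_filter] at hs
      rw [Finset.mem_biUnion]
      by_contra hno
      push Not at hno
      apply hs.2
      obtain ⟨val, hv1⟩ := hval (fun j => σ (s j))
      refine ⟨val, ?_, ?_⟩
      · intro c c' hcc
        by_contra hne
        refine hno (c, c') (Finset.mem_filter.2 ⟨Finset.mem_univ _, hne⟩) ?_
        rw [Finset.mem_filter]
        refine ⟨hs.1, ?_⟩
        have h1 := hv1 (rep c)
        have h2 := hv1 (rep c')
        rw [hrep] at h1 h2
        simp only [Matrix.mulVec, dotProduct] at h1 h2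
        simp only [sub_mul, Finset.sum_sub_distrib]
        rw [h1, h2, hcc, sub_self]
      · intro c α hα
        rw [cls_at0 hcls c, IsRoot.def, eval_prod, Finset.prod_eq_zero_iff] at hα
        obtain ⟨i, hi, hi0⟩ := hα
        rw [eval_sub, eval_X, eval_C, sub_eq_zero] at hi0
        have hi1 : cls i = c := (Finset.mem_filter.1 hi).2
        have h1 := hvals s i
        rw [hv1 i, hi1] at h1
        rw [hi0]
        exact h1
    calc _ ≤ (∑ cc ∈ (Finset.univ.filter fun cc : ι × ι => cc.1 ≠ cc.2),
          ((Fintype.piFinset fun _ : Fin n => S).filter fun s =>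
            ∑ j, (U (rep cc.1) j - U (rep cc.2) j) * algebraMap K k (s j) = 0).card) * S.card :=
          Nat.mul_le_mul_right _ ((Finset.card_le_card hsub).trans Finset.card_biUnion_le)
      _ = ∑ cc ∈ (Finset.univ.filter fun cc : ι × ι => cc.1 ≠ cc.2),
          ((Fintype.piFinset fun _ : Fin n => S).filter fun s =>
            ∑ j, (U (rep cc.1) j - U (rep cc.2) j) * algebraMap K k (s j) = 0).card * S.card :=
          Finset.sum_mul _ _ _
      _ ≤ ∑ cc ∈ (Finset.univ.filter fun cc : ι × ι => cc.1 ≠ cc.2), S.card ^ n :=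
          Finset.sum_le_sum fun cc hcc => hcount cc (Finset.mem_filter.1 hcc).2
      _ ≤ ∑ cc : ι × ι, S.card ^ n :=
          Finset.sum_le_sum_of_subset (Finset.filter_subset _ _)
      _ = Fintype.card ι ^ 2 * S.card ^ n := by
          rw [Finset.sum_const, Finset.card_univ, Fintype.card_prod, smul_eq_mul, sq]

end Pool.Agent.AbsIrr
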