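import Mathlib
import Pool.Agent.Lib.MP_2adc98_lc.FDefs
import Pool.Agent.Lib.MP_2adc98_lc.FK
import Pool.Agent.Lib.MP_2adc98_lc.FME
import Pool.Agent.Lib.MP_2adc98_lc.FC
import Pool.Agent.Lib.MP_2adc98_lc.FM3

/-!
# MP_2adc98_lc: a random element of the kernel as a polynomial
-/

set_option autoImplicit false

namespace Pool.Agent.AbsIrr

open Finset Polynomial

/-! ### the array-level functions -/

/-- `(n, (P, s)) ↦ P s` (matrix times vector) -/
def khMul : Fam (.prod .nat (.prod .arr .arr)) .arr := fun _ _ y =>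
  tabF y.1 (fun i => ∑ j ∈ range y.1, y.2.1 (i * y.1 + j) * y.2.2 j)

theorem khMul_rlz : RlzQ khMul (fun _ _ y => y.1 ^ 2) := by
  unfold khMul
  apply RlzQ.mono
  case h =>
    apply_rules (maxDepth := 1000) [RlzQ.tab, RlzQ.sum, RlzQ.add, RlzQ.mul, RlzQ.fmul, RlzQ.get,
      RlzQ.fst, RlzQ.snd, RlzQ.input, RlzQ.lit]
  case A => exact 10
  case hc =>
    intro K _ x
    simp only [Finset.sum_const_zero, add_zero, zero_add, Finset.sum_const, Finset.card_range,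
      smul_eq_mul]
    nlinarith

/-- `(n, c) ↦` reversal of the first `n` entries -/
def khRev : Fam (.prod .nat .arr) .arr := fun _ _ y => tabF y.1 (fun i => y.2 (y.1 - 1 - i))

theorem khRev_rlz : RlzQ khRev (fun _ _ y => y.1) := by
  unfold khRev
  apply RlzQ.mono
  case h =>
    apply_rules (maxDepth := 1000) [RlzQ.tab, RlzQ.add, RlzQ.sub, RlzQ.get, RlzQ.fst, RlzQ.snd,
      RlzQ.input, RlzQ.lit]
  case A => exact 10
  case hc =>
    intro K _ x
    simp only [Finset.sum_const_zero, add_zero, zero_add]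
    nlinarith

/-- `(n, (q, (h, w))) ↦` the coefficients of `hker` -/
noncomputable def khH : Fam (.prod .nat (.prod .nat (.prod .arr .arr))) .arr := fun K _ y =>
  khRev K (y.1, conv y.1 y.2.2.2
    (gRev K (y.1, powT (y.1 + 1) y.2.1 (gAt0 K (y.1, y.2.2.1)))))

theorem khH_rlz : RlzQ khH (fun _ _ y => y.1 + y.2.1) := by
  have hn : RlzQ (a := .prod .nat (.prod .nat (.prod .arr .arr))) (b := .nat)
      (fun _ _ y => y.1) (fun _ _ _ => 0) := RlzQ.fst RlzQ.input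
  have hq : RlzQ (a := .prod .nat (.prod .nat (.prod .arr .arr))) (b := .nat)
      (fun _ _ y => y.2.1) (fun _ _ _ => 0) := RlzQ.fst (RlzQ.snd RlzQ.input)
  have hh : RlzQ (a := .prod .nat (.prod .nat (.prod .arr .arr))) (b := .arr)
      (fun _ _ y => y.2.2.1) (fun _ _ _ => 0) := RlzQ.fst (RlzQ.snd (RlzQ.snd RlzQ.input))
  have hw : RlzQ (a := .prod .nat (.prod .nat (.prod .arr .arr))) (b := .arr)
      (fun _ _ y => y.2.2.2) (fun _ _ _ => 0) := RlzQ.snd (RlzQ.snd (RlzQ.snd RlzQ.input))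
  have h1 : RlzQ (a := .prod .nat (.prod .nat (.prod .arr .arr))) (b := .arr)
      (fun K _ y => gAt0 K (y.1, y.2.2.1)) (fun _ _ y => y.1) :=
    (RlzQ.comp gAt0_rlz (RlzQ.pair hn hh)).mono 1 (fun K _ x => by simp)
  have h2 : RlzQ (a := .prod .nat (.prod .nat (.prod .arr .arr))) (b := .arr)
      (fun K _ y => powT (y.1 + 1) y.2.1 (gAt0 K (y.1, y.2.2.1))) (fun _ _ y => y.1 + y.2.1) :=
    (RlzQ.powT (RlzQ.add hn (RlzQ.lit 1)) hq h1).mono 3 (fun K _ x => by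
      omega)
  have h3 : RlzQ (a := .prod .nat (.prod .nat (.prod .arr .arr))) (b := .arr)
      (fun K _ y => gRev K (y.1, powT (y.1 + 1) y.2.1 (gAt0 K (y.1, y.2.2.1))))
      (fun _ _ y => y.1 + y.2.1) :=
    (RlzQ.comp gRev_rlz (RlzQ.pair hn h2)).mono 2 (fun K _ x => by
      dsimp only; omega)
  have h4 := RlzQ.conv hn hw h3
  have h5 := RlzQ.comp khRev_rlz (RlzQ.pair hn h4)
  exact h5.mono 4 (fun K _ x => by dsimp only; omega)

theorem khH_apply {K : Type} [Field K] (n q : ℕ) (h w : ℕ → K) (i : ℕ) (hi : i < n) :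
    khH K (n, (q, (h, w))) i =
      ∑ j ∈ range (n - 1 - i + 1), w j * h ((n - (n - 1 - i - j)) * (n + 1)) ^ q := by
  have h1 : khH K (n, (q, (h, w))) i = conv n w
    (gRev K (n, powT (n + 1) q (gAt0 K (n, h)))) (n - 1 - i) := if_pos hi
  rw [h1]
  have h2 : conv n w (gRev K (n, powT (n + 1) q (gAt0 K (n, h)))) (n - 1 - i) =
      ∑ j ∈ range (n - 1 - i + 1), w j *
        gRev K (n, powT (n + 1) q (gAt0 K (n, h))) (n - 1 - i - j) := if_pos (by omega)
  rw [h2]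
  refine Finset.sum_congr rfl fun j hj => ?_
  congr 1
  have h3 : gRev K (n, powT (n + 1) q (gAt0 K (n, h))) (n - 1 - i - j) =
      powT (n + 1) q (gAt0 K (n, h)) (n - (n - 1 - i - j)) := if_pos (by omega)
  have h4 : powT (n + 1) q (gAt0 K (n, h)) (n - (n - 1 - i - j)) =
      gAt0 K (n, h) (n - (n - 1 - i - j)) ^ q := if_pos (by omega)
  have h5 : gAt0 K (n, h) (n - (n - 1 - i - j)) = h ((n - (n - 1 - i - j)) * (n + 1)) :=
    if_pos (by omega)
  rw [h3, h4, h5]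

theorem khH_spec {K : Type} [Field K] {p : ℕ} [CharP K p] [Fact p.Prime] (n e : ℕ) (hn : 1 ≤ n)
    (h w : ℕ → K) (f : K[X][X])
    (hh : ∀ i < (n + 1) * (n + 1), h i = coeffs2 (n + 1) f i) (a : ℕ → K)
    (ha : ∀ i < n, a i = khH K (n, (p ^ e, (h, w))) i) :
    apol n a = hker n ((at0 f).map (iterateFrobenius K p e)) w := by
  ext i
  rw [apol_coeff, hker, coeff_reflect]
  by_cases hi : i < n
  · rw [if_pos hi, revAt_le (by omega), PowerSeries.coeff_trunc, if_pos (by omega), ha i hi,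
      khH_apply _ _ _ _ _ hi, PowerSeries.coeff_mul,
      Finset.Nat.sum_antidiagonal_eq_sum_range_succ_mk]
    refine Finset.sum_congr rfl fun j hj => ?_
    rw [PowerSeries.coeff_mk, Polynomial.coeff_coe, coeff_reflect, revAt_le (by omega), coeff_map,
      at0_coeff, iterateFrobenius_def]
    congr 2
    have h6 : (n - (n - 1 - i - j)) * (n + 1) < (n + 1) * (n + 1) :=
      Nat.mul_lt_mul_of_pos_right (by omega) (by omega)
    rw [hh _ h6, coeffs2, Nat.mul_div_cancel _ (by omega), Nat.mul_mod_left]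
  · rw [if_neg hi, PowerSeries.coeff_trunc, if_neg]
    rw [revAt_eq_self_of_lt (by omega)]
    exact hi

/-- uniqueness of the inverse -/
theorem kh_unique {K : Type} [Field K] {n : ℕ} {f₀ g v v' u u' : K[X]} (hf : f₀.Monic)
    (hd : f₀.natDegree = n) (hv : v.degree < n) (hv' : v'.degree < n)
    (h : v * g + u * f₀ = 1) (h' : v' * g + u' * f₀ = 1) : v = v' := by
  have h1 : f₀ ∣ v - v' := by
    have h2 : v - v' = f₀ * (u' * v - u * v') := by
      linear_combination v' * h - v * h'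
    exact ⟨_, h2⟩
  have h3 : (v - v').degree < f₀.degree := by
    rw [degree_eq_natDegree hf.ne_zero, hd]
    exact lt_of_le_of_lt (degree_sub_le _ _) (max_lt hv hv')
  have h4 := Polynomial.eq_zero_of_dvd_of_degree_lt h1 h3
  exact sub_eq_zero.mp h4

open Classical in
theorem kh_rlz :
    ∃ F : Fam (.prod .nat (.prod .nat (.prod .nat (.prod .nat (.prod .arr (.prod .arr .arr))))))
      (.prod .arr .arr),
    RlzQ F (fun _ _ x => (x.2.2.2.1 + 1) * (2 ^ x.1 + x.2.1 * 2 ^ x.2.2.1 + (x.2.2.2.1 + 1) ^ 2 +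
      (x.2.2.2.1 + 1) * 2 ^ x.2.2.1) + 4 ^ x.2.2.1 + x.2.1) ∧
    ∀ (K : Type) [Field K] (k : Type) [Field k] [IsAlgClosed k] [Algebra K k]
      (p κ e b n M₁ : ℕ) [CharP K p] [Fact p.Prime] (h : ℕ → K)
      (f : K[X][X]), 1 ≤ n → TD n f → f.Monic → f.natDegree = n → (at0 f).Separable →
      5 * n ^ 2 < 2 ^ κ → 2 ^ κ ≤ p ^ e * M₁ → 1 ≤ M₁ → M₁ ≤ p → M₁ ≤ 2 ^ b →
      (∀ i < (n + 1) * (n + 1), h i = coeffs2 (n + 1) f i) →
      ∀ (ι : Type) [Fintype ι] (F' : ι → k[X][X]), (∀ c, (F' c).Monic ∧ Irreducible (F' c)) →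
      f.map (mapRingHom (algebraMap K k)) = ∏ c, F' c →
      (∀ s ω, ∃ u, apol n (F K (κ, (p ^ e, (b, (n, (h, (s, ω))))))).1 * derivative (at0 f) +
        u * at0 f = 1) ∧
      ∃ R : (Fin n × Fin (2 ^ κ - 3 * n) → K) → Prop,
        (∀ S : Finset K, ((Fintype.piFinset fun _ : Fin n × Fin (2 ^ κ - 3 * n) => S).filter
          fun Ω => ¬ R Ω).card * S.card ≤ n * S.card ^ (n * (2 ^ κ - 3 * n))) ∧
        ∀ ω : ℕ → K, R (fun qq => ω (qq.1 * (2 ^ κ - 3 * n) + qq.2)) →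
          ∀ S : Finset K, ((Fintype.piFinset fun _ : Fin n => S).filter fun s =>
            ¬ ∃ val : ι → k, Function.Injective val ∧ ∀ c α, (at0 (F' c)).IsRoot α →
              ((apol n (F K (κ, (p ^ e, (b, (n, (h, (tape s, ω))))))).2).map
                (algebraMap K k)).eval (α ^ p ^ e) = val c).card * S.card ≤
            Fintype.card ι ^ 2 * S.card ^ n := by
  obtain ⟨Fc, hFc, hFc'⟩ := core2
  obtain ⟨Fk, hFk, hFk'⟩ := gauss_ker
  refine ⟨fun K _ x => ((Fc K (x.1, (x.2.1, (x.2.2.1, (x.2.2.2.1, (x.2.2.2.2.1,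
      x.2.2.2.2.2.2)))))).1, khH K (x.2.2.2.1, (x.2.1, (x.2.2.2.2.1, khMul K (x.2.2.2.1,
      (Fk K (x.2.2.2.1, (Fc K (x.1, (x.2.1, (x.2.2.1, (x.2.2.2.1, (x.2.2.2.2.1,
      x.2.2.2.2.2.2)))))).2), x.2.2.2.2.2.1)))))), ?_, ?_⟩
  · -- the cost
    have i1 : RlzQ (a := .prod .nat (.prod .nat (.prod .nat (.prod .nat (.prod .arr (.prod .arr .arr))))))
        (fun K _ x => x) (fun _ _ _ => 0) := RlzQ.input
    have e1 := RlzQ.fst i1
    have e2 := RlzQ.fst (RlzQ.snd i1)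
    have e3 := RlzQ.fst (RlzQ.snd (RlzQ.snd i1))
    have e4 := RlzQ.fst (RlzQ.snd (RlzQ.snd (RlzQ.snd i1)))
    have e5 := RlzQ.fst (RlzQ.snd (RlzQ.snd (RlzQ.snd (RlzQ.snd i1))))
    have e6 := RlzQ.fst (RlzQ.snd (RlzQ.snd (RlzQ.snd (RlzQ.snd (RlzQ.snd i1)))))
    have e7 := RlzQ.snd (RlzQ.snd (RlzQ.snd (RlzQ.snd (RlzQ.snd (RlzQ.snd i1)))))
    have hC := RlzQ.comp hFc (RlzQ.pair e1 (RlzQ.pair e2 (RlzQ.pair e3 (RlzQ.pair e4
      (RlzQ.pair e5 e7)))))
    have hK := RlzQ.comp hFk (RlzQ.pair e4 (RlzQ.snd hC))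
    have hM := RlzQ.comp khMul_rlz (RlzQ.pair e4 (RlzQ.pair hK e6))
    have hH := RlzQ.comp khH_rlz (RlzQ.pair e4 (RlzQ.pair e2 (RlzQ.pair e5 hM)))
    refine (RlzQ.pair (RlzQ.fst hC) hH).mono 6 (fun K _ x => ?_)
    dsimp only
    obtain ⟨n, hn⟩ : ∃ n : ℕ, n = x.2.2.2.1 := ⟨_, rfl⟩
    obtain ⟨q, hq⟩ : ∃ q : ℕ, q = x.2.1 := ⟨_, rfl⟩
    obtain ⟨A, hA⟩ : ∃ A : ℕ, A = 2 ^ x.1 := ⟨_, rfl⟩
    obtain ⟨B, hB⟩ : ∃ B : ℕ, B = 2 ^ x.2.2.1 := ⟨_, rfl⟩
    obtain ⟨D, hD⟩ : ∃ D : ℕ, D = 4 ^ x.2.2.1 := ⟨_, rfl⟩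
    rw [← hn, ← hq, ← hA, ← hB, ← hD]
    have h1 : (n + 1) ^ 3 ≤ (n + 1) * (A + q * B + (n + 1) ^ 2 + (n + 1) * B) := by
      calc (n + 1) ^ 3 = (n + 1) * (n + 1) ^ 2 := by ring
        _ ≤ (n + 1) * (A + q * B + (n + 1) ^ 2 + (n + 1) * B) := by
          apply Nat.mul_le_mul_left
          omega
    have h2 : n ^ 3 ≤ (n + 1) ^ 3 := Nat.pow_le_pow_left (Nat.le_succ n) 3
    have h3 : n ^ 2 ≤ (n + 1) ^ 3 := by nlinarith
    have h4 : n ≤ (n + 1) ^ 3 := by nlinarith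
    omega
  · intro K _ k _ _ _ p κ e b n M₁ _ _ h f hn hTD hf hfd hsep hκ hq hM1 hMp hMb hh ι _ F' hF hprod
    have m1 : (at0 f).Monic := hf.map _
    have m2 : (at0 f).natDegree = n := by rw [at0, hf.natDegree_map, hfd]
    have hcore := fun ω => hFc' K p κ e b n h ω f hn hTD hf hfd hsep hκ hh
    obtain ⟨v₀, hv1, ⟨u₀, hu₀⟩, -⟩ := hcore 0
    have hcore' : ∀ ω, (∀ i < n, (Fc K (κ, (p ^ e, (b, (n, (h, ω)))))).1 i = v₀.coeff i) ∧
        ∀ a j : Fin n, (Fc K (κ, (p ^ e, (b, (n, (h, ω)))))).2 (a * n + j) =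
          resMat p (2 ^ κ) e b n f (v₀.map (iterateFrobenius K p e))
            (fun qq => ω (qq.1 * (2 ^ κ - 3 * n) + qq.2)) a j := by
      intro ω
      obtain ⟨v₁, hw1, ⟨u₁, hu₁⟩, hw2, hw3⟩ := hcore ω
      have h1 : v₁ = v₀ := kh_unique m1 m2 hw1 hv1 hu₁ hu₀
      rw [h1] at hw2 hw3
      exact ⟨hw2, hw3⟩
    refine ⟨fun s ω => ⟨u₀, ?_⟩, ?_⟩
    · have h1 : apol n (Fc K (κ, (p ^ e, (b, (n, (h, ω)))))).1 = v₀ := by
        ext i
        rw [apol_coeff]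
        split_ifs with hi
        · exact (hcore' ω).1 i hi
        · exact ((degree_lt_iff_coeff_zero _ _).mp hv1 i (not_lt.mp hi)).symm
      exact h1.symm ▸ hu₀
    · obtain ⟨R, hR1, hR2⟩ := kernel_main (k := k) hn hκ hq hM1 hMp hMb hf hfd hTD hsep
        ⟨_, frob_bezout e hu₀⟩ hF hprod
      refine ⟨R, hR1, fun ω hω S => ?_⟩
      obtain ⟨T, hT⟩ : ∃ T, T = (Fc K (κ, (p ^ e, (b, (n, (h, ω)))))).2 := ⟨_, rfl⟩
      have hT' : matOf n n T = resMat p (2 ^ κ) e b n f (v₀.map (iterateFrobenius K p e))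
            (fun qq => ω (qq.1 * (2 ^ κ - 3 * n) + qq.2)) := by
        ext a j
        rw [hT]
        exact (hcore' ω).2 a j
      obtain ⟨k1, k2⟩ := hFk' K n T
      rw [hT'] at k1 k2
      have h3 := hR2 _ hω _ k1 k2 S
      refine le_trans (le_of_eq ?_) h3
      congr 2
      refine Finset.filter_congr fun s _ => ?_
      have h4 : apol n (khH K (n, (p ^ e, (h, khMul K (n, (Fk K (n, T), tape s)))))) =
          hker n ((at0 f).map (iterateFrobenius K p e))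
            (fun i => if h : i < n then (matOf n n (Fk K (n, T))).mulVec s ⟨i, h⟩ else 0) := by
        rw [khH_spec n e hn h (khMul K (n, (Fk K (n, T), tape s))) f hh _ (fun i _ => rfl)]
        congr 1
        funext i
        change (if i < n then _ else _) = _
        split_ifs with hi
        · change ∑ j ∈ range n, Fk K (n, T) (i * n + j) * tape s j =
            ∑ j : Fin n, Fk K (n, T) (i * n + j) * s j
          rw [Finset.sum_range]
          refine Finset.sum_congr rfl fun j _ => ?_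
          rw [tape, dif_pos j.2]
        · rfl
      rw [← h4, hT]

end Pool.Agent.AbsIrr
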