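import Mathlib
import Pool.Agent.Lib.MP_2adc98_lc.FDefs2
import Pool.Agent.Lib.MP_2adc98_lc.FA
import Pool.Agent.Lib.MP_2adc98_lc.FIM
import Pool.Agent.Lib.MP_2adc98_lc.FM5
import Pool.Agent.Lib.MP_2adc98_lc.FI
import Pool.Agent.Lib.MP_2adc98_lc.FKH
import Pool.Agent.Lib.MP_2adc98_lc.FHP

/-!
# MP_2adc98_lc, stage 2: everything for one multiplicity
-/

set_option autoImplicit false

namespace Pool.Agent.AbsIrr

open Finset Polynomial

namespace FP1

section basic
variable {K : Type} [Field K]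

theorem blk_coeff (w : ℕ) (A : ℕ → K) (c i : ℕ) :
    (blk w A c).coeff i = if i < w then A (c * w + i) else 0 := by
  unfold blk
  rw [finsetSum_coeff]
  simp only [coeff_monomial]
  rw [Finset.sum_ite_eq' (range w) i]
  simp

theorem blk_natDegree_lt (w : ℕ) (A : ℕ → K) (c : ℕ) : (blk (w + 1) A c).natDegree < w + 1 := by
  refine lt_of_le_of_lt (natDegree_le_iff_coeff_eq_zero.2 fun N hN => ?_) (Nat.lt_succ_self w)
  rw [blk_coeff, if_neg (by omega)]

theorem adeg_blk {n : ℕ} {S : ℕ → K} {j : ℕ} (h : (blk (n + 1) S j).Monic) :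
    adeg (n + 1) (blkA (n + 1) j S) = (blk (n + 1) S j).natDegree := by
  refine adeg_eq (RingHom.id K) h (blk_natDegree_lt _ _ _) fun i hi => ?_
  rw [blk_coeff, if_pos hi]
  simp only [blkA, tabF, if_pos hi, RingHom.id_apply]

theorem InB_succ {G h : K[X]} {j : ℕ} {A : K[X]} (hA : InB G h j A) : InB G h (j + 1) (A * X) := by
  obtain ⟨b, Q, hQ⟩ := hA
  refine ⟨fun i => if i = 0 then 0 else b (i - 1), Q * X, ?_⟩
  rw [Finset.sum_range_succ', ← mul_assoc, ← hQ, sub_mul, Finset.sum_mul]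
  simp only [if_true, zero_comp, zero_mul, add_zero, Nat.add_sub_cancel, Nat.succ_ne_zero, if_false]
  congr 1
  refine Finset.sum_congr rfl fun i _ => ?_
  rw [pow_succ]
  ring

/-- what the second output guarantees on all inputs -/
theorem cost_blocks {n : ℕ} {g H S : ℕ → K}
    (h : (∀ j ≤ n, (blk (n + 1) S j).Monic ∧
        InB (gmon n g) (apol n H) j ((blk (n + 1) S j).comp (apol n H) * X ^ j) ∧
        ∀ A : K[X], A ≠ 0 → InB (gmon n g) (apol n H) j (A.comp (apol n H) * X ^ j) →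
          (blk (n + 1) S j).natDegree ≤ A.natDegree) ∧
      ∑ j ∈ range (n + 1), (blk (n + 1) S j).natDegree ≤ n) :
    ∃ a : ℕ → ℕ, Antitone a ∧ (∀ j ≤ n, a j = adeg (n + 1) (blkA (n + 1) j S)) ∧
      ∑ j ∈ range n, a j ≤ n := by
  refine ⟨fun j => if j ≤ n then (blk (n + 1) S j).natDegree else 0, ?_, ?_, ?_⟩
  · refine antitone_nat_of_succ_le fun j => ?_
    by_cases hj : j + 1 ≤ n
    · rw [if_pos hj, if_pos (by omega)]
      obtain ⟨h1, h2, -⟩ := h.1 j (by omega)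
      obtain ⟨-, -, h3⟩ := h.1 (j + 1) hj
      refine h3 _ h1.ne_zero ?_
      rw [pow_succ, ← mul_assoc]
      exact InB_succ h2
    · rw [if_neg hj]
      exact Nat.zero_le _
  · intro j hj
    beta_reduce
    rw [if_pos hj, adeg_blk (h.1 j hj).1]
  · refine le_trans ?_ h.2
    rw [Finset.sum_range_succ]
    refine le_trans (Finset.sum_le_sum fun j hj => ?_) (Nat.le_add_right _ _)
    rw [if_pos (Finset.mem_range.1 hj).le]

/-- the polynomial in two variables given by an array -/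
noncomputable def poly2 (n : ℕ) (h : ℕ → K) : K[X][X] :=
  ∑ j ∈ range (n + 1), monomial j (∑ i ∈ range (n + 1), monomial i (h (j * (n + 1) + i)))

theorem poly2_coeff (n : ℕ) (h : ℕ → K) (j i : ℕ) :
    ((poly2 n h).coeff j).coeff i =
      if j < n + 1 ∧ i < n + 1 then h (j * (n + 1) + i) else 0 := by
  unfold poly2
  rw [finsetSum_coeff]
  simp only [coeff_monomial]
  rw [Finset.sum_ite_eq' (range (n + 1)) j]
  by_cases hj : j < n + 1
  · rw [if_pos (Finset.mem_range.2 hj), finsetSum_coeff]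
    simp only [coeff_monomial]
    rw [Finset.sum_ite_eq' (range (n + 1)) i]
    by_cases hi : i < n + 1
    · rw [if_pos (Finset.mem_range.2 hi), if_pos ⟨hj, hi⟩]
    · rw [if_neg (fun h => hi (Finset.mem_range.1 h)), if_neg (fun h => hi h.2)]
  · rw [if_neg (fun h => hj (Finset.mem_range.1 h)), if_neg (fun h => hj h.1), coeff_zero]

theorem coeffs2_poly2 (n : ℕ) (h : ℕ → K) {i : ℕ} (hi : i < (n + 1) * (n + 1)) :
    h i = coeffs2 (n + 1) (poly2 n h) i := by
  unfold coeffs2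
  rw [poly2_coeff, if_pos ⟨Nat.div_lt_of_lt_mul hi, Nat.mod_lt _ (Nat.succ_pos n)⟩,
    mul_comm, Nat.div_add_mod]

theorem gmon_eq {n : ℕ} {hp : K[X][X]} (hm : hp.Monic) (hd : hp.natDegree = n) {g : ℕ → K}
    (hg : ∀ j < n, g j = (hp.coeff j).coeff 0) : gmon n g = at0 hp := by
  ext i
  rw [at0_coeff]
  unfold gmon
  rw [coeff_add, coeff_X_pow, finsetSum_coeff]
  simp only [coeff_monomial]
  rw [Finset.sum_ite_eq' (range n) i]
  rcases lt_trichotomy i n with hi | hi | hi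
  · rw [if_neg hi.ne, if_pos (Finset.mem_range.2 hi), zero_add, hg i hi]
  · subst hi
    have h1 : hp.coeff i = 1 := by
      have := hm.coeff_natDegree
      rwa [hd] at this
    rw [if_pos rfl, if_neg (fun h => lt_irrefl _ (Finset.mem_range.1 h)), add_zero, h1,
      coeff_one_zero]
  · have h1 : hp.coeff i = 0 := coeff_eq_zero_of_natDegree_lt (by omega)
    rw [if_neg hi.ne', if_neg (fun h => absurd (Finset.mem_range.1 h) (by omega)), add_zero, h1,
      coeff_zero]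

end basic

section math
variable {K : Type} [Field K] {k : Type} [Field k] [Algebra K k]

theorem TD_coeff {D : ℕ} {P : k[X][X]} (h : TD D P) {j i : ℕ} (hi : D < i + j) :
    (P.coeff j).coeff i = 0 := by
  by_cases h0 : P.coeff j = 0
  · rw [h0, coeff_zero]
  · exact coeff_eq_zero_of_natDegree_lt (by have := h j h0; omega)

theorem map_poly2 {n : ℕ} {h : ℕ → K} {hk : k[X][X]} (hd : hk.natDegree = n) (hTD : TD n hk)
    (hh : ∀ j ≤ n, ∀ i ≤ n, algebraMap K k (h (j * (n + 1) + i)) = (hk.coeff j).coeff i) :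
    (poly2 n h).map (mapRingHom (algebraMap K k)) = hk := by
  ext j i
  rw [coeff_map, coe_mapRingHom, coeff_map, poly2_coeff]
  by_cases hj : j < n + 1
  · by_cases hi : i < n + 1
    · rw [if_pos ⟨hj, hi⟩, hh j (by omega) i (by omega)]
    · rw [if_neg (fun h => hi h.2), map_zero, TD_coeff hTD (by omega)]
  · have h0 : hk.coeff j = 0 := coeff_eq_zero_of_natDegree_lt (by omega)
    rw [if_neg (fun h => hj h.1), map_zero, h0, coeff_zero]

theorem mapmap_inj : Function.Injective (Polynomial.map (mapRingHom (algebraMap K k))) :=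
  Polynomial.map_injective _ (Polynomial.map_injective _ (algebraMap K k).injective)

theorem at0_map' (f : K[X][X]) :
    at0 (f.map (mapRingHom (algebraMap K k))) = (at0 f).map (algebraMap K k) := by
  ext j
  rw [at0_coeff, coeff_map, coe_mapRingHom, coeff_map, coeff_map, at0_coeff]

theorem at0_prod {ι : Type} (s : Finset ι) (F : ι → k[X][X]) :
    at0 (∏ i ∈ s, F i) = ∏ i ∈ s, at0 (F i) := by
  unfold at0
  exact Polynomial.map_prod _ _ _

theorem at0_mul (F G : k[X][X]) : at0 (F * G) = at0 F * at0 G := by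
  unfold at0
  exact Polynomial.map_mul _

theorem at0_pow (F : k[X][X]) (m : ℕ) : at0 (F ^ m) = at0 F ^ m := by
  unfold at0
  exact Polynomial.map_pow _ _

theorem at0_monic {F : k[X][X]} (h : F.Monic) : (at0 F).Monic := h.map _

theorem at0_natDegree {F : k[X][X]} (h : F.Monic) : (at0 F).natDegree = F.natDegree :=
  h.natDegree_map _

theorem TD_of_map {n : ℕ} {f : K[X][X]}
    (h : TD n (f.map (mapRingHom (algebraMap K k)))) : TD n f := by
  intro j hj
  have h1 : (f.map (mapRingHom (algebraMap K k))).coeff j = (f.coeff j).map (algebraMap K k) := by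
    rw [coeff_map, coe_mapRingHom]
  have h2 := h j (by
    rw [h1]
    exact fun h0 => hj ((Polynomial.map_eq_zero _).1 h0))
  rwa [h1, natDegree_map] at h2

theorem monic_of_map {f : K[X][X]} (h : (f.map (mapRingHom (algebraMap K k))).Monic) :
    f.Monic :=
  Polynomial.monic_of_injective (Polynomial.map_injective _ (algebraMap K k).injective) h

theorem natDegree_map2 (f : K[X][X]) :
    (f.map (mapRingHom (algebraMap K k))).natDegree = f.natDegree :=
  natDegree_map_eq_of_injective (Polynomial.map_injective _ (algebraMap K k).injective) f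

/-- the value at a `p^e`-th power -/
theorem eval_frob {p : ℕ} [CharP K p] [Fact p.Prime] {n e : ℕ} {H ht : ℕ → K}
    (hH : ∀ i < n, H i ^ p ^ e = ht i) (α : k) :
    (((apol n H).map (algebraMap K k)).eval α) ^ p ^ e =
      ((apol n ht).map (algebraMap K k)).eval (α ^ p ^ e) := by
  have : CharP k p := charP_of_injective_algebraMap (algebraMap K k).injective p
  unfold apol
  rw [Polynomial.map_sum, Polynomial.map_sum, eval_finsetSum, eval_finsetSum,
    sum_pow_char_pow]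
  refine Finset.sum_congr rfl fun i hi => ?_
  rw [map_monomial, map_monomial, eval_monomial, eval_monomial, mul_pow, ← map_pow,
    hH i (Finset.mem_range.1 hi), ← pow_mul, ← pow_mul, mul_comm i]

theorem dvd_of_roots [IsAlgClosed k] {P A : k[X]} (hP : P.Monic) (hs : P.Separable)
    (h : ∀ α, P.IsRoot α → A.IsRoot α) : P ∣ A := by
  classical
  have h1 := (IsAlgClosed.splits P).eq_prod_roots_of_monic hP
  rcases eq_or_ne A 0 with rfl | hA
  · exact dvd_zero _
  rw [h1]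
  refine (Multiset.prod_X_sub_C_dvd_iff_le_roots hA _).2 ?_
  refine (Multiset.le_iff_subset (nodup_roots hs)).2 fun α hα => ?_
  exact (mem_roots hA).2 (h α (isRoot_of_mem_roots hα))

end math

section rho
variable {K : Type} [Field K] {k : Type} [Field k] [Algebra K k]

/-- the hypotheses on the factorization -/
structure Hyp (d t : ℕ) (ft : K[X][X]) (F' : Fin t → k[X][X]) (mm : Fin t → ℕ)
    (rho : ℕ → K) : Prop where
  fm : ft.Monic
  fd : ft.natDegree = d
  hF : ∀ i, (F' i).Monic ∧ TD (F' i).natDegree (F' i) ∧ Irreducible (F' i) ∧ 1 ≤ mm i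
  prod : ft.map (mapRingHom (algebraMap K k)) = ∏ i, F' i ^ mm i
  sep : (at0 (∏ i, F' i)).Separable
  rho : IsRho d (at0 (ft.map (mapRingHom (algebraMap K k)))) rho

variable {d t : ℕ} {ft : K[X][X]} {F' : Fin t → k[X][X]} {mm : Fin t → ℕ} {rho : ℕ → K}

theorem Hyp.sum_eq (h : Hyp d t ft F' mm rho) : ∑ i, mm i * (F' i).natDegree = d := by
  rw [← h.fd, ← natDegree_map2 (k := k) ft, h.prod, natDegree_prod_of_monic _ _
    (fun i _ => (h.hF i).1.pow _)]
  refine Finset.sum_congr rfl fun i _ => ?_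
  rw [(h.hF i).1.natDegree_pow]

theorem Hyp.coeff [IsAlgClosed k] (h : Hyp d t ft F' mm rho) {j : ℕ} (hj : j ≤ d) {l : ℕ} (hl : l ≤ d) :
    algebraMap K k (rho (j * (d + 1) + l)) = (∏ i with j < mm i, at0 (F' i)).coeff l := by
  have h1 := h.rho
  unfold IsRho at h1
  have h2 := h1 j hj l hl
  have h3 : at0 (ft.map (mapRingHom (algebraMap K k))) = ∏ i, at0 (F' i) ^ mm i := by
    rw [h.prod, at0_prod]
    refine Finset.prod_congr rfl fun i _ => at0_pow _ _
  rw [h3] at h2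
  rw [h2]
  have h4 := rho_eq (P := fun i => at0 (F' i)) (fun i => at0_monic (h.hF i).1)
    (by rw [← at0_prod]; exact h.sep) mm j
  rw [← h4]

theorem Hyp.adeg [IsAlgClosed k] (h : Hyp d t ft F' mm rho) {j : ℕ} (hj : j ≤ d) :
    adeg (d + 1) (blkA (d + 1) j rho) = ∑ i with j < mm i, (F' i).natDegree := by
  have hdeg : (∏ i with j < mm i, at0 (F' i)).natDegree =
      ∑ i with j < mm i, (F' i).natDegree := by
    rw [natDegree_prod_of_monic _ _ (fun i _ => at0_monic (h.hF i).1)]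
    exact Finset.sum_congr rfl fun i _ => at0_natDegree (h.hF i).1
  have hle : ∑ i with j < mm i, (F' i).natDegree ≤ d := by
    conv_rhs => rw [← h.sum_eq]
    refine (Finset.sum_le_sum_of_subset (Finset.filter_subset _ _)).trans
      (Finset.sum_le_sum fun i _ => ?_)
    exact Nat.le_mul_of_pos_left _ (h.hF i).2.2.2
  rw [adeg_eq (algebraMap K k) (P := ∏ i with j < mm i, at0 (F' i))
    (monic_prod_of_monic _ _ (fun i _ => at0_monic (h.hF i).1)) (by rw [hdeg]; omega) ?_, hdeg]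
  intro i hi
  simp only [blkA, tabF, if_pos hi]
  exact h.coeff hj (by omega)

theorem split_filter {m : ℕ} (hm : 1 ≤ m) (mm : Fin t → ℕ) (D : Fin t → ℕ) :
    ∑ i with m - 1 < mm i, D i = ∑ i with mm i = m, D i + ∑ i with m < mm i, D i := by
  rw [Finset.sum_filter, Finset.sum_filter, Finset.sum_filter, ← Finset.sum_add_distrib]
  refine Finset.sum_congr rfl fun i _ => ?_
  split_ifs <;> omega

theorem Hyp.gmn [IsAlgClosed k] (h : Hyp d t ft F' mm rho) {m : ℕ} (hm : 1 ≤ m) :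
    gmn d m rho = m * ∑ i with mm i = m, (F' i).natDegree := by
  have h1 : m * ∑ i with mm i = m, (F' i).natDegree ≤ d := by
    conv_rhs => rw [← h.sum_eq]
    rw [Finset.mul_sum]
    refine (Finset.sum_le_sum (g := fun i => mm i * (F' i).natDegree) fun i hi => ?_).trans
      (Finset.sum_le_sum_of_subset (Finset.filter_subset _ _))
    rw [(Finset.mem_filter.1 hi).2]
  unfold Pool.Agent.AbsIrr.gmn
  by_cases hmd : m ≤ d
  · rw [h.adeg hmd, h.adeg (show m - 1 ≤ d by omega), split_filter hm, Nat.add_sub_cancel,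
      if_pos h1]
  · have h2 : ∑ i with mm i = m, (F' i).natDegree = 0 := by
      by_contra h0
      have : m * 1 ≤ m * ∑ i with mm i = m, (F' i).natDegree :=
        Nat.mul_le_mul_left _ (Nat.one_le_iff_ne_zero.2 h0)
      omega
    rw [h2, mul_zero]
    split_ifs with h3
    · by_contra h0
      have : m * 1 ≤ m * (AbsIrr.adeg (d + 1) (blkA (d + 1) (m - 1) rho) -
          AbsIrr.adeg (d + 1) (blkA (d + 1) m rho)) := by
        refine Nat.mul_le_mul_left _ (Nat.one_le_iff_ne_zero.2 fun h4 => h0 ?_)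
        rw [h4, mul_zero]
      omega
    · rfl

end rho

section main
variable {K : Type} [Field K] {k : Type} [Field k] [Algebra K k]
variable {d t : ℕ} {ft : K[X][X]} {F' : Fin t → k[X][X]} {mm : Fin t → ℕ} {rho : ℕ → K}

theorem Hyp.coprime (h : Hyp d t ft F' mm rho) {i j : Fin t} (hij : i ≠ j) :
    IsCoprime (at0 (F' i)) (at0 (F' j)) := by
  have h1 := h.sep
  rw [at0_prod] at h1
  have h2 : at0 (F' i) * at0 (F' j) ∣ ∏ i, at0 (F' i) := by
    rw [← Finset.mul_prod_erase Finset.univ _ (Finset.mem_univ i)]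
    refine mul_dvd_mul_left _ (Finset.dvd_prod_of_mem (fun i => at0 (F' i)) ?_)
    exact Finset.mem_erase.2 ⟨hij.symm, Finset.mem_univ _⟩
  exact (h1.of_dvd h2).isCoprime

theorem Hyp.sepi (h : Hyp d t ft F' mm rho) (i : Fin t) : (at0 (F' i)).Separable := by
  have h1 := h.sep
  rw [at0_prod] at h1
  exact h1.of_dvd (Finset.dvd_prod_of_mem (fun i => at0 (F' i)) (Finset.mem_univ i))

theorem Hyp.deg_pos (h : Hyp d t ft F' mm rho) (i : Fin t) : 1 ≤ (F' i).natDegree := by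
  rw [Nat.one_le_iff_ne_zero]
  intro h0
  have h1 := (h.hF i).1.natDegree_eq_zero.1 h0
  exact (h.hF i).2.2.1.not_isUnit (by rw [h1]; exact isUnit_one)

/-- the hypotheses of the routine for the part of multiplicity `m` -/
theorem Hyp.part [IsAlgClosed k] (h : Hyp d t ft F' mm rho) {m n : ℕ} (hm : 1 ≤ m)
    (hn : n = ∑ i with mm i = m, (F' i).natDegree) (hn1 : 1 ≤ n) :
    ∃ (hk Q : k[X][X]) (ρ₁ ρ₂ : k[X]), hk = ∏ i with mm i = m, F' i ∧ hk.Monic ∧ Q.Monic ∧
      ft.map (mapRingHom (algebraMap K k)) = hk ^ m * Q ∧ hk.natDegree = n ∧ TD n hk ∧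
      IsCoprime (at0 hk) (at0 Q) ∧ ρ₁.Monic ∧ ρ₂.Monic ∧ ρ₁ = at0 hk * ρ₂ ∧ ρ₁.natDegree ≤ d ∧
      (∀ l ≤ d, algebraMap K k (rho ((m - 1) * (d + 1) + l)) = ρ₁.coeff l) ∧
      (∀ l ≤ d, algebraMap K k (rho (m * (d + 1) + l)) = ρ₂.coeff l) := by
  have hmd : m * n ≤ d := by
    conv_rhs => rw [← h.sum_eq]
    rw [hn, Finset.mul_sum]
    refine (Finset.sum_le_sum (g := fun i => mm i * (F' i).natDegree) fun i hi => ?_).trans
      (Finset.sum_le_sum_of_subset (Finset.filter_subset _ _))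
    rw [(Finset.mem_filter.1 hi).2]
  have hmd1 : m ≤ d := le_trans (by nlinarith) hmd
  refine ⟨∏ i with mm i = m, F' i, ∏ i with ¬ mm i = m, F' i ^ mm i,
    ∏ i with m - 1 < mm i, at0 (F' i), ∏ i with m < mm i, at0 (F' i), rfl,
    monic_prod_of_monic _ _ fun i _ => (h.hF i).1,
    monic_prod_of_monic _ _ fun i _ => (h.hF i).1.pow _, ?_, ?_, ?_, ?_,
    monic_prod_of_monic _ _ fun i _ => at0_monic (h.hF i).1,
    monic_prod_of_monic _ _ fun i _ => at0_monic (h.hF i).1, ?_, ?_,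
    fun l hl => h.coeff (by omega) hl, fun l hl => h.coeff hmd1 hl⟩
  · rw [h.prod, ← Finset.prod_filter_mul_prod_filter_not Finset.univ (fun i => mm i = m),
      ← Finset.prod_pow]
    congr 1
    refine Finset.prod_congr rfl fun i hi => ?_
    rw [(Finset.mem_filter.1 hi).2]
  · rw [natDegree_prod_of_monic _ _ (fun i _ => (h.hF i).1), hn]
  · rw [hn]
    exact TD.prod _ fun i _ => (h.hF i).2.1
  · rw [at0_prod, at0_prod]
    refine IsCoprime.prod_left fun i hi => IsCoprime.prod_right fun j hj => ?_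
    rw [at0_pow]
    refine (h.coprime fun hij => ?_).pow_right
    subst hij
    exact (Finset.mem_filter.1 hj).2 (Finset.mem_filter.1 hi).2
  · rw [at0_prod, Finset.prod_filter, Finset.prod_filter, Finset.prod_filter,
      ← Finset.prod_mul_distrib]
    refine Finset.prod_congr rfl fun i _ => ?_
    rcases lt_trichotomy (mm i) m with h1 | h1 | h1
    · rw [if_neg (by omega), if_neg (by omega), if_neg (by omega), mul_one]
    · rw [if_pos (by omega), if_pos h1, if_neg (by omega), mul_one]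
    · rw [if_pos (by omega), if_neg (by omega), if_pos h1, one_mul]
  · rw [natDegree_prod_of_monic _ _ (fun i _ => at0_monic (h.hF i).1)]
    conv_rhs => rw [← h.sum_eq]
    refine (Finset.sum_le_sum (g := fun i => mm i * (F' i).natDegree) fun i _ => ?_).trans
      (Finset.sum_le_sum_of_subset (Finset.filter_subset _ _))
    rw [at0_natDegree (h.hF i).1]
    exact Nat.le_mul_of_pos_left _ (h.hF i).2.2.2

open Classical in
/-- from the kernel element to the output -/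
theorem Hyp.good [IsAlgClosed k] (hy : Hyp d t ft F' mm rho) {p e m n : ℕ} [CharP K p] [Fact p.Prime]
    [PerfectRing K p] (hn : n = ∑ i with mm i = m, (F' i).natDegree)
    {h v₀ ht H S : ℕ → K} (hH : H = rootT n e ht)
    (hTD : TD n (∏ i with mm i = m, F' i))
    (hh : ∀ j ≤ n, ∀ i ≤ n, algebraMap K k (h (j * (n + 1) + i)) =
      ((∏ i with mm i = m, F' i).coeff j).coeff i)
    (hv : ∃ u, apol n v₀ * derivative (at0 (poly2 n h)) + u * at0 (poly2 n h) = 1)
    (hS : (∀ j ≤ n, (blk (n + 1) S j).Monic ∧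
        InB (gmon n (tabF n fun j => h (j * (n + 1)))) (apol n H) j
          ((blk (n + 1) S j).comp (apol n H) * X ^ j) ∧
        ∀ A : K[X], A ≠ 0 → InB (gmon n (tabF n fun j => h (j * (n + 1)))) (apol n H) j
          (A.comp (apol n H) * X ^ j) → (blk (n + 1) S j).natDegree ≤ A.natDegree))
    (hval : ∃ val : {i // mm i = m} → k, Function.Injective val ∧
      ∀ c α, (at0 (F' c.1)).IsRoot α →
        ((apol n ht).map (algebraMap K k)).eval (α ^ p ^ e) = val c) :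
    GoodOut (fun c : {i // mm i = m} => F' c) n (n, (h, (v₀, (H, S)))) := by
  have : CharP k p := charP_of_injective_algebraMap (algebraMap K k).injective p
  obtain ⟨val, hinj, hroot⟩ := hval
  have hkm : (∏ i with mm i = m, F' i).Monic := monic_prod_of_monic _ _ fun i _ => (hy.hF i).1
  have hkd : (∏ i with mm i = m, F' i).natDegree = n := by
    rw [natDegree_prod_of_monic _ _ (fun i _ => (hy.hF i).1), hn]
  have hmap := map_poly2 hkd hTD hh
  have hpm : (poly2 n h).Monic := monic_of_map (k := k) (by rw [hmap]; exact hkm)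
  have hpd : (poly2 n h).natDegree = n := by rw [← natDegree_map2 (k := k), hmap, hkd]
  have hprod : (∏ i with mm i = m, F' i) = ∏ c : {i // mm i = m}, F' c := by
    rw [← Finset.prod_subtype_eq_prod_filter]
    simp
  choose val' hval' using fun c => IsAlgClosed.exists_pow_nat_eq (val c)
    (show 0 < p ^ e from pow_pos (Fact.out : p.Prime).pos e)
  have hinj' : Function.Injective val' := fun c c' hcc =>
    hinj (by rw [← hval' c, ← hval' c', hcc])
  have hdvd : ∀ c : {i // mm i = m},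
      at0 (F' c.1) ∣ (apol n H).map (algebraMap K k) - C (val' c) := by
    intro c
    refine dvd_of_roots (at0_monic (hy.hF _).1) (hy.sepi _) fun α hα => ?_
    rw [IsRoot, eval_sub, eval_C]
    have h1 := eval_frob (k := k) (p := p) (e := e) (n := n) (H := H) (ht := ht) (fun i hi => by
      rw [hH]
      simp only [rootT, tabF, if_pos hi]
      exact prt_iterate_pow e _) α
    rw [hroot c α hα, ← hval' c] at h1
    have h2 : (((apol n H).map (algebraMap K k)).eval α - val' c) ^ p ^ e = 0 := by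
      rw [sub_pow_char_pow, h1, sub_self]
    exact eq_zero_of_pow_eq_zero h2
  have hg : gmon n (tabF n fun j => h (j * (n + 1))) = at0 (poly2 n h) := by
    refine gmon_eq hpm hpd fun j hj => ?_
    rw [poly2_coeff, if_pos ⟨by omega, by omega⟩, add_zero]
    simp only [tabF, if_pos hj]
  refine ⟨rfl, poly2 n h, hpm, hpd, by rw [hmap, hprod], fun i hi => coeffs2_poly2 n h hi, hv,
    val', hinj', hdvd, fun j hj => ?_⟩
  obtain ⟨h1, h2, h3⟩ := hS j hj
  dsimp only
  rw [inv_math (G := gmon n (tabF n fun j => h (j * (n + 1)))) (h := apol n H)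
    (by rw [hg]; exact at0_monic hpm) (P := fun c : {i // mm i = m} => at0 (F' c.1))
    (fun c => at0_monic (hy.hF _).1)
    (fun c c' hcc => hy.coprime fun h0 => hcc (Subtype.ext h0))
    (by rw [hg, ← at0_map', hmap, hprod, at0_prod]) hinj' hdvd h1 h2 h3]
  refine Finset.prod_congr (Finset.filter_congr fun c _ => ?_) fun _ _ => rfl
  rw [at0_natDegree (hy.hF _).1]

end main

/-! ### the program -/

section prog

/-- the type of the input -/
abbrev I1 : Ty := .prod .nat (.prod .nat (.prod .nat (.prod .nat (.prod .nat (.prod .nat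
  (.prod .nat (.prod .arr (.prod .arr (.prod .arr .arr)))))))))

variable (F₁ : Fam (.prod .nat (.prod .nat (.prod .nat (.prod .arr .arr)))) (.prod .nat .arr))
  (F₂ : Fam (.prod .nat (.prod .nat (.prod .nat (.prod .nat (.prod .arr (.prod .arr .arr))))))
    (.prod .arr .arr))
  (F₃ : Fam (.prod .nat (.prod .arr .arr)) .arr)

/-- the part of multiplicity `m` -/
def g1 : Fam I1 (.prod .nat .arr) := fun K _ x =>
  F₁ K (x.2.2.2.2.1, (x.2.2.2.2.2.1, (x.2.2.2.2.2.2.1, (x.2.2.2.2.2.2.2.1,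
    x.2.2.2.2.2.2.2.2.1))))

/-- the kernel element -/
def g2 : Fam (.prod I1 (.prod .nat .arr)) (.prod .arr .arr) := fun K _ y =>
  F₂ K (y.1.1, (y.1.2.1, (y.1.2.2.2.1, (y.2.1, (y.2.2, (y.1.2.2.2.2.2.2.2.2.2.1,
    y.1.2.2.2.2.2.2.2.2.2.2))))))

/-- the `p^e`-th roots -/
noncomputable def g3 : Fam (.prod (.prod I1 (.prod .nat .arr)) (.prod .arr .arr)) .arr :=
  fun _ _ z => rootT z.1.2.1 z.1.1.2.2.1 z.2.2

/-- the polynomial `h(0, y)` -/
def g4 : Fam (.prod (.prod (.prod I1 (.prod .nat .arr)) (.prod .arr .arr)) .arr) .arr :=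
  fun _ _ w => tabF w.1.1.2.1 (fun j => w.1.1.2.2 (j * (w.1.1.2.1 + 1)))

/-- the invariant factors -/
def g5 : Fam (.prod (.prod (.prod I1 (.prod .nat .arr)) (.prod .arr .arr)) .arr) .arr :=
  fun K _ w => F₃ K (w.1.1.2.1, (g4 K w, w.2))

/-- the output -/
noncomputable def outP1 : Fam I1 (.prod .nat (.prod .arr (.prod .arr (.prod .arr .arr)))) :=
  fun K _ x => ((g1 F₁ K x).1, ((g1 F₁ K x).2, ((g2 F₂ K (x, g1 F₁ K x)).1,
    (g3 K ((x, g1 F₁ K x), g2 F₂ K (x, g1 F₁ K x)),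
      g5 F₃ K (((x, g1 F₁ K x), g2 F₂ K (x, g1 F₁ K x)),
        g3 K ((x, g1 F₁ K x), g2 F₂ K (x, g1 F₁ K x)))))))

end prog

theorem RzQ.ext {a b : Ty} {V : Fam a b} {cv : CFam a} (hV : RzQ V cv) :
    RzQ (b := .prod a b) (fun K _ x => (x, V K x)) cv :=
  (RzQ.pair (RzQ.of RlzQ.input) hV).mono 1 (fun K _ x => by simp)

theorem g1_rlz {F₁ : Fam (.prod .nat (.prod .nat (.prod .nat (.prod .arr .arr)))) (.prod .nat .arr)}
    (h : RzQ F₁ (fun _ _ x => (gmn x.1 x.2.2.1 x.2.2.2.2 + 1) * (x.1 + 1) ^ 2 + x.2.1)) :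
    RzQ (g1 F₁) (fun _ _ x => (gmn x.2.2.2.2.1 x.2.2.2.2.2.2.1 x.2.2.2.2.2.2.2.2.1 + 1) *
      (x.2.2.2.2.1 + 1) ^ 2 + x.2.2.2.2.2.1) := by
  have hp : RlzQ (a := I1) (b := .prod .nat (.prod .nat (.prod .nat (.prod .arr .arr))))
      (fun K _ x => (x.2.2.2.2.1, (x.2.2.2.2.2.1, (x.2.2.2.2.2.2.1, (x.2.2.2.2.2.2.2.1,
        x.2.2.2.2.2.2.2.2.1))))) (fun _ _ _ => 0) := by
    refine RlzQ.mono (g := fun _ _ _ => 0 + (0 + (0 + (0 + 0)))) (RlzQ.pair ?_ (RlzQ.pair ?_ (RlzQ.pair ?_ (RlzQ.pair ?_ ?_)))) 1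
      (fun K _ x => by simp)
    all_goals apply_rules (maxDepth := 1000) [RlzQ.fst, RlzQ.snd, RlzQ.input]
  exact (RzQ.comp h (RzQ.of hp)).mono 1 (fun K _ x => by simp)

theorem g2_rlz {F₂ : Fam (.prod .nat (.prod .nat (.prod .nat (.prod .nat (.prod .arr
    (.prod .arr .arr)))))) (.prod .arr .arr)}
    (h : RlzQ F₂ (fun _ _ x => (x.2.2.2.1 + 1) * (2 ^ x.1 + x.2.1 * 2 ^ x.2.2.1 +
      (x.2.2.2.1 + 1) ^ 2 + (x.2.2.2.1 + 1) * 2 ^ x.2.2.1) + 4 ^ x.2.2.1 + x.2.1)) :
    RzQ (g2 F₂) (fun _ _ y => (y.2.1 + 1) * (2 ^ y.1.1 + y.1.2.1 * 2 ^ y.1.2.2.2.1 +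
      (y.2.1 + 1) ^ 2 + (y.2.1 + 1) * 2 ^ y.1.2.2.2.1) + 4 ^ y.1.2.2.2.1 + y.1.2.1) := by
  have hp : RlzQ (a := .prod I1 (.prod .nat .arr))
      (b := .prod .nat (.prod .nat (.prod .nat (.prod .nat (.prod .arr (.prod .arr .arr))))))
      (fun K _ y => (y.1.1, (y.1.2.1, (y.1.2.2.2.1, (y.2.1, (y.2.2, (y.1.2.2.2.2.2.2.2.2.2.1,
        y.1.2.2.2.2.2.2.2.2.2.2))))))) (fun _ _ _ => 0) := by
    refine RlzQ.mono (g := fun _ _ _ => 0 + (0 + (0 + (0 + (0 + (0 + 0)))))) (RlzQ.pair ?_ (RlzQ.pair ?_ (RlzQ.pair ?_ (RlzQ.pair ?_ (RlzQ.pair ?_ (RlzQ.pair ?_ ?_)))))) 1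
      (fun K _ x => by simp)
    all_goals apply_rules (maxDepth := 1000) [RlzQ.fst, RlzQ.snd, RlzQ.input]
  exact RzQ.of ((RlzQ.comp h hp).mono 1 (fun K _ x => by simp))

theorem g3_rlz : RzQ g3 (fun _ _ z => z.1.2.1 * (z.1.1.2.2.1 + 1)) := by
  have h1 : RzQ (a := .prod (.prod I1 (.prod .nat .arr)) (.prod .arr .arr)) (b := .nat)
      (fun _ _ z => z.1.2.1) (fun _ _ _ => 0) := by
    refine RzQ.of ?_
    apply_rules (maxDepth := 1000) [RlzQ.fst, RlzQ.snd, RlzQ.input]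
  have h2 : RzQ (a := .prod (.prod I1 (.prod .nat .arr)) (.prod .arr .arr)) (b := .nat)
      (fun _ _ z => z.1.1.2.2.1) (fun _ _ _ => 0) := by
    refine RzQ.of ?_
    apply_rules (maxDepth := 1000) [RlzQ.fst, RlzQ.snd, RlzQ.input]
  have h3 : RzQ (a := .prod (.prod I1 (.prod .nat .arr)) (.prod .arr .arr)) (b := .arr)
      (fun _ _ z => z.2.2) (fun _ _ _ => 0) := by
    refine RzQ.of ?_
    apply_rules (maxDepth := 1000) [RlzQ.fst, RlzQ.snd, RlzQ.input]
  exact (RzQ.rootT h1 h2 h3).mono 1 (fun K _ x => by simp)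

theorem g4_rlz : RlzQ g4 (fun _ _ w => w.1.1.2.1) := by
  unfold g4
  apply RlzQ.mono
  case h =>
    apply_rules (maxDepth := 1000) [RlzQ.tab, RlzQ.add, RlzQ.mul, RlzQ.get, RlzQ.fst, RlzQ.snd,
      RlzQ.input, RlzQ.lit]
  case A => exact 1
  case hc =>
    intro K _ x
    simp

theorem g5_rlz {F₃ : Fam (.prod .nat (.prod .arr .arr)) .arr}
    (h : RlzQ F₃ (fun _ _ x => (x.1 + 1) ^ 3)) :
    RlzQ (g5 F₃) (fun _ _ w => (w.1.1.2.1 + 1) ^ 3) := by
  have h1 : RlzQ (a := .prod (.prod (.prod I1 (.prod .nat .arr)) (.prod .arr .arr)) .arr)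
      (b := .prod .nat (.prod .arr .arr)) (fun K _ w => (w.1.1.2.1, (g4 K w, w.2)))
      (fun _ _ w => w.1.1.2.1) := by
    refine RlzQ.mono (RlzQ.pair (cf := fun _ _ _ => 0) ?_
      (RlzQ.pair (cg := fun _ _ _ => 0) g4_rlz ?_)) 1 (fun K _ x => by simp)
    all_goals apply_rules (maxDepth := 1000) [RlzQ.fst, RlzQ.snd, RlzQ.input]
  refine (RlzQ.comp h h1).mono 2 (fun K _ x => ?_)
  dsimp only
  nlinarith [Nat.zero_le (x.1.1.2.1), Nat.zero_le (x.1.1.2.1 ^ 2), Nat.zero_le (x.1.1.2.1 ^ 3)]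

/-- the cost estimate -/
theorem cost_arith {n G d κ q e b p : ℕ} (h1 : n ≤ G) (h2 : n ≤ d) :
    (G + 1) * (d + 1) ^ 2 + p + ((n + 1) * (2 ^ κ + q * 2 ^ b + (n + 1) ^ 2 + (n + 1) * 2 ^ b) +
      4 ^ b + q) + n * (e + 1) + (n + 1) ^ 3 ≤
    4 * (((G + 1) * ((d + 1) ^ 2 + 2 ^ κ + q * 2 ^ b + (d + 1) * 2 ^ b) + 4 ^ b + q + p) *
      (e + 1) + 1) := by
  have hsq : (n + 1) ^ 2 ≤ (d + 1) ^ 2 := Nat.pow_le_pow_left (by omega) 2
  have h3 : (n + 1) * 2 ^ b ≤ (d + 1) * 2 ^ b := Nat.mul_le_mul_right _ (by omega)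
  have h7 : 1 ≤ (d + 1) ^ 2 := Nat.one_le_iff_ne_zero.2 (by positivity)
  have h7' : (n + 1) ^ 3 = (n + 1) * (n + 1) ^ 2 := by ring
  rw [h7']
  generalize 2 ^ κ = A
  generalize q * 2 ^ b = B
  generalize (n + 1) * 2 ^ b = B1 at h3 ⊢
  generalize (d + 1) * 2 ^ b = B2 at h3 ⊢
  generalize 4 ^ b = E
  generalize (n + 1) ^ 2 = n2 at hsq ⊢
  generalize (d + 1) ^ 2 = d2 at hsq h7 ⊢
  have h4 : (n + 1) * (A + B + n2 + B1) ≤ (G + 1) * (d2 + A + B + B2) :=
    Nat.mul_le_mul (by omega) (by omega)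
  have h5 : (G + 1) * d2 ≤ (G + 1) * (d2 + A + B + B2) := Nat.mul_le_mul_left _ (by omega)
  have h6 : (n + 1) * n2 ≤ (G + 1) * (d2 + A + B + B2) := Nat.mul_le_mul (by omega) (by omega)
  have h8 : (n + 1) * 1 ≤ (G + 1) * (d2 + A + B + B2) := Nat.mul_le_mul (by omega) (by omega)
  generalize (G + 1) * (d2 + A + B + B2) = T at h4 h5 h6 h8 ⊢
  have h9 : n * (e + 1) ≤ T * (e + 1) := Nat.mul_le_mul_right _ (by omega)
  have h10 : T + E + q + p ≤ (T + E + q + p) * (e + 1) :=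
    Nat.le_mul_of_pos_right _ (Nat.succ_pos e)
  have h11 : T * (e + 1) ≤ (T + E + q + p) * (e + 1) := Nat.mul_le_mul_right _ (by omega)
  generalize (T + E + q + p) * (e + 1) = U at h10 h11 ⊢
  generalize T * (e + 1) = U1 at h9 h11
  generalize n * (e + 1) = U2 at h9 ⊢
  generalize (G + 1) * d2 = U3 at h5 ⊢
  generalize (n + 1) * (A + B + n2 + B1) = U4 at h4 ⊢
  generalize (n + 1) * n2 = U5 at h6 ⊢
  omega

theorem outP1_rlz
    {F₁ : Fam (.prod .nat (.prod .nat (.prod .nat (.prod .arr .arr)))) (.prod .nat .arr)}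
    {F₂ : Fam (.prod .nat (.prod .nat (.prod .nat (.prod .nat (.prod .arr
      (.prod .arr .arr)))))) (.prod .arr .arr)}
    {F₃ : Fam (.prod .nat (.prod .arr .arr)) .arr}
    (h₁ : RzQ F₁ (fun _ _ x => (gmn x.1 x.2.2.1 x.2.2.2.2 + 1) * (x.1 + 1) ^ 2 + x.2.1))
    (h₁' : ∀ (K : Type) [Field K] (d p m : ℕ) (f rho : ℕ → K),
      m * (F₁ K (d, (p, (m, (f, rho))))).1 = gmn d m rho ∧
      (m = 0 → (F₁ K (d, (p, (m, (f, rho))))).1 = 0))
    (h₂ : RlzQ F₂ (fun _ _ x => (x.2.2.2.1 + 1) * (2 ^ x.1 + x.2.1 * 2 ^ x.2.2.1 +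
      (x.2.2.2.1 + 1) ^ 2 + (x.2.2.2.1 + 1) * 2 ^ x.2.2.1) + 4 ^ x.2.2.1 + x.2.1))
    (h₃ : RlzQ F₃ (fun _ _ x => (x.1 + 1) ^ 3)) :
    RzQ (outP1 F₁ F₂ F₃) (fun K _ x => cP1 (K := K) x.1 x.2.1 x.2.2.1 x.2.2.2.1 x.2.2.2.2.1
      x.2.2.2.2.2.1 x.2.2.2.2.2.2.1 x.2.2.2.2.2.2.2.2.1) := by
  have e1 := RzQ.ext (g1_rlz h₁)
  have e2 := RzQ.ext (g2_rlz h₂)
  have e3 := RzQ.ext g3_rlz
  have e4 := RzQ.ext (RzQ.of (g5_rlz h₃))
  have e5 : RzQ (a := .prod (.prod (.prod (.prod I1 (.prod .nat .arr)) (.prod .arr .arr)) .arr)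
      .arr) (b := .prod .nat (.prod .arr (.prod .arr (.prod .arr .arr))))
      (fun K _ u => (u.1.1.1.2.1, (u.1.1.1.2.2, (u.1.1.2.1, (u.1.2, u.2)))))
      (fun _ _ _ => 0) := by
    refine RzQ.of ?_
    refine RlzQ.mono (g := fun _ _ _ => 0 + (0 + (0 + (0 + 0)))) (RlzQ.pair ?_ (RlzQ.pair ?_ (RlzQ.pair ?_ (RlzQ.pair ?_ ?_)))) 1
      (fun K _ x => by simp)
    all_goals apply_rules (maxDepth := 1000) [RlzQ.fst, RlzQ.snd, RlzQ.input]
  refine (RzQ.comp e5 (RzQ.comp e4 (RzQ.comp e3 (RzQ.comp e2 e1)))).mono 4 (fun K _ x => ?_)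
  obtain ⟨κ, q, e, b, d, p, m, f, rho, s, ω⟩ := x
  have hn : (g1 F₁ K (κ, (q, (e, (b, (d, (p, (m, (f, (rho, (s, ω))))))))))).1 ≤ gmn d m rho ∧
      (g1 F₁ K (κ, (q, (e, (b, (d, (p, (m, (f, (rho, (s, ω))))))))))).1 ≤ d := by
    obtain ⟨a1, a2⟩ := h₁' K d p m f rho
    have h3 : gmn d m rho ≤ d := by
      unfold gmn
      split_ifs with h
      · exact h
      · exact Nat.zero_le _
    have h4 : (g1 F₁ K (κ, (q, (e, (b, (d, (p, (m, (f, (rho, (s, ω))))))))))).1 ≤
        gmn d m rho := by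
      change (F₁ K (d, (p, (m, (f, rho))))).1 ≤ _
      rcases Nat.eq_zero_or_pos m with h0 | h0
      · rw [a2 h0]; exact Nat.zero_le _
      · rw [← a1]; exact Nat.le_mul_of_pos_left _ h0
    exact ⟨h4, h4.trans h3⟩
  have key := cost_arith (κ := κ) (q := q) (e := e) (b := b) (p := p) hn.1 hn.2
  unfold cP1
  dsimp only at key ⊢
  omega

end FP1

open FP1

open Classical in
theorem p1_rlz :
    ∃ F : Fam (.prod .nat (.prod .nat (.prod .nat (.prod .nat (.prod .nat (.prod .nat (.prod .nat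
        (.prod .arr (.prod .arr (.prod .arr .arr))))))))))
      (.prod .nat (.prod .arr (.prod .arr (.prod .arr .arr)))),
    RzQ F (fun K _ x => cP1 (K := K) x.1 x.2.1 x.2.2.1 x.2.2.2.1 x.2.2.2.2.1 x.2.2.2.2.2.1
      x.2.2.2.2.2.2.1 x.2.2.2.2.2.2.2.2.1) ∧
    (∀ (K : Type) [Field K] (κ q e b d p m : ℕ) (f rho s ω : ℕ → K),
      CostOK d m rho (F K (κ, (q, (e, (b, (d, (p, (m, (f, (rho, (s, ω)))))))))))) ∧
    ∀ (K : Type) [Field K] (k : Type) [Field k] [IsAlgClosed k] [Algebra K k]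
      (κ e b d p m M₁ t : ℕ) [CharP K p] [Fact p.Prime] [PerfectRing K p] (f rho : ℕ → K)
      (ft : K[X][X]) (F' : Fin t → k[X][X]) (mm : Fin t → ℕ), ft.Monic → ft.natDegree = d →
      TD d ft → (∀ i < (d + 1) * (d + 1), f i = coeffs2 (d + 1) ft i) →
      (∀ i, (F' i).Monic ∧ TD (F' i).natDegree (F' i) ∧ Irreducible (F' i) ∧ 1 ≤ mm i) →
      ft.map (mapRingHom (algebraMap K k)) = ∏ i, F' i ^ mm i →
      (at0 (∏ i, F' i)).Separable → IsRho d (at0 (ft.map (mapRingHom (algebraMap K k)))) rho →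
      5 * d ^ 2 < 2 ^ κ → 2 ^ κ ≤ p ^ e * M₁ → 1 ≤ M₁ → M₁ ≤ p → M₁ ≤ 2 ^ b → 1 ≤ m →
      ((∀ i, mm i ≠ m) → ∀ s ω,
        (F K (κ, (p ^ e, (e, (b, (d, (p, (m, (f, (rho, (s, ω))))))))))).1 = 0) ∧
      ∀ n : ℕ, n = (∑ i with mm i = m, (F' i).natDegree) → 1 ≤ n →
        ∃ R : (Fin n × Fin (2 ^ κ - 3 * n) → K) → Prop,
          (∀ S : Finset K, ((Fintype.piFinset fun _ : Fin n × Fin (2 ^ κ - 3 * n) => S).filter
            fun Ω => ¬ R Ω).card * S.card ≤ n * S.card ^ (n * (2 ^ κ - 3 * n))) ∧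
          ∀ ω : ℕ → K, R (fun qq => ω (qq.1 * (2 ^ κ - 3 * n) + qq.2)) →
            ∀ S : Finset K, ((Fintype.piFinset fun _ : Fin n => S).filter fun s =>
              ¬ GoodOut (fun c : {i // mm i = m} => F' c) n
                (F K (κ, (p ^ e, (e, (b, (d, (p, (m, (f, (rho, (tape s, ω))))))))))) ).card *
                S.card ≤ n ^ 2 * S.card ^ n := by
  obtain ⟨F₁, h₁, h₁', h₁s⟩ := hm_rlz
  obtain ⟨F₂, h₂, h₂s⟩ := kh_rlz
  obtain ⟨F₃, h₃, h₃s⟩ := inv_rlz
  refine ⟨outP1 F₁ F₂ F₃, outP1_rlz h₁ h₁' h₂ h₃, ?_, ?_⟩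
  · intro K _ κ q e b d p m f rho s ω
    obtain ⟨a1, a2⟩ := h₁' K d p m f rho
    refine ⟨a1, a2, ?_⟩
    exact cost_blocks (h₃s K _ _ _)
  · intro K _ k _ _ _ κ e b d p m M₁ t _ _ _ f rho ft F' mm hfm hfd hTD hf hF hprod hsep hrho
      hκ hκe hM1 hMp hMb hm
    have hy : Hyp d t ft F' mm rho := ⟨hfm, hfd, hF, hprod, hsep, hrho⟩
    refine ⟨?_, ?_⟩
    · intro hno s ω
      change (F₁ K (d, (p, (m, (f, rho))))).1 = 0
      obtain ⟨a1, -⟩ := h₁' K d p m f rho
      have h0 : ∑ i with mm i = m, (F' i).natDegree = 0 := by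
        rw [Finset.filter_false_of_mem (fun i _ => hno i), Finset.sum_empty]
      rw [hy.gmn hm, h0, mul_zero] at a1
      rcases Nat.mul_eq_zero.1 a1 with h | h
      · omega
      · exact h
    · intro n hn hn1
      obtain ⟨hk, Q, ρ₁, ρ₂, hke, hkm, hQm, hp1, hkd, hkTD, hcop, hρ1, hρ2, hρ, hρd, hc1, hc2⟩ :=
        hy.part hm hn hn1
      obtain ⟨o1, o2⟩ := h₁s K d p m n f rho ft k hk Q ρ₁ ρ₂ hfm hfd hTD hf hm hkm hQm hp1 hkd
        hn1 hkTD hcop hρ1 hρ2 hρ hρd hc1 hc2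
      set v1 := F₁ K (d, (p, (m, (f, rho)))) with hv1
      obtain ⟨n1, h⟩ := v1
      dsimp only at o1 o2
      subst o1
      have hmap := map_poly2 hkd hkTD o2
      have hpm : (poly2 n1 h).Monic := monic_of_map (k := k) (by rw [hmap]; exact hkm)
      have hpd : (poly2 n1 h).natDegree = n1 := by rw [← natDegree_map2 (k := k), hmap, hkd]
      have hpTD : TD n1 (poly2 n1 h) := TD_of_map (k := k) (by rw [hmap]; exact hkTD)
      have hprodk : hk = ∏ c : {i // mm i = m}, F' c := by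
        rw [hke, ← Finset.prod_subtype_eq_prod_filter]
        simp
      have hpsep : (at0 (poly2 n1 h)).Separable := by
        rw [← separable_map (algebraMap K k), ← at0_map', hmap]
        have h1 := hy.sep
        refine h1.of_dvd ?_
        rw [hke, at0_prod, at0_prod]
        exact Finset.prod_dvd_prod_of_subset _ _ _ (Finset.filter_subset _ _)
      have hnd : n1 ≤ d := by
        conv_rhs => rw [← hy.sum_eq]
        rw [hn]
        refine (Finset.sum_le_sum (g := fun i => mm i * (F' i).natDegree) fun i _ => ?_).trans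
          (Finset.sum_le_sum_of_subset (Finset.filter_subset _ _))
        exact Nat.le_mul_of_pos_left _ (hF i).2.2.2
      have hκn : 5 * n1 ^ 2 < 2 ^ κ := lt_of_le_of_lt (by gcongr) hκ
      obtain ⟨b1, R, b2, b3⟩ := h₂s K k p κ e b n1 M₁ h (poly2 n1 h) hn1 hpTD hpm hpd hpsep hκn
        hκe hM1 hMp hMb (fun i hi => coeffs2_poly2 n1 h hi) {i // mm i = m} (fun c => F' c)
        (fun c => ⟨(hF _).1, (hF _).2.2.1⟩) (by rw [hmap, hprodk])
      refine ⟨R, b2, fun ω hω S => ?_⟩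
      have hcard : Fintype.card {i // mm i = m} ≤ n1 := by
        rw [Fintype.card_subtype, hn, Finset.card_eq_sum_ones]
        exact Finset.sum_le_sum fun i _ => hy.deg_pos i
      refine le_trans ?_ ((b3 ω hω S).trans (Nat.mul_le_mul_right _
        (Nat.pow_le_pow_left hcard 2)))
      refine Nat.mul_le_mul_right _ (Finset.card_le_card fun s hs => ?_)
      rw [Finset.mem_filter] at hs ⊢
      refine ⟨hs.1, fun hval => hs.2 ?_⟩
      have hv := b1 (tape s) ω
      have hg := hy.good (p := p) (e := e) (h := h) (S := F₃ K (n1, (tabF n1 fun j =>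
          h (j * (n1 + 1)), rootT n1 e (F₂ K (κ, (p ^ e, (b, (n1, (h, (tape s, ω))))))).2)))
        hn rfl (by rw [← hke]; exact hkTD) (by rw [← hke]; exact o2) hv
        (h₃s K _ _ _).1 hval
      have hg1 : g1 F₁ K (κ, (p ^ e, (e, (b, (d, (p, (m, (f, (rho, (tape s, ω)))))))))) =
          (n1, h) := hv1.symm
      unfold outP1
      rw [hg1]
      exact hg

end Pool.Agent.AbsIrr
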