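import Pool.Agent.Lib.MP_2adc98_lc.FDefs
import Pool.Agent.Lib.MP_2adc98_lc.PR

/-!
# MP_2adc98_lc, piece FB: the substitution `f(x + a y + b, y)` for several polynomials at once
-/

set_option autoImplicit false

namespace Pool.Agent.AbsIrr

open Finset Polynomial

namespace FB

/-- `f(x+b,y)` for all blocks -/
def one (K : Type) [Field K] (r d : ℕ) (B P A : ℕ → K) : ℕ → K :=
  tabF (r * ((d + 1) * (d + 1))) (fun n => ∑ k ∈ range (d + 1),
    A ((d + 1) * (n / (d + 1)) + k) * (B ((d + 1) * k + n % (d + 1)) * P (k - n % (d + 1))))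

/-- `f(x+ay,y)` for all blocks -/
def two (K : Type) [Field K] (r d : ℕ) (B P A : ℕ → K) : ℕ → K :=
  tabF (r * ((d + 1) * (d + 1))) (fun n => ∑ m ∈ range (d + 1),
    if m ≤ (n / (d + 1)) % (d + 1) + n % (d + 1) then
      (if (n / (d + 1)) % (d + 1) + n % (d + 1) ≤ d + m then
        A ((d + 1) * ((d + 1) * (n / (d + 1) / (d + 1)) +
          ((n / (d + 1)) % (d + 1) + n % (d + 1) - m)) + m) *
        (B ((d + 1) * m + n % (d + 1)) * P (m - n % (d + 1)))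
      else 0)
    else 0)

theorem cost (r n : ℕ) :
    r * ((n + 1) * (n + 1)) + r * ((n + 1) * (n + 1)) * (n + 1 + (n + 1)) ≤
      30 * ((r + 1) * (n + 1) ^ 3 + 1) := by
  have h1 : (n + 1) ^ 2 ≤ (n + 1) ^ 3 := Nat.pow_le_pow_right (by omega) (by norm_num)
  have h2 : r * ((n + 1) * (n + 1)) ≤ r * (n + 1) ^ 3 :=
    Nat.mul_le_mul_left _ (by rw [← pow_two]; exact h1)
  have h3 : r * ((n + 1) * (n + 1)) * (n + 1 + (n + 1)) = 2 * (r * (n + 1) ^ 3) := by ring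
  rw [h3]
  nlinarith

theorem one_rlz : RlzQ (a := .prod .nat (.prod .nat (.prod .arr (.prod .arr .arr)))) (b := .arr)
    (fun K _ x => one K x.1 x.2.1 x.2.2.1 x.2.2.2.1 x.2.2.2.2)
    (fun _ _ x => (x.1 + 1) * (x.2.1 + 1) ^ 3) := by
  unfold one
  apply RlzQ.mono
  case h =>
    apply_rules (maxDepth := 1000) [RlzQ.tab, RlzQ.sum, RlzQ.add, RlzQ.sub, RlzQ.mul, RlzQ.div,
      RlzQ.mod, RlzQ.fmul, RlzQ.get, RlzQ.fst, RlzQ.snd, RlzQ.input, RlzQ.lit]
  case A => exact 30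
  case hc =>
    intro K _ x
    simp only [Finset.sum_const_zero, add_zero, zero_add, Finset.sum_const, card_range, smul_eq_mul]
    refine le_trans ?_ (cost x.1 x.2.1)
    gcongr
    · exact Nat.le_add_right _ _
    · exact Nat.le_add_left _ _

theorem two_rlz : RlzQ (a := .prod .nat (.prod .nat (.prod .arr (.prod .arr .arr)))) (b := .arr)
    (fun K _ x => two K x.1 x.2.1 x.2.2.1 x.2.2.2.1 x.2.2.2.2)
    (fun _ _ x => (x.1 + 1) * (x.2.1 + 1) ^ 3) := by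
  unfold two
  apply RlzQ.mono
  case h =>
    apply_rules (maxDepth := 1000) [RlzQ.tab, RlzQ.sum, RlzQ.iteLe, RlzQ.add, RlzQ.sub, RlzQ.mul,
      RlzQ.div, RlzQ.mod, RlzQ.fmul, RlzQ.get, RlzQ.fst, RlzQ.snd, RlzQ.input, RlzQ.lit, RlzQ.zero]
  case A => exact 30
  case hc =>
    intro K _ x
    simp only [Finset.sum_const_zero, add_zero, zero_add, Finset.sum_const, card_range, smul_eq_mul,
      ite_self]
    refine le_trans ?_ (cost x.1 x.2.1)
    gcongr
    · exact Nat.le_add_right _ _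
    · exact Nat.le_add_left _ _

/-- the routine -/
def shift (K : Type) [Field K] (r d : ℕ) (a b : K) (A : ℕ → K) : ℕ → K :=
  two K r d (binT K d) (prPow K d a) (one K r d (binT K d) (prPow K d b) A)

theorem shift_rlz : RlzQ (a := .prod .nat (.prod .nat (.prod .fld (.prod .fld .arr))))
    (b := .arr) (fun K _ x => shift K x.1 x.2.1 x.2.2.1 x.2.2.2.1 x.2.2.2.2)
    (fun _ _ x => (x.1 + 1) * (x.2.1 + 1) ^ 3) := by
  have h1 : RlzQ (a := .prod .nat (.prod .nat (.prod .fld (.prod .fld .arr)))) (b := .arr)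
      (fun K _ x => binT K x.2.1) (fun _ _ x => (0 + x.2.1 ^ 3)) :=
    RlzQ.binT (RlzQ.fst (RlzQ.snd RlzQ.input))
  have h2 : RlzQ (a := .prod .nat (.prod .nat (.prod .fld (.prod .fld .arr)))) (b := .arr)
      (fun K _ x => prPow K x.2.1 x.2.2.1) (fun _ _ x => (0 + 0) + x.2.1 ^ 2) :=
    RlzQ.comp prPow_rlz (RlzQ.pair (RlzQ.fst (RlzQ.snd RlzQ.input))
      (RlzQ.fst (RlzQ.snd (RlzQ.snd RlzQ.input))))
  have h3 : RlzQ (a := .prod .nat (.prod .nat (.prod .fld (.prod .fld .arr)))) (b := .arr)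
      (fun K _ x => prPow K x.2.1 x.2.2.2.1) (fun _ _ x => (0 + 0) + x.2.1 ^ 2) :=
    RlzQ.comp prPow_rlz (RlzQ.pair (RlzQ.fst (RlzQ.snd RlzQ.input))
      (RlzQ.fst (RlzQ.snd (RlzQ.snd (RlzQ.snd RlzQ.input)))))
  have h4 := RlzQ.comp one_rlz
    (RlzQ.pair (a := .prod .nat (.prod .nat (.prod .fld (.prod .fld .arr))))
      (RlzQ.fst RlzQ.input) (RlzQ.pair (RlzQ.fst (RlzQ.snd RlzQ.input)) (RlzQ.pair h1
        (RlzQ.pair h3 (RlzQ.snd (RlzQ.snd (RlzQ.snd (RlzQ.snd RlzQ.input))))))))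
  have h5 := RlzQ.comp two_rlz
    (RlzQ.pair (a := .prod .nat (.prod .nat (.prod .fld (.prod .fld .arr))))
      (RlzQ.fst RlzQ.input) (RlzQ.pair (RlzQ.fst (RlzQ.snd RlzQ.input)) (RlzQ.pair h1
        (RlzQ.pair h2 h4))))
  refine h5.mono 30 (fun K _ x => ?_)
  have : ∀ r n : ℕ, 0 + (0 + (0 + n ^ 3 + (0 + 0 + n ^ 2 + (0 + (0 + (0 + n ^ 3 +
      (0 + 0 + n ^ 2 + 0))) + (r + 1) * (n + 1) ^ 3)))) + (r + 1) * (n + 1) ^ 3 ≤
      30 * ((r + 1) * (n + 1) ^ 3 + 1) := by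
    intro r n
    have e1 : n ^ 3 ≤ (n + 1) ^ 3 := Nat.pow_le_pow_left (by omega) 3
    have e2 : n ^ 2 ≤ (n + 1) ^ 3 := (Nat.pow_le_pow_left (by omega) 2).trans
      (Nat.pow_le_pow_right (by omega) (by norm_num))
    have e3 : (n + 1) ^ 3 ≤ (r + 1) * (n + 1) ^ 3 := Nat.le_mul_of_pos_left _ (by omega)
    omega
  exact this x.1 x.2.1

/-! ### specification -/

theorem lt_len {r d l j i : ℕ} (hl : l < r) (hj : j ≤ d) (hi : i ≤ d) :
    (l * (d + 1) + j) * (d + 1) + i < r * ((d + 1) * (d + 1)) := by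
  have h1 : l * (d + 1) + j + 1 ≤ (l + 1) * (d + 1) := by
    rw [Nat.add_mul]; omega
  have h2 : (l * (d + 1) + j + 1) * (d + 1) ≤ (l + 1) * (d + 1) * (d + 1) :=
    Nat.mul_le_mul_right _ h1
  have h3 : (l + 1) * (d + 1) * (d + 1) ≤ r * (d + 1) * (d + 1) :=
    Nat.mul_le_mul_right _ (Nat.mul_le_mul_right _ hl)
  have h4 : (l * (d + 1) + j + 1) * (d + 1) = (l * (d + 1) + j) * (d + 1) + (d + 1) := by ring
  rw [← mul_assoc]
  omega

theorem div1 {d m i : ℕ} (hi : i ≤ d) : (m * (d + 1) + i) / (d + 1) = m := by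
  rw [mul_comm, Nat.mul_add_div (by omega), Nat.div_eq_of_lt (by omega), add_zero]

theorem mod1 {d m i : ℕ} (hi : i ≤ d) : (m * (d + 1) + i) % (d + 1) = i := by
  rw [mul_comm, Nat.mul_add_mod, Nat.mod_eq_of_lt (by omega)]

theorem wb {K : Type} [Field K] {d : ℕ} {f : K[X][X]}
    (h : f.natDegree ≤ d ∧ ∀ j, (f.coeff j).natDegree ≤ d) : prWB d f := by
  intro j k hjk
  have h1 : f.coeff j ≠ 0 := by
    intro h0
    rw [h0] at hjk
    simp at hjk
  exact ⟨(le_natDegree_of_ne_zero h1).trans h.1, (le_natDegree_of_ne_zero hjk).trans (h.2 j)⟩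

theorem one_spec {K : Type} [Field K] {r d : ℕ} {G : ℕ → K[X][X]} (h : ∀ l < r, prWB d (G l))
    (b : K) {A : ℕ → K}
    (hA : ∀ l < r, ∀ j ≤ d, ∀ i ≤ d, A ((l * (d + 1) + j) * (d + 1) + i) =
      ((G l).coeff j).coeff i) {l j i : ℕ} (hl : l < r) (hj : j ≤ d) (hi : i ≤ d) :
    one K r d (binT K d) (prPow K d b) A ((l * (d + 1) + j) * (d + 1) + i) =
      ((shf 0 b (G l)).coeff j).coeff i := by
  unfold one tabF
  rw [if_pos (lt_len hl hj hi), prOne_coeff (h l hl)]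
  beta_reduce
  refine Finset.sum_congr rfl fun k hk => ?_
  have hk' := Finset.mem_range.1 hk
  rw [div1 hi, mod1 hi, mul_comm (d + 1) (l * (d + 1) + j), hA l hl j hj k (by omega),
    pr_binT hk' (by omega), pr_prPow b (by omega)]

theorem two_spec {K : Type} [Field K] {r d : ℕ} {G : ℕ → K[X][X]} (h : ∀ l < r, prWB d (G l))
    (a : K) {A : ℕ → K}
    (hA : ∀ l < r, ∀ j ≤ d, ∀ i ≤ d, A ((l * (d + 1) + j) * (d + 1) + i) =
      ((G l).coeff j).coeff i) {l j i : ℕ} (hl : l < r) (hj : j ≤ d) (hi : i ≤ d) :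
    two K r d (binT K d) (prPow K d a) A ((l * (d + 1) + j) * (d + 1) + i) =
      ((shf a 0 (G l)).coeff j).coeff i := by
  unfold two tabF
  rw [if_pos (lt_len hl hj hi), prTwo_coeff (h l hl)]
  beta_reduce
  refine Finset.sum_congr rfl fun k hk => ?_
  have hk' := Finset.mem_range.1 hk
  rw [div1 hi, mod1 hi, div1 hj, mod1 hj]
  by_cases h1 : k ≤ j + i
  · rw [if_pos h1, if_pos h1]
    by_cases h2 : j + i ≤ d + k
    · rw [if_pos h2]
      have e : (d + 1) * ((d + 1) * l + (j + i - k)) + k =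
          (l * (d + 1) + (j + i - k)) * (d + 1) + k := by ring
      rw [e, hA l hl (j + i - k) (by omega) k (by omega), pr_binT hk' (by omega),
        pr_prPow a (by omega)]
    · rw [if_neg h2]
      have : ((G l).coeff (j + i - k)).coeff k = 0 := by
        by_contra hne
        have := (h l hl _ k hne).1
        omega
      rw [this, zero_mul]
  · rw [if_neg h1, if_neg h1]

end FB

theorem bshift_rlz : ∃ F : Fam (.prod .nat (.prod .nat (.prod .fld (.prod .fld .arr)))) .arr,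
    RlzQ F (fun _ _ x => (x.1 + 1) * (x.2.1 + 1) ^ 3) ∧
    ∀ (K : Type) [Field K] (r δ : ℕ) (a b : K) (A : ℕ → K) (G : ℕ → K[X][X]),
      (∀ l < r, (G l).natDegree ≤ δ ∧ ∀ j, ((G l).coeff j).natDegree ≤ δ) →
      (∀ l < r, ∀ j ≤ δ, ∀ i ≤ δ, A ((l * (δ + 1) + j) * (δ + 1) + i) =
        ((G l).coeff j).coeff i) →
      ∀ l < r, ∀ j ≤ δ, ∀ i ≤ δ, F K (r, (δ, (a, (b, A)))) ((l * (δ + 1) + j) * (δ + 1) + i) =
        ((shf a b (G l)).coeff j).coeff i := by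
  refine ⟨_, FB.shift_rlz, fun K _ r δ a b A G hG hA l hl j hj i hi => ?_⟩
  have h : ∀ l < r, prWB δ (G l) := fun l hl => FB.wb (hG l hl)
  have h1 : shf a b (G l) = shf a 0 (shf 0 b (G l)) := by
    rw [shf_eq, shf_eq, shf_eq, prHom_comp]
  rw [h1]
  exact FB.two_spec (G := fun l => shf 0 b (G l)) (fun l hl => prWB_shf (h l hl) b) a
    (fun l hl j hj i hi => FB.one_spec h b hA hl hj hi) hl hj hi

end Pool.Agent.AbsIrr
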