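import Mathlib
import Pool.Agent.Lib.MP_2adc98_lc.FDefs2
import Pool.Agent.Lib.MP_2adc98_lc.FA

/-!
# MP_2adc98_lc, stage 2: the printed value, from the specifications of its parts
-/

set_option autoImplicit false

namespace Pool.Agent.AbsIrr

open Finset Polynomial

namespace FP3

section defs
variable {K : Type} [Field K]

/-- the coefficients of `h(0, y)` -/
noncomputable def gA (n : ℕ) (h : ℕ → K) : ℕ → K := tabF n (fun j => h (j * (n + 1)))

/-- the monic polynomial of degree `δ` in `y` as a family of `r` polynomials -/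
noncomputable def arrA (r δ : ℕ) (P : ℕ → K) : ℕ → K :=
  tabF (r * ((δ + 1) * (δ + 1))) (fun N =>
    if N % ((δ + 1) * (δ + 1)) < δ * (δ + 1) then
      P (N % ((δ + 1) * (δ + 1)) * r + N / ((δ + 1) * (δ + 1)))
    else if N = δ * (δ + 1) then 1 else 0)

/-- the monic polynomial of degree `r` -/
noncomputable def outQ (r : ℕ) (q : ℕ → K) : ℕ → K :=
  tabF (r + 1) (fun l => if l < r then q l else 1)

/-- change of the block lengths -/
noncomputable def outF (r d δ : ℕ) (B : ℕ → K) : ℕ → K :=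
  tabF (r * ((d + 1) * (d + 1))) (fun N =>
    if N / (d + 1) % (d + 1) ≤ δ then
      (if N % (d + 1) ≤ δ then
        B ((N / (d + 1) / (d + 1) * (δ + 1) + N / (d + 1) % (d + 1)) * (δ + 1) + N % (d + 1))
        else 0)
      else 0)

theorem arrA_apply {r δ : ℕ} {P : ℕ → K} {l j i : ℕ} (hl : l < r) (hj : j ≤ δ) (hi : i ≤ δ) :
    arrA r δ P ((l * (δ + 1) + j) * (δ + 1) + i) =
      if j < δ then P ((j * (δ + 1) + i) * r + l) else if l = 0 ∧ i = 0 then 1 else 0 := by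
  have e1 : (l * (δ + 1) + j) * (δ + 1) + i = (δ + 1) * (δ + 1) * l + (j * (δ + 1) + i) := by ring
  have h1 : j * (δ + 1) + i < (δ + 1) * (δ + 1) := by
    calc j * (δ + 1) + i < j * (δ + 1) + (δ + 1) := by omega
      _ = (j + 1) * (δ + 1) := by ring
      _ ≤ (δ + 1) * (δ + 1) := Nat.mul_le_mul_right _ (by omega)
  have h0 : 0 < (δ + 1) * (δ + 1) := by positivity
  have e2 : ((l * (δ + 1) + j) * (δ + 1) + i) % ((δ + 1) * (δ + 1)) = j * (δ + 1) + i := by
    rw [e1, Nat.mul_add_mod, Nat.mod_eq_of_lt h1]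
  have e3 : ((l * (δ + 1) + j) * (δ + 1) + i) / ((δ + 1) * (δ + 1)) = l := by
    rw [e1, Nat.mul_add_div h0, Nat.div_eq_of_lt h1, add_zero]
  have h2 : (l * (δ + 1) + j) * (δ + 1) + i < r * ((δ + 1) * (δ + 1)) := by
    rw [e1]
    calc (δ + 1) * (δ + 1) * l + (j * (δ + 1) + i) <
          (δ + 1) * (δ + 1) * l + (δ + 1) * (δ + 1) := by omega
      _ = (l + 1) * ((δ + 1) * (δ + 1)) := by ring
      _ ≤ r * ((δ + 1) * (δ + 1)) := Nat.mul_le_mul_right _ (by omega)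
  unfold arrA tabF
  rw [if_pos h2]
  beta_reduce
  rw [e2, e3]
  rcases Nat.lt_or_ge j δ with h | h
  · rw [if_pos h, if_pos]
    calc j * (δ + 1) + i < j * (δ + 1) + (δ + 1) := by omega
      _ = (j + 1) * (δ + 1) := by ring
      _ ≤ δ * (δ + 1) := Nat.mul_le_mul_right _ (by omega)
  · have hj' : j = δ := le_antisymm hj h
    rw [if_neg (show ¬ j * (δ + 1) + i < δ * (δ + 1) by rw [hj']; omega),
      if_neg (show ¬ j < δ by omega)]
    refine if_congr ?_ rfl rfl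
    rw [e1, hj']
    constructor
    · intro h3
      rcases Nat.eq_zero_or_pos l with h4 | h4
      · rw [h4] at h3; omega
      · have : (δ + 1) * (δ + 1) ≤ (δ + 1) * (δ + 1) * l := Nat.le_mul_of_pos_right _ h4
        have h5 : 0 < δ * (δ + 1) ∨ δ = 0 := by
          rcases Nat.eq_zero_or_pos δ with h6 | h6
          · right; exact h6
          · left; positivity
        omega
    · rintro ⟨h3, h4⟩
      rw [h3, h4]; ring

theorem outF_apply {r d δ : ℕ} {B : ℕ → K} {l j i : ℕ} (hl : l < r) (hj : j ≤ d) (hi : i ≤ d) :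
    outF r d δ B ((l * (d + 1) + j) * (d + 1) + i) =
      if j ≤ δ then (if i ≤ δ then B ((l * (δ + 1) + j) * (δ + 1) + i) else 0) else 0 := by
  have e1 : ((l * (d + 1) + j) * (d + 1) + i) / (d + 1) = l * (d + 1) + j := by
    rw [mul_comm, Nat.mul_add_div (by omega), Nat.div_eq_of_lt (by omega), add_zero]
  have e2 : ((l * (d + 1) + j) * (d + 1) + i) % (d + 1) = i := by
    rw [mul_comm, Nat.mul_add_mod, Nat.mod_eq_of_lt (by omega)]
  have e3 : (l * (d + 1) + j) / (d + 1) = l := by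
    rw [mul_comm, Nat.mul_add_div (by omega), Nat.div_eq_of_lt (by omega), add_zero]
  have e4 : (l * (d + 1) + j) % (d + 1) = j := by
    rw [mul_comm, Nat.mul_add_mod, Nat.mod_eq_of_lt (by omega)]
  have h2 : (l * (d + 1) + j) * (d + 1) + i < r * ((d + 1) * (d + 1)) := by
    calc (l * (d + 1) + j) * (d + 1) + i < (l * (d + 1) + d) * (d + 1) + (d + 1) := by
          have := Nat.mul_le_mul_right (d + 1) (show l * (d + 1) + j ≤ l * (d + 1) + d by omega)
          omega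
      _ = (l + 1) * ((d + 1) * (d + 1)) := by ring
      _ ≤ r * ((d + 1) * (d + 1)) := Nat.mul_le_mul_right _ (by omega)
  unfold outF tabF
  rw [if_pos h2]
  beta_reduce
  rw [e1, e2, e3, e4]

theorem outF_zero {r d δ : ℕ} {B : ℕ → K} {l j i : ℕ} (hl : r ≤ l) :
    outF r d δ B ((l * (d + 1) + j) * (d + 1) + i) = 0 := by
  unfold outF tabF
  rw [if_neg]
  have : r * ((d + 1) * (d + 1)) ≤ l * ((d + 1) * (d + 1)) := Nat.mul_le_mul_right _ hl
  nlinarith

end defs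

/-! ### costs -/

theorem numc_rlz : RlzQ (a := .prod .nat (.prod .nat .arr)) (b := .nat)
    (fun K _ x => numc x.1 x.2.1 (x.2.2 : ℕ → K)) (fun _ _ x => x.1) := by
  unfold numc
  apply RlzQ.mono
  case h =>
    apply_rules (maxDepth := 1000) [RlzQ.adeg, RlzQ.blkA, RlzQ.add, RlzQ.sub, RlzQ.lit,
      RlzQ.fst, RlzQ.snd, RlzQ.input]
  case A => exact 8
  case hc =>
    intro K _ x
    omega

theorem gA_rlz : RlzQ (a := .prod .nat .arr) (b := .arr)
    (fun K _ x => gA x.1 (x.2 : ℕ → K)) (fun _ _ x => x.1) := by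
  unfold gA
  apply RlzQ.mono
  case h =>
    apply_rules (maxDepth := 1000) [RlzQ.tab, RlzQ.get, RlzQ.add, RlzQ.mul, RlzQ.lit,
      RlzQ.fst, RlzQ.snd, RlzQ.input]
  case A => exact 2
  case hc => intro K _ x; simp; omega

theorem arrA_rlz : RlzQ (a := .prod .nat (.prod .nat .arr)) (b := .arr)
    (fun K _ x => arrA x.1 x.2.1 (x.2.2 : ℕ → K)) (fun _ _ x => x.1 * (x.2.1 + 1) ^ 2) := by
  unfold arrA
  apply RlzQ.mono
  case h =>
    apply_rules (maxDepth := 1000) [RlzQ.tab, RlzQ.iteLt, RlzQ.iteEq, RlzQ.get, RlzQ.add,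
      RlzQ.mul, RlzQ.div, RlzQ.mod, RlzQ.lit, RlzQ.one, RlzQ.zero, RlzQ.fst, RlzQ.snd,
      RlzQ.input]
  case A => exact 2
  case hc =>
    intro K _ x
    simp only [Finset.sum_const_zero, add_zero, zero_add, ite_self]
    nlinarith

theorem outQ_rlz : RlzQ (a := .prod .nat .arr) (b := .arr)
    (fun K _ x => outQ x.1 (x.2 : ℕ → K)) (fun _ _ x => x.1) := by
  unfold outQ
  apply RlzQ.mono
  case h =>
    apply_rules (maxDepth := 1000) [RlzQ.tab, RlzQ.iteLt, RlzQ.get, RlzQ.add, RlzQ.lit, RlzQ.one,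
      RlzQ.fst, RlzQ.snd, RlzQ.input]
  case A => exact 2
  case hc =>
    intro K _ x
    simp only [Finset.sum_const_zero, add_zero, zero_add, ite_self]
    omega

theorem outF_rlz : RlzQ (a := .prod .nat (.prod .nat (.prod .nat .arr))) (b := .arr)
    (fun K _ x => outF x.1 x.2.1 x.2.2.1 (x.2.2.2 : ℕ → K))
    (fun _ _ x => x.1 * (x.2.1 + 1) ^ 2) := by
  unfold outF
  apply RlzQ.mono
  case h =>
    apply_rules (maxDepth := 1000) [RlzQ.tab, RlzQ.iteLe, RlzQ.get, RlzQ.add, RlzQ.mul, RlzQ.div,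
      RlzQ.mod, RlzQ.lit, RlzQ.zero, RlzQ.fst, RlzQ.snd, RlzQ.input]
  case A => exact 2
  case hc =>
    intro K _ x
    simp only [Finset.sum_const_zero, add_zero, zero_add, ite_self]
    nlinarith

/-- the input: `(d, (a, (b, (n, (h, (v₀, (H, (S, δ))))))))` -/
abbrev T : Ty := .prod .nat (.prod .fld (.prod .fld (.prod .nat (.prod .arr (.prod .arr
        (.prod .arr (.prod .arr .nat)))))))

variable
  (Fs : Fam (.prod .nat (.prod .arr (.prod .arr (.prod .arr .nat))))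
      (.prod .nat (.prod .arr .arr)))
  (Fl : Fam (.prod .nat (.prod .arr (.prod .arr (.prod .nat (.prod .nat (.prod .arr .arr))))))
      .arr)
  (Fb : Fam (.prod .nat (.prod .nat (.prod .fld (.prod .fld .arr)))) .arr)

/-- the number of classes -/
noncomputable def fR : Fam T .nat := fun _ _ x => numc x.2.2.2.1 x.2.2.2.2.2.2.2.2 x.2.2.2.2.2.2.2.1

/-- the splitting -/
noncomputable def fS : Fam T (.prod .nat (.prod .arr .arr)) := fun K _ x =>
  Fs K (x.2.2.2.1, (gA x.2.2.2.1 (x.2.2.2.2.1 : ℕ → K), (x.2.2.2.2.2.2.1, (x.2.2.2.2.2.2.2.1,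
    x.2.2.2.2.2.2.2.2))))

/-- the lifted factors -/
noncomputable def fL : Fam T .arr := fun K _ x =>
  Fl K (x.2.2.2.1, (x.2.2.2.2.1, (x.2.2.2.2.2.1, (x.2.2.2.2.2.2.2.2, (fR K x,
    ((fS Fs K x).2.1, (fS Fs K x).2.2))))))

/-- the lifted factors with the leading coefficient -/
noncomputable def fA : Fam T .arr := fun K _ x =>
  arrA (fR K x) x.2.2.2.2.2.2.2.2 (fL Fs Fl K x)

/-- the substitution -/
noncomputable def fB : Fam T .arr := fun K _ x =>
  Fb K (fR K x, (x.2.2.2.2.2.2.2.2, (-(x.2.1 : K), (-(x.2.2.1 : K), fA Fs Fl K x))))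

/-- the output -/
noncomputable def fO : Fam T (.prod .arr .arr) := fun K _ x =>
  (outQ (fR K x) (fS Fs K x).2.1, outF (fR K x) x.1 x.2.2.2.2.2.2.2.2 (fB Fs Fl Fb K x))

variable {Fs Fl Fb}

theorem fR_rlz : RlzQ fR (fun _ _ x => x.2.2.2.1) := by
  refine (RlzQ.comp numc_rlz (RlzQ.pair
    (RlzQ.fst (RlzQ.snd (RlzQ.snd (RlzQ.snd RlzQ.input)))) (RlzQ.pair
    (RlzQ.snd (RlzQ.snd (RlzQ.snd (RlzQ.snd (RlzQ.snd (RlzQ.snd (RlzQ.snd (RlzQ.snd
      RlzQ.input))))))))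
    (RlzQ.fst (RlzQ.snd (RlzQ.snd (RlzQ.snd (RlzQ.snd (RlzQ.snd (RlzQ.snd (RlzQ.snd
      RlzQ.input))))))))))).mono 1 (fun K _ x => ?_)
  simp

theorem fS_rlz (hs : RlzQ Fs (fun _ _ x => (x.2.2.2.2 * numc x.1 x.2.2.2.2 x.2.2.2.1 + 1) *
      (x.1 + 1) ^ 2)) :
    RlzQ (fS Fs) (fun K _ x => (x.2.2.2.2.2.2.2.2 * fR K x + 1) * (x.2.2.2.1 + 1) ^ 2) := by
  have hg : RlzQ (a := T) (b := .arr) (fun K _ x => gA x.2.2.2.1 (x.2.2.2.2.1 : ℕ → K))
      (fun _ _ x => x.2.2.2.1) :=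
    (RlzQ.comp gA_rlz (RlzQ.pair
      (RlzQ.fst (RlzQ.snd (RlzQ.snd (RlzQ.snd RlzQ.input))))
      (RlzQ.fst (RlzQ.snd (RlzQ.snd (RlzQ.snd (RlzQ.snd RlzQ.input))))))).mono 1
      (fun K _ x => by simp)
  refine (RlzQ.comp hs (RlzQ.pair
    (RlzQ.fst (RlzQ.snd (RlzQ.snd (RlzQ.snd RlzQ.input)))) (RlzQ.pair hg (RlzQ.pair
    (RlzQ.fst (RlzQ.snd (RlzQ.snd (RlzQ.snd (RlzQ.snd (RlzQ.snd (RlzQ.snd RlzQ.input)))))))
    (RlzQ.pair
    (RlzQ.fst (RlzQ.snd (RlzQ.snd (RlzQ.snd (RlzQ.snd (RlzQ.snd (RlzQ.snd (RlzQ.snd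
      RlzQ.input))))))))
    (RlzQ.snd (RlzQ.snd (RlzQ.snd (RlzQ.snd (RlzQ.snd (RlzQ.snd (RlzQ.snd (RlzQ.snd
      RlzQ.input))))))))))))).mono 2 (fun K _ x => ?_)
  dsimp only
  rw [show numc x.2.2.2.1 x.2.2.2.2.2.2.2.2 (x.2.2.2.2.2.2.2.1 : ℕ → K) = fR K x from rfl]
  generalize (fR K x : ℕ) = r
  generalize (x.2.2.2.1 : ℕ) = n
  generalize (x.2.2.2.2.2.2.2.2 : ℕ) = δ
  nlinarith [Nat.zero_le (δ * r * n), Nat.zero_le (δ * r * n * n), Nat.zero_le (δ * r)]

theorem ar1 (δ r n : ℕ) : (δ * r + 1) * (n + 1) ^ 2 ≤ (δ + 1) * (r + 1) * (n + δ + 1) ^ 2 :=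
  Nat.mul_le_mul (by nlinarith) (Nat.pow_le_pow_left (by omega) 2)

theorem ar2 (δ r n : ℕ) : (n + δ + 1) * (δ + 2) * (r + 1) ≤
    2 * ((δ + 1) * (r + 1) * (n + δ + 1) ^ 2) := by
  calc (n + δ + 1) * (δ + 2) * (r + 1) ≤ (n + δ + 1) ^ 2 * (2 * (δ + 1)) * (r + 1) := by
        gcongr
        · exact Nat.le_self_pow (by norm_num) _
        · omega
    _ = 2 * ((δ + 1) * (r + 1) * (n + δ + 1) ^ 2) := by ring

theorem ar3 (δ r n : ℕ) : n ≤ (δ + 1) * (r + 1) * (n + δ + 1) ^ 2 := by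
  calc n ≤ 1 * 1 * (n + δ + 1) := by omega
    _ ≤ (δ + 1) * (r + 1) * (n + δ + 1) ^ 2 := by
        gcongr
        · omega
        · omega
        · exact Nat.le_self_pow (by norm_num) _

theorem ar4 (δ r n : ℕ) : r * (δ + 1) ^ 2 ≤ (δ + 1) * (r + 1) * (n + δ + 1) ^ 2 := by
  calc r * (δ + 1) ^ 2 ≤ (1 * (r + 1)) * (n + δ + 1) ^ 2 := by
        gcongr
        · omega
        · omega
    _ ≤ (δ + 1) * (r + 1) * (n + δ + 1) ^ 2 := by
        gcongr
        omega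

theorem ar5 (δ r n : ℕ) : (r + 1) * (δ + 1) ^ 3 ≤ (δ + 1) * (r + 1) * (n + δ + 1) ^ 2 := by
  calc (r + 1) * (δ + 1) ^ 3 = (δ + 1) * (r + 1) * (δ + 1) ^ 2 := by ring
    _ ≤ (δ + 1) * (r + 1) * (n + δ + 1) ^ 2 := by
        gcongr
        omega

theorem ar6 (δ r n d : ℕ) : (δ + 1) * (r + 1) * (n + δ + 1) ^ 2 ≤
    (δ + 1) * (r + 1) * (d + n + δ + 1) ^ 2 := by
  gcongr
  omega

theorem ar7 (δ r n d : ℕ) : r * (d + 1) ^ 2 ≤ (δ + 1) * (r + 1) * (d + n + δ + 1) ^ 2 := by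
  calc r * (d + 1) ^ 2 ≤ (1 * (r + 1)) * (d + n + δ + 1) ^ 2 := by
        gcongr
        · omega
        · omega
    _ ≤ (δ + 1) * (r + 1) * (d + n + δ + 1) ^ 2 := by
        gcongr
        omega

theorem ar8 (δ r n : ℕ) : r ≤ (δ + 1) * (r + 1) * (n + δ + 1) ^ 2 := by
  calc r ≤ 1 * (r + 1) * 1 ^ 2 := by omega
    _ ≤ (δ + 1) * (r + 1) * (n + δ + 1) ^ 2 := by
        gcongr
        · omega
        · omega

theorem fL_rlz (hs : RlzQ Fs (fun _ _ x => (x.2.2.2.2 * numc x.1 x.2.2.2.2 x.2.2.2.1 + 1) *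
      (x.1 + 1) ^ 2))
    (hl : RlzQ Fl (fun _ _ x => (x.1 + x.2.2.2.1 + 1) * (x.2.2.2.1 + 2) * (x.2.2.2.2.1 + 1))) :
    RlzQ (fL Fs Fl) (fun K _ x => (x.2.2.2.2.2.2.2.2 + 1) * (fR K x + 1) *
      (x.2.2.2.1 + x.2.2.2.2.2.2.2.2 + 1) ^ 2) := by
  refine (RlzQ.comp hl (RlzQ.pair
    (RlzQ.fst (RlzQ.snd (RlzQ.snd (RlzQ.snd RlzQ.input)))) (RlzQ.pair
    (RlzQ.fst (RlzQ.snd (RlzQ.snd (RlzQ.snd (RlzQ.snd RlzQ.input))))) (RlzQ.pair
    (RlzQ.fst (RlzQ.snd (RlzQ.snd (RlzQ.snd (RlzQ.snd (RlzQ.snd RlzQ.input)))))) (RlzQ.pair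
    (RlzQ.snd (RlzQ.snd (RlzQ.snd (RlzQ.snd (RlzQ.snd (RlzQ.snd (RlzQ.snd (RlzQ.snd
      RlzQ.input)))))))) (RlzQ.pair fR_rlz (RlzQ.pair
    (RlzQ.fst (RlzQ.snd (fS_rlz hs))) (RlzQ.snd (RlzQ.snd (fS_rlz hs)))))))))).mono 8
      (fun K _ x => ?_)
  dsimp only
  generalize (fR K x : ℕ) = r
  generalize (x.2.2.2.1 : ℕ) = n
  generalize (x.2.2.2.2.2.2.2.2 : ℕ) = δ
  have h1 := ar1 δ r n
  have h2 := ar2 δ r n
  have h3 := ar3 δ r n
  omega

theorem fA_rlz (hs : RlzQ Fs (fun _ _ x => (x.2.2.2.2 * numc x.1 x.2.2.2.2 x.2.2.2.1 + 1) *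
      (x.1 + 1) ^ 2))
    (hl : RlzQ Fl (fun _ _ x => (x.1 + x.2.2.2.1 + 1) * (x.2.2.2.1 + 2) * (x.2.2.2.2.1 + 1))) :
    RlzQ (fA Fs Fl) (fun K _ x => (x.2.2.2.2.2.2.2.2 + 1) * (fR K x + 1) *
      (x.2.2.2.1 + x.2.2.2.2.2.2.2.2 + 1) ^ 2) := by
  refine (RlzQ.comp arrA_rlz (RlzQ.pair fR_rlz (RlzQ.pair
    (RlzQ.snd (RlzQ.snd (RlzQ.snd (RlzQ.snd (RlzQ.snd (RlzQ.snd (RlzQ.snd (RlzQ.snd
      RlzQ.input)))))))) (fL_rlz hs hl)))).mono 8 (fun K _ x => ?_)
  dsimp only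
  generalize (fR K x : ℕ) = r
  generalize (x.2.2.2.1 : ℕ) = n
  generalize (x.2.2.2.2.2.2.2.2 : ℕ) = δ
  have h1 := ar3 δ r n
  have h2 := ar4 δ r n
  omega

theorem fB_rlz (hs : RlzQ Fs (fun _ _ x => (x.2.2.2.2 * numc x.1 x.2.2.2.2 x.2.2.2.1 + 1) *
      (x.1 + 1) ^ 2))
    (hl : RlzQ Fl (fun _ _ x => (x.1 + x.2.2.2.1 + 1) * (x.2.2.2.1 + 2) * (x.2.2.2.2.1 + 1)))
    (hb : RlzQ Fb (fun _ _ x => (x.1 + 1) * (x.2.1 + 1) ^ 3)) :
    RlzQ (fB Fs Fl Fb) (fun K _ x => (x.2.2.2.2.2.2.2.2 + 1) * (fR K x + 1) *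
      (x.2.2.2.1 + x.2.2.2.2.2.2.2.2 + 1) ^ 2) := by
  refine (RlzQ.comp hb (RlzQ.pair fR_rlz (RlzQ.pair
    (RlzQ.snd (RlzQ.snd (RlzQ.snd (RlzQ.snd (RlzQ.snd (RlzQ.snd (RlzQ.snd (RlzQ.snd
      RlzQ.input)))))))) (RlzQ.pair (RlzQ.fneg (RlzQ.fst (RlzQ.snd RlzQ.input)))
      (RlzQ.pair (RlzQ.fneg (RlzQ.fst (RlzQ.snd (RlzQ.snd RlzQ.input))))
      (fA_rlz hs hl)))))).mono 8 (fun K _ x => ?_)
  dsimp only
  generalize (fR K x : ℕ) = r
  generalize (x.2.2.2.1 : ℕ) = n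
  generalize (x.2.2.2.2.2.2.2.2 : ℕ) = δ
  have h1 := ar3 δ r n
  have h2 := ar5 δ r n
  omega

theorem fO_rlz (hs : RlzQ Fs (fun _ _ x => (x.2.2.2.2 * numc x.1 x.2.2.2.2 x.2.2.2.1 + 1) *
      (x.1 + 1) ^ 2))
    (hl : RlzQ Fl (fun _ _ x => (x.1 + x.2.2.2.1 + 1) * (x.2.2.2.1 + 2) * (x.2.2.2.2.1 + 1)))
    (hb : RlzQ Fb (fun _ _ x => (x.1 + 1) * (x.2.1 + 1) ^ 3)) :
    RlzQ (fO Fs Fl Fb) (fun K _ x => (x.2.2.2.2.2.2.2.2 + 1) *
      (numc x.2.2.2.1 x.2.2.2.2.2.2.2.2 x.2.2.2.2.2.2.2.1 + 1) *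
      (x.1 + x.2.2.2.1 + x.2.2.2.2.2.2.2.2 + 1) ^ 2) := by
  refine (RlzQ.pair (RlzQ.comp outQ_rlz (RlzQ.pair fR_rlz (RlzQ.fst (RlzQ.snd (fS_rlz hs)))))
    (RlzQ.comp outF_rlz (RlzQ.pair fR_rlz (RlzQ.pair (RlzQ.fst RlzQ.input) (RlzQ.pair
    (RlzQ.snd (RlzQ.snd (RlzQ.snd (RlzQ.snd (RlzQ.snd (RlzQ.snd (RlzQ.snd (RlzQ.snd
      RlzQ.input)))))))) (fB_rlz hs hl hb)))))).mono 8 (fun K _ x => ?_)
  dsimp only
  rw [show numc x.2.2.2.1 x.2.2.2.2.2.2.2.2 (x.2.2.2.2.2.2.2.1 : ℕ → K) = fR K x from rfl]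
  generalize (fR K x : ℕ) = r
  generalize (x.2.2.2.1 : ℕ) = n
  generalize (x.2.2.2.2.2.2.2.2 : ℕ) = δ
  generalize (x.1 : ℕ) = d
  have h1 := ar1 δ r n
  have h3 := ar3 δ r n
  have h6 := ar6 δ r n d
  have h7 := ar7 δ r n d
  have h8 := ar8 δ r n
  omega

/-! ### the specification -/

section math
variable {K : Type} [Field K]

theorem gmon_coeff (n : ℕ) (g : ℕ → K) (i : ℕ) :
    (gmon n g).coeff i = if i < n then g i else if i = n then 1 else 0 := by
  have h : gmon n g = X ^ n + apol n g := rfl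
  rw [h, coeff_add, coeff_X_pow, apol_coeff]
  split_ifs <;> first | omega | simp

theorem gmon_gA {n : ℕ} {h : ℕ → K} {hp : K[X][X]} (hm : hp.Monic) (hd : hp.natDegree = n)
    (hh : ∀ i < (n + 1) * (n + 1), h i = coeffs2 (n + 1) hp i) : gmon n (gA n h) = at0 hp := by
  ext i
  rw [gmon_coeff, at0_coeff]
  split_ifs with h1 h2
  · have h3 : i * (n + 1) < (n + 1) * (n + 1) := Nat.mul_lt_mul_of_pos_right (by omega) (by omega)
    unfold gA tabF
    rw [if_pos h1]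
    beta_reduce
    rw [hh _ h3, coeffs2, Nat.mul_div_cancel _ (by omega), Nat.mul_mod_left]
  · rw [h2, ← hd, hm.coeff_natDegree, coeff_one_zero]
  · rw [coeff_eq_zero_of_natDegree_lt (show hp.natDegree < i by omega), coeff_zero]

theorem at0_map {k : Type} [Field k] (σ : K →+* k) (P : K[X][X]) :
    at0 (P.map (mapRingHom σ)) = (at0 P).map σ := by
  ext i
  rw [at0_coeff, coeff_map, coeff_map, at0_coeff, coe_mapRingHom, coeff_map]

theorem at0_prod {ι : Type} [Fintype ι] (F : ι → K[X][X]) : at0 (∏ c, F c) = ∏ c, at0 (F c) := by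
  unfold at0
  rw [Polynomial.map_prod]

theorem at0_mul (F G : K[X][X]) : at0 (F * G) = at0 F * at0 G := by
  unfold at0
  rw [Polynomial.map_mul]

theorem at0_monic {P : K[X][X]} (h : P.Monic) : (at0 P).Monic := h.map _

theorem at0_natDegree {P : K[X][X]} (h : P.Monic) : (at0 P).natDegree = P.natDegree :=
  h.natDegree_map _

theorem pairwise_coprime {ι : Type} [Fintype ι] {P : ι → K[X]} (h : (∏ c, P c).Separable) :
    Pairwise fun c c' => IsCoprime (P c) (P c') := by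
  classical
  intro c c' hc
  have h1 : P c * P c' ∣ ∏ c, P c := by
    rw [← Finset.prod_pair hc]
    exact Finset.prod_dvd_prod_of_subset _ _ _ (Finset.subset_univ _)
  exact (h.of_dvd h1).isCoprime

theorem outQ_apol {r d : ℕ} (hr : r ≤ d) (q : ℕ → K) :
    (∑ l ∈ range (d + 1), monomial l (outQ r q l) : K[X]) = gmon r q := by
  ext i
  have h1 : (∑ l ∈ range (d + 1), monomial l (outQ r q l) : K[X]) = apol (d + 1) (outQ r q) := rfl
  rw [h1, apol_coeff, gmon_coeff]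
  unfold outQ tabF
  beta_reduce
  split_ifs <;> first | rfl | omega

/-- the polynomial with the coefficients `A` -/
noncomputable def G (δ : ℕ) (A : ℕ → K) (l : ℕ) : K[X][X] :=
  ∑ j ∈ range (δ + 1), monomial j (∑ i ∈ range (δ + 1),
    monomial i (A ((l * (δ + 1) + j) * (δ + 1) + i)))

theorem G_coeff (δ : ℕ) (A : ℕ → K) (l j i : ℕ) : ((G δ A l).coeff j).coeff i =
    if j ≤ δ then (if i ≤ δ then A ((l * (δ + 1) + j) * (δ + 1) + i) else 0) else 0 := by
  unfold G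
  rw [finsetSum_coeff]
  simp only [coeff_monomial]
  rw [Finset.sum_ite_eq' (Finset.range (δ + 1)) j]
  simp only [Finset.mem_range, Order.lt_add_one_iff]
  split_ifs with h1 h2
  · rw [finsetSum_coeff]
    simp only [coeff_monomial]
    rw [Finset.sum_ite_eq' (Finset.range (δ + 1)) i]
    simp [h2]
  · rw [finsetSum_coeff]
    simp only [coeff_monomial]
    rw [Finset.sum_ite_eq' (Finset.range (δ + 1)) i]
    simp [h2]
  · rw [coeff_zero]

theorem G_deg (δ : ℕ) (A : ℕ → K) (l : ℕ) :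
    (G δ A l).natDegree ≤ δ ∧ ∀ j, ((G δ A l).coeff j).natDegree ≤ δ := by
  constructor
  · rw [natDegree_le_iff_coeff_eq_zero]
    intro j hj
    ext i
    rw [G_coeff, if_neg (by omega), coeff_zero]
  · intro j
    rw [natDegree_le_iff_coeff_eq_zero]
    intro i hi
    rw [G_coeff]
    split_ifs <;> first | rfl | omega

end math

section math2
variable {K : Type} [Field K] {k : Type} [Field k] [Algebra K k]

/-- the reconstruction of the factor from the family -/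
theorem recon {r δ : ℕ} {P : ℕ → K} {v : k} {F : k[X][X]} (hr : 1 ≤ r) (hF : F.Monic)
    (hd : F.natDegree = δ) (hT : TD δ F)
    (h : ∀ j < δ, ∀ i ≤ δ, dv r v P (j * (δ + 1) + i) = (F.coeff j).coeff i) :
    F = ∑ l ∈ range r, C (C (v ^ l)) *
      (G δ (arrA r δ P) l).map (mapRingHom (algebraMap K k)) := by
  refine Polynomial.ext fun j => Polynomial.ext fun i => ?_
  rw [finsetSum_coeff, finsetSum_coeff]
  have h1 : ∀ l ∈ range r, ((C (C (v ^ l)) *
      (G δ (arrA r δ P) l).map (mapRingHom (algebraMap K k))).coeff j).coeff i =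
      v ^ l * algebraMap K k (if j ≤ δ then (if i ≤ δ then (if j < δ then
        P ((j * (δ + 1) + i) * r + l) else if l = 0 ∧ i = 0 then 1 else 0) else 0) else 0) := by
    intro l hl
    rw [coeff_C_mul, coeff_C_mul, coeff_map, coe_mapRingHom, coeff_map, G_coeff]
    congr 2
    split_ifs with g1 g2 g3 g4
    · rw [arrA_apply (Finset.mem_range.1 hl) g1 g2, if_pos g3]
    · rw [arrA_apply (Finset.mem_range.1 hl) g1 g2, if_neg g3, if_pos g4]
    · rw [arrA_apply (Finset.mem_range.1 hl) g1 g2, if_neg g3, if_neg g4]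
    · rfl
    · rfl
  rw [Finset.sum_congr rfl h1]
  have hz : ¬ (j ≤ δ ∧ i ≤ δ ∧ i + j ≤ δ) → (F.coeff j).coeff i = 0 := by
    intro h2
    by_cases h3 : F.coeff j = 0
    · rw [h3, coeff_zero]
    · have h4 := hT j h3
      refine coeff_eq_zero_of_natDegree_lt ?_
      by_contra h5
      apply h2
      omega
  by_cases hj : j ≤ δ
  · by_cases hi : i ≤ δ
    · simp only [if_pos hj, if_pos hi]
      by_cases hj' : j < δ
      · simp only [if_pos hj']
        rw [← h j hj' i hi, dv]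
        exact Finset.sum_congr rfl fun l _ => by rw [mul_comm]
      · simp only [if_neg hj']
        have hj2 : j = δ := by omega
        have h2 : (F.coeff j).coeff i = if i = 0 then 1 else 0 := by
          rw [hj2, ← hd, hF.coeff_natDegree, coeff_one]
        rw [h2, Finset.sum_eq_single 0]
        · by_cases h3 : i = 0 <;> simp [h3]
        · intro l _ hl
          simp [hl]
        · intro h3
          exact absurd (Finset.mem_range.2 (by omega)) h3
    · simp only [if_pos hj, if_neg hi, map_zero, mul_zero, Finset.sum_const_zero]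
      exact hz (by omega)
  · simp only [if_neg hj, map_zero, mul_zero, Finset.sum_const_zero]
    exact hz (by omega)

theorem shf_lin (a b : k) (r : ℕ) (v : k) (g : ℕ → k[X][X]) :
    shf a b (∑ l ∈ range r, C (C (v ^ l)) * g l) =
      ∑ l ∈ range r, C (C (v ^ l)) * shf a b (g l) := by
  unfold shf
  rw [eval₂_finsetSum]
  refine Finset.sum_congr rfl fun l _ => ?_
  rw [eval₂_mul, eval₂_C, coe_eval₂RingHom, eval₂_C]
  rfl

end math2

/-! ### the composition -/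

/-- the specification of the splitting -/
def SpecS (Fs : Fam (.prod .nat (.prod .arr (.prod .arr (.prod .arr .nat))))
      (.prod .nat (.prod .arr .arr))) : Prop :=
    ∀ (K : Type) [Field K] (n δ : ℕ) (g H S : ℕ → K) (k : Type) [Field k] [Algebra K k]
      (ι : Type) [Fintype ι] (P : ι → k[X]) (val : ι → k), (∀ c, (P c).Monic) →
      (∀ c, 1 ≤ (P c).natDegree) → (Pairwise fun c c' => IsCoprime (P c) (P c')) →
      (gmon n g).map (algebraMap K k) = ∏ c, P c → Function.Injective val →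
      (∀ c, P c ∣ (apol n H).map (algebraMap K k) - C (val c)) →
      (∀ j ≤ n, (blk (n + 1) S j).map (algebraMap K k) =
        ∏ c with j < (P c).natDegree, (X - C (val c))) → 1 ≤ δ → δ ≤ n →
      (Fs K (n, (g, (H, (S, δ))))).1 = numc n δ S ∧
      ((gmon (Fs K (n, (g, (H, (S, δ))))).1 (Fs K (n, (g, (H, (S, δ))))).2.1).map
        (algebraMap K k) = ∏ c with (P c).natDegree = δ, (X - C (val c))) ∧
      ∀ c, (P c).natDegree = δ → P c = X ^ δ + ∑ j ∈ range δ,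
        C (dv (Fs K (n, (g, (H, (S, δ))))).1 (val c) (Fs K (n, (g, (H, (S, δ))))).2.2 j) * X ^ j

/-- the specification of the lifting -/
def SpecL (Fl : Fam (.prod .nat (.prod .arr (.prod .arr (.prod .nat (.prod .nat
      (.prod .arr .arr)))))) .arr) : Prop :=
    ∀ (K : Type) [Field K] (n δ r : ℕ) (h v₀ q P₀ : ℕ → K) (f : K[X][X]) (k : Type) [Field k]
      [Algebra K k] (v : k) (P Q : k[X][X]), f.Monic → f.natDegree = n →
      (∀ i < (n + 1) * (n + 1), h i = coeffs2 (n + 1) f i) →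
      (∃ u, apol n v₀ * derivative (at0 f) + u * at0 f = 1) → aeval v (gmon r q) = 0 →
      P.Monic → Q.Monic → P.natDegree = δ → 1 ≤ δ →
      f.map (mapRingHom (algebraMap K k)) = P * Q →
      (∀ j < δ, dv r v P₀ j = (P.coeff j).coeff 0) →
      ∀ j < δ, ∀ i ≤ δ, dv r v (Fl K (n, (h, (v₀, (δ, (r, (q, P₀))))))) (j * (δ + 1) + i) =
        (P.coeff j).coeff i

/-- the specification of the substitution -/
def SpecB (Fb : Fam (.prod .nat (.prod .nat (.prod .fld (.prod .fld .arr)))) .arr) : Prop :=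
    ∀ (K : Type) [Field K] (r δ : ℕ) (a b : K) (A : ℕ → K) (G : ℕ → K[X][X]),
      (∀ l < r, (G l).natDegree ≤ δ ∧ ∀ j, ((G l).coeff j).natDegree ≤ δ) →
      (∀ l < r, ∀ j ≤ δ, ∀ i ≤ δ, A ((l * (δ + 1) + j) * (δ + 1) + i) =
        ((G l).coeff j).coeff i) →
      ∀ l < r, ∀ j ≤ δ, ∀ i ≤ δ, Fb K (r, (δ, (a, (b, A)))) ((l * (δ + 1) + j) * (δ + 1) + i) =
        ((shf a b (G l)).coeff j).coeff i

theorem p3_of {Fs : Fam (.prod .nat (.prod .arr (.prod .arr (.prod .arr .nat))))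
      (.prod .nat (.prod .arr .arr))}
    {Fl : Fam (.prod .nat (.prod .arr (.prod .arr (.prod .nat (.prod .nat
      (.prod .arr .arr)))))) .arr}
    {Fb : Fam (.prod .nat (.prod .nat (.prod .fld (.prod .fld .arr)))) .arr}
    (hs : SpecS Fs) (hl : SpecL Fl) (hb : SpecB Fb) (K : Type) [Field K] (k : Type) [Field k]
    [Algebra K k] (d n δ : ℕ) (a b : K)
    (h v₀ H S : ℕ → K) (hp : K[X][X]) (ι : Type) [Fintype ι] (F' : ι → k[X][X]) (val : ι → k)
    (hF : ∀ c, (F' c).Monic ∧ 1 ≤ (F' c).natDegree ∧ TD (F' c).natDegree (F' c))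
    (hsep : (at0 (∏ c, F' c)).Separable) (hm : hp.Monic) (hn : hp.natDegree = n)
    (hprod : hp.map (mapRingHom (algebraMap K k)) = ∏ c, F' c)
    (hh : ∀ i < (n + 1) * (n + 1), h i = coeffs2 (n + 1) hp i)
    (hv₀ : ∃ u, apol n v₀ * derivative (at0 hp) + u * at0 hp = 1) (hval : Function.Injective val)
    (hH : ∀ c, at0 (F' c) ∣ (apol n H).map (algebraMap K k) - C (val c))
    (hS : ∀ j ≤ n, (blk (n + 1) S j).map (algebraMap K k) =
      ∏ c with j < (F' c).natDegree, (X - C (val c))) (hδ : 1 ≤ δ) (hδn : δ ≤ n) (hnd : n ≤ d) :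
    (∑ l ∈ range (d + 1), monomial l
      ((fO Fs Fl Fb K (d, (a, (b, (n, (h, (v₀, (H, (S, δ))))))))).1 l) :
        K[X]).map (algebraMap K k) = ∏ c with (F' c).natDegree = δ, (X - C (val c)) ∧
      (∀ l j i, numc n δ S ≤ l → j ≤ d → i ≤ d →
        (fO Fs Fl Fb K (d, (a, (b, (n, (h, (v₀, (H, (S, δ))))))))).2
          ((l * (d + 1) + j) * (d + 1) + i) = 0) ∧
      ∀ c, (F' c).natDegree = δ → ∀ i ≤ d, ∀ j ≤ d,
        ∑ l ∈ range (d + 1), algebraMap K k
          ((fO Fs Fl Fb K (d, (a, (b, (n, (h, (v₀, (H, (S, δ))))))))).2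
          ((l * (d + 1) + j) * (d + 1) + i)) * val c ^ l =
          ((shf (-algebraMap K k a) (-algebraMap K k b) (F' c)).coeff j).coeff i := by
  classical
  obtain ⟨x, hx⟩ : ∃ x : Ty.val K T, x = (d, (a, (b, (n, (h, (v₀, (H, (S, δ)))))))) := ⟨_, rfl⟩
  obtain ⟨r, hr⟩ : ∃ r : ℕ, r = numc n δ S := ⟨_, rfl⟩
  have hfR : fR K x = r := by rw [hr, hx]; rfl
  -- the splitting
  have hP : ∀ c, (at0 (F' c)).natDegree = (F' c).natDegree := fun c => at0_natDegree (hF c).1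
  have hsplit := hs K n δ (gA n h) H S k ι (fun c => at0 (F' c)) val
    (fun c => at0_monic (hF c).1) (fun c => by rw [hP]; exact (hF c).2.1)
    (pairwise_coprime (by rw [← at0_prod]; exact hsep))
    (by rw [gmon_gA hm hn hh, ← at0_map, hprod, at0_prod]) hval hH
    (by intro j hj; rw [hS j hj]; simp only [hP]) hδ hδn
  have e1 : Fs K (n, (gA n h, (H, (S, δ)))) = fS Fs K x := by rw [hx]; rfl
  rw [e1, ← hr] at hsplit
  obtain ⟨s1, s2, s3⟩ := hsplit
  rw [s1] at s2 s3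
  simp only [hP] at s2 s3
  -- the number of classes
  have hcard : r = (univ.filter fun c => (F' c).natDegree = δ).card := by
    have h1 : ((gmon r (fS Fs K x).2.1).map (algebraMap K k)).natDegree = r := by
      rw [natDegree_map]
      have hne : (gmon r (fS Fs K x).2.1).natDegree = r := by
        apply natDegree_eq_of_le_of_coeff_ne_zero
        · rw [natDegree_le_iff_coeff_eq_zero]
          intro i hi
          rw [gmon_coeff, if_neg (by omega), if_neg (by omega)]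
        · rw [gmon_coeff, if_neg (by omega), if_pos rfl]
          exact one_ne_zero
      exact hne
    rw [s2, natDegree_prod_of_monic _ _ (fun c _ => monic_X_sub_C _)] at h1
    simpa using h1.symm
  have hsum : ∑ c, (F' c).natDegree = n := by
    rw [← natDegree_prod_of_monic _ _ (fun c _ => (hF c).1), ← hprod, hm.natDegree_map, hn]
  have hrd : r ≤ d := by
    have h1 : (univ.filter fun c => (F' c).natDegree = δ).card ≤
        ∑ c ∈ univ.filter (fun c => (F' c).natDegree = δ), (F' c).natDegree := by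
      rw [Finset.card_eq_sum_ones]
      exact Finset.sum_le_sum fun c _ => (hF c).2.1
    have h2 : ∑ c ∈ univ.filter (fun c => (F' c).natDegree = δ), (F' c).natDegree ≤
        ∑ c, (F' c).natDegree :=
      Finset.sum_le_sum_of_subset (Finset.filter_subset _ _)
    omega
  have eO : fO Fs Fl Fb K x = (outQ r (fS Fs K x).2.1, outF r d δ (fB Fs Fl Fb K x)) := by
    rw [← hfR, hx]; rfl
  rw [← hx, eO]
  refine ⟨?_, ?_, ?_⟩
  · rw [outQ_apol hrd, s2]
  · intro l j i hl _ _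
    rw [← hr] at hl
    exact outF_zero hl
  · intro c hc i hi j hj
    have hr1 : 1 ≤ r := by
      rw [hcard]
      exact Finset.card_pos.2 ⟨c, Finset.mem_filter.2 ⟨Finset.mem_univ _, hc⟩⟩
    -- the lifting
    have hroot : aeval (val c) (gmon r (fS Fs K x).2.1) = 0 := by
      rw [aeval_def, ← eval_map, s2, eval_prod]
      exact Finset.prod_eq_zero (i := c) (Finset.mem_filter.2 ⟨Finset.mem_univ _, hc⟩) (by simp)
    have h0 : ∀ j < δ, dv r (val c) (fS Fs K x).2.2 j = ((F' c).coeff j).coeff 0 := by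
      intro j hj
      rw [← at0_coeff, s3 c hc, coeff_add, coeff_X_pow, if_neg (by omega), zero_add,
        finsetSum_coeff]
      simp only [coeff_C_mul, coeff_X_pow]
      rw [Finset.sum_eq_single j]
      · simp
      · intro b _ hb
        rw [if_neg (fun h => hb h.symm), mul_zero]
      · intro h1
        exact absurd (Finset.mem_range.2 hj) h1
    have hlift := hl K n δ r h v₀ (fS Fs K x).2.1 (fS Fs K x).2.2 hp k (val c) (F' c)
      (∏ c' ∈ univ.erase c, F' c') hm hn hh hv₀ hroot (hF c).1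
      (monic_prod_of_monic _ _ fun c' _ => (hF c').1) hc hδ
      (by rw [hprod, Finset.mul_prod_erase _ _ (Finset.mem_univ c)]) h0
    have eL : Fl K (n, (h, (v₀, (δ, (r, ((fS Fs K x).2.1, (fS Fs K x).2.2)))))) =
        fL Fs Fl K x := by
      rw [← hfR, hx]; rfl
    rw [eL] at hlift
    have hrec := recon hr1 (hF c).1 hc (hc ▸ (hF c).2.2) hlift
    -- the substitution
    have hsub := hb K r δ (-a) (-b) (fA Fs Fl K x) (G δ (fA Fs Fl K x))
      (fun l _ => G_deg _ _ _) (fun l _ j hj i hi => by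
        rw [G_coeff, if_pos hj, if_pos hi])
    have eB : Fb K (r, (δ, (-a, (-b, fA Fs Fl K x)))) = fB Fs Fl Fb K x := by
      rw [← hfR, hx]; rfl
    rw [eB] at hsub
    have eA : arrA r δ (fL Fs Fl K x) = fA Fs Fl K x := by
      rw [← hfR, hx]; rfl
    rw [eA] at hrec
    have hT : TD δ (shf (-algebraMap K k a) (-algebraMap K k b) (F' c)) :=
      TD_shf _ _ (hc ▸ (hF c).2.2)
    -- the left hand side
    have h2 : ∀ l ∈ range (d + 1), l ∉ range r → algebraMap K k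
        (outF r d δ (fB Fs Fl Fb K x) ((l * (d + 1) + j) * (d + 1) + i)) * val c ^ l = 0 := by
      intro l _ h3
      rw [outF_zero (by simpa using h3), map_zero, zero_mul]
    rw [← Finset.sum_subset (Finset.range_subset_range.2 (by omega)) h2]
    have h3 : ∀ l ∈ range r, algebraMap K k
        (outF r d δ (fB Fs Fl Fb K x) ((l * (d + 1) + j) * (d + 1) + i)) * val c ^ l =
        if j ≤ δ then (if i ≤ δ then algebraMap K k
          (fB Fs Fl Fb K x ((l * (δ + 1) + j) * (δ + 1) + i)) * val c ^ l else 0) else 0 := by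
      intro l hl
      rw [outF_apply (Finset.mem_range.1 hl) hj hi]
      split_ifs <;> simp
    rw [Finset.sum_congr rfl h3]
    have hz : ¬ (j ≤ δ ∧ i ≤ δ) →
        ((shf (-algebraMap K k a) (-algebraMap K k b) (F' c)).coeff j).coeff i = 0 := by
      intro h4
      by_cases h5 : (shf (-algebraMap K k a) (-algebraMap K k b) (F' c)).coeff j = 0
      · rw [h5, coeff_zero]
      · have h6 := hT j h5
        refine coeff_eq_zero_of_natDegree_lt ?_
        by_contra h7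
        apply h4
        omega
    by_cases hj' : j ≤ δ
    · by_cases hi' : i ≤ δ
      · simp only [if_pos hj', if_pos hi']
        rw [hrec, shf_lin, finsetSum_coeff, finsetSum_coeff]
        refine Finset.sum_congr rfl fun l hl => ?_
        rw [coeff_C_mul, coeff_C_mul, ← map_neg, ← map_neg, ← shf_map, coeff_map,
          coe_mapRingHom, coeff_map, hsub l (Finset.mem_range.1 hl) j hj' i hi', mul_comm]
      · simp only [if_pos hj', if_neg hi', Finset.sum_const_zero]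
        exact (hz (by omega)).symm
    · simp only [if_neg hj', Finset.sum_const_zero]
      exact (hz (by omega)).symm

end FP3

theorem p3_rlz_of
    (Hs : ∃ F : Fam (.prod .nat (.prod .arr (.prod .arr (.prod .arr .nat))))
      (.prod .nat (.prod .arr .arr)),
      RlzQ F (fun _ _ x => (x.2.2.2.2 * numc x.1 x.2.2.2.2 x.2.2.2.1 + 1) * (x.1 + 1) ^ 2) ∧
      FP3.SpecS F)
    (Hl : ∃ F : Fam (.prod .nat (.prod .arr (.prod .arr (.prod .nat (.prod .nat
      (.prod .arr .arr)))))) .arr,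
      RlzQ F (fun _ _ x => (x.1 + x.2.2.2.1 + 1) * (x.2.2.2.1 + 2) * (x.2.2.2.2.1 + 1)) ∧
      FP3.SpecL F)
    (Hb : ∃ F : Fam (.prod .nat (.prod .nat (.prod .fld (.prod .fld .arr)))) .arr,
      RlzQ F (fun _ _ x => (x.1 + 1) * (x.2.1 + 1) ^ 3) ∧ FP3.SpecB F) :
    ∃ F : Fam (.prod .nat (.prod .fld (.prod .fld (.prod .nat (.prod .arr (.prod .arr
        (.prod .arr (.prod .arr .nat)))))))) (.prod .arr .arr),
    RlzQ F (fun _ _ x => (x.2.2.2.2.2.2.2.2 + 1) *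
      (numc x.2.2.2.1 x.2.2.2.2.2.2.2.2 x.2.2.2.2.2.2.2.1 + 1) *
      (x.1 + x.2.2.2.1 + x.2.2.2.2.2.2.2.2 + 1) ^ 2) ∧
    ∀ (K : Type) [Field K] (k : Type) [Field k] [Algebra K k] (d n δ : ℕ) (a b : K)
      (h v₀ H S : ℕ → K) (hp : K[X][X]) (ι : Type) [Fintype ι] (F' : ι → k[X][X]) (val : ι → k),
      (∀ c, (F' c).Monic ∧ 1 ≤ (F' c).natDegree ∧ TD (F' c).natDegree (F' c)) →
      (at0 (∏ c, F' c)).Separable → hp.Monic → hp.natDegree = n →
      hp.map (mapRingHom (algebraMap K k)) = ∏ c, F' c →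
      (∀ i < (n + 1) * (n + 1), h i = coeffs2 (n + 1) hp i) →
      (∃ u, apol n v₀ * derivative (at0 hp) + u * at0 hp = 1) → Function.Injective val →
      (∀ c, at0 (F' c) ∣ (apol n H).map (algebraMap K k) - C (val c)) →
      (∀ j ≤ n, (blk (n + 1) S j).map (algebraMap K k) =
        ∏ c with j < (F' c).natDegree, (X - C (val c))) → 1 ≤ δ → δ ≤ n → n ≤ d →
      (∑ l ∈ range (d + 1), monomial l ((F K (d, (a, (b, (n, (h, (v₀, (H, (S, δ))))))))).1 l) :
        K[X]).map (algebraMap K k) = ∏ c with (F' c).natDegree = δ, (X - C (val c)) ∧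
      (∀ l j i, numc n δ S ≤ l → j ≤ d → i ≤ d →
        (F K (d, (a, (b, (n, (h, (v₀, (H, (S, δ))))))))).2
          ((l * (d + 1) + j) * (d + 1) + i) = 0) ∧
      ∀ c, (F' c).natDegree = δ → ∀ i ≤ d, ∀ j ≤ d,
        ∑ l ∈ range (d + 1), algebraMap K k ((F K (d, (a, (b, (n, (h, (v₀, (H, (S, δ))))))))).2
          ((l * (d + 1) + j) * (d + 1) + i)) * val c ^ l =
          ((shf (-algebraMap K k a) (-algebraMap K k b) (F' c)).coeff j).coeff i := by
  obtain ⟨Fs, hs, hs'⟩ := Hs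
  obtain ⟨Fl, hl, hl'⟩ := Hl
  obtain ⟨Fb, hb, hb'⟩ := Hb
  exact ⟨FP3.fO Fs Fl Fb, FP3.fO_rlz hs hl hb, fun K _ k _ _ d n δ a b h v₀ H S hp ι _ F' val
    h1 h2 h3 h4 h5 h6 h7 h8 h9 h10 h11 h12 h13 => FP3.p3_of hs' hl' hb' K k d n δ a b h v₀ H S hp
      ι F' val h1 h2 h3 h4 h5 h6 h7 h8 h9 h10 h11 h12 h13⟩

end Pool.Agent.AbsIrr
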