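import Mathlib
import Pool.Agent.Lib.MP_2adc98_lc.FDefs
import Pool.Agent.Lib.MP_2adc98_lc.GA1

/-!
# MP_2adc98_lc, stage 2: linear systems by insertion

State: two arrays `E` (`n` rows of length `n`) and `R` (`n` rows of length `w`).  Invariants for the
inserted vectors `u_j`, `j ∈ J`: `E = R U` and `u_j E = u_j`.
-/

set_option autoImplicit false

namespace Pool.Agent.AbsIrr

open Finset Polynomial

namespace Ins

section defs
variable {K : Type} [Field K]

/-- `v R`, where `R` is a matrix with `n` rows of length `w` -/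
noncomputable def vecM (n w : ℕ) (R v : ℕ → K) : ℕ → K :=
  tabF w (fun j => ∑ i ∈ range n, v i * R (i * w + j))

/-- `v - v E` -/
noncomputable def res (n : ℕ) (E v : ℕ → K) : ℕ → K :=
  tabF n (fun j => v j - ∑ i ∈ range n, v i * E (i * n + j))

/-- the pivot: an index `p < n` with `(v - v E)_p ≠ 0`, or `n` if there is none -/
noncomputable def piv (n : ℕ) (E v : ℕ → K) : ℕ := gaPiv n 1 (res n E v) 0

/-- the new `E`; `r` is the residue, `p` the pivot -/
noncomputable def updE (n : ℕ) (E r : ℕ → K) (p : ℕ) : ℕ → K :=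
  tabF (n * n) (fun N => E N + ((if N / n = p then 1 else 0) - E (N / n * n + p)) *
    (r (N % n) / r p))

/-- the new `R`; `k` is the label of the new vector `v`, `c = v R` -/
noncomputable def updR (n w k : ℕ) (E R c r : ℕ → K) (p : ℕ) : ℕ → K :=
  tabF (n * w) (fun N => R N + ((if N / w = p then 1 else 0) - E (N / w * n + p)) *
    (((if N % w = k then 1 else 0) - c (N % w)) / r p))

/-- insertion of the vector `v` with label `k < w` -/
noncomputable def ins (n w k : ℕ) (v : ℕ → K) (s : (ℕ → K) × (ℕ → K)) : (ℕ → K) × (ℕ → K) :=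
  if piv n s.1 v < n then
    (updE n s.1 (res n s.1 v) (piv n s.1 v),
      updR n w k s.1 s.2 (vecM n w s.2 v) (res n s.1 v) (piv n s.1 v))
  else s

/-- the vectors `v` with `v E = v` -/
def Fix (n : ℕ) (E : ℕ → K) : Submodule K (Fin n → K) where
  carrier := {v | ∀ j : Fin n, v j = ∑ i : Fin n, v i * E (i * n + j)}
  zero_mem' := by intro j; simp
  add_mem' := by
    intro v w hv hw j
    simp only [Pi.add_apply, add_mul, Finset.sum_add_distrib]
    rw [← hv j, ← hw j]
  smul_mem' := by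
    intro c v hv j
    simp only [Pi.smul_apply, smul_eq_mul, mul_assoc]
    rw [← Finset.mul_sum, ← hv j]

/-- the first `n` entries -/
def vec (n : ℕ) (v : ℕ → K) : Fin n → K := fun i => v i

theorem mem_Fix {n : ℕ} {E v : ℕ → K} :
    vec n v ∈ Fix n E ↔ ∀ j < n, v j = ∑ i ∈ range n, v i * E (i * n + j) := by
  constructor
  · intro h j hj
    have := h ⟨j, hj⟩
    rw [Finset.sum_range]
    exact this
  · intro h j
    have := h j j.2
    rw [Finset.sum_range] at this
    exact this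

theorem div_mod_aux {w i j : ℕ} (hj : j < w) : (i * w + j) / w = i ∧ (i * w + j) % w = j := by
  have hw : 0 < w := by omega
  refine ⟨?_, ?_⟩
  · rw [mul_comm, Nat.mul_add_div hw, Nat.div_eq_of_lt hj, add_zero]
  · rw [mul_comm, Nat.mul_add_mod, Nat.mod_eq_of_lt hj]

theorem lt_aux {n w i j : ℕ} (hi : i < n) (hj : j < w) : i * w + j < n * w := by
  calc i * w + j < i * w + w := by omega
    _ = (i + 1) * w := by ring
    _ ≤ n * w := Nat.mul_le_mul_right _ hi

theorem vecM_apply {n w : ℕ} {R v : ℕ → K} {j : ℕ} (hj : j < w) :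
    vecM n w R v j = ∑ i ∈ range n, v i * R (i * w + j) := by
  unfold vecM tabF; rw [if_pos hj]

theorem res_apply {n : ℕ} {E v : ℕ → K} {j : ℕ} (hj : j < n) :
    res n E v j = v j - ∑ i ∈ range n, v i * E (i * n + j) := by
  unfold res tabF; rw [if_pos hj]

theorem updE_apply {n : ℕ} {E r : ℕ → K} {p i j : ℕ} (hi : i < n) (hj : j < n) :
    updE n E r p (i * n + j) =
      E (i * n + j) + ((if i = p then 1 else 0) - E (i * n + p)) * (r j / r p) := by
  unfold updE tabF
  rw [if_pos (lt_aux hi hj)]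
  beta_reduce
  rw [(div_mod_aux hj).1, (div_mod_aux hj).2]

theorem updR_apply {n w k : ℕ} {E R c r : ℕ → K} {p i j : ℕ} (hi : i < n) (hj : j < w) :
    updR n w k E R c r p (i * w + j) =
      R (i * w + j) + ((if i = p then 1 else 0) - E (i * n + p)) *
        (((if j = k then 1 else 0) - c j) / r p) := by
  unfold updR tabF
  rw [if_pos (lt_aux hi hj)]
  beta_reduce
  rw [(div_mod_aux hj).1, (div_mod_aux hj).2]

theorem piv_spec (n : ℕ) (E v : ℕ → K) :
    (piv n E v = n ∧ ∀ i < n, res n E v i = 0) ∨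
      (piv n E v < n ∧ res n E v (piv n E v) ≠ 0) := by
  have := gaPiv_spec n 1 (res n E v) 0
  simpa [piv] using this

theorem piv_le (n : ℕ) (E v : ℕ → K) : piv n E v ≤ n := by
  rcases piv_spec n E v with h | h
  · exact h.1.le
  · exact h.1.le

/-- the insertion does nothing iff `v E = v` -/
theorem mem_Fix_iff {n : ℕ} {E v : ℕ → K} : vec n v ∈ Fix n E ↔ ¬ piv n E v < n := by
  rw [mem_Fix]
  rcases piv_spec n E v with h | h
  · refine ⟨fun _ => by omega, fun _ j hj => ?_⟩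
    have := h.2 j hj
    rw [res_apply hj] at this
    exact sub_eq_zero.1 this
  · refine ⟨fun h1 => ?_, fun h1 => absurd h.1 h1⟩
    exfalso
    apply h.2
    rw [res_apply h.1, h1 _ h.1 |>.symm, sub_self]

theorem ins_of_mem {n w k : ℕ} {v : ℕ → K} {s : (ℕ → K) × (ℕ → K)} (h : vec n v ∈ Fix n s.1) :
    ins n w k v s = s := if_neg (mem_Fix_iff.1 h)

theorem ins_of_lt {n w k : ℕ} {v : ℕ → K} {s : (ℕ → K) × (ℕ → K)} (h : piv n s.1 v < n) :
    ins n w k v s = (updE n s.1 (res n s.1 v) (piv n s.1 v),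
      updR n w k s.1 s.2 (vecM n w s.2 v) (res n s.1 v) (piv n s.1 v)) := if_pos h

theorem sum_updE {n : ℕ} {E r : ℕ → K} {p : ℕ} (hp : p < n) (v : ℕ → K) {j : ℕ} (hj : j < n) :
    ∑ i ∈ range n, v i * updE n E r p (i * n + j) = ∑ i ∈ range n, v i * E (i * n + j) +
      (v p - ∑ i ∈ range n, v i * E (i * n + p)) * (r j / r p) := by
  have h1 : ∀ i ∈ range n, v i * updE n E r p (i * n + j) = v i * E (i * n + j) +
      ((if i = p then v i else 0) - v i * E (i * n + p)) * (r j / r p) := by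
    intro i hi
    rw [updE_apply (Finset.mem_range.1 hi) hj]
    split_ifs <;> ring
  rw [Finset.sum_congr rfl h1, Finset.sum_add_distrib, ← Finset.sum_mul,
    Finset.sum_sub_distrib, Finset.sum_ite_eq', if_pos (Finset.mem_range.2 hp)]

/-- old fixed vectors stay fixed -/
theorem Fix_le (n w k : ℕ) (v : ℕ → K) (s : (ℕ → K) × (ℕ → K)) :
    Fix n s.1 ≤ Fix n (ins n w k v s).1 := by
  intro u hu
  by_cases h : piv n s.1 v < n
  · rw [ins_of_lt h]
    -- extend `u` by zero
    obtain ⟨u', hu'⟩ : ∃ u' : ℕ → K, vec n u' = u :=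
      ⟨fun i => if h : i < n then u ⟨i, h⟩ else 0, by ext i; simp [vec]⟩
    rw [← hu'] at hu ⊢
    rw [mem_Fix] at hu ⊢
    intro j hj
    rw [sum_updE h u' hj, ← hu _ h, sub_self, zero_mul, add_zero]
    exact hu j hj
  · rw [ins_of_mem (mem_Fix_iff.2 h)]
    exact hu

/-- the inserted vector is fixed -/
theorem self_mem_Fix (n w k : ℕ) (v : ℕ → K) (s : (ℕ → K) × (ℕ → K)) :
    vec n v ∈ Fix n (ins n w k v s).1 := by
  by_cases h : piv n s.1 v < n
  · rw [ins_of_lt h, mem_Fix]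
    intro j hj
    have hp := (piv_spec n s.1 v).resolve_left (by rintro ⟨h1, -⟩; omega)
    rw [sum_updE h v hj, ← res_apply h, mul_div_cancel₀ _ hp.2, res_apply hj]
    ring
  · rw [ins_of_mem (mem_Fix_iff.2 h)]
    exact mem_Fix_iff.2 h

/-- a successful insertion increases the dimension -/
theorem finrank_lt (n w k : ℕ) (v : ℕ → K) (s : (ℕ → K) × (ℕ → K)) (h : piv n s.1 v < n) :
    Module.finrank K (Fix n s.1) < Module.finrank K (Fix n (ins n w k v s).1) := by
  apply Submodule.finrank_lt_finrank_of_lt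
  refine lt_of_le_of_ne (Fix_le n w k v s) ?_
  intro h1
  have h2 := self_mem_Fix n w k v s
  rw [← h1, mem_Fix_iff] at h2
  exact h2 h

theorem finrank_le (n : ℕ) (E : ℕ → K) : Module.finrank K (Fix n E) ≤ n := by
  have := Submodule.finrank_le (Fix n E)
  simpa using this

/-- the number of successful insertions, in an arbitrary sequence of insertions -/
theorem count_le (n w : ℕ) (lab : ℕ → ℕ) (V : ℕ → ℕ → K) (s : (ℕ → K) × (ℕ → K)) (m : ℕ) :
    ∑ j ∈ range m, (if piv n (iterF j s (fun s j => ins n w (lab j) (V j) s)).1 (V j) < n then 1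
      else 0) ≤ n := by
  have key : ∑ j ∈ range m,
      (if piv n (iterF j s (fun s j => ins n w (lab j) (V j) s)).1 (V j) < n then 1 else 0) ≤
      Module.finrank K (Fix n (iterF m s (fun s j => ins n w (lab j) (V j) s)).1) := by
    induction m with
    | zero => simp
    | succ m ih =>
      rw [Finset.sum_range_succ, iterF_succ]
      split_ifs with h
      · have := finrank_lt n w (lab m) (V m) _ h
        omega
      · rw [add_zero]
        refine ih.trans ?_
        exact Submodule.finrank_mono (Fix_le _ _ _ _ _)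
  exact key.trans (finrank_le _ _)

/-- the invariants: `U` contains the inserted vectors `u_j`, `j ∈ J` (rows of length `n`) -/
structure Inv (n w : ℕ) (U : ℕ → K) (J : Finset ℕ) (s : (ℕ → K) × (ℕ → K)) : Prop where
  sub : J ⊆ range w
  rel : ∀ i < n, ∀ i' < n, s.1 (i * n + i') = ∑ j ∈ J, s.2 (i * w + j) * U (j * n + i')
  zero : ∀ i < n, ∀ j < w, j ∉ J → s.2 (i * w + j) = 0
  fix : ∀ j ∈ J, vec n (fun i => U (j * n + i)) ∈ Fix n s.1
  card : Module.finrank K (Fix n s.1) = J.card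

theorem Inv.congr {n w : ℕ} {U U' : ℕ → K} {J : Finset ℕ} {s : (ℕ → K) × (ℕ → K)}
    (h : Inv n w U J s) (hU : ∀ j ∈ J, ∀ i < n, U (j * n + i) = U' (j * n + i)) :
    Inv n w U' J s where
  sub := h.sub
  rel := by
    intro i hi i' hi'
    rw [h.rel i hi i' hi']
    exact Finset.sum_congr rfl fun j hj => by rw [hU j hj i' hi']
  zero := h.zero
  fix := by
    intro j hj
    have h1 := h.fix j hj
    have h2 : vec n (fun i => U (j * n + i)) = vec n (fun i => U' (j * n + i)) := by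
      ext i; exact hU j hj i i.2
    rwa [h2] at h1
  card := h.card

theorem Inv.card_le {n w : ℕ} {U : ℕ → K} {J : Finset ℕ} {s : (ℕ → K) × (ℕ → K)}
    (h : Inv n w U J s) : J.card ≤ n := h.card ▸ finrank_le n s.1

/-- the initial state -/
theorem Inv.init (n w : ℕ) (U : ℕ → K) : Inv n w U ∅ (tabF 0 (fun _ => 0), tabF 0 (fun _ => 0)) where
  sub := by simp
  rel := by intro i _ i' _; simp [tabF]
  zero := by intro i _ j _ _; simp [tabF]
  fix := by simp
  card := by
    have h1 : Fix n (tabF 0 (fun _ => 0) : ℕ → K) = ⊥ := by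
      rw [eq_bot_iff]
      intro v hv
      rw [Submodule.mem_bot]
      ext j
      rw [hv j]
      simp [tabF]
    rw [h1]
    simp

/-- a vector is fixed iff it is the combination of the `u_j` with the coefficients `v R` -/
theorem Inv.comb {n w : ℕ} {U : ℕ → K} {J : Finset ℕ} {s : (ℕ → K) × (ℕ → K)}
    (h : Inv n w U J s) (v : ℕ → K) {i' : ℕ} (hi' : i' < n) :
    ∑ i ∈ range n, v i * s.1 (i * n + i') = ∑ j ∈ J, vecM n w s.2 v j * U (j * n + i') := by
  have h1 : ∀ i ∈ range n, v i * s.1 (i * n + i') =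
      ∑ j ∈ J, v i * s.2 (i * w + j) * U (j * n + i') := by
    intro i hi
    rw [h.rel i (Finset.mem_range.1 hi) i' hi', Finset.mul_sum]
    exact Finset.sum_congr rfl fun j _ => (mul_assoc _ _ _).symm
  rw [Finset.sum_congr rfl h1, Finset.sum_comm]
  refine Finset.sum_congr rfl fun j hj => ?_
  rw [vecM_apply (Finset.mem_range.1 (h.sub hj)), Finset.sum_mul]

theorem Inv.eq_of_mem {n w : ℕ} {U : ℕ → K} {J : Finset ℕ} {s : (ℕ → K) × (ℕ → K)}
    (h : Inv n w U J s) {v : ℕ → K} (hv : vec n v ∈ Fix n s.1) {i' : ℕ} (hi' : i' < n) :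
    v i' = ∑ j ∈ J, vecM n w s.2 v j * U (j * n + i') := by
  rw [← h.comb v hi']
  exact mem_Fix.1 hv i' hi'

theorem Inv.vecM_zero {n w : ℕ} {U : ℕ → K} {J : Finset ℕ} {s : (ℕ → K) × (ℕ → K)}
    (h : Inv n w U J s) (v : ℕ → K) {j : ℕ} (hj : j ∉ J) : vecM n w s.2 v j = 0 := by
  by_cases hw : j < w
  · rw [vecM_apply hw]
    refine Finset.sum_eq_zero fun i hi => ?_
    rw [h.zero i (Finset.mem_range.1 hi) j hw hj, mul_zero]
  · unfold vecM tabF; rw [if_neg hw]

/-- the fixed vectors are the span of the inserted ones -/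
theorem Inv.span {n w : ℕ} {U : ℕ → K} {J : Finset ℕ} {s : (ℕ → K) × (ℕ → K)}
    (h : Inv n w U J s) : Fix n s.1 =
      Submodule.span K (Set.range fun j : J => vec n (fun i => U (j * n + i))) := by
  apply le_antisymm
  · intro u hu
    obtain ⟨v, hv⟩ : ∃ v : ℕ → K, vec n v = u :=
      ⟨fun i => if h : i < n then u ⟨i, h⟩ else 0, by ext i; simp [vec]⟩
    rw [← hv] at hu ⊢
    have h1 : vec n v = ∑ j : J, vecM n w s.2 v j • vec n (fun i => U (j * n + i)) := by
      ext i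
      rw [Finset.sum_apply]
      show v i = _
      rw [h.eq_of_mem hu i.2, ← Finset.sum_coe_sort]
      rfl
    rw [h1]
    exact Submodule.sum_mem _ fun j _ =>
      Submodule.smul_mem _ _ (Submodule.subset_span ⟨j, rfl⟩)
  · rw [Submodule.span_le]
    rintro _ ⟨j, rfl⟩
    exact h.fix j j.2

/-- the inserted vectors are linearly independent -/
theorem Inv.indep {n w : ℕ} {U : ℕ → K} {J : Finset ℕ} {s : (ℕ → K) × (ℕ → K)}
    (h : Inv n w U J s) :
    LinearIndependent K (fun j : J => vec n (fun i => U (j * n + i))) := by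
  rw [linearIndependent_iff_card_eq_finrank_span, Set.finrank, ← h.span, h.card]
  simp

/-- the step: failure -/
theorem Inv.fail {n w : ℕ} {U : ℕ → K} {J : Finset ℕ} {s : (ℕ → K) × (ℕ → K)}
    (h : Inv n w U J s) {v : ℕ → K} (hv : ¬ piv n s.1 v < n) (k : ℕ) :
    Inv n w U J (ins n w k v s) := by
  rw [ins_of_mem (mem_Fix_iff.2 hv)]
  exact h

/-- the step: success -/
theorem Inv.succ {n w : ℕ} {U : ℕ → K} {J : Finset ℕ} {s : (ℕ → K) × (ℕ → K)}
    (h : Inv n w U J s) {v : ℕ → K} (hv : piv n s.1 v < n) {k : ℕ} (hk : k < w) (hkJ : k ∉ J)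
    (hU : ∀ i < n, U (k * n + i) = v i) : Inv n w U (insert k J) (ins n w k v s) := by
  have hfix : ∀ j ∈ insert k J, vec n (fun i => U (j * n + i)) ∈ Fix n (ins n w k v s).1 := by
    intro j hj
    rcases Finset.mem_insert.1 hj with rfl | hj
    · have h1 : vec n (fun i => U (j * n + i)) = vec n v := by ext i; exact hU i i.2
      rw [h1]
      exact self_mem_Fix _ _ _ _ _
    · exact Fix_le _ _ _ _ _ (h.fix j hj)
  have hsub : insert k J ⊆ range w :=
    Finset.insert_subset (Finset.mem_range.2 hk) h.sub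
  have hrel : ∀ i < n, ∀ i' < n, (ins n w k v s).1 (i * n + i') =
      ∑ j ∈ insert k J, (ins n w k v s).2 (i * w + j) * U (j * n + i') := by
    intro i hi i' hi'
    rw [ins_of_lt hv]
    show updE n s.1 (res n s.1 v) (piv n s.1 v) (i * n + i') = ∑ j ∈ insert k J,
      updR n w k s.1 s.2 (vecM n w s.2 v) (res n s.1 v) (piv n s.1 v) (i * w + j) *
        U (j * n + i')
    obtain ⟨p, hp⟩ : ∃ p, p = piv n s.1 v := ⟨_, rfl⟩
    rw [← hp]
    obtain ⟨a, ha⟩ : ∃ a : K, a = (if i = p then 1 else 0) - s.1 (i * n + p) := ⟨_, rfl⟩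
    obtain ⟨b, hb⟩ : ∃ b : K, b = res n s.1 v p := ⟨_, rfl⟩
    rw [updE_apply hi hi', ← ha, ← hb]
    have h1 : ∀ j ∈ insert k J,
        updR n w k s.1 s.2 (vecM n w s.2 v) (res n s.1 v) p (i * w + j) * U (j * n + i') =
        s.2 (i * w + j) * U (j * n + i') + a / b * ((if j = k then U (j * n + i') else 0) -
          vecM n w s.2 v j * U (j * n + i')) := by
      intro j hj
      rw [updR_apply hi (Finset.mem_range.1 (hsub hj)), ← ha, ← hb]
      split_ifs <;> ring
    rw [Finset.sum_congr rfl h1, Finset.sum_add_distrib, ← Finset.mul_sum,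
      Finset.sum_sub_distrib, Finset.sum_ite_eq', if_pos (Finset.mem_insert_self _ _),
      Finset.sum_insert hkJ, Finset.sum_insert hkJ, h.zero i hi k hk hkJ,
      h.vecM_zero v hkJ, zero_mul, zero_add, zero_add, ← h.rel i hi i' hi',
      ← h.comb v hi', res_apply hi', hU i' hi']
    ring
  have hzero : ∀ i < n, ∀ j < w, j ∉ insert k J → (ins n w k v s).2 (i * w + j) = 0 := by
    intro i hi j hj hjJ
    rw [ins_of_lt hv]
    show updR n w k s.1 s.2 (vecM n w s.2 v) (res n s.1 v) (piv n s.1 v) (i * w + j) = 0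
    rw [Finset.mem_insert, not_or] at hjJ
    rw [updR_apply hi hj, h.zero i hi j hj hjJ.2, h.vecM_zero v hjJ.2, if_neg hjJ.1]
    simp
  refine ⟨hsub, hrel, hzero, hfix, ?_⟩
  rw [Finset.card_insert_of_notMem hkJ]
  apply le_antisymm
  · -- the fixed vectors lie in the span of the inserted ones
    have h1 : Fix n (ins n w k v s).1 ≤ Submodule.span K
        (Set.range fun j : (insert k J : Finset ℕ) => vec n (fun i => U (j * n + i))) := by
      intro u hu
      obtain ⟨v', hv'⟩ : ∃ v : ℕ → K, vec n v = u :=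
        ⟨fun i => if h : i < n then u ⟨i, h⟩ else 0, by ext i; simp [vec]⟩
      rw [← hv'] at hu ⊢
      have h1 : vec n v' = ∑ j : (insert k J : Finset ℕ),
          (∑ i ∈ range n, v' i * (ins n w k v s).2 (i * w + j)) •
            vec n (fun i => U (j * n + i)) := by
        ext i'
        rw [Finset.sum_apply]
        show v' i' = _
        rw [mem_Fix.1 hu i' i'.2]
        have h2 : ∀ i ∈ range n, v' i * (ins n w k v s).1 (i * n + i') =
            ∑ j ∈ insert k J, v' i * (ins n w k v s).2 (i * w + j) * U (j * n + i') := by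
          intro i hi
          rw [hrel i (Finset.mem_range.1 hi) i' i'.2, Finset.mul_sum]
          exact Finset.sum_congr rfl fun j _ => (mul_assoc _ _ _).symm
        rw [Finset.sum_congr rfl h2, Finset.sum_comm, ← Finset.sum_coe_sort]
        refine Finset.sum_congr rfl fun j _ => ?_
        rw [← Finset.sum_mul]
        rfl
      rw [h1]
      exact Submodule.sum_mem _ fun j _ =>
        Submodule.smul_mem _ _ (Submodule.subset_span ⟨j, rfl⟩)
    refine (Submodule.finrank_mono h1).trans ?_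
    refine (finrank_range_le_card _).trans ?_
    rw [Fintype.card_coe, Finset.card_insert_of_notMem hkJ]
  · have := finrank_lt n w k v s hv
    rw [h.card] at this
    exact this

end defs

/-! ### costs -/

theorem vecM_rlz : RlzQ (a := .prod .nat (.prod .nat (.prod .arr .arr))) (b := .arr)
    (fun K _ x => vecM x.1 x.2.1 (x.2.2.1 : ℕ → K) x.2.2.2) (fun _ _ x => x.2.1 * (x.1 + 1)) := by
  unfold vecM
  apply RlzQ.mono
  case h =>
    apply_rules (maxDepth := 1000) [RlzQ.tab, RlzQ.sum, RlzQ.add, RlzQ.mul, RlzQ.fmul, RlzQ.get, RlzQ.fst,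
      RlzQ.snd, RlzQ.input]
  case A => exact 4
  case hc =>
    intro K _ x
    simp only [Finset.sum_const_zero, add_zero, zero_add, Finset.sum_const, Finset.card_range,
      smul_eq_mul]
    nlinarith

theorem res_rlz : RlzQ (a := .prod .nat (.prod .arr .arr)) (b := .arr)
    (fun K _ x => res x.1 (x.2.1 : ℕ → K) x.2.2) (fun _ _ x => x.1 * (x.1 + 1)) := by
  unfold res
  apply RlzQ.mono
  case h =>
    apply_rules (maxDepth := 1000) [RlzQ.tab, RlzQ.sum, RlzQ.add, RlzQ.mul, RlzQ.fmul, RlzQ.fsub, RlzQ.get,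
      RlzQ.fst, RlzQ.snd, RlzQ.input]
  case A => exact 4
  case hc =>
    intro K _ x
    simp only [Finset.sum_const_zero, add_zero, zero_add, Finset.sum_const, Finset.card_range,
      smul_eq_mul]
    nlinarith

/-- the input of the insertion: `(n, (w, (k, (v, (E, R)))))` -/
abbrev T : Ty := .prod .nat (.prod .nat (.prod .nat (.prod .arr (.prod .arr .arr))))

theorem updE_rlz : RlzQ (a := .prod (.prod T .arr) .nat) (b := .arr)
    (fun K _ x => updE x.1.1.1 (x.1.1.2.2.2.2.1 : ℕ → K) x.1.2 x.2)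
    (fun _ _ x => x.1.1.1 * x.1.1.1) := by
  unfold updE
  apply RlzQ.mono
  case h =>
    apply_rules (maxDepth := 1000) [RlzQ.tab, RlzQ.iteEq, RlzQ.one, RlzQ.zero, RlzQ.add, RlzQ.mul,
      RlzQ.div, RlzQ.mod, RlzQ.fmul, RlzQ.fadd, RlzQ.fsub, RlzQ.fdiv, RlzQ.get, RlzQ.fst,
      RlzQ.snd, RlzQ.input]
  case A => exact 4
  case hc =>
    intro K _ x
    simp only [Finset.sum_const_zero, add_zero, zero_add, ite_self]
    nlinarith

theorem updR_rlz : RlzQ (a := .prod (.prod (.prod T .arr) .nat) .arr) (b := .arr)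
    (fun K _ x => updR x.1.1.1.1 x.1.1.1.2.1 x.1.1.1.2.2.1 (x.1.1.1.2.2.2.2.1 : ℕ → K)
      x.1.1.1.2.2.2.2.2 x.2 x.1.1.2 x.1.2)
    (fun _ _ x => x.1.1.1.1 * x.1.1.1.2.1) := by
  unfold updR
  apply RlzQ.mono
  case h =>
    apply_rules (maxDepth := 1000) [RlzQ.tab, RlzQ.iteEq, RlzQ.one, RlzQ.zero, RlzQ.add, RlzQ.mul,
      RlzQ.div, RlzQ.mod, RlzQ.fmul, RlzQ.fadd, RlzQ.fsub, RlzQ.fdiv, RlzQ.get, RlzQ.fst,
      RlzQ.snd, RlzQ.input]
  case A => exact 4
  case hc =>
    intro K _ x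
    simp only [Finset.sum_const_zero, add_zero, zero_add, ite_self]
    nlinarith

/-- the cost of the insertion -/
theorem ins_rlz : RlzQ (a := T) (b := .prod .arr .arr)
    (fun K _ x => ins x.1 x.2.1 x.2.2.1 (x.2.2.2.1 : ℕ → K) x.2.2.2.2)
    (fun K _ x => (x.1 + 1) ^ 2 +
      if piv x.1 (x.2.2.2.2.1 : ℕ → K) x.2.2.2.1 < x.1 then x.1 * x.2.1 + x.2.1 else 0) := by
  -- the residue
  have hr : RlzQ (a := T) (b := .arr) (fun K _ x => res x.1 (x.2.2.2.2.1 : ℕ → K) x.2.2.2.1)
      (fun _ _ x => x.1 * (x.1 + 1)) := by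
    exact (RlzQ.comp res_rlz (RlzQ.pair (RlzQ.fst RlzQ.input) (RlzQ.pair
      (RlzQ.fst (RlzQ.snd (RlzQ.snd (RlzQ.snd (RlzQ.snd RlzQ.input)))))
      (RlzQ.fst (RlzQ.snd (RlzQ.snd (RlzQ.snd RlzQ.input))))))).mono 1 (fun K _ x => by simp)
  -- the pivot
  have hp : RlzQ (a := .prod T .arr) (b := .nat) (fun K _ x => gaPiv x.1.1 1 (x.2 : ℕ → K) 0)
      (fun _ _ x => x.1.1) := by
    exact (RlzQ.comp gaPiv_rlz (RlzQ.pair (RlzQ.fst (RlzQ.fst RlzQ.input)) (RlzQ.pair
      (RlzQ.lit 1) (RlzQ.pair (RlzQ.lit 0) (RlzQ.snd RlzQ.input))))).mono 1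
      (fun K _ x => by simp)
  -- `v R`
  have hc : RlzQ (a := .prod (.prod T .arr) .nat) (b := .arr)
      (fun K _ x => vecM x.1.1.1 x.1.1.2.1 (x.1.1.2.2.2.2.2 : ℕ → K) x.1.1.2.2.2.1)
      (fun _ _ x => x.1.1.2.1 * (x.1.1.1 + 1)) := by
    exact (RlzQ.comp vecM_rlz (RlzQ.pair (RlzQ.fst (RlzQ.fst (RlzQ.fst RlzQ.input)))
      (RlzQ.pair (RlzQ.fst (RlzQ.snd (RlzQ.fst (RlzQ.fst RlzQ.input)))) (RlzQ.pair
        (RlzQ.snd (RlzQ.snd (RlzQ.snd (RlzQ.snd (RlzQ.snd (RlzQ.fst (RlzQ.fst RlzQ.input)))))))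
        (RlzQ.fst (RlzQ.snd (RlzQ.snd (RlzQ.snd (RlzQ.fst (RlzQ.fst RlzQ.input)))))))))).mono 1
      (fun K _ x => by simp)
  have hs : RlzQ (a := .prod (.prod T .arr) .nat) (b := .prod .arr .arr)
      (fun K _ x => (updE x.1.1.1 (x.1.1.2.2.2.2.1 : ℕ → K) x.1.2 x.2,
        updR x.1.1.1 x.1.1.2.1 x.1.1.2.2.1 (x.1.1.2.2.2.2.1 : ℕ → K)
          x.1.1.2.2.2.2.2 (vecM x.1.1.1 x.1.1.2.1 (x.1.1.2.2.2.2.2 : ℕ → K) x.1.1.2.2.2.1)
          x.1.2 x.2))
      (fun _ _ x => x.1.1.1 * x.1.1.1 + (x.1.1.1 * x.1.1.2.1 + x.1.1.2.1)) := by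
    refine (RlzQ.pair updE_rlz (RlzQ.letIn updR_rlz hc)).mono 2 (fun K _ x => ?_)
    nlinarith
  have h0 : RlzQ (a := .prod (.prod T .arr) .nat) (b := .prod .arr .arr)
      (fun K _ x => x.1.1.2.2.2.2) (fun _ _ _ => 0) := by
    apply_rules (maxDepth := 1000) [RlzQ.fst, RlzQ.snd, RlzQ.input]
  have h1 := RlzQ.iteLt (T := fun K _ (x : Ty.val K (.prod (.prod T .arr) .nat)) => x.2)
    (U := fun K _ (x : Ty.val K (.prod (.prod T .arr) .nat)) => x.1.1.1)
    (RlzQ.snd RlzQ.input) (RlzQ.fst (RlzQ.fst (RlzQ.fst RlzQ.input))) hs h0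
  have h2 := RlzQ.letIn (RlzQ.letIn h1 hp) hr
  refine (h2.congr (fun K _ x => ?_)).mono 3 (fun K _ x => ?_)
  · rfl
  · have e : gaPiv x.1 1 (res x.1 (x.2.2.2.2.1 : ℕ → K) x.2.2.2.1) 0 =
      piv x.1 (x.2.2.2.2.1 : ℕ → K) x.2.2.2.1 := rfl
    dsimp only
    rw [e]
    split_ifs <;> nlinarith

end Ins

/-- the states of the insertion loop -/
private noncomputable def solLoop {K : Type} [Field K] (n m : ℕ) (U : ℕ → K) (k : ℕ) :
    (ℕ → K) × (ℕ → K) :=
  iterF k (tabF 0 (fun _ => 0), tabF 0 (fun _ => 0))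
    (fun s j => Ins.ins n m j (tabF n (fun i => U (j * n + i))) s)

private theorem sum_ite_le {m n : ℕ} (c : ℕ) {P : ℕ → Prop} [DecidablePred P]
    (h : ∑ j ∈ range m, (if P j then 1 else 0) ≤ n) :
    ∑ j ∈ range m, (if P j then c else 0) ≤ n * c := by
  calc ∑ j ∈ range m, (if P j then c else 0) = (∑ j ∈ range m, (if P j then 1 else 0)) * c := by
        rw [Finset.sum_mul]
        exact Finset.sum_congr rfl fun j _ => by split_ifs <;> simp
    _ ≤ n * c := Nat.mul_le_mul_right _ h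

private theorem vec_tab {K : Type} [Field K] (n : ℕ) (f : ℕ → K) :
    Ins.vec n (tabF n f) = Ins.vec n f := by
  ext i; simp [Ins.vec, tabF]

private theorem solLoop_inv {K : Type} [Field K] (n m : ℕ) (U : ℕ → K) (k : ℕ) (hk : k ≤ m) :
    ∃ J : Finset ℕ, J ⊆ range k ∧ Ins.Inv n m U J (solLoop n m U k) ∧
      ∀ j < k, Ins.vec n (fun i => U (j * n + i)) ∈ Ins.Fix n (solLoop n m U k).1 := by
  induction k with
  | zero => exact ⟨∅, by simp, Ins.Inv.init n m U, fun j hj => absurd hj (Nat.not_lt_zero j)⟩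
  | succ k ih =>
    obtain ⟨J, h1, h2, h3⟩ := ih (by omega)
    have e : solLoop n m U (k + 1) =
      Ins.ins n m k (tabF n (fun i => U (k * n + i))) (solLoop n m U k) := rfl
    have h4 : ∀ j < k + 1, Ins.vec n (fun i => U (j * n + i)) ∈
        Ins.Fix n (solLoop n m U (k + 1)).1 := by
      intro j hj
      rw [e]
      rcases Nat.lt_succ_iff_lt_or_eq.1 hj with h | h
      · exact Ins.Fix_le _ _ _ _ _ (h3 j h)
      · rw [h]
        have := Ins.self_mem_Fix n m k (tabF n (fun i => U (k * n + i))) (solLoop n m U k)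
        rwa [vec_tab] at this
    by_cases hp : Ins.piv n (solLoop n m U k).1 (tabF n (fun i => U (k * n + i))) < n
    · refine ⟨insert k J, ?_, ?_, h4⟩
      · rw [Finset.range_add_one]
        exact Finset.insert_subset_insert k h1
      · rw [e]
        refine h2.succ hp (by omega) (fun h => ?_) (fun i hi => ?_)
        · exact absurd (Finset.mem_range.1 (h1 h)) (lt_irrefl k)
        · simp [tabF, hi]
    · refine ⟨J, h1.trans (Finset.range_subset_range.2 (by omega)), ?_, h4⟩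
      rw [e]
      exact h2.fail hp k

theorem span_solve : ∃ F : Fam (.prod .nat (.prod .nat (.prod .arr .arr))) .arr,
    RlzQ F (fun _ _ x => (x.2.1 + 1) * (x.1 + 1) ^ 2) ∧
    ∀ (K : Type) [Field K] (n m : ℕ) (U v : ℕ → K),
      (∃ c : ℕ → K, ∀ i < n, v i = ∑ j ∈ range m, c j * U (j * n + i)) →
      ∀ i < n, v i = ∑ j ∈ range m, F K (n, (m, (U, v))) j * U (j * n + i) := by
  refine ⟨fun K _ x => Ins.vecM x.1 x.2.1 (solLoop x.1 x.2.1 (x.2.2.1 : ℕ → K) x.2.1).2 x.2.2.2,
    ?_, ?_⟩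
  · -- the vector number `j`
    have hv : RlzQ (a := .prod (.prod (.prod .nat (.prod .nat (.prod .arr .arr)))
        (.prod .arr .arr)) .nat) (b := .arr)
        (fun K _ x => tabF x.1.1.1 (fun i => (x.1.1.2.2.1 : ℕ → K) (x.2 * x.1.1.1 + i)))
        (fun _ _ x => x.1.1.1) := by
      apply RlzQ.mono
      case h =>
        apply_rules (maxDepth := 1000) [RlzQ.tab, RlzQ.add, RlzQ.mul, RlzQ.get, RlzQ.fst,
          RlzQ.snd, RlzQ.input]
      case A => exact 1
      case hc => intro K _ x; simp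
    have hbody : RlzQ (a := .prod (.prod (.prod .nat (.prod .nat (.prod .arr .arr)))
        (.prod .arr .arr)) .nat) (b := .prod .arr .arr)
        (fun K _ x => Ins.ins x.1.1.1 x.1.1.2.1 x.2
          (tabF x.1.1.1 (fun i => (x.1.1.2.2.1 : ℕ → K) (x.2 * x.1.1.1 + i))) x.1.2)
        (fun K _ x => (x.1.1.1 + 1) ^ 2 + if Ins.piv x.1.1.1 (x.1.2.1 : ℕ → K)
          (tabF x.1.1.1 (fun i => (x.1.1.2.2.1 : ℕ → K) (x.2 * x.1.1.1 + i))) < x.1.1.1 then
            x.1.1.1 * x.1.1.2.1 + x.1.1.2.1 else 0) := by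
      refine (RlzQ.comp Ins.ins_rlz (RlzQ.pair (RlzQ.fst (RlzQ.fst (RlzQ.fst RlzQ.input)))
        (RlzQ.pair (RlzQ.fst (RlzQ.snd (RlzQ.fst (RlzQ.fst RlzQ.input))))
          (RlzQ.pair (RlzQ.snd RlzQ.input) (RlzQ.pair hv
            (RlzQ.snd (RlzQ.fst RlzQ.input))))))).mono 2 (fun K _ x => ?_)
      dsimp only
      split_ifs <;> nlinarith
    have h0 : RlzQ (a := .prod .nat (.prod .nat (.prod .arr .arr))) (b := .prod .arr .arr)
        (fun K _ _ => (tabF 0 (fun _ => (0 : K)), tabF 0 (fun _ => (0 : K))))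
        (fun _ _ _ => 0) := by
      have h : RlzQ (a := .prod .nat (.prod .nat (.prod .arr .arr))) (b := .arr)
          (fun K _ _ => tabF 0 (fun _ => (0 : K))) (fun _ _ _ => 0) :=
        (RlzQ.tab (f := fun K _ _ _ => (0 : K)) (RlzQ.lit 0) RlzQ.zero).mono 1
          (fun K _ x => by simp)
      exact (RlzQ.pair h h).mono 1 (fun K _ x => by simp)
    have hloop := RlzQ.iter (a := .prod .nat (.prod .nat (.prod .arr .arr)))
      (b := .prod .arr .arr) (N := fun K _ x => x.2.1)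
      (S := fun K _ _ => (tabF 0 (fun _ => (0 : K)), tabF 0 (fun _ => (0 : K))))
      (f := fun K _ x s j => Ins.ins x.1 x.2.1 j
        (tabF x.1 (fun i => (x.2.2.1 : ℕ → K) (j * x.1 + i))) s)
      (RlzQ.fst (RlzQ.snd RlzQ.input)) h0 hbody
    have hout := RlzQ.comp Ins.vecM_rlz (RlzQ.pair (RlzQ.fst RlzQ.input)
      (RlzQ.pair (RlzQ.fst (RlzQ.snd RlzQ.input)) (RlzQ.pair (RlzQ.snd hloop)
        (RlzQ.snd (RlzQ.snd (RlzQ.snd RlzQ.input))))))
    refine (hout.congr (fun K _ x => rfl)).mono 4 (fun K _ x => ?_)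
    dsimp only
    have hc := Ins.count_le x.1 x.2.1 (fun j => j)
      (fun j => tabF x.1 (fun i => (x.2.2.1 : ℕ → K) (j * x.1 + i)))
      (tabF 0 (fun _ => (0 : K)), tabF 0 (fun _ => (0 : K))) x.2.1
    have h5 := sum_ite_le (x.1 * x.2.1 + x.2.1) hc
    beta_reduce at h5
    rw [Finset.sum_add_distrib, Finset.sum_const, Finset.card_range, smul_eq_mul]
    generalize (∑ j ∈ range x.2.1, if Ins.piv x.1 (iterF j (tabF 0 (fun _ => (0 : K)),
      tabF 0 (fun _ => (0 : K))) fun s j => Ins.ins x.1 x.2.1 j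
        (tabF x.1 (fun i => (x.2.2.1 : ℕ → K) (j * x.1 + i))) s).1
        (tabF x.1 (fun i => (x.2.2.1 : ℕ → K) (j * x.1 + i))) < x.1 then x.1 * x.2.1 + x.2.1
          else 0) = S at h5 ⊢
    obtain ⟨n, hn⟩ : ∃ n : ℕ, n = x.1 := ⟨_, rfl⟩
    obtain ⟨m, hm⟩ : ∃ m : ℕ, m = x.2.1 := ⟨_, rfl⟩
    rw [← hn, ← hm] at h5 ⊢
    nlinarith
  · intro K _ n m U v ⟨c, hc⟩ i hi
    obtain ⟨J, h1, h2, h3⟩ := solLoop_inv n m U m le_rfl
    have hv : Ins.vec n v ∈ Ins.Fix n (solLoop n m U m).1 := by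
      have h4 : Ins.vec n v = ∑ j ∈ range m, c j • Ins.vec n (fun i => U (j * n + i)) := by
        ext i
        rw [Finset.sum_apply]
        exact hc i i.2
      rw [h4]
      exact Submodule.sum_mem _ fun j hj =>
        Submodule.smul_mem _ _ (h3 j (Finset.mem_range.1 hj))
    rw [h2.eq_of_mem hv hi]
    refine Finset.sum_subset h1 fun j _ hj => ?_
    rw [h2.vecM_zero v hj, zero_mul]

end Pool.Agent.AbsIrr
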