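import Mathlib
import Pool.Agent.Lib.MP_2adc98_lc.FDefs
import Pool.Agent.Lib.MP_2adc98_lc.FDefs2
import Pool.Agent.Lib.MP_2adc98_lc.FA
import Pool.Agent.Lib.MP_2adc98_lc.FL

/-!
# MP_2adc98_lc, piece FS: splitting at `x = 0` (helper65)
-/

set_option autoImplicit false

namespace Pool.Agent.AbsIrr

open Finset Polynomial

namespace FSaux

section basic
variable {K : Type} [Field K]

theorem tab_lt (n : ℕ) (f : ℕ → K) {i : ℕ} (hi : i < n) : tabF n f i = f i := by
  unfold tabF
  rw [if_pos hi]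

theorem tab_ge (n : ℕ) (f : ℕ → K) {i : ℕ} (hi : ¬ i < n) : tabF n f i = 0 := by
  unfold tabF
  rw [if_neg hi]

theorem apol_coeff (n : ℕ) (A : ℕ → K) (i : ℕ) :
    (apol n A).coeff i = if i < n then A i else 0 := by
  unfold apol
  rw [finsetSum_coeff]
  simp only [coeff_monomial]
  rw [sum_ite_eq' (range n) i]
  simp

theorem blk_coeff (w : ℕ) (A : ℕ → K) (c i : ℕ) :
    (blk w A c).coeff i = if i < w then A (c * w + i) else 0 := by
  unfold blk
  rw [finsetSum_coeff]
  simp only [coeff_monomial]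
  rw [sum_ite_eq' (range w) i]
  simp

theorem gmon_coeff (n : ℕ) (g : ℕ → K) (i : ℕ) :
    (gmon n g).coeff i = (if i = n then 1 else 0) + if i < n then g i else 0 := by
  unfold gmon
  rw [coeff_add, coeff_X_pow, finsetSum_coeff]
  simp only [coeff_monomial]
  rw [sum_ite_eq' (range n) i]
  simp

theorem apol_degree (n : ℕ) (A : ℕ → K) : (apol n A).degree < (n : WithBot ℕ) := by
  rw [degree_lt_iff_coeff_zero]
  intro m hm
  rw [apol_coeff, if_neg (by omega)]

theorem gmon_monic (n : ℕ) (g : ℕ → K) : (gmon n g).Monic := by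
  unfold gmon
  exact monic_X_pow_add (apol_degree n g)

theorem gmon_degree (n : ℕ) (g : ℕ → K) : (gmon n g).degree = (n : WithBot ℕ) := by
  unfold gmon
  rw [degree_add_eq_left_of_degree_lt]
  · exact degree_X_pow n
  · rw [degree_X_pow]
    exact apol_degree n g

theorem gmon_natDegree (n : ℕ) (g : ℕ → K) : (gmon n g).natDegree = n :=
  natDegree_eq_of_degree_eq_some (gmon_degree n g)

theorem gmon_eq {n : ℕ} {g : ℕ → K} {P : K[X]} (hP : P.Monic) (hd : P.natDegree = n)
    (h : ∀ i < n, g i = P.coeff i) : gmon n g = P := by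
  ext i
  rw [gmon_coeff]
  rcases lt_trichotomy i n with hi | hi | hi
  · rw [if_neg (by omega), if_pos hi, zero_add, h i hi]
  · rw [if_pos hi, if_neg (by omega), add_zero, hi, ← hd]
    exact hP.symm
  · rw [if_neg (by omega), if_neg (by omega), add_zero]
    exact (coeff_eq_zero_of_natDegree_lt (by omega)).symm

theorem apol_tab (n : ℕ) (f : ℕ → K) : apol n (tabF n f) = apol n f := by
  ext i
  rw [apol_coeff, apol_coeff]
  by_cases hi : i < n
  · rw [if_pos hi, if_pos hi, tab_lt _ _ hi]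
  · rw [if_neg hi, if_neg hi]

theorem apol_mulmod (n : ℕ) (g A B : ℕ → K) :
    apol n (mulmod n g A B) = (apol n A * apol n B) %ₘ gmon n g := by
  ext i
  rw [apol_coeff]
  by_cases hi : i < n
  · rw [if_pos hi]
    unfold mulmod
    rw [tab_lt _ _ hi]
  · rw [if_neg hi]
    symm
    apply coeff_eq_zero_of_degree_lt
    have h1 := degree_modByMonic_lt (apol n A * apol n B) (gmon_monic n g)
    rw [gmon_degree] at h1
    exact h1.trans_le (by exact_mod_cast (by omega : n ≤ i))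

theorem mulmod_dvd (n : ℕ) (g A B : ℕ → K) :
    gmon n g ∣ apol n (mulmod n g A B) - apol n A * apol n B := by
  rw [apol_mulmod]
  have h := modByMonic_add_div (apol n A * apol n B) (gmon n g)
  refine ⟨-((apol n A * apol n B) /ₘ gmon n g), ?_⟩
  linear_combination h

theorem adeg_le (n : ℕ) (A : ℕ → K) : adeg n A ≤ n := by
  classical
  unfold adeg
  refine Finset.sup_le fun i hi => ?_
  have := mem_range.1 (mem_filter.1 hi).1
  simp only [id_eq]
  omega

/-- multiplication by `X` modulo `gmon n g` -/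
def mx (n : ℕ) (g B : ℕ → K) : ℕ → K :=
  tabF n (fun i => (if i = 0 then 0 else B (i - 1)) - B (n - 1) * g i)

theorem mx_dvd {n : ℕ} (hn : 1 ≤ n) (g B : ℕ → K) :
    gmon n g ∣ apol n (mx n g B) - X * apol n B := by
  refine ⟨-C (B (n - 1)), ?_⟩
  rw [sub_eq_iff_eq_add]
  ext i
  rw [mul_neg, coeff_add, coeff_neg, coeff_mul_C, gmon_coeff, apol_coeff]
  rcases Nat.eq_zero_or_pos i with rfl | hi
  · rw [coeff_X_mul_zero, if_pos (by omega), if_neg (by omega), if_pos (by omega)]
    unfold mx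
    rw [tab_lt _ _ (by omega), if_pos rfl]
    ring
  · obtain ⟨j, rfl⟩ : ∃ j, i = j + 1 := ⟨i - 1, by omega⟩
    rw [coeff_X_mul, apol_coeff]
    rcases lt_trichotomy (j + 1) n with h | h | h
    · rw [if_pos h, if_neg (by omega), if_pos h, if_pos (by omega)]
      unfold mx
      rw [tab_lt _ _ h, if_neg (by omega), Nat.add_sub_cancel]
      ring
    · rw [if_neg (by omega), if_pos h, if_neg (by omega), if_pos (by omega), ← h,
        Nat.add_sub_cancel]
      ring
    · rw [if_neg (by omega), if_neg (by omega), if_neg (by omega), if_neg (by omega)]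
      ring

/-- Horner scheme: `t` rounds -/
noncomputable def hor (n : ℕ) (g H Q : ℕ → K) (t : ℕ) : ℕ → K :=
  iterF (S := ℕ → K) t (tabF 0 fun _ => (0 : K))
    (fun s i => tabF n (fun u => mulmod n g s H u + if u = 0 then Q (n - i) else 0))

theorem hor_dvd {n : ℕ} (hn : 1 ≤ n) (g H Q : ℕ → K) {t : ℕ} (ht : t ≤ n + 1) :
    gmon n g ∣ apol n (hor n g H Q t) -
      ∑ i ∈ range t, C (Q (n + 1 - t + i)) * apol n H ^ i := by
  induction t with
  | zero =>
    have : apol n (hor n g H Q 0) = 0 := by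
      ext i
      rw [apol_coeff]
      simp [hor, tabF]
    rw [this]
    simp
  | succ t ih =>
    have hst : hor n g H Q (t + 1) = tabF n (fun u => mulmod n g (hor n g H Q t) H u +
      if u = 0 then Q (n - t) else 0) := rfl
    have h1 : apol n (hor n g H Q (t + 1)) =
        apol n (mulmod n g (hor n g H Q t) H) + C (Q (n - t)) := by
      rw [hst, apol_tab]
      ext i
      rw [coeff_add, apol_coeff, apol_coeff, coeff_C]
      by_cases hi : i < n
      · rw [if_pos hi, if_pos hi]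
      · rw [if_neg hi, if_neg hi, if_neg (by omega), add_zero]
    have h2 := mulmod_dvd n g (hor n g H Q t) H
    have h3 := (ih (by omega)).mul_right (apol n H)
    have h4 := dvd_add h2 h3
    rw [h1]
    refine h4.trans (dvd_of_eq ?_)
    rw [sum_range_succ', pow_zero, mul_one, add_zero, show n + 1 - (t + 1) = n - t by omega]
    have h5 : ∑ i ∈ range t, C (Q (n - t + (i + 1))) * apol n H ^ (i + 1) =
        (∑ i ∈ range t, C (Q (n + 1 - t + i)) * apol n H ^ i) * apol n H := by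
      rw [sum_mul]
      refine sum_congr rfl fun i _ => ?_
      rw [show n + 1 - t + i = n - t + (i + 1) by omega]
      ring
    rw [h5]
    ring

theorem hor_comp {n : ℕ} (hn : 1 ≤ n) (g H Qa : ℕ → K) {Q : K[X]} (hd : Q.natDegree ≤ n)
    (hQ : ∀ i ≤ n, Qa i = Q.coeff i) :
    gmon n g ∣ apol n (hor n g H Qa (n + 1)) - Q.comp (apol n H) := by
  have h := hor_dvd hn g H Qa (t := n + 1) le_rfl
  have h2 : ∑ i ∈ range (n + 1), C (Qa (n + 1 - (n + 1) + i)) * apol n H ^ i =
      Q.comp (apol n H) := by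
    rw [comp, eval₂_eq_sum_range' C (show Q.natDegree < n + 1 by omega)]
    refine sum_congr rfl fun i hi => ?_
    rw [Nat.sub_self, zero_add, hQ i (by have := mem_range.1 hi; omega)]
  rwa [h2] at h

/-- the new block -/
noncomputable def new (n : ℕ) (g H B : ℕ → K) (r i : ℕ) (s : ℕ → K) : ℕ → K :=
  if i = 0 then B else if i < r then mulmod n g H (blkA n (i - 1) s) else mx n g (blkA n (i - r) s)

/-- write a block -/
def put (n m i : ℕ) (w s : ℕ → K) : ℕ → K :=
  tabF ((m + 1) * n) (fun u => if u / n = i then w (u % n) else s u)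

/-- the vectors -/
noncomputable def uu (n : ℕ) (g H B : ℕ → K) (m r t : ℕ) : ℕ → K :=
  iterF (S := ℕ → K) t (tabF 0 fun _ => (0 : K)) (fun s i => put n m i (new n g H B r i s) s)

theorem apol_congr {n : ℕ} {A B : ℕ → K} (h : ∀ i < n, A i = B i) : apol n A = apol n B := by
  ext i
  rw [apol_coeff, apol_coeff]
  by_cases hi : i < n
  · rw [if_pos hi, if_pos hi, h i hi]
  · rw [if_neg hi, if_neg hi]

theorem blkA_lt {n i : ℕ} (j : ℕ) (A : ℕ → K) (hi : i < n) : blkA n j A i = A (j * n + i) := by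
  unfold blkA
  rw [tab_lt _ _ hi]

theorem apol_put {n m i s : ℕ} (hn : 1 ≤ n) (hs : s ≤ m) (w A : ℕ → K) :
    apol n (blkA n s (put n m i w A)) = if s = i then apol n w else apol n (blkA n s A) := by
  have h0 : ∀ u < n, s * n + u < (m + 1) * n := by
    intro u hu
    calc s * n + u < s * n + n := by omega
      _ = (s + 1) * n := by ring
      _ ≤ (m + 1) * n := Nat.mul_le_mul_right _ (by omega)
  have h1 : ∀ u < n, (s * n + u) / n = s := by
    intro u hu
    rw [mul_comm, Nat.mul_add_div (by omega), Nat.div_eq_of_lt hu, add_zero]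
  have h2 : ∀ u < n, (s * n + u) % n = u := by
    intro u hu
    rw [mul_comm, Nat.mul_add_mod, Nat.mod_eq_of_lt hu]
  split_ifs with h
  · refine apol_congr fun u hu => ?_
    rw [blkA_lt _ _ hu]
    unfold put
    rw [tab_lt _ _ (h0 u hu), h1 u hu, if_pos h, h2 u hu]
  · refine apol_congr fun u hu => ?_
    rw [blkA_lt _ _ hu, blkA_lt _ _ hu]
    unfold put
    rw [tab_lt _ _ (h0 u hu), h1 u hu, if_neg h]

/-- the polynomials represented by the blocks -/
noncomputable def TT (h Qh : K[X]) (r s : ℕ) : K[X] := h ^ (s % r) * X ^ (s / r) * Qh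

theorem uu_dvd {n : ℕ} (hn : 1 ≤ n) (g H B : ℕ → K) {m r δ : ℕ} (hm : m = δ * r) {Qh : K[X]}
    (hB : gmon n g ∣ apol n B - Qh) {t : ℕ} (ht : t ≤ m + 1) :
    ∀ s < t, gmon n g ∣ apol n (blkA n s (uu n g H B m r t)) - TT (apol n H) Qh r s := by
  induction t with
  | zero => intro s hs; omega
  | succ t ih =>
    intro s hs
    have ih' := ih (by omega)
    have hst : uu n g H B m r (t + 1) =
      put n m t (new n g H B r t (uu n g H B m r t)) (uu n g H B m r t) := rfl
    rw [hst, apol_put hn (by omega)]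
    by_cases hst' : s = t
    · rw [if_pos hst']
      subst hst'
      unfold new
      by_cases h0 : s = 0
      · rw [if_pos h0]
        subst h0
        simpa [TT] using hB
      · rw [if_neg h0]
        have hr : 0 < r := by
          rcases Nat.eq_zero_or_pos r with hr | hr
          · rw [hr, mul_zero] at hm
            omega
          · exact hr
        by_cases h1 : s < r
        · rw [if_pos h1]
          have h2 := mulmod_dvd n g H (blkA n (s - 1) (uu n g H B m r s))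
          have h3 := (ih' (s - 1) (by omega)).mul_left (apol n H)
          refine (dvd_add h2 h3).trans (dvd_of_eq ?_)
          unfold TT
          rw [Nat.mod_eq_of_lt h1, Nat.div_eq_of_lt h1, Nat.mod_eq_of_lt (by omega : s - 1 < r),
            Nat.div_eq_of_lt (by omega : s - 1 < r)]
          obtain ⟨u, rfl⟩ : ∃ u, s = u + 1 := ⟨s - 1, by omega⟩
          rw [Nat.add_sub_cancel]
          ring
        · rw [if_neg h1]
          have h2 := mx_dvd hn g (blkA n (s - r) (uu n g H B m r s))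
          have h3 := (ih' (s - r) (by omega)).mul_left X
          refine (dvd_add h2 h3).trans (dvd_of_eq ?_)
          unfold TT
          obtain ⟨u, rfl⟩ : ∃ u, s = u + r := ⟨s - r, by omega⟩
          rw [Nat.add_sub_cancel, Nat.add_mod_right, Nat.add_div_right _ hr]
          ring
    · rw [if_neg hst']
      exact ih' s (by omega)

end basic

/-! ## the mathematics -/

section math
variable {K : Type} [Field K] {k : Type} [Field k] [Algebra K k]

theorem sum_double {M : Type*} [AddCommMonoid M] (δ r : ℕ) (f : ℕ → M) :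
    ∑ s ∈ range (δ * r), f s = ∑ j ∈ range δ, ∑ l ∈ range r, f (j * r + l) := by
  induction δ with
  | zero => simp
  | succ δ ih =>
    rw [Nat.succ_mul, sum_range_add, ih, sum_range_succ]

theorem sum_TT (h Qh : K[X]) (r δ : ℕ) (c : ℕ → K) :
    ∑ s ∈ range (δ * r), C (c s) * TT h Qh r s =
      (∑ j ∈ range δ, (∑ l ∈ range r, C (c (j * r + l)) * h ^ l) * X ^ j) * Qh := by
  rw [sum_double, sum_mul]
  refine sum_congr rfl fun j _ => ?_
  rw [sum_mul, sum_mul]
  refine sum_congr rfl fun l hl => ?_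
  have hl' := mem_range.1 hl
  unfold TT
  rw [mul_comm j r, Nat.mul_add_mod, Nat.mod_eq_of_lt hl', Nat.mul_add_div (by omega),
    Nat.div_eq_of_lt hl', add_zero]
  ring

theorem modByMonic_sum {L : Type} [Field L] (q : L[X]) (W : L[X]) (S : ℕ → L[X]) (d : ℕ → L)
    (m : ℕ) : (W + ∑ s ∈ range m, C (d s) * S s) %ₘ q =
      W %ₘ q + ∑ s ∈ range m, C (d s) * (S s %ₘ q) := by
  rw [add_modByMonic]
  congr 1
  induction m with
  | zero => simp
  | succ m ih =>
    rw [sum_range_succ, sum_range_succ, add_modByMonic, ih, ← smul_eq_C_mul,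
      smul_modByMonic, smul_eq_C_mul]

/-- descent of solutions -/
theorem descent {G : K[X]} (hG : G.Monic) (T : ℕ → K[X]) (V : K[X]) (m : ℕ) (c' : ℕ → k)
    (h : G.map (algebraMap K k) ∣ V.map (algebraMap K k) +
      ∑ s ∈ range m, C (c' s) * (T s).map (algebraMap K k)) :
    ∃ c : ℕ → K, G ∣ V + ∑ s ∈ range m, C (c s) * T s := by
  have hinj : LinearMap.ker (Algebra.linearMap K k) = ⊥ :=
    LinearMap.ker_eq_bot.2 (algebraMap K k).injective
  obtain ⟨lam, hlam⟩ := LinearMap.exists_leftInverse_of_injective (Algebra.linearMap K k) hinj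
  have hl : ∀ x : K, lam (algebraMap K k x) = x := fun x => by
    have := LinearMap.congr_fun hlam x
    simpa using this
  refine ⟨fun s => lam (c' s), ?_⟩
  have hG' : (G.map (algebraMap K k)).Monic := hG.map _
  rw [← modByMonic_eq_zero_iff_dvd hG]
  rw [← modByMonic_eq_zero_iff_dvd hG'] at h
  rw [modByMonic_sum] at h ⊢
  ext i
  have hi := congrArg (fun p => p.coeff i) h
  simp only [coeff_add, finsetSum_coeff, coeff_C_mul, coeff_zero] at hi ⊢
  rw [← map_modByMonic _ hG, coeff_map] at hi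
  simp_rw [← map_modByMonic _ hG, coeff_map] at hi
  have h2 := congrArg lam hi
  rw [map_add, map_sum, map_zero, hl] at h2
  rw [← h2]
  congr 1
  refine sum_congr rfl fun s _ => ?_
  rw [mul_comm (c' s), ← Algebra.smul_def, map_smul, smul_eq_mul, mul_comm]

variable {ι : Type} [Fintype ι]

theorem exists_sol {δ r : ℕ} {G h Q : K[X]} (hG : G.Monic)
    {P : ι → k[X]} {val : ι → k} (hP : ∀ c, (P c).Monic)
    (hcop : Pairwise fun c c' => IsCoprime (P c) (P c'))
    (hprod : G.map (algebraMap K k) = ∏ c, P c) (hval : Function.Injective val)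
    (hh : ∀ c, P c ∣ h.map (algebraMap K k) - C (val c))
    (hQ : Q.map (algebraMap K k) = ∏ c with (P c).natDegree ≠ δ, (X - C (val c)))
    (hr : r = (univ.filter fun c => (P c).natDegree = δ).card) :
    ∃ c : ℕ → K, G ∣ TT h (Q.comp h) r (δ * r) +
      ∑ s ∈ range (δ * r), C (c s) * TT h (Q.comp h) r s := by
  classical
  set σ := algebraMap K k with hσ
  set S := univ.filter fun c => (P c).natDegree = δ with hS
  set p : ℕ → k[X] := fun j => Lagrange.interpolate S val (fun c => (P c).coeff j) with hp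
  have hpe : ∀ j, ∀ c ∈ S, (p j).eval (val c) = (P c).coeff j := fun j c hc =>
    Lagrange.eval_interpolate_at_node _ hval.injOn hc
  have hpd : ∀ j, (p j).degree < (r : WithBot ℕ) := fun j => by
    rw [hr]
    exact Lagrange.degree_interpolate_lt _ hval.injOn
  have key := descent (K := K) (k := k) hG (TT h (Q.comp h) r) (TT h (Q.comp h) r (δ * r))
    (δ * r) (fun s => (p (s / r)).coeff (s % r)) ?_
  · exact key
  rw [hprod]
  refine Finset.prod_dvd_of_coprime (fun c _ c' _ hcc => hcop hcc) fun c _ => ?_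
  -- factor out `Q(h)`
  have hTm : ∀ s, (TT h (Q.comp h) r s).map σ =
      TT (h.map σ) ((Q.map σ).comp (h.map σ)) r s := by
    intro s
    unfold TT
    rw [Polynomial.map_mul, Polynomial.map_mul, Polynomial.map_pow, Polynomial.map_pow, map_X,
      Polynomial.map_comp]
  rw [hTm, sum_congr rfl (fun s _ => by rw [hTm s])]
  rw [sum_TT]
  by_cases hc : (P c).natDegree = δ
  · have hcS : c ∈ S := mem_filter.2 ⟨mem_univ _, hc⟩
    have hr0 : 0 < r := by
      rw [hr]
      exact Finset.card_pos.2 ⟨c, hcS⟩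
    have hTd : TT (h.map σ) ((Q.map σ).comp (h.map σ)) r (δ * r) =
        X ^ δ * (Q.map σ).comp (h.map σ) := by
      unfold TT
      rw [Nat.mul_mod_left, Nat.mul_div_cancel _ hr0]
      ring
    rw [hTd, ← add_mul]
    refine Dvd.dvd.mul_right ?_ _
    have h1 : P c ∣ ∑ j ∈ range δ, (∑ l ∈ range r,
        C ((p ((j * r + l) / r)).coeff ((j * r + l) % r)) * (h.map σ) ^ l) * X ^ j -
        ∑ j ∈ range δ, C ((P c).coeff j) * X ^ j := by
      rw [← sum_sub_distrib]
      refine Finset.dvd_sum fun j _ => ?_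
      rw [← sub_mul]
      refine Dvd.dvd.mul_right ?_ _
      have h2 : ∑ l ∈ range r,
          C ((p ((j * r + l) / r)).coeff ((j * r + l) % r)) * (h.map σ) ^ l =
          ∑ l ∈ range r, C ((p j).coeff l) * (h.map σ) ^ l := by
        refine sum_congr rfl fun l hl => ?_
        have hl' := mem_range.1 hl
        rw [mul_comm j r, Nat.mul_add_mod, Nat.mod_eq_of_lt hl', Nat.mul_add_div (by omega),
          Nat.div_eq_of_lt hl', add_zero]
      have h3 : C ((P c).coeff j) = ∑ l ∈ range r, C ((p j).coeff l) * C (val c) ^ l := by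
        rw [← hpe j c hcS, eval_eq_sum_range' (show (p j).natDegree < r from ?_)]
        · rw [map_sum]
          refine sum_congr rfl fun l _ => ?_
          rw [C_mul, C_pow]
        · by_cases hp0 : p j = 0
          · rw [hp0, natDegree_zero]
            exact hr0
          · exact (natDegree_lt_iff_degree_lt hp0).2 (hpd j)
      rw [h2, h3, ← sum_sub_distrib]
      refine Finset.dvd_sum fun l _ => ?_
      rw [← mul_sub]
      exact ((hh c).trans (sub_dvd_pow_sub_pow _ _ l)).mul_left _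
    have h4 : P c = X ^ δ + ∑ j ∈ range δ, C ((P c).coeff j) * X ^ j := by
      conv_lhs => rw [(P c).as_sum_range_C_mul_X_pow, hc, sum_range_succ]
      have h5 : (P c).coeff δ = 1 := by
        rw [← hc]
        exact hP c
      rw [h5, C_1, one_mul, add_comm]
    have h5 := dvd_add h1 (dvd_refl (P c))
    refine h5.trans (dvd_of_eq ?_)
    linear_combination h4
  · have h1 : P c ∣ (Q.map σ).comp (h.map σ) := by
      rw [hQ, Polynomial.prod_comp]
      refine (hh c).trans ?_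
      have h2 := Finset.dvd_prod_of_mem (fun c => (X - C (val c)).comp (h.map σ))
        (mem_filter.2 ⟨mem_univ c, hc⟩ : c ∈ univ.filter fun c => (P c).natDegree ≠ δ)
      simpa using h2
    unfold TT
    exact dvd_add (h1.mul_left _) (h1.mul_left _)


theorem sol_spec {δ r : ℕ} {G h Q : K[X]}
    {P : ι → k[X]} {val : ι → k} (hP : ∀ c, (P c).Monic)
    (hprod : G.map (algebraMap K k) = ∏ c, P c) (hval : Function.Injective val)
    (hh : ∀ c, P c ∣ h.map (algebraMap K k) - C (val c))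
    (hQ : Q.map (algebraMap K k) = ∏ c with (P c).natDegree ≠ δ, (X - C (val c)))
    (hr : 0 < r) (p : ℕ → K) (hp : G ∣ TT h (Q.comp h) r (δ * r) +
      ∑ s ∈ range (δ * r), C (p s) * TT h (Q.comp h) r s) (c : ι)
    (hc : (P c).natDegree = δ) :
    P c = X ^ δ + ∑ j ∈ range δ, C (dv r (val c) p j) * X ^ j := by
  classical
  set σ := algebraMap K k with hσ
  have hTd : TT h (Q.comp h) r (δ * r) = X ^ δ * Q.comp h := by
    unfold TT
    rw [Nat.mul_mod_left, Nat.mul_div_cancel _ hr]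
    ring
  rw [sum_TT, hTd, ← add_mul] at hp
  have h1 : P c ∣ ((X ^ δ + ∑ j ∈ range δ, (∑ l ∈ range r, C (p (j * r + l)) * h ^ l) * X ^ j) *
      Q.comp h).map σ := by
    refine Dvd.dvd.trans ?_ (Polynomial.map_dvd σ hp)
    rw [hprod]
    exact Finset.dvd_prod_of_mem P (mem_univ c)
  rw [Polynomial.map_mul, Polynomial.map_comp] at h1
  -- `Q(h)` modulo `P c`
  have h2 : P c ∣ (Q.map σ).comp (h.map σ) - C ((Q.map σ).eval (val c)) := by
    refine (hh c).trans ?_
    have h3 := sub_dvd_eval_sub (h.map σ) (C (val c)) ((Q.map σ).map C)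
    rw [eval_map, eval_map, ← comp, ← comp, comp_C] at h3
    exact h3
  have he : (Q.map σ).eval (val c) ≠ 0 := by
    rw [hQ, eval_prod]
    refine prod_ne_zero_iff.2 fun c' hc' => ?_
    rw [eval_sub, eval_X, eval_C, sub_ne_zero]
    intro h0
    exact (mem_filter.1 hc').2 (by rw [← hval h0]; exact hc)
  have hM : P c ∣ (X ^ δ + ∑ j ∈ range δ, (∑ l ∈ range r, C (p (j * r + l)) * h ^ l) *
      X ^ j).map σ - (X ^ δ + ∑ j ∈ range δ, C (dv r (val c) p j) * X ^ j) := by
    rw [Polynomial.map_add, Polynomial.map_pow, map_X, Polynomial.map_sum, add_sub_add_left_eq_sub,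
      ← sum_sub_distrib]
    refine Finset.dvd_sum fun j _ => ?_
    rw [Polynomial.map_mul, Polynomial.map_pow, map_X, ← sub_mul]
    refine Dvd.dvd.mul_right ?_ _
    unfold dv
    rw [map_sum, Polynomial.map_sum, ← sum_sub_distrib]
    refine Finset.dvd_sum fun l _ => ?_
    rw [Polynomial.map_mul, map_C, Polynomial.map_pow, C_mul, C_pow, ← mul_sub]
    exact ((hh c).trans (sub_dvd_pow_sub_pow _ _ l)).mul_left _
  set M := (X ^ δ + ∑ j ∈ range δ, (∑ l ∈ range r, C (p (j * r + l)) * h ^ l) * X ^ j).map σ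
  set M' := X ^ δ + ∑ j ∈ range δ, C (dv r (val c) p j) * X ^ j with hM'
  have h4 : P c ∣ M' * C ((Q.map σ).eval (val c)) := by
    have h5 := dvd_sub (dvd_sub h1 (h2.mul_left M)) (hM.mul_right (C ((Q.map σ).eval (val c))))
    refine h5.trans (dvd_of_eq ?_)
    ring
  have h5 : P c ∣ M' := by
    have hu : IsUnit (C ((Q.map σ).eval (val c))) := isUnit_C.2 (isUnit_iff_ne_zero.2 he)
    exact (hu.dvd_mul_right).1 h4
  have h6 : M' = gmon δ (fun j => dv r (val c) p j) := by
    rw [hM']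
    unfold gmon
    congr 1
    exact sum_congr rfl fun j _ => C_mul_X_pow_eq_monomial
  have h7 : M'.Monic := by rw [h6]; exact gmon_monic _ _
  have h8 : M'.natDegree = δ := by rw [h6]; exact gmon_natDegree _ _
  exact (eq_of_monic_of_dvd_of_natDegree_le (hP c) h7 h5 (by rw [h8, hc])).symm

end math

/-! ## realizability -/

section rlz

abbrev TE : Ty := .prod .nat (.prod .arr (.prod .arr (.prod .arr .nat)))

theorem mx_rlz : RlzQ (a := .prod .nat (.prod .arr .arr)) (b := .arr)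
    (fun K _ x => mx (K := K) x.1 x.2.1 x.2.2) (fun _ _ x => x.1) := by
  unfold mx
  have hf : RlzQ (a := .prod (.prod .nat (.prod .arr .arr)) .nat) (b := .fld)
      (fun K _ x => (if (x.2 : ℕ) = 0 then (0 : K) else (x.1.2.2 : ℕ → K) (x.2 - 1)) -
        (x.1.2.2 : ℕ → K) (x.1.1 - 1) * (x.1.2.1 : ℕ → K) x.2) (fun _ _ _ => 0) := by
    refine (RlzQ.fsub (RlzQ.iteEq (RlzQ.snd RlzQ.input) (RlzQ.lit 0) RlzQ.zero
      (RlzQ.get (RlzQ.snd (RlzQ.snd (RlzQ.fst RlzQ.input)))
        (RlzQ.sub (RlzQ.snd RlzQ.input) (RlzQ.lit 1))))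
      (RlzQ.fmul (RlzQ.get (RlzQ.snd (RlzQ.snd (RlzQ.fst RlzQ.input)))
        (RlzQ.sub (RlzQ.fst (RlzQ.fst RlzQ.input)) (RlzQ.lit 1)))
        (RlzQ.get (RlzQ.fst (RlzQ.snd (RlzQ.fst RlzQ.input))) (RlzQ.snd RlzQ.input)))).mono 1
        (fun K _ x => ?_)
    simp
  have := RlzQ.tab (a := .prod .nat (.prod .arr .arr)) (N := fun _ _ x => x.1)
    (f := fun K _ x i => (if (i : ℕ) = 0 then (0 : K) else (x.2.2 : ℕ → K) (i - 1)) -
        (x.2.2 : ℕ → K) (x.1 - 1) * (x.2.1 : ℕ → K) i) (RlzQ.fst RlzQ.input) hf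
  exact this.mono 1 (fun K _ x => by simp)

theorem horb_rlz : RlzQ (a := .prod .nat (.prod .arr .fld)) (b := .arr)
    (fun K _ x => tabF x.1 (fun u => (x.2.1 : ℕ → K) u + if u = 0 then (x.2.2 : K) else 0))
    (fun _ _ x => x.1) := by
  have hf : RlzQ (a := .prod (.prod .nat (.prod .arr .fld)) .nat) (b := .fld)
      (fun K _ x => (x.1.2.1 : ℕ → K) x.2 + if (x.2 : ℕ) = 0 then (x.1.2.2 : K) else 0)
        (fun _ _ _ => 0) := by
    refine (RlzQ.fadd (RlzQ.get (RlzQ.fst (RlzQ.snd (RlzQ.fst RlzQ.input))) (RlzQ.snd RlzQ.input))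
      (RlzQ.iteEq (RlzQ.snd RlzQ.input) (RlzQ.lit 0) (RlzQ.snd (RlzQ.snd (RlzQ.fst RlzQ.input)))
        RlzQ.zero)).mono 1 (fun K _ x => ?_)
    simp
  have := RlzQ.tab (a := .prod .nat (.prod .arr .fld)) (N := fun _ _ x => x.1)
    (f := fun K _ x i => (x.2.1 : ℕ → K) i + if (i : ℕ) = 0 then (x.2.2 : K) else 0)
    (RlzQ.fst RlzQ.input) hf
  exact this.mono 1 (fun K _ x => by simp)

theorem zero_rlz {a : Ty} : RlzQ (a := a) (b := .arr) (fun K _ _ => tabF 0 fun _ => (0 : K))
    (fun _ _ _ => 0) := by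
  have := RlzQ.tab (a := a) (N := fun _ _ _ => 0) (f := fun K _ _ _ => (0 : K))
    (RlzQ.lit 0) RlzQ.zero
  exact this.mono 1 (fun K _ x => by simp)

theorem hor_rlz : RlzQ (a := .prod .nat (.prod .arr (.prod .arr .arr))) (b := .arr)
    (fun K _ x => hor (K := K) x.1 x.2.1 x.2.2.1 x.2.2.2 (x.1 + 1))
    (fun _ _ x => (x.1 + 1) ^ 2) := by
  have hx : RlzQ (a := .prod (.prod (.prod .nat (.prod .arr (.prod .arr .arr))) .arr) .nat)
      (b := .prod .nat (.prod .arr (.prod .arr .arr))) (fun _ _ x => x.1.1) (fun _ _ _ => 0) :=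
    RlzQ.fst (RlzQ.fst RlzQ.input)
  have hbody : RlzQ (a := .prod (.prod (.prod .nat (.prod .arr (.prod .arr .arr))) .arr) .nat)
      (b := .arr)
      (fun K _ x => tabF x.1.1.1 (fun u => mulmod (K := K) x.1.1.1 x.1.1.2.1 x.1.2 x.1.1.2.2.1 u +
        if u = 0 then (x.1.1.2.2.2 : ℕ → K) (x.1.1.1 - x.2) else 0))
      (fun _ _ x => x.1.1.1) := by
    refine (RlzQ.comp horb_rlz (RlzQ.pair (RlzQ.fst hx) (RlzQ.pair
      (RlzQ.mulmod (RlzQ.fst hx) (RlzQ.fst (RlzQ.snd hx)) (RlzQ.snd (RlzQ.fst RlzQ.input))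
        (RlzQ.fst (RlzQ.snd (RlzQ.snd hx))))
      (RlzQ.get (RlzQ.snd (RlzQ.snd (RlzQ.snd hx)))
        (RlzQ.sub (RlzQ.fst hx) (RlzQ.snd RlzQ.input)))))).mono 2 (fun K _ x => ?_)
    dsimp only
    omega
  have hloop := RlzQ.iter (a := .prod .nat (.prod .arr (.prod .arr .arr))) (b := .arr)
    (N := fun _ _ x => x.1 + 1)
    (f := fun K _ x s i => tabF x.1 (fun u => mulmod (K := K) x.1 x.2.1 s x.2.2.1 u +
        if u = 0 then (x.2.2.2 : ℕ → K) (x.1 - i) else 0))
    (RlzQ.add (RlzQ.fst RlzQ.input) (RlzQ.lit 1)) zero_rlz hbody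
  refine hloop.mono 2 (fun K _ x => ?_)
  have h1 : ∑ _i ∈ range (x.1 + 1), x.1 = (x.1 + 1) * x.1 := by simp
  dsimp only
  rw [h1]
  nlinarith

theorem put_rlz : RlzQ (a := .prod .nat (.prod .nat (.prod .nat (.prod .arr .arr)))) (b := .arr)
    (fun K _ x => put (K := K) x.1 x.2.1 x.2.2.1 x.2.2.2.1 x.2.2.2.2)
    (fun _ _ x => (x.2.1 + 1) * x.1) := by
  unfold put
  have hx : RlzQ (a := .prod (.prod .nat (.prod .nat (.prod .nat (.prod .arr .arr)))) .nat)
      (b := .prod .nat (.prod .nat (.prod .nat (.prod .arr .arr)))) (fun _ _ x => x.1)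
      (fun _ _ _ => 0) := RlzQ.fst RlzQ.input
  have hf : RlzQ (a := .prod (.prod .nat (.prod .nat (.prod .nat (.prod .arr .arr)))) .nat)
      (b := .fld)
      (fun K _ x => if (x.2 : ℕ) / x.1.1 = x.1.2.2.1 then (x.1.2.2.2.1 : ℕ → K) (x.2 % x.1.1)
        else (x.1.2.2.2.2 : ℕ → K) x.2) (fun _ _ _ => 0) := by
    refine (RlzQ.iteEq (RlzQ.div (RlzQ.snd RlzQ.input) (RlzQ.fst hx))
      (RlzQ.fst (RlzQ.snd (RlzQ.snd hx)))
      (RlzQ.get (RlzQ.fst (RlzQ.snd (RlzQ.snd (RlzQ.snd hx))))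
        (RlzQ.mod (RlzQ.snd RlzQ.input) (RlzQ.fst hx)))
      (RlzQ.get (RlzQ.snd (RlzQ.snd (RlzQ.snd (RlzQ.snd hx)))) (RlzQ.snd RlzQ.input))).mono 1
      (fun K _ x => ?_)
    simp
  have := RlzQ.tab (a := .prod .nat (.prod .nat (.prod .nat (.prod .arr .arr))))
    (N := fun _ _ x => (x.2.1 + 1) * x.1)
    (f := fun K _ x i => if (i : ℕ) / x.1 = x.2.2.1 then (x.2.2.2.1 : ℕ → K) (i % x.1)
        else (x.2.2.2.2 : ℕ → K) i)
    (RlzQ.mul (RlzQ.add (RlzQ.fst (RlzQ.snd RlzQ.input)) (RlzQ.lit 1)) (RlzQ.fst RlzQ.input)) hf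
  exact this.mono 1 (fun K _ x => by simp)

theorem new_rlz : RlzQ (a := .prod .nat (.prod .arr (.prod .arr (.prod .arr (.prod .nat
    (.prod .nat .arr)))))) (b := .arr)
    (fun K _ x => new (K := K) x.1 x.2.1 x.2.2.1 x.2.2.2.1 x.2.2.2.2.1 x.2.2.2.2.2.1
      x.2.2.2.2.2.2) (fun _ _ x => x.1) := by
  unfold new
  have hn : RlzQ (a := .prod .nat (.prod .arr (.prod .arr (.prod .arr (.prod .nat
    (.prod .nat .arr)))))) (b := .nat) (fun _ _ x => x.1) (fun _ _ _ => 0) := RlzQ.fst RlzQ.input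
  have hg : RlzQ (a := .prod .nat (.prod .arr (.prod .arr (.prod .arr (.prod .nat
    (.prod .nat .arr)))))) (b := .arr) (fun _ _ x => x.2.1) (fun _ _ _ => 0) :=
    RlzQ.fst (RlzQ.snd RlzQ.input)
  have hH : RlzQ (a := .prod .nat (.prod .arr (.prod .arr (.prod .arr (.prod .nat
    (.prod .nat .arr)))))) (b := .arr) (fun _ _ x => x.2.2.1) (fun _ _ _ => 0) :=
    RlzQ.fst (RlzQ.snd (RlzQ.snd RlzQ.input))
  have hB : RlzQ (a := .prod .nat (.prod .arr (.prod .arr (.prod .arr (.prod .nat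
    (.prod .nat .arr)))))) (b := .arr) (fun _ _ x => x.2.2.2.1) (fun _ _ _ => 0) :=
    RlzQ.fst (RlzQ.snd (RlzQ.snd (RlzQ.snd RlzQ.input)))
  have hr : RlzQ (a := .prod .nat (.prod .arr (.prod .arr (.prod .arr (.prod .nat
    (.prod .nat .arr)))))) (b := .nat) (fun _ _ x => x.2.2.2.2.1) (fun _ _ _ => 0) :=
    RlzQ.fst (RlzQ.snd (RlzQ.snd (RlzQ.snd (RlzQ.snd RlzQ.input))))
  have hi : RlzQ (a := .prod .nat (.prod .arr (.prod .arr (.prod .arr (.prod .nat
    (.prod .nat .arr)))))) (b := .nat) (fun _ _ x => x.2.2.2.2.2.1) (fun _ _ _ => 0) :=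
    RlzQ.fst (RlzQ.snd (RlzQ.snd (RlzQ.snd (RlzQ.snd (RlzQ.snd RlzQ.input)))))
  have hs : RlzQ (a := .prod .nat (.prod .arr (.prod .arr (.prod .arr (.prod .nat
    (.prod .nat .arr)))))) (b := .arr) (fun _ _ x => x.2.2.2.2.2.2) (fun _ _ _ => 0) :=
    RlzQ.snd (RlzQ.snd (RlzQ.snd (RlzQ.snd (RlzQ.snd (RlzQ.snd RlzQ.input)))))
  refine (RlzQ.iteEq hi (RlzQ.lit 0) hB (RlzQ.iteLt hi hr
    (RlzQ.mulmod hn hg hH (RlzQ.blkA hn (RlzQ.sub hi (RlzQ.lit 1)) hs))
    (RlzQ.comp mx_rlz (RlzQ.pair hn (RlzQ.pair hg (RlzQ.blkA hn (RlzQ.sub hi hr) hs)))))).mono 4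
    (fun K _ x => ?_)
  dsimp only
  split_ifs <;> omega

theorem uu_rlz : RlzQ (a := .prod .nat (.prod .arr (.prod .arr (.prod .arr (.prod .nat .nat)))))
    (b := .arr)
    (fun K _ x => uu (K := K) x.1 x.2.1 x.2.2.1 x.2.2.2.1 x.2.2.2.2.1 x.2.2.2.2.2
      (x.2.2.2.2.1 + 1)) (fun _ _ x => (x.2.2.2.2.1 + 1) ^ 2 * (x.1 + 1)) := by
  have hx : RlzQ (a := .prod (.prod (.prod .nat (.prod .arr (.prod .arr (.prod .arr
      (.prod .nat .nat))))) .arr) .nat)
      (b := .prod .nat (.prod .arr (.prod .arr (.prod .arr (.prod .nat .nat)))))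
      (fun _ _ x => x.1.1) (fun _ _ _ => 0) := RlzQ.fst (RlzQ.fst RlzQ.input)
  have hs : RlzQ (a := .prod (.prod (.prod .nat (.prod .arr (.prod .arr (.prod .arr
      (.prod .nat .nat))))) .arr) .nat) (b := .arr)
      (fun _ _ x => x.1.2) (fun _ _ _ => 0) := RlzQ.snd (RlzQ.fst RlzQ.input)
  have hi : RlzQ (a := .prod (.prod (.prod .nat (.prod .arr (.prod .arr (.prod .arr
      (.prod .nat .nat))))) .arr) .nat) (b := .nat)
      (fun _ _ x => x.2) (fun _ _ _ => 0) := RlzQ.snd RlzQ.input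
  have hbody : RlzQ (a := .prod (.prod (.prod .nat (.prod .arr (.prod .arr (.prod .arr
      (.prod .nat .nat))))) .arr) .nat) (b := .arr)
      (fun K _ x => put (K := K) x.1.1.1 x.1.1.2.2.2.2.1 x.2
        (new (K := K) x.1.1.1 x.1.1.2.1 x.1.1.2.2.1 x.1.1.2.2.2.1 x.1.1.2.2.2.2.2 x.2 x.1.2) x.1.2)
      (fun _ _ x => (x.1.1.2.2.2.2.1 + 1) * x.1.1.1 + x.1.1.1) := by
    refine (RlzQ.comp put_rlz (RlzQ.pair (RlzQ.fst hx)
      (RlzQ.pair (RlzQ.fst (RlzQ.snd (RlzQ.snd (RlzQ.snd (RlzQ.snd hx)))))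
        (RlzQ.pair hi (RlzQ.pair (RlzQ.comp new_rlz (RlzQ.pair (RlzQ.fst hx)
          (RlzQ.pair (RlzQ.fst (RlzQ.snd hx)) (RlzQ.pair (RlzQ.fst (RlzQ.snd (RlzQ.snd hx)))
            (RlzQ.pair (RlzQ.fst (RlzQ.snd (RlzQ.snd (RlzQ.snd hx))))
              (RlzQ.pair (RlzQ.snd (RlzQ.snd (RlzQ.snd (RlzQ.snd (RlzQ.snd hx)))))
                (RlzQ.pair hi hs))))))) hs))))).mono 1 (fun K _ x => ?_)
    dsimp only
    omega
  have hloop := RlzQ.iter
    (a := .prod .nat (.prod .arr (.prod .arr (.prod .arr (.prod .nat .nat))))) (b := .arr)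
    (N := fun _ _ x => x.2.2.2.2.1 + 1)
    (f := fun K _ x s i => put (K := K) x.1 x.2.2.2.2.1 i
        (new (K := K) x.1 x.2.1 x.2.2.1 x.2.2.2.1 x.2.2.2.2.2 i s) s)
    (RlzQ.add (RlzQ.fst (RlzQ.snd (RlzQ.snd (RlzQ.snd (RlzQ.snd RlzQ.input))))) (RlzQ.lit 1))
    zero_rlz hbody
  refine hloop.mono 3 (fun K _ x => ?_)
  have h1 : ∑ _i ∈ range (x.2.2.2.2.1 + 1), ((x.2.2.2.2.1 + 1) * x.1 + x.1) =
      (x.2.2.2.2.1 + 1) * ((x.2.2.2.2.1 + 1) * x.1 + x.1) := by simp
  dsimp only
  rw [h1]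
  nlinarith [Nat.zero_le (x.2.2.2.2.1 * x.1), Nat.zero_le (x.2.2.2.2.1 * x.2.2.2.2.1 * x.1)]

end rlz

end FSaux

namespace FSaux

section final

noncomputable def fQ : Fam TE .arr := fun K _ x =>
  divB 1 (x.1 + 1) (adeg (x.1 + 1) (blkA (x.1 + 1) x.2.2.2.2 x.2.2.2.1))
    (blkA (x.1 + 1) x.2.2.2.2 x.2.2.2.1) (blkA (x.1 + 1) (x.2.2.2.2 - 1) x.2.2.2.1)

noncomputable def fR : Fam TE .nat := fun K _ x => numc (K := K) x.1 x.2.2.2.2 x.2.2.2.1

noncomputable def fQa : Fam TE .arr := fun K _ x =>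
  divB 1 (x.1 + 1) (fR K x) (fQ K x) (blkA (x.1 + 1) 0 x.2.2.2.1)

noncomputable def fB : Fam TE .arr := fun K _ x => hor (K := K) x.1 x.2.1 x.2.2.1 (fQa K x) (x.1 + 1)

noncomputable def fU : Fam TE .arr := fun K _ x =>
  uu (K := K) x.1 x.2.1 x.2.2.1 (fB K x) (x.2.2.2.2 * fR K x) (fR K x) (x.2.2.2.2 * fR K x + 1)

def negBlk {K : Type} [Field K] (n m : ℕ) (U : ℕ → K) : ℕ → K := tabF n (fun i => -U (m * n + i))

theorem hn : RlzQ (a := TE) (b := .nat) (fun _ _ x => x.1) (fun _ _ _ => 0) := RlzQ.fst RlzQ.input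
theorem hg : RlzQ (a := TE) (b := .arr) (fun _ _ x => x.2.1) (fun _ _ _ => 0) :=
  RlzQ.fst (RlzQ.snd RlzQ.input)
theorem hH : RlzQ (a := TE) (b := .arr) (fun _ _ x => x.2.2.1) (fun _ _ _ => 0) :=
  RlzQ.fst (RlzQ.snd (RlzQ.snd RlzQ.input))
theorem hS : RlzQ (a := TE) (b := .arr) (fun _ _ x => x.2.2.2.1) (fun _ _ _ => 0) :=
  RlzQ.fst (RlzQ.snd (RlzQ.snd (RlzQ.snd RlzQ.input)))
theorem hδ : RlzQ (a := TE) (b := .nat) (fun _ _ x => x.2.2.2.2) (fun _ _ _ => 0) :=
  RlzQ.snd (RlzQ.snd (RlzQ.snd (RlzQ.snd RlzQ.input)))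
theorem hn1 : RlzQ (a := TE) (b := .nat) (fun _ _ x => x.1 + 1) (fun _ _ _ => 0) :=
  (RlzQ.add hn (RlzQ.lit 1)).mono 1 (fun _ _ _ => by simp)

theorem fR_rlz : RlzQ fR (fun _ _ x => x.1) := by
  refine (RlzQ.sub (RlzQ.adeg hn1 (RlzQ.blkA hn1 (RlzQ.sub hδ (RlzQ.lit 1)) hS))
    (RlzQ.adeg hn1 (RlzQ.blkA hn1 hδ hS))).mono 4 (fun K _ x => ?_)
  omega

theorem fR_le (K : Type) [Field K] (x : TE.val K) : @LE.le ℕ _ (fR K x) (x.1 + 1) :=
  (Nat.sub_le _ _).trans (adeg_le _ _)

theorem fQ_rlz : RlzQ fQ (fun _ _ x => x.1) := by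
  refine (RlzQ.quo hn1 (RlzQ.adeg hn1 (RlzQ.blkA hn1 hδ hS)) (RlzQ.blkA hn1 hδ hS)
    (RlzQ.blkA hn1 (RlzQ.sub hδ (RlzQ.lit 1)) hS)).mono 8 (fun K _ x => ?_)
  have := adeg_le (K := K) (x.1 + 1) (blkA (x.1 + 1) x.2.2.2.2 x.2.2.2.1)
  omega

theorem fQa_rlz : RlzQ fQa (fun _ _ x => x.1) := by
  refine (RlzQ.quo hn1 fR_rlz fQ_rlz (RlzQ.blkA hn1 (RlzQ.lit 0) hS)).mono 8 (fun K _ x => ?_)
  have := fR_le K x
  omega

theorem fB_rlz : RlzQ fB (fun _ _ x => (x.1 + 1) ^ 2) := by
  refine (RlzQ.comp hor_rlz (RlzQ.pair hn (RlzQ.pair hg (RlzQ.pair hH fQa_rlz)))).mono 2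
    (fun K _ x => ?_)
  dsimp only
  nlinarith

theorem fM_rlz : RlzQ (a := TE) (b := .nat) (fun K _ x => x.2.2.2.2 * fR K x)
    (fun _ _ x => x.1) :=
  (RlzQ.mul hδ fR_rlz).mono 1 (fun K _ x => by simp)

theorem fU_rlz : RlzQ fU (fun K _ x => (x.2.2.2.2 * fR K x + 1) ^ 2 * (x.1 + 1) +
    (x.1 + 1) ^ 2) := by
  refine (RlzQ.comp uu_rlz (RlzQ.pair hn (RlzQ.pair hg (RlzQ.pair hH (RlzQ.pair fB_rlz
    (RlzQ.pair fM_rlz fR_rlz)))))).mono 3 (fun K _ x => ?_)
  dsimp only
  nlinarith [Nat.zero_le ((x.2.2.2.2 * fR K x + 1) ^ 2 * (x.1 + 1))]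

theorem neg_rlz : RlzQ (a := .prod .nat (.prod .nat .arr)) (b := .arr)
    (fun K _ x => negBlk (K := K) x.1 x.2.1 x.2.2) (fun _ _ x => x.1) := by
  unfold negBlk
  have hf : RlzQ (a := .prod (.prod .nat (.prod .nat .arr)) .nat) (b := .fld)
      (fun K _ x => -(x.1.2.2 : ℕ → K) (x.1.2.1 * x.1.1 + x.2)) (fun _ _ _ => 0) :=
    (RlzQ.fneg (RlzQ.get (RlzQ.snd (RlzQ.snd (RlzQ.fst RlzQ.input)))
      (RlzQ.add (RlzQ.mul (RlzQ.fst (RlzQ.snd (RlzQ.fst RlzQ.input)))
        (RlzQ.fst (RlzQ.fst RlzQ.input))) (RlzQ.snd RlzQ.input)))).mono 1 (fun K _ x => by simp)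
  have := RlzQ.tab (a := .prod .nat (.prod .nat .arr)) (N := fun _ _ x => x.1)
    (f := fun K _ x i => -(x.2.2 : ℕ → K) (x.2.1 * x.1 + i))
    (RlzQ.fst RlzQ.input) hf
  exact this.mono 1 (fun K _ x => by simp)

/-- `(n, (m, U)) ↦` the input of the linear system -/
theorem sys_rlz {F : Fam (.prod .nat (.prod .nat (.prod .arr .arr))) .arr}
    (hF : RlzQ F (fun _ _ x => (x.2.1 + 1) * (x.1 + 1) ^ 2)) :
    RlzQ (a := .prod .nat (.prod .nat .arr)) (b := .arr)
      (fun K _ x => F K (x.1, (x.2.1, (x.2.2, negBlk (K := K) x.1 x.2.1 x.2.2))))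
      (fun _ _ x => (x.2.1 + 1) * (x.1 + 1) ^ 2) := by
  refine (RlzQ.comp hF (RlzQ.pair (RlzQ.fst RlzQ.input) (RlzQ.pair
    (RlzQ.fst (RlzQ.snd RlzQ.input)) (RlzQ.pair (RlzQ.snd (RlzQ.snd RlzQ.input))
      neg_rlz)))).mono 2 (fun K _ x => ?_)
  dsimp only
  nlinarith [Nat.zero_le (x.2.1 * (x.1 + 1) ^ 2)]

end final

end FSaux

open FSaux in
theorem split_rlz :
    ∃ F : Fam (.prod .nat (.prod .arr (.prod .arr (.prod .arr .nat))))
      (.prod .nat (.prod .arr .arr)),
    RlzQ F (fun _ _ x => (x.2.2.2.2 * numc x.1 x.2.2.2.2 x.2.2.2.1 + 1) * (x.1 + 1) ^ 2) ∧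
    ∀ (K : Type) [Field K] (n δ : ℕ) (g H S : ℕ → K) (k : Type) [Field k] [Algebra K k]
      (ι : Type) [Fintype ι] (P : ι → k[X]) (val : ι → k), (∀ c, (P c).Monic) →
      (∀ c, 1 ≤ (P c).natDegree) → (Pairwise fun c c' => IsCoprime (P c) (P c')) →
      (gmon n g).map (algebraMap K k) = ∏ c, P c → Function.Injective val →
      (∀ c, P c ∣ (apol n H).map (algebraMap K k) - C (val c)) →
      (∀ j ≤ n, (blk (n + 1) S j).map (algebraMap K k) =
        ∏ c with j < (P c).natDegree, (X - C (val c))) → 1 ≤ δ → δ ≤ n →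
      (F K (n, (g, (H, (S, δ))))).1 = numc n δ S ∧
      ((gmon (F K (n, (g, (H, (S, δ))))).1 (F K (n, (g, (H, (S, δ))))).2.1).map
        (algebraMap K k) = ∏ c with (P c).natDegree = δ, (X - C (val c))) ∧
      ∀ c, (P c).natDegree = δ → P c = X ^ δ + ∑ j ∈ range δ,
        C (dv (F K (n, (g, (H, (S, δ))))).1 (val c) (F K (n, (g, (H, (S, δ))))).2.2 j) * X ^ j := by
  obtain ⟨F, hF, hspec⟩ := span_solve
  refine ⟨fun K _ x => (fR K x, (fQ K x, if (x.1 : ℕ) < x.2.2.2.2 * fR K x then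
      tabF 0 (fun _ => (0 : K)) else
      F K (x.1, (x.2.2.2.2 * fR K x, (fU K x, negBlk (K := K) x.1 (x.2.2.2.2 * fR K x)
        (fU K x)))))), ?_, ?_⟩
  · have h1 : RlzQ (a := TE) (b := .arr)
        (fun K _ x => F K (x.1, (x.2.2.2.2 * fR K x, (fU K x, negBlk (K := K) x.1
          (x.2.2.2.2 * fR K x) (fU K x))))) _ :=
      RlzQ.comp (sys_rlz hF) (RlzQ.pair hn (RlzQ.pair fM_rlz fU_rlz))
    have key : ∀ N m : ℕ, m ≤ N → N + (N + (0 + N + (0 + (N + ((m + 1) ^ 2 * (N + 1) +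
        (N + 1) ^ 2)) + (m + 1) * (N + 1) ^ 2))) ≤ 12 * ((m + 1) * (N + 1) ^ 2 + 1) := by
      intro N m hle
      have h2 : (m + 1) ^ 2 * (N + 1) ≤ (m + 1) * (N + 1) ^ 2 := by
        rw [pow_two, pow_two]
        calc (m + 1) * (m + 1) * (N + 1) ≤ (m + 1) * (N + 1) * (N + 1) := by gcongr
          _ = (m + 1) * ((N + 1) * (N + 1)) := by ring
      nlinarith [Nat.zero_le (m * (N + 1) ^ 2)]
    refine (RlzQ.pair fR_rlz (RlzQ.pair fQ_rlz (RlzQ.iteLt hn fM_rlz zero_rlz h1))).mono 12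
      (fun K _ x => ?_)
    dsimp only
    have hr : numc x.1 x.2.2.2.2 x.2.2.2.1 = fR K x := rfl
    rw [hr]
    split_ifs with hlt
    · nlinarith [Nat.zero_le (x.2.2.2.2 * fR K x * (x.1 + 1) ^ 2)]
    · exact key x.1 _ (not_lt.1 hlt)
  · intro K _ n δ g H S k _ _ ι _ P val hP hP1 hcop hprod hval hh hSs hδ1 hδn
    classical
    set σ := algebraMap K k with hσ
    set x : TE.val K := (n, (g, (H, (S, δ)))) with hx
    have hn1 : 1 ≤ n := hδ1.trans hδn
    -- the blocks of `S`
    have hG : (gmon n g).Monic := gmon_monic n g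
    have hdeg : ∑ c, (P c).natDegree = n := by
      rw [← natDegree_prod_of_monic _ _ (fun c _ => hP c), ← hprod, natDegree_map,
        gmon_natDegree]
    have hbm : ∀ j ≤ n, (blk (n + 1) S j).Monic := by
      intro j hj
      have h1 : ((blk (n + 1) S j).map σ).Monic := by
        rw [hSs j hj]
        exact monic_prod_of_monic _ _ fun c _ => monic_X_sub_C _
      exact (monic_map_iff).1 h1
    have hbd : ∀ j ≤ n, (blk (n + 1) S j).natDegree =
        (univ.filter fun c => j < (P c).natDegree).card := by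
      intro j hj
      rw [← natDegree_map σ, hSs j hj, natDegree_prod_of_monic _ _
        (fun c _ => monic_X_sub_C _)]
      simp
    have hcn : ∀ j, (univ.filter fun c => j < (P c).natDegree).card ≤ n := by
      intro j
      rw [← hdeg, card_eq_sum_ones]
      refine (sum_le_sum fun c _ => hP1 c).trans ?_
      exact sum_le_sum_of_subset (filter_subset _ _)
    have hba : ∀ j ≤ n, adeg (n + 1) (blkA (n + 1) j S) = (blk (n + 1) S j).natDegree := by
      intro j hj
      refine adeg_eq (RingHom.id K) (hbm j hj) ?_ (fun i hi => ?_)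
      · rw [hbd j hj]
        have := hcn j
        omega
      · rw [blk_coeff, if_pos hi, blkA_lt _ _ hi]
        rfl
    have hbb : ∀ j, blk (n + 1) (blkA (n + 1) j S) 0 = blk (n + 1) S j := by
      intro j
      ext i
      rw [blk_coeff, blk_coeff]
      by_cases hi : i < n + 1
      · rw [if_pos hi, if_pos hi, zero_mul, zero_add, blkA_lt _ _ hi]
      · rw [if_neg hi, if_neg hi]
    have hbg : ∀ j ≤ n, gmon (adeg (n + 1) (blkA (n + 1) j S)) (blkA (n + 1) j S) =
        blk (n + 1) S j := by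
      intro j hj
      refine gmon_eq (hbm j hj) (hba j hj).symm (fun i hi => ?_)
      have h1 := adeg_le (n + 1) (blkA (n + 1) j S)
      rw [blk_coeff, if_pos (by omega), blkA_lt _ _ (by omega)]
    -- the quotient
    set qd := blk (n + 1) S (δ - 1) /ₘ blk (n + 1) S δ with hqd
    have hqm : qd.map σ = ∏ c with (P c).natDegree = δ, (X - C (val c)) := by
      rw [hqd, map_divByMonic _ (hbm δ hδn), hSs δ hδn, hSs (δ - 1) (by omega)]
      have h1 : ∏ c with δ - 1 < (P c).natDegree, (X - C (val c)) =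
          (∏ c with δ < (P c).natDegree, (X - C (val c))) *
            ∏ c with (P c).natDegree = δ, (X - C (val c)) := by
        rw [← prod_union]
        · congr 1
          ext c
          simp only [mem_filter, mem_univ, true_and, mem_union]
          omega
        · rw [disjoint_filter]
          intro c _ h2
          omega
      rw [h1, mul_divByMonic_cancel_left _ (monic_prod_of_monic _ _ fun c _ => monic_X_sub_C _)]
    have hqmon : qd.Monic := by
      have h1 : (qd.map σ).Monic := by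
        rw [hqm]
        exact monic_prod_of_monic _ _ fun c _ => monic_X_sub_C _
      exact (monic_map_iff).1 h1
    have hqdeg : qd.natDegree = (univ.filter fun c => (P c).natDegree = δ).card := by
      rw [← natDegree_map σ, hqm, natDegree_prod_of_monic _ _ (fun c _ => monic_X_sub_C _)]
      simp
    have hcard : (univ.filter fun c => (P c).natDegree = δ).card * δ ≤ n := by
      rw [← hdeg, ← smul_eq_mul, ← sum_const]
      refine (sum_le_sum fun c hc => (mem_filter.1 hc).2.ge).trans ?_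
      exact sum_le_sum_of_subset (filter_subset _ _)
    obtain ⟨r, hr⟩ : ∃ r : ℕ, r = fR K x := ⟨_, rfl⟩
    have hrr : r = qd.natDegree := by
      rw [hr]
      show numc n δ S = _
      unfold numc
      rw [hba δ hδn, hba (δ - 1) (by omega), hqd, natDegree_divByMonic _ (hbm δ hδn)]
    have hrcard : r = (univ.filter fun c => (P c).natDegree = δ).card := by rw [hrr, hqdeg]
    have hrn : δ * r ≤ n := by rw [hrcard, mul_comm]; exact hcard
    have hrn' : r ≤ n := (Nat.le_mul_of_pos_left r hδ1).trans hrn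
    have hQi : ∀ i < n + 1, fQ K x i = qd.coeff i := by
      intro i hi
      show divB 1 (n + 1) (adeg (n + 1) (blkA (n + 1) δ S)) (blkA (n + 1) δ S)
        (blkA (n + 1) (δ - 1) S) i = _
      unfold divB
      rw [tab_lt _ _ (by omega), Nat.div_eq_of_lt hi, Nat.mod_eq_of_lt hi, hbb, hbg δ hδn]
    have hqg : gmon r (fQ K x) = qd := gmon_eq hqmon hrr.symm (fun i hi => hQi i (by omega))
    -- the complementary factor
    set Q := blk (n + 1) S 0 /ₘ qd with hQdef
    have hQm : Q.map σ = ∏ c with (P c).natDegree ≠ δ, (X - C (val c)) := by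
      rw [hQdef, map_divByMonic _ hqmon, hSs 0 (by omega), hqm]
      have h1 : ∏ c with 0 < (P c).natDegree, (X - C (val c)) =
          (∏ c with (P c).natDegree = δ, (X - C (val c))) *
            ∏ c with (P c).natDegree ≠ δ, (X - C (val c)) := by
        rw [← prod_union]
        · congr 1
          ext c
          simp only [mem_filter, mem_univ, true_and, mem_union]
          have := hP1 c
          constructor
          · intro _
            exact em _
          · intro _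
            omega
        · rw [disjoint_filter]
          intro c _ h2 h3
          exact h3 h2
      rw [h1, mul_divByMonic_cancel_left _ (monic_prod_of_monic _ _ fun c _ => monic_X_sub_C _)]
    have hQi2 : ∀ i ≤ n, fQa K x i = Q.coeff i := by
      intro i hi
      show divB 1 (n + 1) (fR K x) (fQ K x) (blkA (n + 1) 0 S) i = _
      rw [← hr]
      unfold divB
      rw [tab_lt _ _ (by omega), Nat.div_eq_of_lt (by omega), Nat.mod_eq_of_lt (by omega), hbb,
        hqg]
    have hQd : Q.natDegree ≤ n := by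
      rw [hQdef, natDegree_divByMonic _ hqmon, hbd 0 (by omega)]
      exact (Nat.sub_le _ _).trans (hcn 0)
    have hB := hor_comp hn1 g H (fQa K x) hQd hQi2
    have hU' : fU K x = uu n g H (fB K x) (δ * r) r (δ * r + 1) := by
      rw [hr]
      rfl
    have hU := uu_dvd hn1 g H (fB K x) (m := δ * r) (r := r) rfl hB (t := δ * r + 1) le_rfl
    rw [← hU'] at hU
    have hUred : ∀ s ≤ δ * r, apol n (blkA n s (fU K x)) =
        TT (apol n H) (Q.comp (apol n H)) r s %ₘ gmon n g := by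
      intro s hs
      have h1 := hU s (by omega)
      have h2 := (modByMonic_eq_self_iff (p := apol n (blkA n s (fU K x))) hG).2
        (by rw [gmon_degree]; exact apol_degree _ _)
      rw [← h2]
      exact modByMonic_eq_of_dvd_sub hG h1
    -- existence of a solution
    obtain ⟨c0, hc0⟩ := exists_sol (K := K) (k := k) (h := apol n H) hG hP hcop hprod hval hh hQm
      hrcard
    have hiff : ∀ c : ℕ → K, (gmon n g ∣ TT (apol n H) (Q.comp (apol n H)) r (δ * r) +
        ∑ s ∈ range (δ * r), C (c s) * TT (apol n H) (Q.comp (apol n H)) r s) ↔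
        ∀ i < n, negBlk n (δ * r) (fU K x) i =
          ∑ j ∈ range (δ * r), c j * fU K x (j * n + i) := by
      intro c
      rw [← modByMonic_eq_zero_iff_dvd hG, modByMonic_sum, ← hUred _ le_rfl,
        sum_congr rfl (fun s hs => by rw [← hUred s (mem_range.1 hs).le])]
      constructor
      · intro h i hi
        have h1 := congrArg (fun p => p.coeff i) h
        simp only [coeff_add, finsetSum_coeff, coeff_C_mul, coeff_zero, apol_coeff, if_pos hi] at h1
        unfold negBlk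
        rw [tab_lt _ _ hi]
        rw [blkA_lt _ _ hi, sum_congr rfl (fun s _ => by rw [blkA_lt s _ hi])] at h1
        linear_combination -h1
      · intro h
        ext i
        simp only [coeff_add, finsetSum_coeff, coeff_C_mul, coeff_zero, apol_coeff]
        by_cases hi : i < n
        · simp only [if_pos hi]
          have h1 := h i hi
          unfold negBlk at h1
          rw [tab_lt _ _ hi] at h1
          rw [blkA_lt _ _ hi, sum_congr rfl (fun s _ => by rw [blkA_lt s _ hi])]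
          linear_combination -h1
        · simp [if_neg hi]
    have hsol := hspec K n (δ * r) (fU K x) (negBlk n (δ * r) (fU K x)) ⟨c0, (hiff c0).1 hc0⟩
    have hfin := (hiff _).2 hsol
    refine ⟨rfl, ?_, ?_⟩
    · show (gmon (fR K x) (fQ K x)).map σ = _
      rw [← hr, hqg, hqm]
    · intro c hc
      have hr0 : 0 < r := by
        rw [hrcard]
        exact Finset.card_pos.2 ⟨c, mem_filter.2 ⟨mem_univ _, hc⟩⟩
      have h1 := sol_spec (K := K) (k := k) (h := apol n H) hP hprod hval hh hQm hr0 _ hfin c hc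
      show P c = X ^ δ + ∑ j ∈ range δ, C (dv (fR K x) (val c) (if n < δ * fR K x then
        tabF 0 (fun _ => (0 : K)) else F K (n, (δ * fR K x, (fU K x, negBlk n (δ * fR K x)
          (fU K x))))) j) * X ^ j
      rw [← hr, if_neg (not_lt.2 hrn)]
      exact h1

end Pool.Agent.AbsIrr
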