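import Mathlib
import Pool.Agent.Lib.MP_2adc98_lc.FDefs
import Pool.Agent.Lib.MP_2adc98_lc.Stages
import Pool.Agent.Lib.MP_2adc98_lc.Bridge
import Pool.Agent.Lib.MP_2adc98_lc.FR1
import Pool.Agent.Lib.MP_2adc98_lc.FR3
import Pool.Agent.Lib.MP_2adc98_lc.FH

/-!
# MP_2adc98_lc, stage 2: lifting the factors
-/

set_option autoImplicit false

namespace Pool.Agent.AbsIrr

open Finset Polynomial

namespace FU

/-- the type of the input -/
abbrev In : Ty :=
  .prod .nat (.prod .arr (.prod .arr (.prod .nat (.prod .nat (.prod .arr .arr)))))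

/-- `v₀` with blocks of length `r` -/
def gA : Fam In .arr := fun _ _ x =>
  tabF (x.1 * x.2.2.2.2.1) (fun i => if i % x.2.2.2.2.1 < 1 then
    x.2.2.1 (i / x.2.2.2.2.1) else 0)

/-- the derivative of the factor -/
def gB : Fam In .arr := fun K _ x =>
  tabF (x.2.2.2.1 * x.2.2.2.2.1) (fun i => (∑ _j ∈ range (i / x.2.2.2.2.1 + 1), (1 : K)) *
    (if i / x.2.2.2.2.1 + 1 < x.2.2.2.1 then x.2.2.2.2.2.2 (i + x.2.2.2.2.1) else
      if i % x.2.2.2.2.1 < 1 then 1 else 0))

theorem gA_rlz : RlzQ gA (fun _ _ x => x.1 * (x.2.2.2.2.1 + 1)) := by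
  unfold gA
  apply RlzQ.mono
  case h =>
    apply_rules (maxDepth := 1000) [RlzQ.tab, RlzQ.sum, RlzQ.add, RlzQ.sub, RlzQ.mul, RlzQ.div,
      RlzQ.mod, RlzQ.fmul, RlzQ.get, RlzQ.fst, RlzQ.snd, RlzQ.iteLt, RlzQ.iteLe,
      RlzQ.input, RlzQ.lit, RlzQ.one, RlzQ.zero]
  case A => exact 10
  case hc =>
    intro K _ x
    simp
    nlinarith

theorem gB_rlz : RlzQ gB (fun _ _ x => x.2.2.2.1 * x.2.2.2.2.1 * (x.2.2.2.1 + 1)) := by
  unfold gB
  apply RlzQ.mono
  case h =>
    apply_rules (maxDepth := 1000) [RlzQ.tab, RlzQ.sum, RlzQ.add, RlzQ.sub, RlzQ.mul, RlzQ.div,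
      RlzQ.mod, RlzQ.fmul, RlzQ.get, RlzQ.fst, RlzQ.snd, RlzQ.iteLt, RlzQ.iteLe,
      RlzQ.input, RlzQ.lit, RlzQ.one, RlzQ.zero]
  case A => exact 10
  case hc =>
    intro K _ x
    simp
    have : ∑ i ∈ range (x.2.2.2.1 * x.2.2.2.2.1), (i / x.2.2.2.2.1 + 1) ≤
        (x.2.2.2.1 * x.2.2.2.2.1) * x.2.2.2.1 := by
      refine sum_range_le (fun i hi => ?_)
      have : i / x.2.2.2.2.1 < x.2.2.2.1 := Nat.div_lt_of_lt_mul (by rwa [mul_comm])
      omega
    refine le_trans (Nat.add_le_add_left this _) ?_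
    generalize x.2.2.2.1 = d
    generalize x.2.2.2.2.1 = r
    nlinarith [Nat.zero_le (d * r), Nat.zero_le (d * r * d)]

section math
variable {K : Type} [Field K] {k : Type} [Field k] [Algebra K k]

/-- `k[x]/(x) → k` -/
noncomputable def ev1 (k : Type) [Field k] : TR k 1 →+* k :=
  Ideal.Quotient.lift _ (PowerSeries.constantCoeff (R := k)) (by
    intro a ha
    rw [Ideal.mem_span_singleton] at ha
    obtain ⟨b, rfl⟩ := ha
    simp)

theorem ev1_cR (r : ℕ) (v : k) (a : ℕ → K) (t : ℕ) : ev1 k (cR 1 r v a t) = dv r v a t := by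
  unfold ev1 cR
  rw [Ideal.Quotient.lift_mk, ← PowerSeries.coeff_zero_eq_constantCoeff_apply,
    PowerSeries.coeff_mk]
  simp

theorem ev1_pR (r : ℕ) (v : k) (N : ℕ) (a : ℕ → K) :
    (pR 1 r v N a).map (ev1 k) = ∑ t ∈ range N, monomial t (dv r v a t) := by
  unfold pR
  rw [Polynomial.map_sum]
  simp only [Polynomial.map_monomial, ev1_cR]

theorem sum_mono_coeff {R : Type*} [Semiring R] (n : ℕ) (w : ℕ → R) (m : ℕ) :
    (∑ t ∈ range n, monomial t (w t)).coeff m = if m < n then w m else 0 := by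
  rw [finsetSum_coeff]
  simp only [coeff_monomial]
  split_ifs with h
  · rw [Finset.sum_eq_single m]
    · simp
    · intro b _ hb
      simp [hb]
    · intro h'
      exact absurd (Finset.mem_range.mpr h) h'
  · refine Finset.sum_eq_zero fun b hb => ?_
    rw [if_neg]
    rintro rfl
    exact h (Finset.mem_range.mp hb)

variable {n δ r : ℕ} {h v₀ q P₀ : ℕ → K} {v : k}

theorem dv_gA (hr : 1 ≤ r) (s : ℕ) :
    dv r v (gA K (n, (h, (v₀, (δ, (r, (q, P₀))))))) s =
      ((apol n v₀).map (algebraMap K k)).coeff s := by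
  rw [coeff_map]
  unfold apol
  rw [sum_mono_coeff]
  unfold dv gA tabF
  dsimp only
  have h1 : ∀ l < r, (s * r + l) / r = s := fun l hl => by
    rw [mul_comm, Nat.mul_add_div hr, Nat.div_eq_of_lt hl, add_zero]
  have h2 : ∀ l < r, (s * r + l) % r = l := fun l hl => by
    rw [mul_comm, Nat.mul_add_mod, Nat.mod_eq_of_lt hl]
  split_ifs with hs
  · rw [Finset.sum_eq_single 0]
    · have h3 : s * r + 0 < n * r := by
        calc s * r + 0 < (s + 1) * r := by rw [add_mul]; omega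
          _ ≤ n * r := Nat.mul_le_mul_right _ hs
      rw [if_pos h3, h2 0 hr, h1 0 hr]
      simp
    · intro l hl hl0
      have hl' := Finset.mem_range.mp hl
      rw [h2 l hl', if_neg (show ¬ l < 1 by omega)]
      simp
    · intro h0
      exact absurd (Finset.mem_range.mpr hr) h0
  · refine (Finset.sum_eq_zero fun l hl => ?_).trans (map_zero _).symm
    have h3 : ¬ s * r + l < n * r := by
      have := Nat.mul_le_mul_right r (not_lt.mp hs)
      omega
    rw [if_neg h3]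
    simp

theorem dv_gB (hr : 1 ≤ r) {p : k[X]} (hp : p.Monic) (hpd : p.natDegree = δ)
    (hP₀ : ∀ j < δ, dv r v P₀ j = p.coeff j) (t : ℕ) :
    dv r v (gB K (n, (h, (v₀, (δ, (r, (q, P₀))))))) t = (derivative p).coeff t := by
  rw [coeff_derivative]
  have h1 : ∀ l < r, (t * r + l) / r = t := fun l hl => by
    rw [mul_comm, Nat.mul_add_div hr, Nat.div_eq_of_lt hl, add_zero]
  have h2 : ∀ l < r, (t * r + l) % r = l := fun l hl => by
    rw [mul_comm, Nat.mul_add_mod, Nat.mod_eq_of_lt hl]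
  by_cases ht : t < δ
  · have h3 : ∀ l < r, t * r + l < δ * r := fun l hl => by
      calc t * r + l < (t + 1) * r := by rw [add_mul]; omega
        _ ≤ δ * r := Nat.mul_le_mul_right _ ht
    have h4 : dv r v (gB K (n, (h, (v₀, (δ, (r, (q, P₀))))))) t =
        ∑ l ∈ range r, algebraMap K k ((t + 1) * (if t + 1 < δ then P₀ ((t + 1) * r + l) else
          if l < 1 then 1 else 0)) * v ^ l := by
      unfold dv gB tabF
      refine Finset.sum_congr rfl fun l hl => ?_
      have hl' := Finset.mem_range.mp hl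
      dsimp only
      rw [if_pos (h3 l hl'), h1 l hl', h2 l hl']
      congr 3
      · simp
      · congr 2
        ring
    rw [h4]
    by_cases ht1 : t + 1 < δ
    · simp only [if_pos ht1]
      rw [← hP₀ _ ht1]
      unfold dv
      rw [Finset.sum_mul]
      refine Finset.sum_congr rfl fun l _ => ?_
      rw [map_mul, map_add, map_one, map_natCast]
      ring
    · simp only [if_neg ht1]
      have ht2 : t + 1 = δ := by omega
      rw [Finset.sum_eq_single 0]
      · rw [ht2, ← hpd, coeff_natDegree, hp.leadingCoeff]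
        simp
      · intro l _ hl0
        rw [if_neg (show ¬ l < 1 by omega)]
        simp
      · intro h0
        exact absurd (Finset.mem_range.mpr hr) h0
  · rw [coeff_eq_zero_of_natDegree_lt (by omega), zero_mul]
    unfold dv gB tabF
    refine Finset.sum_eq_zero fun l hl => ?_
    have h3 : ¬ t * r + l < δ * r := by
      have := Nat.mul_le_mul_right r (not_lt.mp ht)
      omega
    dsimp only
    rw [if_neg h3]
    simp

theorem one_le_r (hv : aeval v (gmon r q) = 0) : 1 ≤ r := by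
  by_contra h0
  have hr : r = 0 := by omega
  subst hr
  simp [gmon] at hv

end math

end FU

theorem lift_rlz :
    ∃ F : Fam (.prod .nat (.prod .arr (.prod .arr (.prod .nat (.prod .nat (.prod .arr .arr))))))
      .arr,
    RlzQ F (fun _ _ x => (x.1 + x.2.2.2.1 + 1) * (x.2.2.2.1 + 2) * (x.2.2.2.2.1 + 1)) ∧
    ∀ (K : Type) [Field K] (n δ r : ℕ) (h v₀ q P₀ : ℕ → K) (f : K[X][X]) (k : Type) [Field k]
      [Algebra K k] (v : k) (P Q : k[X][X]), f.Monic → f.natDegree = n →
      (∀ i < (n + 1) * (n + 1), h i = coeffs2 (n + 1) f i) →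
      (∃ u, apol n v₀ * derivative (at0 f) + u * at0 f = 1) → aeval v (gmon r q) = 0 →
      P.Monic → Q.Monic → P.natDegree = δ → 1 ≤ δ →
      f.map (mapRingHom (algebraMap K k)) = P * Q →
      (∀ j < δ, dv r v P₀ j = (P.coeff j).coeff 0) →
      ∀ j < δ, ∀ i ≤ δ, dv r v (F K (n, (h, (v₀, (δ, (r, (q, P₀))))))) (j * (δ + 1) + i) =
        (P.coeff j).coeff i := by
  obtain ⟨Fc, hFc, hFcs⟩ := rconv_rlz
  obtain ⟨Fd, hFd, hFds⟩ := rdivmod_rlz
  obtain ⟨Fh, hFh, hFhs⟩ := hensel_rlz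
  let gC : Fam FU.In .arr := fun K _ x =>
    Fc K (x.1 + x.2.2.2.1, (1, (x.2.2.2.2.1, (x.2.2.2.2.2.1, (FU.gA K x, FU.gB K x)))))
  have hC : RlzQ gC (fun _ _ x => (x.1 + x.2.2.2.1 + 1) * (x.2.2.2.1 + 2) *
      (x.2.2.2.2.1 + 1)) := by
    have h0 := RlzQ.comp hFc (RlzQ.pair (RlzQ.add (RlzQ.fst (RlzQ.input (a := FU.In)))
      (RlzQ.fst (RlzQ.snd (RlzQ.snd (RlzQ.snd RlzQ.input))))) (RlzQ.pair (RlzQ.lit 1)
      (RlzQ.pair (RlzQ.fst (RlzQ.snd (RlzQ.snd (RlzQ.snd (RlzQ.snd RlzQ.input)))))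
      (RlzQ.pair (RlzQ.fst (RlzQ.snd (RlzQ.snd (RlzQ.snd (RlzQ.snd (RlzQ.snd RlzQ.input))))))
      (RlzQ.pair FU.gA_rlz FU.gB_rlz)))))
    refine h0.mono 10 ?_
    intro K _ x
    simp
    generalize x.1 = n
    generalize x.2.2.2.1 = d
    generalize x.2.2.2.2.1 = r
    nlinarith [Nat.zero_le (n * d), Nat.zero_le (n * r), Nat.zero_le (d * r),
      Nat.zero_le (n * d * r), Nat.zero_le (d * d * r), Nat.zero_le (d * d)]
  let gD : Fam FU.In .arr := fun K _ x =>
    (Fd K (x.1 + x.2.2.2.1, (1, (x.2.2.2.2.1, (x.2.2.2.1, (x.2.2.2.2.2.1,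
      (x.2.2.2.2.2.2, gC K x))))))).2
  have hD : RlzQ gD (fun _ _ x => (x.1 + x.2.2.2.1 + 1) * (x.2.2.2.1 + 2) *
      (x.2.2.2.2.1 + 1)) := by
    have h0 := RlzQ.snd (RlzQ.comp hFd (RlzQ.pair (RlzQ.add (RlzQ.fst (RlzQ.input (a := FU.In)))
      (RlzQ.fst (RlzQ.snd (RlzQ.snd (RlzQ.snd RlzQ.input))))) (RlzQ.pair (RlzQ.lit 1)
      (RlzQ.pair (RlzQ.fst (RlzQ.snd (RlzQ.snd (RlzQ.snd (RlzQ.snd RlzQ.input)))))
      (RlzQ.pair (RlzQ.fst (RlzQ.snd (RlzQ.snd (RlzQ.snd RlzQ.input))))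
      (RlzQ.pair (RlzQ.fst (RlzQ.snd (RlzQ.snd (RlzQ.snd (RlzQ.snd (RlzQ.snd RlzQ.input))))))
      (RlzQ.pair (RlzQ.snd (RlzQ.snd (RlzQ.snd (RlzQ.snd (RlzQ.snd (RlzQ.snd RlzQ.input))))))
      hC)))))))
    refine h0.mono 10 ?_
    intro K _ x
    simp
    generalize x.1 = n
    generalize x.2.2.2.1 = d
    generalize x.2.2.2.2.1 = r
    nlinarith [Nat.zero_le (n * d), Nat.zero_le (n * r), Nat.zero_le (d * r),
      Nat.zero_le (n * d * r), Nat.zero_le (d * d * r), Nat.zero_le (d * d)]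
  refine ⟨fun K _ x => Fh K (x.2.2.2.2.1, (x.2.2.2.1 + 1, (x.1, (x.2.2.2.1, (x.2.2.2.2.2.1,
    (x.2.1, (x.2.2.2.2.2.2, gD K x))))))), ?_, ?_⟩
  · have h0 := RlzQ.comp hFh (RlzQ.pair
      (RlzQ.fst (RlzQ.snd (RlzQ.snd (RlzQ.snd (RlzQ.snd (RlzQ.input (a := FU.In)))))))
      (RlzQ.pair (RlzQ.add (RlzQ.fst (RlzQ.snd (RlzQ.snd (RlzQ.snd RlzQ.input)))) (RlzQ.lit 1))
      (RlzQ.pair (RlzQ.fst RlzQ.input)
      (RlzQ.pair (RlzQ.fst (RlzQ.snd (RlzQ.snd (RlzQ.snd RlzQ.input))))
      (RlzQ.pair (RlzQ.fst (RlzQ.snd (RlzQ.snd (RlzQ.snd (RlzQ.snd (RlzQ.snd RlzQ.input))))))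
      (RlzQ.pair (RlzQ.fst (RlzQ.snd RlzQ.input))
      (RlzQ.pair (RlzQ.snd (RlzQ.snd (RlzQ.snd (RlzQ.snd (RlzQ.snd (RlzQ.snd RlzQ.input))))))
      hD)))))))
    refine h0.mono 10 ?_
    intro K _ x
    simp
    generalize x.1 = n
    generalize x.2.2.2.1 = d
    generalize x.2.2.2.2.1 = r
    nlinarith [Nat.zero_le (n * d), Nat.zero_le (n * r), Nat.zero_le (d * r),
      Nat.zero_le (n * d * r), Nat.zero_le (d * d * r), Nat.zero_le (d * d)]
  · intro K _ n δ r h v₀ q P₀ f k _ _ v P Q hfm hfd hh hv0 hv hP hQ hPd hδ hPQ hP₀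
    dsimp only
    have hr : 1 ≤ r := FU.one_le_r hv
    have hσi : Function.Injective (mapRingHom (algebraMap K k)) :=
      Polynomial.map_injective _ (algebraMap K k).injective
    have hPQd : (P * Q).natDegree = n := by
      rw [← hPQ, natDegree_map_eq_of_injective hσi, hfd]
    have hδn : δ ≤ n := by
      rw [← hPQd, hP.natDegree_mul hQ, hPd]
      exact Nat.le_add_right _ _
    -- the polynomials at `x = 0`
    have hpm : (at0 P).Monic := hP.map _
    have hpd : (at0 P).natDegree = δ := by rw [at0, hP.natDegree_map, hPd]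
    have hp0 : ∀ j < δ, dv r v P₀ j = (at0 P).coeff j := fun j hj => by
      rw [hP₀ j hj, at0_coeff]
    have hf0 : (at0 f).map (algebraMap K k) = at0 P * at0 Q := by
      rw [← BridgeAux.at0_map, hPQ, at0, at0, at0, Polynomial.map_mul]
    set x : FU.In.val K := (n, (h, (v₀, (δ, (r, (q, P₀)))))) with hx
    set V : k[X] := (apol n v₀).map (algebraMap K k) with hV
    have hC1 : ∀ t < n + δ, dv r v (gC K x) t = (V * derivative (at0 P)).coeff t := by
      intro t ht
      have h1 := congrArg (FU.ev1 k)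
        (hFcs K (n + δ) 1 r q (FU.gA K x) (FU.gB K x) k v hv t ht)
      rw [map_sum] at h1
      simp only [map_mul, FU.ev1_cR] at h1
      rw [coeff_mul, Finset.Nat.sum_antidiagonal_eq_sum_range_succ_mk]
      refine h1.trans (Finset.sum_congr rfl fun s _ => ?_)
      rw [hx, FU.dv_gA hr, FU.dv_gB hr hpm hpd hp0]
    have hCp : ∑ t ∈ range (n + δ), monomial t (dv r v (gC K x) t) =
        V * derivative (at0 P) := by
      ext m
      rw [FU.sum_mono_coeff]
      split_ifs with hm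
      · exact hC1 m hm
      · symm
        apply coeff_eq_zero_of_natDegree_lt
        have h2 := natDegree_mul_le (p := V) (q := derivative (at0 P))
        have h3 : V.natDegree ≤ n := by
          rw [hV]
          refine natDegree_map_le.trans ?_
          rw [natDegree_le_iff_coeff_eq_zero]
          intro i hi
          unfold apol
          rw [FU.sum_mono_coeff, if_neg (by omega)]
        have h4 := natDegree_derivative_le (at0 P)
        omega
    have hpe : X ^ δ + ∑ j ∈ range δ, monomial j (dv r v P₀ j) = at0 P := by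
      ext m
      rw [coeff_add, FU.sum_mono_coeff, coeff_X_pow]
      by_cases h1 : m < δ
      · rw [if_neg (by omega), if_pos h1, zero_add, hp0 m h1]
      · by_cases h2 : m = δ
        · rw [if_pos h2, if_neg h1, add_zero, h2]
          nth_rewrite 1 [← hpd]
          rw [coeff_natDegree, hpm.leadingCoeff]
        · rw [if_neg h2, if_neg h1, add_zero, coeff_eq_zero_of_natDegree_lt (by omega)]
    have hdiv := congrArg (Polynomial.map (FU.ev1 k))
      (hFds K (n + δ) 1 r δ q P₀ (gC K x) k v hv)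
    rw [Polynomial.map_add, Polynomial.map_mul, Polynomial.map_add, Polynomial.map_pow,
      Polynomial.map_X, FU.ev1_pR, FU.ev1_pR, FU.ev1_pR, FU.ev1_pR, hCp, hpe] at hdiv
    have hU : (∑ j ∈ range δ, monomial j (dv r v (gD K x) j)) = V * derivative (at0 P) -
        at0 P * ∑ t ∈ range (n + δ), monomial t (dv r v (Fd K (n + δ, (1, (r, (δ, (q,
          (P₀, gC K x))))))).1 t) := by
      rw [hdiv]
      simp only [gD, hx]
      ring
    -- apply the lifting
    have hmain := hFhs K r (δ + 1) n δ q h P₀ (gD K x) k v P Q hv (by omega) (by omega) hP hQ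
      hPd hPQd ?_ hP₀ ?_
    · intro j hj i hi
      exact hmain j hj i (by omega)
    · intro j hj i hi
      have hlt : j * (n + 1) + i < (n + 1) * (n + 1) := by
        calc j * (n + 1) + i < (j + 1) * (n + 1) := by rw [add_mul]; omega
          _ ≤ (n + 1) * (n + 1) := Nat.mul_le_mul_right _ (by omega)
      rw [hh _ hlt, coeffs2, ← hPQ]
      have h1 : (j * (n + 1) + i) / (n + 1) = j := by
        rw [mul_comm, Nat.mul_add_div (by omega), Nat.div_eq_of_lt (by omega), add_zero]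
      have h2 : (j * (n + 1) + i) % (n + 1) = i := by
        rw [mul_comm, Nat.mul_add_mod, Nat.mod_eq_of_lt (by omega)]
      rw [h1, h2, coeff_map, coe_mapRingHom, coeff_map]
    · obtain ⟨u, hu⟩ := hv0
      have hu' := congrArg (Polynomial.map (algebraMap K k)) hu
      rw [Polynomial.map_add, Polynomial.map_mul, Polynomial.map_mul, Polynomial.map_one,
        ← derivative_map, hf0, derivative_mul, ← hV] at hu'
      rw [hU]
      refine ⟨-(u.map (algebraMap K k) * at0 Q) - V * derivative (at0 Q) - (∑ t ∈ range (n + δ),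
        monomial t (dv r v (Fd K (n + δ, (1, (r, (δ, (q, (P₀, gC K x))))))).1 t)) * at0 Q, ?_⟩
      linear_combination hu'

end Pool.Agent.AbsIrr
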