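import Mathlib
import Pool.Agent.Lib.MP_2adc98_lc.FP3A
import Pool.Agent.Lib.MP_2adc98_lc.FS
import Pool.Agent.Lib.MP_2adc98_lc.FU
import Pool.Agent.Lib.MP_2adc98_lc.FB

/-!
# MP_2adc98_lc, stage 2: the printed value
-/

set_option autoImplicit false

namespace Pool.Agent.AbsIrr

open Finset Polynomial

theorem p3_rlz :
    ∃ F : Fam (.prod .nat (.prod .fld (.prod .fld (.prod .nat (.prod .arr (.prod .arr
        (.prod .arr (.prod .arr .nat)))))))) (.prod .arr .arr),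
    RlzQ F (fun _ _ x => (x.2.2.2.2.2.2.2.2 + 1) *
      (numc x.2.2.2.1 x.2.2.2.2.2.2.2.2 x.2.2.2.2.2.2.2.1 + 1) *
      (x.1 + x.2.2.2.1 + x.2.2.2.2.2.2.2.2 + 1) ^ 2) ∧
    ∀ (K : Type) [Field K] (k : Type) [Field k] [Algebra K k] (d n δ : ℕ) (a b : K)
      (h v₀ H S : ℕ → K) (hp : K[X][X]) (ι : Type) [Fintype ι] (F' : ι → k[X][X]) (val : ι → k),
      (∀ c, (F' c).Monic ∧ 1 ≤ (F' c).natDegree ∧ TD (F' c).natDegree (F' c)) →
      (at0 (∏ c, F' c)).Separable → hp.Monic → hp.natDegree = n →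
      hp.map (mapRingHom (algebraMap K k)) = ∏ c, F' c →
      (∀ i < (n + 1) * (n + 1), h i = coeffs2 (n + 1) hp i) →
      (∃ u, apol n v₀ * derivative (at0 hp) + u * at0 hp = 1) → Function.Injective val →
      (∀ c, at0 (F' c) ∣ (apol n H).map (algebraMap K k) - C (val c)) →
      (∀ j ≤ n, (blk (n + 1) S j).map (algebraMap K k) =
        ∏ c with j < (F' c).natDegree, (X - C (val c))) → 1 ≤ δ → δ ≤ n → n ≤ d →
      (∑ l ∈ range (d + 1), monomial l ((F K (d, (a, (b, (n, (h, (v₀, (H, (S, δ))))))))).1 l) :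
        K[X]).map (algebraMap K k) = ∏ c with (F' c).natDegree = δ, (X - C (val c)) ∧
      (∀ l j i, numc n δ S ≤ l → j ≤ d → i ≤ d →
        (F K (d, (a, (b, (n, (h, (v₀, (H, (S, δ))))))))).2
          ((l * (d + 1) + j) * (d + 1) + i) = 0) ∧
      ∀ c, (F' c).natDegree = δ → ∀ i ≤ d, ∀ j ≤ d,
        ∑ l ∈ range (d + 1), algebraMap K k ((F K (d, (a, (b, (n, (h, (v₀, (H, (S, δ))))))))).2
          ((l * (d + 1) + j) * (d + 1) + i)) * val c ^ l =
          ((shf (-algebraMap K k a) (-algebraMap K k b) (F' c)).coeff j).coeff i :=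
  p3_rlz_of split_rlz lift_rlz bshift_rlz

end Pool.Agent.AbsIrr
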