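import Mathlib
import Pool.Agent.Lib.MP_2adc98_lc.FMain
import Pool.Agent.Lib.MP_2adc98_lc.FMDR
import Pool.Agent.Lib.MP_2adc98_lc.FP1
import Pool.Agent.Lib.MP_2adc98_lc.FP3

/-!
# MP_2adc98_lc, stage 2: absolute factorization in `Õ(d³)` steps
-/

set_option autoImplicit false

namespace Pool.Agent.AbsIrr

theorem main_full : FullStatement := main_of md_rlz p1_rlz p3_rlz

end Pool.Agent.AbsIrr
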