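import Mathlib
import Pool.Agent.Lib.MP_2adc98_lc.Core
import Pool.Agent.Lib.MP_2adc98_lc.SY
import Pool.Agent.Lib.MP_2adc98_lc.PR
import Pool.Agent.Lib.MP_2adc98_lc.WS
import Pool.Agent.Lib.MP_2adc98_lc.DC
import Pool.Agent.Lib.MP_2adc98_lc.HE
import Pool.Agent.Lib.MP_2adc98_lc.PAR
import Pool.Agent.Lib.MP_2adc98_lc.BR
import Pool.Agent.Lib.MP_2adc98_lc.EXT
import Pool.Agent.Lib.MP_2adc98_lc.CNT
import Pool.Agent.Lib.MP_2adc98_lc.BadCount
import Pool.Agent.Lib.MP_2adc98_lc.Defs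
import Pool.Agent.Lib.MP_2adc98_lc.Sem

/-!
# MP_2adc98_lc: the main theorem
-/

set_option autoImplicit false

namespace Pool.Agent.AbsIrr

open Finset Polynomial

/-- the cost bound in the form of the statement -/
theorem cost_bound (C₁ : ℕ) (d p : ℕ) (hp : 0 < p) (hpd : p < d ^ 2) :
    C₁ * (d ^ 3 + 1) * (Nat.log 2 (d ^ 3 + max d p + 2) + 1) ^ C₁ ≤
      (2 * C₁ * 6 ^ C₁) * d ^ 3 * (Nat.log 2 d + 1) ^ C₁ := by
  have hd : 1 ≤ d := by
    rcases Nat.eq_zero_or_pos d with rfl | h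
    · simp at hpd
    · exact h
  have h1 : d ≤ d ^ 3 := self_le3 d
  have h2 : d ^ 2 ≤ d ^ 3 := sq_le3 d
  have h3 : 1 ≤ d ^ 3 := Nat.one_le_pow _ _ hd
  have h4 : d ^ 3 + max d p + 2 ≤ 4 * d ^ 3 := by
    have : max d p ≤ d ^ 3 := max_le h1 (by omega)
    rcases Nat.lt_or_ge d 2 with h | h
    · have : d = 1 := by omega
      subst this
      have : p = 0 := by omega
      omega
    · have : 8 ≤ d ^ 3 := by
        calc 8 = 2 ^ 3 := by norm_num
          _ ≤ d ^ 3 := Nat.pow_le_pow_left h 3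
      omega
  have h5 : Nat.log 2 (d ^ 3 + max d p + 2) + 1 ≤ 6 * (Nat.log 2 d + 1) := by
    have e1 := Nat.log_mono_right (b := 2) h4
    have e2 := log_mul_le 4 (d ^ 3)
    have e3 : Nat.log 2 (d ^ 3) ≤ 3 * Nat.log 2 d + 2 := by
      have f1 : d < 2 ^ (Nat.log 2 d + 1) := Nat.lt_pow_succ_log_self (by norm_num) d
      have f2 : d ^ 3 < 2 ^ (3 * Nat.log 2 d + 3) := by
        calc d ^ 3 < (2 ^ (Nat.log 2 d + 1)) ^ 3 := Nat.pow_lt_pow_left f1 (by norm_num)
          _ = 2 ^ (3 * Nat.log 2 d + 3) := by rw [← pow_mul]; congr 1; ring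
      have := Nat.log_lt_of_lt_pow (by omega) f2
      omega
    have e4 : Nat.log 2 4 = 2 := by
      rw [show (4 : ℕ) = 2 ^ 2 by norm_num, Nat.log_pow (by norm_num)]
    omega
  calc C₁ * (d ^ 3 + 1) * (Nat.log 2 (d ^ 3 + max d p + 2) + 1) ^ C₁
      ≤ C₁ * (2 * d ^ 3) * (6 * (Nat.log 2 d + 1)) ^ C₁ := by gcongr; omega
    _ = (2 * C₁ * 6 ^ C₁) * d ^ 3 * (Nat.log 2 d + 1) ^ C₁ := by rw [mul_pow]; ring

theorem totalDegree_map_eq {K L : Type} [Field K] [Field L] [Algebra K L]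
    (f : MvPolynomial (Fin 2) K) :
    (MvPolynomial.map (algebraMap K L) f).totalDegree = f.totalDegree := by
  rw [MvPolynomial.totalDegree, MvPolynomial.support_map_of_injective _ (algebraMap K L).injective,
    MvPolynomial.totalDegree]

theorem main : MainStatement := by
  classical
  obtain ⟨κ, q, b, hprm, ⟨C₀, hC⟩, hpar⟩ := params
  obtain ⟨Fsh, hFsh, hsh⟩ := shift_rlz
  obtain ⟨Fbz, hFbz, hbz⟩ := bezout
  obtain ⟨Fw, hFw, hw⟩ := w_rlz
  obtain ⟨Fdc, hFdc, hdc⟩ := digits_rlz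
  obtain ⟨Fhe, hFhe, hhe⟩ := hermite_rlz
  obtain ⟨t, C₁, ht₀⟩ := (tOut3 hprm hC hFsh hFbz hFw hFdc hFhe).exists_prog
  have ht : ∀ (K : Type) [Field K] (x : Inp.val K),
      t.eval K x = tOut κ q b Fsh Fbz Fw Fdc Fhe K x ∧ t.steps K x ≤
        C₁ * (x.1 ^ 3 + 1) * (Nat.log 2 (x.1 ^ 3 + Inp.nmx K x + 2) + 1) ^ C₁ := fun K _ x => by
    rw [Prog.eval_eq, Prog.steps_eq]
    exact ht₀ K x
  obtain ⟨Φ, hΦc, hΦT, hΦt, hΦm⟩ := bridge_XX
  set C := 2 * C₁ * 6 ^ C₁ + C₁ + 4 * C₀ + 14 with hCdef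
  obtain ⟨C', hC'⟩ := extension C
  refine ⟨t, C, C', fun K _ p d _ hp hpd => ⟨fun L _ _ _ S hS f hf => ?_, hC' K d⟩⟩
  have hprime : p.Prime := (CharP.char_is_prime_or_zero K p).resolve_right hp.ne'
  have : Fact p.Prime := ⟨hprime⟩
  have : CharP L p := charP_of_injective_algebraMap (algebraMap K L).injective p
  have hd2 : 2 ≤ d := by
    by_contra h
    have : d ≤ 1 := by omega
    have : d ^ 2 ≤ 1 := by nlinarith
    have := hprime.two_le
    omega
  have hd : 1 ≤ d := by omega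
  obtain ⟨hκ, e, M₁, hq, hM1, hM2, hM3, hM4⟩ := hpar d p hprime hpd
  set f' := MvPolynomial.map (algebraMap K L) f with hf'
  set F := Φ L f' with hFdef
  have hF : TD d F := by
    refine TD.mono ?_ (hΦT L f')
    rw [← hf, hf', totalDegree_map_eq]
  have hA : ∀ n < (d + 1) * (d + 1), coeffArray L d f n = coeffs2 (d + 1) F n := by
    intro n hn
    rw [coeffArray, if_pos hn, coeffs2, hFdef, hΦc, hf', MvPolynomial.coeff_map]
  set σ := algebraMap L (AlgebraicClosure L) with hσ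
  have habs : AbsIrred f ↔ Irreducible (F.map (mapRingHom σ)) := by
    rw [absIrred_iff (L := L) f, AbsIrred, ← MulEquiv.irreducible_iff (Φ (AlgebraicClosure L)),
      hΦm]
  -- soundness and completeness for the matrix
  have hgood : ∀ (ω : ℕ → L), (shf (ω 0) (ω 1) F).coeff d ≠ 0 →
      (at0 (shf (ω 0) (ω 1) F)).Separable →
      (tOut κ q b Fsh Fbz Fw Fdc Fhe L (d, (p, (coeffArray L d f, ω))) = 1 ↔
      (resMat p (2 ^ κ d p) e (b d p) d (nrm d (ω 0) (ω 1) F)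
        (vpol Fsh Fbz p d e (coeffArray L d f) (ω 0) (ω 1)) (omt (2 ^ κ d p) d ω)).rank =
          d - 1) := fun ω h0 hsep =>
    tOut_good hsh hbz hw hdc hhe hd hF hA ω hq hκ h0 hsep
  have hdig : ∀ (a b' : L), (shf a b' F).coeff d ≠ 0 → ∀ Ω k,
      Digits d (2 ^ b d p) ((at0 (nrm d a b' F)).map (iterateFrobenius L p e))
        (sec (2 ^ κ d p) d (p ^ e) (nrm d a b' F) (Om d (2 ^ κ d p - 3 * d) Ω) (k : Fin d))
        (dig p (2 ^ κ d p) e (b d p) d (nrm d a b' F) Ω k) := by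
    intro a b' h0 Ω k
    obtain ⟨e1, e2, e3, e4, e5⟩ := nrm_spec hF a b' h0
    have m1 : (at0 (nrm d a b' F)).Monic := e1.map _
    have m2 : (at0 (nrm d a b' F)).natDegree = d := by rw [at0, e1.natDegree_map, e2]
    exact split_digits hd (m1.map _) (by rw [m1.natDegree_map, m2]) _ _
  have hmax : ∀ ω : ℕ → L, Inp.nmx L (d, (p, (coeffArray L d f, ω))) = max d p := by
    intro ω
    change max d (max p (max 0 0)) = max d p
    simp
  refine ⟨fun ω hω => ⟨?_, fun h1 => ?_⟩, fun hirr => ?_⟩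
  · have h := (ht L (d, (p, (coeffArray L d f, tape ω)))).2
    rw [hmax] at h
    refine h.trans ((cost_bound C₁ d p hp hpd).trans ?_)
    refine Nat.mul_le_mul (Nat.mul_le_mul_right _ (by omega)) ?_
    exact Nat.pow_le_pow_right (by omega) (by omega)
  · rw [(ht L _).1] at h1
    by_cases hb : (shf (tape ω 0) (tape ω 1) F).coeff d ≠ 0 ∧
        (at0 (shf (tape ω 0) (tape ω 1) F)).Separable
    · obtain ⟨h0, hsep⟩ := hb
      obtain ⟨e1, e2, e3, e4, e5⟩ := nrm_spec hF (tape ω 0) (tape ω 1) h0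
      rw [hgood (tape ω) h0 hsep] at h1
      rw [habs, ← e5 σ]
      by_contra hred
      have hv := vpol_spec hsh hbz hd hF hA (tape ω) e h0 hsep (p := p)
      exact sound hd hκ hM1 hM2 hM3 hM4 e1 e2 e3 (e4.mpr hsep) rfl hv _
        (hdig _ _ h0) hred (omt (2 ^ κ d p) d (tape ω)) h1
    · exact absurd h1 (tOut_bad hsh hbz hd hF hA (tape ω) hb)
  · have hirr' := habs.mp hirr
    have hn : 0 < 2 ^ κ d p - 3 * d := Nat.sub_pos_of_lt (by nlinarith)
    have hm : 2 + d * (2 ^ κ d p - 3 * d) ≤ C * d ^ 3 := by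
      have h1 := (hC d p).1
      have h2 : d * (2 ^ κ d p - 3 * d) ≤ d * (C₀ * (2 * d) ^ 2) := by
        gcongr
        refine (Nat.sub_le _ _).trans (h1.trans ?_)
        gcongr
        omega
      have h3 : d * (C₀ * (2 * d) ^ 2) = 4 * C₀ * d ^ 3 := by ring
      have h4 : 1 ≤ d ^ 3 := Nat.one_le_pow _ _ hd
      have h5 : (4 * C₀ + 2) * d ^ 3 ≤ C * d ^ 3 := Nat.mul_le_mul_right _ (by omega)
      have h6 : (4 * C₀ + 2) * d ^ 3 = 4 * C₀ * d ^ 3 + 2 * d ^ 3 := by ring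
      omega
    have hS' : 3 * ((2 * d ^ 2 + 1) + d) ≤ S.card := by
      refine le_trans ?_ hS
      have h5 : 14 * d ^ 2 ≤ C * d ^ 2 := Nat.mul_le_mul_right _ (by omega)
      refine le_trans ?_ h5
      nlinarith
    have hF0 : ∃ j ≤ d, (F.coeff j).coeff (d - j) ≠ 0 := by
      have hdeg : f'.totalDegree = d := by
        rw [hf', totalDegree_map_eq, hf]
      have h0 : f' ≠ 0 := by
        intro h
        rw [h] at hdeg
        simp at hdeg
        omega
      obtain ⟨j, hj, hj'⟩ := hΦt L f' h0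
      rw [hdeg] at hj hj'
      exact ⟨j, hj, hj'⟩
    have hP := bad_count (k := AlgebraicClosure L) hF hd hF0 hirr' S
    have hcount := count S d (C * d ^ 3) (2 ^ κ d p - 3 * d) (2 * d ^ 2 + 1) d hm
      (fun a b' => ¬ ((shf a b' F).coeff d ≠ 0 ∧ (at0 (shf a b' F)).Separable))
      (fun a b' Ω => ((shf a b' F).coeff d ≠ 0 ∧ (at0 (shf a b' F)).Separable) ∧
        (resMat p (2 ^ κ d p) e (b d p) d (nrm d a b' F)
        (vpol Fsh Fbz p d e (coeffArray L d f) a b') Ω).rank ≠ d - 1)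
      (by convert hP) (fun a _ b' _ => ?_) hS' hn
    · refine le_trans (Nat.mul_le_mul_left 3 (Finset.card_le_card ?_)) hcount
      intro ω hω
      obtain ⟨hω1, hω2⟩ := (@Finset.mem_filter _ _ (_) _ _).mp hω
      refine (@Finset.mem_filter _ _ (_) _ _).mpr ⟨hω1, ?_⟩
      by_cases hb : (shf (tape ω 0) (tape ω 1) F).coeff d ≠ 0 ∧
        (at0 (shf (tape ω 0) (tape ω 1) F)).Separable
      · right
        refine ⟨hb, ?_⟩
        have h2 := hω2
        rw [(ht L _).1] at h2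
        intro h3
        exact h2 ((hgood (tape ω) hb.1 hb.2).mpr h3)
      · left
        exact hb
    · by_cases hb : (shf a b' F).coeff d ≠ 0 ∧ (at0 (shf a b' F)).Separable
      · obtain ⟨e1, e2, e3, e4, e5⟩ := nrm_spec hF a b' hb.1
        have hv := vpol_spec hsh hbz hd hF hA (fun i => if i = 0 then a else b') e
          (by simpa using hb.1) (by simpa using hb.2) (p := p)
        have h3 := complete hd hκ hM1 hM2 hM3 hM4 e1 e2 e3 (e4.mpr hb.2) rfl
          (by simpa using hv) _ (hdig a b' hb.1) ((e5 σ).mpr hirr') S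
        refine le_trans (Nat.mul_le_mul_right _ (Finset.card_le_card ?_)) h3
        intro Ω hΩ
        obtain ⟨h1, h2⟩ := (@Finset.mem_filter _ _ (_) _ _).mp hΩ
        exact (@Finset.mem_filter _ _ (_) _ _).mpr ⟨h1, h2.2⟩
      · have h9 : ∀ s : Finset (Fin d × Fin (2 ^ κ d p - 3 * d) → L), s = ∅ → s.card * S.card ≤
            d * S.card ^ (d * (2 ^ κ d p - 3 * d)) := by
          intro s hs
          rw [hs]
          simp
        refine h9 _ ?_
        rw [Finset.eq_empty_iff_forall_notMem]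
        intro Ω hΩ
        exact hb ((@Finset.mem_filter _ _ (_) _ _).mp hΩ).2.1

end Pool.Agent.AbsIrr
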