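import Mathlib
import Pool.Agent.Lib.MP_2adc98_lc.FDefs2

/-!
# MP_2adc98_lc, stage 3 (output over a small finite field): definitions

`K ⊆ L` are finite fields, `q = |K|`, `M = |L|`, the computations take place in `L`.  An item of the
factorization over `L` is given by `gmon N Q` (squarefree, with the set of roots `Z`) and an array
`G` whose block number `e < B` (width `N`) is the coefficient number `e` of the factor as a
polynomial in `z`.
-/

set_option autoImplicit false

namespace Pool.Agent.AbsIrr

open Finset Polynomial

section
variable {L : Type} [Field L] {k : Type} [Field k] [Algebra L k]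

/-- the value at `v` of the polynomial given by the first `n` entries of `a` -/
def evz (n : ℕ) (v : k) (a : ℕ → L) : k := ∑ l ∈ range n, algebraMap L k (a l) * v ^ l

/-- row number `i` of a table with rows of length `w` -/
def rowA (w i : ℕ) (a : ℕ → L) : ℕ → L := fun l => a (i * w + l)

/-- `gmon n g` is squarefree with the set of roots `Z` -/
def IsMod (n : ℕ) (g : ℕ → L) (Z : Finset k) : Prop :=
  (gmon n g).map (algebraMap L k) = ∏ v ∈ Z, (X - C v)

/-- the function whose value `1` is the random bit: the trace to `𝔽₂` of `c h` in characteristic
`2`, the quadratic character of `h + c` otherwise (in the field with `M` elements) -/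
def bitv (p M : ℕ) (h c : k) : k :=
  if p = 2 then ∑ i ∈ range (Nat.log 2 M), (c * h) ^ 2 ^ i else (h + c) ^ ((M - 1) / 2)

open Classical in
/-- the roots with the same random bits as `z`: `W` is the table of the functions whose zeros are
the roots with bit `1` -/
noncomputable def bcls (N R : ℕ) (W : ℕ → L) (Z : Finset k) (z : k) : Finset k :=
  Z.filter fun z' => ∀ r < R, (evz N z (rowA N r W) = 0 ↔ evz N z' (rowA N r W) = 0)

end

end Pool.Agent.AbsIrr
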