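import Mathlib
import Pool.Agent.Lib.MP_2adc98_lc.XDefs
import Pool.Agent.Lib.MP_2adc98_lc.FA
import Pool.Agent.Lib.MP_2adc98_lc.BL

/-!
# MP_2adc98_lc, piece XA1: powers and logarithms with cost proportional to the number of digits

The language has no unbounded search (the number of rounds of a loop is fixed before the loop), so
the number `ℓ` of binary digits is an input: `ℓ` rounds of the binary algorithm compute the power
with exponent `E % 2 ^ ℓ`.
-/

set_option autoImplicit false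
set_option linter.unusedVariables false

namespace Pool.Agent.AbsIrr

open Finset Polynomial

/-! ## the power modulo `gmon n g` -/

section
variable {K : Type} [Field K]

private theorem xa1_apol_coeff (n : ℕ) (A : ℕ → K) (i : ℕ) :
    (apol n A).coeff i = if i < n then A i else 0 := by
  unfold apol
  rw [finsetSum_coeff]
  simp only [coeff_monomial]
  rw [sum_ite_eq' (range n) i]
  simp

private theorem xa1_apol_degree (n : ℕ) (A : ℕ → K) : (apol n A).degree < (n : WithBot ℕ) := by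
  rw [degree_lt_iff_coeff_zero]
  intro m hm
  rw [xa1_apol_coeff, if_neg (by omega)]

private theorem xa1_gmon_monic (n : ℕ) (g : ℕ → K) : (gmon n g).Monic := by
  unfold gmon
  exact monic_X_pow_add (xa1_apol_degree n g)

private theorem xa1_gmon_degree (n : ℕ) (g : ℕ → K) : (gmon n g).degree = (n : WithBot ℕ) := by
  unfold gmon
  rw [degree_add_eq_left_of_degree_lt]
  · exact degree_X_pow n
  · rw [degree_X_pow]
    exact xa1_apol_degree n g

/-- the polynomial of the array of a remainder -/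
private theorem xa1_apol_mod (n : ℕ) (g : ℕ → K) (P : K[X]) :
    apol n (tabF n (fun i => (P %ₘ gmon n g).coeff i)) = P %ₘ gmon n g := by
  ext i
  rw [xa1_apol_coeff]
  by_cases hi : i < n
  · rw [if_pos hi]
    simp [tabF, hi]
  · rw [if_neg hi]
    have h1 := degree_modByMonic_lt P (xa1_gmon_monic n g)
    rw [xa1_gmon_degree] at h1
    exact (coeff_eq_zero_of_degree_lt (h1.trans_le (by exact_mod_cast not_lt.1 hi))).symm

private theorem xa1_mulmod (n : ℕ) (g a : ℕ → K) (e e' : ℕ) :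
    mulmod n g (powmod n e g a) (powmod n e' g a) = powmod n (e + e') g a := by
  unfold mulmod powmod
  rw [xa1_apol_mod, xa1_apol_mod, ← mul_modByMonic, ← pow_add]

/-- the unit -/
private def xa1One (K : Type) [Field K] (n : ℕ) : ℕ → K :=
  tabF n (fun i => if i = 0 then 1 else 0)

private theorem xa1One_eq (n : ℕ) (g a : ℕ → K) : xa1One K n = powmod n 0 g a := by
  unfold xa1One powmod
  funext i
  unfold tabF
  by_cases hi : i < n
  · rw [if_pos hi, if_pos hi, pow_zero]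
    have h1 : (1 : K[X]) %ₘ gmon n g = 1 := by
      rw [modByMonic_eq_self_iff (xa1_gmon_monic n g), xa1_gmon_degree, degree_one]
      exact_mod_cast (show 0 < n by omega)
    simp only [h1, coeff_one]
  · rw [if_neg hi, if_neg hi]

private theorem xa1_base_eq (n : ℕ) (g a : ℕ → K) : tabF n (fun i => a i) = powmod n 1 g a := by
  unfold powmod
  rw [pow_one, (modByMonic_eq_self_iff (xa1_gmon_monic n g)).2
    (by rw [xa1_gmon_degree]; exact xa1_apol_degree n a)]
  funext i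
  unfold tabF
  by_cases hi : i < n
  · simp only [if_pos hi, xa1_apol_coeff]
  · rw [if_neg hi, if_neg hi]

private noncomputable def xa1Step (n : ℕ) (g : ℕ → K) (s : (ℕ → K) × ((ℕ → K) × ℕ)) :
    (ℕ → K) × ((ℕ → K) × ℕ) :=
  (if s.2.2 % 2 ≠ 0 then mulmod n g s.1 s.2.1 else s.1, (mulmod n g s.2.1 s.2.1, s.2.2 / 2))

private theorem xa1_inv (n e : ℕ) (g a : ℕ → K) (i : ℕ) :
    iterF i (xa1One K n, (tabF n (fun i => a i), e)) (fun s _ => xa1Step n g s) =
      (powmod n (e % 2 ^ i) g a, (powmod n (2 ^ i) g a, e / 2 ^ i)) := by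
  induction i with
  | zero => simp [Nat.mod_one, xa1One_eq n g a, xa1_base_eq n g a]
  | succ i ih =>
    rw [iterF_succ, ih]
    have h1 : e / 2 ^ i / 2 = e / 2 ^ (i + 1) := by rw [Nat.div_div_eq_div_mul, pow_succ]
    have h2 : mulmod n g (powmod n (2 ^ i) g a) (powmod n (2 ^ i) g a) =
        powmod n (2 ^ (i + 1)) g a := by
      rw [xa1_mulmod]
      congr 1
      ring
    unfold xa1Step
    refine Prod.ext ?_ (Prod.ext h2 h1)
    simp only
    rw [Nat.mod_pow_succ]
    rcases Nat.mod_two_eq_zero_or_one (e / 2 ^ i) with h | h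
    · rw [if_neg (by omega), h, mul_zero, add_zero]
    · rw [if_pos (by omega), h, mul_one, xa1_mulmod]

end

private theorem xa1One_rlz : RlzQ (a := .nat) (b := .arr) (fun K _ x => xa1One K x)
    (fun _ _ x => x) := by
  unfold xa1One
  have hf : RlzQ (a := .prod .nat .nat) (b := .fld)
      (fun K _ x => if (x.2 : ℕ) = 0 then (1 : K) else (0 : K)) (fun _ _ _ => 0) :=
    (RlzQ.iteEq (RlzQ.snd RlzQ.input) (RlzQ.lit 0) RlzQ.one RlzQ.zero).mono 1
      (fun K _ x => by simp)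
  have := RlzQ.tab (a := .nat) (N := fun _ _ x => x)
    (f := fun _K _ _ i => if (i : ℕ) = 0 then (1 : _K) else (0 : _K)) RlzQ.input hf
  exact this.mono 1 (fun K _ x => by simp)

/-- input `(n, (ℓ, (e, (g, a))))` -/
private theorem xa1Pow_rlz :
    RlzQ (a := .prod .nat (.prod .nat (.prod .nat (.prod .arr .arr)))) (b := .arr)
    (fun K _ x => powmod (K := K) x.1 ((x.2.2.1 : ℕ) % 2 ^ (x.2.1 : ℕ)) x.2.2.2.1 x.2.2.2.2)
    (fun _ _ x => (x.1 + 1) * (x.2.1 + 1)) := by
  have hbody : RlzQ (a := .prod (.prod (.prod .nat (.prod .nat (.prod .nat (.prod .arr .arr))))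
      (.prod .arr (.prod .arr .nat))) .nat) (b := .prod .arr (.prod .arr .nat))
      (fun K _ x => xa1Step (K := K) x.1.1.1 x.1.1.2.2.2.1 x.1.2)
      (fun _ _ x => x.1.1.1) := by
    have e0 : RlzQ (a := .prod (.prod (.prod .nat (.prod .nat (.prod .nat (.prod .arr .arr))))
      (.prod .arr (.prod .arr .nat))) .nat) (fun _ _ x => x.1.1) (fun _ _ _ => 0) :=
      RlzQ.fst (RlzQ.fst RlzQ.input)
    have es : RlzQ (a := .prod (.prod (.prod .nat (.prod .nat (.prod .nat (.prod .arr .arr))))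
      (.prod .arr (.prod .arr .nat))) .nat) (b := .prod .arr (.prod .arr .nat))
        (fun _ _ x => x.1.2) (fun _ _ _ => 0) :=
      RlzQ.snd (RlzQ.fst RlzQ.input)
    have en := RlzQ.fst e0
    have eg := RlzQ.fst (RlzQ.snd (RlzQ.snd (RlzQ.snd e0)))
    refine ((RlzQ.pair (RlzQ.iteNat (RlzQ.mod (RlzQ.snd (RlzQ.snd es)) (RlzQ.lit 2))
      (RlzQ.mulmod en eg (RlzQ.fst es) (RlzQ.fst (RlzQ.snd es))) (RlzQ.fst es))
      (RlzQ.pair (RlzQ.mulmod en eg (RlzQ.fst (RlzQ.snd es)) (RlzQ.fst (RlzQ.snd es)))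
        (RlzQ.div (RlzQ.snd (RlzQ.snd es)) (RlzQ.lit 2)))).congr (fun K _ x => rfl)).mono
      2 (fun K _ x => ?_)
    split_ifs <;> omega
  have e0 : RlzQ (a := .prod .nat (.prod .nat (.prod .nat (.prod .arr .arr))))
      (fun _ _ x => x) (fun _ _ _ => 0) := RlzQ.input
  have hinit : RlzQ (a := .prod .nat (.prod .nat (.prod .nat (.prod .arr .arr))))
      (b := .prod .arr (.prod .arr .nat))
      (fun K _ x => (xa1One K x.1, (tabF (x.1 : ℕ) (fun i => (x.2.2.2.2 : ℕ → K) i), x.2.2.1)))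
      (fun _ _ x => 3 * x.1) := by
    have h1 := RlzQ.tab (a := .prod .nat (.prod .nat (.prod .nat (.prod .arr .arr))))
      (f := fun K _ x i => (x.2.2.2.2 : ℕ → K) i) (RlzQ.fst e0)
      (RlzQ.get (RlzQ.snd (RlzQ.snd (RlzQ.snd (RlzQ.snd (RlzQ.fst RlzQ.input)))))
        (RlzQ.snd RlzQ.input))
    refine RlzQ.mono (RlzQ.pair (RlzQ.comp xa1One_rlz (RlzQ.fst e0))
      (RlzQ.pair h1 (RlzQ.fst (RlzQ.snd (RlzQ.snd e0))))) 1 (fun K _ x => ?_)
    simp only [add_zero, Finset.sum_const_zero]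
    omega
  have hloop := RlzQ.iterB (a := .prod .nat (.prod .nat (.prod .nat (.prod .arr .arr))))
    (b := .prod .arr (.prod .arr .nat))
    (f := fun K _ x s _ => xa1Step (K := K) x.1 x.2.2.2.1 s)
    (RlzQ.fst (RlzQ.snd e0)) hinit hbody 1 (fun K _ x i hi => by
      have h1 := xa1_inv (K := K) x.1 x.2.2.1 x.2.2.2.1 x.2.2.2.2 i
      have hmx : (x.2.2.1 : ℕ) ≤
          Ty.nmx K (.prod .nat (.prod .nat (.prod .nat (.prod .arr .arr)))) x :=
        (le_max_left _ _).trans ((le_max_right _ _).trans (le_max_right _ _))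
      have h2 : Ty.nmx K (.prod .arr (.prod .arr .nat))
          ((powmod (K := K) x.1 ((x.2.2.1 : ℕ) % 2 ^ i) x.2.2.2.1 x.2.2.2.2,
            (powmod (K := K) x.1 (2 ^ i) x.2.2.2.1 x.2.2.2.2, (x.2.2.1 : ℕ) / 2 ^ i)) :
            (ℕ → K) × ((ℕ → K) × ℕ)) ≤ (x.2.2.1 : ℕ) :=
        max_le (Nat.zero_le _) (max_le (Nat.zero_le _) (Nat.div_le_self _ _))
      rw [pow_one]
      have key : ∀ A B C D E : ℕ, E ≤ A + B + C + D + E + 2 := by intros; omega
      exact le_trans (le_of_eq (congrArg _ h1)) (h2.trans (hmx.trans (key _ _ _ _ _))))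
  refine ((RlzQ.fst hloop).congr (fun K _ x => ?_)).mono 4 (fun K _ x => ?_)
  · exact congrArg Prod.fst (xa1_inv (K := K) x.1 x.2.2.1 x.2.2.2.1 x.2.2.2.2 x.2.1)
  · simp only [Finset.sum_const, Finset.card_range, smul_eq_mul]
    have key : ∀ n l : ℕ, 0 + 3 * n + l + l * n ≤ 4 * ((n + 1) * (l + 1) + 1) := by
      intro n l
      nlinarith [Nat.zero_le (n * l)]
    exact key _ _

/-! ## the power of all entries -/

private def xa1Q {K : Type} [Field K] (N : ℕ) (s : ℕ × ((ℕ → K) × (ℕ → K))) :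
    ℕ × ((ℕ → K) × (ℕ → K)) :=
  (s.1 / 2, (tabF N (fun i => if s.1 % 2 = 1 then s.2.1 i * s.2.2 i else s.2.1 i),
    tabF N (fun i => s.2.2 i * s.2.2 i)))

private theorem xa1_qinv {K : Type} [Field K] (N E : ℕ) (A : ℕ → K) (r : ℕ) :
    iterF r (E, (tabF N (fun _ => (1 : K)), tabF N (fun i => A i))) (fun s _ => xa1Q N s) =
      (E / 2 ^ r, (tabF N (fun i => A i ^ (E % 2 ^ r)), tabF N (fun i => A i ^ (2 ^ r)))) := by
  induction r with
  | zero => simp [Nat.mod_one]
  | succ r ih =>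
    rw [iterF_succ, ih]
    have h1 : E / 2 ^ r / 2 = E / 2 ^ (r + 1) := by rw [Nat.div_div_eq_div_mul, pow_succ]
    have e1 : tabF N (fun i => if (E / 2 ^ r) % 2 = 1 then
        (tabF N (fun i => A i ^ (E % 2 ^ r)) : ℕ → K) i *
          (tabF N (fun i => A i ^ (2 ^ r)) : ℕ → K) i else
        (tabF N (fun i => A i ^ (E % 2 ^ r)) : ℕ → K) i) =
        tabF N (fun i => A i ^ (E % 2 ^ (r + 1))) := by
      funext i
      unfold tabF
      by_cases hi : i < N
      · simp only [if_pos hi]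
        rw [Nat.mod_pow_succ]
        rcases Nat.mod_two_eq_zero_or_one (E / 2 ^ r) with h | h
        · rw [if_neg (by omega), h, mul_zero, add_zero]
        · rw [if_pos h, h, mul_one, pow_add]
      · simp only [if_neg hi]
    have e2 : tabF N (fun i => (tabF N (fun i => A i ^ (2 ^ r)) : ℕ → K) i *
          (tabF N (fun i => A i ^ (2 ^ r)) : ℕ → K) i) =
        tabF N (fun i => A i ^ (2 ^ (r + 1))) := by
      funext i
      unfold tabF
      by_cases hi : i < N
      · simp only [if_pos hi]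
        rw [pow_succ, pow_mul, sq]
      · simp only [if_neg hi]
    exact Prod.ext h1 (Prod.ext e1 e2)

/-- input `(n, (ℓ, (e, a)))` -/
private theorem xa1_powT_rlz : RlzQ (a := .prod .nat (.prod .nat (.prod .nat .arr))) (b := .arr)
    (fun K _ x => powT (x.1 : ℕ) ((x.2.2.1 : ℕ) % 2 ^ (x.2.1 : ℕ)) x.2.2.2)
    (fun K _ x => (x.1 + 1) * (x.2.1 + 1)) := by
  have hf : RlzQ (a := .prod (.prod (.prod .nat (.prod .nat (.prod .nat .arr)))
      (.prod .nat (.prod .arr .arr))) .nat) (b := .prod .nat (.prod .arr .arr))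
      (fun K _ x => xa1Q x.1.1.1 x.1.2) (fun K _ x => 4 * x.1.1.1) := by
    have eN0 : RlzQ (a := .prod (.prod (.prod .nat (.prod .nat (.prod .nat .arr)))
        (.prod .nat (.prod .arr .arr))) .nat) (b := .nat)
        (fun K _ x => x.1.1.1) (fun _ _ _ => 0) := RlzQ.fst (RlzQ.fst (RlzQ.fst RlzQ.input))
    have es0 : RlzQ (a := .prod (.prod (.prod .nat (.prod .nat (.prod .nat .arr)))
        (.prod .nat (.prod .arr .arr))) .nat) (b := .nat)
        (fun K _ x => x.1.2.1) (fun _ _ _ => 0) := RlzQ.fst (RlzQ.snd (RlzQ.fst RlzQ.input))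
    have e0 : RlzQ (a := .prod (.prod (.prod (.prod .nat (.prod .nat (.prod .nat .arr)))
        (.prod .nat (.prod .arr .arr))) .nat) .nat) (b := .prod .nat (.prod .arr .arr))
        (fun K _ x => x.1.1.2) (fun _ _ _ => 0) := RlzQ.snd (RlzQ.fst (RlzQ.fst RlzQ.input))
    have ei : RlzQ (a := .prod (.prod (.prod (.prod .nat (.prod .nat (.prod .nat .arr)))
        (.prod .nat (.prod .arr .arr))) .nat) .nat) (b := .nat)
        (fun K _ x => x.2) (fun _ _ _ => 0) := RlzQ.snd RlzQ.input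
    have ep := RlzQ.get (RlzQ.snd (RlzQ.snd e0)) ei
    have ea := RlzQ.get (RlzQ.fst (RlzQ.snd e0)) ei
    have h1 := RlzQ.iteEq (RlzQ.mod (RlzQ.fst e0) (RlzQ.lit 2)) (RlzQ.lit 1) (RlzQ.fmul ea ep) ea
    have h2 := RlzQ.fmul ep ep
    have t1 := RlzQ.tab (a := .prod (.prod (.prod .nat (.prod .nat (.prod .nat .arr)))
        (.prod .nat (.prod .arr .arr))) .nat)
        (f := fun K _ x i => if (x.1.2.1 : ℕ) % 2 = 1 then
          ((x.1.2.2.1 : ℕ → K) i * (x.1.2.2.2 : ℕ → K) i : K) else (x.1.2.2.1 : ℕ → K) i) eN0 h1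
    have t2 := RlzQ.tab (a := .prod (.prod (.prod .nat (.prod .nat (.prod .nat .arr)))
        (.prod .nat (.prod .arr .arr))) .nat)
        (f := fun K _ x i => ((x.1.2.2.2 : ℕ → K) i * (x.1.2.2.2 : ℕ → K) i : K)) eN0 h2
    refine ((RlzQ.pair (RlzQ.div es0 (RlzQ.lit 2)) (RlzQ.pair t1 t2)).congr
      (fun K _ x => rfl)).mono 1 (fun K _ x => ?_)
    simp only [add_zero, ite_self, Finset.sum_const_zero]
    have key : ∀ A : ℕ, 0 + (0 + A + (0 + A)) ≤ 1 * (4 * A + 1) := by intros; omega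
    exact key _
  have eN : RlzQ (a := .prod .nat (.prod .nat (.prod .nat .arr))) (b := .nat)
    (fun K _ x => x.1) (fun _ _ _ => 0) := RlzQ.fst RlzQ.input
  have eL : RlzQ (a := .prod .nat (.prod .nat (.prod .nat .arr))) (b := .nat)
    (fun K _ x => x.2.1) (fun _ _ _ => 0) := RlzQ.fst (RlzQ.snd RlzQ.input)
  have eE : RlzQ (a := .prod .nat (.prod .nat (.prod .nat .arr))) (b := .nat)
    (fun K _ x => x.2.2.1) (fun _ _ _ => 0) := RlzQ.fst (RlzQ.snd (RlzQ.snd RlzQ.input))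
  have eA : RlzQ (a := .prod (.prod .nat (.prod .nat (.prod .nat .arr))) .nat) (b := .fld)
    (fun K _ x => (x.1.2.2.2 : ℕ → K) x.2) (fun _ _ _ => 0) :=
    RlzQ.get (RlzQ.snd (RlzQ.snd (RlzQ.snd (RlzQ.fst RlzQ.input)))) (RlzQ.snd RlzQ.input)
  have i1 := RlzQ.tab (a := .prod .nat (.prod .nat (.prod .nat .arr)))
    (f := fun K _ _ _ => (1 : K)) eN RlzQ.one
  have i2 := RlzQ.tab (a := .prod .nat (.prod .nat (.prod .nat .arr)))
    (f := fun K _ x i => (x.2.2.2 : ℕ → K) i) eN eA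
  have h := RlzQ.iterB (a := .prod .nat (.prod .nat (.prod .nat .arr)))
    (b := .prod .nat (.prod .arr .arr))
    (f := fun K _ x s i => xa1Q x.1 s) eL
    (RlzQ.pair eE (RlzQ.pair i1 i2)) hf 1 (by
    intro K _ x i hi
    rw [pow_one]
    have hmx : (x.2.2.1 : ℕ) ≤ Ty.nmx K (.prod .nat (.prod .nat (.prod .nat .arr))) x :=
      (le_max_left _ _).trans ((le_max_right _ _).trans (le_max_right _ _))
    have h1 := xa1_qinv (K := K) x.1 x.2.2.1 x.2.2.2 i
    have h2 : Ty.nmx K (.prod .nat (.prod .arr .arr)) (((x.2.2.1 : ℕ) / 2 ^ i,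
        (tabF (x.1 : ℕ) (fun j => (x.2.2.2 : ℕ → K) j ^ ((x.2.2.1 : ℕ) % 2 ^ i)),
          tabF (x.1 : ℕ) (fun j => (x.2.2.2 : ℕ → K) j ^ (2 ^ i)))) :
            ℕ × ((ℕ → K) × (ℕ → K))) ≤ (x.2.2.1 : ℕ) :=
      max_le (Nat.div_le_self _ _) (max_le (Nat.zero_le _) (Nat.zero_le _))
    have key : ∀ A B C D E : ℕ, E ≤ A + B + C + D + E + 2 := by intros; omega
    exact le_trans (le_of_eq (congrArg _ h1)) (h2.trans (hmx.trans (key _ _ _ _ _))))
  refine ((RlzQ.fst (RlzQ.snd h)).congr (fun K _ x => ?_)).mono 20 (fun K _ x => ?_)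
  · exact congrArg (fun s : ℕ × ((ℕ → K) × (ℕ → K)) => s.2.1)
      (xa1_qinv (K := K) x.1 x.2.2.1 x.2.2.2 x.2.1)
  · simp only [Finset.sum_const_zero, Finset.sum_const, Finset.card_range, smul_eq_mul, add_zero]
    have key : ∀ n l : ℕ, 0 + (0 + (0 + n + (0 + n))) + l + l * (4 * n) ≤
        20 * ((n + 1) * (l + 1) + 1) := by
      intro n l
      nlinarith [Nat.zero_le (n * l)]
    exact key _ _

/-! ## the logarithm -/

private def xa1L (b : ℕ) (s : ℕ × ℕ) : ℕ × ℕ :=
  if 1 < b then (if b ≤ s.2 then (s.1 + 1, s.2 / b) else s) else s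

private theorem xa1_log (b n i : ℕ) (hb : 1 < b) :
    (iterF i (0, n) (fun s _ => xa1L b s)).1 + Nat.log b (iterF i (0, n) (fun s _ => xa1L b s)).2
      = Nat.log b n ∧ (iterF i (0, n) (fun s _ => xa1L b s)).2 ≤ n ∧
      (iterF i (0, n) (fun s _ => xa1L b s)).1 ≤ i ∧
      ((iterF i (0, n) (fun s _ => xa1L b s)).2 < b ∨
        (iterF i (0, n) (fun s _ => xa1L b s)).1 = i) := by
  induction i with
  | zero => simp
  | succ i ih =>
    rw [iterF_succ]
    generalize iterF i (0, n) (fun s _ => xa1L b s) = t at ih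
    obtain ⟨h1, h2, h3, h3'⟩ := ih
    unfold xa1L
    rw [if_pos hb]
    by_cases h : b ≤ t.2
    · rw [if_pos h]
      have h4 := Nat.log_of_one_lt_of_le hb h
      have h5 : t.2 / b < t.2 := Nat.div_lt_self (by omega) hb
      refine ⟨?_, ?_, ?_, ?_⟩
      · change t.1 + 1 + Nat.log b (t.2 / b) = _
        omega
      · change t.2 / b ≤ n
        omega
      · change t.1 + 1 ≤ i + 1
        omega
      · change t.2 / b < b ∨ t.1 + 1 = i + 1
        omega
    · rw [if_neg h]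
      exact ⟨h1, h2, by omega, Or.inl (by omega)⟩

private theorem xa1_log_triv (b n i : ℕ) (hb : ¬ 1 < b) :
    iterF i (0, n) (fun s _ => xa1L b s) = (0, n) := by
  induction i with
  | zero => rfl
  | succ i ih =>
    rw [iterF_succ, ih]
    unfold xa1L
    rw [if_neg hb]

private theorem xa1_log_le (b n i : ℕ) :
    max (iterF i (0, n) (fun s _ => xa1L b s)).1 (iterF i (0, n) (fun s _ => xa1L b s)).2
      ≤ n := by
  by_cases hb : 1 < b
  · obtain ⟨h1, h2, -⟩ := xa1_log b n i hb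
    have h3 := Nat.log_le_self b n
    exact max_le (by omega) h2
  · rw [xa1_log_triv b n i hb]
    exact max_le (Nat.zero_le _) le_rfl

private theorem xa1_log_eq (b n i : ℕ) :
    (iterF i (0, n) (fun s _ => xa1L b s)).1 = min (Nat.log b n) i := by
  by_cases hb : 1 < b
  · obtain ⟨h1, -, h3, h4⟩ := xa1_log b n i hb
    rcases h4 with h4 | h4
    · rw [Nat.log_of_lt h4, add_zero] at h1
      omega
    · omega
  · rw [xa1_log_triv b n i hb, Nat.log_of_left_le_one (by omega)]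
    simp

/-- input `(b, (n, ℓ))` -/
private theorem xa1_nlog_rlz : RlzQ (a := .prod .nat (.prod .nat .nat)) (b := .nat)
    (fun K _ x => min (Nat.log (x.1 : ℕ) (x.2.1 : ℕ)) (x.2.2 : ℕ)) (fun K _ x => x.2.2) := by
  have hf : RlzQ (a := .prod (.prod (.prod .nat (.prod .nat .nat)) (.prod .nat .nat)) .nat)
      (b := .prod .nat .nat) (fun K _ x => xa1L x.1.1.1 x.1.2) (fun _ _ _ => 0) := by
    have e0 : RlzQ (a := .prod (.prod (.prod .nat (.prod .nat .nat)) (.prod .nat .nat)) .nat)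
        (fun K _ x => x.1) (fun _ _ _ => 0) := RlzQ.fst RlzQ.input
    have eb : RlzQ (a := .prod (.prod (.prod .nat (.prod .nat .nat)) (.prod .nat .nat)) .nat)
        (b := .nat) (fun K _ x => x.1.1.1) (fun _ _ _ => 0) := RlzQ.fst (RlzQ.fst e0)
    have es : RlzQ (a := .prod (.prod (.prod .nat (.prod .nat .nat)) (.prod .nat .nat)) .nat)
        (b := .prod .nat .nat) (fun K _ x => x.1.2) (fun _ _ _ => 0) := RlzQ.snd e0
    exact ((RlzQ.iteLt (RlzQ.lit 1) eb (RlzQ.iteLe eb (RlzQ.snd es)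
      (RlzQ.pair (RlzQ.add (RlzQ.fst es) (RlzQ.lit 1)) (RlzQ.div (RlzQ.snd es) eb)) es) es).mono 1
      (fun K _ x => by simp)).congr (fun K _ x => rfl)
  have h := RlzQ.iterB (a := .prod .nat (.prod .nat .nat)) (b := .prod .nat .nat)
    (f := fun K _ x s i => xa1L x.1 s) (RlzQ.snd (RlzQ.snd RlzQ.input))
    (RlzQ.pair (RlzQ.lit 0) (RlzQ.fst (RlzQ.snd RlzQ.input))) hf 1 (by
    intro K _ x i hi
    rw [pow_one]
    have hmx : (x.2.1 : ℕ) ≤ Ty.nmx K (.prod .nat (.prod .nat .nat)) x :=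
      (le_max_left _ _).trans (le_max_right _ _)
    have key : ∀ A B C D E : ℕ, E ≤ A + B + C + D + E + 2 := by intros; omega
    exact (xa1_log_le x.1 x.2.1 i).trans (hmx.trans (key _ _ _ _ _)))
  refine ((RlzQ.fst h).congr (fun K _ x => xa1_log_eq x.1 x.2.1 x.2.2)).mono 1 (fun K _ x => ?_)
  simp only [Finset.sum_const_zero]
  have key : ∀ A : ℕ, 0 + (0 + 0) + A + 0 ≤ 1 * (A + 1) := by intros; omega
  exact key _

section XA
variable {a : Ty}

/-- the power modulo `gmon N G`, with `Lg` rounds of the binary algorithm: exponent `E % 2 ^ Lg` -/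
theorem RlzQ.powmodL {N Lg E : Fam a .nat} {G A : Fam a .arr} {cn cl ce cg ca : CFam a}
    (hN : RlzQ N cn) (hL : RlzQ Lg cl) (hE : RlzQ E ce) (hG : RlzQ G cg) (hA : RlzQ A ca) :
    RlzQ (b := .arr) (fun K _ x => Pool.Agent.AbsIrr.powmod (N K x)
        ((E K x : ℕ) % 2 ^ (Lg K x : ℕ)) (G K x) (A K x))
      (fun K _ x => cn K x + cl K x + ce K x + cg K x + ca K x +
        (N K x + 1) * (Lg K x + 1)) :=
  (RlzQ.comp xa1Pow_rlz (RlzQ.pair hN (RlzQ.pair hL (RlzQ.pair hE (RlzQ.pair hG hA))))).mono 1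
    (fun K _ x => by
      dsimp only
      omega)

/-- all entries to the power `E % 2 ^ Lg`, with `Lg` rounds of the binary algorithm -/
theorem RlzQ.powTL {N Lg E : Fam a .nat} {A : Fam a .arr} {cn cl ce ca : CFam a}
    (hN : RlzQ N cn) (hL : RlzQ Lg cl) (hE : RlzQ E ce) (hA : RlzQ A ca) :
    RlzQ (b := .arr) (fun K _ x => Pool.Agent.AbsIrr.powT (N K x)
        ((E K x : ℕ) % 2 ^ (Lg K x : ℕ)) (A K x))
      (fun K _ x => cn K x + cl K x + ce K x + ca K x + (N K x + 1) * (Lg K x + 1)) :=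
  (RlzQ.comp xa1_powT_rlz (RlzQ.pair hN (RlzQ.pair hL (RlzQ.pair hE hA)))).mono 1
    (fun K _ x => by
      dsimp only
      omega)

/-- the logarithm, with at most `Lg` rounds -/
theorem RlzQ.nlogL {A B Lg : Fam a .nat} {ca cb cl : CFam a} (hA : RlzQ A ca) (hB : RlzQ B cb)
    (hL : RlzQ Lg cl) :
    RlzQ (b := .nat) (fun K _ x => min (Nat.log (A K x) (B K x)) (Lg K x : ℕ))
      (fun K _ x => ca K x + cb K x + cl K x + Lg K x) :=
  (RlzQ.comp xa1_nlog_rlz (RlzQ.pair hA (RlzQ.pair hB hL))).mono 1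
    (fun K _ x => by
      dsimp only
      omega)

end XA

end Pool.Agent.AbsIrr
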