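import Mathlib
import Pool.Agent.Lib.MP_2adc98_lc.XDefs
import Pool.Agent.Lib.MP_2adc98_lc.FA

/-!
# MP_2adc98_lc, piece XA2: reduction modulo `gmon n g`, a table of rows
-/

set_option autoImplicit false
set_option linter.unusedVariables false

namespace Pool.Agent.AbsIrr

open Finset Polynomial

/-! ## reduction -/

section
variable {K : Type} [Field K]

private theorem xa2_apol_coeff (n : ℕ) (A : ℕ → K) (i : ℕ) :
    (apol n A).coeff i = if i < n then A i else 0 := by
  unfold apol
  rw [finsetSum_coeff]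
  simp only [coeff_monomial]
  rw [sum_ite_eq' (range n) i]
  simp

private theorem xa2_apol_degree (n : ℕ) (A : ℕ → K) : (apol n A).degree < (n : WithBot ℕ) := by
  rw [degree_lt_iff_coeff_zero]
  intro m hm
  rw [xa2_apol_coeff, if_neg (by omega)]

private theorem xa2_gmon_monic (n : ℕ) (g : ℕ → K) : (gmon n g).Monic := by
  unfold gmon
  exact monic_X_pow_add (xa2_apol_degree n g)

private theorem xa2_gmon_degree (n : ℕ) (g : ℕ → K) : (gmon n g).degree = (n : WithBot ℕ) := by
  unfold gmon
  rw [degree_add_eq_left_of_degree_lt]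
  · exact degree_X_pow n
  · rw [degree_X_pow]
    exact xa2_apol_degree n g

private theorem xa2_blk (w : ℕ) (A : ℕ → K) : blk w A 0 = apol w A := by
  unfold blk apol
  simp

private theorem xa2_rem (w n : ℕ) (g A : ℕ → K) :
    tabF n (modB 1 w n g A) = tabF n (fun i => (apol w A %ₘ gmon n g).coeff i) := by
  funext i
  unfold tabF
  by_cases hi : i < n
  · rw [if_pos hi, if_pos hi]
    unfold modB tabF
    by_cases hw : i < w
    · rw [if_pos (by omega)]
      beta_reduce
      rw [Nat.div_eq_of_lt hw, Nat.mod_eq_of_lt hw, xa2_blk]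
    · rw [if_neg (by omega)]
      beta_reduce
      have h1 : (apol w A).degree < (gmon n g).degree := by
        rw [xa2_gmon_degree]
        exact (xa2_apol_degree w A).trans_le (by exact_mod_cast (by omega : w ≤ n))
      rw [(modByMonic_eq_self_iff (xa2_gmon_monic n g)).2 h1, xa2_apol_coeff, if_neg hw]
  · rw [if_neg hi, if_neg hi]

end

private theorem xa2_tab_rlz : RlzQ (a := .prod .nat .arr) (b := .arr)
    (fun K _ x => tabF (K := K) x.1 x.2) (fun _ _ x => x.1) := by
  have hf : RlzQ (a := .prod (.prod .nat .arr) .nat) (b := .fld)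
      (fun K _ x => (x.1.2 : ℕ → K) x.2) (fun _ _ _ => 0) :=
    (RlzQ.get (RlzQ.snd (RlzQ.fst RlzQ.input)) (RlzQ.snd RlzQ.input)).mono 1
      (fun K _ x => by simp)
  have := RlzQ.tab (a := .prod .nat .arr) (N := fun _ _ x => x.1)
    (f := fun _K _ x i => (x.2 : ℕ → _K) i) (RlzQ.fst RlzQ.input) hf
  exact this.mono 1 (fun K _ x => by simp)

section XA
variable {a : Ty}

/-- the remainder of the polynomial with the first `w` coefficients `A` modulo `gmon n G` -/
theorem RlzQ.redmod {W N : Fam a .nat} {G A : Fam a .arr} {cw cn cg ca : CFam a} (hW : RlzQ W cw)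
    (hN : RlzQ N cn) (hG : RlzQ G cg) (hA : RlzQ A ca) :
    RlzQ (b := .arr) (fun K _ x => tabF (N K x) (fun i =>
        (apol (W K x) (A K x) %ₘ gmon (N K x) (G K x)).coeff i))
      (fun K _ x => cw K x + cn K x + cg K x + ca K x + W K x + N K x) :=
  ((RlzQ.comp xa2_tab_rlz (RlzQ.pair hN (RlzQ.rem hW hN hG hA))).congr
    (fun K _ x => xa2_rem (W K x) (N K x) (G K x) (A K x))).mono 4 (fun K _ x => by
      dsimp only
      omega)

end XA

/-! ## a table of rows -/

section rows
variable {a : Ty}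

/-- one round: row number `i` is replaced -/
private def xa2Step {K : Type} [Field K] (n w : ℕ) (row s : ℕ → K) (i : ℕ) : ℕ → K :=
  tabF (n * w) (fun j => if i * w ≤ j then (if j < (i + 1) * w then row (j - i * w) else s j)
    else s j)

private theorem xa2_rows {K : Type} [Field K] (n w : ℕ) (f : ℕ → ℕ → K) (i : ℕ) :
    iterF i (tabF 0 (fun _ => (0 : K))) (fun s i => xa2Step n w (f i) s i) =
      tabF (n * w) (fun j => if j / w < i then f (j / w) (j % w) else 0) := by
  induction i with
  | zero =>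
    funext j
    simp [tabF]
  | succ i ih =>
    rw [iterF_succ, ih]
    funext j
    unfold xa2Step tabF
    by_cases hj : j < n * w
    · have hw : 0 < w := by
        rcases Nat.eq_zero_or_pos w with h | h
        · rw [h, mul_zero] at hj
          omega
        · exact h
      simp only [if_pos hj]
      have h1 := Nat.div_add_mod j w
      have h2 := Nat.mod_lt j hw
      rcases lt_trichotomy (j / w) i with h | h | h
      · have h3 : w * (j / w + 1) ≤ w * i := Nat.mul_le_mul_left w h
        rw [if_neg (by nlinarith), if_pos h, if_pos (by omega)]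
      · have h3 : w * (j / w) = i * w := by rw [h, mul_comm]
        have h4 : (i + 1) * w = i * w + w := by ring
        rw [if_pos (by omega), if_pos (by omega), if_pos (by omega), h]
        congr 1
        omega
      · have h3 : (i + 1) * w ≤ j / w * w := Nat.mul_le_mul_right w h
        have h4 : j / w * w = w * (j / w) := mul_comm _ _
        have h5 : (i + 1) * w = i * w + w := by ring
        rw [if_pos (by omega), if_neg (by omega), if_neg (by omega), if_neg (by omega)]
    · simp only [if_neg hj]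

private theorem xa2_step_rlz {F : Fam (.prod a .nat) .arr} {cf : CFam (.prod a .nat)}
    (hF : RlzQ F cf) :
    RlzQ (a := .prod (.prod (.prod a (.prod .nat .nat)) .arr) .nat) (b := .arr)
      (fun K _ x => xa2Step (K := K) x.1.1.2.1 x.1.1.2.2 (F K (x.1.1.1, x.2)) x.1.2 x.2)
      (fun K _ x => cf K (x.1.1.1, x.2) + x.1.1.2.1 * x.1.1.2.2) := by
  have e0 : RlzQ (a := .prod (.prod (.prod a (.prod .nat .nat)) .arr) .nat)
      (fun _ _ x => x) (fun _ _ _ => 0) := RlzQ.input
  have hrow : RlzQ (a := .prod (.prod (.prod a (.prod .nat .nat)) .arr) .nat) (b := .arr)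
      (fun K _ x => F K (x.1.1.1, x.2)) (fun K _ x => cf K (x.1.1.1, x.2)) :=
    (RlzQ.comp hF (RlzQ.pair (RlzQ.fst (RlzQ.fst (RlzQ.fst e0))) (RlzQ.snd e0))).mono 1
      (fun K _ x => by simp)
  have hz : RlzQ (a := .prod (.prod (.prod (.prod (.prod a (.prod .nat .nat)) .arr) .nat) .arr) .nat)
      (fun _ _ x => x) (fun _ _ _ => 0) := RlzQ.input
  have ez := RlzQ.fst (RlzQ.fst hz)
  have ew := RlzQ.snd (RlzQ.snd (RlzQ.fst (RlzQ.fst ez)))
  have es := RlzQ.snd (RlzQ.fst ez)
  have ei := RlzQ.snd ez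
  have erow := RlzQ.snd (RlzQ.fst hz)
  have ej := RlzQ.snd hz
  have hentry := RlzQ.iteLe (RlzQ.mul ei ew) ej
    (RlzQ.iteLt ej (RlzQ.mul (RlzQ.add ei (RlzQ.lit 1)) ew)
      (RlzQ.get erow (RlzQ.sub ej (RlzQ.mul ei ew))) (RlzQ.get es ej)) (RlzQ.get es ej)
  have hy : RlzQ (a := .prod (.prod (.prod (.prod a (.prod .nat .nat)) .arr) .nat) .arr)
      (fun _ _ x => x) (fun _ _ _ => 0) := RlzQ.input
  have en := RlzQ.fst (RlzQ.snd (RlzQ.fst (RlzQ.fst (RlzQ.fst hy))))
  have ew' := RlzQ.snd (RlzQ.snd (RlzQ.fst (RlzQ.fst (RlzQ.fst hy))))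
  have htab := RlzQ.tab
    (a := .prod (.prod (.prod (.prod a (.prod .nat .nat)) .arr) .nat) .arr)
    (f := fun K _ x j => if (x.1.2 : ℕ) * (x.1.1.1.2.2 : ℕ) ≤ j then
      (if j < ((x.1.2 : ℕ) + 1) * (x.1.1.1.2.2 : ℕ) then
        ((x.2 : ℕ → K) (j - (x.1.2 : ℕ) * (x.1.1.1.2.2 : ℕ)) : K) else (x.1.1.2 : ℕ → K) j)
      else (x.1.1.2 : ℕ → K) j)
    (RlzQ.mul en ew') hentry
  refine ((RlzQ.comp htab (RlzQ.pair e0 hrow)).congr (fun K _ x => rfl)).mono 1 (fun K _ x => ?_)
  simp only [add_zero, ite_self, Finset.sum_const_zero, zero_add]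
  have key : ∀ A B : ℕ, A + B ≤ 1 * (A + B + 1) := by intros; omega
  exact key _ _

/-- a table of rows of length `w x`, row `i < n x` is the array `F (x, i)` -/
theorem rows_rlz {a : Ty} {N W : Fam a .nat} {F : Fam (.prod a .nat) .arr} {cn cw : CFam a}
    {cf : CFam (.prod a .nat)} (hN : RlzQ N cn) (hW : RlzQ W cw) (hF : RlzQ F cf) :
    RlzQ (b := .arr) (fun K _ x => tabF (N K x * W K x) (fun j =>
        F K (x, j / W K x) (j % W K x)))
      (fun K _ x => cn K x + cw K x + ∑ i ∈ range (N K x), cf K (x, i) +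
        N K x * N K x * (W K x + 1)) := by
  have hinit : RlzQ (a := .prod a (.prod .nat .nat)) (b := .arr)
      (fun K _ _ => tabF 0 (fun _ => (0 : K))) (fun _ _ _ => 0) :=
    (RlzQ.tab (a := .prod a (.prod .nat .nat)) (f := fun K _ _ _ => (0 : K))
      (RlzQ.lit 0) RlzQ.zero).mono 1 (fun K _ x => by simp)
  have hloop := RlzQ.iter (a := .prod a (.prod .nat .nat)) (b := .arr)
    (f := fun K _ y s i => xa2Step (K := K) y.2.1 y.2.2 (F K (y.1, i)) s i)
    (RlzQ.fst (RlzQ.snd RlzQ.input)) hinit (xa2_step_rlz hF)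
  refine ((RlzQ.comp hloop (RlzQ.pair RlzQ.input (RlzQ.pair hN hW))).congr
    (fun K _ x => ?_)).mono 1 (fun K _ x => ?_)
  · refine (xa2_rows (K := K) (N K x) (W K x) (fun i => F K (x, i)) (N K x)).trans ?_
    funext j
    unfold tabF
    by_cases hj : j < N K x * W K x
    · rw [if_pos hj, if_pos hj]
      beta_reduce
      rw [if_pos (Nat.div_lt_of_lt_mul (by rw [mul_comm]; exact hj))]
    · rw [if_neg hj, if_neg hj]
  · simp only [Finset.sum_add_distrib, Finset.sum_const, Finset.card_range, smul_eq_mul]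
    have key : ∀ c1 c2 n w S : ℕ, 0 + (c1 + c2) + (0 + 0 + n + (S + n * (n * w))) ≤
        1 * (c1 + c2 + S + n * n * (w + 1) + 1) := by
      intro c1 c2 n w S
      have h : n ≤ n * n := Nat.le_mul_self n
      nlinarith
    exact key _ _ _ _ _

end rows

end Pool.Agent.AbsIrr
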