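import Mathlib
import Pool.Agent.Lib.MP_2adc98_lc.FModel

/-!
# MP_2adc98_lc: printing programs with case distinctions, output over the ground field
-/

set_option autoImplicit false

namespace Pool.Agent.AbsIrr

open Polynomial

/-- programs with input type `a` that print values of type `b`: the programs `Out`, with case
distinctions -/
inductive POut (b : Ty) : Ty → Type
  /-- print the value of `f` -/
  | print {a : Ty} (f : PProg a b) : POut b a
  /-- compute `f`, then run `g` on the result -/
  | after {a c : Ty} (f : PProg a c) (g : POut b c) : POut b a
  /-- for `i = 0, …, n-1` run `g` on `(x, i)` -/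
  | loop {a : Ty} (n : PProg a .nat) (g : POut b (.prod a .nat)) : POut b a
  /-- run `f` if the value of `t` is not `0`, otherwise run `g` -/
  | ite {a : Ty} (t : PProg a .nat) (f g : POut b a) : POut b a

/-- the list of the printed values -/
noncomputable def POut.eval (K : Type) [Field K] {b a : Ty} (t : POut b a) :
    a.val K → List (b.val K) :=
  POut.rec (motive := fun a _ => a.val K → List (b.val K))
    (print := fun f x => [f.eval K x])
    (after := fun f _ g x => g (f.eval K x))
    (loop := fun n _ g x => (List.range (n.eval K x)).flatMap fun i => g (x, i))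
    (ite := fun t _ _ f g x => if (t.eval K x : ℕ) ≠ 0 then f x else g x)
    t

/-- the number of elementary steps of a printing program -/
noncomputable def POut.steps (K : Type) [Field K] {b a : Ty} (t : POut b a) : a.val K → ℕ :=
  POut.rec (motive := fun a _ => a.val K → ℕ)
    (print := fun f x => f.steps K x + 1)
    (after := fun f _ cg x => f.steps K x + cg (f.eval K x) + 1)
    (loop := fun n _ cg x =>
      n.steps K x + (∑ i ∈ Finset.range (n.eval K x), (cg (x, i) + bitc i 0)) + 1)
    (ite := fun t _ _ cf cg x =>
      t.steps K x + (if (t.eval K x : ℕ) ≠ 0 then cf x else cg x) + 1)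
    t

/-- the triple over `L` given by a triple over `K ⊆ L` -/
noncomputable def Triple.map (K L : Type) [Field K] [Field L] [Algebra K L] (t : Triple K) :
    Triple L :=
  (t.1.map (algebraMap K L), MvPolynomial.map (mapRingHom (algebraMap K L)) t.2.1, t.2.2)

/-- the input: the degree `d`, the characteristic `p`, numbers `q` and `M`, the coefficients, the
random elements -/
abbrev InpK : Ty := .prod .nat (.prod .nat (.prod .nat (.prod .nat (.prod .arr .arr))))

/-- the program `A`, run over the extension field `L` of `K` on the numbers `d, p, q, M`, the
coefficients of `f` and `m` random elements of the finite set `S`, prints the absolute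
factorization of `f`, with coefficients in `K`, within `T` steps, with probability at least
`2/3` -/
noncomputable def FactorsK (A : POut Prt InpK) {K : Type} [Field K] (p d q M : ℕ)
    (f : MvPolynomial (Fin 2) K) (L : Type) [Field L] [Algebra K L] (S : Finset L)
    (m T : ℕ) : Prop := by
  classical exact
  (∀ ω : Fin m → L, (∀ i, ω i ∈ S) →
    A.steps L (d, (p, (q, (M, (coeffArray L d f, tape ω))))) ≤ T) ∧
  3 * ((Fintype.piFinset fun _ : Fin m => S).filter fun ω =>
    ¬ ∃ T : List (Triple K), IsAbsFact f T ∧
      (A.eval L (d, (p, (q, (M, (coeffArray L d f, tape ω)))))).map (decode d) =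
        T.map (Triple.map K L)).card ≤ S.card ^ m

/-- an `Out` program as a `POut` program -/
def Out.toPOut {b : Ty} : {a : Ty} → Out b a → POut b a
  | _, .print f => .print f
  | _, .after f g => .after f g.toPOut
  | _, .loop n g => .loop n g.toPOut

theorem Out.toPOut_eval {b a : Ty} (t : Out b a) (K : Type) [Field K] (x : a.val K) :
    t.toPOut.eval K x = t.eval K x := by
  induction t with
  | print f => rfl
  | after f g ih => exact ih _
  | loop n g ih =>
    change ((List.range (n.eval K x)).flatMap fun i => g.toPOut.eval K (x, i)) =
      (List.range (n.eval K x)).flatMap fun i => g.eval K (x, i)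
    simp only [ih]

theorem Out.toPOut_steps {b a : Ty} (t : Out b a) (K : Type) [Field K] (x : a.val K) :
    t.toPOut.steps K x = t.steps K x := by
  induction t with
  | print f => rfl
  | after f g ih =>
    change f.steps K x + g.toPOut.steps K (f.eval K x) + 1 =
      f.steps K x + g.steps K (f.eval K x) + 1
    rw [ih]
  | loop n g ih =>
    change n.steps K x + (∑ i ∈ Finset.range (n.eval K x), (g.toPOut.steps K (x, i) +
      bitc i 0)) + 1 = n.steps K x + (∑ i ∈ Finset.range (n.eval K x), (g.steps K (x, i) +
      bitc i 0)) + 1
    simp only [ih]

end Pool.Agent.AbsIrr
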