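import Mathlib
import Pool.Agent.Lib.MP_2adc98_lc.XDefs
import Pool.Agent.Lib.MP_2adc98_lc.Model

/-!
# MP_2adc98_lc, stage 3: items and good choices

`q = |K|`; `gmon N Q` is squarefree with the set of roots `Z`, block `e < B` (width `N`) of `G` is
coefficient number `e` of the factor as a polynomial in `z`; the `q`-th power map permutes the
factors, `ϖ` is the corresponding permutation of the roots.
-/

set_option autoImplicit false

namespace Pool.Agent.AbsIrr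

open Finset Polynomial

section
variable {L : Type} [Field L] {k : Type} [Field k] [Algebra L k]

/-- the data of an item -/
structure ItemOK (q N B : ℕ) (Q G : ℕ → L) (Z : Finset k) (ϖ : k → k) : Prop where
  isMod : IsMod N Q Z
  maps : ∀ z ∈ Z, ϖ z ∈ Z
  inj : Set.InjOn ϖ Z
  frob : ∀ z ∈ Z, ∃ c : k, c ≠ 0 ∧ ∀ e < B, dv N z G e ^ q = c * dv N (ϖ z) G e
  indep : ∀ z ∈ Z, ∀ z' ∈ Z, z ≠ z' → ∀ x y : k,
    (∀ e < B, x * dv N z G e = y * dv N z' G e) → x = 0 ∧ y = 0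
  ne : ∀ z ∈ Z, ∃ e < B, dv N z G e ≠ 0

/-- the functions `v_i` -/
noncomputable def vfun (q B N : ℕ) (G ρ ρ' : ℕ → L) (i : ℕ) (z : k) : k :=
  (∑ e ∈ range B, algebraMap L k (ρ' e) ^ q ^ i * dv N z G e) /
    ∑ e ∈ range B, algebraMap L k (ρ e) ^ q ^ i * dv N z G e

/-- the denominators do not vanish and `v_0` is injective -/
def Good1 (q B N : ℕ) (G : ℕ → L) (Z : Finset k) (ρ ρ' : ℕ → L) : Prop :=
  (∀ z ∈ Z, ∑ e ∈ range B, algebraMap L k (ρ e) * dv N z G e ≠ 0) ∧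
    Set.InjOn (vfun q B N G ρ ρ' 0) (Z : Set k)

/-- `H` separates the orbits -/
def Good2 (Z : Finset k) (ϖ : k → k) (H : k → k) : Prop :=
  ∀ z ∈ Z, ∀ z' ∈ Z, (∀ i, ϖ^[i] z ≠ z') → H z ≠ H z'

/-- the bits separate the orbits -/
def Good3 (p M R : ℕ) (Z : Finset k) (ϖ : k → k) (H : k → k) (c : ℕ → L) : Prop :=
  ∀ z ∈ Z, ∀ z' ∈ Z, (∀ i, ϖ^[i] z ≠ z') → ∃ r < R,
    ¬ (bitv p M (H z) (algebraMap L k (c r)) = 1 ↔ bitv p M (H z') (algebraMap L k (c r)) = 1)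

/-- the random rational function -/
noncomputable def afun (q E N : ℕ) (v : ℕ → k → k) (γ : ℕ → L) (z : k) : k :=
  ∑ i ∈ range E, ∑ j ∈ range N, algebraMap L k (γ j) ^ q ^ i * v i z ^ j

/-- for every orbit one of the random rational functions is injective on it -/
def Good4 (q E N R : ℕ) (Z : Finset k) (ϖ : k → k) (v : ℕ → k → k) (γ : ℕ → ℕ → L) : Prop :=
  ∀ z ∈ Z, ∃ r < R, Set.InjOn (afun q E N v (γ r)) {v' | ∃ i, v' = ϖ^[i] z}

end

end Pool.Agent.AbsIrr
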