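import Mathlib
import Pool.Agent.Lib.MP_2adc98_lc.FGood
import Pool.Agent.Lib.MP_2adc98_lc.XItem

/-!
# MP_2adc98_lc, stage 3: the items delivered by stage 2
-/

set_option autoImplicit false

namespace Pool.Agent.AbsIrr

open Finset Polynomial

/-- the input of the computation of the printed value -/
def in3 {L : Type} [Field L] (d : ℕ) (a b : L) (o : ℕ → Ot1.val L) (m δ : ℕ) : In3.val L :=
  (d, (a, (b, ((o m).1, ((o m).2.1, ((o m).2.2.1, ((o m).2.2.2.1, ((o m).2.2.2.2, δ))))))))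

open Classical in
/-- what stage 2 delivers, over a general algebraically closed field -/
theorem good_key {L k : Type} [Field L] [Field k] [Algebra L k] {d t : ℕ}
    {F' : Fin t → k[X][X]} {δ mm : Fin t → ℕ} {a b : L} (hmm : ∀ i, 1 ≤ mm i)
    (hδ : ∀ i, 1 ≤ δ i) (hsum : ∑ i, mm i * δ i = d)
    (hF' : ∀ i, (F' i).Monic ∧ (F' i).natDegree = δ i ∧ TD (δ i) (F' i))
    (hsep : (at0 (∏ i, F' i)).Separable) {nn : ℕ → ℕ} (hnn : ∀ m, nn m = ∑ i with mm i = m, δ i)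
    {o : ℕ → Ot1.val L} (ho1 : ∀ m, 1 ≤ m → m ≤ d → (o m).1 = nn m)
    (ho : ∀ m, 1 ≤ m → m ≤ d → 1 ≤ nn m →
      GoodOut (fun c : {i // mm i = m} => F' c) (nn m) (o m))
    {F3 : Fam In3 (.prod .arr .arr)} (h3 : Spec3 F3) :
    ∃ val : Fin t → k, (∀ i j, mm i = mm j → val i = val j → i = j) ∧
      ∀ m, 1 ≤ m → m ≤ d → 1 ≤ nn m → ∀ δ₀, 1 ≤ δ₀ → δ₀ ≤ nn m →
      ((∑ l ∈ range (d + 1), monomial l ((F3 L (in3 d a b o m δ₀)).1 l) : L[X]).map
        (algebraMap L k) = ∏ i with mm i = m ∧ δ i = δ₀, (X - C (val i))) ∧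
      numc (nn m) δ₀ (o m).2.2.2.2 = (univ.filter fun i => mm i = m ∧ δ i = δ₀).card ∧
      (∀ l j i, numc (nn m) δ₀ (o m).2.2.2.2 ≤ l → j ≤ d → i ≤ d →
        (F3 L (in3 d a b o m δ₀)).2 ((l * (d + 1) + j) * (d + 1) + i) = 0) ∧
      ∀ c, mm c = m → δ c = δ₀ → ∀ i ≤ d, ∀ j ≤ d,
        ∑ l ∈ range (d + 1), algebraMap L k ((F3 L (in3 d a b o m δ₀)).2
            ((l * (d + 1) + j) * (d + 1) + i)) * val c ^ l =
          ((shf (-algebraMap L k a) (-algebraMap L k b) (F' c)).coeff j).coeff i := by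
  set σ := algebraMap L k with hσ
  have hnnd : ∀ m, 1 ≤ m → nn m ≤ d := fun m hm => by
    rw [hnn, ← hsum]
    calc ∑ i with mm i = m, δ i ≤ ∑ i with mm i = m, mm i * δ i :=
          Finset.sum_le_sum fun i _ => Nat.le_mul_of_pos_left _ (hmm i)
      _ ≤ ∑ i, mm i * δ i := Finset.sum_le_sum_of_subset (Finset.filter_subset _ _)
  have hmmd : ∀ i, mm i ≤ d ∧ δ i ≤ d := fun i => by
    have h1 : mm i * δ i ≤ d := by
      rw [← hsum]
      exact Finset.single_le_sum (f := fun i => mm i * δ i) (fun _ _ => Nat.zero_le _)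
        (Finset.mem_univ i)
    have := hmm i
    have := hδ i
    constructor <;> nlinarith
  have hδn : ∀ i, δ i ≤ nn (mm i) := fun i => by
    rw [hnn]
    exact Finset.single_le_sum (f := δ) (fun _ _ => Nat.zero_le _)
      (Finset.mem_filter.mpr ⟨Finset.mem_univ i, rfl⟩)
  have hex : ∀ m, 1 ≤ m → m ≤ d → 1 ≤ nn m → ∃ (h : L[X][X])
      (val : {i // mm i = m} → k), h.Monic ∧ h.natDegree = nn m ∧
      h.map (mapRingHom σ) = ∏ c : {i // mm i = m}, F' c ∧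
      (∀ i < (nn m + 1) * (nn m + 1), (o m).2.1 i = coeffs2 (nn m + 1) h i) ∧
      (∃ u, apol (nn m) (o m).2.2.1 * derivative (at0 h) + u * at0 h = 1) ∧
      Function.Injective val ∧
      (∀ c : {i // mm i = m}, at0 (F' c) ∣ (apol (nn m) (o m).2.2.2.1).map σ - C (val c)) ∧
      ∀ j ≤ nn m, (blk (nn m + 1) (o m).2.2.2.2 j).map σ =
        ∏ c : {i // mm i = m} with j < (F' c.1).natDegree, (X - C (val c)) := by
    intro m h1 h2 h3
    obtain ⟨g1, h, g2, g3, g4, g5, g6, val, g7, g8, g9⟩ := ho m h1 h2 h3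
    exact ⟨h, val, g2, g3, g4, g5, g6, g7, g8, g9⟩
  choose! hp val hhp using hex
  have hdd : ∀ m, ∑ c : {i // mm i = m}, (F' c).natDegree = nn m := fun m => by
    rw [hnn, ← Finset.sum_subtype_eq_sum_filter]
    refine Finset.sum_congr (by ext; simp) fun c _ => (hF' c).2.1
  have hsepm : ∀ m, (at0 (∏ c : {i // mm i = m}, F' c)).Separable := fun m => by
    refine hsep.of_dvd ?_
    unfold at0
    refine Polynomial.map_dvd _ ?_
    have e1 : ∏ c : {i // mm i = m}, F' c = ∏ i with mm i = m, F' i := by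
      rw [← Finset.prod_subtype_eq_prod_filter]
      exact Finset.prod_congr (by ext; simp) fun _ _ => rfl
    rw [e1]
    exact Finset.prod_dvd_prod_of_subset _ _ _ (Finset.filter_subset _ _)
  have htr : ∀ (m : ℕ) (c : {i // mm i = m}), val (mm c.1) ⟨c.1, rfl⟩ = val m c := by
    rintro m ⟨i, rfl⟩
    rfl
  refine ⟨fun i => val (mm i) ⟨i, rfl⟩, fun i j h1 h2 => ?_, fun m h1 h2 h4 δ₀ h5 h6 => ?_⟩
  · have e2 : val (mm j) ⟨i, h1⟩ = val (mm j) ⟨j, rfl⟩ := by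
      rw [← htr (mm j) ⟨i, h1⟩]
      exact h2
    obtain ⟨-, -, -, -, -, g7, -⟩ := hhp (mm j) (hmm j) (hmmd j).1
      (le_trans (hδ j) (hδn j))
    exact congrArg Subtype.val (g7 e2)
  obtain ⟨g2, g3, g4, g5, g6, g7, g8, g9⟩ := hhp m h1 h2 h4
  have e0 : (o m).1 = nn m := ho1 m h1 h2
  have g := h3 L k d (nn m) δ₀ a b (o m).2.1 (o m).2.2.1 (o m).2.2.2.1 (o m).2.2.2.2 (hp m)
    {i // mm i = m} (fun c => F' c) (val m)
    (fun c => ⟨(hF' c).1, by rw [(hF' c).2.1]; exact hδ c, by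
      rw [(hF' c).2.1]; exact (hF' c).2.2⟩) (hsepm m) g2 g3 g4 g5 g6 g7 g8
    (fun j hj => by rw [g9 j hj]) h5 h6 (hnnd m h1)
  obtain ⟨k1, k2, k3⟩ := g
  have e1 : in3 d a b o m δ₀ = (d, (a, (b, (nn m, ((o m).2.1, ((o m).2.2.1, ((o m).2.2.2.1,
      ((o m).2.2.2.2, δ₀)))))))) := by
    unfold in3
    rw [e0]
  have e2 : numc (nn m) δ₀ (o m).2.2.2.2 =
      (univ.filter fun c : {i // mm i = m} => (F' c.1).natDegree = δ₀).card :=
    numc_eq (hdd m).le (fun j hj => g9 j hj) h5 h6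
  rw [e1]
  refine ⟨?_, ?_, k2, ?_⟩
  · rw [k1]
    refine Finset.prod_bij (fun c _ => c.1) ?_ ?_ ?_ ?_
    · intro c hc
      rw [Finset.mem_filter] at hc ⊢
      exact ⟨Finset.mem_univ _, c.2, by rw [← (hF' c.1).2.1, hc.2]⟩
    · intro c _ c' _ h
      exact Subtype.ext h
    · intro i hi
      rw [Finset.mem_filter] at hi
      refine ⟨⟨i, hi.2.1⟩, ?_, rfl⟩
      rw [Finset.mem_filter]
      exact ⟨Finset.mem_univ _, by rw [(hF' i).2.1]; exact hi.2.2⟩
    · intro c _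
      change X - C (val m c) = X - C (val (mm c.1) ⟨c.1, rfl⟩)
      rw [htr]
  · rw [e2]
    refine Finset.card_bij (fun c _ => c.1) ?_ ?_ ?_
    · intro c hc
      rw [Finset.mem_filter] at hc ⊢
      exact ⟨Finset.mem_univ _, c.2, by rw [← (hF' c.1).2.1, hc.2]⟩
    · intro c _ c' _ h
      exact Subtype.ext h
    · intro i hi
      rw [Finset.mem_filter] at hi
      refine ⟨⟨i, hi.2.1⟩, ?_, rfl⟩
      rw [Finset.mem_filter]
      exact ⟨Finset.mem_univ _, by rw [(hF' i).2.1]; exact hi.2.2⟩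
  · intro c hc hc' i hi j hj
    have := k3 ⟨c, hc⟩ (by rw [(hF' c).2.1]; exact hc') i hi j hj
    rw [← htr m ⟨c, hc⟩] at this
    exact this

end Pool.Agent.AbsIrr
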