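import Mathlib
import Pool.Agent.Lib.MP_2adc98_lc.XKey

/-!
# MP_2adc98_lc, stage 3: the items of stage 2 satisfy `ItemOK`
-/

set_option autoImplicit false

namespace Pool.Agent.AbsIrr

open Finset Polynomial

/-- the coefficients of an item, one block of length `N` for every coefficient -/
def toE {L : Type} [Field L] (d δ N : ℕ) (Fp : ℕ → L) : ℕ → L :=
  tabF ((δ + 1) ^ 2 * N) (fun j =>
    Fp ((j % N * (d + 1) + j / N / (δ + 1)) * (d + 1) + j / N % (δ + 1)))

open Classical in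
/-- the permutation of the roots given by a permutation of the indices -/
noncomputable def itemPerm {k : Type} {t : ℕ} (val : Fin t → k) (π : Equiv.Perm (Fin t))
    (A : Finset (Fin t)) (z : k) : k :=
  if h : ∃ i ∈ A, val i = z then val (π h.choose) else z

section
variable {L k : Type} [Field L] [Field k] [Algebra L k]

omit [Field k] in
theorem itemPerm_val {t : ℕ} {val : Fin t → k} {π : Equiv.Perm (Fin t)} {A : Finset (Fin t)}
    (hval : Set.InjOn val (A : Set (Fin t))) {i : Fin t} (hi : i ∈ A) :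
    itemPerm val π A (val i) = val (π i) := by
  have h : ∃ j ∈ A, val j = val i := ⟨i, hi, rfl⟩
  unfold itemPerm
  rw [dif_pos h, hval h.choose_spec.1 hi h.choose_spec.2]

theorem dv_toE (d δ N : ℕ) (Fp : ℕ → L) (z : k) {e : ℕ} (he : e < (δ + 1) ^ 2) :
    dv N z (toE d δ N Fp) e = ∑ l ∈ range N, algebraMap L k
      (Fp ((l * (d + 1) + e / (δ + 1)) * (d + 1) + e % (δ + 1))) * z ^ l := by
  unfold dv toE
  refine Finset.sum_congr rfl fun l hl => ?_
  have hl' := Finset.mem_range.mp hl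
  have hN : 0 < N := by omega
  have h1 : e * N + l < (δ + 1) ^ 2 * N := by
    calc e * N + l < e * N + N := by omega
      _ = (e + 1) * N := by ring
      _ ≤ (δ + 1) ^ 2 * N := Nat.mul_le_mul_right _ he
  have h2 : (e * N + l) % N = l := by
    rw [Nat.mul_comm, Nat.mul_add_mod, Nat.mod_eq_of_lt hl']
  have h3 : (e * N + l) / N = e := by
    rw [Nat.mul_comm, Nat.mul_add_div hN, Nat.div_eq_of_lt hl', Nat.add_zero]
  rw [tabF, if_pos h1, h2, h3]

theorem gmon_of_monic {d N : ℕ} {Q : ℕ → L} (hN : N ≤ d) {P : L[X]}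
    (hP : P = ∑ l ∈ range (d + 1), monomial l (Q l)) (hm : P.Monic) (hd : P.natDegree = N) :
    gmon N Q = P := by
  have hc : ∀ l, P.coeff l = if l ≤ d then Q l else 0 := by
    intro l
    rw [hP, finsetSum_coeff]
    simp only [coeff_monomial]
    rw [Finset.sum_ite_eq' (Finset.range (d + 1)) l (fun i => Q i)]
    simp only [Finset.mem_range, Nat.lt_succ_iff]
  ext i
  rw [FN.gmon_coeff]
  split_ifs with h1 h2
  · rw [hc, if_pos (by omega)]
  · subst h2
    rw [← hd]
    exact hm.coeff_natDegree.symm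
  · rw [coeff_eq_zero_of_natDegree_lt (by omega)]

open Classical in
theorem item_ok {d t : ℕ} {δ mm : Fin t → ℕ} {P : Fin t → k[X][X]}
    (hTD : ∀ i, TD (δ i) (P i)) (hirr : ∀ i, Irreducible (P i))
    (hna : Pairwise fun i j => ¬ Associated (P i) (P j)) {q : ℕ} {σ : k →+* k}
    (hσ : ∀ x, σ x = x ^ q) {π : Equiv.Perm (Fin t)}
    (hπ : ∀ i, mm (π i) = mm i ∧ δ (π i) = δ i ∧
      ∃ c : k, c ≠ 0 ∧ (P i).map (mapRingHom σ) = C (C c) * P (π i))
    {val : Fin t → k} (hval : ∀ i j, mm i = mm j → val i = val j → i = j) {m δ₀ N : ℕ}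
    (hδd : δ₀ ≤ d) (hNd : N ≤ d) {Qp Fp : ℕ → L}
    (hQ : (∑ l ∈ range (d + 1), monomial l (Qp l) : L[X]).map
        (algebraMap L k) = ∏ i with mm i = m ∧ δ i = δ₀, (X - C (val i)))
    (hN : N = (univ.filter fun i => mm i = m ∧ δ i = δ₀).card)
    (h0 : ∀ l j i, N ≤ l → j ≤ d → i ≤ d → Fp ((l * (d + 1) + j) * (d + 1) + i) = 0)
    (hF : ∀ c, mm c = m → δ c = δ₀ → ∀ i ≤ d, ∀ j ≤ d,
        ∑ l ∈ range (d + 1), algebraMap L k (Fp ((l * (d + 1) + j) * (d + 1) + i)) * val c ^ l =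
          ((P c).coeff j).coeff i) :
    (∀ c, mm c = m → δ c = δ₀ → ∀ e < (δ₀ + 1) ^ 2, dv N (val c) (toE d δ₀ N Fp) e =
      ((P c).coeff (e / (δ₀ + 1))).coeff (e % (δ₀ + 1))) ∧
    ItemOK q N ((δ₀ + 1) ^ 2) Qp (toE d δ₀ N Fp)
      ((univ.filter fun i => mm i = m ∧ δ i = δ₀).image val)
      (itemPerm val π (univ.filter fun i => mm i = m ∧ δ i = δ₀)) := by
  set A := univ.filter fun i => mm i = m ∧ δ i = δ₀ with hA
  have hAm : ∀ i, i ∈ A ↔ mm i = m ∧ δ i = δ₀ := fun i => by simp [hA]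
  have hvalA : Set.InjOn val (A : Set (Fin t)) := by
    intro i hi j hj h
    have hi' := (hAm i).mp hi
    have hj' := (hAm j).mp hj
    exact hval i j (hi'.1.trans hj'.1.symm) h
  have hπA : ∀ i ∈ A, π i ∈ A := fun i hi => by
    rw [hAm] at hi ⊢
    exact ⟨(hπ i).1.trans hi.1, (hπ i).2.1.trans hi.2⟩
  have hdv : ∀ c ∈ A, ∀ e < (δ₀ + 1) ^ 2, dv N (val c) (toE d δ₀ N Fp) e =
      ((P c).coeff (e / (δ₀ + 1))).coeff (e % (δ₀ + 1)) := by
    intro c hc e he
    have hc' := (hAm c).mp hc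
    have h1 : e / (δ₀ + 1) ≤ δ₀ := by
      have : e / (δ₀ + 1) < δ₀ + 1 := Nat.div_lt_of_lt_mul (by rw [← sq]; exact he)
      omega
    have h2 : e % (δ₀ + 1) ≤ δ₀ := by
      have := Nat.mod_lt e (show 0 < δ₀ + 1 by omega)
      omega
    rw [dv_toE _ _ _ _ _ he, ← hF c hc'.1 hc'.2 _ (by omega) _ (by omega)]
    refine Finset.sum_subset (Finset.range_subset_range.2 (by omega)) fun l _ hl => ?_
    rw [Finset.mem_range, not_lt] at hl
    rw [h0 l _ _ hl (by omega) (by omega), map_zero, zero_mul]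
  -- all coefficients from the positions
  have hall : ∀ i ∈ A, ∀ j ∈ A, ∀ x y : k, (∀ e < (δ₀ + 1) ^ 2,
      x * ((P i).coeff (e / (δ₀ + 1))).coeff (e % (δ₀ + 1)) =
        y * ((P j).coeff (e / (δ₀ + 1))).coeff (e % (δ₀ + 1))) →
      C (C x) * P i = C (C y) * P j := by
    intro i hi j hj x y h
    have hi' := (hAm i).mp hi
    have hj' := (hAm j).mp hj
    ext b a
    rw [coeff_C_mul, coeff_C_mul, coeff_C_mul, coeff_C_mul]
    by_cases hab : a ≤ δ₀ ∧ b ≤ δ₀
    · have h1 : b * (δ₀ + 1) + a < (δ₀ + 1) ^ 2 := by nlinarith [hab.1, hab.2]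
      have h2 := h _ h1
      have h3 : (b * (δ₀ + 1) + a) / (δ₀ + 1) = b := by
        rw [Nat.mul_comm, Nat.mul_add_div (by omega), Nat.div_eq_of_lt (by omega), Nat.add_zero]
      have h4 : (b * (δ₀ + 1) + a) % (δ₀ + 1) = a := by
        rw [Nat.mul_comm, Nat.mul_add_mod, Nat.mod_eq_of_lt (by omega)]
      rw [h3, h4] at h2
      exact h2
    · have h1 : δ₀ < a + b := by omega
      rw [TD_coeff_zero (hTD i) (by rw [hi'.2]; exact h1),
        TD_coeff_zero (hTD j) (by rw [hj'.2]; exact h1), mul_zero, mul_zero]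
  refine ⟨fun c h1 h2 => hdv c ((hAm c).mpr ⟨h1, h2⟩), ⟨?_, ?_, ?_, ?_, ?_, ?_⟩⟩
  · -- the modulus
    have h1 : ∏ i ∈ A, (X - C (val i)) = ∏ v ∈ A.image val, (X - C v) := by
      rw [Finset.prod_image hvalA]
    have h2 : (∑ l ∈ range (d + 1), monomial l (Qp l) : L[X]).Monic := by
      refine monic_of_injective (algebraMap L k).injective ?_
      rw [hQ]
      exact monic_prod_of_monic _ _ fun i _ => monic_X_sub_C _
    have h3 : (∑ l ∈ range (d + 1), monomial l (Qp l) : L[X]).natDegree = N := by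
      rw [← natDegree_map (algebraMap L k), hQ,
        natDegree_prod_of_monic _ _ (fun i _ => monic_X_sub_C _)]
      simp [hN, hA]
    unfold IsMod
    rw [gmon_of_monic hNd rfl h2 h3, hQ, h1]
  · intro z hz
    obtain ⟨i, hi, rfl⟩ := Finset.mem_image.mp hz
    rw [itemPerm_val hvalA hi]
    exact Finset.mem_image_of_mem _ (hπA i hi)
  · intro z hz z' hz' h
    obtain ⟨i, hi, rfl⟩ := Finset.mem_image.mp (Finset.mem_coe.mp hz)
    obtain ⟨j, hj, rfl⟩ := Finset.mem_image.mp (Finset.mem_coe.mp hz')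
    rw [itemPerm_val hvalA hi, itemPerm_val hvalA hj] at h
    have := hvalA (Finset.mem_coe.mpr (hπA i hi)) (Finset.mem_coe.mpr (hπA j hj)) h
    rw [π.injective this]
  · intro z hz
    obtain ⟨i, hi, rfl⟩ := Finset.mem_image.mp hz
    obtain ⟨c, hc, hc'⟩ := (hπ i).2.2
    refine ⟨c, hc, fun e he => ?_⟩
    rw [itemPerm_val hvalA hi, hdv i hi e he, hdv (π i) (hπA i hi) e he, ← hσ]
    have h1 := congrArg (fun p => (p.coeff (e / (δ₀ + 1))).coeff (e % (δ₀ + 1))) hc'
    simp only [coeff_map, coe_mapRingHom, coeff_C_mul] at h1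
    exact h1
  · intro z hz z' hz' hne x y h
    obtain ⟨i, hi, rfl⟩ := Finset.mem_image.mp hz
    obtain ⟨j, hj, rfl⟩ := Finset.mem_image.mp hz'
    have hij : i ≠ j := fun h => hne (by rw [h])
    have h1 := hall i hi j hj x y (fun e he => by
      rw [← hdv i hi e he, ← hdv j hj e he]
      exact h e he)
    by_cases hx : x = 0
    · subst hx
      refine ⟨rfl, ?_⟩
      by_contra hy
      rw [map_zero, map_zero, zero_mul] at h1
      rcases mul_eq_zero.mp h1.symm with h2 | h2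
      · exact hy (C_injective (C_injective (by rw [h2, map_zero, map_zero])))
      · exact (hirr j).ne_zero h2
    · exfalso
      by_cases hy : y = 0
      · subst hy
        rw [map_zero, map_zero, zero_mul] at h1
        rcases mul_eq_zero.mp h1 with h2 | h2
        · exact hx (C_injective (C_injective (by rw [h2, map_zero, map_zero])))
        · exact (hirr i).ne_zero h2
      · have hu : ∀ c : k, c ≠ 0 → IsUnit (C (C c) : k[X][X]) := fun c hc =>
          isUnit_C.2 (isUnit_C.2 (isUnit_iff_ne_zero.2 hc))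
        refine hna hij ?_
        refine (associated_unit_mul_left _ _ (hu x hx)).symm.trans ?_
        rw [h1]
        exact associated_unit_mul_left _ _ (hu y hy)
  · intro z hz
    obtain ⟨i, hi, rfl⟩ := Finset.mem_image.mp hz
    by_contra hcon
    push Not at hcon
    have h1 := hall i hi i hi 1 0 (fun e he => by
      rw [← hdv i hi e he, hcon e he, mul_zero, zero_mul])
    rw [map_one, map_one, one_mul, map_zero, map_zero, zero_mul] at h1
    exact (hirr i).ne_zero h1

end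

end Pool.Agent.AbsIrr
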