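import Mathlib
import Pool.Agent.Lib.MP_2adc98_lc.XIt
import Pool.Agent.Lib.MP_2adc98_lc.FAsm

/-!
# MP_2adc98_lc, stage 3: the parts of the program
-/

set_option autoImplicit false

namespace Pool.Agent.AbsIrr

open Finset Polynomial

/-- `(q, (M, (l, (E, R))))` -/
abbrev Pq : Ty := .prod .nat (.prod .nat (.prod .nat (.prod .nat .nat)))
/-- the input of the computation for an item: `(pq, (p, (d, (δ, (N, (Q, (F, ω)))))))` -/
abbrev ItIn : Ty := .prod Pq (.prod .nat (.prod .nat (.prod .nat (.prod .nat (.prod .arr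
  (.prod .arr .arr))))))
/-- the result of the computation for an item: `(G, (W, A))` -/
abbrev ItOt : Ty := .prod .arr (.prod .arr .arr)
/-- the input of the computation for an orbit:
`(m, (d, (δ, (N, (R, (G, (A, (s, g))))))))` -/
abbrev LfIn : Ty := .prod .nat (.prod .nat (.prod .nat (.prod .nat (.prod .nat (.prod .arr
  (.prod .arr (.prod .nat .arr)))))))

/-- input and output types of the routines -/
abbrev TVt : Ty := .prod .nat (.prod .nat (.prod .nat (.prod .nat (.prod .nat (.prod .arr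
  (.prod .arr (.prod .arr .arr)))))))
abbrev TKh : Ty := .prod .nat (.prod .nat (.prod .nat (.prod .arr (.prod .arr (.prod .arr .arr)))))
abbrev TBt : Ty := .prod .nat (.prod .nat (.prod .nat (.prod .nat (.prod .arr (.prod .arr .fld)))))
abbrev TRa : Ty := .prod .nat (.prod .nat (.prod .nat (.prod .nat (.prod .arr (.prod .arr .arr)))))
abbrev TLA : Ty := .prod .nat (.prod .nat (.prod .nat (.prod .arr .arr)))
abbrev TLC : Ty := .prod .nat (.prod .nat (.prod .arr (.prod .arr .arr)))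

section fams

variable (Fvt : Fam TVt .arr) (Fkh : Fam TKh .arr) (Fbt : Fam TBt .arr) (Fra : Fam TRa .arr)
  (FA : Fam TLA .arr) (FB : Fam TLA (.prod .arr .arr)) (FC : Fam TLC .arr)

section
variable {L : Type} [Field L]

/-- the random elements `ρ` -/
def iR (δ : ℕ) (ω : ℕ → L) : ℕ → L := tabF ((δ + 1) ^ 2) ω
/-- the random elements `ρ'` -/
def iR' (d δ : ℕ) (ω : ℕ → L) : ℕ → L := tabF ((δ + 1) ^ 2) (fun e => ω ((d + 1) ^ 2 + e))
/-- the random elements for the kernel -/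
def iS (d N : ℕ) (ω : ℕ → L) : ℕ → L := tabF N (fun i => ω (2 * (d + 1) ^ 2 + i))
/-- the random elements for the bits -/
def iC (d : ℕ) (ω : ℕ → L) (r : ℕ) : L := ω (2 * (d + 1) ^ 2 + d + r)
/-- the random elements for the rational functions -/
def iG (d R N : ℕ) (ω : ℕ → L) (r : ℕ) : ℕ → L :=
  tabF N (fun j => ω (2 * (d + 1) ^ 2 + d + R + r * d + j))

/-- the table of the `v_i` -/
def iV (q l E d δ N : ℕ) (Q F ω : ℕ → L) : ℕ → L :=
  Fvt L (N, ((δ + 1) ^ 2, (E + 1, (q, (l, (Q, (toE d δ N F, (iR δ ω, iR' d δ ω))))))))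

/-- the random function constant on the orbits -/
def iH (q l E d δ N : ℕ) (Q F ω : ℕ → L) : ℕ → L :=
  Fkh L (N, (q, (l, (Q, (tabF N (rowA N 0 (iV Fvt q l E d δ N Q F ω)),
    (tabF N (rowA N 1 (iV Fvt q l E d δ N Q F ω)), iS d N ω))))))

/-- the table of the bits -/
def iW (p q M l E R d δ N : ℕ) (Q F ω : ℕ → L) : ℕ → L :=
  tabF (R * N) (fun j => Fbt L (N, (p, (M, (l, (Q, (iH Fvt Fkh q l E d δ N Q F ω,
    iC d ω (j / N))))))) (j % N))

/-- the table of the rational functions -/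
def iA (q l E R d δ N : ℕ) (Q F ω : ℕ → L) : ℕ → L :=
  tabF (R * N) (fun j => Fra L (N, (E, (q, (l, (Q, (iV Fvt q l E d δ N Q F ω,
    iG d R N ω (j / N))))))) (j % N))

end

/-- the computation for an item -/
def fIt : Fam ItIn ItOt := fun L _ x =>
  (toE x.2.2.1 x.2.2.2.1 x.2.2.2.2.1 x.2.2.2.2.2.2.1,
    (iW Fvt Fkh Fbt x.2.1 x.1.1 x.1.2.1 x.1.2.2.1 x.1.2.2.2.1 x.1.2.2.2.2 x.2.2.1 x.2.2.2.1
      x.2.2.2.2.1 x.2.2.2.2.2.1 x.2.2.2.2.2.2.1 x.2.2.2.2.2.2.2,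
    iA Fvt Fra x.1.1 x.1.2.2.1 x.1.2.2.2.1 x.1.2.2.2.2 x.2.2.1 x.2.2.2.1
      x.2.2.2.2.1 x.2.2.2.2.2.1 x.2.2.2.2.2.2.1 x.2.2.2.2.2.2.2))

/-- the printed polynomial `q` -/
def prQ {L : Type} [Field L] (d s : ℕ) (Q : ℕ → L) : ℕ → L :=
  tabF (d + 1) (fun l => if l < s then Q l else if l = s then 1 else 0)

/-- the printed polynomial `f` -/
def prF {L : Type} [Field L] (d δ s : ℕ) (G : ℕ → L) : ℕ → L :=
  tabF (s * (d + 1) ^ 2) (fun j =>
    if j % (d + 1) < δ + 1 then (if j / (d + 1) % (d + 1) < δ + 1 then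
      G ((j / (d + 1) % (d + 1) * (δ + 1) + j % (d + 1)) * s + j / (d + 1) / (d + 1)) else 0)
    else 0)

/-- the printed value for an orbit -/
def fLf : Fam LfIn Prt := fun L _ x =>
  (x.1, (prQ x.2.1 x.2.2.2.2.2.2.2.1
      (FB L (x.2.2.2.1, (x.2.2.2.2.1, (x.2.2.2.2.2.2.2.1, (x.2.2.2.2.2.2.2.2,
        x.2.2.2.2.2.2.1))))).1,
    prF x.2.1 x.2.2.1 x.2.2.2.2.2.2.2.1
      (FC L ((x.2.2.1 + 1) ^ 2, (x.2.2.2.2.2.2.2.1, (x.2.2.2.2.2.2.2.2,
        ((FB L (x.2.2.2.1, (x.2.2.2.2.1, (x.2.2.2.2.2.2.2.1, (x.2.2.2.2.2.2.2.2,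
          x.2.2.2.2.2.2.1))))).2,
        FA L (x.2.2.2.1, ((x.2.2.1 + 1) ^ 2, (x.2.2.2.2.2.2.2.1, (x.2.2.2.2.2.2.2.2,
          x.2.2.2.2.2.1)))))))))))

end fams

end Pool.Agent.AbsIrr
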