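import Mathlib
import Pool.Agent.Lib.MP_2adc98_lc.XProg

/-!
# MP_2adc98_lc, stage 3: specifications of the routines
-/

set_option autoImplicit false

namespace Pool.Agent.AbsIrr

open Finset Polynomial

def SpecVt (F : Fam TVt .arr) : Prop :=
    ∀ (L : Type) [Field L] (k : Type) [Field k] [Algebra L k] (N B E q l : ℕ)
      (Q G ρ ρ' : ℕ → L) (Z : Finset k), q < 2 ^ l → IsMod N Q Z → ∀ i < E,
      (∀ v ∈ Z, ∑ e ∈ range B, algebraMap L k (ρ e) ^ q ^ i * dv N v G e ≠ 0) →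
      ∀ v ∈ Z, evz N v (rowA N i (F L (N, (B, (E, (q, (l, (Q, (G, (ρ, ρ')))))))))) =
        (∑ e ∈ range B, algebraMap L k (ρ' e) ^ q ^ i * dv N v G e) /
          ∑ e ∈ range B, algebraMap L k (ρ e) ^ q ^ i * dv N v G e

def SpecKh (F : Fam TKh .arr) : Prop :=
    ∀ (L : Type) [Field L] (k : Type) [Field k] [Algebra L k] (N q l : ℕ) (Q V₀ V₁ : ℕ → L)
      (Z : Finset k), q < 2 ^ l → IsMod N Q Z →
      ∃ θ : ℕ → ℕ → L,
        (∀ i, ∀ v ∈ Z, ∑ j ∈ range N, algebraMap L k (θ i j) * evz N v V₀ ^ (q * j) =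
          ∑ j ∈ range N, algebraMap L k (θ i j) * evz N v V₁ ^ j) ∧
        (∀ β : ℕ → L, (∀ v ∈ Z, ∑ j ∈ range N, algebraMap L k (β j) * evz N v V₀ ^ (q * j) =
          ∑ j ∈ range N, algebraMap L k (β j) * evz N v V₁ ^ j) →
          ∃ s : ℕ → L, ∀ j < N, β j = ∑ i ∈ range N, s i * θ i j) ∧
        ∀ s : ℕ → L, ∀ v ∈ Z, evz N v (F L (N, (q, (l, (Q, (V₀, (V₁, s))))))) =
          ∑ i ∈ range N, ∑ j ∈ range N, algebraMap L k (s i * θ i j) * evz N v V₁ ^ j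

def SpecBt (F : Fam TBt .arr) : Prop :=
    ∀ (L : Type) [Field L] (k : Type) [Field k] [Algebra L k] (N p M l : ℕ) (Q H : ℕ → L) (c : L)
      (Z : Finset k), M < 2 ^ l → IsMod N Q Z → ∀ v ∈ Z,
      evz N v (F L (N, (p, (M, (l, (Q, (H, c))))))) =
        bitv p M (evz N v H) (algebraMap L k c) - 1

def SpecRa (F : Fam TRa .arr) : Prop :=
    ∀ (L : Type) [Field L] (k : Type) [Field k] [Algebra L k] (N E q l : ℕ) (Q V γ : ℕ → L)
      (Z : Finset k), q < 2 ^ l → IsMod N Q Z → ∀ v ∈ Z,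
      evz N v (F L (N, (E, (q, (l, (Q, (V, γ))))))) =
        ∑ i ∈ range E, ∑ j ∈ range N, algebraMap L k (γ j) ^ q ^ i *
          evz N v (rowA N i V) ^ j

def SpecLA (F : Fam TLA .arr) : Prop :=
    ∀ (L : Type) [Field L] (k : Type) [Field k] [Algebra L k] (N B s : ℕ) (g G : ℕ → L)
      (Z : Finset k), IsMod s g Z → Z.Nonempty →
      (∀ e < B, (∀ v ∈ Z, dv N v G e = 0) ∨ ∀ v ∈ Z, dv N v G e ≠ 0) →
      (∃ e < B, ∀ v ∈ Z, dv N v G e ≠ 0) →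
      ∃ ν < B, (∀ v ∈ Z, dv N v G ν ≠ 0) ∧ ∀ e < B, ∀ v ∈ Z,
        dv s v (F L (N, (B, (s, (g, G))))) e = dv N v G e / dv N v G ν

def SpecLB (F : Fam TLA (.prod .arr .arr)) : Prop :=
    ∀ (L : Type) [Field L] (k : Type) [Field k] [Algebra L k] (N R s : ℕ) (g A : ℕ → L)
      (Z : Finset k), IsMod s g Z →
      (∃ r < R, Set.InjOn (fun v : k => evz N v (rowA N r A)) Z) →
      ∃ r < R, Set.InjOn (fun v : k => evz N v (rowA N r A)) Z ∧
        (gmon s (F L (N, (R, (s, (g, A))))).1).map (algebraMap L k) =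
          ∏ v ∈ Z, (X - C (evz N v (rowA N r A))) ∧
        ∀ v ∈ Z, evz s v (F L (N, (R, (s, (g, A))))).2 = evz N v (rowA N r A)

def SpecLC (F : Fam TLC .arr) : Prop :=
    ∀ (L : Type) [Field L] (k : Type) [Field k] [Algebra L k] (B s : ℕ) (g a G : ℕ → L)
      (Z : Finset k), IsMod s g Z → Set.InjOn (fun v : k => evz s v a) Z →
      ∀ e < B, ∀ v ∈ Z, dv s (evz s v a) (F L (B, (s, (g, (a, G))))) e = dv s v G e

/-- input and output of the descent -/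
abbrev TDe : Ty := .prod .nat (.prod .nat (.prod .arr (.prod .arr .nat)))
abbrev TDo : Ty := .prod .nat (.prod .nat .arr)

def SpecDe (F : Fam TDe TDo) : Prop :=
    ∀ (L : Type) [Field L] (k : Type) [Field k] [Algebra L k] (N R : ℕ) (Q W : ℕ → L)
      (Z : Finset k), IsMod N Q Z →
      (∀ t < N, ∃ z ∈ Z, IsMod (F L (N, (R, (Q, (W, t))))).2.1 (F L (N, (R, (Q, (W, t))))).2.2
        (bcls N R W Z z)) ∧
      (∀ z ∈ Z, ∃ t < N, (F L (N, (R, (Q, (W, t))))).1 = 0 ∧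
        IsMod (F L (N, (R, (Q, (W, t))))).2.1 (F L (N, (R, (Q, (W, t))))).2.2
          (bcls N R W Z z)) ∧
      ∀ t₁ < N, ∀ t₂ < N, ∀ z ∈ Z, (F L (N, (R, (Q, (W, t₁))))).1 = 0 →
        (F L (N, (R, (Q, (W, t₂))))).1 = 0 →
        IsMod (F L (N, (R, (Q, (W, t₁))))).2.1 (F L (N, (R, (Q, (W, t₁))))).2.2
          (bcls N R W Z z) →
        IsMod (F L (N, (R, (Q, (W, t₂))))).2.1 (F L (N, (R, (Q, (W, t₂))))).2.2
          (bcls N R W Z z) → t₁ = t₂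

end Pool.Agent.AbsIrr
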