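import Mathlib
import Pool.Agent.Lib.MP_2adc98_lc.XSpec
import Pool.Agent.Lib.MP_2adc98_lc.XModel
import Pool.Agent.Lib.MP_2adc98_lc.FCost

/-!
# MP_2adc98_lc, stage 3: the factorization program with output over a small finite field
-/

set_option autoImplicit false

namespace Pool.Agent.AbsIrr

open Finset Polynomial

/-- bound for the binary length of `|L|` -/
def lF (d : ℕ) : ℕ := 4 * Nat.log 2 d + 18
/-- number of repetitions -/
def RF (d : ℕ) : ℕ := 4 * Nat.log 2 d + 12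
/-- the length of the part of the tape used in stage 3 -/
def len3 (d R : ℕ) : ℕ := 2 * (d + 1) ^ 2 + d + R + R * d
/-- the length of the part of the tape used in stage 2 -/
def len2 (κ : ℕ → ℕ → ℕ) (d p : ℕ) : ℕ := 2 + d + d * 2 ^ κ d p

/-- `(pq, (st, ω₃))` -/
abbrev T0 : Ty := .prod Pq (.prod St0 .arr)
abbrev T1 : Ty := .prod (.prod Pq .arr) St1
abbrev T2 : Ty := .prod T1 .nat
/-- `(m, (d, (δ, (N, (R, (Q, (G, (W, A))))))))` -/
abbrev T3 : Ty := .prod .nat (.prod .nat (.prod .nat (.prod .nat (.prod .nat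
  (.prod .arr ItOt)))))
abbrev T4 : Ty := .prod T3 TDo

section fams

variable (κ q b : ℕ → ℕ → ℕ)
  (Fsh : Fam (.prod .nat (.prod .fld (.prod .fld .arr))) .arr)
  (Fmd : Fam (.prod .nat (.prod .nat .arr)) .arr)
  (F1 : Fam In1 Ot1) (F3 : Fam In3 (.prod .arr .arr))
  (Fvt : Fam TVt .arr) (Fkh : Fam TKh .arr) (Fbt : Fam TBt .arr) (Fra : Fam TRa .arr)
  (FA : Fam TLA .arr) (FB : Fam TLA (.prod .arr .arr)) (FC : Fam TLC .arr) (Fde : Fam TDe TDo)

/-- the parameters `(q, (M, (l, (E, R))))` -/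
def xbPq : Fam InpK Pq := fun _ _ x => (x.2.2.1, (x.2.2.2.1, (lF x.1,
  (min (Nat.log x.2.2.1 x.2.2.2.1) (lF x.1), RF x.1))))
/-- the preparation of stage 2 -/
def xbSt : Fam InpK St0 := fun K _ x => a0 κ q b Fsh Fmd K (x.1, (x.2.1, x.2.2.2.2))
/-- the random elements of stage 3 -/
def xbOm : Fam InpK .arr := fun _ _ x =>
  tabF (len3 x.1 (RF x.1)) (fun i => x.2.2.2.2.2 (len2 κ x.1 x.2.1 + i))
/-- the preparation -/
def xb0 : Fam InpK T0 := fun K _ x => (xbPq K x, (xbSt κ q b Fsh Fmd K x, xbOm κ K x))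
/-- the number of multiplicities -/
noncomputable def xbN0 : Fam T0 .nat := fun K _ x => aN0 K x.2.1
/-- the computation for one multiplicity -/
noncomputable def xb1 : Fam (.prod T0 .nat) T1 := fun K _ x =>
  ((x.1.1, x.1.2.2), a1 F1 K (x.1.2.1, x.2))
/-- the number of rounds of the loop over the sizes -/
def xbN1 : Fam T1 .nat := fun K _ x => aN1 K x.2
/-- is there a class of size `δ`? -/
noncomputable def xbN2 : Fam T2 .nat := fun K _ x => aN2 K (x.1.2, x.2)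
/-- the item of stage 2 -/
noncomputable def xb3a : Fam (.prod T2 .nat) Prt := fun K _ x => a3 F3 K ((x.1.1.2, x.1.2), x.2)
/-- the number of factors of the item -/
noncomputable def xb3n : Fam (.prod T2 .nat) .nat := fun _ _ x =>
  numc x.1.1.2.2.1 x.1.2 x.1.1.2.2.2.2.2.2
/-- the input of the computation for the item -/
noncomputable def xb3i : Fam (.prod T2 .nat) ItIn := fun K _ x =>
  (x.1.1.1.1, (x.1.1.2.1.1.1.2.1, (x.1.1.2.1.1.1.1, (x.1.2, (xb3n K x,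
    ((xb3a F3 K x).2.1, ((xb3a F3 K x).2.2, x.1.1.1.2)))))))
/-- the computation for one item -/
noncomputable def xb3 : Fam (.prod T2 .nat) T3 := fun K _ x =>
  ((xb3a F3 K x).1, (x.1.1.2.1.1.1.1, (x.1.2, (xb3n K x, (x.1.1.1.1.2.2.2.2, ((xb3a F3 K x).2.1,
    fIt Fvt Fkh Fbt Fra K (xb3i F3 K x)))))))
/-- the number of rounds for one item -/
def xbN3 : Fam T3 .nat := fun _ _ x => x.2.2.2.1
/-- one descent -/
def xb4 : Fam (.prod T3 .nat) T4 := fun K _ x =>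
  (x.1, Fde K (x.1.2.2.2.1, (x.1.2.2.2.2.1, (x.1.2.2.2.2.2.1, (x.1.2.2.2.2.2.2.2.1, x.2)))))
/-- is this the first root of an orbit? -/
def xbN4 : Fam T4 .nat := fun _ _ x => if x.2.1 = 0 then 1 else 0
/-- the printed value -/
def xb5 : Fam (.prod T4 .nat) Prt := fun K _ x =>
  fLf FA FB FC K (x.1.1.1, (x.1.1.2.1, (x.1.1.2.2.1, (x.1.1.2.2.2.1, (x.1.1.2.2.2.2.1,
    (x.1.1.2.2.2.2.2.2.1, (x.1.1.2.2.2.2.2.2.2.2, (x.1.2.2.1, x.1.2.2.2))))))))

/-! ### the bounds for the costs -/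

/-- cost of the preparation -/
def kx0 : CFam InpK := fun _ _ x => (x.1 + 1) ^ 3 + x.2.1 * (x.1 + 1)
/-- cost for one multiplicity -/
noncomputable def kx1 : CFam (.prod T0 .nat) := fun K _ x => k1 K (x.1.2.1, x.2)
/-- cost for one item -/
noncomputable def kx3 : CFam (.prod T2 .nat) := fun K _ x =>
  kk3 K ((x.1.1.2, x.1.2), x.2) + x.1.1.2.2.1 +
  (x.1.1.1.1.2.2.2.1 + x.1.1.1.1.2.2.2.2 + x.1.1.1.1.2.2.1 + 2) ^ 4 *
        ((xb3n K x + 1) * ((xb3n K x + 1) ^ 2 + (x.1.2 + 1) ^ 2))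
/-- cost of one descent -/
def kx4 : CFam (.prod T3 .nat) := fun _ _ x => (x.1.2.2.2.2.1 + 1) * (x.1.2.2.2.1 + 1) ^ 2
/-- cost of one printed value -/
def kx5 : CFam (.prod T4 .nat) := fun _ _ x => (x.1.1.2.2.2.2.1 + 2) * ((x.1.2.2.1 + 1) *
      ((x.1.1.2.2.1 + 1) ^ 2 * (x.1.1.2.2.2.1 + x.1.2.2.1 + 1) + (x.1.1.2.2.2.1 + 1) ^ 2 +
        (x.1.2.2.1 + 1) ^ 2 + (x.1.1.2.1 + 1) ^ 2))

end fams

/-- the program, for small finite fields -/
def theOutK (s0 : PProg InpK T0) (sN0 : PProg T0 .nat) (s1 : PProg (.prod T0 .nat) T1)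
    (sN1 : PProg T1 .nat) (sN2 : PProg T2 .nat) (s3 : PProg (.prod T2 .nat) T3)
    (sN3 : PProg T3 .nat) (s4 : PProg (.prod T3 .nat) T4) (sN4 : PProg T4 .nat)
    (s5 : PProg (.prod T4 .nat) Prt) : POut Prt InpK :=
  .after s0 (.loop sN0 (.after s1 (.loop sN1 (.loop sN2 (.after s3 (.loop sN3 (.after s4
    (.loop sN4 (.print s5)))))))))

/-- the keys: multiplicity, size, number of the root -/
def keyK (N0 : ℕ) (n : ℕ → ℕ) (N2 N3 : ℕ → ℕ → ℕ) (N4 : ℕ → ℕ → ℕ → ℕ) : List ((ℕ × ℕ) × ℕ) :=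
  (List.range N0).flatMap fun m => (List.range (n m + 1)).flatMap fun δ =>
    (List.range (N2 m δ)).flatMap fun _ => (List.range (N3 m δ)).flatMap fun t =>
      (List.range (N4 m δ t)).map fun _ => ((m, δ), t)

end Pool.Agent.AbsIrr
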