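import Mathlib
import Pool.Agent.Lib.MP_2adc98_lc.XDefs
import Pool.Agent.Lib.MP_2adc98_lc.FA
import Pool.Agent.Lib.MP_2adc98_lc.FN
import Pool.Agent.Lib.MP_2adc98_lc.XA1
import Pool.Agent.Lib.MP_2adc98_lc.XA2

/-!
# MP_2adc98_lc, piece XB: the functions `v_i`
-/

set_option autoImplicit false
set_option linter.unusedVariables false

namespace Pool.Agent.AbsIrr

open Finset Polynomial

/-! ## values at the roots -/

section
variable {L : Type} [Field L] {k : Type} [Field k] [Algebra L k]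

private theorem xb_evz (n : ℕ) (v : k) (a : ℕ → L) : evz n v a = aeval v (apol n a) := by
  unfold evz apol
  rw [map_sum]
  refine sum_congr rfl fun i _ => ?_
  rw [aeval_monomial]

private theorem xb_root {n : ℕ} {g : ℕ → L} {Z : Finset k} (h : IsMod n g Z) {v : k}
    (hv : v ∈ Z) : aeval v (gmon n g) = 0 := by
  unfold IsMod at h
  rw [← eval_map_algebraMap, h, eval_prod]
  exact prod_eq_zero hv (by simp)

private theorem xb_apol_coeff (n : ℕ) (A : ℕ → L) (i : ℕ) :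
    (apol n A).coeff i = if i < n then A i else 0 := by
  unfold apol
  rw [finsetSum_coeff]
  simp only [coeff_monomial]
  rw [sum_ite_eq' (range n) i]
  simp

private theorem xb_apol_degree (n : ℕ) (A : ℕ → L) : (apol n A).degree < (n : WithBot ℕ) := by
  rw [degree_lt_iff_coeff_zero]
  intro m hm
  rw [xb_apol_coeff, if_neg (by omega)]

private theorem xb_gmon_monic (n : ℕ) (g : ℕ → L) : (gmon n g).Monic := by
  unfold gmon
  exact monic_X_pow_add (xb_apol_degree n g)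

private theorem xb_gmon_degree (n : ℕ) (g : ℕ → L) : (gmon n g).degree = (n : WithBot ℕ) := by
  unfold gmon
  rw [degree_add_eq_left_of_degree_lt]
  · exact degree_X_pow n
  · rw [degree_X_pow]
    exact xb_apol_degree n g

private theorem xb_apol_mulmod (n : ℕ) (g a b : ℕ → L) :
    apol n (mulmod n g a b) = (apol n a * apol n b) %ₘ gmon n g := by
  ext i
  rw [xb_apol_coeff]
  by_cases hi : i < n
  · rw [if_pos hi]
    unfold mulmod tabF
    rw [if_pos hi]
  · rw [if_neg hi]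
    have h1 := degree_modByMonic_lt (apol n a * apol n b) (xb_gmon_monic n g)
    rw [xb_gmon_degree] at h1
    exact (coeff_eq_zero_of_degree_lt (h1.trans_le (by exact_mod_cast not_lt.1 hi))).symm

private theorem xb_evz_mulmod {n : ℕ} {g : ℕ → L} {Z : Finset k} (h : IsMod n g Z) {v : k}
    (hv : v ∈ Z) (a b : ℕ → L) : evz n v (mulmod n g a b) = evz n v a * evz n v b := by
  rw [xb_evz, xb_evz, xb_evz, xb_apol_mulmod, ← map_mul]
  have h1 := congrArg (aeval v) (modByMonic_add_div (apol n a * apol n b) (gmon n g))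
  rw [map_add, map_mul, xb_root h hv, zero_mul, add_zero] at h1
  exact h1

private theorem xb_coprime {n : ℕ} {g : ℕ → L} {Z : Finset k} (h : IsMod n g Z) (A : ℕ → L)
    (hA : ∀ v ∈ Z, evz n v A ≠ 0) : IsCoprime (apol n A) (gmon n g) := by
  rw [← isCoprime_map (algebraMap L k)]
  unfold IsMod at h
  rw [h]
  apply IsCoprime.prod_right
  intro v hv
  apply IsCoprime.symm
  rw [(irreducible_X_sub_C v).coprime_iff_not_dvd, dvd_iff_isRoot, IsRoot.def,
    eval_map_algebraMap, ← xb_evz]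
  exact hA v hv

private theorem xb_inv {n : ℕ} {g : ℕ → L} {Z : Finset k} (h : IsMod n g Z) {v : k}
    (hv : v ∈ Z) (P A : ℕ → L) (hP : gmon n g ∣ apol n P * apol n A - 1) :
    evz n v P * evz n v A = 1 := by
  obtain ⟨c, hc⟩ := hP
  have h1 := congrArg (aeval v) hc
  rw [map_mul, xb_root h hv, zero_mul, map_sub, map_mul, map_one, ← xb_evz, ← xb_evz,
    sub_eq_zero] at h1
  exact h1

/-- the combination of the blocks with the coefficients `r` -/
private def xbCmb (N B : ℕ) (r G : ℕ → L) : ℕ → L :=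
  tabF N (fun j => ∑ e ∈ range B, r e * G (e * N + j))

private theorem xb_evz_cmb (N B : ℕ) (r G : ℕ → L) (v : k) :
    evz N v (xbCmb N B r G) = ∑ e ∈ range B, algebraMap L k (r e) * dv N v G e := by
  unfold evz xbCmb dv
  have h1 : ∀ l ∈ range N, algebraMap L k (tabF N (fun j => ∑ e ∈ range B,
      r e * G (e * N + j)) l) * v ^ l =
      ∑ e ∈ range B, algebraMap L k (r e) * (algebraMap L k (G (e * N + l)) * v ^ l) := by
    intro l hl
    unfold tabF
    rw [if_pos (mem_range.1 hl), map_sum, sum_mul]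
    refine sum_congr rfl fun e _ => ?_
    rw [map_mul]
    ring
  rw [sum_congr rfl h1, sum_comm]
  refine sum_congr rfl fun e _ => ?_
  rw [mul_sum]

/-- the Frobenius conjugates of the coefficients -/
private def xbPow (B q l i : ℕ) (r : ℕ → L) : ℕ → L :=
  iterF i r (fun s _ => powT B (q % 2 ^ l) s)

private theorem xb_powT {B : ℕ} (m : ℕ) (s : ℕ → L) {e : ℕ} (he : e < B) :
    powT B m s e = s e ^ m := by
  unfold powT tabF
  rw [if_pos he]

private theorem xb_pow (B q l i : ℕ) (hq : q < 2 ^ l) (r : ℕ → L) {e : ℕ} (he : e < B) :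
    xbPow B q l i r e = r e ^ q ^ i := by
  unfold xbPow
  induction i with
  | zero => simp
  | succ i ih =>
    rw [iterF_succ, xb_powT _ _ he, ih, Nat.mod_eq_of_lt hq, ← pow_mul, ← pow_succ]

end

/-! ## the programs -/

/-- input `(B, (q, (l, (i, r))))` -/
private theorem xbPow_rlz :
    RlzQ (a := .prod .nat (.prod .nat (.prod .nat (.prod .nat .arr)))) (b := .arr)
      (fun K _ x => xbPow (L := K) x.1 x.2.1 x.2.2.1 x.2.2.2.1 x.2.2.2.2)
      (fun _ _ x => x.2.2.2.1 * ((x.1 + 1) * (x.2.2.1 + 1) + 1)) := by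
  have e0 : RlzQ (a := .prod .nat (.prod .nat (.prod .nat (.prod .nat .arr))))
      (fun _ _ x => x) (fun _ _ _ => 0) := RlzQ.input
  have f0 : RlzQ (a := .prod (.prod (.prod .nat (.prod .nat (.prod .nat (.prod .nat .arr)))) .arr)
      .nat) (fun _ _ x => x.1) (fun _ _ _ => 0) := RlzQ.fst RlzQ.input
  have fx := RlzQ.fst f0
  have hbody := RlzQ.powTL (RlzQ.fst fx) (RlzQ.fst (RlzQ.snd (RlzQ.snd fx)))
    (RlzQ.fst (RlzQ.snd fx)) (RlzQ.snd f0)
  have hloop := RlzQ.iter (a := .prod .nat (.prod .nat (.prod .nat (.prod .nat .arr))))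
    (b := .arr)
    (f := fun K _ x s _ => powT (x.1 : ℕ) ((x.2.1 : ℕ) % 2 ^ (x.2.2.1 : ℕ)) s)
    (RlzQ.fst (RlzQ.snd (RlzQ.snd (RlzQ.snd e0)))) (RlzQ.snd (RlzQ.snd (RlzQ.snd (RlzQ.snd e0))))
    hbody
  refine (hloop.congr (fun K _ x => rfl)).mono 1 (fun K _ x => ?_)
  simp only [Finset.sum_const, Finset.card_range, smul_eq_mul]
  have key : ∀ i c : ℕ, 0 + 0 + i + i * (0 + 0 + 0 + 0 + c) ≤ 1 * (i * (c + 1) + 1) := by
    intro i c
    nlinarith
  exact key _ _

/-- input `(N, (B, (r, G)))` -/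
private theorem xbCmb_rlz :
    RlzQ (a := .prod .nat (.prod .nat (.prod .arr .arr))) (b := .arr)
      (fun K _ x => xbCmb (L := K) x.1 x.2.1 x.2.2.1 x.2.2.2)
      (fun _ _ x => (x.1 + 1) * (x.2.1 + 1)) := by
  have h0 : RlzQ (a := .prod (.prod (.prod .nat (.prod .nat (.prod .arr .arr))) .nat) .nat)
      (fun _ _ x => x.1) (fun _ _ _ => 0) := RlzQ.fst RlzQ.input
  have he : RlzQ (a := .prod (.prod (.prod .nat (.prod .nat (.prod .arr .arr))) .nat) .nat)
      (b := .nat) (fun _ _ x => x.2) (fun _ _ _ => 0) := RlzQ.snd RlzQ.input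
  have hx := RlzQ.fst h0
  have hentry := RlzQ.fmul (RlzQ.get (RlzQ.fst (RlzQ.snd (RlzQ.snd hx))) he)
    (RlzQ.get (RlzQ.snd (RlzQ.snd (RlzQ.snd hx)))
      (RlzQ.add (RlzQ.mul he (RlzQ.fst hx)) (RlzQ.snd h0)))
  have g0 : RlzQ (a := .prod (.prod .nat (.prod .nat (.prod .arr .arr))) .nat)
      (fun _ _ x => x.1) (fun _ _ _ => 0) := RlzQ.fst RlzQ.input
  have hsum := RlzQ.sum (a := .prod (.prod .nat (.prod .nat (.prod .arr .arr))) .nat)
    (f := fun K _ x e => ((x.1.2.2.1 : ℕ → K) e *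
      (x.1.2.2.2 : ℕ → K) (e * (x.1.1 : ℕ) + (x.2 : ℕ)) : K))
    (RlzQ.fst (RlzQ.snd g0)) hentry
  have htab := RlzQ.tab (a := .prod .nat (.prod .nat (.prod .arr .arr)))
    (f := fun K _ x j => ∑ e ∈ range (x.2.1 : ℕ), ((x.2.2.1 : ℕ → K) e *
      (x.2.2.2 : ℕ → K) (e * (x.1 : ℕ) + j) : K))
    (RlzQ.fst RlzQ.input) hsum
  refine (htab.congr (fun K _ x => rfl)).mono 1 (fun K _ x => ?_)
  simp only [Finset.sum_const, Finset.card_range, smul_eq_mul, add_zero, mul_zero, zero_add]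
  have key : ∀ n b : ℕ, n + n * b ≤ 1 * ((n + 1) * (b + 1) + 1) := by
    intro n b
    nlinarith
  exact key _ _

private def xbCost : CFam (.prod (.prod .nat (.prod .nat (.prod .nat (.prod .nat (.prod .nat
    (.prod .arr (.prod .arr (.prod .arr .arr)))))))) .nat) :=
  fun _ _ x => (x.2 : ℕ) * (((x.1.2.1 : ℕ) + 1) * ((x.1.2.2.2.2.1 : ℕ) + 1) + 1) +
    ((x.1.1 : ℕ) + 1) * ((x.1.2.1 : ℕ) + 1) + ((x.1.1 : ℕ) + 1) ^ 3

theorem vtab_rlz :
    ∃ F : Fam (.prod .nat (.prod .nat (.prod .nat (.prod .nat (.prod .nat (.prod .arr (.prod .arr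
      (.prod .arr .arr)))))))) .arr,
    RlzQ F (fun _ _ x => (x.2.2.1 + 1) ^ 2 * ((x.1 + 1) * ((x.1 + 1) ^ 2 + x.2.1 + 1)) *
      (x.2.2.2.2.1 + 1)) ∧
    ∀ (L : Type) [Field L] (k : Type) [Field k] [Algebra L k] (N B E q l : ℕ)
      (Q G ρ ρ' : ℕ → L) (Z : Finset k), q < 2 ^ l → IsMod N Q Z → ∀ i < E,
      (∀ v ∈ Z, ∑ e ∈ range B, algebraMap L k (ρ e) ^ q ^ i * dv N v G e ≠ 0) →
      ∀ v ∈ Z, evz N v (rowA N i (F L (N, (B, (E, (q, (l, (Q, (G, (ρ, ρ')))))))))) =
        (∑ e ∈ range B, algebraMap L k (ρ' e) ^ q ^ i * dv N v G e) /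
          ∑ e ∈ range B, algebraMap L k (ρ e) ^ q ^ i * dv N v G e := by
  obtain ⟨Fi, hFi, hFis⟩ := modinv
  have f0 : RlzQ (a := .prod (.prod .nat (.prod .nat (.prod .nat (.prod .nat (.prod .nat
      (.prod .arr (.prod .arr (.prod .arr .arr)))))))) .nat)
      (fun _ _ x => x.1) (fun _ _ _ => 0) := RlzQ.fst RlzQ.input
  have fi : RlzQ (a := .prod (.prod .nat (.prod .nat (.prod .nat (.prod .nat (.prod .nat
      (.prod .arr (.prod .arr (.prod .arr .arr)))))))) .nat) (b := .nat)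
      (fun _ _ x => x.2) (fun _ _ _ => 0) := RlzQ.snd RlzQ.input
  have fN := RlzQ.fst f0
  have f1 := RlzQ.snd f0
  have fB := RlzQ.fst f1
  have f3 := RlzQ.snd (RlzQ.snd f1)
  have fq := RlzQ.fst f3
  have f4 := RlzQ.snd f3
  have fl := RlzQ.fst f4
  have f5 := RlzQ.snd f4
  have fQ := RlzQ.fst f5
  have f6 := RlzQ.snd f5
  have fG := RlzQ.fst f6
  have fr := RlzQ.fst (RlzQ.snd f6)
  have fr' := RlzQ.snd (RlzQ.snd f6)
  have hden := RlzQ.comp xbCmb_rlz (RlzQ.pair fN (RlzQ.pair fB (RlzQ.pair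
    (RlzQ.comp xbPow_rlz (RlzQ.pair fB (RlzQ.pair fq (RlzQ.pair fl (RlzQ.pair fi fr))))) fG)))
  have hnum := RlzQ.comp xbCmb_rlz (RlzQ.pair fN (RlzQ.pair fB (RlzQ.pair
    (RlzQ.comp xbPow_rlz (RlzQ.pair fB (RlzQ.pair fq (RlzQ.pair fl (RlzQ.pair fi fr'))))) fG)))
  have hrow0 := RlzQ.mulmod fN fQ hnum (RlzQ.comp hFi (RlzQ.pair fN (RlzQ.pair fQ hden)))
  have hrow := hrow0.mono
    (g' := xbCost) 2 (fun K _ x => by
      obtain ⟨⟨N, B, E, q, l, Q, G, ρ, ρ'⟩, i⟩ := x
      dsimp only [xbCost]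
      have key : ∀ a b c n : ℕ, n ≤ c → 0 + 0 + (0 + (0 + (0 + (0 + (0 + (0 + 0))) + a + 0)) + b) +
          (0 + (0 + (0 + (0 + (0 + (0 + (0 + (0 + 0))) + a + 0)) + b)) + c) + n ≤
          2 * (a + b + c + 1) := by intros; omega
      have hN3 : ∀ N : ℕ, N ≤ (N + 1) ^ 3 := fun N =>
        (Nat.le_succ N).trans (Nat.le_self_pow (by norm_num) (N + 1))
      exact key _ _ _ _ (hN3 N))
  have e0 : RlzQ (a := .prod .nat (.prod .nat (.prod .nat (.prod .nat (.prod .nat
      (.prod .arr (.prod .arr (.prod .arr .arr))))))))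
      (fun _ _ x => x) (fun _ _ _ => 0) := RlzQ.input
  have hall := rows_rlz (RlzQ.fst (RlzQ.snd (RlzQ.snd e0))) (RlzQ.fst e0) hrow
  refine ⟨_, hall.mono 10 (fun K _ x => ?_), ?_⟩
  · obtain ⟨N, B, E, q, l, Q, G, ρ, ρ'⟩ := x
    dsimp only [xbCost]
    have hsum : ∑ i ∈ range E, (i * ((B + 1) * (l + 1) + 1) + (N + 1) * (B + 1) + (N + 1) ^ 3) ≤
        E * (E * ((B + 1) * (l + 1) + 1) + (N + 1) * (B + 1) + (N + 1) ^ 3) := by
      apply sum_range_le
      intro i hi
      have h := Nat.mul_le_mul_right ((B + 1) * (l + 1) + 1) hi.le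
      omega
    have key : ∀ S E B N l : ℕ,
        S ≤ E * (E * ((B + 1) * (l + 1) + 1) + (N + 1) * (B + 1) + (N + 1) ^ 3) →
        0 + 0 + S + E * E * (N + 1) ≤ 10 * ((E + 1) ^ 2 * ((N + 1) * ((N + 1) ^ 2 + B + 1)) *
          (l + 1) + 1) := by
      intro S E B N l h
      have h1 : E * (E * ((B + 1) * (l + 1) + 1)) ≤
          2 * ((E + 1) ^ 2 * ((N + 1) * ((N + 1) ^ 2 + B + 1)) * (l + 1)) := by
        have e1 : (B + 1) * (l + 1) + 1 ≤ 2 * ((B + 1) * (l + 1)) := by nlinarith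
        have e2 : B + 1 ≤ (N + 1) * ((N + 1) ^ 2 + B + 1) := by nlinarith
        calc E * (E * ((B + 1) * (l + 1) + 1)) ≤ (E + 1) * ((E + 1) * (2 * ((B + 1) * (l + 1)))) := by
              gcongr <;> omega
          _ = 2 * ((E + 1) ^ 2 * (B + 1) * (l + 1)) := by ring
          _ ≤ 2 * ((E + 1) ^ 2 * ((N + 1) * ((N + 1) ^ 2 + B + 1)) * (l + 1)) := by gcongr
      have h2 : E * ((N + 1) * (B + 1)) ≤
          (E + 1) ^ 2 * ((N + 1) * ((N + 1) ^ 2 + B + 1)) * (l + 1) := by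
        calc E * ((N + 1) * (B + 1)) ≤ (E + 1) ^ 2 * ((N + 1) * ((N + 1) ^ 2 + B + 1)) := by
              gcongr
              · nlinarith
              · nlinarith
          _ ≤ (E + 1) ^ 2 * ((N + 1) * ((N + 1) ^ 2 + B + 1)) * (l + 1) :=
              Nat.le_mul_of_pos_right _ (by omega)
      have h3 : E * (N + 1) ^ 3 ≤
          (E + 1) ^ 2 * ((N + 1) * ((N + 1) ^ 2 + B + 1)) * (l + 1) := by
        calc E * (N + 1) ^ 3 = E * ((N + 1) * (N + 1) ^ 2) := by ring
          _ ≤ (E + 1) ^ 2 * ((N + 1) * ((N + 1) ^ 2 + B + 1)) := by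
              gcongr
              · nlinarith
              · omega
          _ ≤ (E + 1) ^ 2 * ((N + 1) * ((N + 1) ^ 2 + B + 1)) * (l + 1) :=
              Nat.le_mul_of_pos_right _ (by omega)
      have h4 : E * E * (N + 1) ≤
          (E + 1) ^ 2 * ((N + 1) * ((N + 1) ^ 2 + B + 1)) * (l + 1) := by
        calc E * E * (N + 1) = E * E * ((N + 1) * 1) := by ring
          _ ≤ (E + 1) ^ 2 * ((N + 1) * ((N + 1) ^ 2 + B + 1)) := by
              gcongr
              · nlinarith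
              · nlinarith
          _ ≤ (E + 1) ^ 2 * ((N + 1) * ((N + 1) ^ 2 + B + 1)) * (l + 1) :=
              Nat.le_mul_of_pos_right _ (by omega)
      have h5 : E * (E * ((B + 1) * (l + 1) + 1) + (N + 1) * (B + 1) + (N + 1) ^ 3) =
          E * (E * ((B + 1) * (l + 1) + 1)) + E * ((N + 1) * (B + 1)) + E * (N + 1) ^ 3 := by ring
      omega
    exact key _ _ _ _ _ hsum
  · intro L _ k _ _ N B E q l Q G ρ ρ' Z hq hZ i hi hne v hv
    dsimp only
    set row : ℕ → ℕ → L := fun i => mulmod N Q (xbCmb N B (xbPow B q l i ρ') G)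
      (Fi L (N, Q, xbCmb N B (xbPow B q l i ρ) G)) with hrowdef
    have h1 : evz N v (rowA N i (tabF (E * N) fun j => row (j / N) (j % N))) =
        evz N v (row i) := by
      unfold evz rowA
      refine sum_congr rfl fun j hj => ?_
      have hj' := mem_range.1 hj
      have h2 : i * N + j < E * N := by
        have h3 : (i + 1) * N ≤ E * N := Nat.mul_le_mul_right N hi
        have h4 : (i + 1) * N = i * N + N := by ring
        omega
      have h5 : (i * N + j) / N = i := by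
        rw [mul_comm, Nat.mul_add_div (by omega), Nat.div_eq_of_lt hj', add_zero]
      have h6 : (i * N + j) % N = j := by
        rw [mul_comm, Nat.mul_add_mod, Nat.mod_eq_of_lt hj']
      unfold tabF
      rw [if_pos h2]
      beta_reduce
      rw [h5, h6]
    refine h1.trans ?_
    have hval : ∀ (r : ℕ → L) (z : k), evz N z (xbCmb N B (xbPow B q l i r) G) =
        ∑ e ∈ range B, algebraMap L k (r e) ^ q ^ i * dv N z G e := by
      intro r z
      rw [xb_evz_cmb]
      refine sum_congr rfl fun e he => ?_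
      rw [xb_pow B q l i hq r (mem_range.1 he), map_pow]
    have hcop := xb_coprime hZ (xbCmb N B (xbPow B q l i ρ) G) (fun z hz => by
      rw [hval]
      exact hne z hz)
    have hinv := xb_inv hZ hv _ _ (hFis L N Q _ hcop)
    rw [hrowdef]
    beta_reduce
    rw [xb_evz_mulmod hZ hv, hval]
    rw [hval] at hinv
    rw [eq_div_iff (hne v hv), mul_assoc, hinv, mul_one]

end Pool.Agent.AbsIrr
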