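import Mathlib
import Pool.Agent.Lib.MP_2adc98_lc.XDefs
import Pool.Agent.Lib.MP_2adc98_lc.XA1
import Pool.Agent.Lib.MP_2adc98_lc.FK

/-!
# MP_2adc98_lc, stage 3, piece XC: functions constant on the orbits
-/

set_option autoImplicit false
set_option linter.unusedVariables false

namespace Pool.Agent.AbsIrr

open Finset Polynomial

/-! ## algebra -/

section
variable {K : Type} [Field K]

private theorem xc_apol_coeff (n : ℕ) (A : ℕ → K) (i : ℕ) :
    (apol n A).coeff i = if i < n then A i else 0 := by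
  unfold apol
  rw [finsetSum_coeff]
  simp only [coeff_monomial]
  rw [sum_ite_eq' (range n) i]
  simp

private theorem xc_apol_degree (n : ℕ) (A : ℕ → K) : (apol n A).degree < (n : WithBot ℕ) := by
  rw [degree_lt_iff_coeff_zero]
  intro m hm
  rw [xc_apol_coeff, if_neg (by omega)]

private theorem xc_gmon_monic (n : ℕ) (g : ℕ → K) : (gmon n g).Monic := by
  unfold gmon
  exact monic_X_pow_add (xc_apol_degree n g)

private theorem xc_gmon_degree (n : ℕ) (g : ℕ → K) : (gmon n g).degree = (n : WithBot ℕ) := by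
  unfold gmon
  rw [degree_add_eq_left_of_degree_lt]
  · exact degree_X_pow n
  · rw [degree_X_pow]
    exact xc_apol_degree n g

/-- the polynomial of the array of a remainder -/
private theorem xc_apol_mod (n : ℕ) (g : ℕ → K) (P : K[X]) :
    apol n (tabF n (fun i => (P %ₘ gmon n g).coeff i)) = P %ₘ gmon n g := by
  ext i
  rw [xc_apol_coeff]
  by_cases hi : i < n
  · rw [if_pos hi]
    simp [tabF, hi]
  · rw [if_neg hi]
    have h1 := degree_modByMonic_lt P (xc_gmon_monic n g)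
    rw [xc_gmon_degree] at h1
    exact (coeff_eq_zero_of_degree_lt (h1.trans_le (by exact_mod_cast not_lt.1 hi))).symm

private theorem xc_mulmod (n : ℕ) (g a : ℕ → K) (e : ℕ) :
    mulmod n g (powmod n e g a) a = powmod n (e + 1) g a := by
  unfold mulmod powmod
  rw [xc_apol_mod]
  have h1 : apol n a %ₘ gmon n g = apol n a :=
    (modByMonic_eq_self_iff (xc_gmon_monic n g)).2
      (by rw [xc_gmon_degree]; exact xc_apol_degree n a)
  have h2 : ((apol n a ^ e %ₘ gmon n g) * apol n a) %ₘ gmon n g =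
      apol n a ^ (e + 1) %ₘ gmon n g := by
    calc ((apol n a ^ e %ₘ gmon n g) * apol n a) %ₘ gmon n g
        = ((apol n a ^ e %ₘ gmon n g) * (apol n a %ₘ gmon n g)) %ₘ gmon n g := by rw [h1]
      _ = (apol n a ^ e * apol n a) %ₘ gmon n g := by rw [← mul_modByMonic]
      _ = apol n a ^ (e + 1) %ₘ gmon n g := by rw [pow_succ]
  rw [h2]

/-- the unit -/
private def xcOne (K : Type) [Field K] (n : ℕ) : ℕ → K :=
  tabF n (fun i => if i = 0 then 1 else 0)

private theorem xcOne_eq (n : ℕ) (g a : ℕ → K) : xcOne K n = powmod n 0 g a := by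
  unfold xcOne powmod
  funext i
  unfold tabF
  by_cases hi : i < n
  · rw [if_pos hi, if_pos hi, pow_zero]
    have h1 : (1 : K[X]) %ₘ gmon n g = 1 := by
      rw [modByMonic_eq_self_iff (xc_gmon_monic n g), xc_gmon_degree, degree_one]
      exact_mod_cast (show 0 < n by omega)
    simp only [h1, coeff_one]
  · rw [if_neg hi, if_neg hi]

/-- first loop, state: the powers of `U`, of `V`, and the matrix -/
private noncomputable def xcStep (N : ℕ) (g U V : ℕ → K) (s : (ℕ → K) × ((ℕ → K) × (ℕ → K)))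
    (j : ℕ) : (ℕ → K) × ((ℕ → K) × (ℕ → K)) :=
  (mulmod N g s.1 U, (mulmod N g s.2.1 V,
    tabF (N * N) (fun n => if n % N = j then s.1 (n / N) - s.2.1 (n / N) else s.2.2 n)))

private noncomputable def xcLoop (N : ℕ) (g U V : ℕ → K) (j : ℕ) :
    (ℕ → K) × ((ℕ → K) × (ℕ → K)) :=
  iterF j (xcOne K N, (xcOne K N, xcOne K N)) (fun s i => xcStep N g U V s i)

private theorem xc_inv (N : ℕ) (g U V : ℕ → K) (j : ℕ) :
    (xcLoop N g U V j).1 = powmod N j g U ∧ (xcLoop N g U V j).2.1 = powmod N j g V ∧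
      ∀ j' < j, j' < N → ∀ t < N, (xcLoop N g U V j).2.2 (t * N + j') =
        powmod N j' g U t - powmod N j' g V t := by
  induction j with
  | zero =>
    refine ⟨xcOne_eq N g U, xcOne_eq N g V, fun j' hj' => absurd hj' (Nat.not_lt_zero _)⟩
  | succ j ih =>
    obtain ⟨h1, h2, h3⟩ := ih
    have e : xcLoop N g U V (j + 1) = xcStep N g U V (xcLoop N g U V j) j := rfl
    rw [e]
    unfold xcStep
    refine ⟨?_, ?_, ?_⟩
    · simp only
      rw [h1, xc_mulmod]
    · simp only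
      rw [h2, xc_mulmod]
    · intro j' hj' hj'N t ht
      simp only
      have e1 : (t * N + j') % N = j' := by
        rw [mul_comm, Nat.mul_add_mod, Nat.mod_eq_of_lt hj'N]
      have e2 : (t * N + j') / N = t := by
        rw [mul_comm, Nat.mul_add_div (by omega), Nat.div_eq_of_lt hj'N, add_zero]
      have e3 : t * N + j' < N * N := by
        calc t * N + j' < t * N + N := by omega
          _ = (t + 1) * N := by ring
          _ ≤ N * N := Nat.mul_le_mul_right _ ht
      unfold tabF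
      rw [if_pos e3]
      beta_reduce
      rw [e1, e2]
      by_cases hj : j' = j
      · rw [if_pos hj, h1, h2, hj]
      · rw [if_neg hj]
        exact h3 j' (by omega) hj'N t ht

/-- second loop -/
private noncomputable def xcStep2 (N : ℕ) (g V c : ℕ → K) (s : (ℕ → K) × (ℕ → K)) (j : ℕ) :
    (ℕ → K) × (ℕ → K) :=
  (mulmod N g s.1 V, tabF N (fun t => s.2 t + c j * s.1 t))

private noncomputable def xcLoop2 (N : ℕ) (g V c : ℕ → K) (j : ℕ) : (ℕ → K) × (ℕ → K) :=
  iterF j (xcOne K N, tabF N (fun _ => (0 : K))) (fun s i => xcStep2 N g V c s i)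

private theorem xc_inv2 (N : ℕ) (g V c : ℕ → K) (j : ℕ) :
    (xcLoop2 N g V c j).1 = powmod N j g V ∧
      ∀ t < N, (xcLoop2 N g V c j).2 t = ∑ i ∈ range j, c i * powmod N i g V t := by
  induction j with
  | zero =>
    refine ⟨xcOne_eq N g V, fun t ht => ?_⟩
    rw [Finset.sum_range_zero]
    show tabF N (fun _ => (0 : K)) t = 0
    unfold tabF
    rw [if_pos ht]
  | succ j ih =>
    obtain ⟨h1, h2⟩ := ih
    have e : xcLoop2 N g V c (j + 1) = xcStep2 N g V c (xcLoop2 N g V c j) j := rfl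
    rw [e]
    unfold xcStep2
    refine ⟨?_, fun t ht => ?_⟩
    · simp only
      rw [h1, xc_mulmod]
    · simp only
      unfold tabF
      rw [if_pos ht]
      beta_reduce
      rw [h2 t ht, h1, Finset.sum_range_succ]

end

section
variable {L : Type} [Field L] {k : Type} [Field k] [Algebra L k]

private theorem xc_evz (n : ℕ) (v : k) (a : ℕ → L) : evz n v a = aeval v (apol n a) := by
  unfold evz apol
  rw [map_sum]
  refine Finset.sum_congr rfl fun i _ => ?_
  rw [aeval_monomial]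

private theorem xc_root {N : ℕ} {Q : ℕ → L} {Z : Finset k} (hZ : IsMod N Q Z) {v : k}
    (hv : v ∈ Z) : aeval v (gmon N Q) = 0 := by
  unfold IsMod at hZ
  rw [aeval_def, eval₂_eq_eval_map, hZ, eval_prod]
  exact Finset.prod_eq_zero hv (by simp)

private theorem xc_card {N : ℕ} {Q : ℕ → L} {Z : Finset k} (hZ : IsMod N Q Z) :
    Z.card = N := by
  unfold IsMod at hZ
  have h1 := congrArg natDegree hZ
  rw [natDegree_map, natDegree_eq_of_degree_eq_some (xc_gmon_degree N Q),
    natDegree_finsetProd_X_sub_C_eq_card] at h1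
  exact h1.symm

private theorem xc_pow {N : ℕ} {Q : ℕ → L} {Z : Finset k} (hZ : IsMod N Q Z) {v : k}
    (hv : v ∈ Z) (E : ℕ) (a : ℕ → L) : evz N v (powmod N E Q a) = evz N v a ^ E := by
  rw [xc_evz, xc_evz]
  unfold powmod
  rw [xc_apol_mod]
  have h1 := modByMonic_add_div (apol N a ^ E) (q := gmon N Q)
  have h2 := congrArg (aeval v) h1
  rw [map_add, map_mul, xc_root hZ hv, zero_mul, add_zero, map_pow] at h2
  exact h2

private theorem xc_zero {N : ℕ} {Q : ℕ → L} {Z : Finset k} (hZ : IsMod N Q Z) (D : ℕ → L)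
    (h : ∀ v ∈ Z, evz N v D = 0) : ∀ t < N, D t = 0 := by
  have h1 : (apol N D).map (algebraMap L k) = 0 := by
    refine eq_zero_of_degree_lt_of_eval_finset_eq_zero Z ?_ fun v hv => ?_
    · rw [degree_map, xc_card hZ]
      exact xc_apol_degree N D
    · rw [← eval₂_eq_eval_map, ← aeval_def, ← xc_evz]
      exact h v hv
  have h2 : apol N D = 0 := (Polynomial.map_eq_zero _).1 h1
  intro t ht
  have h3 := congrArg (fun P => P.coeff t) h2
  simp only [xc_apol_coeff, coeff_zero] at h3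
  rwa [if_pos ht] at h3

end

/-! ## costs -/

private theorem xcOne_rlz : RlzQ (a := .nat) (b := .arr) (fun K _ x => xcOne K x)
    (fun _ _ x => x) := by
  unfold xcOne
  have hf : RlzQ (a := .prod .nat .nat) (b := .fld)
      (fun K _ x => if (x.2 : ℕ) = 0 then (1 : K) else (0 : K)) (fun _ _ _ => 0) :=
    (RlzQ.iteEq (RlzQ.snd RlzQ.input) (RlzQ.lit 0) RlzQ.one RlzQ.zero).mono 1
      (fun K _ x => by simp)
  have := RlzQ.tab (a := .nat) (N := fun _ _ x => x)
    (f := fun _K _ _ i => if (i : ℕ) = 0 then (1 : _K) else (0 : _K)) RlzQ.input hf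
  exact this.mono 1 (fun K _ x => by simp)

/-- the matrix, input `(N, (Q, (U, V)))` -/
private theorem xc_loop_rlz :
    RlzQ (a := .prod .nat (.prod .arr (.prod .arr .arr))) (b := .arr)
      (fun K _ x => (xcLoop (K := K) x.1 x.2.1 x.2.2.1 x.2.2.2 x.1).2.2)
      (fun _ _ x => (x.1 + 1) ^ 3) := by
  have hbody : RlzQ (a := .prod (.prod (.prod .nat (.prod .arr (.prod .arr .arr)))
      (.prod .arr (.prod .arr .arr))) .nat) (b := .prod .arr (.prod .arr .arr))
      (fun K _ x => xcStep (K := K) x.1.1.1 x.1.1.2.1 x.1.1.2.2.1 x.1.1.2.2.2 x.1.2 x.2)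
      (fun _ _ x => x.1.1.1 + x.1.1.1 + x.1.1.1 * x.1.1.1) := by
    have e0 : RlzQ (a := .prod (.prod (.prod .nat (.prod .arr (.prod .arr .arr)))
        (.prod .arr (.prod .arr .arr))) .nat) (b := .prod .nat (.prod .arr (.prod .arr .arr)))
        (fun _ _ x => x.1.1) (fun _ _ _ => 0) := RlzQ.fst (RlzQ.fst RlzQ.input)
    have es : RlzQ (a := .prod (.prod (.prod .nat (.prod .arr (.prod .arr .arr)))
        (.prod .arr (.prod .arr .arr))) .nat) (b := .prod .arr (.prod .arr .arr))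
        (fun _ _ x => x.1.2) (fun _ _ _ => 0) := RlzQ.snd (RlzQ.fst RlzQ.input)
    have hlen : RlzQ (a := .prod (.prod (.prod .nat (.prod .arr (.prod .arr .arr)))
        (.prod .arr (.prod .arr .arr))) .nat) (b := .nat)
        (fun _ _ x => x.1.1.1 * x.1.1.1) (fun _ _ _ => 0) :=
      (RlzQ.mul (RlzQ.fst e0) (RlzQ.fst e0)).mono 1 (fun K _ x => by simp)
    have f0 : RlzQ (a := .prod (.prod (.prod (.prod .nat (.prod .arr (.prod .arr .arr)))
        (.prod .arr (.prod .arr .arr))) .nat) .nat) (b := .nat)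
        (fun _ _ x => x.1.1.1.1) (fun _ _ _ => 0) :=
      RlzQ.fst (RlzQ.fst (RlzQ.fst (RlzQ.fst RlzQ.input)))
    have fs : RlzQ (a := .prod (.prod (.prod (.prod .nat (.prod .arr (.prod .arr .arr)))
        (.prod .arr (.prod .arr .arr))) .nat) .nat) (b := .prod .arr (.prod .arr .arr))
        (fun _ _ x => x.1.1.2) (fun _ _ _ => 0) := RlzQ.snd (RlzQ.fst (RlzQ.fst RlzQ.input))
    have fj : RlzQ (a := .prod (.prod (.prod (.prod .nat (.prod .arr (.prod .arr .arr)))
        (.prod .arr (.prod .arr .arr))) .nat) .nat) (b := .nat)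
        (fun _ _ x => x.1.2) (fun _ _ _ => 0) := RlzQ.snd (RlzQ.fst RlzQ.input)
    have fn : RlzQ (a := .prod (.prod (.prod (.prod .nat (.prod .arr (.prod .arr .arr)))
        (.prod .arr (.prod .arr .arr))) .nat) .nat) (b := .nat)
        (fun _ _ x => x.2) (fun _ _ _ => 0) := RlzQ.snd RlzQ.input
    have hentry := RlzQ.iteEq (RlzQ.mod fn f0) fj
      (RlzQ.fsub (RlzQ.get (RlzQ.fst fs) (RlzQ.div fn f0))
        (RlzQ.get (RlzQ.fst (RlzQ.snd fs)) (RlzQ.div fn f0)))
      (RlzQ.get (RlzQ.snd (RlzQ.snd fs)) fn)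
    have htab := RlzQ.tab (a := .prod (.prod (.prod .nat (.prod .arr (.prod .arr .arr)))
        (.prod .arr (.prod .arr .arr))) .nat) (N := fun _ _ x => x.1.1.1 * x.1.1.1)
      (f := fun K _ x n => if (n : ℕ) % x.1.1.1 = x.2 then
        ((x.1.2.1 : ℕ → K) (n / x.1.1.1) - (x.1.2.2.1 : ℕ → K) (n / x.1.1.1) : K) else
          (x.1.2.2.2 : ℕ → K) n) hlen hentry
    refine ((RlzQ.pair (RlzQ.mulmod (RlzQ.fst e0) (RlzQ.fst (RlzQ.snd e0)) (RlzQ.fst es)
      (RlzQ.fst (RlzQ.snd (RlzQ.snd e0)))) (RlzQ.pair (RlzQ.mulmod (RlzQ.fst e0)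
        (RlzQ.fst (RlzQ.snd e0)) (RlzQ.fst (RlzQ.snd es)) (RlzQ.snd (RlzQ.snd (RlzQ.snd e0))))
        htab)).congr (fun K _ x => rfl)).mono 1 (fun K _ x => ?_)
    simp only [add_zero, zero_add, ite_self, Finset.sum_const_zero]
    have key : ∀ A B : ℕ, A + (A + B) ≤ 1 * (A + A + B + 1) := by intros; omega
    exact key _ _
  have h1 : RlzQ (a := .prod .nat (.prod .arr (.prod .arr .arr))) (b := .arr)
      (fun K _ x => xcOne K x.1) (fun _ _ x => x.1) :=
    (RlzQ.comp xcOne_rlz (RlzQ.fst RlzQ.input)).mono 1 (fun K _ x => by simp)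
  have h := RlzQ.iter (a := .prod .nat (.prod .arr (.prod .arr .arr)))
    (b := .prod .arr (.prod .arr .arr)) (N := fun _ _ x => x.1)
    (S := fun K _ x => (xcOne K x.1, (xcOne K x.1, xcOne K x.1)))
    (f := fun K _ x s i => xcStep (K := K) x.1 x.2.1 x.2.2.1 x.2.2.2 s i)
    (RlzQ.fst RlzQ.input) (RlzQ.pair h1 (RlzQ.pair h1 h1)) hbody
  refine ((RlzQ.snd (RlzQ.snd h)).congr (fun K _ x => rfl)).mono 8 (fun K _ x => ?_)
  simp only [Finset.sum_const, Finset.card_range, smul_eq_mul, zero_add]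
  have key : ∀ n : ℕ, n + (n + n) + n + n * (n + n + n * n) ≤ 8 * ((n + 1) ^ 3 + 1) := by
    intro n
    have : (n + 1) ^ 3 = n * n * n + 3 * (n * n) + 3 * n + 1 := by ring
    rw [this]
    nlinarith [Nat.zero_le (n * n * n), Nat.zero_le (n * n)]
  exact key _

/-- the combination, input `(N, (Q, (V, c)))` -/
private theorem xc_loop2_rlz :
    RlzQ (a := .prod .nat (.prod .arr (.prod .arr .arr))) (b := .arr)
      (fun K _ x => (xcLoop2 (K := K) x.1 x.2.1 x.2.2.1 x.2.2.2 x.1).2)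
      (fun _ _ x => (x.1 + 1) ^ 3) := by
  have hbody : RlzQ (a := .prod (.prod (.prod .nat (.prod .arr (.prod .arr .arr)))
      (.prod .arr .arr)) .nat) (b := .prod .arr .arr)
      (fun K _ x => xcStep2 (K := K) x.1.1.1 x.1.1.2.1 x.1.1.2.2.1 x.1.1.2.2.2 x.1.2 x.2)
      (fun _ _ x => x.1.1.1 + x.1.1.1) := by
    have e0 : RlzQ (a := .prod (.prod (.prod .nat (.prod .arr (.prod .arr .arr)))
        (.prod .arr .arr)) .nat) (b := .prod .nat (.prod .arr (.prod .arr .arr)))
        (fun _ _ x => x.1.1) (fun _ _ _ => 0) := RlzQ.fst (RlzQ.fst RlzQ.input)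
    have es : RlzQ (a := .prod (.prod (.prod .nat (.prod .arr (.prod .arr .arr)))
        (.prod .arr .arr)) .nat) (b := .prod .arr .arr)
        (fun _ _ x => x.1.2) (fun _ _ _ => 0) := RlzQ.snd (RlzQ.fst RlzQ.input)
    have f0 : RlzQ (a := .prod (.prod (.prod (.prod .nat (.prod .arr (.prod .arr .arr)))
        (.prod .arr .arr)) .nat) .nat) (b := .arr)
        (fun _ _ x => x.1.1.1.2.2.2) (fun _ _ _ => 0) :=
      RlzQ.snd (RlzQ.snd (RlzQ.snd (RlzQ.fst (RlzQ.fst (RlzQ.fst RlzQ.input)))))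
    have fs : RlzQ (a := .prod (.prod (.prod (.prod .nat (.prod .arr (.prod .arr .arr)))
        (.prod .arr .arr)) .nat) .nat) (b := .prod .arr .arr)
        (fun _ _ x => x.1.1.2) (fun _ _ _ => 0) := RlzQ.snd (RlzQ.fst (RlzQ.fst RlzQ.input))
    have fj : RlzQ (a := .prod (.prod (.prod (.prod .nat (.prod .arr (.prod .arr .arr)))
        (.prod .arr .arr)) .nat) .nat) (b := .nat)
        (fun _ _ x => x.1.2) (fun _ _ _ => 0) := RlzQ.snd (RlzQ.fst RlzQ.input)
    have fn : RlzQ (a := .prod (.prod (.prod (.prod .nat (.prod .arr (.prod .arr .arr)))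
        (.prod .arr .arr)) .nat) .nat) (b := .nat)
        (fun _ _ x => x.2) (fun _ _ _ => 0) := RlzQ.snd RlzQ.input
    have hentry := RlzQ.fadd (RlzQ.get (RlzQ.snd fs) fn)
      (RlzQ.fmul (RlzQ.get f0 fj) (RlzQ.get (RlzQ.fst fs) fn))
    have htab := RlzQ.tab (a := .prod (.prod (.prod .nat (.prod .arr (.prod .arr .arr)))
        (.prod .arr .arr)) .nat) (N := fun _ _ x => x.1.1.1)
      (f := fun K _ x t => ((x.1.2.2 : ℕ → K) t +
        (x.1.1.2.2.2 : ℕ → K) x.2 * (x.1.2.1 : ℕ → K) t : K)) (RlzQ.fst e0) hentry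
    refine ((RlzQ.pair (RlzQ.mulmod (RlzQ.fst e0) (RlzQ.fst (RlzQ.snd e0)) (RlzQ.fst es)
      (RlzQ.fst (RlzQ.snd (RlzQ.snd e0)))) htab).congr (fun K _ x => rfl)).mono 1
        (fun K _ x => ?_)
    simp only [add_zero, zero_add, Finset.sum_const_zero]
    have key : ∀ A : ℕ, A + A ≤ 1 * (A + A + 1) := by intros; omega
    exact key _
  have h1 : RlzQ (a := .prod .nat (.prod .arr (.prod .arr .arr))) (b := .arr)
      (fun K _ x => xcOne K x.1) (fun _ _ x => x.1) :=
    (RlzQ.comp xcOne_rlz (RlzQ.fst RlzQ.input)).mono 1 (fun K _ x => by simp)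
  have h0 : RlzQ (a := .prod .nat (.prod .arr (.prod .arr .arr))) (b := .arr)
      (fun K _ x => tabF x.1 (fun _ => (0 : K))) (fun _ _ x => x.1) :=
    (RlzQ.tab (a := .prod .nat (.prod .arr (.prod .arr .arr))) (f := fun K _ _ _ => (0 : K))
      (RlzQ.fst RlzQ.input) RlzQ.zero).mono 1 (fun K _ x => by simp)
  have h := RlzQ.iter (a := .prod .nat (.prod .arr (.prod .arr .arr)))
    (b := .prod .arr .arr) (N := fun _ _ x => x.1)
    (S := fun K _ x => (xcOne K x.1, tabF x.1 (fun _ => (0 : K))))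
    (f := fun K _ x s i => xcStep2 (K := K) x.1 x.2.1 x.2.2.1 x.2.2.2 s i)
    (RlzQ.fst RlzQ.input) (RlzQ.pair h1 h0) hbody
  refine ((RlzQ.snd h).congr (fun K _ x => rfl)).mono 8 (fun K _ x => ?_)
  simp only [Finset.sum_const, Finset.card_range, smul_eq_mul, zero_add]
  have key : ∀ n : ℕ, n + n + n + n * (n + n) ≤ 8 * ((n + 1) ^ 3 + 1) := by
    intro n
    have : (n + 1) ^ 3 = n * n * n + 3 * (n * n) + 3 * n + 1 := by ring
    rw [this]
    nlinarith [Nat.zero_le (n * n * n), Nat.zero_le (n * n)]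
  exact key _

/-- the coefficients, input `(N, (M, s))` -/
private def xcComb {K : Type} [Field K] (N : ℕ) (M s : ℕ → K) : ℕ → K :=
  tabF N (fun j => ∑ i ∈ range N, s i * M (j * N + i))

private theorem xcComb_rlz : RlzQ (a := .prod .nat (.prod .arr .arr)) (b := .arr)
    (fun K _ x => xcComb (K := K) x.1 x.2.1 x.2.2) (fun _ _ x => (x.1 + 1) ^ 3) := by
  have f0 : RlzQ (a := .prod (.prod (.prod .nat (.prod .arr .arr)) .nat) .nat)
      (b := .prod .nat (.prod .arr .arr)) (fun _ _ x => x.1.1) (fun _ _ _ => 0) :=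
    RlzQ.fst (RlzQ.fst RlzQ.input)
  have fj : RlzQ (a := .prod (.prod (.prod .nat (.prod .arr .arr)) .nat) .nat)
      (b := .nat) (fun _ _ x => x.1.2) (fun _ _ _ => 0) := RlzQ.snd (RlzQ.fst RlzQ.input)
  have fi : RlzQ (a := .prod (.prod (.prod .nat (.prod .arr .arr)) .nat) .nat)
      (b := .nat) (fun _ _ x => x.2) (fun _ _ _ => 0) := RlzQ.snd RlzQ.input
  have hsum := RlzQ.sum (a := .prod (.prod .nat (.prod .arr .arr)) .nat)
    (N := fun _ _ x => x.1.1)
    (f := fun K _ x i => ((x.1.2.2 : ℕ → K) i * (x.1.2.1 : ℕ → K) (x.2 * x.1.1 + i) : K))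
    (RlzQ.fst (RlzQ.fst RlzQ.input)) (RlzQ.fmul (RlzQ.get (RlzQ.snd (RlzQ.snd f0)) fi)
      (RlzQ.get (RlzQ.fst (RlzQ.snd f0)) (RlzQ.add (RlzQ.mul fj (RlzQ.fst f0)) fi)))
  have htab := RlzQ.tab (a := .prod .nat (.prod .arr .arr)) (N := fun _ _ x => x.1)
    (f := fun K _ x j => ∑ i ∈ range x.1, ((x.2.2 : ℕ → K) i * (x.2.1 : ℕ → K) (j * x.1 + i) : K))
    (RlzQ.fst RlzQ.input) hsum
  refine (htab.congr (fun K _ x => rfl)).mono 4 (fun K _ x => ?_)
  simp only [add_zero, zero_add, Finset.sum_const_zero, Finset.sum_const, Finset.card_range,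
    smul_eq_mul]
  have key : ∀ n : ℕ, n + n * n ≤ 4 * ((n + 1) ^ 3 + 1) := by
    intro n
    have : (n + 1) ^ 3 = n * n * n + 3 * (n * n) + 3 * n + 1 := by ring
    rw [this]
    nlinarith [Nat.zero_le (n * n * n), Nat.zero_le (n * n)]
  exact key _

/-- **XC.**  The functions constant on the orbits. -/
theorem kerH_rlz :
    ∃ F : Fam (.prod .nat (.prod .nat (.prod .nat (.prod .arr (.prod .arr (.prod .arr .arr))))))
      .arr,
    RlzQ F (fun _ _ x => (x.1 + 1) ^ 3 * (x.2.2.1 + 1)) ∧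
    ∀ (L : Type) [Field L] (k : Type) [Field k] [Algebra L k] (N q l : ℕ) (Q V₀ V₁ : ℕ → L)
      (Z : Finset k), q < 2 ^ l → IsMod N Q Z →
      ∃ θ : ℕ → ℕ → L,
        (∀ i, ∀ v ∈ Z, ∑ j ∈ range N, algebraMap L k (θ i j) * evz N v V₀ ^ (q * j) =
          ∑ j ∈ range N, algebraMap L k (θ i j) * evz N v V₁ ^ j) ∧
        (∀ β : ℕ → L, (∀ v ∈ Z, ∑ j ∈ range N, algebraMap L k (β j) * evz N v V₀ ^ (q * j) =
          ∑ j ∈ range N, algebraMap L k (β j) * evz N v V₁ ^ j) →
          ∃ s : ℕ → L, ∀ j < N, β j = ∑ i ∈ range N, s i * θ i j) ∧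
        ∀ s : ℕ → L, ∀ v ∈ Z, evz N v (F L (N, (q, (l, (Q, (V₀, (V₁, s))))))) =
          ∑ i ∈ range N, ∑ j ∈ range N, algebraMap L k (s i * θ i j) * evz N v V₁ ^ j := by
  obtain ⟨FK, hFK, hspec⟩ := gauss_ker
  refine ⟨fun K _ x => (xcLoop2 (K := K) x.1 x.2.2.2.1 x.2.2.2.2.2.1 (xcComb x.1
    (FK K (x.1, (xcLoop (K := K) x.1 x.2.2.2.1 (powmod x.1 ((x.2.1 : ℕ) % 2 ^ (x.2.2.1 : ℕ))
      x.2.2.2.1 x.2.2.2.2.1) x.2.2.2.2.2.1 x.1).2.2)) x.2.2.2.2.2.2) x.1).2, ?_, ?_⟩
  · have e0 : RlzQ (a := .prod .nat (.prod .nat (.prod .nat (.prod .arr (.prod .arr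
        (.prod .arr .arr)))))) (fun _ _ x => x) (fun _ _ _ => 0) := RlzQ.input
    have eN := RlzQ.fst e0
    have eq := RlzQ.fst (RlzQ.snd e0)
    have el := RlzQ.fst (RlzQ.snd (RlzQ.snd e0))
    have eQ := RlzQ.fst (RlzQ.snd (RlzQ.snd (RlzQ.snd e0)))
    have e1 := RlzQ.snd (RlzQ.snd (RlzQ.snd (RlzQ.snd e0)))
    have eV0 := RlzQ.fst e1
    have eV1 := RlzQ.fst (RlzQ.snd e1)
    have es := RlzQ.snd (RlzQ.snd e1)
    have h1 := RlzQ.powmodL eN el eq eQ eV0
    have h2 := RlzQ.comp xc_loop_rlz (RlzQ.pair eN (RlzQ.pair eQ (RlzQ.pair h1 eV1)))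
    have h3 := RlzQ.comp hFK (RlzQ.pair eN h2)
    have h4 := RlzQ.comp xcComb_rlz (RlzQ.pair eN (RlzQ.pair h3 es))
    have h5 := RlzQ.comp xc_loop2_rlz (RlzQ.pair eN (RlzQ.pair eQ (RlzQ.pair eV1 h4)))
    refine (h5.congr (fun K _ x => rfl)).mono 5 (fun K _ x => ?_)
    simp only [zero_add, add_zero]
    have key : ∀ n l : ℕ, (n + 1) * (l + 1) + (n + 1) ^ 3 + n ^ 3 + (n + 1) ^ 3 + (n + 1) ^ 3 ≤
        5 * ((n + 1) ^ 3 * (l + 1) + 1) := by
      intro n l
      have h6 : (n + 1) * (l + 1) ≤ (n + 1) ^ 3 * (l + 1) :=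
        Nat.mul_le_mul_right _ (Nat.le_self_pow (by norm_num) _)
      have h7 : (n + 1) ^ 3 ≤ (n + 1) ^ 3 * (l + 1) := Nat.le_mul_of_pos_right _ (by omega)
      have h8 : n ^ 3 ≤ (n + 1) ^ 3 := Nat.pow_le_pow_left (by omega) 3
      omega
    exact key _ _
  · intro L _ k _ _ N q l Q V₀ V₁ Z hq hZ
    obtain ⟨U, hU⟩ : ∃ U, U = powmod N q Q V₀ := ⟨_, rfl⟩
    obtain ⟨T, hT⟩ : ∃ T, T = (xcLoop N Q U V₁ N).2.2 := ⟨_, rfl⟩
    obtain ⟨M, hM⟩ : ∃ M, M = FK L (N, T) := ⟨_, rfl⟩
    have hUv : ∀ v ∈ Z, evz N v U = evz N v V₀ ^ q := fun v hv => by rw [hU, xc_pow hZ hv]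
    have hTe : ∀ j < N, ∀ t < N, T (t * N + j) = powmod N j Q U t - powmod N j Q V₁ t := by
      intro j hj t ht
      rw [hT]
      exact (xc_inv N Q U V₁ N).2.2 j hj hj t ht
    obtain ⟨hs1, hs2⟩ := hspec L N T
    rw [← hM] at hs1 hs2
    -- linear combinations
    have hlin : ∀ (β : ℕ → L), ∀ v ∈ Z, evz N v (fun t => ∑ j ∈ range N, T (t * N + j) * β j) =
        ∑ j ∈ range N, algebraMap L k (β j) * evz N v V₀ ^ (q * j) -
          ∑ j ∈ range N, algebraMap L k (β j) * evz N v V₁ ^ j := by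
      intro β v hv
      have h1 : ∀ t ∈ range N, algebraMap L k (∑ j ∈ range N, T (t * N + j) * β j) * v ^ t =
          ∑ j ∈ range N, (algebraMap L k (β j) * (algebraMap L k (powmod N j Q U t) * v ^ t) -
            algebraMap L k (β j) * (algebraMap L k (powmod N j Q V₁ t) * v ^ t)) := by
        intro t ht
        rw [map_sum, Finset.sum_mul]
        refine Finset.sum_congr rfl fun j hj => ?_
        rw [hTe j (mem_range.1 hj) t (mem_range.1 ht), map_mul, map_sub]
        ring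
      unfold evz
      rw [Finset.sum_congr rfl h1, Finset.sum_comm]
      rw [← Finset.sum_sub_distrib]
      refine Finset.sum_congr rfl fun j hj => ?_
      rw [Finset.sum_sub_distrib, ← Finset.mul_sum, ← Finset.mul_sum]
      have h2 : ∑ t ∈ range N, algebraMap L k (powmod N j Q U t) * v ^ t =
          evz N v V₀ ^ (q * j) := by
        have h3 := xc_pow hZ hv j U
        rw [hUv v hv, ← pow_mul] at h3
        exact h3
      have h4 : ∑ t ∈ range N, algebraMap L k (powmod N j Q V₁ t) * v ^ t =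
          evz N v V₁ ^ j := xc_pow hZ hv j V₁
      rw [h2, h4]
      rfl
    refine ⟨fun i j => if i < N ∧ j < N then M (j * N + i) else 0, ?_, ?_, ?_⟩
    · intro i v hv
      by_cases hi : i < N
      · have h1 := hlin (fun j => if i < N ∧ j < N then M (j * N + i) else 0) v hv
        have h2 : ∀ t ∈ range N, ∑ j ∈ range N, T (t * N + j) *
            (if i < N ∧ j < N then M (j * N + i) else 0) = 0 := by
          intro t ht
          have h3 := congrFun (congrFun hs1 ⟨t, mem_range.1 ht⟩) ⟨i, hi⟩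
          rw [Matrix.mul_apply] at h3
          have h4 : ∑ j ∈ range N, T (t * N + j) *
              (if i < N ∧ j < N then M (j * N + i) else 0) =
              ∑ j : Fin N, T (t * N + j) * M (j * N + i) := by
            rw [Finset.sum_range]
            refine Finset.sum_congr rfl fun j _ => ?_
            rw [if_pos ⟨hi, j.2⟩]
          rw [h4]
          exact h3
        have h5 : evz N v (fun t => ∑ j ∈ range N, T (t * N + j) *
            (if i < N ∧ j < N then M (j * N + i) else 0)) = 0 := by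
          unfold evz
          refine Finset.sum_eq_zero fun t ht => ?_
          beta_reduce
          rw [h2 t ht, map_zero, zero_mul]
        rw [h5] at h1
        exact (sub_eq_zero.1 h1.symm)
      · simp [hi]
    · intro β hβ
      have h1 : ∀ t < N, ∑ j ∈ range N, T (t * N + j) * β j = 0 := by
        refine xc_zero hZ (fun t => ∑ j ∈ range N, T (t * N + j) * β j) fun v hv => ?_
        rw [hlin β v hv, hβ v hv, sub_self]
      obtain ⟨s, hs⟩ := hs2 (fun j => β j) (by
        ext t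
        have h2 := h1 t t.2
        rw [Finset.sum_range] at h2
        exact h2)
      refine ⟨fun i => if h : i < N then s ⟨i, h⟩ else 0, fun j hj => ?_⟩
      have h3 := congrFun hs ⟨j, hj⟩
      have h4 : β j = ∑ i : Fin N, M (j * N + i) * s i := h3
      rw [h4, Finset.sum_range]
      refine Finset.sum_congr rfl fun i _ => ?_
      beta_reduce
      rw [dif_pos i.2, if_pos ⟨i.2, hj⟩, mul_comm]
    · intro s v hv
      have h0 : (q : ℕ) % 2 ^ l = q := Nat.mod_eq_of_lt hq
      show evz N v (xcLoop2 N Q V₁ (xcComb N (FK L (N, (xcLoop N Q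
        (powmod N (q % 2 ^ l) Q V₀) V₁ N).2.2)) s) N).2 = _
      rw [h0, ← hU, ← hT, ← hM]
      have h1 := (xc_inv2 N Q V₁ (xcComb N M s) N).2
      have h2 : ∀ t ∈ range N, algebraMap L k ((xcLoop2 N Q V₁ (xcComb N M s) N).2 t) * v ^ t =
          ∑ j ∈ range N, algebraMap L k (xcComb N M s j) *
            (algebraMap L k (powmod N j Q V₁ t) * v ^ t) := by
        intro t ht
        rw [h1 t (mem_range.1 ht), map_sum, Finset.sum_mul]
        refine Finset.sum_congr rfl fun j _ => ?_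
        rw [map_mul]
        ring
      unfold evz
      rw [Finset.sum_congr rfl h2, Finset.sum_comm, Finset.sum_comm (s := range N) (t := range N)
        (f := fun i j => algebraMap L k (s i * if i < N ∧ j < N then M (j * N + i) else 0) *
          (∑ l ∈ range N, algebraMap L k (V₁ l) * v ^ l) ^ j)]
      refine Finset.sum_congr rfl fun j hj => ?_
      rw [← Finset.mul_sum, ← Finset.sum_mul]
      have h4 : ∑ t ∈ range N, algebraMap L k (powmod N j Q V₁ t) * v ^ t =
          evz N v V₁ ^ j := xc_pow hZ hv j V₁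
      rw [h4]
      have h5 : xcComb N M s j = ∑ i ∈ range N,
          (s i * if i < N ∧ j < N then M (j * N + i) else 0) := by
        unfold xcComb tabF
        rw [if_pos (mem_range.1 hj)]
        refine Finset.sum_congr rfl fun i hi => ?_
        rw [if_pos ⟨mem_range.1 hi, mem_range.1 hj⟩]
      rw [h5, map_sum]
      rfl

end Pool.Agent.AbsIrr
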