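import Mathlib
import Pool.Agent.Lib.MP_2adc98_lc.XDefs

/-!
# MP_2adc98_lc, piece XM2: interpolation and descent
-/

set_option autoImplicit false

namespace Pool.Agent.AbsIrr

open Finset Polynomial

/-- a polynomial of degree less than `Z.card` is determined by its values at the points `v z` -/
private theorem xm2_unique {k : Type} [Field k] {Z : Finset k} {v : k → k} (hv : Set.InjOn v Z)
    {P Q : k[X]} (hP : P.degree < Z.card) (hQ : Q.degree < Z.card)
    (h : ∀ z ∈ Z, P.eval (v z) = Q.eval (v z)) : P = Q := by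
  exact Polynomial.eq_of_degree_sub_lt_of_eval_index_eq (s := Z) hv
    (lt_of_le_of_lt (degree_sub_le P Q) (max_lt hP hQ)) h

private theorem xm2_bij {k : Type} {Z : Finset k} {ϖ : k → k} (hϖ : ∀ z ∈ Z, ϖ z ∈ Z)
    (hinj : Set.InjOn ϖ Z) : ∀ w ∈ Z, ∃ z ∈ Z, ϖ z = w := by
  intro w hw
  have h := Finset.surj_on_of_inj_on_of_card_le (s := Z) (t := Z) (fun z _ => ϖ z)
    (fun z hz => hϖ z hz) (fun a b ha hb hab => hinj ha hb hab) le_rfl w hw
  obtain ⟨z, hz, h⟩ := h
  exact ⟨z, hz, h.symm⟩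

/-- the key step: the coefficients of the interpolation polynomial are fixed by `τ` -/
private theorem xm2_fix {k : Type} [Field k] (τ : k →+* k) (Z : Finset k) (ϖ : k → k)
    (hϖ : ∀ z ∈ Z, ϖ z ∈ Z) (hinj : Set.InjOn ϖ Z) (v η : k → k) (hv : Set.InjOn v Z)
    (h1 : ∀ z ∈ Z, τ (v z) = v (ϖ z)) (h2 : ∀ z ∈ Z, τ (η z) = η (ϖ z)) (P : k[X])
    (hP : P.degree < Z.card) (hev : ∀ z ∈ Z, P.eval (v z) = η z) (j : ℕ) :
    τ (P.coeff j) = P.coeff j := by
  have h3 : P.map τ = P := by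
    refine xm2_unique hv (lt_of_le_of_lt degree_map_le hP) hP ?_
    intro w hw
    obtain ⟨z, hz, rfl⟩ := xm2_bij hϖ hinj w hw
    rw [← h1 z hz, eval_map, eval₂_hom, hev z hz, h2 z hz, h1 z hz, hev _ (hϖ z hz)]
  conv_rhs => rw [← h3]
  rw [coeff_map]

theorem interp_descent {L : Type} [Field L] {k : Type} [Field k] [Algebra L k] (τ : k →+* k)
    (hfix : ∀ x, τ x = x → x ∈ Set.range (algebraMap L k))
    (hfix' : ∀ x : L, τ (algebraMap L k x) = algebraMap L k x) (Z : Finset k) (ϖ : k → k)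
    (hϖ : ∀ z ∈ Z, ϖ z ∈ Z) (hinj : Set.InjOn ϖ Z) (v η : k → k) (hv : Set.InjOn v Z)
    (h1 : ∀ z ∈ Z, τ (v z) = v (ϖ z)) (h2 : ∀ z ∈ Z, τ (η z) = η (ϖ z)) :
    ∃ β : ℕ → L, ∀ z ∈ Z, η z = ∑ j ∈ range Z.card, algebraMap L k (β j) * v z ^ j := by
  classical
  set P := Lagrange.interpolate Z v η with hPdef
  have hP : P.degree < Z.card := Lagrange.degree_interpolate_lt η hv
  have hev : ∀ z ∈ Z, P.eval (v z) = η z := fun z hz => Lagrange.eval_interpolate_at_node η hv hz
  have hc : ∀ j, ∃ b : L, algebraMap L k b = P.coeff j := fun j =>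
    hfix _ (xm2_fix τ Z ϖ hϖ hinj v η hv h1 h2 P hP hev j)
  choose β hβ using hc
  refine ⟨β, fun z hz => ?_⟩
  rw [← hev z hz]
  rcases Nat.eq_zero_or_pos Z.card with h0 | h0
  · rw [Finset.card_eq_zero] at h0
    rw [h0] at hz
    exact absurd hz (Finset.notMem_empty z)
  have hn : P.natDegree < Z.card := by
    by_cases hP0 : P = 0
    · rw [hP0, natDegree_zero]; exact h0
    · exact (natDegree_lt_iff_degree_lt hP0).2 hP
  rw [Polynomial.eval_eq_sum_range' hn]
  exact Finset.sum_congr rfl (fun j _ => by rw [hβ])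

/-- the coefficients of the interpolation polynomial and of the modulus are rational -/
theorem rational_data {L : Type} [Field L] {k : Type} [Field k] [Algebra L k] (τ : k →+* k)
    (hfix : ∀ x, τ x = x → x ∈ Set.range (algebraMap L k))
    (hfix' : ∀ x : L, τ (algebraMap L k x) = algebraMap L k x) (Z : Finset k) (ϖ : k → k)
    (hϖ : ∀ z ∈ Z, ϖ z ∈ Z) (hinj : Set.InjOn ϖ Z) (a : k → k) (ha : Set.InjOn a Z)
    (h1 : ∀ z ∈ Z, τ (a z) = a (ϖ z)) :
    (∃ P : L[X], P.Monic ∧ P.map (algebraMap L k) = ∏ z ∈ Z, (X - C (a z))) ∧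
    ∀ (η : k → k) (c : ℕ → k), (∀ z ∈ Z, τ (η z) = η (ϖ z)) →
      (∀ z ∈ Z, η z = ∑ j ∈ range Z.card, c j * a z ^ j) →
      ∀ j < Z.card, c j ∈ Set.range (algebraMap L k) := by
  classical
  constructor
  · set M : k[X] := ∏ z ∈ Z, (X - C (a z)) with hM
    have hMm : M.Monic := monic_prod_of_monic _ _ (fun z _ => monic_X_sub_C _)
    have h3 : M.map τ = M := by
      rw [hM, Polynomial.map_prod]
      have h4 : ∀ z ∈ Z, (X - C (a z)).map τ = X - C (a (ϖ z)) := by
        intro z hz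
        rw [Polynomial.map_sub, map_X, map_C, h1 z hz]
      rw [Finset.prod_congr rfl h4]
      exact Finset.prod_bij (fun z _ => ϖ z) (fun z hz => hϖ z hz)
        (fun x hx y hy hxy => hinj hx hy hxy) (fun w hw => by
          obtain ⟨z, hz, h⟩ := xm2_bij hϖ hinj w hw
          exact ⟨z, hz, h⟩) (fun z _ => rfl)
    have hlift : M ∈ Polynomial.lifts (algebraMap L k) := by
      rw [Polynomial.lifts_iff_coeff_lifts]
      intro j
      apply hfix
      conv_rhs => rw [← h3]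
      rw [coeff_map]
    obtain ⟨P, hP1, _, hP2⟩ := Polynomial.lifts_and_degree_eq_and_monic hlift hMm
    exact ⟨P, hP2, hP1⟩
  · intro η c h2 hc j hj
    apply hfix
    set P : k[X] := ∑ i ∈ range Z.card, C (c i) * X ^ i with hP
    have hdeg : P.degree < Z.card := by
      rw [hP]
      refine lt_of_le_of_lt (degree_sum_le _ _) ?_
      rw [Finset.sup_lt_iff (WithBot.bot_lt_coe _)]
      intro i hi
      exact lt_of_le_of_lt (degree_C_mul_X_pow_le _ _)
        (by exact_mod_cast Finset.mem_range.1 hi)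
    have hev : ∀ z ∈ Z, P.eval (a z) = η z := by
      intro z hz
      rw [hP, eval_finsetSum, hc z hz]
      exact Finset.sum_congr rfl (fun i _ => by simp)
    have h5 := xm2_fix τ Z ϖ hϖ hinj a η ha h1 h2 P hdeg hev j
    have h6 : P.coeff j = c j := by
      rw [hP, finsetSum_coeff]
      simp [coeff_C_mul, coeff_X_pow, hj]
    rwa [h6] at h5

end Pool.Agent.AbsIrr
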