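import Mathlib
import Pool.Agent.Lib.MP_2adc98_lc.XItem

/-!
# MP_2adc98_lc, piece XN1: the functions `v_i` of an item
-/

set_option autoImplicit false
set_option linter.unusedSectionVars false

namespace Pool.Agent.AbsIrr

open Finset Polynomial

/-- the Frobenius map and a linear combination of the coefficients -/
private theorem xn1_comb {L : Type} [Field L] {k : Type} [Field k] [Algebra L k] {p r q N B : ℕ}
    [Fact p.Prime] [CharP k p] (hq : q = p ^ r) {G : ℕ → L} {z z' c : k}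
    (hc : ∀ e < B, dv N z G e ^ q = c * dv N z' G e) (a : ℕ → L) (i : ℕ) :
    (∑ e ∈ range B, algebraMap L k (a e) ^ q ^ i * dv N z G e) ^ q =
      c * ∑ e ∈ range B, algebraMap L k (a e) ^ q ^ (i + 1) * dv N z' G e := by
  have h1 : (∑ e ∈ range B, algebraMap L k (a e) ^ q ^ i * dv N z G e) ^ q =
      ∑ e ∈ range B, (algebraMap L k (a e) ^ q ^ i * dv N z G e) ^ q := by
    rw [hq, sum_pow_char_pow]
  rw [h1, mul_sum]
  refine sum_congr rfl fun e he => ?_
  rw [mul_pow, hc e (mem_range.1 he), ← pow_mul, ← pow_succ]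
  ring

private theorem xn1_surj {k : Type} {Z : Finset k} {ϖ : k → k} (hm : ∀ z ∈ Z, ϖ z ∈ Z)
    (hi : Set.InjOn ϖ Z) {z : k} (hz : z ∈ Z) : ∃ z' ∈ Z, ϖ z' = z := by
  have h := Finset.surjOn_of_injOn_of_card_le ϖ (s := Z) (t := Z)
    (fun x hx => hm x hx) hi le_rfl
  obtain ⟨z', hz', h1⟩ := h (by exact_mod_cast hz)
  exact ⟨z', by exact_mod_cast hz', h1⟩

section XN1
variable {L : Type} [Field L] [Fintype L] {k : Type} [Field k] [Algebra L k] {p r q E N B : ℕ}
  [Fact p.Prime] [CharP k p] (hq : q = p ^ r) (hcard : Fintype.card L = q ^ E)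
  {Q G : ℕ → L} {Z : Finset k} {ϖ : k → k} (hI : ItemOK q N B Q G Z ϖ) {ρ ρ' : ℕ → L}
  (h1 : Good1 q B N G Z ρ ρ')
include hq hcard hI h1

theorem item_den_ne (i : ℕ) : ∀ z ∈ Z,
    ∑ e ∈ range B, algebraMap L k (ρ e) ^ q ^ i * dv N z G e ≠ 0 := by
  induction i with
  | zero =>
    intro z hz
    simpa using h1.1 z hz
  | succ i ih =>
    intro z hz
    obtain ⟨z', hz', rfl⟩ := xn1_surj hI.maps hI.inj hz
    obtain ⟨c, hc0, hc⟩ := hI.frob z' hz'
    intro h0
    have h2 := xn1_comb hq hc ρ i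
    rw [h0, mul_zero] at h2
    exact ih z' hz' (eq_zero_of_pow_eq_zero h2)

theorem item_v_frob (i : ℕ) : ∀ z ∈ Z,
    vfun q B N G ρ ρ' i z ^ q = vfun q B N G ρ ρ' (i + 1) (ϖ z) := by
  intro z hz
  obtain ⟨c, hc0, hc⟩ := hI.frob z hz
  unfold vfun
  rw [div_pow, xn1_comb hq hc ρ i, xn1_comb hq hc ρ' i, mul_div_mul_left _ _ hc0]

theorem item_v_period (i : ℕ) : ∀ z ∈ Z,
    vfun q B N G ρ ρ' (i + E) z = vfun q B N G ρ ρ' i z := by
  intro z hz
  have h2 : ∀ a : L, algebraMap L k a ^ q ^ (i + E) = algebraMap L k a ^ q ^ i := by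
    intro a
    rw [← map_pow, ← map_pow]
    congr 1
    rw [add_comm, pow_add, pow_mul, ← hcard, FiniteField.pow_card]
  unfold vfun
  simp only [h2]

theorem item_v_inj (i : ℕ) : Set.InjOn (vfun q B N G ρ ρ' i) (Z : Set k) := by
  induction i with
  | zero => exact h1.2
  | succ i ih =>
    intro x hx y hy hxy
    obtain ⟨z, hz, rfl⟩ := xn1_surj hI.maps hI.inj (Finset.mem_coe.1 hx)
    obtain ⟨z', hz', rfl⟩ := xn1_surj hI.maps hI.inj (Finset.mem_coe.1 hy)
    rw [← item_v_frob hq hcard hI h1 i z hz, ← item_v_frob hq hcard hI h1 i z' hz'] at hxy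
    have h2 : vfun q B N G ρ ρ' i z = vfun q B N G ρ ρ' i z' := by
      apply iterateFrobenius_inj k p r
      rw [iterateFrobenius_def, iterateFrobenius_def, ← hq]
      exact hxy
    rw [ih (Finset.mem_coe.2 hz) (Finset.mem_coe.2 hz') h2]

/-- the values of the normalised coefficients -/
theorem item_norm {ν : ℕ} (hν : ν < B) {z : k} (hz : z ∈ Z) (h0 : dv N z G ν ≠ 0) {e : ℕ}
    (he : e < B) : dv N (ϖ z) G ν ≠ 0 ∧
      (dv N z G e / dv N z G ν) ^ q = dv N (ϖ z) G e / dv N (ϖ z) G ν := by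
  obtain ⟨c, hc0, hc⟩ := hI.frob z hz
  refine ⟨?_, ?_⟩
  · intro h2
    have h3 := hc ν hν
    rw [h2, mul_zero] at h3
    exact h0 (eq_zero_of_pow_eq_zero h3)
  · rw [div_pow, hc e he, hc ν hν, mul_div_mul_left _ _ hc0]

end XN1

end Pool.Agent.AbsIrr
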