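import Mathlib
import Pool.Agent.Lib.MP_2adc98_lc.XDefs

/-!
# MP_2adc98_lc, piece XM3: counting zeros of linear forms; the two functionals
-/

set_option autoImplicit false

namespace Pool.Agent.AbsIrr

open Finset Polynomial

/-- counting with a pivot coordinate that is determined by the other coordinates -/
private theorem xm3_pivot {L : Type} {ι : Type} [Fintype ι] [DecidableEq ι] (S : Finset L)
    (P : (ι → L) → Prop) [DecidablePred P] (piv : (ι → L) → ι) (hpiv : ∀ x s, P x → piv (Function.update x (piv x) s) = piv x)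
    (huniq : ∀ x x', P x → P x' → piv x = piv x' → (∀ j, j ≠ piv x → x j = x' j) → x = x') :
    ((Fintype.piFinset fun _ : ι => S).filter P).card * S.card ≤ S.card ^ Fintype.card ι := by
  have h1 : (((Fintype.piFinset fun _ : ι => S).filter P) ×ˢ S).card ≤
      (Fintype.piFinset fun _ : ι => S).card := by
    refine Finset.card_le_card_of_injOn (fun p => Function.update p.1 (piv p.1) p.2) ?_ ?_
    · intro p hp
      have hp' := Finset.mem_product.1 (Finset.mem_coe.1 hp)
      have h2 := Fintype.mem_piFinset.1 (Finset.mem_filter.1 hp'.1).1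
      apply Finset.mem_coe.2
      rw [Fintype.mem_piFinset]
      intro j
      by_cases hj : j = piv p.1
      · subst hj
        simp only [Function.update_self]
        exact hp'.2
      · simp only [Function.update_of_ne hj]
        exact h2 j
    · rintro ⟨x, s⟩ hp ⟨x', s'⟩ hp' heq
      have hx := (Finset.mem_filter.1 (Finset.mem_product.1 (Finset.mem_coe.1 hp)).1).2
      have hx' := (Finset.mem_filter.1 (Finset.mem_product.1 (Finset.mem_coe.1 hp')).1).2
      simp only at heq hx hx'
      have hpp : piv x = piv x' := by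
        rw [← hpiv x s hx, heq, hpiv x' s' hx']
      have hs : s = s' := by
        have h3 := congrFun heq (piv x)
        rw [Function.update_self, hpp, Function.update_self] at h3
        exact h3
      have hxx : x = x' := by
        apply huniq x x' hx hx' hpp
        intro j hj
        have h3 := congrFun heq j
        rw [Function.update_of_ne hj, Function.update_of_ne (by rw [← hpp]; exact hj)] at h3
        exact h3
      rw [hs, hxx]
  rw [Finset.card_product, Fintype.card_piFinset] at h1
  simpa using h1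

private theorem xm3_lin {L : Type} [Field L] {k : Type} [Field k] [Algebra L k] {ι : Type}
    [Fintype ι] [DecidableEq ι] (S : Finset L) (θ : ι → k) (hθ : ∃ i, θ i ≠ 0) (c : k)
    (P : (ι → L) → Prop) [DecidablePred P] (hP : ∀ x, P x ↔ ∑ i, algebraMap L k (x i) * θ i = c) :
    ((Fintype.piFinset fun _ : ι => S).filter P).card * S.card ≤ S.card ^ Fintype.card ι := by
  obtain ⟨i₀, hi₀⟩ := hθ
  refine xm3_pivot S P (fun _ => i₀) (fun _ _ _ => rfl) ?_
  intro x x' hx hx' _ hj
  rw [hP] at hx hx'
  funext j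
  by_cases h : j = i₀
  · subst h
    rw [← hx'] at hx
    rw [← Finset.add_sum_erase _ _ (Finset.mem_univ j),
      ← Finset.add_sum_erase Finset.univ (fun i => algebraMap L k (x' i) * θ i)
        (Finset.mem_univ j)] at hx
    have h2 : ∑ i ∈ Finset.univ.erase j, algebraMap L k (x i) * θ i =
        ∑ i ∈ Finset.univ.erase j, algebraMap L k (x' i) * θ i := by
      apply Finset.sum_congr rfl
      intro i hi
      rw [hj i (Finset.mem_erase.1 hi).1]
    rw [h2] at hx
    exact (algebraMap L k).injective (mul_right_cancel₀ hi₀ (add_right_cancel hx))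
  · exact hj j h

open Classical in
theorem count_lin {L : Type} [Field L] {k : Type} [Field k] [Algebra L k] {ι : Type} [Fintype ι]
    (S : Finset L) (θ : ι → k) (hθ : ∃ i, θ i ≠ 0) (c : k) :
    ((Fintype.piFinset fun _ : ι => S).filter fun x =>
      ∑ i, algebraMap L k (x i) * θ i = c).card * S.card ≤ S.card ^ Fintype.card ι :=
  xm3_lin S θ hθ c _ (fun _ => Iff.rfl)

open Classical in
theorem count_functional {L : Type} [Field L] {k : Type} [Field k] [Algebra L k] (B : ℕ)
    (Z : Finset k) (Φ : k → ℕ → k) (h0 : ∀ z ∈ Z, ∃ e < B, Φ z e ≠ 0)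
    (h1 : ∀ z ∈ Z, ∀ z' ∈ Z, z ≠ z' → ∀ x y : k, (∀ e < B, x * Φ z e = y * Φ z' e) →
      x = 0 ∧ y = 0) (S : Finset L) :
    ((Fintype.piFinset fun _ : Fin B ⊕ Fin B => S).filter fun x =>
      ¬ ((∀ z ∈ Z, ∑ e : Fin B, algebraMap L k (x (.inl e)) * Φ z e ≠ 0) ∧
        Set.InjOn (fun z => (∑ e : Fin B, algebraMap L k (x (.inr e)) * Φ z e) /
          ∑ e : Fin B, algebraMap L k (x (.inl e)) * Φ z e) Z)).card * S.card ≤
      (Z.card + Z.card ^ 2) * S.card ^ (B + B) := by
  set Dn : (Fin B ⊕ Fin B → L) → k → k := fun x z =>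
    ∑ e : Fin B, algebraMap L k (x (.inl e)) * Φ z e with hDn
  set Nm : (Fin B ⊕ Fin B → L) → k → k := fun x z =>
    ∑ e : Fin B, algebraMap L k (x (.inr e)) * Φ z e with hNm
  have hcard : Fintype.card (Fin B ⊕ Fin B) = B + B := by simp
  -- a vanishing denominator
  have hA : ∀ z ∈ Z, ((Fintype.piFinset fun _ : Fin B ⊕ Fin B => S).filter fun x =>
      Dn x z = 0).card * S.card ≤ S.card ^ (B + B) := by
    intro z hz
    obtain ⟨e, he, hne⟩ := h0 z hz
    have h2 := xm3_lin (L := L) S (Sum.elim (fun e : Fin B => Φ z e) (fun _ : Fin B => 0))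
      ⟨Sum.inl ⟨e, he⟩, hne⟩ 0 (fun x => Dn x z = 0) (fun x => by
        simp only [hDn, Fintype.sum_sum_type, Sum.elim_inl, Sum.elim_inr, mul_zero,
          Finset.sum_const_zero, add_zero])
    rw [hcard] at h2
    exact h2
  -- a collision
  have hC : ∀ z ∈ Z, ∀ z' ∈ Z, z ≠ z' →
      ((Fintype.piFinset fun _ : Fin B ⊕ Fin B => S).filter fun x =>
        Dn x z ≠ 0 ∧ Dn x z' ≠ 0 ∧ Nm x z / Dn x z = Nm x z' / Dn x z').card * S.card ≤
      S.card ^ (B + B) := by
    intro z hz z' hz' hne
    obtain ⟨e, he, -⟩ := h0 z hz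
    have hB : 0 < B := by omega
    set co : (Fin B ⊕ Fin B → L) → Fin B → k := fun x e =>
      Dn x z' * Φ z e - Dn x z * Φ z' e with hco
    set piv : (Fin B ⊕ Fin B → L) → Fin B ⊕ Fin B := fun x =>
      if hx : ∃ e : Fin B, co x e ≠ 0 then Sum.inr (Classical.choose hx) else Sum.inr ⟨0, hB⟩
      with hpiv
    have hex : ∀ x, Dn x z ≠ 0 → ∃ e : Fin B, co x e ≠ 0 := by
      intro x hx
      by_contra hcon
      push Not at hcon
      have h3 := h1 z hz z' hz' hne (Dn x z') (Dn x z) (fun e he => by
        have := hcon ⟨e, he⟩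
        rw [hco] at this
        simp only at this
        exact sub_eq_zero.1 this)
      exact hx h3.2
    have hDup : ∀ x (s : L) (e : Fin B) (w : k),
        Dn (Function.update x (Sum.inr e) s) w = Dn x w := by
      intro x s e w
      rw [hDn]
      simp only
      apply Finset.sum_congr rfl
      intro j _
      rw [Function.update_of_ne (by simp)]
    have hinr : ∀ x, ∃ e : Fin B, piv x = Sum.inr e := by
      intro x
      rw [hpiv]
      simp only
      split_ifs with hx
      · exact ⟨_, rfl⟩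
      · exact ⟨_, rfl⟩
    have hcoc : ∀ x x', (∀ w, Dn x w = Dn x' w) → piv x = piv x' := by
      intro x x' hxx
      have h4 : co x = co x' := by
        funext e
        rw [hco]
        simp only
        rw [hxx, hxx]
      rw [hpiv]
      simp only
      rw [h4]
    have h5 := xm3_pivot S (fun x => Dn x z ≠ 0 ∧ Dn x z' ≠ 0 ∧
      Nm x z / Dn x z = Nm x z' / Dn x z') piv (fun x s _ => by
        obtain ⟨e, he⟩ := hinr x
        have h9 := hcoc _ x (fun w => hDup x s e w)
        rw [he] at h9 ⊢
        exact h9) (by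
      intro x x' hx hx' hp hj
      have hDD : ∀ w, Dn x w = Dn x' w := by
        intro w
        rw [hDn]
        simp only
        apply Finset.sum_congr rfl
        intro j _
        obtain ⟨e, he⟩ := hinr x
        rw [hj (Sum.inl j) (by rw [he]; simp)]
      have hpe : ∃ e : Fin B, piv x = Sum.inr e ∧ co x e ≠ 0 := by
        have hx3 := hex x hx.1
        refine ⟨Classical.choose hx3, ?_, Classical.choose_spec hx3⟩
        rw [hpiv]
        simp only
        rw [dif_pos hx3]
      obtain ⟨e, he, hce⟩ := hpe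
      -- the linear equation
      have heq : ∀ y, (Dn y z ≠ 0 ∧ Dn y z' ≠ 0 ∧ Nm y z / Dn y z = Nm y z' / Dn y z') →
          ∑ i : Fin B, algebraMap L k (y (.inr i)) * co y i = 0 := by
        intro y hy
        have h6 := hy.2.2
        rw [div_eq_div_iff hy.1 hy.2.1] at h6
        rw [hco]
        simp only
        have h7 : ∀ i : Fin B, algebraMap L k (y (.inr i)) *
            (Dn y z' * Φ z i - Dn y z * Φ z' i) =
            (algebraMap L k (y (.inr i)) * Φ z i) * Dn y z' -
            (algebraMap L k (y (.inr i)) * Φ z' i) * Dn y z := fun i => by ring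
        rw [Finset.sum_congr rfl (fun i _ => h7 i), Finset.sum_sub_distrib, ← Finset.sum_mul,
          ← Finset.sum_mul]
        exact sub_eq_zero.2 h6
      have e1 := heq x hx
      have e2 := heq x' hx'
      have hcc : co x' = co x := by
        funext i
        rw [hco]
        simp only
        rw [hDD, hDD]
      rw [hcc] at e2
      rw [← e2] at e1
      rw [← Finset.add_sum_erase _ _ (Finset.mem_univ e),
        ← Finset.add_sum_erase Finset.univ (fun i : Fin B => algebraMap L k (x' (.inr i)) * co x i)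
          (Finset.mem_univ e)] at e1
      have e3 : ∑ i ∈ Finset.univ.erase e, algebraMap L k (x (.inr i)) * co x i =
          ∑ i ∈ Finset.univ.erase e, algebraMap L k (x' (.inr i)) * co x i := by
        apply Finset.sum_congr rfl
        intro i hi
        rw [hj (Sum.inr i) (by
          rw [he]
          intro h8
          exact (Finset.mem_erase.1 hi).1 (Sum.inr.inj h8))]
      rw [e3] at e1
      have e4 : x (Sum.inr e) = x' (Sum.inr e) :=
        (algebraMap L k).injective (mul_right_cancel₀ hce (add_right_cancel e1))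
      funext j
      by_cases hje : j = piv x
      · rw [hje, he]
        exact e4
      · exact hj j hje)
    rw [hcard] at h5
    exact h5
  -- the union bound
  set bad := (Fintype.piFinset fun _ : Fin B ⊕ Fin B => S).filter fun x =>
      ¬ ((∀ z ∈ Z, Dn x z ≠ 0) ∧ Set.InjOn (fun z => Nm x z / Dn x z) Z) with hbad
  have hsub : bad ⊆ (Z.biUnion fun z => (Fintype.piFinset fun _ : Fin B ⊕ Fin B => S).filter
      fun x => Dn x z = 0) ∪ (Z.offDiag.biUnion fun p =>
        (Fintype.piFinset fun _ : Fin B ⊕ Fin B => S).filter fun x =>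
        Dn x p.1 ≠ 0 ∧ Dn x p.2 ≠ 0 ∧ Nm x p.1 / Dn x p.1 = Nm x p.2 / Dn x p.2) := by
    intro x hx
    rw [hbad, Finset.mem_filter] at hx
    obtain ⟨hxS, hx⟩ := hx
    rw [Finset.mem_union, Finset.mem_biUnion, Finset.mem_biUnion]
    by_cases hall : ∀ z ∈ Z, Dn x z ≠ 0
    · right
      have hni : ¬ Set.InjOn (fun z => Nm x z / Dn x z) Z := fun h => hx ⟨hall, h⟩
      rw [Set.InjOn] at hni
      push Not at hni
      obtain ⟨z, hz, z', hz', heq, hne⟩ := hni
      exact ⟨(z, z'), Finset.mem_offDiag.2 ⟨hz, hz', hne⟩, Finset.mem_filter.2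
        ⟨hxS, hall z hz, hall z' hz', heq⟩⟩
    · left
      push Not at hall
      obtain ⟨z, hz, hz0⟩ := hall
      exact ⟨z, hz, Finset.mem_filter.2 ⟨hxS, hz0⟩⟩
  have hc1 := (Finset.card_le_card hsub).trans (Finset.card_union_le _ _)
  have hc2 := Finset.card_biUnion_le (s := Z) (t := fun z =>
    (Fintype.piFinset fun _ : Fin B ⊕ Fin B => S).filter fun x => Dn x z = 0)
  have hc3 := Finset.card_biUnion_le (s := Z.offDiag) (t := fun p =>
        (Fintype.piFinset fun _ : Fin B ⊕ Fin B => S).filter fun x =>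
        Dn x p.1 ≠ 0 ∧ Dn x p.2 ≠ 0 ∧ Nm x p.1 / Dn x p.1 = Nm x p.2 / Dn x p.2)
  have hd2 : (∑ z ∈ Z, ((Fintype.piFinset fun _ : Fin B ⊕ Fin B => S).filter fun x =>
      Dn x z = 0).card) * S.card ≤ Z.card * S.card ^ (B + B) := by
    rw [Finset.sum_mul]
    refine (Finset.sum_le_sum hA).trans ?_
    rw [Finset.sum_const, smul_eq_mul]
  have hd3 : (∑ p ∈ Z.offDiag, ((Fintype.piFinset fun _ : Fin B ⊕ Fin B => S).filter fun x =>
        Dn x p.1 ≠ 0 ∧ Dn x p.2 ≠ 0 ∧ Nm x p.1 / Dn x p.1 = Nm x p.2 / Dn x p.2).card) *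
        S.card ≤ Z.card ^ 2 * S.card ^ (B + B) := by
    rw [Finset.sum_mul]
    refine (Finset.sum_le_sum (g := fun _ => S.card ^ (B + B)) ?_).trans ?_
    · intro p hp
      have hp' := Finset.mem_offDiag.1 hp
      exact hC p.1 hp'.1 p.2 hp'.2.1 hp'.2.2
    · rw [Finset.sum_const, smul_eq_mul]
      apply Nat.mul_le_mul_right
      rw [Finset.offDiag_card, sq]
      exact Nat.sub_le _ _
  have hfin : bad.card * S.card ≤ (Z.card + Z.card ^ 2) * S.card ^ (B + B) := by
   calc bad.card * S.card ≤ ((∑ z ∈ Z, ((Fintype.piFinset fun _ : Fin B ⊕ Fin B => S).filter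
        fun x => Dn x z = 0).card) + ∑ p ∈ Z.offDiag, ((Fintype.piFinset
        fun _ : Fin B ⊕ Fin B => S).filter fun x =>
        Dn x p.1 ≠ 0 ∧ Dn x p.2 ≠ 0 ∧ Nm x p.1 / Dn x p.1 = Nm x p.2 / Dn x p.2).card) *
        S.card := Nat.mul_le_mul_right _ (hc1.trans (Nat.add_le_add hc2 hc3))
    _ ≤ Z.card * S.card ^ (B + B) + Z.card ^ 2 * S.card ^ (B + B) := by
        rw [Nat.add_mul]
        exact Nat.add_le_add hd2 hd3
    _ = (Z.card + Z.card ^ 2) * S.card ^ (B + B) := by ring
  have hgen : ∀ (P : (Fin B ⊕ Fin B → L) → Prop) (_ : DecidablePred P), (∀ x, P x ↔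
      ¬ ((∀ z ∈ Z, Dn x z ≠ 0) ∧ Set.InjOn (fun z => Nm x z / Dn x z) Z)) →
      ((Fintype.piFinset fun _ : Fin B ⊕ Fin B => S).filter P).card * S.card ≤
        (Z.card + Z.card ^ 2) * S.card ^ (B + B) := by
    intro P _ hP
    have h9 : (Fintype.piFinset fun _ : Fin B ⊕ Fin B => S).filter P = bad := by
      rw [hbad]
      apply Finset.ext
      intro x
      simp only [Finset.mem_filter, hP]
    rw [h9]
    exact hfin
  exact hgen _ _ (fun _ => Iff.rfl)

end Pool.Agent.AbsIrr
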