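import Mathlib
import Pool.Agent.Lib.MP_2adc98_lc.XDefs
import Pool.Agent.Lib.MP_2adc98_lc.XM2

/-!
# MP_2adc98_lc, piece XM4: the functions constant on the orbits
-/

set_option autoImplicit false

namespace Pool.Agent.AbsIrr

open Finset Polynomial

private theorem xm4_iter_mem {k : Type} {Z : Finset k} {ϖ : k → k} (hϖ : ∀ z ∈ Z, ϖ z ∈ Z)
    (i : ℕ) {z : k} (hz : z ∈ Z) : ϖ^[i] z ∈ Z := by
  induction i with
  | zero => exact hz
  | succ i ih => rw [Function.iterate_succ_apply']; exact hϖ _ ih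

private theorem xm4_iter_inj {k : Type} {Z : Finset k} {ϖ : k → k} (hϖ : ∀ z ∈ Z, ϖ z ∈ Z)
    (hinj : Set.InjOn ϖ Z) (i : ℕ) : Set.InjOn ϖ^[i] Z := by
  induction i with
  | zero => intro x _ y _ h; exact h
  | succ i ih =>
    intro x hx y hy h
    rw [Function.iterate_succ_apply', Function.iterate_succ_apply'] at h
    exact ih hx hy (hinj (xm4_iter_mem hϖ i hx) (xm4_iter_mem hϖ i hy) h)

private theorem xm4_period {k : Type} {Z : Finset k} {ϖ : k → k} (hϖ : ∀ z ∈ Z, ϖ z ∈ Z)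
    (hinj : Set.InjOn ϖ Z) {z₀ : k} (hz₀ : z₀ ∈ Z) : ∃ s, 0 < s ∧ ϖ^[s] z₀ = z₀ := by
  have hni : ¬ Function.Injective (fun i : ℕ => (⟨ϖ^[i] z₀, xm4_iter_mem hϖ i hz₀⟩ : Z)) :=
    not_injective_infinite_finite _
  rw [Function.Injective] at hni
  push Not at hni
  obtain ⟨a, b, hab, hne⟩ := hni
  have hab' : ϖ^[a] z₀ = ϖ^[b] z₀ := congrArg Subtype.val hab
  wlog hlt : a < b generalizing a b
  · exact this b a hab.symm (Ne.symm hne) hab'.symm (by omega)
  refine ⟨b - a, by omega, ?_⟩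
  have h1 : ϖ^[b] z₀ = ϖ^[a] (ϖ^[b - a] z₀) := by
    rw [← Function.iterate_add_apply]
    congr 1
    omega
  rw [h1] at hab'
  exact (xm4_iter_inj hϖ hinj a hz₀ (xm4_iter_mem hϖ _ hz₀) hab').symm

/-- an orbit is stable under the permutation and its inverse -/
private theorem xm4_orbit {k : Type} {Z : Finset k} {ϖ : k → k} (hϖ : ∀ z ∈ Z, ϖ z ∈ Z)
    (hinj : Set.InjOn ϖ Z) {z w : k} (hz : z ∈ Z) (hw : w ∈ Z) :
    (∃ i, ϖ^[i] z = ϖ w) ↔ ∃ i, ϖ^[i] z = w := by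
  constructor
  · rintro ⟨i, hi⟩
    obtain ⟨s, hs0, hs⟩ := xm4_period hϖ hinj hz
    refine ⟨i + s - 1, ?_⟩
    have h3 : ϖ (ϖ^[i + s - 1] z) = ϖ w := by
      rw [← Function.iterate_succ_apply' ϖ (i + s - 1) z, ← hi]
      have h4 : (i + s - 1).succ = i + s := by omega
      rw [h4, Function.iterate_add_apply, hs]
    exact hinj (xm4_iter_mem hϖ _ hz) hw h3
  · rintro ⟨i, hi⟩
    exact ⟨i + 1, by rw [Function.iterate_succ_apply', hi]⟩

section XM4
variable {L : Type} [Field L] {k : Type} [Field k] [Algebra L k] {q E : ℕ} (σ : k →+* k)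
    (hσ : ∀ x, σ x = x ^ q) (hfix : ∀ x, σ^[E] x = x → x ∈ Set.range (algebraMap L k))
    (hfix' : ∀ x : L, σ^[E] (algebraMap L k x) = algebraMap L k x) {Z : Finset k} {ϖ : k → k}
    (hϖ : ∀ z ∈ Z, ϖ z ∈ Z) (hinj : Set.InjOn ϖ Z) {v₀ v₁ : k → k} (hv : Set.InjOn v₁ Z)
    (h01 : ∀ z ∈ Z, σ (v₀ z) = v₁ (ϖ z)) (h1E : ∀ z ∈ Z, σ^[E] (v₁ z) = v₁ (ϖ^[E] z))
include hσ hfix hfix' hϖ hinj hv h01 h1E

/-- a function in the kernel is constant on the orbits, with values in `L` -/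
theorem ker_const {β : ℕ → L} (hβ : ∀ z ∈ Z, ∑ j ∈ range Z.card,
      algebraMap L k (β j) * v₀ z ^ (q * j) =
        ∑ j ∈ range Z.card, algebraMap L k (β j) * v₁ z ^ j) :
    ∀ z ∈ Z, (∑ j ∈ range Z.card, algebraMap L k (β j) * v₁ (ϖ z) ^ j =
      ∑ j ∈ range Z.card, algebraMap L k (β j) * v₁ z ^ j) ∧
      ∑ j ∈ range Z.card, algebraMap L k (β j) * v₁ z ^ j ∈ Set.range (algebraMap L k) := by
  have hstep : ∀ z ∈ Z, (∑ j ∈ range Z.card, algebraMap L k (β j) * v₁ (ϖ z) ^ j =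
      ∑ j ∈ range Z.card, algebraMap L k (β j) * v₁ z ^ j) := by
    intro z hz
    rw [← hβ z hz]
    apply Finset.sum_congr rfl
    intro j _
    rw [pow_mul, ← hσ, h01 z hz]
  have hiter : ∀ i, ∀ z ∈ Z, (∑ j ∈ range Z.card, algebraMap L k (β j) * v₁ (ϖ^[i] z) ^ j =
      ∑ j ∈ range Z.card, algebraMap L k (β j) * v₁ z ^ j) := by
    intro i z hz
    induction i with
    | zero => rfl
    | succ i ih => rw [Function.iterate_succ_apply', hstep _ (xm4_iter_mem hϖ i hz), ih]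
  intro z hz
  refine ⟨hstep z hz, hfix _ ?_⟩
  rw [← RingHom.coe_pow, map_sum]
  rw [← hiter E z hz]
  apply Finset.sum_congr rfl
  intro j _
  rw [map_mul, map_pow, RingHom.coe_pow, hfix', h1E _ hz]

/-- the kernel separates the orbits -/
theorem ker_sep {z z' : k} (hz : z ∈ Z) (hz' : z' ∈ Z) (hne : ∀ i, ϖ^[i] z ≠ z') :
    ∃ β : ℕ → L, (∀ z ∈ Z, ∑ j ∈ range Z.card, algebraMap L k (β j) * v₀ z ^ (q * j) =
        ∑ j ∈ range Z.card, algebraMap L k (β j) * v₁ z ^ j) ∧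
      ∑ j ∈ range Z.card, algebraMap L k (β j) * v₁ z ^ j ≠
        ∑ j ∈ range Z.card, algebraMap L k (β j) * v₁ z' ^ j := by
  classical
  set η : k → k := fun w => if ∃ i, ϖ^[i] z = w then 1 else 0 with hη
  have hη1 : ∀ w ∈ Z, η (ϖ w) = η w := by
    intro w hw
    rw [hη]
    simp only
    simp only [xm4_orbit hϖ hinj hz hw]
  have hηi : ∀ i, ∀ w ∈ Z, η (ϖ^[i] w) = η w := by
    intro i w hw
    induction i with
    | zero => rfl
    | succ i ih => rw [Function.iterate_succ_apply', hη1 _ (xm4_iter_mem hϖ i hw), ih]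
  have hητ : ∀ w, (σ ^ E) (η w) = η w := by
    intro w
    rw [hη]
    simp only
    split_ifs
    · exact map_one _
    · exact map_zero _
  obtain ⟨β, hβ⟩ := interp_descent (L := L) (σ ^ E)
    (fun x hx => hfix x (by rw [← RingHom.coe_pow]; exact hx))
    (fun x => by rw [RingHom.coe_pow]; exact hfix' x) Z ϖ^[E]
    (fun z hz => xm4_iter_mem hϖ E hz) (xm4_iter_inj hϖ hinj E) v₁ η hv
    (fun w hw => by rw [RingHom.coe_pow]; exact h1E w hw)
    (fun w hw => by rw [hητ, hηi E w hw])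
  refine ⟨β, ?_, ?_⟩
  · intro w hw
    have e1 : ∑ j ∈ range Z.card, algebraMap L k (β j) * v₀ w ^ (q * j) =
        ∑ j ∈ range Z.card, algebraMap L k (β j) * v₁ (ϖ w) ^ j := by
      apply Finset.sum_congr rfl
      intro j _
      rw [pow_mul, ← hσ, h01 w hw]
    rw [e1, ← hβ _ (hϖ w hw), ← hβ w hw, hη1 w hw]
  · rw [← hβ z hz, ← hβ z' hz']
    have e2 : η z = 1 := by
      rw [hη]
      simp only
      rw [if_pos ⟨0, rfl⟩]
    have e3 : η z' = 0 := by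
      rw [hη]
      simp only
      rw [if_neg]
      rintro ⟨i, hi⟩
      exact hne i hi
    rw [e2, e3]
    exact one_ne_zero
end XM4

end Pool.Agent.AbsIrr
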