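import Mathlib
import Pool.Agent.Lib.MP_2adc98_lc.XItem
import Pool.Agent.Lib.MP_2adc98_lc.XM3
import Pool.Agent.Lib.MP_2adc98_lc.XM4

/-!
# MP_2adc98_lc, piece XN2: counting for `Good1` and `Good2`
-/

set_option autoImplicit false

namespace Pool.Agent.AbsIrr

open Finset Polynomial

private theorem xn2_tape {L : Type} [Zero L] {m : ℕ} (ω : Fin m → L) (i : Fin m) :
    tape ω (i : ℕ) = ω i := by
  unfold tape
  rw [dif_pos i.2]

private theorem xn2_mono {α : Type} (s : Finset α) (P Q : α → Prop) (hP : DecidablePred P)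
    (hQ : DecidablePred Q) (h : ∀ x, P x → Q x) :
    (@Finset.filter α P hP s).card ≤ (@Finset.filter α Q hQ s).card := by
  apply card_le_card
  intro x hx
  rw [mem_filter] at hx ⊢
  exact ⟨hx.1, h x hx.2⟩

open Classical in
theorem count_good1 {L : Type} [Field L] {k : Type} [Field k] [Algebra L k] {q N B : ℕ}
    {Q G : ℕ → L} {Z : Finset k} {ϖ : k → k} (hI : ItemOK q N B Q G Z ϖ) (S : Finset L) :
    ((Fintype.piFinset fun _ : Fin B ⊕ Fin B => S).filter fun x =>
      ¬ Good1 q B N G Z (tape fun e => x (.inl e)) (tape fun e => x (.inr e))).card * S.card ≤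
      (Z.card + Z.card ^ 2) * S.card ^ (B + B) := by
  have h := count_functional (L := L) B Z (fun z e => dv N z G e) hI.ne hI.indep S
  have key : ∀ x : Fin B ⊕ Fin B → L,
      (Good1 q B N G Z (tape fun e => x (.inl e)) (tape fun e => x (.inr e))) ↔
      ((∀ z ∈ Z, ∑ e : Fin B, algebraMap L k (x (.inl e)) * dv N z G e ≠ 0) ∧
        Set.InjOn (fun z => (∑ e : Fin B, algebraMap L k (x (.inr e)) * dv N z G e) /
          ∑ e : Fin B, algebraMap L k (x (.inl e)) * dv N z G e) Z) := by
    intro x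
    have e1 : ∀ (y : Fin B → L) (z : k), ∑ e ∈ range B, algebraMap L k (tape y e) * dv N z G e =
        ∑ e : Fin B, algebraMap L k (y e) * dv N z G e := by
      intro y z
      rw [Finset.sum_range]
      refine Finset.sum_congr rfl fun e _ => ?_
      rw [xn2_tape]
    have e2 : vfun q B N G (tape fun e => x (.inl e)) (tape fun e => x (.inr e)) 0 =
        fun z : k => (∑ e : Fin B, algebraMap L k (x (.inr e)) * dv N z G e) /
          ∑ e : Fin B, algebraMap L k (x (.inl e)) * dv N z G e := by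
      funext z
      unfold vfun
      simp only [pow_zero, pow_one]
      rw [e1, e1]
    unfold Good1
    rw [e2]
    simp only [e1]
  refine le_trans (Nat.mul_le_mul_right _ ?_) h
  apply xn2_mono
  intro x hx hc
  exact hx ((key x).2 hc)

/-- elements fixed by `x ↦ x ^ |L|` come from `L` -/
private theorem xn2_fixed {L : Type} [Field L] [Fintype L] {k : Type} [Field k] [Algebra L k]
    {x : k} (hx : x ^ Fintype.card L = x) : x ∈ Set.range (algebraMap L k) := by
  classical
  have h1 : 1 < Fintype.card L := Fintype.one_lt_card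
  have hmem : ∀ y : k, y ∈ (X ^ Fintype.card L - X : k[X]).roots.toFinset ↔
      y ^ Fintype.card L = y := by
    intro y
    rw [Multiset.mem_toFinset, mem_roots (FiniteField.X_pow_card_sub_X_ne_zero k h1), IsRoot,
      eval_sub, eval_pow, eval_X, sub_eq_zero]
  have hsub : (univ : Finset L).image (algebraMap L k) ⊆
      (X ^ Fintype.card L - X : k[X]).roots.toFinset := by
    intro y hy
    rw [mem_image] at hy
    obtain ⟨a, _, rfl⟩ := hy
    rw [hmem, ← map_pow, FiniteField.pow_card]
  have hcard : (X ^ Fintype.card L - X : k[X]).roots.toFinset.card ≤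
      ((univ : Finset L).image (algebraMap L k)).card := by
    rw [card_image_of_injective _ (algebraMap L k).injective, card_univ]
    refine (Multiset.toFinset_card_le _).trans ?_
    refine (card_roots' _).trans ?_
    rw [FiniteField.X_pow_card_sub_X_natDegree_eq k h1]
  have heq := Finset.eq_of_subset_of_card_le hsub hcard
  have hx' := (hmem x).2 hx
  rw [← heq, mem_image] at hx'
  obtain ⟨a, _, ha⟩ := hx'
  exact ⟨a, ha⟩

private theorem xn2_iter_mem {k : Type} {Z : Finset k} {ϖ : k → k} (hϖ : ∀ z ∈ Z, ϖ z ∈ Z)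
    (i : ℕ) {z : k} (hz : z ∈ Z) : ϖ^[i] z ∈ Z := by
  induction i with
  | zero => exact hz
  | succ i ih => rw [Function.iterate_succ_apply']; exact hϖ _ ih

private theorem xn2_vpow {k : Type} [Field k] {q : ℕ} {Z : Finset k} {ϖ : k → k}
    (hϖ : ∀ z ∈ Z, ϖ z ∈ Z) (v : ℕ → k → k)
    (h1 : ∀ i, ∀ z ∈ Z, v i z ^ q = v (i + 1) (ϖ z)) (a i : ℕ) {z : k}
    (hz : z ∈ Z) : v a z ^ q ^ i = v (a + i) (ϖ^[i] z) := by
  induction i with
  | zero => simp
  | succ i ih =>
    rw [pow_succ, pow_mul, ih, h1 _ _ (xn2_iter_mem hϖ i hz), Function.iterate_succ_apply']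
    rfl

/-- the combination `∑ i, s i * θ i j` of the kernel vectors -/
private theorem xn2_swap {L : Type} [Field L] {k : Type} [Field k] [Algebra L k] (N : ℕ)
    (s : ℕ → L) (θ : ℕ → ℕ → L) (c : ℕ → k) :
    ∑ i ∈ range N, ∑ j ∈ range N, algebraMap L k (s i * θ i j) * c j =
      ∑ j ∈ range N, algebraMap L k (∑ i ∈ range N, s i * θ i j) * c j := by
  rw [Finset.sum_comm]
  refine Finset.sum_congr rfl fun j _ => ?_
  rw [map_sum, Finset.sum_mul]

open Classical in
/-- `F` is the program of kerH_rlz, `h` its specification -/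
theorem count_good2 {L : Type} [Field L] [Fintype L] {k : Type} [Field k] [IsAlgClosed k]
    [Algebra L k] {p r q E N : ℕ} [Fact p.Prime] [CharP k p] (hq : q = p ^ r) (hr : 1 ≤ r)
    (hE : 1 ≤ E) (hcard : Fintype.card L = q ^ E) {Z : Finset k} (hZ : Z.card = N) {ϖ : k → k}
    (hϖ : ∀ z ∈ Z, ϖ z ∈ Z) (hinj : Set.InjOn ϖ Z) {v : ℕ → k → k}
    (hv : Set.InjOn (v 1) Z) (h1 : ∀ i, ∀ z ∈ Z, v i z ^ q = v (i + 1) (ϖ z))
    (h2 : ∀ z ∈ Z, v (E + 1) z = v 1 z) {θ : ℕ → ℕ → L}
    (h3 : ∀ i, ∀ z ∈ Z, ∑ j ∈ range N, algebraMap L k (θ i j) * v 0 z ^ (q * j) =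
          ∑ j ∈ range N, algebraMap L k (θ i j) * v 1 z ^ j)
    (h4 : ∀ β : ℕ → L, (∀ z ∈ Z, ∑ j ∈ range N, algebraMap L k (β j) * v 0 z ^ (q * j) =
          ∑ j ∈ range N, algebraMap L k (β j) * v 1 z ^ j) →
          ∃ s : ℕ → L, ∀ j < N, β j = ∑ i ∈ range N, s i * θ i j) (S : Finset L) :
    (∀ (s : ℕ → L), ∀ z ∈ Z,
      (∑ i ∈ range N, ∑ j ∈ range N, algebraMap L k (s i * θ i j) * v 1 (ϖ z) ^ j =
        ∑ i ∈ range N, ∑ j ∈ range N, algebraMap L k (s i * θ i j) * v 1 z ^ j) ∧
      ∑ i ∈ range N, ∑ j ∈ range N, algebraMap L k (s i * θ i j) * v 1 z ^ j ∈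
        Set.range (algebraMap L k)) ∧
    ((Fintype.piFinset fun _ : Fin N => S).filter fun s => ¬ Good2 Z ϖ (fun z =>
      ∑ i ∈ range N, ∑ j ∈ range N, algebraMap L k (tape s i * θ i j) * v 1 z ^ j)).card *
        S.card ≤ N ^ 2 * S.card ^ N := by
  subst hZ
  set σ : k →+* k := iterateFrobenius k p r with hσdef
  have hσ : ∀ x, σ x = x ^ q := by
    intro x
    rw [hσdef, iterateFrobenius_def, ← hq]
  have hσi : ∀ (i : ℕ) (x : k), σ^[i] x = x ^ q ^ i := by
    intro i
    induction i with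
    | zero => intro x; simp
    | succ i ih =>
      intro x
      rw [Function.iterate_succ_apply', ih, hσ, ← pow_mul, pow_succ]
  have hfix : ∀ x, σ^[E] x = x → x ∈ Set.range (algebraMap L k) := by
    intro x hx
    apply xn2_fixed
    rw [hcard, ← hσi]
    exact hx
  have hfix' : ∀ x : L, σ^[E] (algebraMap L k x) = algebraMap L k x := by
    intro x
    rw [hσi, ← map_pow, ← hcard, FiniteField.pow_card]
  have h01 : ∀ z ∈ Z, σ (v 0 z) = v 1 (ϖ z) := by
    intro z hz
    rw [hσ]
    exact h1 0 z hz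
  have h1E : ∀ z ∈ Z, σ^[E] (v 1 z) = v 1 (ϖ^[E] z) := by
    intro z hz
    rw [hσi, xn2_vpow hϖ v h1 1 E hz, add_comm 1 E]
    exact h2 _ (xn2_iter_mem hϖ E hz)
  have hker : ∀ (s : ℕ → L), ∀ z ∈ Z, ∑ j ∈ range Z.card,
      algebraMap L k (∑ i ∈ range Z.card, s i * θ i j) * v 0 z ^ (q * j) =
        ∑ j ∈ range Z.card, algebraMap L k (∑ i ∈ range Z.card, s i * θ i j) * v 1 z ^ j := by
    intro s z hz
    rw [← xn2_swap, ← xn2_swap]
    refine Finset.sum_congr rfl fun i _ => ?_
    have e1 : ∀ c : ℕ → k, ∑ j ∈ range Z.card, algebraMap L k (s i * θ i j) * c j =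
        algebraMap L k (s i) * ∑ j ∈ range Z.card, algebraMap L k (θ i j) * c j := by
      intro c
      rw [Finset.mul_sum]
      refine Finset.sum_congr rfl fun j _ => ?_
      rw [map_mul, mul_assoc]
    rw [e1, e1, h3 i z hz]
  refine ⟨?_, ?_⟩
  · intro s z hz
    rw [xn2_swap, xn2_swap]
    exact ker_const σ hσ hfix hfix' hϖ hinj hv h01 h1E (hker s) z hz
  · -- union bound
    set Hf : (Fin Z.card → L) → k → k := fun s z =>
      ∑ i : Fin Z.card, algebraMap L k (s i) *
        ∑ j ∈ range Z.card, algebraMap L k (θ i j) * v 1 z ^ j with hHf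
    have hH : ∀ (s : Fin Z.card → L) (z : k), ∑ i ∈ range Z.card, ∑ j ∈ range Z.card,
        algebraMap L k (tape s i * θ i j) * v 1 z ^ j = Hf s z := by
      intro s z
      rw [Finset.sum_range, hHf]
      refine Finset.sum_congr rfl fun i _ => ?_
      rw [xn2_tape, Finset.mul_sum]
      refine Finset.sum_congr rfl fun j _ => ?_
      rw [map_mul, mul_assoc]
    set Pr : Finset (k × k) := (Z ×ˢ Z).filter fun w => ∀ i, ϖ^[i] w.1 ≠ w.2 with hPr
    have hcov : ((Fintype.piFinset fun _ : Fin Z.card => S).filter fun s =>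
        ¬ Good2 Z ϖ (fun z => ∑ i ∈ range Z.card, ∑ j ∈ range Z.card,
          algebraMap L k (tape s i * θ i j) * v 1 z ^ j)) ⊆
        Pr.biUnion fun w => (Fintype.piFinset fun _ : Fin Z.card => S).filter fun s =>
          Hf s w.1 = Hf s w.2 := by
      intro s hs
      rw [mem_filter] at hs
      obtain ⟨hs1, hs2⟩ := hs
      unfold Good2 at hs2
      push Not at hs2
      obtain ⟨z, hz, z', hz', hne, heq⟩ := hs2
      rw [mem_biUnion]
      refine ⟨(z, z'), ?_, ?_⟩
      · rw [hPr, mem_filter, mem_product]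
        exact ⟨⟨hz, hz'⟩, hne⟩
      · rw [mem_filter]
        refine ⟨hs1, ?_⟩
        have h5 : (fun z => ∑ i ∈ range Z.card, ∑ j ∈ range Z.card,
          algebraMap L k (tape s i * θ i j) * v 1 z ^ j) z =
          (fun z => ∑ i ∈ range Z.card, ∑ j ∈ range Z.card,
          algebraMap L k (tape s i * θ i j) * v 1 z ^ j) z' := heq
        simp only at h5
        rw [hH, hH] at h5
        exact h5
    have hone : ∀ w ∈ Pr, ((Fintype.piFinset fun _ : Fin Z.card => S).filter fun s =>
          Hf s w.1 = Hf s w.2).card * S.card ≤ S.card ^ Z.card := by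
      rintro ⟨z, z'⟩ hw
      rw [hPr, mem_filter, mem_product] at hw
      obtain ⟨⟨hz, hz'⟩, hne⟩ := hw
      obtain ⟨β, hβ1, hβ2⟩ := ker_sep σ hσ hfix hfix' hϖ hinj hv h01 h1E hz hz' hne
      obtain ⟨s, hs⟩ := h4 β hβ1
      have hβs : ∀ y : k, ∑ j ∈ range Z.card, algebraMap L k (β j) * v 1 y ^ j =
          ∑ i : Fin Z.card, algebraMap L k (s i) *
            ∑ j ∈ range Z.card, algebraMap L k (θ i j) * v 1 y ^ j := by
        intro y
        have e1 : ∑ j ∈ range Z.card, algebraMap L k (β j) * v 1 y ^ j =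
            ∑ j ∈ range Z.card, algebraMap L k (∑ i ∈ range Z.card, s i * θ i j) *
              v 1 y ^ j := by
          refine Finset.sum_congr rfl fun j hj => ?_
          rw [hs j (mem_range.1 hj)]
        rw [e1, ← xn2_swap, Finset.sum_range]
        refine Finset.sum_congr rfl fun i _ => ?_
        rw [Finset.mul_sum]
        refine Finset.sum_congr rfl fun j _ => ?_
        rw [map_mul, mul_assoc]
      have hne0 : ∃ i : Fin Z.card,
          (∑ j ∈ range Z.card, algebraMap L k (θ i j) * v 1 z ^ j) -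
            (∑ j ∈ range Z.card, algebraMap L k (θ i j) * v 1 z' ^ j) ≠ 0 := by
        by_contra hc
        push Not at hc
        apply hβ2
        rw [hβs, hβs]
        refine Finset.sum_congr rfl fun i _ => ?_
        rw [sub_eq_zero.1 (hc i)]
      have h6 := count_lin S (fun i : Fin Z.card =>
          (∑ j ∈ range Z.card, algebraMap L k (θ i j) * v 1 z ^ j) -
            (∑ j ∈ range Z.card, algebraMap L k (θ i j) * v 1 z' ^ j)) hne0 0
      rw [Fintype.card_fin] at h6
      have h8 : ((Fintype.piFinset fun _ : Fin Z.card => S).filter fun x =>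
          ∑ i : Fin Z.card, algebraMap L k (x i) *
            ((∑ j ∈ range Z.card, algebraMap L k (θ i j) * v 1 z ^ j) -
            (∑ j ∈ range Z.card, algebraMap L k (θ i j) * v 1 z' ^ j)) = 0).card * S.card ≤
          S.card ^ Z.card := by
        refine le_trans (Nat.mul_le_mul_right _ (card_le_card fun x hx => ?_)) h6
        simp only [mem_filter, Fintype.mem_piFinset] at hx ⊢
        exact hx
      refine le_trans (Nat.mul_le_mul_right _ (card_le_card ?_)) h8
      intro s' hs'
      rw [mem_filter] at hs' ⊢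
      refine ⟨hs'.1, ?_⟩
      have h7 := sub_eq_zero.2 hs'.2
      rw [hHf] at h7
      simp only at h7
      rw [← Finset.sum_sub_distrib] at h7
      rw [← h7]
      refine Finset.sum_congr rfl fun i _ => ?_
      rw [mul_sub]
    have hPrcard : Pr.card ≤ Z.card ^ 2 := by
      rw [hPr, sq, ← card_product]
      exact card_filter_le _ _
    calc _ ≤ (∑ w ∈ Pr, ((Fintype.piFinset fun _ : Fin Z.card => S).filter fun s =>
          Hf s w.1 = Hf s w.2).card) * S.card :=
          Nat.mul_le_mul_right _ ((card_le_card hcov).trans card_biUnion_le)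
      _ = ∑ w ∈ Pr, ((Fintype.piFinset fun _ : Fin Z.card => S).filter fun s =>
          Hf s w.1 = Hf s w.2).card * S.card := by rw [Finset.sum_mul]
      _ ≤ ∑ w ∈ Pr, S.card ^ Z.card := Finset.sum_le_sum hone
      _ = Pr.card * S.card ^ Z.card := by rw [Finset.sum_const, smul_eq_mul]
      _ ≤ Z.card ^ 2 * S.card ^ Z.card := Nat.mul_le_mul_right _ hPrcard

end Pool.Agent.AbsIrr
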