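import Mathlib
import Pool.Agent.Lib.MP_2adc98_lc.XSpec

/-!
# MP_2adc98_lc, stage 3: orbits
-/

set_option autoImplicit false
set_option linter.unusedSectionVars false

namespace Pool.Agent.AbsIrr

open Finset Polynomial

section
variable {k : Type} [Field k]

open Classical in
/-- the orbit of `z` -/
noncomputable def orbF (Z : Finset k) (ϖ : k → k) (z : k) : Finset k :=
  Z.filter fun z' => ∃ i, z' = ϖ^[i] z

variable {Z : Finset k} {ϖ : k → k} (hm : ∀ z ∈ Z, ϖ z ∈ Z) (hi : Set.InjOn ϖ (Z : Set k))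

theorem mem_orbF {z z' : k} : z' ∈ orbF Z ϖ z ↔ z' ∈ Z ∧ ∃ i, z' = ϖ^[i] z := by
  classical
  unfold orbF
  rw [Finset.mem_filter]

include hm in
theorem iter_mem {z : k} (hz : z ∈ Z) (i : ℕ) : ϖ^[i] z ∈ Z := by
  induction i with
  | zero => exact hz
  | succ i ih =>
    rw [Function.iterate_succ_apply']
    exact hm _ ih

include hm hi in
theorem exists_period {z : k} (hz : z ∈ Z) : ∃ n, 1 ≤ n ∧ ϖ^[n] z = z := by
  set f : {x // x ∈ Z} → {x // x ∈ Z} := fun x => ⟨ϖ x.1, hm x.1 x.2⟩ with hf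
  have hinj : Function.Injective f := by
    intro x y h
    exact Subtype.ext (hi (Finset.mem_coe.mpr x.2) (Finset.mem_coe.mpr y.2)
      (congrArg Subtype.val h))
  have h1 : ∀ n (x : {x // x ∈ Z}), (f^[n] x).1 = ϖ^[n] x.1 := by
    intro n
    induction n with
    | zero => intro x; rfl
    | succ n ih =>
      intro x
      rw [Function.iterate_succ_apply, Function.iterate_succ_apply, ih]
  obtain ⟨n, hn, hp⟩ := (Function.Injective.mem_periodicPts hinj ⟨z, hz⟩)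
  refine ⟨n, hn, ?_⟩
  have h2 := congrArg Subtype.val (show f^[n] ⟨z, hz⟩ = ⟨z, hz⟩ from hp)
  rw [h1] at h2
  exact h2

include hm hi in
theorem orb_symm {z : k} (hz : z ∈ Z) (i : ℕ) : ∃ j, z = ϖ^[j] (ϖ^[i] z) := by
  obtain ⟨n, hn, h⟩ := exists_period hm hi hz
  have h1 : ∀ m, ϖ^[m * n] z = z := by
    intro m
    induction m with
    | zero => simp
    | succ m ih => rw [Nat.succ_mul, Function.iterate_add_apply, h, ih]
  refine ⟨i * n - i, ?_⟩
  rw [← Function.iterate_add_apply, Nat.sub_add_cancel (Nat.le_mul_of_pos_right _ (by omega)), h1]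

theorem self_mem_orbF {z : k} (hz : z ∈ Z) : z ∈ orbF Z ϖ z := mem_orbF.mpr ⟨hz, 0, rfl⟩

include hm in
theorem orbF_maps {z : k} : ∀ v ∈ orbF Z ϖ z, ϖ v ∈ orbF Z ϖ z := by
  intro v hv
  obtain ⟨h1, i, rfl⟩ := mem_orbF.mp hv
  exact mem_orbF.mpr ⟨hm _ h1, i + 1, (Function.iterate_succ_apply' _ _ _).symm⟩

theorem orbF_subset {z : k} : orbF Z ϖ z ⊆ Z := fun _ hv => (mem_orbF.mp hv).1

include hm hi in
theorem orbF_eq {z z' : k} (hz : z ∈ Z) (h : z' ∈ orbF Z ϖ z) : orbF Z ϖ z' = orbF Z ϖ z := by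
  obtain ⟨h1, i, rfl⟩ := mem_orbF.mp h
  obtain ⟨j, hj⟩ := orb_symm hm hi hz i
  ext v
  rw [mem_orbF, mem_orbF]
  constructor
  · rintro ⟨h2, a, rfl⟩
    exact ⟨h2, a + i, (Function.iterate_add_apply _ _ _ _).symm⟩
  · rintro ⟨h2, a, rfl⟩
    refine ⟨h2, a + j, ?_⟩
    rw [Function.iterate_add_apply, ← hj]

include hm in
/-- a property which is passed on by `ϖ` holds on the whole orbit -/
theorem orb_ind {z : k} (hz : z ∈ Z) {P : k → Prop} (h0 : P z) (h1 : ∀ v ∈ Z, P v → P (ϖ v)) :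
    ∀ v ∈ orbF Z ϖ z, P v := by
  intro v hv
  obtain ⟨-, i, rfl⟩ := mem_orbF.mp hv
  induction i with
  | zero => exact h0
  | succ i ih =>
    rw [Function.iterate_succ_apply']
    have h2 := iter_mem hm hz i
    exact h1 _ h2 (ih (mem_orbF.mpr ⟨h2, i, rfl⟩))

include hm hi in
/-- if the bits are constant on the orbits and separate the orbits then the classes are the
orbits -/
theorem bcls_eq {L : Type} [Field L] [Algebra L k] {N R : ℕ} {W : ℕ → L}
    (h1 : ∀ z ∈ Z, ∀ r < R, (evz N z (rowA N r W) = 0 ↔ evz N (ϖ z) (rowA N r W) = 0))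
    (h2 : ∀ z ∈ Z, ∀ z' ∈ Z, (∀ i, ϖ^[i] z ≠ z') → ∃ r < R,
      ¬ (evz N z (rowA N r W) = 0 ↔ evz N z' (rowA N r W) = 0)) {z : k} (hz : z ∈ Z) :
    bcls N R W Z z = orbF Z ϖ z := by
  classical
  ext v
  unfold bcls
  rw [Finset.mem_filter, mem_orbF]
  constructor
  · rintro ⟨hv, h⟩
    refine ⟨hv, ?_⟩
    by_contra hcon
    push Not at hcon
    obtain ⟨r, hr, h3⟩ := h2 z hz v hv (fun i h => hcon i h.symm)
    exact h3 (h r hr)
  · rintro ⟨hv, h⟩
    refine ⟨hv, ?_⟩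
    exact orb_ind hm hz (P := fun v => ∀ r < R,
      (evz N z (rowA N r W) = 0 ↔ evz N v (rowA N r W) = 0)) (fun r _ => Iff.rfl)
      (fun w hw hP r hr => (hP r hr).trans (h1 w hw r hr)) v (mem_orbF.mpr ⟨hv, h⟩)

end

section
variable {L : Type} [Field L] {k : Type} [Field k] [Algebra L k]

theorem evz_tabF (N : ℕ) (v : k) (a : ℕ → L) : evz N v (tabF N a) = evz N v a := by
  unfold evz
  refine Finset.sum_congr rfl fun l hl => ?_
  rw [tabF, if_pos (Finset.mem_range.mp hl)]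

theorem isMod_card {n : ℕ} {g : ℕ → L} {Z : Finset k} (h : IsMod n g Z) : Z.card = n := by
  have h1 := congrArg natDegree h
  rw [(FN.gmon_monic n g).natDegree_map, FN.gmon_natDegree,
    natDegree_prod_of_monic _ _ (fun v _ => monic_X_sub_C v)] at h1
  simp at h1
  exact h1.symm

/-- the rational function and the Frobenius map -/
theorem afun_frob [Fintype L] {p r q E N : ℕ} [Fact p.Prime] [CharP k p] (hq : q = p ^ r)
    (hcard : Fintype.card L = q ^ E) {Z : Finset k} {ϖ : k → k} {v : ℕ → k → k}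
    (hm : ∀ z ∈ Z, ϖ z ∈ Z)
    (h1 : ∀ i, ∀ z ∈ Z, v i z ^ q = v (i + 1) (ϖ z)) (h2 : ∀ z ∈ Z, v E z = v 0 z)
    (γ : ℕ → L) {z : k} (hz : z ∈ Z) :
    afun q E N v γ z ^ q = afun q E N v γ (ϖ z) := by
  have hadd : ∀ (s : Finset ℕ) (f : ℕ → k), (∑ i ∈ s, f i) ^ q = ∑ i ∈ s, f i ^ q := by
    intro s f
    rw [hq]
    exact sum_pow_char_pow p r s f
  set g : ℕ → k := fun i => ∑ j ∈ range N, algebraMap L k (γ j) ^ q ^ i * v i (ϖ z) ^ j with hg
  have h3 : ∀ i, (∑ j ∈ range N, algebraMap L k (γ j) ^ q ^ i * v i z ^ j) ^ q = g (i + 1) := by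
    intro i
    rw [hadd]
    refine Finset.sum_congr rfl fun j _ => ?_
    rw [mul_pow, ← pow_mul, ← pow_succ, ← h1 i z hz, ← pow_mul, ← pow_mul, Nat.mul_comm j q]
  have h4 : g E = g 0 := by
    simp only [hg]
    refine Finset.sum_congr rfl fun j _ => ?_
    rw [h2 _ (hm z hz), ← map_pow, ← hcard, FiniteField.pow_card, pow_zero, pow_one]
  unfold afun
  rw [hadd]
  rw [Finset.sum_congr rfl fun i _ => h3 i]
  have h5 := Finset.sum_range_succ g E
  have h6 := Finset.sum_range_succ' g E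
  rw [h5, h4] at h6
  exact (add_right_cancel h6).symm

end

end Pool.Agent.AbsIrr
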