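import Mathlib
import Pool.Agent.Lib.MP_2adc98_lc.XOrb
import Pool.Agent.Lib.MP_2adc98_lc.XM2
import Pool.Agent.Lib.MP_2adc98_lc.XN1
import Pool.Agent.Lib.MP_2adc98_lc.XN2

/-!
# MP_2adc98_lc, stage 3: the tables of an item
-/

set_option autoImplicit false
set_option linter.unusedSectionVars false

namespace Pool.Agent.AbsIrr

open Finset Polynomial

section
variable {L : Type} [Field L] {k : Type} [Field k] [Algebra L k]

theorem evz_row_tab {R N : ℕ} (f : ℕ → ℕ → L) {r : ℕ} (hr : r < R) (v : k) :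
    evz N v (rowA N r (tabF (R * N) (fun j => f (j / N) (j % N)))) = evz N v (f r) := by
  unfold evz rowA
  refine Finset.sum_congr rfl fun l hl => ?_
  have hl' := Finset.mem_range.mp hl
  have hN : 0 < N := by omega
  have h1 : r * N + l < R * N := by
    calc r * N + l < r * N + N := by omega
      _ = (r + 1) * N := by ring
      _ ≤ R * N := Nat.mul_le_mul_right _ hr
  have h2 : (r * N + l) % N = l := by
    rw [Nat.mul_comm, Nat.mul_add_mod, Nat.mod_eq_of_lt hl']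
  have h3 : (r * N + l) / N = r := by
    rw [Nat.mul_comm, Nat.mul_add_div hN, Nat.div_eq_of_lt hl', Nat.add_zero]
  rw [tabF, if_pos h1, h2, h3]

/-- the elements of a finite field inside a larger field -/
theorem fix_range {F : Type} [Field F] [Fintype F] [Algebra F k] {x : k}
    (h : x ^ Fintype.card F = x) : x ∈ Set.range (algebraMap F k) := by
  classical
  set Q := Fintype.card F with hQ
  have hQ1 : 1 < Q := Fintype.one_lt_card
  have h0 : (X ^ Q - X : k[X]) ≠ 0 := FiniteField.X_pow_card_sub_X_ne_zero k hQ1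
  have hdeg : (X ^ Q - X : k[X]).natDegree = Q := FiniteField.X_pow_card_sub_X_natDegree_eq k hQ1
  set s := (univ : Finset F).image (algebraMap F k) with hs
  have h1 : s.card = Q := by
    rw [hs, Finset.card_image_of_injective _ (algebraMap F k).injective, Finset.card_univ]
  have h2 : s ⊆ (X ^ Q - X : k[X]).roots.toFinset := by
    intro y hy
    obtain ⟨a, -, rfl⟩ := Finset.mem_image.mp hy
    rw [Multiset.mem_toFinset, mem_roots h0, IsRoot.def, eval_sub, eval_pow, eval_X, ← map_pow,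
      FiniteField.pow_card, sub_self]
  have h3 : (X ^ Q - X : k[X]).roots.toFinset.card ≤ Q :=
    (Multiset.toFinset_card_le _).trans ((card_roots' _).trans hdeg.le)
  have h4 : s = (X ^ Q - X : k[X]).roots.toFinset := Finset.eq_of_subset_of_card_le h2 (by omega)
  have h5 : x ∈ s := by
    rw [h4, Multiset.mem_toFinset, mem_roots h0, IsRoot.def, eval_sub, eval_pow, eval_X, h,
      sub_self]
  obtain ⟨a, -, ha⟩ := Finset.mem_image.mp h5
  exact ⟨a, ha⟩

end

section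
variable {L : Type} [Field L] [Fintype L] {k : Type} [Field k]
  [IsAlgClosed k] [Algebra L k] {p r q E : ℕ} [Fact p.Prime]
  [CharP k p] (hq : q = p ^ r) (hr : 1 ≤ r) (hE : 1 ≤ E) (hcard : Fintype.card L = q ^ E)
  {Fvt : Fam TVt .arr} {Fkh : Fam TKh .arr} {Fbt : Fam TBt .arr} {Fra : Fam TRa .arr}
  (hvt : SpecVt Fvt) (hkh : SpecKh Fkh) (hbt : SpecBt Fbt) (hra : SpecRa Fra)
  {l R d δ N : ℕ} {Q F ω : ℕ → L} (hl : Fintype.card L < 2 ^ l) {Z : Finset k} {ϖ : k → k}
  (hI : ItemOK q N ((δ + 1) ^ 2) Q (toE d δ N F) Z ϖ)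

/-- the functions `v_i` of an item -/
noncomputable def vI (k : Type) [Field k] [Algebra L k] (q d δ N : ℕ) (F ω : ℕ → L) (i : ℕ) :
    k → k :=
  vfun q ((δ + 1) ^ 2) N (toE d δ N F) (iR δ ω) (iR' d δ ω) i

/-- all random choices for the item are good -/
structure GoodIt (Fvt : Fam TVt .arr) (Fkh : Fam TKh .arr) (p q E l R d δ N : ℕ)
    (Q F ω : ℕ → L) (Z : Finset k) (ϖ : k → k) : Prop where
  g1 : Good1 q ((δ + 1) ^ 2) N (toE d δ N F) Z (iR δ ω) (iR' d δ ω)
  g2 : Good2 Z ϖ (fun z => evz N z (iH Fvt Fkh q l E d δ N Q F ω))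
  g3 : Good3 p (Fintype.card L) R Z ϖ (fun z => evz N z (iH Fvt Fkh q l E d δ N Q F ω)) (iC d ω)
  g4 : Good4 q E N R Z ϖ (vI k q d δ N F ω) (iG d R N ω)

include hq hr hE hcard hvt hl hI

theorem q_lt : q < 2 ^ l := by
  refine lt_of_le_of_lt ?_ hl
  rw [hcard]
  have h1 : 1 ≤ q := by rw [hq]; exact Nat.one_le_pow _ _ (Fact.out : p.Prime).pos
  calc q = q ^ 1 := (pow_one q).symm
    _ ≤ q ^ E := Nat.pow_le_pow_right h1 hE

theorem row_v (h1 : Good1 q ((δ + 1) ^ 2) N (toE d δ N F) Z (iR δ ω) (iR' d δ ω)) {i : ℕ}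
    (hi : i ≤ E) {z : k} (hz : z ∈ Z) :
    evz N z (rowA N i (iV Fvt q l E d δ N Q F ω)) = vI k q d δ N F ω i z :=
  hvt L k N _ (E + 1) q l Q (toE d δ N F) _ _ Z
    (q_lt hq hr hE hcard hvt hl hI) hI.isMod i (by omega)
    (fun v hv => item_den_ne hq hcard hI h1 i v hv) z hz

include hkh in
/-- the random function constant on the orbits, as a function of the random elements -/
theorem H_form (h1 : Good1 q ((δ + 1) ^ 2) N (toE d δ N F) Z (iR δ ω) (iR' d δ ω)) :
    ∃ θ : ℕ → ℕ → L,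
      (∀ i, ∀ z ∈ Z, ∑ j ∈ range N, algebraMap L k (θ i j) * vI k q d δ N F ω 0 z ^ (q * j) =
          ∑ j ∈ range N, algebraMap L k (θ i j) * vI k q d δ N F ω 1 z ^ j) ∧
      (∀ β : ℕ → L, (∀ z ∈ Z, ∑ j ∈ range N, algebraMap L k (β j) *
          vI k q d δ N F ω 0 z ^ (q * j) =
          ∑ j ∈ range N, algebraMap L k (β j) * vI k q d δ N F ω 1 z ^ j) →
          ∃ s : ℕ → L, ∀ j < N, β j = ∑ i ∈ range N, s i * θ i j) ∧
      ∀ s : ℕ → L, ∀ z ∈ Z, evz N z (Fkh L (N, (q, (l, (Q,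
        (tabF N (rowA N 0 (iV Fvt q l E d δ N Q F ω)),
          (tabF N (rowA N 1 (iV Fvt q l E d δ N Q F ω)), s))))))) =
          ∑ i ∈ range N, ∑ j ∈ range N, algebraMap L k (s i * θ i j) *
            vI k q d δ N F ω 1 z ^ j := by
  obtain ⟨θ, t1, t2, t3⟩ := hkh L k N q l Q (tabF N (rowA N 0 (iV Fvt q l E d δ N Q F ω)))
    (tabF N (rowA N 1 (iV Fvt q l E d δ N Q F ω))) Z (q_lt hq hr hE hcard hvt hl hI) hI.isMod
  have e0 : ∀ z ∈ Z, evz N z (tabF N (rowA N 0 (iV Fvt q l E d δ N Q F ω))) =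
      vI k q d δ N F ω 0 z := fun z hz => by
    rw [evz_tabF, row_v hq hr hE hcard hvt hl hI h1 (Nat.zero_le _) hz]
  have e1 : ∀ z ∈ Z, evz N z (tabF N (rowA N 1 (iV Fvt q l E d δ N Q F ω))) =
      vI k q d δ N F ω 1 z := fun z hz => by
    rw [evz_tabF, row_v hq hr hE hcard hvt hl hI h1 hE hz]
  refine ⟨θ, fun i z hz => ?_, fun β hβ => t2 β fun z hz => ?_, fun s z hz => ?_⟩
  · have := t1 i z hz
    rw [e0 z hz, e1 z hz] at this
    exact this
  · rw [e0 z hz, e1 z hz]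
    exact hβ z hz
  · rw [t3 s z hz, e1 z hz]

include hkh in
theorem H_const (h1 : Good1 q ((δ + 1) ^ 2) N (toE d δ N F) Z (iR δ ω) (iR' d δ ω)) :
    ∀ z ∈ Z, evz N (ϖ z) (iH Fvt Fkh q l E d δ N Q F ω) =
      evz N z (iH Fvt Fkh q l E d δ N Q F ω) ∧
      evz N z (iH Fvt Fkh q l E d δ N Q F ω) ∈ Set.range (algebraMap L k) := by
  obtain ⟨θ, t1, t2, t3⟩ := H_form hq hr hE hcard hvt hkh hl hI h1
  have h2 := (count_good2 hq hr hE hcard (isMod_card hI.isMod) hI.maps hI.inj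
    (v := vI k q d δ N F ω) (item_v_inj hq hcard hI h1 1)
    (fun i z hz => item_v_frob hq hcard hI h1 i z hz)
    (fun z hz => by
      have := item_v_period hq hcard hI h1 1 z hz
      rw [Nat.add_comm 1 E] at this
      exact this) t1 t2 ∅).1
  intro z hz
  have h3 := h2 (iS d N ω) z hz
  unfold iH
  rw [t3 _ _ (hI.maps z hz), t3 _ _ hz]
  exact h3

include hbt in
theorem row_W {r' : ℕ} (hr' : r' < R) {z : k} (hz : z ∈ Z) :
    evz N z (rowA N r' (iW Fvt Fkh Fbt p q (Fintype.card L) l E R d δ N Q F ω)) =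
      bitv p (Fintype.card L) (evz N z (iH Fvt Fkh q l E d δ N Q F ω))
        (algebraMap L k (iC d ω r')) - 1 := by
  unfold iW
  rw [evz_row_tab (fun r => Fbt L (N, (p, (Fintype.card L, (l, (Q,
    (iH Fvt Fkh q l E d δ N Q F ω, iC d ω r))))))) hr' z]
  exact hbt L k N p (Fintype.card L) l Q _ _ Z hl hI.isMod z hz

include hra in
theorem row_A (h1 : Good1 q ((δ + 1) ^ 2) N (toE d δ N F) Z (iR δ ω) (iR' d δ ω))
    {r' : ℕ} (hr' : r' < R) {z : k} (hz : z ∈ Z) :
    evz N z (rowA N r' (iA Fvt Fra q l E R d δ N Q F ω)) =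
      afun q E N (vI k q d δ N F ω) (iG d R N ω r') z := by
  unfold iA
  rw [evz_row_tab (fun r => Fra L (N, (E, (q, (l, (Q,
    (iV Fvt q l E d δ N Q F ω, iG d R N ω r))))))) hr' z]
  rw [hra L k N E q l Q _ _ Z (q_lt hq hr hE hcard hvt hl hI) hI.isMod z hz]
  unfold afun
  refine Finset.sum_congr rfl fun i hi => Finset.sum_congr rfl fun j _ => ?_
  rw [row_v hq hr hE hcard hvt hl hI h1 (by have := Finset.mem_range.mp hi; omega) hz]

include hkh hbt in
theorem cls_orb (hG : GoodIt Fvt Fkh p q E l R d δ N Q F ω Z ϖ) {z : k} (hz : z ∈ Z) :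
    bcls N R (iW Fvt Fkh Fbt p q (Fintype.card L) l E R d δ N Q F ω) Z z = orbF Z ϖ z := by
  refine bcls_eq hI.maps hI.inj ?_ ?_ hz
  · intro z hz r' hr'
    rw [row_W hq hr hE hcard hvt hbt hl hI hr' hz,
      row_W hq hr hE hcard hvt hbt hl hI hr' (hI.maps z hz),
      (H_const hq hr hE hcard hvt hkh hl hI hG.g1 z hz).1]
  · intro z hz z' hz' h
    obtain ⟨r', hr', h2⟩ := hG.g3 z hz z' hz' h
    refine ⟨r', hr', fun h3 => h2 ?_⟩
    rw [row_W hq hr hE hcard hvt hbt hl hI hr' hz, row_W hq hr hE hcard hvt hbt hl hI hr' hz',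
      sub_eq_zero, sub_eq_zero] at h3
    exact h3

end

end Pool.Agent.AbsIrr
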