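import Mathlib
import Pool.Agent.Lib.MP_2adc98_lc.XRow
import Pool.Agent.Lib.MP_2adc98_lc.XModel

/-!
# MP_2adc98_lc, stage 3: the printed triple of an orbit
-/

set_option autoImplicit false
set_option linter.unusedSectionVars false

namespace Pool.Agent.AbsIrr

open Finset Polynomial

section
variable {K : Type} [Field K] {L : Type} [Field L] [Algebra K L]

/-- coefficient number `l` of coefficient `x^i y^j` of the printed polynomial -/
theorem prF_get {d δ s : ℕ} (G : ℕ → L) {l i j : ℕ} (hi : i ≤ d) (hj : j ≤ d) :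
    prF d δ s G ((l * (d + 1) + j) * (d + 1) + i) =
      if i ≤ δ ∧ j ≤ δ ∧ l < s then G ((j * (δ + 1) + i) * s + l) else 0 := by
  have h1 : ((l * (d + 1) + j) * (d + 1) + i) % (d + 1) = i := by
    rw [Nat.mul_comm, Nat.mul_add_mod, Nat.mod_eq_of_lt (by omega)]
  have h2 : ((l * (d + 1) + j) * (d + 1) + i) / (d + 1) = l * (d + 1) + j := by
    rw [Nat.mul_comm, Nat.mul_add_div (by omega), Nat.div_eq_of_lt (by omega), Nat.add_zero]
  have h3 : (l * (d + 1) + j) % (d + 1) = j := by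
    rw [Nat.mul_comm, Nat.mul_add_mod, Nat.mod_eq_of_lt (by omega)]
  have h4 : (l * (d + 1) + j) / (d + 1) = l := by
    rw [Nat.mul_comm, Nat.mul_add_div (by omega), Nat.div_eq_of_lt (by omega), Nat.add_zero]
  unfold prF tabF
  beta_reduce
  rw [h1, h2, h3, h4]
  have h5 : (l * (d + 1) + j) * (d + 1) + i < s * (d + 1) ^ 2 ↔ l < s := by
    constructor
    · intro h
      by_contra hcon
      have : s * (d + 1) ^ 2 ≤ l * (d + 1) ^ 2 := Nat.mul_le_mul_right _ (by omega)
      nlinarith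
    · intro h
      calc (l * (d + 1) + j) * (d + 1) + i < (l * (d + 1) + j) * (d + 1) + (d + 1) := by omega
        _ = (l * (d + 1) + j + 1) * (d + 1) := by ring
        _ ≤ ((l + 1) * (d + 1)) * (d + 1) := Nat.mul_le_mul_right _ (by
          rw [Nat.add_mul, one_mul]; omega)
        _ = (l + 1) * (d + 1) ^ 2 := by ring
        _ ≤ s * (d + 1) ^ 2 := Nat.mul_le_mul_right _ h
  by_cases hl : l < s
  · rw [if_pos (h5.mpr hl)]
    by_cases hi' : i ≤ δ
    · rw [if_pos (by omega)]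
      by_cases hj' : j ≤ δ
      · rw [if_pos (by omega), if_pos ⟨hi', hj', hl⟩]
      · rw [if_neg (by omega), if_neg (by tauto)]
    · rw [if_neg (by omega), if_neg (by tauto)]
  · rw [if_neg (fun h => hl (h5.mp h)), if_neg (by tauto)]

/-- the printed value is a triple over `K` if the entries are elements of `K` -/
theorem decode_leaf {m d δ s : ℕ} (hs : s ≤ d) {Q' G : ℕ → L} {P : K[X]}
    (hP : P.map (algebraMap K L) = gmon s Q')
    (hG : ∀ e < (δ + 1) ^ 2, ∀ l < s, ∃ c : K, algebraMap K L c = G (e * s + l)) :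
    ∃ T : Triple K, decode d (m, (prQ d s Q', prF d δ s G)) = Triple.map K L T ∧
      T.2.2 = m ∧ T.1 = P ∧ (∀ e, (T.2.1.coeff e).degree < (s : ℕ)) ∧
      ∀ i j, ∀ l, algebraMap K L ((T.2.1.coeff (Finsupp.single 0 i + Finsupp.single 1 j)).coeff l)
        = if i ≤ d ∧ j ≤ d ∧ i ≤ δ ∧ j ≤ δ ∧ l < s then G ((j * (δ + 1) + i) * s + l) else 0 := by
  classical
  choose! c hc using hG
  set g : ℕ → ℕ → K[X] := fun i j => if i ≤ δ ∧ j ≤ δ then
    ∑ l ∈ range s, monomial l (c (j * (δ + 1) + i) l) else 0 with hg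
  have hgc : ∀ i j l, algebraMap K L ((g i j).coeff l) =
      if i ≤ δ ∧ j ≤ δ ∧ l < s then G ((j * (δ + 1) + i) * s + l) else 0 := by
    intro i j l
    simp only [hg]
    by_cases h : i ≤ δ ∧ j ≤ δ
    · rw [if_pos h, finsetSum_coeff]
      simp only [coeff_monomial]
      rw [Finset.sum_ite_eq' (Finset.range s) l (fun l => c (j * (δ + 1) + i) l)]
      by_cases hl : l < s
      · rw [if_pos (Finset.mem_range.mpr hl), if_pos ⟨h.1, h.2, hl⟩]
        exact hc _ (by nlinarith [h.1, h.2]) l hl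
      · rw [if_neg (by rwa [Finset.mem_range]), if_neg (by tauto), map_zero]
    · rw [if_neg h, coeff_zero, map_zero, if_neg (by tauto)]
  have hgd : ∀ i j, (g i j).degree < (s : ℕ) := by
    intro i j
    rw [degree_lt_iff_coeff_zero]
    intro l hl
    refine (algebraMap K L).injective ?_
    rw [hgc, map_zero, if_neg (by omega)]
  set f : MvPolynomial (Fin 2) K[X] := ∑ i ∈ range (d + 1), ∑ j ∈ range (d + 1),
      MvPolynomial.monomial (Finsupp.single 0 i + Finsupp.single 1 j) (g i j) with hf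
  have hfc : ∀ i j, f.coeff (Finsupp.single 0 i + Finsupp.single 1 j) =
      if i ≤ d ∧ j ≤ d then g i j else 0 := fun i j => coeff_dec d g i j
  refine ⟨(P, f, m), ?_, rfl, rfl, fun e => ?_, fun i j l => ?_⟩
  · unfold Triple.map
    refine Prod.ext ?_ (Prod.ext ?_ rfl)
    · -- the modulus
      change ∑ l ∈ range (d + 1), monomial l (prQ d s Q' l) = P.map (algebraMap K L)
      rw [hP]
      ext i
      rw [FN.gmon_coeff, finsetSum_coeff]
      simp only [coeff_monomial]
      rw [Finset.sum_ite_eq' (Finset.range (d + 1)) i (fun l => prQ d s Q' l)]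
      unfold prQ tabF
      beta_reduce
      by_cases h1 : i < s
      · rw [if_pos (Finset.mem_range.mpr (by omega)), if_pos (by omega), if_pos h1]
      · by_cases h2 : i = s
        · rw [if_pos (Finset.mem_range.mpr (by omega)), if_pos (by omega), if_neg h1, if_pos h2]
        · rw [if_neg h1, if_neg h2]
          split_ifs <;> rfl
    · -- the polynomial
      change (decode d (m, (prQ d s Q', prF d δ s G))).2.1 =
        MvPolynomial.map (mapRingHom (algebraMap K L)) f
      refine MvPolynomial.ext _ _ fun e => ?_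
      rw [fin2_eq e, decode_coeff, MvPolynomial.coeff_map, hfc]
      by_cases h : e 0 ≤ d ∧ e 1 ≤ d
      · rw [if_pos h, if_pos h]
        ext l
        rw [finsetSum_coeff, coe_mapRingHom, coeff_map, hgc]
        simp only [coeff_monomial]
        rw [Finset.sum_ite_eq' (Finset.range (d + 1)) l
          (fun l => prF d δ s G ((l * (d + 1) + e 1) * (d + 1) + e 0)), prF_get G h.1 h.2]
        by_cases hl : l < s
        · rw [if_pos (Finset.mem_range.mpr (by omega))]
        · rw [if_neg (c := e 0 ≤ δ ∧ e 1 ≤ δ ∧ l < s) (by tauto)]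
          split_ifs <;> rfl
      · rw [if_neg h, if_neg h, map_zero]
  · change (f.coeff e).degree < (s : ℕ)
    rw [fin2_eq e, hfc]
    split_ifs
    · exact hgd _ _
    · rw [degree_zero]
      exact WithBot.bot_lt_coe _
  · change algebraMap K L ((f.coeff (Finsupp.single 0 i + Finsupp.single 1 j)).coeff l) = _
    rw [hfc]
    by_cases h : i ≤ d ∧ j ≤ d
    · rw [if_pos h, hgc]
      by_cases h' : i ≤ δ ∧ j ≤ δ ∧ l < s
      · rw [if_pos h', if_pos ⟨h.1, h.2, h'⟩]
      · rw [if_neg h', if_neg (by tauto)]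
    · rw [if_neg h, coeff_zero, map_zero, if_neg (by tauto)]

end

section
variable {K : Type} [Field K] [Fintype K] {L : Type} [Field L] [Fintype L] {k : Type} [Field k]
  [IsAlgClosed k] [Algebra K L] [Algebra K k] [Algebra L k] [IsScalarTower K L k]
  {p r q E : ℕ} [Fact p.Prime]
  [CharP k p] (hq : q = p ^ r) (hr : 1 ≤ r) (hE : 1 ≤ E) (hK : Fintype.card K = q)
  (hcard : Fintype.card L = q ^ E)
  {Fvt : Fam TVt .arr} {Fkh : Fam TKh .arr} {Fbt : Fam TBt .arr} {Fra : Fam TRa .arr}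
  {FA : Fam TLA .arr} {FB : Fam TLA (.prod .arr .arr)} {FC : Fam TLC .arr}
  (hvt : SpecVt Fvt) (hkh : SpecKh Fkh) (hbt : SpecBt Fbt) (hra : SpecRa Fra)
  (hA : SpecLA FA) (hB : SpecLB FB) (hC : SpecLC FC)
  {l R d δ N : ℕ} {Q F ω : ℕ → L} (hl : Fintype.card L < 2 ^ l) {Z : Finset k} {ϖ : k → k}
  (hI : ItemOK q N ((δ + 1) ^ 2) Q (toE d δ N F) Z ϖ)

include hq hr hE hK hcard hvt hkh hbt hra hA hB hC hl hI in
theorem leaf_ok (hG : GoodIt Fvt Fkh p q E l R d δ N Q F ω Z ϖ) (hNd : N ≤ d) (m : ℕ) {z : k}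
    (hz : z ∈ Z) {s : ℕ} {g : ℕ → L} (hg : IsMod s g (orbF Z ϖ z)) :
    ∃ T : Triple K, decode d (fLf FA FB FC L (m, (d, (δ, (N, (R, (toE d δ N F,
        (iA Fvt Fra q l E R d δ N Q F ω, (s, g))))))))) = Triple.map K L T ∧
      T.2.2 = m ∧ T.1.Monic ∧ (∀ e, (T.2.1.coeff e).degree < T.1.degree) ∧
      ∃ a : k → k, Set.InjOn a (orbF Z ϖ z : Set k) ∧
        T.1.map (algebraMap K k) = ∏ v ∈ orbF Z ϖ z, (X - C (a v)) ∧
        ∃ ν < (δ + 1) ^ 2, (∀ v ∈ orbF Z ϖ z, dv N v (toE d δ N F) ν ≠ 0) ∧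
          ∀ v ∈ orbF Z ϖ z, ∀ i ≤ d, ∀ j ≤ d,
            (atZ (a v) T.2.1).coeff (Finsupp.single 0 i + Finsupp.single 1 j) =
              if i ≤ δ ∧ j ≤ δ then dv N v (toE d δ N F) (j * (δ + 1) + i) /
                dv N v (toE d δ N F) ν else 0 := by
  set O := orbF Z ϖ z with hO
  have hOZ : O ⊆ Z := orbF_subset
  have hOm : ∀ v ∈ O, ϖ v ∈ O := orbF_maps hI.maps
  have hOi : Set.InjOn ϖ (O : Set k) := hI.inj.mono (Finset.coe_subset.mpr hOZ)
  have hzO : z ∈ O := self_mem_orbF hz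
  have hOs : O.card = s := isMod_card hg
  have hsd : s ≤ d := by
    rw [← hOs]
    exact (Finset.card_le_card hOZ).trans (by rw [isMod_card hI.isMod]; exact hNd)
  set v := vI k q d δ N F ω with hv
  have hvf : ∀ i, ∀ z ∈ Z, v i z ^ q = v (i + 1) (ϖ z) := fun i z hz =>
    item_v_frob hq hcard hI hG.g1 i z hz
  have hvp : ∀ z ∈ Z, v E z = v 0 z := fun z hz => by
    have := item_v_period hq hcard hI hG.g1 0 z hz
    rw [Nat.zero_add] at this
    exact this
  -- the generator
  obtain ⟨r₀, hr₀, hinj₀⟩ := hG.g4 z hz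
  have hrow : ∀ r' < R, ∀ v' ∈ O, evz N v' (rowA N r' (iA Fvt Fra q l E R d δ N Q F ω)) =
      afun q E N v (iG d R N ω r') v' := fun r' hr' v' hv' =>
    row_A hq hr hE hcard hvt hra hl hI hG.g1 hr' (hOZ hv')
  obtain ⟨r₁, hr₁, hinj₁, hQ', ha'⟩ := hB L k N R s g (iA Fvt Fra q l E R d δ N Q F ω) O hg
    ⟨r₀, hr₀, by
      intro x hx y hy h
      have h' : afun q E N v (iG d R N ω r₀) x = afun q E N v (iG d R N ω r₀) y := by
        rw [← hrow r₀ hr₀ x (Finset.mem_coe.mp hx), ← hrow r₀ hr₀ y (Finset.mem_coe.mp hy)]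
        exact h
      exact hinj₀ (mem_orbF.mp (Finset.mem_coe.mp hx)).2 (mem_orbF.mp (Finset.mem_coe.mp hy)).2 h'⟩
  set oB := FB L (N, (R, (s, (g, iA Fvt Fra q l E R d δ N Q F ω)))) with hoB
  set a : k → k := fun v' => evz N v' (rowA N r₁ (iA Fvt Fra q l E R d δ N Q F ω)) with ha
  have haf : ∀ v' ∈ O, a v' ^ q = a (ϖ v') := by
    intro v' hv'
    simp only [ha]
    rw [hrow r₁ hr₁ v' hv', hrow r₁ hr₁ _ (hOm v' hv')]
    exact afun_frob hq hcard hI.maps hvf hvp _ (hOZ hv')
  -- the normalised coefficients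
  have hdich : ∀ e < (δ + 1) ^ 2, (∀ v' ∈ O, dv N v' (toE d δ N F) e = 0) ∨
      ∀ v' ∈ O, dv N v' (toE d δ N F) e ≠ 0 := by
    intro e he
    have hq0 : q ≠ 0 := by
      rw [hq]
      exact pow_ne_zero _ (Fact.out : p.Prime).ne_zero
    by_cases h0 : dv N z (toE d δ N F) e = 0
    · refine Or.inl (orb_ind hI.maps hz (P := fun v' => dv N v' (toE d δ N F) e = 0) h0 ?_)
      intro w hw h
      obtain ⟨c, hc, hc'⟩ := hI.frob w hw
      have := hc' e he
      rw [h, zero_pow hq0] at this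
      exact (mul_eq_zero.mp this.symm).resolve_left hc
    · refine Or.inr (orb_ind hI.maps hz (P := fun v' => dv N v' (toE d δ N F) e ≠ 0) h0 ?_)
      intro w hw h h'
      obtain ⟨c, hc, hc'⟩ := hI.frob w hw
      have := hc' e he
      rw [h', mul_zero] at this
      exact h (pow_eq_zero_iff hq0 |>.mp this)
  obtain ⟨ν, hν, hν0, hGt⟩ := hA L k N ((δ + 1) ^ 2) s g (toE d δ N F) O hg ⟨z, hzO⟩ hdich (by
    obtain ⟨e, he, he'⟩ := hI.ne z hz
    refine ⟨e, he, ?_⟩
    rcases hdich e he with h | h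
    · exact absurd (h z hzO) he'
    · exact h)
  set oA := FA L (N, ((δ + 1) ^ 2, (s, (g, toE d δ N F)))) with hoA
  have hinjB : Set.InjOn (fun v : k => evz s v oB.2) (O : Set k) := by
    intro x hx y hy h
    refine hinj₁ hx hy ?_
    have h' : evz s x oB.2 = evz s y oB.2 := h
    rw [ha' x (Finset.mem_coe.mp hx), ha' y (Finset.mem_coe.mp hy)] at h'
    exact h'
  have hGh := hC L k ((δ + 1) ^ 2) s g oB.2 oA O hg hinjB
  set oC := FC L ((δ + 1) ^ 2, (s, (g, (oB.2, oA)))) with hoC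
  -- the values
  have hval : ∀ e < (δ + 1) ^ 2, ∀ v' ∈ O, dv s (a v') oC e =
      dv N v' (toE d δ N F) e / dv N v' (toE d δ N F) ν := by
    intro e he v' hv'
    rw [← hGt e he v' hv', ← hGh e he v' hv', ha' v' hv']
  -- rationality
  have hrat := rational_data (L := K) (iterateFrobenius k p r) (fun x hx => by
      rw [iterateFrobenius_def, ← hq, ← hK] at hx
      exact fix_range hx) (fun x => by
      rw [iterateFrobenius_def, ← hq, ← hK, ← map_pow, FiniteField.pow_card]) O ϖ hOm hOi a hinj₁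
    (fun v' hv' => by
      rw [iterateFrobenius_def, ← hq]
      exact haf v' hv')
  obtain ⟨⟨P, hPm, hPmap⟩, hrat⟩ := hrat
  have htower : ∀ x : K, algebraMap L k (algebraMap K L x) = algebraMap K k x := fun x =>
    (IsScalarTower.algebraMap_apply K L k x).symm
  have hPL : P.map (algebraMap K L) = gmon s oB.1 := by
    refine Polynomial.map_injective _ (algebraMap L k).injective ?_
    rw [hQ', Polynomial.map_map, ← IsScalarTower.algebraMap_eq, hPmap]
  have hGK : ∀ e < (δ + 1) ^ 2, ∀ l' < s, ∃ c : K, algebraMap K L c = oC (e * s + l') := by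
    intro e he l' hl'
    obtain ⟨c, hc⟩ := hrat (fun v' => dv N v' (toE d δ N F) e / dv N v' (toE d δ N F) ν)
      (fun j => algebraMap L k (oC (e * s + j))) (fun v' hv' => by
        rw [iterateFrobenius_def, ← hq]
        exact (item_norm hq hcard hI hG.g1 hν (hOZ hv') (hν0 v' hv') he).2)
      (fun v' hv' => by
        rw [hOs]
        exact (hval e he v' hv').symm) l' (by rw [hOs]; exact hl')
    refine ⟨c, (algebraMap L k).injective ?_⟩
    rw [htower, hc]
  obtain ⟨T, hT1, hT2, hT3, hT4, hT5⟩ := decode_leaf (m := m) hsd hPL hGK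
  have hTd : T.1.degree = (s : ℕ) := by
    rw [hT3, ← degree_map P (algebraMap K k), hPmap, degree_prod_of_monic _ _
      (fun v _ => monic_X_sub_C _)]
    simp [hOs]
  refine ⟨T, hT1, hT2, by rw [hT3]; exact hPm, fun e => by rw [hTd]; exact hT4 e, a, hinj₁,
    by rw [hT3]; exact hPmap, ν, hν, hν0, fun v' hv' i hi j hj => ?_⟩
  unfold atZ
  rw [MvPolynomial.coeff_map]
  change aeval (a v') (T.2.1.coeff (Finsupp.single 0 i + Finsupp.single 1 j)) = _
  have hdg := hT4 (Finsupp.single 0 i + Finsupp.single 1 j)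
  set c₀ := T.2.1.coeff (Finsupp.single 0 i + Finsupp.single 1 j) with hc₀
  have h1 : aeval (a v') c₀ = ∑ l' ∈ range s, algebraMap K k (c₀.coeff l') * a v' ^ l' := by
    rw [aeval_eq_sum_range' (n := s) ?_]
    · simp only [Algebra.smul_def]
    · by_cases h0 : c₀ = 0
      · rw [h0, natDegree_zero]
        rw [h0] at hdg
        have : 0 < O.card := Finset.card_pos.mpr ⟨z, hzO⟩
        omega
      · exact (natDegree_lt_iff_degree_lt h0).mpr hdg
  rw [h1]
  have h2 : ∀ l', algebraMap K k (c₀.coeff l') = algebraMap L k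
      (if i ≤ d ∧ j ≤ d ∧ i ≤ δ ∧ j ≤ δ ∧ l' < s then oC ((j * (δ + 1) + i) * s + l') else 0) := by
    intro l'
    rw [← htower, hc₀, hT5 i j l']
  by_cases hij : i ≤ δ ∧ j ≤ δ
  · rw [if_pos hij]
    have h3 : j * (δ + 1) + i < (δ + 1) ^ 2 := by nlinarith [hij.1, hij.2]
    rw [← hval _ h3 v' hv']
    unfold dv
    refine Finset.sum_congr rfl fun l' hl' => ?_
    rw [h2, if_pos ⟨hi, hj, hij.1, hij.2, Finset.mem_range.mp hl'⟩]
  · rw [if_neg hij]
    refine Finset.sum_eq_zero fun l' _ => ?_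
    rw [h2, if_neg (by tauto), map_zero, zero_mul]

end

end Pool.Agent.AbsIrr
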