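import Mathlib
import Pool.Agent.Lib.MP_2adc98_lc.XLeaf

/-!
# MP_2adc98_lc, stage 3: the printed list is the absolute factorization over `K`
-/

set_option autoImplicit false
set_option linter.unusedSectionVars false

namespace Pool.Agent.AbsIrr

open Finset Polynomial

theorem isMod_inj {L k : Type} [Field L] [Field k] [Algebra L k] {n : ℕ} {g : ℕ → L}
    {Z Z' : Finset k} (h : IsMod n g Z) (h' : IsMod n g Z') : Z = Z' := by
  have h1 : ∏ v ∈ Z, (X - C v) = ∏ v ∈ Z', (X - C v) := h.symm.trans h'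
  have h2 := congrArg Polynomial.roots h1
  rw [roots_prod_X_sub_C, roots_prod_X_sub_C] at h2
  exact Finset.val_injective h2

section
variable {K : Type} [Field K] [Fintype K] {L : Type} [Field L] [Fintype L]
  [Algebra K L] [Algebra L (AlgebraicClosure K)] [IsScalarTower K L (AlgebraicClosure K)]
  {p r q E : ℕ} [Fact p.Prime]
  [CharP (AlgebraicClosure K) p] (hq : q = p ^ r) (hr : 1 ≤ r) (hE : 1 ≤ E)
  (hK : Fintype.card K = q) (hcard : Fintype.card L = q ^ E)
  {Fvt : Fam TVt .arr} {Fkh : Fam TKh .arr} {Fbt : Fam TBt .arr} {Fra : Fam TRa .arr}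
  {FA : Fam TLA .arr} {FB : Fam TLA (.prod .arr .arr)} {FC : Fam TLC .arr} {Fde : Fam TDe TDo}
  (hvt : SpecVt Fvt) (hkh : SpecKh Fkh) (hbt : SpecBt Fbt) (hra : SpecRa Fra)
  (hA : SpecLA FA) (hB : SpecLB FB) (hC : SpecLC FC) (hde : SpecDe Fde)
  {l R d : ℕ} {ω : ℕ → L} (hl : Fintype.card L < 2 ^ l)

/-- the indices of an item -/
def itA {t : ℕ} (mm δ : Fin t → ℕ) (x : ℕ × ℕ) : Finset (Fin t) :=
  univ.filter fun i => mm i = x.1 ∧ δ i = x.2

open Classical in
include hq hr hE hK hcard hvt hkh hbt hra hA hB hC hde hl in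
theorem final_list {Φ : ∀ (K : Type) [Field K], MvPolynomial (Fin 2) K ≃+* K[X][X]}
    (hΦc : ∀ (K : Type) [Field K] (f : MvPolynomial (Fin 2) K) (i j : ℕ),
      ((Φ K f).coeff j).coeff i = f.coeff (Finsupp.single 0 i + Finsupp.single 1 j))
    {f : MvPolynomial (Fin 2) K} {t : ℕ}
    {Fi P : Fin t → (AlgebraicClosure K)[X][X]} {δ mm : Fin t → ℕ} {u : AlgebraicClosure K}
    (hu : u ≠ 0)
    (hG : Φ (AlgebraicClosure K) (MvPolynomial.map (algebraMap K (AlgebraicClosure K)) f) =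
      C (C u) * ∏ i, Fi i ^ mm i)
    (hirr : ∀ i, Irreducible (Fi i)) (hna : Pairwise fun i j => ¬ Associated (Fi i) (Fi j))
    (hmm : ∀ i, 1 ≤ mm i ∧ mm i ≤ d) (hδ : ∀ i, 1 ≤ δ i ∧ δ i ≤ d)
    (hP : ∀ i, TD (δ i) (P i) ∧ ∃ c, c ≠ 0 ∧ P i = C (C c) * Fi i)
    {π : Equiv.Perm (Fin t)}
    (hπ : ∀ i, mm (π i) = mm i ∧ δ (π i) = δ i ∧ ∃ c : AlgebraicClosure K, c ≠ 0 ∧
      (Fi i).map (mapRingHom (iterateFrobenius (AlgebraicClosure K) p r)) = C (C c) * Fi (π i))
    {val : Fin t → AlgebraicClosure K} (hval : ∀ i j, mm i = mm j → val i = val j → i = j)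
    {N : ℕ × ℕ → ℕ} {Qp Fp : ℕ × ℕ → ℕ → L} (hN : ∀ x, 1 ≤ N x → N x = (itA mm δ x).card)
    (hNi : ∀ i, 1 ≤ N (mm i, δ i)) (hNd : ∀ x, 1 ≤ N x → N x ≤ d ∧ x.2 ≤ d)
    (hitem : ∀ x, 1 ≤ N x →
      ((∑ l ∈ range (d + 1), monomial l (Qp x l) : L[X]).map
        (algebraMap L (AlgebraicClosure K)) = ∏ i ∈ itA mm δ x, (X - C (val i))) ∧
      (∀ l j i, N x ≤ l → j ≤ d → i ≤ d → Fp x ((l * (d + 1) + j) * (d + 1) + i) = 0) ∧
      ∀ c, mm c = x.1 → δ c = x.2 → ∀ i ≤ d, ∀ j ≤ d,
        ∑ l ∈ range (d + 1), algebraMap L (AlgebraicClosure K)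
            (Fp x ((l * (d + 1) + j) * (d + 1) + i)) * val c ^ l =
          ((P c).coeff j).coeff i)
    (hgood : ∀ x, 1 ≤ N x → GoodIt Fvt Fkh p q E l R d x.2 (N x) (Qp x) (Fp x) ω
      ((itA mm δ x).image val) (itemPerm val π (itA mm δ x)))
    (keys : List ((ℕ × ℕ) × ℕ)) (hnd : keys.Nodup)
    (hkeys : ∀ x, x ∈ keys ↔ x.2 < N x.1 ∧ (Fde L (N x.1, (R, (Qp x.1,
      (iW Fvt Fkh Fbt p q (Fintype.card L) l E R d x.1.2 (N x.1) (Qp x.1) (Fp x.1) ω,
        x.2))))).1 = 0) :
    ∃ T : List (Triple K), IsAbsFact f T ∧ (keys.map fun x =>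
      decode d (fLf FA FB FC L (x.1.1, (d, (x.1.2, (N x.1, (R, (toE d x.1.2 (N x.1) (Fp x.1),
        (iA Fvt Fra q l E R d x.1.2 (N x.1) (Qp x.1) (Fp x.1) ω,
          (Fde L (N x.1, (R, (Qp x.1,
            (iW Fvt Fkh Fbt p q (Fintype.card L) l E R d x.1.2 (N x.1) (Qp x.1) (Fp x.1) ω,
              x.2))))).2)))))))) ) = T.map (Triple.map K L) := by
  set De : (ℕ × ℕ) × ℕ → TDo.val L := fun x => Fde L (N x.1, (R, (Qp x.1,
      (iW Fvt Fkh Fbt p q (Fintype.card L) l E R d x.1.2 (N x.1) (Qp x.1) (Fp x.1) ω,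
        x.2)))) with hDe
  have hunit : ∀ c : (AlgebraicClosure K), c ≠ 0 → IsUnit (C (C c) : (AlgebraicClosure K)[X][X]) := fun c hc =>
    isUnit_C.2 (isUnit_C.2 (isUnit_iff_ne_zero.2 hc))
  have hPirr : ∀ i, Irreducible (P i) := fun i => by
    obtain ⟨c, hc, hc'⟩ := (hP i).2
    rw [hc', irreducible_isUnit_mul (hunit c hc)]
    exact hirr i
  have hPF : ∀ i, Associated (P i) (Fi i) := fun i => by
    obtain ⟨c, hc, hc'⟩ := (hP i).2
    rw [hc']
    exact associated_unit_mul_left _ _ (hunit c hc)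
  have hPna : Pairwise fun i j => ¬ Associated (P i) (P j) := fun i j hij h =>
    hna hij ((hPF i).symm.trans (h.trans (hPF j)))
  have hπP : ∀ i, mm (π i) = mm i ∧ δ (π i) = δ i ∧ ∃ c : (AlgebraicClosure K), c ≠ 0 ∧
      (P i).map (mapRingHom (iterateFrobenius (AlgebraicClosure K) p r)) = C (C c) * P (π i) := by
    intro i
    obtain ⟨h1, h2, c, hc, hc'⟩ := hπ i
    obtain ⟨c1, hc1, hc1'⟩ := (hP i).2
    obtain ⟨c2, hc2, hc2'⟩ := (hP (π i)).2
    refine ⟨h1, h2, iterateFrobenius (AlgebraicClosure K) p r c1 * c * c2⁻¹, ?_, ?_⟩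
    · exact mul_ne_zero (mul_ne_zero ((_root_.map_ne_zero _).mpr hc1) hc) (inv_ne_zero hc2)
    · have e1 : (P i).map (mapRingHom (iterateFrobenius (AlgebraicClosure K) p r)) =
          C (C (iterateFrobenius (AlgebraicClosure K) p r c1 * c)) * Fi (π i) := by
        rw [hc1', Polynomial.map_mul, map_C, coe_mapRingHom, map_C, hc', ← mul_assoc,
          ← C_mul, ← C_mul]
      have e2 : C (C (iterateFrobenius (AlgebraicClosure K) p r c1 * c * c2⁻¹)) * P (π i) =
          C (C (iterateFrobenius (AlgebraicClosure K) p r c1 * c)) * Fi (π i) := by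
        rw [hc2', ← mul_assoc, ← C_mul, ← C_mul, mul_assoc _ c2⁻¹ c2, inv_mul_cancel₀ hc2,
          mul_one]
      rw [e1, e2]
  -- the items
  have hok : ∀ x, 1 ≤ N x →
      (∀ c, mm c = x.1 → δ c = x.2 → ∀ e < (x.2 + 1) ^ 2, dv (N x) (val c)
        (toE d x.2 (N x) (Fp x)) e = ((P c).coeff (e / (x.2 + 1))).coeff (e % (x.2 + 1))) ∧
      ItemOK q (N x) ((x.2 + 1) ^ 2) (Qp x) (toE d x.2 (N x) (Fp x))
        ((itA mm δ x).image val) (itemPerm val π (itA mm δ x)) := by
    intro x hx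
    obtain ⟨h1, h2, h3⟩ := hitem x hx
    exact item_ok (fun i => (hP i).1) hPirr hPna (q := q)
      (fun y => by rw [iterateFrobenius_def, hq]) hπP hval (hNd x hx).2 (hNd x hx).1 h1
      (hN x hx) h2 h3
  have hAm : ∀ x i, i ∈ itA mm δ x ↔ (mm i, δ i) = x := fun x i => by
    unfold itA
    rw [Finset.mem_filter, Prod.ext_iff]
    simp
  have hcls : ∀ x, 1 ≤ N x → ∀ z ∈ (itA mm δ x).image val,
      bcls (N x) R (iW Fvt Fkh Fbt p q (Fintype.card L) l E R d x.2 (N x) (Qp x) (Fp x) ω)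
        ((itA mm δ x).image val) z =
      orbF ((itA mm δ x).image val) (itemPerm val π (itA mm δ x)) z := fun x hx z hz =>
    cls_orb hq hr hE hcard hvt hkh hbt hl (hok x hx).2 (hgood x hx) hz
  have hvalx : ∀ x, Set.InjOn val (itA mm δ x : Set (Fin t)) := by
    intro x i hi j hj h
    have hi' := (hAm x i).mp (Finset.mem_coe.mp hi)
    have hj' := (hAm x j).mp (Finset.mem_coe.mp hj)
    exact hval i j ((Prod.ext_iff.mp (hi'.trans hj'.symm)).1) h
  -- the keys of the factors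
  have hky : ∀ i, ∃ t₀ < N (mm i, δ i), (De ((mm i, δ i), t₀)).1 = 0 ∧
      IsMod (De ((mm i, δ i), t₀)).2.1 (De ((mm i, δ i), t₀)).2.2
        (orbF ((itA mm δ (mm i, δ i)).image val) (itemPerm val π (itA mm δ (mm i, δ i)))
          (val i)) := by
    intro i
    have hz : val i ∈ (itA mm δ (mm i, δ i)).image val :=
      Finset.mem_image_of_mem _ ((hAm _ i).mpr rfl)
    obtain ⟨t₀, ht₀, h1, h2⟩ := (hde L (AlgebraicClosure K) (N (mm i, δ i)) R (Qp (mm i, δ i))
      (iW Fvt Fkh Fbt p q (Fintype.card L) l E R d (mm i, δ i).2 (N (mm i, δ i))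
        (Qp (mm i, δ i)) (Fp (mm i, δ i)) ω) _ (hok _ (hNi i)).2.isMod).2.1 (val i) hz
    rw [hcls _ (hNi i) _ hz] at h2
    exact ⟨t₀, ht₀, h1, h2⟩
  choose tk htk htk0 htkO using hky
  -- the orbits of the keys
  have hzk : ∀ x, x ∈ keys → ∃ z, z ∈ (itA mm δ x.1).image val ∧ IsMod (De x).2.1 (De x).2.2
      (orbF ((itA mm δ x.1).image val) (itemPerm val π (itA mm δ x.1)) z) := by
    intro x hx
    obtain ⟨h1, -⟩ := (hkeys x).mp hx
    have hx1 : 1 ≤ N x.1 := by omega
    obtain ⟨z, hz, h2⟩ := (hde L (AlgebraicClosure K) (N x.1) R (Qp x.1)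
      (iW Fvt Fkh Fbt p q (Fintype.card L) l E R d x.1.2 (N x.1)
        (Qp x.1) (Fp x.1) ω) _ (hok _ hx1).2.isMod).1 x.2 h1
    rw [hcls _ hx1 _ hz] at h2
    exact ⟨z, hz, h2⟩
  choose! zk hzk hzkO using hzk
  have hleaf : ∀ x, x ∈ keys → ∃ (T : Triple K) (a : (AlgebraicClosure K) → (AlgebraicClosure K)),
      decode d (fLf FA FB FC L (x.1.1, (d, (x.1.2, (N x.1, (R, (toE d x.1.2 (N x.1) (Fp x.1),
        (iA Fvt Fra q l E R d x.1.2 (N x.1) (Qp x.1) (Fp x.1) ω, (De x).2)))))))) =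
          Triple.map K L T ∧
      T.2.2 = x.1.1 ∧ T.1.Monic ∧ (∀ e, (T.2.1.coeff e).degree < T.1.degree) ∧
      Set.InjOn a (orbF ((itA mm δ x.1).image val) (itemPerm val π (itA mm δ x.1))
        (zk x) : Set (AlgebraicClosure K)) ∧
      T.1.map (algebraMap K (AlgebraicClosure K)) = ∏ v ∈ orbF ((itA mm δ x.1).image val)
        (itemPerm val π (itA mm δ x.1)) (zk x), (X - C (a v)) ∧
      ∃ ν < (x.1.2 + 1) ^ 2, (∀ v ∈ orbF ((itA mm δ x.1).image val)
          (itemPerm val π (itA mm δ x.1)) (zk x),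
          dv (N x.1) v (toE d x.1.2 (N x.1) (Fp x.1)) ν ≠ 0) ∧
          ∀ v ∈ orbF ((itA mm δ x.1).image val)
            (itemPerm val π (itA mm δ x.1)) (zk x), ∀ i ≤ d, ∀ j ≤ d,
            (atZ (a v) T.2.1).coeff (Finsupp.single 0 i + Finsupp.single 1 j) =
              if i ≤ x.1.2 ∧ j ≤ x.1.2 then dv (N x.1) v (toE d x.1.2 (N x.1) (Fp x.1))
                (j * (x.1.2 + 1) + i) / dv (N x.1) v (toE d x.1.2 (N x.1) (Fp x.1)) ν
              else 0 := by
    intro x hx
    obtain ⟨h1, -⟩ := (hkeys x).mp hx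
    have hx1 : 1 ≤ N x.1 := by omega
    have hz : zk x ∈ (itA mm δ x.1).image val := hzk x hx
    obtain ⟨T, h2, h3, h4, h5, a, h6, h7, h8⟩ := leaf_ok hq hr hE hK hcard hvt hkh hbt hra hA hB
      hC hl (hok _ hx1).2 (hgood _ hx1) (hNd _ hx1).1 x.1.1 hz (hzkO x hx)
    exact ⟨T, a, h2, h3, h4, h5, h6, h7, h8⟩
  choose! T a hT1 hT2 hT3 hT4 hT5 hT6 hT7 using hleaf
  -- membership in a class
  have hmem : ∀ i, ((mm i, δ i), tk i) ∈ keys := fun i =>
    (hkeys _).mpr ⟨htk i, htk0 i⟩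
  have horb : ∀ x ∈ keys, ∀ i, ((mm i, δ i), tk i) = x ↔
      ((mm i, δ i) = x.1 ∧ val i ∈ orbF ((itA mm δ x.1).image val)
        (itemPerm val π (itA mm δ x.1)) (zk x)) := by
    intro x hx i
    obtain ⟨hxt, hx0⟩ := (hkeys x).mp hx
    have hx1 : 1 ≤ N x.1 := by omega
    have hz : zk x ∈ (itA mm δ x.1).image val := hzk x hx
    constructor
    · intro h
      have h1 : (mm i, δ i) = x.1 := (Prod.ext_iff.mp h).1
      refine ⟨h1, ?_⟩
      have hi : val i ∈ (itA mm δ x.1).image val :=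
        Finset.mem_image_of_mem _ ((hAm _ _).mpr h1)
      have h2 := htkO i
      rw [h, h1] at h2
      rw [← isMod_inj h2 (hzkO x hx)]
      exact self_mem_orbF hi
    · rintro ⟨h1, h2⟩
      have hi : val i ∈ (itA mm δ x.1).image val :=
        Finset.mem_image_of_mem _ ((hAm _ _).mpr h1)
      refine Prod.ext h1 ?_
      change tk i = x.2
      have h3 := htkO i
      have h4 := hzkO x hx
      have h5 := htk i
      have h6 := htk0 i
      rw [h1] at h3 h5 h6
      rw [← orbF_eq (hok _ hx1).2.maps (hok _ hx1).2.inj hz h2] at h4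
      rw [← hcls _ hx1 _ hi] at h3 h4
      exact (hde L (AlgebraicClosure K) (N x.1) R (Qp x.1)
        (iW Fvt Fkh Fbt p q (Fintype.card L) l E R d x.1.2 (N x.1)
          (Qp x.1) (Fp x.1) ω) _ (hok _ hx1).2.isMod).2.2 (tk i) h5 x.2 hxt (val i) hi h6 hx0 h3 h4
  refine ⟨keys.map T, ?_, ?_⟩
  · have hΦunit : ∀ c : (AlgebraicClosure K), c ≠ 0 → IsUnit ((Φ (AlgebraicClosure K)).symm (C (C c))) := fun c hc =>
      (hunit c hc).map _
    refine isAbsFact_of (L := K) (f := f) (F := fun i => (Φ (AlgebraicClosure K)).symm (Fi i)) (mm := mm)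
      (fun i => ?_) ?_ ?_ hnd (tr := T) (fun i => ((mm i, δ i), tk i)) hmem
      (fun i => a ((mm i, δ i), tk i) (val i)) (fun x hx => ⟨hT3 x hx, ?_⟩) (fun i j h1 h2 => ?_)
      (fun x hx e => hT4 x hx e) (fun i => (hT2 _ (hmem i)).symm) (fun x hx => ?_) (fun i => ?_)
    · exact (MulEquiv.irreducible_iff (Φ (AlgebraicClosure K)).symm).mpr (hirr i)
    · intro i j hij h
      refine hna hij ?_
      have h1 := h.map (Φ (AlgebraicClosure K) : MvPolynomial (Fin 2) (AlgebraicClosure K) →* (AlgebraicClosure K)[X][X])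
      simpa using h1
    · have h1 : MvPolynomial.map (algebraMap K (AlgebraicClosure K)) f = (Φ (AlgebraicClosure K)).symm (C (C u)) *
          ∏ i, (Φ (AlgebraicClosure K)).symm (Fi i) ^ mm i := by
        have h2 := congrArg (Φ (AlgebraicClosure K)).symm hG
        rw [RingEquiv.symm_apply_apply, map_mul, map_prod] at h2
        rw [h2]
        simp only [map_pow]
      rw [h1]
      exact associated_unit_mul_left _ _ (hΦunit u hu)
    · rw [hT6 x hx]
      symm
      refine Finset.prod_bij (fun i _ => val i) ?_ ?_ ?_ ?_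
      · intro i hi
        simp only [Finset.mem_filter, Finset.mem_univ, true_and] at hi
        exact ((horb x hx i).mp hi).2
      · intro i hi j hj h
        simp only [Finset.mem_filter, Finset.mem_univ, true_and] at hi hj
        have h1 := ((horb x hx i).mp hi).1
        have h2 := ((horb x hx j).mp hj).1
        exact hval i j (Prod.ext_iff.mp (h1.trans h2.symm)).1 h
      · intro v hv
        obtain ⟨i, hi, rfl⟩ := Finset.mem_image.mp (orbF_subset hv)
        refine ⟨i, ?_, rfl⟩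
        simp only [Finset.mem_filter, Finset.mem_univ, true_and]
        exact (horb x hx i).mpr ⟨(hAm _ i).mp hi, hv⟩
      · intro i hi
        simp only [Finset.mem_filter, Finset.mem_univ, true_and] at hi
        rw [hi]
    · have h3 : a ((mm i, δ i), tk i) (val i) = a ((mm i, δ i), tk i) (val j) := by
        have h2' : a ((mm i, δ i), tk i) (val i) = a ((mm j, δ j), tk j) (val j) := h2
        rw [← h1] at h2'
        exact h2'
      have h4 := ((horb _ (hmem i) i).mp rfl).2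
      have h5 := ((horb _ (hmem i) j).mp h1.symm).2
      have h6 := hT5 _ (hmem i) (Finset.mem_coe.mpr h4) (Finset.mem_coe.mpr h5) h3
      exact hval i j (Prod.ext_iff.mp (Prod.ext_iff.mp h1).1).1 h6
    · rw [hT2 x hx]
      obtain ⟨i, hi, -⟩ := Finset.mem_image.mp (hzk x hx)
      have h2 : mm i = x.1.1 := (Prod.ext_iff.mp ((hAm _ i).mp hi)).1
      have h1 := (hmm i).1
      omega
    · obtain ⟨ν, hν, h1, h2⟩ := hT7 _ (hmem i)
      have h3 := ((horb _ (hmem i) i).mp rfl).2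
      have h4 := h1 _ h3
      have h5 := h2 _ h3
      set y : (AlgebraicClosure K) := dv (N (mm i, δ i)) (val i) (toE d (mm i, δ i).2 (N (mm i, δ i))
        (Fp (mm i, δ i))) ν with hy
      have h6 : atZ (a ((mm i, δ i), tk i) (val i)) (T ((mm i, δ i), tk i)).2.1 =
          (Φ (AlgebraicClosure K)).symm (C (C y⁻¹) * P i) := by
        refine MvPolynomial.ext _ _ fun e => ?_
        rw [fin2_eq e, ← hΦc (AlgebraicClosure K) ((Φ (AlgebraicClosure K)).symm (C (C y⁻¹) * P i)), RingEquiv.apply_symm_apply,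
          coeff_C_mul, coeff_C_mul]
        by_cases he : e 0 ≤ d ∧ e 1 ≤ d
        · rw [h5 _ he.1 _ he.2]
          by_cases he' : e 0 ≤ δ i ∧ e 1 ≤ δ i
          · rw [if_pos he', (hok _ (hNi i)).1 i rfl rfl _ (by
              change e 1 * (δ i + 1) + e 0 < (δ i + 1) ^ 2
              nlinarith [he'.1, he'.2])]
            have e1 : (e 1 * (δ i + 1) + e 0) / (δ i + 1) = e 1 := by
              rw [Nat.mul_comm, Nat.mul_add_div (by omega), Nat.div_eq_of_lt (by omega),
                Nat.add_zero]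
            have e2 : (e 1 * (δ i + 1) + e 0) % (δ i + 1) = e 0 := by
              rw [Nat.mul_comm, Nat.mul_add_mod, Nat.mod_eq_of_lt (by omega)]
            change ((P i).coeff ((e 1 * (δ i + 1) + e 0) / (δ i + 1))).coeff
              ((e 1 * (δ i + 1) + e 0) % (δ i + 1)) / y = _
            rw [e1, e2, div_eq_inv_mul]
          · rw [if_neg he', TD_coeff_zero (hP i).1 (by omega), mul_zero]
        · rw [TD_coeff_zero (hP i).1 (by have := (hδ i).2; omega), mul_zero]
          unfold atZ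
          rw [MvPolynomial.coeff_map]
          have h7 := hT1 _ (hmem i)
          have h8 := congrArg (fun T : Triple L =>
            T.2.1.coeff (Finsupp.single 0 (e 0) + Finsupp.single 1 (e 1))) h7
          beta_reduce at h8
          rw [decode_coeff, if_neg he] at h8
          have h9 : (mapRingHom (algebraMap K L)) ((T ((mm i, δ i), tk i)).2.1.coeff
              (Finsupp.single 0 (e 0) + Finsupp.single 1 (e 1))) = 0 := by
            have h10 := h8.symm
            unfold Triple.map at h10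
            change (MvPolynomial.map (mapRingHom (algebraMap K L))
              (T ((mm i, δ i), tk i)).2.1).coeff _ = 0 at h10
            rw [MvPolynomial.coeff_map] at h10
            exact h10
          have h11 : (T ((mm i, δ i), tk i)).2.1.coeff
              (Finsupp.single 0 (e 0) + Finsupp.single 1 (e 1)) = 0 := by
            refine Polynomial.map_injective _ (algebraMap K L).injective ?_
            rw [Polynomial.map_zero]
            exact h9
          rw [h11, map_zero]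
      rw [h6]
      refine Associated.trans (y := (Φ (AlgebraicClosure K)).symm (P i)) ?_ ?_
      · rw [map_mul]
        exact associated_unit_mul_left _ _ (hΦunit _ (inv_ne_zero h4))
      · have h7 := (hPF i).map ((Φ (AlgebraicClosure K)).symm : (AlgebraicClosure K)[X][X] →* MvPolynomial (Fin 2) (AlgebraicClosure K))
        simpa using h7
  · rw [List.map_map]
    exact List.map_congr_left fun x hx => hT1 x hx

end

end Pool.Agent.AbsIrr
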