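import Mathlib
import Pool.Agent.Lib.MP_2adc98_lc.XFin
import Pool.Agent.Lib.MP_2adc98_lc.XAsm

/-!
# MP_2adc98_lc, stage 3: all items of stage 2
-/

set_option autoImplicit false

namespace Pool.Agent.AbsIrr

open Finset Polynomial

/-- the number of factors of the items -/
noncomputable def nIt {L : Type} [Field L] (d : ℕ) (o : ℕ → Ot1.val L) (x : ℕ × ℕ) : ℕ :=
  if x.1 < d + 1 ∧ x.2 ≤ (o x.1).1 ∧ x.2 ≠ 0 then numc (o x.1).1 x.2 (o x.1).2.2.2.2 else 0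

/-- the polynomials of the items -/
def qIt {L : Type} [Field L] (F3 : Fam In3 (.prod .arr .arr)) (d : ℕ) (a b : L)
    (o : ℕ → Ot1.val L) (x : ℕ × ℕ) : ℕ → L := (F3 L (in3 d a b o x.1 x.2)).1

/-- the coefficients of the items -/
def cIt {L : Type} [Field L] (F3 : Fam In3 (.prod .arr .arr)) (d : ℕ) (a b : L)
    (o : ℕ → Ot1.val L) (x : ℕ × ℕ) : ℕ → L := (F3 L (in3 d a b o x.1 x.2)).2

open Classical in
theorem stage2_items {L k : Type} [Field L] [Field k] [Algebra L k] {d t : ℕ}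
    {Fi F' : Fin t → k[X][X]} {δ mm : Fin t → ℕ} {a b : L} (hmm : ∀ i, 1 ≤ mm i)
    (hδ : ∀ i, 1 ≤ δ i) (hsum : ∑ i, mm i * δ i = d) (hirr : ∀ i, Irreducible (Fi i))
    (hna : Pairwise fun i j => ¬ Associated (Fi i) (Fi j))
    (hF' : ∀ i, (F' i).Monic ∧ (F' i).natDegree = δ i ∧ TD (δ i) (F' i) ∧
      ∃ c, c ≠ 0 ∧ shf (-algebraMap L k a) (-algebraMap L k b) (F' i) = C (C c) * Fi i)
    (hsep : (at0 (∏ i, F' i)).Separable) {o : ℕ → Ot1.val L} (ho0 : (o 0).1 = 0)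
    (ho1 : ∀ m, 1 ≤ m → m ≤ d → (o m).1 = ∑ i with mm i = m, δ i)
    (ho : ∀ m, 1 ≤ m → m ≤ d → 1 ≤ ∑ i with mm i = m, δ i →
      GoodOut (fun c : {i // mm i = m} => F' c) (∑ i with mm i = m, δ i) (o m))
    {F3 : Fam In3 (.prod .arr .arr)} (h3 : Spec3 F3) {q : ℕ} {σ : k →+* k}
    (hσ : ∀ x, σ x = x ^ q) {π : Equiv.Perm (Fin t)}
    (hπ : ∀ i, mm (π i) = mm i ∧ δ (π i) = δ i ∧
      ∃ c : k, c ≠ 0 ∧ (Fi i).map (mapRingHom σ) = C (C c) * Fi (π i)) :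
    ∃ val : Fin t → k, (∀ i j, mm i = mm j → val i = val j → i = j) ∧
      (∀ i, 1 ≤ nIt d o (mm i, δ i)) ∧
      ∀ x, 1 ≤ nIt d o x → nIt d o x = (itA mm δ x).card ∧
        (nIt d o x ≤ d ∧ x.2 ≤ d ∧ x.1 ≤ d) ∧
        (((∑ l ∈ range (d + 1), monomial l (qIt F3 d a b o x l) : L[X]).map
          (algebraMap L k) = ∏ i ∈ itA mm δ x, (X - C (val i))) ∧
        (∀ l j i, nIt d o x ≤ l → j ≤ d → i ≤ d →
          cIt F3 d a b o x ((l * (d + 1) + j) * (d + 1) + i) = 0) ∧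
        ∀ c, mm c = x.1 → δ c = x.2 → ∀ i ≤ d, ∀ j ≤ d,
          ∑ l ∈ range (d + 1), algebraMap L k
              (cIt F3 d a b o x ((l * (d + 1) + j) * (d + 1) + i)) * val c ^ l =
            ((shf (-algebraMap L k a) (-algebraMap L k b) (F' c)).coeff j).coeff i) ∧
        ItemOK q (nIt d o x) ((x.2 + 1) ^ 2) (qIt F3 d a b o x)
          (toE d x.2 (nIt d o x) (cIt F3 d a b o x)) ((itA mm δ x).image val)
          (itemPerm val π (itA mm δ x)) := by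
  set nn : ℕ → ℕ := fun m => ∑ i with mm i = m, δ i with hnn
  obtain ⟨val, hval, hkey⟩ := good_key (L := L) (k := k) hmm hδ hsum
    (fun i => ⟨(hF' i).1, (hF' i).2.1, (hF' i).2.2.1⟩) hsep (nn := nn) (fun m => rfl)
    (o := o) ho1 ho h3 (a := a) (b := b)
  have hnnd : ∀ m, 1 ≤ m → nn m ≤ d := fun m hm => by
    rw [hnn, ← hsum]
    calc ∑ i with mm i = m, δ i ≤ ∑ i with mm i = m, mm i * δ i :=
          Finset.sum_le_sum fun i _ => Nat.le_mul_of_pos_left _ (hmm i)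
      _ ≤ ∑ i, mm i * δ i := Finset.sum_le_sum_of_subset (Finset.filter_subset _ _)
  have hmmd : ∀ i, mm i ≤ d ∧ δ i ≤ d := fun i => by
    have h1 : mm i * δ i ≤ d := by
      rw [← hsum]
      exact Finset.single_le_sum (f := fun i => mm i * δ i) (fun _ _ => Nat.zero_le _)
        (Finset.mem_univ i)
    have := hmm i
    have := hδ i
    constructor <;> nlinarith
  have hδn : ∀ i, δ i ≤ nn (mm i) := fun i => by
    rw [hnn]
    exact Finset.single_le_sum (f := δ) (fun _ _ => Nat.zero_le _)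
      (Finset.mem_filter.mpr ⟨Finset.mem_univ i, rfl⟩)
  have hAm : ∀ x i, i ∈ itA mm δ x ↔ (mm i, δ i) = x := fun x i => by
    unfold itA
    rw [Finset.mem_filter, Prod.ext_iff]
    simp
  -- the items
  have hit : ∀ x, 1 ≤ nIt d o x → 1 ≤ x.1 ∧ x.1 ≤ d ∧ 1 ≤ nn x.1 ∧ 1 ≤ x.2 ∧ x.2 ≤ nn x.1 ∧
      nIt d o x = numc (nn x.1) x.2 (o x.1).2.2.2.2 := by
    intro x hx
    unfold nIt at hx ⊢
    split_ifs at hx ⊢ with h
    · obtain ⟨h1, h2, h4⟩ := h
      have h5 : 1 ≤ x.1 := by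
        rcases Nat.eq_zero_or_pos x.1 with h | h
        · rw [h, ho0] at h2
          omega
        · exact h
      have h6 : (o x.1).1 = nn x.1 := ho1 x.1 h5 (by omega)
      rw [h6] at h2 ⊢
      exact ⟨h5, by omega, by omega, by omega, h2, rfl⟩
    · omega
  have hNi : ∀ i, 1 ≤ nIt d o (mm i, δ i) := by
    intro i
    have h1 := hmm i
    have h2 := (hmmd i).1
    have h4 := hδn i
    have h5 := hδ i
    have h6 : (o (mm i)).1 = nn (mm i) := ho1 (mm i) h1 h2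
    obtain ⟨-, k2, -⟩ := hkey (mm i) h1 h2 (by omega) (δ i) h5 h4
    unfold nIt
    rw [if_pos ⟨by simp only; omega, by rw [h6]; exact h4, by simp only; omega⟩]
    simp only
    rw [h6, k2]
    refine Finset.card_pos.mpr ⟨i, ?_⟩
    rw [Finset.mem_filter]
    exact ⟨Finset.mem_univ _, rfl, rfl⟩
  refine ⟨val, hval, hNi, fun x hx => ?_⟩
  obtain ⟨h1, h2, h4, h5, h6, h7⟩ := hit x hx
  obtain ⟨k1, k2, k3, k4⟩ := hkey x.1 h1 h2 h4 x.2 h5 h6
  have hcd : nIt d o x = (itA mm δ x).card := by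
    rw [h7, k2]
    rfl
  have hNd : nIt d o x ≤ d := by
    rw [hcd, Finset.card_eq_sum_ones, ← hsum]
    refine (Finset.sum_le_sum fun i _ => ?_).trans
      (Finset.sum_le_sum_of_subset (Finset.subset_univ (itA mm δ x)))
    exact Nat.mul_pos (hmm i) (hδ i)
  have hx2 : x.2 ≤ d := h6.trans (hnnd _ h1)
  have k1' : (∑ l ∈ range (d + 1), monomial l (qIt F3 d a b o x l) : L[X]).map
          (algebraMap L k) = ∏ i ∈ itA mm δ x, (X - C (val i)) := k1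
  rw [← h7] at k3
  refine ⟨hcd, ⟨hNd, hx2, h2⟩, ⟨k1', k3, k4⟩, ?_⟩
  have hunit : ∀ c : k, c ≠ 0 → IsUnit (C (C c) : k[X][X]) := fun c hc =>
    isUnit_C.2 (isUnit_C.2 (isUnit_iff_ne_zero.2 hc))
  set P : Fin t → k[X][X] := fun i => shf (-algebraMap L k a) (-algebraMap L k b) (F' i) with hPdef
  have hP : ∀ i, TD (δ i) (P i) ∧ ∃ c, c ≠ 0 ∧ P i = C (C c) * Fi i := fun i =>
    ⟨TD_shf _ _ (hF' i).2.2.1, (hF' i).2.2.2⟩
  have hPirr : ∀ i, Irreducible (P i) := fun i => by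
    obtain ⟨c, hc, hc'⟩ := (hP i).2
    rw [hc', irreducible_isUnit_mul (hunit c hc)]
    exact hirr i
  have hPF : ∀ i, Associated (P i) (Fi i) := fun i => by
    obtain ⟨c, hc, hc'⟩ := (hP i).2
    rw [hc']
    exact associated_unit_mul_left _ _ (hunit c hc)
  have hPna : Pairwise fun i j => ¬ Associated (P i) (P j) := fun i j hij h =>
    hna hij ((hPF i).symm.trans (h.trans (hPF j)))
  have hπP : ∀ i, mm (π i) = mm i ∧ δ (π i) = δ i ∧ ∃ c : k, c ≠ 0 ∧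
      (P i).map (mapRingHom σ) = C (C c) * P (π i) := by
    intro i
    obtain ⟨h1, h2, c, hc, hc'⟩ := hπ i
    obtain ⟨c1, hc1, hc1'⟩ := (hP i).2
    obtain ⟨c2, hc2, hc2'⟩ := (hP (π i)).2
    refine ⟨h1, h2, σ c1 * c * c2⁻¹, ?_, ?_⟩
    · exact mul_ne_zero (mul_ne_zero ((_root_.map_ne_zero _).mpr hc1) hc) (inv_ne_zero hc2)
    · have e1 : (P i).map (mapRingHom σ) = C (C (σ c1 * c)) * Fi (π i) := by
        rw [hc1', Polynomial.map_mul, map_C, coe_mapRingHom, map_C, hc', ← mul_assoc,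
          ← C_mul, ← C_mul]
      have e2 : C (C (σ c1 * c * c2⁻¹)) * P (π i) = C (C (σ c1 * c)) * Fi (π i) := by
        rw [hc2', ← mul_assoc, ← C_mul, ← C_mul, mul_assoc _ c2⁻¹ c2, inv_mul_cancel₀ hc2,
          mul_one]
      rw [e1, e2]
  exact (item_ok (fun i => (hP i).1) hPirr hPna (q := q) hσ hπP hval hx2 hNd k1'
    hcd k3 k4).2

end Pool.Agent.AbsIrr
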