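import Mathlib
import Pool.Agent.Lib.MP_2adc98_lc.XAsm
import Pool.Agent.Lib.MP_2adc98_lc.FCount
import Pool.Agent.Lib.MP_2adc98_lc.FMain

/-!
# MP_2adc98_lc, stage 3: the count for the random elements of stage 2
-/

set_option autoImplicit false

namespace Pool.Agent.AbsIrr

open Finset Polynomial

open Classical in
/-- the union bound -/
private theorem bad_union7 {L : Type} (S : Finset L) {M d : ℕ} {E0 : (Fin M → L) → Prop}
    {E1 E2 : ℕ → (Fin M → L) → Prop} {nn : ℕ → ℕ} {B : (Fin M → L) → Prop}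
    (h0 : ((Fintype.piFinset fun _ : Fin M => S).filter E0).card * S.card ≤
      (4 * d ^ 2 + 1) * S.card ^ M)
    (h1 : ∀ m, 1 ≤ m → m ≤ d → 1 ≤ nn m →
      ((Fintype.piFinset fun _ : Fin M => S).filter (E1 m)).card * S.card ≤ nn m * S.card ^ M)
    (h2 : ∀ m, 1 ≤ m → m ≤ d → 1 ≤ nn m →
      ((Fintype.piFinset fun _ : Fin M => S).filter (E2 m)).card * S.card ≤
        nn m ^ 2 * S.card ^ M)
    (hnn : ∑ m ∈ range (d + 1), nn m ≤ d)
    (hB : ∀ ω, (∀ i, ω i ∈ S) → B ω → E0 ω ∨ ∃ m, 1 ≤ m ∧ m ≤ d ∧ 1 ≤ nn m ∧ (E1 m ω ∨ E2 m ω))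
    (hd : 1 ≤ d) :
    ((Fintype.piFinset fun _ : Fin M => S).filter B).card * S.card ≤
      7 * d ^ 2 * S.card ^ M := by
  set P := Fintype.piFinset fun _ : Fin M => S with hP
  set I := (range (d + 1)).filter (fun m => 1 ≤ m ∧ 1 ≤ nn m) with hI
  have hIm : ∀ m ∈ I, 1 ≤ m ∧ m ≤ d ∧ 1 ≤ nn m := fun m hm => by
    rw [hI, Finset.mem_filter, Finset.mem_range] at hm
    exact ⟨hm.2.1, by omega, hm.2.2⟩
  have hsub : P.filter B ⊆ P.filter E0 ∪ I.biUnion fun m => P.filter (E1 m) ∪ P.filter (E2 m) := by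
    intro ω hω
    rw [Finset.mem_filter] at hω
    have hωS : ∀ i, ω i ∈ S := Fintype.mem_piFinset.mp hω.1
    rw [Finset.mem_union, Finset.mem_biUnion]
    rcases hB ω hωS hω.2 with h | ⟨m, g1, g2, g3, g4⟩
    · exact Or.inl (Finset.mem_filter.mpr ⟨hω.1, h⟩)
    · refine Or.inr ⟨m, ?_, ?_⟩
      · rw [hI, Finset.mem_filter, Finset.mem_range]
        exact ⟨by omega, g1, g3⟩
      · rw [Finset.mem_union, Finset.mem_filter, Finset.mem_filter]
        rcases g4 with g4 | g4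
        · exact Or.inl ⟨hω.1, g4⟩
        · exact Or.inr ⟨hω.1, g4⟩
  have hcard : (P.filter B).card ≤ (P.filter E0).card +
      ∑ m ∈ I, ((P.filter (E1 m)).card + (P.filter (E2 m)).card) := by
    refine (Finset.card_le_card hsub).trans ((Finset.card_union_le _ _).trans ?_)
    refine Nat.add_le_add_left (Finset.card_biUnion_le.trans ?_) _
    exact Finset.sum_le_sum fun m _ => Finset.card_union_le _ _
  have hsum1 : ∑ m ∈ I, nn m ≤ d :=
    (Finset.sum_le_sum_of_subset (Finset.filter_subset _ _)).trans hnn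
  have hsum2 : ∑ m ∈ I, nn m ^ 2 ≤ d ^ 2 := by
    calc ∑ m ∈ I, nn m ^ 2 ≤ ∑ m ∈ I, nn m * d := by
          refine Finset.sum_le_sum fun m hm => ?_
          rw [sq]
          refine Nat.mul_le_mul_left _ ?_
          exact (Finset.single_le_sum (f := nn) (fun _ _ => Nat.zero_le _) hm).trans hsum1
      _ = (∑ m ∈ I, nn m) * d := by rw [Finset.sum_mul]
      _ ≤ d * d := Nat.mul_le_mul_right _ hsum1
      _ = d ^ 2 := (sq d).symm
  calc (P.filter B).card * S.card ≤ ((P.filter E0).card +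
        ∑ m ∈ I, ((P.filter (E1 m)).card + (P.filter (E2 m)).card)) * S.card :=
          Nat.mul_le_mul_right _ hcard
      _ = (P.filter E0).card * S.card + ∑ m ∈ I, ((P.filter (E1 m)).card * S.card +
          (P.filter (E2 m)).card * S.card) := by
        rw [Nat.add_mul, Finset.sum_mul]
        simp only [Nat.add_mul]
      _ ≤ (4 * d ^ 2 + 1) * S.card ^ M + ∑ m ∈ I, (nn m * S.card ^ M +
          nn m ^ 2 * S.card ^ M) := by
        refine Nat.add_le_add h0 (Finset.sum_le_sum fun m hm => ?_)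
        obtain ⟨g1, g2, g3⟩ := hIm m hm
        exact Nat.add_le_add (h1 m g1 g2 g3) (h2 m g1 g2 g3)
      _ = ((4 * d ^ 2 + 1) + (∑ m ∈ I, nn m + ∑ m ∈ I, nn m ^ 2)) * S.card ^ M := by
        rw [Nat.add_mul, Finset.sum_add_distrib, ← Finset.sum_mul, ← Finset.sum_mul]
        ring
      _ ≤ 7 * d ^ 2 * S.card ^ M := by
        refine Nat.mul_le_mul_right _ ?_
        nlinarith

section XQ6
variable (κ q b : ℕ → ℕ → ℕ)
  (Fsh : Fam (.prod .nat (.prod .fld (.prod .fld .arr))) .arr)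
  (Fmd : Fam (.prod .nat (.prod .nat .arr)) .arr) (F1 : Fam In1 Ot1)

/-- the outputs of stage 2 for the multiplicities -/
noncomputable def oOf {L : Type} [Field L] (d p : ℕ) (A ω : ℕ → L) (m : ℕ) : Ot1.val L :=
  (a1 F1 L (a0 κ q b Fsh Fmd L (d, (p, (A, ω))), m)).2

open Classical in
/-- what stage 2 delivers -/
def St2OK {L : Type} [Field L] {k : Type} [Field k] [Algebra L k] (d p : ℕ) (A ω : ℕ → L)
    {t : ℕ} (Fi : Fin t → k[X][X]) (δ mm : Fin t → ℕ) (F' : Fin t → k[X][X]) : Prop :=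
  (∀ i, (F' i).Monic ∧ (F' i).natDegree = δ i ∧ TD (δ i) (F' i) ∧
    ∃ c, c ≠ 0 ∧ shf (-algebraMap L k (ω 0)) (-algebraMap L k (ω 1)) (F' i) =
      C (C c) * Fi i) ∧
  (at0 (∏ i, F' i)).Separable ∧
  aN0 L (a0 κ q b Fsh Fmd L (d, (p, (A, ω)))) = d + 1 ∧
  (oOf κ q b Fsh Fmd F1 d p A ω 0).1 = 0 ∧
  (∀ m, 1 ≤ m → m ≤ d → (oOf κ q b Fsh Fmd F1 d p A ω m).1 = ∑ i with mm i = m, δ i) ∧
  ∀ m, 1 ≤ m → m ≤ d → 1 ≤ ∑ i with mm i = m, δ i →
    GoodOut (fun c : {i // mm i = m} => F' c) (∑ i with mm i = m, δ i)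
      (oOf κ q b Fsh Fmd F1 d p A ω m)

/-- stage 2 reads only the first part of the tape -/
theorem oOf_congr {L : Type} [Field L] (d p : ℕ) (A : ℕ → L) {ω ω' : ℕ → L}
    (h : ∀ i < len2 κ d p, ω i = ω' i) :
    oOf κ q b Fsh Fmd F1 d p A ω = oOf κ q b Fsh Fmd F1 d p A ω' ∧
      aN0 L (a0 κ q b Fsh Fmd L (d, (p, (A, ω)))) =
        aN0 L (a0 κ q b Fsh Fmd L (d, (p, (A, ω')))) := by
  have h0 : ω 0 = ω' 0 := h 0 (by unfold len2; omega)
  have h1 : ω 1 = ω' 1 := h 1 (by unfold len2; omega)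
  have hS : aS L (d, (p, (A, ω))) = aS L (d, (p, (A, ω'))) := by
    change tabF d (fun i => ω (2 + i)) = tabF d (fun i => ω' (2 + i))
    funext j
    unfold tabF
    split_ifs with hj
    · exact h _ (by unfold len2; omega)
    · rfl
  have hOm : aOm κ L (d, (p, (A, ω))) = aOm κ L (d, (p, (A, ω'))) := by
    change tabF (d * 2 ^ κ d p) (fun i => ω (2 + d + i)) =
      tabF (d * 2 ^ κ d p) (fun i => ω' (2 + d + i))
    funext j
    unfold tabF
    split_ifs with hj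
    · exact h _ (by unfold len2; omega)
    · rfl
  have hFn : tFn Fsh L (d, (p, (A, ω))) = tFn Fsh L (d, (p, (A, ω'))) := by
    rw [FMn.fT_eq, FMn.fT_eq, h0, h1]
  have hRho : aRho Fsh Fmd L (d, (p, (A, ω))) = aRho Fsh Fmd L (d, (p, (A, ω'))) := by
    rw [FMn.rT_eq, FMn.rT_eq, h0, h1]
  have hSh : tSh Fsh L (d, (p, (A, ω))) = tSh Fsh L (d, (p, (A, ω'))) :=
    FMn.tSh_congr ω' ω h0 h1
  constructor
  · funext m
    have e : aIn1 L (a0 κ q b Fsh Fmd L (d, (p, (A, ω))), m) =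
        aIn1 L (a0 κ q b Fsh Fmd L (d, (p, (A, ω'))), m) := by
      simp only [aIn1, aLen, a0, aPrm, hFn, hRho, hS, hOm]
    change F1 L _ = F1 L _
    rw [e]
  · exact congrArg (fun s : ℕ → L => @ite ℕ (s (d * (d + 1)) = 0)
      (Classical.propDecidable _) 0 (d + 1)) hSh

variable {κ q b Fsh Fmd F1} (hsh : SpecSh Fsh) (hmd : FMn.SpecMd Fmd)
  (hok : ∀ (K : Type) [Field K] (κ q e b d p m : ℕ) (f rho s ω : ℕ → K),
      CostOK d m rho (F1 K (κ, (q, (e, (b, (d, (p, (m, (f, (rho, (s, ω))))))))))))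
  (h1s : Spec1 F1)

open Classical in
include hsh hmd hok h1s in
theorem stage2_count {L : Type} [Field L] {k : Type} [Field k] [IsAlgClosed k] [Algebra L k]
    {p d : ℕ} [CharP L p] [Fact p.Prime] [PerfectRing L p] {F : L[X][X]} (hd : 1 ≤ d)
    (hF : TD d F) (htop : ∃ j ≤ d, (F.coeff j).coeff (d - j) ≠ 0) {e M₁ : ℕ}
    (hκ : 5 * d ^ 2 < 2 ^ κ d p) (hq : q d p = p ^ e) (hM1 : 2 ^ κ d p ≤ p ^ e * M₁)
    (hM2 : 1 ≤ M₁) (hM3 : M₁ ≤ p) (hM4 : M₁ ≤ 2 ^ b d p) {A : ℕ → L}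
    (hA : ∀ n < (d + 1) * (d + 1), A n = coeffs2 (d + 1) F n) (S : Finset L)
    {M : ℕ} (hM : len2 κ d p ≤ M) {t : ℕ} {Fi : Fin t → k[X][X]} {δ mm : Fin t → ℕ} {u : k}
    (hu : u ≠ 0) (hG : F.map (mapRingHom (algebraMap L k)) = C (C u) * ∏ i, Fi i ^ mm i)
    (hFi : ∀ i, Irreducible (Fi i) ∧ 1 ≤ δ i ∧ 1 ≤ mm i ∧ TD (δ i) (Fi i) ∧
      ∃ j ≤ δ i, ((Fi i).coeff j).coeff (δ i - j) ≠ 0)
    (hna : Pairwise fun i j => ¬ Associated (Fi i) (Fi j)) (hsum : ∑ i, mm i * δ i = d) :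
    ((Fintype.piFinset fun _ : Fin M => S).filter fun ω =>
      ¬ ∃ F' : Fin t → k[X][X],
        St2OK κ q b Fsh Fmd F1 d p A (tape ω) Fi δ mm F').card * S.card ≤
      7 * d ^ 2 * S.card ^ M := by
  unfold len2 at hM
  set σ := algebraMap L k with hσ
  set G := F.map (mapRingHom σ) with hGdef
  have hTDG : TD d G := by
    intro j hj
    have h1 : G.coeff j = (F.coeff j).map σ := by rw [hGdef, coeff_map, coe_mapRingHom]
    rw [h1] at hj ⊢
    have h2 : F.coeff j ≠ 0 := by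
      intro h
      rw [h, Polynomial.map_zero] at hj
      exact hj rfl
    rw [natDegree_map]
    exact hF j h2
  have htopG : ∃ j ≤ d, (G.coeff j).coeff (d - j) ≠ 0 := by
    obtain ⟨j, hj, hj'⟩ := htop
    refine ⟨j, hj, ?_⟩
    rw [hGdef, coeff_map, coe_mapRingHom, coeff_map]
    exact (map_ne_zero σ).mpr hj'
  set good : L → L → Prop := fun a b' => (∀ i, (shf (σ a) (σ b') (Fi i)).coeff (δ i) ≠ 0) ∧
    (at0 (∏ i, shf (σ a) (σ b') (Fi i))).Separable with hgood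
  have hgs : ∀ a b' : L, good a b' → ∃ F' : Fin t → k[X][X],
      (∀ i, (F' i).Monic ∧ (F' i).natDegree = δ i ∧ TD (δ i) (F' i) ∧ Irreducible (F' i) ∧
        ∃ c : k, c ≠ 0 ∧ shf (-σ a) (-σ b') (F' i) = C (C c) * Fi i) ∧
      (shf (σ a) (σ b') G).coeff d ≠ 0 ∧ nrm d (σ a) (σ b') G = ∏ i, F' i ^ mm i ∧
      (at0 (∏ i, F' i)).Separable := fun a b' h =>
    good_shift hu hG (fun i => ⟨(hFi i).1, (hFi i).2.1, (hFi i).2.2.2.1⟩) hTDG hsum h.1 h.2
  choose! F' hF' using hgs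
  set nn : ℕ → ℕ := fun m => ∑ i with mm i = m, δ i with hnn
  have hsumδ : ∑ i, δ i ≤ d := by
    rw [← hsum]
    exact Finset.sum_le_sum fun i _ => Nat.le_mul_of_pos_left _ (hFi i).2.2.1
  have hnnd : ∀ m, nn m ≤ d := fun m =>
    (Finset.sum_le_sum_of_subset (Finset.filter_subset _ _)).trans hsumδ
  have hsumnn : ∑ m ∈ range (d + 1), nn m ≤ d :=
    (Finset.sum_fiberwise_le_sum_of_sum_fiber_nonneg (fun _ _ => Nat.zero_le _)).trans hsumδ
  -- the shifted polynomial over `L`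
  have htopab : ∀ a b' : L, good a b' → (shf a b' F).coeff d ≠ 0 := by
    intro a b' h h0
    have h1 := (hF' a b' h).2.1
    rw [hGdef, ← shf_map, coeff_map, h0, map_zero] at h1
    exact h1 rfl
  have hmapab : ∀ a b' : L, good a b' →
      (nrm d a b' F).map (mapRingHom σ) = ∏ i, F' a b' i ^ mm i := fun a b' h => by
    rw [FMn.nrm_map]
    exact (hF' a b' h).2.2.1
  have hrho : ∀ a b' : L, good a b' →
      IsRho d (at0 ((nrm d a b' F).map (mapRingHom σ))) (FMn.rT Fsh Fmd p d A a b') :=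
    fun a b' h => FMn.rT_spec hsh hmd hF hA (htopab a b' h) _
  have hp1 : ∀ a b' : L, good a b' → ∀ m, 1 ≤ m →
      ((∀ i, mm i ≠ m) → ∀ s ω, (outm κ b Fsh Fmd F1 p d e A a b' m s ω).1 = 0) ∧
      (1 ≤ nn m → ∃ R : (Fin (nn m) × Fin (2 ^ κ d p - 3 * nn m) → L) → Prop,
        (∀ S : Finset L, ((Fintype.piFinset fun _ : Fin (nn m) ×
          Fin (2 ^ κ d p - 3 * nn m) => S).filter fun Ω => ¬ R Ω).card * S.card ≤
            nn m * S.card ^ (nn m * (2 ^ κ d p - 3 * nn m))) ∧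
        ∀ ω : ℕ → L, R (fun qq => ω (qq.1 * (2 ^ κ d p - 3 * nn m) + qq.2)) →
          ∀ S : Finset L, ((Fintype.piFinset fun _ : Fin (nn m) => S).filter fun s =>
            ¬ GoodOut (fun c : {i // mm i = m} => F' a b' c) (nn m)
              (outm κ b Fsh Fmd F1 p d e A a b' m (tape s) ω)).card * S.card ≤
                nn m ^ 2 * S.card ^ nn m) := by
    intro a b' h m hm
    obtain ⟨e1, e2, e3, -, -⟩ := nrm_spec hF a b' (htopab a b' h)
    obtain ⟨g1, g2, g3, g4⟩ := hF' a b' h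
    have hh := h1s L (k) (κ d p) e (b d p) d p m M₁ t
      (FMn.fT Fsh p d A a b') (FMn.rT Fsh Fmd p d A a b') (nrm d a b' F) (F' a b') mm e1 e2 e3
      (fun i hi => FMn.fT_spec hsh hF hA a b' i hi)
      (fun i => ⟨(g1 i).1, by rw [(g1 i).2.1]; exact (g1 i).2.2.1, (g1 i).2.2.2.1,
        (hFi i).2.2.1⟩) (hmapab a b' h) g4 (hrho a b' h) hκ hM1 hM2 hM3 hM4 hm
    refine ⟨hh.1, fun hn1 => ?_⟩
    have hn : nn m = ∑ i with mm i = m, (F' a b' i).natDegree := by
      rw [hnn]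
      exact Finset.sum_congr rfl fun i _ => (g1 i).2.1.symm
    exact hh.2 (nn m) hn hn1
  have hR : ∀ (a b' : L) (m : ℕ), good a b' → 1 ≤ m → 1 ≤ nn m →
      ∃ R : (Fin (nn m) × Fin (2 ^ κ d p - 3 * nn m) → L) → Prop,
        (∀ S : Finset L, ((Fintype.piFinset fun _ : Fin (nn m) ×
          Fin (2 ^ κ d p - 3 * nn m) => S).filter fun Ω => ¬ R Ω).card * S.card ≤
            nn m * S.card ^ (nn m * (2 ^ κ d p - 3 * nn m))) ∧
        ∀ ω : ℕ → L, R (fun qq => ω (qq.1 * (2 ^ κ d p - 3 * nn m) + qq.2)) →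
          ∀ S : Finset L, ((Fintype.piFinset fun _ : Fin (nn m) => S).filter fun s =>
            ¬ GoodOut (fun c : {i // mm i = m} => F' a b' c) (nn m)
              (outm κ b Fsh Fmd F1 p d e A a b' m (tape s) ω)).card * S.card ≤
                nn m ^ 2 * S.card ^ nn m := fun a b' m h h1 h2 => (hp1 a b' h m h1).2 h2
  choose! R hR1 hR2 using hR
  have hn2κ : ∀ m, nn m * (2 ^ κ d p - 3 * nn m) ≤ d * 2 ^ κ d p := fun m =>
    Nat.mul_le_mul (hnnd m) (Nat.sub_le _ _)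
  suffices hsuff : (@Finset.filter _ (fun ω => ¬ ∃ F' : Fin t → k[X][X],
      St2OK κ q b Fsh Fmd F1 d p A (tape ω) Fi δ mm F')
      (fun _ => Classical.propDecidable _) (Fintype.piFinset fun _ : Fin M => S)).card *
        S.card ≤ 7 * d ^ 2 * S.card ^ M by
    exact le_of_eq_of_le (congrArg (· * S.card) (card_filter_inst _ _)) hsuff
  refine bad_union7 S (d := d) (nn := nn)
    (E0 := fun ω => ¬ good (tape ω 0) (tape ω 1))
    (E1 := fun m ω => good (tape ω 0) (tape ω 1) ∧ ¬ R (tape ω 0) (tape ω 1) m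
      (fun qq => omT κ d p (tape ω) (qq.1 * (2 ^ κ d p - 3 * nn m) + qq.2)))
    (E2 := fun m ω => good (tape ω 0) (tape ω 1) ∧ R (tape ω 0) (tape ω 1) m
      (fun qq => omT κ d p (tape ω) (qq.1 * (2 ^ κ d p - 3 * nn m) + qq.2)) ∧
      ¬ GoodOut (fun c : {i // mm i = m} => F' (tape ω 0) (tape ω 1) c) (nn m)
        (outm κ b Fsh Fmd F1 p d e A (tape ω 0) (tape ω 1) m
          (tape (fun i : Fin (nn m) => tape ω (2 + i))) (omT κ d p (tape ω))))
    ?_ ?_ ?_ hsumnn ?_ hd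
  · -- bad shifts
    refine bad_shift S (by omega) (E := fun a b' => ¬ good a b') ?_
    have h1 := bad_count_sq (k := k) (fun i => (hFi i).1) hna
      (fun i => (hFi i).2.2.2.1) (fun i => (hFi i).2.2.2.2) hsumδ (S.image σ)
    rw [Finset.card_image_of_injective S σ.injective] at h1
    refine le_trans (Finset.card_le_card_of_injOn (fun ab => (σ ab.1, σ ab.2)) ?_ ?_) h1
    · intro x hx
      simp only [Finset.coe_filter, Set.mem_ofPred_eq, Finset.mem_product] at hx ⊢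
      exact ⟨⟨Finset.mem_image_of_mem _ hx.1.1, Finset.mem_image_of_mem _ hx.1.2⟩, hx.2⟩
    · intro x _ y _ hxy
      exact Prod.ext (σ.injective (Prod.ext_iff.mp hxy).1) (σ.injective (Prod.ext_iff.mp hxy).2)
  · -- bad `Ω`
    intro m hm1 hmd hn1
    have hidx : ∀ qq : Fin (nn m) × Fin (2 ^ κ d p - 3 * nn m), (qq.1 : ℕ) * (2 ^ κ d p - 3 * nn m) + qq.2 <
        d * 2 ^ κ d p := by
      intro qq
      refine lt_of_lt_of_le ?_ (hn2κ m)
      calc (qq.1 : ℕ) * (2 ^ κ d p - 3 * nn m) + qq.2 < qq.1 * (2 ^ κ d p - 3 * nn m) + (2 ^ κ d p - 3 * nn m) := by have := qq.2.2; omega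
        _ = (qq.1 + 1) * (2 ^ κ d p - 3 * nn m) := by ring
        _ ≤ nn m * (2 ^ κ d p - 3 * nn m) := Nat.mul_le_mul_right _ qq.1.2
    have hφlt : ∀ qq : Fin (nn m) × Fin (2 ^ κ d p - 3 * nn m), 2 + d + ((qq.1 : ℕ) * (2 ^ κ d p - 3 * nn m) + qq.2) < M := fun qq => by
      have := hidx qq
      omega
    have hφinj : Function.Injective (fun qq : Fin (nn m) × Fin (2 ^ κ d p - 3 * nn m) =>
        (⟨2 + d + ((qq.1 : ℕ) * (2 ^ κ d p - 3 * nn m) + qq.2), hφlt qq⟩ : Fin M)) := by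
      intro x y hxy
      have h1 : 2 + d + ((x.1 : ℕ) * (2 ^ κ d p - 3 * nn m) + x.2) = 2 + d + ((y.1 : ℕ) * (2 ^ κ d p - 3 * nn m) + y.2) :=
        congrArg Fin.val hxy
      have h2 : (x.1 : ℕ) * (2 ^ κ d p - 3 * nn m) + x.2 = (y.1 : ℕ) * (2 ^ κ d p - 3 * nn m) + y.2 := by omega
      obtain ⟨h3, h4⟩ := digit_inj x.2.2 y.2.2 h2
      exact Prod.ext (Fin.ext h3) (Fin.ext h4)
    refine count_inj' S (ι := Fin (nn m) × Fin (2 ^ κ d p - 3 * nn m)) ⟨_, hφinj⟩ _ (nn m) (fun ω₀ _ => ?_)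
    have hcard : Fintype.card (Fin (nn m) × Fin (2 ^ κ d p - 3 * nn m)) = nn m * (2 ^ κ d p - 3 * nn m) := by simp
    rw [hcard]
    set φ : Fin (nn m) × Fin (2 ^ κ d p - 3 * nn m) ↪ Fin M := ⟨_, hφinj⟩ with hφ
    have hφv : ∀ i, (φ i : ℕ) = 2 + d + ((i.1 : ℕ) * (2 ^ κ d p - 3 * nn m) + i.2) := fun i => rfl
    have e0 : ∀ x : Fin (nn m) × Fin (2 ^ κ d p - 3 * nn m) → L, tape (Function.extend φ x ω₀) 0 = tape ω₀ 0 :=
      fun x => tape_extend' φ x ω₀ (fun i => by rw [hφv]; omega)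
    have e1 : ∀ x : Fin (nn m) × Fin (2 ^ κ d p - 3 * nn m) → L, tape (Function.extend φ x ω₀) 1 = tape ω₀ 1 :=
      fun x => tape_extend' φ x ω₀ (fun i => by rw [hφv]; omega)
    have e2 : ∀ x : Fin (nn m) × Fin (2 ^ κ d p - 3 * nn m) → L, (fun qq : Fin (nn m) × Fin (2 ^ κ d p - 3 * nn m) =>
        omT κ d p (tape (Function.extend φ x ω₀)) (qq.1 * (2 ^ κ d p - 3 * nn m) + qq.2)) = x := by
      intro x
      funext qq
      unfold omT tabF
      rw [if_pos (hidx qq)]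
      exact tape_extend φ x ω₀ qq
    simp only [e0, e1, e2]
    by_cases hg : good (tape ω₀ 0) (tape ω₀ 1)
    · refine le_trans (Nat.mul_le_mul_right _ (Finset.card_le_card ?_))
        (hR1 (tape ω₀ 0) (tape ω₀ 1) m hg hm1 hn1 S)
      intro x hx
      rw [Finset.mem_filter] at hx ⊢
      exact ⟨hx.1, hx.2.2⟩
    · rw [Finset.filter_false_of_mem (fun x _ h => hg h.1), Finset.card_empty, Nat.zero_mul]
      exact Nat.zero_le _
  · -- bad kernel vectors
    intro m hm1 hmd hn1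
    have hφlt : ∀ i : Fin (nn m), 2 + (i : ℕ) < M := by
      intro i
      have := i.2
      have := hnnd m
      omega
    have hφinj : Function.Injective (fun i : Fin (nn m) => (⟨2 + i, hφlt i⟩ : Fin M)) := by
      intro x y hxy
      have h1 : 2 + (x : ℕ) = 2 + y := congrArg Fin.val hxy
      exact Fin.ext (by omega)
    refine count_inj' S (ι := Fin (nn m)) ⟨_, hφinj⟩ _ (nn m ^ 2) (fun ω₀ _ => ?_)
    rw [Fintype.card_fin]
    set φ : Fin (nn m) ↪ Fin M := ⟨_, hφinj⟩ with hφ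
    have hφv : ∀ i, (φ i : ℕ) = 2 + (i : ℕ) := fun i => rfl
    have e0 : ∀ x : Fin (nn m) → L, tape (Function.extend φ x ω₀) 0 = tape ω₀ 0 :=
      fun x => tape_extend' φ x ω₀ (fun i => by rw [hφv]; omega)
    have e1 : ∀ x : Fin (nn m) → L, tape (Function.extend φ x ω₀) 1 = tape ω₀ 1 :=
      fun x => tape_extend' φ x ω₀ (fun i => by rw [hφv]; omega)
    have e2 : ∀ x : Fin (nn m) → L, omT κ d p (tape (Function.extend φ x ω₀)) =
        omT κ d p (tape ω₀) := by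
      intro x
      unfold omT tabF
      funext j
      split_ifs
      · refine tape_extend' φ x ω₀ (fun i => ?_)
        rw [hφv]
        have := i.2
        have := hnnd m
        omega
      · rfl
    have e3 : ∀ x : Fin (nn m) → L, (fun i : Fin (nn m) =>
        tape (Function.extend φ x ω₀) (2 + i)) = x := by
      intro x
      funext i
      exact tape_extend φ x ω₀ i
    simp only [e0, e1, e2, e3]
    by_cases hg : good (tape ω₀ 0) (tape ω₀ 1) ∧ R (tape ω₀ 0) (tape ω₀ 1) m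
      (fun qq => omT κ d p (tape ω₀) (qq.1 * (2 ^ κ d p - 3 * nn m) + qq.2))
    · refine le_trans (Nat.mul_le_mul_right _ (Finset.card_le_card ?_))
        (hR2 (tape ω₀ 0) (tape ω₀ 1) m hg.1 hm1 hn1 _ hg.2 S)
      intro x hx
      rw [Finset.mem_filter] at hx ⊢
      exact ⟨hx.1, hx.2.2.2⟩
    · rw [Finset.filter_false_of_mem (fun x _ h => hg ⟨h.1, h.2.1⟩), Finset.card_empty,
        Nat.zero_mul]
      exact Nat.zero_le _
  · -- the good choices
    intro ω hω hbad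
    by_contra hcon
    push Not at hcon
    obtain ⟨hg, hall⟩ := hcon
    set a := tape ω 0 with ha
    set b' := tape ω 1 with hb'
    set x : Inp.val L := (d, (p, (A, tape ω))) with hx
    set y := a0 κ q b Fsh Fmd L x with hy
    set z : ℕ → St1.val L := fun m => a1 F1 L (y, m) with hz
    set o : ℕ → Ot1.val L := fun m => (z m).2 with ho
    obtain ⟨e1, e2, e3, -, -⟩ := nrm_spec hF a b' (htopab a b' hg)
    obtain ⟨g1, g2, g3, g4⟩ := hF' a b' hg
    -- the lengths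
    have hlen : ∀ m, 1 ≤ m → m ≤ d → aLen L (y, m) = nn m := by
      intro m hm1 hmd
      have h1 : at0 ((nrm d a b' F).map (mapRingHom σ)) = ∏ i, at0 (F' a b' i) ^ mm i := by
        rw [hmapab a b' hg, FMn.at0_prod]
        exact Finset.prod_congr rfl fun i _ => FMn.at0_pow _ _
      have h2 := hrho a b' hg
      rw [h1] at h2
      have h3 : (∏ i, at0 (F' a b' i) ^ mm i).natDegree ≤ d := by
        rw [← h1]
        unfold at0
        exact natDegree_map_le.trans (natDegree_map_le.trans e2.le)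
      have h4 := FMn.adeg_diff (P := fun i => at0 (F' a b' i)) (fun i => (g1 i).1.map _)
        (by rw [← FMn.at0_prod]; exact g4) h3 h2 hm1 hmd
      have h5 : aLen L (y, m) = adeg (d + 1) (blkA (d + 1) (m - 1) (FMn.rT Fsh Fmd p d A a b')) -
          adeg (d + 1) (blkA (d + 1) m (FMn.rT Fsh Fmd p d A a b')) := by
        rw [← FMn.rT_eq (tape ω)]
        rfl
      rw [h5, h4, hnn]
      refine Finset.sum_congr rfl fun i _ => ?_
      unfold at0
      rw [(g1 i).1.natDegree_map, (g1 i).2.1]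
    have hout : ∀ m, o m = outm κ b Fsh Fmd F1 p d e A a b' m
        (tabF (aLen L (y, m)) (aS L x)) (omT κ d p (tape ω)) := by
      intro m
      have hlog : Nat.log p (q d p) = e := by
        rw [hq]
        exact Nat.log_pow (Fact.out : p.Prime).one_lt e
      have h1 : o m = F1 L (κ d p, (q d p, (Nat.log p (q d p), (b d p, (d, (p, (m,
          (tFn Fsh L x, (aRho Fsh Fmd L x, (tabF (aLen L (y, m)) (aS L x),
            omT κ d p (tape ω))))))))))) := rfl
      rw [h1, hlog, hq, FMn.fT_eq, FMn.rT_eq]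
      rfl
    have htab : ∀ m, 1 ≤ m → m ≤ d → tabF (aLen L (y, m)) (aS L x) =
        tape (fun i : Fin (nn m) => tape ω (2 + i)) := by
      intro m hm1 hmd
      rw [hlen m hm1 hmd]
      funext j
      unfold tabF
      change (if j < nn m then (if j < d then tape ω (2 + j) else 0) else 0) = _
      split_ifs with h1 h2
      · rw [tape_lt _ h1]
      · have := hnnd m
        omega
      · unfold tape
        rw [dif_neg h1]
    have hGood : ∀ m, 1 ≤ m → m ≤ d → 1 ≤ nn m →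
        GoodOut (fun c : {i // mm i = m} => F' a b' c) (nn m) (o m) := by
      intro m hm1 hmd hn1
      rw [hout, htab m hm1 hmd]
      obtain ⟨h1, h2⟩ := hall m hm1 hmd hn1
      exact h2 hg (h1 hg)
    have hout1 : ∀ m, 1 ≤ m → m ≤ d → (o m).1 = nn m := by
      intro m hm1 hmd
      rcases Nat.eq_zero_or_pos (nn m) with h0 | h0
      · rw [h0, hout]
        refine (hp1 a b' hg m hm1).1 (fun i hi => ?_) _ _
        have h1 : δ i ≤ nn m := by
          rw [hnn]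
          exact Finset.single_le_sum (f := δ) (fun _ _ => Nat.zero_le _)
            (Finset.mem_filter.mpr ⟨Finset.mem_univ i, hi⟩)
        have := (hFi i).2.1
        omega
      · exact (hGood m hm1 hmd h0).1
    have hout0 : (o 0).1 = 0 := by
      have h1 := hok L (κ d p) (q d p) (Nat.log p (q d p)) (b d p) d p 0 (tFn Fsh L x)
        (aRho Fsh Fmd L x) (tabF (aLen L (y, 0)) (aS L x)) (aOm κ L x)
      exact h1.2.1 rfl
    have hN0 : aN0 L y = d + 1 := by
      have h1 := tSh_top (p := p) hsh hF hA (tape ω)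
      have h2 := shf_coeff_eq_C a b' hF
      have h3 : tSh Fsh L x (d * (d + 1)) ≠ 0 := by
        rw [hx, h1]
        intro h
        rw [h, C_0] at h2
        exact htopab a b' hg h2
      exact if_neg h3
    exact hbad ⟨F' a b', fun i => ⟨(g1 i).1, (g1 i).2.1, (g1 i).2.2.1, (g1 i).2.2.2.2⟩, g4,
      hN0, hout0, hout1, hGood⟩

end XQ6

end Pool.Agent.AbsIrr
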