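import Mathlib
import Pool.Agent.Lib.MP_2adc98_lc.XAsm

/-!
# MP_2adc98_lc, stage 3: unfolding the program (keys, the printed list, the number of steps)
-/

set_option autoImplicit false

namespace Pool.Agent.AbsIrr

open Finset Polynomial

theorem mem_keyK {N0 : ℕ} {n : ℕ → ℕ} {N2 N3 : ℕ → ℕ → ℕ} {N4 : ℕ → ℕ → ℕ → ℕ}
    {x : (ℕ × ℕ) × ℕ} : x ∈ keyK N0 n N2 N3 N4 ↔ x.1.1 < N0 ∧ x.1.2 ≤ n x.1.1 ∧
      N2 x.1.1 x.1.2 ≠ 0 ∧ x.2 < N3 x.1.1 x.1.2 ∧ N4 x.1.1 x.1.2 x.2 ≠ 0 := by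
  unfold keyK
  simp only [List.mem_flatMap, List.mem_range, List.mem_map]
  constructor
  · rintro ⟨m, hm, δ, hδ, l, hl, t, ht, j, hj, rfl⟩
    exact ⟨hm, by simpa using Nat.lt_succ_iff.mp hδ, by simp only; omega, ht, by simp only; omega⟩
  · rintro ⟨h1, h2, h3, h4, h5⟩
    exact ⟨x.1.1, h1, x.1.2, by omega, 0, by omega, x.2, h4, 0, by omega, rfl⟩

theorem nodup_keyK {N0 : ℕ} {n : ℕ → ℕ} {N2 N3 : ℕ → ℕ → ℕ} {N4 : ℕ → ℕ → ℕ → ℕ}
    (h : ∀ m δ, N2 m δ ≤ 1) (h' : ∀ m δ t, N4 m δ t ≤ 1) : (keyK N0 n N2 N3 N4).Nodup := by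
  unfold keyK
  rw [List.nodup_flatMap]
  refine ⟨fun m _ => ?_, ?_⟩
  · rw [List.nodup_flatMap]
    refine ⟨fun δ _ => ?_, ?_⟩
    · rw [List.nodup_flatMap]
      refine ⟨fun l _ => ?_, ?_⟩
      · rw [List.nodup_flatMap]
        refine ⟨fun t _ => ?_, ?_⟩
        · have h1 := h' m δ t
          interval_cases N4 m δ t
          · simp
          · simp [List.range_succ]
        · refine (List.nodup_range (n := N3 m δ)).imp ?_
          intro t t' hne
          rw [Function.onFun, List.disjoint_left]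
          intro x h1 h2
          rw [List.mem_map] at h1 h2
          obtain ⟨_, _, rfl⟩ := h1
          obtain ⟨_, _, h3⟩ := h2
          exact hne (Prod.ext_iff.mp h3).2.symm
      · have h1 := h m δ
        interval_cases N2 m δ
        · simp
        · simp [List.range_succ]
    · refine (List.nodup_range (n := n m + 1)).imp ?_
      intro δ δ' hne
      rw [Function.onFun, List.disjoint_left]
      intro x h1 h2
      simp only [List.mem_flatMap, List.mem_map] at h1 h2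
      obtain ⟨_, _, _, _, _, _, rfl⟩ := h1
      obtain ⟨_, _, _, _, _, _, h3⟩ := h2
      exact hne (Prod.ext_iff.mp (Prod.ext_iff.mp h3).1).2.symm
  · refine (List.nodup_range (n := N0)).imp ?_
    intro m m' hne
    rw [Function.onFun, List.disjoint_left]
    intro x h1 h2
    simp only [List.mem_flatMap, List.mem_map] at h1 h2
    obtain ⟨_, _, _, _, _, _, _, _, rfl⟩ := h1
    obtain ⟨_, _, _, _, _, _, _, _, h3⟩ := h2
    exact hne (Prod.ext_iff.mp (Prod.ext_iff.mp h3).1).1.symm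

theorem flatK_eq {α : Type*} {N0 : ℕ} {n : ℕ → ℕ} {N2 N3 : ℕ → ℕ → ℕ} {N4 : ℕ → ℕ → ℕ → ℕ}
    (v : ℕ → ℕ → ℕ → α) :
    ((List.range N0).flatMap fun m => (List.range (n m + 1)).flatMap fun δ =>
      (List.range (N2 m δ)).flatMap fun _ => (List.range (N3 m δ)).flatMap fun t =>
        (List.range (N4 m δ t)).flatMap fun _ => [v m δ t]) =
      (keyK N0 n N2 N3 N4).map fun x => v x.1.1 x.1.2 x.2 := by
  unfold keyK
  rw [List.map_flatMap]
  refine List.flatMap_congr fun m _ => ?_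
  rw [List.map_flatMap]
  refine List.flatMap_congr fun δ _ => ?_
  rw [List.map_flatMap]
  refine List.flatMap_congr fun l _ => ?_
  rw [List.map_flatMap]
  refine List.flatMap_congr fun t _ => ?_
  rw [List.map_map]
  induction List.range (N4 m δ t) with
  | nil => rfl
  | cons a l ih => simp [ih]

section
variable {K : Type} [Field K] {s0 : PProg InpK T0} {sN0 : PProg T0 .nat}
    {s1 : PProg (.prod T0 .nat) T1} {sN1 : PProg T1 .nat} {sN2 : PProg T2 .nat}
    {s3 : PProg (.prod T2 .nat) T3} {sN3 : PProg T3 .nat} {s4 : PProg (.prod T3 .nat) T4}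
    {sN4 : PProg T4 .nat} {s5 : PProg (.prod T4 .nat) Prt} {x : InpK.val K} {y : T0.val K}
    {N0 : ℕ} {z : ℕ → T1.val K} {n : ℕ → ℕ} {N2 N3 : ℕ → ℕ → ℕ} {w : ℕ → ℕ → T3.val K}
    {u : ℕ → ℕ → ℕ → T4.val K} {N4 : ℕ → ℕ → ℕ → ℕ} {v : ℕ → ℕ → ℕ → Prt.val K}

theorem theOutK_eval (h0 : s0.run K x = y) (hN0 : sN0.run K y = N0)
    (h1 : ∀ m, s1.run K (y, m) = z m) (hN1 : ∀ m, sN1.run K (z m) = n m + 1)
    (hN2 : ∀ m δ, sN2.run K (z m, δ) = N2 m δ)
    (h3 : ∀ m δ l, s3.run K ((z m, δ), l) = w m δ) (hN3 : ∀ m δ, sN3.run K (w m δ) = N3 m δ)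
    (h4 : ∀ m δ t, s4.run K (w m δ, t) = u m δ t) (hN4 : ∀ m δ t, sN4.run K (u m δ t) = N4 m δ t)
    (h5 : ∀ m δ t j, s5.run K (u m δ t, j) = v m δ t) :
    (theOutK s0 sN0 s1 sN1 sN2 s3 sN3 s4 sN4 s5).eval K x =
      (keyK N0 n N2 N3 N4).map fun x => v x.1.1 x.1.2 x.2 := by
  rw [← flatK_eq]
  change ((List.range (sN0.eval K (s0.eval K x))).flatMap fun m =>
    (List.range (sN1.eval K (s1.eval K (s0.eval K x, m)))).flatMap fun δ =>
      (List.range (sN2.eval K (s1.eval K (s0.eval K x, m), δ))).flatMap fun l =>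
        (List.range (sN3.eval K (s3.eval K ((s1.eval K (s0.eval K x, m), δ), l)))).flatMap
          fun t => (List.range (sN4.eval K (s4.eval K
            (s3.eval K ((s1.eval K (s0.eval K x, m), δ), l), t)))).flatMap fun j =>
            [s5.eval K (s4.eval K (s3.eval K ((s1.eval K (s0.eval K x, m), δ), l), t), j)]) = _
  simp only [PProg.eval_eq, h0, hN0, h1, hN1, hN2, h3, hN3, h4, hN4, h5]

theorem theOutK_steps (h0 : s0.run K x = y) (hN0 : sN0.run K y = N0)
    (h1 : ∀ m, s1.run K (y, m) = z m) (hN1 : ∀ m, sN1.run K (z m) = n m + 1)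
    (hN2 : ∀ m δ, sN2.run K (z m, δ) = N2 m δ)
    (h3 : ∀ m δ l, s3.run K ((z m, δ), l) = w m δ) (hN3 : ∀ m δ, sN3.run K (w m δ) = N3 m δ)
    (h4 : ∀ m δ t, s4.run K (w m δ, t) = u m δ t)
    (hN4 : ∀ m δ t, sN4.run K (u m δ t) = N4 m δ t) :
    (theOutK s0 sN0 s1 sN1 sN2 s3 sN3 s4 sN4 s5).steps K x = s0.bcost K x + (sN0.bcost K y +
      (∑ m ∈ range N0, (s1.bcost K (y, m) + (sN1.bcost K (z m) + (∑ δ ∈ range (n m + 1),
      ((sN2.bcost K (z m, δ) + (∑ l ∈ range (N2 m δ), ((s3.bcost K ((z m, δ), l) +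
        (sN3.bcost K (w m δ) + (∑ t ∈ range (N3 m δ), ((s4.bcost K (w m δ, t) +
          (sN4.bcost K (u m δ t) + (∑ j ∈ range (N4 m δ t), (s5.bcost K (u m δ t, j) + 1 +
            bitc j 0)) + 1) + 1) + bitc t 0)) + 1)) + 1 +
        bitc l 0)) + 1) + bitc δ 0)) + 1) + 1 + bitc m 0)) + 1) + 1 := by
  change s0.steps K x + (sN0.steps K (s0.eval K x) +
      (∑ m ∈ range (sN0.eval K (s0.eval K x)), (s1.steps K (s0.eval K x, m) +
        (sN1.steps K (s1.eval K (s0.eval K x, m)) +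
        (∑ δ ∈ range (sN1.eval K (s1.eval K (s0.eval K x, m))),
      ((sN2.steps K (s1.eval K (s0.eval K x, m), δ) +
        (∑ l ∈ range (sN2.eval K (s1.eval K (s0.eval K x, m), δ)),
          ((s3.steps K ((s1.eval K (s0.eval K x, m), δ), l) +
            (sN3.steps K (s3.eval K ((s1.eval K (s0.eval K x, m), δ), l)) +
              (∑ t ∈ range (sN3.eval K (s3.eval K ((s1.eval K (s0.eval K x, m), δ), l))),
                ((s4.steps K (s3.eval K ((s1.eval K (s0.eval K x, m), δ), l), t) +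
                  (sN4.steps K (s4.eval K
                    (s3.eval K ((s1.eval K (s0.eval K x, m), δ), l), t)) +
                    (∑ j ∈ range (sN4.eval K (s4.eval K
                      (s3.eval K ((s1.eval K (s0.eval K x, m), δ), l), t))),
                      (s5.steps K (s4.eval K
                        (s3.eval K ((s1.eval K (s0.eval K x, m), δ), l), t), j) + 1 +
                        bitc j 0)) + 1) + 1) + bitc t 0)) + 1)) + 1 +
        bitc l 0)) + 1) + bitc δ 0)) + 1) + 1 + bitc m 0)) + 1) + 1 = _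
  simp only [PProg.eval_eq, PProg.steps_eq, h0, hN0, h1, hN1, hN2, h3, hN3, h4, hN4]
end

end Pool.Agent.AbsIrr
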