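import Mathlib
import Pool.Agent.Lib.MP_2adc98_lc.XItems
import Pool.Agent.Lib.MP_2adc98_lc.XR5
import Pool.Agent.Lib.MP_2adc98_lc.XQ6

/-!
# MP_2adc98_lc, stage 3: the printed list is right if all choices are good
-/

set_option autoImplicit false
set_option linter.unusedSectionVars false

namespace Pool.Agent.AbsIrr

open Finset Polynomial

theorem le_of_sum_mul {d t : ℕ} {mm δ : Fin t → ℕ} (hmm : ∀ i, 1 ≤ mm i) (hδ : ∀ i, 1 ≤ δ i)
    (hsum : ∑ i, mm i * δ i = d) (i : Fin t) : mm i ≤ d ∧ δ i ≤ d := by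
  have h1 : mm i * δ i ≤ d := by
    rw [← hsum]
    exact Finset.single_le_sum (f := fun i => mm i * δ i) (fun _ _ => Nat.zero_le _)
      (Finset.mem_univ i)
  have := hmm i
  have := hδ i
  constructor <;> nlinarith

section
variable {L : Type} [Field L] {p q : ℕ}
  {Fvt : Fam TVt .arr} {Fkh : Fam TKh .arr} {Fbt : Fam TBt .arr} {Fra : Fam TRa .arr}
  {FA : Fam TLA .arr} {FB : Fam TLA (.prod .arr .arr)} {FC : Fam TLC .arr} {Fde : Fam TDe TDo}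
  {κ qq b : ℕ → ℕ → ℕ}
  {Fsh : Fam (.prod .nat (.prod .fld (.prod .fld .arr))) .arr}
  {Fmd : Fam (.prod .nat (.prod .nat .arr)) .arr}
  {F1 : Fam In1 Ot1} {F3 : Fam In3 (.prod .arr .arr)} {d M : ℕ}

/-- the state of an item -/
noncomputable def stIt (Fvt : Fam TVt .arr) (Fkh : Fam TKh .arr) (Fbt : Fam TBt .arr)
    (Fra : Fam TRa .arr) (F3 : Fam In3 (.prod .arr .arr)) (p q M d E : ℕ) (a b : L)
    (o : ℕ → Ot1.val L) (ω₃ : ℕ → L) (m δ : ℕ) : T3.val L :=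
  (m, (d, (δ, (numc (o m).1 δ (o m).2.2.2.2, (RF d, (qIt F3 d a b o (m, δ),
      (toE d δ (numc (o m).1 δ (o m).2.2.2.2) (cIt F3 d a b o (m, δ)),
        (iW Fvt Fkh Fbt p q M (lF d) E (RF d) d δ (numc (o m).1 δ (o m).2.2.2.2)
          (qIt F3 d a b o (m, δ)) (cIt F3 d a b o (m, δ)) ω₃,
        iA Fvt Fra q (lF d) E (RF d) d δ (numc (o m).1 δ (o m).2.2.2.2)
          (qIt F3 d a b o (m, δ)) (cIt F3 d a b o (m, δ)) ω₃))))))))

theorem xb3_eq (A ω : ℕ → L) (m δ l : ℕ) :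
    xb3 F3 Fvt Fkh Fbt Fra L ((xb1 F1 L (xb0 κ qq b Fsh Fmd L (d, (p, (q, (M, (A, ω))))), m),
      δ), l) =
    stIt Fvt Fkh Fbt Fra F3 p q M d (min (Nat.log q M) (lF d)) (ω 0) (ω 1)
      (oOf κ qq b Fsh Fmd F1 d p A ω) (tabF (len3 d (RF d)) (fun i => ω (len2 κ d p + i)))
      m δ := by
  rfl

/-- the state after a descent -/
theorem xb4_eq (E t m δ : ℕ) (a b : L) (o : ℕ → Ot1.val L) (ω₃ : ℕ → L) :
    xb4 Fde L (stIt Fvt Fkh Fbt Fra F3 p q M d E a b o ω₃ m δ, t) =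
      (stIt Fvt Fkh Fbt Fra F3 p q M d E a b o ω₃ m δ,
        Fde L (numc (o m).1 δ (o m).2.2.2.2, (RF d, (qIt F3 d a b o (m, δ),
          (iW Fvt Fkh Fbt p q M (lF d) E (RF d) d δ (numc (o m).1 δ (o m).2.2.2.2)
          (qIt F3 d a b o (m, δ)) (cIt F3 d a b o (m, δ)) ω₃, t))))) := rfl

theorem xb5_eq (E m δ j : ℕ) (a b : L) (o : ℕ → Ot1.val L) (ω₃ : ℕ → L) (s : TDo.val L) :
    xb5 FA FB FC L ((stIt Fvt Fkh Fbt Fra F3 p q M d E a b o ω₃ m δ, s), j) =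
      fLf FA FB FC L (m, (d, (δ, (numc (o m).1 δ (o m).2.2.2.2, (RF d,
        (toE d δ (numc (o m).1 δ (o m).2.2.2.2) (cIt F3 d a b o (m, δ)),
          (iA Fvt Fra q (lF d) E (RF d) d δ (numc (o m).1 δ (o m).2.2.2.2)
            (qIt F3 d a b o (m, δ)) (cIt F3 d a b o (m, δ)) ω₃, s.2))))))) := rfl

end

section
variable {K : Type} [Field K] [Fintype K] {L : Type} [Field L] [Fintype L]
  [Algebra K L] [Algebra L (AlgebraicClosure K)] [IsScalarTower K L (AlgebraicClosure K)]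
  {p r q E : ℕ} [Fact p.Prime]
  [CharP (AlgebraicClosure K) p] (hq : q = p ^ r) (hr : 1 ≤ r) (hE : 1 ≤ E)
  (hK : Fintype.card K = q) (hcard : Fintype.card L = q ^ E)
  {Fvt : Fam TVt .arr} {Fkh : Fam TKh .arr} {Fbt : Fam TBt .arr} {Fra : Fam TRa .arr}
  {FA : Fam TLA .arr} {FB : Fam TLA (.prod .arr .arr)} {FC : Fam TLC .arr} {Fde : Fam TDe TDo}
  (hvt : SpecVt Fvt) (hkh : SpecKh Fkh) (hbt : SpecBt Fbt) (hra : SpecRa Fra)
  (hA : SpecLA FA) (hB : SpecLB FB) (hC : SpecLC FC) (hde : SpecDe Fde)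
  {κ qq b : ℕ → ℕ → ℕ}
  {Fsh : Fam (.prod .nat (.prod .fld (.prod .fld .arr))) .arr}
  {Fmd : Fam (.prod .nat (.prod .nat .arr)) .arr}
  {F1 : Fam In1 Ot1} {F3 : Fam In3 (.prod .arr .arr)} {d : ℕ}

open Classical in
include hq hr hE hK hcard hvt hkh hbt hra hA hB hC hde in
theorem final_ok {Φ : ∀ (K : Type) [Field K], MvPolynomial (Fin 2) K ≃+* K[X][X]}
    (hΦc : ∀ (K : Type) [Field K] (f : MvPolynomial (Fin 2) K) (i j : ℕ),
      ((Φ K f).coeff j).coeff i = f.coeff (Finsupp.single 0 i + Finsupp.single 1 j))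
    {f : MvPolynomial (Fin 2) K} {t : ℕ}
    {Fi F' : Fin t → (AlgebraicClosure K)[X][X]} {δ mm : Fin t → ℕ} {u : AlgebraicClosure K}
    (hu : u ≠ 0)
    (hG : Φ (AlgebraicClosure K) (MvPolynomial.map (algebraMap K (AlgebraicClosure K)) f) =
      C (C u) * ∏ i, Fi i ^ mm i)
    (hirr : ∀ i, Irreducible (Fi i)) (hna : Pairwise fun i j => ¬ Associated (Fi i) (Fi j))
    (hmm : ∀ i, 1 ≤ mm i) (hδ : ∀ i, 1 ≤ δ i) (hsum : ∑ i, mm i * δ i = d)
    {π : Equiv.Perm (Fin t)}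
    (hπ : ∀ i, mm (π i) = mm i ∧ δ (π i) = δ i ∧ ∃ c : AlgebraicClosure K, c ≠ 0 ∧
      (Fi i).map (mapRingHom (iterateFrobenius (AlgebraicClosure K) p r)) = C (C c) * Fi (π i))
    {a b' : L} {o : ℕ → Ot1.val L} {A ω : ℕ → L} (ha : ω 0 = a) (hb : ω 1 = b')
    (ho : oOf κ qq b Fsh Fmd F1 d p A ω = o)
    (hN0 : aN0 L (a0 κ qq b Fsh Fmd L (d, (p, (A, ω)))) = d + 1)
    (hF' : ∀ i, (F' i).Monic ∧ (F' i).natDegree = δ i ∧ TD (δ i) (F' i) ∧
      ∃ c, c ≠ 0 ∧ shf (-algebraMap L (AlgebraicClosure K) a)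
        (-algebraMap L (AlgebraicClosure K) b') (F' i) = C (C c) * Fi i)
    {val : Fin t → AlgebraicClosure K} (hval : ∀ i j, mm i = mm j → val i = val j → i = j)
    (hNi : ∀ i, 1 ≤ nIt d o (mm i, δ i))
    (hit : ∀ x, 1 ≤ nIt d o x → nIt d o x = (itA mm δ x).card ∧
        (nIt d o x ≤ d ∧ x.2 ≤ d ∧ x.1 ≤ d) ∧
        (((∑ l ∈ range (d + 1), monomial l (qIt F3 d a b' o x l) : L[X]).map
          (algebraMap L (AlgebraicClosure K)) = ∏ i ∈ itA mm δ x, (X - C (val i))) ∧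
        (∀ l j i, nIt d o x ≤ l → j ≤ d → i ≤ d →
          cIt F3 d a b' o x ((l * (d + 1) + j) * (d + 1) + i) = 0) ∧
        ∀ c, mm c = x.1 → δ c = x.2 → ∀ i ≤ d, ∀ j ≤ d,
          ∑ l ∈ range (d + 1), algebraMap L (AlgebraicClosure K)
              (cIt F3 d a b' o x ((l * (d + 1) + j) * (d + 1) + i)) * val c ^ l =
            ((shf (-algebraMap L (AlgebraicClosure K) a) (-algebraMap L (AlgebraicClosure K) b')
              (F' c)).coeff j).coeff i))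
    {ω₃ : ℕ → L} (hω₃ : tabF (len3 d (RF d)) (fun i => ω (len2 κ d p + i)) = ω₃)
    (hl : Fintype.card L < 2 ^ lF d)
    (hgood : ∀ x, 1 ≤ nIt d o x → GoodIt Fvt Fkh p q E (lF d) (RF d) d x.2 (nIt d o x)
      (qIt F3 d a b' o x) (cIt F3 d a b' o x) ω₃
      ((itA mm δ x).image val) (itemPerm val π (itA mm δ x)))
    {s0 : PProg InpK T0} {sN0 : PProg T0 .nat} {s1 : PProg (.prod T0 .nat) T1}
    {sN1 : PProg T1 .nat} {sN2 : PProg T2 .nat} {s3 : PProg (.prod T2 .nat) T3}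
    {sN3 : PProg T3 .nat} {s4 : PProg (.prod T3 .nat) T4} {sN4 : PProg T4 .nat}
    {s5 : PProg (.prod T4 .nat) Prt}
    (r0 : ∀ x, s0.run L x = xb0 κ qq b Fsh Fmd L x) (rN0 : ∀ x, sN0.run L x = xbN0 L x)
    (r1 : ∀ x, s1.run L x = xb1 F1 L x) (rN1 : ∀ x, sN1.run L x = xbN1 L x)
    (rN2 : ∀ x, sN2.run L x = xbN2 L x) (r3 : ∀ x, s3.run L x = xb3 F3 Fvt Fkh Fbt Fra L x)
    (rN3 : ∀ x, sN3.run L x = xbN3 L x) (r4 : ∀ x, s4.run L x = xb4 Fde L x)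
    (rN4 : ∀ x, sN4.run L x = xbN4 L x) (r5 : ∀ x, s5.run L x = xb5 FA FB FC L x) :
    ∃ T : List (Triple K), IsAbsFact f T ∧
      ((theOutK s0 sN0 s1 sN1 sN2 s3 sN3 s4 sN4 s5).eval L
        (d, (p, (q, (Fintype.card L, (A, ω)))))).map (decode d) = T.map (Triple.map K L) := by
  -- the logarithm
  have hp2 : 2 ≤ p := (Fact.out : p.Prime).two_le
  have hq2 : 2 ≤ q := by
    rw [hq]
    calc 2 ≤ p := hp2
      _ = p ^ 1 := (pow_one p).symm
      _ ≤ p ^ r := Nat.pow_le_pow_right (by omega) hr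
  have hlog : min (Nat.log q (Fintype.card L)) (lF d) = E := by
    rw [hcard, Nat.log_pow (by omega)]
    refine min_eq_left ?_
    have h1 : 2 ^ E < 2 ^ lF d := by
      refine lt_of_le_of_lt ?_ hl
      rw [hcard]
      exact Nat.pow_le_pow_left hq2 E
    exact ((Nat.pow_lt_pow_iff_right (by norm_num)).mp h1).le
  -- the run
  set x₀ : InpK.val L := (d, (p, (q, (Fintype.card L, (A, ω))))) with hx₀
  set y := xb0 κ qq b Fsh Fmd L x₀ with hy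
  set z : ℕ → T1.val L := fun m => xb1 F1 L (y, m) with hz
  set w : ℕ → ℕ → T3.val L := fun m δ => xb3 F3 Fvt Fkh Fbt Fra L ((z m, δ), 0) with hw
  set v : ℕ → ℕ → ℕ → T4.val L := fun m δ t => xb4 Fde L (w m δ, t) with hv
  have ho' : ∀ m, (z m).2.2 = o m := fun m => by rw [← ho]; rfl
  have heval := theOutK_eval (s0 := s0) (sN0 := sN0) (s1 := s1) (sN1 := sN1) (sN2 := sN2)
    (s3 := s3) (sN3 := sN3) (s4 := s4) (sN4 := sN4) (s5 := s5) (K := L) (x := x₀) (y := y)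
    (N0 := xbN0 L y) (z := z) (n := fun m => (z m).2.2.1) (N2 := fun m δ => xbN2 L (z m, δ))
    (w := w) (N3 := fun m δ => xbN3 L (w m δ)) (u := v) (N4 := fun m δ t => xbN4 L (v m δ t))
    (v := fun m δ t => xb5 FA FB FC L (v m δ t, 0))
    (r0 x₀) (rN0 y) (fun m => r1 (y, m)) (fun m => rN1 (z m)) (fun m δ => rN2 (z m, δ))
    (fun m δ l => r3 ((z m, δ), l)) (fun m δ => rN3 _) (fun m δ t => r4 _) (fun m δ t => rN4 _)
    (fun m δ t j => r5 (v m δ t, j))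
  -- the values
  have hweq : ∀ m δ, w m δ = stIt Fvt Fkh Fbt Fra F3 p q (Fintype.card L) d E a b' o ω₃ m δ := by
    intro m δ
    have h := xb3_eq (p := p) (q := q) (Fvt := Fvt) (Fkh := Fkh) (Fbt := Fbt) (Fra := Fra)
      (κ := κ) (qq := qq) (b := b) (Fsh := Fsh) (Fmd := Fmd) (F1 := F1) (F3 := F3) (d := d)
      (M := Fintype.card L) A ω m δ 0
    rw [hlog, ha, hb, hω₃, ho] at h
    exact h
  have hveq : ∀ m δ t, v m δ t = (stIt Fvt Fkh Fbt Fra F3 p q (Fintype.card L) d E a b' o ω₃ m δ,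
      Fde L (numc (o m).1 δ (o m).2.2.2.2, (RF d, (qIt F3 d a b' o (m, δ),
          (iW Fvt Fkh Fbt p q (Fintype.card L) (lF d) E (RF d) d δ
            (numc (o m).1 δ (o m).2.2.2.2)
          (qIt F3 d a b' o (m, δ)) (cIt F3 d a b' o (m, δ)) ω₃, t))))) := by
    intro m δ t
    have h : v m δ t = xb4 Fde L (w m δ, t) := rfl
    rw [h, hweq, xb4_eq]
  have hNn : ∀ x : (ℕ × ℕ) × ℕ, x.2 < nIt d o x.1 →
      nIt d o x.1 = numc (o x.1.1).1 x.1.2 (o x.1.1).2.2.2.2 ∧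
      x.1.1 < d + 1 ∧ x.1.2 ≤ (o x.1.1).1 ∧ x.1.2 ≠ 0 := by
    intro x hx
    unfold nIt at hx ⊢
    split_ifs at hx ⊢ with h
    · exact ⟨rfl, h⟩
    · omega
  set keys := keyK (xbN0 L y) (fun m => (z m).2.2.1) (fun m δ => xbN2 L (z m, δ))
    (fun m δ => xbN3 L (w m δ)) (fun m δ t => xbN4 L (v m δ t)) with hkeysdef
  have e0 : xbN0 L y = d + 1 := hN0
  have e1 : ∀ m, (z m).2.2.1 = (o m).1 := fun m => by rw [ho']
  have e2 : ∀ m δ, xbN2 L (z m, δ) =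
      if δ = 0 then 0 else if numc (o m).1 δ (o m).2.2.2.2 = 0 then 0 else 1 := by
    intro m δ
    rw [← ho']
    rfl
  have e3 : ∀ m δ, xbN3 L (w m δ) = numc (o m).1 δ (o m).2.2.2.2 := fun m δ => by
    rw [hweq]
    rfl
  have e4 : ∀ m δ t, xbN4 L (v m δ t) = if (Fde L (numc (o m).1 δ (o m).2.2.2.2, (RF d,
      (qIt F3 d a b' o (m, δ),
      (iW Fvt Fkh Fbt p q (Fintype.card L) (lF d) E (RF d) d δ (numc (o m).1 δ (o m).2.2.2.2)
          (qIt F3 d a b' o (m, δ)) (cIt F3 d a b' o (m, δ)) ω₃, t))))).1 = 0 then 1 else 0 :=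
    fun m δ t => by
      rw [hveq]
      rfl
  have hkeys : ∀ x, x ∈ keys ↔ x.2 < nIt d o x.1 ∧
      (Fde L (nIt d o x.1, (RF d, (qIt F3 d a b' o x.1,
      (iW Fvt Fkh Fbt p q (Fintype.card L) (lF d) E (RF d) d x.1.2 (nIt d o x.1)
        (qIt F3 d a b' o x.1) (cIt F3 d a b' o x.1) ω₃, x.2))))).1 = 0 := by
    rintro ⟨⟨m, δ'⟩, t'⟩
    rw [hkeysdef, mem_keyK]
    dsimp only
    rw [e0, e1, e2, e3, e4]
    constructor
    · rintro ⟨h1, h2, h3, h4, h5⟩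
      have h6 : δ' ≠ 0 := by
        intro h
        rw [if_pos h] at h3
        exact h3 rfl
      have h7 : nIt d o (m, δ') = numc (o m).1 δ' (o m).2.2.2.2 := by
        unfold nIt
        rw [if_pos ⟨h1, h2, h6⟩]
      rw [h7]
      refine ⟨h4, ?_⟩
      by_contra hcon
      exact h5 (if_neg hcon)
    · rintro ⟨h1, h2⟩
      obtain ⟨h3, h4, h5, h6⟩ := hNn ((m, δ'), t') h1
      dsimp only at h3 h4 h5 h6
      rw [h3] at h1 h2
      refine ⟨h4, h5, ?_, h1, ?_⟩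
      · rw [if_neg h6, if_neg (by omega)]
        exact one_ne_zero
      · rw [if_pos h2]
        exact one_ne_zero
  have hnd : keys.Nodup := by
    rw [hkeysdef]
    refine nodup_keyK (fun m δ => ?_) (fun m δ t => ?_)
    · rw [e2]
      split_ifs <;> simp
    · rw [e4]
      split_ifs <;> simp
  have hmmd := le_of_sum_mul hmm hδ hsum
  obtain ⟨T, hT1, hT2⟩ := final_list hq hr hE hK hcard hvt hkh hbt hra hA hB hC hde hl hΦc hu hG
    hirr hna (fun i => ⟨hmm i, (hmmd i).1⟩) (fun i => ⟨hδ i, (hmmd i).2⟩)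
    (P := fun i => shf (-algebraMap L (AlgebraicClosure K) a)
        (-algebraMap L (AlgebraicClosure K) b') (F' i))
    (fun i => ⟨TD_shf _ _ (hF' i).2.2.1, (hF' i).2.2.2⟩) hπ hval (N := nIt d o)
    (Qp := qIt F3 d a b' o) (Fp := cIt F3 d a b' o) (fun x hx => (hit x hx).1) hNi
    (fun x hx => ⟨(hit x hx).2.1.1, (hit x hx).2.1.2.1⟩) (fun x hx => (hit x hx).2.2) hgood
    keys hnd hkeys
  refine ⟨T, hT1, ?_⟩
  rw [heval, List.map_map, ← hT2]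
  refine List.map_congr_left ?_
  rintro ⟨⟨m, δ'⟩, t'⟩ hx
  obtain ⟨h1, -⟩ := (hkeys _).mp hx
  obtain ⟨h3, -⟩ := hNn _ h1
  dsimp only at h3 ⊢
  rw [h3, Function.comp_apply, hveq, xb5_eq]

end

end Pool.Agent.AbsIrr
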