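import Mathlib
import Pool.Agent.Lib.MP_2adc98_lc.XDefs

/-!
# MP_2adc98_lc, stage 3, XM1: the permutation of the factors
-/

set_option autoImplicit false

namespace Pool.Agent.AbsIrr

open Finset Polynomial

/-- the action of `σ` on the polynomials in two variables, as an isomorphism -/
private noncomputable def xm1S {k : Type} [Field k] (σ : k ≃+* k) : k[X][X] ≃+* k[X][X] :=
  Polynomial.mapEquiv (Polynomial.mapEquiv σ)

private theorem xm1S_apply {k : Type} [Field k] (σ : k ≃+* k) (P : k[X][X]) :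
    xm1S σ P = P.map (mapRingHom (σ : k →+* k)) := rfl

private theorem xm1S_coeff {k : Type} [Field k] (σ : k ≃+* k) (P : k[X][X]) (j l : ℕ) :
    ((xm1S σ P).coeff j).coeff l = σ ((P.coeff j).coeff l) := by
  rw [xm1S_apply, coeff_map, coe_mapRingHom, coeff_map]
  rfl

private theorem xm1_td {k : Type} [Field k] {D : ℕ} {P : k[X][X]} (h : TD D P) {j l : ℕ}
    (hne : (P.coeff j).coeff l ≠ 0) : l + j ≤ D := by
  have h1 : P.coeff j ≠ 0 := by
    intro h0
    rw [h0, coeff_zero] at hne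
    exact hne rfl
  have h2 := h j h1
  have h3 := le_natDegree_of_ne_zero hne
  omega

private theorem xm1_pow {R : Type} [CommRing R] [IsDomain R] [UniqueFactorizationMonoid R]
    {t : ℕ} {F : Fin t → R} {m : Fin t → ℕ} {U : R} (hU : IsUnit U) {G : R}
    (hG : G = U * ∏ i, F i ^ m i)
    (hF : ∀ i, Irreducible (F i)) (hna : Pairwise fun i j => ¬ Associated (F i) (F j))
    (i : Fin t) (a : ℕ) (h : F i ^ a ∣ G) : a ≤ m i := by
  classical
  have hp : Prime (F i) := (hF i).prime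
  rw [hG, hU.dvd_mul_left, ← Finset.mul_prod_erase Finset.univ _ (Finset.mem_univ i)] at h
  have hnd : ¬ F i ∣ ∏ j ∈ Finset.univ.erase i, F j ^ m j := by
    intro hd
    obtain ⟨j, hj, hd'⟩ := (hp.dvd_finsetProd_iff _).1 hd
    have h1 : F i ∣ F j := hp.dvd_of_dvd_pow hd'
    exact hna (Finset.ne_of_mem_erase hj).symm ((hF i).associated_of_dvd (hF j) h1)
  have h2 := hp.pow_dvd_of_dvd_mul_right a hnd h
  exact (pow_dvd_pow_iff hp.ne_zero (hF i).not_isUnit).1 h2

private theorem xm1_abs {R : Type} [CommRing R] [IsDomain R] [UniqueFactorizationMonoid R]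
    (S : R ≃+* R) {t : ℕ} {F : Fin t → R} {m : Fin t → ℕ} {U : R} (hU : IsUnit U) {G : R}
    (hG : G = U * ∏ i, F i ^ m i) (hS : S G = G) (hF : ∀ i, Irreducible (F i))
    (hm : ∀ i, 1 ≤ m i) (hna : Pairwise fun i j => ¬ Associated (F i) (F j)) :
    ∃ π : Equiv.Perm (Fin t), ∀ i, m (π i) = m i ∧ Associated (S (F i)) (F (π i)) := by
  classical
  have hirr : ∀ i, Irreducible (S (F i)) := fun i =>
    (MulEquiv.irreducible_iff S).2 (hF i)
  have hdvd : ∀ i, F i ^ m i ∣ G := fun i => by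
    rw [hG]
    exact (Finset.dvd_prod_of_mem (fun j => F j ^ m j) (Finset.mem_univ i)).mul_left _
  have hex : ∀ i, ∃ j, Associated (S (F i)) (F j) := by
    intro i
    have hp : Prime (S (F i)) := (hirr i).prime
    have h0 : F i ∣ G := (dvd_pow_self (F i) (by have := hm i; omega)).trans (hdvd i)
    have h1 : S (F i) ∣ G := by
      have h2 : S (F i) ∣ S G := map_dvd S h0
      rw [hS] at h2
      exact h2
    rw [hG, hU.dvd_mul_left] at h1
    obtain ⟨j, -, hj⟩ := (hp.dvd_finsetProd_iff _).1 h1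
    exact ⟨j, (hirr i).associated_of_dvd (hF j) (hp.dvd_of_dvd_pow hj)⟩
  choose π hπ using hex
  have hinj : Function.Injective π := by
    intro i i' h
    by_contra hne
    have h1 : Associated (S (F i)) (S (F i')) :=
      (hπ i).trans (by rw [h]; exact (hπ i').symm)
    have h2 : Associated (F i) (F i') := by
      have h3 := h1.map S.symm
      rw [RingEquiv.symm_apply_apply, RingEquiv.symm_apply_apply] at h3
      exact h3
    exact hna hne h2
  refine ⟨Equiv.ofBijective π (Finite.injective_iff_bijective.1 hinj), fun i => ?_⟩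
  change m (π i) = m i ∧ Associated (S (F i)) (F (π i))
  refine ⟨le_antisymm ?_ ?_, hπ i⟩
  · refine xm1_pow hU hG hF hna i _ ?_
    have h1 : S (F i) ^ m (π i) ∣ G := ((hπ i).pow_pow.dvd).trans (hdvd (π i))
    rw [← hS, ← map_pow] at h1
    exact (map_dvd_iff S).1 h1
  · refine xm1_pow hU hG hF hna (π i) _ ?_
    have h1 : S (F i ^ m i) ∣ S G := map_dvd S (hdvd i)
    rw [hS, map_pow] at h1
    exact ((hπ i).symm.pow_pow.dvd).trans h1

theorem perm_factors {k : Type} [Field k] (σ : k ≃+* k) {t : ℕ} {F : Fin t → k[X][X]}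
    {m δ : Fin t → ℕ} {u : k} (hu : u ≠ 0) {G : k[X][X]} (hG : G = C (C u) * ∏ i, F i ^ m i)
    (hσ : G.map (mapRingHom (σ : k →+* k)) = G)
    (hF : ∀ i, Irreducible (F i) ∧ 1 ≤ m i ∧ TD (δ i) (F i) ∧
      ∃ j ≤ δ i, ((F i).coeff j).coeff (δ i - j) ≠ 0)
    (hna : Pairwise fun i j => ¬ Associated (F i) (F j)) :
    ∃ π : Equiv.Perm (Fin t), ∀ i, m (π i) = m i ∧ δ (π i) = δ i ∧
      ∃ c : k, c ≠ 0 ∧ (F i).map (mapRingHom (σ : k →+* k)) = C (C c) * F (π i) := by
  classical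
  have hS : xm1S σ G = G := hσ
  have hunit : IsUnit (C (C u) : k[X][X]) :=
    (isUnit_C.2 (isUnit_C.2 (isUnit_iff_ne_zero.2 hu)))
  obtain ⟨π, hπ⟩ := xm1_abs (xm1S σ) hunit hG hS (fun i => (hF i).1) (fun i => (hF i).2.1) hna
  refine ⟨π, fun i => ?_⟩
  change m (π i) = m i ∧ δ (π i) = δ i ∧
      ∃ c : k, c ≠ 0 ∧ xm1S σ (F i) = C (C c) * F (π i)
  obtain ⟨c, hc, hcF⟩ : ∃ c : k, c ≠ 0 ∧ xm1S σ (F i) = C (C c) * F (π i) := by
    obtain ⟨w, hw⟩ := (hπ i).2.symm
    obtain ⟨r, hr, hrw⟩ := Polynomial.isUnit_iff.1 w.isUnit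
    obtain ⟨c, hc, hcr⟩ := Polynomial.isUnit_iff.1 hr
    refine ⟨c, hc.ne_zero, ?_⟩
    rw [← hw, ← hrw, ← hcr, mul_comm]
  have hco : ∀ j l, σ (((F i).coeff j).coeff l) = c * (((F (π i)).coeff j).coeff l) := by
    intro j l
    rw [← xm1S_coeff, hcF, coeff_C_mul, coeff_C_mul]
  have hne : ∀ j l, ((F i).coeff j).coeff l ≠ 0 ↔ ((F (π i)).coeff j).coeff l ≠ 0 := by
    intro j l
    rw [← (map_ne_zero_iff σ σ.injective), hco]
    simp [hc]
  refine ⟨(hπ i).1, le_antisymm ?_ ?_, c, hc, hcF⟩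
  · obtain ⟨j, hj, h1⟩ := (hF (π i)).2.2.2
    have h2 := xm1_td (hF i).2.2.1 ((hne _ _).2 h1)
    omega
  · obtain ⟨j, hj, h1⟩ := (hF i).2.2.2
    have h2 := xm1_td (hF (π i)).2.2.1 ((hne _ _).1 h1)
    omega

end Pool.Agent.AbsIrr
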