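import Mathlib
import Pool.Agent.Lib.MP_2adc98_lc.XAsm
import Pool.Agent.Lib.MP_2adc98_lc.XRow
import Pool.Agent.Lib.MP_2adc98_lc.XM7
import Pool.Agent.Lib.MP_2adc98_lc.FCount

/-!
# MP_2adc98_lc, piece XQ1: counting the bad choices 1 of an item
-/

set_option autoImplicit false
set_option linter.unusedSectionVars false

namespace Pool.Agent.AbsIrr

open Finset Polynomial

/-- the places of the random elements `ρ`, `ρ'` -/
private def xq1Emb (d δ R : ℕ) (hδ : δ ≤ d) :
    Fin ((δ + 1) ^ 2) ⊕ Fin ((δ + 1) ^ 2) ↪ Fin (len3 d R) where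
  toFun x := match x with
    | .inl e => ⟨e, by
        have h1 := e.2
        have h2 : (δ + 1) ^ 2 ≤ (d + 1) ^ 2 := Nat.pow_le_pow_left (by omega) 2
        unfold len3
        omega⟩
    | .inr e => ⟨(d + 1) ^ 2 + e, by
        have h1 := e.2
        have h2 : (δ + 1) ^ 2 ≤ (d + 1) ^ 2 := Nat.pow_le_pow_left (by omega) 2
        unfold len3
        omega⟩
  inj' := by
    have h2 : (δ + 1) ^ 2 ≤ (d + 1) ^ 2 := Nat.pow_le_pow_left (by omega) 2
    rintro (a | a) (b | b) h
    · have h1 := congrArg Fin.val h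
      simp only at h1
      rw [Fin.ext h1]
    · have h1 := congrArg Fin.val h
      simp only at h1
      have := a.2
      omega
    · have h1 := congrArg Fin.val h
      simp only at h1
      have := b.2
      omega
    · have h1 := congrArg Fin.val h
      simp only at h1
      rw [Fin.ext (show (a : ℕ) = b by omega)]

private theorem xq1_tab {L : Type} [Zero L] (B : ℕ) (y : Fin B → L) (f : ℕ → L)
    (h : ∀ e : Fin B, f e = y e) : tabF B f = tape y := by
  funext i
  unfold tabF tape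
  by_cases hi : i < B
  · rw [if_pos hi, dif_pos hi]
    exact h ⟨i, hi⟩
  · rw [if_neg hi, dif_neg hi]

/-- the instances do not matter -/
private theorem xq1_inst {ι L : Type} [Fintype ι] (S : Finset L) (P : (ι → L) → Prop)
    (i1 i2 : DecidableEq ι) (d1 d2 : DecidablePred P) :
    (@Finset.filter _ P d1 (@Fintype.piFinset ι i1 _ (fun _ => L) fun _ => S)).card =
      (@Finset.filter _ P d2 (@Fintype.piFinset ι i2 _ (fun _ => L) fun _ => S)).card := by
  have h1 : i1 = i2 := Subsingleton.elim _ _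
  have h2 : d1 = d2 := Subsingleton.elim _ _
  subst h1
  subst h2
  rfl

section XQ
open Classical

variable {L : Type} [Field L] [Fintype L] {k : Type} [Field k]
  [IsAlgClosed k] [Algebra L k] {p r q E : ℕ} [Fact p.Prime]
  [CharP k p] (hq : q = p ^ r) (hr : 1 ≤ r) (hE : 1 ≤ E) (hcard : Fintype.card L = q ^ E)
  {Fvt : Fam TVt .arr} {Fkh : Fam TKh .arr} (hvt : SpecVt Fvt) (hkh : SpecKh Fkh)
  {l R d δ N : ℕ} {Q F : ℕ → L} (hl : Fintype.card L < 2 ^ l) {Z : Finset k} {ϖ : k → k}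
  (hI : ItemOK q N ((δ + 1) ^ 2) Q (toE d δ N F) Z ϖ) (hN : N ≤ d) (hδ : δ ≤ d)

include hq hr hE hcard hvt hkh hl hI hN hδ

/-! ### XQ1 (XQ1.lean) -/
theorem count_it1 : ((univ : Finset (Fin (len3 d R) → L)).filter fun ω =>
    ¬ Good1 q ((δ + 1) ^ 2) N (toE d δ N F) Z (iR δ (tape ω)) (iR' d δ (tape ω))).card *
      Fintype.card L ≤ (N + N ^ 2) * Fintype.card L ^ len3 d R := by
  have h := count_injG (univ : Finset L) (xq1Emb d δ R hδ) (fun ω : Fin (len3 d R) → L =>
    ¬ Good1 q ((δ + 1) ^ 2) N (toE d δ N F) Z (iR δ (tape ω)) (iR' d δ (tape ω)))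
    (Fintype.card L) (N + N ^ 2) (fun ω₀ _ => ?_)
  · rw [Fintype.piFinset_univ, Finset.card_univ] at h
    refine le_trans (Nat.mul_le_mul_right _ (le_of_eq ?_)) h
    exact card_filter_inst _ _
  · have h1 := count_good1 hI (univ : Finset L)
    rw [isMod_card hI.isMod] at h1
    have e1 : ∀ x : Fin ((δ + 1) ^ 2) ⊕ Fin ((δ + 1) ^ 2) → L,
        iR δ (tape (Function.extend (xq1Emb d δ R hδ) x ω₀)) = tape fun e => x (.inl e) := by
      intro x
      refine xq1_tab _ _ _ fun e => ?_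
      exact tape_extend (xq1Emb d δ R hδ) x ω₀ (.inl e)
    have e2 : ∀ x : Fin ((δ + 1) ^ 2) ⊕ Fin ((δ + 1) ^ 2) → L,
        iR' d δ (tape (Function.extend (xq1Emb d δ R hδ) x ω₀)) = tape fun e => x (.inr e) := by
      intro x
      refine xq1_tab _ _ _ fun e => ?_
      exact tape_extend (xq1Emb d δ R hδ) x ω₀ (.inr e)
    have e3 : Fintype.card (Fin ((δ + 1) ^ 2) ⊕ Fin ((δ + 1) ^ 2)) =
        (δ + 1) ^ 2 + (δ + 1) ^ 2 := by simp
    rw [e3]
    simp only [Finset.card_univ] at h1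
    simp only [e1, e2]
    refine le_trans (Nat.mul_le_mul_right _ (le_of_eq ?_)) h1
    exact xq1_inst _ _ _ _ _ _

end XQ

end Pool.Agent.AbsIrr
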