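import Mathlib
import Pool.Agent.Lib.MP_2adc98_lc.XAsm
import Pool.Agent.Lib.MP_2adc98_lc.XRow
import Pool.Agent.Lib.MP_2adc98_lc.XM7
import Pool.Agent.Lib.MP_2adc98_lc.FCount

/-!
# MP_2adc98_lc, piece XQ2: counting the bad choices for the second condition
-/

set_option autoImplicit false

namespace Pool.Agent.AbsIrr

open Finset Polynomial

open Classical in
private theorem xq2_inj {L : Type} [Fintype L] {m n : ℕ} (φ : Fin n ↪ Fin m)
    (E : (Fin m → L) → Prop) (inst : DecidablePred E) (c : ℕ)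
    (h : ∀ ω₀ : Fin m → L, ∃ T : Finset (Fin n → L),
      (∀ x, E (Function.extend φ x ω₀) → x ∈ T) ∧
        T.card * Fintype.card L ≤ c * Fintype.card L ^ n) :
    (@Finset.filter _ E inst (univ : Finset (Fin m → L))).card * Fintype.card L ≤
      c * Fintype.card L ^ m := by
  have e : ∀ (a : ℕ) (i : DecidableEq (Fin a)) (u : Fintype (Fin a → L)),
      (@Fintype.piFinset (Fin a) i _ (fun _ => L) fun _ => (univ : Finset L)) =
        @Finset.univ _ u := by
    intro a i u
    ext x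
    rw [Fintype.mem_piFinset]
    exact ⟨fun _ => Finset.mem_univ _, fun _ _ => Finset.mem_univ _⟩
  have h1 := count_injG (L := L) univ φ E (Fintype.card L) c (fun ω₀ _ => by
    obtain ⟨T, hT, hT'⟩ := h ω₀
    rw [Finset.card_univ, Fintype.card_fin]
    refine le_trans (Nat.mul_le_mul_right _ (Finset.card_le_card fun x hx => ?_)) hT'
    exact hT x ((@Finset.mem_filter _ _ (fun _ => Classical.propDecidable _) _ _).1 hx).2)
  rw [e m _ inferInstance, Finset.card_univ] at h1
  refine le_of_eq_of_le (congrArg (fun a => a * Fintype.card L) (card_filter_inst _ _)) h1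

section XQ
open Classical

variable {L : Type} [Field L] [Fintype L] {k : Type} [Field k]
  [IsAlgClosed k] [Algebra L k] {p r q E : ℕ} [Fact p.Prime]
  [CharP k p] (hq : q = p ^ r) (hr : 1 ≤ r) (hE : 1 ≤ E) (hcard : Fintype.card L = q ^ E)
  {Fvt : Fam TVt .arr} {Fkh : Fam TKh .arr} (hvt : SpecVt Fvt) (hkh : SpecKh Fkh)
  {l R d δ N : ℕ} {Q F : ℕ → L} (hl : Fintype.card L < 2 ^ l) {Z : Finset k} {ϖ : k → k}
  (hI : ItemOK q N ((δ + 1) ^ 2) Q (toE d δ N F) Z ϖ) (hN : N ≤ d) (hδ : δ ≤ d)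

include hq hr hE hcard hvt hkh hl hI hN hδ

theorem count_it2 : ((univ : Finset (Fin (len3 d R) → L)).filter fun ω =>
    Good1 q ((δ + 1) ^ 2) N (toE d δ N F) Z (iR δ (tape ω)) (iR' d δ (tape ω)) ∧
    ¬ Good2 Z ϖ (fun z => evz N z (iH Fvt Fkh q l E d δ N Q F (tape ω)))).card *
      Fintype.card L ≤ N ^ 2 * Fintype.card L ^ len3 d R := by
  have hlen : ∀ i : Fin N, 2 * (d + 1) ^ 2 + (i : ℕ) < len3 d R := by
    intro i
    have := i.2
    unfold len3
    omega
  obtain ⟨φ, hφv⟩ : ∃ φ : Fin N ↪ Fin (len3 d R), ∀ i, (φ i : ℕ) = 2 * (d + 1) ^ 2 + (i : ℕ) :=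
    ⟨⟨fun i => ⟨2 * (d + 1) ^ 2 + i, hlen i⟩, fun a b h => by
      have h1 := congrArg Fin.val h
      dsimp only at h1
      exact Fin.ext (by omega)⟩, fun i => rfl⟩
  refine xq2_inj (L := L) φ _ _ _ fun ω₀ => ?_
  have hδ2 : (δ + 1) ^ 2 ≤ (d + 1) ^ 2 := Nat.pow_le_pow_left (by omega) 2
  have hsame : ∀ (x : Fin N → L) (j : ℕ), j < 2 * (d + 1) ^ 2 →
      tape (Function.extend φ x ω₀) j = tape ω₀ j := by
    intro x j hj
    refine tape_extend' φ x ω₀ fun i => ?_
    rw [hφv]
    omega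
  have hR : ∀ x : Fin N → L, iR δ (tape (Function.extend φ x ω₀)) = iR δ (tape ω₀) := by
    intro x
    unfold iR
    funext j
    unfold tabF
    by_cases hj : j < (δ + 1) ^ 2
    · rw [if_pos hj, if_pos hj, hsame x j (by omega)]
    · rw [if_neg hj, if_neg hj]
  have hR' : ∀ x : Fin N → L, iR' d δ (tape (Function.extend φ x ω₀)) = iR' d δ (tape ω₀) := by
    intro x
    unfold iR'
    funext j
    unfold tabF
    by_cases hj : j < (δ + 1) ^ 2
    · rw [if_pos hj, if_pos hj]
      exact hsame x _ (by omega)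
    · rw [if_neg hj, if_neg hj]
  have hV : ∀ x : Fin N → L, iV Fvt q l E d δ N Q F (tape (Function.extend φ x ω₀)) =
      iV Fvt q l E d δ N Q F (tape ω₀) := by
    intro x
    unfold iV
    rw [hR, hR']
  have hS : ∀ (x : Fin N → L), ∀ i < N, iS d N (tape (Function.extend φ x ω₀)) i =
      tape x i := by
    intro x i hi
    unfold iS tabF
    rw [if_pos hi, tape_lt x hi]
    have h1 := tape_extend φ x ω₀ ⟨i, hi⟩
    rw [hφv] at h1
    exact h1
  by_cases h1 : Good1 q ((δ + 1) ^ 2) N (toE d δ N F) Z (iR δ (tape ω₀)) (iR' d δ (tape ω₀))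
  · obtain ⟨θ, t1, t2, t3⟩ := H_form hq hr hE hcard hvt hkh hl hI h1
    have h2 := (count_good2 hq hr hE hcard (isMod_card hI.isMod) hI.maps hI.inj
      (v := vI k q d δ N F (tape ω₀)) (item_v_inj hq hcard hI h1 1)
      (fun i z hz => item_v_frob hq hcard hI h1 i z hz)
      (fun z hz => by
        have := item_v_period hq hcard hI h1 1 z hz
        rw [Nat.add_comm 1 E] at this
        exact this) t1 t2 univ).2
    rw [Fintype.piFinset_univ, Finset.card_univ] at h2
    refine ⟨_, fun x hx => ?_, h2⟩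
    rw [Finset.mem_filter]
    refine ⟨Finset.mem_univ _, fun hg => hx.2 ?_⟩
    intro z hz z' hz' hne
    have hval : ∀ z ∈ Z, evz N z (iH Fvt Fkh q l E d δ N Q F
        (tape (Function.extend φ x ω₀))) = ∑ i ∈ range N, ∑ j ∈ range N,
          algebraMap L k (tape x i * θ i j) * vI k q d δ N F (tape ω₀) 1 z ^ j := by
      intro z hz
      unfold iH
      rw [hV, t3 _ z hz]
      refine Finset.sum_congr rfl fun i hi => Finset.sum_congr rfl fun j _ => ?_
      rw [hS x i (Finset.mem_range.1 hi)]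
    have h3 := hg z hz z' hz' hne
    dsimp only at h3 ⊢
    rw [hval z hz, hval z' hz']
    exact h3
  · refine ⟨∅, fun x hx => absurd ?_ h1, by simp⟩
    have h2 := hx.1
    rw [hR, hR'] at h2
    exact h2

end XQ

end Pool.Agent.AbsIrr
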