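import Mathlib
import Pool.Agent.Lib.MP_2adc98_lc.XDefs

/-!
# MP_2adc98_lc, piece XM5: the random bits separate two elements
-/

set_option autoImplicit false

namespace Pool.Agent.AbsIrr

open Finset Polynomial

/-! ## characteristic two -/

section two
variable {L : Type} [Field L]

private theorem xm5_tr_add [CharP L 2] (n : ℕ) (x y : L) :
    ∑ i ∈ range n, (x + y) ^ 2 ^ i = ∑ i ∈ range n, x ^ 2 ^ i + ∑ i ∈ range n, y ^ 2 ^ i := by
  have : Fact (Nat.Prime 2) := ⟨Nat.prime_two⟩
  rw [← sum_add_distrib]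
  exact sum_congr rfl fun i _ => add_pow_char_pow x y 2 i

private theorem xm5_tr_sq [CharP L 2] (n : ℕ) (x : L) (hx : x ^ 2 ^ n = x) :
    (∑ i ∈ range n, x ^ 2 ^ i) ^ 2 = ∑ i ∈ range n, x ^ 2 ^ i := by
  have : Fact (Nat.Prime 2) := ⟨Nat.prime_two⟩
  rw [sum_pow_char 2]
  have h1 : ∑ i ∈ range n, (x ^ 2 ^ i) ^ 2 = ∑ i ∈ range n, x ^ 2 ^ (i + 1) :=
    sum_congr rfl fun i _ => by rw [← pow_mul, pow_succ]
  have h2 := sum_range_succ' (fun i => x ^ 2 ^ i) n
  rw [sum_range_succ, hx, pow_zero, pow_one] at h2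
  rw [h1]
  exact (add_right_cancel h2).symm

private theorem xm5_tr_cases [CharP L 2] (n : ℕ) (x : L) (hx : x ^ 2 ^ n = x) :
    ∑ i ∈ range n, x ^ 2 ^ i = 0 ∨ ∑ i ∈ range n, x ^ 2 ^ i = 1 := by
  have h1 := xm5_tr_sq n x hx
  have h2 : (∑ i ∈ range n, x ^ 2 ^ i) * (∑ i ∈ range n, x ^ 2 ^ i - 1) = 0 := by
    linear_combination h1
  rcases mul_eq_zero.1 h2 with h | h
  · exact Or.inl h
  · exact Or.inr (sub_eq_zero.1 h)

private theorem xm5_roots [Fintype L] [DecidableEq L] (n : ℕ) (hn : 1 ≤ n) :
    (univ.filter fun x : L => ∑ i ∈ range n, x ^ 2 ^ i = 0).card ≤ 2 ^ (n - 1) := by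
  set P : L[X] := ∑ i ∈ range n, X ^ 2 ^ i with hP
  have hdeg : P.natDegree ≤ 2 ^ (n - 1) := by
    apply natDegree_sum_le_of_forall_le
    intro i hi
    rw [natDegree_X_pow]
    exact Nat.pow_le_pow_right (by norm_num) (by have := mem_range.1 hi; omega)
  have hne : P ≠ 0 := by
    intro h0
    have h1 : P.coeff 1 = 1 := by
      rw [hP, finsetSum_coeff, sum_eq_single_of_mem 0 (mem_range.2 (by omega))]
      · simp
      · intro i _ hi
        rw [coeff_X_pow, if_neg]
        have : 2 ^ 1 ≤ 2 ^ i := Nat.pow_le_pow_right (by norm_num) (by omega)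
        omega
    rw [h0, coeff_zero] at h1
    exact zero_ne_one h1
  have h2 : (univ.filter fun x : L => ∑ i ∈ range n, x ^ 2 ^ i = 0) ⊆ P.roots.toFinset := by
    intro x hx
    rw [Multiset.mem_toFinset, mem_roots hne, IsRoot.def, hP, eval_finsetSum]
    simp only [eval_pow, eval_X]
    exact (mem_filter.1 hx).2
  exact (card_le_card h2).trans ((Multiset.toFinset_card_le _).trans ((card_roots' P).trans hdeg))

private theorem xm5_two [Fintype L] [DecidableEq L] [CharP L 2] {h h' : L} (hne : h ≠ h') :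
    3 * (univ.filter fun c : L =>
      (bitv 2 (Fintype.card L) h c = 1 ↔ bitv 2 (Fintype.card L) h' c = 1)).card ≤
      2 * Fintype.card L := by
  obtain ⟨n, -, hn⟩ := FiniteField.card L 2
  have hn1 : 1 ≤ (n : ℕ) := n.2
  have hlog : Nat.log 2 (Fintype.card L) = n := by
    rw [hn]
    exact Nat.log_pow (by norm_num) _
  have hx : ∀ x : L, x ^ 2 ^ (n : ℕ) = x := by
    intro x
    rw [← hn]
    exact FiniteField.pow_card x
  have hb : ∀ u c : L, bitv 2 (Fintype.card L) u c = ∑ i ∈ range (n : ℕ), (c * u) ^ 2 ^ i := by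
    intro u c
    unfold bitv
    rw [if_pos rfl, hlog]
  have h1 : (univ.filter fun c : L =>
      (bitv 2 (Fintype.card L) h c = 1 ↔ bitv 2 (Fintype.card L) h' c = 1)).card ≤
      (univ.filter fun x : L => ∑ i ∈ range (n : ℕ), x ^ 2 ^ i = 0).card := by
    apply card_le_card_of_injOn (fun c => c * (h - h'))
    · intro c hc
      have hc' := (mem_filter.1 (mem_coe.1 hc)).2
      rw [mem_coe, mem_filter]
      refine ⟨mem_univ _, ?_⟩
      rw [hb, hb] at hc'
      have e := xm5_tr_add (n : ℕ) (c * (h - h')) (c * h')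
      have e2 : c * (h - h') + c * h' = c * h := by ring
      rw [e2] at e
      rcases xm5_tr_cases (n : ℕ) (c * h) (hx _) with k1 | k1 <;>
        rcases xm5_tr_cases (n : ℕ) (c * h') (hx _) with k2 | k2
      · rw [k1, k2, add_zero] at e
        exact e.symm
      · exact absurd (hc'.2 k2) (by rw [k1]; exact zero_ne_one)
      · exact absurd (hc'.1 k1) (by rw [k2]; exact zero_ne_one)
      · rw [k1, k2] at e
        have : (1 : L) = 0 + 1 := by ring
        exact (add_right_cancel (this.symm.trans e)).symm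
    · intro c _ c' _ hcc
      exact mul_right_cancel₀ (sub_ne_zero.2 hne) hcc
  have h2 := xm5_roots (L := L) (n : ℕ) hn1
  have h3 : 2 ^ (n : ℕ) = 2 * 2 ^ ((n : ℕ) - 1) := by
    rw [← pow_succ']
    congr 1
    omega
  rw [h3] at hn
  omega

end two

/-! ## odd characteristic -/

section odd
variable {L : Type} [Field L] [Fintype L] [DecidableEq L]

private theorem xm5_char (hF : ringChar L ≠ 2) (a : L) :
    a ^ ((Fintype.card L - 1) / 2) = 1 ↔ quadraticChar L a = 1 := by
  have hodd : Fintype.card L % 2 = 1 := FiniteField.odd_card_of_char_ne_two hF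
  have h1 : (Fintype.card L - 1) / 2 = Fintype.card L / 2 := by omega
  rw [h1, ← quadraticChar_eq_pow_of_char_ne_two' hF a]
  constructor
  · intro h
    rcases quadraticChar_isQuadratic L a with h0 | h0 | h0
    · rw [h0] at h
      simp at h
    · exact h0
    · rw [h0] at h
      exfalso
      have h2 : (-1 : L) ≠ 1 := Ring.neg_one_ne_one_of_char_ne_two hF
      apply h2
      simpa using h
  · intro h
    rw [h, Int.cast_one]

private theorem xm5_sum (hF : ringChar L ≠ 2) {h h' : L} (hne : h ≠ h') :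
    ∑ c : L, quadraticChar L (h + c) * quadraticChar L (h' + c) = -1 := by
  have h1 := jacobiSum_nontrivial_inv (quadraticChar_ne_one hF)
  rw [(quadraticChar_isQuadratic L).inv] at h1
  unfold jacobiSum at h1
  have hD : h - h' ≠ 0 := sub_ne_zero.2 hne
  have h2 : ∑ c : L, quadraticChar L (h + c) * quadraticChar L (h' + c) =
      ∑ x : L, quadraticChar L (-1) * (quadraticChar L x * quadraticChar L (1 - x)) := by
    symm
    refine Fintype.sum_equiv ((Equiv.mulLeft₀ (h - h') hD).trans (Equiv.subRight h)) _ _ ?_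
    intro x
    have e1 : h + (((Equiv.mulLeft₀ (h - h') hD).trans (Equiv.subRight h)) x) = (h - h') * x := by
      change h + ((h - h') * x - h) = (h - h') * x
      ring
    have e2 : h' + (((Equiv.mulLeft₀ (h - h') hD).trans (Equiv.subRight h)) x) =
        (-1) * ((h - h') * (1 - x)) := by
      change h' + ((h - h') * x - h) = (-1) * ((h - h') * (1 - x))
      ring
    rw [e1, e2, map_mul, map_mul, map_mul]
    have h3 := quadraticChar_sq_one hD
    linear_combination (-(quadraticChar L (-1) * (quadraticChar L x * quadraticChar L (1 - x)))) * h3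
  rw [h2, ← mul_sum, h1]
  have h4 : quadraticChar L (-1) ^ 2 = 1 := quadraticChar_sq_one (neg_ne_zero.2 one_ne_zero)
  linear_combination -h4

private theorem xm5_odd {p : ℕ} (hF : ringChar L ≠ 2) (hp : p ≠ 2) {h h' : L} (hne : h ≠ h') :
    3 * (univ.filter fun c : L =>
      (bitv p (Fintype.card L) h c = 1 ↔ bitv p (Fintype.card L) h' c = 1)).card ≤
      2 * Fintype.card L := by
  have hb : ∀ u c : L, bitv p (Fintype.card L) u c = 1 ↔ quadraticChar L (u + c) = 1 := by
    intro u c
    unfold bitv
    rw [if_neg hp, xm5_char hF]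
  simp only [hb]
  have hodd : Fintype.card L % 2 = 1 := FiniteField.odd_card_of_char_ne_two hF
  have hcard : 2 ≤ Fintype.card L := Fintype.one_lt_card
  -- pointwise bound
  have hpt : ∀ c : L, 2 * (if (quadraticChar L (h + c) = 1 ↔ quadraticChar L (h' + c) = 1) then
      (1 : ℤ) else 0) ≤ 1 + quadraticChar L (h + c) * quadraticChar L (h' + c) +
      (if c = -h then 1 else 0) + (if c = -h' then 1 else 0) := by
    intro c
    by_cases c1 : c = -h
    · have c2 : c ≠ -h' := fun e => hne (neg_injective (c1.symm.trans e))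
      have e1 : h + c = 0 := by rw [c1]; ring
      rw [if_pos c1, if_neg c2, e1, MulChar.map_zero]
      split_ifs <;> simp
    · by_cases c2 : c = -h'
      · have e1 : h' + c = 0 := by rw [c2]; ring
        rw [if_neg c1, if_pos c2, e1, MulChar.map_zero]
        split_ifs <;> simp
      · have n1 : h + c ≠ 0 := fun e => c1 (by linear_combination e)
        have n2 : h' + c ≠ 0 := fun e => c2 (by linear_combination e)
        rw [if_neg c1, if_neg c2]
        rcases quadraticChar_dichotomy n1 with k1 | k1 <;>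
          rcases quadraticChar_dichotomy n2 with k2 | k2 <;>
          rw [k1, k2] <;> norm_num
  have hsum := sum_le_sum fun c (_ : c ∈ (univ : Finset L)) => hpt c
  rw [← mul_sum, sum_add_distrib, sum_add_distrib, sum_add_distrib, xm5_sum hF hne,
    sum_ite_eq' univ (-h), sum_ite_eq' univ (-h'), if_pos (mem_univ _), if_pos (mem_univ _),
    sum_const, card_univ, nsmul_eq_mul, mul_one, sum_boole] at hsum
  have h5 : (2 : ℤ) * ((univ.filter fun c : L =>
      (quadraticChar L (h + c) = 1 ↔ quadraticChar L (h' + c) = 1)).card : ℤ) ≤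
      (Fintype.card L : ℤ) + 1 := by
    linarith
  have h6 : 2 * (univ.filter fun c : L =>
      (quadraticChar L (h + c) = 1 ↔ quadraticChar L (h' + c) = 1)).card ≤
      Fintype.card L + 1 := by
    exact_mod_cast h5
  omega

end odd

theorem bit_sep {L : Type} [Field L] [Fintype L] [DecidableEq L] (p : ℕ) [Fact p.Prime]
    [CharP L p] {h h' : L} (hne : h ≠ h') :
    3 * (univ.filter fun c : L =>
      (bitv p (Fintype.card L) h c = 1 ↔ bitv p (Fintype.card L) h' c = 1)).card ≤
      2 * Fintype.card L := by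
  by_cases hp : p = 2
  · subst hp
    exact xm5_two hne
  · have hF : ringChar L ≠ 2 := by
      rw [ringChar.eq L p]
      exact hp
    exact xm5_odd hF hp hne

end Pool.Agent.AbsIrr
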