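import Mathlib
import Pool.Agent.Lib.MP_2adc98_lc.XDefs
import Pool.Agent.Lib.MP_2adc98_lc.XM2

/-!
# MP_2adc98_lc, piece XM6: a random rational function is a generator
-/

set_option autoImplicit false

namespace Pool.Agent.AbsIrr

open Finset Polynomial

/-- counting in the fibres of an additive map -/
private theorem xm6_fiber {G k : Type} [AddCommGroup G] [Fintype G] [AddCommGroup k]
    [DecidableEq k] (A : G →+ k) (F Bad : Finset k) (hsurj : ∀ x ∈ F, ∃ g, A g = x)
    (hBF : Bad ⊆ F) (h : 3 * Bad.card ≤ 2 * F.card) (P : G → Prop) [DecidablePred P]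
    (hP : ∀ g, P g → A g ∈ Bad) : 3 * (univ.filter P).card ≤ 2 * Fintype.card G := by
  classical
  set c := (univ.filter fun g : G => A g = 0).card with hc
  have hfib : ∀ x ∈ F, (univ.filter fun g : G => A g = x).card = c := by
    intro x hx
    obtain ⟨g₀, hg₀⟩ := hsurj x hx
    rw [hc]
    apply Finset.card_bij (fun g _ => g - g₀)
    · intro g hg
      rw [mem_filter] at hg ⊢
      exact ⟨mem_univ _, by rw [map_sub, hg.2, hg₀, sub_self]⟩
    · intro a _ b _ hab
      exact sub_left_injective hab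
    · intro g hg
      rw [mem_filter] at hg
      exact ⟨g + g₀, by rw [mem_filter]; exact ⟨mem_univ _, by rw [map_add, hg.2, hg₀, zero_add]⟩,
        by simp⟩
  have hcount : ∀ T : Finset k, T ⊆ F → (univ.filter fun g : G => A g ∈ T).card = T.card * c := by
    intro T hT
    have h1 := Finset.card_eq_sum_card_fiberwise (f := fun g => A g)
      (s := univ.filter fun g : G => A g ∈ T) (t := T)
      (fun g hg => (mem_filter.1 hg).2)
    rw [h1]
    rw [Finset.sum_congr rfl (g := fun _ => c), Finset.sum_const, smul_eq_mul]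
    intro x hx
    rw [← hfib x (hT hx)]
    congr 1
    ext g
    simp only [mem_filter, mem_univ, true_and]
    constructor
    · exact fun h => h.2
    · exact fun h => ⟨by rw [h]; exact hx, h⟩
  have h1 : (univ.filter P).card ≤ Bad.card * c := by
    rw [← hcount Bad hBF]
    apply card_le_card
    intro g hg
    rw [mem_filter] at hg ⊢
    exact ⟨mem_univ _, hP g hg.2⟩
  have h2 : F.card * c ≤ Fintype.card G := by
    rw [← hcount F (Subset.refl F)]
    exact (card_le_univ _)
  calc 3 * (univ.filter P).card ≤ 3 * (Bad.card * c) := Nat.mul_le_mul_left _ h1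
    _ = (3 * Bad.card) * c := by ring
    _ ≤ (2 * F.card) * c := Nat.mul_le_mul_right _ h
    _ = 2 * (F.card * c) := by ring
    _ ≤ 2 * Fintype.card G := Nat.mul_le_mul_left _ h2

/-- the elements with `x ^ n = x` -/
private noncomputable def xm6_F (k : Type) [Field k] [DecidableEq k] (n : ℕ) : Finset k :=
  (X ^ n - X : k[X]).roots.toFinset

private theorem xm6_memF {k : Type} [Field k] [DecidableEq k] {n : ℕ} (hn : 1 < n) {x : k} :
    x ∈ xm6_F k n ↔ x ^ n = x := by
  unfold xm6_F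
  rw [Multiset.mem_toFinset, mem_roots (FiniteField.X_pow_card_sub_X_ne_zero k hn), IsRoot,
    eval_sub, eval_pow, eval_X, sub_eq_zero]

private theorem xm6_cardF_le {k : Type} [Field k] [DecidableEq k] {n : ℕ} (hn : 1 < n) :
    (xm6_F k n).card ≤ n := by
  unfold xm6_F
  refine (Multiset.toFinset_card_le _).trans ?_
  refine (card_roots' _).trans ?_
  rw [FiniteField.X_pow_card_sub_X_natDegree_eq k hn]

private theorem xm6_cardF {k : Type} [Field k] [IsAlgClosed k] [DecidableEq k] {p n : ℕ}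
    [CharP k p] (hp : p ∣ n) (hn : 1 < n) : (xm6_F k n).card = n := by
  unfold xm6_F
  have hsep : (X ^ n - X : k[X]).Separable := galois_poly_separable p n hp
  rw [Multiset.toFinset_card_of_nodup (nodup_roots hsep),
    ← (IsAlgClosed.splits (X ^ n - X : k[X])).natDegree_eq_card_roots,
    FiniteField.X_pow_card_sub_X_natDegree_eq k hn]

private theorem xm6_pow_sum {q : ℕ} (hq : 2 ≤ q) (m : ℕ) :
    ∑ g ∈ Icc 1 m, q ^ g ≤ 2 * q ^ m := by
  induction m with
  | zero => simp
  | succ m ih =>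
    rw [Finset.sum_Icc_succ_top (by omega)]
    have h1 : 2 * q ^ m ≤ q ^ (m + 1) := by
      rw [pow_succ, mul_comm]
      exact Nat.mul_le_mul_left _ hq
    omega

private theorem xm6_arith {q s : ℕ} (hq : 2 ≤ q) (hs : 1 ≤ s) :
    3 * ∑ g ∈ Icc 1 (s / 2), q ^ g ≤ 2 * q ^ s := by
  rcases Nat.lt_or_ge s 3 with h | h
  · have h12 : s = 1 ∨ s = 2 := by omega
    rcases h12 with rfl | rfl
    · simp
    · simp only [Nat.reduceDiv, Icc_self, sum_singleton, pow_one]
      nlinarith
  · have h1 := xm6_pow_sum hq (s / 2)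
    have h2 : q ^ (s / 2) * 2 ^ 2 ≤ q ^ s := by
      calc q ^ (s / 2) * 2 ^ 2 ≤ q ^ (s / 2) * q ^ 2 :=
            Nat.mul_le_mul_left _ (Nat.pow_le_pow_left hq 2)
        _ = q ^ (s / 2 + 2) := by rw [pow_add]
        _ ≤ q ^ s := Nat.pow_le_pow_right (by omega) (by omega)
    omega

/-- an element with trace one -/
private theorem xm6_trace {L : Type} [Field L] [Fintype L] {p r q E : ℕ} [Fact p.Prime]
    [CharP L p] (hq : q = p ^ r) (hr : 1 ≤ r) (hE : 1 ≤ E) (hcard : Fintype.card L = q ^ E) :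
    ∃ lam : L, ∑ i ∈ range E, lam ^ q ^ i = 1 := by
  have hp2 : 2 ≤ p := (Fact.out : p.Prime).two_le
  have hq2 : 2 ≤ q := by
    rw [hq]
    calc 2 ≤ p := hp2
      _ = p ^ 1 := (pow_one p).symm
      _ ≤ p ^ r := Nat.pow_le_pow_right (by omega) hr
  set T : L[X] := ∑ i ∈ range E, X ^ q ^ i with hT
  have hT0 : T.coeff 1 = 1 := by
    rw [hT, finsetSum_coeff, Finset.sum_eq_single 0]
    · simp
    · intro i _ hi
      rw [coeff_X_pow, if_neg]
      intro h
      have h2 : 1 < q ^ i := Nat.one_lt_pow hi (by omega)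
      omega
    · intro h
      exact absurd (mem_range.2 (by omega)) h
  have hTne : T ≠ 0 := by
    intro h
    rw [h, coeff_zero] at hT0
    exact zero_ne_one hT0
  have hdeg : T.natDegree < q ^ E := by
    refine lt_of_le_of_lt (b := q ^ (E - 1)) ?_ ?_
    · rw [hT]
      apply natDegree_sum_le_of_forall_le
      intro i hi
      rw [natDegree_X_pow]
      exact Nat.pow_le_pow_right (by omega) (by have := mem_range.1 hi; omega)
    · exact Nat.pow_lt_pow_right (by omega) (by omega)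
  obtain ⟨l₀, hl₀⟩ : ∃ l₀ : L, T.eval l₀ ≠ 0 := by
    by_contra hcon
    push Not at hcon
    apply hTne
    apply Polynomial.eq_zero_of_natDegree_lt_card_of_eval_eq_zero' T (Finset.univ : Finset L)
      (fun x _ => hcon x)
    rw [Finset.card_univ, hcard]
    exact hdeg
  have hev : T.eval l₀ = ∑ i ∈ range E, l₀ ^ q ^ i := by
    rw [hT, eval_finsetSum]
    simp
  set t := ∑ i ∈ range E, l₀ ^ q ^ i with ht
  rw [hev] at hl₀
  have htq : t ^ q = t := by
    have h1 : ∀ x : L, x ^ q = iterateFrobenius L p r x := fun x => by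
      rw [iterateFrobenius_def, hq]
    rw [h1, ht, map_sum]
    have h2 : ∀ i ∈ range E, iterateFrobenius L p r (l₀ ^ q ^ i) = l₀ ^ q ^ (i + 1) := by
      intro i _
      rw [← h1, ← pow_mul, pow_succ]
    rw [Finset.sum_congr rfl h2]
    have h3 := Finset.sum_range_succ (fun i => l₀ ^ q ^ i) E
    have h4 := Finset.sum_range_succ' (fun i => l₀ ^ q ^ i) E
    have h5 : l₀ ^ q ^ E = l₀ := by rw [← hcard]; exact FiniteField.pow_card l₀
    rw [h4, h5, pow_zero, pow_one] at h3
    exact add_right_cancel h3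
  have hc : ∀ i : ℕ, (t⁻¹) ^ q ^ i = t⁻¹ := by
    intro i
    induction i with
    | zero => simp
    | succ i ih => rw [pow_succ, pow_mul, ih, inv_pow, htq]
  refine ⟨t⁻¹ * l₀, ?_⟩
  have h6 : ∀ i ∈ range E, (t⁻¹ * l₀) ^ q ^ i = t⁻¹ * l₀ ^ q ^ i := by
    intro i _
    rw [mul_pow, hc]
  rw [Finset.sum_congr rfl h6, ← Finset.mul_sum]
  exact inv_mul_cancel₀ hl₀

/-- iterates of a self-map of a finite set -/
private theorem xm6_iter_mem {k : Type} {Z : Finset k} {ϖ : k → k} (hϖ : ∀ z ∈ Z, ϖ z ∈ Z)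
    (i : ℕ) {z : k} (hz : z ∈ Z) : ϖ^[i] z ∈ Z := by
  induction i with
  | zero => exact hz
  | succ i ih => rw [Function.iterate_succ_apply']; exact hϖ _ ih

private theorem xm6_iter_inj {k : Type} {Z : Finset k} {ϖ : k → k} (hϖ : ∀ z ∈ Z, ϖ z ∈ Z)
    (hinj : Set.InjOn ϖ Z) (i : ℕ) : Set.InjOn ϖ^[i] Z := by
  induction i with
  | zero => intro x _ y _ h; exact h
  | succ i ih =>
    intro x hx y hy h
    rw [Function.iterate_succ_apply', Function.iterate_succ_apply'] at h
    exact ih hx hy (hinj (xm6_iter_mem hϖ i hx) (xm6_iter_mem hϖ i hy) h)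

private theorem xm6_iter_surj {k : Type} {Z : Finset k} {ϖ : k → k} (hϖ : ∀ z ∈ Z, ϖ z ∈ Z)
    (hinj : Set.InjOn ϖ Z) (i : ℕ) : ∀ w ∈ Z, ∃ z ∈ Z, ϖ^[i] z = w := by
  intro w hw
  have h := Finset.surj_on_of_inj_on_of_card_le (s := Z) (t := Z) (fun z _ => ϖ^[i] z)
    (fun z hz => xm6_iter_mem hϖ i hz)
    (fun a b ha hb hab => xm6_iter_inj hϖ hinj i ha hb hab) le_rfl w hw
  obtain ⟨z, hz, h⟩ := h
  exact ⟨z, hz, h.symm⟩

private theorem xm6_period {k : Type} {Z : Finset k} {ϖ : k → k} (hϖ : ∀ z ∈ Z, ϖ z ∈ Z)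
    (hinj : Set.InjOn ϖ Z) {z₀ : k} (hz₀ : z₀ ∈ Z) : 0 < Function.minimalPeriod ϖ z₀ := by
  apply Function.minimalPeriod_pos_of_mem_periodicPts
  have hni : ¬ Function.Injective (fun i : ℕ => (⟨ϖ^[i] z₀, xm6_iter_mem hϖ i hz₀⟩ : Z)) :=
    not_injective_infinite_finite _
  rw [Function.Injective] at hni
  push Not at hni
  obtain ⟨a, b, hab, hne⟩ := hni
  have hab' : ϖ^[a] z₀ = ϖ^[b] z₀ := congrArg Subtype.val hab
  wlog hlt : a < b generalizing a b
  · exact this b a hab.symm (Ne.symm hne) hab'.symm (by omega)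
  refine ⟨b - a, by omega, ?_⟩
  have h1 : ϖ^[b] z₀ = ϖ^[a] (ϖ^[b - a] z₀) := by
    rw [← Function.iterate_add_apply]
    congr 1
    omega
  rw [h1] at hab'
  exact (xm6_iter_inj hϖ hinj a hz₀ (xm6_iter_mem hϖ _ hz₀) hab').symm

section
variable {k : Type} [Field k] {q : ℕ} (φ : ℕ → k →+* k) (hφ : ∀ i x, φ i x = x ^ q ^ i)
include hφ

omit hφ in
private theorem xm6_vpow {Z : Finset k} {ϖ : k → k} (hϖ : ∀ z ∈ Z, ϖ z ∈ Z)
    (v : ℕ → k → k) (h1 : ∀ i, ∀ z ∈ Z, v i z ^ q = v (i + 1) (ϖ z)) (a i : ℕ) {z : k}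
    (hz : z ∈ Z) : v a z ^ q ^ i = v (a + i) (ϖ^[i] z) := by
  induction i with
  | zero => simp
  | succ i ih =>
    rw [pow_succ, pow_mul, ih, h1 _ _ (xm6_iter_mem hϖ i hz), Function.iterate_succ_apply']
    rfl

/-- the orbit indicator function with value `x` at the base point -/
private theorem xm6_eta {Z : Finset k} {ϖ : k → k} (hϖ : ∀ z ∈ Z, ϖ z ∈ Z)
    (hinj : Set.InjOn ϖ Z) {z₀ : k} (hz₀ : z₀ ∈ Z) {x : k}
    (hx : x ^ q ^ Function.minimalPeriod ϖ z₀ = x) :
    ∃ η : k → k, η z₀ = x ∧ ∀ z ∈ Z, η z ^ q = η (ϖ z) := by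
  classical
  set s := Function.minimalPeriod ϖ z₀ with hs
  have hs0 : 0 < s := xm6_period hϖ hinj hz₀
  -- powers of `x` depend on the exponent modulo `s`
  have hxp : ∀ i : ℕ, (fun y : k => y ^ q)^[i] x = x ^ q ^ i := by
    intro i
    induction i with
    | zero => simp
    | succ i ih => rw [Function.iterate_succ_apply', ih, pow_succ, pow_mul]
  have hper : Function.IsPeriodicPt (fun y : k => y ^ q) s x := by
    rw [Function.IsPeriodicPt, Function.IsFixedPt, hxp, hx]
  have hmod : ∀ i, x ^ q ^ (i % s) = x ^ q ^ i := by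
    intro i
    rw [← hxp, ← hxp]
    exact hper.iterate_mod_apply i
  have hwd : ∀ i j, ϖ^[i] z₀ = ϖ^[j] z₀ → x ^ q ^ i = x ^ q ^ j := by
    intro i j hij
    rw [← hmod i, ← hmod j]
    congr 2
    rw [← Function.iterate_mod_minimalPeriod_eq (n := i),
      ← Function.iterate_mod_minimalPeriod_eq (n := j)] at hij
    exact (Function.iterate_eq_iterate_iff_of_lt_minimalPeriod (Nat.mod_lt _ hs0)
      (Nat.mod_lt _ hs0)).1 hij
  refine ⟨fun z => if h : ∃ i, ϖ^[i] z₀ = z then x ^ q ^ (Nat.find h) else 0, ?_, ?_⟩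
  · have h : ∃ i, ϖ^[i] z₀ = z₀ := ⟨0, rfl⟩
    simp only [dif_pos h]
    have h2 := hwd _ 0 (Nat.find_spec h)
    rw [h2, pow_zero, pow_one]
  · intro z hz
    by_cases h : ∃ i, ϖ^[i] z₀ = z
    · have h' : ∃ i, ϖ^[i] z₀ = ϖ z := by
        obtain ⟨i, hi⟩ := h
        exact ⟨i + 1, by rw [Function.iterate_succ_apply', hi]⟩
      simp only [dif_pos h, dif_pos h']
      rw [← pow_mul, ← pow_succ]
      apply hwd
      rw [Function.iterate_succ_apply', Nat.find_spec h, Nat.find_spec h']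
    · have h' : ¬ ∃ i, ϖ^[i] z₀ = ϖ z := by
        rintro ⟨i, hi⟩
        apply h
        refine ⟨i + s - 1, ?_⟩
        have h3 : ϖ (ϖ^[i + s - 1] z₀) = ϖ z := by
          rw [← Function.iterate_succ_apply' ϖ (i + s - 1) z₀, ← hi]
          have h4 : (i + s - 1).succ = i + s := by omega
          rw [h4, Function.iterate_add_apply, hs, Function.iterate_minimalPeriod]
        exact hinj (xm6_iter_mem hϖ _ hz₀) hz h3
      simp only [dif_neg h, dif_neg h']
      have hq0 : q ≠ 0 := by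
        intro h0
        have h5 := hφ 1 0
        rw [map_zero, h0] at h5
        simp at h5
      exact zero_pow hq0

/-- the values of `x ^ q ^ i` along the orbit: a non-injective function gives an element of a
smaller field -/
private theorem xm6_bad {ϖ : k → k} {z₀ : k} (hs0 : 0 < Function.minimalPeriod ϖ z₀)
    (g : k → k) (hg : ∀ i, g (ϖ^[i] z₀) = g z₀ ^ q ^ i)
    (hni : ¬ Set.InjOn g {z | ∃ i, z = ϖ^[i] z₀}) :
    ∃ i, 1 ≤ i ∧ i < Function.minimalPeriod ϖ z₀ ∧ g z₀ ^ q ^ i = g z₀ := by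
  set s := Function.minimalPeriod ϖ z₀ with hs
  rw [Set.InjOn] at hni
  push Not at hni
  obtain ⟨z, ⟨a, rfl⟩, w, ⟨b, rfl⟩, hgz, hne⟩ := hni
  have hred : ∀ i, ϖ^[i] z₀ = ϖ^[i % s] z₀ := fun i => by
    rw [hs, Function.iterate_mod_minimalPeriod_eq]
  rw [hred a, hred b] at hgz hne
  have ha := Nat.mod_lt a hs0
  have hb := Nat.mod_lt b hs0
  set a' := a % s
  set b' := b % s
  rw [hg, hg] at hgz
  have hab : a' ≠ b' := fun h => hne (by rw [h])
  have key : ∀ c d : ℕ, c < d → d < s → g z₀ ^ q ^ c = g z₀ ^ q ^ d →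
      ∃ i, 1 ≤ i ∧ i < s ∧ g z₀ ^ q ^ i = g z₀ := by
    intro c d hcd hds h
    refine ⟨d - c, by omega, by omega, ?_⟩
    have h1 : g z₀ ^ q ^ d = (g z₀ ^ q ^ (d - c)) ^ q ^ c := by
      rw [← pow_mul, ← pow_add]
      congr 2
      omega
    rw [h1, ← hφ c, ← hφ c] at h
    exact ((φ c).injective h).symm
  rcases Nat.lt_or_gt_of_ne hab with h | h
  · exact key a' b' h hb hgz
  · exact key b' a' h ha hgz.symm

end

/-- elements fixed by `x ↦ x ^ |L|` come from `L` -/
private theorem xm6_fixed {L : Type} [Field L] [Fintype L] {k : Type} [Field k] [Algebra L k]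
    {x : k} (hx : x ^ Fintype.card L = x) : x ∈ Set.range (algebraMap L k) := by
  classical
  have h1 : 1 < Fintype.card L := Fintype.one_lt_card
  have hsub : (univ : Finset L).image (algebraMap L k) ⊆ xm6_F k (Fintype.card L) := by
    intro y hy
    rw [mem_image] at hy
    obtain ⟨a, _, rfl⟩ := hy
    rw [xm6_memF h1, ← map_pow, FiniteField.pow_card]
  have hcard : (xm6_F k (Fintype.card L)).card ≤ ((univ : Finset L).image (algebraMap L k)).card := by
    rw [card_image_of_injective _ (algebraMap L k).injective, card_univ]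
    exact xm6_cardF_le h1
  have heq := Finset.eq_of_subset_of_card_le hsub hcard
  have hmem : x ∈ xm6_F k (Fintype.card L) := (xm6_memF h1).2 hx
  rw [← heq, mem_image] at hmem
  obtain ⟨a, _, ha⟩ := hmem
  exact ⟨a, ha⟩

open Classical in
theorem gen_count {L : Type} [Field L] [Fintype L] {k : Type} [Field k] [IsAlgClosed k]
    [Algebra L k] {p r q E : ℕ} [Fact p.Prime] [CharP k p] (hq : q = p ^ r) (hr : 1 ≤ r)
    (hE : 1 ≤ E) (hcard : Fintype.card L = q ^ E) {Z : Finset k} {ϖ : k → k}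
    (hϖ : ∀ z ∈ Z, ϖ z ∈ Z) (hinj : Set.InjOn ϖ Z) (v : ℕ → k → k) (hv : Set.InjOn (v 0) Z)
    (h1 : ∀ i, ∀ z ∈ Z, v i z ^ q = v (i + 1) (ϖ z)) (h2 : ∀ z ∈ Z, v E z = v 0 z)
    {z₀ : k} (hz₀ : z₀ ∈ Z) :
    3 * ((univ : Finset (Fin Z.card → L)).filter fun γ =>
      ¬ Set.InjOn (fun z => ∑ i ∈ range E, ∑ j : Fin Z.card, algebraMap L k (γ j) ^ q ^ i *
        v i z ^ (j : ℕ))
        {z | ∃ i, z = ϖ^[i] z₀}).card ≤ 2 * Fintype.card L ^ Z.card := by
  have hp2 : 2 ≤ p := (Fact.out : p.Prime).two_le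
  have hq2 : 2 ≤ q := by
    rw [hq]
    calc 2 ≤ p := hp2
      _ = p ^ 1 := (pow_one p).symm
      _ ≤ p ^ r := Nat.pow_le_pow_right (by omega) hr
  have hcL : CharP L p := (algebraMap L k).charP (algebraMap L k).injective p
  set φ : ℕ → k →+* k := fun i => iterateFrobenius k p (r * i) with hφdef
  have hφ : ∀ i x, φ i x = x ^ q ^ i := by
    intro i x
    rw [hφdef, iterateFrobenius_def, pow_mul, ← hq]
  have hpL : ∀ x : L, algebraMap L k x ^ q ^ E = algebraMap L k x := by
    intro x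
    rw [← map_pow, ← hcard, FiniteField.pow_card]
  set s := Function.minimalPeriod ϖ z₀ with hs
  have hs0 : 0 < s := xm6_period hϖ hinj hz₀
  -- the function attached to `γ`
  set A : (Fin Z.card → L) → k → k := fun γ z => ∑ i ∈ range E, ∑ j : Fin Z.card,
    algebraMap L k (γ j) ^ q ^ i * v i z ^ (j : ℕ) with hA
  have hAq : ∀ γ, ∀ z ∈ Z, A γ z ^ q = A γ (ϖ z) := by
    intro γ z hz
    have e1 : A γ z ^ q = φ 1 (A γ z) := by rw [hφ, pow_one]
    rw [e1, hA]
    simp only
    rw [map_sum]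
    have e2 : ∀ i ∈ range E, φ 1 (∑ j : Fin Z.card, algebraMap L k (γ j) ^ q ^ i *
        v i z ^ (j : ℕ)) = ∑ j : Fin Z.card, algebraMap L k (γ j) ^ q ^ (i + 1) *
        v (i + 1) (ϖ z) ^ (j : ℕ) := by
      intro i _
      rw [map_sum]
      apply Finset.sum_congr rfl
      intro j _
      rw [hφ, pow_one, mul_pow, ← pow_mul, ← pow_succ, ← pow_mul, mul_comm (j : ℕ) q, pow_mul,
        h1 i z hz]
    rw [Finset.sum_congr rfl e2]
    have e3 := Finset.sum_range_succ (fun i => ∑ j : Fin Z.card, algebraMap L k (γ j) ^ q ^ i *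
      v i (ϖ z) ^ (j : ℕ)) E
    have e4 := Finset.sum_range_succ' (fun i => ∑ j : Fin Z.card, algebraMap L k (γ j) ^ q ^ i *
      v i (ϖ z) ^ (j : ℕ)) E
    have e5 : (∑ j : Fin Z.card, algebraMap L k (γ j) ^ q ^ E * v E (ϖ z) ^ (j : ℕ)) =
        ∑ j : Fin Z.card, algebraMap L k (γ j) ^ q ^ 0 * v 0 (ϖ z) ^ (j : ℕ) := by
      apply Finset.sum_congr rfl
      intro j _
      rw [hpL, h2 _ (hϖ z hz), pow_zero, pow_one]
    rw [e4, e5] at e3
    exact add_right_cancel e3
  have hAi : ∀ γ i, A γ (ϖ^[i] z₀) = A γ z₀ ^ q ^ i := by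
    intro γ i
    induction i with
    | zero => simp
    | succ i ih =>
      rw [Function.iterate_succ_apply', ← hAq γ _ (xm6_iter_mem hϖ i hz₀), ih, pow_succ, pow_mul]
  -- the additive map
  let Ah : (Fin Z.card → L) →+ k :=
    { toFun := fun γ => A γ z₀
      map_zero' := by
        rw [hA]
        simp only [Pi.zero_apply, map_zero]
        apply Finset.sum_eq_zero
        intro i _
        apply Finset.sum_eq_zero
        intro j _
        rw [zero_pow (pow_ne_zero _ (by omega)), zero_mul]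
      map_add' := by
        intro γ γ'
        rw [hA]
        simp only [Pi.add_apply]
        rw [← Finset.sum_add_distrib]
        apply Finset.sum_congr rfl
        intro i _
        rw [← Finset.sum_add_distrib]
        apply Finset.sum_congr rfl
        intro j _
        rw [map_add, ← hφ, ← hφ, ← hφ, map_add, add_mul] }
  -- the target
  have hqs : 1 < q ^ s := Nat.one_lt_pow hs0.ne' (by omega)
  have hdvd : p ∣ q ^ s := by
    rw [hq, ← pow_mul]
    exact dvd_pow_self p (by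
      have : 0 < r * s := Nat.mul_pos hr hs0
      omega)
  set F := xm6_F k (q ^ s) with hF
  have hFcard : F.card = q ^ s := xm6_cardF hdvd hqs
  set Bad := F.filter (fun x => ∃ i, 1 ≤ i ∧ i < s ∧ x ^ q ^ i = x) with hBad
  have hBadcard : 3 * Bad.card ≤ 2 * F.card := by
    rw [hFcard]
    refine le_trans (Nat.mul_le_mul_left 3 ?_) (xm6_arith hq2 hs0)
    have hsub : Bad ⊆ (Icc 1 (s / 2)).biUnion (fun g => xm6_F k (q ^ g)) := by
      intro x hx
      rw [hBad, mem_filter] at hx
      obtain ⟨hxF, i, hi1, his, hxi⟩ := hx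
      rw [xm6_memF hqs] at hxF
      have hxp : ∀ i : ℕ, (fun y : k => y ^ q)^[i] x = x ^ q ^ i := by
        intro i
        induction i with
        | zero => simp
        | succ i ih => rw [Function.iterate_succ_apply', ih, pow_succ, pow_mul]
      have hp1 : Function.IsPeriodicPt (fun y : k => y ^ q) i x := by
        rw [Function.IsPeriodicPt, Function.IsFixedPt, hxp, hxi]
      have hp2 : Function.IsPeriodicPt (fun y : k => y ^ q) s x := by
        rw [Function.IsPeriodicPt, Function.IsFixedPt, hxp, hxF]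
      have hp3 := hp1.gcd hp2
      rw [Function.IsPeriodicPt, Function.IsFixedPt, hxp] at hp3
      rw [mem_biUnion]
      have hg1 : 1 ≤ i.gcd s := Nat.gcd_pos_of_pos_left _ (by omega)
      have hg2 : i.gcd s ≤ s / 2 := by
        have hd : i.gcd s ∣ s := Nat.gcd_dvd_right _ _
        have hle : i.gcd s ≤ i := Nat.gcd_le_left _ (by omega)
        obtain ⟨c, hc⟩ := hd
        have hc2 : 2 ≤ c := by
          by_contra hcon
          have : c = 0 ∨ c = 1 := by omega
          rcases this with rfl | rfl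
          · omega
          · omega
        rw [Nat.le_div_iff_mul_le (by norm_num)]
        calc i.gcd s * 2 ≤ i.gcd s * c := Nat.mul_le_mul_left _ hc2
          _ = s := hc.symm
      refine ⟨i.gcd s, mem_Icc.2 ⟨hg1, hg2⟩, ?_⟩
      rw [xm6_memF (Nat.one_lt_pow (by omega) (by omega))]
      exact hp3
    refine (card_le_card hsub).trans (card_biUnion_le.trans ?_)
    apply Finset.sum_le_sum
    intro g hg
    exact xm6_cardF_le (Nat.one_lt_pow (by have := (mem_Icc.1 hg).1; omega) (by omega))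
  -- surjectivity
  obtain ⟨lam, hlam⟩ := xm6_trace (L := L) hq hr hE hcard
  have hsurj : ∀ x ∈ F, ∃ γ, Ah γ = x := by
    intro x hx
    rw [hF, xm6_memF hqs] at hx
    obtain ⟨η, hη0, hηq⟩ := xm6_eta φ hφ hϖ hinj hz₀ hx
    have hηi : ∀ i, ∀ z ∈ Z, η z ^ q ^ i = η (ϖ^[i] z) := by
      intro i z hz
      induction i with
      | zero => simp
      | succ i ih =>
        rw [pow_succ, pow_mul, ih, hηq _ (xm6_iter_mem hϖ i hz), Function.iterate_succ_apply']
    obtain ⟨β, hβ⟩ := interp_descent (L := L) (φ E)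
      (fun y hy => xm6_fixed (by rw [hcard, ← hφ]; exact hy))
      (fun y => by rw [hφ, hpL]) Z ϖ^[E] (fun z hz => xm6_iter_mem hϖ E hz)
      (xm6_iter_inj hϖ hinj E) (v 0) η hv
      (fun z hz => by
        rw [hφ, xm6_vpow hϖ v h1 0 E hz, zero_add, h2 _ (xm6_iter_mem hϖ E hz)])
      (fun z hz => by rw [hφ, hηi E z hz])
    have hβi : ∀ i, ∀ w ∈ Z, η w = ∑ j ∈ range Z.card, algebraMap L k (β j) ^ q ^ i *
        v i w ^ j := by
      intro i w hw
      obtain ⟨z, hz, rfl⟩ := xm6_iter_surj hϖ hinj i w hw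
      rw [← hηi i z hz, hβ z hz, ← hφ, map_sum]
      apply Finset.sum_congr rfl
      intro j _
      rw [hφ, mul_pow, ← pow_mul (v 0 z), mul_comm j, pow_mul, xm6_vpow hϖ v h1 0 i hz,
        zero_add]
    refine ⟨fun j => lam * β j, ?_⟩
    show A (fun j => lam * β j) z₀ = x
    rw [hA]
    simp only
    have e1 : ∀ i ∈ range E, (∑ j : Fin Z.card, algebraMap L k (lam * β j) ^ q ^ i *
        v i z₀ ^ (j : ℕ)) = algebraMap L k lam ^ q ^ i * x := by
      intro i _
      rw [← hη0, hβi i z₀ hz₀, Finset.mul_sum,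
        ← Fin.sum_univ_eq_sum_range (fun j => algebraMap L k lam ^ q ^ i *
          (algebraMap L k (β j) ^ q ^ i * v i z₀ ^ j)) Z.card]
      apply Finset.sum_congr rfl
      intro j _
      rw [map_mul, mul_pow, mul_assoc]
    rw [Finset.sum_congr rfl e1, ← Finset.sum_mul]
    have e2 : ∑ i ∈ range E, algebraMap L k lam ^ q ^ i = 1 := by
      have := congrArg (algebraMap L k) hlam
      rw [map_sum, map_one] at this
      rw [← this]
      exact Finset.sum_congr rfl (fun i _ => by rw [map_pow])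
    rw [e2, one_mul]
  have hfin := xm6_fiber Ah F Bad hsurj (filter_subset _ _) hBadcard
    (fun γ => ¬ Set.InjOn (A γ) {z | ∃ i, z = ϖ^[i] z₀}) (by
      intro γ hγ
      obtain ⟨i, hi1, his, hxi⟩ := xm6_bad φ hφ hs0 (A γ) (hAi γ) hγ
      rw [hBad, mem_filter]
      refine ⟨?_, i, hi1, his, hxi⟩
      rw [hF, xm6_memF hqs]
      have h5 := hAi γ s
      rw [hs, Function.iterate_minimalPeriod] at h5
      exact h5.symm)
  refine hfin.trans (le_of_eq ?_)
  rw [Fintype.card_fun, Fintype.card_fin]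

end Pool.Agent.AbsIrr
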