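import Mathlib
import Pool.Agent.Lib.MP_2adc98_lc.XItem
import Pool.Agent.Lib.MP_2adc98_lc.XM5
import Pool.Agent.Lib.MP_2adc98_lc.XM6
import Pool.Agent.Lib.MP_2adc98_lc.XM7

/-!
# MP_2adc98_lc, piece XN3: counting for `Good3` and `Good4`
-/

set_option autoImplicit false

namespace Pool.Agent.AbsIrr

open Finset Polynomial

private theorem xn3_bitv {L : Type} [Field L] {k : Type} [Field k] [Algebra L k] (p M : ℕ)
    (h c : L) : bitv p M (algebraMap L k h) (algebraMap L k c) = algebraMap L k (bitv p M h c) := by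
  unfold bitv
  split_ifs
  · rw [map_sum]
    refine sum_congr rfl fun i _ => ?_
    rw [map_pow, map_mul]
  · rw [map_pow, map_add]

private theorem xn3_bitv_one {L : Type} [Field L] {k : Type} [Field k] [Algebra L k] (p M : ℕ)
    (h c : L) : bitv p M (algebraMap L k h) (algebraMap L k c) = 1 ↔ bitv p M h c = 1 := by
  rw [xn3_bitv]
  constructor
  · intro h1
    exact (algebraMap L k).injective (by rw [h1, map_one])
  · intro h1
    rw [h1, map_one]

open Classical in
theorem count_good3 {L : Type} [Field L] [Fintype L] {k : Type} [Field k] [Algebra L k]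
    {p R : ℕ} [Fact p.Prime] [CharP L p] {Z : Finset k} {ϖ : k → k} {H : k → k}
    (hH : ∀ z ∈ Z, H z ∈ Set.range (algebraMap L k)) (h2 : Good2 Z ϖ H) :
    3 ^ R * ((univ : Finset (Fin R → L)).filter fun c =>
      ¬ Good3 p (Fintype.card L) R Z ϖ H (tape c)).card ≤
      Z.card ^ 2 * 2 ^ R * Fintype.card L ^ R := by
  set M := Fintype.card L with hM
  set Bad : k × k → Finset (Fin R → L) := fun zz =>
    if (∀ i, ϖ^[i] zz.1 ≠ zz.2) then (univ : Finset (Fin R → L)).filter fun c =>
      ∀ r : Fin R, (bitv p M (H zz.1) (algebraMap L k (c r)) = 1 ↔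
        bitv p M (H zz.2) (algebraMap L k (c r)) = 1) else ∅ with hBad
  have hsub : ((univ : Finset (Fin R → L)).filter fun c =>
      ¬ Good3 p M R Z ϖ H (tape c)) ⊆ (Z ×ˢ Z).biUnion Bad := by
    intro c hc
    rw [mem_filter] at hc
    have hc2 := hc.2
    unfold Good3 at hc2
    push Not at hc2
    obtain ⟨z, hz, z', hz', hne, hall⟩ := hc2
    rw [mem_biUnion]
    refine ⟨(z, z'), mem_product.2 ⟨hz, hz'⟩, ?_⟩
    rw [hBad]
    beta_reduce
    rw [if_pos hne, mem_filter]
    refine ⟨mem_univ _, fun r => ?_⟩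
    have h3 := hall r r.2
    have h4 : tape c (r : ℕ) = c r := by
      unfold tape
      rw [dif_pos r.2]
    rw [h4] at h3
    tauto
  have hcard : ∀ zz ∈ Z ×ˢ Z, 3 ^ R * (Bad zz).card ≤ 2 ^ R * M ^ R := by
    rintro ⟨z, z'⟩ hzz
    rw [mem_product] at hzz
    obtain ⟨hz, hz'⟩ := hzz
    rw [hBad]
    beta_reduce
    split_ifs with hne
    · obtain ⟨h, hh⟩ := hH z hz
      obtain ⟨h', hh'⟩ := hH z' hz'
      have hhne : h ≠ h' := by
        intro e
        apply h2 z hz z' hz' hne
        rw [← hh, ← hh', e]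
      have h5 := count_trials (univ : Finset L) R
        (fun c => (bitv p M h c = 1 ↔ bitv p M h' c = 1)) (by
          rw [card_univ]
          exact bit_sep p hhne)
      rw [card_univ] at h5
      have h6 : ((univ : Finset (Fin R → L)).filter fun c =>
          ∀ r : Fin R, (bitv p M (H z) (algebraMap L k (c r)) = 1 ↔
            bitv p M (H z') (algebraMap L k (c r)) = 1)) =
          ((Fintype.piFinset fun _ : Fin R => (univ : Finset L)).filter fun x =>
            ∀ r, (bitv p M h (x r) = 1 ↔ bitv p M h' (x r) = 1)) := by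
        ext c
        simp only [mem_filter, mem_univ, true_and, Fintype.mem_piFinset, implies_true]
        refine forall_congr' fun r => ?_
        rw [← hh, ← hh', xn3_bitv_one, xn3_bitv_one]
      rw [h6]
      exact h5
    · simp
  calc 3 ^ R * ((univ : Finset (Fin R → L)).filter fun c =>
      ¬ Good3 p M R Z ϖ H (tape c)).card
      ≤ 3 ^ R * ((Z ×ˢ Z).biUnion Bad).card := Nat.mul_le_mul_left _ (card_le_card hsub)
    _ ≤ 3 ^ R * ∑ zz ∈ Z ×ˢ Z, (Bad zz).card := Nat.mul_le_mul_left _ card_biUnion_le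
    _ = ∑ zz ∈ Z ×ˢ Z, 3 ^ R * (Bad zz).card := by rw [mul_sum]
    _ ≤ ∑ _zz ∈ Z ×ˢ Z, 2 ^ R * M ^ R := sum_le_sum hcard
    _ = Z.card ^ 2 * 2 ^ R * M ^ R := by
        rw [sum_const, card_product, smul_eq_mul]
        ring

open Classical in
theorem count_good4 {L : Type} [Field L] [Fintype L] {k : Type} [Field k] [IsAlgClosed k]
    [Algebra L k] {p r q E N R : ℕ} [Fact p.Prime] [CharP k p] (hq : q = p ^ r) (hr : 1 ≤ r)
    (hE : 1 ≤ E) (hcard : Fintype.card L = q ^ E) {Z : Finset k} (hZ : Z.card = N) {ϖ : k → k}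
    (hϖ : ∀ z ∈ Z, ϖ z ∈ Z) (hinj : Set.InjOn ϖ Z) {v : ℕ → k → k}
    (hv : Set.InjOn (v 0) Z) (h1 : ∀ i, ∀ z ∈ Z, v i z ^ q = v (i + 1) (ϖ z))
    (h2 : ∀ z ∈ Z, v E z = v 0 z) :
    3 ^ R * ((univ : Finset (Fin R × Fin N → L)).filter fun γ =>
      ¬ Good4 q E N R Z ϖ v (fun r => tape fun j : Fin N =>
        if h : r < R then γ (⟨r, h⟩, j) else 0)).card ≤
      N * 2 ^ R * Fintype.card L ^ (R * N) := by
  subst hZ
  set P : k → (Fin Z.card → L) → Prop := fun z₀ g =>
    ¬ Set.InjOn (fun z => ∑ i ∈ range E, ∑ j : Fin Z.card, algebraMap L k (g j) ^ q ^ i *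
        v i z ^ (j : ℕ)) {z | ∃ i, z = ϖ^[i] z₀} with hP
  set Bad : k → Finset (Fin R × Fin Z.card → L) := fun z₀ =>
    (univ : Finset (Fin R × Fin Z.card → L)).filter fun γ =>
      ∀ r : Fin R, P z₀ (fun j => γ (r, j)) with hBad
  have hafun : ∀ (g : Fin Z.card → L) (z : k), afun q E Z.card v (tape g) z =
      ∑ i ∈ range E, ∑ j : Fin Z.card, algebraMap L k (g j) ^ q ^ i * v i z ^ (j : ℕ) := by
    intro g z
    unfold afun
    refine sum_congr rfl fun i _ => ?_
    rw [Finset.sum_range]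
    refine sum_congr rfl fun j _ => ?_
    have h4 : tape g (j : ℕ) = g j := by
      unfold tape
      rw [dif_pos j.2]
    rw [h4]
  have hsub : ((univ : Finset (Fin R × Fin Z.card → L)).filter fun γ =>
      ¬ Good4 q E Z.card R Z ϖ v (fun r => tape fun j : Fin Z.card =>
        if h : r < R then γ (⟨r, h⟩, j) else 0)) ⊆ Z.biUnion Bad := by
    intro γ hγ
    rw [mem_filter] at hγ
    have hγ2 := hγ.2
    unfold Good4 at hγ2
    push Not at hγ2
    obtain ⟨z, hz, hall⟩ := hγ2
    rw [mem_biUnion]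
    refine ⟨z, hz, ?_⟩
    rw [hBad]
    beta_reduce
    rw [mem_filter]
    refine ⟨mem_univ _, fun r => ?_⟩
    rw [hP]
    beta_reduce
    intro hinj'
    apply hall r r.2
    have h5 : (fun j : Fin Z.card => if h : (r : ℕ) < R then γ (⟨r, h⟩, j) else 0) =
        fun j => γ (r, j) := by
      funext j
      rw [dif_pos r.2]
    rw [h5]
    intro x hx y hy hxy
    rw [hafun, hafun] at hxy
    exact hinj' hx hy hxy
  have hbad : ∀ z ∈ Z, 3 ^ R * (Bad z).card ≤ 2 ^ R * Fintype.card L ^ (R * Z.card) := by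
    intro z hz
    have h3 := gen_count hq hr hE hcard hϖ hinj v hv h1 h2 hz
    have h5 := count_trials (univ : Finset (Fin Z.card → L)) R (P z) (by
      rw [card_univ, Fintype.card_fun, Fintype.card_fin]
      exact h3)
    rw [card_univ, Fintype.card_fun, Fintype.card_fin, ← pow_mul, mul_comm Z.card R] at h5
    refine le_trans (Nat.mul_le_mul_left _ ?_) h5
    apply Finset.card_le_card_of_injOn (fun γ => fun (r : Fin R) (j : Fin Z.card) => γ (r, j))
    · intro γ hγ
      rw [hBad] at hγ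
      simp only [coe_filter, mem_univ, true_and, Set.mem_ofPred_eq, Fintype.mem_piFinset,
        implies_true] at hγ ⊢
      exact hγ
    · intro γ _ γ' _ heq
      funext rj
      obtain ⟨r, j⟩ := rj
      exact congrFun (congrFun heq r) j
  calc 3 ^ R * ((univ : Finset (Fin R × Fin Z.card → L)).filter fun γ =>
      ¬ Good4 q E Z.card R Z ϖ v (fun r => tape fun j : Fin Z.card =>
        if h : r < R then γ (⟨r, h⟩, j) else 0)).card
      ≤ 3 ^ R * (Z.biUnion Bad).card := Nat.mul_le_mul_left _ (card_le_card hsub)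
    _ ≤ 3 ^ R * ∑ z ∈ Z, (Bad z).card := Nat.mul_le_mul_left _ card_biUnion_le
    _ = ∑ z ∈ Z, 3 ^ R * (Bad z).card := by rw [mul_sum]
    _ ≤ ∑ _z ∈ Z, 2 ^ R * Fintype.card L ^ (R * Z.card) := sum_le_sum hbad
    _ = Z.card * 2 ^ R * Fintype.card L ^ (R * Z.card) := by
        rw [sum_const, smul_eq_mul]
        ring

end Pool.Agent.AbsIrr
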