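import Mathlib
import Pool.Agent.Lib.MP_2adc98_lc.XAsm
import Pool.Agent.Lib.MP_2adc98_lc.XRow
import Pool.Agent.Lib.MP_2adc98_lc.XN3
import Pool.Agent.Lib.MP_2adc98_lc.FCount

/-!
# MP_2adc98_lc, piece XQ3: counting the bad choices 3 of an item
-/

set_option autoImplicit false
set_option linter.unusedSectionVars false

namespace Pool.Agent.AbsIrr

open Finset Polynomial

private theorem xq3_le {α : Type} (s t : Finset α) {P P' : α → Prop} (i1 : DecidablePred P)
    (i2 : DecidablePred P') (h : ∀ x ∈ s, P x → x ∈ t ∧ P' x) :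
    (@Finset.filter α P i1 s).card ≤ (@Finset.filter α P' i2 t).card :=
  Finset.card_le_card fun x hx => by
    rw [Finset.mem_filter] at hx ⊢
    exact h x hx.1 hx.2

private theorem xq3_zero {α : Type} (s : Finset α) {P : α → Prop} (i1 : DecidablePred P)
    (h : ∀ x ∈ s, ¬ P x) : (@Finset.filter α P i1 s).card = 0 := by
  rw [Finset.card_eq_zero, Finset.filter_eq_empty_iff]
  exact h

/-- the positions of the random elements for the bits -/
private def xq3phi (d R : ℕ) : Fin R ↪ Fin (len3 d R) where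
  toFun r := ⟨2 * (d + 1) ^ 2 + d + (r : ℕ), by
    have := r.2
    unfold len3
    have h : 0 ≤ R * d := Nat.zero_le _
    omega⟩
  inj' := by
    intro a b h
    have h1 := congrArg Fin.val h
    simp only [Nat.add_left_cancel_iff] at h1
    exact Fin.ext h1

section XQ3
open Classical

variable {L : Type} [Field L] [Fintype L] {k : Type} [Field k]
  [IsAlgClosed k] [Algebra L k] {p r q E : ℕ} [Fact p.Prime]
  [CharP k p] (hq : q = p ^ r) (hr : 1 ≤ r) (hE : 1 ≤ E) (hcard : Fintype.card L = q ^ E)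
  {Fvt : Fam TVt .arr} {Fkh : Fam TKh .arr} (hvt : SpecVt Fvt) (hkh : SpecKh Fkh)
  {l R d δ N : ℕ} {Q F : ℕ → L} (hl : Fintype.card L < 2 ^ l) {Z : Finset k} {ϖ : k → k}
  (hI : ItemOK q N ((δ + 1) ^ 2) Q (toE d δ N F) Z ϖ) (hN : N ≤ d) (hδ : δ ≤ d)

include hq hr hE hcard hvt hkh hl hI hN hδ

theorem count_it3 : 3 ^ R * ((univ : Finset (Fin (len3 d R) → L)).filter fun ω =>
    Good1 q ((δ + 1) ^ 2) N (toE d δ N F) Z (iR δ (tape ω)) (iR' d δ (tape ω)) ∧
    Good2 Z ϖ (fun z => evz N z (iH Fvt Fkh q l E d δ N Q F (tape ω))) ∧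
    ¬ Good3 p (Fintype.card L) R Z ϖ (fun z => evz N z (iH Fvt Fkh q l E d δ N Q F (tape ω)))
      (iC d (tape ω))).card ≤ N ^ 2 * 2 ^ R * Fintype.card L ^ len3 d R := by
  have : CharP L p := ((algebraMap L k).charP_iff (algebraMap L k).injective p).2 inferInstance
  have hpos : (δ + 1) ^ 2 ≤ (d + 1) ^ 2 := Nat.pow_le_pow_left (by omega) 2
  have key := count_injG (univ : Finset L) (xq3phi d R) (fun ω =>
    Good1 q ((δ + 1) ^ 2) N (toE d δ N F) Z (iR δ (tape ω)) (iR' d δ (tape ω)) ∧
    Good2 Z ϖ (fun z => evz N z (iH Fvt Fkh q l E d δ N Q F (tape ω))) ∧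
    ¬ Good3 p (Fintype.card L) R Z ϖ (fun z => evz N z (iH Fvt Fkh q l E d δ N Q F (tape ω)))
      (iC d (tape ω))) (3 ^ R) (N ^ 2 * 2 ^ R) (by
    intro ω₀ _
    have hR : ∀ x : Fin R → L, iR δ (tape (Function.extend (xq3phi d R) x ω₀)) =
        iR δ (tape ω₀) := by
      intro x
      funext j
      unfold iR tabF
      split_ifs with hj
      · refine tape_extend' _ _ _ fun i => ?_
        show 2 * (d + 1) ^ 2 + d + (i : ℕ) ≠ j
        omega
      · rfl
    have hR' : ∀ x : Fin R → L, iR' d δ (tape (Function.extend (xq3phi d R) x ω₀)) =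
        iR' d δ (tape ω₀) := by
      intro x
      funext j
      unfold iR' tabF
      split_ifs with hj
      · refine tape_extend' _ _ _ fun i => ?_
        show 2 * (d + 1) ^ 2 + d + (i : ℕ) ≠ (d + 1) ^ 2 + j
        omega
      · rfl
    have hS : ∀ x : Fin R → L, iS d N (tape (Function.extend (xq3phi d R) x ω₀)) =
        iS d N (tape ω₀) := by
      intro x
      funext j
      unfold iS tabF
      split_ifs with hj
      · refine tape_extend' _ _ _ fun i => ?_
        show 2 * (d + 1) ^ 2 + d + (i : ℕ) ≠ 2 * (d + 1) ^ 2 + j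
        omega
      · rfl
    have hH : ∀ x : Fin R → L, iH Fvt Fkh q l E d δ N Q F
        (tape (Function.extend (xq3phi d R) x ω₀)) = iH Fvt Fkh q l E d δ N Q F (tape ω₀) := by
      intro x
      unfold iH iV
      rw [hR, hR', hS]
    have hC : ∀ (x : Fin R → L) (i : Fin R),
        iC d (tape (Function.extend (xq3phi d R) x ω₀)) (i : ℕ) = tape x (i : ℕ) := by
      intro x i
      rw [tape_lt x i.2]
      exact tape_extend (xq3phi d R) x ω₀ i
    have h3 : ∀ (x : Fin R → L) (H : k → k), Good3 p (Fintype.card L) R Z ϖ H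
        (iC d (tape (Function.extend (xq3phi d R) x ω₀))) ↔
        Good3 p (Fintype.card L) R Z ϖ H (tape x) := by
      intro x H
      unfold Good3
      refine forall_congr' fun z => forall_congr' fun _ => forall_congr' fun z' =>
        forall_congr' fun _ => forall_congr' fun _ => exists_congr fun i => ?_
      refine and_congr_right fun hi => ?_
      rw [hC x ⟨i, hi⟩]
    by_cases hg : Good1 q ((δ + 1) ^ 2) N (toE d δ N F) Z (iR δ (tape ω₀)) (iR' d δ (tape ω₀)) ∧
      Good2 Z ϖ (fun z => evz N z (iH Fvt Fkh q l E d δ N Q F (tape ω₀)))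
    · obtain ⟨g1, g2⟩ := hg
      have h4 := count_good3 (p := p) (R := R) (Z := Z) (ϖ := ϖ)
        (H := fun z => evz N z (iH Fvt Fkh q l E d δ N Q F (tape ω₀)))
        (fun z hz => (H_const hq hr hE hcard hvt hkh hl hI g1 z hz).2) g2
      rw [isMod_card hI.isMod] at h4
      rw [Fintype.card_fin, mul_comm, card_univ]
      refine le_trans (Nat.mul_le_mul_left _ (xq3_le _ _ _ _ fun x _ hx => ?_)) h4
      refine ⟨mem_univ _, ?_⟩
      have hx2 := hx.2.2
      rw [hH, h3] at hx2
      exact hx2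
    · refine le_trans (Nat.mul_le_mul_right _ (le_of_eq (xq3_zero _ _ fun x _ hx => hg ?_)))
        (by rw [zero_mul]; exact Nat.zero_le _)
      rw [hR, hR', hH] at hx
      exact ⟨hx.1, hx.2.1⟩)
  rw [card_univ] at key
  rw [mul_comm]
  refine le_trans (Nat.mul_le_mul_right _ (xq3_le _ _ _ _ fun ω _ hω => ?_)) key
  exact ⟨Fintype.mem_piFinset.2 fun _ => mem_univ _, hω⟩

end XQ3

end Pool.Agent.AbsIrr
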