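import Mathlib
import Pool.Agent.Lib.MP_2adc98_lc.XRow
import Pool.Agent.Lib.MP_2adc98_lc.XAsm
import Pool.Agent.Lib.MP_2adc98_lc.XM7
import Pool.Agent.Lib.MP_2adc98_lc.XN1
import Pool.Agent.Lib.MP_2adc98_lc.XN3
import Pool.Agent.Lib.MP_2adc98_lc.XOrb
import Pool.Agent.Lib.MP_2adc98_lc.FCount

/-!
# MP_2adc98_lc, piece XQ4: the random rational functions of one item, on the tape
-/

set_option autoImplicit false
set_option linter.unusedSectionVars false

namespace Pool.Agent.AbsIrr

open Finset Polynomial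

private theorem xq4_digit {w a b c d : ℕ} (hb : b < w) (hd : d < w) (h : a * w + b = c * w + d) :
    a = c ∧ b = d := by
  have hw : 0 < w := by omega
  have h1 : (a * w + b) / w = a := by
    rw [Nat.mul_comm, Nat.mul_add_div hw, Nat.div_eq_of_lt hb, Nat.add_zero]
  have h2 : (c * w + d) / w = c := by
    rw [Nat.mul_comm, Nat.mul_add_div hw, Nat.div_eq_of_lt hd, Nat.add_zero]
  have h3 : a = c := by
    rw [← h1, ← h2, h]
  subst h3
  exact ⟨rfl, by omega⟩

/-- only the first `R` functions matter -/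
private theorem xq4_congr {L : Type} [Field L] {k : Type} [Field k] [Algebra L k] {q E N R : ℕ}
    {Z : Finset k} {ϖ : k → k} {v : ℕ → k → k} {γ γ' : ℕ → ℕ → L} (h : ∀ r < R, γ r = γ' r) :
    Good4 q E N R Z ϖ v γ ↔ Good4 q E N R Z ϖ v γ' := by
  unfold Good4
  constructor
  · intro H z hz
    obtain ⟨r, hr, h1⟩ := H z hz
    exact ⟨r, hr, by rw [← h r hr]; exact h1⟩
  · intro H z hz
    obtain ⟨r, hr, h1⟩ := H z hz
    exact ⟨r, hr, by rw [h r hr]; exact h1⟩

/-- all functions, whatever the instances are -/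
private theorem xq4_pi {ι L : Type} [Fintype ι] [Fintype L] (P : (ι → L) → Prop)
    (i1 : DecidableEq ι) (i2 j2 : DecidablePred P) (j : Fintype (ι → L)) :
    (@Finset.filter _ P i2 (@Fintype.piFinset ι i1 _ _ (fun _ => (univ : Finset L)))).card =
      (@Finset.filter _ P j2 (@univ _ j)).card := by
  refine congrArg _ ?_
  ext x
  simp

private theorem xq4_mem {α : Type} {s : Finset α} {P : α → Prop} {i : DecidablePred P} {x : α}
    (h : x ∈ @Finset.filter α P i s) : P x :=
  (Finset.mem_filter.1 h).2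

private theorem xq4_empty {α : Type} {s : Finset α} {P : α → Prop} {i : DecidablePred P}
    (h : ∀ x, ¬ P x) : (@Finset.filter α P i s).card = 0 := by
  rw [Finset.card_eq_zero]
  exact Finset.filter_eq_empty_iff.2 fun x _ => h x

section XQ
open Classical

variable {L : Type} [Field L] [Fintype L] {k : Type} [Field k]
  [IsAlgClosed k] [Algebra L k] {p r q E : ℕ} [Fact p.Prime]
  [CharP k p] (hq : q = p ^ r) (hr : 1 ≤ r) (hE : 1 ≤ E) (hcard : Fintype.card L = q ^ E)
  {Fvt : Fam TVt .arr} {Fkh : Fam TKh .arr} (hvt : SpecVt Fvt) (hkh : SpecKh Fkh)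
  {l R d δ N : ℕ} {Q F : ℕ → L} (hl : Fintype.card L < 2 ^ l) {Z : Finset k} {ϖ : k → k}
  (hI : ItemOK q N ((δ + 1) ^ 2) Q (toE d δ N F) Z ϖ) (hN : N ≤ d) (hδ : δ ≤ d)

include hq hr hE hcard hvt hkh hl hI hN hδ

theorem count_it4 : 3 ^ R * ((univ : Finset (Fin (len3 d R) → L)).filter fun ω =>
    Good1 q ((δ + 1) ^ 2) N (toE d δ N F) Z (iR δ (tape ω)) (iR' d δ (tape ω)) ∧
    ¬ Good4 q E N R Z ϖ (vI k q d δ N F (tape ω)) (iG d R N (tape ω))).card ≤
      N * 2 ^ R * Fintype.card L ^ len3 d R := by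
  have hsq : (δ + 1) ^ 2 ≤ (d + 1) ^ 2 := Nat.pow_le_pow_left (by omega) 2
  have hφlt : ∀ x : Fin R × Fin N,
      2 * (d + 1) ^ 2 + d + R + ((x.1 : ℕ) * d + x.2) < len3 d R := by
    intro x
    have h1 : (x.1 : ℕ) * d + x.2 < R * d := by
      calc (x.1 : ℕ) * d + x.2 < (x.1 : ℕ) * d + d := by have := x.2.2; omega
        _ = (x.1 + 1) * d := by ring
        _ ≤ R * d := Nat.mul_le_mul_right _ x.1.2
    unfold len3
    omega
  have hφinj : Function.Injective (fun x : Fin R × Fin N =>
      (⟨2 * (d + 1) ^ 2 + d + R + ((x.1 : ℕ) * d + x.2), hφlt x⟩ : Fin (len3 d R))) := by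
    intro x y hxy
    have h1 : 2 * (d + 1) ^ 2 + d + R + ((x.1 : ℕ) * d + x.2) =
      2 * (d + 1) ^ 2 + d + R + ((y.1 : ℕ) * d + y.2) := congrArg Fin.val hxy
    have h2 : (x.1 : ℕ) * d + x.2 = (y.1 : ℕ) * d + y.2 := by omega
    obtain ⟨h3, h4⟩ := xq4_digit (lt_of_lt_of_le x.2.2 hN) (lt_of_lt_of_le y.2.2 hN) h2
    exact Prod.ext (Fin.ext h3) (Fin.ext h4)
  set φ : Fin R × Fin N ↪ Fin (len3 d R) := ⟨_, hφinj⟩ with hφ
  have hφv : ∀ i, (φ i : ℕ) = 2 * (d + 1) ^ 2 + d + R + ((i.1 : ℕ) * d + i.2) := fun i => rfl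
  have key := count_injG (univ : Finset L) φ (fun ω =>
    Good1 q ((δ + 1) ^ 2) N (toE d δ N F) Z (iR δ (tape ω)) (iR' d δ (tape ω)) ∧
    ¬ Good4 q E N R Z ϖ (vI k q d δ N F (tape ω)) (iG d R N (tape ω))) (3 ^ R) (N * 2 ^ R) ?_
  · rw [Finset.card_univ] at key
    rw [Nat.mul_comm]
    exact le_of_eq_of_le (congrArg (· * 3 ^ R) (xq4_pi _ _ _ _ _).symm) key
  · intro ω₀ _
    have e1 : ∀ x : Fin R × Fin N → L, iR δ (tape (Function.extend φ x ω₀)) =
        iR δ (tape ω₀) := by
      intro x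
      funext e
      unfold iR tabF
      by_cases he : e < (δ + 1) ^ 2
      · rw [if_pos he, if_pos he]
        exact tape_extend' φ x ω₀ (fun i => by rw [hφv]; omega)
      · rw [if_neg he, if_neg he]
    have e2 : ∀ x : Fin R × Fin N → L, iR' d δ (tape (Function.extend φ x ω₀)) =
        iR' d δ (tape ω₀) := by
      intro x
      funext e
      unfold iR' tabF
      by_cases he : e < (δ + 1) ^ 2
      · rw [if_pos he, if_pos he]
        exact tape_extend' φ x ω₀ (fun i => by rw [hφv]; omega)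
      · rw [if_neg he, if_neg he]
    have e3 : ∀ x : Fin R × Fin N → L, vI k q d δ N F (tape (Function.extend φ x ω₀)) =
        vI k q d δ N F (tape ω₀) := by
      intro x
      funext i
      unfold vI
      rw [e1, e2]
    have e4 : ∀ x : Fin R × Fin N → L, ∀ r < R,
        iG d R N (tape (Function.extend φ x ω₀)) r =
          (fun r => tape fun j : Fin N => if h : r < R then x (⟨r, h⟩, j) else 0) r := by
      intro x r hr
      funext j
      unfold iG tabF
      beta_reduce
      by_cases hj : j < N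
      · rw [if_pos hj, tape_lt _ hj, dif_pos hr]
        have h5 := tape_extend φ x ω₀ (⟨r, hr⟩, ⟨j, hj⟩)
        rw [hφv] at h5
        rw [← h5]
        congr 1
        show 2 * (d + 1) ^ 2 + d + R + r * d + j = 2 * (d + 1) ^ 2 + d + R + (r * d + j)
        omega
      · rw [if_neg hj]
        unfold tape
        rw [dif_neg hj]
    by_cases hg : Good1 q ((δ + 1) ^ 2) N (toE d δ N F) Z (iR δ (tape ω₀)) (iR' d δ (tape ω₀))
    · have h6 := count_good4 (k := k) (R := R) hq hr hE hcard (isMod_card hI.isMod) hI.maps hI.inj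
        (v := vI k q d δ N F (tape ω₀)) (item_v_inj hq hcard hI hg 0)
        (fun i z hz => item_v_frob hq hcard hI hg i z hz)
        (fun z hz => by
          have := item_v_period hq hcard hI hg 0 z hz
          rw [Nat.zero_add] at this
          exact this)
      have h7 : Fintype.card (Fin R × Fin N) = R * N := by simp
      rw [Finset.card_univ, Nat.mul_comm, h7]
      refine le_trans (Nat.mul_le_mul_left _ ?_) h6
      refine le_of_eq_of_le (xq4_pi _ _ _ (fun _ => Classical.propDecidable _) inferInstance)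
        (Finset.card_le_card ?_)
      intro x hx
      rw [Finset.mem_filter]
      refine ⟨Finset.mem_univ _, fun h8 => (xq4_mem hx).2 ?_⟩
      rw [e3]
      exact (xq4_congr (e4 x)).2 h8
    · refine le_of_eq_of_le ?_ (Nat.zero_le _)
      rw [Nat.mul_eq_zero]
      refine Or.inl (xq4_empty fun x h => hg ?_)
      rw [← e1 x, ← e2 x]
      exact h.1

end XQ

end Pool.Agent.AbsIrr
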