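import Mathlib
import Pool.Agent.Lib.MP_2adc98_lc.XAsm
import Pool.Agent.Lib.MP_2adc98_lc.XQ1
import Pool.Agent.Lib.MP_2adc98_lc.XQ2
import Pool.Agent.Lib.MP_2adc98_lc.XQ3
import Pool.Agent.Lib.MP_2adc98_lc.XQ4

/-!
# MP_2adc98_lc, stage 3, piece XQ5: counting for all items
-/

set_option autoImplicit false

namespace Pool.Agent.AbsIrr

open Finset Polynomial

theorem XQ5_pow {d : ℕ} : 32 * d ^ 2 * 2 ^ RF d ≤ 3 ^ RF d := by
  unfold RF
  set l := Nat.log 2 d with hl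
  have h1 : d < 2 ^ (l + 1) := Nat.lt_pow_succ_log_self (by norm_num) d
  have h2 : d ^ 2 ≤ 4 * 4 ^ l := by
    calc d ^ 2 ≤ (2 ^ (l + 1)) ^ 2 := Nat.pow_le_pow_left h1.le 2
      _ = 4 * 4 ^ l := by
        rw [← pow_mul, show (4 : ℕ) = 2 ^ 2 by norm_num, ← pow_mul, ← pow_add]
        congr 1
        ring
  have h3 : (2 : ℕ) ^ (4 * l + 12) = 16 ^ l * 4096 := by
    rw [pow_add, pow_mul]; norm_num
  have h4 : (3 : ℕ) ^ (4 * l + 12) = 81 ^ l * 531441 := by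
    rw [pow_add, pow_mul]; norm_num
  rw [h3, h4]
  calc 32 * d ^ 2 * (16 ^ l * 4096) ≤ 32 * (4 * 4 ^ l) * (16 ^ l * 4096) := by gcongr
    _ = (4 * 16) ^ l * 524288 := by rw [mul_pow]; ring
    _ ≤ 81 ^ l * 531441 := by gcongr <;> norm_num

open Classical in
theorem count_items {L : Type} [Field L] [Fintype L] {k : Type} [Field k]
    [IsAlgClosed k] [Algebra L k] {p r q E : ℕ} [Fact p.Prime]
    [CharP k p] (hq : q = p ^ r) (hr : 1 ≤ r) (hE : 1 ≤ E) (hcard : Fintype.card L = q ^ E)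
    {Fvt : Fam TVt .arr} {Fkh : Fam TKh .arr} (hvt : SpecVt Fvt) (hkh : SpecKh Fkh)
    {l d : ℕ} (hd : 1 ≤ d) (hc : 128 * d ^ 2 ≤ Fintype.card L) (hl : Fintype.card L < 2 ^ l)
    (I : Finset (ℕ × ℕ)) (N : ℕ × ℕ → ℕ) (Q F : ℕ × ℕ → ℕ → L) (Z : ℕ × ℕ → Finset k)
    (ϖ : ℕ × ℕ → k → k)
    (hI : ∀ x ∈ I, ItemOK q (N x) ((x.2 + 1) ^ 2) (Q x) (toE d x.2 (N x) (F x)) (Z x) (ϖ x))
    (hN : ∀ x ∈ I, N x ≤ d ∧ x.2 ≤ d) (hsum : ∑ x ∈ I, N x ≤ d) :
    128 * ((univ : Finset (Fin (len3 d (RF d)) → L)).filter fun ω =>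
      ¬ ∀ x ∈ I, GoodIt Fvt Fkh p q E l (RF d) d x.2 (N x) (Q x) (F x) (tape ω) (Z x)
        (ϖ x)).card ≤ 11 * Fintype.card L ^ len3 d (RF d) := by
  set R := RF d with hR
  set M := Fintype.card L with hM
  set T := M ^ len3 d R with hT
  set B1 : ℕ × ℕ → Finset (Fin (len3 d R) → L) := fun x => univ.filter fun ω =>
    ¬ Good1 q ((x.2 + 1) ^ 2) (N x) (toE d x.2 (N x) (F x)) (Z x) (iR x.2 (tape ω))
      (iR' d x.2 (tape ω)) with hB1
  set B2 : ℕ × ℕ → Finset (Fin (len3 d R) → L) := fun x => univ.filter fun ω =>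
    Good1 q ((x.2 + 1) ^ 2) (N x) (toE d x.2 (N x) (F x)) (Z x) (iR x.2 (tape ω))
      (iR' d x.2 (tape ω)) ∧
    ¬ Good2 (Z x) (ϖ x) (fun z => evz (N x) z
      (iH Fvt Fkh q l E d x.2 (N x) (Q x) (F x) (tape ω))) with hB2
  set B3 : ℕ × ℕ → Finset (Fin (len3 d R) → L) := fun x => univ.filter fun ω =>
    Good1 q ((x.2 + 1) ^ 2) (N x) (toE d x.2 (N x) (F x)) (Z x) (iR x.2 (tape ω))
      (iR' d x.2 (tape ω)) ∧
    Good2 (Z x) (ϖ x) (fun z => evz (N x) z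
      (iH Fvt Fkh q l E d x.2 (N x) (Q x) (F x) (tape ω))) ∧
    ¬ Good3 p M R (Z x) (ϖ x) (fun z => evz (N x) z
      (iH Fvt Fkh q l E d x.2 (N x) (Q x) (F x) (tape ω))) (iC d (tape ω)) with hB3
  set B4 : ℕ × ℕ → Finset (Fin (len3 d R) → L) := fun x => univ.filter fun ω =>
    Good1 q ((x.2 + 1) ^ 2) (N x) (toE d x.2 (N x) (F x)) (Z x) (iR x.2 (tape ω))
      (iR' d x.2 (tape ω)) ∧
    ¬ Good4 q E (N x) R (Z x) (ϖ x) (vI k q d x.2 (N x) (F x) (tape ω))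
      (iG d R (N x) (tape ω)) with hB4
  have hsub : ((univ : Finset (Fin (len3 d R) → L)).filter fun ω =>
      ¬ ∀ x ∈ I, GoodIt Fvt Fkh p q E l R d x.2 (N x) (Q x) (F x) (tape ω) (Z x)
        (ϖ x)) ⊆ I.biUnion (fun x => (B1 x ∪ B2 x) ∪ (B3 x ∪ B4 x)) := by
    intro ω hω
    have hω' := (Finset.mem_filter.1 hω).2
    push Not at hω'
    obtain ⟨x, hx, hbad⟩ := hω'
    refine Finset.mem_biUnion.2 ⟨x, hx, ?_⟩
    by_contra hcon
    simp only [Finset.mem_union, not_or, hB1, hB2, hB3, hB4, Finset.mem_filter, Finset.mem_univ,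
      true_and, not_and, not_not] at hcon
    obtain ⟨⟨c1, c2⟩, c3, c4⟩ := hcon
    exact hbad ⟨c1, c2 c1, c3 c1 (c2 c1), c4 c1⟩
  have hcardle : ((univ : Finset (Fin (len3 d R) → L)).filter fun ω =>
      ¬ ∀ x ∈ I, GoodIt Fvt Fkh p q E l R d x.2 (N x) (Q x) (F x) (tape ω) (Z x)
        (ϖ x)).card ≤ (∑ x ∈ I, ((B1 x).card + (B2 x).card)) +
          ∑ x ∈ I, ((B3 x).card + (B4 x).card) := by
    refine (Finset.card_le_card hsub).trans ?_
    refine Finset.card_biUnion_le.trans ?_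
    rw [← Finset.sum_add_distrib]
    refine Finset.sum_le_sum fun x _ => ?_
    refine (Finset.card_union_le _ _).trans ?_
    exact add_le_add (Finset.card_union_le _ _) (Finset.card_union_le _ _)
  have hsq : ∑ x ∈ I, N x ^ 2 ≤ d ^ 2 := by
    calc ∑ x ∈ I, N x ^ 2 ≤ ∑ x ∈ I, d * N x := by
          refine Finset.sum_le_sum fun x hx => ?_
          rw [pow_two]
          exact Nat.mul_le_mul_right _ (hN x hx).1
      _ = d * ∑ x ∈ I, N x := by rw [Finset.mul_sum]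
      _ ≤ d ^ 2 := by rw [pow_two]; exact Nat.mul_le_mul_left _ hsum
  have hdd : d ≤ d ^ 2 := by nlinarith
  have h12 : 128 * (∑ x ∈ I, ((B1 x).card + (B2 x).card)) ≤ 3 * T := by
    have h : (∑ x ∈ I, ((B1 x).card + (B2 x).card)) * M ≤ 3 * d ^ 2 * T := by
      rw [Finset.sum_mul]
      calc ∑ x ∈ I, ((B1 x).card + (B2 x).card) * M
          ≤ ∑ x ∈ I, (N x + 2 * N x ^ 2) * T := by
            refine Finset.sum_le_sum fun x hx => ?_
            have e1 := count_it1 (R := R) hq hr hE hcard hvt hkh hl (hI x hx) (hN x hx).1 (hN x hx).2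
            have e2 := count_it2 (R := R) hq hr hE hcard hvt hkh hl (hI x hx) (hN x hx).1 (hN x hx).2
            calc ((B1 x).card + (B2 x).card) * M = (B1 x).card * M + (B2 x).card * M := by ring
              _ ≤ (N x + N x ^ 2) * T + N x ^ 2 * T := add_le_add e1 e2
              _ = _ := by ring
        _ = (∑ x ∈ I, N x + 2 * ∑ x ∈ I, N x ^ 2) * T := by
            rw [← Finset.sum_mul, Finset.sum_add_distrib, Finset.mul_sum]
        _ ≤ 3 * d ^ 2 * T := by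
            refine Nat.mul_le_mul_right _ ?_
            omega
    have hd2 : 0 < d ^ 2 := by positivity
    have h' : d ^ 2 * (128 * (∑ x ∈ I, ((B1 x).card + (B2 x).card))) ≤ d ^ 2 * (3 * T) := by
      calc d ^ 2 * (128 * (∑ x ∈ I, ((B1 x).card + (B2 x).card)))
          = (∑ x ∈ I, ((B1 x).card + (B2 x).card)) * (128 * d ^ 2) := by ring
        _ ≤ (∑ x ∈ I, ((B1 x).card + (B2 x).card)) * M := Nat.mul_le_mul_left _ hc
        _ ≤ 3 * d ^ 2 * T := h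
        _ = _ := by ring
    exact Nat.le_of_mul_le_mul_left h' hd2
  have h34 : 128 * (∑ x ∈ I, ((B3 x).card + (B4 x).card)) ≤ 8 * T := by
    have h : 3 ^ R * (∑ x ∈ I, ((B3 x).card + (B4 x).card)) ≤ 2 * d ^ 2 * 2 ^ R * T := by
      rw [Finset.mul_sum]
      calc ∑ x ∈ I, 3 ^ R * ((B3 x).card + (B4 x).card)
          ≤ ∑ x ∈ I, (N x ^ 2 + N x) * (2 ^ R * T) := by
            refine Finset.sum_le_sum fun x hx => ?_
            have e3 := count_it3 (R := R) hq hr hE hcard hvt hkh hl (hI x hx) (hN x hx).1 (hN x hx).2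
            have e4 := count_it4 (R := R) hq hr hE hcard hvt hkh hl (hI x hx) (hN x hx).1 (hN x hx).2
            calc 3 ^ R * ((B3 x).card + (B4 x).card)
                = 3 ^ R * (B3 x).card + 3 ^ R * (B4 x).card := by ring
              _ ≤ N x ^ 2 * 2 ^ R * T + N x * 2 ^ R * T := add_le_add e3 e4
              _ = _ := by ring
        _ = (∑ x ∈ I, N x ^ 2 + ∑ x ∈ I, N x) * (2 ^ R * T) := by
            rw [← Finset.sum_mul, Finset.sum_add_distrib]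
        _ ≤ (2 * d ^ 2) * (2 ^ R * T) := by
            refine Nat.mul_le_mul_right _ ?_
            omega
        _ = _ := by ring
    have hpow : 32 * d ^ 2 * 2 ^ R ≤ 3 ^ R := XQ5_pow
    have hpos : 0 < 2 * d ^ 2 * 2 ^ R := by positivity
    have h' : (2 * d ^ 2 * 2 ^ R) * (16 * (∑ x ∈ I, ((B3 x).card + (B4 x).card))) ≤
        (2 * d ^ 2 * 2 ^ R) * T := by
      calc (2 * d ^ 2 * 2 ^ R) * (16 * (∑ x ∈ I, ((B3 x).card + (B4 x).card)))
          = (32 * d ^ 2 * 2 ^ R) * (∑ x ∈ I, ((B3 x).card + (B4 x).card)) := by ring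
        _ ≤ 3 ^ R * (∑ x ∈ I, ((B3 x).card + (B4 x).card)) := Nat.mul_le_mul_right _ hpow
        _ ≤ _ := h
    have h'' := Nat.le_of_mul_le_mul_left h' hpos
    omega
  calc 128 * ((univ : Finset (Fin (len3 d R) → L)).filter fun ω =>
      ¬ ∀ x ∈ I, GoodIt Fvt Fkh p q E l R d x.2 (N x) (Q x) (F x) (tape ω) (Z x)
        (ϖ x)).card ≤ 128 * ((∑ x ∈ I, ((B1 x).card + (B2 x).card)) +
          ∑ x ∈ I, ((B3 x).card + (B4 x).card)) := Nat.mul_le_mul_left _ hcardle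
    _ ≤ 11 * T := by omega

end Pool.Agent.AbsIrr
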