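import Mathlib
import Pool.Agent.Lib.MP_2adc98_lc.XFinal
import Pool.Agent.Lib.MP_2adc98_lc.XQ5
import Pool.Agent.Lib.MP_2adc98_lc.XM1
import Pool.Agent.Lib.MP_2adc98_lc.XM7

/-!
# MP_2adc98_lc, stage 3: the probability of success
-/

set_option autoImplicit false
set_option linter.unusedSectionVars false

namespace Pool.Agent.AbsIrr

open Finset Polynomial

/-- the Frobenius automorphism fixes the polynomials over `K` -/
theorem frob_fix {K k : Type} [Field K] [Fintype K] [Field k] [Algebra K k] {p r q : ℕ}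
    [Fact p.Prime] [CharP k p] (hq : q = p ^ r) (hK : Fintype.card K = q) (F : K[X][X]) :
    (F.map (mapRingHom (algebraMap K k))).map (mapRingHom (iterateFrobenius k p r)) =
      F.map (mapRingHom (algebraMap K k)) := by
  ext j i
  simp only [coeff_map, coe_mapRingHom]
  rw [iterateFrobenius_def, ← hq, ← map_pow, ← hK, FiniteField.pow_card]

theorem TD_mapF {K k : Type} [Field K] [Field k] (σ : K →+* k) {d : ℕ} {F : K[X][X]}
    (hF : TD d F) : TD d (F.map (mapRingHom σ)) := by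
  intro j hj
  have h1 : (F.map (mapRingHom σ)).coeff j = (F.coeff j).map σ := by
    rw [coeff_map, coe_mapRingHom]
  rw [h1] at hj ⊢
  have h2 : F.coeff j ≠ 0 := by
    intro h
    rw [h, Polynomial.map_zero] at hj
    exact hj rfl
  rw [natDegree_map]
  exact hF j h2

theorem top_mapF {K k : Type} [Field K] [Field k] (σ : K →+* k) {d : ℕ} {F : K[X][X]}
    (htop : ∃ j ≤ d, (F.coeff j).coeff (d - j) ≠ 0) :
    ∃ j ≤ d, ((F.map (mapRingHom σ)).coeff j).coeff (d - j) ≠ 0 := by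
  obtain ⟨j, hj, hj'⟩ := htop
  refine ⟨j, hj, ?_⟩
  rw [coeff_map, coe_mapRingHom, coeff_map]
  exact (_root_.map_ne_zero σ).mpr hj'

theorem lF_lt {c d : ℕ} (hc : c ≤ 2 ^ 14 * d ^ 4) : c < 2 ^ lF d := by
  have h1 : d < 2 ^ (Nat.log 2 d + 1) := Nat.lt_pow_succ_log_self (by norm_num) d
  have h2 : d ^ 4 < (2 ^ (Nat.log 2 d + 1)) ^ 4 := Nat.pow_lt_pow_left h1 (by norm_num)
  have h3 : 2 ^ lF d = 2 ^ 14 * (2 ^ (Nat.log 2 d + 1)) ^ 4 := by
    unfold lF
    rw [← pow_mul, ← pow_add]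
    congr 1
    ring
  rw [h3]
  omega

/-- the sum of the numbers of factors -/
theorem sum_itA {t d : ℕ} {mm δ : Fin t → ℕ} (hmm : ∀ i, 1 ≤ mm i) (hδ : ∀ i, 1 ≤ δ i)
    (hsum : ∑ i, mm i * δ i = d) (I : Finset (ℕ × ℕ)) : ∑ x ∈ I, (itA mm δ x).card ≤ d := by
  classical
  have h1 : ∀ x, itA mm δ x = univ.filter fun i => (mm i, δ i) = x := by
    intro x
    ext i
    unfold itA
    simp [Prod.ext_iff]
  have h2 : ∑ x ∈ I, (itA mm δ x).card = (univ.filter fun i => (mm i, δ i) ∈ I).card := by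
    simp only [h1]
    exact Finset.sum_card_fiberwise_eq_card_filter _ _ _
  rw [h2]
  calc (univ.filter fun i => (mm i, δ i) ∈ I).card ≤ (univ : Finset (Fin t)).card :=
        Finset.card_filter_le _ _
    _ = ∑ i : Fin t, 1 := by simp
    _ ≤ ∑ i, mm i * δ i := Finset.sum_le_sum fun i _ => Nat.mul_pos (hmm i) (hδ i)
    _ = d := hsum

section
variable {K : Type} [Field K] [Fintype K] {L : Type} [Field L] [Fintype L]
  [Algebra K L] [Algebra L (AlgebraicClosure K)] [IsScalarTower K L (AlgebraicClosure K)]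
  {p r q E : ℕ} [Fact p.Prime]
  [CharP (AlgebraicClosure K) p] (hq : q = p ^ r) (hr : 1 ≤ r) (hE : 1 ≤ E)
  (hK : Fintype.card K = q) (hcard : Fintype.card L = q ^ E)
  {Fvt : Fam TVt .arr} {Fkh : Fam TKh .arr} {Fbt : Fam TBt .arr} {Fra : Fam TRa .arr}
  {FA : Fam TLA .arr} {FB : Fam TLA (.prod .arr .arr)} {FC : Fam TLC .arr} {Fde : Fam TDe TDo}
  (hvt : SpecVt Fvt) (hkh : SpecKh Fkh) (hbt : SpecBt Fbt) (hra : SpecRa Fra)
  (hA : SpecLA FA) (hB : SpecLB FB) (hC : SpecLC FC) (hde : SpecDe Fde)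
  {κ qq b : ℕ → ℕ → ℕ}
  {Fsh : Fam (.prod .nat (.prod .fld (.prod .fld .arr))) .arr}
  {Fmd : Fam (.prod .nat (.prod .nat .arr)) .arr}
  {F1 : Fam In1 Ot1} {F3 : Fam In3 (.prod .arr .arr)} {d : ℕ}
  (hsh : SpecSh Fsh) (hmd : FMn.SpecMd Fmd)
  (hok : ∀ (K : Type) [Field K] (κ q e b d p m : ℕ) (f rho s ω : ℕ → K),
      CostOK d m rho (F1 K (κ, (q, (e, (b, (d, (p, (m, (f, (rho, (s, ω))))))))))))
  (h1s : Spec1 F1) (h3s : Spec3 F3)

open Classical in
include hq hr hE hK hcard hvt hkh hbt hra hA hB hC hde h3s in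
/-- for fixed good choices in stage 2 -/
theorem inner_count {Φ : ∀ (K : Type) [Field K], MvPolynomial (Fin 2) K ≃+* K[X][X]}
    (hΦc : ∀ (K : Type) [Field K] (f : MvPolynomial (Fin 2) K) (i j : ℕ),
      ((Φ K f).coeff j).coeff i = f.coeff (Finsupp.single 0 i + Finsupp.single 1 j))
    {f : MvPolynomial (Fin 2) K} (hd : 1 ≤ d) {A : ℕ → L}
    (hc : 128 * d ^ 2 ≤ Fintype.card L) (hl : Fintype.card L < 2 ^ lF d)
    {t : ℕ} {Fi : Fin t → (AlgebraicClosure K)[X][X]} {δ mm : Fin t → ℕ} {u : AlgebraicClosure K}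
    (hu : u ≠ 0)
    (hG : Φ (AlgebraicClosure K) (MvPolynomial.map (algebraMap K (AlgebraicClosure K)) f) =
      C (C u) * ∏ i, Fi i ^ mm i)
    (hirr : ∀ i, Irreducible (Fi i)) (hna : Pairwise fun i j => ¬ Associated (Fi i) (Fi j))
    (hmm : ∀ i, 1 ≤ mm i) (hδ : ∀ i, 1 ≤ δ i) (hsum : ∑ i, mm i * δ i = d)
    {π : Equiv.Perm (Fin t)}
    (hπ : ∀ i, mm (π i) = mm i ∧ δ (π i) = δ i ∧ ∃ c : AlgebraicClosure K, c ≠ 0 ∧
      (Fi i).map (mapRingHom (iterateFrobenius (AlgebraicClosure K) p r)) = C (C c) * Fi (π i))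
    {ω₀ : ℕ → L} {F' : Fin t → (AlgebraicClosure K)[X][X]}
    (h2 : St2OK κ qq b Fsh Fmd F1 d p A ω₀ Fi δ mm F')
    {ω' : (Fin (len3 d (RF d)) → L) → ℕ → L}
    (hlow : ∀ x, ∀ i < len2 κ d p, ω' x i = ω₀ i)
    (hhigh : ∀ x, tabF (len3 d (RF d)) (fun i => ω' x (len2 κ d p + i)) = tape x)
    {s0 : PProg InpK T0} {sN0 : PProg T0 .nat} {s1 : PProg (.prod T0 .nat) T1}
    {sN1 : PProg T1 .nat} {sN2 : PProg T2 .nat} {s3 : PProg (.prod T2 .nat) T3}
    {sN3 : PProg T3 .nat} {s4 : PProg (.prod T3 .nat) T4} {sN4 : PProg T4 .nat}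
    {s5 : PProg (.prod T4 .nat) Prt}
    (r0 : ∀ x, s0.run L x = xb0 κ qq b Fsh Fmd L x) (rN0 : ∀ x, sN0.run L x = xbN0 L x)
    (r1 : ∀ x, s1.run L x = xb1 F1 L x) (rN1 : ∀ x, sN1.run L x = xbN1 L x)
    (rN2 : ∀ x, sN2.run L x = xbN2 L x) (r3 : ∀ x, s3.run L x = xb3 F3 Fvt Fkh Fbt Fra L x)
    (rN3 : ∀ x, sN3.run L x = xbN3 L x) (r4 : ∀ x, s4.run L x = xb4 Fde L x)
    (rN4 : ∀ x, sN4.run L x = xbN4 L x) (r5 : ∀ x, s5.run L x = xb5 FA FB FC L x) :
    128 * ((univ : Finset (Fin (len3 d (RF d)) → L)).filter fun x =>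
      ¬ ∃ T : List (Triple K), IsAbsFact f T ∧
      ((theOutK s0 sN0 s1 sN1 sN2 s3 sN3 s4 sN4 s5).eval L
        (d, (p, (q, (Fintype.card L, (A, ω' x)))))).map (decode d) =
          T.map (Triple.map K L)).card ≤ 11 * Fintype.card L ^ len3 d (RF d) := by
  unfold St2OK at h2
  obtain ⟨g1, g2, g3, g4, g5, g6⟩ := h2
  set a := ω₀ 0 with ha
  set b' := ω₀ 1 with hb'
  set o := oOf κ qq b Fsh Fmd F1 d p A ω₀ with ho
  obtain ⟨val, hval, hNi, hit⟩ := stage2_items hmm hδ hsum hirr hna g1 g2 g4 g5 g6 h3s (q := q)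
    (σ := iterateFrobenius (AlgebraicClosure K) p r)
    (fun x => by rw [iterateFrobenius_def, hq]) hπ
  set I := ((range (d + 1)) ×ˢ (range (d + 1))).filter (fun x => 1 ≤ nIt d o x) with hI
  have hIm : ∀ x, x ∈ I ↔ 1 ≤ nIt d o x := by
    intro x
    rw [hI, Finset.mem_filter, Finset.mem_product, Finset.mem_range, Finset.mem_range]
    constructor
    · exact fun h => h.2
    · intro h
      obtain ⟨-, ⟨h1, h2, h3⟩, -⟩ := hit x h
      exact ⟨⟨by omega, by omega⟩, h⟩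
  have hsumI : ∑ x ∈ I, nIt d o x ≤ d := by
    rw [Finset.sum_congr rfl fun x hx => (hit x ((hIm x).mp hx)).1]
    exact sum_itA hmm hδ hsum I
  have hcnt := count_items hq hr hE hcard hvt hkh hd hc hl I (nIt d o)
    (qIt F3 d a b' o) (cIt F3 d a b' o) (fun x => (itA mm δ x).image val)
    (fun x => itemPerm val π (itA mm δ x))
    (fun x hx => (hit x ((hIm x).mp hx)).2.2.2)
    (fun x hx => ⟨(hit x ((hIm x).mp hx)).2.1.1, (hit x ((hIm x).mp hx)).2.1.2.1⟩) hsumI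
  refine le_trans (Nat.mul_le_mul_left _ (Finset.card_le_card ?_)) hcnt
  intro x hx
  rw [Finset.mem_filter] at hx ⊢
  refine ⟨Finset.mem_univ _, fun hgood => hx.2 ?_⟩
  obtain ⟨c1, c2⟩ := oOf_congr κ qq b Fsh Fmd F1 d p A (hlow x)
  have c3 := hlow x 0 (by unfold len2; omega)
  have c4 := hlow x 1 (by unfold len2; omega)
  exact final_ok hq hr hE hK hcard hvt hkh hbt hra hA hB hC hde hΦc hu hG hirr hna hmm
    hδ hsum hπ c3 c4 c1 (c2.trans g3) g1 hval hNi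
    (fun x hx => ⟨(hit x hx).1, (hit x hx).2.1, (hit x hx).2.2.1⟩) (hhigh x) hl
    (fun y hy => hgood y ((hIm y).mpr hy)) r0 rN0 r1 rN1 rN2 r3 rN3 r4 rN4 r5

open Classical in
include hq hr hE hK hcard hvt hkh hbt hra hA hB hC hde hsh hmd hok h1s h3s in
theorem small_count {Φ : ∀ (K : Type) [Field K], MvPolynomial (Fin 2) K ≃+* K[X][X]}
    (hΦc : ∀ (K : Type) [Field K] (f : MvPolynomial (Fin 2) K) (i j : ℕ),
      ((Φ K f).coeff j).coeff i = f.coeff (Finsupp.single 0 i + Finsupp.single 1 j))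
    (hΦm : ∀ (K L : Type) [Field K] [Field L] (σ : K →+* L) (f : MvPolynomial (Fin 2) K),
      Φ L (MvPolynomial.map σ f) = (Φ K f).map (mapRingHom σ))
    {f : MvPolynomial (Fin 2) K} (hd : 1 ≤ d) (hF : TD d (Φ K f))
    (htop : ∃ j ≤ d, ((Φ K f).coeff j).coeff (d - j) ≠ 0) {e M₁ : ℕ}
    (hκ : 5 * d ^ 2 < 2 ^ κ d p) (hqq : qq d p = p ^ e) (hM1 : 2 ^ κ d p ≤ p ^ e * M₁)
    (hM2 : 1 ≤ M₁) (hM3 : M₁ ≤ p) (hM4 : M₁ ≤ 2 ^ b d p) {A : ℕ → L}
    (hA' : ∀ n < (d + 1) * (d + 1), A n = coeffs2 (d + 1)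
      ((Φ K f).map (mapRingHom (algebraMap K L))) n)
    (hc : 128 * d ^ 2 ≤ Fintype.card L) (hc' : Fintype.card L ≤ 2 ^ 14 * d ^ 4)
    {m : ℕ} (hm : len2 κ d p + len3 d (RF d) ≤ m)
    {s0 : PProg InpK T0} {sN0 : PProg T0 .nat} {s1 : PProg (.prod T0 .nat) T1}
    {sN1 : PProg T1 .nat} {sN2 : PProg T2 .nat} {s3 : PProg (.prod T2 .nat) T3}
    {sN3 : PProg T3 .nat} {s4 : PProg (.prod T3 .nat) T4} {sN4 : PProg T4 .nat}
    {s5 : PProg (.prod T4 .nat) Prt}
    (r0 : ∀ x, s0.run L x = xb0 κ qq b Fsh Fmd L x) (rN0 : ∀ x, sN0.run L x = xbN0 L x)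
    (r1 : ∀ x, s1.run L x = xb1 F1 L x) (rN1 : ∀ x, sN1.run L x = xbN1 L x)
    (rN2 : ∀ x, sN2.run L x = xbN2 L x) (r3 : ∀ x, s3.run L x = xb3 F3 Fvt Fkh Fbt Fra L x)
    (rN3 : ∀ x, sN3.run L x = xbN3 L x) (r4 : ∀ x, s4.run L x = xb4 Fde L x)
    (rN4 : ∀ x, sN4.run L x = xbN4 L x) (r5 : ∀ x, s5.run L x = xb5 FA FB FC L x) :
    3 * ((Fintype.piFinset fun _ : Fin m => (univ : Finset L)).filter fun ω =>
      ¬ ∃ T : List (Triple K), IsAbsFact f T ∧
      ((theOutK s0 sN0 s1 sN1 sN2 s3 sN3 s4 sN4 s5).eval L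
        (d, (p, (q, (Fintype.card L, (A, tape ω)))))).map (decode d) =
          T.map (Triple.map K L)).card ≤ Fintype.card L ^ m := by
  have : CharP L p := (RingHom.charP_iff_charP (algebraMap L (AlgebraicClosure K)) p).mpr
    inferInstance
  have : PerfectRing L p := PerfectRing.ofFiniteOfIsReduced p L
  have hl := lF_lt hc'
  have hFG : ((Φ K f).map (mapRingHom (algebraMap K L))).map
      (mapRingHom (algebraMap L (AlgebraicClosure K))) =
      (Φ K f).map (mapRingHom (algebraMap K (AlgebraicClosure K))) := by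
    rw [Polynomial.map_map, mapRingHom_comp, ← IsScalarTower.algebraMap_eq]
  obtain ⟨t, Fi, δ, mm, u, hu, hG, hFi, hna, hsum⟩ := factor_data
    (TD_mapF (algebraMap K (AlgebraicClosure K)) hF) (top_mapF _ htop)
  obtain ⟨π, hπ⟩ := perm_factors (iterateFrobeniusEquiv (AlgebraicClosure K) p r) hu hG
    (frob_fix hq hK _)
    (fun i => ⟨(hFi i).1, (hFi i).2.2.1, (hFi i).2.2.2.1, (hFi i).2.2.2.2⟩) hna
  have hst2 := stage2_count hsh hmd hok h1s (k := AlgebraicClosure K) hd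
    (TD_mapF (algebraMap K L) hF) (top_mapF _ htop) hκ hqq hM1 hM2 hM3 hM4 hA' univ
    (M := m) (by omega) hu (by rw [hFG]; exact hG) hFi hna hsum
  have hcd : (univ : Finset L).card = Fintype.card L := Finset.card_univ
  have hd2 : 1 ≤ d ^ 2 := Nat.one_le_pow _ _ hd
  have hφlt : ∀ i : Fin (len3 d (RF d)), len2 κ d p + (i : ℕ) < m := fun i => by
    have := i.2
    omega
  have hφinj : Function.Injective (fun i : Fin (len3 d (RF d)) =>
      (⟨len2 κ d p + i, hφlt i⟩ : Fin m)) := by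
    intro x y hxy
    have h1 : len2 κ d p + (x : ℕ) = len2 κ d p + y := congrArg Fin.val hxy
    exact Fin.ext (by omega)
  set φ : Fin (len3 d (RF d)) ↪ Fin m := ⟨_, hφinj⟩ with hφ
  have hφv : ∀ i, (φ i : ℕ) = len2 κ d p + (i : ℕ) := fun i => rfl
  have hlow : ∀ (ω₀ : Fin m → L) (x : Fin (len3 d (RF d)) → L), ∀ i < len2 κ d p,
      tape (Function.extend φ x ω₀) i = tape ω₀ i := fun ω₀ x i hi =>
    tape_extend' φ x ω₀ (fun j => by rw [hφv]; omega)
  have hhigh : ∀ (ω₀ : Fin m → L) (x : Fin (len3 d (RF d)) → L),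
      tabF (len3 d (RF d)) (fun i => tape (Function.extend φ x ω₀)
        (len2 κ d p + i)) = tape x := by
    intro ω₀ x
    funext j
    unfold tabF
    split_ifs with hj
    · rw [tape_lt _ hj]
      exact tape_extend φ x ω₀ ⟨j, hj⟩
    · unfold tape
      rw [dif_neg hj]
  have hinner : ∀ (ω₀ : Fin m → L) (F' : Fin t → (AlgebraicClosure K)[X][X]),
      St2OK κ qq b Fsh Fmd F1 d p A (tape ω₀) Fi δ mm F' → _ := fun ω₀ F' h2 =>
    inner_count hq hr hE hK hcard hvt hkh hbt hra hA hB hC hde h3s hΦc (f := f) hd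
      hc hl hu (by rw [hΦm]; exact hG) (fun i => (hFi i).1) hna (fun i => (hFi i).2.2.1)
      (fun i => (hFi i).2.1) hsum hπ h2 (ω' := fun x => tape (Function.extend φ x ω₀))
      (hlow ω₀) (hhigh ω₀) r0 rN0 r1 rN1 rN2 r3 rN3 r4 rN4 r5
  have hG2' : ∀ (ω₀ : Fin m → L) (x : Fin (len3 d (RF d)) → L)
      (F' : Fin t → (AlgebraicClosure K)[X][X]),
      St2OK κ qq b Fsh Fmd F1 d p A (tape (Function.extend φ x ω₀)) Fi δ mm F' →
      St2OK κ qq b Fsh Fmd F1 d p A (tape ω₀) Fi δ mm F' := by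
    intro ω₀ x F' hF'
    obtain ⟨c1, c2⟩ := oOf_congr κ qq b Fsh Fmd F1 d p A (hlow ω₀ x)
    have c3 := hlow ω₀ x 0 (by unfold len2; omega)
    have c4 := hlow ω₀ x 1 (by unfold len2; omega)
    unfold St2OK at hF' ⊢
    rw [c1, c2, c3, c4] at hF'
    exact hF'
  -- the bad events, as predicates
  suffices hmain : ∀ B : (Fin m → L) → Prop, (∀ ω, B ω ↔ ¬ ∃ T : List (Triple K),
      IsAbsFact f T ∧ ((theOutK s0 sN0 s1 sN1 sN2 s3 sN3 s4 sN4 s5).eval L
        (d, (p, (q, (Fintype.card L, (A, tape ω)))))).map (decode d) =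
          T.map (Triple.map K L)) →
      3 * ((Fintype.piFinset fun _ : Fin m => (univ : Finset L)).filter B).card ≤
        Fintype.card L ^ m from
    le_of_eq_of_le (congrArg (3 * ·) (card_filter_inst _ _)) (hmain _ fun _ => Iff.rfl)
  intro B hBdef
  obtain ⟨G2, hG2⟩ : ∃ G2 : (Fin m → L) → Prop, ∀ ω, G2 ω ↔
      ∃ F' : Fin t → (AlgebraicClosure K)[X][X],
        St2OK κ qq b Fsh Fmd F1 d p A (tape ω) Fi δ mm F' := ⟨_, fun _ => Iff.rfl⟩
  -- stage 2
  have hb2 : 128 * ((Fintype.piFinset fun _ : Fin m => (univ : Finset L)).filter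
      fun ω => ¬ G2 ω).card ≤ 7 * Fintype.card L ^ m := by
    rw [hcd] at hst2
    simp only [← hG2] at hst2
    have h1 : d ^ 2 * (128 * ((Fintype.piFinset fun _ : Fin m => (univ : Finset L)).filter
        fun ω => ¬ G2 ω).card) ≤ d ^ 2 * (7 * Fintype.card L ^ m) := by
      calc d ^ 2 * (128 * ((Fintype.piFinset fun _ : Fin m => (univ : Finset L)).filter
            fun ω => ¬ G2 ω).card) =
          ((Fintype.piFinset fun _ : Fin m => (univ : Finset L)).filter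
            fun ω => ¬ G2 ω).card * (128 * d ^ 2) := by ring
        _ ≤ ((Fintype.piFinset fun _ : Fin m => (univ : Finset L)).filter
            fun ω => ¬ G2 ω).card * Fintype.card L := Nat.mul_le_mul_left _ hc
        _ ≤ 7 * d ^ 2 * Fintype.card L ^ m := hst2
        _ = d ^ 2 * (7 * Fintype.card L ^ m) := by ring
    exact Nat.le_of_mul_le_mul_left h1 hd2
  -- stage 3
  obtain ⟨E3, hE3⟩ : ∃ E3 : (Fin m → L) → Prop, ∀ ω, E3 ω ↔ G2 ω ∧ B ω :=
    ⟨_, fun _ => Iff.rfl⟩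
  have hb3 : ((Fintype.piFinset fun _ : Fin m => (univ : Finset L)).filter E3).card * 128 ≤
      11 * Fintype.card L ^ m := by
    have hcount := count_injG (univ : Finset L) φ E3 128 11 ?_
    · rw [hcd] at hcount
      exact hcount
    intro ω₀ _
    rw [Fintype.card_fin, hcd]
    by_cases hg : G2 ω₀
    · obtain ⟨F', hF'⟩ := (hG2 _).mp hg
      refine le_trans ?_ (hinner ω₀ F' hF')
      rw [Nat.mul_comm]
      refine Nat.mul_le_mul_left _ (Finset.card_le_card ?_)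
      intro x hx
      rw [Finset.mem_filter] at hx ⊢
      exact ⟨Finset.mem_univ _, (hBdef _).mp ((hE3 _).mp hx.2).2⟩
    · rw [Finset.filter_false_of_mem, Finset.card_empty, Nat.zero_mul]
      · exact Nat.zero_le _
      intro x _ hx
      obtain ⟨F', hF'⟩ := (hG2 _).mp ((hE3 _).mp hx).1
      exact hg ((hG2 _).mpr ⟨F', hG2' ω₀ x F' hF'⟩)
  have hsub : (Fintype.piFinset fun _ : Fin m => (univ : Finset L)).filter B ⊆
      ((Fintype.piFinset fun _ : Fin m => (univ : Finset L)).filter fun ω => ¬ G2 ω) ∪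
        (Fintype.piFinset fun _ : Fin m => (univ : Finset L)).filter E3 := by
    intro ω hω
    rw [Finset.mem_filter] at hω
    rw [Finset.mem_union, Finset.mem_filter, Finset.mem_filter]
    by_cases h : G2 ω
    · exact Or.inr ⟨hω.1, (hE3 _).mpr ⟨h, hω.2⟩⟩
    · exact Or.inl ⟨hω.1, h⟩
  have h1 := (Finset.card_le_card hsub).trans (Finset.card_union_le _ _)
  omega

end

end Pool.Agent.AbsIrr
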