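import Mathlib
import Pool.Agent.Lib.MP_2adc98_lc.XDefs
import Pool.Agent.Lib.MP_2adc98_lc.FA
import Pool.Agent.Lib.MP_2adc98_lc.XA1

/-!
# MP_2adc98_lc, piece XD: the random bits
-/

set_option autoImplicit false
set_option linter.unusedVariables false

namespace Pool.Agent.AbsIrr

open Finset Polynomial

/-! ## evaluation -/

section
variable {L : Type} [Field L] {k : Type} [Field k] [Algebra L k]

private theorem xd_apol_coeff (n : ℕ) (A : ℕ → L) (i : ℕ) :
    (apol n A).coeff i = if i < n then A i else 0 := by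
  unfold apol
  rw [finsetSum_coeff]
  simp only [coeff_monomial]
  rw [sum_ite_eq' (range n) i]
  simp

private theorem xd_apol_degree (n : ℕ) (A : ℕ → L) : (apol n A).degree < (n : WithBot ℕ) := by
  rw [degree_lt_iff_coeff_zero]
  intro m hm
  rw [xd_apol_coeff, if_neg (by omega)]

private theorem xd_gmon_monic (n : ℕ) (g : ℕ → L) : (gmon n g).Monic := by
  unfold gmon
  exact monic_X_pow_add (xd_apol_degree n g)

private theorem xd_gmon_degree (n : ℕ) (g : ℕ → L) : (gmon n g).degree = (n : WithBot ℕ) := by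
  unfold gmon
  rw [degree_add_eq_left_of_degree_lt]
  · exact degree_X_pow n
  · rw [degree_X_pow]
    exact xd_apol_degree n g

private theorem xd_apol_mod (n : ℕ) (g : ℕ → L) (P : L[X]) :
    apol n (tabF n (fun i => (P %ₘ gmon n g).coeff i)) = P %ₘ gmon n g := by
  ext i
  rw [xd_apol_coeff]
  by_cases hi : i < n
  · rw [if_pos hi]
    simp [tabF, hi]
  · rw [if_neg hi]
    have h1 := degree_modByMonic_lt P (xd_gmon_monic n g)
    rw [xd_gmon_degree] at h1
    exact (coeff_eq_zero_of_degree_lt (h1.trans_le (by exact_mod_cast not_lt.1 hi))).symm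

private theorem xd_evz_apol (n : ℕ) (v : k) (A : ℕ → L) : evz n v A = aeval v (apol n A) := by
  unfold evz apol
  rw [map_sum]
  exact sum_congr rfl fun i _ => (aeval_monomial ..).symm

private theorem xd_root {n : ℕ} {g : ℕ → L} {Z : Finset k} (h : IsMod n g Z) {v : k}
    (hv : v ∈ Z) : aeval v (gmon n g) = 0 := by
  have h1 : aeval v (gmon n g) = eval v ((gmon n g).map (algebraMap L k)) := by
    rw [aeval_def, eval₂_eq_eval_map]
  rw [h1, h, eval_prod]
  exact prod_eq_zero hv (by simp)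

private theorem xd_pos {n : ℕ} {g : ℕ → L} {Z : Finset k} (h : IsMod n g Z) {v : k}
    (hv : v ∈ Z) : 0 < n := by
  rcases Nat.eq_zero_or_pos n with rfl | hn
  · have h1 := xd_root h hv
    have h2 : gmon 0 g = 1 := by simp [gmon]
    rw [h2, map_one] at h1
    exact absurd h1 one_ne_zero
  · exact hn

private theorem xd_evz_mod {n : ℕ} {g : ℕ → L} {Z : Finset k} (h : IsMod n g Z) {v : k}
    (hv : v ∈ Z) (P : L[X]) :
    evz n v (tabF n (fun i => (P %ₘ gmon n g).coeff i)) = aeval v P := by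
  rw [xd_evz_apol, xd_apol_mod]
  have h1 := congrArg (aeval v) (modByMonic_add_div P (gmon n g))
  rw [map_add, map_mul, xd_root h hv, zero_mul, add_zero] at h1
  exact h1

private theorem xd_evz_mulmod {n : ℕ} {g : ℕ → L} {Z : Finset k} (h : IsMod n g Z) {v : k}
    (hv : v ∈ Z) (A B : ℕ → L) : evz n v (mulmod n g A B) = evz n v A * evz n v B := by
  unfold mulmod
  rw [xd_evz_mod h hv, map_mul, ← xd_evz_apol, ← xd_evz_apol]

private theorem xd_evz_powmod {n : ℕ} {g : ℕ → L} {Z : Finset k} (h : IsMod n g Z) {v : k}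
    (hv : v ∈ Z) (E : ℕ) (A : ℕ → L) : evz n v (powmod n E g A) = evz n v A ^ E := by
  unfold powmod
  rw [xd_evz_mod h hv, map_pow, ← xd_evz_apol]

private theorem xd_evz_tab (n : ℕ) (v : k) (f : ℕ → L) : evz n v (tabF n f) = evz n v f := by
  unfold evz
  refine sum_congr rfl fun i hi => ?_
  unfold tabF
  rw [if_pos (mem_range.1 hi)]

private theorem xd_evz_add (n : ℕ) (v : k) (f g : ℕ → L) :
    evz n v (fun i => f i + g i) = evz n v f + evz n v g := by
  unfold evz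
  rw [← sum_add_distrib]
  exact sum_congr rfl fun i _ => by rw [map_add, add_mul]

private theorem xd_evz_sub (n : ℕ) (v : k) (f g : ℕ → L) :
    evz n v (fun i => f i - g i) = evz n v f - evz n v g := by
  unfold evz
  rw [← sum_sub_distrib]
  exact sum_congr rfl fun i _ => by rw [map_sub, sub_mul]

private theorem xd_evz_smul (n : ℕ) (v : k) (c : L) (f : ℕ → L) :
    evz n v (fun i => c * f i) = algebraMap L k c * evz n v f := by
  unfold evz
  rw [mul_sum]
  exact sum_congr rfl fun i _ => by rw [map_mul, mul_assoc]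

private theorem xd_evz_const {n : ℕ} (hn : 0 < n) (v : k) (c : L) :
    evz n v (fun i => if i = 0 then c else 0) = algebraMap L k c := by
  unfold evz
  rw [sum_eq_single_of_mem 0 (mem_range.2 hn)]
  · simp
  · intro b _ hb
    beta_reduce
    rw [if_neg hb, map_zero, zero_mul]

private theorem xd_evz_zero (n : ℕ) (v : k) : evz n v (fun _ => (0 : L)) = 0 := by
  unfold evz
  exact sum_eq_zero fun i _ => by rw [map_zero, zero_mul]

end

/-! ## small routines -/

private def xdSub {K : Type} [Field K] (n : ℕ) (A : ℕ → K) : ℕ → K :=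
  tabF n (fun i => A i - if i = 0 then 1 else 0)

private def xdAdd {K : Type} [Field K] (n : ℕ) (A : ℕ → K) (c : K) : ℕ → K :=
  tabF n (fun i => A i + if i = 0 then c else 0)

private def xdMul {K : Type} [Field K] (n : ℕ) (A : ℕ → K) (c : K) : ℕ → K :=
  tabF n (fun i => c * A i)

private def xdSum {K : Type} [Field K] (n : ℕ) (A B : ℕ → K) : ℕ → K :=
  tabF n (fun i => A i + B i)

private theorem xdSub_rlz : RlzQ (a := .prod .nat .arr) (b := .arr)
    (fun K _ x => xdSub (K := K) x.1 x.2) (fun _ _ x => x.1) := by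
  unfold xdSub
  have hf : RlzQ (a := .prod (.prod .nat .arr) .nat) (b := .fld)
      (fun K _ x => (x.1.2 : ℕ → K) x.2 - if (x.2 : ℕ) = 0 then (1 : K) else (0 : K))
      (fun _ _ _ => 0) :=
    (RlzQ.fsub (RlzQ.get (RlzQ.snd (RlzQ.fst RlzQ.input)) (RlzQ.snd RlzQ.input))
      (RlzQ.iteEq (RlzQ.snd RlzQ.input) (RlzQ.lit 0) RlzQ.one RlzQ.zero)).mono 1
      (fun K _ x => by simp)
  have := RlzQ.tab (a := .prod .nat .arr) (N := fun _ _ x => x.1)
    (f := fun K _ x i => (x.2 : ℕ → K) i - if (i : ℕ) = 0 then (1 : K) else (0 : K))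
    (RlzQ.fst RlzQ.input) hf
  exact this.mono 1 (fun K _ x => by simp)

private theorem xdAdd_rlz : RlzQ (a := .prod .nat (.prod .arr .fld)) (b := .arr)
    (fun K _ x => xdAdd (K := K) x.1 x.2.1 x.2.2) (fun _ _ x => x.1) := by
  unfold xdAdd
  have hf : RlzQ (a := .prod (.prod .nat (.prod .arr .fld)) .nat) (b := .fld)
      (fun K _ x => (x.1.2.1 : ℕ → K) x.2 + if (x.2 : ℕ) = 0 then (x.1.2.2 : K) else (0 : K))
      (fun _ _ _ => 0) :=
    (RlzQ.fadd (RlzQ.get (RlzQ.fst (RlzQ.snd (RlzQ.fst RlzQ.input))) (RlzQ.snd RlzQ.input))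
      (RlzQ.iteEq (RlzQ.snd RlzQ.input) (RlzQ.lit 0)
        (RlzQ.snd (RlzQ.snd (RlzQ.fst RlzQ.input))) RlzQ.zero)).mono 1
      (fun K _ x => by simp)
  have := RlzQ.tab (a := .prod .nat (.prod .arr .fld)) (N := fun _ _ x => x.1)
    (f := fun K _ x i => (x.2.1 : ℕ → K) i + if (i : ℕ) = 0 then (x.2.2 : K) else (0 : K))
    (RlzQ.fst RlzQ.input) hf
  exact this.mono 1 (fun K _ x => by simp)

private theorem xdMul_rlz : RlzQ (a := .prod .nat (.prod .arr .fld)) (b := .arr)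
    (fun K _ x => xdMul (K := K) x.1 x.2.1 x.2.2) (fun _ _ x => x.1) := by
  unfold xdMul
  have hf : RlzQ (a := .prod (.prod .nat (.prod .arr .fld)) .nat) (b := .fld)
      (fun K _ x => (x.1.2.2 : K) * (x.1.2.1 : ℕ → K) x.2)
      (fun _ _ _ => 0) :=
    (RlzQ.fmul (RlzQ.snd (RlzQ.snd (RlzQ.fst RlzQ.input)))
      (RlzQ.get (RlzQ.fst (RlzQ.snd (RlzQ.fst RlzQ.input))) (RlzQ.snd RlzQ.input))).mono 1
      (fun K _ x => by simp)
  have := RlzQ.tab (a := .prod .nat (.prod .arr .fld)) (N := fun _ _ x => x.1)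
    (f := fun K _ x i => (x.2.2 : K) * (x.2.1 : ℕ → K) i)
    (RlzQ.fst RlzQ.input) hf
  exact this.mono 1 (fun K _ x => by simp)

private theorem xdSum_rlz : RlzQ (a := .prod .nat (.prod .arr .arr)) (b := .arr)
    (fun K _ x => xdSum (K := K) x.1 x.2.1 x.2.2) (fun _ _ x => x.1) := by
  unfold xdSum
  have hf : RlzQ (a := .prod (.prod .nat (.prod .arr .arr)) .nat) (b := .fld)
      (fun K _ x => (x.1.2.1 : ℕ → K) x.2 + (x.1.2.2 : ℕ → K) x.2)
      (fun _ _ _ => 0) :=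
    (RlzQ.fadd
      (RlzQ.get (RlzQ.fst (RlzQ.snd (RlzQ.fst RlzQ.input))) (RlzQ.snd RlzQ.input))
      (RlzQ.get (RlzQ.snd (RlzQ.snd (RlzQ.fst RlzQ.input))) (RlzQ.snd RlzQ.input))).mono 1
      (fun K _ x => by simp)
  have := RlzQ.tab (a := .prod .nat (.prod .arr .arr)) (N := fun _ _ x => x.1)
    (f := fun K _ x i => (x.2.1 : ℕ → K) i + (x.2.2 : ℕ → K) i)
    (RlzQ.fst RlzQ.input) hf
  exact this.mono 1 (fun K _ x => by simp)

/-! ## characteristic two: the trace -/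

private noncomputable def xdTr {K : Type} [Field K] (n r : ℕ) (Q A : ℕ → K) :
    (ℕ → K) × (ℕ → K) :=
  iterF r (tabF n (fun _ => (0 : K)), A) (fun s _ => (xdSum n s.1 s.2, mulmod n Q s.2 s.2))

private theorem xdTr_spec {L : Type} [Field L] {k : Type} [Field k] [Algebra L k] {n : ℕ}
    {Q : ℕ → L} {Z : Finset k} (h : IsMod n Q Z) {v : k} (hv : v ∈ Z) (A : ℕ → L) (r : ℕ) :
    evz n v (xdTr n r Q A).1 = ∑ i ∈ range r, evz n v A ^ 2 ^ i ∧
      evz n v (xdTr n r Q A).2 = evz n v A ^ 2 ^ r := by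
  induction r with
  | zero =>
    refine ⟨?_, ?_⟩
    · rw [sum_range_zero]
      exact (xd_evz_tab n v _).trans (xd_evz_zero n v)
    · rw [pow_zero, pow_one]
      rfl
  | succ r ih =>
    obtain ⟨h1, h2⟩ := ih
    have e : xdTr n (r + 1) Q A = (xdSum n (xdTr n r Q A).1 (xdTr n r Q A).2,
      mulmod n Q (xdTr n r Q A).2 (xdTr n r Q A).2) := rfl
    rw [e]
    refine ⟨?_, ?_⟩
    · unfold xdSum
      rw [xd_evz_tab, xd_evz_add, h1, h2, sum_range_succ]
    · rw [xd_evz_mulmod h hv, h2, ← pow_add, pow_succ]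
      congr 1
      ring

/-- input `(n, (r, (Q, A)))` -/
private theorem xdTr_rlz : RlzQ (a := .prod .nat (.prod .nat (.prod .arr .arr))) (b := .arr)
    (fun K _ x => (xdTr (K := K) x.1 x.2.1 x.2.2.1 x.2.2.2).1)
    (fun _ _ x => (x.1 + 1) * (x.2.1 + 1)) := by
  have hbody : RlzQ (a := .prod (.prod (.prod .nat (.prod .nat (.prod .arr .arr)))
      (.prod .arr .arr)) .nat) (b := .prod .arr .arr)
      (fun K _ x => (xdSum (K := K) x.1.1.1 x.1.2.1 x.1.2.2,
        mulmod (K := K) x.1.1.1 x.1.1.2.2.1 x.1.2.2 x.1.2.2))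
      (fun _ _ x => x.1.1.1) := by
    have e0 : RlzQ (a := .prod (.prod (.prod .nat (.prod .nat (.prod .arr .arr)))
      (.prod .arr .arr)) .nat) (fun _ _ x => x.1.1) (fun _ _ _ => 0) :=
      RlzQ.fst (RlzQ.fst RlzQ.input)
    have es : RlzQ (a := .prod (.prod (.prod .nat (.prod .nat (.prod .arr .arr)))
      (.prod .arr .arr)) .nat) (b := .prod .arr .arr) (fun _ _ x => x.1.2) (fun _ _ _ => 0) :=
      RlzQ.snd (RlzQ.fst RlzQ.input)
    have en := RlzQ.fst e0
    have eg := RlzQ.fst (RlzQ.snd (RlzQ.snd e0))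
    refine ((RlzQ.pair (RlzQ.comp xdSum_rlz (RlzQ.pair en (RlzQ.pair (RlzQ.fst es)
      (RlzQ.snd es)))) (RlzQ.mulmod en eg (RlzQ.snd es) (RlzQ.snd es))).congr
      (fun K _ x => rfl)).mono 2 (fun K _ x => ?_)
    dsimp only
    omega
  have e0 : RlzQ (a := .prod .nat (.prod .nat (.prod .arr .arr)))
      (fun _ _ x => x) (fun _ _ _ => 0) := RlzQ.input
  have hinit : RlzQ (a := .prod .nat (.prod .nat (.prod .arr .arr)))
      (b := .prod .arr .arr)
      (fun K _ x => (tabF (x.1 : ℕ) (fun _ => (0 : K)), (x.2.2.2 : ℕ → K)))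
      (fun _ _ x => 3 * x.1) := by
    have h1 := RlzQ.tab (a := .prod .nat (.prod .nat (.prod .arr .arr)))
      (f := fun K _ _ _ => (0 : K)) (RlzQ.fst e0) RlzQ.zero
    refine RlzQ.mono (RlzQ.pair h1 (RlzQ.snd (RlzQ.snd (RlzQ.snd e0)))) 1 (fun K _ x => ?_)
    simp only [add_zero, Finset.sum_const_zero]
    omega
  have hloop := RlzQ.iter (a := .prod .nat (.prod .nat (.prod .arr .arr)))
    (b := .prod .arr .arr)
    (f := fun K _ x s _ => (xdSum (K := K) x.1 s.1 s.2,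
      mulmod (K := K) x.1 x.2.2.1 s.2 s.2))
    (RlzQ.fst (RlzQ.snd e0)) hinit hbody
  refine ((RlzQ.fst hloop).congr (fun K _ x => rfl)).mono 4 (fun K _ x => ?_)
  simp only [Finset.sum_const, Finset.card_range, smul_eq_mul]
  have key : ∀ n l : ℕ, 0 + 3 * n + l + l * n ≤ 4 * ((n + 1) * (l + 1) + 1) := by
    intro n l
    nlinarith [Nat.zero_le (n * l)]
  exact key _ _

/-! ## the theorem -/

private noncomputable def xdF (K : Type) [Field K] (N p M l : ℕ) (Q H : ℕ → K) (c : K) : ℕ → K :=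
  xdSub N (if p = 2 then (xdTr N (min (Nat.log 2 M) l) Q (xdMul N H c)).1 else
    powmod N ((M - 1) / 2 % 2 ^ l) Q (xdAdd N H c))

private theorem xdF_spec {L : Type} [Field L] {k : Type} [Field k] [Algebra L k] {N p M l : ℕ}
    {Q H : ℕ → L} {c : L} {Z : Finset k} (hM : M < 2 ^ l) (h : IsMod N Q Z) {v : k}
    (hv : v ∈ Z) :
    evz N v (xdF L N p M l Q H c) = bitv p M (evz N v H) (algebraMap L k c) - 1 := by
  have hN := xd_pos h hv
  unfold xdF xdSub bitv
  rw [xd_evz_tab, xd_evz_sub, xd_evz_const hN, map_one]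
  congr 1
  by_cases hp : p = 2
  · rw [if_pos hp, if_pos hp, (xdTr_spec h hv _ _).1]
    have h1 : min (Nat.log 2 M) l = Nat.log 2 M := by
      rcases Nat.eq_zero_or_pos M with rfl | hM0
      · simp
      · exact min_eq_left (Nat.log_lt_of_lt_pow hM0.ne' hM).le
    rw [h1]
    unfold xdMul
    rw [xd_evz_tab, xd_evz_smul]
  · rw [if_neg hp, if_neg hp, xd_evz_powmod h hv]
    have h1 : (M - 1) / 2 % 2 ^ l = (M - 1) / 2 := by
      apply Nat.mod_eq_of_lt
      have : (M - 1) / 2 ≤ M := (Nat.div_le_self _ _).trans (Nat.sub_le _ _)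
      omega
    rw [h1]
    unfold xdAdd
    rw [xd_evz_tab, xd_evz_add, xd_evz_const hN]

private theorem xdF_rlz : RlzQ
    (a := .prod .nat (.prod .nat (.prod .nat (.prod .nat (.prod .arr (.prod .arr .fld))))))
    (b := .arr)
    (fun K _ x => xdF K x.1 x.2.1 x.2.2.1 x.2.2.2.1 x.2.2.2.2.1 x.2.2.2.2.2.1 x.2.2.2.2.2.2)
    (fun _ _ x => (x.1 + 1) * (x.2.2.2.1 + 1)) := by
  have e0 : RlzQ
      (a := .prod .nat (.prod .nat (.prod .nat (.prod .nat (.prod .arr (.prod .arr .fld))))))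
      (fun _ _ x => x) (fun _ _ _ => 0) := RlzQ.input
  have eN := RlzQ.fst e0
  have ep := RlzQ.fst (RlzQ.snd e0)
  have eM := RlzQ.fst (RlzQ.snd (RlzQ.snd e0))
  have el := RlzQ.fst (RlzQ.snd (RlzQ.snd (RlzQ.snd e0)))
  have eQ := RlzQ.fst (RlzQ.snd (RlzQ.snd (RlzQ.snd (RlzQ.snd e0))))
  have eH := RlzQ.fst (RlzQ.snd (RlzQ.snd (RlzQ.snd (RlzQ.snd (RlzQ.snd e0)))))
  have ec := RlzQ.snd (RlzQ.snd (RlzQ.snd (RlzQ.snd (RlzQ.snd (RlzQ.snd e0)))))
  have hr := RlzQ.nlogL (RlzQ.lit (a := .prod .nat (.prod .nat (.prod .nat (.prod .nat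
    (.prod .arr (.prod .arr .fld)))))) 2) eM el
  have h1 := RlzQ.comp xdTr_rlz (RlzQ.pair eN (RlzQ.pair hr (RlzQ.pair eQ
    (RlzQ.comp xdMul_rlz (RlzQ.pair eN (RlzQ.pair eH ec))))))
  have h2 := RlzQ.powmodL eN el (RlzQ.div (RlzQ.sub eM (RlzQ.lit 1)) (RlzQ.lit 2)) eQ
    (RlzQ.comp xdAdd_rlz (RlzQ.pair eN (RlzQ.pair eH ec)))
  have h3 := RlzQ.iteEq ep (RlzQ.lit 2) h1 h2
  have h4 := RlzQ.comp xdSub_rlz (RlzQ.pair eN h3)
  refine (h4.congr (fun K _ x => rfl)).mono 8 (fun K _ x => ?_)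
  dsimp only
  have key : ∀ n l r : ℕ, r ≤ l → (n + 1) * (r + 1) ≤ (n + 1) * (l + 1) := by
    intro n l r h
    exact Nat.mul_le_mul_left _ (by omega)
  have k1 := key x.1 x.2.2.2.1 (min (Nat.log 2 x.2.2.1) x.2.2.2.1) (min_le_right _ _)
  have k2 : ∀ n l : ℕ, n ≤ (n + 1) * (l + 1) ∧ l ≤ (n + 1) * (l + 1) := by
    intro n l
    constructor <;> nlinarith [Nat.zero_le (n * l)]
  have k3 := k2 x.1 x.2.2.2.1
  split_ifs <;> omega

theorem bit_rlz :
    ∃ F : Fam (.prod .nat (.prod .nat (.prod .nat (.prod .nat (.prod .arr (.prod .arr .fld))))))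
      .arr,
    RlzQ F (fun _ _ x => (x.1 + 1) * (x.2.2.2.1 + 1)) ∧
    ∀ (L : Type) [Field L] (k : Type) [Field k] [Algebra L k] (N p M l : ℕ) (Q H : ℕ → L) (c : L)
      (Z : Finset k), M < 2 ^ l → IsMod N Q Z → ∀ v ∈ Z,
      evz N v (F L (N, (p, (M, (l, (Q, (H, c))))))) =
        bitv p M (evz N v H) (algebraMap L k c) - 1 :=
  ⟨_, xdF_rlz, fun L _ k _ _ N p M l Q H c Z hM h v hv => xdF_spec hM h hv⟩

end Pool.Agent.AbsIrr
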