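import Mathlib
import Pool.Agent.Lib.MP_2adc98_lc.FA
import Pool.Agent.Lib.MP_2adc98_lc.FN
import Pool.Agent.Lib.MP_2adc98_lc.SY
import Pool.Agent.Lib.MP_2adc98_lc.XDefs

/-!
# MP_2adc98_lc, stage 3, piece XE: the greatest common divisor

The algorithm: `2 (n + 1)` elementary steps on a pair of arrays of length `n + 1`; in every step the
polynomial of larger degree is reduced by the other one, until one of them is zero.
-/

set_option autoImplicit false

namespace Pool.Agent.AbsIrr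

open Finset Polynomial

section
variable {K : Type} [Field K]

private theorem xe_tab_lt (n : ℕ) (f : ℕ → K) {i : ℕ} (hi : i < n) : tabF n f i = f i := by
  unfold tabF
  rw [if_pos hi]

private theorem xe_tab_ge (n : ℕ) (f : ℕ → K) {i : ℕ} (hi : ¬ i < n) : tabF n f i = 0 := by
  unfold tabF
  rw [if_neg hi]

private theorem xe_adeg_lt {N : ℕ} (hN : 1 ≤ N) (u : ℕ → K) : adeg N u < N := by
  classical
  unfold adeg
  rw [Finset.sup_lt_iff (by rw [bot_eq_zero]; omega)]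
  intro i hi
  exact mem_range.1 (mem_filter.1 hi).1

private theorem xe_above {N : ℕ} (u : ℕ → K) {i : ℕ} (hi : i < N) (h : adeg N u < i) :
    u i = 0 := by
  classical
  by_contra hne
  have h1 : i ∈ (range N).filter fun i => u i ≠ 0 := mem_filter.2 ⟨mem_range.2 hi, hne⟩
  have h2 : i ≤ adeg N u := by
    unfold adeg
    exact Finset.le_sup (f := id) h1
  omega

private theorem xe_zero {N : ℕ} (u : ℕ → K) (h : u (adeg N u) = 0) : ∀ i < N, u i = 0 := by
  classical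
  intro i hi
  by_contra hne
  have h1 : ((range N).filter fun i => u i ≠ 0).Nonempty :=
    ⟨i, mem_filter.2 ⟨mem_range.2 hi, hne⟩⟩
  obtain ⟨j, hj, hj2⟩ := Finset.exists_mem_eq_sup _ h1 id
  have h2 : adeg N u = j := hj2
  rw [h2] at h
  exact (mem_filter.1 hj).2 h

private theorem xe_apol_zero {N : ℕ} {u : ℕ → K} (h : ∀ i < N, u i = 0) : apol N u = 0 := by
  ext i
  rw [SY.apol_coeff, coeff_zero]
  split_ifs with hi
  · exact h i hi
  · rfl

/-- one reduction -/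
private def xeRed (N da db : ℕ) (a b : ℕ → K) : ℕ → K :=
  tabF N (fun i => if i < da - db then a i else a i - a da / b db * b (i - (da - db)))

private theorem xeRed_apol {N da db : ℕ} (hd : db ≤ da) (hN : da < N) (a b : ℕ → K)
    (hb : ∀ i < N, db < i → b i = 0) :
    apol N (xeRed N da db a b) = apol N a - C (a da / b db) * (X ^ (da - db) * apol N b) := by
  ext i
  rw [SY.apol_coeff, coeff_sub, SY.apol_coeff, coeff_C_mul, coeff_X_pow_mul', SY.apol_coeff]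
  unfold xeRed
  by_cases hi : i < N
  · rw [if_pos hi, if_pos hi, xe_tab_lt _ _ hi]
    by_cases h1 : i < da - db
    · rw [if_pos h1, if_neg (by omega), mul_zero, sub_zero]
    · rw [if_neg h1, if_pos (by omega), if_pos (by omega)]
  · rw [if_neg hi, if_neg hi]
    by_cases h1 : da - db ≤ i
    · rw [if_pos h1]
      by_cases h2 : i - (da - db) < N
      · rw [if_pos h2, hb _ h2 (by omega), mul_zero, sub_zero]
      · rw [if_neg h2, mul_zero, sub_zero]
    · rw [if_neg h1, mul_zero, sub_zero]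

private theorem xeRed_top {N da db : ℕ} (hd : db ≤ da) (a b : ℕ → K)
    (ha : ∀ i < N, da < i → a i = 0) (hb : ∀ i < N, db < i → b i = 0) (hne : b db ≠ 0) :
    ∀ i < N, da ≤ i → xeRed N da db a b i = 0 := by
  intro i hi h
  unfold xeRed
  rw [xe_tab_lt _ _ hi, if_neg (by omega)]
  rcases Nat.eq_or_lt_of_le h with h1 | h1
  · subst h1
    rw [Nat.sub_sub_self hd, div_mul_cancel₀ _ hne, sub_self]
  · rw [ha i hi h1, hb (i - (da - db)) (by omega) (by omega), mul_zero, sub_zero]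

open Classical in
/-- one elementary step -/
private noncomputable def xeStep (N : ℕ) (s : (ℕ → K) × (ℕ → K)) : (ℕ → K) × (ℕ → K) :=
  if s.1 (adeg N s.1) = 0 then s else if s.2 (adeg N s.2) = 0 then s else
    if adeg N s.1 < adeg N s.2 then (s.1, xeRed N (adeg N s.2) (adeg N s.1) s.2 s.1)
    else (xeRed N (adeg N s.1) (adeg N s.2) s.1 s.2, s.2)

private def xeInv (N : ℕ) (A B : K[X]) (k : ℕ) (s : (ℕ → K) × (ℕ → K)) : Prop :=
  (∀ P : K[X], (P ∣ apol N s.1 ∧ P ∣ apol N s.2) ↔ (P ∣ A ∧ P ∣ B)) ∧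
    ((∀ i < N, s.1 i = 0) ∨ (∀ i < N, s.2 i = 0) ∨ adeg N s.1 + adeg N s.2 + 2 + k ≤ 2 * N)

private theorem xe_dvd {P A B D : K[X]} : (P ∣ A - D * B ∧ P ∣ B) ↔ (P ∣ A ∧ P ∣ B) := by
  constructor
  · rintro ⟨h1, h2⟩
    refine ⟨?_, h2⟩
    have h3 := dvd_add h1 (h2.mul_left D)
    rwa [sub_add_cancel] at h3
  · rintro ⟨h1, h2⟩
    exact ⟨dvd_sub h1 (h2.mul_left D), h2⟩

private theorem xe_new_deg {N da : ℕ} (hN : 1 ≤ N) {u : ℕ → K}
    (h : ∀ i < N, da ≤ i → u i = 0) : (∀ i < N, u i = 0) ∨ adeg N u + 1 ≤ da := by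
  by_cases h0 : u (adeg N u) = 0
  · exact Or.inl (xe_zero u h0)
  · right
    by_contra hcon
    exact h0 (h _ (xe_adeg_lt hN u) (by omega))

private theorem xeStep_inv {N : ℕ} (hN : 1 ≤ N) {A B : K[X]} {k : ℕ} {s : (ℕ → K) × (ℕ → K)}
    (h : xeInv N A B k s) : xeInv N A B (k + 1) (xeStep N s) := by
  obtain ⟨h1, h2⟩ := h
  unfold xeStep
  by_cases hu : s.1 (adeg N s.1) = 0
  · rw [if_pos hu]
    exact ⟨h1, Or.inl (xe_zero _ hu)⟩
  rw [if_neg hu]
  by_cases hv : s.2 (adeg N s.2) = 0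
  · rw [if_pos hv]
    exact ⟨h1, Or.inr (Or.inl (xe_zero _ hv))⟩
  rw [if_neg hv]
  have hul := xe_adeg_lt hN s.1
  have hvl := xe_adeg_lt hN s.2
  have h2' : adeg N s.1 + adeg N s.2 + 2 + k ≤ 2 * N := by
    rcases h2 with h2 | h2 | h2
    · exact absurd (h2 _ hul) hu
    · exact absurd (h2 _ hvl) hv
    · exact h2
  by_cases hc : adeg N s.1 < adeg N s.2
  · rw [if_pos hc]
    constructor
    · intro P
      rw [← h1 P]
      dsimp only
      rw [xeRed_apol hc.le hvl _ _ (fun i hi h => xe_above _ hi h), ← mul_assoc, and_comm, xe_dvd,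
        and_comm]
    · rcases xe_new_deg hN (xeRed_top hc.le s.2 s.1 (fun i hi h => xe_above _ hi h)
        (fun i hi h => xe_above _ hi h) hu) with h3 | h3
      · exact Or.inr (Or.inl h3)
      · refine Or.inr (Or.inr ?_)
        dsimp only
        omega
  · rw [if_neg hc]
    constructor
    · intro P
      rw [← h1 P]
      dsimp only
      rw [xeRed_apol (not_lt.1 hc) hul _ _ (fun i hi h => xe_above _ hi h), ← mul_assoc, xe_dvd]
    · rcases xe_new_deg hN (xeRed_top (not_lt.1 hc) s.1 s.2 (fun i hi h => xe_above _ hi h)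
        (fun i hi h => xe_above _ hi h) hv) with h3 | h3
      · exact Or.inl h3
      · refine Or.inr (Or.inr ?_)
        dsimp only
        omega

private noncomputable def xeLoop (N : ℕ) (s : (ℕ → K) × (ℕ → K)) : (ℕ → K) × (ℕ → K) :=
  iterF (S := (ℕ → K) × (ℕ → K)) (2 * N) s (fun s _ => xeStep N s)

/-- the result of the loop: the sum of the two arrays is the greatest common divisor -/
private theorem xeLoop_spec {N : ℕ} (hN : 1 ≤ N) (s : (ℕ → K) × (ℕ → K)) (P : K[X]) :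
    P ∣ apol N (tabF N (fun i => (xeLoop N s).1 i + (xeLoop N s).2 i)) ↔
      P ∣ apol N s.1 ∧ P ∣ apol N s.2 := by
  have key : ∀ k, xeInv N (apol N s.1) (apol N s.2) k
      (iterF (S := (ℕ → K) × (ℕ → K)) k s (fun s _ => xeStep N s)) := by
    intro k
    induction k with
    | zero =>
      refine ⟨fun P => Iff.rfl, Or.inr (Or.inr ?_)⟩
      have h1 := xe_adeg_lt hN s.1
      have h2 := xe_adeg_lt hN s.2
      simp only [iterF_zero]
      omega
    | succ k ih =>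
      rw [iterF_succ]
      exact xeStep_inv hN ih
  obtain ⟨h1, h2⟩ := key (2 * N)
  rw [← h1 P]
  change _ ↔ P ∣ apol N (xeLoop N s).1 ∧ P ∣ apol N (xeLoop N s).2
  have h3 : apol N (tabF N (fun i => (xeLoop N s).1 i + (xeLoop N s).2 i)) =
      apol N (xeLoop N s).1 + apol N (xeLoop N s).2 := by
    ext i
    rw [coeff_add, SY.apol_coeff, SY.apol_coeff, SY.apol_coeff]
    by_cases hi : i < N
    · rw [if_pos hi, if_pos hi, if_pos hi, xe_tab_lt _ _ hi]
    · rw [if_neg hi, if_neg hi, if_neg hi, add_zero]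
  rw [h3]
  rcases h2 with h2 | h2 | h2
  · have h4 : apol N (xeLoop N s).1 = 0 := xe_apol_zero h2
    rw [h4, zero_add]
    exact ⟨fun h => ⟨dvd_zero _, h⟩, fun h => h.2⟩
  · have h4 : apol N (xeLoop N s).2 = 0 := xe_apol_zero h2
    rw [h4, add_zero]
    exact ⟨fun h => ⟨h, dvd_zero _⟩, fun h => h.1⟩
  · omega

private theorem xe_apol_gar (n : ℕ) (g : ℕ → K) : apol (n + 1) (FN.gar n g) = gmon n g := by
  ext m
  rw [SY.apol_coeff, FN.gar_eq]
  split_ifs with h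
  · rfl
  · rw [FN.gmon_coeff, if_neg (by omega), if_neg (by omega)]

private theorem xe_gmon_degree (n : ℕ) (g : ℕ → K) : (gmon n g).degree = (n : WithBot ℕ) := by
  rw [degree_eq_natDegree (FN.gmon_monic n g).ne_zero, FN.gmon_natDegree]

private theorem xe_rem_coeff (n : ℕ) (g : ℕ → K) (P : K[X]) {i : ℕ} (hi : n ≤ i) :
    (P %ₘ gmon n g).coeff i = 0 := by
  apply coeff_eq_zero_of_degree_lt
  have h1 := degree_modByMonic_lt P (FN.gmon_monic n g)
  rw [xe_gmon_degree] at h1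
  exact h1.trans_le (by exact_mod_cast hi)

private theorem xe_apol_rem (n w : ℕ) (g W : ℕ → K) :
    apol (n + 1) (tabF n (modB 1 w n g W)) = apol w W %ₘ gmon n g := by
  have hblk : blk w W 0 = apol w W := by
    unfold blk apol
    simp
  ext i
  rw [SY.apol_coeff]
  by_cases hi : i < n
  · rw [if_pos (by omega), xe_tab_lt _ _ hi]
    unfold modB
    by_cases hw : i < w
    · rw [xe_tab_lt _ _ (by omega), Nat.div_eq_of_lt hw, Nat.mod_eq_of_lt hw, hblk]
    · rw [xe_tab_ge _ _ (by omega)]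
      have h1 : apol w W %ₘ gmon n g = apol w W := by
        rw [modByMonic_eq_self_iff (FN.gmon_monic n g), xe_gmon_degree,
          degree_lt_iff_coeff_zero]
        intro m hm
        rw [SY.apol_coeff, if_neg (by omega)]
      rw [h1, SY.apol_coeff, if_neg hw]
  · rw [xe_rem_coeff n g _ (not_lt.1 hi)]
    split_ifs
    · exact xe_tab_ge _ _ hi
    · rfl

private theorem xe_dvd_rem (n w : ℕ) (g W : ℕ → K) (P : K[X]) :
    (P ∣ gmon n g ∧ P ∣ apol w W %ₘ gmon n g) ↔ (P ∣ gmon n g ∧ P ∣ apol w W) := by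
  have h := modByMonic_add_div (apol w W) (gmon n g)
  constructor
  · rintro ⟨h1, h2⟩
    refine ⟨h1, ?_⟩
    rw [← h]
    exact dvd_add h2 (h1.mul_right _)
  · rintro ⟨h1, h2⟩
    refine ⟨h1, ?_⟩
    rw [eq_sub_of_add_eq h]
    exact dvd_sub h2 (h1.mul_right _)

/-- normalisation -/
private theorem xe_norm {N : ℕ} (hN : 1 ≤ N) (h : ℕ → K) (hne : apol N h ≠ 0) :
    h (adeg N h) ≠ 0 ∧ gmon (adeg N h) (tabF (adeg N h) (fun i => h i / h (adeg N h))) =
      C (h (adeg N h))⁻¹ * apol N h := by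
  have h0 : h (adeg N h) ≠ 0 := fun h1 => hne (xe_apol_zero (xe_zero h h1))
  refine ⟨h0, ?_⟩
  have hl := xe_adeg_lt hN h
  ext m
  rw [FN.gmon_coeff, coeff_C_mul, SY.apol_coeff]
  by_cases h1 : m < adeg N h
  · rw [if_pos h1, if_pos (by omega), xe_tab_lt _ _ h1, div_eq_inv_mul]
  · rw [if_neg h1]
    by_cases h2 : m = adeg N h
    · rw [if_pos h2, h2, if_pos hl, inv_mul_cancel₀ h0]
    · rw [if_neg h2]
      by_cases h3 : m < N
      · rw [if_pos h3, xe_above h h3 (by omega), mul_zero]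
      · rw [if_neg h3, mul_zero]

private theorem xe_quo {n d : ℕ} (g g₀ : ℕ → K) (hd : gmon d g₀ ∣ gmon n g) :
    d ≤ n ∧ gmon d g₀ * gmon (n - d) (divB 1 (n + 1) d g₀ (FN.gar n g)) = gmon n g := by
  have hm := FN.gmon_monic n g
  have hm0 := FN.gmon_monic d g₀
  have hdn : d ≤ n := by
    have h1 := natDegree_le_of_dvd hd hm.ne_zero
    rwa [FN.gmon_natDegree, FN.gmon_natDegree] at h1
  refine ⟨hdn, ?_⟩
  have hblk : blk (n + 1) (FN.gar n g) 0 = gmon n g := by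
    rw [← xe_apol_gar]
    unfold blk apol
    simp
  have h0 : gmon d g₀ * (gmon n g /ₘ gmon d g₀) = gmon n g := by
    have h1 := modByMonic_add_div (gmon n g) (gmon d g₀)
    rwa [(modByMonic_eq_zero_iff_dvd hm0).2 hd, zero_add] at h1
  have hq : (gmon n g /ₘ gmon d g₀).Monic := by
    refine hm0.of_mul_monic_left ?_
    rw [h0]
    exact hm
  have hqd : (gmon n g /ₘ gmon d g₀).natDegree = n - d := by
    rw [natDegree_divByMonic _ hm0, FN.gmon_natDegree, FN.gmon_natDegree]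
  have e : gmon (n - d) (divB 1 (n + 1) d g₀ (FN.gar n g)) = gmon n g /ₘ gmon d g₀ := by
    ext m
    rw [FN.gmon_coeff]
    by_cases h1 : m < n - d
    · rw [if_pos h1]
      unfold divB
      rw [xe_tab_lt _ _ (by omega), Nat.div_eq_of_lt (by omega), Nat.mod_eq_of_lt (by omega), hblk]
    · rw [if_neg h1]
      by_cases h2 : m = n - d
      · rw [if_pos h2, h2, ← hqd]
        exact hq.coeff_natDegree.symm
      · rw [if_neg h2, coeff_eq_zero_of_natDegree_lt (by omega)]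
  rw [e, h0]

end

/-! ## the programs -/

private theorem xeTab_rlz : RlzQ (a := .prod .nat .arr) (b := .arr)
    (fun K _ x => tabF (K := K) x.1 x.2) (fun _ _ x => x.1) := by
  have hf : RlzQ (a := .prod (.prod .nat .arr) .nat) (b := .fld)
      (fun K _ x => (x.1.2 : ℕ → K) x.2) (fun _ _ _ => 0) :=
    (RlzQ.get (RlzQ.snd (RlzQ.fst RlzQ.input)) (RlzQ.snd RlzQ.input)).mono 1
      (fun K _ x => by simp)
  have := RlzQ.tab (a := .prod .nat .arr) (N := fun _ _ x => x.1)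
    (f := fun _K _ x i => (x.2 : ℕ → _K) i) (RlzQ.fst RlzQ.input) hf
  exact this.mono 1 (fun K _ x => by simp)

private theorem xeRed_rlz : RlzQ (a := .prod .nat (.prod .nat (.prod .nat (.prod .arr .arr))))
    (b := .arr) (fun K _ x => xeRed (K := K) x.1 x.2.1 x.2.2.1 x.2.2.2.1 x.2.2.2.2)
    (fun _ _ x => x.1) := by
  have i0 : RlzQ (a := .prod (.prod .nat (.prod .nat (.prod .nat (.prod .arr .arr)))) .nat)
      (b := .nat) (fun _ _ x => x.2) (fun _ _ _ => 0) := RlzQ.snd RlzQ.input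
  have i1 : RlzQ (a := .prod (.prod .nat (.prod .nat (.prod .nat (.prod .arr .arr)))) .nat)
      (b := .nat) (fun _ _ x => x.1.2.1) (fun _ _ _ => 0) :=
    RlzQ.fst (RlzQ.snd (RlzQ.fst RlzQ.input))
  have i2 : RlzQ (a := .prod (.prod .nat (.prod .nat (.prod .nat (.prod .arr .arr)))) .nat)
      (b := .nat) (fun _ _ x => x.1.2.2.1) (fun _ _ _ => 0) :=
    RlzQ.fst (RlzQ.snd (RlzQ.snd (RlzQ.fst RlzQ.input)))
  have i3 : RlzQ (a := .prod (.prod .nat (.prod .nat (.prod .nat (.prod .arr .arr)))) .nat)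
      (b := .arr) (fun _ _ x => x.1.2.2.2.1) (fun _ _ _ => 0) :=
    RlzQ.fst (RlzQ.snd (RlzQ.snd (RlzQ.snd (RlzQ.fst RlzQ.input))))
  have i4 : RlzQ (a := .prod (.prod .nat (.prod .nat (.prod .nat (.prod .arr .arr)))) .nat)
      (b := .arr) (fun _ _ x => x.1.2.2.2.2) (fun _ _ _ => 0) :=
    RlzQ.snd (RlzQ.snd (RlzQ.snd (RlzQ.snd (RlzQ.fst RlzQ.input))))
  have hf : RlzQ (a := .prod (.prod .nat (.prod .nat (.prod .nat (.prod .arr .arr)))) .nat)
      (b := .fld) (fun K _ x => if (x.2 : ℕ) < x.1.2.1 - x.1.2.2.1 then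
        (x.1.2.2.2.1 : ℕ → K) x.2 else (x.1.2.2.2.1 : ℕ → K) x.2 -
          (x.1.2.2.2.1 : ℕ → K) x.1.2.1 / (x.1.2.2.2.2 : ℕ → K) x.1.2.2.1 *
            (x.1.2.2.2.2 : ℕ → K) (x.2 - (x.1.2.1 - x.1.2.2.1))) (fun _ _ _ => 0) :=
    (RlzQ.iteLt i0 (RlzQ.sub i1 i2) (RlzQ.get i3 i0) (RlzQ.fsub (RlzQ.get i3 i0)
      (RlzQ.fmul (RlzQ.fdiv (RlzQ.get i3 i1) (RlzQ.get i4 i2))
        (RlzQ.get i4 (RlzQ.sub i0 (RlzQ.sub i1 i2)))))).mono 1 (fun K _ x => by simp)
  have := RlzQ.tab (a := .prod .nat (.prod .nat (.prod .nat (.prod .arr .arr))))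
    (N := fun _ _ x => x.1)
    (f := fun _K _ x i => if i < x.2.1 - x.2.2.1 then (x.2.2.2.1 : ℕ → _K) i else
        (x.2.2.2.1 : ℕ → _K) i - (x.2.2.2.1 : ℕ → _K) x.2.1 / (x.2.2.2.2 : ℕ → _K) x.2.2.1 *
            (x.2.2.2.2 : ℕ → _K) (i - (x.2.1 - x.2.2.1))) (RlzQ.fst RlzQ.input) hf
  exact this.mono 1 (fun K _ x => by simp)

private theorem xeStep_rlz : RlzQ (a := .prod .nat (.prod .arr .arr)) (b := .prod .arr .arr)
    (fun K _ x => xeStep (K := K) x.1 x.2) (fun _ _ x => x.1) := by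
  classical
  have iN : RlzQ (a := .prod .nat (.prod .arr .arr)) (b := .nat)
      (fun _ _ x => x.1) (fun _ _ _ => 0) := RlzQ.fst RlzQ.input
  have iu : RlzQ (a := .prod .nat (.prod .arr .arr)) (b := .arr)
      (fun _ _ x => x.2.1) (fun _ _ _ => 0) := RlzQ.fst (RlzQ.snd RlzQ.input)
  have iv : RlzQ (a := .prod .nat (.prod .arr .arr)) (b := .arr)
      (fun _ _ x => x.2.2) (fun _ _ _ => 0) := RlzQ.snd (RlzQ.snd RlzQ.input)
  have du := RlzQ.adeg iN iu
  have dv := RlzQ.adeg iN iv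
  have r1 := RlzQ.comp xeRed_rlz (RlzQ.pair iN (RlzQ.pair dv (RlzQ.pair du (RlzQ.pair iv iu))))
  have r2 := RlzQ.comp xeRed_rlz (RlzQ.pair iN (RlzQ.pair du (RlzQ.pair dv (RlzQ.pair iu iv))))
  have h := RlzQ.iteZero (RlzQ.get iu du) (RlzQ.snd RlzQ.input)
    (RlzQ.iteZero (RlzQ.get iv dv) (RlzQ.snd RlzQ.input)
      (RlzQ.iteLt du dv (RlzQ.pair iu r1) (RlzQ.pair r2 iv)))
  refine (h.congr (fun K _ x => ?_)).mono 10 (fun K _ x => ?_)
  · unfold xeStep
    dsimp only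
  · dsimp only
    split_ifs <;> omega

private theorem xeLoop_rlz : RlzQ (a := .prod .nat (.prod .arr .arr)) (b := .prod .arr .arr)
    (fun K _ x => xeLoop (K := K) x.1 x.2) (fun _ _ x => x.1 ^ 2) := by
  have hbody : RlzQ (a := .prod (.prod (.prod .nat (.prod .arr .arr)) (.prod .arr .arr)) .nat)
      (b := .prod .arr .arr) (fun K _ x => xeStep (K := K) x.1.1.1 x.1.2)
      (fun _ _ x => x.1.1.1) :=
    (RlzQ.comp xeStep_rlz (RlzQ.pair (RlzQ.fst (RlzQ.fst (RlzQ.fst RlzQ.input)))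
      (RlzQ.snd (RlzQ.fst RlzQ.input)))).mono 1 (fun K _ x => by simp)
  have h := RlzQ.iter (a := .prod .nat (.prod .arr .arr)) (b := .prod .arr .arr)
    (N := fun _ _ x => 2 * x.1) (S := fun _ _ x => x.2)
    (f := fun K _ x s _ => xeStep (K := K) x.1 s)
    (RlzQ.mul (RlzQ.lit 2) (RlzQ.fst RlzQ.input)) (RlzQ.snd RlzQ.input) hbody
  refine h.mono 4 (fun K _ x => ?_)
  have : ∀ m : ℕ, 0 + 0 + 0 + 2 * m + 2 * m * m ≤ 4 * (m ^ 2 + 1) := by
    intro m
    nlinarith [sq_nonneg ((m : ℤ) - 1), Nat.zero_le m, sq_nonneg (m - 1 : ℤ)]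
  simpa using this x.1

private theorem xeGar_rlz : RlzQ (a := .prod .nat .arr) (b := .arr)
    (fun K _ x => FN.gar (K := K) x.1 x.2) (fun _ _ x => x.1) := by
  have hf : RlzQ (a := .prod (.prod .nat .arr) .nat) (b := .fld)
      (fun K _ x => if (x.2 : ℕ) < x.1.1 then (x.1.2 : ℕ → K) x.2 else (1 : K))
      (fun _ _ _ => 0) :=
    (RlzQ.iteLt (RlzQ.snd RlzQ.input) (RlzQ.fst (RlzQ.fst RlzQ.input))
      (RlzQ.get (RlzQ.snd (RlzQ.fst RlzQ.input)) (RlzQ.snd RlzQ.input)) RlzQ.one).mono 1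
      (fun K _ x => by simp)
  have := RlzQ.tab (a := .prod .nat .arr) (N := fun _ _ x => (x.1 : ℕ) + 1)
    (f := fun _K _ x i => if i < x.1 then (x.2 : ℕ → _K) i else (1 : _K))
    (RlzQ.add (RlzQ.fst RlzQ.input) (RlzQ.lit 1)) hf
  exact this.mono 2 (fun K _ x => by simp)

private theorem xeG0_rlz : RlzQ (a := .prod .nat .arr) (b := .arr)
    (fun K _ x => tabF (K := K) x.1 (fun i => (x.2 : ℕ → K) i / (x.2 : ℕ → K) x.1))
    (fun _ _ x => x.1) := by
  have hf : RlzQ (a := .prod (.prod .nat .arr) .nat) (b := .fld)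
      (fun K _ x => (x.1.2 : ℕ → K) x.2 / (x.1.2 : ℕ → K) x.1.1) (fun _ _ _ => 0) :=
    (RlzQ.fdiv (RlzQ.get (RlzQ.snd (RlzQ.fst RlzQ.input)) (RlzQ.snd RlzQ.input))
      (RlzQ.get (RlzQ.snd (RlzQ.fst RlzQ.input)) (RlzQ.fst (RlzQ.fst RlzQ.input)))).mono 1
      (fun K _ x => by simp)
  have := RlzQ.tab (a := .prod .nat .arr) (N := fun _ _ x => x.1)
    (f := fun _K _ x i => (x.2 : ℕ → _K) i / (x.2 : ℕ → _K) x.1) (RlzQ.fst RlzQ.input) hf
  exact this.mono 1 (fun K _ x => by simp)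

/-- `(n, (u, v)) ↦ u + v` -/
private theorem xeH_rlz : RlzQ (a := .prod .nat (.prod .arr .arr)) (b := .arr)
    (fun K _ x => tabF (K := K) (x.1 + 1) (fun i => (x.2.1 : ℕ → K) i + (x.2.2 : ℕ → K) i))
    (fun _ _ x => x.1) := by
  have hf : RlzQ (a := .prod (.prod .nat (.prod .arr .arr)) .nat) (b := .fld)
      (fun K _ x => (x.1.2.1 : ℕ → K) x.2 + (x.1.2.2 : ℕ → K) x.2) (fun _ _ _ => 0) :=
    (RlzQ.fadd (RlzQ.get (RlzQ.fst (RlzQ.snd (RlzQ.fst RlzQ.input))) (RlzQ.snd RlzQ.input))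
      (RlzQ.get (RlzQ.snd (RlzQ.snd (RlzQ.fst RlzQ.input))) (RlzQ.snd RlzQ.input))).mono 1
      (fun K _ x => by simp)
  have := RlzQ.tab (a := .prod .nat (.prod .arr .arr)) (N := fun _ _ x => (x.1 : ℕ) + 1)
    (f := fun _K _ x i => (x.2.1 : ℕ → _K) i + (x.2.2 : ℕ → _K) i)
    (RlzQ.add (RlzQ.fst RlzQ.input) (RlzQ.lit 1)) hf
  exact this.mono 2 (fun K _ x => by simp)

private noncomputable def xeA : Fam (.prod .nat (.prod .nat (.prod .arr .arr))) .arr :=
  fun K _ x => tabF (K := K) (x.1 + 1) (fun i =>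
    (xeLoop (K := K) (x.1 + 1) (FN.gar x.1 x.2.2.1,
      tabF x.1 (modB 1 x.2.1 x.1 x.2.2.1 x.2.2.2))).1 i +
    (xeLoop (K := K) (x.1 + 1) (FN.gar x.1 x.2.2.1,
      tabF x.1 (modB 1 x.2.1 x.1 x.2.2.1 x.2.2.2))).2 i)

private theorem xeA_rlz : RlzQ xeA (fun _ _ x => (x.1 + x.2.1 + 1) * (x.1 + 1)) := by
  have iN : RlzQ (a := .prod .nat (.prod .nat (.prod .arr .arr))) (b := .nat)
      (fun _ _ x => x.1) (fun _ _ _ => 0) := RlzQ.fst RlzQ.input
  have iW : RlzQ (a := .prod .nat (.prod .nat (.prod .arr .arr))) (b := .nat)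
      (fun _ _ x => x.2.1) (fun _ _ _ => 0) := RlzQ.fst (RlzQ.snd RlzQ.input)
  have ig : RlzQ (a := .prod .nat (.prod .nat (.prod .arr .arr))) (b := .arr)
      (fun _ _ x => x.2.2.1) (fun _ _ _ => 0) := RlzQ.fst (RlzQ.snd (RlzQ.snd RlzQ.input))
  have iA : RlzQ (a := .prod .nat (.prod .nat (.prod .arr .arr))) (b := .arr)
      (fun _ _ x => x.2.2.2) (fun _ _ _ => 0) := RlzQ.snd (RlzQ.snd (RlzQ.snd RlzQ.input))
  have h1 := RlzQ.comp xeGar_rlz (RlzQ.pair iN ig)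
  have h2 := RlzQ.comp xeTab_rlz (RlzQ.pair iN (RlzQ.rem iW iN ig iA))
  have h3 := RlzQ.comp xeLoop_rlz (RlzQ.pair (RlzQ.add iN (RlzQ.lit 1)) (RlzQ.pair h1 h2))
  have h4 := RlzQ.comp xeH_rlz (RlzQ.pair iN h3)
  refine (h4.congr (fun K _ x => rfl)).mono 10 (fun K _ x => ?_)
  dsimp only
  generalize (x.1 : ℕ) = n
  generalize (x.2.1 : ℕ) = w
  nlinarith [Nat.zero_le (n * w), Nat.zero_le (n * n)]

private noncomputable def xeB : Fam (.prod .nat (.prod .arr .arr)) (.prod .nat (.prod .arr .arr)) :=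
  fun K _ x => (adeg (K := K) (x.1 + 1) x.2.2,
    (tabF (K := K) (adeg (K := K) (x.1 + 1) x.2.2)
      (fun i => (x.2.2 : ℕ → K) i / (x.2.2 : ℕ → K) (adeg (K := K) (x.1 + 1) x.2.2)),
    divB (K := K) 1 (x.1 + 1) (adeg (K := K) (x.1 + 1) x.2.2)
      (tabF (K := K) (adeg (K := K) (x.1 + 1) x.2.2)
        (fun i => (x.2.2 : ℕ → K) i / (x.2.2 : ℕ → K) (adeg (K := K) (x.1 + 1) x.2.2)))
      (FN.gar (K := K) x.1 x.2.1)))

private theorem xeB_rlz : RlzQ xeB (fun _ _ x => x.1) := by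
  have iN : RlzQ (a := .prod .nat (.prod .arr .arr)) (b := .nat)
      (fun _ _ x => x.1) (fun _ _ _ => 0) := RlzQ.fst RlzQ.input
  have ig : RlzQ (a := .prod .nat (.prod .arr .arr)) (b := .arr)
      (fun _ _ x => x.2.1) (fun _ _ _ => 0) := RlzQ.fst (RlzQ.snd RlzQ.input)
  have ih : RlzQ (a := .prod .nat (.prod .arr .arr)) (b := .arr)
      (fun _ _ x => x.2.2) (fun _ _ _ => 0) := RlzQ.snd (RlzQ.snd RlzQ.input)
  have iN1 := RlzQ.add iN (RlzQ.lit 1)
  have hd := RlzQ.adeg iN1 ih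
  have h0 := RlzQ.comp xeG0_rlz (RlzQ.pair hd ih)
  have hg := RlzQ.comp xeGar_rlz (RlzQ.pair iN ig)
  have hq := RlzQ.quo iN1 hd h0 hg
  refine ((RlzQ.pair hd (RlzQ.pair h0 hq)).congr (fun K _ x => rfl)).mono 20 (fun K _ x => ?_)
  have h1 : adeg (K := K) (x.1 + 1) x.2.2 < x.1 + 1 := xe_adeg_lt (by omega) _
  dsimp only
  omega

/-- the greatest common divisor -/
theorem gcd_rlz :
    ∃ F : Fam (.prod .nat (.prod .nat (.prod .arr .arr))) (.prod .nat (.prod .arr .arr)),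
    RlzQ F (fun _ _ x => (x.1 + x.2.1 + 1) * (x.1 + 1)) ∧
    ∀ (L : Type) [Field L] (n w : ℕ) (g W : ℕ → L),
      (F L (n, (w, (g, W)))).1 ≤ n ∧
      gmon (F L (n, (w, (g, W)))).1 (F L (n, (w, (g, W)))).2.1 *
        gmon (n - (F L (n, (w, (g, W)))).1) (F L (n, (w, (g, W)))).2.2 = gmon n g ∧
      gmon (F L (n, (w, (g, W)))).1 (F L (n, (w, (g, W)))).2.1 ∣ apol w W ∧
      ∀ P : L[X], P ∣ gmon n g → P ∣ apol w W →
        P ∣ gmon (F L (n, (w, (g, W)))).1 (F L (n, (w, (g, W)))).2.1 := by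
  have iN : RlzQ (a := .prod .nat (.prod .nat (.prod .arr .arr))) (b := .nat)
      (fun _ _ x => x.1) (fun _ _ _ => 0) := RlzQ.fst RlzQ.input
  have ig : RlzQ (a := .prod .nat (.prod .nat (.prod .arr .arr))) (b := .arr)
      (fun _ _ x => x.2.2.1) (fun _ _ _ => 0) := RlzQ.fst (RlzQ.snd (RlzQ.snd RlzQ.input))
  refine ⟨fun K _ x => xeB K (x.1, (x.2.2.1, xeA K x)), ?_, ?_⟩
  · refine (RlzQ.comp xeB_rlz (RlzQ.pair iN (RlzQ.pair ig xeA_rlz))).mono 2 (fun K _ x => ?_)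
    dsimp only
    generalize (x.1 : ℕ) = n
    generalize (x.2.1 : ℕ) = w
    nlinarith [Nat.zero_le (n * w), Nat.zero_le (n * n)]
  · intro L _ n w g W
    set h : ℕ → L := xeA L (n, (w, (g, W))) with hh
    have hspec : ∀ P : L[X], P ∣ apol (n + 1) h ↔ P ∣ gmon n g ∧ P ∣ apol w W := by
      intro P
      rw [← xe_dvd_rem, ← xe_apol_rem, ← xe_apol_gar n g]
      exact xeLoop_spec (by omega) (FN.gar n g, tabF n (modB 1 w n g W)) P
    have hne : apol (n + 1) h ≠ 0 := by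
      intro h0
      have h1 := ((hspec 0).1 (by rw [h0])).1
      exact (FN.gmon_monic n g).ne_zero (zero_dvd_iff.1 h1)
    obtain ⟨k1, k2⟩ := xe_norm (by omega) h hne
    set d := adeg (n + 1) h with hd
    set g₀ : ℕ → L := tabF d (fun i => h i / h d) with hg₀
    have hu : IsUnit (C (h d)⁻¹ : L[X]) := isUnit_C.2 (isUnit_iff_ne_zero.2 (inv_ne_zero k1))
    have hspec' : ∀ P : L[X], P ∣ gmon d g₀ ↔ P ∣ gmon n g ∧ P ∣ apol w W := by
      intro P
      rw [k2, hu.dvd_mul_left, hspec]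
    obtain ⟨k3, k4⟩ := xe_quo g g₀ ((hspec' _).1 dvd_rfl).1
    exact ⟨k3, k4, ((hspec' _).1 dvd_rfl).2, fun P h1 h2 => (hspec' P).2 ⟨h1, h2⟩⟩

end Pool.Agent.AbsIrr
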