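import Mathlib
import Pool.Agent.Lib.MP_2adc98_lc.XDefs
import Pool.Agent.Lib.MP_2adc98_lc.Stages
import Pool.Agent.Lib.MP_2adc98_lc.FA
import Pool.Agent.Lib.MP_2adc98_lc.FI
import Pool.Agent.Lib.MP_2adc98_lc.XE

/-!
# MP_2adc98_lc, stage 3, piece XF: descent
-/

set_option autoImplicit false

namespace Pool.Agent.AbsIrr

open Finset Polynomial

section XF

/-- the specification of the routine of `gcd_rlz`, for one field -/
def XfGcd {L : Type} [Field L]
    (G : ℕ × ℕ × (ℕ → L) × (ℕ → L) → ℕ × (ℕ → L) × (ℕ → L)) : Prop :=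
  ∀ (n w : ℕ) (g W : ℕ → L),
      (G (n, (w, (g, W)))).1 ≤ n ∧
      gmon (G (n, (w, (g, W)))).1 (G (n, (w, (g, W)))).2.1 *
        gmon (n - (G (n, (w, (g, W)))).1) (G (n, (w, (g, W)))).2.2 = gmon n g ∧
      gmon (G (n, (w, (g, W)))).1 (G (n, (w, (g, W)))).2.1 ∣ apol w W ∧
      ∀ P : L[X], P ∣ gmon n g → P ∣ apol w W →
        P ∣ gmon (G (n, (w, (g, W)))).1 (G (n, (w, (g, W)))).2.1

/-- the second half of one round: `o` is the output of the gcd routine -/
def xfSel {L : Type} (st : ℕ × ℕ × (ℕ → L)) (o : ℕ × (ℕ → L) × (ℕ → L)) : ℕ × ℕ × (ℕ → L) :=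
  if st.1 < o.1 then (st.1, (o.1, o.2.1)) else (st.1 - o.1, (st.2.1 - o.1, o.2.2))

/-- one round -/
def xfStep {L : Type} [Field L]
    (G : ℕ × ℕ × (ℕ → L) × (ℕ → L) → ℕ × (ℕ → L) × (ℕ → L)) (N : ℕ) (W : ℕ → L)
    (st : ℕ × ℕ × (ℕ → L)) (r : ℕ) : ℕ × ℕ × (ℕ → L) :=
  xfSel st (G (st.2.1, (N, (st.2.2, blkA N r W))))

/-- the state after `r` rounds -/
def xfRun {L : Type} [Field L]
    (G : ℕ × ℕ × (ℕ → L) × (ℕ → L) → ℕ × (ℕ → L) × (ℕ → L)) (N : ℕ) (Q W : ℕ → L) (t r : ℕ) :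
    ℕ × ℕ × (ℕ → L) :=
  iterF r (t, (N, Q)) (xfStep G N W)

section nat
variable {L : Type} [Field L] {G : ℕ × ℕ × (ℕ → L) × (ℕ → L) → ℕ × (ℕ → L) × (ℕ → L)}
  (hG : XfGcd G) (N : ℕ) (Q W : ℕ → L)

theorem xfRun_succ (t r : ℕ) :
    xfRun G N Q W t (r + 1) = xfStep G N W (xfRun G N Q W t r) r := rfl

include hG

theorem xfRun_le (t r : ℕ) :
    (xfRun G N Q W t r).2.1 ≤ N ∧ (xfRun G N Q W t r).1 ≤ t := by
  induction r with
  | zero => exact ⟨le_rfl, le_rfl⟩
  | succ r ih =>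
    rw [xfRun_succ]
    unfold xfStep xfSel
    have h := (hG (xfRun G N Q W t r).2.1 N (xfRun G N Q W t r).2.2 (blkA N r W)).1
    split_ifs
    · exact ⟨h.trans ih.1, ih.2⟩
    · exact ⟨(Nat.sub_le _ _).trans ih.1, (Nat.sub_le _ _).trans ih.2⟩

/-- the ranges -/
theorem xfRun_block (t r : ℕ) (ht : t < N) :
    (xfRun G N Q W t r).1 < (xfRun G N Q W t r).2.1 ∧
    t - (xfRun G N Q W t r).1 + (xfRun G N Q W t r).2.1 ≤ N ∧
    ∀ j < (xfRun G N Q W t r).2.1,
      xfRun G N Q W (t - (xfRun G N Q W t r).1 + j) r = (j, (xfRun G N Q W t r).2) := by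
  induction r with
  | zero =>
    refine ⟨ht, ?_, fun j hj => ?_⟩
    · show t - t + N ≤ N
      omega
    · show (t - t + j, (N, Q)) = (j, (N, Q))
      rw [Nat.sub_self, Nat.zero_add]
  | succ r ih =>
    have hle := (xfRun_le hG N Q W t r).2
    obtain ⟨h1, h2, h3⟩ := ih
    have hstep : ∀ u, xfRun G N Q W u (r + 1) = xfStep G N W (xfRun G N Q W u r) r := fun u => rfl
    rw [hstep t]
    generalize hst : xfRun G N Q W t r = st at h1 h2 h3 hle ⊢
    obtain ⟨t', s, g⟩ := st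
    simp only at h1 h2 h3 hle
    have hn := (hG s N g (blkA N r W)).1
    unfold xfStep xfSel
    simp only
    generalize hoo : G (s, (N, (g, blkA N r W))) = oo at hn
    obtain ⟨n0, g0, g1⟩ := oo
    simp only at hn
    by_cases hlt : t' < n0
    · rw [if_pos hlt]
      simp only
      refine ⟨hlt, by omega, fun j hj => ?_⟩
      rw [hstep, h3 j (by omega)]
      unfold xfStep xfSel
      simp only
      rw [hoo]
      simp only
      rw [if_pos hj]
    · rw [if_neg hlt]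
      simp only
      refine ⟨by omega, by omega, fun j hj => ?_⟩
      rw [hstep, show t - (t' - n0) + j = t - t' + (n0 + j) by omega, h3 (n0 + j) (by omega)]
      unfold xfStep xfSel
      simp only
      rw [hoo]
      simp only
      rw [if_neg (by omega), show n0 + j - n0 = j by omega]

theorem xfRun_sum (r : ℕ) :
    ∑ t ∈ range N, (if (xfRun G N Q W t r).1 = 0 then (xfRun G N Q W t r).2.1 else 0) ≤ N := by
  classical
  rw [← Finset.sum_filter]
  have h1 : ∀ t ∈ (range N).filter (fun t => (xfRun G N Q W t r).1 = 0),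
      (xfRun G N Q W t r).2.1 = (Finset.Ico t (t + (xfRun G N Q W t r).2.1)).card := by
    intro t _
    rw [Nat.card_Ico]; omega
  rw [Finset.sum_congr rfl h1, ← Finset.card_biUnion]
  · refine (Finset.card_le_card (t := range N) ?_).trans (by simp)
    intro u hu
    rw [Finset.mem_biUnion] at hu
    obtain ⟨t, ht, hu⟩ := hu
    rw [Finset.mem_filter, Finset.mem_range] at ht
    have := (xfRun_block hG N Q W t r ht.1).2.1
    rw [ht.2] at this
    rw [Finset.mem_Ico] at hu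
    rw [Finset.mem_range]
    omega
  · -- disjointness
    have key : ∀ t₁ t₂ : ℕ, t₁ < N → (xfRun G N Q W t₁ r).1 = 0 → (xfRun G N Q W t₂ r).1 = 0 →
        t₁ < t₂ → t₂ < t₁ + (xfRun G N Q W t₁ r).2.1 → False := by
      intro t₁ t₂ h1 h2 h3 h4 h5
      have h6 := (xfRun_block hG N Q W t₁ r h1).2.2 (t₂ - t₁) (by omega)
      rw [h2, show t₁ - 0 + (t₂ - t₁) = t₂ by omega] at h6
      rw [h6] at h3
      simp only at h3
      omega
    intro t₁ ht₁ t₂ ht₂ hne
    rw [Finset.mem_coe, Finset.mem_filter, Finset.mem_range] at ht₁ ht₂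
    rw [Function.onFun, Finset.disjoint_left]
    intro u hu1 hu2
    rw [Finset.mem_Ico] at hu1 hu2
    rcases lt_or_gt_of_ne hne with h | h
    · exact key t₁ t₂ ht₁.1 ht₁.2 ht₂.2 h (by omega)
    · exact key t₂ t₁ ht₂.1 ht₂.2 ht₁.2 h (by omega)

end nat

section mod
variable {L : Type} [Field L] {k : Type} [Field k] [Algebra L k]

theorem xf_eval (n : ℕ) (a : ℕ → L) (v : k) :
    ((apol n a).map (algebraMap L k)).eval v = evz n v a := by
  unfold apol evz
  rw [Polynomial.eval_map, Polynomial.eval₂_finsetSum]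
  refine Finset.sum_congr rfl fun l _ => ?_
  rw [Polynomial.eval₂_monomial]

theorem xf_apol (N r : ℕ) (W : ℕ → L) : apol N (blkA N r W) = apol N (rowA N r W) := by
  unfold apol
  refine Finset.sum_congr rfl fun l hl => ?_
  unfold blkA tabF rowA
  rw [if_pos (Finset.mem_range.1 hl)]

theorem xf_root {n : ℕ} {g : ℕ → L} {Z : Finset k} (h : IsMod n g Z) (v : k) :
    v ∈ Z ↔ ((gmon n g).map (algebraMap L k)).eval v = 0 := by
  unfold IsMod at h
  rw [h, Polynomial.eval_prod, Finset.prod_eq_zero_iff]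
  constructor
  · intro hv
    exact ⟨v, hv, by simp⟩
  · rintro ⟨w, hw, hv⟩
    rw [Polynomial.eval_sub, Polynomial.eval_X, Polynomial.eval_C, sub_eq_zero] at hv
    rwa [hv]

theorem xf_card {n : ℕ} {g : ℕ → L} {Z : Finset k} (h : IsMod n g Z) : Z.card = n := by
  unfold IsMod at h
  have h1 := congrArg Polynomial.natDegree h
  rw [Polynomial.natDegree_map, (fi_gmon n g).2, Polynomial.natDegree_prod_of_monic _ _
    (fun v _ => Polynomial.monic_X_sub_C v)] at h1
  simp only [Polynomial.natDegree_X_sub_C, Finset.sum_const, smul_eq_mul, mul_one] at h1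
  exact h1.symm

/-- the root set is determined -/
theorem xf_uniq {n : ℕ} {g : ℕ → L} {Z Z' : Finset k} (h : IsMod n g Z) (h' : IsMod n g Z') :
    Z = Z' := by
  ext v
  rw [xf_root h, xf_root h']

open Classical in
/-- a factorization of a squarefree polynomial -/
theorem xf_factor {n m l : ℕ} {g g0 g1 : ℕ → L} {C : Finset k} (h : IsMod n g C)
    (hm : gmon m g0 * gmon l g1 = gmon n g) :
    IsMod m g0 (C.filter fun v => ((gmon m g0).map (algebraMap L k)).eval v = 0) ∧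
    IsMod l g1 (C.filter fun v => ¬ ((gmon m g0).map (algebraMap L k)).eval v = 0) := by
  have h' : (gmon m g0).map (algebraMap L k) * (gmon l g1).map (algebraMap L k) =
      ∏ v ∈ C, (X - Polynomial.C v) := by
    rw [← Polynomial.map_mul, hm]
    exact h
  have hA : ((gmon m g0).map (algebraMap L k)).Monic := (fi_gmon m g0).1.map _
  set A := (gmon m g0).map (algebraMap L k) with hAdef
  set B := (gmon l g1).map (algebraMap L k) with hBdef
  have hcop : ∀ v ∈ C, ¬ A.eval v = 0 → IsCoprime (X - Polynomial.C v) A := by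
    intro v _ hv
    rw [(Polynomial.irreducible_X_sub_C v).coprime_iff_not_dvd, Polynomial.dvd_iff_isRoot]
    exact hv
  -- the product over the roots divides A
  have d1 : (∏ v ∈ C.filter (fun v => A.eval v = 0), (X - Polynomial.C v)) ∣ A := by
    refine Finset.prod_dvd_of_coprime ?_ ?_
    · intro v _ w _ hvw
      exact Polynomial.isCoprime_X_sub_C_of_isUnit_sub (sub_ne_zero.2 hvw).isUnit
    · intro v hv
      rw [Polynomial.dvd_iff_isRoot]
      exact (Finset.mem_filter.1 hv).2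
  have hsplit : (∏ v ∈ C.filter (fun v => A.eval v = 0), (X - Polynomial.C v)) *
      (∏ v ∈ C.filter (fun v => ¬ A.eval v = 0), (X - Polynomial.C v)) =
      ∏ v ∈ C, (X - Polynomial.C v) := Finset.prod_filter_mul_prod_filter_not _ _ _
  have hc : IsCoprime A (∏ v ∈ C.filter (fun v => ¬ A.eval v = 0), (X - Polynomial.C v)) := by
    refine IsCoprime.prod_right fun v hv => ?_
    rw [Finset.mem_filter] at hv
    exact (hcop v hv.1 hv.2).symm
  have d2 : A ∣ ∏ v ∈ C.filter (fun v => A.eval v = 0), (X - Polynomial.C v) := by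
    refine hc.dvd_of_dvd_mul_right ?_
    rw [hsplit, ← h']
    exact dvd_mul_right _ _
  have e1 : A = ∏ v ∈ C.filter (fun v => A.eval v = 0), (X - Polynomial.C v) :=
    Polynomial.eq_of_monic_of_associated hA
      (Polynomial.monic_prod_of_monic _ _ fun v _ => Polynomial.monic_X_sub_C v)
      (associated_of_dvd_dvd d2 d1)
  refine ⟨e1, ?_⟩
  have hne : A ≠ 0 := hA.ne_zero
  apply mul_left_cancel₀ hne
  show A * B = A * _
  rw [h', ← hsplit, ← e1]

variable {G : ℕ × ℕ × (ℕ → L) × (ℕ → L) → ℕ × (ℕ → L) × (ℕ → L)} (hG : XfGcd G)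

open Classical in
include hG in
/-- one call of the gcd routine splits the class -/
theorem xf_split (N r : ℕ) (W : ℕ → L) {s : ℕ} {g : ℕ → L} {C : Finset k} (h : IsMod s g C) :
    IsMod (G (s, (N, (g, blkA N r W)))).1 (G (s, (N, (g, blkA N r W)))).2.1
      (C.filter fun v => evz N v (rowA N r W) = 0) ∧
    IsMod (s - (G (s, (N, (g, blkA N r W)))).1) (G (s, (N, (g, blkA N r W)))).2.2
      (C.filter fun v => ¬ evz N v (rowA N r W) = 0) := by
  obtain ⟨h1, h2, h3, h4⟩ := hG s N g (blkA N r W)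
  generalize G (s, (N, (g, blkA N r W))) = oo at h1 h2 h3 h4 ⊢
  obtain ⟨n0, g0, g1⟩ := oo
  simp only at h1 h2 h3 h4 ⊢
  rw [xf_apol] at h3 h4
  have key : ∀ v ∈ C, (((gmon n0 g0).map (algebraMap L k)).eval v = 0 ↔
      evz N v (rowA N r W) = 0) := by
    intro v hv
    constructor
    · intro hv0
      obtain ⟨q, hq⟩ := h3
      rw [← xf_eval, hq, Polynomial.map_mul, Polynomial.eval_mul, hv0, zero_mul]
    · intro hv0
      have hgcd := h4 (EuclideanDomain.gcd (gmon s g) (apol N (rowA N r W)))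
        (EuclideanDomain.gcd_dvd_left _ _) (EuclideanDomain.gcd_dvd_right _ _)
      obtain ⟨q, hq⟩ := hgcd
      rw [EuclideanDomain.gcd_eq_gcd_ab] at hq
      rw [hq]
      simp only [Polynomial.map_mul, Polynomial.map_add, Polynomial.eval_mul,
        Polynomial.eval_add]
      rw [xf_eval, hv0, (xf_root h v).1 hv]
      ring
  obtain ⟨e1, e2⟩ := xf_factor h h2
  constructor
  · convert e1 using 1
    refine Finset.filter_congr fun v hv => (key v hv).symm
  · convert e2 using 1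
    refine Finset.filter_congr fun v hv => not_congr (key v hv).symm

/-! ### classes -/

theorem xf_bcls_zero (N : ℕ) (W : ℕ → L) (Z : Finset k) (z : k) : bcls N 0 W Z z = Z := by
  classical
  unfold bcls
  refine Finset.filter_true_of_mem fun v _ r hr => absurd hr (Nat.not_lt_zero r)

theorem xf_mem (N r : ℕ) (W : ℕ → L) {Z : Finset k} {z : k} (hz : z ∈ Z) :
    z ∈ bcls N r W Z z := by
  classical
  unfold bcls
  exact Finset.mem_filter.2 ⟨hz, fun _ _ => Iff.rfl⟩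

theorem xf_bcls_eq (N r : ℕ) (W : ℕ → L) {Z : Finset k} {z z' : k}
    (h : z' ∈ bcls N r W Z z) : bcls N r W Z z' = bcls N r W Z z := by
  classical
  unfold bcls at h ⊢
  have h2 := (Finset.mem_filter.1 h).2
  refine Finset.filter_congr fun v _ => ?_
  constructor
  · intro hv i hi
    exact (h2 i hi).trans (hv i hi)
  · intro hv i hi
    exact (h2 i hi).symm.trans (hv i hi)

open Classical in
theorem xf_bcls_succ_pos (N r : ℕ) (W : ℕ → L) {Z : Finset k} {z : k}
    (h : evz N z (rowA N r W) = 0) :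
    bcls N (r + 1) W Z z = (bcls N r W Z z).filter fun v => evz N v (rowA N r W) = 0 := by
  unfold bcls
  ext v
  simp only [Finset.mem_filter]
  constructor
  · rintro ⟨h1, h2⟩
    exact ⟨⟨h1, fun i hi => h2 i (by omega)⟩, (h2 r (by omega)).1 h⟩
  · rintro ⟨⟨h1, h2⟩, h3⟩
    refine ⟨h1, fun i hi => ?_⟩
    rcases Nat.lt_succ_iff_lt_or_eq.1 hi with h4 | h4
    · exact h2 i h4
    · subst h4
      exact ⟨fun _ => h3, fun _ => h⟩

open Classical in
theorem xf_bcls_succ_neg (N r : ℕ) (W : ℕ → L) {Z : Finset k} {z : k}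
    (h : ¬ evz N z (rowA N r W) = 0) :
    bcls N (r + 1) W Z z = (bcls N r W Z z).filter fun v => ¬ evz N v (rowA N r W) = 0 := by
  unfold bcls
  ext v
  simp only [Finset.mem_filter]
  constructor
  · rintro ⟨h1, h2⟩
    exact ⟨⟨h1, fun i hi => h2 i (by omega)⟩, fun h3 => h ((h2 r (by omega)).2 h3)⟩
  · rintro ⟨⟨h1, h2⟩, h3⟩
    refine ⟨h1, fun i hi => ?_⟩
    rcases Nat.lt_succ_iff_lt_or_eq.1 hi with h4 | h4
    · exact h2 i h4
    · subst h4
      exact ⟨fun h5 => absurd h5 h, fun h5 => absurd h5 h3⟩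

include hG

/-- every state is a class -/
theorem xfRun_class (N : ℕ) (Q W : ℕ → L) {Z : Finset k} (hZ : IsMod N Q Z) (t r : ℕ)
    (ht : t < N) :
    ∃ z ∈ Z, IsMod (xfRun G N Q W t r).2.1 (xfRun G N Q W t r).2.2 (bcls N r W Z z) := by
  classical
  induction r with
  | zero =>
    have hc := xf_card hZ
    have hne : Z.Nonempty := by
      rw [← Finset.card_pos]
      omega
    obtain ⟨z, hz⟩ := hne
    refine ⟨z, hz, ?_⟩
    rw [xf_bcls_zero]
    exact hZ
  | succ r ih =>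
    obtain ⟨z, hz, hm⟩ := ih
    have hb := (xfRun_block hG N Q W t r ht).1
    obtain ⟨h1, h2⟩ := xf_split hG N r W hm
    rw [xfRun_succ]
    generalize xfRun G N Q W t r = st at hb hm h1 h2 ⊢
    obtain ⟨t', s, g⟩ := st
    simp only at hb hm h1 h2 ⊢
    unfold xfStep xfSel
    simp only
    generalize G (s, (N, (g, blkA N r W))) = oo at h1 h2 ⊢
    obtain ⟨n0, g0, g1⟩ := oo
    simp only at h1 h2 ⊢
    by_cases hlt : t' < n0
    · rw [if_pos hlt]
      simp only
      have hne : ((bcls N r W Z z).filter fun v => evz N v (rowA N r W) = 0).Nonempty := by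
        rw [← Finset.card_pos, xf_card h1]
        omega
      obtain ⟨z', hz'⟩ := hne
      obtain ⟨hz1, hz2⟩ := Finset.mem_filter.1 hz'
      refine ⟨z', (Finset.mem_filter.1 hz1).1, ?_⟩
      rw [xf_bcls_succ_pos N r W hz2, xf_bcls_eq N r W hz1]
      exact h1
    · rw [if_neg hlt]
      simp only
      have hne : ((bcls N r W Z z).filter fun v => ¬ evz N v (rowA N r W) = 0).Nonempty := by
        rw [← Finset.card_pos, xf_card h2]
        omega
      obtain ⟨z', hz'⟩ := hne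
      obtain ⟨hz1, hz2⟩ := Finset.mem_filter.1 hz'
      refine ⟨z', (Finset.mem_filter.1 hz1).1, ?_⟩
      rw [xf_bcls_succ_neg N r W hz2, xf_bcls_eq N r W hz1]
      exact h2

/-- every class is reached -/
theorem xfRun_reach (N : ℕ) (Q W : ℕ → L) {Z : Finset k} (hZ : IsMod N Q Z) (r : ℕ) {z : k}
    (hz : z ∈ Z) :
    ∃ t < N, (xfRun G N Q W t r).1 = 0 ∧
      IsMod (xfRun G N Q W t r).2.1 (xfRun G N Q W t r).2.2 (bcls N r W Z z) := by
  classical
  induction r with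
  | zero =>
    have hc := xf_card hZ
    have hpos : 0 < Z.card := Finset.card_pos.2 ⟨z, hz⟩
    refine ⟨0, by omega, rfl, ?_⟩
    rw [xf_bcls_zero]
    exact hZ
  | succ r ih =>
    obtain ⟨t, ht, h0, hm⟩ := ih
    obtain ⟨hb1, hb2, hb3⟩ := xfRun_block hG N Q W t r ht
    obtain ⟨h1, h2⟩ := xf_split hG N r W hm
    have hstep : ∀ u, xfRun G N Q W u (r + 1) = xfStep G N W (xfRun G N Q W u r) r := fun u => rfl
    have hnn := (hG (xfRun G N Q W t r).2.1 N (xfRun G N Q W t r).2.2 (blkA N r W)).1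
    generalize hst : xfRun G N Q W t r = st at hb1 hb2 hb3 hm h0 h1 h2 hnn ⊢
    obtain ⟨t', s, g⟩ := st
    simp only at hb1 hb2 hb3 hm h0 h1 h2 hnn
    subst h0
    generalize hoo : G (s, (N, (g, blkA N r W))) = oo at h1 h2 hnn ⊢
    obtain ⟨n0, g0, g1⟩ := oo
    simp only at h1 h2 hnn
    by_cases hv : evz N z (rowA N r W) = 0
    · have hpos : 0 < n0 := by
        rw [← xf_card h1, Finset.card_pos]
        exact ⟨z, Finset.mem_filter.2 ⟨xf_mem N r W hz, hv⟩⟩
      refine ⟨t, ht, ?_⟩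
      rw [hstep, hst]
      unfold xfStep xfSel
      simp only
      rw [hoo]
      simp only
      rw [if_pos hpos]
      simp only
      rw [xf_bcls_succ_pos N r W hv]
      exact ⟨trivial, h1⟩
    · have hpos : 0 < s - n0 := by
        rw [← xf_card h2, Finset.card_pos]
        exact ⟨z, Finset.mem_filter.2 ⟨xf_mem N r W hz, hv⟩⟩
      refine ⟨t + n0, by omega, ?_⟩
      have h5 := hb3 n0 (by omega)
      rw [show t - 0 + n0 = t + n0 by omega] at h5
      rw [hstep, h5]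
      unfold xfStep xfSel
      simp only
      rw [hoo]
      simp only
      rw [if_neg (lt_irrefl _)]
      simp only
      rw [xf_bcls_succ_neg N r W hv]
      exact ⟨Nat.sub_self _, h2⟩

/-- every class is reached only once -/
theorem xfRun_once (N : ℕ) (Q W : ℕ → L) {Z : Finset k} (hZ : IsMod N Q Z) (r : ℕ) {z : k}
    (hz : z ∈ Z) (t₁ : ℕ) (ht₁ : t₁ < N) (t₂ : ℕ) (ht₂ : t₂ < N)
    (h₁ : (xfRun G N Q W t₁ r).1 = 0) (h₂ : (xfRun G N Q W t₂ r).1 = 0)
    (m₁ : IsMod (xfRun G N Q W t₁ r).2.1 (xfRun G N Q W t₁ r).2.2 (bcls N r W Z z))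
    (m₂ : IsMod (xfRun G N Q W t₂ r).2.1 (xfRun G N Q W t₂ r).2.2 (bcls N r W Z z)) :
    t₁ = t₂ := by
  classical
  induction r generalizing t₁ t₂ with
  | zero =>
    have e1 : t₁ = 0 := h₁
    have e2 : t₂ = 0 := h₂
    rw [e1, e2]
  | succ r ih =>
    -- what happens to one index
    have key : ∀ t < N, (xfRun G N Q W t (r + 1)).1 = 0 →
        IsMod (xfRun G N Q W t (r + 1)).2.1 (xfRun G N Q W t (r + 1)).2.2
          (bcls N (r + 1) W Z z) →
        ∃ o < N, (xfRun G N Q W o r).1 = 0 ∧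
          IsMod (xfRun G N Q W o r).2.1 (xfRun G N Q W o r).2.2 (bcls N r W Z z) ∧
          t = if evz N z (rowA N r W) = 0 then o else
            o + (G ((xfRun G N Q W o r).2.1, (N, ((xfRun G N Q W o r).2.2, blkA N r W)))).1 := by
      intro t ht h0 hm
      obtain ⟨hb1, hb2, hb3⟩ := xfRun_block hG N Q W t r ht
      have hle := (xfRun_le hG N Q W t r).2
      obtain ⟨z', hz', hm'⟩ := xfRun_class hG N Q W hZ t r ht
      obtain ⟨c1, c2⟩ := xf_split hG N r W hm'
      have hb4 := hb3 0 (by omega)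
      rw [Nat.add_zero] at hb4
      rw [xfRun_succ] at h0 hm
      refine ⟨t - (xfRun G N Q W t r).1, by omega, by rw [hb4], ?_⟩
      rw [hb4]
      simp only
      generalize xfRun G N Q W t r = st at hb1 hb2 hm' h0 hm c1 c2 hle ⊢
      obtain ⟨t', s, g⟩ := st
      simp only at hb1 hb2 hm' c1 c2 hle ⊢
      unfold xfStep xfSel at h0 hm
      simp only at h0 hm
      generalize G (s, (N, (g, blkA N r W))) = oo at h0 hm c1 c2 ⊢
      obtain ⟨n0, g0, g1⟩ := oo
      simp only at h0 hm c1 c2 ⊢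
      have hzm := xf_mem N (r + 1) W hz
      by_cases hlt : t' < n0
      · rw [if_pos hlt] at h0 hm
        simp only at h0 hm
        have e := xf_uniq hm c1
        rw [e] at hzm
        obtain ⟨q1, q2⟩ := Finset.mem_filter.1 hzm
        rw [xf_bcls_eq N r W q1, if_pos q2]
        exact ⟨hm', by omega⟩
      · rw [if_neg hlt] at h0 hm
        simp only at h0 hm
        have e := xf_uniq hm c2
        rw [e] at hzm
        obtain ⟨q1, q2⟩ := Finset.mem_filter.1 hzm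
        rw [xf_bcls_eq N r W q1, if_neg q2]
        exact ⟨hm', by omega⟩
    obtain ⟨o₁, a1, a2, a3, a4⟩ := key t₁ ht₁ h₁ m₁
    obtain ⟨o₂, b1, b2, b3, b4⟩ := key t₂ ht₂ h₂ m₂
    have e := ih o₁ a1 o₂ b1 a2 b2 a3 b3
    rw [a4, b4, e]

end mod

/-! ### the routine -/

/-- `(N, (R, (Q, (W, t))))` -/
abbrev XFIn : Ty := .prod .nat (.prod .nat (.prod .arr (.prod .arr .nat)))

abbrev XFSt : Ty := .prod .nat (.prod .nat .arr)

abbrev XFGI : Ty := .prod .nat (.prod .nat (.prod .arr .arr))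

abbrev XFGO : Ty := .prod .nat (.prod .arr .arr)

theorem xfSel_rlz : RlzQ (a := .prod (.prod (.prod XFIn XFSt) .nat) XFGO) (b := XFSt)
    (fun _ _ x => xfSel x.1.1.2 x.2) (fun _ _ _ => 0) := by
  have ht : RlzQ (a := .prod (.prod (.prod XFIn XFSt) .nat) XFGO) (b := .nat)
      (fun _ _ x => x.1.1.2.1) (fun _ _ _ => 0) := by
    apply_rules [RlzQ.fst, RlzQ.snd, RlzQ.input]
  have hs : RlzQ (a := .prod (.prod (.prod XFIn XFSt) .nat) XFGO) (b := .nat)
      (fun _ _ x => x.1.1.2.2.1) (fun _ _ _ => 0) := by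
    apply_rules [RlzQ.fst, RlzQ.snd, RlzQ.input]
  have ho : RlzQ (a := .prod (.prod (.prod XFIn XFSt) .nat) XFGO) (b := XFGO)
      (fun _ _ x => x.2) (fun _ _ _ => 0) := by
    apply_rules [RlzQ.fst, RlzQ.snd, RlzQ.input]
  have k := RlzQ.iteLt ht (RlzQ.fst ho) (RlzQ.pair ht (RlzQ.pair (RlzQ.fst ho)
    (RlzQ.fst (RlzQ.snd ho)))) (RlzQ.pair (RlzQ.sub ht (RlzQ.fst ho)) (RlzQ.pair
    (RlzQ.sub hs (RlzQ.fst ho)) (RlzQ.snd (RlzQ.snd ho))))
  refine (k.congr (fun K _ x => ?_)).mono 1 (fun K _ x => ?_)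
  · unfold xfSel
    rfl
  · simp

theorem xfStep_rlz {F : Fam XFGI XFGO}
    (hF : RlzQ F (fun _ _ x => (x.1 + x.2.1 + 1) * (x.1 + 1))) :
    RlzQ (a := .prod (.prod XFIn XFSt) .nat) (b := XFSt)
      (fun K _ x => xfStep (F K) x.1.1.1 x.1.1.2.2.2.1 x.1.2 x.2)
      (fun _ _ x => x.1.1.1 + (x.1.2.2.1 + x.1.1.1 + 1) * (x.1.2.2.1 + 1)) := by
  have hn : RlzQ (a := .prod (.prod XFIn XFSt) .nat) (b := .nat)
      (fun _ _ x => x.1.1.1) (fun _ _ _ => 0) := by
    apply_rules [RlzQ.fst, RlzQ.snd, RlzQ.input]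
  have hW : RlzQ (a := .prod (.prod XFIn XFSt) .nat) (b := .arr)
      (fun _ _ x => x.1.1.2.2.2.1) (fun _ _ _ => 0) := by
    apply_rules [RlzQ.fst, RlzQ.snd, RlzQ.input]
  have hs : RlzQ (a := .prod (.prod XFIn XFSt) .nat) (b := .nat)
      (fun _ _ x => x.1.2.2.1) (fun _ _ _ => 0) := by
    apply_rules [RlzQ.fst, RlzQ.snd, RlzQ.input]
  have hg : RlzQ (a := .prod (.prod XFIn XFSt) .nat) (b := .arr)
      (fun _ _ x => x.1.2.2.2) (fun _ _ _ => 0) := by
    apply_rules [RlzQ.fst, RlzQ.snd, RlzQ.input]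
  have hr : RlzQ (a := .prod (.prod XFIn XFSt) .nat) (b := .nat)
      (fun _ _ x => x.2) (fun _ _ _ => 0) := by
    apply_rules [RlzQ.fst, RlzQ.snd, RlzQ.input]
  have kG := RlzQ.comp hF (RlzQ.pair hs (RlzQ.pair hn (RlzQ.pair hg (RlzQ.blkA hn hr hW))))
  have k := RlzQ.letIn xfSel_rlz kG
  refine (k.congr (fun K _ x => ?_)).mono 1 (fun K _ x => ?_)
  · rfl
  · simp only [zero_add, add_zero]
    omega

theorem xfRun_rlz {F : Fam XFGI XFGO}
    (hF : RlzQ F (fun _ _ x => (x.1 + x.2.1 + 1) * (x.1 + 1)))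
    (hG : ∀ (L : Type) [Field L], XfGcd (F L)) :
    RlzQ (a := XFIn) (b := XFSt)
      (fun K _ x => xfRun (F K) x.1 x.2.2.1 x.2.2.2.1 x.2.2.2.2 x.2.1)
      (fun _ _ x => (x.2.1 + 1) * (x.1 + 1) ^ 2) := by
  have hN : RlzQ (a := XFIn) (b := .nat) (fun _ _ x => x.1) (fun _ _ _ => 0) := by
    apply_rules [RlzQ.fst, RlzQ.snd, RlzQ.input]
  have hR : RlzQ (a := XFIn) (b := .nat) (fun _ _ x => x.2.1) (fun _ _ _ => 0) := by
    apply_rules [RlzQ.fst, RlzQ.snd, RlzQ.input]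
  have hQ : RlzQ (a := XFIn) (b := .arr) (fun _ _ x => x.2.2.1) (fun _ _ _ => 0) := by
    apply_rules [RlzQ.fst, RlzQ.snd, RlzQ.input]
  have ht : RlzQ (a := XFIn) (b := .nat) (fun _ _ x => x.2.2.2.2) (fun _ _ _ => 0) := by
    apply_rules [RlzQ.fst, RlzQ.snd, RlzQ.input]
  have hS := RlzQ.pair ht (RlzQ.pair hN hQ)
  have k := RlzQ.iterB (a := XFIn) (b := XFSt) (N := fun K _ x => x.2.1)
    (S := fun K _ x => (x.2.2.2.2, (x.1, x.2.2.1)))
    (f := fun K _ x s i => xfStep (F K) x.1 x.2.2.2.1 s i) hR hS (xfStep_rlz hF) 1 (by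
      intro K _ x i _
      rw [pow_one]
      obtain ⟨h1, h2⟩ := xfRun_le (hG K) x.1 x.2.2.1 x.2.2.2.1 x.2.2.2.2 i
      have h4 : Ty.nmx K XFSt (xfRun (F K) x.1 x.2.2.1 x.2.2.2.1 x.2.2.2.2 i) ≤
          Ty.nmx K XFIn x := by
        simp only [Ty.nmx]
        omega
      have h6 : ∀ a b c d e : ℕ, a ≤ b + c + d + e + a + 2 := by intros; omega
      exact h4.trans (h6 _ _ _ _ _))
  refine (k.congr (fun K _ x => ?_)).mono 4 (fun K _ x => ?_)
  · rfl
  · have h1 : ∀ i ∈ range x.2.1,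
        x.1 + ((iterF i (x.2.2.2.2, (x.1, x.2.2.1))
          (fun s i => xfStep (F K) x.1 x.2.2.2.1 s i)).2.1 + x.1 + 1) *
          ((iterF i (x.2.2.2.2, (x.1, x.2.2.1))
          (fun s i => xfStep (F K) x.1 x.2.2.2.1 s i)).2.1 + 1) ≤
        x.1 + (x.1 + x.1 + 1) * (x.1 + 1) := by
      intro i _
      have h2 := (xfRun_le (hG K) x.1 x.2.2.1 x.2.2.2.1 x.2.2.2.2 i).1
      have h3 : (iterF i (x.2.2.2.2, (x.1, x.2.2.1))
          (fun s i => xfStep (F K) x.1 x.2.2.2.1 s i)).2.1 ≤ x.1 := h2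
      gcongr
    have h2 := Finset.sum_le_sum h1
    rw [Finset.sum_const, Finset.card_range, smul_eq_mul] at h2
    simp only [zero_add]
    refine (Nat.add_le_add_left h2 _).trans ?_
    nlinarith [Nat.zero_le x.1, Nat.zero_le x.2.1, Nat.zero_le (x.1 * x.2.1),
      Nat.zero_le (x.1 ^ 2), Nat.zero_le (x.1 ^ 2 * x.2.1)]

end XF

theorem desc_rlz :
    ∃ F : Fam (.prod .nat (.prod .nat (.prod .arr (.prod .arr .nat))))
      (.prod .nat (.prod .nat .arr)),
    RlzQ F (fun _ _ x => (x.2.1 + 1) * (x.1 + 1) ^ 2) ∧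
    (∀ (L : Type) [Field L] (N R t : ℕ) (Q W : ℕ → L),
      (F L (N, (R, (Q, (W, t))))).2.1 ≤ N ∧ (F L (N, (R, (Q, (W, t))))).1 ≤ t) ∧
    (∀ (L : Type) [Field L] (N R : ℕ) (Q W : ℕ → L),
      ∑ t ∈ range N, (if (F L (N, (R, (Q, (W, t))))).1 = 0 then
        (F L (N, (R, (Q, (W, t))))).2.1 else 0) ≤ N) ∧
    ∀ (L : Type) [Field L] (k : Type) [Field k] [Algebra L k] (N R : ℕ) (Q W : ℕ → L)
      (Z : Finset k), IsMod N Q Z →
      (∀ t < N, ∃ z ∈ Z, IsMod (F L (N, (R, (Q, (W, t))))).2.1 (F L (N, (R, (Q, (W, t))))).2.2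
        (bcls N R W Z z)) ∧
      (∀ z ∈ Z, ∃ t < N, (F L (N, (R, (Q, (W, t))))).1 = 0 ∧
        IsMod (F L (N, (R, (Q, (W, t))))).2.1 (F L (N, (R, (Q, (W, t))))).2.2
          (bcls N R W Z z)) ∧
      ∀ t₁ < N, ∀ t₂ < N, ∀ z ∈ Z, (F L (N, (R, (Q, (W, t₁))))).1 = 0 →
        (F L (N, (R, (Q, (W, t₂))))).1 = 0 →
        IsMod (F L (N, (R, (Q, (W, t₁))))).2.1 (F L (N, (R, (Q, (W, t₁))))).2.2
          (bcls N R W Z z) →
        IsMod (F L (N, (R, (Q, (W, t₂))))).2.1 (F L (N, (R, (Q, (W, t₂))))).2.2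
          (bcls N R W Z z) → t₁ = t₂ := by
  obtain ⟨F, hF, hspec⟩ := gcd_rlz
  have hG : ∀ (L : Type) [Field L], XfGcd (F L) := fun L _ => hspec L
  refine ⟨fun K _ x => xfRun (F K) x.1 x.2.2.1 x.2.2.2.1 x.2.2.2.2 x.2.1, xfRun_rlz hF hG,
    fun L _ N R t Q W => xfRun_le (hG L) N Q W t R,
    fun L _ N R Q W => xfRun_sum (hG L) N Q W R,
    fun L _ k _ _ N R Q W Z hZ => ⟨fun t ht => xfRun_class (hG L) N Q W hZ t R ht,
      fun z hz => xfRun_reach (hG L) N Q W hZ R hz,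
      fun t₁ h₁ t₂ h₂ z hz a b c d => xfRun_once (hG L) N Q W hZ R hz t₁ h₁ t₂ h₂ a b c d⟩⟩

end Pool.Agent.AbsIrr
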