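import Mathlib
import Pool.Agent.Lib.MP_2adc98_lc.XDefs
import Pool.Agent.Lib.MP_2adc98_lc.FA
import Pool.Agent.Lib.MP_2adc98_lc.XA1

/-!
# MP_2adc98_lc, piece XG: random rational functions

The loop `i < E` has the state `(γ^(q^i), sum)`; every round adds the value of the polynomial with
coefficients `γ^(q^i)` at row number `i` of the table `V`, computed by the Horner scheme modulo
`gmon N Q`.
-/

set_option autoImplicit false

namespace Pool.Agent.AbsIrr

open Finset Polynomial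

/-! ## values -/

section
variable {L : Type} [Field L] {k : Type} [Field k] [Algebra L k]

private theorem xg_apol_coeff (n : ℕ) (A : ℕ → L) (i : ℕ) :
    (apol n A).coeff i = if i < n then A i else 0 := by
  unfold apol
  rw [finsetSum_coeff]
  simp only [coeff_monomial]
  rw [sum_ite_eq' (range n) i]
  simp

private theorem xg_apol_degree (n : ℕ) (A : ℕ → L) : (apol n A).degree < (n : WithBot ℕ) := by
  rw [degree_lt_iff_coeff_zero]
  intro m hm
  rw [xg_apol_coeff, if_neg (by omega)]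

private theorem xg_gmon_monic (n : ℕ) (g : ℕ → L) : (gmon n g).Monic := by
  unfold gmon
  exact monic_X_pow_add (xg_apol_degree n g)

private theorem xg_gmon_degree (n : ℕ) (g : ℕ → L) : (gmon n g).degree = (n : WithBot ℕ) := by
  unfold gmon
  rw [degree_add_eq_left_of_degree_lt]
  · exact degree_X_pow n
  · rw [degree_X_pow]
    exact xg_apol_degree n g

private theorem xg_apol_mod (n : ℕ) (g : ℕ → L) (P : L[X]) :
    apol n (tabF n (fun i => (P %ₘ gmon n g).coeff i)) = P %ₘ gmon n g := by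
  ext i
  rw [xg_apol_coeff]
  by_cases hi : i < n
  · rw [if_pos hi]
    simp [tabF, hi]
  · rw [if_neg hi]
    have h1 := degree_modByMonic_lt P (xg_gmon_monic n g)
    rw [xg_gmon_degree] at h1
    exact (coeff_eq_zero_of_degree_lt (h1.trans_le (by exact_mod_cast not_lt.1 hi))).symm

private theorem xg_evz (n : ℕ) (v : k) (a : ℕ → L) : evz n v a = aeval v (apol n a) := by
  unfold evz apol
  rw [map_sum]
  refine Finset.sum_congr rfl fun i _ => ?_
  rw [aeval_monomial]

private theorem xg_root {n : ℕ} {g : ℕ → L} {Z : Finset k} (h : IsMod n g Z) {v : k}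
    (hv : v ∈ Z) : aeval v (gmon n g) = 0 := by
  unfold IsMod at h
  rw [← eval_map_algebraMap, h, eval_prod]
  exact Finset.prod_eq_zero hv (by simp)

private theorem xg_mulmod {n : ℕ} {g : ℕ → L} {Z : Finset k} (h : IsMod n g Z) {v : k}
    (hv : v ∈ Z) (a b : ℕ → L) : evz n v (mulmod n g a b) = evz n v a * evz n v b := by
  rw [xg_evz, xg_evz, xg_evz]
  unfold mulmod
  rw [xg_apol_mod, modByMonic_eq_sub_mul_div, map_sub, map_mul, map_mul, xg_root h hv,
    zero_mul, sub_zero]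

private theorem xg_congr {n : ℕ} {v : k} {a b : ℕ → L} (h : ∀ i < n, a i = b i) :
    evz n v a = evz n v b := by
  unfold evz
  exact Finset.sum_congr rfl fun i hi => by rw [h i (mem_range.1 hi)]

private theorem xg_tab {n : ℕ} {v : k} (a : ℕ → L) : evz n v (tabF n a) = evz n v a :=
  xg_congr fun i hi => by simp [tabF, hi]

/-! ## the Horner scheme -/

/-- one step: multiply with `w` and add the constant `c` -/
private noncomputable def xgH (n : ℕ) (g w : ℕ → L) (c : L) (h : ℕ → L) : ℕ → L :=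
  tabF n (fun i => mulmod n g h w i + if i = 0 then c else 0)

private theorem xg_step {n : ℕ} {g : ℕ → L} {Z : Finset k} (hm : IsMod n g Z) {v : k}
    (hv : v ∈ Z) (hn : 0 < n) (w h : ℕ → L) (c : L) :
    evz n v (xgH n g w c h) = evz n v h * evz n v w + algebraMap L k c := by
  unfold xgH
  rw [xg_tab, ← xg_mulmod hm hv]
  unfold evz
  simp only [map_add, add_mul, Finset.sum_add_distrib]
  congr 1
  rw [Finset.sum_eq_single_of_mem 0 (mem_range.2 hn)]
  · simp
  · intro b _ hb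
    rw [if_neg hb, map_zero, zero_mul]

private noncomputable def xgHor (n : ℕ) (g w γ : ℕ → L) : ℕ → L :=
  iterF n (tabF 0 (fun _ => (0 : L))) (fun h j => xgH n g w (γ (n - 1 - j)) h)

private theorem xg_hor_inv {n : ℕ} {g : ℕ → L} {Z : Finset k} (hm : IsMod n g Z) {v : k}
    (hv : v ∈ Z) (w γ : ℕ → L) (i : ℕ) (hi : i ≤ n) :
    evz n v (iterF i (tabF 0 (fun _ => (0 : L))) (fun h j => xgH n g w (γ (n - 1 - j)) h)) =
      ∑ m ∈ range i, algebraMap L k (γ (n - i + m)) * evz n v w ^ m := by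
  induction i with
  | zero =>
    rw [iterF_zero, Finset.sum_range_zero]
    unfold evz
    exact Finset.sum_eq_zero fun l _ => by simp [tabF]
  | succ i ih =>
    rw [iterF_succ, xg_step hm hv (by omega), ih (by omega), Finset.sum_range_succ',
      Finset.sum_mul]
    have e1 : n - 1 - i = n - (i + 1) + 0 := by omega
    rw [e1, pow_zero, mul_one]
    congr 1
    refine Finset.sum_congr rfl fun m _ => ?_
    have e2 : n - i + m = n - (i + 1) + (m + 1) := by omega
    rw [e2, pow_succ, mul_assoc]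

private theorem xg_hor {n : ℕ} {g : ℕ → L} {Z : Finset k} (hm : IsMod n g Z) {v : k}
    (hv : v ∈ Z) (w γ : ℕ → L) :
    evz n v (xgHor n g w γ) = ∑ j ∈ range n, algebraMap L k (γ j) * evz n v w ^ j := by
  unfold xgHor
  rw [xg_hor_inv hm hv w γ n le_rfl]
  refine Finset.sum_congr rfl fun m _ => ?_
  rw [Nat.sub_self, zero_add]

/-! ## the outer loop -/

private noncomputable def xgStep (n e : ℕ) (g V : ℕ → L) (s : (ℕ → L) × (ℕ → L)) (i : ℕ) :
    (ℕ → L) × (ℕ → L) :=
  (powT n e s.1, tabF n (fun j => s.2 j + xgHor n g (blkA n i V) s.1 j))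

private noncomputable def xgRun (n E e : ℕ) (g V γ : ℕ → L) : (ℕ → L) × (ℕ → L) :=
  iterF E (tabF n (fun j => γ j), tabF 0 (fun _ => (0 : L))) (fun s i => xgStep n e g V s i)

private theorem xg_run_fst (n E e : ℕ) (g V γ : ℕ → L) :
    (xgRun n E e g V γ).1 = tabF n (fun j => γ j ^ e ^ E) := by
  unfold xgRun
  induction E with
  | zero =>
    rw [iterF_zero]
    simp
  | succ E ih =>
    rw [iterF_succ]
    unfold xgStep at ih ⊢
    dsimp only at ih ⊢
    rw [ih]
    unfold powT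
    funext j
    unfold tabF
    by_cases hj : j < n
    · simp only [if_pos hj]
      rw [← pow_mul, pow_succ]
    · simp only [if_neg hj]

private theorem xg_run_snd {n : ℕ} {g : ℕ → L} {Z : Finset k} (hm : IsMod n g Z) {v : k}
    (hv : v ∈ Z) (E e : ℕ) (V γ : ℕ → L) :
    evz n v (xgRun n E e g V γ).2 = ∑ i ∈ range E, ∑ j ∈ range n,
      algebraMap L k (γ j) ^ e ^ i * evz n v (rowA n i V) ^ j := by
  induction E with
  | zero =>
    rw [Finset.sum_range_zero]
    unfold xgRun evz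
    rw [iterF_zero]
    exact Finset.sum_eq_zero fun l _ => by simp [tabF]
  | succ E ih =>
    rw [Finset.sum_range_succ, ← ih]
    have h1 : (xgRun n (E + 1) e g V γ).2 = tabF n (fun j => (xgRun n E e g V γ).2 j +
        xgHor n g (blkA n E V) (xgRun n E e g V γ).1 j) := by
      unfold xgRun
      rw [iterF_succ]
      rfl
    rw [h1, xg_tab]
    have h2 : ∀ a b : ℕ → L, evz n v (fun j => a j + b j) = evz n v a + evz n v b := by
      intro a b
      unfold evz
      simp only [map_add, add_mul, Finset.sum_add_distrib]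
    rw [h2, xg_hor hm hv, xg_run_fst]
    congr 1
    have h3 : evz n v (blkA n E V) = evz n v (rowA n E V) := by
      unfold blkA
      exact xg_tab _
    refine Finset.sum_congr rfl fun j hj => ?_
    have h4 : (tabF n (fun j => γ j ^ e ^ E) : ℕ → L) j = γ j ^ e ^ E := by
      simp [tabF, mem_range.1 hj]
    rw [h4, h3, map_pow]

end

/-! ## the programs -/

/-- input `(n, (g, (w, γ)))` -/
private theorem xg_hor_rlz : RlzQ (a := .prod .nat (.prod .arr (.prod .arr .arr))) (b := .arr)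
    (fun K _ x => xgHor (L := K) x.1 x.2.1 x.2.2.1 x.2.2.2) (fun _ _ x => (x.1 + 1) ^ 2) := by
  -- the table in a step: input `((x, h), j), m`
  have hz : RlzQ (a := .prod (.prod (.prod (.prod (.prod .nat (.prod .arr (.prod .arr .arr))) .arr)
      .nat) .arr) .nat) (fun _ _ x => x) (fun _ _ _ => 0) := RlzQ.input
  have ex := RlzQ.fst (RlzQ.fst (RlzQ.fst (RlzQ.fst hz)))
  have ej := RlzQ.snd (RlzQ.fst (RlzQ.fst hz))
  have em := RlzQ.snd (RlzQ.fst hz)
  have ei := RlzQ.snd hz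
  have hentry := RlzQ.fadd (RlzQ.get em ei) (RlzQ.iteEq ei (RlzQ.lit 0)
    (RlzQ.get (RlzQ.snd (RlzQ.snd (RlzQ.snd ex))) (RlzQ.sub (RlzQ.sub (RlzQ.fst ex)
      (RlzQ.lit 1)) ej)) RlzQ.zero)
  have hy : RlzQ (a := .prod (.prod (.prod (.prod .nat (.prod .arr (.prod .arr .arr))) .arr)
      .nat) .arr) (fun _ _ x => x) (fun _ _ _ => 0) := RlzQ.input
  have en := RlzQ.fst (RlzQ.fst (RlzQ.fst (RlzQ.fst hy)))
  have htab := RlzQ.tab
    (a := .prod (.prod (.prod (.prod .nat (.prod .arr (.prod .arr .arr))) .arr) .nat) .arr)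
    (f := fun K _ x i => ((x.2 : ℕ → K) i : K) + if (i : ℕ) = 0 then
      (x.1.1.1.2.2.2 : ℕ → K) ((x.1.1.1.1 : ℕ) - 1 - (x.1.2 : ℕ)) else (0 : K)) en hentry
  have e0 : RlzQ (a := .prod (.prod (.prod .nat (.prod .arr (.prod .arr .arr))) .arr) .nat)
      (fun _ _ x => x) (fun _ _ _ => 0) := RlzQ.input
  have hx := RlzQ.fst (RlzQ.fst e0)
  have hbody : RlzQ (a := .prod (.prod (.prod .nat (.prod .arr (.prod .arr .arr))) .arr) .nat)
      (b := .arr)
      (fun K _ x => xgH (L := K) x.1.1.1 x.1.1.2.1 x.1.1.2.2.1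
        ((x.1.1.2.2.2 : ℕ → K) ((x.1.1.1 : ℕ) - 1 - (x.2 : ℕ))) x.1.2)
      (fun _ _ x => x.1.1.1) := by
    refine ((RlzQ.comp htab (RlzQ.pair e0 (RlzQ.mulmod (RlzQ.fst hx) (RlzQ.fst (RlzQ.snd hx))
      (RlzQ.snd (RlzQ.fst e0)) (RlzQ.fst (RlzQ.snd (RlzQ.snd hx)))))).congr
      (fun K _ x => rfl)).mono 2 (fun K _ x => ?_)
    simp only [add_zero, ite_self, Finset.sum_const_zero, zero_add]
    have key : ∀ A : ℕ, A + A ≤ 2 * (A + 1) := by intros; omega
    exact key _
  have hinit : RlzQ (a := .prod .nat (.prod .arr (.prod .arr .arr))) (b := .arr)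
      (fun K _ _ => tabF 0 (fun _ => (0 : K))) (fun _ _ _ => 0) :=
    (RlzQ.tab (a := .prod .nat (.prod .arr (.prod .arr .arr))) (f := fun K _ _ _ => (0 : K))
      (RlzQ.lit 0) RlzQ.zero).mono 1 (fun K _ x => by simp)
  have hloop := RlzQ.iter (a := .prod .nat (.prod .arr (.prod .arr .arr))) (b := .arr)
    (f := fun K _ x h j => xgH (L := K) x.1 x.2.1 x.2.2.1
      ((x.2.2.2 : ℕ → K) ((x.1 : ℕ) - 1 - j)) h) (RlzQ.fst RlzQ.input) hinit hbody
  refine (hloop.congr (fun K _ x => rfl)).mono 2 (fun K _ x => ?_)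
  simp only [Finset.sum_const, Finset.card_range, smul_eq_mul]
  have key : ∀ n : ℕ, 0 + 0 + n + n * n ≤ 2 * ((n + 1) ^ 2 + 1) := by
    intro n
    nlinarith
  exact key _

theorem rat_rlz :
    ∃ F : Fam (.prod .nat (.prod .nat (.prod .nat (.prod .nat (.prod .arr (.prod .arr .arr))))))
      .arr,
    RlzQ F (fun _ _ x => (x.2.1 + 1) * (x.1 + 1) ^ 2 * (x.2.2.2.1 + 1)) ∧
    ∀ (L : Type) [Field L] (k : Type) [Field k] [Algebra L k] (N E q l : ℕ) (Q V γ : ℕ → L)
      (Z : Finset k), q < 2 ^ l → IsMod N Q Z → ∀ v ∈ Z,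
      evz N v (F L (N, (E, (q, (l, (Q, (V, γ))))))) =
        ∑ i ∈ range E, ∑ j ∈ range N, algebraMap L k (γ j) ^ q ^ i *
          evz N v (rowA N i V) ^ j := by
  refine ⟨fun K _ x => (xgRun (L := K) x.1 x.2.1 ((x.2.2.1 : ℕ) % 2 ^ (x.2.2.2.1 : ℕ)) x.2.2.2.2.1
    x.2.2.2.2.2.1 x.2.2.2.2.2.2).2, ?_, ?_⟩
  · -- the body: input `(x, s), i`
    have e0 : RlzQ (a := .prod (.prod (.prod .nat (.prod .nat (.prod .nat (.prod .nat
        (.prod .arr (.prod .arr .arr)))))) (.prod .arr .arr)) .nat)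
        (fun _ _ x => x) (fun _ _ _ => 0) := RlzQ.input
    have ex := RlzQ.fst (RlzQ.fst e0)
    have eN := RlzQ.fst ex
    have eq := RlzQ.fst (RlzQ.snd (RlzQ.snd ex))
    have el := RlzQ.fst (RlzQ.snd (RlzQ.snd (RlzQ.snd ex)))
    have eQ := RlzQ.fst (RlzQ.snd (RlzQ.snd (RlzQ.snd (RlzQ.snd ex))))
    have eV := RlzQ.fst (RlzQ.snd (RlzQ.snd (RlzQ.snd (RlzQ.snd (RlzQ.snd ex)))))
    have es := RlzQ.snd (RlzQ.fst e0)
    have hp := RlzQ.powTL eN el eq (RlzQ.fst es)
    have hh := RlzQ.comp xg_hor_rlz (RlzQ.pair eN (RlzQ.pair eQ (RlzQ.pair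
      (RlzQ.blkA eN (RlzQ.snd e0) eV) (RlzQ.fst es))))
    have hz : RlzQ (a := .prod (.prod (.prod (.prod (.prod .nat (.prod .nat (.prod .nat (.prod .nat
        (.prod .arr (.prod .arr .arr)))))) (.prod .arr .arr)) .nat) .arr) .nat)
        (fun _ _ x => x) (fun _ _ _ => 0) := RlzQ.input
    have hentry := RlzQ.fadd (RlzQ.get (RlzQ.snd (RlzQ.snd (RlzQ.fst (RlzQ.fst (RlzQ.fst hz)))))
      (RlzQ.snd hz)) (RlzQ.get (RlzQ.snd (RlzQ.fst hz)) (RlzQ.snd hz))
    have hy : RlzQ (a := .prod (.prod (.prod (.prod .nat (.prod .nat (.prod .nat (.prod .nat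
        (.prod .arr (.prod .arr .arr)))))) (.prod .arr .arr)) .nat) .arr)
        (fun _ _ x => x) (fun _ _ _ => 0) := RlzQ.input
    have htab := RlzQ.tab
      (a := .prod (.prod (.prod (.prod .nat (.prod .nat (.prod .nat (.prod .nat
        (.prod .arr (.prod .arr .arr)))))) (.prod .arr .arr)) .nat) .arr)
      (f := fun K _ x j => ((x.1.1.2.2 : ℕ → K) j : K) + ((x.2 : ℕ → K) j : K))
      (RlzQ.fst (RlzQ.fst (RlzQ.fst (RlzQ.fst hy)))) hentry
    have ht := RlzQ.comp htab (RlzQ.pair e0 hh)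
    have hbody : RlzQ (a := .prod (.prod (.prod .nat (.prod .nat (.prod .nat (.prod .nat
        (.prod .arr (.prod .arr .arr)))))) (.prod .arr .arr)) .nat) (b := .prod .arr .arr)
        (fun K _ x => xgStep (L := K) x.1.1.1 ((x.1.1.2.2.1 : ℕ) % 2 ^ (x.1.1.2.2.2.1 : ℕ))
          x.1.1.2.2.2.2.1 x.1.1.2.2.2.2.2.1 x.1.2 x.2)
        (fun _ _ x => (x.1.1.1 + 1) ^ 2 * (x.1.1.2.2.2.1 + 1)) := by
      refine ((RlzQ.pair hp ht).congr (fun K _ x => rfl)).mono 4 (fun K _ x => ?_)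
      simp only [add_zero, Finset.sum_const_zero, zero_add]
      have key : ∀ n l : ℕ, (n + 1) * (l + 1) + (n + (n + 1) ^ 2 + n) ≤
          4 * ((n + 1) ^ 2 * (l + 1) + 1) := by
        intro n l
        nlinarith [Nat.zero_le (n * l), Nat.zero_le (n * n * l)]
      exact key _ _
    have hI : RlzQ (a := .prod .nat (.prod .nat (.prod .nat (.prod .nat
        (.prod .arr (.prod .arr .arr)))))) (fun _ _ x => x) (fun _ _ _ => 0) := RlzQ.input
    have i1 := RlzQ.tab (a := .prod .nat (.prod .nat (.prod .nat (.prod .nat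
        (.prod .arr (.prod .arr .arr))))))
      (f := fun K _ x j => (x.2.2.2.2.2.2 : ℕ → K) j) (RlzQ.fst hI)
      (RlzQ.get (RlzQ.snd (RlzQ.snd (RlzQ.snd (RlzQ.snd (RlzQ.snd (RlzQ.snd
        (RlzQ.fst RlzQ.input))))))) (RlzQ.snd RlzQ.input))
    have i2 := RlzQ.tab (a := .prod .nat (.prod .nat (.prod .nat (.prod .nat
        (.prod .arr (.prod .arr .arr))))))
      (f := fun K _ _ _ => (0 : K)) (RlzQ.lit 0) RlzQ.zero
    have hloop := RlzQ.iter (a := .prod .nat (.prod .nat (.prod .nat (.prod .nat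
        (.prod .arr (.prod .arr .arr)))))) (b := .prod .arr .arr)
      (f := fun K _ x s i => xgStep (L := K) x.1 ((x.2.2.1 : ℕ) % 2 ^ (x.2.2.2.1 : ℕ))
          x.2.2.2.2.1 x.2.2.2.2.2.1 s i) (RlzQ.fst (RlzQ.snd hI)) (RlzQ.pair i1 i2) hbody
    refine ((RlzQ.snd hloop).congr (fun K _ x => rfl)).mono 4 (fun K _ x => ?_)
    simp only [add_zero, Finset.sum_const_zero, zero_add, Finset.sum_const, Finset.card_range,
      smul_eq_mul]
    have key : ∀ n l E : ℕ, n + E + E * ((n + 1) ^ 2 * (l + 1)) ≤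
        4 * ((E + 1) * (n + 1) ^ 2 * (l + 1) + 1) := by
      intro n l E
      have h1 : 1 ≤ (n + 1) ^ 2 * (l + 1) := Nat.one_le_iff_ne_zero.2 (by positivity)
      have h2 : n ≤ (n + 1) ^ 2 * (l + 1) := by
        nlinarith [Nat.zero_le (n * l), Nat.zero_le (n * n * l)]
      have h3 : E ≤ E * ((n + 1) ^ 2 * (l + 1)) := Nat.le_mul_of_pos_right _ h1
      have h4 : (E + 1) * (n + 1) ^ 2 * (l + 1) =
        E * ((n + 1) ^ 2 * (l + 1)) + (n + 1) ^ 2 * (l + 1) := by ring
      omega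
    exact key _ _ _
  · intro L _ k _ _ N E q l Q V γ Z hq hZ v hv
    have h := xg_run_snd (k := k) hZ hv E (q % 2 ^ l) V γ
    rw [Nat.mod_eq_of_lt hq] at h
    dsimp only
    rw [Nat.mod_eq_of_lt hq]
    exact h

end Pool.Agent.AbsIrr
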