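import Mathlib
import Pool.Agent.Lib.MP_2adc98_lc.XDefs
import Pool.Agent.Lib.MP_2adc98_lc.FA
import Pool.Agent.Lib.MP_2adc98_lc.FN
import Pool.Agent.Lib.MP_2adc98_lc.XA2

/-!
# MP_2adc98_lc, piece XH: normalisation of the coefficients modulo `gmon s g`
-/

set_option autoImplicit false
set_option linter.unusedVariables false

namespace Pool.Agent.AbsIrr

open Finset Polynomial

/-! ## values at the roots -/

section
variable {L : Type} [Field L] {k : Type} [Field k] [Algebra L k]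

private theorem xh_evz (n : ℕ) (v : k) (a : ℕ → L) : evz n v a = aeval v (apol n a) := by
  unfold evz apol
  rw [map_sum]
  refine sum_congr rfl fun i _ => ?_
  rw [aeval_monomial]

private theorem xh_root {n : ℕ} {g : ℕ → L} {Z : Finset k} (h : IsMod n g Z) {v : k}
    (hv : v ∈ Z) : aeval v (gmon n g) = 0 := by
  unfold IsMod at h
  rw [← eval_map_algebraMap, h, eval_prod]
  exact prod_eq_zero hv (by simp)

private theorem xh_apol_coeff (n : ℕ) (A : ℕ → L) (i : ℕ) :
    (apol n A).coeff i = if i < n then A i else 0 := by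
  unfold apol
  rw [finsetSum_coeff]
  simp only [coeff_monomial]
  rw [sum_ite_eq' (range n) i]
  simp

private theorem xh_apol_degree (n : ℕ) (A : ℕ → L) : (apol n A).degree < (n : WithBot ℕ) := by
  rw [degree_lt_iff_coeff_zero]
  intro m hm
  rw [xh_apol_coeff, if_neg (by omega)]

private theorem xh_gmon_monic (n : ℕ) (g : ℕ → L) : (gmon n g).Monic := by
  unfold gmon
  exact monic_X_pow_add (xh_apol_degree n g)

private theorem xh_gmon_degree (n : ℕ) (g : ℕ → L) : (gmon n g).degree = (n : WithBot ℕ) := by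
  unfold gmon
  rw [degree_add_eq_left_of_degree_lt]
  · exact degree_X_pow n
  · rw [degree_X_pow]
    exact xh_apol_degree n g

private theorem xh_card {n : ℕ} {g : ℕ → L} {Z : Finset k} (h : IsMod n g Z) : Z.card = n := by
  unfold IsMod at h
  have h1 := congrArg degree h
  rw [degree_map, xh_gmon_degree, degree_prod] at h1
  simp only [degree_X_sub_C, sum_const, nsmul_eq_mul, mul_one] at h1
  exact_mod_cast h1.symm

/-- the polynomial of the array of a remainder -/
private theorem xh_apol_mod (n : ℕ) (g : ℕ → L) (P : L[X]) :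
    apol n (tabF n (fun i => (P %ₘ gmon n g).coeff i)) = P %ₘ gmon n g := by
  ext i
  rw [xh_apol_coeff]
  by_cases hi : i < n
  · rw [if_pos hi]
    simp [tabF, hi]
  · rw [if_neg hi]
    have h1 := degree_modByMonic_lt P (xh_gmon_monic n g)
    rw [xh_gmon_degree] at h1
    exact (coeff_eq_zero_of_degree_lt (h1.trans_le (by exact_mod_cast not_lt.1 hi))).symm

private theorem xh_aeval_mod {n : ℕ} {g : ℕ → L} {Z : Finset k} (h : IsMod n g Z) {v : k}
    (hv : v ∈ Z) (P : L[X]) : aeval v (P %ₘ gmon n g) = aeval v P := by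
  have h1 := congrArg (aeval v) (modByMonic_add_div P (gmon n g))
  rw [map_add, map_mul, xh_root h hv, zero_mul, add_zero] at h1
  exact h1

private theorem xh_evz_red {n : ℕ} {g : ℕ → L} {Z : Finset k} (h : IsMod n g Z) {v : k}
    (hv : v ∈ Z) (w : ℕ) (a : ℕ → L) :
    evz n v (tabF n (fun i => (apol w a %ₘ gmon n g).coeff i)) = evz w v a := by
  rw [xh_evz, xh_apol_mod, xh_aeval_mod h hv, ← xh_evz]

private theorem xh_evz_mulmod {n : ℕ} {g : ℕ → L} {Z : Finset k} (h : IsMod n g Z) {v : k}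
    (hv : v ∈ Z) (a b : ℕ → L) : evz n v (mulmod n g a b) = evz n v a * evz n v b := by
  unfold mulmod
  rw [xh_evz, xh_apol_mod, xh_aeval_mod h hv, map_mul, ← xh_evz, ← xh_evz]

private theorem xh_coprime {n : ℕ} {g : ℕ → L} {Z : Finset k} (h : IsMod n g Z) (A : ℕ → L)
    (hA : ∀ v ∈ Z, evz n v A ≠ 0) : IsCoprime (apol n A) (gmon n g) := by
  rw [← isCoprime_map (algebraMap L k)]
  unfold IsMod at h
  rw [h]
  apply IsCoprime.prod_right
  intro v hv
  apply IsCoprime.symm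
  rw [(irreducible_X_sub_C v).coprime_iff_not_dvd, dvd_iff_isRoot, IsRoot.def,
    eval_map_algebraMap, ← xh_evz]
  exact hA v hv

private theorem xh_inv {n : ℕ} {g : ℕ → L} {Z : Finset k} (h : IsMod n g Z) {v : k}
    (hv : v ∈ Z) (P A : ℕ → L) (hP : gmon n g ∣ apol n P * apol n A - 1) :
    evz n v P * evz n v A = 1 := by
  obtain ⟨c, hc⟩ := hP
  have h1 := congrArg (aeval v) hc
  rw [map_mul, xh_root h hv, zero_mul, map_sub, map_mul, map_one, ← xh_evz, ← xh_evz,
    sub_eq_zero] at h1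
  exact h1

private theorem xh_blkA (n : ℕ) (v : k) (e : ℕ) (a : ℕ → L) :
    evz n v (blkA n e a) = dv n v a e := by
  unfold evz blkA dv
  refine sum_congr rfl fun l hl => ?_
  unfold tabF
  rw [if_pos (mem_range.1 hl)]

/-- an array with entries computed row by row -/
private theorem xh_rows {B s : ℕ} (row : ℕ → ℕ → L) (v : k) {e : ℕ} (he : e < B) :
    dv s v (tabF (B * s) (fun j => row (j / s) (j % s))) e = evz s v (row e) := by
  unfold evz dv
  refine sum_congr rfl fun j hj => ?_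
  have hj' := mem_range.1 hj
  have h2 : e * s + j < B * s := by
    have h3 : (e + 1) * s ≤ B * s := Nat.mul_le_mul_right s he
    have h4 : (e + 1) * s = e * s + s := by ring
    omega
  have h5 : (e * s + j) / s = e := by
    rw [mul_comm, Nat.mul_add_div (by omega), Nat.div_eq_of_lt hj', add_zero]
  have h6 : (e * s + j) % s = j := by
    rw [mul_comm, Nat.mul_add_mod, Nat.mod_eq_of_lt hj']
  unfold tabF
  rw [if_pos h2]
  beta_reduce
  rw [h5, h6]

/-- a polynomial of degree less than the number of roots which vanishes at one of them and has a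
nonzero coefficient does not vanish at all of them -/
private theorem xh_nonzero {n : ℕ} {g : ℕ → L} {Z : Finset k} (h : IsMod n g Z) (A : ℕ → L)
    {i : ℕ} (hi : i < n) (hA : A i ≠ 0) : ∃ v ∈ Z, evz n v A ≠ 0 := by
  by_contra hcon
  push Not at hcon
  have h1 : (apol n A).map (algebraMap L k) = 0 := by
    apply eq_zero_of_degree_lt_of_eval_finset_eq_zero Z
    · rw [degree_map, xh_card h]
      exact xh_apol_degree n A
    · intro v hv
      rw [eval_map_algebraMap, ← xh_evz]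
      exact hcon v hv
  have h2 : apol n A = 0 := by
    rwa [Polynomial.map_eq_zero] at h1
  have h3 := congrArg (fun P : L[X] => P.coeff i) h2
  simp only [xh_apol_coeff, if_pos hi, coeff_zero] at h3
  exact hA h3

private theorem xh_adeg {n : ℕ} {A : ℕ → L} (h : ∃ j < n, A j ≠ 0) :
    adeg n A < n ∧ A (adeg n A) ≠ 0 := by
  classical
  obtain ⟨j, hj, hA⟩ := h
  have hne : ((range n).filter fun i => A i ≠ 0).Nonempty :=
    ⟨j, mem_filter.2 ⟨mem_range.2 hj, hA⟩⟩
  obtain ⟨i, hi, hs⟩ := Finset.exists_mem_eq_sup _ hne id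
  have h2 : adeg n A = i := by
    unfold adeg
    rw [id_eq] at hs
    convert hs
  rw [h2]
  have h3 := mem_filter.1 hi
  exact ⟨mem_range.1 h3.1, h3.2⟩

/-- the reduced blocks -/
private noncomputable def xhRed (N B s : ℕ) (g G : ℕ → L) : ℕ → L :=
  tabF (B * s) (fun j => tabF s (fun i => (apol N (blkA N (j / s) G) %ₘ gmon s g).coeff i) (j % s))

/-- the reduced blocks multiplied by `h` -/
private noncomputable def xhMul (B s : ℕ) (g H h : ℕ → L) : ℕ → L :=
  tabF (B * s) (fun j => mulmod s g h (blkA s (j / s) H) (j % s))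

end

/-! ## the programs -/

/-- input `(N, (B, (s, (g, G))))` -/
private theorem xhRed_rlz :
    RlzQ (a := .prod .nat (.prod .nat (.prod .nat (.prod .arr .arr)))) (b := .arr)
      (fun K _ x => xhRed (L := K) x.1 x.2.1 x.2.2.1 x.2.2.2.1 x.2.2.2.2)
      (fun _ _ x => (x.2.1 : ℕ) * (x.2.2.1 : ℕ) * ((x.1 : ℕ) + (x.2.2.1 : ℕ) + 1)) := by
  have h0 : RlzQ (a := .prod (.prod .nat (.prod .nat (.prod .nat (.prod .arr .arr)))) .nat)
      (fun _ _ x => x.1) (fun _ _ _ => 0) := RlzQ.fst RlzQ.input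
  have hj : RlzQ (a := .prod (.prod .nat (.prod .nat (.prod .nat (.prod .arr .arr)))) .nat)
      (b := .nat) (fun _ _ x => x.2) (fun _ _ _ => 0) := RlzQ.snd RlzQ.input
  have hN := RlzQ.fst h0
  have h2 := RlzQ.snd (RlzQ.snd h0)
  have hs := RlzQ.fst h2
  have hg := RlzQ.fst (RlzQ.snd h2)
  have hG := RlzQ.snd (RlzQ.snd h2)
  have hentry := RlzQ.get (RlzQ.redmod hN hs hg (RlzQ.blkA hN (RlzQ.div hj hs) hG))
    (RlzQ.mod hj hs)
  have e0 : RlzQ (a := .prod .nat (.prod .nat (.prod .nat (.prod .arr .arr))))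
      (fun _ _ x => x) (fun _ _ _ => 0) := RlzQ.input
  have htab := RlzQ.tab (a := .prod .nat (.prod .nat (.prod .nat (.prod .arr .arr))))
    (f := fun K _ x j => (tabF (x.2.2.1 : ℕ) (fun i => (apol (x.1 : ℕ) (blkA (x.1 : ℕ)
      (j / (x.2.2.1 : ℕ)) (x.2.2.2.2 : ℕ → K)) %ₘ gmon (x.2.2.1 : ℕ) (x.2.2.2.1 : ℕ → K)).coeff i)
        (j % (x.2.2.1 : ℕ)) : K))
    (RlzQ.mul (RlzQ.fst (RlzQ.snd e0)) (RlzQ.fst (RlzQ.snd (RlzQ.snd e0)))) hentry
  refine (htab.congr (fun K _ x => rfl)).mono 3 (fun K _ x => ?_)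
  simp only [Finset.sum_const, Finset.card_range, smul_eq_mul]
  have key : ∀ b s n : ℕ, 0 + 0 + b * s + b * s * (0 + 0 + 0 + (0 + (0 + 0) + 0 + n) + n + s +
      (0 + 0)) ≤ 3 * (b * s * (n + s + 1) + 1) := by
    intro b s n
    have h : b * s + b * s * (0 + 0 + 0 + (0 + (0 + 0) + 0 + n) + n + s + (0 + 0)) =
      b * s * (2 * n + s + 1) := by ring
    have h2 : b * s * (2 * n + s + 1) ≤ b * s * (3 * (n + s + 1)) :=
      Nat.mul_le_mul_left _ (by omega)
    have h3 : b * s * (3 * (n + s + 1)) = 3 * (b * s * (n + s + 1)) := by ring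
    omega
  exact key _ _ _

/-- input `(B, (s, (g, (H, h))))` -/
private theorem xhMul_rlz :
    RlzQ (a := .prod .nat (.prod .nat (.prod .arr (.prod .arr .arr)))) (b := .arr)
      (fun K _ x => xhMul (L := K) x.1 x.2.1 x.2.2.1 x.2.2.2.1 x.2.2.2.2)
      (fun _ _ x => (x.1 : ℕ) * (x.2.1 : ℕ) * ((x.2.1 : ℕ) + 1)) := by
  have h0 : RlzQ (a := .prod (.prod .nat (.prod .nat (.prod .arr (.prod .arr .arr)))) .nat)
      (fun _ _ x => x.1) (fun _ _ _ => 0) := RlzQ.fst RlzQ.input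
  have hj : RlzQ (a := .prod (.prod .nat (.prod .nat (.prod .arr (.prod .arr .arr)))) .nat)
      (b := .nat) (fun _ _ x => x.2) (fun _ _ _ => 0) := RlzQ.snd RlzQ.input
  have h1 := RlzQ.snd h0
  have hs := RlzQ.fst h1
  have hg := RlzQ.fst (RlzQ.snd h1)
  have hH := RlzQ.fst (RlzQ.snd (RlzQ.snd h1))
  have hh := RlzQ.snd (RlzQ.snd (RlzQ.snd h1))
  have hentry := RlzQ.get (RlzQ.mulmod hs hg hh (RlzQ.blkA hs (RlzQ.div hj hs) hH))
    (RlzQ.mod hj hs)
  have e0 : RlzQ (a := .prod .nat (.prod .nat (.prod .arr (.prod .arr .arr))))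
      (fun _ _ x => x) (fun _ _ _ => 0) := RlzQ.input
  have htab := RlzQ.tab (a := .prod .nat (.prod .nat (.prod .arr (.prod .arr .arr))))
    (f := fun K _ x j => (mulmod (x.2.1 : ℕ) (x.2.2.1 : ℕ → K) (x.2.2.2.2 : ℕ → K)
      (blkA (x.2.1 : ℕ) (j / (x.2.1 : ℕ)) (x.2.2.2.1 : ℕ → K)) (j % (x.2.1 : ℕ)) : K))
    (RlzQ.mul (RlzQ.fst e0) (RlzQ.fst (RlzQ.snd e0))) hentry
  refine (htab.congr (fun K _ x => rfl)).mono 3 (fun K _ x => ?_)
  simp only [Finset.sum_const, Finset.card_range, smul_eq_mul]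
  have key : ∀ b s : ℕ, 0 + 0 + b * s + b * s * (0 + 0 + 0 + (0 + (0 + 0) + 0 + s) + s +
      (0 + 0)) ≤ 3 * (b * s * (s + 1) + 1) := by
    intro b s
    have h : b * s + b * s * (0 + 0 + 0 + (0 + (0 + 0) + 0 + s) + s + (0 + 0)) =
      b * s * (2 * s + 1) := by ring
    have h2 : b * s * (2 * s + 1) ≤ b * s * (3 * (s + 1)) :=
      Nat.mul_le_mul_left _ (by omega)
    have h3 : b * s * (3 * (s + 1)) = 3 * (b * s * (s + 1)) := by ring
    omega
  exact key _ _

theorem leafA_rlz :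
    ∃ F : Fam (.prod .nat (.prod .nat (.prod .nat (.prod .arr .arr)))) .arr,
    RlzQ F (fun _ _ x => (x.2.1 + 1) * ((x.2.2.1 + 1) * (x.1 + x.2.2.1 + 1)) +
      (x.1 + 1) ^ 2 * (x.2.2.1 + 1) + (x.2.2.1 + 1) ^ 3) ∧
    ∀ (L : Type) [Field L] (k : Type) [Field k] [Algebra L k] (N B s : ℕ) (g G : ℕ → L)
      (Z : Finset k), IsMod s g Z → Z.Nonempty →
      (∀ e < B, (∀ v ∈ Z, dv N v G e = 0) ∨ ∀ v ∈ Z, dv N v G e ≠ 0) →
      (∃ e < B, ∀ v ∈ Z, dv N v G e ≠ 0) →
      ∃ ν < B, (∀ v ∈ Z, dv N v G ν ≠ 0) ∧ ∀ e < B, ∀ v ∈ Z,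
        dv s v (F L (N, (B, (s, (g, G))))) e = dv N v G e / dv N v G ν := by
  obtain ⟨Fi, hFi, hFis⟩ := modinv
  -- stage 2, input `(x, H)`
  have y0 : RlzQ (a := .prod (.prod .nat (.prod .nat (.prod .nat (.prod .arr .arr)))) .arr)
      (fun _ _ x => x) (fun _ _ _ => 0) := RlzQ.input
  have yx := RlzQ.fst y0
  have yH := RlzQ.snd y0
  have yB := RlzQ.fst (RlzQ.snd yx)
  have ys := RlzQ.fst (RlzQ.snd (RlzQ.snd yx))
  have yg := RlzQ.fst (RlzQ.snd (RlzQ.snd (RlzQ.snd yx)))
  have hinv := RlzQ.comp hFi (RlzQ.pair ys (RlzQ.pair yg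
    (RlzQ.blkA ys (RlzQ.div (RlzQ.adeg (RlzQ.mul yB ys) yH) ys) yH)))
  -- stage 3
  have hout := RlzQ.comp xhMul_rlz (RlzQ.pair yB (RlzQ.pair ys (RlzQ.pair yg (RlzQ.pair yH hinv))))
  have hall := RlzQ.comp hout (RlzQ.pair
    (RlzQ.input (a := .prod .nat (.prod .nat (.prod .nat (.prod .arr .arr))))) xhRed_rlz)
  refine ⟨_, hall.mono 10 (fun K _ x => ?_), ?_⟩
  · obtain ⟨N, B, s, g, G⟩ := x
    dsimp only
    have key : ∀ P a b c d e : ℕ, a ≤ P → b ≤ P → c ≤ d → e ≤ P →
        0 + a + (0 + (0 + (0 + (0 + (0 + (0 + (0 + (0 + 0 + 0 + b + 0) + 0 + c)) + d)))) + e) ≤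
        10 * (P + (N + 1) ^ 2 * (s + 1) + d + 1) := by
      intro P a b c d e h1 h2 h3 h4
      have h5 := Nat.zero_le ((N + 1) ^ 2 * (s + 1))
      omega
    have g1 : ∀ N B s : ℕ, B * s * (N + s + 1) ≤ (B + 1) * ((s + 1) * (N + s + 1)) := by
      intro N B s
      calc B * s * (N + s + 1) = B * (s * (N + s + 1)) := by ring
        _ ≤ (B + 1) * ((s + 1) * (N + s + 1)) := by gcongr <;> omega
    have g2 : ∀ N B s : ℕ, B * s ≤ (B + 1) * ((s + 1) * (N + s + 1)) := by
      intro N B s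
      calc B * s = B * (s * 1) := by ring
        _ ≤ (B + 1) * ((s + 1) * (N + s + 1)) := by gcongr <;> omega
    have g3 : ∀ s : ℕ, s ≤ (s + 1) ^ 3 := fun s =>
      (Nat.le_succ s).trans (Nat.le_self_pow (by norm_num) (s + 1))
    have g4 : ∀ N B s : ℕ, B * s * (s + 1) ≤ (B + 1) * ((s + 1) * (N + s + 1)) := by
      intro N B s
      calc B * s * (s + 1) = B * (s * (s + 1)) := by ring
        _ ≤ (B + 1) * ((s + 1) * (N + s + 1)) := by gcongr <;> omega
    exact key _ _ _ _ _ _ (g1 N B s) (g2 N B s) (g3 s) (g4 N B s)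
  · intro L _ k _ _ N B s g G Z hZ hne hd hex
    dsimp only
    set H := xhRed N B s g G with hH
    have hHv : ∀ e < B, ∀ v ∈ Z, dv s v H e = dv N v G e := by
      intro e he v hv
      have h1 := xh_rows (B := B) (s := s) (fun e => tabF s (fun i =>
        (apol N (blkA N e G) %ₘ gmon s g).coeff i)) v he
      rw [hH]
      unfold xhRed
      refine h1.trans ?_
      rw [xh_evz_red hZ hv, xh_blkA]
    obtain ⟨e0, he0, hne0⟩ := hex
    obtain ⟨v0, hv0⟩ := hne
    have hexj : ∃ j < B * s, H j ≠ 0 := by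
      by_contra hcon
      push Not at hcon
      apply hne0 v0 hv0
      rw [← hHv e0 he0 v0 hv0]
      unfold dv
      refine sum_eq_zero fun l hl => ?_
      have hl' := mem_range.1 hl
      have h3 : (e0 + 1) * s ≤ B * s := Nat.mul_le_mul_right s he0
      have h4 : (e0 + 1) * s = e0 * s + s := by ring
      rw [hcon (e0 * s + l) (by omega), map_zero, zero_mul]
    obtain ⟨hj1, hj2⟩ := xh_adeg hexj
    set j0 := adeg (B * s) H with hj0
    have hs : 0 < s := by
      rcases Nat.eq_zero_or_pos s with h | h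
      · rw [h, mul_zero] at hj1
        omega
      · exact h
    have hν : j0 / s < B := Nat.div_lt_of_lt_mul (by rw [mul_comm]; exact hj1)
    have hjs : j0 % s < s := Nat.mod_lt _ hs
    have hblk : blkA s (j0 / s) H (j0 % s) ≠ 0 := by
      unfold blkA tabF
      rw [if_pos hjs]
      beta_reduce
      rw [mul_comm, Nat.div_add_mod]
      exact hj2
    have hνne : ∀ v ∈ Z, dv N v G (j0 / s) ≠ 0 := by
      obtain ⟨v, hv, hvne⟩ := xh_nonzero hZ _ hjs hblk
      rw [xh_blkA, hHv _ hν v hv] at hvne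
      rcases hd _ hν with h | h
      · exact absurd (h v hv) hvne
      · exact h
    refine ⟨j0 / s, hν, hνne, fun e he v hv => ?_⟩
    have hcop := xh_coprime hZ (blkA s (j0 / s) H) (fun z hz => by
      rw [xh_blkA, hHv _ hν z hz]
      exact hνne z hz)
    have hinv := xh_inv hZ hv _ _ (hFis L s g _ hcop)
    rw [xh_blkA, hHv _ hν v hv] at hinv
    have h1 := xh_rows (B := B) (s := s) (fun e => mulmod s g
      (Fi L (s, g, blkA s (j0 / s) H)) (blkA s e H)) v he
    unfold xhMul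
    refine h1.trans ?_
    rw [xh_evz_mulmod hZ hv, xh_blkA, hHv e he v hv, eq_div_iff (hνne v hv), mul_assoc,
      mul_comm (dv N v G e), ← mul_assoc, hinv, one_mul]

end Pool.Agent.AbsIrr
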