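import Mathlib
import Pool.Agent.Lib.MP_2adc98_lc.XDefs
import Pool.Agent.Lib.MP_2adc98_lc.FA
import Pool.Agent.Lib.MP_2adc98_lc.FI
import Pool.Agent.Lib.MP_2adc98_lc.FIM
import Pool.Agent.Lib.MP_2adc98_lc.XA2

/-!
# MP_2adc98_lc, piece XI: the choice of a generator

For every trial `r < R` the row number `r` is reduced modulo `gmon s g` and its minimal polynomial
is computed (block number `0` of `inv_rlz`).  The trial is good if the degree is `s`.
-/

set_option autoImplicit false

namespace Pool.Agent.AbsIrr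

open Finset Polynomial

/-! ## the minimal polynomial -/

section
variable {L : Type} [Field L] {k : Type} [Field k] [Algebra L k]

private theorem xi_apol_coeff (n : ℕ) (A : ℕ → L) (i : ℕ) :
    (apol n A).coeff i = if i < n then A i else 0 := by
  unfold apol
  rw [finsetSum_coeff]
  simp only [coeff_monomial]
  rw [sum_ite_eq' (range n) i]
  simp

private theorem xi_apol_mod (n : ℕ) (g : ℕ → L) (P : L[X]) :
    apol n (tabF n (fun i => (P %ₘ gmon n g).coeff i)) = P %ₘ gmon n g := by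
  ext i
  rw [xi_apol_coeff]
  by_cases hi : i < n
  · rw [if_pos hi]
    simp [tabF, hi]
  · rw [if_neg hi]
    have h1 := degree_modByMonic_lt P (fi_gmon n g).1
    rw [fi_gmon_deg] at h1
    exact (coeff_eq_zero_of_degree_lt (h1.trans_le (by exact_mod_cast not_lt.1 hi))).symm

private theorem xi_evz (n : ℕ) (v : k) (a : ℕ → L) : evz n v a = aeval v (apol n a) := by
  unfold evz apol
  rw [map_sum]
  refine Finset.sum_congr rfl fun i _ => ?_
  rw [aeval_monomial]

private theorem xi_root {n : ℕ} {g : ℕ → L} {Z : Finset k} (h : IsMod n g Z) {v : k}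
    (hv : v ∈ Z) : aeval v (gmon n g) = 0 := by
  unfold IsMod at h
  rw [← eval_map_algebraMap, h, eval_prod]
  exact Finset.prod_eq_zero hv (by simp)

private theorem xi_tab {n : ℕ} {v : k} (a : ℕ → L) : evz n v (tabF n a) = evz n v a := by
  unfold evz
  exact Finset.sum_congr rfl fun i hi => by simp [tabF, mem_range.1 hi]

private theorem xi_card {n : ℕ} {g : ℕ → L} {Z : Finset k} (h : IsMod n g Z) : Z.card = n := by
  unfold IsMod at h
  have h1 := congrArg natDegree h
  rw [(fi_gmon n g).1.natDegree_map, (fi_gmon n g).2, natDegree_prod_of_monic _ _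
    (fun v _ => monic_X_sub_C v)] at h1
  simpa using h1.symm

/-- the reduced row -/
private noncomputable def xiH (N s : ℕ) (g A : ℕ → L) (r : ℕ) : ℕ → L :=
  tabF s (fun i => (apol N (blkA N r A) %ₘ gmon s g).coeff i)

private theorem xi_H {N s : ℕ} {g : ℕ → L} {Z : Finset k} (h : IsMod s g Z) (A : ℕ → L) (r : ℕ)
    {v : k} (hv : v ∈ Z) : evz s v (xiH N s g A r) = evz N v (rowA N r A) := by
  unfold xiH
  rw [xi_evz, xi_apol_mod, modByMonic_eq_sub_mul_div, map_sub, map_mul, xi_root h hv,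
    zero_mul, sub_zero, ← xi_evz]
  unfold blkA
  exact xi_tab _

open Classical in
private noncomputable def xiP (Z : Finset k) (f : k → k) (c : k) : k[X] :=
  ∏ v ∈ Z with f v = c, (X - C v)

open Classical in
private theorem xiP_natDegree (Z : Finset k) (f : k → k) (c : k) :
    (xiP Z f c).natDegree = (Z.filter fun v => f v = c).card := by
  unfold xiP
  rw [natDegree_prod_of_monic _ _ (fun v _ => monic_X_sub_C v)]
  simp

private theorem xiP_monic (Z : Finset k) (f : k → k) (c : k) : (xiP Z f c).Monic := by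
  unfold xiP
  exact monic_prod_of_monic _ _ fun v _ => monic_X_sub_C v

private theorem xiP_coprime (Z : Finset k) (f : k → k) {c c' : k} (h : c ≠ c') :
    IsCoprime (xiP Z f c) (xiP Z f c') := by
  classical
  unfold xiP
  refine IsCoprime.prod_left fun v hv => IsCoprime.prod_right fun v' hv' => ?_
  refine isCoprime_X_sub_C_of_isUnit_sub (sub_ne_zero.2 ?_).isUnit
  rintro rfl
  exact h ((mem_filter.1 hv).2.symm.trans (mem_filter.1 hv').2)

open Classical in
private theorem xiP_prod (Z : Finset k) (f : k → k) :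
    ∏ v ∈ Z, (X - C v : k[X]) = ∏ c : {w // w ∈ Z.image f}, xiP Z f (c : k) := by
  rw [Finset.prod_coe_sort (Z.image f) (fun w => xiP Z f w)]
  unfold xiP
  exact (Finset.prod_fiberwise_of_maps_to (fun v hv => mem_image_of_mem _ hv) _).symm

private theorem xiP_dvd (Z : Finset k) (f : k → k) (c : k) (Q : k[X])
    (h : ∀ v ∈ Z, Q.eval v = f v) : xiP Z f c ∣ Q - C c := by
  classical
  unfold xiP
  refine Finset.prod_dvd_of_coprime ?_ ?_
  · intro v _ v' _ hvv
    exact isCoprime_X_sub_C_of_isUnit_sub (sub_ne_zero.2 hvv).isUnit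
  · intro v hv
    rw [dvd_iff_isRoot, IsRoot.def, eval_sub, eval_C, h v (mem_filter.1 hv).1,
      (mem_filter.1 hv).2, sub_self]

open Classical in
private theorem xi_main {s : ℕ} {g H : ℕ → L} {Z : Finset k} (hm : IsMod s g Z) {S : L[X]}
    (hS : S.Monic) (hS1 : InB (gmon s g) (apol s H) 0 (S.comp (apol s H) * X ^ 0))
    (hS2 : ∀ A : L[X], A ≠ 0 → InB (gmon s g) (apol s H) 0 (A.comp (apol s H) * X ^ 0) →
      S.natDegree ≤ A.natDegree) :
    S.map (algebraMap L k) = ∏ w ∈ Z.image (fun v => evz s v H), (X - C w) := by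
  obtain ⟨f, hf⟩ : ∃ f : k → k, f = fun v => evz s v H := ⟨_, rfl⟩
  rw [← hf]
  have hprod : (gmon s g).map (algebraMap L k) =
      ∏ c : {w // w ∈ Z.image f}, xiP Z f (c : k) := by
    unfold IsMod at hm
    rw [hm, xiP_prod]
  have hev : ∀ v ∈ Z, ((apol s H).map (algebraMap L k)).eval v = f v := by
    intro v _
    rw [eval_map_algebraMap, ← xi_evz, hf]
  have key := inv_math (G := gmon s g) (h := apol s H) (fi_gmon s g).1
    (P := fun c : {w // w ∈ Z.image f} => xiP Z f (c : k))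
    (fun c => xiP_monic Z f c)
    (fun c c' hcc => xiP_coprime Z f fun h => hcc (Subtype.ext h)) hprod
    (val := fun c : {w // w ∈ Z.image f} => (c : k)) Subtype.val_injective
    (fun c => xiP_dvd Z f c _ hev) hS hS1 hS2
  rw [key, Finset.filter_true_of_mem]
  · exact Finset.prod_coe_sort (Z.image f) (fun w => (X - C w : k[X]))
  · intro c _
    rw [xiP_natDegree]
    obtain ⟨v, hv, hvc⟩ := mem_image.1 c.2
    exact card_pos.2 ⟨v, mem_filter.2 ⟨hv, hvc⟩⟩

/-- the two facts about the block `0` -/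
private theorem xi_block {s : ℕ} {g H S : ℕ → L} {Z : Finset k} (hm : IsMod s g Z)
    (hS : (blk (s + 1) S 0).Monic)
    (hS1 : InB (gmon s g) (apol s H) 0 ((blk (s + 1) S 0).comp (apol s H) * X ^ 0))
    (hS2 : ∀ A : L[X], A ≠ 0 → InB (gmon s g) (apol s H) 0 (A.comp (apol s H) * X ^ 0) →
      (blk (s + 1) S 0).natDegree ≤ A.natDegree) :
    (adeg (s + 1) S = s ↔ Set.InjOn (fun v : k => evz s v H) Z) ∧
      (adeg (s + 1) S = s → (gmon s S).map (algebraMap L k) =
        ∏ v ∈ Z, (X - C (evz s v H))) := by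
  classical
  have h1 := xi_main (k := k) hm hS hS1 hS2
  have hcoef : ∀ i, (blk (s + 1) S 0).coeff i = if i < s + 1 then S i else 0 := by
    intro i
    rw [fi_blk_coeff]
    simp
  have hlt : (blk (s + 1) S 0).natDegree < s + 1 := by
    by_contra hcon
    have h2 := hS.coeff_natDegree
    rw [hcoef, if_neg hcon] at h2
    exact zero_ne_one h2
  have hadeg : adeg (s + 1) S = (blk (s + 1) S 0).natDegree := by
    refine adeg_eq (RingHom.id L) hS hlt fun i hi => ?_
    rw [hcoef, if_pos hi, RingHom.id_apply]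
  have hnd : (blk (s + 1) S 0).natDegree = (Z.image (fun v => evz s v H)).card := by
    have h2 := congrArg natDegree h1
    rw [hS.natDegree_map, natDegree_prod_of_monic _ _ (fun v _ => monic_X_sub_C v)] at h2
    simpa using h2
  have hiff : adeg (s + 1) S = s ↔ Set.InjOn (fun v : k => evz s v H) Z := by
    rw [hadeg, hnd, ← Finset.card_image_iff, xi_card hm]
  refine ⟨hiff, fun h => ?_⟩
  have hinj := hiff.1 h
  have hg : gmon s S = blk (s + 1) S 0 := by
    ext i
    rw [hcoef]
    unfold gmon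
    rw [coeff_add, coeff_X_pow]
    have h3 : (∑ i ∈ range s, monomial i (S i) : L[X]).coeff i = if i < s then S i else 0 :=
      xi_apol_coeff s S i
    rw [h3]
    rcases lt_trichotomy i s with h2 | h2 | h2
    · rw [if_neg (by omega), if_pos h2, if_pos (by omega), zero_add]
    · have h4 := hS.coeff_natDegree
      rw [← hadeg, h, hcoef, if_pos (by omega)] at h4
      rw [if_pos h2, if_neg (by omega), if_pos (by omega), add_zero, h2, h4]
    · rw [if_neg (by omega), if_neg (by omega), if_neg (by omega), zero_add]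
  rw [hg, h1, Finset.prod_image hinj]

/-! ## the loop -/

open Classical in
/-- one trial -/
private noncomputable def xiStep (I : (ℕ → L) → (ℕ → L)) (N s : ℕ) (g A : ℕ → L)
    (st : (ℕ → L) × (ℕ → L)) (r : ℕ) : (ℕ → L) × (ℕ → L) :=
  if adeg (s + 1) (I (xiH N s g A r)) = s then (I (xiH N s g A r), xiH N s g A r) else st

private theorem xi_loop {N s : ℕ} {g A : ℕ → L} {Z : Finset k} (hm : IsMod s g Z)
    (I : (ℕ → L) → (ℕ → L)) (hI : ∀ H : ℕ → L, (blk (s + 1) (I H) 0).Monic ∧
      InB (gmon s g) (apol s H) 0 ((blk (s + 1) (I H) 0).comp (apol s H) * X ^ 0) ∧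
      ∀ A : L[X], A ≠ 0 → InB (gmon s g) (apol s H) 0 (A.comp (apol s H) * X ^ 0) →
        (blk (s + 1) (I H) 0).natDegree ≤ A.natDegree) (st : (ℕ → L) × (ℕ → L)) (R : ℕ)
    (h : ∃ r < R, Set.InjOn (fun v : k => evz N v (rowA N r A)) Z) :
    ∃ r < R, Set.InjOn (fun v : k => evz N v (rowA N r A)) Z ∧
      (gmon s (iterF R st (fun st r => xiStep I N s g A st r)).1).map (algebraMap L k) =
        ∏ v ∈ Z, (X - C (evz N v (rowA N r A))) ∧
      ∀ v ∈ Z, evz s v (iterF R st (fun st r => xiStep I N s g A st r)).2 =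
        evz N v (rowA N r A) := by
  induction R with
  | zero =>
    obtain ⟨r, hr, _⟩ := h
    exact absurd hr (Nat.not_lt_zero r)
  | succ R ih =>
    rw [iterF_succ]
    obtain ⟨h1, h2⟩ := xi_block (k := k) hm (hI (xiH N s g A R)).1 (hI (xiH N s g A R)).2.1
      (hI (xiH N s g A R)).2.2
    have hinj : Set.InjOn (fun v : k => evz s v (xiH N s g A R)) Z ↔
        Set.InjOn (fun v : k => evz N v (rowA N R A)) Z :=
      Set.EqOn.injOn_iff fun v hv => xi_H hm A R hv
    unfold xiStep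
    by_cases hd : adeg (s + 1) (I (xiH N s g A R)) = s
    · rw [if_pos hd]
      refine ⟨R, Nat.lt_succ_self R, hinj.1 (h1.1 hd), ?_, fun v hv => xi_H hm A R hv⟩
      dsimp only
      rw [h2 hd]
      exact Finset.prod_congr rfl fun v hv => by rw [xi_H hm A R hv]
    · rw [if_neg hd]
      obtain ⟨r, hr, hr1⟩ := h
      have hne : r ≠ R := by
        rintro rfl
        exact hd (h1.2 (hinj.2 hr1))
      obtain ⟨r', hr', h3⟩ := ih ⟨r, by omega, hr1⟩
      exact ⟨r', by omega, h3⟩

end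

/-! ## the program -/

theorem leafB_rlz :
    ∃ F : Fam (.prod .nat (.prod .nat (.prod .nat (.prod .arr .arr)))) (.prod .arr .arr),
    RlzQ F (fun _ _ x => (x.2.1 + 1) * ((x.2.2.1 + 1) ^ 3 + x.1 + 1)) ∧
    ∀ (L : Type) [Field L] (k : Type) [Field k] [Algebra L k] (N R s : ℕ) (g A : ℕ → L)
      (Z : Finset k), IsMod s g Z →
      (∃ r < R, Set.InjOn (fun v : k => evz N v (rowA N r A)) Z) →
      ∃ r < R, Set.InjOn (fun v : k => evz N v (rowA N r A)) Z ∧
        (gmon s (F L (N, (R, (s, (g, A))))).1).map (algebraMap L k) =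
          ∏ v ∈ Z, (X - C (evz N v (rowA N r A))) ∧
        ∀ v ∈ Z, evz s v (F L (N, (R, (s, (g, A))))).2 = evz N v (rowA N r A) := by
  obtain ⟨I, hI, hIs⟩ := inv_rlz
  refine ⟨fun K _ x => iterF (x.2.1 : ℕ) ((x.2.2.2.1, x.2.2.2.1) : (ℕ → K) × (ℕ → K))
    (fun st r => xiStep (fun H => I K (x.2.2.1, (x.2.2.2.1, H))) x.1 x.2.2.1 x.2.2.2.1
      x.2.2.2.2 st r), ?_, ?_⟩
  · -- the reduced row: input `(x, st), r`
    have e0 : RlzQ (a := .prod (.prod (.prod .nat (.prod .nat (.prod .nat (.prod .arr .arr))))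
        (.prod .arr .arr)) .nat) (fun _ _ x => x) (fun _ _ _ => 0) := RlzQ.input
    have ex := RlzQ.fst (RlzQ.fst e0)
    have eN := RlzQ.fst ex
    have es := RlzQ.fst (RlzQ.snd (RlzQ.snd ex))
    have eg := RlzQ.fst (RlzQ.snd (RlzQ.snd (RlzQ.snd ex)))
    have eA := RlzQ.snd (RlzQ.snd (RlzQ.snd (RlzQ.snd ex)))
    have hH := RlzQ.redmod eN es eg (RlzQ.blkA eN (RlzQ.snd e0) eA)
    -- the block
    have f0 : RlzQ (a := .prod (.prod (.prod (.prod .nat (.prod .nat (.prod .nat
        (.prod .arr .arr)))) (.prod .arr .arr)) .nat) .arr) (fun _ _ x => x)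
        (fun _ _ _ => 0) := RlzQ.input
    have fx := RlzQ.fst (RlzQ.fst (RlzQ.fst f0))
    have hS := RlzQ.comp hI (RlzQ.pair (RlzQ.fst (RlzQ.snd (RlzQ.snd fx)))
      (RlzQ.pair (RlzQ.fst (RlzQ.snd (RlzQ.snd (RlzQ.snd fx)))) (RlzQ.snd f0)))
    -- the choice
    have g0 : RlzQ (a := .prod (.prod (.prod (.prod (.prod .nat (.prod .nat (.prod .nat
        (.prod .arr .arr)))) (.prod .arr .arr)) .nat) .arr) .arr) (fun _ _ x => x)
        (fun _ _ _ => 0) := RlzQ.input
    have gs := RlzQ.fst (RlzQ.snd (RlzQ.snd (RlzQ.fst (RlzQ.fst (RlzQ.fst (RlzQ.fst g0))))))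
    have hite := RlzQ.iteEq (RlzQ.adeg (RlzQ.add gs (RlzQ.lit 1)) (RlzQ.snd g0)) gs
      (RlzQ.pair (RlzQ.snd g0) (RlzQ.snd (RlzQ.fst g0)))
      (RlzQ.snd (RlzQ.fst (RlzQ.fst (RlzQ.fst g0))))
    have h1 := RlzQ.comp hite (RlzQ.pair f0 hS)
    have h2 := RlzQ.comp h1 (RlzQ.pair e0 hH)
    have hbody : RlzQ (a := .prod (.prod (.prod .nat (.prod .nat (.prod .nat (.prod .arr .arr))))
        (.prod .arr .arr)) .nat) (b := .prod .arr .arr)
        (fun K _ x => xiStep (fun H => I K (x.1.1.2.2.1, (x.1.1.2.2.2.1, H))) x.1.1.1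
          x.1.1.2.2.1 x.1.1.2.2.2.1 x.1.1.2.2.2.2 x.1.2 x.2)
        (fun _ _ x => (x.1.1.2.2.1 + 1) ^ 3 + x.1.1.1) := by
      refine (h2.congr (fun K _ x => ?_)).mono 8 (fun K _ x => ?_)
      · unfold xiStep xiH
        rfl
      · simp only [add_zero, ite_self, zero_add]
        have key : ∀ n s : ℕ, n + n + s + ((s + 1) ^ 3 + (s + 1)) ≤
            8 * ((s + 1) ^ 3 + n + 1) := by
          intro n s
          nlinarith [Nat.zero_le (s * s * s), Nat.zero_le (s * s)]
        exact key _ _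
    have hx0 : RlzQ (a := .prod .nat (.prod .nat (.prod .nat (.prod .arr .arr))))
        (fun _ _ x => x) (fun _ _ _ => 0) := RlzQ.input
    have hg0 := RlzQ.fst (RlzQ.snd (RlzQ.snd (RlzQ.snd hx0)))
    have hloop := RlzQ.iter (a := .prod .nat (.prod .nat (.prod .nat (.prod .arr .arr))))
      (b := .prod .arr .arr)
      (f := fun K _ x st r => xiStep (fun H => I K (x.2.2.1, (x.2.2.2.1, H))) x.1 x.2.2.1
        x.2.2.2.1 x.2.2.2.2 st r) (RlzQ.fst (RlzQ.snd hx0)) (RlzQ.pair hg0 hg0) hbody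
    refine (hloop.congr (fun K _ x => rfl)).mono 4 (fun K _ x => ?_)
    simp only [add_zero, zero_add, Finset.sum_const, Finset.card_range, smul_eq_mul]
    have key : ∀ n c R : ℕ, R + R * (c + n) ≤ 4 * ((R + 1) * (c + n + 1) + 1) := by
      intro n c R
      have h1 : (R + 1) * (c + n + 1) = R * (c + n) + R + (c + n) + 1 := by ring
      omega
    exact key _ _ _
  · intro L _ k _ _ N R s g A Z hm h
    refine xi_loop hm (fun H => I L (s, (g, H))) (fun H => ?_) (g, g) R h
    exact (hIs L s g H).1 0 (Nat.zero_le s)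

end Pool.Agent.AbsIrr
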