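import Mathlib
import Pool.Agent.Lib.MP_2adc98_lc.XDefs
import Pool.Agent.Lib.MP_2adc98_lc.XA2
import Pool.Agent.Lib.MP_2adc98_lc.FL

/-!
# MP_2adc98_lc, stage 3, piece XJ: the coefficients as polynomials in the generator
-/

set_option autoImplicit false
set_option linter.unusedVariables false

namespace Pool.Agent.AbsIrr

open Finset Polynomial

/-! ## evaluation -/

section
variable {L : Type} [Field L] {k : Type} [Field k] [Algebra L k]

private theorem xj_apol_coeff (n : ℕ) (A : ℕ → L) (i : ℕ) :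
    (apol n A).coeff i = if i < n then A i else 0 := by
  unfold apol
  rw [finsetSum_coeff]
  simp only [coeff_monomial]
  rw [sum_ite_eq' (range n) i]
  simp

private theorem xj_apol_degree (n : ℕ) (A : ℕ → L) : (apol n A).degree < (n : WithBot ℕ) := by
  rw [degree_lt_iff_coeff_zero]
  intro m hm
  rw [xj_apol_coeff, if_neg (by omega)]

private theorem xj_gmon_monic (n : ℕ) (g : ℕ → L) : (gmon n g).Monic := by
  unfold gmon
  exact monic_X_pow_add (xj_apol_degree n g)

private theorem xj_gmon_degree (n : ℕ) (g : ℕ → L) : (gmon n g).degree = (n : WithBot ℕ) := by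
  unfold gmon
  rw [degree_add_eq_left_of_degree_lt]
  · exact degree_X_pow n
  · rw [degree_X_pow]
    exact xj_apol_degree n g

private theorem xj_apol_mod (n : ℕ) (g : ℕ → L) (P : L[X]) :
    apol n (tabF n (fun i => (P %ₘ gmon n g).coeff i)) = P %ₘ gmon n g := by
  ext i
  rw [xj_apol_coeff]
  by_cases hi : i < n
  · rw [if_pos hi]
    simp [tabF, hi]
  · rw [if_neg hi]
    have h1 := degree_modByMonic_lt P (xj_gmon_monic n g)
    rw [xj_gmon_degree] at h1
    exact (coeff_eq_zero_of_degree_lt (h1.trans_le (by exact_mod_cast not_lt.1 hi))).symm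

private theorem xj_evz_apol (n : ℕ) (v : k) (A : ℕ → L) : evz n v A = aeval v (apol n A) := by
  unfold evz apol
  rw [map_sum]
  exact sum_congr rfl fun i _ => (aeval_monomial ..).symm

private theorem xj_root {n : ℕ} {g : ℕ → L} {Z : Finset k} (h : IsMod n g Z) {v : k}
    (hv : v ∈ Z) : aeval v (gmon n g) = 0 := by
  have h1 : aeval v (gmon n g) = eval v ((gmon n g).map (algebraMap L k)) := by
    rw [aeval_def, eval₂_eq_eval_map]
  rw [h1, h, eval_prod]
  exact prod_eq_zero hv (by simp)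

private theorem xj_card {N : ℕ} {Q : ℕ → L} {Z : Finset k} (hZ : IsMod N Q Z) :
    Z.card = N := by
  unfold IsMod at hZ
  have h1 := congrArg natDegree hZ
  rw [natDegree_map, natDegree_eq_of_degree_eq_some (xj_gmon_degree N Q),
    natDegree_finsetProd_X_sub_C_eq_card] at h1
  exact h1.symm

/-- evaluation of a remainder at a root of the modulus -/
private theorem xj_evz_mod {n : ℕ} {g : ℕ → L} {v : k} (hv : aeval v (gmon n g) = 0)
    (P : L[X]) : evz n v (tabF n (fun i => (P %ₘ gmon n g).coeff i)) = aeval v P := by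
  rw [xj_evz_apol, xj_apol_mod]
  have h1 := congrArg (aeval v) (modByMonic_add_div P (gmon n g))
  rw [map_add, map_mul, hv, zero_mul, add_zero] at h1
  exact h1

private theorem xj_evz_powmod {n : ℕ} {g : ℕ → L} {v : k} (hv : aeval v (gmon n g) = 0)
    (E : ℕ) (A : ℕ → L) : evz n v (powmod n E g A) = evz n v A ^ E := by
  unfold powmod
  rw [xj_evz_mod hv, map_pow, ← xj_evz_apol]

/-- a combination of rows -/
private theorem xj_comb (s : ℕ) (U c w : ℕ → L) (v : k)
    (h : ∀ i < s, w i = ∑ j ∈ range s, c j * U (j * s + i)) :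
    evz s v w = ∑ j ∈ range s, algebraMap L k (c j) * evz s v (rowA s j U) := by
  have h1 : ∀ i ∈ range s, algebraMap L k (w i) * v ^ i =
      ∑ j ∈ range s, algebraMap L k (c j) * (algebraMap L k (U (j * s + i)) * v ^ i) := by
    intro i hi
    rw [h i (mem_range.1 hi), map_sum, sum_mul]
    exact sum_congr rfl fun j _ => by rw [map_mul]; ring
  unfold evz rowA
  rw [sum_congr rfl h1, sum_comm]
  exact sum_congr rfl fun j _ => by rw [mul_sum]

/-- the powers of a generator are a basis -/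
private theorem xj_basis {s : ℕ} {g a U : ℕ → L} {Z : Finset k} (hZ : IsMod s g Z)
    (ha : Set.InjOn (fun v : k => evz s v a) Z)
    (hU : ∀ j < s, ∀ v ∈ Z, evz s v (rowA s j U) = evz s v a ^ j) (w : ℕ → L) :
    ∃ c : ℕ → L, ∀ i < s, w i = ∑ j ∈ range s, c j * U (j * s + i) := by
  classical
  have hdet : (matOf s s U).det ≠ 0 := by
    intro hdet
    obtain ⟨c, hc0, hc⟩ := Matrix.exists_vecMul_eq_zero_iff.2 hdet
    apply hc0
    set c' : ℕ → L := fun j => if h : j < s then c ⟨j, h⟩ else 0 with hc'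
    have h1 : ∀ i < s, (fun _ => (0 : L)) i = ∑ j ∈ range s, c' j * U (j * s + i) := by
      intro i hi
      have h2 := congrFun hc ⟨i, hi⟩
      rw [Matrix.vecMul_eq_sum] at h2
      simp only [Finset.sum_apply, Pi.smul_apply, smul_eq_mul, Pi.zero_apply] at h2
      rw [Finset.sum_range, ← h2]
      refine sum_congr rfl fun j _ => ?_
      rw [hc']
      simp only [Fin.is_lt, dif_pos]
      rfl
    have h2 : (apol s c').map (algebraMap L k) = 0 := by
      have hcard : (Z.image fun v : k => evz s v a).card = s := by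
        rw [card_image_of_injOn ha, xj_card hZ]
      refine eq_zero_of_degree_lt_of_eval_finset_eq_zero (Z.image fun v : k => evz s v a) ?_ ?_
      · rw [degree_map, hcard]
        exact xj_apol_degree s c'
      · intro y hy
        obtain ⟨v, hv, rfl⟩ := mem_image.1 hy
        have h3 := xj_comb s U c' (fun _ => (0 : L)) v h1
        have h4 : evz s v (fun _ => (0 : L)) = 0 := by
          unfold evz
          exact sum_eq_zero fun i _ => by rw [map_zero, zero_mul]
        rw [h4] at h3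
        rw [← eval₂_eq_eval_map, ← aeval_def, ← xj_evz_apol, h3]
        unfold evz
        refine sum_congr rfl fun j hj => ?_
        have h5 := hU j (mem_range.1 hj) v hv
        unfold evz at h5
        rw [h5]
    have h3 : apol s c' = 0 := (Polynomial.map_eq_zero _).1 h2
    funext j
    have h4 := congrArg (fun P => P.coeff (j : ℕ)) h3
    simp only [xj_apol_coeff, coeff_zero] at h4
    rw [if_pos j.2, hc'] at h4
    simpa using h4
  have hunit : IsUnit (matOf s s U).det := isUnit_iff_ne_zero.2 hdet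
  set w' : Fin s → L := fun i => w i with hw'
  set c : Fin s → L := Matrix.vecMul w' (matOf s s U)⁻¹ with hc
  have h1 : Matrix.vecMul c (matOf s s U) = w' := by
    rw [hc, Matrix.vecMul_vecMul, Matrix.nonsing_inv_mul _ hunit, Matrix.vecMul_one]
  refine ⟨fun j => if h : j < s then c ⟨j, h⟩ else 0, fun i hi => ?_⟩
  have h2 := congrFun h1 ⟨i, hi⟩
  rw [Matrix.vecMul_eq_sum] at h2
  simp only [Finset.sum_apply, Pi.smul_apply, smul_eq_mul] at h2
  have h3 : w i = w' ⟨i, hi⟩ := rfl
  rw [h3, ← h2, Finset.sum_range]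
  refine sum_congr rfl fun j _ => ?_
  simp only [Fin.is_lt, dif_pos]
  rfl

end

/-! ## routines -/

/-- the table of the powers -/
private noncomputable def xjRows {K : Type} [Field K] (s : ℕ) (g a : ℕ → K) : ℕ → K :=
  tabF (s * s) (fun n => powmod s (n / s) g a (n % s))

private theorem xjRows_rlz : RlzQ (a := .prod .nat (.prod .arr .arr)) (b := .arr)
    (fun K _ x => xjRows (K := K) x.1 x.2.1 x.2.2) (fun _ _ x => (x.1 + 1) ^ 3) := by
  have e0 : RlzQ (a := .prod (.prod .nat (.prod .arr .arr)) .nat)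
      (b := .prod .nat (.prod .arr .arr)) (fun _ _ x => x.1) (fun _ _ _ => 0) :=
    RlzQ.fst RlzQ.input
  have ej : RlzQ (a := .prod (.prod .nat (.prod .arr .arr)) .nat)
      (b := .nat) (fun _ _ x => x.2) (fun _ _ _ => 0) := RlzQ.snd RlzQ.input
  have hrow := RlzQ.powmod (RlzQ.fst e0) ej (RlzQ.fst (RlzQ.snd e0)) (RlzQ.snd (RlzQ.snd e0))
  have hN : RlzQ (a := .prod .nat (.prod .arr .arr)) (b := .nat) (fun _ _ x => x.1)
      (fun _ _ _ => 0) := RlzQ.fst RlzQ.input
  have h := rows_rlz hN hN hrow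
  refine (h.congr (fun K _ x => rfl)).mono 8 (fun K _ x => ?_)
  simp only [add_zero, zero_add]
  have key : ∀ n : ℕ, ∑ i ∈ range n, (n + i) + n * n * (n + 1) ≤ 8 * ((n + 1) ^ 3 + 1) := by
    intro n
    have h1 : ∑ i ∈ range n, (n + i) ≤ ∑ i ∈ range n, (n + n) :=
      sum_le_sum fun i hi => by have := mem_range.1 hi; omega
    rw [sum_const, card_range, smul_eq_mul] at h1
    nlinarith [Nat.zero_le (n * n * n), Nat.zero_le (n * n)]
  exact key _

/-- the class of `z` -/
private noncomputable def xjZ {K : Type} [Field K] (s : ℕ) (g : ℕ → K) : ℕ → K :=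
  tabF s (fun i => (apol 2 (tabF 2 (fun i => if i = 1 then (1 : K) else 0)) %ₘ gmon s g).coeff i)

private theorem xjZ_rlz : RlzQ (a := .prod .nat .arr) (b := .arr)
    (fun K _ x => xjZ (K := K) x.1 x.2) (fun _ _ x => (x.1 + 1) ^ 3) := by
  have hf : RlzQ (a := .prod (.prod .nat .arr) .nat) (b := .fld)
      (fun K _ x => if (x.2 : ℕ) = 1 then (1 : K) else (0 : K)) (fun _ _ _ => 0) :=
    (RlzQ.iteEq (RlzQ.snd RlzQ.input) (RlzQ.lit 1) RlzQ.one RlzQ.zero).mono 1
      (fun K _ x => by simp)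
  have hx : RlzQ (a := .prod .nat .arr) (b := .arr)
      (fun K _ _ => tabF 2 (fun i => if i = 1 then (1 : K) else 0)) (fun _ _ _ => 0) :=
    (RlzQ.tab (a := .prod .nat .arr) (N := fun _ _ _ => 2)
      (f := fun _K _ _ i => if (i : ℕ) = 1 then (1 : _K) else (0 : _K)) (RlzQ.lit 2) hf).mono 2
      (fun K _ x => by simp)
  have h := RlzQ.redmod (a := .prod .nat .arr) (W := fun _ _ _ => 2) (RlzQ.lit 2)
    (RlzQ.fst RlzQ.input) (RlzQ.snd RlzQ.input) hx
  refine (h.congr (fun K _ x => rfl)).mono 3 (fun K _ x => ?_)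
  simp only [add_zero, zero_add]
  have key : ∀ n : ℕ, 2 + n ≤ 3 * ((n + 1) ^ 3 + 1) := by
    intro n
    have : n + 1 ≤ (n + 1) ^ 3 := Nat.le_self_pow (by norm_num) _
    omega
  exact key _

private def xjNeg {K : Type} [Field K] (s : ℕ) (A : ℕ → K) : ℕ → K := tabF s (fun j => - A j)

private theorem xjNeg_rlz : RlzQ (a := .prod .nat .arr) (b := .arr)
    (fun K _ x => xjNeg (K := K) x.1 x.2) (fun _ _ x => (x.1 + 1) ^ 3) := by
  have hf : RlzQ (a := .prod (.prod .nat .arr) .nat) (b := .fld)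
      (fun K _ x => - (x.1.2 : ℕ → K) x.2) (fun _ _ _ => 0) :=
    (RlzQ.fneg (RlzQ.get (RlzQ.snd (RlzQ.fst RlzQ.input)) (RlzQ.snd RlzQ.input))).mono 1
      (fun K _ x => by simp)
  have h := RlzQ.tab (a := .prod .nat .arr) (N := fun _ _ x => x.1)
    (f := fun K _ x j => (- (x.2 : ℕ → K) j : K)) (RlzQ.fst RlzQ.input) hf
  refine (h.congr (fun K _ x => rfl)).mono 1 (fun K _ x => ?_)
  simp only [Finset.sum_const_zero, add_zero, zero_add]
  have key : ∀ n : ℕ, n ≤ 1 * ((n + 1) ^ 3 + 1) := by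
    intro n
    have : n + 1 ≤ (n + 1) ^ 3 := Nat.le_self_pow (by norm_num) _
    omega
  exact key _

private def xjComb {K : Type} [Field K] (B s : ℕ) (G T : ℕ → K) : ℕ → K :=
  tabF (B * s) (fun n => ∑ l ∈ range s, G (n / s * s + l) * T (l * s + n % s))

private theorem xjComb_rlz : RlzQ (a := .prod .nat (.prod .nat (.prod .arr .arr))) (b := .arr)
    (fun K _ x => xjComb (K := K) x.1 x.2.1 x.2.2.1 x.2.2.2)
    (fun _ _ x => (x.1 + 1) * (x.2.1 + 1) ^ 2) := by
  have f0 : RlzQ (a := .prod (.prod (.prod .nat (.prod .nat (.prod .arr .arr))) .nat) .nat)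
      (b := .prod .nat (.prod .nat (.prod .arr .arr))) (fun _ _ x => x.1.1) (fun _ _ _ => 0) :=
    RlzQ.fst (RlzQ.fst RlzQ.input)
  have fn : RlzQ (a := .prod (.prod (.prod .nat (.prod .nat (.prod .arr .arr))) .nat) .nat)
      (b := .nat) (fun _ _ x => x.1.2) (fun _ _ _ => 0) := RlzQ.snd (RlzQ.fst RlzQ.input)
  have fl : RlzQ (a := .prod (.prod (.prod .nat (.prod .nat (.prod .arr .arr))) .nat) .nat)
      (b := .nat) (fun _ _ x => x.2) (fun _ _ _ => 0) := RlzQ.snd RlzQ.input
  have fs := RlzQ.fst (RlzQ.snd f0)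
  have fG := RlzQ.fst (RlzQ.snd (RlzQ.snd f0))
  have fT := RlzQ.snd (RlzQ.snd (RlzQ.snd f0))
  have hsum := RlzQ.sum (a := .prod (.prod .nat (.prod .nat (.prod .arr .arr))) .nat)
    (N := fun _ _ x => x.1.2.1)
    (f := fun K _ x l => ((x.1.2.2.1 : ℕ → K) (x.2 / x.1.2.1 * x.1.2.1 + l) *
      (x.1.2.2.2 : ℕ → K) (l * x.1.2.1 + x.2 % x.1.2.1) : K))
    (RlzQ.fst (RlzQ.snd (RlzQ.fst RlzQ.input)))
    (RlzQ.fmul (RlzQ.get fG (RlzQ.add (RlzQ.mul (RlzQ.div fn fs) fs) fl))
      (RlzQ.get fT (RlzQ.add (RlzQ.mul fl fs) (RlzQ.mod fn fs))))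
  have g0 : RlzQ (a := .prod .nat (.prod .nat (.prod .arr .arr)))
      (b := .prod .nat (.prod .nat (.prod .arr .arr))) (fun _ _ x => x) (fun _ _ _ => 0) :=
    RlzQ.input
  have htab := RlzQ.tab (a := .prod .nat (.prod .nat (.prod .arr .arr)))
    (N := fun _ _ x => (x.1 : ℕ) * (x.2.1 : ℕ))
    (f := fun K _ x n => ∑ l ∈ range x.2.1, ((x.2.2.1 : ℕ → K) (n / x.2.1 * x.2.1 + l) *
      (x.2.2.2 : ℕ → K) (l * x.2.1 + n % x.2.1) : K))
    (RlzQ.mul (RlzQ.fst g0) (RlzQ.fst (RlzQ.snd g0))) hsum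
  refine (htab.congr (fun K _ x => rfl)).mono 4 (fun K _ x => ?_)
  simp only [add_zero, zero_add, Finset.sum_const_zero, Finset.sum_const, Finset.card_range,
    smul_eq_mul]
  have key : ∀ B n : ℕ, B * n + B * n * n ≤ 4 * ((B + 1) * (n + 1) ^ 2 + 1) := by
    intro B n
    have : (B + 1) * (n + 1) ^ 2 = B * n * n + 2 * (B * n) + B + (n + 1) ^ 2 := by ring
    rw [this]
    omega
  exact key _ _

/-- **XJ.**  The coefficients as polynomials in the generator. -/
theorem leafC_rlz :
    ∃ F : Fam (.prod .nat (.prod .nat (.prod .arr (.prod .arr .arr)))) .arr,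
    RlzQ F (fun _ _ x => (x.1 + 1) * (x.2.1 + 1) ^ 2 + (x.2.1 + 1) ^ 3) ∧
    ∀ (L : Type) [Field L] (k : Type) [Field k] [Algebra L k] (B s : ℕ) (g a G : ℕ → L)
      (Z : Finset k), IsMod s g Z → Set.InjOn (fun v : k => evz s v a) Z →
      ∀ e < B, ∀ v ∈ Z, dv s (evz s v a) (F L (B, (s, (g, (a, G))))) e = dv s v G e := by
  obtain ⟨FS, hFS, hspec⟩ := span_solve
  refine ⟨fun K _ x => xjComb (K := K) x.1 x.2.1 x.2.2.2.2 (xjRows x.2.1
    (xjNeg x.2.1 (FS K (x.2.1, (x.2.1, (xjRows x.2.1 x.2.2.1 x.2.2.2.1,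
      powmod x.2.1 x.2.1 x.2.2.1 x.2.2.2.1)))))
    (FS K (x.2.1, (x.2.1, (xjRows x.2.1 x.2.2.1 x.2.2.2.1, xjZ x.2.1 x.2.2.1))))), ?_, ?_⟩
  · have e0 : RlzQ (a := .prod .nat (.prod .nat (.prod .arr (.prod .arr .arr))))
        (fun _ _ x => x) (fun _ _ _ => 0) := RlzQ.input
    have eB := RlzQ.fst e0
    have es := RlzQ.fst (RlzQ.snd e0)
    have eg := RlzQ.fst (RlzQ.snd (RlzQ.snd e0))
    have ea := RlzQ.fst (RlzQ.snd (RlzQ.snd (RlzQ.snd e0)))
    have eG := RlzQ.snd (RlzQ.snd (RlzQ.snd (RlzQ.snd e0)))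
    have h1 := RlzQ.comp xjRows_rlz (RlzQ.pair es (RlzQ.pair eg ea))
    have h2 := RlzQ.comp xjZ_rlz (RlzQ.pair es eg)
    have h3 := RlzQ.powmod es es eg ea
    have h4 := RlzQ.comp hFS (RlzQ.pair es (RlzQ.pair es (RlzQ.pair h1 h2)))
    have h5 := RlzQ.comp hFS (RlzQ.pair es (RlzQ.pair es (RlzQ.pair h1 h3)))
    have h6 := RlzQ.comp xjNeg_rlz (RlzQ.pair es h5)
    have h7 := RlzQ.comp xjRows_rlz (RlzQ.pair es (RlzQ.pair h6 h4))
    have h8 := RlzQ.comp xjComb_rlz (RlzQ.pair eB (RlzQ.pair es (RlzQ.pair eG h7)))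
    refine (h8.congr (fun K _ x => rfl)).mono 12 (fun K _ x => ?_)
    simp only [zero_add, add_zero]
    have key : ∀ B n : ℕ, (n + 1) ^ 3 + (n + n) + (n + 1) * (n + 1) ^ 2 + (n + 1) ^ 3 +
        ((n + 1) ^ 3 + (n + 1) ^ 3 + (n + 1) * (n + 1) ^ 2) + (n + 1) ^ 3 +
        (B + 1) * (n + 1) ^ 2 ≤ 12 * ((B + 1) * (n + 1) ^ 2 + (n + 1) ^ 3 + 1) := by
      intro B n
      have h9 : n + 1 ≤ (n + 1) ^ 3 := Nat.le_self_pow (by norm_num) _
      have h10 : (n + 1) * (n + 1) ^ 2 = (n + 1) ^ 3 := by ring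
      rw [h10]
      omega
    exact key _ _
  · intro L _ k _ _ B s g a G Z hZ ha e he v hv
    obtain ⟨U, hU⟩ : ∃ U, U = xjRows s g a := ⟨_, rfl⟩
    obtain ⟨ζ, hζ⟩ : ∃ ζ, ζ = FS L (s, (s, (U, xjZ s g))) := ⟨_, rfl⟩
    obtain ⟨θ, hθ⟩ : ∃ θ, θ = FS L (s, (s, (U, powmod s s g a))) := ⟨_, rfl⟩
    obtain ⟨T, hT⟩ : ∃ T, T = xjRows s (xjNeg s θ) ζ := ⟨_, rfl⟩
    show dv s (evz s v a) (xjComb B s G (xjRows s (xjNeg s (FS L (s, (s, (xjRows s g a,
      powmod s s g a))))) (FS L (s, (s, (xjRows s g a, xjZ s g)))))) e = _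
    rw [← hU, ← hζ, ← hθ, ← hT]
    have hs0 : 0 < s := by rw [← xj_card hZ]; exact card_pos.2 ⟨v, hv⟩
    -- rows
    have hrow : ∀ (g' a' : ℕ → L) (j : ℕ), j < s → ∀ y : k,
        evz s y (rowA s j (xjRows s g' a')) = evz s y (powmod s j g' a') := by
      intro g' a' j hj y
      unfold evz
      refine sum_congr rfl fun i hi => ?_
      have hi' := mem_range.1 hi
      have e1 : (j * s + i) % s = i := by
        rw [mul_comm, Nat.mul_add_mod, Nat.mod_eq_of_lt hi']
      have e2 : (j * s + i) / s = j := by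
        rw [mul_comm, Nat.mul_add_div hs0, Nat.div_eq_of_lt hi', add_zero]
      have e3 : j * s + i < s * s := by
        calc j * s + i < j * s + s := by omega
          _ = (j + 1) * s := by ring
          _ ≤ s * s := Nat.mul_le_mul_right _ hj
      have e4 : rowA s j (xjRows s g' a') i = powmod s j g' a' i := by
        unfold rowA xjRows
        conv_lhs => unfold tabF
        rw [if_pos e3]
        beta_reduce
        rw [e1, e2]
      rw [e4]
    have hUv : ∀ j < s, ∀ v ∈ Z, evz s v (rowA s j U) = evz s v a ^ j := by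
      intro j hj v hv
      rw [hU, hrow g a j hj v, xj_evz_powmod (xj_root hZ hv)]
    have hb := xj_basis hZ ha hUv
    have hζs := hspec L s s U (xjZ s g) (hb _)
    have hθs := hspec L s s U (powmod s s g a) (hb _)
    rw [← hζ] at hζs
    rw [← hθ] at hθs
    have hev : ∀ c : ℕ → L, evz s (evz s v a) c =
        ∑ j ∈ range s, algebraMap L k (c j) * evz s v (rowA s j U) := by
      intro c
      have h3 : evz s (evz s v a) c = ∑ j ∈ range s, algebraMap L k (c j) * evz s v a ^ j := rfl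
      rw [h3]
      exact sum_congr rfl fun j hj => by rw [hUv j (mem_range.1 hj) v hv]
    have hζv : evz s (evz s v a) ζ = v := by
      have h1 := xj_comb s U ζ (xjZ s g) v hζs
      have h2 : evz s v (xjZ s g) = v := by
        unfold xjZ
        rw [xj_evz_mod (xj_root hZ hv), ← xj_evz_apol]
        simp [evz, Finset.sum_range_succ, tabF]
      rw [h2] at h1
      rw [hev, ← h1]
    have hθv : evz s (evz s v a) θ = evz s v a ^ s := by
      have h1 := xj_comb s U θ (powmod s s g a) v hθs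
      rw [xj_evz_powmod (xj_root hZ hv)] at h1
      rw [hev, ← h1]
    have hq : aeval (evz s v a) (gmon s (xjNeg s θ)) = 0 := by
      have h1 : gmon s (xjNeg s θ) = X ^ s + apol s (xjNeg s θ) := rfl
      rw [h1, map_add, map_pow, aeval_X, ← xj_evz_apol, ← hθv]
      unfold evz
      rw [← sum_add_distrib]
      refine sum_eq_zero fun j hj => ?_
      unfold xjNeg tabF
      rw [if_pos (mem_range.1 hj), map_neg]
      ring
    have hTv : ∀ l < s, evz s (evz s v a) (rowA s l T) = v ^ l := by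
      intro l hl
      rw [hT, hrow _ _ l hl, xj_evz_powmod hq, hζv]
    -- the combination
    obtain ⟨y, hy⟩ : ∃ y, y = evz s v a := ⟨_, rfl⟩
    rw [← hy] at hTv ⊢
    unfold dv
    have h1 : ∀ i ∈ range s, algebraMap L k (xjComb B s G T (e * s + i)) * y ^ i =
        ∑ l ∈ range s, algebraMap L k (G (e * s + l)) *
          (algebraMap L k (T (l * s + i)) * y ^ i) := by
      intro i hi
      have hi' := mem_range.1 hi
      have e1 : (e * s + i) % s = i := by
        rw [mul_comm, Nat.mul_add_mod, Nat.mod_eq_of_lt hi']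
      have e2 : (e * s + i) / s = e := by
        rw [mul_comm, Nat.mul_add_div hs0, Nat.div_eq_of_lt hi', add_zero]
      have e3 : e * s + i < B * s := by
        calc e * s + i < e * s + s := by omega
          _ = (e + 1) * s := by ring
          _ ≤ B * s := Nat.mul_le_mul_right _ he
      have e4 : xjComb B s G T (e * s + i) =
          ∑ l ∈ range s, G (e * s + l) * T (l * s + i) := by
        unfold xjComb tabF
        rw [if_pos e3]
        beta_reduce
        rw [e1, e2]
      rw [e4, map_sum, sum_mul]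
      exact sum_congr rfl fun l _ => by rw [map_mul]; ring
    rw [sum_congr rfl h1, sum_comm]
    refine sum_congr rfl fun l hl => ?_
    rw [← mul_sum]
    congr 1
    exact hTv l (mem_range.1 hl)

end Pool.Agent.AbsIrr
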