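import Mathlib

/-!
# MP_2adc98_lc, piece XL: extensions of moderate size
-/

set_option autoImplicit false

namespace Pool.Agent.AbsIrr

open Finset Polynomial

theorem exists_ext (C₀ : ℕ) : ∃ C, ∀ (K : Type) [Field K] [Finite K] (d : ℕ),
    1 ≤ d → Nat.card K < C₀ * d ^ 2 →
    ∃ (L : Type) (_ : Field L) (_ : Algebra K L) (_ : FiniteDimensional K L),
      C₀ * d ^ 2 ≤ Nat.card L ∧ Nat.card L ≤ (C₀ * d ^ 2) ^ 2 ∧
        Module.finrank K L ≤ C * (Nat.log 2 d + 1) := by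
  refine ⟨Nat.log 2 C₀ + 3, ?_⟩
  intro K _ _ d _ hK
  have := Fintype.ofFinite K
  obtain ⟨p, hcp⟩ := CharP.exists K
  have := hcp
  have : Fact p.Prime := ⟨(CharP.char_is_prime_or_zero K p).resolve_right (by
    intro h0
    subst h0
    have := CharP.charP_to_charZero K
    exact not_finite K)⟩
  set e := (Nat.log 2 C₀ + 1) + 2 * (Nat.log 2 d + 1) with he
  have h1 : 2 ≤ Nat.card K := by
    have := Finite.one_lt_card (α := K)
    omega
  have hex : C₀ * d ^ 2 ≤ Nat.card K ^ e := by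
    have h2 : C₀ ≤ 2 ^ (Nat.log 2 C₀ + 1) := (Nat.lt_pow_succ_log_self (by norm_num) _).le
    have h3 : d ≤ 2 ^ (Nat.log 2 d + 1) := (Nat.lt_pow_succ_log_self (by norm_num) _).le
    calc C₀ * d ^ 2 ≤ 2 ^ (Nat.log 2 C₀ + 1) * (2 ^ (Nat.log 2 d + 1)) ^ 2 :=
          Nat.mul_le_mul h2 (Nat.pow_le_pow_left h3 2)
      _ = 2 ^ e := by rw [he, pow_add _ (Nat.log 2 C₀ + 1), ← pow_mul, mul_comm 2 (Nat.log 2 d + 1)]
      _ ≤ Nat.card K ^ e := Nat.pow_le_pow_left h1 e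
  have hE : ∃ E, C₀ * d ^ 2 ≤ Nat.card K ^ E := ⟨e, hex⟩
  classical
  set E := Nat.find hE with hEdef
  have hE1 : C₀ * d ^ 2 ≤ Nat.card K ^ E := Nat.find_spec hE
  have hEe : E ≤ e := Nat.find_min' hE hex
  have hE0 : E ≠ 0 := by
    intro h0
    rw [h0, pow_zero] at hE1
    omega
  obtain ⟨m, hm⟩ := Nat.exists_eq_succ_of_ne_zero hE0
  have hE2 : Nat.card K ^ m < C₀ * d ^ 2 := by
    have := Nat.find_min hE (m := m) (by omega)
    omega
  have : NeZero E := ⟨hE0⟩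
  have : Algebra (ZMod p) K := ZMod.algebra K p
  refine ⟨FiniteField.Extension K p E, inferInstance, inferInstance, inferInstance, ?_, ?_, ?_⟩
  · rw [FiniteField.natCard_extension]
    exact hE1
  · rw [FiniteField.natCard_extension, hm, Nat.succ_eq_add_one, pow_succ, sq]
    exact Nat.mul_le_mul hE2.le hK.le
  · rw [FiniteField.finrank_extension]
    refine hEe.trans ?_
    nlinarith [Nat.zero_le (Nat.log 2 C₀), Nat.zero_le (Nat.log 2 d),
      Nat.zero_le (Nat.log 2 C₀ * Nat.log 2 d)]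

end Pool.Agent.AbsIrr
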