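import Mathlib
import Pool.Agent.Lib.MP_2adc98_lc.XProg
import Pool.Agent.Lib.MP_2adc98_lc.XA2

/-!
# MP_2adc98_lc, piece XP1: the cost of the computation for an item
-/

set_option autoImplicit false
set_option linter.unusedVariables false

namespace Pool.Agent.AbsIrr

open Finset Polynomial

/-! ### arithmetic -/

private def xG (N D : ℕ) : ℕ := (N + 1) * ((N + 1) ^ 2 + (D + 1) ^ 2)

private theorem xn_sum (N D : ℕ) : (N + 1) ^ 2 ≤ (N + 1) ^ 2 + (D + 1) ^ 2 := Nat.le_add_right _ _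

private theorem xn_one (N D : ℕ) : 1 ≤ (N + 1) ^ 2 + (D + 1) ^ 2 :=
  (Nat.one_le_pow _ _ (by omega)).trans (xn_sum N D)

private theorem xn_N (N D : ℕ) : N + 1 ≤ xG N D := Nat.le_mul_of_pos_right _ (xn_one N D)

private theorem xn_T (T : ℕ) (h : 2 ≤ T) : T ≤ T ^ 3 := Nat.le_self_pow (by norm_num) _

private theorem xn1 (N D : ℕ) : (N + 1) * ((N + 1) ^ 2 + (D + 1) ^ 2 + 1) ≤ 2 * xG N D := by
  unfold xG
  have := xn_one N D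
  calc (N + 1) * ((N + 1) ^ 2 + (D + 1) ^ 2 + 1)
      ≤ (N + 1) * ((N + 1) ^ 2 + (D + 1) ^ 2 + ((N + 1) ^ 2 + (D + 1) ^ 2)) := by gcongr
    _ = _ := by ring

private theorem xn2 (N D T : ℕ) (h : 2 ≤ T) : N ≤ T ^ 3 * xG N D :=
  (Nat.le_succ N).trans ((xn_N N D).trans (Nat.le_mul_of_pos_left _ (by positivity)))

private theorem xn4 (E R l N D : ℕ) : (N + 1) * (l + 1) ≤ (E + R + l + 2) ^ 3 * xG N D := by
  rw [mul_comm]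
  exact Nat.mul_le_mul ((by omega : l + 1 ≤ E + R + l + 2).trans (xn_T _ (by omega))) (xn_N N D)

private theorem xn6 (E R l N D : ℕ) : (N + 1) ^ 3 * (l + 1) ≤ (E + R + l + 2) ^ 3 * xG N D := by
  have e : (N + 1) ^ 3 * (l + 1) = (l + 1) * ((N + 1) * (N + 1) ^ 2) := by ring
  rw [e]
  exact Nat.mul_le_mul ((by omega : l + 1 ≤ E + R + l + 2).trans (xn_T _ (by omega)))
    (Nat.mul_le_mul_left _ (xn_sum N D))

private theorem xn5 (E R l N D : ℕ) : (E + 1) * (N + 1) ^ 2 * (l + 1) ≤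
    (E + R + l + 2) ^ 3 * xG N D := by
  have e : (E + 1) * (N + 1) ^ 2 * (l + 1) = ((E + 1) * (l + 1) * 1) * (1 * (N + 1) ^ 2) := by ring
  have e' : (E + R + l + 2) ^ 3 = (E + R + l + 2) * (E + R + l + 2) * (E + R + l + 2) := by ring
  rw [e, e']
  exact Nat.mul_le_mul (Nat.mul_le_mul (Nat.mul_le_mul (by omega) (by omega)) (by omega))
    (Nat.mul_le_mul (by omega) (xn_sum N D))

private theorem xn7 (E R l N D : ℕ) : (E + 1 + 1) ^ 2 * ((N + 1) * ((N + 1) ^ 2 +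
    (D + 1) ^ 2 + 1)) * (l + 1) ≤ 2 * ((E + R + l + 2) ^ 3 * xG N D) := by
  have h := xn1 N D
  have h1 : (E + 1 + 1) ^ 2 ≤ (E + R + l + 2) ^ 2 := Nat.pow_le_pow_left (by omega) 2
  calc (E + 1 + 1) ^ 2 * ((N + 1) * ((N + 1) ^ 2 + (D + 1) ^ 2 + 1)) * (l + 1)
      ≤ (E + R + l + 2) ^ 2 * (2 * xG N D) * (E + R + l + 2) :=
        Nat.mul_le_mul (Nat.mul_le_mul h1 h) (by omega)
    _ = _ := by ring

private theorem xn8 (E R l g : ℕ) : R * ((E + R + l + 2) ^ 3 * g) ≤ (E + R + l + 2) ^ 4 * g := by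
  calc R * ((E + R + l + 2) ^ 3 * g) ≤ (E + R + l + 2) * ((E + R + l + 2) ^ 3 * g) :=
        Nat.mul_le_mul_right _ (by omega)
    _ = _ := by ring

private theorem xn9 (E R l N D : ℕ) : R * R * (N + 1) ≤ (E + R + l + 2) ^ 4 * xG N D := by
  apply Nat.mul_le_mul _ (xn_N N D)
  have e' : (E + R + l + 2) ^ 4 = (E + R + l + 2) * (E + R + l + 2) * ((E + R + l + 2) ^ 2) := by
    ring
  rw [e']
  calc R * R = R * R * 1 := by ring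
    _ ≤ _ := Nat.mul_le_mul (Nat.mul_le_mul (by omega) (by omega)) (Nat.one_le_pow _ _ (by omega))

private theorem xt1 (N D : ℕ) : (D + 1) ^ 2 * N ≤ xG N D + 1 := by
  unfold xG
  have : (D + 1) ^ 2 * N ≤ (N + 1) * ((N + 1) ^ 2 + (D + 1) ^ 2) := by
    rw [mul_comm]
    exact Nat.mul_le_mul (Nat.le_succ N) (Nat.le_add_left _ _)
  omega
private theorem xt2 (N D : ℕ) : (D + 1) ^ 2 ≤ xG N D + 1 := by
  unfold xG
  have : 1 * (D + 1) ^ 2 ≤ (N + 1) * ((N + 1) ^ 2 + (D + 1) ^ 2) :=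
    Nat.mul_le_mul (by omega) (Nat.le_add_left _ _)
  omega
private theorem xt3 (N D : ℕ) : N ≤ xG N D + 1 := by
  have := xn_N N D
  omega
private theorem xc1 (u a : ℕ) (h : a ≤ u) : u + a ≤ 2 * (u + 1) := by omega
private theorem xc2 (u a : ℕ) (h : a ≤ 2 * u) : u + a ≤ 3 * (u + 1) := by omega
private theorem xc3 (u a b : ℕ) (h : a ≤ u) (h' : b ≤ u) : a + b ≤ 2 * (u + 1) := by omega
private theorem xc4 (u g : ℕ) (h : 0 < u) : g ≤ 1 * (u * g + 1) := by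
  have := Nat.le_mul_of_pos_left g h
  omega

/-! ### selectors -/

private theorem xp1_pr {a b b' : Ty} {F : Fam a b} {G : Fam a b'} {k : CFam a} (hF : RlzQ F k)
    (hG : RlzQ G k) : RlzQ (b := .prod b b') (fun K _ x => (F K x, G K x)) k :=
  (RlzQ.pair hF hG).mono 2 (fun K _ x => by omega)

private theorem xp1_z {a b : Ty} {F : Fam a b} {k : CFam a} (h : RlzQ F (fun _ _ _ => 0)) :
    RlzQ F k := h.mono 0 (fun K _ x => Nat.zero_le _)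

private theorem xp1_x : RlzQ (a := ItIn) (b := ItIn) (fun _ _ x => x) (fun _ _ _ => 0) :=
  RlzQ.input

private theorem xp1_pq : RlzQ (a := ItIn) (b := Pq) (fun _ _ x => x.1) (fun _ _ _ => 0) :=
  RlzQ.fst xp1_x

private theorem xp1_q : RlzQ (a := ItIn) (b := .nat) (fun _ _ x => x.1.1) (fun _ _ _ => 0) :=
  RlzQ.fst xp1_pq

private theorem xp1_M : RlzQ (a := ItIn) (b := .nat) (fun _ _ x => x.1.2.1) (fun _ _ _ => 0) :=
  RlzQ.fst (RlzQ.snd xp1_pq)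

private theorem xp1_l : RlzQ (a := ItIn) (b := .nat) (fun _ _ x => x.1.2.2.1) (fun _ _ _ => 0) :=
  RlzQ.fst (RlzQ.snd (RlzQ.snd xp1_pq))

private theorem xp1_E : RlzQ (a := ItIn) (b := .nat) (fun _ _ x => x.1.2.2.2.1)
    (fun _ _ _ => 0) := RlzQ.fst (RlzQ.snd (RlzQ.snd (RlzQ.snd xp1_pq)))

private theorem xp1_R : RlzQ (a := ItIn) (b := .nat) (fun _ _ x => x.1.2.2.2.2)
    (fun _ _ _ => 0) := RlzQ.snd (RlzQ.snd (RlzQ.snd (RlzQ.snd xp1_pq)))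

private theorem xp1_p : RlzQ (a := ItIn) (b := .nat) (fun _ _ x => x.2.1) (fun _ _ _ => 0) :=
  RlzQ.fst (RlzQ.snd xp1_x)

private theorem xp1_d : RlzQ (a := ItIn) (b := .nat) (fun _ _ x => x.2.2.1) (fun _ _ _ => 0) :=
  RlzQ.fst (RlzQ.snd (RlzQ.snd xp1_x))

private theorem xp1_de : RlzQ (a := ItIn) (b := .nat) (fun _ _ x => x.2.2.2.1)
    (fun _ _ _ => 0) := RlzQ.fst (RlzQ.snd (RlzQ.snd (RlzQ.snd xp1_x)))

private theorem xp1_N : RlzQ (a := ItIn) (b := .nat) (fun _ _ x => x.2.2.2.2.1)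
    (fun _ _ _ => 0) := RlzQ.fst (RlzQ.snd (RlzQ.snd (RlzQ.snd (RlzQ.snd xp1_x))))

private theorem xp1_Q : RlzQ (a := ItIn) (b := .arr) (fun _ _ x => x.2.2.2.2.2.1)
    (fun _ _ _ => 0) := RlzQ.fst (RlzQ.snd (RlzQ.snd (RlzQ.snd (RlzQ.snd (RlzQ.snd xp1_x)))))

private theorem xp1_F : RlzQ (a := ItIn) (b := .arr) (fun _ _ x => x.2.2.2.2.2.2.1)
    (fun _ _ _ => 0) :=
  RlzQ.fst (RlzQ.snd (RlzQ.snd (RlzQ.snd (RlzQ.snd (RlzQ.snd (RlzQ.snd xp1_x))))))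

private theorem xp1_w : RlzQ (a := ItIn) (b := .arr) (fun _ _ x => x.2.2.2.2.2.2.2)
    (fun _ _ _ => 0) :=
  RlzQ.snd (RlzQ.snd (RlzQ.snd (RlzQ.snd (RlzQ.snd (RlzQ.snd (RlzQ.snd xp1_x))))))

/-- `(N + 1) ((N + 1)² + (δ + 1)²)` -/
private def xp1_g : CFam ItIn := fun _ _ x => xG x.2.2.2.2.1 x.2.2.2.1

/-- `E + R + l + 2` -/
private def xp1_T : CFam ItIn := fun _ _ x => x.1.2.2.2.1 + x.1.2.2.2.2 + x.1.2.2.1 + 2

private def xp1_k3 : CFam ItIn := fun K _ x => xp1_T K x ^ 3 * xp1_g K x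

private theorem xp1_g_k3 {b : Ty} {F : Fam ItIn b} (h : RlzQ F xp1_g) : RlzQ F xp1_k3 :=
  h.mono 1 (fun K _ x => xc4 _ _ (Nat.pow_pos (Nat.succ_pos _)))

/-- zero cost of arithmetic on zero cost numbers -/
private theorem xp1_m0 {a : Ty} {F G : Fam a .nat} (hF : RlzQ F (fun _ _ _ => 0))
    (hG : RlzQ G (fun _ _ _ => 0)) : RlzQ (a := a) (b := .nat) (fun K _ x => F K x * G K x)
    (fun _ _ _ => 0) := (RlzQ.mul hF hG).mono 1 (fun _ _ _ => by simp)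

private theorem xp1_a0 {a : Ty} {F G : Fam a .nat} (hF : RlzQ F (fun _ _ _ => 0))
    (hG : RlzQ G (fun _ _ _ => 0)) : RlzQ (a := a) (b := .nat) (fun K _ x => F K x + G K x)
    (fun _ _ _ => 0) := (RlzQ.add hF hG).mono 1 (fun _ _ _ => by simp)

private theorem xp1_d0 {a : Ty} {F G : Fam a .nat} (hF : RlzQ F (fun _ _ _ => 0))
    (hG : RlzQ G (fun _ _ _ => 0)) : RlzQ (a := a) (b := .nat) (fun K _ x => F K x / G K x)
    (fun _ _ _ => 0) := (RlzQ.div hF hG).mono 1 (fun _ _ _ => by simp)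

private theorem xp1_r0 {a : Ty} {F G : Fam a .nat} (hF : RlzQ F (fun _ _ _ => 0))
    (hG : RlzQ G (fun _ _ _ => 0)) : RlzQ (a := a) (b := .nat) (fun K _ x => F K x % G K x)
    (fun _ _ _ => 0) := (RlzQ.mod hF hG).mono 1 (fun _ _ _ => by simp)

private theorem xp1_sq0 {a : Ty} {F : Fam a .nat} (hF : RlzQ F (fun _ _ _ => 0)) :
    RlzQ (a := a) (b := .nat) (fun K _ x => (F K x + 1) ^ 2) (fun _ _ _ => 0) :=
  (xp1_m0 (xp1_a0 hF (RlzQ.lit 1)) (xp1_a0 hF (RlzQ.lit 1))).congr (fun K _ x => (sq _).symm)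

private theorem xp1_get0 {a : Ty} {A : Fam a .arr} {I : Fam a .nat}
    (hA : RlzQ A (fun _ _ _ => 0)) (hI : RlzQ I (fun _ _ _ => 0)) :
    RlzQ (a := a) (b := .fld) (fun K _ x => A K x (I K x)) (fun _ _ _ => 0) :=
  (RlzQ.get hA hI).mono 1 (fun _ _ _ => by simp)

/-- lift to the context with an index -/
private theorem xp1_up {b : Ty} {F : Fam ItIn b} {k : CFam ItIn} (h : RlzQ F k) :
    RlzQ (a := .prod ItIn .nat) (b := b) (fun K _ x => F K x.1) (fun K _ x => k K x.1) :=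
  (RlzQ.comp h (RlzQ.fst RlzQ.input)).mono 1 (fun K _ x => by omega)

private theorem xp1_i : RlzQ (a := .prod ItIn .nat) (b := .nat) (fun _ _ x => x.2)
    (fun _ _ _ => 0) := RlzQ.snd RlzQ.input

private theorem xp1_toE : RlzQ (a := ItIn) (b := .arr)
    (fun _ _ x => toE x.2.2.1 x.2.2.2.1 x.2.2.2.2.1 x.2.2.2.2.2.2.1) xp1_g := by
  unfold toE
  have hn : RlzQ (a := ItIn) (b := .nat) (fun _ _ x => (x.2.2.2.1 + 1) ^ 2 * x.2.2.2.2.1)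
      (fun _ _ _ => 0) := xp1_m0 (xp1_sq0 xp1_de) xp1_N
  have h := RlzQ.tab (a := ItIn) hn
    (f := fun K _ x j => (x.2.2.2.2.2.2.1 ((j % x.2.2.2.2.1 * (x.2.2.1 + 1) +
      j / x.2.2.2.2.1 / (x.2.2.2.1 + 1)) * (x.2.2.1 + 1) + j / x.2.2.2.2.1 % (x.2.2.2.1 + 1)) : K))
    (c := fun _ _ _ => 0)
    (xp1_get0 (xp1_up xp1_F) (xp1_a0 (xp1_m0 (xp1_a0 (xp1_m0 (xp1_r0 xp1_i (xp1_up xp1_N))
      (xp1_a0 (xp1_up xp1_d) (RlzQ.lit 1))) (xp1_d0 (xp1_d0 xp1_i (xp1_up xp1_N))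
      (xp1_a0 (xp1_up xp1_de) (RlzQ.lit 1)))) (xp1_a0 (xp1_up xp1_d) (RlzQ.lit 1)))
      (xp1_r0 (xp1_d0 xp1_i (xp1_up xp1_N)) (xp1_a0 (xp1_up xp1_de) (RlzQ.lit 1)))))
  refine h.mono 1 (fun K _ x => ?_)
  simp only [sum_const_zero, add_zero, zero_add, one_mul]
  exact xt1 _ _

private theorem xp1_iR : RlzQ (a := ItIn) (b := .arr)
    (fun _ _ x => iR x.2.2.2.1 x.2.2.2.2.2.2.2) xp1_g := by
  unfold iR
  have h := RlzQ.tab (a := ItIn) (xp1_sq0 xp1_de)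
    (f := fun K _ x j => (x.2.2.2.2.2.2.2 j : K))
    (c := fun _ _ _ => 0) (xp1_get0 (xp1_up xp1_w) xp1_i)
  refine h.mono 1 (fun K _ x => ?_)
  simp only [sum_const_zero, add_zero, zero_add, one_mul]
  exact xt2 _ _

private theorem xp1_iR' : RlzQ (a := ItIn) (b := .arr)
    (fun _ _ x => iR' x.2.2.1 x.2.2.2.1 x.2.2.2.2.2.2.2) xp1_g := by
  unfold iR'
  have h := RlzQ.tab (a := ItIn) (xp1_sq0 xp1_de)
    (f := fun K _ x j => (x.2.2.2.2.2.2.2 ((x.2.2.1 + 1) ^ 2 + j) : K))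
    (c := fun _ _ _ => 0) (xp1_get0 (xp1_up xp1_w) (xp1_a0 (xp1_up (xp1_sq0 xp1_d)) xp1_i))
  refine h.mono 1 (fun K _ x => ?_)
  simp only [sum_const_zero, add_zero, zero_add, one_mul]
  exact xt2 _ _

private theorem xp1_iS : RlzQ (a := ItIn) (b := .arr)
    (fun _ _ x => iS x.2.2.1 x.2.2.2.2.1 x.2.2.2.2.2.2.2) xp1_g := by
  unfold iS
  have h := RlzQ.tab (a := ItIn) xp1_N
    (f := fun K _ x j => (x.2.2.2.2.2.2.2 (2 * (x.2.2.1 + 1) ^ 2 + j) : K))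
    (c := fun _ _ _ => 0) (xp1_get0 (xp1_up xp1_w)
      (xp1_a0 (xp1_m0 (RlzQ.lit 2) (xp1_up (xp1_sq0 xp1_d))) xp1_i))
  refine h.mono 1 (fun K _ x => ?_)
  simp only [sum_const_zero, add_zero, zero_add, one_mul]
  exact xt3 _ _

private theorem xp1_k3z {b : Ty} {F : Fam ItIn b} (h : RlzQ F (fun _ _ _ => 0)) :
    RlzQ F xp1_k3 := xp1_z h

section
variable {Fvt : Fam TVt .arr} {Fkh : Fam TKh .arr} {Fbt : Fam TBt .arr} {Fra : Fam TRa .arr}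

private theorem xp1_iV
    (hvt : RlzQ Fvt (fun _ _ x => (x.2.2.1 + 1) ^ 2 * ((x.1 + 1) * ((x.1 + 1) ^ 2 + x.2.1 + 1)) *
      (x.2.2.2.2.1 + 1))) :
    RlzQ (a := ItIn) (b := .arr) (fun _ _ x => iV Fvt x.1.1 x.1.2.2.1 x.1.2.2.2.1 x.2.2.1
      x.2.2.2.1 x.2.2.2.2.1 x.2.2.2.2.2.1 x.2.2.2.2.2.2.1 x.2.2.2.2.2.2.2) xp1_k3 := by
  unfold iV
  have hin := xp1_pr (xp1_k3z xp1_N) (xp1_pr (xp1_k3z (xp1_sq0 xp1_de))
    (xp1_pr (xp1_k3z (xp1_a0 xp1_E (RlzQ.lit 1))) (xp1_pr (xp1_k3z xp1_q)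
      (xp1_pr (xp1_k3z xp1_l) (xp1_pr (xp1_k3z xp1_Q) (xp1_pr (xp1_g_k3 xp1_toE)
        (xp1_pr (xp1_g_k3 xp1_iR) (xp1_g_k3 xp1_iR'))))))))
  exact (RlzQ.comp hvt hin).mono 3 (fun K _ x => xc2 _ _ (xn7 _ _ _ _ _))

/-- a row of a table -/
private theorem xp1_row (i : ℕ) {V : Fam ItIn .arr} (hV : RlzQ V xp1_k3) :
    RlzQ (a := ItIn) (b := .arr) (fun K _ x => tabF x.2.2.2.2.1 (rowA x.2.2.2.2.1 i (V K x)))
      xp1_k3 := by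
  have h1 : RlzQ (a := .prod .nat .arr) (b := .arr)
      (fun _ _ x => tabF x.1 (rowA x.1 i x.2)) (fun _ _ x => x.1) := by
    unfold rowA
    have h := RlzQ.tab (a := .prod .nat .arr) (RlzQ.fst RlzQ.input)
      (f := fun K _ x j => (x.2 (i * x.1 + j) : K)) (c := fun _ _ _ => 0)
      (xp1_get0 (RlzQ.snd (RlzQ.fst RlzQ.input)) (xp1_a0 (xp1_m0 (RlzQ.lit i)
        (RlzQ.fst (RlzQ.fst RlzQ.input))) (RlzQ.snd RlzQ.input)))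
    exact h.mono 1 (fun K _ x => by simp)
  exact (RlzQ.comp h1 (xp1_pr (xp1_k3z xp1_N) hV)).mono 2 (fun K _ x =>
    xc1 _ _ (xn2 _ _ _ (Nat.le_add_left 2 _)))

private theorem xp1_iH
    (hvt : RlzQ Fvt (fun _ _ x => (x.2.2.1 + 1) ^ 2 * ((x.1 + 1) * ((x.1 + 1) ^ 2 + x.2.1 + 1)) *
      (x.2.2.2.2.1 + 1)))
    (hkh : RlzQ Fkh (fun _ _ x => (x.1 + 1) ^ 3 * (x.2.2.1 + 1))) :
    RlzQ (a := ItIn) (b := .arr) (fun _ _ x => iH Fvt Fkh x.1.1 x.1.2.2.1 x.1.2.2.2.1 x.2.2.1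
      x.2.2.2.1 x.2.2.2.2.1 x.2.2.2.2.2.1 x.2.2.2.2.2.2.1 x.2.2.2.2.2.2.2) xp1_k3 := by
  unfold iH
  have hin := xp1_pr (xp1_k3z xp1_N) (xp1_pr (xp1_k3z xp1_q) (xp1_pr (xp1_k3z xp1_l)
    (xp1_pr (xp1_k3z xp1_Q) (xp1_pr (xp1_row 0 (xp1_iV hvt)) (xp1_pr (xp1_row 1 (xp1_iV hvt))
      (xp1_g_k3 xp1_iS))))))
  exact (RlzQ.comp hkh hin).mono 2 (fun K _ x => xc1 _ _ (xn6 _ _ _ _ _))

/-- a table of `R` rows of length `N`, each of cost `T³ g` -/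
private theorem xp1_rows {F : Fam (.prod ItIn .nat) .arr}
    (hF : RlzQ F (fun K _ x => xp1_k3 K x.1)) :
    RlzQ (a := ItIn) (b := .arr) (fun K _ x => tabF (x.1.2.2.2.2 * x.2.2.2.2.1) (fun j =>
      F K (x, j / x.2.2.2.2.1) (j % x.2.2.2.2.1))) (fun K _ x => xp1_T K x ^ 4 * xp1_g K x) := by
  refine (rows_rlz xp1_R xp1_N hF).mono 2 (fun K _ x => ?_)
  simp only [sum_const, card_range, smul_eq_mul, zero_add]
  exact xc3 _ _ _ (xn8 _ _ _ _) (xn9 _ _ _ _ _)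

end

theorem fIt_rlz {Fvt : Fam TVt .arr} {Fkh : Fam TKh .arr} {Fbt : Fam TBt .arr}
    {Fra : Fam TRa .arr}
    (hvt : RlzQ Fvt (fun _ _ x => (x.2.2.1 + 1) ^ 2 * ((x.1 + 1) * ((x.1 + 1) ^ 2 + x.2.1 + 1)) *
      (x.2.2.2.2.1 + 1)))
    (hkh : RlzQ Fkh (fun _ _ x => (x.1 + 1) ^ 3 * (x.2.2.1 + 1)))
    (hbt : RlzQ Fbt (fun _ _ x => (x.1 + 1) * (x.2.2.2.1 + 1)))
    (hra : RlzQ Fra (fun _ _ x => (x.2.1 + 1) * (x.1 + 1) ^ 2 * (x.2.2.2.1 + 1))) :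
    RlzQ (fIt Fvt Fkh Fbt Fra) (fun _ _ x =>
      (x.1.2.2.2.1 + x.1.2.2.2.2 + x.1.2.2.1 + 2) ^ 4 *
        ((x.2.2.2.2.1 + 1) * ((x.2.2.2.2.1 + 1) ^ 2 + (x.2.2.2.1 + 1) ^ 2))) := by
  have hC : RlzQ (a := .prod ItIn .nat) (b := .fld) (fun _ _ x => iC x.1.2.2.1
      x.1.2.2.2.2.2.2.2 x.2) (fun _ _ _ => 0) := by
    unfold iC
    exact xp1_get0 (xp1_up xp1_w) (xp1_a0 (xp1_a0 (xp1_m0 (RlzQ.lit 2) (xp1_up (xp1_sq0 xp1_d)))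
      (xp1_up xp1_d)) xp1_i)
  have hG : RlzQ (a := .prod ItIn .nat) (b := .arr) (fun _ _ x => iG x.1.2.2.1 x.1.1.2.2.2.2
      x.1.2.2.2.2.1 x.1.2.2.2.2.2.2.2 x.2) (fun K _ x => xp1_k3 K x.1) := by
    unfold iG
    have h := RlzQ.tab (a := .prod ItIn .nat) (xp1_up xp1_N)
      (f := fun K _ x j => (x.1.2.2.2.2.2.2.2 (2 * (x.1.2.2.1 + 1) ^ 2 + x.1.2.2.1 +
        x.1.1.2.2.2.2 + x.2 * x.1.2.2.1 + j) : K))
      (c := fun _ _ _ => 0) ?_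
    · refine h.mono 1 (fun K _ x => ?_)
      simp only [sum_const_zero, add_zero, zero_add, one_mul]
      exact (xn2 _ _ _ (Nat.le_add_left 2 _)).trans (Nat.le_succ _)
    · have f1 := RlzQ.fst (RlzQ.input (a := .prod (.prod ItIn .nat) .nat))
      have f2 := RlzQ.fst f1
      have fw := RlzQ.comp xp1_w f2
      have fd := RlzQ.comp xp1_d f2
      have fR := RlzQ.comp xp1_R f2
      have fw' := fw.mono (g' := fun _ _ _ => 0) 1 (fun _ _ _ => by simp)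
      have fd' := fd.mono (g' := fun _ _ _ => 0) 1 (fun _ _ _ => by simp)
      have fR' := fR.mono (g' := fun _ _ _ => 0) 1 (fun _ _ _ => by simp)
      exact xp1_get0 fw' (xp1_a0 (xp1_a0 (xp1_a0 (xp1_a0 (xp1_m0 (RlzQ.lit 2) (xp1_sq0 fd')) fd')
        fR') (xp1_m0 (RlzQ.snd f1) fd')) (RlzQ.snd RlzQ.input))
  have hz : ∀ {b : Ty} {F : Fam ItIn b}, RlzQ F (fun _ _ _ => 0) →
      RlzQ (a := .prod ItIn .nat) (b := b) (fun K _ x => F K x.1)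
        (fun K _ x => xp1_k3 K x.1) := fun h => xp1_up (xp1_k3z h)
  have hW : RlzQ (a := ItIn) (b := .arr) (fun _ _ x => iW Fvt Fkh Fbt x.2.1 x.1.1 x.1.2.1
      x.1.2.2.1 x.1.2.2.2.1 x.1.2.2.2.2 x.2.2.1 x.2.2.2.1 x.2.2.2.2.1 x.2.2.2.2.2.1
      x.2.2.2.2.2.2.1 x.2.2.2.2.2.2.2) (fun K _ x => xp1_T K x ^ 4 * xp1_g K x) := by
    unfold iW
    refine xp1_rows (F := fun K _ x => Fbt K (x.1.2.2.2.2.1, (x.1.2.1, (x.1.1.2.1, (x.1.1.2.2.1,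
      (x.1.2.2.2.2.2.1, (iH Fvt Fkh x.1.1.1 x.1.1.2.2.1 x.1.1.2.2.2.1 x.1.2.2.1
        x.1.2.2.2.1 x.1.2.2.2.2.1 x.1.2.2.2.2.2.1 x.1.2.2.2.2.2.2.1 x.1.2.2.2.2.2.2.2,
        iC x.1.2.2.1 x.1.2.2.2.2.2.2.2 x.2))))))) ?_
    have hin := xp1_pr (hz xp1_N) (xp1_pr (hz xp1_p) (xp1_pr (hz xp1_M) (xp1_pr (hz xp1_l)
      (xp1_pr (hz xp1_Q) (xp1_pr (xp1_up (xp1_iH hvt hkh)) (xp1_z hC))))))
    exact (RlzQ.comp hbt hin).mono 2 (fun K _ x => xc1 _ _ (xn4 _ _ _ _ _))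
  have hA : RlzQ (a := ItIn) (b := .arr) (fun _ _ x => iA Fvt Fra x.1.1 x.1.2.2.1 x.1.2.2.2.1
      x.1.2.2.2.2 x.2.2.1 x.2.2.2.1 x.2.2.2.2.1 x.2.2.2.2.2.1 x.2.2.2.2.2.2.1
      x.2.2.2.2.2.2.2) (fun K _ x => xp1_T K x ^ 4 * xp1_g K x) := by
    unfold iA
    refine xp1_rows (F := fun K _ x => Fra K (x.1.2.2.2.2.1, (x.1.1.2.2.2.1, (x.1.1.1,
      (x.1.1.2.2.1, (x.1.2.2.2.2.2.1, (iV Fvt x.1.1.1 x.1.1.2.2.1 x.1.1.2.2.2.1 x.1.2.2.1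
        x.1.2.2.2.1 x.1.2.2.2.2.1 x.1.2.2.2.2.2.1 x.1.2.2.2.2.2.2.1 x.1.2.2.2.2.2.2.2,
        iG x.1.2.2.1 x.1.1.2.2.2.2 x.1.2.2.2.2.1 x.1.2.2.2.2.2.2.2 x.2))))))) ?_
    have hin := xp1_pr (hz xp1_N) (xp1_pr (hz xp1_E) (xp1_pr (hz xp1_q) (xp1_pr (hz xp1_l)
      (xp1_pr (hz xp1_Q) (xp1_pr (xp1_up (xp1_iV hvt)) hG)))))
    exact (RlzQ.comp hra hin).mono 2 (fun K _ x => xc1 _ _ (xn5 _ _ _ _ _))
  have hE : RlzQ (a := ItIn) (b := .arr)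
      (fun _ _ x => toE x.2.2.1 x.2.2.2.1 x.2.2.2.2.1 x.2.2.2.2.2.2.1)
      (fun K _ x => xp1_T K x ^ 4 * xp1_g K x) := xp1_toE.mono 1 (fun K _ x =>
    xc4 _ _ (Nat.pow_pos (Nat.succ_pos _)))
  exact xp1_pr hE (xp1_pr hW hA)

end Pool.Agent.AbsIrr
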