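import Mathlib
import Pool.Agent.Lib.MP_2adc98_lc.XProg

/-!
# MP_2adc98_lc, stage 3: the cost of the computation for an orbit
-/

set_option autoImplicit false

namespace Pool.Agent.AbsIrr

open Finset Polynomial

/-- squares of numbers -/
private theorem xp2_sq {a : Ty} {A : Fam a .nat} {ca : CFam a} (hA : RlzQ A ca) :
    RlzQ (b := .nat) (fun K _ x => ((A K x : ℕ) + 1) ^ 2) ca :=
  ((RlzQ.mul (RlzQ.add hA (RlzQ.lit 1)) (RlzQ.add hA (RlzQ.lit 1))).congr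
    (fun K _ x => (pow_two _).symm)).mono 4 (fun K _ x => by omega)

/-- printing the modulus: input `(d, (s, Q))` -/
private theorem xp2_prQ : RlzQ (a := .prod .nat (.prod .nat .arr)) (b := .arr)
    (fun _ _ x => prQ x.1 x.2.1 x.2.2) (fun _ _ x => x.1) := by
  unfold prQ
  apply RlzQ.mono
  case h =>
    apply_rules (maxDepth := 1000) [RlzQ.tab, RlzQ.iteLt, RlzQ.iteEq, RlzQ.add, RlzQ.get,
      RlzQ.fst, RlzQ.snd, RlzQ.input, RlzQ.lit, RlzQ.one, RlzQ.zero]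
  case A => exact 10
  case hc =>
    intro K _ x
    simp

/-- printing the factor: input `(d, (δ, (s, G)))` -/
private theorem xp2_prF : RlzQ (a := .prod .nat (.prod .nat (.prod .nat .arr))) (b := .arr)
    (fun _ _ x => prF x.1 x.2.1 x.2.2.1 x.2.2.2) (fun _ _ x => x.2.2.1 * (x.1 + 1) ^ 2) := by
  unfold prF
  have hN : RlzQ (a := .prod .nat (.prod .nat (.prod .nat .arr))) (b := .nat)
      (fun _ _ x => x.2.2.1 * (x.1 + 1) ^ 2) (fun _ _ _ => 0) :=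
    (RlzQ.mul (RlzQ.fst (RlzQ.snd (RlzQ.snd RlzQ.input))) (xp2_sq (RlzQ.fst RlzQ.input))).mono 1
      (fun K _ x => by simp)
  have hf : RlzQ (a := .prod (.prod .nat (.prod .nat (.prod .nat .arr))) .nat) (b := .fld)
      (fun K _ x => (if x.2 % (x.1.1 + 1) < x.1.2.1 + 1 then
        (if x.2 / (x.1.1 + 1) % (x.1.1 + 1) < x.1.2.1 + 1 then
          x.1.2.2.2 ((x.2 / (x.1.1 + 1) % (x.1.1 + 1) * (x.1.2.1 + 1) + x.2 % (x.1.1 + 1)) *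
            x.1.2.2.1 + x.2 / (x.1.1 + 1) / (x.1.1 + 1)) else 0) else 0 : K))
      (fun _ _ _ => 0) := by
    apply RlzQ.mono
    case h =>
      apply_rules (maxDepth := 1000) [RlzQ.iteLt, RlzQ.add, RlzQ.mul, RlzQ.div, RlzQ.mod,
        RlzQ.get, RlzQ.fst, RlzQ.snd, RlzQ.input, RlzQ.lit, RlzQ.zero]
    case A => exact 10
    case hc =>
      intro K _ x
      simp
  refine (RlzQ.tab (a := .prod .nat (.prod .nat (.prod .nat .arr)))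
    (f := fun K _ x j => (if j % (x.1 + 1) < x.2.1 + 1 then
        (if j / (x.1 + 1) % (x.1 + 1) < x.2.1 + 1 then
          x.2.2.2 ((j / (x.1 + 1) % (x.1 + 1) * (x.2.1 + 1) + j % (x.1 + 1)) *
            x.2.2.1 + j / (x.1 + 1) / (x.1 + 1)) else 0) else 0 : K)) hN hf).mono 1
    (fun K _ x => ?_)
  simp

/-- the sum of the costs -/
private theorem xp2_num (R s e N d : ℕ) :
    (R + 1) * ((s + 1) ^ 3 + N + 1) ≤
      (R + 2) * ((s + 1) * ((e + 1) ^ 2 * (N + s + 1) + (N + 1) ^ 2 + (s + 1) ^ 2 + (d + 1) ^ 2)) ∧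
    ((e + 1) ^ 2 + 1) * ((s + 1) * (N + s + 1)) + (N + 1) ^ 2 * (s + 1) + (s + 1) ^ 3 ≤
      2 * ((R + 2) *
        ((s + 1) * ((e + 1) ^ 2 * (N + s + 1) + (N + 1) ^ 2 + (s + 1) ^ 2 + (d + 1) ^ 2))) ∧
    ((e + 1) ^ 2 + 1) * (s + 1) ^ 2 + (s + 1) ^ 3 ≤
      2 * ((R + 2) *
        ((s + 1) * ((e + 1) ^ 2 * (N + s + 1) + (N + 1) ^ 2 + (s + 1) ^ 2 + (d + 1) ^ 2))) ∧
    d + s * (d + 1) ^ 2 ≤
      (R + 2) * ((s + 1) * ((e + 1) ^ 2 * (N + s + 1) + (N + 1) ^ 2 + (s + 1) ^ 2 + (d + 1) ^ 2)) := by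
  set X := (s + 1) * ((e + 1) ^ 2 * (N + s + 1) + (N + 1) ^ 2 + (s + 1) ^ 2 + (d + 1) ^ 2) with hX
  have h1 : 1 ≤ (e + 1) ^ 2 := Nat.one_le_pow _ _ (by omega)
  have hb1 : (s + 1) ^ 3 + N + 1 ≤ X := by
    rw [hX]
    have : N + 1 ≤ (s + 1) * (N + 1) ^ 2 := by
      calc N + 1 = 1 * (N + 1) ^ 1 := by ring
        _ ≤ (s + 1) * (N + 1) ^ 2 := Nat.mul_le_mul (by omega) (Nat.pow_le_pow_right (by omega) (by omega))
    nlinarith [Nat.zero_le ((s + 1) * ((e + 1) ^ 2 * (N + s + 1))),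
      Nat.zero_le ((s + 1) * (d + 1) ^ 2)]
  have hb2 : ((e + 1) ^ 2 + 1) * ((s + 1) * (N + s + 1)) + (N + 1) ^ 2 * (s + 1) + (s + 1) ^ 3 ≤
      2 * X := by
    rw [hX]
    have : (s + 1) * (N + s + 1) ≤ (e + 1) ^ 2 * ((s + 1) * (N + s + 1)) :=
      Nat.le_mul_of_pos_left _ (by omega)
    nlinarith [Nat.zero_le ((s + 1) * (d + 1) ^ 2), Nat.zero_le ((s + 1) * (N + 1) ^ 2),
      Nat.zero_le ((s + 1) ^ 3)]
  have hb3 : ((e + 1) ^ 2 + 1) * (s + 1) ^ 2 + (s + 1) ^ 3 ≤ 2 * X := by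
    have h2 : (s + 1) ^ 2 ≤ (s + 1) * (N + s + 1) := by
      rw [pow_two]
      exact Nat.mul_le_mul_left _ (by omega)
    have h3 : ((e + 1) ^ 2 + 1) * (s + 1) ^ 2 ≤ ((e + 1) ^ 2 + 1) * ((s + 1) * (N + s + 1)) :=
      Nat.mul_le_mul_left _ h2
    omega
  have hb4 : d + s * (d + 1) ^ 2 ≤ X := by
    rw [hX]
    have h4 : d ≤ (d + 1) ^ 2 := by nlinarith
    nlinarith [Nat.zero_le ((s + 1) * ((e + 1) ^ 2 * (N + s + 1))),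
      Nat.zero_le ((s + 1) * (N + 1) ^ 2), Nat.zero_le ((s + 1) ^ 3)]
  have hX1 : X ≤ (R + 2) * X := Nat.le_mul_of_pos_left _ (by omega)
  refine ⟨?_, by omega, by omega, by omega⟩
  exact Nat.mul_le_mul (by omega) hb1

theorem fLf_rlz {FA : Fam TLA .arr} {FB : Fam TLA (.prod .arr .arr)} {FC : Fam TLC .arr}
    (hA : RlzQ FA (fun _ _ x => (x.2.1 + 1) * ((x.2.2.1 + 1) * (x.1 + x.2.2.1 + 1)) +
      (x.1 + 1) ^ 2 * (x.2.2.1 + 1) + (x.2.2.1 + 1) ^ 3))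
    (hB : RlzQ FB (fun _ _ x => (x.2.1 + 1) * ((x.2.2.1 + 1) ^ 3 + x.1 + 1)))
    (hC : RlzQ FC (fun _ _ x => (x.1 + 1) * (x.2.1 + 1) ^ 2 + (x.2.1 + 1) ^ 3)) :
    RlzQ (fLf FA FB FC) (fun _ _ x => (x.2.2.2.2.1 + 2) * ((x.2.2.2.2.2.2.2.1 + 1) *
      ((x.2.2.1 + 1) ^ 2 * (x.2.2.2.1 + x.2.2.2.2.2.2.2.1 + 1) + (x.2.2.2.1 + 1) ^ 2 +
        (x.2.2.2.2.2.2.2.1 + 1) ^ 2 + (x.2.1 + 1) ^ 2))) := by
  -- the components of the input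
  have cm : RlzQ (a := LfIn) (b := .nat) (fun _ _ x => x.1) (fun _ _ _ => 0) :=
    RlzQ.fst RlzQ.input
  have cd : RlzQ (a := LfIn) (b := .nat) (fun _ _ x => x.2.1) (fun _ _ _ => 0) :=
    RlzQ.fst (RlzQ.snd RlzQ.input)
  have ce : RlzQ (a := LfIn) (b := .nat) (fun _ _ x => x.2.2.1) (fun _ _ _ => 0) :=
    RlzQ.fst (RlzQ.snd (RlzQ.snd RlzQ.input))
  have cN : RlzQ (a := LfIn) (b := .nat) (fun _ _ x => x.2.2.2.1) (fun _ _ _ => 0) :=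
    RlzQ.fst (RlzQ.snd (RlzQ.snd (RlzQ.snd RlzQ.input)))
  have cR : RlzQ (a := LfIn) (b := .nat) (fun _ _ x => x.2.2.2.2.1) (fun _ _ _ => 0) :=
    RlzQ.fst (RlzQ.snd (RlzQ.snd (RlzQ.snd (RlzQ.snd RlzQ.input))))
  have cG : RlzQ (a := LfIn) (b := .arr) (fun _ _ x => x.2.2.2.2.2.1) (fun _ _ _ => 0) :=
    RlzQ.fst (RlzQ.snd (RlzQ.snd (RlzQ.snd (RlzQ.snd (RlzQ.snd RlzQ.input)))))
  have cA : RlzQ (a := LfIn) (b := .arr) (fun _ _ x => x.2.2.2.2.2.2.1) (fun _ _ _ => 0) :=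
    RlzQ.fst (RlzQ.snd (RlzQ.snd (RlzQ.snd (RlzQ.snd (RlzQ.snd (RlzQ.snd RlzQ.input))))))
  have cs : RlzQ (a := LfIn) (b := .nat) (fun _ _ x => x.2.2.2.2.2.2.2.1) (fun _ _ _ => 0) :=
    RlzQ.fst (RlzQ.snd (RlzQ.snd (RlzQ.snd (RlzQ.snd (RlzQ.snd (RlzQ.snd (RlzQ.snd
      RlzQ.input)))))))
  have cg : RlzQ (a := LfIn) (b := .arr) (fun _ _ x => x.2.2.2.2.2.2.2.2) (fun _ _ _ => 0) :=
    RlzQ.snd (RlzQ.snd (RlzQ.snd (RlzQ.snd (RlzQ.snd (RlzQ.snd (RlzQ.snd (RlzQ.snd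
      RlzQ.input)))))))
  have ce2 : RlzQ (a := LfIn) (b := .nat) (fun _ _ x => (x.2.2.1 + 1) ^ 2) (fun _ _ _ => 0) :=
    xp2_sq ce
  -- the generator
  have hb := RlzQ.comp hB (RlzQ.pair cN (RlzQ.pair cR (RlzQ.pair cs (RlzQ.pair cg cA))))
  have ha := RlzQ.comp hA (RlzQ.pair cN (RlzQ.pair ce2 (RlzQ.pair cs (RlzQ.pair cg cG))))
  have hc := RlzQ.comp hC (RlzQ.pair ce2 (RlzQ.pair cs (RlzQ.pair cg
    (RlzQ.pair (RlzQ.snd hb) ha))))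
  have hq := RlzQ.comp xp2_prQ (RlzQ.pair cd (RlzQ.pair cs (RlzQ.fst hb)))
  have hf := RlzQ.comp xp2_prF (RlzQ.pair cd (RlzQ.pair ce (RlzQ.pair cs hc)))
  refine (RlzQ.pair cm (RlzQ.pair hq hf)).mono 20 (fun K _ x => ?_)
  obtain ⟨h1, h2, h3, h4⟩ := xp2_num x.2.2.2.2.1 x.2.2.2.2.2.2.2.1 x.2.2.1 x.2.2.2.1 x.2.1
  simp only [] at *
  generalize (x.2.2.2.2.1 + 2) * ((x.2.2.2.2.2.2.2.1 + 1) *
      ((x.2.2.1 + 1) ^ 2 * (x.2.2.2.1 + x.2.2.2.2.2.2.2.1 + 1) + (x.2.2.2.1 + 1) ^ 2 +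
        (x.2.2.2.2.2.2.2.1 + 1) ^ 2 + (x.2.1 + 1) ^ 2)) = Z at *
  omega

end Pool.Agent.AbsIrr
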