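import Mathlib
import Pool.Agent.Lib.MP_2adc98_lc.XAsm
import Pool.Agent.Lib.MP_2adc98_lc.XA1

/-!
# MP_2adc98_lc, piece XR1: the cost of the preparation
-/

set_option autoImplicit false

namespace Pool.Agent.AbsIrr

open Finset Polynomial

private theorem xr1_log : RlzQ (a := InpK) (b := .nat) (fun _ _ x => Nat.log 2 x.1)
    (fun _ _ x => x.1) :=
  (RlzQ.nlog (RlzQ.lit 2) (RlzQ.fst RlzQ.input)).mono 1 (fun K _ x => by omega)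

private theorem xr1_lin (c : ℕ) : RlzQ (a := InpK) (b := .nat)
    (fun _ _ x => 4 * Nat.log 2 x.1 + c) (fun _ _ x => x.1) :=
  (RlzQ.add (RlzQ.mul (RlzQ.lit 4) xr1_log) (RlzQ.lit c)).mono 1 (fun K _ x => by omega)

private theorem xr1_Pq : RlzQ xbPq (fun _ _ x => x.1) := by
  have h0 : RlzQ (a := InpK) (fun _ _ x => x) (fun _ _ _ => 0) := RlzQ.input
  have hq := RlzQ.fst (RlzQ.snd (RlzQ.snd h0))
  have hM := RlzQ.fst (RlzQ.snd (RlzQ.snd (RlzQ.snd h0)))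
  refine ((RlzQ.pair hq (RlzQ.pair hM (RlzQ.pair (xr1_lin 18) (RlzQ.pair
    (RlzQ.nlogL hq hM (xr1_lin 18)) (xr1_lin 12))))).congr (fun K _ x => rfl)).mono 30
    (fun K _ x => ?_)
  have h1 : Nat.log 2 x.1 ≤ x.1 := Nat.log_le_self 2 _
  omega

section

variable {κ q b : ℕ → ℕ → ℕ}
  {Fsh : Fam (.prod .nat (.prod .fld (.prod .fld .arr))) .arr}
  {Fmd : Fam (.prod .nat (.prod .nat .arr)) .arr}

/-- the numbers `(len3, len2)` -/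
private theorem xr1_len (hprm : RlzQ (a := .prod .nat .nat) (b := .prod .nat (.prod .nat .nat))
      (fun _ _ x => (κ x.1 x.2, (q x.1 x.2, b x.1 x.2))) (fun _ _ x => x.1 ^ 2))
    {C : ℕ} (hC : ∀ d p, 2 ^ κ d p ≤ C * (d + 1) ^ 2 ∧ q d p ≤ C * (d + 1) ^ 2 ∧
      2 ^ b d p ≤ C * (d + 1) ∧ q d p * 2 ^ b d p ≤ C * (d + 1) ^ 2) :
    RlzQ (a := InpK) (b := .prod .nat .nat)
      (fun _ _ x => (len3 x.1 (RF x.1), len2 κ x.1 x.2.1)) (fun _ _ x => x.1 ^ 3) := by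
  have h0 : RlzQ (a := InpK) (fun _ _ x => x) (fun _ _ _ => 0) := RlzQ.input
  have hd := RlzQ.fst h0
  have hR := xr1_lin 12
  have hd1 := RlzQ.add hd (RlzQ.lit 1)
  have h3 := RlzQ.add (RlzQ.add (RlzQ.add (RlzQ.mul (RlzQ.lit 2) (RlzQ.mul hd1 hd1)) hd) hR)
    (RlzQ.mul hR hd)
  have hp : RlzQ (a := InpK) (b := Inp) (fun _ _ x => (x.1, (x.2.1, x.2.2.2.2)))
      (fun _ _ _ => 0) := zp hd (zp (RlzQ.fst (RlzQ.snd h0)) (RlzQ.snd (RlzQ.snd (RlzQ.snd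
        (RlzQ.snd h0)))))
  have hk := RlzQ.comp (pk3 hprm hC) hp
  have h2 := RlzQ.add (RlzQ.add (RlzQ.lit 2) hd) (RlzQ.mul hd hk)
  refine ((RlzQ.pair h3 h2).congr (fun K _ x => ?_)).mono 8 (fun K _ x => ?_)
  · unfold len3 len2 RF
    refine Prod.ext ?_ rfl
    dsimp only
    ring
  · have h4 := self_le3 x.1
    dsimp only
    omega

private theorem xr1_Om (hprm : RlzQ (a := .prod .nat .nat) (b := .prod .nat (.prod .nat .nat))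
      (fun _ _ x => (κ x.1 x.2, (q x.1 x.2, b x.1 x.2))) (fun _ _ x => x.1 ^ 2))
    {C : ℕ} (hC : ∀ d p, 2 ^ κ d p ≤ C * (d + 1) ^ 2 ∧ q d p ≤ C * (d + 1) ^ 2 ∧
      2 ^ b d p ≤ C * (d + 1) ∧ q d p * 2 ^ b d p ≤ C * (d + 1) ^ 2) :
    RlzQ (xbOm κ) (fun _ _ x => (x.1 + 1) ^ 3) := by
  have hy : RlzQ (a := .prod InpK (.prod .nat .nat)) (fun _ _ x => x) (fun _ _ _ => 0) :=
    RlzQ.input
  have hz : RlzQ (a := .prod (.prod InpK (.prod .nat .nat)) .nat) (fun _ _ x => x)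
      (fun _ _ _ => 0) := RlzQ.input
  have htab := RlzQ.tab (a := .prod InpK (.prod .nat .nat))
    (f := fun K _ x i => ((x.1.2.2.2.2.2 : ℕ → K) ((x.2.2 : ℕ) + i) : K))
    (RlzQ.fst (RlzQ.snd hy)) (RlzQ.get (RlzQ.snd (RlzQ.snd (RlzQ.snd (RlzQ.snd (RlzQ.snd
      (RlzQ.fst (RlzQ.fst hz))))))) (RlzQ.add (RlzQ.snd (RlzQ.snd (RlzQ.fst hz)))
        (RlzQ.snd hz)))
  refine ((RlzQ.comp htab (RlzQ.pair RlzQ.input (xr1_len hprm hC))).congr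
    (fun K _ x => rfl)).mono 50 (fun K _ x => ?_)
  simp only [add_zero, Finset.sum_const_zero, zero_add]
  have h1 : Nat.log 2 x.1 ≤ x.1 := Nat.log_le_self 2 _
  have h2 := cube_succ x.1
  unfold len3 RF
  have key : ∀ d l : ℕ, l ≤ d → d ^ 3 ≤ (d + 1) ^ 3 →
      d ^ 3 + (2 * (d + 1) ^ 2 + d + (4 * l + 12) + (4 * l + 12) * d) ≤
        50 * ((d + 1) ^ 3 + 1) := by
    intro d l hl h
    have h3 : l * d ≤ d * d := Nat.mul_le_mul_right d hl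
    nlinarith
  exact key _ _ h1 h2

theorem xb0_rz (hprm : RlzQ (a := .prod .nat .nat) (b := .prod .nat (.prod .nat .nat))
      (fun _ _ x => (κ x.1 x.2, (q x.1 x.2, b x.1 x.2))) (fun _ _ x => x.1 ^ 2))
    {C : ℕ} (hC : ∀ d p, 2 ^ κ d p ≤ C * (d + 1) ^ 2 ∧ q d p ≤ C * (d + 1) ^ 2 ∧
      2 ^ b d p ≤ C * (d + 1) ∧ q d p * 2 ^ b d p ≤ C * (d + 1) ^ 2)
    (hFsh : RlzQ Fsh (fun _ _ x => x.1 ^ 3))
    (hFmd : RzQ Fmd (fun _ _ x => (x.1 + 1) ^ 3 + x.2.1 * (x.1 + 1))) :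
    RzQ (xb0 κ q b Fsh Fmd) kx0 := by
  have h0 : RlzQ (a := InpK) (fun _ _ x => x) (fun _ _ _ => 0) := RlzQ.input
  have hp : RlzQ (a := InpK) (b := Inp) (fun _ _ x => (x.1, (x.2.1, x.2.2.2.2)))
      (fun _ _ _ => 0) := zp (RlzQ.fst h0) (zp (RlzQ.fst (RlzQ.snd h0))
        (RlzQ.snd (RlzQ.snd (RlzQ.snd (RlzQ.snd h0)))))
  have hSt := RzQ.comp (a0_rz hprm hC hFsh hFmd) (RzQ.of hp)
  refine ((RzQ.pair (RzQ.of xr1_Pq) (RzQ.pair hSt (RzQ.of (xr1_Om hprm hC)))).congr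
    (fun K _ x => rfl)).mono 3 (fun K _ x => ?_)
  unfold k0 kx0
  have key : ∀ a w : ℕ, a + (0 + ((a + 1) ^ 3 + w) + (a + 1) ^ 3) ≤
      3 * ((a + 1) ^ 3 + w + 1) := by
    intro a w
    have h1 : a ≤ (a + 1) ^ 3 := (self_le3 a).trans (cube_succ a)
    omega
  exact key _ _

end

end Pool.Agent.AbsIrr
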