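import Mathlib
import Pool.Agent.Lib.MP_2adc98_lc.XAsm
import Pool.Agent.Lib.MP_2adc98_lc.FAsm

/-!
# MP_2adc98_lc, piece XR2: costs of the parts
-/

set_option autoImplicit false
set_option linter.unusedVariables false

namespace Pool.Agent.AbsIrr

open Finset Polynomial

theorem xbN0_rz : RzQ xbN0 (fun _ _ _ => 0) := by
  unfold xbN0
  have e0 : RlzQ (a := T0) (fun _ _ x => x) (fun _ _ _ => 0) := RlzQ.input
  refine (RzQ.comp aN0_rz (RzQ.of (RlzQ.fst (RlzQ.snd e0)))).mono 1 (fun K _ x => ?_)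
  simp

section
variable {F1 : Fam In1 Ot1}

theorem xb1_rz (hF1 : RzQ F1 (fun K _ x => cP1 (K := K) x.1 x.2.1 x.2.2.1 x.2.2.2.1 x.2.2.2.2.1
      x.2.2.2.2.2.1 x.2.2.2.2.2.2.1 x.2.2.2.2.2.2.2.2.1)) : RzQ (xb1 F1) kx1 := by
  unfold xb1 kx1
  have e0 : RlzQ (a := .prod T0 .nat) (fun _ _ x => x) (fun _ _ _ => 0) := RlzQ.input
  have e1 := RlzQ.fst e0
  have h := RzQ.pair (RzQ.of (RlzQ.pair (RlzQ.fst e1) (RlzQ.snd (RlzQ.snd e1))))
    (RzQ.comp (a1_rz hF1) (RzQ.of (RlzQ.pair (RlzQ.fst (RlzQ.snd e1)) (RlzQ.snd e0))))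
  refine (h.congr (fun K _ x => rfl)).mono 1 (fun K _ x => ?_)
  have key : ∀ u : ℕ, 0 + 0 + (0 + 0 + u) ≤ 1 * (u + 1) := by intros; omega
  exact key _

end

theorem xbN1_rz : RzQ xbN1 (fun _ _ _ => 0) := by
  unfold xbN1
  have e0 : RlzQ (a := T1) (fun _ _ x => x) (fun _ _ _ => 0) := RlzQ.input
  refine (RzQ.comp aN1_rz (RzQ.of (RlzQ.snd e0))).mono 1 (fun K _ x => ?_)
  simp

theorem xbN2_rz : RzQ xbN2 (fun _ _ x => x.1.2.2.1) := by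
  unfold xbN2
  have e0 : RlzQ (a := T2) (fun _ _ x => x) (fun _ _ _ => 0) := RlzQ.input
  refine (RzQ.comp aN2_rz (RzQ.of (RlzQ.pair (RlzQ.snd (RlzQ.fst e0)) (RlzQ.snd e0)))).mono 1
    (fun K _ x => ?_)
  have key : ∀ u : ℕ, 0 + 0 + u ≤ 1 * (u + 1) := by intros; omega
  exact key _

end Pool.Agent.AbsIrr
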