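import Mathlib
import Pool.Agent.Lib.MP_2adc98_lc.XAsm

/-!
# MP_2adc98_lc, stage 3: the cost of the computation for one item
-/

set_option autoImplicit false

namespace Pool.Agent.AbsIrr

open Finset Polynomial

namespace XR3

theorem prc {a b b' : Ty} {F : Fam a b} {G : Fam a b'} {c : CFam a} (hF : RzQ F c)
    (hG : RzQ G c) : RzQ (b := .prod b b') (fun K _ x => (F K x, G K x)) c :=
  (RzQ.pair hF hG).mono 2 (fun K _ x => by omega)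

theorem toc {a b : Ty} {F : Fam a b} {c : CFam a} (h : RlzQ F (fun _ _ _ => 0)) : RzQ F c :=
  (RzQ.of h).mono 0 (fun _ _ _ => Nat.zero_le _)

theorem numc_rlz : RlzQ (a := .prod .nat (.prod .nat .arr)) (b := .nat)
    (fun K _ x => numc x.1 x.2.1 (x.2.2 : ℕ → K)) (fun _ _ x => x.1) := by
  unfold numc
  apply RlzQ.mono
  case h =>
    apply_rules (maxDepth := 1000) [RlzQ.adeg, RlzQ.blkA, RlzQ.add, RlzQ.sub, RlzQ.lit,
      RlzQ.fst, RlzQ.snd, RlzQ.input]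
  case A => exact 8
  case hc =>
    intro K _ x
    omega

end XR3

section costs

variable {F3 : Fam In3 (.prod .arr .arr)}
  {Fvt : Fam TVt .arr} {Fkh : Fam TKh .arr} {Fbt : Fam TBt .arr} {Fra : Fam TRa .arr}

theorem xb3_rz (hF3 : RlzQ F3 (fun _ _ x => (x.2.2.2.2.2.2.2.2 + 1) *
      (numc x.2.2.2.1 x.2.2.2.2.2.2.2.2 x.2.2.2.2.2.2.2.1 + 1) *
      (x.1 + x.2.2.2.1 + x.2.2.2.2.2.2.2.2 + 1) ^ 2))
    (hIt : RlzQ (fIt Fvt Fkh Fbt Fra) (fun _ _ x =>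
      (x.1.2.2.2.1 + x.1.2.2.2.2 + x.1.2.2.1 + 2) ^ 4 *
        ((x.2.2.2.2.1 + 1) * ((x.2.2.2.2.1 + 1) ^ 2 + (x.2.2.2.1 + 1) ^ 2)))) :
    RzQ (xb3 F3 Fvt Fkh Fbt Fra) (kx3) := by
  have h0 : RlzQ (a := .prod T2 .nat) (b := .prod T2 .nat) (fun _ _ x => x) (fun _ _ _ => 0) :=
    RlzQ.input
  have h1 : RlzQ (a := .prod T2 .nat) (b := T2) (fun _ _ x => x.1) (fun _ _ _ => 0) :=
    RlzQ.fst h0
  have hδ : RlzQ (a := .prod T2 .nat) (b := .nat) (fun _ _ x => x.1.2) (fun _ _ _ => 0) :=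
    RlzQ.snd h1
  have h2 : RlzQ (a := .prod T2 .nat) (b := T1) (fun _ _ x => x.1.1) (fun _ _ _ => 0) :=
    RlzQ.fst h1
  have hpa : RlzQ (a := .prod T2 .nat) (b := .prod Pq .arr) (fun _ _ x => x.1.1.1)
    (fun _ _ _ => 0) := RlzQ.fst h2
  have hpq : RlzQ (a := .prod T2 .nat) (b := Pq) (fun _ _ x => x.1.1.1.1)
    (fun _ _ _ => 0) := RlzQ.fst hpa
  have hom : RlzQ (a := .prod T2 .nat) (b := .arr) (fun _ _ x => x.1.1.1.2)
    (fun _ _ _ => 0) := RlzQ.snd hpa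
  have hst : RlzQ (a := .prod T2 .nat) (b := St1) (fun _ _ x => x.1.1.2)
    (fun _ _ _ => 0) := RlzQ.snd h2
  have hot : RlzQ (a := .prod T2 .nat) (b := Ot1) (fun _ _ x => x.1.1.2.2)
    (fun _ _ _ => 0) := RlzQ.snd hst
  have hinp : RlzQ (a := .prod T2 .nat) (b := Inp) (fun _ _ x => x.1.1.2.1.1.1)
    (fun _ _ _ => 0) := RlzQ.fst (RlzQ.fst (RlzQ.fst hst))
  have hd : RlzQ (a := .prod T2 .nat) (b := .nat) (fun _ _ x => x.1.1.2.1.1.1.1)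
    (fun _ _ _ => 0) := RlzQ.fst hinp
  have hp : RlzQ (a := .prod T2 .nat) (b := .nat) (fun _ _ x => x.1.1.2.1.1.1.2.1)
    (fun _ _ _ => 0) := RlzQ.fst (RlzQ.snd hinp)
  have hA : RzQ (xb3a F3) (fun K _ x => kk3 K ((x.1.1.2, x.1.2), x.2) + x.1.1.2.2.1) :=
    (RzQ.comp (a3_rz hF3) (RzQ.of (zp (zp hst hδ) (RlzQ.snd h0)))).mono 1
      (fun K _ x => by omega)
  have hn : RzQ xb3n (fun K _ x => kk3 K ((x.1.1.2, x.1.2), x.2) + x.1.1.2.2.1) :=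
    (RzQ.of (RlzQ.comp XR3.numc_rlz (zp (RlzQ.fst hot)
      (zp hδ (RlzQ.snd (RlzQ.snd (RlzQ.snd (RlzQ.snd hot)))))))).mono 1
      (fun K _ x => by
        generalize kk3 K ((x.1.1.2, x.1.2), x.2) = t
        dsimp only
        omega)
  have hi : RzQ (xb3i F3) (fun K _ x => kk3 K ((x.1.1.2, x.1.2), x.2) + x.1.1.2.2.1) :=
    XR3.prc (XR3.toc hpq) (XR3.prc (XR3.toc hp) (XR3.prc (XR3.toc hd) (XR3.prc (XR3.toc hδ)
      (XR3.prc hn (XR3.prc (RzQ.fst (RzQ.snd hA)) (XR3.prc (RzQ.snd (RzQ.snd hA))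
        (XR3.toc hom)))))))
  have hc1 : ∀ {b : Ty} {F : Fam (.prod T2 .nat) b},
      RzQ F (fun K _ x => kk3 K ((x.1.1.2, x.1.2), x.2) + x.1.1.2.2.1) → RzQ F kx3 := by
    intro b F h
    refine h.mono 1 (fun K _ x => ?_)
    unfold kx3
    generalize (x.1.1.1.1.2.2.2.1 + x.1.1.1.1.2.2.2.2 + x.1.1.1.1.2.2.1 + 2) ^ 4 *
        ((xb3n K x + 1) * ((xb3n K x + 1) ^ 2 + (x.1.2 + 1) ^ 2)) = u
    omega
  have hF : RzQ (a := .prod T2 .nat) (fun K _ x => fIt Fvt Fkh Fbt Fra K (xb3i F3 K x)) kx3 := by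
    refine (RzQ.comp (RzQ.of hIt) hi).mono 1 (fun K _ x => ?_)
    unfold kx3
    rw [one_mul]
    exact Nat.le_succ _
  exact XR3.prc (hc1 (RzQ.fst hA)) (XR3.prc (XR3.toc hd) (XR3.prc (XR3.toc hδ) (XR3.prc (hc1 hn)
    (XR3.prc (XR3.toc (RlzQ.snd (RlzQ.snd (RlzQ.snd (RlzQ.snd hpq)))))
      (XR3.prc (hc1 (RzQ.fst (RzQ.snd hA))) hF)))))

end costs

end Pool.Agent.AbsIrr
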