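import Mathlib
import Pool.Agent.Lib.MP_2adc98_lc.XAsm
import Pool.Agent.Lib.MP_2adc98_lc.FAsm

/-!
# MP_2adc98_lc, stage 3: costs of the parts of the program, XR4 (helper70)
-/

set_option autoImplicit false

namespace Pool.Agent.AbsIrr

open Finset Polynomial

theorem xbN3_rz : RzQ xbN3 (fun _ _ _ => 0) :=
  RzQ.of (RlzQ.fst (RlzQ.snd (RlzQ.snd (RlzQ.snd RlzQ.input))))

theorem xb4_rz {Fde : Fam TDe TDo} (hde : RlzQ Fde (fun _ _ x => (x.2.1 + 1) * (x.1 + 1) ^ 2)) :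
    RzQ (xb4 Fde) kx4 := by
  refine RzQ.of ?_
  have h0 : RlzQ (a := .prod T3 .nat) (b := T3) (fun _ _ x => x.1) (fun _ _ _ => 0) :=
    RlzQ.fst RlzQ.input
  have h4 : RlzQ (a := .prod T3 .nat) (b := .prod .nat (.prod .nat (.prod .arr ItOt)))
      (fun _ _ x => x.1.2.2.2) (fun _ _ _ => 0) := RlzQ.snd (RlzQ.snd (RlzQ.snd h0))
  have hi : RlzQ (a := .prod T3 .nat) (b := TDe) (fun _ _ x => (x.1.2.2.2.1, (x.1.2.2.2.2.1,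
      (x.1.2.2.2.2.2.1, (x.1.2.2.2.2.2.2.2.1, x.2))))) (fun _ _ _ => 0) :=
    zp (RlzQ.fst h4) (zp (RlzQ.fst (RlzQ.snd h4)) (zp (RlzQ.fst (RlzQ.snd (RlzQ.snd h4)))
      (zp (RlzQ.fst (RlzQ.snd (RlzQ.snd (RlzQ.snd (RlzQ.snd h4))))) (RlzQ.snd RlzQ.input))))
  have h := RlzQ.pair h0 (RlzQ.comp hde hi)
  refine RlzQ.mono h 1 (fun K _ x => ?_)
  unfold kx4
  simp only [zero_add]
  omega

theorem xbN4_rz : RzQ xbN4 (fun _ _ _ => 0) := by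
  refine RzQ.of ?_
  unfold xbN4
  exact (RlzQ.iteEq (RlzQ.fst (RlzQ.snd RlzQ.input)) (RlzQ.lit 0) (RlzQ.lit 1)
    (RlzQ.lit 0)).mono 1 (fun _ _ _ => by simp)

theorem xb5_rz {FA : Fam TLA .arr} {FB : Fam TLA (.prod .arr .arr)} {FC : Fam TLC .arr}
    (hLf : RlzQ (fLf FA FB FC) (fun _ _ x => (x.2.2.2.2.1 + 2) *
      ((x.2.2.2.2.2.2.2.1 + 1) *
      ((x.2.2.1 + 1) ^ 2 * (x.2.2.2.1 + x.2.2.2.2.2.2.2.1 + 1) + (x.2.2.2.1 + 1) ^ 2 +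
        (x.2.2.2.2.2.2.2.1 + 1) ^ 2 + (x.2.1 + 1) ^ 2)))) : RzQ (xb5 FA FB FC) kx5 := by
  refine RzQ.of ?_
  have h0 : RlzQ (a := .prod T4 .nat) (b := T4) (fun _ _ x => x.1) (fun _ _ _ => 0) :=
    RlzQ.fst RlzQ.input
  have h1 : RlzQ (a := .prod T4 .nat) (b := T3) (fun _ _ x => x.1.1) (fun _ _ _ => 0) :=
    RlzQ.fst h0
  have h2 : RlzQ (a := .prod T4 .nat) (b := TDo) (fun _ _ x => x.1.2) (fun _ _ _ => 0) :=
    RlzQ.snd h0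
  have h5 : RlzQ (a := .prod T4 .nat) (b := .prod .nat (.prod .nat (.prod .arr ItOt)))
      (fun _ _ x => x.1.1.2.2.2) (fun _ _ _ => 0) := RlzQ.snd (RlzQ.snd (RlzQ.snd h1))
  have hi := zp (RlzQ.fst h1) (zp (RlzQ.fst (RlzQ.snd h1)) (zp (RlzQ.fst (RlzQ.snd (RlzQ.snd h1)))
    (zp (RlzQ.fst h5) (zp (RlzQ.fst (RlzQ.snd h5))
      (zp (RlzQ.fst (RlzQ.snd (RlzQ.snd (RlzQ.snd h5))))
      (zp (RlzQ.snd (RlzQ.snd (RlzQ.snd (RlzQ.snd (RlzQ.snd h5)))))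
        (zp (RlzQ.fst (RlzQ.snd h2)) (RlzQ.snd (RlzQ.snd h2)))))))))
  have h := RlzQ.comp hLf hi
  refine RlzQ.mono h 1 (fun K _ x => ?_)
  unfold kx5
  simp only [zero_add]
  omega

end Pool.Agent.AbsIrr
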