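import Mathlib
import Pool.Agent.Lib.MP_2adc98_lc.XAsm

/-!
# MP_2adc98_lc, stage 3: the total cost of the program for small finite fields
-/

set_option autoImplicit false

namespace Pool.Agent.AbsIrr

open Finset Polynomial

/-- the number of steps of the program -/
private theorem XR6_steps
    {K : Type} [Field K] {s0 : PProg InpK T0} {sN0 : PProg T0 .nat}
    {s1 : PProg (.prod T0 .nat) T1} {sN1 : PProg T1 .nat} {sN2 : PProg T2 .nat}
    {s3 : PProg (.prod T2 .nat) T3} {sN3 : PProg T3 .nat} {s4 : PProg (.prod T3 .nat) T4}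
    {sN4 : PProg T4 .nat} {s5 : PProg (.prod T4 .nat) Prt} {x : InpK.val K} {y : T0.val K}
    {N0 : ℕ} {z : ℕ → T1.val K} {n : ℕ → ℕ} {N2 N3 : ℕ → ℕ → ℕ} {w : ℕ → ℕ → T3.val K}
    {u : ℕ → ℕ → ℕ → T4.val K} {N4 : ℕ → ℕ → ℕ → ℕ}
    (h0 : s0.run K x = y) (hN0 : sN0.run K y = N0)
    (h1 : ∀ m, s1.run K (y, m) = z m) (hN1 : ∀ m, sN1.run K (z m) = n m + 1)
    (hN2 : ∀ m δ, sN2.run K (z m, δ) = N2 m δ)
    (h3 : ∀ m δ l, s3.run K ((z m, δ), l) = w m δ) (hN3 : ∀ m δ, sN3.run K (w m δ) = N3 m δ)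
    (h4 : ∀ m δ t, s4.run K (w m δ, t) = u m δ t)
    (hN4 : ∀ m δ t, sN4.run K (u m δ t) = N4 m δ t) :
    (theOutK s0 sN0 s1 sN1 sN2 s3 sN3 s4 sN4 s5).steps K x = s0.bcost K x + (sN0.bcost K y +
      (∑ m ∈ range N0, (s1.bcost K (y, m) + (sN1.bcost K (z m) + (∑ δ ∈ range (n m + 1),
      ((sN2.bcost K (z m, δ) + (∑ l ∈ range (N2 m δ), ((s3.bcost K ((z m, δ), l) +
        (sN3.bcost K (w m δ) + (∑ t ∈ range (N3 m δ), ((s4.bcost K (w m δ, t) +
          (sN4.bcost K (u m δ t) + (∑ j ∈ range (N4 m δ t), (s5.bcost K (u m δ t, j) + 1 +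
            bitc j 0)) + 1) + 1) + bitc t 0)) + 1)) + 1 +
        bitc l 0)) + 1) + bitc δ 0)) + 1) + 1 + bitc m 0)) + 1) + 1 := by
  change s0.steps K x + (sN0.steps K (s0.eval K x) +
      (∑ m ∈ range (sN0.eval K (s0.eval K x)), (s1.steps K (s0.eval K x, m) +
        (sN1.steps K (s1.eval K (s0.eval K x, m)) +
        (∑ δ ∈ range (sN1.eval K (s1.eval K (s0.eval K x, m))),
      ((sN2.steps K (s1.eval K (s0.eval K x, m), δ) +
        (∑ l ∈ range (sN2.eval K (s1.eval K (s0.eval K x, m), δ)),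
          ((s3.steps K ((s1.eval K (s0.eval K x, m), δ), l) +
            (sN3.steps K (s3.eval K ((s1.eval K (s0.eval K x, m), δ), l)) +
            (∑ t ∈ range (sN3.eval K (s3.eval K ((s1.eval K (s0.eval K x, m), δ), l))),
              ((s4.steps K (s3.eval K ((s1.eval K (s0.eval K x, m), δ), l), t) +
                (sN4.steps K (s4.eval K (s3.eval K ((s1.eval K (s0.eval K x, m), δ), l), t)) +
                (∑ j ∈ range (sN4.eval K
                    (s4.eval K (s3.eval K ((s1.eval K (s0.eval K x, m), δ), l), t))),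
                  (s5.steps K (s4.eval K (s3.eval K ((s1.eval K (s0.eval K x, m), δ), l), t), j) +
                    1 + bitc j 0)) + 1) + 1) + bitc t 0)) + 1)) + 1 +
        bitc l 0)) + 1) + bitc δ 0)) + 1) + 1 + bitc m 0)) + 1) + 1 = _
  simp only [PProg.eval_eq, PProg.steps_eq, h0, hN0, h1, hN1, hN2, h3, hN3, h4, hN4]

private theorem XR6_log (C : ℕ) {d : ℕ} (hd : 1 ≤ d) :
    Nat.log 2 (C * (d + 1) ^ 2) + 1 ≤ (Nat.log 2 C + 6) * (Nat.log 2 d + 1) := by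
  have f3 := log_mul_le C ((d + 1) ^ 2)
  have f4 := log_pow_le (d + 1) 2
  have f5 : Nat.log 2 (d + 1) ≤ Nat.log 2 d + 1 := by
    have f6 : Nat.log 2 (d + 1) ≤ Nat.log 2 (d * 2) := Nat.log_mono_right (by omega)
    rwa [Nat.log_mul_base (by norm_num) (by omega)] at f6
  nlinarith [Nat.zero_le (Nat.log 2 C * Nat.log 2 d)]

private theorem XR6_fin (c M d Λ : ℕ) :
    100001000 * ((c + 4) * Λ ^ (c + 1)) * Λ ^ 4 * (8 * d ^ 3) * (M * Λ) =
      800008000 * (c + 4) * M * d ^ 3 * Λ ^ (c + 6) := by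
  rw [show c + 6 = (c + 1) + 4 + 1 by ring, pow_add Λ (c + 1 + 4) 1, pow_add Λ (c + 1) 4, pow_one]
  ring

/-- the arithmetic for one item -/
private theorem XR6_arith {b Λ R N δ D T n : ℕ} (hb : 1 ≤ b) (hΛ : 1 ≤ Λ) (hR : R + 2 ≤ 14 * Λ)
    (hT : T ≤ 50 * Λ) (hN : 1 ≤ N) (hδ : 1 ≤ δ) (hw : δ * N ≤ D) (hn : n ≤ D)
    {c3 cN3 : ℕ} {c4 cN4 N4 s tp bb : ℕ → ℕ} {c5 : ℕ → ℕ → ℕ}
    (h3 : c3 ≤ b * (36 * (δ * N) * D ^ 2 + n + T ^ 4 * ((N + 1) * ((N + 1) ^ 2 + (δ + 1) ^ 2)) + 1))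
    (hN3 : cN3 ≤ b)
    (h4 : ∀ t < N, c4 t ≤ b * ((R + 1) * (N + 1) ^ 2 + 1)) (hN4 : ∀ t < N, cN4 t ≤ b)
    (h5 : ∀ t < N, ∀ j < N4 t, c5 t j ≤ b * ((R + 2) * ((s t + 1) * (21 * D ^ 2)) + 1))
    (hbb : ∀ t ≤ N, bb t ≤ b) (hN4' : ∀ t, N4 t = if tp t = 0 then 1 else 0)
    (hs : ∑ t ∈ range N, (if tp t = 0 then s t else 0) ≤ N) :
    c3 + (cN3 + (∑ t ∈ range N, ((c4 t + (cN4 t + (∑ j ∈ range (N4 t), (c5 t j + 1 + bb j)) + 1)
      + 1) + bb t)) + 1) ≤ (100001000 * b * Λ ^ 4) * (36 * (δ * N) * D ^ 2 + 1) := by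
  have hwN : N ≤ δ * N := Nat.le_mul_of_pos_left _ hδ
  have hwδ : δ ≤ δ * N := Nat.le_mul_of_pos_right _ hN
  have hND : N ≤ D := hwN.trans hw
  have hδD : δ ≤ D := hwδ.trans hw
  have hD : 1 ≤ D := hN.trans hND
  set W := δ * N * D ^ 2 with hW
  have hD2 : D ≤ D ^ 2 := by nlinarith
  have hD1 : 1 ≤ D ^ 2 := Nat.one_le_pow _ _ hD
  have hNW : N * D ^ 2 ≤ W := Nat.mul_le_mul_right _ hwN
  have hDW : D ^ 2 ≤ W := (Nat.le_mul_of_pos_left _ hN).trans hNW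
  have hNW1 : N ≤ W := (Nat.le_mul_of_pos_right _ hD1).trans hNW
  have hW1 : 1 ≤ W := hN.trans hNW1
  have hN1 : N + 1 ≤ 2 * N := by omega
  have hN2 : (N + 1) ^ 2 ≤ 4 * D ^ 2 := by
    calc (N + 1) ^ 2 ≤ (2 * D) ^ 2 := Nat.pow_le_pow_left (by omega) 2
      _ = 4 * D ^ 2 := by ring
  have hδ2 : (δ + 1) ^ 2 ≤ 4 * D ^ 2 := by
    calc (δ + 1) ^ 2 ≤ (2 * D) ^ 2 := Nat.pow_le_pow_left (by omega) 2
      _ = 4 * D ^ 2 := by ring
  have hL4 : 1 ≤ Λ ^ 4 := Nat.one_le_pow _ _ hΛ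
  have hLL : Λ ≤ Λ ^ 4 := Nat.le_self_pow (by norm_num) _
  -- the first part
  have e1 : (N + 1) * ((N + 1) ^ 2 + (δ + 1) ^ 2) ≤ 16 * W := by
    calc (N + 1) * ((N + 1) ^ 2 + (δ + 1) ^ 2) ≤ (2 * N) * (4 * D ^ 2 + 4 * D ^ 2) := by gcongr
      _ = 16 * (N * D ^ 2) := by ring
      _ ≤ 16 * W := Nat.mul_le_mul_left _ hNW
  have e2 : T ^ 4 * ((N + 1) * ((N + 1) ^ 2 + (δ + 1) ^ 2)) ≤ 100000000 * Λ ^ 4 * W := by
    calc T ^ 4 * ((N + 1) * ((N + 1) ^ 2 + (δ + 1) ^ 2)) ≤ (50 * Λ) ^ 4 * (16 * W) := by gcongr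
      _ = 100000000 * Λ ^ 4 * W := by ring
  have e3 : c3 ≤ b * (37 * W + 100000000 * Λ ^ 4 * W + 1) := by
    refine h3.trans (Nat.mul_le_mul_left _ ?_)
    have : 36 * (δ * N) * D ^ 2 = 36 * W := by rw [hW]; ring
    omega
  -- the sum over j
  have e4 : ∀ t < N, ∑ j ∈ range (N4 t), (c5 t j + 1 + bb j) ≤
      b * ((R + 2) * (21 * D ^ 2)) * (if tp t = 0 then s t else 0) +
        b * ((R + 2) * (21 * D ^ 2) + 3) := by
    intro t ht
    by_cases h : tp t = 0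
    · have h1 : N4 t = 1 := by rw [hN4', if_pos h]
      have h2 := h5 t ht 0 (by omega)
      have h3 := hbb 0 (by omega)
      rw [h1, Finset.sum_range_one, if_pos h]
      have h6 : b * ((R + 2) * ((s t + 1) * (21 * D ^ 2)) + 1) =
        b * ((R + 2) * (21 * D ^ 2)) * s t + b * ((R + 2) * (21 * D ^ 2)) + b := by ring
      have h7 : b * ((R + 2) * (21 * D ^ 2) + 3) = b * ((R + 2) * (21 * D ^ 2)) + 3 * b := by ring
      omega
    · have h1 : N4 t = 0 := by rw [hN4', if_neg h]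
      rw [h1, Finset.sum_range_zero]
      exact Nat.zero_le _
  have e5 : ∀ t < N, ((c4 t + (cN4 t + (∑ j ∈ range (N4 t), (c5 t j + 1 + bb j)) + 1)
      + 1) + bb t) ≤ b * ((R + 2) * (21 * D ^ 2)) * (if tp t = 0 then s t else 0) +
        b * ((R + 2) * (25 * D ^ 2) + 8) := by
    intro t ht
    have h1 := e4 t ht
    have h2 := h4 t ht
    have h3 := hN4 t ht
    have h6 := hbb t (by omega)
    have h7 : b * ((R + 1) * (N + 1) ^ 2 + 1) ≤ b * ((R + 2) * (4 * D ^ 2) + 1) := by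
      gcongr
      omega
    have h8 : b * ((R + 2) * (25 * D ^ 2) + 8) = b * ((R + 2) * (21 * D ^ 2) + 3) +
      b * ((R + 2) * (4 * D ^ 2) + 1) + 4 * b := by ring
    omega
  have e6 : ∑ t ∈ range N, ((c4 t + (cN4 t + (∑ j ∈ range (N4 t), (c5 t j + 1 + bb j)) + 1)
      + 1) + bb t) ≤ b * ((R + 2) * (46 * W) + 8 * W) := by
    refine (Finset.sum_le_sum fun t ht => e5 t (Finset.mem_range.mp ht)).trans ?_
    rw [Finset.sum_add_distrib, ← Finset.mul_sum, Finset.sum_const, card_range, smul_eq_mul]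
    calc b * ((R + 2) * (21 * D ^ 2)) * ∑ t ∈ range N, (if tp t = 0 then s t else 0) +
        N * (b * ((R + 2) * (25 * D ^ 2) + 8)) ≤ b * ((R + 2) * (21 * D ^ 2)) * N +
        N * (b * ((R + 2) * (25 * D ^ 2) + 8)) := by gcongr
      _ = b * ((R + 2) * (46 * (N * D ^ 2)) + 8 * N) := by ring
      _ ≤ b * ((R + 2) * (46 * W) + 8 * W) := by gcongr
  have e7 : (R + 2) * (46 * W) ≤ 644 * (Λ ^ 4 * W) := by
    calc (R + 2) * (46 * W) ≤ (14 * Λ ^ 4) * (46 * W) := by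
          gcongr
          omega
      _ = 644 * (Λ ^ 4 * W) := by ring
  have hWL : W ≤ Λ ^ 4 * W := Nat.le_mul_of_pos_left _ hL4
  have e8 : b * (37 * W + 100000000 * Λ ^ 4 * W + 1) + (b + (b * ((R + 2) * (46 * W) + 8 * W))
      + 1) ≤ b * (100000689 * (Λ ^ 4 * W) + 3) := by
    have h1 : b * ((R + 2) * (46 * W) + 8 * W) ≤ b * (644 * (Λ ^ 4 * W) + 8 * (Λ ^ 4 * W)) := by
      gcongr
    have h2 : b * (37 * W + 100000000 * Λ ^ 4 * W + 1) ≤
        b * (37 * (Λ ^ 4 * W) + 100000000 * Λ ^ 4 * W + 1) := by gcongr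
    have h3 : b * (100000689 * (Λ ^ 4 * W) + 3) =
      b * (37 * (Λ ^ 4 * W) + 100000000 * Λ ^ 4 * W + 1) +
        b * (644 * (Λ ^ 4 * W) + 8 * (Λ ^ 4 * W)) + 2 * b := by ring
    omega
  calc _ ≤ b * (37 * W + 100000000 * Λ ^ 4 * W + 1) + (b + (b * ((R + 2) * (46 * W) + 8 * W))
      + 1) := by omega
    _ ≤ b * (100000689 * (Λ ^ 4 * W) + 3) := e8
    _ ≤ b * (100001000 * (Λ ^ 4 * (36 * W)) + 100001000 * Λ ^ 4) := by
      gcongr
      · norm_num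
      · omega
      · omega
    _ = (100001000 * b * Λ ^ 4) * (36 * (δ * N) * D ^ 2 + 1) := by rw [hW]; ring

section

variable {κ q b : ℕ → ℕ → ℕ}
  {Fsh : Fam (.prod .nat (.prod .fld (.prod .fld .arr))) .arr}
  {Fmd : Fam (.prod .nat (.prod .nat .arr)) .arr}
  {F1 : Fam In1 Ot1} {F3 : Fam In3 (.prod .arr .arr)}
  {Fvt : Fam TVt .arr} {Fkh : Fam TKh .arr} {Fbt : Fam TBt .arr} {Fra : Fam TRa .arr}
  {FA : Fam TLA .arr} {FB : Fam TLA (.prod .arr .arr)} {FC : Fam TLC .arr} {Fde : Fam TDe TDo}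

theorem theOutK_cost {C : ℕ} (hC : ∀ d p, 2 ^ κ d p ≤ C * (d + 1) ^ 2 ∧
      q d p ≤ C * (d + 1) ^ 2 ∧ 2 ^ b d p ≤ C * (d + 1) ∧ q d p * 2 ^ b d p ≤ C * (d + 1) ^ 2)
    (hok : ∀ (K : Type) [Field K] (κ q e b d p m : ℕ) (f rho s ω : ℕ → K),
      CostOK d m rho (F1 K (κ, (q, (e, (b, (d, (p, (m, (f, (rho, (s, ω)))))))))))) 
    (hmd : ∀ (K : Type) [Field K] (d p : ℕ) [CharP K p] [Fact p.Prime] [PerfectRing K p]
      (f₀ : ℕ → K) (k : Type) [Field k] [IsAlgClosed k] [Algebra K k],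
      IsRho d ((gmon d f₀).map (algebraMap K k)) (Fmd K (d, (p, f₀))))
    (hde1 : ∀ (L : Type) [Field L] (N R t : ℕ) (Q W : ℕ → L),
      (Fde L (N, (R, (Q, (W, t))))).2.1 ≤ N ∧ (Fde L (N, (R, (Q, (W, t))))).1 ≤ t)
    (hde2 : ∀ (L : Type) [Field L] (N R : ℕ) (Q W : ℕ → L),
      ∑ t ∈ range N, (if (Fde L (N, (R, (Q, (W, t))))).1 = 0 then
        (Fde L (N, (R, (Q, (W, t))))).2.1 else 0) ≤ N)
    {s0 : PProg InpK T0} {sN0 : PProg T0 .nat} {s1 : PProg (.prod T0 .nat) T1}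
    {sN1 : PProg T1 .nat} {sN2 : PProg T2 .nat} {s3 : PProg (.prod T2 .nat) T3}
    {sN3 : PProg T3 .nat} {s4 : PProg (.prod T3 .nat) T4} {sN4 : PProg T4 .nat}
    {s5 : PProg (.prod T4 .nat) Prt} {c : ℕ}
    (h0 : CB c s0 (xb0 κ q b Fsh Fmd) kx0) (hN0 : CB c sN0 xbN0 (fun _ _ _ => 0))
    (h1 : CB c s1 (xb1 F1) kx1) (hN1 : CB c sN1 xbN1 (fun _ _ _ => 0))
    (hN2 : CB c sN2 xbN2 (fun _ _ x => x.1.2.2.1)) (h3 : CB c s3 (xb3 F3 Fvt Fkh Fbt Fra) kx3)
    (hN3 : CB c sN3 xbN3 (fun _ _ _ => 0)) (h4 : CB c s4 (xb4 Fde) kx4)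
    (hN4 : CB c sN4 xbN4 (fun _ _ _ => 0)) (h5 : CB c s5 (xb5 FA FB FC) kx5) :
    ∃ C₂, ∀ (K : Type) [Field K] (d p q' M : ℕ) [CharP K p] [Fact p.Prime] [PerfectRing K p]
      (A ω : ℕ → K), p < d ^ 2 → q' ≤ M → M ≤ 2 ^ 14 * d ^ 4 →
        (theOutK s0 sN0 s1 sN1 sN2 s3 sN3 s4 sN4 s5).steps K (d, (p, (q', (M, (A, ω))))) ≤
          C₂ * d ^ 3 * (Nat.log 2 d + 1) ^ C₂ := by
  set Q' := C ^ 2 + 4 * C + 2 with hQ'
  set PA := Q' * (C + 1) + 1000000000 with hPA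
  set PV := C + 17000 with hPV
  obtain ⟨c', hc'⟩ := log_factor c (PA + PV)
  set Mc := 2 * Q' * (Nat.log 2 C + 6) + 100 with hMc
  refine ⟨800008000 * (c' + 4) * Mc + c' + 6,
    fun K _ d p q' M _ _ _ A ω hp hqM hMd => ?_⟩
  have hd : 1 ≤ d := by
    rcases Nat.eq_zero_or_pos d with rfl | h
    · simp at hp
    · exact h
  have hp2 : 2 ≤ p := (Fact.out : p.Prime).two_le
  set Λ := Nat.log 2 d + 1 with hΛ
  have hΛ1 : 1 ≤ Λ := by omega
  have hlog : Nat.log 2 d ≤ d := Nat.log_le_self _ _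
  set x : InpK.val K := (d, (p, (q', (M, (A, ω))))) with hx
  set y := xb0 κ q b Fsh Fmd K x with hy
  set rho := aRho Fsh Fmd K (d, (p, (A, ω))) with hrho
  set B1 := (c' + 4) * Λ ^ (c' + 1) with hB1d
  have hB1 : 1 ≤ B1 := by
    have : 1 ≤ Λ ^ (c' + 1) := Nat.one_le_pow _ _ hΛ1
    nlinarith
  have hBc : c' * Λ ^ c' ≤ B1 := by
    have : Λ ^ c' ≤ Λ ^ (c' + 1) := Nat.pow_le_pow_right hΛ1 (by omega)
    exact Nat.mul_le_mul (by omega) this
  have hBb1 : ∀ i < d + 1, bitc i 0 ≤ B1 := by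
    intro i hi
    refine (bitc_zero_le (d := d) (by omega)).trans ?_
    have : Λ ≤ Λ ^ (c' + 1) := by
      calc Λ = Λ ^ 1 := (pow_one _).symm
        _ ≤ Λ ^ (c' + 1) := Nat.pow_le_pow_right hΛ1 (by omega)
    exact Nat.mul_le_mul (by omega) this
  have hL4 : 1 ≤ Λ ^ 4 := Nat.one_le_pow _ _ hΛ1
  set B := 100001000 * B1 * Λ ^ 4 with hB
  have hBB : B1 ≤ B := by
    calc B1 = 1 * B1 * 1 := by ring
      _ ≤ B := by
        rw [hB]
        gcongr
        norm_num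
  have hBB1 : 1 ≤ B := hB1.trans hBB
  have hBb : ∀ i < d + 1, bitc i 0 ≤ B := fun i hi => (hBb1 i hi).trans hBB
  have hpw : ∀ {i j : ℕ}, i ≤ j → (d + 1) ^ i ≤ (d + 1) ^ j := fun h =>
    Nat.pow_le_pow_right (by omega) h
  have h19 : 1 ≤ (d + 1) ^ 9 := Nat.one_le_pow _ _ (by omega)
  set V := PV * (d + 1) ^ 4 with hVdef
  have hV9 : V ≤ PV * (d + 1) ^ 9 := Nat.mul_le_mul_left _ (hpw (by omega))
  have hVd : 17000 * (d + 1) ≤ V := by
    rw [hVdef]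
    exact Nat.mul_le_mul (by omega) (Nat.le_self_pow (by norm_num) _)
  have hmV : ∀ m ≤ d, m ≤ V := fun m hm => by omega
  have hVM : M ≤ V := by
    refine hMd.trans ?_
    rw [hVdef]
    exact Nat.mul_le_mul (by omega) (Nat.pow_le_pow_left (by omega) 4)
  have hSt : St0.nmx K (a0 κ q b Fsh Fmd K (d, (p, (A, ω)))) ≤ V := by
    refine (St0_nmx hC hp A ω).trans ?_
    rw [hVdef]
    exact Nat.mul_le_mul (by omega) (hpw (by omega))
  have hpd : p ≤ (d + 1) ^ 2 := by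
    have : d ^ 2 ≤ (d + 1) ^ 2 := Nat.pow_le_pow_left (by omega) 2
    omega
  have hlF : lF d = 4 * Nat.log 2 d + 18 := rfl
  have hRF : RF d = 4 * Nat.log 2 d + 12 := rfl
  have hmin : min (Nat.log q' M) (lF d) ≤ lF d := min_le_right _ _
  have hPq : Pq.nmx K (xbPq K x) ≤ V := by
    change max q' (max M (max (lF d) (max (min (Nat.log q' M) (lF d)) (RF d)))) ≤ V
    simp only [max_le_iff]
    exact ⟨by omega, by omega, by omega, by omega, by omega⟩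
  have hV : T0.nmx K y ≤ V := by
    change max (Pq.nmx K (xbPq K x)) (max (St0.nmx K (a0 κ q b Fsh Fmd K (d, (p, (A, ω))))) 0) ≤ V
    exact max_le hPq (max_le hSt (Nat.zero_le _))
  have hpV : p ≤ V := by
    have e : Inp.nmx K (d, (p, (A, ω))) ≤ V := (le_max_left _ _).trans hSt
    exact (le_max_left _ _).trans ((le_max_right _ _).trans e)
  have hxV : InpK.nmx K x ≤ V := by
    change max d (max p (max q' (max M (max 0 0)))) ≤ V
    simp only [max_le_iff]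
    exact ⟨by omega, by omega, by omega, by omega, by omega, by omega⟩
  have step : ∀ {a b : Ty} {t : PProg a b} {F : Fam a b} {g : CFam a} (h : CB c t F g)
      (u : a.val K) (G : ℕ), g K u ≤ G → g K u + 2 ≤ PA * (d + 1) ^ 9 →
      a.nmx K u ≤ V → t.bcost K u ≤ B1 * (G + 1) := by
    intro a b t F g h u G hG hG9 hu
    have e1 : g K u + a.nmx K u + 2 ≤ (PA + PV) * (d + 1) ^ 9 := by
      rw [Nat.add_mul]
      omega
    refine ((h K u).2.trans (hc' d _ _ hd e1)).trans ?_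
    exact Nat.mul_le_mul hBc (by omega)
  have stepB : ∀ {a b : Ty} {t : PProg a b} {F : Fam a b} {g : CFam a} (h : CB c t F g)
      (u : a.val K) (G : ℕ), g K u ≤ G → g K u + 2 ≤ PA * (d + 1) ^ 9 →
      a.nmx K u ≤ V → t.bcost K u ≤ B * (G + 1) := by
    intro a b t F g h u G hG hG9 hu
    exact (step h u G hG hG9 hu).trans (Nat.mul_le_mul_right _ hBB)
  obtain ⟨hCκ, hCq, hCb, hCqb⟩ := hC d p
  set z : ℕ → T1.val K := fun m => xb1 F1 K (y, m) with hz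
  set n : ℕ → ℕ := fun m => (z m).2.2.1 with hn
  set S : ℕ → ℕ → K := fun m => (z m).2.2.2.2.2.2 with hS
  set w : ℕ → ℕ → T3.val K := fun m δ => xb3 F3 Fvt Fkh Fbt Fra K ((z m, δ), 0) with hw
  set u : ℕ → ℕ → ℕ → T4.val K := fun m δ t => xb4 Fde K (w m δ, t) with hu
  have hcok : ∀ m, CostOK d m rho (z m).2.2 := fun m => ok1 hok d p A ω m
  have hgd : ∀ m, gmn d m rho ≤ d := fun m => by
    unfold gmn
    split_ifs with h
    · exact h
    · exact Nat.zero_le _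
  have hng : ∀ m, n m ≤ gmn d m rho := by
    intro m
    obtain ⟨e1, e2, -⟩ := hcok m
    rcases Nat.eq_zero_or_pos m with h | h
    · change (z m).2.2.1 ≤ _
      rw [e2 h]
      exact Nat.zero_le _
    · rw [← e1]
      exact Nat.le_mul_of_pos_left _ h
  have hν : ∀ m, ∑ δ ∈ range (n m + 1), δ * numc (n m) δ (S m) ≤ n m := by
    intro m
    obtain ⟨-, -, a, ha, hb, hc⟩ := hcok m
    exact sum_numc_le ha hb hc
  have hsteps := XR6_steps (s0 := s0) (sN0 := sN0) (s1 := s1) (sN1 := sN1) (sN2 := sN2)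
    (s3 := s3) (sN3 := sN3) (s4 := s4) (sN4 := sN4) (s5 := s5) (K := K) (x := x) (y := y)
    (N0 := xbN0 K y) (z := z) (n := n) (N2 := fun m δ => xbN2 K (z m, δ))
    (N3 := fun m δ => xbN3 K (w m δ)) (w := w) (u := u) (N4 := fun m δ t => xbN4 K (u m δ t))
    (h0 K x).1 (hN0 K y).1 (fun m => (h1 K (y, m)).1)
    (fun m => (hN1 K (z m)).1) (fun m δ => (hN2 K (z m, δ)).1)
    (fun m δ l => (h3 K ((z m, δ), l)).1) (fun m δ => (hN3 K (w m δ)).1)
    (fun m δ t => (h4 K (w m δ, t)).1) (fun m δ t => (hN4 K (u m δ t)).1)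
  rw [hsteps]
  -- the parts
  set e := Nat.log p (q d p) with he
  have heq : e ≤ q d p := Nat.log_le_self _ _
  have hk1 : ∀ m, kx1 K (y, m) ≤ Q' * (d + 1) ^ 2 * (e + 1) * (gmn d m rho + 1) := fun m =>
    k1_le hCκ hCq hCb hCqb hpd m rho
  have hk0 : kx0 K x ≤ 2 * (d + 1) ^ 3 := by
    change (d + 1) ^ 3 + p * (d + 1) ≤ 2 * (d + 1) ^ 3
    have : p * (d + 1) ≤ (d + 1) ^ 2 * (d + 1) := Nat.mul_le_mul_right _ hpd
    have : (d + 1) ^ 2 * (d + 1) = (d + 1) ^ 3 := by ring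
    omega
  have hbig : ∀ G : ℕ, G ≤ (Q' * (C + 1) + 999999998) * (d + 1) ^ 9 →
      G + 2 ≤ PA * (d + 1) ^ 9 := by
    intro G hG
    have e2 : PA * (d + 1) ^ 9 =
      (Q' * (C + 1) + 999999998) * (d + 1) ^ 9 + 2 * (d + 1) ^ 9 := by rw [hPA]; ring
    omega
  have hb0 : (0 : ℕ) ≤ (Q' * (C + 1) + 999999998) * (d + 1) ^ 9 := Nat.zero_le _
  have hznmx : ∀ m ≤ d, T1.nmx K (z m) ≤ V := by
    intro m hm
    have e1 : (z m).2.2.1 ≤ V := (hng m).trans ((hgd m).trans (by omega))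
    change max (max (Pq.nmx K (xbPq K x)) 0)
      (max (max (St0.nmx K (a0 κ q b Fsh Fmd K (d, (p, (A, ω))))) m)
        (max (z m).2.2.1 (max 0 (max 0 (max 0 0))))) ≤ V
    simp only [max_le_iff]
    exact ⟨⟨hPq, by omega⟩, ⟨hSt, by omega⟩, e1, by omega, by omega, by omega, by omega⟩
  refine (total_arith (D := d + 1) (Q' := Q') (E := e + 1) (g := fun m => gmn d m rho)
    (ν := fun m δ => numc (n m) δ (S m)) (B := B) hBB1 (by omega) ?_ ?_ ?_ hBb
    ((sum_gmn_rho hmd A ω).trans (by omega)) (fun m _ => hng m)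
    (fun m _ => Nat.lt_succ_of_le (hgd m)) ?_ ?_ ?_ ?_ (fun m _ => hν m) ?_).trans ?_
  · refine stepB h0 x _ hk0 (hbig _ (hk0.trans ?_)) hxV
    exact Nat.mul_le_mul (by omega) (hpw (by omega))
  · exact (stepB hN0 y 0 le_rfl (hbig 0 hb0) hV).trans (by omega)
  · change aN0 K y.2.1 ≤ d + 1
    unfold aN0
    split_ifs
    · exact Nat.zero_le _
    · exact le_rfl
  · intro m hm
    refine stepB h1 (y, m) _ (hk1 m) (hbig _ ((hk1 m).trans ?_)) (max_le hV (hmV m (by omega)))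
    have e1 : (d + 1) ^ 2 * (e + 1) * (gmn d m rho + 1) ≤ (C + 1) * (d + 1) ^ 9 := by
      have f1 : e + 1 ≤ (C + 1) * (d + 1) ^ 2 := by
        have : 1 ≤ (d + 1) ^ 2 := Nat.one_le_pow _ _ (by omega)
        rw [Nat.add_mul, one_mul]
        omega
      calc (d + 1) ^ 2 * (e + 1) * (gmn d m rho + 1)
          ≤ (d + 1) ^ 2 * ((C + 1) * (d + 1) ^ 2) * (d + 1) := by
            have := hgd m
            gcongr
        _ = (C + 1) * (d + 1) ^ 5 := by ring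
        _ ≤ (C + 1) * (d + 1) ^ 9 := Nat.mul_le_mul_left _ (hpw (by omega))
    calc Q' * (d + 1) ^ 2 * (e + 1) * (gmn d m rho + 1) =
        Q' * ((d + 1) ^ 2 * (e + 1) * (gmn d m rho + 1)) := by ring
      _ ≤ Q' * ((C + 1) * (d + 1) ^ 9) := Nat.mul_le_mul_left _ e1
      _ = Q' * (C + 1) * (d + 1) ^ 9 := by ring
      _ ≤ (Q' * (C + 1) + 999999998) * (d + 1) ^ 9 := Nat.mul_le_mul_right _ (by omega)
  · intro m hm
    exact (stepB hN1 (z m) 0 le_rfl (hbig 0 hb0) (hznmx m (by omega))).trans (by omega)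
  · intro m hm δ hδ
    have hnd : n m ≤ d := (hng m).trans (hgd m)
    refine stepB hN2 (z m, δ) (n m) le_rfl (hbig _ ?_)
      (max_le (hznmx m (by omega)) (hmV δ (by omega)))
    change n m ≤ _
    calc n m ≤ 1 * (d + 1) ^ 1 := by rw [one_mul, pow_one]; omega
      _ ≤ _ := Nat.mul_le_mul (by omega) (hpw (by omega))
  · intro m hm δ hδ
    change aN2 K ((z m).2, δ) ≤ 1 ∧ aN2 K ((z m).2, δ) ≤ δ * numc (n m) δ (S m)
    unfold aN2
    dsimp only
    split_ifs with e1 e2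
    · simp
    · simp
    · refine ⟨le_rfl, Nat.mul_pos (Nat.pos_of_ne_zero e1) (Nat.pos_of_ne_zero e2)⟩
  · intro m hm δ hδ l hl
    have hl' : l < aN2 K ((z m).2, δ) := hl
    have hnd : n m ≤ d := (hng m).trans (hgd m)
    have e1 : δ ≠ 0 ∧ numc (n m) δ (S m) ≠ 0 ∧ l = 0 := by
      unfold aN2 at hl'
      dsimp only at hl'
      split_ifs at hl' with f1 f2
      · exact absurd hl' (Nat.not_lt_zero _)
      · exact absurd hl' (Nat.not_lt_zero _)
      · exact ⟨f1, f2, Nat.lt_one_iff.mp hl'⟩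
    obtain ⟨e1, e2, rfl⟩ := e1
    have e3 : δ * numc (n m) δ (S m) ≤ n m :=
      (Finset.single_le_sum (f := fun δ => δ * numc (n m) δ (S m)) (fun _ _ => Nat.zero_le _)
        (Finset.mem_range.mpr hδ)).trans (hν m)
    set N := numc (n m) δ (S m) with hN
    have hN1' : 1 ≤ N := Nat.pos_of_ne_zero e2
    have hδ1 : 1 ≤ δ := Nat.pos_of_ne_zero e1
    have hND : N ≤ n m := (Nat.le_mul_of_pos_left _ hδ1).trans e3
    have hδD : δ ≤ n m := (Nat.le_mul_of_pos_right _ hN1').trans e3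
    have e4 : kk3 K (((z m).2, δ), 0) ≤ 36 * (δ * N) * (d + 1) ^ 2 := by
      change (δ + 1) * (N + 1) * (d + n m + δ + 1) ^ 2 ≤ _
      have f1 : δ + 1 ≤ 2 * δ := by omega
      have f2 : N + 1 ≤ 2 * N := by omega
      have f3 : d + n m + δ + 1 ≤ 3 * (d + 1) := by omega
      calc (δ + 1) * (N + 1) * (d + n m + δ + 1) ^ 2
          ≤ (2 * δ) * (2 * N) * (3 * (d + 1)) ^ 2 := by gcongr
        _ = _ := by ring
    set T := min (Nat.log q' M) (lF d) + RF d + lF d + 2 with hT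
    have hT50 : T ≤ 50 * Λ := by omega
    have hTd : T ≤ 50 * (d + 1) := by omega
    have e5 : kx3 K ((z m, δ), 0) ≤ 36 * (δ * N) * (d + 1) ^ 2 + n m +
        T ^ 4 * ((N + 1) * ((N + 1) ^ 2 + (δ + 1) ^ 2)) := by
      change kk3 K (((z m).2, δ), 0) + n m + T ^ 4 * ((N + 1) * ((N + 1) ^ 2 + (δ + 1) ^ 2)) ≤ _
      omega
    have e6 : 36 * (δ * N) * (d + 1) ^ 2 + n m +
        T ^ 4 * ((N + 1) * ((N + 1) ^ 2 + (δ + 1) ^ 2)) ≤
        (Q' * (C + 1) + 999999998) * (d + 1) ^ 9 := by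
      calc 36 * (δ * N) * (d + 1) ^ 2 + n m + T ^ 4 * ((N + 1) * ((N + 1) ^ 2 + (δ + 1) ^ 2))
          ≤ 36 * (d + 1) * (d + 1) ^ 2 + (d + 1) + (50 * (d + 1)) ^ 4 *
            ((d + 1) * ((d + 1) ^ 2 + (d + 1) ^ 2)) := by
            gcongr <;> omega
        _ = 36 * (d + 1) ^ 3 + (d + 1) ^ 1 + 12500000 * (d + 1) ^ 7 := by ring
        _ ≤ 36 * (d + 1) ^ 9 + (d + 1) ^ 9 + 12500000 * (d + 1) ^ 9 := by
            have f1 := hpw (show 3 ≤ 9 by norm_num)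
            have f2 := hpw (show 1 ≤ 9 by norm_num)
            have f3 := hpw (show 7 ≤ 9 by norm_num)
            omega
        _ = 12500037 * (d + 1) ^ 9 := by ring
        _ ≤ (Q' * (C + 1) + 999999998) * (d + 1) ^ 9 := Nat.mul_le_mul_right _ (by omega)
    have hwnmx : T3.nmx K (w m δ) ≤ V := by
      change max m (max d (max δ (max N (max (RF d) (max 0 (max 0 (max 0 0))))))) ≤ V
      simp only [max_le_iff]
      exact ⟨by omega, by omega, by omega, by omega, by omega, by omega, by omega, by omega,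
        by omega⟩
    set tp : ℕ → ℕ := fun t => (u m δ t).2.1 with htp
    set s : ℕ → ℕ := fun t => (u m δ t).2.2.1 with hs
    have hde1' : ∀ t, s t ≤ N ∧ tp t ≤ t := fun t => hde1 K N (RF d) t _ _
    refine XR6_arith (b := B1) (Λ := Λ) (R := RF d) (N := N) (δ := δ) (D := d + 1) (T := T)
      (n := n m) (s := s) (tp := tp) (bb := fun j => bitc j 0) hB1 hΛ1 (by omega) hT50 hN1' hδ1
      (by omega) (by omega) ?_ ?_ ?_ ?_ ?_ ?_ ?_ ?_
    · exact step h3 ((z m, δ), 0) _ e5 (hbig _ (e5.trans e6))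
        (max_le (max_le (hznmx m (by omega)) (hmV δ (by omega))) (Nat.zero_le _))
    · exact (step hN3 (w m δ) 0 le_rfl (hbig 0 hb0) hwnmx).trans (by omega)
    · intro t ht
      refine step h4 (w m δ, t) _ le_rfl (hbig _ ?_) (max_le hwnmx (hmV t (by omega)))
      change (RF d + 1) * (N + 1) ^ 2 ≤ _
      calc (RF d + 1) * (N + 1) ^ 2 ≤ (13 * (d + 1)) * (d + 1) ^ 2 := by
            gcongr <;> omega
        _ = 13 * (d + 1) ^ 3 := by ring
        _ ≤ (Q' * (C + 1) + 999999998) * (d + 1) ^ 9 :=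
          Nat.mul_le_mul (by omega) (hpw (by norm_num))
    · intro t ht
      have hunmx : T4.nmx K (u m δ t) ≤ V := by
        change max (T3.nmx K (w m δ)) (max (tp t) (max (s t) 0)) ≤ V
        obtain ⟨f1, f2⟩ := hde1' t
        simp only [max_le_iff]
        exact ⟨hwnmx, by omega, by omega, by omega⟩
      exact (step hN4 (u m δ t) 0 le_rfl (hbig 0 hb0) hunmx).trans (by omega)
    · intro t ht j hj
      obtain ⟨f1, f2⟩ := hde1' t
      have hunmx : T4.nmx K (u m δ t) ≤ V := by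
        change max (T3.nmx K (w m δ)) (max (tp t) (max (s t) 0)) ≤ V
        simp only [max_le_iff]
        exact ⟨hwnmx, by omega, by omega, by omega⟩
      have hj1 : j ≤ 1 := by
        have : j < xbN4 K (u m δ t) := hj
        unfold xbN4 at this
        split_ifs at this <;> omega
      have f3 : kx5 K (u m δ t, j) ≤ (RF d + 2) * ((s t + 1) * (21 * (d + 1) ^ 2)) := by
        change (RF d + 2) * ((s t + 1) * ((δ + 1) ^ 2 * (N + s t + 1) + (N + 1) ^ 2 +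
          (s t + 1) ^ 2 + (d + 1) ^ 2)) ≤ _
        have g1 : (δ + 1) ^ 2 * (N + s t + 1) ≤ 12 * (d + 1) ^ 2 := by
          calc (δ + 1) ^ 2 * (N + s t + 1) ≤ (2 * δ) ^ 2 * (3 * N) := by
                gcongr <;> omega
            _ = 12 * (δ * (δ * N)) := by ring
            _ ≤ 12 * ((d + 1) * (d + 1)) := by gcongr <;> omega
            _ = 12 * (d + 1) ^ 2 := by ring
        have g2 : (N + 1) ^ 2 ≤ (d + 1) ^ 2 := Nat.pow_le_pow_left (by omega) 2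
        have g3 : (s t + 1) ^ 2 ≤ (d + 1) ^ 2 := Nat.pow_le_pow_left (by omega) 2
        gcongr
        omega
      refine step h5 (u m δ t, j) _ f3 (hbig _ (f3.trans ?_)) (max_le hunmx (hmV j (by omega)))
      calc (RF d + 2) * ((s t + 1) * (21 * (d + 1) ^ 2)) ≤
          (14 * (d + 1)) * ((d + 1) * (21 * (d + 1) ^ 2)) := by gcongr <;> omega
        _ = 294 * (d + 1) ^ 4 := by ring
        _ ≤ (Q' * (C + 1) + 999999998) * (d + 1) ^ 9 :=
          Nat.mul_le_mul (by omega) (hpw (by norm_num))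
    · intro t ht
      exact hBb1 t (by omega)
    · intro t
      rfl
    · exact hde2 K N (RF d) _ _
  · have he2 : e + 1 ≤ (Nat.log 2 C + 6) * Λ := by
      have f1 : e ≤ Nat.log 2 (q d p) := Nat.log_anti_left (by norm_num) hp2
      have f2 : Nat.log 2 (q d p) ≤ Nat.log 2 (C * (d + 1) ^ 2) := Nat.log_mono_right hCq
      exact (Nat.succ_le_succ (f1.trans f2)).trans (XR6_log C hd)
    have hd3 : (d + 1) ^ 3 ≤ 8 * d ^ 3 := by
      calc (d + 1) ^ 3 ≤ (2 * d) ^ 3 := Nat.pow_le_pow_left (by omega) 3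
        _ = 8 * d ^ 3 := by ring
    have e1 : 2 * Q' * (e + 1) + 100 ≤ Mc * Λ := by
      calc 2 * Q' * (e + 1) + 100 ≤ 2 * Q' * ((Nat.log 2 C + 6) * Λ) + 100 * Λ := by
            gcongr
            omega
        _ = Mc * Λ := by rw [hMc]; ring
    have e2 : Λ ^ (c' + 6) ≤ Λ ^ (800008000 * (c' + 4) * Mc + c' + 6) :=
      Nat.pow_le_pow_right hΛ1 (Nat.add_le_add_right (Nat.le_add_left _ _) _)
    calc B * (d + 1) ^ 3 * (2 * Q' * (e + 1) + 100) ≤ B * (8 * d ^ 3) * (Mc * Λ) := by gcongr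
      _ = 800008000 * (c' + 4) * Mc * d ^ 3 * Λ ^ (c' + 6) := XR6_fin c' Mc d Λ
      _ ≤ (800008000 * (c' + 4) * Mc + c' + 6) * d ^ 3 *
          Λ ^ (800008000 * (c' + 4) * Mc + c' + 6) :=
        Nat.mul_le_mul (Nat.mul_le_mul_right _
          ((Nat.le_add_right _ c').trans (Nat.le_add_right _ 6))) e2

end

end Pool.Agent.AbsIrr
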