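import Mathlib
import Pool.Agent.Lib.MP_2adc98_lc.XCount
import Pool.Agent.Lib.MP_2adc98_lc.XR1
import Pool.Agent.Lib.MP_2adc98_lc.XR2
import Pool.Agent.Lib.MP_2adc98_lc.XR3
import Pool.Agent.Lib.MP_2adc98_lc.XR4
import Pool.Agent.Lib.MP_2adc98_lc.XR6
import Pool.Agent.Lib.MP_2adc98_lc.XP1
import Pool.Agent.Lib.MP_2adc98_lc.XP2
import Pool.Agent.Lib.MP_2adc98_lc.XB
import Pool.Agent.Lib.MP_2adc98_lc.XC
import Pool.Agent.Lib.MP_2adc98_lc.XD
import Pool.Agent.Lib.MP_2adc98_lc.XF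
import Pool.Agent.Lib.MP_2adc98_lc.XG
import Pool.Agent.Lib.MP_2adc98_lc.XH
import Pool.Agent.Lib.MP_2adc98_lc.XI
import Pool.Agent.Lib.MP_2adc98_lc.XJ
import Pool.Agent.Lib.MP_2adc98_lc.XL
import Pool.Agent.Lib.MP_2adc98_lc.FMDR
import Pool.Agent.Lib.MP_2adc98_lc.FP1
import Pool.Agent.Lib.MP_2adc98_lc.FP3

/-!
# MP_2adc98_lc: absolute factorization in `Õ(d³)` steps with output over the ground field
-/

set_option autoImplicit false
set_option linter.unusedSectionVars false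

namespace Pool.Agent.AbsIrr

open Finset Polynomial

/-- the main statement with output over `K` -/
def FullStatementK : Prop :=
  ∃ (A : POut Prt InpK) (C : ℕ), ∀ (K : Type) [Field K] [PerfectField K] (p d : ℕ) [CharP K p],
    0 < p → p < d ^ 2 →
    (∀ f : MvPolynomial (Fin 2) K, f.totalDegree = d →
      (∀ S : Finset K, 128 * d ^ 2 ≤ S.card →
        FactorsK A p d 0 0 f K S (C * d ^ 3) (C * d ^ 3 * (Nat.log 2 d + 1) ^ C)) ∧
      ∀ [Fintype K] (L : Type) [Field L] [Fintype L] [Algebra K L],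
        128 * d ^ 2 ≤ Fintype.card L → Fintype.card L ≤ (128 * d ^ 2) ^ 2 →
        FactorsK A p d (Fintype.card K) (Fintype.card L) f L Finset.univ (C * d ^ 3)
          (C * d ^ 3 * (Nat.log 2 d + 1) ^ C)) ∧
    ∀ [Fintype K], Fintype.card K < 128 * d ^ 2 →
      ∃ (L : Type) (_ : Field L) (_ : Fintype L) (_ : Algebra K L),
        128 * d ^ 2 ≤ Fintype.card L ∧ Fintype.card L ≤ (128 * d ^ 2) ^ 2 ∧
          Module.finrank K L ≤ C * (Nat.log 2 d + 1)

/-- the projection to the input of stage 2 -/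
def inpOf : Fam InpK Inp := fun _ _ x => (x.1, (x.2.1, x.2.2.2.2))
/-- the number of elements of the small field -/
def qOf : Fam InpK .nat := fun _ _ x => x.2.2.1

theorem inpOf_rz : RzQ inpOf (fun _ _ _ => 0) := by
  refine RzQ.of ?_
  unfold inpOf
  have h0 : RlzQ (a := InpK) (b := InpK) (fun _ _ x => x) (fun _ _ _ => 0) := RlzQ.input
  exact zp (RlzQ.fst h0) (zp (RlzQ.fst (RlzQ.snd h0))
    (RlzQ.snd (RlzQ.snd (RlzQ.snd (RlzQ.snd h0)))))

theorem qOf_rz : RzQ qOf (fun _ _ _ => 0) := by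
  refine RzQ.of ?_
  unfold qOf
  have h0 : RlzQ (a := InpK) (b := InpK) (fun _ _ x => x) (fun _ _ _ => 0) := RlzQ.input
  exact RlzQ.fst (RlzQ.snd (RlzQ.snd h0))

theorem triple_map_self {K : Type} [Field K] (t : Triple K) : Triple.map K K t = t := by
  unfold Triple.map
  rw [Algebra.algebraMap_self, Polynomial.map_id]
  have h : mapRingHom (RingHom.id K) = RingHom.id K[X] := Polynomial.mapRingHom_id
  rw [h, MvPolynomial.map_id]

/-- the lengths of the tapes -/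
theorem len_le {κ : ℕ → ℕ → ℕ} {C₀ d p : ℕ} (hd : 1 ≤ d)
    (hC : 2 ^ κ d p ≤ C₀ * (d + 1) ^ 2) :
    len2 κ d p + len3 d (RF d) ≤ (4 * C₀ + 50) * d ^ 3 := by
  have g2 : d * 2 ^ κ d p ≤ d * (C₀ * (2 * d) ^ 2) := by
    gcongr
    refine hC.trans ?_
    gcongr
    omega
  have g3 : d * (C₀ * (2 * d) ^ 2) = 4 * C₀ * d ^ 3 := by ring
  have hlog : Nat.log 2 d ≤ d := Nat.log_le_self _ _
  have e1 : d ≤ d ^ 3 := Nat.le_self_pow (by norm_num) d
  have e2 : d ^ 2 ≤ d ^ 3 := Nat.pow_le_pow_right hd (by norm_num)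
  have e3 : 1 ≤ d ^ 3 := Nat.one_le_pow _ _ hd
  have e4 : RF d * d ≤ 16 * d ^ 2 := by
    unfold RF
    calc (4 * Nat.log 2 d + 12) * d ≤ (16 * d) * d := Nat.mul_le_mul_right _ (by omega)
      _ = 16 * d ^ 2 := by ring
  have e5 : RF d ≤ 16 * d := by
    unfold RF
    omega
  have e6 : (d + 1) ^ 2 ≤ 4 * d ^ 2 := by nlinarith
  have e7 : (4 * C₀ + 50) * d ^ 3 = 4 * C₀ * d ^ 3 + 50 * d ^ 3 := by ring
  unfold len2 len3
  omega

/-- the number of steps of the whole program -/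
theorem steps_arith {Λ d x₁ x₂ c' C₂ C : ℕ} (hd : 1 ≤ d) (hΛ : 1 ≤ Λ) (hC : C₂ + 2 * c' + 2 ≤ C)
    (h1 : x₁ ≤ 2 * (c' * Λ ^ c') + 2) (h2 : x₂ ≤ C₂ * d ^ 3 * Λ ^ C₂) :
    x₁ + x₂ ≤ C * d ^ 3 * Λ ^ C := by
  have e0 : 1 ≤ d ^ 3 := Nat.one_le_pow _ _ hd
  have e1 : Λ ^ c' ≤ Λ ^ C := Nat.pow_le_pow_right hΛ (by omega)
  have e2 : Λ ^ C₂ ≤ Λ ^ C := Nat.pow_le_pow_right hΛ (by omega)
  have e3 : 1 ≤ Λ ^ C := Nat.one_le_pow _ _ hΛ
  have e4 : Λ ^ C ≤ d ^ 3 * Λ ^ C := Nat.le_mul_of_pos_left _ e0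
  have f1 : c' * Λ ^ c' ≤ c' * (d ^ 3 * Λ ^ C) := Nat.mul_le_mul_left _ (e1.trans e4)
  have f2 : C₂ * d ^ 3 * Λ ^ C₂ ≤ C₂ * (d ^ 3 * Λ ^ C) := by
    calc C₂ * d ^ 3 * Λ ^ C₂ ≤ C₂ * d ^ 3 * Λ ^ C := Nat.mul_le_mul_left _ e2
      _ = C₂ * (d ^ 3 * Λ ^ C) := by ring
  calc x₁ + x₂ ≤ 2 * (c' * (d ^ 3 * Λ ^ C)) + 2 * (d ^ 3 * Λ ^ C) + C₂ * (d ^ 3 * Λ ^ C) := by
        omega
    _ = (C₂ + 2 * c' + 2) * (d ^ 3 * Λ ^ C) := by ring
    _ ≤ C * (d ^ 3 * Λ ^ C) := Nat.mul_le_mul_right _ hC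
    _ = C * d ^ 3 * Λ ^ C := by ring

section
variable (K : Type) [Field K] {a b c : Ty}

theorem POut.eval_ite (t : PProg a .nat) (f g : POut b a) (x : a.val K) :
    (POut.ite t f g).eval K x = if (t.eval K x : ℕ) ≠ 0 then f.eval K x else g.eval K x := rfl

theorem POut.steps_ite (t : PProg a .nat) (f g : POut b a) (x : a.val K) :
    (POut.ite t f g).steps K x =
      t.steps K x + (if (t.eval K x : ℕ) ≠ 0 then f.steps K x else g.steps K x) + 1 := rfl

theorem POut.eval_after (f : PProg a c) (g : POut b c) (x : a.val K) :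
    (POut.after f g).eval K x = g.eval K (f.eval K x) := rfl

theorem POut.steps_after (f : PProg a c) (g : POut b c) (x : a.val K) :
    (POut.after f g).steps K x = f.steps K x + g.steps K (f.eval K x) + 1 := rfl

end

/-- the run of the whole program -/
theorem whole_run {tQ : PProg InpK .nat} {tI : PProg InpK Inp} {P : POut Prt InpK}
    {P' : Out Prt Inp} (L : Type) [Field L] (hQ : ∀ x, tQ.run L x = qOf L x)
    (hI : ∀ x, tI.run L x = inpOf L x) :
    (∀ x : InpK.val L, (x.2.2.1 : ℕ) ≠ 0 →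
      (POut.ite tQ P (.after tI P'.toPOut)).eval L x = P.eval L x ∧
      (POut.ite tQ P (.after tI P'.toPOut)).steps L x = tQ.bcost L x + P.steps L x + 1) ∧
    ∀ x : InpK.val L, (x.2.2.1 : ℕ) = 0 →
      (POut.ite tQ P (.after tI P'.toPOut)).eval L x = P'.eval L (inpOf L x) ∧
      (POut.ite tQ P (.after tI P'.toPOut)).steps L x =
        tQ.bcost L x + (tI.bcost L x + P'.steps L (inpOf L x) + 1) + 1 := by
  have hq : ∀ x, tQ.eval L x = x.2.2.1 := fun x => by rw [PProg.eval_eq, hQ]; rfl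
  have hi : ∀ x, tI.eval L x = inpOf L x := fun x => by rw [PProg.eval_eq, hI]
  refine ⟨fun x hx => ⟨?_, ?_⟩, fun x hx => ⟨?_, ?_⟩⟩
  · rw [POut.eval_ite, hq, if_pos hx]
  · rw [POut.steps_ite, hq, if_pos hx, PProg.steps_eq]
  · rw [POut.eval_ite, hq, if_neg (not_not.mpr hx), POut.eval_after, hi, Out.toPOut_eval]
  · rw [POut.steps_ite, hq, if_neg (not_not.mpr hx), POut.steps_after, hi, Out.toPOut_steps,
      PProg.steps_eq, PProg.steps_eq]

theorem main_fullK : FullStatementK := by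
  classical
  obtain ⟨κ, qq, b, hprm, ⟨C₀, hC⟩, hpar⟩ := params
  obtain ⟨Fsh, hFsh, hsh⟩ := shift_rlz
  obtain ⟨Fmd, hFmd, hmd⟩ := md_rlz
  obtain ⟨F1, hF1, hok, h1s⟩ := p1_rlz
  obtain ⟨F3, hF3, h3s⟩ := p3_rlz
  obtain ⟨Φ, hΦc, hΦT, hΦt, hΦm⟩ := bridge_XX
  obtain ⟨Fvt, hFvt, hvt⟩ := vtab_rlz
  obtain ⟨Fkh, hFkh, hkh⟩ := kerH_rlz
  obtain ⟨Fbt, hFbt, hbt⟩ := bit_rlz
  obtain ⟨Fra, hFra, hra⟩ := rat_rlz
  obtain ⟨FA, hFA, hA⟩ := leafA_rlz
  obtain ⟨FB, hFB, hB⟩ := leafB_rlz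
  obtain ⟨FC, hFC, hC'⟩ := leafC_rlz
  obtain ⟨Fde, hFde, hde1, hde2, hde⟩ := desc_rlz
  obtain ⟨t0, c0, h0⟩ := (a0_rz hprm hC hFsh hFmd).exists_prog
  obtain ⟨tN0, cN0, hN0⟩ := aN0_rz.exists_prog
  obtain ⟨t1, c1, h1⟩ := (a1_rz hF1).exists_prog
  obtain ⟨tN1, cN1, hN1⟩ := aN1_rz.exists_prog
  obtain ⟨tN2, cN2, hN2⟩ := aN2_rz.exists_prog
  obtain ⟨t3, c3, h3⟩ := (a3_rz hF3).exists_prog
  obtain ⟨s0, e0, g0⟩ := (xb0_rz hprm hC hFsh hFmd).exists_prog
  obtain ⟨sN0, e1, g1⟩ := xbN0_rz.exists_prog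
  obtain ⟨s1, e2, g2⟩ := (xb1_rz hF1).exists_prog
  obtain ⟨sN1, e3, g3⟩ := xbN1_rz.exists_prog
  obtain ⟨sN2, e4, g4⟩ := xbN2_rz.exists_prog
  obtain ⟨s3, e5, g5⟩ := (xb3_rz hF3 (fIt_rlz hFvt hFkh hFbt hFra)).exists_prog
  obtain ⟨sN3, e6, g6⟩ := xbN3_rz.exists_prog
  obtain ⟨s4, e7, g7⟩ := (xb4_rz hFde).exists_prog
  obtain ⟨sN4, e8, g8⟩ := xbN4_rz.exists_prog
  obtain ⟨s5, e9, g9⟩ := (xb5_rz (fLf_rlz hFA hFB hFC)).exists_prog
  obtain ⟨tI, f0, i0⟩ := inpOf_rz.exists_prog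
  obtain ⟨tQ, f1, i1⟩ := qOf_rz.exists_prog
  -- the constants
  obtain ⟨C₂, hC₂⟩ := theOut_cost (c := c0 + cN0 + c1 + cN1 + cN2 + c3) hC hok hmd
    (CB.mono (by omega) h0) (CB.mono (by omega) hN0) (CB.mono (by omega) h1)
    (CB.mono (by omega) hN1) (CB.mono (by omega) hN2) (CB.mono (by omega) h3)
  obtain ⟨C₃, hC₃⟩ := theOutK_cost (c := e0 + e1 + e2 + e3 + e4 + e5 + e6 + e7 + e8 + e9) hC hok
    hmd hde1 hde2 (CB.mono (by omega) g0) (CB.mono (by omega) g1) (CB.mono (by omega) g2)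
    (CB.mono (by omega) g3) (CB.mono (by omega) g4) (CB.mono (by omega) g5)
    (CB.mono (by omega) g6) (CB.mono (by omega) g7) (CB.mono (by omega) g8)
    (CB.mono (by omega) g9)
  obtain ⟨c', hc'⟩ := log_factor (f0 + f1) (2 ^ 15)
  obtain ⟨C₄, hC₄⟩ := exists_ext 128
  set C := C₂ + C₃ + C₄ + 2 * c' + 4 * C₀ + 52 with hCdef
  obtain ⟨A, hA1, hA2⟩ : ∃ A : POut Prt InpK,
      (∀ (L : Type) [Field L] (x : InpK.val L), (x.2.2.1 : ℕ) ≠ 0 →
      A.eval L x = (theOutK s0 sN0 s1 sN1 sN2 s3 sN3 s4 sN4 s5).eval L x ∧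
      A.steps L x = tQ.bcost L x +
        (theOutK s0 sN0 s1 sN1 sN2 s3 sN3 s4 sN4 s5).steps L x + 1) ∧
      ∀ (L : Type) [Field L] (x : InpK.val L), (x.2.2.1 : ℕ) = 0 →
      A.eval L x = (theOut t0 tN0 t1 tN1 tN2 t3).eval L (inpOf L x) ∧
      A.steps L x = tQ.bcost L x + (tI.bcost L x +
        (theOut t0 tN0 t1 tN1 tN2 t3).steps L (inpOf L x) + 1) + 1 :=
    ⟨_, fun L _ => (whole_run L (fun x => (i1 L x).1) (fun x => (i0 L x).1)).1,
      fun L _ => (whole_run L (fun x => (i1 L x).1) (fun x => (i0 L x).1)).2⟩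
  refine ⟨A, C, fun K _ _ p d _ hp hpd => ?_⟩
  have hprime : p.Prime := (CharP.char_is_prime_or_zero K p).resolve_right hp.ne'
  have : Fact p.Prime := ⟨hprime⟩
  have : PerfectRing K p := PerfectField.toPerfectRing p
  have hd : 1 ≤ d := by
    rcases Nat.eq_zero_or_pos d with rfl | h
    · simp at hpd
    · exact h
  obtain ⟨hκ, e, M₁, hq, hM1, hM2, hM3, hM4⟩ := hpar d p hprime hpd
  have hlen : len2 κ d p + len3 d (RF d) ≤ C * d ^ 3 :=
    (len_le hd (hC d p).1).trans (Nat.mul_le_mul_right _ (by omega))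
  -- the cost of the two small programs
  have hcost0 : ∀ (L : Type) [Field L] (x : InpK.val L), InpK.nmx L x ≤ 2 ^ 14 * (d + 1) ^ 9 →
      tQ.bcost L x ≤ c' * (Nat.log 2 d + 1) ^ c' ∧ tI.bcost L x ≤ c' * (Nat.log 2 d + 1) ^ c' := by
    intro L _ x hx
    have e1 : 1 ≤ (d + 1) ^ 9 := Nat.one_le_pow _ _ (by omega)
    have e2 := hc' d 0 (InpK.nmx L x) hd (by omega)
    have b1 : CB (f0 + f1) tQ qOf (fun _ _ _ => 0) := CB.mono (by omega) i1
    have b2 : CB (f0 + f1) tI inpOf (fun _ _ _ => 0) := CB.mono (by omega) i0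
    have e3 : c' * (Nat.log 2 d + 1) ^ c' * (0 + 1) = c' * (Nat.log 2 d + 1) ^ c' := by
      rw [Nat.zero_add, Nat.mul_one]
    exact ⟨((b1 L x).2).trans (e2.trans e3.le), ((b2 L x).2).trans (e2.trans e3.le)⟩
  have h19 : 1 ≤ (d + 1) ^ 9 := Nat.one_le_pow _ _ (by omega)
  have h29 : (d + 1) ^ 2 ≤ (d + 1) ^ 9 := Nat.pow_le_pow_right (by omega) (by omega)
  have hd9 : d ≤ (d + 1) ^ 9 := by nlinarith
  have hp9 : p ≤ (d + 1) ^ 9 := by nlinarith
  refine ⟨fun f hf => ⟨fun S hS => ?_, ?_⟩, ?_⟩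
  · -- large fields
    have hF : TD d (Φ K f) := by
      rw [← hf]
      exact hΦT K f
    have htop : ∃ j ≤ d, ((Φ K f).coeff j).coeff (d - j) ≠ 0 := by
      have h0 : f ≠ 0 := by
        intro h
        rw [h] at hf
        simp at hf
        omega
      obtain ⟨j, hj, hj'⟩ := hΦt K f h0
      rw [hf] at hj hj'
      exact ⟨j, hj, hj'⟩
    have hAr : ∀ n < (d + 1) * (d + 1), coeffArray K d f n = coeffs2 (d + 1) (Φ K f) n := by
      intro n hn
      rw [coeffArray, if_pos hn, coeffs2, hΦc]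
      rfl
    refine ⟨fun ω _ => ?_, ?_⟩
    · have e1 := (hA2 K (d, (p, (0, (0, (coeffArray K d f, tape ω))))) rfl).2
      rw [e1]
      obtain ⟨e2, e3⟩ := hcost0 K (d, (p, (0, (0, (coeffArray K d f, tape ω))))) (by
        change max d (max p (max 0 (max 0 (max 0 0)))) ≤ _
        simp only [max_le_iff]
        refine ⟨?_, ?_, ?_, ?_, ?_, ?_⟩ <;> omega)
      have e4 := hC₂ K d p (coeffArray K d f) (tape ω) hpd
      have e5 := steps_arith (C := C)
        (x₁ := tQ.bcost K (d, (p, (0, (0, (coeffArray K d f, tape ω))))) +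
          tI.bcost K (d, (p, (0, (0, (coeffArray K d f, tape ω))))) + 2)
        (Λ := Nat.log 2 d + 1) (c' := c') hd (by omega) (by omega) (by omega) e4
      refine le_trans (le_of_eq ?_) e5
      change tQ.bcost K (d, (p, (0, (0, (coeffArray K d f, tape ω))))) +
        (tI.bcost K (d, (p, (0, (0, (coeffArray K d f, tape ω))))) +
        (theOut t0 tN0 t1 tN1 tN2 t3).steps K
        (d, (p, (coeffArray K d f, tape ω))) + 1) + 1 = _
      ring
    · have hh := factors_count hsh hmd hok h1s h3s hΦc hΦm (L := K) (p := p) (d := d) hd hF htop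
        hκ hq hM1 hM2 hM3 hM4 hAr S (by omega) (M := C * d ^ 3)
        (by unfold len2 at hlen; omega) (fun x => (h0 K x).1) (fun x => (hN0 K x).1)
        (fun x => (h1 K x).1) (fun x => (hN1 K x).1) (fun x => (hN2 K x).1)
        (fun x => (h3 K x).1)
      refine le_trans (Nat.mul_le_mul_left 3 ?_) hh
      refine Finset.card_le_card ?_
      intro ω hω
      rw [Finset.mem_filter] at hω ⊢
      refine ⟨hω.1, fun hfact => hω.2 ⟨_, hfact, ?_⟩⟩
      have e1 := (hA2 K (d, (p, (0, (0, (coeffArray K d f, tape ω))))) rfl).1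
      rw [e1]
      have e2 : (Triple.map K K) = id := funext triple_map_self
      rw [e2, List.map_id]
      rfl
  · -- small fields
    intro _ L _ _ _ hc hc'
    have : Module.Finite K L := Module.Finite.of_finite
    have : Algebra.IsAlgebraic K L := Algebra.IsAlgebraic.of_finite K L
    obtain ⟨r, hp', hcardK⟩ := FiniteField.card K p
    have hcardL : Fintype.card L = Fintype.card K ^ Module.finrank K L :=
      Module.card_eq_pow_finrank
    have hE : 1 ≤ Module.finrank K L := Module.finrank_pos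
    have : CharP L p := charP_of_injective_algebraMap (algebraMap K L).injective p
    have : PerfectRing L p := PerfectRing.ofFiniteOfIsReduced p L
    have : CharP (AlgebraicClosure K) p :=
      charP_of_injective_algebraMap (algebraMap K (AlgebraicClosure K)).injective p
    let φ : L →ₐ[K] AlgebraicClosure K := IsAlgClosed.lift
    letI : Algebra L (AlgebraicClosure K) := φ.toRingHom.toAlgebra
    haveI : IsScalarTower K L (AlgebraicClosure K) :=
      IsScalarTower.of_algebraMap_eq fun x => (φ.commutes x).symm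
    have hc4 : (128 * d ^ 2) ^ 2 = 2 ^ 14 * d ^ 4 := by ring
    rw [hc4] at hc'
    have hKL : Fintype.card K ≤ Fintype.card L :=
      Fintype.card_le_of_injective _ (algebraMap K L).injective
    have hK0 : Fintype.card K ≠ 0 := Fintype.card_ne_zero
    have hF : TD d (Φ K f) := by
      rw [← hf]
      exact hΦT K f
    have htop : ∃ j ≤ d, ((Φ K f).coeff j).coeff (d - j) ≠ 0 := by
      have h0 : f ≠ 0 := by
        intro h
        rw [h] at hf
        simp at hf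
        omega
      obtain ⟨j, hj, hj'⟩ := hΦt K f h0
      rw [hf] at hj hj'
      exact ⟨j, hj, hj'⟩
    have hAr : ∀ n < (d + 1) * (d + 1), coeffArray L d f n =
        coeffs2 (d + 1) ((Φ K f).map (mapRingHom (algebraMap K L))) n := by
      intro n hn
      rw [coeffArray, if_pos hn, coeffs2, ← hΦm, hΦc, MvPolynomial.coeff_map]
    have h49 : d ^ 4 ≤ (d + 1) ^ 9 :=
      (Nat.pow_le_pow_left (Nat.le_succ d) 4).trans (Nat.pow_le_pow_right (by omega) (by omega))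
    refine ⟨fun ω _ => ?_, ?_⟩
    · have e1 := (hA1 L (d, (p, (Fintype.card K, (Fintype.card L,
        (coeffArray L d f, tape ω))))) hK0).2
      rw [e1]
      obtain ⟨e2, -⟩ := hcost0 L (d, (p, (Fintype.card K, (Fintype.card L,
        (coeffArray L d f, tape ω))))) (by
        change max d (max p (max (Fintype.card K) (max (Fintype.card L) (max 0 0)))) ≤ _
        simp only [max_le_iff]
        refine ⟨?_, ?_, ?_, ?_, ?_, ?_⟩ <;> omega)
      have e4 := hC₃ L d p (Fintype.card K) (Fintype.card L) (coeffArray L d f) (tape ω) hpd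
        hKL hc'
      have e5 := steps_arith (C := C)
        (x₁ := tQ.bcost L (d, (p, (Fintype.card K, (Fintype.card L,
          (coeffArray L d f, tape ω))))) + 1)
        (Λ := Nat.log 2 d + 1) (c' := c') hd (by omega) (by omega) (by omega) e4
      refine le_trans (le_of_eq ?_) e5
      ring
    · have hh := small_count (K := K) (L := L) (p := p) (r := r) (q := Fintype.card K)
        (E := Module.finrank K L) hcardK r.pos hE rfl hcardL hvt hkh hbt hra hA hB hC' hde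
        hsh hmd hok h1s h3s hΦc hΦm (f := f) hd hF htop hκ hq hM1 hM2 hM3 hM4 hAr hc hc'
        hlen (fun x => (g0 L x).1) (fun x => (g1 L x).1) (fun x => (g2 L x).1)
        (fun x => (g3 L x).1) (fun x => (g4 L x).1) (fun x => (g5 L x).1)
        (fun x => (g6 L x).1) (fun x => (g7 L x).1) (fun x => (g8 L x).1)
        (fun x => (g9 L x).1)
      rw [Finset.card_univ]
      refine le_trans (Nat.mul_le_mul_left 3 ?_) hh
      refine Finset.card_le_card ?_
      intro ω hω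
      rw [Finset.mem_filter] at hω ⊢
      refine ⟨hω.1, fun hfact => hω.2 ?_⟩
      have e1 := (hA1 L (d, (p, (Fintype.card K, (Fintype.card L,
        (coeffArray L d f, tape ω))))) hK0).1
      rw [e1]
      exact hfact
  · -- extensions
    intro _ hK
    rw [← Nat.card_eq_fintype_card] at hK
    obtain ⟨L, i1, i2, i3, h1, h2, h3⟩ := hC₄ K d hd hK
    have : Finite L := Module.finite_of_finite K
    letI : Fintype L := Fintype.ofFinite L
    refine ⟨L, i1, Fintype.ofFinite L, i2, ?_, ?_, h3.trans (Nat.mul_le_mul_right _ (by omega))⟩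
    · rw [← Nat.card_eq_fintype_card]
      exact h1
    · rw [← Nat.card_eq_fintype_card]
      exact h2

end Pool.Agent.AbsIrr
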